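import Pool.Agent.Mg.F32a90ap.G4fb964

section

set_option autoImplicit false

namespace Pool.Agent.MP_32a90a_pr.D

open Finset Filter Pool.Agent.MP_32a90a_pr Pool.Agent.MP_32a90a_pr.L

namespace WideJ

lemma num (K : ℝ) : ∀ᶠ d : ℕ in atTop, 3 ≤ d ∧ 1 ≤ ell d ∧ 400 * K ^ 2 * ell d ≤ d ∧
    Real.exp (102 * Lam d) ≤ (d : ℝ) ^ 2 ∧ 256 * K ^ 2 * ell d ^ 3 ≤ Real.exp (Lam d) ∧
    0 ≤ lll d ∧ lll d ≤ Lam d ∧ y0 d ^ 2 * ell d * lll d ≤ Lam d := by
  have t1 : Tendsto ell atTop atTop := Real.tendsto_log_atTop.comp tendsto_natCast_atTop_atTop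
  have t2 : Tendsto lll atTop atTop := Real.tendsto_log_atTop.comp t1
  filter_upwards [eventually_ge_atTop 3, t1.eventually_ge_atTop 1,
    t1.eventually_ge_atTop (800 * K ^ 2), t2.eventually_ge_atTop 750000,
    t2.eventually_ge_atTop (256 * K ^ 2)] with d h3 h1 h2 h4 h5
  have hd : (0 : ℝ) < d := by exact_mod_cast (by omega : 0 < d)
  have e1 : Real.exp (ell d) = d := Real.exp_log hd
  have e2 : Real.exp (lll d) = ell d := Real.exp_log (show 0 < ell d by linarith)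
  have e3 : y0 d ^ 2 * Real.exp (lll d / 50) = 1 := by
    rw [y0, ← e2, ← Real.exp_mul, ← Real.exp_nat_mul, ← Real.exp_add,
      Real.exp_eq_one_iff]
    push_cast
    ring
  obtain ⟨t, ht⟩ : ∃ t, t = lll d := ⟨_, rfl⟩
  obtain ⟨s, hs⟩ : ∃ s, s = Real.sqrt t := ⟨_, rfl⟩
  have hL : Lam d = ell d / s := by rw [hs, ht, Lam]
  rw [← ht] at h4 h5 e2 e3 ⊢
  have s1 : s ^ 2 = t := by rw [hs]; exact Real.sq_sqrt (by linarith)
  have s2 : 51 ≤ s := by rw [hs]; exact Real.le_sqrt_of_sq_le (by linarith)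
  have s3 : s ≤ t := by nlinarith
  have a1 : t ^ 2 ≤ Real.exp (t / 50) := by
    have := Real.pow_div_factorial_le_exp (t / 50) (by linarith) 3
    norm_num [Nat.factorial] at this
    nlinarith [sq_nonneg t]
  have a2 : t ^ 2 * t ^ 2 ≤ ell d := by
    rw [← e2]
    refine (mul_le_mul a1 a1 (sq_nonneg _) (Real.exp_pos _).le).trans ?_
    rw [← Real.exp_add]
    exact Real.exp_le_exp.2 (by linarith)
  have a3 : t ^ 2 ≤ Lam d := by
    rw [hL, le_div_iff₀ (by linarith)]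
    exact (mul_le_mul_of_nonneg_left (by nlinarith) (sq_nonneg t)).trans a2
  refine ⟨h3, h1, ?_, ?_, ?_, by linarith, by nlinarith, ?_⟩
  · have := Real.pow_div_factorial_le_exp (ell d) (by linarith) 2
    norm_num [Nat.factorial] at this
    nlinarith
  · rw [← e1, ← Real.exp_nat_mul, hL]
    refine Real.exp_le_exp.2 ?_
    rw [← mul_div_assoc, div_le_iff₀ (by linarith)]
    push_cast
    nlinarith
  · rw [← e2, ← Real.exp_nat_mul]
    refine (mul_le_mul_of_nonneg_right (h5.trans (by linarith [Real.add_one_le_exp t] :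
      t ≤ Real.exp t)) (Real.exp_pos _).le).trans ?_
    rw [← Real.exp_add]
    refine Real.exp_le_exp.2 ?_
    push_cast
    nlinarith
  · rw [hL, le_div_iff₀ (by linarith)]
    have b1 : t * s ≤ Real.exp (t / 50) := by nlinarith
    have b2 := mul_le_mul_of_nonneg_left b1 (sq_nonneg (y0 d))
    nlinarith

lemma rL_mono {d : ℕ} {r : Bool → ℤ → ℝ} (hr : ∀ b l, 0 ≤ r b l) {L L' : ℝ} (h : L ≤ L') :
    rL d r L ≤ rL d r L' := by
  have : ∀ b, rB d r b L ≤ rB d r b L' := fun b => sum_le_sum fun l _ =>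
    mul_le_mul_of_nonneg_right (ind_mono fun e => e.trans h) (hr b l)
  exact add_le_add (this _) (this _)

lemma TG_ok (d : ℕ) (y : ℝ) : ∀ t ∈ TG d y, 0 < t.2.1 ∧ t.2.1 ≤ 1 / 2 := by
  intro t ht
  rcases mem_insert.1 ht with rfl | ht
  · norm_num
  · obtain ⟨g, -, rfl⟩ := mem_image.1 ht
    have h1 : 0 < kG g := by unfold kG; positivity
    have h2 : kG g ≤ 1 / 2 := one_div_le_one_div_of_le two_pos
      (le_self_pow₀ one_le_two (by positivity))
    exact ⟨by positivity, by nlinarith⟩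

variable {V E : Type} [Fintype V] [DecidableEq V] [Fintype E] [DecidableEq E]

lemma full_ok {d : ℕ} {P : Pk V E} (h : P.Ok d) (hd : 3 ≤ d) (w : E × Bool → V) (J : E → Bool) :
    (P.full w J).cas.Ok := by
  obtain ⟨-, -, -, -, -, h1, -, h2, h3, -, h4, -⟩ := h
  have q0 : 0 < qq d := Real.exp_pos _
  have q1 : qq d < 1 := by
    have : (0 : ℝ) < d := by exact_mod_cast (by omega : 0 < d)
    exact Real.exp_lt_one_iff.2 (neg_lt_zero.2 (by positivity))
  have hp := Sys.p_pos (S := P.full w J) (show 0 < P.ρ by rw [h4]; positivity)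
    (show P.ρ < 1 by rw [h4]; nlinarith)
  exact ⟨lt_of_lt_of_le one_pos h1, lt_of_lt_of_le (by positivity) h2,
    h3.trans (pow_le_one₀ q0.le q1.le), fun g => (hp g).le, ⟨(fun _ => true, fun _ => none), hp _⟩⟩

lemma node {d : ℕ} {P : Pk V E} (h : P.Ok d) (hd : 3 ≤ d) {w0 : E × Bool → V}
    {p q : (E × Bool → V) → (E → Bool) → ((V → Bool) → ℝ) → Prop}
    (h1 : (P.EP w0 fun w J μ => ind (p w J μ)) + (P.EP w0 fun w J μ => ind (q w J μ)) < 1) :
    ∃ w J μ, ¬ p w J μ ∧ ¬ q w J μ := by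
  by_contra hn
  push Not at hn
  refine h1.not_ge ?_
  unfold Pk.EP
  rw [← ED_add]
  refine const_le_ED fun w J => ?_
  unfold Sys.EN Cas.EN
  rw [← Cas.P_add]
  refine Cas.const_le_P (full_ok h hd w J) fun g _ => ?_
  by_cases e : p w J (P.mu w J (rS P.T g.1))
  · simp only [ind_pos e, le_add_iff_nonneg_right, ind_nonneg]
  · simp only [ind_pos (hn _ _ _ e), le_add_iff_nonneg_left, ind_nonneg]

lemma kap {K l d z X : ℝ} (hK : 1 ≤ K) (hl : 1 ≤ l) (hd : 0 < d) (hz : 0 < z) (h1 : 1 ≤ d * z)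
    (hX : 0 < X) : 1 / (z / (64 * (X * (K * (√(d * z * l) + l)) ^ 2 * l / d)))
      ≤ X * (256 * K ^ 2 * l ^ 3) := by
  have h2 : √(d * z * l) ^ 2 = d * z * l := Real.sq_sqrt (by positivity)
  have h3 : (√(d * z * l) + l) ^ 2 ≤ 4 * l ^ 2 * (d * z) := by
    have h4 : l ^ 2 ≤ l ^ 2 * (d * z) := le_mul_of_one_le_right (sq_nonneg _) h1
    have h5 : d * z * l ≤ l ^ 2 * (d * z) := by nlinarith [mul_pos hd hz]
    nlinarith [sq_nonneg (√(d * z * l) - l)]
  rw [one_div_div, div_le_iff₀ hz, ← mul_div_assoc, div_le_iff₀ hd, mul_pow]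
  have h6 := mul_le_mul_of_nonneg_left h3 (show 0 ≤ 64 * X * K ^ 2 * l by positivity)
  nlinarith

end WideJ

open WideJ in
theorem stWide (hRegP : StRegP) (hSoft : StSoft) (hSmall : StSmall) (hGroup : StGroup) :
    StWide := by
  obtain ⟨K1, k1, hS⟩ := hSoft
  obtain ⟨K2, k2, hG⟩ := hGroup
  refine ⟨140 * K1 * K2, by nlinarith, fun C c hT => ?_⟩
  filter_upwards [hRegP C c hT, hS, hSmall, hG, num K1] with d hR hS hM ⟨e0, he0, hG⟩
    ⟨n1, n2, n3, n4, n5, n6, n7, n8⟩ y hy hy'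
  have hd : (3 : ℝ) ≤ d := by exact_mod_cast n1
  have hd0 : (0 : ℝ) < d := by linarith
  obtain ⟨ε, hε, hR⟩ := hR (TG d y) (min e0 (1 / (d : ℝ) ^ 10)) (TG_ok d y) (by positivity)
  refine ⟨ε, hε, (hR.and (Big.card d (fun N => 1 ≤ N) (eventually_ge_atTop 1))).mono ?_⟩
  intro V E _ _ _ _ w0 _ ⟨hR, hV⟩ P r c' cp hE hP hF hN hL
  have : Nonempty V := Fintype.card_pos_iff.1 hV
  have hV' : (0 : ℝ) < Fintype.card V := by exact_mod_cast hV
  have hs : sm 50 d ≤ 1 / 2 := (sm_le_inv (by norm_num) n1).trans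
    (one_div_le_one_div_of_le two_pos (by linarith))
  obtain ⟨w, J, μ, h1, h2⟩ := node hE.1.1 n1 (w0 := w0) (p := fun _ _ μ => zz μ crd ≤ z1 d)
    (q := fun w J μ => ¬ Reg d C c (min e0 (1 / (d : ℝ) ^ 10)) P.y (TG d y) r P.Z P.A w J μ)
    (by have := hR P r c' cp hE; have := not_le.1 hN; linarith)
  rw [not_not, hP] at h2
  rw [not_le] at h1
  have hr : ∀ b l, 0 ≤ r b l := fun b l => (hF.1 b l).1
  have z0 : 1 / (d : ℝ) ≤ z1 d :=
    div_le_div_of_nonneg_right (Real.one_le_rpow n2 (by norm_num)) hd0.le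
  have z1' : 0 < z1 d := lt_of_lt_of_le (by positivity) z0
  have z2 : zz μ crd ≤ 1 / 2 := avg_le_const (by norm_num) fun _ => kt_le_half _
  have a1 := hS V E C c _ y _ r _ _ w J μ h2 (min_le_right _ _) (by linarith)
  obtain ⟨a2, a3⟩ := hM V E C c _ y _ _ r _ _ w J μ h2 (min_le_right _ _) hr (by linarith) a1
  have y1 : y ≤ 1 / 1000 := by
    have := hE.1.1.2.2.2.2.2.2.2.2.2.1
    rw [hP] at this
    exact this.trans (by norm_num)
  obtain ⟨-, a4⟩ := hG V E C c _ y r _ _ w J μ h2 (min_le_left _ _) hy y1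
  obtain ⟨z, hz⟩ : ∃ z, z = zz μ crd := ⟨_, rfl⟩
  rw [← hz] at h1 z2 a2 a3
  have z3 : 0 < z := z1'.trans h1
  have z4 : 1 ≤ d * z := by
    have := (div_le_iff₀ hd0).1 (z0.trans h1.le)
    linarith
  have s0 := Real.sqrt_nonneg (d * z * ell d)
  have L1 : 1 ≤ Lz K1 d z := by unfold Lz; nlinarith
  have L2 : 10 * Lz K1 d z ≤ d := by
    have b1 : √(d * z * ell d) ≤ d / (20 * K1) := by
      refine Real.sqrt_le_iff.2 ⟨by positivity, ?_⟩
      rw [div_pow, le_div_iff₀ (by positivity)]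
      nlinarith [mul_le_mul_of_nonneg_left n3 hd0.le, mul_pos hd0 (by positivity :
        0 < K1 ^ 2 * ell d)]
    rw [le_div_iff₀ (by positivity)] at b1
    have b2 : K1 * ell d ≤ K1 ^ 2 * ell d :=
      mul_le_mul_of_nonneg_right (by nlinarith) (by linarith)
    unfold Lz
    linarith
  have a5 := hL _ L1 L2
  have a6 := kap k1 n2 hd0 z3 z4 (Real.exp_pos (101 * Lam d))
  have a7 := a3 _ a5
  change 1 / (z / (64 * (Real.exp (101 * Lam d) * Lz K1 d z ^ 2 * ell d / d))) ≤ _ at a6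
  obtain ⟨R, hRb⟩ : ∃ R, R = Real.exp (101 * Lam d) * Lz K1 d z ^ 2 * ell d / d := ⟨_, rfl⟩
  rw [← hRb] at a5 a6 a7
  have R0 : 0 < R := by linarith
  have a8 : 1 / (z / (64 * R)) ≤ Real.exp (102 * Lam d) := by
    refine a6.trans ((mul_le_mul_of_nonneg_left n5 (Real.exp_pos _).le).trans_eq ?_)
    rw [← Real.exp_add]
    congr 1
    ring
  have k0 : 0 < z / (64 * R) := by positivity
  have a9 := a4 (z / (64 * R)) ((one_div_le (by positivity) k0).2 (a8.trans n4))
    (by rw [div_le_iff₀ (by positivity)]; linarith)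
  have b1 : Real.log (1 / (z / (64 * R))) ≤ 102 * Lam d :=
    (Real.log_le_iff_le_exp (by positivity)).2 a8
  have b2 : y ^ 2 * ell d * lll d ≤ Lam d := by
    have y2 : 0 ≤ y := le_trans (by positivity) hy
    refine le_trans ?_ n8
    gcongr
  have b3 : y ^ 2 * d * (3 / 4 * z) ≤ K2 * (104 * Lam d) := by
    refine le_trans ?_ (a9.trans (mul_le_mul_of_nonneg_left (by linarith) (by linarith)))
    rw [le_div_iff₀ hV', mul_assoc (y ^ 2 * d)]
    exact mul_le_mul_of_nonneg_left a7 (by positivity)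
  have b4 : 0 ≤ K2 * Lam d := mul_nonneg (by linarith) (by linarith)
  refine ⟨z, h1.le, z2, by nlinarith, a2.trans (rL_mono hr ?_)⟩
  unfold Lz
  exact mul_le_mul_of_nonneg_right (by nlinarith) (by linarith)

end Pool.Agent.MP_32a90a_pr.D

end

section

set_option autoImplicit false

namespace Pool.Agent.MP_32a90a_pr.D

open Finset Equiv Filter Pool.Agent.MP_32a90a_pr Pool.Agent.MP_32a90a_pr.L

namespace FlexLoJ

lemma zz_le {Sg A : Type} [Fintype Sg] [Fintype A] [DecidableEq A] {μ : Sg → ℝ} (h : Prob μ)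
    (ph ph' : A → Sg → Bool) (I : Finset A) (hI : ∀ a, a ∉ I → ph' a = ph a) :
    zz μ ph' ≤ zz μ ph + I.card / Fintype.card A := by
  have e : (avg fun a => ind (a ∈ I)) = I.card / Fintype.card A := by
    rw [avg, sum_ind]
    simp
  rw [← e, zz, zz, ← avg_add]
  refine avg_mono fun a => ?_
  by_cases ha : a ∈ I
  · rw [ind_pos ha]
    linarith [kt_le_half (μ := μ) (ph' a), h.kt_nonneg (ph a)]
  · rw [ind_neg ha, hI a ha, add_zero]

lemma avg_eq {A : Type} [Fintype A] (a : A) : (avg fun a' => ind (a = a')) = 1 / Fintype.card A := by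
  classical
  rw [avg, sum_ind, Finset.filter_eq]
  simp

lemma prob (hTower : StTower) {Sg G0 A Nd : Type} [Fintype Sg] [Nonempty Sg] [Fintype G0]
    [Nonempty G0] [Fintype A] [DecidableEq A] {S : Sys Sg G0 A} {d : ℕ} (hp : S.Par d)
    (hd : 3 ≤ d) (nd : G0 → Nd) (g : Gam G0 A) : Prob (S.mu nd (nd g.1)) :=
  (hTower Sg _ Nd S.cas (fun g => nd g.1) (hp.ok hd)).1 g
    (Sys.p_pos hp.2.2.2.2.1 (hp.rho_lt hd) g)

lemma mul_bd {p q : Prop} : 0 ≤ ind p * ind q ∧ ind p * ind q ≤ 1 := by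
  rw [← ind_and]
  exact ⟨ind_nonneg _, ind_le_one _⟩

/-- many pool positions are flexible -/
lemma pool (hSv : StSv) {Sg G0 A : Type} [Fintype Sg] [Nonempty Sg] [Fintype G0]
    [Nonempty G0] [Fintype A] [DecidableEq A] {S : Sys Sg G0 A} {d : ℕ} {lam : ℝ} (hp : S.Par d)
    (hd : 3 ≤ d) (h1 : S.D1 d lam) (p : G0 → Prop) :
    (lam - 2) / d * (S.P fun g _ => ind (p g.1)) - 3 * sm 200 d - 2 * Real.exp (-S.β) ≤
      avg fun a => S.P fun g _ =>
        ind (p g.1) * ind (Real.exp (-(3 * S.β)) ≤ mn (S.nu g) (S.sp a)) := by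
  have ok := hp.ok hd
  have := hp.nonempty
  have hN := Cas.N_pos ok
  obtain ⟨-, a2, -, a4⟩ := h1.2.2 (fun _ _ => 0) ∅ (fun g _ => ind (p g)) 1
    ⟨fun _ _ => by simp, by simp, fun _ _ => ind_nonneg _, fun _ _ => ind_le_one _⟩
  have o : ∀ g : Gam G0 A, oI ∅ g = 1 := fun g => ind_pos (by simp)
  simp only [Sys.EI, Sys.add_zero', o, one_mul, mul_one] at a2 a4
  have b0 : (S.E fun g _ => ind (p g.1)) ≤ S.N := Cas.E_mono ok fun _ _ => ind_le_one _
  have b1 : (S.E fun g σ => ind (p g.1) * avg fun a => 1 - oA ∅ a g * S.Sv 2 a g σ) ≤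
      (S.E fun g _ => ind (p g.1) * avg fun a => 1 - oA ∅ a g) +
        S.E fun g σ => avg fun a => ind (p g.1) * (1 - S.Sv 2 a g σ) := by
    rw [Sys.E, Sys.E, Sys.E, ← Cas.E_add]
    refine Cas.E_mono ok fun g σ => ?_
    rw [avg_mul, ← mul_add, ← avg_add]
    refine mul_le_mul_of_nonneg_left (avg_mono fun a => ?_) (ind_nonneg _)
    obtain ⟨-, c2, c3, -⟩ := hSv _ _ _ S d hd hp a g σ
    have := c2 0 2 (by norm_num)
    rcases ind_cases (a ∉ (∅ : Finset A) ∧ g.2 a = none) with e | e <;> rw [oA, e] <;> linarith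
  have b2 : (S.E fun g σ => avg fun a => ind (p g.1) * (1 - S.Sv 2 a g σ)) ≤
      (avg fun a => S.E fun g _ =>
        ind (p g.1) * ind (Real.exp (-(3 * S.β)) ≤ mn (S.nu g) (S.sp a))) +
      2 * Real.exp (-S.β) * S.N := by
    rw [Sys.E, Cas.E_avg, ← avg_const (α := A) (2 * Real.exp (-S.β) * S.N), ← avg_add]
    refine avg_mono fun a => ?_
    rw [← Cas.E_Ex, Sys.E, Sys.N, ← Cas.E_const, ← Cas.E_add]
    refine Cas.E_mono ok fun g σ => ?_
    rw [Ex_mul]
    have c := (hSv _ _ _ S d hd hp a g σ).2.2.2.2.2.1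
    have := Real.exp_pos (-S.β)
    rcases ind_cases (p g.1) with e | e <;> rw [e] <;> linarith
  have s0 := sm_pos 200 d
  have b3 : (avg fun a => S.P fun g _ =>
        ind (p g.1) * ind (Real.exp (-(3 * S.β)) ≤ mn (S.nu g) (S.sp a))) =
      (avg fun a => S.E fun g _ =>
        ind (p g.1) * ind (Real.exp (-(3 * S.β)) ≤ mn (S.nu g) (S.sp a))) / S.N :=
    avg_div _ _
  rw [b3, le_div_iff₀ hN, sub_mul, sub_mul, mul_assoc, ← Cas.E_eq_P_mul ok]
  linarith [mul_le_mul_of_nonneg_left b0 s0.le]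

variable {V E : Type} [Fintype V] [DecidableEq V] [Fintype E] [DecidableEq E] {d : ℕ}
  {P : Pk V E} {lam s e : ℝ}

/-- one-sided stability of the widths -/
def Wd (P : Pk V E) (d : ℕ) (s e : ℝ) : Prop :=
  ∀ (w : E × Bool → V) (S S' : Sys (V → Bool) (V → Bool) (cav P.U))
    (D : (V → Bool) → (V → Bool) → ℝ) (I : Finset (cav P.U)) (γ : V → Bool),
    Deg w d → S.Par d → S.β = P.β → S.Near S' D I (dlq d) → I.card ≤ d + 2 →
    (∀ g σ, |D g σ| ≤ 3 * d) → c2 (S.mu (rS P.T) (rS P.T γ)) crd ≤ e →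
    zz (S'.mu (rS P.T) (rS P.T γ)) crd ≤ zz (S.mu (rS P.T) (rS P.T γ)) crd + s ∧
      P.zA w (S'.mu (rS P.T) (rS P.T γ)) ≤ P.zA w (S.mu (rS P.T) (rS P.T γ)) + s ∧
      c2 (S'.mu (rS P.T) (rS P.T γ)) crd ≤ s

/-- probability that the first end of the slot i is flexible -/
noncomputable def Fi (P : Pk V E) (d : ℕ) (lam : ℝ) (i : E) (w : E × Bool → V) (J : E → Bool) :
    ℝ := (P.full w J).P fun g _ => ind (P.Ev d lam 2 w (P.mu w J (rS P.T g.1))) *
      ind (w (i, false) ∈ flex ((P.full w J).nu g) (Real.exp (-(6 * P.β))))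

/-- good nodes -/
def Gn (P : Pk V E) (d : ℕ) (lam t e : ℝ) (w : E × Bool → V)
    (S : Sys (V → Bool) (V → Bool) (cav P.U)) (γ : V → Bool) : Prop :=
  P.Ev d lam t w (S.mu (rS P.T) (rS P.T γ)) ∧ c2 (S.mu (rS P.T) (rS P.T γ)) crd ≤ e

lemma Fi_bd (hL : P.Lg d) (i : E) (w : E × Bool → V) (J : E → Bool) :
    0 ≤ Fi P d lam i w J ∧ Fi P d lam i w J ≤ 1 := by
  have hd : 3 ≤ d := by have := hL.1; omega
  have ok := (show (P.full w J).Par d from hL.2.1 _ _ _).ok hd
  exact ⟨Cas.P_nonneg ok fun _ _ => mul_bd.1, Cas.P_le_const ok fun _ _ => mul_bd.2⟩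

lemma z1_ge (hd : 3 ≤ d) : 4 * sm 300 d ≤ z1 d := by
  have hd' : (3 : ℝ) ≤ d := by exact_mod_cast hd
  have a1 := mul_sm_le (a := 4) 299 hd (by linarith)
  have a2 := sm_le_inv (k := 299) (by norm_num) hd
  have a3 : 1 / ((d : ℝ) + 1) ≤ z1 d :=
    div_le_div₀ (Real.rpow_nonneg (Real.log_natCast_nonneg d) _)
      (Real.one_le_rpow (one_le_log hd) (by norm_num)) (by linarith) (by linarith)
  norm_num at a1
  linarith

variable [Nonempty V]

lemma cutS (hNearCut : StNearCut) (hStab : StStab) (hO : P.Ok d) (hL : P.Lg d)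
    {w : E × Bool → V} (hw : Deg w d) (J : E → Bool) (i : E) {e' : ℝ} (hW : Wd P d s e')
    (hs : s ≤ z1 d / 200) (hse : s ≤ e) (hl : 0 ≤ lam) :
    Real.exp (-(2 * P.y)) * ((P.full w J).P fun g _ => ind (Gn P d lam 0 e' w (P.full w J) g.1))
      - sm 250 d ≤ (P.cut w J i).P fun g _ => ind (Gn P d lam 1 e w (P.cut w J i) g.1) := by
  have hd : 3 ≤ d := by have := hL.1; omega
  have hd' : (3 : ℝ) ≤ d := by exact_mod_cast hd
  have hp : (P.full w J).Par d := hL.2.1 _ _ _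
  obtain ⟨-, hn, h1⟩ := (hNearCut V E d P w J hO hw).1 i
  have hD : ∀ (_ : V → Bool) σ, |-sl (P.s J) w σ i| ≤ 1 := fun _ σ => by
    rw [abs_neg]; exact h1 σ
  have hD' : ∀ (g : V → Bool) σ, |-sl (P.s J) w σ i| ≤ 3 * d := fun g σ =>
    (hD g σ).trans (by linarith)
  have a := (hStab _ _ _ (P.full w J) d _ _ _ _ hL.1 hp hn (by simp) hL.2.2.2.2.2.1 hD').2.2.2 1
    hD hL.2.2.2.2.1 (fun g => ind (Gn P d lam 0 e' w (P.full w J) g.1))
    (fun g => ind (Gn P d lam 1 e w (P.cut w J i) g.1)) (fun _ => ⟨ind_nonneg _, ind_le_one _⟩)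
    (fun _ => ⟨ind_nonneg _, ind_le_one _⟩) fun g _ => ind_mono fun h => by
      obtain ⟨b1, b2, b3⟩ := hW w _ _ _ _ g.1 hw hp rfl hn (by simp) hD' h.2
      obtain ⟨⟨c1, c2⟩, -⟩ := h
      have c3 : 0 ≤ lam / d := by positivity
      have c4 := z1_ge hd
      have c5 := sm_pos 300 d
      exact ⟨⟨by linarith, by linarith⟩, b3.trans hse⟩
  rwa [mul_one] at a

lemma join (hJoinCut : StJoinCut) (hStab : StStab) (hTower : StTower) (hNear : StNear)
    (hBd : StBd) (hMinor : StMinor) (hO : P.Ok d) (hL : P.Lg d) {w : E × Bool → V}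
    (hw : Deg w d) (J : E → Bool) {i : E} (hi : i ∈ fair P.Z P.A) (hW : Wd P d s e)
    (hs : s ≤ z1 d / 200) (hl : 0 ≤ lam) {a a' : cav P.U} (ha : a ≠ a') (b : Bool) :
    Real.exp (-(2 * P.y)) * ((P.cut w J i).P fun g _ => ind (Gn P d lam 1 e w (P.cut w J i) g.1) *
        ind (Real.exp (-(3 * P.β)) ≤ mn ((P.cut w J i).nu g) ((P.cut w J i).sp a))) - sm 250 d
      ≤ Fi P d lam i (w ∘ ex i a a') (Function.update J i b) := by
  have hd : 3 ≤ d := by have := hL.1; omega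
  have hd' : (3 : ℝ) ≤ d := by exact_mod_cast hd
  have hp : (P.cut w J i).Par d := hL.2.1 _ _ _
  have hp' : (P.jn w J i a a' b).Par d := hL.2.1 _ _ _
  obtain ⟨hn, e1, -⟩ := (hJoinCut V E d P w J i hO hL hw hi).2 a a' ha b
  have hI : ({a, a'} : Finset (cav P.U)).card ≤ 2 := card_le_two
  have hI' : ({a, a'} : Finset (cav P.U)).card ≤ d + 2 := by omega
  have hD : ∀ g σ, |(P.cut w J i).De a a' b g σ| ≤ 1 := fun g σ => by
    rw [Sys.De, abs_mul, abs_mul, abs_sgn, abs_sgn, abs_sgn]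
    linarith
  have hD' : ∀ g σ, |(P.cut w J i).De a a' b g σ| ≤ 3 * d := fun g σ =>
    (hD g σ).trans (by linarith)
  have c4 := z1_ge hd
  have c5 := sm_pos 300 d
  have a1 := (hStab _ _ _ (P.cut w J i) d _ _ _ _ hL.1 hp hn hI' hL.2.2.2.2.2.1 hD').2.2.2 1
    hD hL.2.2.2.2.1 (fun g => ind (Gn P d lam 1 e w (P.cut w J i) g.1) *
        ind (Real.exp (-(3 * P.β)) ≤ mn ((P.cut w J i).nu g) ((P.cut w J i).sp a)))
    (fun g => ind (P.Ev d lam 2 (w ∘ ex i a a') ((P.jn w J i a a' b).mu (rS P.T) (rS P.T g.1))) *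
      ind (w a ∈ flex ((P.jn w J i a a' b).nu g) (Real.exp (-(6 * P.β)))))
    (fun _ => mul_bd) (fun _ => mul_bd) fun g hg => by
      rw [← ind_and, ← ind_and]
      refine ind_mono fun h => ⟨?_, ?_⟩
      · obtain ⟨b1, b2, -⟩ := hW w _ _ _ _ g.1 hw hp rfl hn hI' hD' h.1.2
        obtain ⟨⟨⟨c1, c2⟩, -⟩, -⟩ := h
        have c3 : 0 ≤ lam / d := by positivity
        have b3 : P.zA (w ∘ ex i a a') ((P.jn w J i a a' b).mu (rS P.T) (rS P.T g.1)) ≤
            P.zA w ((P.jn w J i a a' b).mu (rS P.T) (rS P.T g.1)) + _ :=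
          zz_le (prob hTower hp' hd (rS P.T) g) (P.cut w J i).sp (P.jn w J i a a' b).sp _
            hn.2.2.2.2.2.2
        have b4 : (({a, a'} : Finset (cav P.U)).card : ℝ) / Fintype.card (cav P.U)
            ≤ 2 * sm 300 d := by
          have := hp.nonempty
          have b5 : 1 ≤ sm 300 d * Fintype.card (cav P.U) := hp.2.2.2.2.2.2.2.2.2.2
          have b6 : (({a, a'} : Finset (cav P.U)).card : ℝ) ≤ 2 := by exact_mod_cast hI
          rw [div_le_iff₀ (by exact_mod_cast Fintype.card_pos)]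
          linarith
        exact ⟨by linarith, by linarith⟩
      · have b1 := fun σ => ((hNear _ _ _ (P.cut w J i) d _ _ _ _ hL.1 hp hn hI').2.1 g σ hg).2
        have b2 := fun σ => ((hBd _ _ (P.cut w J i).cas (fun g σ => (P.cut w J i).De a a' b g.1 σ)
          1 (hp.ok hd) fun g σ _ => hD g.1 σ).2.2.2 g σ
            (Sys.p_pos hp.2.2.2.2.1 (hp.rho_lt hd) g)).2
        rw [← Sys.cas_add] at b2
        have b3 := (hMinor _ ((P.cut w J i).nu g) ((P.jn w J i a a' b).nu g) ((P.cut w J i).sp a)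
          (Real.exp (-(2 * P.β * dlq d)) * Real.exp (-(2 * P.β * 1))) (Cas.nu_prob _)
          (Cas.nu_prob _) (by positivity) fun σ => by
            rw [mul_assoc]
            exact (mul_le_mul_of_nonneg_left (b2 σ) (Real.exp_pos _).le).trans (b1 σ)).1
        refine mem_filter.2 ⟨mem_univ _, le_trans ?_ ((mul_le_mul_of_nonneg_left h.2
          (by positivity)).trans b3)⟩
        rw [← Real.exp_add, ← Real.exp_add]
        have b4 := sm_le_inv (k := 300) (by norm_num) hd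
        have b5 : 1 / ((d : ℝ) + 1) ≤ 1 / 2 := one_div_le_one_div_of_le two_pos (by linarith)
        exact Real.exp_le_exp.2 (by linarith [hL.2.2.2.2.1, hO.2.2.2.2.2.1])
  rw [mul_one] at a1
  rw [Fi, e1]
  exact a1

lemma slot (hD1 : StD1) (hNearCut : StNearCut) (hJoinCut : StJoinCut) (hStab : StStab)
    (hEX : StEX) (hTower : StTower) (hSv : StSv) (hNear : StNear) (hBd : StBd) (hMinor : StMinor)
    (hO : P.Ok d) (hL : P.Lg d) {w0 : E × Bool → V} (hw : Deg w0 d) {i : E}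
    (hi : i ∈ fair P.Z P.A) {s' e' c cp eR : ℝ} (hW : Wd P d s e) (hW' : Wd P d s' e')
    (hs : s ≤ z1 d / 200) (hs' : s' ≤ z1 d / 200) (hse : s' ≤ e) (hl : 4 ≤ lam)
    (hlam : lam = d * (1 - c) + 1) (hb : Real.exp (-P.β) ≤ sm 200 d) (he' : 0 < e') (heR : 0 < eR)
    (hR : ∀ w J, Deg w d →
      ((P.full w J).P fun g σ => ind (¬ (P.full w J).Good c cp (qq d) g σ)) ≤ eR →
      (P.cut w J i).Rig d c cp) :
    Real.exp (-(2 * P.y)) ^ 2 * ((lam - 2) / d) * ((P.EP w0 fun w _ μ => ind (P.Ev d lam 0 w μ))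
      - (P.EP w0 fun _ _ μ => c2 μ crd) / e'
      - (P.EQ w0 fun w J g σ => ind (¬ (P.full w J).Good c cp (qq d) g σ)) / eR) - 9 * sm 200 d
      ≤ ED w0 (Fi P d lam i) := by
  have hd : 3 ≤ d := by have := hL.1; omega
  have hd' : (3 : ℝ) ≤ d := by exact_mod_cast hd
  have hp : ∀ w J, (P.cut w J i).Par d := fun _ _ => hL.2.1 _ _ _
  have hpf : ∀ w J, (P.full w J).Par d := fun _ _ => hL.2.1 _ _ _
  have hne := (hp w0 fun _ => true).nonempty
  have s0 := sm_pos 200 d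
  have s1 := sm_anti (k := 200) (k' := 250) (by norm_num) d
  have s2 := sm_anti (k := 200) (k' := 300) (by norm_num) d
  have s3 := sm_pos 250 d
  have hU : P.U.Nonempty := by
    obtain ⟨a, ha⟩ := hne
    exact ⟨a.1, (mem_product.1 ha).1⟩
  have a1 := (abs_le.1 (hEX V E w0 P.U i (Fi P d lam i) 1 hU fun w J =>
    abs_le.2 ⟨by linarith [(Fi_bd (lam := lam) hL i w J).1], (Fi_bd hL i w J).2⟩)).1
  have a2 : (1 : ℝ) / Fintype.card (cav P.U) ≤ sm 300 d := by
    rw [div_le_iff₀ (by exact_mod_cast Fintype.card_pos)]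
    exact (hp w0 fun _ => true).2.2.2.2.2.2.2.2.2.2
  have hy : 0 < P.y := ((hp w0 fun _ => true).ok hd).y_pos
  have k0 := Real.exp_pos (-(2 * P.y))
  have k1 : Real.exp (-(2 * P.y)) ≤ 1 := Real.exp_le_one_iff.2 (by linarith)
  have l0 : 0 ≤ (lam - 2) / d := div_nonneg (by linarith) (by linarith)
  have a3 : (ED w0 fun w J => Real.exp (-(2 * P.y)) ^ 2 * ((lam - 2) / d) *
      (((P.full w J).EN (rS P.T) fun n => ind (P.Ev d lam 0 w (P.mu w J n)))
        - ((P.full w J).EN (rS P.T) fun n => c2 (P.mu w J n) crd) / e'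
        - ((P.full w J).P fun g σ => ind (¬ (P.full w J).Good c cp (qq d) g σ)) / eR)
      - 8 * sm 200 d) ≤ ED w0 fun w J => avg fun a : cav P.U => avg fun a' : cav P.U =>
        avg fun b : Bool => ind (a ≠ a') * Fi P d lam i (w ∘ ex i a a') (Function.update J i b) := by
    refine ED_mono_deg hw fun w J hw' => ?_
    have ok := (hpf w J).ok hd
    have b0 : ((P.full w J).EN (rS P.T) fun n => ind (P.Ev d lam 0 w (P.mu w J n)))
        - ((P.full w J).EN (rS P.T) fun n => c2 (P.mu w J n) crd) / e' ≤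
        (P.full w J).P fun g _ => ind (Gn P d lam 0 e' w (P.full w J) g.1) := by
      rw [Sys.EN, Sys.EN, Cas.EN, Cas.EN, div_eq_mul_inv, ← Cas.P_mul_right, ← Cas.P_sub]
      refine Cas.P_mono ok fun g _ => ?_
      have c0 : 0 ≤ c2 (P.mu w J (rS P.T g.1)) crd :=
        avg_nonneg fun _ => avg_nonneg fun _ => sq_nonneg _
      by_cases h : c2 (P.mu w J (rS P.T g.1)) crd ≤ e'
      · exact (sub_le_self _ (by positivity)).trans (ind_mono fun h' => ⟨h', h⟩)
      · have := (one_le_div he').2 (not_le.1 h).le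
        rw [div_eq_mul_inv] at this
        linarith [ind_le_one (P.Ev d lam 0 w (P.mu w J (rS P.T g.1))),
          ind_nonneg (Gn P d lam 0 e' w (P.full w J) g.1)]
    have b1 : ((P.full w J).P fun g _ => ind (Gn P d lam 0 e' w (P.full w J) g.1)) ≤ 1 :=
      Cas.P_le_const ok fun _ _ => ind_le_one _
    have b2 : 0 ≤ (P.full w J).P fun g σ => ind (¬ (P.full w J).Good c cp (qq d) g σ) :=
      Cas.P_nonneg ok fun _ _ => ind_nonneg _
    by_cases hg : ((P.full w J).P fun g σ => ind (¬ (P.full w J).Good c cp (qq d) g σ)) ≤ eR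
    · have d1 := hD1 _ _ _ (P.cut w J i) d c cp hL.1 (hp w J) (hR w J hw' hg)
      rw [← hlam] at d1
      have d2 := pool hSv (hp w J) hd d1 (Gn P d lam 1 e w (P.cut w J i))
      have d3 := cutS hNearCut hStab hO hL hw' J i hW' hs' hse (lam := lam) (by linarith)
      have l1 : (lam - 2) / d ≤ 1 := (div_le_one (by linarith)).2 (by linarith [d1.2.1])
      have d4 : (avg fun a : cav P.U => Real.exp (-(2 * P.y)) * ((P.cut w J i).P fun g _ =>
          ind (Gn P d lam 1 e w (P.cut w J i) g.1) * ind (Real.exp (-(3 * P.β)) ≤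
            mn ((P.cut w J i).nu g) ((P.cut w J i).sp a))) - sm 250 d
            - 1 / Fintype.card (cav P.U)) ≤ avg fun a : cav P.U => avg fun a' : cav P.U =>
          avg fun b : Bool =>
            ind (a ≠ a') * Fi P d lam i (w ∘ ex i a a') (Function.update J i b) := by
        refine avg_mono fun a => ?_
        rw [← avg_eq a, ← avg_const (α := cav P.U) (_ - sm 250 d), ← avg_sub]
        refine avg_mono fun a' => const_le_avg fun b => ?_
        by_cases ha : a = a'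
        · rw [ind_pos ha, ind_neg (not_not.2 ha), zero_mul]
          have := mul_le_one₀ k1 (Cas.P_nonneg ((hp w J).ok hd) fun g _ => (mul_bd
            (p := Gn P d lam 1 e w (P.cut w J i) g.1) (q := Real.exp (-(3 * P.β)) ≤
              mn ((P.cut w J i).nu g) ((P.cut w J i).sp a))).1)
            (Cas.P_le_const ((hp w J).ok hd) fun g _ => mul_bd.2)
          linarith
        · rw [ind_neg ha, ind_pos ha, one_mul, sub_zero]
          exact join hJoinCut hStab hTower hNear hBd hMinor hO hL hw' J hi hW hs (by linarith) ha b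
      rw [avg_sub, avg_sub, avg_mul, avg_const, avg_const] at d4
      have d5 := mul_le_mul_of_nonneg_left d2 k0.le
      have d6 := mul_le_mul_of_nonneg_left d3 (mul_nonneg k0.le l0)
      have d7 := mul_le_mul_of_nonneg_left ((sub_le_self _ (div_nonneg b2 heR.le)).trans b0)
        (mul_nonneg (sq_nonneg (Real.exp (-(2 * P.y)))) l0)
      have d8 := mul_le_of_le_one_left s3.le (mul_le_one₀ k1 l0 l1)
      have d9 := mul_le_of_le_one_left s0.le k1
      have d10 := mul_le_of_le_one_left (Real.exp_pos (-P.β)).le k1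
      have eb : (P.cut w J i).β = P.β := rfl
      rw [eb] at d5
      linarith
    · have := (one_le_div heR).2 (not_le.1 hg).le
      refine le_trans ?_ (avg_nonneg fun a => avg_nonneg fun a' => avg_nonneg fun b =>
        mul_nonneg (ind_nonneg _) (Fi_bd hL i _ _).1)
      have := mul_nonpos_of_nonneg_of_nonpos (mul_nonneg (sq_nonneg (Real.exp (-(2 * P.y)))) l0)
        (show ((P.full w J).EN (rS P.T) fun n => ind (P.Ev d lam 0 w (P.mu w J n)))
          - ((P.full w J).EN (rS P.T) fun n => c2 (P.mu w J n) crd) / e'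
          - ((P.full w J).P fun g σ => ind (¬ (P.full w J).Good c cp (qq d) g σ)) / eR ≤ 0 by
          linarith)
      linarith
  rw [ED_sub, ED_mul, ED_sub, ED_sub, ED_div, ED_div, ED_const] at a3
  unfold Pk.EP Pk.EQ
  linarith

lemma total (hL : P.Lg d) {w0 : E × Bool → V} (hw : Deg w0 d) :
    ∑ i ∈ fair P.Z P.A, ED w0 (Fi P d lam i) ≤ d * Fintype.card V * P.EV d lam w0 fun _ _ ν _ =>
      ((flex ν (Real.exp (-(6 * P.β)))).card : ℝ) / Fintype.card V := by
  have hd : 3 ≤ d := by have := hL.1; omega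
  rw [← ED_sum, Pk.EV, Pk.EQ, ← ED_mul]
  refine ED_mono_deg hw fun w J hw' => ?_
  simp only [Fi]
  rw [← Cas.P_sum, Sys.P, ← Cas.P_mul]
  refine Cas.P_mono ((show (P.full w J).Par d from hL.2.1 _ _ _).ok hd) fun g _ => ?_
  have hN : (Fintype.card V : ℝ) ≠ 0 := by exact_mod_cast Fintype.card_ne_zero
  rw [← mul_sum, mul_left_comm, mul_assoc, mul_div_cancel₀ _ hN]
  refine mul_le_mul_of_nonneg_left ?_ (ind_nonneg _)
  generalize flex ((P.full w J).nu g) (Real.exp (-(6 * P.β))) = X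
  refine (sum_le_sum_of_subset_of_nonneg (subset_univ _) fun _ _ _ => ind_nonneg _).trans ?_
  rw [sum_ind]
  have : (univ.filter fun i : E => w (i, false) ∈ X).card ≤
      (univ.filter fun p : E × Bool => w p ∈ X).card :=
    card_le_card_of_injOn (fun i => (i, false)) (fun i hi => by simpa using hi)
      fun _ _ _ _ h => (Prod.ext_iff.1 h).1
  exact_mod_cast this.trans (hw'.card_pre X)

end FlexLoJ

open FlexLoJ in
theorem stFlexLo (hPar : StPar) (hRigD : StRigD) (hD1 : StD1) (hNearCut : StNearCut)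
    (hJoinCut : StJoinCut) (hStab : StStab) (hWid : StWid) (hEX : StEX) (hTower : StTower)
    (hSv : StSv) (hNear : StNear) (hBd : StBd) (hMinor : StMinor) : StFlexLo := by
  filter_upwards [hPar, eventually_ge_atTop 1000] with d hB hd
  have hd3 : 3 ≤ d := by omega
  have hd' : (1000 : ℝ) ≤ d := by exact_mod_cast hd
  have hz : 0 < z1 d / 200 := by linarith [z1_ge hd3, sm_pos 300 d]
  obtain ⟨e1, he1, h1⟩ := hWid d _ hz
  obtain ⟨e2, he2, h2⟩ := hWid d _ (lt_min hz he1)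
  obtain ⟨eR, heR, hR⟩ := hRigD d
  refine ⟨min e2 eR / 100, div_pos (lt_min he2 heR) (by norm_num), hB.mono ?_⟩
  intro V E _ _ _ _ w0 hw hLg P r c cp lam ⟨⟨hO, hK⟩, _, hβ, _, _, hc, _⟩ hlam hE
  have hL := hLg P hO
  have : Nonempty V := by
    by_contra hn
    have h1 := hL.2.2.2.2.2.2.2.2.2.2
    rw [Fintype.card_eq_zero_iff.2 (not_nonempty_iff.1 hn)] at h1
    norm_num at h1
  have hN : (0 : ℝ) < Fintype.card V := by exact_mod_cast Fintype.card_pos
  by_cases hl : lam ≤ 4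
  · refine le_trans (b := 0) (div_nonpos_of_nonpos_of_nonneg (by linarith) (by linarith)) ?_
    unfold Pk.EV Pk.EQ
    exact ED_nonneg fun w J => Cas.P_nonneg ((show (P.full w J).Par d from hL.2.1 _ _ _).ok hd3)
      fun _ _ => mul_nonneg (ind_nonneg _) (div_nonneg (Nat.cast_nonneg _) hN.le)
  rw [not_le] at hl
  have q0 : 0 < qq d := Real.exp_pos _
  have s0 := sm_pos 200 d
  have hb : Real.exp (-P.β) ≤ sm 200 d := by
    have q1 := hL.2.2.2.2.2.2.1.trans (sm_anti (k := 200) (k' := 300) (by norm_num) d)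
    have q2 := pow_le_of_le_one q0.le (q1.trans (sm_le_one (by norm_num) d)) four_ne_zero
    refine le_trans ?_ (q2.trans q1)
    rw [hβ, Real.exp_neg, inv_le_comm₀ (Real.exp_pos _) (by positivity), ← one_div]
    linarith [Real.add_one_le_exp (1 / qq d ^ 4)]
  have W1 : Wd P d (z1 d / 200) e1 := fun w S S' D I γ a1 a2 a3 a4 a5 a6 a7 => by
    obtain ⟨b1, b2, -, b3, -⟩ := h1 V E P w S S' D I γ hO hL a1 a2 a3 a4 a5 a6 (Or.inl a7)
    exact ⟨by linarith [(abs_le.1 b1).1], by linarith [(abs_le.1 b2).1], b3⟩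
  have W2 : Wd P d (min (z1 d / 200) e1) e2 := fun w S S' D I γ a1 a2 a3 a4 a5 a6 a7 => by
    obtain ⟨b1, b2, -, b3, -⟩ := h2 V E P w S S' D I γ hO hL a1 a2 a3 a4 a5 a6 (Or.inl a7)
    exact ⟨by linarith [(abs_le.1 b1).1], by linarith [(abs_le.1 b2).1], b3⟩
  have l0 : 0 ≤ (lam - 2) / d := div_nonneg (by linarith) (by linarith)
  have a1 : ∀ i ∈ fair P.Z P.A, 1 / 5 * ((lam - 2) / d) - 9 * sm 200 d ≤ ED w0 (Fi P d lam i) := by
    intro i hi
    refine le_trans ?_ (slot hD1 hNearCut hJoinCut hStab hEX hTower hSv hNear hBd hMinor hO hL hw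
      hi W1 W2 le_rfl (min_le_left _ _) (min_le_right _ _) hl.le hlam hb he2 heR
      fun w J a b => (hR V E P w J c cp hO hL a b).2.1 i)
    have b1 : (P.EP w0 fun _ _ μ => c2 μ crd) / e2 ≤ 1 / 100 := by
      rw [div_le_iff₀ he2]
      linarith [min_le_left e2 eR]
    have b2 : (P.EQ w0 fun w J g σ => ind (¬ (P.full w J).Good c cp (qq d) g σ)) / eR
        ≤ 1 / 100 := by
      rw [div_le_iff₀ heR]
      linarith [min_le_right e2 eR]
    have b3 : (19 / 20 : ℝ) ≤ Real.exp (-(2 * P.y)) := by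
      linarith [Real.add_one_le_exp (-(2 * P.y)), hO.2.2.2.2.2.2.2.2.2.1]
    have b4 := mul_le_mul (mul_le_mul_of_nonneg_right (pow_le_pow_left₀ (by norm_num) b3 2) l0)
      (show (23 / 100 : ℝ) ≤ (P.EP w0 fun w _ μ => ind (P.Ev d lam 0 w μ))
        - (P.EP w0 fun _ _ μ => c2 μ crd) / e2
        - (P.EQ w0 fun w J g σ => ind (¬ (P.full w J).Good c cp (qq d) g σ)) / eR by linarith)
      (by norm_num) (mul_nonneg (sq_nonneg _) l0)
    linarith
  have a2 := (card_nsmul_le_sum _ _ _ a1).trans (total hL hw)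
  rw [nsmul_eq_mul] at a2
  have a3 : (d : ℝ) * Fintype.card V / 4 ≤ (fair P.Z P.A).card := by
    have b1 := card_half hw
    have b2 : (2 : ℝ) * (P.Z.card + P.A.card) ≤ Fintype.card E := by exact_mod_cast hL.2.2.1
    have b3 : (univ : Finset E) ⊆ fair P.Z P.A ∪ P.Z ∪ P.A := fun i _ => by
      simp only [fair, mem_union, mem_filter, mem_univ, true_and]
      tauto
    have b4 := (card_le_card b3).trans ((card_union_le _ _).trans
      (Nat.add_le_add_right (card_union_le _ _) _))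
    have b5 : (Fintype.card E : ℝ) ≤ (fair P.Z P.A).card + P.Z.card + P.A.card := by
      exact_mod_cast b4
    linarith
  have a4 : 100 * sm 200 d ≤ 1 / d := by
    have b1 := mul_sm_le (a := 100) 199 hd3 (by linarith)
    have b2 := sm_le_inv (k := 199) (by norm_num) hd3
    have b3 : 1 / ((d : ℝ) + 1) ≤ 1 / d := one_div_le_one_div_of_le (by linarith) (by linarith)
    norm_num at b1
    linarith
  have a5 : (lam - 2) / d = (lam - 4) / d + 2 * (1 / d) := by ring
  have a6 : (lam - 4) / (30 * d) = (lam - 4) / d / 30 := by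
    rw [div_div, mul_comm]
  have a7 : 0 ≤ (lam - 4) / d := div_nonneg (by linarith) (by linarith)
  have a8 := (mul_le_mul_of_nonneg_right a3
    (show 0 ≤ 1 / 5 * ((lam - 2) / d) - 9 * sm 200 d by linarith)).trans a2
  rw [div_mul_eq_mul_div, mul_div_assoc] at a8
  have a9 := le_of_mul_le_mul_left a8 (mul_pos (by linarith) hN)
  linarith

end Pool.Agent.MP_32a90a_pr.D

end

section

set_option autoImplicit false

namespace Pool.Agent.MP_32a90a_pr.D

open Finset Equiv Filter Pool.Agent.MP_32a90a_pr Pool.Agent.MP_32a90a_pr.L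

namespace TopUpJ

lemma num {u d z N κ R Q D S m L X : ℝ} (hu : 10 ≤ u) (hd : 1 ≤ d) (hz : u ^ 75 ≤ d * z)
    (hN : 0 < N) (hκ0 : 0 < κ) (hκ : κ ≤ 1 / 4) (hR1 : 1 ≤ R) (hR : u ^ 102 ≤ 200 * κ ^ 2 * R)
    (hS0 : 0 ≤ S) (hS : S ≤ 3 * z * N) (hm : m * κ ≤ 5 * S) (hL : L ≤ 401 * u)
    (hD : D ≤ N / d ^ 2) (hX : X ≤ N / d ^ 2)
    (h : 1 / u / u ^ 50 * R * (1 / u * Q - D / 2)
      ≤ 52 / 100 * d * (1 / u / u ^ 50) ^ 2 * R * S ^ 2 / N + (2 * u ^ 100 + 2 * κ * R) * m
        + L * (R * S) + 3 * N / d ^ 2 + X) :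
    25 * Q ≤ d * z ^ 2 * N / u ^ 10 := by
  have u0 : 0 < u := by linarith
  have u1 : 1 ≤ u := by linarith
  have d0 : 0 < d := by linarith
  have z0 : 0 < z := (mul_pos_iff_of_pos_left d0).1 (lt_of_lt_of_le (by positivity) hz)
  obtain ⟨v, rfl⟩ : ∃ v, R = v * u ^ 52 := ⟨R / u ^ 52, by field_simp⟩
  have v0 : 0 < v := (mul_pos_iff_of_pos_right (by positivity)).1 (lt_of_lt_of_le one_pos hR1)
  obtain ⟨T, hT⟩ : ∃ T, d * z ^ 2 * N / u ^ 10 = T := ⟨_, rfl⟩
  have hT' : d * z ^ 2 * N = T * u ^ 10 := by rw [← hT]; field_simp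
  have T0 : 0 < T := by rw [← hT]; positivity
  have A0 : 0 < z * N := by positivity
  have hG : N / d ^ 2 ≤ z * N := by
    rw [div_le_iff₀ (by positivity)]
    have a1 : 1 ≤ d * z := (one_le_pow₀ u1).trans hz
    calc N = N * 1 * 1 := by ring
      _ ≤ N * (d * z) * d := by gcongr
      _ = _ := by ring
  have hAT : z * N * u ^ 53 ≤ T / 10 ^ 12 := by
    rw [le_div_iff₀ (by positivity)]
    refine le_of_mul_le_mul_right ?_ (by positivity : 0 < u ^ 10)
    calc z * N * u ^ 53 * 10 ^ 12 * u ^ 10 ≤ z * N * u ^ 53 * u ^ 12 * u ^ 10 := by gcongr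
      _ = z * N * u ^ 75 := by ring
      _ ≤ z * N * (d * z) := by gcongr
      _ = _ := by rw [← hT']; ring
  have e0 : 1 / u / u ^ 50 * (v * u ^ 52) * (1 / u * Q - D / 2) = v * Q - v * (u * D) / 2 := by
    field_simp
  have p (k : ℕ) (hk : k ≤ 53) : v * (z * N * u ^ k) ≤ v * (T / 10 ^ 12) := by
    refine mul_le_mul_of_nonneg_left (le_trans ?_ hAT) v0.le
    gcongr
  have t1 : v * (u * D) ≤ v * (z * N * u ^ 1) := by
    rw [pow_one, mul_comm (z * N)]
    gcongr
    exact hD.trans hG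
  have t2 : 52 / 100 * d * (1 / u / u ^ 50) ^ 2 * (v * u ^ 52) * S ^ 2 / N ≤ v * (T / 100) := by
    have a1 : (10 : ℝ) ^ 40 ≤ u ^ 40 := by gcongr
    calc _ ≤ 52 / 100 * d * (1 / u / u ^ 50) ^ 2 * (v * u ^ 52) * (3 * z * N) ^ 2 / N := by gcongr
      _ = v * (468 / 100 * (d * z ^ 2 * N) / u ^ 50) := by field_simp; ring
      _ = v * (468 / 100 * T / u ^ 40) := by rw [hT']; field_simp
      _ ≤ v * (468 / 100 * T / 10 ^ 40) := by gcongr
      _ ≤ _ := by gcongr v * ?_; linarith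
  have hm' : m * κ ≤ 15 * (z * N) := by linarith
  have t3 : u ^ 100 * m ≤ 750 * (v * (z * N * u ^ 50)) := by
    refine le_of_mul_le_mul_right ?_ (by positivity : 0 < κ * u ^ 2)
    calc u ^ 100 * m * (κ * u ^ 2) = u ^ 102 * (m * κ) := by ring
      _ ≤ u ^ 102 * (15 * (z * N)) := by gcongr
      _ ≤ 200 * κ ^ 2 * (v * u ^ 52) * (15 * (z * N)) := by gcongr
      _ = 3000 * κ * (v * (z * N * u ^ 50)) * (κ * u ^ 2) := by ring
      _ ≤ 3000 * (1 / 4) * (v * (z * N * u ^ 50)) * (κ * u ^ 2) := by gcongr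
      _ = _ := by ring
  have t4 : κ * (v * u ^ 52) * m ≤ 15 * (v * (z * N * u ^ 52)) := by
    calc _ = v * u ^ 52 * (m * κ) := by ring
      _ ≤ v * u ^ 52 * (15 * (z * N)) := by gcongr
      _ = _ := by ring
  have t5 : L * (v * u ^ 52 * S) ≤ 1203 * (v * (z * N * u ^ 53)) := by
    calc _ ≤ 401 * u * (v * u ^ 52 * (3 * z * N)) := by gcongr
      _ = _ := by ring
  have t6 : N / d ^ 2 ≤ v * (z * N * u ^ 52) := by
    calc _ ≤ z * N * 1 := by linarith
      _ ≤ z * N * (v * u ^ 52) := by gcongr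
      _ = _ := by ring
  rw [e0, mul_div_assoc 3] at h
  rw [hT]
  refine le_of_mul_le_mul_left ?_ v0
  have := mul_pos v0 T0
  linarith [p 1 (by norm_num), p 50 (by norm_num), p 52 (by norm_num), p 53 le_rfl]

/-- the hundredth root of log d -/
noncomputable def uu (d : ℕ) : ℝ := ell d ^ (1 / 100 : ℝ)

lemma uu_pow (d k : ℕ) : uu d ^ k = ell d ^ ((k : ℝ) / 100) := by
  rw [uu, ← Real.rpow_natCast, ← Real.rpow_mul (x := ell d) (Real.log_natCast_nonneg d)]
  congr 1
  ring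

lemma uu_top : Tendsto uu atTop atTop :=
  (tendsto_rpow_atTop (by norm_num)).comp
    (Real.tendsto_log_atTop.comp tendsto_natCast_atTop_atTop)

lemma sm_le {d : ℕ} (hd : 3 ≤ d) : sm 100 d ≤ 1 / (d : ℝ) ^ 3 := by
  have h : (3 : ℝ) ≤ d := by exact_mod_cast hd
  have h1 : sm 1 d ≤ 1 / (d : ℝ) := (sm_le_inv le_rfl hd).trans (by gcongr; linarith)
  have h0 := (sm_pos 1 d).le
  calc sm 100 d ≤ sm (1 + 1 + 1) d := sm_anti (by norm_num) d
    _ = sm 1 d ^ 3 := by rw [sm_add, sm_add]; ring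
    _ ≤ (1 / (d : ℝ)) ^ 3 := by gcongr
    _ = _ := by rw [one_div_pow]

end TopUpJ

open TopUpJ in
theorem stTopUp (hTin : StTin) : StTopUp := by
  filter_upwards [uu_top.eventually_ge_atTop 10, eventually_ge_atTop 3] with d hu hd
  have hd' : (3 : ℝ) ≤ d := by exact_mod_cast hd
  have l0 : 0 ≤ ell d := Real.log_natCast_nonneg d
  have e1 : ell d = TopUpJ.uu d ^ 100 := by rw [uu_pow]; norm_num
  have e2 : y0 d = 1 / TopUpJ.uu d := by rw [y0, Real.rpow_neg l0, inv_eq_one_div]; rfl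
  have e3 : z1 d = TopUpJ.uu d ^ 75 / d := by rw [uu_pow, z1]; norm_num
  have e4 : ell d ^ (1 / 10 : ℝ) = TopUpJ.uu d ^ 10 := by rw [uu_pow]; norm_num
  generalize TopUpJ.uu d = u at *
  have u0 : 0 < u := by linarith
  have u1 : 1 ≤ u := by linarith
  have e5 : Real.sqrt (ell d) = u ^ 50 := by
    rw [e1, show u ^ 100 = (u ^ 50) ^ 2 by ring, Real.sqrt_sq (by positivity)]
  obtain ⟨M, hM⟩ : ∃ M, M = ell d / (10 * (1 / ell d ^ 4) * y0 d) ^ 2 := ⟨_, rfl⟩
  refine ⟨(1 / ((d : ℝ) ^ 3 * Real.exp (2 * M + 1))) ^ 2, by positivity, ?_⟩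
  intro V E _ _ _ _ _ C c e z κ TT r Z A w J μ hR he hT hz hzz hκ1 hκ
  obtain ⟨hw, -, -, hG, hμ, hc, -, hD⟩ := hR
  have hN : (0 : ℝ) < Fintype.card V := by exact_mod_cast Fintype.card_pos
  have l1 : 0 < ell d := by rw [e1]; positivity
  have y1 : 0 < y0 d := by rw [e2]; positivity
  have κ0 : 0 < κ := lt_of_lt_of_le (by positivity) hκ1
  have hB : ∀ v ∈ cls μ (κ / 5) (5 * κ), κ / 5 ≤ kt μ (crd v) ∧ kt μ (crd v) ≤ 10 * κ :=
    fun v hv => by
      have := (mem_filter.1 hv).2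
      exact ⟨this.1.trans (hμ.mn_le_kt _), (hμ.kt_le_mn _).trans (by linarith [this.2])⟩
  have hG4 := hG _ hT
  simp only [tT] at hG4
  obtain ⟨x, hx⟩ : ∃ x, ell d / (10 * κ * y0 d) ^ 2 = x := ⟨_, rfl⟩
  have hxM : x ≤ M := by
    rw [← hx, hM]
    gcongr
  have hx' : x * (100 * κ ^ 2) = u ^ 102 := by
    rw [← hx, e1, e2]
    field_simp
    norm_num
  have x0 : 0 < x := by rw [← hx]; positivity
  have x1 : 1 ≤ x := by
    have a1 : (10 : ℝ) ≤ u ^ 102 := hu.trans (le_self_pow₀ u1 (by norm_num))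
    have a2 : κ ^ 2 ≤ (1 / 4) ^ 2 := by gcongr
    nlinarith
  rw [hx, e2, e5] at hG4
  have r1 : (1 : ℝ) ≤ ⌊x⌋₊ := by exact_mod_cast (Nat.one_le_floor_iff x).2 x1
  have r2 : (⌊x⌋₊ : ℝ) ≤ x := Nat.floor_le x0.le
  have r3 : x ≤ 2 * ⌊x⌋₊ := by linarith [Nat.lt_floor_add_one x]
  have key := hTin V E d ⌊x⌋₊ Z A w J μ (cls μ (κ / 5) (5 * κ)) (1 / u) κ (10 * κ) _ e hd hG4 hμ hc
    κ0 (by linarith) (by positivity)
    (by rw [div_div, div_le_one (by positivity), ← pow_succ']; exact one_le_pow₀ u1)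
    (fun v hv => (hB v hv).2) (by
      calc _ ≤ (1 / u / u ^ 50) ^ 2 * x * (10 * κ) ^ 2 := by gcongr
        _ = x * (100 * κ ^ 2) / u ^ 102 := by field_simp; norm_num
        _ = 1 := by rw [hx', div_self (by positivity)])
  rw [e1] at key
  rw [e2] at hD
  have hS : ∑ v ∈ cls μ (κ / 5) (5 * κ), kt μ (crd v) ≤ 3 * z * Fintype.card V := by
    rw [zz, avg, div_le_iff₀ hN] at hzz
    exact (sum_le_sum_of_subset_of_nonneg (subset_univ _) fun v _ _ => hμ.kt_nonneg _).trans hzz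
  have hm := card_nsmul_le_sum _ _ _ fun v hv => (hB v hv).1
  rw [nsmul_eq_mul] at hm
  have fin := num hu (by linarith) (by rwa [e3, div_le_iff₀' (by linarith)] at hz) hN κ0 hκ r1
    (by rw [← hx']; nlinarith [sq_nonneg κ]) (sum_nonneg fun v _ => hμ.kt_nonneg _) hS
    ((mul_le_mul_of_nonneg_right (min_le_left _ _) κ0.le).trans (by linarith)) (by
      have a1 : 2 / κ ≤ u ^ 401 := by
        rw [e1, div_le_iff₀ (by positivity)] at hκ1
        rw [div_le_iff₀ κ0]
        calc 2 ≤ u * 1 := by linarith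
          _ ≤ u * (κ * (u ^ 100) ^ 4) := by gcongr
          _ = _ := by ring
      refine (Real.log_le_log (by positivity) a1).trans ?_
      rw [Real.log_pow]
      push_cast
      linarith [Real.log_le_sub_one_of_pos u0])
    (hD.trans (by
      have := card_half hw
      calc sm 100 d * Fintype.card E ≤ 1 / (d : ℝ) ^ 3 * (d * Fintype.card V) := by
            gcongr
            · exact sm_le hd
            · linarith [Nat.cast_nonneg (α := ℝ) (Fintype.card E)]
        _ = _ := by field_simp)) (by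
      calc _ ≤ d * Fintype.card V * Real.exp (2 * M + 1)
            * (1 / ((d : ℝ) ^ 3 * Real.exp (2 * M + 1))) := by
            gcongr
            · linarith
            · exact Real.sqrt_le_iff.2 ⟨by positivity, he⟩
        _ = _ := by field_simp) key
  rw [e4]
  refine le_trans ?_ fin
  have := card_nsmul_le_sum ((fair Z A).filter fun i => w (i, false) ∈ cls μ (κ / 5) (5 * κ) ∧
    w (i, true) ∈ cls μ (κ / 5) (5 * κ))
    (fun i => kt μ (crd (w (i, false))) * kt μ (crd (w (i, true)))) (κ / 5 * (κ / 5)) fun i hi =>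
      mul_le_mul (hB _ (mem_filter.1 hi).2.1).1 (hB _ (mem_filter.1 hi).2.2).1 (by positivity)
        (hμ.kt_nonneg _)
  rw [nsmul_eq_mul] at this
  unfold nB SB
  linarith

end Pool.Agent.MP_32a90a_pr.D

end
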