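import Mathlib

section

set_option autoImplicit false

namespace Pool.Agent.MP_32a90a_pr

open Finset Equiv

section
variable {V : Type*} [DecidableEq V] {E : Type*} [Fintype E] [DecidableEq E]

/-- the other half of an edge -/
def pt (p : E × Bool) : E × Bool := (p.1, !p.2)

omit [Fintype E] [DecidableEq E] in
@[simp] lemma pt_pt (p : E × Bool) : pt (pt p) = p := by simp [pt]
omit [Fintype E] [DecidableEq E] in
lemma pt_ne (p : E × Bool) : pt p ≠ p := by
  intro h; have := congrArg Prod.snd h; simp [pt] at this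
omit [Fintype E] [DecidableEq E] in
lemma pt_inj {p q : E × Bool} (h : pt p = pt q) : p = q := by
  rw [← pt_pt p, h, pt_pt]

/-- the ordered pair of end points seen from a half-edge -/
def dart (w : E × Bool → V) (p : E × Bool) : V × V := (w p, w (pt p))

/-- half-edges lying in loops or multiple edges -/
def Bad (w : E × Bool → V) : Finset (E × Bool) :=
  univ.filter fun p => ∃ q, q ≠ p ∧ dart w q = dart w p

/-- every vertex owns d half-edges -/
def Deg (w : E × Bool → V) (d : ℕ) : Prop := ∀ v, (univ.filter fun p => w p = v).card = d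

omit [DecidableEq E] in
lemma Deg.comp {w : E × Bool → V} {d : ℕ} (h : Deg w d) (π : Perm (E × Bool)) :
    Deg (w ∘ π) d := by
  intro v
  rw [← h v]
  exact card_bij (fun p _ => π p) (by simp) (by simp) (fun q hq => ⟨π.symm q, by simpa using hq, by simp⟩)

omit [DecidableEq E] in
lemma Deg.card_pre {w : E × Bool → V} {d : ℕ} (h : Deg w d) (S : Finset V) :
    (univ.filter fun p => w p ∈ S).card ≤ d * S.card := by
  rw [card_eq_sum_card_fiberwise (f := w) (t := S) (by intro p hp; simpa using hp), mul_comm,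
    ← smul_eq_mul, ← sum_const]
  refine sum_le_sum fun v _ => ?_
  rw [← h v]
  exact card_le_card fun p hp => by simp at hp ⊢; exact hp.2

/-- neighbours of a vertex -/
def Nb (w : E × Bool → V) (u : V) : Finset V :=
  (univ.filter fun z => w z = u).image fun z => w (pt z)

omit [DecidableEq E] in
lemma Nb_card {w : E × Bool → V} {d : ℕ} (h : Deg w d) (u : V) : (Nb w u).card ≤ d :=
  card_image_le.trans (h u).le

omit [DecidableEq E] in
lemma mem_Nb (w : E × Bool → V) (z : E × Bool) : w (pt z) ∈ Nb w (w z) :=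
  mem_image.2 ⟨z, by simp, rfl⟩

lemma not_bad_swap (w : E × Bool → V) (p q : E × Bool) (h1 : q ≠ p) (h2 : w (pt p) ≠ w p)
    (h3 : w q ≠ w p) (h4 : w q ∉ Nb w (w p)) : p ∉ Bad (w ∘ swap (pt p) q) := by
  simp only [Bad, mem_filter, mem_univ, true_and, not_exists, not_and]
  intro z hz e
  simp only [dart, Function.comp_apply, Prod.mk.injEq, swap_apply_left] at e
  rw [swap_apply_of_ne_of_ne (x := p) (pt_ne p).symm h1.symm] at e
  obtain ⟨e1, e2⟩ := e
  by_cases a1 : z = pt p
  · rw [a1, swap_apply_left] at e1; exact h3 e1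
  by_cases a2 : z = q
  · rw [a2, swap_apply_right] at e1; exact h2 e1
  rw [swap_apply_of_ne_of_ne a1 a2] at e1
  have hm := mem_Nb w z
  rw [e1] at hm
  by_cases a3 : pt z = q
  · rw [a3] at hm; exact h4 hm
  rw [swap_apply_of_ne_of_ne (fun h => hz (pt_inj h)) a3] at e2
  rw [e2] at hm; exact h4 hm

lemma resample (p : E × Bool) (A : Perm (E × Bool) → Prop) [DecidablePred A] :
    Fintype.card (E × Bool) * (univ.filter A).card
      = ∑ π : Perm (E × Bool), (univ.filter fun q => A (π * swap p q)).card := by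
  simp only [card_filter]
  rw [sum_comm]
  have : ∀ q : E × Bool, ∑ π : Perm (E × Bool), (if A (π * swap p q) then 1 else 0)
      = ∑ π : Perm (E × Bool), (if A π then 1 else 0) := fun q =>
    Equiv.sum_comp (Equiv.mulRight (swap p q)) (fun π => if A π then 1 else 0)
  simp only [this, sum_const, card_univ, smul_eq_mul]

lemma loop_count {w0 : E × Bool → V} {d : ℕ} (h : Deg w0 d) (p : E × Bool) :
    Fintype.card (E × Bool) * (univ.filter fun π : Perm (E × Bool) => w0 (π (pt p)) = w0 (π p)).card
      ≤ Fintype.card (Perm (E × Bool)) * (d + 1) := by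
  rw [resample (pt p), ← card_univ, ← smul_eq_mul, ← sum_const]
  refine sum_le_sum fun π _ => ?_
  have : (univ.filter fun q => w0 ((π * swap (pt p) q) (pt p)) = w0 ((π * swap (pt p) q) p))
      ⊆ insert p (univ.filter fun q => (w0 ∘ π) q = w0 (π p)) := by
    intro q hq
    simp only [mem_filter, mem_univ, true_and, Perm.mul_apply, swap_apply_left] at hq
    by_cases a : q = p
    · simp [a]
    · rw [swap_apply_of_ne_of_ne (pt_ne p).symm (Ne.symm a)] at hq
      simp [hq]
  refine (card_le_card this).trans ((card_insert_le _ _).trans ?_)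
  rw [h.comp π]

lemma bad_count {w0 : E × Bool → V} {d : ℕ} (h : Deg w0 d) (p : E × Bool) :
    Fintype.card (E × Bool) * (univ.filter fun π : Perm (E × Bool) => p ∈ Bad (w0 ∘ π)).card
      ≤ Fintype.card (Perm (E × Bool)) * (d * (d + 1) + d + 2) := by
  rw [resample (pt p)]
  have key : ∀ π : Perm (E × Bool),
      (univ.filter fun q => p ∈ Bad (w0 ∘ (π * swap (pt p) q : Perm _))).card
        ≤ (d * (d + 1) + 1)
          + Fintype.card (E × Bool) * (if w0 (π (pt p)) = w0 (π p) then 1 else 0) := by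
    intro π
    split_ifs with hl
    · exact (card_le_univ _).trans (by omega)
    · have : (univ.filter fun q => p ∈ Bad (w0 ∘ (π * swap (pt p) q : Perm _)))
          ⊆ insert p (univ.filter fun q =>
            (w0 ∘ π) q ∈ insert ((w0 ∘ π) p) (Nb (w0 ∘ π) ((w0 ∘ π) p))) := by
        intro q hq
        by_contra hn
        simp only [mem_insert, mem_filter, mem_univ, true_and, not_or] at hn hq
        exact not_bad_swap (w0 ∘ π) p q hn.1 hl hn.2.1 hn.2.2 hq
      refine (card_le_card this).trans ((card_insert_le _ _).trans ?_)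
      have h1 := (h.comp π).card_pre (insert ((w0 ∘ π) p) (Nb (w0 ∘ π) ((w0 ∘ π) p)))
      have h2 := (card_insert_le ((w0 ∘ π) p) _).trans
        (Nat.add_le_add_right (Nb_card (h.comp π) ((w0 ∘ π) p)) 1)
      have := h1.trans (Nat.mul_le_mul_left d h2)
      omega
  refine (sum_le_sum fun π _ => key π).trans ?_
  rw [sum_add_distrib, ← mul_sum, ← card_filter, sum_const, card_univ, smul_eq_mul]
  have := loop_count h p
  nlinarith

lemma sum_bad {w0 : E × Bool → V} {d : ℕ} (h : Deg w0 d) :
    ∑ π : Perm (E × Bool), (Bad (w0 ∘ π)).card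
      ≤ Fintype.card (Perm (E × Bool)) * (d * (d + 1) + d + 2) := by
  have e : ∑ π : Perm (E × Bool), (Bad (w0 ∘ π)).card
      = ∑ p, (univ.filter fun π : Perm (E × Bool) => p ∈ Bad (w0 ∘ π)).card := by
    simp only [card_filter]
    rw [sum_comm]
    refine sum_congr rfl fun π _ => ?_
    rw [← card_filter]; simp
  rw [e]
  rcases Nat.eq_zero_or_pos (Fintype.card (E × Bool)) with h0 | h0
  · have := Fintype.card_eq_zero_iff.1 h0
    simp
  apply Nat.le_of_mul_le_mul_left _ h0
  rw [mul_sum]
  refine (sum_le_sum fun p _ => bad_count h p).trans ?_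
  simp

lemma switch_sub (w : E × Bool → V) (p q : E × Bool) (S : Finset V) (s1 : w p ∈ S)
    (s2 : w (pt p) ∈ S) (s3 : Nb w (w p) ⊆ S) (s4 : Nb w (w (pt p)) ⊆ S)
    (h1 : w q ∉ S) (h2 : w (pt q) ∉ S) (h3 : w (pt q) ≠ w q) :
    Bad (w ∘ swap (pt p) q) ⊆ (Bad w).erase p := by
  have qp : q ≠ p := by rintro rfl; exact h1 s1
  have qp' : q ≠ pt p := by rintro rfl; exact h1 s2
  have qp2 : pt q ≠ p := by rintro rfl; exact h2 s1
  have qp3 : pt q ≠ pt p := fun h => qp (pt_inj h)
  set w' := w ∘ swap (pt p) q with hw'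
  have v1 : w' p = w p := by
    simp only [hw', Function.comp_apply]; rw [swap_apply_of_ne_of_ne (pt_ne p).symm qp.symm]
  have v2 : w' (pt p) = w q := by simp [hw']
  have v3 : w' q = w (pt p) := by simp [hw']
  have v4 : w' (pt q) = w (pt q) := by
    simp only [hw', Function.comp_apply]; rw [swap_apply_of_ne_of_ne qp3 (pt_ne q)]
  have d1 : dart w' p = (w p, w q) := by simp [dart, v1, v2]
  have d2 : dart w' (pt p) = (w q, w p) := by simp [dart, v1, v2]
  have d3 : dart w' q = (w (pt p), w (pt q)) := by simp [dart, v3, v4]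
  have d4 : dart w' (pt q) = (w (pt q), w (pt p)) := by simp [dart, v3, v4]
  have out : ∀ t, t ≠ p → t ≠ pt p → t ≠ q → t ≠ pt q → dart w' t = dart w t := by
    intro t a b c e
    simp only [dart, hw', Function.comp_apply]
    rw [swap_apply_of_ne_of_ne b c, swap_apply_of_ne_of_ne (fun h => a (pt_inj h))
      (fun h => e (by rw [← h, pt_pt]))]
  have n1 : w q ≠ w p := fun h => h1 (h ▸ s1)
  have n2 : w q ≠ w (pt p) := fun h => h1 (h ▸ s2)
  have n3 : w (pt q) ≠ w p := fun h => h2 (h ▸ s1)
  have n4 : w (pt q) ≠ w (pt p) := fun h => h2 (h ▸ s2)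
  have new : ∀ t t', (t = p ∨ t = pt p ∨ t = q ∨ t = pt q) → t' ≠ t → dart w' t' ≠ dart w' t := by
    intro t t' ht hne e
    by_cases hZ : t' = p ∨ t' = pt p ∨ t' = q ∨ t' = pt q
    · rcases ht with rfl | rfl | rfl | rfl <;> rcases hZ with rfl | rfl | rfl | rfl <;>
        first
        | exact hne rfl
        | (simp only [d1, d2, d3, d4, Prod.mk.injEq] at e; obtain ⟨e1, e2⟩ := e; grind)
    · simp only [not_or] at hZ
      rw [out t' hZ.1 hZ.2.1 hZ.2.2.1 hZ.2.2.2] at e
      have m1 := mem_Nb w t'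
      have m2 := mem_Nb w (pt t')
      rw [pt_pt] at m2
      have aux : ∀ a b, dart w t' = (a, b) → b ∈ Nb w a ∧ a ∈ Nb w b := by
        intro a b e
        simp only [dart, Prod.mk.injEq] at e
        rw [e.1, e.2] at m1 m2
        exact ⟨m1, m2⟩
      rcases ht with rfl | rfl | rfl | rfl
      · exact h1 (s3 (aux _ _ (e.trans d1)).1)
      · exact h1 (s3 (aux _ _ (e.trans d2)).2)
      · exact h2 (s4 (aux _ _ (e.trans d3)).1)
      · exact h2 (s4 (aux _ _ (e.trans d4)).2)
  intro z hz
  simp only [Bad, mem_filter, mem_univ, true_and, mem_erase] at hz ⊢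
  obtain ⟨z', hne, e⟩ := hz
  have a : ¬ (z = p ∨ z = pt p ∨ z = q ∨ z = pt q) := fun h => new z z' h hne e
  have b : ¬ (z' = p ∨ z' = pt p ∨ z' = q ∨ z' = pt q) := fun h => new z' z h hne.symm e.symm
  simp only [not_or] at a b
  rw [out z a.1 a.2.1 a.2.2.1 a.2.2.2, out z' b.1 b.2.1 b.2.2.1 b.2.2.2] at e
  exact ⟨a.1, z', hne, e⟩

lemma switch {w : E × Bool → V} {d : ℕ} (h : Deg w d) (hb : (Bad w).Nonempty)
    (hN : 2 * d * (2 * d + 2) + (Bad w).card < Fintype.card (E × Bool)) :
    ∃ a b, (Bad (w ∘ swap a b)).card < (Bad w).card := by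
  obtain ⟨p, hp⟩ := hb
  set S : Finset V := insert (w p) (insert (w (pt p)) (Nb w (w p) ∪ Nb w (w (pt p)))) with hS
  have hSc : S.card ≤ 2 * d + 2 := by
    have h1 := card_insert_le (w p) (insert (w (pt p)) (Nb w (w p) ∪ Nb w (w (pt p))))
    have h2 := card_insert_le (w (pt p)) (Nb w (w p) ∪ Nb w (w (pt p)))
    have h3 := card_union_le (Nb w (w p)) (Nb w (w (pt p)))
    have h4 := Nb_card h (w p)
    have h5 := Nb_card h (w (pt p))
    rw [hS]; omega
  have c1 := (h.card_pre S).trans (Nat.mul_le_mul_left d hSc)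
  have c2 : (univ.filter fun q => w (pt q) ∈ S).card = (univ.filter fun q => w q ∈ S).card :=
    card_bij (fun q _ => pt q) (by simp) (fun _ _ _ _ h => pt_inj h)
      (fun q hq => ⟨pt q, by simpa using hq, by simp⟩)
  have : ((univ.filter fun q => w q ∈ S) ∪ (univ.filter fun q => w (pt q) ∈ S) ∪ Bad w).card
      < (univ : Finset (E × Bool)).card := by
    have h1 := card_union_le ((univ.filter fun q => w q ∈ S) ∪ (univ.filter fun q => w (pt q) ∈ S))
      (Bad w)
    have h2 := card_union_le (univ.filter fun q => w q ∈ S) (univ.filter fun q => w (pt q) ∈ S)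
    rw [card_univ]
    nlinarith
  obtain ⟨q, _, hq⟩ := exists_mem_notMem_of_card_lt_card this
  simp only [mem_union, mem_filter, mem_univ, true_and, not_or] at hq
  have h3 : w (pt q) ≠ w q := by
    intro e
    apply hq.2
    simp only [Bad, mem_filter, mem_univ, true_and]
    exact ⟨pt q, pt_ne q, by simp [dart, e]⟩
  refine ⟨pt p, q, (card_le_card (switch_sub w p q S (by simp [hS]) (by simp [hS]) ?_ ?_
    hq.1.1 hq.1.2 h3)).trans_lt (card_erase_lt_of_mem hp)⟩
  · intro v hv; simp [hS, hv]
  · intro v hv; simp [hS, hv]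

lemma few_bad_step {w0 : E × Bool → V} {d : ℕ} (h : Deg w0 d) (k : ℕ)
    (hN : 2 * d * (2 * d + 2) + (k + 1) < Fintype.card (E × Bool)) :
    (univ.filter fun π : Perm (E × Bool) => (Bad (w0 ∘ π)).card ≤ k + 1).card
      ≤ (Fintype.card (E × Bool) ^ 2 + 1)
        * (univ.filter fun π : Perm (E × Bool) => (Bad (w0 ∘ π)).card ≤ k).card := by
  set A := univ.filter fun π : Perm (E × Bool) => (Bad (w0 ∘ π)).card ≤ k with hA
  have : (univ.filter fun π : Perm (E × Bool) => (Bad (w0 ∘ π)).card ≤ k + 1)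
      ⊆ A ∪ (A ×ˢ (univ : Finset ((E × Bool) × (E × Bool)))).image
        (fun t => t.1 * swap t.2.1 t.2.2) := by
    intro π hπ
    simp only [mem_filter, mem_univ, true_and] at hπ
    by_cases hk : (Bad (w0 ∘ π)).card ≤ k
    · exact mem_union_left _ (by simpa [hA] using hk)
    · obtain ⟨a, b, hab⟩ := switch (h.comp π) (card_pos.1 (by omega)) (by omega)
      refine mem_union_right _ (mem_image.2 ⟨(π * swap a b, (a, b)), ?_, by simp [mul_assoc]⟩)
      simp only [hA, mem_product, mem_filter, mem_univ, true_and, and_true]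
      have : (w0 ∘ (π * swap a b : Perm _)) = (w0 ∘ π) ∘ swap a b := rfl
      rw [this]; omega
  refine (card_le_card this).trans ((card_union_le _ _).trans ?_)
  have := card_image_le (s := A ×ˢ (univ : Finset ((E × Bool) × (E × Bool))))
    (f := fun t => t.1 * swap t.2.1 t.2.2)
  rw [card_product, card_univ, Fintype.card_prod (E × Bool)] at this
  nlinarith

theorem simple_prob {w0 : E × Bool → V} {d : ℕ} (h : Deg w0 d)
    (hN : 2 * d * (2 * d + 2) + 2 * (d * (d + 1) + d + 2) < Fintype.card (E × Bool)) :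
    Fintype.card (Perm (E × Bool)) ≤ 2 * (Fintype.card (E × Bool) ^ 2 + 1) ^ (2 * (d * (d + 1) + d + 2))
      * (univ.filter fun π : Perm (E × Bool) => Bad (w0 ∘ π) = ∅).card := by
  set K := d * (d + 1) + d + 2 with hK
  have it : ∀ k, k ≤ 2 * K →
      (univ.filter fun π : Perm (E × Bool) => (Bad (w0 ∘ π)).card ≤ k).card
      ≤ (Fintype.card (E × Bool) ^ 2 + 1) ^ k
        * (univ.filter fun π : Perm (E × Bool) => Bad (w0 ∘ π) = ∅).card := by
    intro k
    induction k with
    | zero => intro _; simp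
    | succ k ih =>
      intro hk
      refine (few_bad_step h k (by omega)).trans ?_
      rw [pow_succ' _ k, mul_assoc]
      exact Nat.mul_le_mul_left _ (ih (by omega))
  have h1 := it (2 * K) le_rfl
  have h2 := sum_bad h
  rw [← hK] at h2
  set A := univ.filter fun π : Perm (E × Bool) => (Bad (w0 ∘ π)).card ≤ 2 * K with hA
  have h3 : Aᶜ.card * (2 * K + 1) ≤ ∑ π : Perm (E × Bool), (Bad (w0 ∘ π)).card := by
    rw [← smul_eq_mul, ← sum_const]
    refine (sum_le_sum fun π hπ => ?_).trans (sum_le_sum_of_subset (subset_univ Aᶜ))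
    simp only [hA, mem_compl, mem_filter, mem_univ, true_and] at hπ
    omega
  have h4 := card_add_card_compl A
  have h5 : Fintype.card (Perm (E × Bool)) ≤ 2 * A.card := by
    by_contra hc
    have : A.card < Aᶜ.card := by omega
    nlinarith
  rw [mul_assoc]
  omega

end

end Pool.Agent.MP_32a90a_pr

end

section

set_option autoImplicit false

namespace Pool.Agent.MP_32a90a_pr

open Finset Equiv
open scoped Classical

section
variable {V : Type*} [Fintype V] [DecidableEq V] {E : Type*} [Fintype E] [DecidableEq E]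

/-- the arrangement w lists the edges of the simple graph G -/
def Rep (w : E × Bool → V) (G : SimpleGraph V) : Prop :=
  Function.Injective (dart w) ∧ ∀ u v, G.Adj u v ↔ ∃ p, dart w p = (u, v)

omit [Fintype V] in
lemma Bad_empty (w : E × Bool → V) : Bad w = ∅ ↔ Function.Injective (dart w) := by
  simp only [Bad, filter_eq_empty_iff, mem_univ, true_imp_iff, not_exists, not_and]
  constructor
  · intro h p q e
    by_contra hne
    exact h p hne e
  · intro h p q hne e
    exact hne (h e)

omit [Fintype V] [DecidableEq V] [Fintype E] [DecidableEq E] in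
lemma exists_graph {w : E × Bool → V} (h : Function.Injective (dart w)) : ∃ G, Rep w G := by
  refine ⟨⟨fun u v => ∃ p, dart w p = (u, v), ⟨?_⟩, ⟨?_⟩⟩, h, fun _ _ => Iff.rfl⟩
  · rintro u v ⟨p, hp⟩
    simp only [dart, Prod.mk.injEq] at hp
    exact ⟨pt p, by simp [dart, hp.1, hp.2]⟩
  · rintro u ⟨p, hp⟩
    simp only [dart, Prod.mk.injEq] at hp
    exact pt_ne p (h (by simp [dart, hp.1, hp.2]))

omit [Fintype V] [DecidableEq V] [Fintype E] [DecidableEq E] in
lemma Rep.unique {w : E × Bool → V} {G G' : SimpleGraph V} (h : Rep w G) (h' : Rep w G') :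
    G = G' := by
  ext u v; rw [h.2, h'.2]

omit [DecidableEq E] in
lemma Rep.degree {w : E × Bool → V} {G : SimpleGraph V} (h : Rep w G) (v : V) :
    (univ.filter fun p => w p = v).card = G.degree v := by
  rw [← SimpleGraph.card_neighborFinset_eq_degree]
  refine card_bij (fun p _ => w (pt p)) ?_ ?_ ?_
  · intro p hp
    simp only [mem_filter, mem_univ, true_and] at hp
    rw [SimpleGraph.mem_neighborFinset, h.2]
    exact ⟨p, by simp [dart, hp]⟩
  · intro p hp q hq e
    simp only [mem_filter, mem_univ, true_and] at hp hq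
    exact h.1 (by simp [dart, hp, hq, e])
  · intro u hu
    rw [SimpleGraph.mem_neighborFinset, h.2] at hu
    obtain ⟨p, hp⟩ := hu
    simp only [dart, Prod.mk.injEq] at hp
    exact ⟨p, by simp [hp.1], hp.2⟩

omit [DecidableEq E] in
lemma exists_rep (G : SimpleGraph V) {d : ℕ} (hG : G.IsRegularOfDegree d)
    (hE : 2 * Fintype.card E = Fintype.card V * d) : ∃ w : E × Bool → V, Rep w G := by
  have h1 := G.sum_degrees_eq_twice_card_edges
  simp only [hG.degree_eq, sum_const, card_univ, smul_eq_mul] at h1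
  have h2 : Fintype.card E = Fintype.card G.edgeFinset := by
    rw [Fintype.card_coe]; omega
  let φ : E ≃ G.edgeFinset := Fintype.equivOfCardEq h2
  have h3 : ∀ e : Sym2 V, ∃ a b, e = s(a, b) := Sym2.ind fun a b => ⟨a, b, rfl⟩
  choose a b hab using h3
  let w : E × Bool → V := fun p => if p.2 then a (φ p.1) else b (φ p.1)
  have hw : ∀ p, s(w p, w (pt p)) = (φ p.1 : Sym2 V) := by
    rintro ⟨i, c⟩
    cases c
    · simp only [w, pt]; simp only [Bool.false_eq_true, if_false, Bool.not_false, if_true]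
      rw [Sym2.eq_swap]; exact (hab _).symm
    · simp only [w, pt]; simp only [Bool.false_eq_true, if_false, Bool.not_true, if_true]
      exact (hab _).symm
  have hadj : ∀ p, G.Adj (w p) (w (pt p)) := by
    intro p
    rw [← SimpleGraph.mem_edgeSet, hw, ← SimpleGraph.mem_edgeFinset]
    exact (φ p.1).2
  refine ⟨w, ?_, fun u v => ⟨fun h => ?_, ?_⟩⟩
  · rintro ⟨i, c⟩ ⟨j, c'⟩ e
    simp only [dart, Prod.mk.injEq] at e
    have e1 : i = j := by
      have := hw (i, c)
      rw [e.1, e.2, hw] at this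
      exact (φ.injective (Subtype.ext this)).symm
    subst e1
    by_cases hc : c = c'
    · rw [hc]
    · exfalso
      have : (i, c') = pt (i, c) := by
        revert hc; cases c <;> cases c' <;> simp [pt]
      exact (hadj (i, c)).ne (by rw [← this]; exact e.1)
  · obtain ⟨i, hi⟩ := φ.surjective ⟨s(u, v), by simpa using h⟩
    have := hw (i, true)
    rw [hi] at this
    rcases Sym2.eq_iff.1 this with ⟨h1, h2⟩ | ⟨h1, h2⟩
    · exact ⟨(i, true), by simp [dart, h1, h2]⟩
    · exact ⟨pt (i, true), by simp [dart, h1, h2]⟩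
  · rintro ⟨p, hp⟩
    simp only [dart, Prod.mk.injEq] at hp
    rw [← hp.1, ← hp.2]; exact hadj p

lemma card_rep {w : E × Bool → V} {G : SimpleGraph V} (h : Rep w G) :
    (univ.filter fun γ : Perm (E × Bool) => ∀ p, γ (pt p) = pt (γ p)).card
      = (univ.filter fun w' : E × Bool → V => Rep w' G).card := by
  refine card_bij (fun γ _ => w ∘ γ) ?_ ?_ ?_
  · intro γ hγ
    simp only [mem_filter, mem_univ, true_and] at hγ ⊢
    have e : ∀ p, dart (w ∘ γ) p = dart w (γ p) := fun p => by simp [dart, hγ]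
    refine ⟨fun p q hpq => γ.injective (h.1 (by rw [← e, ← e, hpq])), fun u v => ?_⟩
    rw [h.2]
    exact ⟨fun ⟨p, hp⟩ => ⟨γ.symm p, by rw [e]; simpa using hp⟩, fun ⟨p, hp⟩ => ⟨γ p, by rw [← e, hp]⟩⟩
  · intro γ hγ γ' hγ' e
    simp only [mem_filter, mem_univ, true_and] at hγ hγ'
    refine Equiv.ext fun p => h.1 ?_
    have e1 := congrFun e p
    have e2 := congrFun e (pt p)
    simp only [Function.comp_apply, hγ, hγ'] at e1 e2
    simp [dart, e1, e2]
  · intro w' hw'
    simp only [mem_filter, mem_univ, true_and] at hw'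
    have : ∀ p, ∃ q, dart w q = dart w' p := fun p =>
      (h.2 _ _).1 ((hw'.2 _ _).2 ⟨p, rfl⟩)
    choose g hg using this
    have hinj : Function.Injective g := fun p q e => hw'.1 (by rw [← hg, ← hg, e])
    refine ⟨Equiv.ofBijective g (Finite.injective_iff_bijective.1 hinj), ?_, ?_⟩
    · simp only [mem_filter, mem_univ, true_and, ofBijective_apply]
      intro p
      apply h.1
      rw [hg]
      have := hg p
      simp only [dart, Prod.mk.injEq] at this
      simp [dart, this.1, this.2]
    · funext p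
      exact congrArg Prod.fst (hg p)

omit [Fintype V] in
lemma card_stab {w0 w : E × Bool → V} {d : ℕ} (h0 : Deg w0 d) (h : Deg w d) :
    (univ.filter fun π : Perm (E × Bool) => w0 ∘ π = w).card
      = (univ.filter fun π : Perm (E × Bool) => w0 ∘ π = w0).card := by
  have e : ∀ v, {p // w p = v} ≃ {p // w0 p = v} := fun v => Fintype.equivOfCardEq (by
    rw [Fintype.card_subtype, Fintype.card_subtype, h v, h0 v])
  let σ : Perm (E × Bool) := Equiv.ofFiberEquiv e
  have hσ : ∀ p, w0 (σ p) = w p := fun p => Equiv.ofFiberEquiv_map e p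
  symm
  refine card_bij (fun π _ => π * σ) ?_ (by simp) ?_
  · intro π hπ
    simp only [mem_filter, mem_univ, true_and] at hπ ⊢
    funext p
    rw [← hσ]; exact congrFun hπ (σ p)
  · intro π hπ
    simp only [mem_filter, mem_univ, true_and] at hπ
    refine ⟨π * σ⁻¹, ?_, by simp⟩
    simp only [mem_filter, mem_univ, true_and]
    funext p
    have := congrFun hπ (σ⁻¹ p)
    simp only [Function.comp_apply, Perm.mul_apply] at this ⊢
    rw [this, ← hσ]; simp

theorem uniform {w0 : E × Bool → V} {d : ℕ} (h0 : Deg w0 d) :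
    ∃ κ : ℕ, 0 < κ ∧ ∀ A : SimpleGraph V → Prop,
      (univ.filter fun π : Perm (E × Bool) => ∃ G, Rep (w0 ∘ π) G ∧ A G).card
        = (univ.filter fun G : SimpleGraph V => G.IsRegularOfDegree d ∧ A G).card * κ := by
  have hE : 2 * Fintype.card E = Fintype.card V * d := by
    have := card_eq_sum_card_fiberwise (f := w0) (s := univ) (t := univ) (by simp)
    simp only [h0 _, sum_const, card_univ, smul_eq_mul, Fintype.card_prod, Fintype.card_bool]
      at this
    omega
  set g := (univ.filter fun γ : Perm (E × Bool) => ∀ p, γ (pt p) = pt (γ p)).card with hg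
  set t := (univ.filter fun π : Perm (E × Bool) => w0 ∘ π = w0).card with ht
  have fib : ∀ G : SimpleGraph V, G.IsRegularOfDegree d →
      (univ.filter fun π : Perm (E × Bool) => Rep (w0 ∘ π) G).card = g * t := by
    intro G hG
    obtain ⟨w, hw⟩ := exists_rep (E := E) G hG hE
    rw [hg, card_rep hw, card_eq_sum_card_fiberwise (f := fun π : Perm (E × Bool) => w0 ∘ π)
      (t := univ.filter fun w' : E × Bool → V => Rep w' G) (by intro π hπ; simpa using hπ),
      ← smul_eq_mul, ← sum_const]
    refine sum_congr rfl fun w' hw' => ?_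
    simp only [mem_filter, mem_univ, true_and] at hw'
    rw [ht, ← card_stab h0 (w := w') (fun v => by rw [hw'.degree, hG.degree_eq])]
    congr 1
    ext π
    simp only [mem_filter, mem_univ, true_and]
    exact ⟨fun h => h.2, fun h => ⟨h ▸ hw', h⟩⟩
  refine ⟨g * t, Nat.mul_pos (card_pos.2 ⟨1, by simp⟩) (card_pos.2 ⟨1, by simp⟩), fun A => ?_⟩
  have : (univ.filter fun π : Perm (E × Bool) => ∃ G, Rep (w0 ∘ π) G ∧ A G)
      = (univ.filter fun G : SimpleGraph V => G.IsRegularOfDegree d ∧ A G).biUnion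
        fun G => univ.filter fun π : Perm (E × Bool) => Rep (w0 ∘ π) G := by
    ext π
    simp only [mem_filter, mem_univ, true_and, mem_biUnion]
    constructor
    · rintro ⟨G, h1, h2⟩
      exact ⟨G, ⟨fun v => by rw [← h1.degree, h0.comp π v], h2⟩, h1⟩
    · rintro ⟨G, ⟨_, h2⟩, h1⟩
      exact ⟨G, h1, h2⟩
  rw [this, card_biUnion, ← smul_eq_mul, ← sum_const]
  · refine sum_congr rfl fun G hG => fib G ?_
    exact (mem_filter.1 hG).2.1
  · intro G _ G' _ hne
    rw [Function.onFun, disjoint_left]
    intro π h1 h2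
    exact hne ((mem_filter.1 h1).2.unique (mem_filter.1 h2).2)

lemma ncard_filter {α : Type*} [Fintype α] (p : α → Prop) [DecidablePred p] :
    {a | p a}.ncard = (univ.filter p).card := by
  rw [← Set.ncard_coe_finset]; congr 1; ext a; simp

theorem uniform' {w0 : E × Bool → V} {d : ℕ} (h0 : Deg w0 d) :
    ∃ κ : ℕ, 0 < κ ∧ ∀ A : SimpleGraph V → Prop,
      {π : Perm (E × Bool) | ∃ G, Rep (w0 ∘ π) G ∧ A G}.ncard
        = {G : SimpleGraph V | G.IsRegularOfDegree d ∧ A G}.ncard * κ := by
  obtain ⟨κ, h1, h2⟩ := uniform h0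
  refine ⟨κ, h1, fun A => ?_⟩
  rw [ncard_filter, ncard_filter]
  exact h2 A

end

end Pool.Agent.MP_32a90a_pr

end
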