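import Pool.Agent.Mg.F32a90ap.G90ed05

section

set_option autoImplicit false
set_option linter.unusedSectionVars false

namespace Pool.Agent.MP_32a90a_pr.L

open Finset Equiv

section wav
variable {Ω : Type} {S : Finset Ω} {μ : Ω → ℝ}

lemma wsum_pos (hS : S.Nonempty) (hμ : ∀ ω ∈ S, 0 < μ ω) : 0 < ∑ ω ∈ S, μ ω :=
  sum_pos hμ hS

lemma wav_congr {f g : Ω → ℝ} (h : ∀ ω ∈ S, f ω = g ω) : wav S μ f = wav S μ g := by
  unfold wav
  rw [sum_congr rfl fun ω hω => by rw [h ω hω]]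

lemma wav_congr_w {ν f : Ω → ℝ} (h : ∀ ω ∈ S, μ ω = ν ω) : wav S μ f = wav S ν f := by
  unfold wav
  rw [sum_congr rfl fun ω hω => by rw [h ω hω], sum_congr rfl h]

lemma wav_mono (hS : S.Nonempty) (hμ : ∀ ω ∈ S, 0 < μ ω) {f g : Ω → ℝ}
    (h : ∀ ω ∈ S, f ω ≤ g ω) : wav S μ f ≤ wav S μ g :=
  div_le_div_of_nonneg_right
    (sum_le_sum fun ω hω => mul_le_mul_of_nonneg_left (h ω hω) (hμ ω hω).le) (wsum_pos hS hμ).le

lemma wav_const (hS : S.Nonempty) (hμ : ∀ ω ∈ S, 0 < μ ω) (c : ℝ) :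
    wav S μ (fun _ => c) = c := by
  unfold wav
  rw [← sum_mul, mul_div_cancel_left₀ _ (wsum_pos hS hμ).ne']

lemma wav_add (f g : Ω → ℝ) : wav S μ (fun ω => f ω + g ω) = wav S μ f + wav S μ g := by
  unfold wav
  simp only [mul_add, sum_add_distrib, add_div]

lemma wav_sub (f g : Ω → ℝ) : wav S μ (fun ω => f ω - g ω) = wav S μ f - wav S μ g := by
  unfold wav
  simp only [mul_sub, sum_sub_distrib, sub_div]

lemma wav_mul (c : ℝ) (f : Ω → ℝ) : wav S μ (fun ω => c * f ω) = c * wav S μ f := by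
  unfold wav
  rw [← mul_div_assoc, mul_sum]
  congr 1
  exact sum_congr rfl fun ω _ => by ring

lemma wav_div (c : ℝ) (f : Ω → ℝ) : wav S μ (fun ω => f ω / c) = wav S μ f / c := by
  have := wav_mul (S := S) (μ := μ) c⁻¹ f
  simp only [div_eq_inv_mul]
  exact this

lemma wav_neg (f : Ω → ℝ) : wav S μ (fun ω => -f ω) = -wav S μ f := by
  have := wav_mul (S := S) (μ := μ) (-1) f
  simpa using this

lemma wav_sum {ι : Type*} (T : Finset ι) (f : ι → Ω → ℝ) :
    wav S μ (fun ω => ∑ i ∈ T, f i ω) = ∑ i ∈ T, wav S μ (f i) := by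
  unfold wav
  simp only [mul_sum]
  rw [sum_comm, sum_div]

lemma wav_le_const (hS : S.Nonempty) (hμ : ∀ ω ∈ S, 0 < μ ω) {f : Ω → ℝ} {c : ℝ}
    (h : ∀ ω ∈ S, f ω ≤ c) : wav S μ f ≤ c :=
  (wav_mono hS hμ h).trans_eq (wav_const hS hμ c)

lemma const_le_wav (hS : S.Nonempty) (hμ : ∀ ω ∈ S, 0 < μ ω) {f : Ω → ℝ} {c : ℝ}
    (h : ∀ ω ∈ S, c ≤ f ω) : c ≤ wav S μ f :=
  (wav_const hS hμ c).symm.trans_le (wav_mono hS hμ h)

lemma abs_wav_le (hS : S.Nonempty) (hμ : ∀ ω ∈ S, 0 < μ ω) {f : Ω → ℝ} {c : ℝ}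
    (h : ∀ ω ∈ S, |f ω| ≤ c) : |wav S μ f| ≤ c :=
  abs_le.2 ⟨const_le_wav hS hμ fun ω hω => (abs_le.1 (h ω hω)).1,
    wav_le_const hS hμ fun ω hω => (abs_le.1 (h ω hω)).2⟩

lemma abs_wav_le_wav_abs (hS : S.Nonempty) (hμ : ∀ ω ∈ S, 0 < μ ω) (f : Ω → ℝ) :
    |wav S μ f| ≤ wav S μ fun ω => |f ω| := by
  refine abs_le.2 ⟨?_, wav_mono hS hμ fun ω _ => le_abs_self _⟩
  rw [← wav_neg]
  exact wav_mono hS hμ fun ω _ => neg_abs_le _

/-- Jensen for the square -/
lemma sq_wav_le (hS : S.Nonempty) (hμ : ∀ ω ∈ S, 0 < μ ω) (f : Ω → ℝ) :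
    wav S μ f ^ 2 ≤ wav S μ fun ω => f ω ^ 2 := by
  set m := wav S μ f with hm
  have h : wav S μ (fun ω => 2 * m * f ω - m ^ 2) ≤ wav S μ fun ω => f ω ^ 2 :=
    wav_mono hS hμ fun ω _ => by nlinarith [sq_nonneg (f ω - m)]
  rw [wav_sub, wav_mul, wav_const hS hμ, ← hm] at h
  nlinarith

lemma wav_pos (hS : S.Nonempty) (hμ : ∀ ω ∈ S, 0 < μ ω) {f : Ω → ℝ} (h : ∀ ω ∈ S, 0 < f ω) :
    0 < wav S μ f :=
  div_pos (sum_pos (fun ω hω => mul_pos (hμ ω hω) (h ω hω)) hS) (wsum_pos hS hμ)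

/-- reweighting -/
lemma wav_tilt (hS : S.Nonempty) (hμ : ∀ ω ∈ S, 0 < μ ω) (h f : Ω → ℝ) :
    wav S (fun ω => μ ω * h ω) f = wav S μ (fun ω => h ω * f ω) / wav S μ h := by
  unfold wav
  have := (wsum_pos hS hμ).ne'
  rw [div_div_div_cancel_right₀ this]
  congr 1
  exact sum_congr rfl fun ω _ => by ring

lemma log_tilt (hS : S.Nonempty) (hμ : ∀ ω ∈ S, 0 < μ ω) {h : Ω → ℝ} (hh : ∀ ω ∈ S, 0 < h ω) :
    Real.log (∑ ω ∈ S, μ ω * h ω) = Real.log (∑ ω ∈ S, μ ω) + Real.log (wav S μ h) := by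
  rw [← Real.log_mul (wsum_pos hS hμ).ne' (wav_pos hS hμ hh).ne']
  unfold wav
  rw [mul_div_cancel₀ _ (wsum_pos hS hμ).ne']

/-- an exponential tilt of size c changes averages of nonnegative functions by at most exp (2c) -/
lemma wav_exp_le (hS : S.Nonempty) (hμ : ∀ ω ∈ S, 0 < μ ω) {y f : Ω → ℝ} {c : ℝ}
    (hy : ∀ ω ∈ S, |y ω| ≤ c) (hf : ∀ ω ∈ S, 0 ≤ f ω) :
    wav S μ (fun ω => Real.exp (y ω) * f ω) / wav S μ (fun ω => Real.exp (y ω))
      ≤ Real.exp (2 * c) * wav S μ f := by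
  have h1 : Real.exp (-c) ≤ wav S μ fun ω => Real.exp (y ω) :=
    const_le_wav hS hμ fun ω hω => Real.exp_le_exp.2 (abs_le.1 (hy ω hω)).1
  have h2 : wav S μ (fun ω => Real.exp (y ω) * f ω) ≤ Real.exp c * wav S μ f := by
    rw [← wav_mul]
    exact wav_mono hS hμ fun ω hω =>
      mul_le_mul_of_nonneg_right (Real.exp_le_exp.2 (abs_le.1 (hy ω hω)).2) (hf ω hω)
  have h3 : 0 ≤ wav S μ f := const_le_wav hS hμ hf
  rw [div_le_iff₀ ((Real.exp_pos _).trans_le h1)]
  calc _ ≤ Real.exp c * wav S μ f := h2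
    _ = Real.exp (2 * c) * wav S μ f * Real.exp (-c) := by
        rw [mul_right_comm, ← Real.exp_add]; congr 2; ring
    _ ≤ _ := mul_le_mul_of_nonneg_left h1 (by positivity)

lemma wav_le_exp (hS : S.Nonempty) (hμ : ∀ ω ∈ S, 0 < μ ω) {y f : Ω → ℝ} {c : ℝ}
    (hy : ∀ ω ∈ S, |y ω| ≤ c) (hf : ∀ ω ∈ S, 0 ≤ f ω) :
    wav S μ f ≤ Real.exp (2 * c) *
      (wav S μ (fun ω => Real.exp (y ω) * f ω) / wav S μ (fun ω => Real.exp (y ω))) := by
  have h1 : (wav S μ fun ω => Real.exp (y ω)) ≤ Real.exp c :=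
    wav_le_const hS hμ fun ω hω => Real.exp_le_exp.2 (abs_le.1 (hy ω hω)).2
  have h0 : 0 < wav S μ fun ω => Real.exp (y ω) := wav_pos hS hμ fun ω _ => Real.exp_pos _
  have h2 : Real.exp (-c) * wav S μ f ≤ wav S μ (fun ω => Real.exp (y ω) * f ω) := by
    rw [← wav_mul]
    exact wav_mono hS hμ fun ω hω =>
      mul_le_mul_of_nonneg_right (Real.exp_le_exp.2 (abs_le.1 (hy ω hω)).1) (hf ω hω)
  have h3 : 0 ≤ wav S μ f := const_le_wav hS hμ hf
  rw [← mul_div_assoc, le_div_iff₀ h0]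
  calc _ ≤ wav S μ f * Real.exp c := mul_le_mul_of_nonneg_left h1 h3
    _ = Real.exp (2 * c) * (Real.exp (-c) * wav S μ f) := by
        rw [← mul_assoc, ← Real.exp_add, mul_comm]; congr 2; ring
    _ ≤ _ := mul_le_mul_of_nonneg_left h2 (Real.exp_pos _).le

/-- signed version: the tilt moves an average by at most (exp (2c) - 1) times the mean of |f| -/
lemma abs_wav_exp_sub (hS : S.Nonempty) (hμ : ∀ ω ∈ S, 0 < μ ω) {y f : Ω → ℝ} {c : ℝ}
    (hy : ∀ ω ∈ S, |y ω| ≤ c) :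
    |wav S μ (fun ω => Real.exp (y ω) * f ω) / wav S μ (fun ω => Real.exp (y ω)) - wav S μ f|
      ≤ (Real.exp (2 * c) - 1) * wav S μ fun ω => |f ω| := by
  set m := wav S μ fun ω => Real.exp (y ω) with hm
  have h1 : Real.exp (-c) ≤ m :=
    const_le_wav hS hμ fun ω hω => Real.exp_le_exp.2 (abs_le.1 (hy ω hω)).1
  have h1' : m ≤ Real.exp c :=
    wav_le_const hS hμ fun ω hω => Real.exp_le_exp.2 (abs_le.1 (hy ω hω)).2
  have h0 : 0 < m := (Real.exp_pos _).trans_le h1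
  obtain ⟨ω0, hω0⟩ := hS
  have hc : 0 ≤ c := (abs_nonneg _).trans (hy ω0 hω0)
  have e : wav S μ (fun ω => Real.exp (y ω) * f ω) / m - wav S μ f
      = wav S μ fun ω => (Real.exp (y ω) / m - 1) * f ω := by
    rw [← wav_div, ← wav_sub]
    exact wav_congr fun ω _ => by ring
  rw [e, ← wav_mul]
  refine (abs_wav_le_wav_abs ⟨ω0, hω0⟩ hμ _).trans (wav_mono ⟨ω0, hω0⟩ hμ fun ω hω => ?_)
  rw [abs_mul]
  refine mul_le_mul_of_nonneg_right (abs_le.2 ⟨?_, ?_⟩) (abs_nonneg _)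
  · have a1 : Real.exp (-(2 * c)) ≤ Real.exp (y ω) / m := by
      rw [le_div_iff₀ h0]
      calc _ ≤ Real.exp (-(2 * c)) * Real.exp c :=
            mul_le_mul_of_nonneg_left h1' (Real.exp_pos _).le
        _ = Real.exp (-c) := by rw [← Real.exp_add]; congr 1; ring
        _ ≤ _ := Real.exp_le_exp.2 (abs_le.1 (hy ω hω)).1
    have a2 := Real.add_one_le_exp (2 * c)
    have a3 := Real.add_one_le_exp (-(2 * c))
    linarith
  · have a1 : Real.exp (y ω) / m ≤ Real.exp (2 * c) := by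
      rw [div_le_iff₀ h0]
      calc _ ≤ Real.exp c := Real.exp_le_exp.2 (abs_le.1 (hy ω hω)).2
        _ = Real.exp (2 * c) * Real.exp (-c) := by rw [← Real.exp_add]; congr 1; ring
        _ ≤ _ := mul_le_mul_of_nonneg_left h1 (Real.exp_pos _).le
    linarith

end wav

lemma exp_le_one_add_two {x : ℝ} (h0 : 0 ≤ x) (h1 : x ≤ 1) : Real.exp x ≤ 1 + 2 * x := by
  have := Real.abs_exp_sub_one_sub_id_le (x := x) (by rw [abs_of_nonneg h0]; exact h1)
  have := (abs_le.1 this).2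
  nlinarith

lemma sgn_cases (b : Bool) : sgn b = 1 ∨ sgn b = -1 := by cases b <;> simp [sgn]

@[simp] lemma abs_sgn (b : Bool) : |sgn b| = 1 := by cases b <;> simp [sgn]

@[simp] lemma sgn_mul_self (b : Bool) : sgn b * sgn b = 1 := by cases b <;> simp [sgn]

section
variable {V E Ω : Type} [Fintype V] [DecidableEq V] [Fintype E] [DecidableEq E]

lemma abs_o1 (x : V → Bool) (v : V) : |o1 x v| ≤ 1 := by simp [o1]
lemma abs_o2 (ω : T3 V) (v : V) : |o2 ω v| ≤ 1 := by simp [o2, abs_mul]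
lemma abs_o3 (ω : T3 V) (v : V) : |o3 ω v| ≤ 1 := by simp [o3, abs_mul]
lemma abs_Y1 (x : V → Bool) (u v : V) : |Y1 x u v| ≤ 1 := by simp [Y1, abs_mul]
lemma abs_Y1' (x : V → Bool) (u v : V) : |Y1 x u v| ≤ 3 := (abs_Y1 x u v).trans (by norm_num)
lemma abs_Y3 (ω : T3 V) (u v : V) : |Y3 ω u v| ≤ 3 := by
  have h1 := abs_le.1 (abs_Y1 ω.1 u v)
  have h2 := abs_le.1 (abs_Y1 ω.2.1 u v)
  have h3 := abs_le.1 (abs_Y1 ω.2.2 u v)
  unfold Y3
  rw [abs_le]; constructor <;> linarith [h1.1, h1.2, h2.1, h2.2, h3.1, h3.2]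

lemma bw_pos (Y : Ω → V → V → ℝ) (β : ℝ) (s : E → ℝ) (w : E × Bool → V) (ω : Ω) :
    0 < bw Y β s w ω := Real.exp_pos _

lemma bw_pos' (S : Finset Ω) (Y : Ω → V → V → ℝ) (β : ℝ) (s : E → ℝ) (w : E × Bool → V) :
    ∀ ω ∈ S, 0 < bw Y β s w ω := fun ω _ => bw_pos Y β s w ω

section gb
variable {S : Finset Ω} {Y : Ω → V → V → ℝ} {β : ℝ} {s : E → ℝ} {w : E × Bool → V}

lemma gb_congr {f g : Ω → ℝ} (h : ∀ ω ∈ S, f ω = g ω) : gb S Y β s w f = gb S Y β s w g :=
  wav_congr h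
lemma gb_mono (hS : S.Nonempty) {f g : Ω → ℝ} (h : ∀ ω ∈ S, f ω ≤ g ω) :
    gb S Y β s w f ≤ gb S Y β s w g := wav_mono hS (bw_pos' S Y β s w) h
lemma gb_const (hS : S.Nonempty) (c : ℝ) : gb S Y β s w (fun _ => c) = c :=
  wav_const hS (bw_pos' S Y β s w) c
lemma gb_add (f g : Ω → ℝ) :
    gb S Y β s w (fun ω => f ω + g ω) = gb S Y β s w f + gb S Y β s w g := wav_add f g
lemma gb_sub (f g : Ω → ℝ) :
    gb S Y β s w (fun ω => f ω - g ω) = gb S Y β s w f - gb S Y β s w g := wav_sub f g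
lemma gb_mul (c : ℝ) (f : Ω → ℝ) : gb S Y β s w (fun ω => c * f ω) = c * gb S Y β s w f :=
  wav_mul c f
lemma gb_div (c : ℝ) (f : Ω → ℝ) : gb S Y β s w (fun ω => f ω / c) = gb S Y β s w f / c :=
  wav_div c f
lemma gb_neg (f : Ω → ℝ) : gb S Y β s w (fun ω => -f ω) = -gb S Y β s w f := wav_neg f
lemma gb_sum {ι : Type*} (T : Finset ι) (f : ι → Ω → ℝ) :
    gb S Y β s w (fun ω => ∑ i ∈ T, f i ω) = ∑ i ∈ T, gb S Y β s w (f i) := wav_sum T f
lemma gb_le_const (hS : S.Nonempty) {f : Ω → ℝ} {c : ℝ} (h : ∀ ω ∈ S, f ω ≤ c) :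
    gb S Y β s w f ≤ c := wav_le_const hS (bw_pos' S Y β s w) h
lemma const_le_gb (hS : S.Nonempty) {f : Ω → ℝ} {c : ℝ} (h : ∀ ω ∈ S, c ≤ f ω) :
    c ≤ gb S Y β s w f := const_le_wav hS (bw_pos' S Y β s w) h
lemma abs_gb_le (hS : S.Nonempty) {f : Ω → ℝ} {c : ℝ} (h : ∀ ω ∈ S, |f ω| ≤ c) :
    |gb S Y β s w f| ≤ c := abs_wav_le hS (bw_pos' S Y β s w) h

lemma le_mx {ω : Ω} (hω : ω ∈ S) : en Y s w ω ≤ mx S Y s w :=
  le_ciSup (f := fun ω : S => en Y s w ω) (Set.finite_range _).bddAbove ⟨ω, hω⟩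

lemma exists_mx (hS : S.Nonempty) : ∃ ω ∈ S, en Y s w ω = mx S Y s w := by
  have : Nonempty S := hS.to_subtype
  obtain ⟨ω, h⟩ := exists_eq_ciSup_of_finite (f := fun ω : S => en Y s w ω)
  exact ⟨ω, ω.2, h⟩

lemma mx_le_add (hS : S.Nonempty) {s' : E → ℝ} {w' : E × Bool → V} {c : ℝ}
    (h : ∀ ω ∈ S, en Y s w ω ≤ en Y s' w' ω + c) : mx S Y s w ≤ mx S Y s' w' + c := by
  obtain ⟨ω, hω, e⟩ := exists_mx (Y := Y) (s := s) (w := w) hS
  rw [← e]
  exact (h ω hω).trans (by linarith [le_mx (Y := Y) (s := s') (w := w') hω])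

lemma lZ_le_add (hS : S.Nonempty) {β' : ℝ} {s' : E → ℝ} {w' : E × Bool → V} {c : ℝ}
    (h : ∀ ω ∈ S, β * en Y s w ω ≤ β' * en Y s' w' ω + c) :
    lZ S Y β s w ≤ lZ S Y β' s' w' + c := by
  unfold lZ
  have h1 := wsum_pos hS (bw_pos' S Y β s w)
  have h2 := wsum_pos hS (bw_pos' S Y β' s' w')
  rw [← Real.log_exp c, ← Real.log_mul h2.ne' (Real.exp_pos c).ne', sum_mul]
  refine Real.log_le_log h1 (sum_le_sum fun ω hω => ?_)
  unfold bw
  rw [← Real.exp_add]
  exact Real.exp_le_exp.2 (h ω hω)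

lemma mul_mx_le_lZ (hS : S.Nonempty) : β * mx S Y s w ≤ lZ S Y β s w := by
  obtain ⟨ω, hω, e⟩ := exists_mx (Y := Y) (s := s) (w := w) hS
  rw [← e, ← Real.log_exp (β * en Y s w ω)]
  exact Real.log_le_log (Real.exp_pos _)
    (single_le_sum (f := bw Y β s w) (fun ω _ => (bw_pos Y β s w ω).le) hω)

lemma lZ_le_mx (hS : S.Nonempty) (hβ : 0 ≤ β) :
    lZ S Y β s w ≤ β * mx S Y s w + Real.log S.card := by
  unfold lZ
  have hc : (0 : ℝ) < S.card := by exact_mod_cast hS.card_pos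
  rw [← Real.log_exp (β * mx S Y s w), ← Real.log_mul (Real.exp_pos _).ne' hc.ne']
  refine Real.log_le_log (wsum_pos hS (bw_pos' S Y β s w)) ?_
  rw [mul_comm, ← nsmul_eq_mul]
  exact sum_le_card_nsmul _ _ _ fun ω hω =>
    Real.exp_le_exp.2 (mul_le_mul_of_nonneg_left (le_mx hω) hβ)

lemma gb_en_le_mx (hS : S.Nonempty) : gb S Y β s w (en Y s w) ≤ mx S Y s w :=
  gb_le_const hS fun _ hω => le_mx hω

/-- changing the couplings on a set B of slots -/
lemma abs_en_sub_le {y : ℝ} (hY : ∀ ω u v, |Y ω u v| ≤ y) (B : Finset E) {s' : E → ℝ}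
    (h1 : ∀ i, i ∉ B → s' i = s i) (h2 : ∀ i ∈ B, |s' i - s i| ≤ 1) (ω : Ω) :
    |en Y s' w ω - en Y s w ω| ≤ y * B.card := by
  unfold en
  rw [← sum_sub_distrib, ← sum_subset (subset_univ B) (by
    intro i _ hi; rw [h1 i hi, sub_self])]
  refine (abs_sum_le_sum_abs _ _).trans ?_
  rw [mul_comm, ← nsmul_eq_mul]
  refine sum_le_card_nsmul _ _ _ fun i hi => ?_
  rw [← sub_mul, abs_mul]
  have := hY ω (w (i, false)) (w (i, true))
  nlinarith [h2 i hi, abs_nonneg (s' i - s i), abs_nonneg (Y ω (w (i, false)) (w (i, true)))]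

lemma en_update (k : E) (hk : s k = 0) (J : ℝ) (ω : Ω) :
    en Y (Function.update s k J) w ω = en Y s w ω + J * Y ω (w (k, false)) (w (k, true)) := by
  unfold en
  rw [← add_sum_erase _ _ (mem_univ k), ← add_sum_erase _ _ (mem_univ k), hk,
    Function.update_self, zero_mul, zero_add, add_comm]
  congr 1
  exact sum_congr rfl fun i hi => by rw [Function.update_of_ne (mem_erase.1 hi).1]

lemma gb_update (hS : S.Nonempty) (k : E) (hk : s k = 0) (J : ℝ) (f : Ω → ℝ) :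
    gb S Y β (Function.update s k J) w f
      = gb S Y β s w (fun ω => Real.exp (β * J * Y ω (w (k, false)) (w (k, true))) * f ω)
        / gb S Y β s w (fun ω => Real.exp (β * J * Y ω (w (k, false)) (w (k, true)))) := by
  unfold gb
  rw [← wav_tilt hS (bw_pos' S Y β s w)]
  refine wav_congr_w fun ω _ => ?_
  unfold bw
  rw [en_update k hk, ← Real.exp_add]; congr 1; ring

lemma lZ_update (hS : S.Nonempty) (k : E) (hk : s k = 0) (J : ℝ) :
    lZ S Y β (Function.update s k J) w = lZ S Y β s w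
      + Real.log (gb S Y β s w fun ω => Real.exp (β * J * Y ω (w (k, false)) (w (k, true)))) := by
  unfold lZ gb
  rw [← log_tilt hS (bw_pos' S Y β s w) fun ω _ => Real.exp_pos _]
  congr 1
  refine sum_congr rfl fun ω _ => ?_
  unfold bw
  rw [en_update k hk, ← Real.exp_add]; congr 1; ring

/-- removing one slot changes averages of nonnegative functions by a factor at most 2 -/
lemma gb_remove (hS : S.Nonempty) (hY : ∀ ω u v, |Y ω u v| ≤ 3) (h0 : 0 ≤ β) (h1 : β ≤ 1 / 100)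
    (k : E) (hk : |s k| ≤ 1) {f : Ω → ℝ} (hf : ∀ ω ∈ S, 0 ≤ f ω) :
    gb S Y β s w f ≤ 2 * gb S Y β (Function.update s k 0) w f ∧
      gb S Y β (Function.update s k 0) w f ≤ 2 * gb S Y β s w f := by
  have e : s = Function.update (Function.update s k 0) k (s k) := by simp
  have hy : ∀ ω ∈ S, |β * s k * Y ω (w (k, false)) (w (k, true))| ≤ 3 * β := by
    intro ω _
    rw [abs_mul, abs_mul, abs_of_nonneg h0]
    have := hY ω (w (k, false)) (w (k, true))
    have h2 : |s k| * |Y ω (w (k, false)) (w (k, true))| ≤ 3 := by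
      nlinarith [abs_nonneg (s k), abs_nonneg (Y ω (w (k, false)) (w (k, true)))]
    nlinarith
  have hx : Real.exp (2 * (3 * β)) ≤ 2 := by
    have := exp_le_one_add_two (x := 2 * (3 * β)) (by linarith) (by linarith)
    linarith
  have g := gb_update (Y := Y) (β := β) (w := w) (s := Function.update s k 0) hS k (by simp) (s k) f
  rw [← e] at g
  have p1 : 0 ≤ gb S Y β (Function.update s k 0) w f := const_le_gb hS hf
  have p2 : 0 ≤ gb S Y β s w f := const_le_gb hS hf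
  constructor
  · rw [g]
    exact (wav_exp_le hS (bw_pos' S Y β _ w) hy hf).trans (mul_le_mul_of_nonneg_right hx p1)
  · have := wav_le_exp hS (bw_pos' S Y β (Function.update s k 0) w) hy hf
    unfold gb at g p2 ⊢
    rw [← g] at this
    exact this.trans (mul_le_mul_of_nonneg_right hx p2)

end gb

section av
variable {w0 : E × Bool → V}

lemma card_perm_pos : (0 : ℝ) < Fintype.card (Perm (E × Bool)) := by
  exact_mod_cast Fintype.card_pos

lemma av_eq_wav (F : (E × Bool → V) → ℝ) :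
    av w0 F = wav univ (fun _ : Perm (E × Bool) => (1 : ℝ)) fun π => F (w0 ∘ π) := by
  simp [av, wav]

lemma av_mono_perm {F G : (E × Bool → V) → ℝ}
    (h : ∀ π : Perm (E × Bool), F (w0 ∘ π) ≤ G (w0 ∘ π)) : av w0 F ≤ av w0 G :=
  div_le_div_of_nonneg_right (sum_le_sum fun π _ => h π) card_perm_pos.le

lemma av_mono {F G : (E × Bool → V) → ℝ} (h : ∀ w, F w ≤ G w) : av w0 F ≤ av w0 G :=
  av_mono_perm fun _ => h _

lemma av_mono_deg {d : ℕ} (hd : Deg w0 d) {F G : (E × Bool → V) → ℝ}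
    (h : ∀ w, Deg w d → F w ≤ G w) : av w0 F ≤ av w0 G :=
  av_mono_perm fun π => h _ (hd.comp π)

lemma av_congr_deg {d : ℕ} (hd : Deg w0 d) {F G : (E × Bool → V) → ℝ}
    (h : ∀ w, Deg w d → F w = G w) : av w0 F = av w0 G :=
  le_antisymm (av_mono_deg hd fun w hw => (h w hw).le) (av_mono_deg hd fun w hw => (h w hw).ge)

lemma av_const (c : ℝ) : av w0 (fun _ => c) = c := by
  rw [av_eq_wav]; exact wav_const univ_nonempty (fun _ _ => one_pos) c
lemma av_add (F G : (E × Bool → V) → ℝ) : av w0 (fun w => F w + G w) = av w0 F + av w0 G := by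
  simp only [av_eq_wav]; exact wav_add _ _
lemma av_sub (F G : (E × Bool → V) → ℝ) : av w0 (fun w => F w - G w) = av w0 F - av w0 G := by
  simp only [av_eq_wav]; exact wav_sub _ _
lemma av_mul (c : ℝ) (F : (E × Bool → V) → ℝ) : av w0 (fun w => c * F w) = c * av w0 F := by
  simp only [av_eq_wav]; exact wav_mul _ _
lemma av_div (c : ℝ) (F : (E × Bool → V) → ℝ) : av w0 (fun w => F w / c) = av w0 F / c := by
  simp only [av_eq_wav]; exact wav_div _ _
lemma av_neg (F : (E × Bool → V) → ℝ) : av w0 (fun w => -F w) = -av w0 F := by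
  simp only [av_eq_wav]; exact wav_neg _
lemma av_sum {ι : Type*} (T : Finset ι) (F : ι → (E × Bool → V) → ℝ) :
    av w0 (fun w => ∑ i ∈ T, F i w) = ∑ i ∈ T, av w0 (F i) := by
  simp only [av_eq_wav]; exact wav_sum T fun i (π : Perm (E × Bool)) => F i (w0 ∘ π)
lemma av_le_const {F : (E × Bool → V) → ℝ} {c : ℝ} (h : ∀ w, F w ≤ c) : av w0 F ≤ c :=
  (av_mono h).trans_eq (av_const c)
lemma const_le_av {F : (E × Bool → V) → ℝ} {c : ℝ} (h : ∀ w, c ≤ F w) : c ≤ av w0 F :=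
  (av_const c).symm.trans_le (av_mono h)
lemma av_le_add {F G : (E × Bool → V) → ℝ} {c : ℝ} (h : ∀ w, F w ≤ G w + c) :
    av w0 F ≤ av w0 G + c := by
  have := av_mono (w0 := w0) h
  rwa [av_add, av_const] at this
lemma abs_av_le {F : (E × Bool → V) → ℝ} {c : ℝ} (h : ∀ w, |F w| ≤ c) : |av w0 F| ≤ c :=
  abs_le.2 ⟨const_le_av fun w => (abs_le.1 (h w)).1, av_le_const fun w => (abs_le.1 (h w)).2⟩

/-- invariance under a fixed rearrangement -/
lemma av_comp (τ : Perm (E × Bool)) (F : (E × Bool → V) → ℝ) :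
    av w0 (fun w => F (w ∘ τ)) = av w0 F := by
  unfold av
  rw [← Equiv.sum_comp (Equiv.mulRight τ) fun π : Perm (E × Bool) => F (w0 ∘ π)]
  rfl

open Classical in
lemma pr_eq (P : (E × Bool → V) → Prop) :
    pr w0 P = ((univ.filter fun π : Perm (E × Bool) => P (w0 ∘ π)).card : ℝ)
      / (Fintype.card (Perm (E × Bool)) : ℝ) := by
  unfold pr av
  rw [sum_boole]

lemma pr_nonneg (P : (E × Bool → V) → Prop) : 0 ≤ pr w0 P := by
  rw [pr_eq]; positivity

lemma pr_mono_deg {d : ℕ} (hd : Deg w0 d) {P Q : (E × Bool → V) → Prop}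
    (h : ∀ w, Deg w d → P w → Q w) : pr w0 P ≤ pr w0 Q := by
  refine av_mono_deg hd fun w hw => ?_
  by_cases hP : P w
  · simp [hP, h w hw hP]
  · by_cases hQ : Q w <;> simp [hP, hQ]

lemma pr_mono {P Q : (E × Bool → V) → Prop} (h : ∀ w, P w → Q w) : pr w0 P ≤ pr w0 Q := by
  refine av_mono fun w => ?_
  by_cases hP : P w
  · simp [hP, h w hP]
  · by_cases hQ : Q w <;> simp [hP, hQ]

/-- union bound -/
lemma pr_exists_le {ι : Type*} (T : Finset ι) (P : ι → (E × Bool → V) → Prop) :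
    pr w0 (fun w => ∃ i ∈ T, P i w) ≤ ∑ i ∈ T, pr w0 (P i) := by
  classical
  unfold pr
  rw [← av_sum]
  refine av_mono fun w => ?_
  split_ifs with h
  · obtain ⟨i, hi, hp⟩ := h
    refine le_trans ?_ (single_le_sum (f := fun i => if P i w then (1 : ℝ) else 0)
      (fun i _ => by split_ifs <;> norm_num) hi)
    simp [hp]
  · exact sum_nonneg fun i _ => by split_ifs <;> norm_num

end av

section cavity
variable {U : Finset E}

lemma card_cav (U : Finset E) : ((cav U).card : ℝ) = 2 * U.card := by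
  simp [cav, mul_comm]

lemma mem_cav {a : E × Bool} : a ∈ cav U ↔ a.1 ∈ U := by simp [cav]

lemma aQQ_mul (φ ψ : V → ℝ) (w : E × Bool → V) :
    aQQ U (fun a b => φ (w a) * ψ (w b)) = aQ U φ w * aQ U ψ w := by
  unfold aQQ aQ
  rw [← sum_mul_sum, div_mul_div_comm, sq]

lemma aQQ_eq_wav (K : E × Bool → E × Bool → ℝ) :
    aQQ U K = wav (cav U ×ˢ cav U) (fun _ => (1 : ℝ)) fun q => K q.1 q.2 := by
  unfold aQQ wav
  simp only [one_mul, sum_const, nsmul_eq_mul, mul_one, card_product, Nat.cast_mul, card_cav]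
  rw [sum_product, sq]

lemma aQ_eq_wav (φ : V → ℝ) (w : E × Bool → V) :
    aQ U φ w = wav (cav U) (fun _ => (1 : ℝ)) fun a => φ (w a) := by
  unfold aQ wav
  simp only [one_mul, sum_const, nsmul_eq_mul, mul_one, card_cav]

lemma cav_nonempty (hU : 1 ≤ U.card) : (cav U).Nonempty := by
  obtain ⟨i, hi⟩ := card_pos.1 hU
  exact ⟨(i, true), mem_cav.2 hi⟩

lemma aQQ_mono (hU : 1 ≤ U.card) {K K' : E × Bool → E × Bool → ℝ}
    (h : ∀ a ∈ cav U, ∀ b ∈ cav U, K a b ≤ K' a b) : aQQ U K ≤ aQQ U K' := by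
  simp only [aQQ_eq_wav]
  exact wav_mono ((cav_nonempty hU).product (cav_nonempty hU)) (fun _ _ => one_pos)
    fun q hq => h _ (mem_product.1 hq).1 _ (mem_product.1 hq).2
lemma aQQ_const (hU : 1 ≤ U.card) (c : ℝ) : aQQ U (fun _ _ => c) = c := by
  rw [aQQ_eq_wav]
  exact wav_const ((cav_nonempty hU).product (cav_nonempty hU)) (fun _ _ => one_pos) c
lemma aQQ_add (K K' : E × Bool → E × Bool → ℝ) :
    aQQ U (fun a b => K a b + K' a b) = aQQ U K + aQQ U K' := by
  simp only [aQQ_eq_wav]; exact wav_add _ _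
lemma aQQ_sub (K K' : E × Bool → E × Bool → ℝ) :
    aQQ U (fun a b => K a b - K' a b) = aQQ U K - aQQ U K' := by
  simp only [aQQ_eq_wav]; exact wav_sub _ _
lemma aQQ_smul (c : ℝ) (K : E × Bool → E × Bool → ℝ) :
    aQQ U (fun a b => c * K a b) = c * aQQ U K := by
  simp only [aQQ_eq_wav]; exact wav_mul _ _
lemma aQQ_neg (K : E × Bool → E × Bool → ℝ) : aQQ U (fun a b => -K a b) = -aQQ U K := by
  simp only [aQQ_eq_wav]; exact wav_neg _
lemma aQQ_comm (K : E × Bool → E × Bool → ℝ) : aQQ U (fun a b => K b a) = aQQ U K := by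
  unfold aQQ; rw [sum_comm]
lemma aQQ_left (hU : 1 ≤ U.card) (φ : V → ℝ) (w : E × Bool → V) :
    aQQ U (fun a _ => φ (w a)) = aQ U φ w := by
  have h := aQQ_mul (U := U) φ (fun _ => 1) w
  have h1 : aQ U (fun _ : V => (1 : ℝ)) w = 1 := by
    rw [aQ_eq_wav]; exact wav_const (cav_nonempty hU) (fun _ _ => one_pos) 1
  simpa [h1] using h
lemma aQQ_right (hU : 1 ≤ U.card) (φ : V → ℝ) (w : E × Bool → V) :
    aQQ U (fun _ b => φ (w b)) = aQ U φ w := by
  rw [← aQQ_left hU, ← aQQ_comm]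

/-- Gibbs averages commute with cavity averages -/
lemma gb_aQQ {S : Finset Ω} {Y : Ω → V → V → ℝ} {β : ℝ} {s : E → ℝ} {w : E × Bool → V}
    (K : Ω → E × Bool → E × Bool → ℝ) :
    gb S Y β s w (fun ω => aQQ U (K ω)) = aQQ U fun a b => gb S Y β s w fun ω => K ω a b := by
  unfold aQQ
  rw [gb_div, gb_sum]
  simp only [gb_sum]

lemma av_aQQ {w0 : E × Bool → V} (K : (E × Bool → V) → E × Bool → E × Bool → ℝ) :
    av w0 (fun w => aQQ U (K w)) = aQQ U fun a b => av w0 fun w => K w a b := by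
  unfold aQQ
  rw [av_div, av_sum]
  simp only [av_sum]

lemma abs_aQ_le (hU : 1 ≤ U.card) {φ : V → ℝ} (h : ∀ v, |φ v| ≤ 1) (w : E × Bool → V) :
    |aQ U φ w| ≤ 1 := by
  rw [aQ_eq_wav]
  exact abs_wav_le (cav_nonempty hU) (fun _ _ => one_pos) fun a _ => h _

lemma abs_aV_le {φ : V → ℝ} (h : ∀ v, |φ v| ≤ 1) : |aV φ| ≤ 1 := by
  unfold aV
  rcases Nat.eq_zero_or_pos (Fintype.card V) with h0 | h0
  · simp [h0]
  · have hc : (0 : ℝ) < Fintype.card V := by exact_mod_cast h0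
    rw [abs_div, abs_of_pos hc, div_le_one hc]
    refine (abs_sum_le_sum_abs _ _).trans ?_
    simpa using sum_le_card_nsmul univ (fun v => |φ v|) 1 fun v _ => h v

lemma mem_bal {x : V → Bool} : x ∈ bal V ↔ ∑ v, sgn (x v) = 0 := by simp [bal]

lemma aV_o1 {x : V → Bool} (hx : x ∈ bal V) : aV (o1 x) = 0 := by
  unfold aV o1
  rw [mem_bal.1 hx, zero_div]

lemma mem_bal3 {ω : T3 V} : ω ∈ bal3 V ↔ ω.1 ∈ bal V ∧ ω.2.1 ∈ bal V ∧ ω.2.2 ∈ bal V := by
  simp [bal3]

lemma bal3_nonempty (h : (bal V).Nonempty) : (bal3 V).Nonempty := h.product (h.product h)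

/-- sums over half-edges -/
lemma sum_half {w : E × Bool → V} {d : ℕ} (hd : Deg w d) (φ : V → ℝ) :
    ∑ p, φ (w p) = d * ∑ v, φ v := by
  rw [← sum_fiberwise (s := univ) (g := w), mul_sum]
  refine sum_congr rfl fun v _ => ?_
  rw [sum_congr rfl (g := fun _ => φ v) fun p hp => by rw [(mem_filter.1 hp).2], sum_const, hd v,
    nsmul_eq_mul]

lemma card_half {w : E × Bool → V} {d : ℕ} (hd : Deg w d) :
    2 * (Fintype.card E : ℝ) = d * Fintype.card V := by
  have := sum_half hd fun _ => (1 : ℝ)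
  simpa [mul_comm] using this

lemma one_le_deg [Nonempty E] {w : E × Bool → V} {d : ℕ} (hd : Deg w d) : 1 ≤ d := by
  have h := card_half hd
  have hE : (0 : ℝ) < Fintype.card E := by exact_mod_cast Fintype.card_pos
  rcases Nat.eq_zero_or_pos d with h0 | h0
  · rw [h0] at h; simp at h
  · exact h0

lemma sum_half_aV [Nonempty E] {w : E × Bool → V} {d : ℕ} (hd : Deg w d) (φ : V → ℝ) :
    ∑ p, φ (w p) = 2 * (Fintype.card E : ℝ) * aV φ := by
  have : Nonempty V := ⟨w (Classical.arbitrary E, true)⟩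
  have hV : (0 : ℝ) < Fintype.card V := by exact_mod_cast Fintype.card_pos
  rw [sum_half hd, card_half hd, aV]
  field_simp

end cavity

section patterns
variable {U : Finset E} {s : E → ℝ}

lemma Pat.abs_le {z : ℕ} (h : Pat U z s) (i : E) : |s i| ≤ 1 := by
  rcases h.1 i with e | e | e <;> simp [e]

lemma Full.abs_le (h : Full U s) (i : E) : |s i| ≤ 1 := by
  by_cases hi : i ∈ U
  · simp [h.1 i hi]
  · rcases h.2 i hi with e | e <;> simp [e]

lemma full_patt (U : Finset E) (J : E → Bool) : Full U (patt U J) :=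
  ⟨fun i hi => by simp [patt, hi], fun i hi => by simpa [patt, hi] using sgn_cases (J i)⟩

lemma Full.update (h : Full U s) {k : E} (hk : k ∉ U) {J : ℝ} (hJ : J = 1 ∨ J = -1) :
    Full U (Function.update s k J) := by
  refine ⟨fun i hi => ?_, fun i hi => ?_⟩
  · rw [Function.update_of_ne (by rintro rfl; exact hk hi)]; exact h.1 i hi
  · by_cases e : i = k
    · subst e; simpa using hJ
    · rw [Function.update_of_ne e]; exact h.2 i hi

lemma Full.update_zero_mem (h : Full U s) (k : E) : ∀ i ∈ U, Function.update s k 0 i = 0 := by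
  intro i hi
  by_cases e : i = k
  · subst e; simp
  · rw [Function.update_of_ne e]; exact h.1 i hi

lemma Full.pat_update (h : Full U s) (k : E) : Pat U (U.card + 1) (Function.update s k 0) := by
  classical
  refine ⟨fun i => ?_, h.update_zero_mem k, ?_⟩
  · by_cases e : i = k
    · subst e; simp
    · rw [Function.update_of_ne e]
      by_cases hi : i ∈ U
      · exact Or.inl (h.1 i hi)
      · exact Or.inr (h.2 i hi)
  · refine le_trans (card_le_card (t := insert k U) fun i hi => ?_) (card_insert_le _ _)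
    have hi' := (mem_filter.1 hi).2
    by_cases e : i = k
    · simp [e]
    · rw [Function.update_of_ne e] at hi'
      by_contra hc
      have : i ∉ U := fun hU => hc (mem_insert_of_mem hU)
      rcases h.2 i this with e' | e' <;> rw [e'] at hi' <;> norm_num at hi'

end patterns

end

end Pool.Agent.MP_32a90a_pr.L

end

section

set_option autoImplicit false
set_option linter.unusedSectionVars false

namespace Pool.Agent.MP_32a90a_pr.L

open Finset Equiv

section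
variable {V E Ω : Type} [Fintype V] [DecidableEq V] [Fintype E] [DecidableEq E]

section ex
variable {U : Finset E} {k : E} {a b : E × Bool}

lemma ex_false (hk : k ∉ U) (_ha : a ∈ cav U) (hb : b ∈ cav U) : ex k a b (k, false) = a := by
  have hbk : ∀ c, (k, c) ≠ b := by rintro c rfl; exact hk (mem_cav.1 hb)
  simp only [ex, Perm.mul_apply]
  rw [swap_apply_of_ne_of_ne (x := (k, false)) (by simp) (hbk _), swap_apply_left]

lemma ex_true (hk : k ∉ U) (_ha : a ∈ cav U) (hb : b ∈ cav U) (hab : a ≠ b) :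
    ex k a b (k, true) = b := by
  have hbk : ∀ c, (k, c) ≠ b := by rintro c rfl; exact hk (mem_cav.1 hb)
  simp only [ex, Perm.mul_apply]
  rw [swap_apply_left, swap_apply_of_ne_of_ne (hbk _).symm hab.symm]

lemma ex_other {p : E × Bool} (h1 : p.1 ≠ k) (h2 : p ≠ a) (h3 : p ≠ b) : ex k a b p = p := by
  have h : ∀ c', p ≠ (k, c') := by rintro c' rfl; exact h1 rfl
  simp only [ex, Perm.mul_apply]
  rw [swap_apply_of_ne_of_ne (h _) h3, swap_apply_of_ne_of_ne (h _) h2]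

lemma en_ex_zero (Y : Ω → V → V → ℝ) {s : E → ℝ} (hU : ∀ i ∈ U, s i = 0) (hs : s k = 0)
    (ha : a ∈ cav U) (hb : b ∈ cav U) (w : E × Bool → V) (ω : Ω) :
    en Y s (w ∘ ex k a b) ω = en Y s w ω := by
  unfold en
  refine sum_congr rfl fun i _ => ?_
  by_cases hi : s i = 0
  · simp [hi]
  · have h1 : i ≠ k := by rintro rfl; exact hi hs
    have h2 : ∀ c, (i, c) ≠ a := by rintro c rfl; exact hi (hU _ (mem_cav.1 ha))
    have h3 : ∀ c, (i, c) ≠ b := by rintro c rfl; exact hi (hU _ (mem_cav.1 hb))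
    simp only [Function.comp_apply]
    rw [ex_other (p := (i, false)) h1 (h2 _) (h3 _), ex_other (p := (i, true)) h1 (h2 _) (h3 _)]

lemma gb_ex_zero (S : Finset Ω) (Y : Ω → V → V → ℝ) (β : ℝ) {s : E → ℝ} (hU : ∀ i ∈ U, s i = 0)
    (hs : s k = 0) (ha : a ∈ cav U) (hb : b ∈ cav U) (w : E × Bool → V) (f : Ω → ℝ) :
    gb S Y β s (w ∘ ex k a b) f = gb S Y β s w f := by
  unfold gb
  exact wav_congr_w fun ω _ => by unfold bw; rw [en_ex_zero Y hU hs ha hb]

lemma lZ_ex_zero (S : Finset Ω) (Y : Ω → V → V → ℝ) (β : ℝ) {s : E → ℝ} (hU : ∀ i ∈ U, s i = 0)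
    (hs : s k = 0) (ha : a ∈ cav U) (hb : b ∈ cav U) (w : E × Bool → V) :
    lZ S Y β s (w ∘ ex k a b) = lZ S Y β s w := by
  unfold lZ
  congr 1
  exact sum_congr rfl fun ω _ => by unfold bw; rw [en_ex_zero Y hU hs ha hb]

/-- after the exchange, slot k joins the cavities a and b -/
lemma gb_ex {S : Finset Ω} (hS : S.Nonempty) (Y : Ω → V → V → ℝ) (β : ℝ) {s : E → ℝ}
    (hU : ∀ i ∈ U, s i = 0) (hs : s k = 0) (hk : k ∉ U) (ha : a ∈ cav U) (hb : b ∈ cav U)
    (hab : a ≠ b) (J : ℝ) (w : E × Bool → V) (f : Ω → ℝ) :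
    gb S Y β (Function.update s k J) (w ∘ ex k a b) f
      = gb S Y β s w (fun ω => Real.exp (β * J * Y ω (w a) (w b)) * f ω)
        / gb S Y β s w (fun ω => Real.exp (β * J * Y ω (w a) (w b))) := by
  rw [gb_update hS k hs, gb_ex_zero S Y β hU hs ha hb, gb_ex_zero S Y β hU hs ha hb]
  simp only [Function.comp_apply, ex_false hk ha hb, ex_true hk ha hb hab]

lemma lZ_ex {S : Finset Ω} (hS : S.Nonempty) (Y : Ω → V → V → ℝ) (β : ℝ) {s : E → ℝ}
    (hU : ∀ i ∈ U, s i = 0) (hs : s k = 0) (hk : k ∉ U) (ha : a ∈ cav U) (hb : b ∈ cav U)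
    (hab : a ≠ b) (J : ℝ) (w : E × Bool → V) :
    lZ S Y β (Function.update s k J) (w ∘ ex k a b)
      = lZ S Y β s w + Real.log (gb S Y β s w fun ω => Real.exp (β * J * Y ω (w a) (w b))) := by
  rw [lZ_update hS k hs, gb_ex_zero S Y β hU hs ha hb, lZ_ex_zero S Y β hU hs ha hb]
  simp only [Function.comp_apply, ex_false hk ha hb, ex_true hk ha hb hab]

/-- the exchange hardly moves cavity averages -/
lemma aQ_ex (hk : k ∉ U) (hU : 1 ≤ U.card) {φ : V → ℝ} (h : ∀ v, |φ v| ≤ 1) (w : E × Bool → V) :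
    |aQ U φ (w ∘ ex k a b) - aQ U φ w| ≤ 2 / (U.card : ℝ) := by
  have hr : (0 : ℝ) < U.card := by exact_mod_cast hU
  unfold aQ
  rw [← sub_div, abs_div, abs_of_pos (by positivity : (0 : ℝ) < 2 * U.card), ← sum_sub_distrib,
    div_le_div_iff₀ (by positivity) hr]
  have h4 : |∑ p ∈ cav U, (φ ((w ∘ ex k a b) p) - φ (w p))| ≤ 4 := by
    rw [← sum_filter_add_sum_filter_not (cav U) (fun p => p = a ∨ p = b)]
    have z : ∑ p ∈ (cav U).filter (fun p => ¬ (p = a ∨ p = b)),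
        (φ ((w ∘ ex k a b) p) - φ (w p)) = 0 := by
      refine sum_eq_zero fun p hp => ?_
      have hp' := mem_filter.1 hp
      have h1 : p.1 ≠ k := by rintro e; exact hk (e ▸ mem_cav.1 hp'.1)
      rw [Function.comp_apply, ex_other h1 (fun e => hp'.2 (Or.inl e)) (fun e => hp'.2 (Or.inr e)),
        sub_self]
    rw [z, add_zero]
    refine (abs_sum_le_sum_abs _ _).trans ?_
    have c2 : ((cav U).filter (fun p => p = a ∨ p = b)).card ≤ 2 :=
      (card_le_card (t := {a, b}) fun p hp => by simpa using (mem_filter.1 hp).2).trans card_le_two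
    have := sum_le_card_nsmul ((cav U).filter (fun p => p = a ∨ p = b))
      (fun p => |φ ((w ∘ ex k a b) p) - φ (w p)|) 2 fun p _ =>
        (abs_sub _ _).trans (by linarith [h ((w ∘ ex k a b) p), h (w p)])
    rw [nsmul_eq_mul] at this
    have c2' : (((cav U).filter (fun p => p = a ∨ p = b)).card : ℝ) ≤ 2 := by exact_mod_cast c2
    linarith
  nlinarith

end ex

/-- from the exchange inequality for distinct cavities to an inequality of averages -/
lemma offdiag_ge {w0 : E × Bool → V} {U : Finset E} (hU : 1 ≤ U.card) (k : E)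
    {G : (E × Bool → V) → ℝ} {K : (E × Bool → V) → E × Bool → E × Bool → ℝ} {c η : ℝ}
    (hη : 0 ≤ η) (hG : ∀ w, |G w| ≤ c) (hK : ∀ w a b, |K w a b| ≤ c)
    (h : ∀ w, ∀ a ∈ cav U, ∀ b ∈ cav U, a ≠ b → K w a b - η ≤ G (w ∘ ex k a b)) :
    av w0 (fun w => aQQ U (K w)) - η - c / (U.card : ℝ) ≤ av w0 G := by
  have hr : (0 : ℝ) < U.card := by exact_mod_cast hU
  have h1 : ∀ a ∈ cav U, ∀ b ∈ cav U, av w0 (fun w => K w a b)
      ≤ (av w0 G + η) + (if a = b then 2 * c else 0) := by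
    intro a ha b hb
    split_ifs with e
    · have x1 := (abs_le.1 (abs_av_le (w0 := w0) (F := fun w => K w a b) fun w => hK w a b)).2
      have x2 := (abs_le.1 (abs_av_le (w0 := w0) hG)).1
      linarith
    · rw [add_zero, ← av_comp (ex k a b) G]
      exact av_le_add fun w => by linarith [h w a ha b hb e]
  have h2 := aQQ_mono hU h1
  rw [aQQ_add, aQQ_const hU, ← av_aQQ] at h2
  have h3 : aQQ U (fun a b => if a = b then 2 * c else 0) = c / (U.card : ℝ) := by
    unfold aQQ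
    rw [sum_congr rfl (g := fun _ => 2 * c) fun a ha => by simp [ha], sum_const, nsmul_eq_mul,
      card_cav]
    field_simp
  linarith

lemma offdiag_le {w0 : E × Bool → V} {U : Finset E} (hU : 1 ≤ U.card) (k : E)
    {G : (E × Bool → V) → ℝ} {K : (E × Bool → V) → E × Bool → E × Bool → ℝ} {c η : ℝ}
    (hη : 0 ≤ η) (hG : ∀ w, |G w| ≤ c) (hK : ∀ w a b, |K w a b| ≤ c)
    (h : ∀ w, ∀ a ∈ cav U, ∀ b ∈ cav U, a ≠ b → G (w ∘ ex k a b) ≤ K w a b + η) :
    av w0 G ≤ av w0 (fun w => aQQ U (K w)) + η + c / (U.card : ℝ) := by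
  have := offdiag_ge (w0 := w0) hU k (G := fun w => -G w) (K := fun w a b => -K w a b) hη
    (fun w => by rw [abs_neg]; exact hG w) (fun w a b => by rw [abs_neg]; exact hK w a b)
    (fun w a ha b hb e => by linarith [h w a ha b hb e])
  simp only [aQQ_neg, av_neg] at this
  linarith

section lip
variable {S : Finset Ω} {Y : Ω → V → V → ℝ} {s : E → ℝ} {y : ℝ}

lemma en_swap (hY : ∀ ω u v, |Y ω u v| ≤ y) (hs : ∀ i, |s i| ≤ 1) (w : E × Bool → V)
    (a b : E × Bool) (ω : Ω) : |en Y s (w ∘ swap a b) ω - en Y s w ω| ≤ 4 * y := by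
  have hy : 0 ≤ y := (abs_nonneg _).trans (hY ω (w a) (w a))
  unfold en
  rw [← sum_sub_distrib, ← sum_subset (subset_univ {a.1, b.1}) (by
    intro i _ hi
    simp only [mem_insert, mem_singleton, not_or] at hi
    have h : ∀ c, swap a b (i, c) = (i, c) := fun c =>
      swap_apply_of_ne_of_ne (by rintro rfl; exact hi.1 rfl) (by rintro rfl; exact hi.2 rfl)
    simp [h])]
  refine (abs_sum_le_sum_abs _ _).trans ?_
  have := sum_le_card_nsmul ({a.1, b.1} : Finset E)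
    (fun i => |s i * Y ω ((w ∘ swap a b) (i, false)) ((w ∘ swap a b) (i, true))
      - s i * Y ω (w (i, false)) (w (i, true))|) (2 * y) fun i _ => by
      rw [← mul_sub, abs_mul]
      have h1 := (abs_sub _ _).trans (add_le_add
        (hY ω ((w ∘ swap a b) (i, false)) ((w ∘ swap a b) (i, true)))
        (hY ω (w (i, false)) (w (i, true))))
      nlinarith [hs i, abs_nonneg (s i), abs_nonneg (Y ω ((w ∘ swap a b) (i, false))
        ((w ∘ swap a b) (i, true)) - Y ω (w (i, false)) (w (i, true)))]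
  rw [nsmul_eq_mul] at this
  have c2 : ((({a.1, b.1} : Finset E).card : ℕ) : ℝ) ≤ 2 := by exact_mod_cast card_le_two
  nlinarith

lemma mx_swap (hS : S.Nonempty) (hY : ∀ ω u v, |Y ω u v| ≤ y) (hs : ∀ i, |s i| ≤ 1)
    (w : E × Bool → V) (a b : E × Bool) : |mx S Y s (w ∘ swap a b) - mx S Y s w| ≤ 4 * y := by
  have h1 := mx_le_add (Y := Y) (s := s) (w := w ∘ swap a b) (s' := s) (w' := w) (c := 4 * y) hS
    fun ω _ => by linarith [(abs_le.1 (en_swap hY hs w a b ω)).2]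
  have h2 := mx_le_add (Y := Y) (s := s) (w := w) (s' := s) (w' := w ∘ swap a b) (c := 4 * y) hS
    fun ω _ => by linarith [(abs_le.1 (en_swap hY hs w a b ω)).1]
  rw [abs_le]; constructor <;> linarith

lemma lZ_swap (hS : S.Nonempty) (hY : ∀ ω u v, |Y ω u v| ≤ y) (hs : ∀ i, |s i| ≤ 1) {β : ℝ}
    (hβ : 0 ≤ β) (w : E × Bool → V) (a b : E × Bool) :
    |lZ S Y β s (w ∘ swap a b) - lZ S Y β s w| ≤ 4 * y * β := by
  have h1 := lZ_le_add (Y := Y) (β := β) (β' := β) (s := s) (w := w ∘ swap a b) (s' := s) (w' := w)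
    (c := 4 * y * β) hS fun ω _ => by nlinarith [(abs_le.1 (en_swap hY hs w a b ω)).2]
  have h2 := lZ_le_add (Y := Y) (β := β) (β' := β) (s := s) (w := w) (s' := s)
    (w' := w ∘ swap a b) (c := 4 * y * β) hS
    fun ω _ => by nlinarith [(abs_le.1 (en_swap hY hs w a b ω)).1]
  rw [abs_le]; constructor <;> linarith

end lip

/-- upper tail for functions with bounded differences under swaps -/
lemma pr_tail (w0 : E × Bool → V) (F : (E × Bool → V) → ℝ) {c l : ℝ} (hc : 0 < c) (hl : 0 ≤ l)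
    (hF : ∀ w a b, |F (w ∘ swap a b) - F w| ≤ c) (t : ℝ) :
    pr w0 (fun w => av w0 F + t ≤ F w)
      ≤ Real.exp (2 * l ^ 2 * c ^ 2 * (2 * (Fintype.card E : ℝ)) - l * t) := by
  have h := perm_tail c hc l hl (fun π : Perm (E × Bool) => F (w0 ∘ π))
    (fun π a b => hF (w0 ∘ π) a b) t
  have e : (Fintype.card (E × Bool) : ℝ) = 2 * (Fintype.card E : ℝ) := by simp [mul_comm]
  rw [pr_eq, div_le_iff₀ card_perm_pos, mul_comm, ← e]
  refine le_of_eq_of_le ?_ h
  congr 2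

/-- exponential moment for functions with bounded differences under swaps -/
lemma av_mgf (w0 : E × Bool → V) (F : (E × Bool → V) → ℝ) {c : ℝ} (hc : 0 < c) (l : ℝ)
    (hF : ∀ w a b, |F (w ∘ swap a b) - F w| ≤ c) :
    av w0 (fun w => Real.exp (l * (F w - av w0 F)))
      ≤ Real.exp (2 * l ^ 2 * c ^ 2 * (2 * (Fintype.card E : ℝ))) := by
  let P := E × Bool
  let f : Perm P → ℝ := fun π => F (w0 ∘ π)
  have hf : ∀ π a b, |f (π * swap a b) - f π| ≤ c := fun π a b => hF (w0 ∘ π) a b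
  let e : Fin (Fintype.card P) ≃ P := (Fintype.equivFin P).symm
  have key := perm_mgf_fin c hc l (Fintype.card P) (fun π => f (e.permCongr π)) (by
    intro π a b
    have : e.permCongr (π * swap a b) = e.permCongr π * swap (e a) (e b) := by
      ext x : 1
      simp only [permCongr_apply, Perm.mul_apply]
      congr 2
      rw [eq_symm_apply, ← e.injective.swap_apply, apply_symm_apply]
    simp only [this]; exact hf _ _ _)
  rw [Equiv.sum_comp e.permCongr f,
    Equiv.sum_comp e.permCongr (fun π => Real.exp (l * (f π - (∑ σ, f σ) / _))),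
    ← Fintype.card_perm] at key
  have e2 : (Fintype.card P : ℝ) = 2 * (Fintype.card E : ℝ) := by simp [P, mul_comm]
  rw [e2] at key
  rw [av, div_le_iff₀ card_perm_pos, mul_comm]
  exact key

/-- two distinct half-edges are sent to a uniform ordered pair of distinct half-edges -/
lemma av_pair (w0 : E × Bool → V) (F : V → V → ℝ) {p q : E × Bool} (hpq : p ≠ q) :
    av w0 (fun w => F (w p) (w q))
      = (∑ a, ∑ b, F (w0 a) (w0 b) - ∑ a, F (w0 a) (w0 a))
        / (2 * (Fintype.card E : ℝ) * (2 * (Fintype.card E : ℝ) - 1)) := by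
  have hN : (Fintype.card (E × Bool) : ℝ) = 2 * (Fintype.card E : ℝ) := by simp [mul_comm]
  have hE : (1 : ℝ) ≤ Fintype.card E := by
    have : Nonempty E := ⟨p.1⟩
    exact_mod_cast Fintype.card_pos
  have h1 : ∀ a b : E × Bool, a ≠ b →
      av w0 (fun w => F (w a) (w b)) = av w0 (fun w => F (w p) (w q)) := by
    intro a b hab
    obtain ⟨τ, t1, t2⟩ : ∃ τ : Perm (E × Bool), τ p = a ∧ τ q = b := by
      refine ⟨swap (swap p a q) b * swap p a, ?_, by simp⟩
      have e1 : a ≠ swap p a q := by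
        intro e
        have := congrArg (swap p a) e
        rw [swap_apply_right, swap_apply_self] at this
        exact hpq this
      rw [Perm.mul_apply, swap_apply_left, swap_apply_of_ne_of_ne e1 hab]
    rw [← av_comp τ (fun w => F (w p) (w q))]
    simp only [Function.comp_apply, t1, t2]
  have h2 : av w0 (fun w => ∑ a, ∑ b, F (w a) (w b) - ∑ a, F (w a) (w a))
      = ∑ a, ∑ b, F (w0 a) (w0 b) - ∑ a, F (w0 a) (w0 a) := by
    refine Eq.trans ?_ (av_const (w0 := w0) _)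
    have : ∀ π : Perm (E × Bool), (∑ a, ∑ b, F ((w0 ∘ π) a) ((w0 ∘ π) b)
        - ∑ a, F ((w0 ∘ π) a) ((w0 ∘ π) a)) = ∑ a, ∑ b, F (w0 a) (w0 b) - ∑ a, F (w0 a) (w0 a) := by
      intro π
      simp only [Function.comp_apply]
      rw [Equiv.sum_comp π fun a => F (w0 a) (w0 a),
        Equiv.sum_comp π fun a => ∑ b, F (w0 a) (w0 (π b))]
      congr 1
      exact sum_congr rfl fun a _ => Equiv.sum_comp π fun b => F (w0 a) (w0 b)
    exact le_antisymm (av_mono_perm fun π => (this π).le) (av_mono_perm fun π => (this π).ge)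
  have h3 : av w0 (fun w => ∑ a, ∑ b, F (w a) (w b) - ∑ a, F (w a) (w a))
      = 2 * (Fintype.card E : ℝ) * (2 * (Fintype.card E : ℝ) - 1)
        * av w0 (fun w => F (w p) (w q)) := by
    have e : ∀ w : E × Bool → V, ∑ a, ∑ b, F (w a) (w b) - ∑ a, F (w a) (w a)
        = ∑ a, ∑ b ∈ univ.erase a, F (w a) (w b) := by
      intro w
      rw [← sum_sub_distrib]
      refine sum_congr rfl fun a _ => ?_
      rw [← add_sum_erase _ _ (mem_univ a)]; ring
    simp only [e, av_sum]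
    rw [sum_congr rfl (g := fun _ => (2 * (Fintype.card E : ℝ) - 1)
      * av w0 (fun w => F (w p) (w q))) fun a _ => ?_, sum_const, card_univ, nsmul_eq_mul, hN]
    · ring
    · rw [sum_congr rfl fun b hb => h1 a b (ne_of_mem_erase hb).symm, sum_const,
        card_erase_of_mem (mem_univ a), card_univ, nsmul_eq_mul,
        Nat.cast_pred (Fintype.card_pos_iff.2 ⟨a⟩), hN]
  rw [← h2, h3, mul_div_cancel_left₀]
  have : (0 : ℝ) < 2 * (Fintype.card E : ℝ) - 1 := by linarith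
  positivity

end

end Pool.Agent.MP_32a90a_pr.L

end

section

set_option autoImplicit false
set_option linter.unusedSectionVars false

namespace Pool.Agent.MP_32a90a_pr.L

open Finset Equiv

section
variable {V E : Type} [Fintype V] [DecidableEq V] [Fintype E] [DecidableEq E]
variable {β : ℝ} {s : E → ℝ} {w : E × Bool → V}

lemma en_Y3 (ω : T3 V) :
    en Y3 s w ω = en Y1 s w ω.1 + en Y1 s w ω.2.1 + en Y1 s w ω.2.2 := by
  simp only [en, Y3, mul_add, sum_add_distrib]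

lemma bw_Y3 (ω : T3 V) :
    bw Y3 β s w ω = bw Y1 β s w ω.1 * bw Y1 β s w ω.2.1 * bw Y1 β s w ω.2.2 := by
  simp only [bw, en_Y3, mul_add, Real.exp_add]

lemma sum3_prod (S : Finset (V → Bool)) (f g h : (V → Bool) → ℝ) :
    ∑ ω ∈ S ×ˢ S ×ˢ S, f ω.1 * g ω.2.1 * h ω.2.2
      = (∑ x ∈ S, f x) * (∑ x ∈ S, g x) * ∑ x ∈ S, h x := by
  rw [sum_product, mul_assoc, sum_mul_sum S S g h, sum_mul]
  refine sum_congr rfl fun x _ => ?_
  rw [sum_product, mul_sum]
  refine sum_congr rfl fun y _ => ?_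
  rw [mul_sum]
  exact sum_congr rfl fun q _ => by ring

lemma sum_bw3 (S : Finset (V → Bool)) :
    ∑ ω ∈ S ×ˢ S ×ˢ S, bw Y3 β s w ω = (∑ x ∈ S, bw Y1 β s w x) ^ 3 := by
  simp only [bw_Y3]
  rw [sum3_prod]; ring

lemma lZ_bal3 : lZ (bal3 V) Y3 β s w = 3 * lZ (bal V) Y1 β s w := by
  unfold lZ bal3
  rw [sum_bw3, Real.log_pow]; norm_num

/-- the three replicas are independent -/
lemma gb3_prod (f g h : (V → Bool) → ℝ) :
    gb (bal3 V) Y3 β s w (fun ω => f ω.1 * g ω.2.1 * h ω.2.2)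
      = gb (bal V) Y1 β s w f * gb (bal V) Y1 β s w g * gb (bal V) Y1 β s w h := by
  unfold gb wav bal3
  rw [sum_bw3, div_mul_div_comm, div_mul_div_comm, ← sum3_prod]
  congr 1
  · exact sum_congr rfl fun ω _ => by rw [bw_Y3]; ring
  · ring

lemma gb3_o2 (hb : (bal V).Nonempty) (u v : V) :
    gb (bal3 V) Y3 β s w (fun ω => o2 ω u * o2 ω v)
      = gb (bal V) Y1 β s w (fun x => Y1 x u v) ^ 2 := by
  have := gb3_prod (β := β) (s := s) (w := w) (fun x => Y1 x u v) (fun x => Y1 x u v) fun _ => 1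
  rw [gb_const hb, mul_one, ← sq] at this
  rw [← this]
  exact gb_congr fun ω _ => by simp only [o2, Y1]; ring

lemma gb3_o3 (u v : V) :
    gb (bal3 V) Y3 β s w (fun ω => o3 ω u * o3 ω v)
      = gb (bal V) Y1 β s w (fun x => Y1 x u v) ^ 3 := by
  have := gb3_prod (β := β) (s := s) (w := w) (fun x => Y1 x u v) (fun x => Y1 x u v)
    fun x => Y1 x u v
  rw [pow_succ, sq, ← this]
  exact gb_congr fun ω _ => by simp only [o3, Y1]; ring

lemma aQQ_gb_one (U : Finset E) :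
    aQQ U (fun a b => gb (bal V) Y1 β s w fun x => Y1 x (w a) (w b))
      = gb (bal V) Y1 β s w fun x => aQ U (o1 x) w ^ 2 := by
  rw [← gb_aQQ]
  exact gb_congr fun x _ => by rw [sq, ← aQQ_mul]; rfl

lemma aQQ_gb_two (hb : (bal V).Nonempty) (U : Finset E) :
    aQQ U (fun a b => gb (bal V) Y1 β s w (fun x => Y1 x (w a) (w b)) ^ 2)
      = gb (bal3 V) Y3 β s w fun ω => aQ U (o2 ω) w ^ 2 := by
  simp only [← gb3_o2 hb]
  rw [← gb_aQQ]
  exact gb_congr fun ω _ => by rw [sq, ← aQQ_mul]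

lemma aQQ_gb_three (U : Finset E) :
    aQQ U (fun a b => gb (bal V) Y1 β s w (fun x => Y1 x (w a) (w b)) ^ 3)
      = gb (bal3 V) Y3 β s w fun ω => aQ U (o3 ω) w ^ 2 := by
  simp only [← gb3_o3]
  rw [← gb_aQQ]
  exact gb_congr fun ω _ => by rw [sq, ← aQQ_mul]

lemma aQQ_Y3 (U : Finset E) (ω : T3 V) :
    aQQ U (fun a b => Y3 ω (w a) (w b))
      = aQ U (o1 ω.1) w ^ 2 + aQ U (o1 ω.2.1) w ^ 2 + aQ U (o1 ω.2.2) w ^ 2 := by
  simp only [Y3, aQQ_add, sq, ← aQQ_mul]
  rfl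

/-- exponential of a sign -/
lemma exp_sign (β J y : ℝ) (hJ : J = 1 ∨ J = -1) (hy : y = 1 ∨ y = -1) :
    Real.exp (β * J * y) = Real.cosh β * (1 + Real.tanh β * J * y) := by
  have hc := (Real.cosh_pos β).ne'
  rw [Real.tanh_eq_sinh_div_cosh]
  rcases hJ with rfl | rfl <;> rcases hy with rfl | rfl <;> field_simp <;>
    simp [Real.cosh_add_sinh, Real.cosh_sub_sinh, ← sub_eq_add_neg]

lemma Y1_cases (x : V → Bool) (u v : V) : Y1 x u v = 1 ∨ Y1 x u v = -1 := by
  unfold Y1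
  rcases sgn_cases (x u) with h | h <;> rcases sgn_cases (x v) with h' | h' <;> simp [h, h']

lemma tanh_bounds {β : ℝ} (h0 : 0 ≤ β) (h1 : β ≤ 1) :
    β / 2 ≤ Real.tanh β ∧ Real.tanh β ≤ β := by
  have hc := Real.cosh_pos β
  rw [Real.tanh_eq_sinh_div_cosh]
  constructor
  · rw [le_div_iff₀ hc]
    have a1 : β ≤ Real.sinh β := Real.self_le_sinh_iff.2 h0
    have a2 : Real.cosh β ≤ 2 := by
      have := Real.cosh_le_exp_half_sq β
      have := exp_le_one_add_two (x := β ^ 2 / 2) (by positivity) (by nlinarith)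
      nlinarith
    nlinarith
  · rw [div_le_iff₀ hc, Real.sinh_eq, Real.cosh_eq]
    have e1 : Real.exp β * Real.exp (-β) = 1 := by rw [← Real.exp_add]; simp
    have e2 : Real.exp β * (1 - β) ≤ Real.exp (-β) * (1 + β) := by
      have f1 := Real.exp_pos β
      have f2 := Real.exp_pos (-β)
      have g1 := Real.add_one_le_exp (β)
      have g2 := Real.add_one_le_exp (-β)
      have g3 : Real.exp β ≤ 1 + β + β ^ 2 / 2 + β ^ 3 / 4 := by
        have := Real.exp_bound' h0 h1 (n := 3) (by norm_num)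
        simp [sum_range_succ, Nat.factorial] at this
        nlinarith [pow_nonneg h0 3]
      have g4 : 1 - β + β ^ 2 / 2 - β ^ 3 / 4 ≤ Real.exp (-β) := by
        have := Real.exp_bound (x := -β) (by rw [abs_neg, abs_of_nonneg h0]; exact h1) (n := 3)
          (by norm_num)
        simp [sum_range_succ, Nat.factorial, abs_of_nonneg h0] at this
        have := (abs_le.1 this).1
        nlinarith [pow_nonneg h0 3]
      have g5 : Real.exp β * (1 - β) ≤ (1 + β + β ^ 2 / 2 + β ^ 3 / 4) * (1 - β) :=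
        mul_le_mul_of_nonneg_right g3 (by linarith)
      have g6 : (1 - β + β ^ 2 / 2 - β ^ 3 / 4) * (1 + β) ≤ Real.exp (-β) * (1 + β) :=
        mul_le_mul_of_nonneg_right g4 (by linarith)
      nlinarith [pow_nonneg h0 3, pow_nonneg h0 4]
    nlinarith

end

end Pool.Agent.MP_32a90a_pr.L

end
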