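import Pool.Agent.Mg.F32a90ap.G90ed05

section

set_option autoImplicit false

namespace Pool.Agent.MP_32a90a_pr.L

open Finset Equiv Filter Topology

/-- Khintchine lower bound on the cube -/
def StKhin : Prop :=
  ∀ (V : Type) [Fintype V] [DecidableEq V] (a : V → ℝ),
    (2 : ℝ) ^ Fintype.card V * (Real.sqrt (∑ v, a v ^ 2) / 2)
      ≤ ∑ τ : V → Bool, |∑ v, a v * sgn (τ v)|

/-- Hoeffding tail on the cube -/
def StHoef : Prop :=
  ∀ (V : Type) [Fintype V] [DecidableEq V] (D : Finset V) (a : V → ℝ) (c : ℝ),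
    (∀ v, |a v| ≤ 1) → 0 ≤ c →
    ((univ.filter fun τ : V → Bool =>
        c * (D.card : ℝ) < (∑ v ∈ D, a v * sgn (τ v)) ^ 2).card : ℝ)
      ≤ 2 * (2 : ℝ) ^ Fintype.card V * Real.exp (-(c / 2))

/-- bounded differences on the cube, exponential moment form -/
def StCube : Prop :=
  ∀ (V : Type) [Fintype V] [DecidableEq V] (g : (V → Bool) → ℝ) (c l : ℝ), 0 < c →
    (∀ τ v b, |g (Function.update τ v b) - g τ| ≤ c) →
    ∑ τ : V → Bool, Real.exp (l * (g τ - (∑ σ : V → Bool, g σ) / (2 : ℝ) ^ Fintype.card V))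
      ≤ (2 : ℝ) ^ Fintype.card V * Real.exp (l ^ 2 * c ^ 2 * Fintype.card V / 2)

open Classical in
/-- averaging over a subgroup that depends on an invariant -/
def StGrp : Prop :=
  ∀ (G ι : Type) [Group G] [Fintype G] (I : G → ι) (Γ : ι → Subgroup G) (bad : G → Prop) (p : ℝ),
    0 ≤ p → (∀ π ρ, ρ ∈ Γ (I π) → I (π * ρ) = I π) →
    (∀ π, bad π → ((univ.filter fun ρ => ρ ∈ Γ (I π) ∧ bad (π * ρ)).card : ℝ)
      ≤ p * ((univ.filter fun ρ => ρ ∈ Γ (I π)).card : ℝ)) →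
    ((univ.filter bad).card : ℝ) ≤ p * (Fintype.card G : ℝ)

open Classical in
/-- few permutations of I send many points into small prescribed sets -/
def StCount : Prop :=
  ∀ (E : Type) [Fintype E] [DecidableEq E] (I : Finset E) (T : E → Finset E) (D j : ℕ),
    (∀ i, (T i).card ≤ D) →
    ((univ.filter fun ρ : Perm E => (∀ i, i ∉ I → ρ i = i) ∧
        j ≤ (I.filter fun i => ρ i ∈ T i).card).card : ℝ)
      ≤ (D : ℝ) ^ j / (j.factorial : ℝ)
        * ((univ.filter fun ρ : Perm E => ∀ i, i ∉ I → ρ i = i).card : ℝ)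

open Classical in
/-- two arrangements that shatter the same set share many edges -/
def StMatch : Prop :=
  ∀ (V E : Type) [Fintype V] [DecidableEq V] [Fintype E] [DecidableEq E]
    (w : E × Bool → V) (d a0 a : ℕ) (l : ℝ) (A B : Finset V) (ρ : Perm E),
    EM d a0 w → a0 ≤ a → Disjoint A B → A.card = 2 * a → B.card = a →
    (∀ i, i ∉ slots A B w → ρ i = i) → 0 ≤ l →
    32 * l ^ 2 * (Fintype.card V : ℝ) ≤ (d : ℝ) * (a : ℝ) ^ 3 →
    Shat (near w l) (A ∪ B) → Shat (near (w ∘ lift ρ) l) (A ∪ B) →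
    (d : ℝ) * (a : ℝ) ^ 2 ≤ 8 * (Fintype.card V : ℝ) *
      (((slots A B w).filter fun i => ∃ i' ∈ slots A B w,
        w (i', false) = w (i, false) ∧ w (i', true) = w (ρ i, true)).card : ℝ)

/-- rigidity fails with super-exponentially small probability -/
def StRig : Prop :=
  ∀ (V E : Type) [Fintype V] [DecidableEq V] [Fintype E] [DecidableEq E]
    (w0 : E × Bool → V) (d a0 j : ℕ), Deg w0 d →
    8 * (Fintype.card V : ℝ) * (j : ℝ) ≤ (d : ℝ) * (a0 : ℝ) ^ 2 → 1 ≤ a0 →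
    pr w0 (fun w => EM d a0 w ∧ ¬ Rig d a0 w)
      ≤ (4 : ℝ) ^ Fintype.card V * (((d : ℝ) ^ 2) ^ j / (j.factorial : ℝ))

/-- partial binomial sums -/
def StBin : Prop :=
  ∀ (n K : ℕ) (x L : ℝ), 0 < x → x ≤ 1 → -Real.log x ≤ L →
    ∑ i ∈ range (K + 1), (n.choose i : ℝ) ≤ Real.exp (K * L + x * n)

/-- the edge lower bound holds with high probability -/
def StEM : Prop :=
  ∀ (V E : Type) [Fintype V] [DecidableEq V] [Fintype E] [DecidableEq E] [Nonempty E]
    (w0 : E × Bool → V) (d a0 : ℕ) (x L α : ℝ), Deg w0 d → 0 < x → x ≤ α → x ≤ 1 →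
    -Real.log x ≤ L → 512 * (2 * L + 3) ≤ (d : ℝ) * α ^ 3 → α * (Fintype.card V : ℝ) ≤ a0 →
    pr w0 (fun w => ¬ EM d a0 w)
      ≤ ((Fintype.card V : ℝ) + 1) * Real.exp (-(α * (Fintype.card V : ℝ)))

/-- entropy bound for a rigid arrangement -/
def StLayer : Prop :=
  ∀ (V E : Type) [Fintype V] [DecidableEq V] [Fintype E] [DecidableEq E]
    (w : E × Bool → V) (d a0 : ℕ) (β x L : ℝ), (bal V).Nonempty → 1 ≤ d → Rig d a0 w →
    0 < β → 0 < x → x ≤ 1 → -Real.log x ≤ L →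
    lZ (bal V) Y1 β (fun _ => -1) w ≤ β * mx (bal V) Y1 (fun _ => -1) w
      + (β + Real.log (2 * (Fintype.card E : ℝ) + 1) + 3 * L * ((a0 : ℝ) + 1)
        + x * (Fintype.card V : ℝ) + 864 * L ^ 3 * (Fintype.card V : ℝ) / ((d : ℝ) * β ^ 2))

/-- annealed gauge bound for triples with a large triple overlap -/
def StGauge3 : Prop :=
  ∀ (V E : Type) [Fintype V] [DecidableEq V] [Fintype E] [DecidableEq E]
    (w : E × Bool → V) (U : Finset E) (β s0 : ℝ), 0 ≤ s0 → (Abad V s0).Nonempty →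
    ∑ J : E → Bool, lZ (Abad V s0) Y3 β (patt U J) w
      ≤ ∑ J : E → Bool, (3 * lZ (univ : Finset (V → Bool)) Y1 β (patt U J) w
          - s0 * (Fintype.card V : ℝ) / 2 + Real.log 2)

/-- with random signs the balance constraint is almost free -/
def StGaugeF : Prop :=
  ∀ (V E : Type) [Fintype V] [DecidableEq V] [Fintype E] [DecidableEq E]
    (w : E × Bool → V) (d : ℕ) (U : Finset E) (β l : ℝ), Deg w d → 1 ≤ d → (bal V).Nonempty →
    0 < β → 0 < l → l ≤ 1 →
    ∑ J : E → Bool, lZ (univ : Finset (V → Bool)) Y1 β (patt U J) w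
      ≤ ∑ J : E → Bool, (lZ (bal V) Y1 β (patt U J) w
          + (Real.log ((Fintype.card V : ℝ) + 1) / l
            + 2 * l * ((d : ℝ) * β) ^ 2 * (Fintype.card V : ℝ)))

/-- first moment bound on the maximal energy -/
def StMx : Prop :=
  ∀ (V E : Type) [Fintype V] [DecidableEq V] [Fintype E] [DecidableEq E] [Nonempty E]
    (w0 : E × Bool → V) (d : ℕ) (s : E → ℝ), Deg w0 d → (bal V).Nonempty → (∀ i, |s i| ≤ 1) →
    av w0 (mx (bal V) Y1 s) ≤ 10 * Real.sqrt d * (Fintype.card V : ℝ) + 1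

/-- cavity averages are controlled by bulk averages -/
def StCav : Prop :=
  ∀ (V E Ω : Type) [Fintype V] [DecidableEq V] [Fintype E] [DecidableEq E]
    (w0 : E × Bool → V) (d : ℕ) (S : Finset Ω) (Y : Ω → V → V → ℝ) (φ : Ω → V → ℝ) (β : ℝ)
    (U : Finset E) (z : ℕ) (s : E → ℝ), Deg w0 d → S.Nonempty → (∀ ω u v, |Y ω u v| ≤ 3) →
    (∀ ω v, |φ ω v| ≤ 1) → 0 ≤ β → β ≤ 1 / 100 → 1 ≤ U.card → Pat U z s →
    av w0 (fun w => gb S Y β s w fun ω => aQ U (φ ω) w ^ 2)
      ≤ 16 * av w0 (fun w => gb S Y β s w fun ω => aV (φ ω) ^ 2)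
        + 600 * (β ^ 2 + 1 / (U.card : ℝ) + (z : ℝ) / (Fintype.card E : ℝ))

/-- refined bound on the cavity magnetisation of one replica -/
def StCavA : Prop :=
  ∀ (V E : Type) [Fintype V] [DecidableEq V] [Fintype E] [DecidableEq E]
    (w0 : E × Bool → V) (d : ℕ) (β : ℝ) (U : Finset E) (z : ℕ) (s : E → ℝ),
    Deg w0 d → (bal V).Nonempty → 0 ≤ β → β ≤ 1 / 100 → 1 ≤ U.card → Pat U z s →
    av w0 (fun w => gb (bal V) Y1 β s w fun x => aQ U (o1 x) w ^ 2)
      ≤ 600 * (β ^ 4 + 1 / (U.card : ℝ) + (z : ℝ) / (Fintype.card E : ℝ))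

open Classical in
/-- bulk against cavity overlap, positive form -/
def StPos : Prop :=
  ∀ (V E Ω : Type) [Fintype V] [DecidableEq V] [Fintype E] [DecidableEq E]
    (w0 : E × Bool → V) (d : ℕ) (S : Finset Ω) (Y : Ω → V → V → ℝ) (φ : Ω → V → ℝ) (β : ℝ)
    (U : Finset E) (s : E → ℝ), Deg w0 d → S.Nonempty → (∀ ω u v, |Y ω u v| ≤ 3) →
    (∀ ω v, |φ ω v| ≤ 1) → 0 ≤ β → β ≤ 1 / 100 → 1 ≤ U.card → Full U s →
    av w0 (fun w => gb S Y β s w fun ω => 1 - |aV (φ ω)|)
      ≤ 2 * (∑ j ∈ univ.filter (fun j => j ∉ U), av w0 (fun w =>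
            gb S Y β (Function.update s j 0) w fun ω => 1 - aQ U (φ ω) w ^ 2))
          / (Fintype.card E : ℝ)
        + 6 / (U.card : ℝ) + 2 * (U.card : ℝ) / (Fintype.card E : ℝ)

/-- energy of one edge -/
def StEdge : Prop :=
  ∀ (V E : Type) [Fintype V] [DecidableEq V] [Fintype E] [DecidableEq E]
    (w0 : E × Bool → V) (β : ℝ) (U : Finset E) (s : E → ℝ) (j : E),
    (bal V).Nonempty → 0 ≤ β → β ≤ 1 / 100 → 1 ≤ U.card → Full U s → j ∉ U →
    β / 4 * av w0 (fun w => gb (bal3 V) Y3 β (Function.update s j 0) w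
          fun ω => 1 - aQ U (o2 ω) w ^ 2)
        - av w0 (fun w => gb (bal V) Y1 β (Function.update s j 0) w fun x => aQ U (o1 x) w ^ 2)
        - 1 / (U.card : ℝ)
      ≤ av w0 (fun w => gb (bal V) Y1 β s w fun x => s j * Y1 x (w (j, false)) (w (j, true)))

/-- two replicas are close -/
def StTheta : Prop :=
  ∀ (V E : Type) [Fintype V] [DecidableEq V] [Fintype E] [DecidableEq E]
    (w0 : E × Bool → V) (d : ℕ) (β : ℝ) (U : Finset E) (s : E → ℝ),
    Deg w0 d → (bal V).Nonempty → 0 < β → β ≤ 1 / 100 → 1 ≤ U.card → Full U s →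
    av w0 (fun w => gb (bal3 V) Y3 β s w fun ω => 1 - |aV (o2 ω)|)
      ≤ 5000 * (Real.sqrt d * (Fintype.card V : ℝ) / (Fintype.card E : ℝ) + β ^ 4
          + 1 / (U.card : ℝ) + ((U.card : ℝ) + 1) / (Fintype.card E : ℝ)) / β

/-- third order expansion of one interpolation step, one replica -/
def StStep1 : Prop :=
  ∀ (V E : Type) [Fintype V] [DecidableEq V] [Fintype E] [DecidableEq E]
    (w0 : E × Bool → V) (β : ℝ) (U : Finset E) (s : E → ℝ) (k : E),
    (bal V).Nonempty → 0 ≤ β → β ≤ 1 / 100 → 1 ≤ U.card → (∀ i ∈ U, s i = 0) → s k = 0 → k ∉ U →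
    av w0 (lZ (bal V) Y1 β (Function.update s k (-1)))
        ≤ av w0 (lZ (bal V) Y1 β (Function.update s k 1)) + (4 * β ^ 5 + 2 * β / (U.card : ℝ)) ∧
      av w0 (lZ (bal V) Y1 β (Function.update s k 1))
        ≤ av w0 (lZ (bal V) Y1 β (Function.update s k (-1)))
          + (2 * β * av w0 (fun w => gb (bal V) Y1 β s w fun x => aQ U (o1 x) w ^ 2)
            + β ^ 3 * av w0 (fun w => gb (bal3 V) Y3 β s w fun ω => aQ U (o3 ω) w ^ 2)
            + 4 * β ^ 5 + 2 * β / (U.card : ℝ))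

/-- first order expansion of one interpolation step, general system -/
def StStepU : Prop :=
  ∀ (V E Ω : Type) [Fintype V] [DecidableEq V] [Fintype E] [DecidableEq E]
    (w0 : E × Bool → V) (S : Finset Ω) (Y : Ω → V → V → ℝ) (β : ℝ) (U : Finset E) (s : E → ℝ)
    (k : E), S.Nonempty → (∀ ω u v, |Y ω u v| ≤ 3) → 0 ≤ β → β ≤ 1 / 100 → 1 ≤ U.card →
    (∀ i ∈ U, s i = 0) → s k = 0 → k ∉ U →
    |av w0 (lZ S Y β (Function.update s k 1)) - av w0 (lZ S Y β (Function.update s k (-1)))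
        - 2 * β * av w0 (fun w => gb S Y β s w fun ω => aQQ U fun a b => Y ω (w a) (w b))|
      ≤ 1100 * (β ^ 3 + β / (U.card : ℝ))

/-- telescoping over the slots -/
def StChain : Prop :=
  ∀ (E : Type) [Fintype E] [DecidableEq E] (U : Finset E) (Φ : (E → ℝ) → ℝ) (δ : ℝ), 0 ≤ δ →
    (∀ s k, Full U s → k ∉ U → Φ (Function.update s k 1) ≤ Φ (Function.update s k (-1)) + δ) →
    ∀ s, Full U s → Φ s ≤ Φ (patt U fun _ => false) + (Fintype.card E : ℝ) * δ

/-- crude universality for constrained triples -/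
def StUniv : Prop :=
  ∀ (V E : Type) [Fintype V] [DecidableEq V] [Fintype E] [DecidableEq E]
    (w0 : E × Bool → V) (d : ℕ) (S : Finset (T3 V)) (β : ℝ) (U : Finset E) (s s' : E → ℝ),
    Deg w0 d → S.Nonempty → S ⊆ bal3 V → 0 ≤ β → β ≤ 1 / 100 → 1 ≤ U.card → Full U s →
    Full U s' →
    av w0 (lZ S Y3 β s) ≤ av w0 (lZ S Y3 β s') + (Fintype.card E : ℝ) *
      (10000 * β * (β ^ 2 + 1 / (U.card : ℝ) + ((U.card : ℝ) + 1) / (Fintype.card E : ℝ)))

/-- from a negative mean to a small Gibbs mass -/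
def StMass : Prop :=
  ∀ (V E : Type) [Fintype V] [DecidableEq V] [Fintype E] [DecidableEq E] [Nonempty E]
    (w0 : E × Bool → V) (A : Finset (T3 V)) (β β' c : ℝ) (s : E → ℝ),
    A.Nonempty → A ⊆ bal3 V → 0 < β' → β' ≤ β → β ≤ 1 / 100 → (∀ i, |s i| ≤ 1) → 0 ≤ c →
    av w0 (lZ A Y3 β' s) - 3 * (β' / β) * av w0 (lZ (bal V) Y1 β s) ≤ -(2 * c) →
    av w0 (fun w => gb (bal3 V) Y3 β s w fun ω => if ω ∈ A then 1 else 0)
      ≤ Real.exp (-c) + Real.exp (-(c ^ 2 / (16 * (Fintype.card E : ℝ))))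

/-- the mean bound in the pairing model, for a fixed degree and tolerance -/
def MeanBound (d : ℕ) (η : ℝ) : Prop :=
  ∀ᶠ k : ℕ in atTop, ∀ w0 : Fin (k * d) × Bool → Fin (2 * k), Deg w0 d →
    av w0 (mx (bal (Fin (2 * k))) Y1 fun _ => 1)
      ≤ av w0 (mx (bal (Fin (2 * k))) Y1 fun _ => -1) + η * k

open Classical in
/-- concentration and transfer to simple graphs -/
def StTransfer : Prop :=
  ∀ (d : ℕ) (η : ℝ), 1 ≤ d → 0 < η → MeanBound d η →
    Tendsto (fun k : ℕ =>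
      ({G : SimpleGraph (Fin (2 * k)) | G.IsRegularOfDegree d ∧
          3 * η < sSup (vals G) + sInf (vals G)}.ncard : ℝ)
        / ({G : SimpleGraph (Fin (2 * k)) | G.IsRegularOfDegree d}.ncard : ℝ)) atTop (𝓝 0)

end Pool.Agent.MP_32a90a_pr.L

end

section

set_option autoImplicit false

namespace Pool.Agent.MP_32a90a_pr.L

open Finset Equiv Filter Topology

/-- entropy bound in mean -/
def StEnt : Prop :=
  ∀ (V E : Type) [Fintype V] [DecidableEq V] [Fintype E] [DecidableEq E]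
    (w0 : E × Bool → V) (d a0 : ℕ) (β x L P : ℝ), (bal V).Nonempty → 1 ≤ d →
    0 < β → 0 < x → x ≤ 1 → -Real.log x ≤ L →
    pr w0 (fun w => ¬ EM d a0 w) + pr w0 (fun w => EM d a0 w ∧ ¬ Rig d a0 w) ≤ P →
    av w0 (lZ (bal V) Y1 β fun _ => -1) ≤ β * av w0 (mx (bal V) Y1 fun _ => -1)
      + (β + Real.log (2 * (Fintype.card E : ℝ) + 1) + 3 * L * ((a0 : ℝ) + 1)
        + x * (Fintype.card V : ℝ) + 864 * L ^ 3 * (Fintype.card V : ℝ) / ((d : ℝ) * β ^ 2)
        + (Fintype.card V : ℝ) * P)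

/-- stiffness of the triple overlap -/
def StStiff : Prop :=
  ∀ (V E : Type) [Fintype V] [DecidableEq V] [Fintype E] [DecidableEq E]
    (w0 : E × Bool → V) (d : ℕ) (U : Finset E) (β β' s0 l S' ε : ℝ) (s : E → ℝ),
    Deg w0 d → (bal V).Nonempty → 1 ≤ U.card → 0 < β' → β' ≤ β → β ≤ 1 / 100 → 0 ≤ s0 →
    0 < l → l ≤ 1 → ε = 1 / (U.card : ℝ) + ((U.card : ℝ) + 1) / (Fintype.card E : ℝ) →
    av w0 (lZ (bal V) Y1 β' fun _ => -1) ≤ β' * av w0 (mx (bal V) Y1 fun _ => -1) + S' →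
    3 * S' + 6 * β' * (U.card : ℝ) + 2 * ((Fintype.card E : ℝ) * (10000 * β' * (β' ^ 2 + ε)))
        + 3 * (Real.log ((Fintype.card V : ℝ) + 1) / l
          + 2 * l * ((d : ℝ) * β') ^ 2 * (Fintype.card V : ℝ)) + 1
        + 3 * β' * (Fintype.card E : ℝ) * (4 * β ^ 4 + 2 / (U.card : ℝ))
      ≤ s0 * (Fintype.card V : ℝ) / 4 →
    Full U s →
    av w0 (fun w => gb (bal3 V) Y3 β s w fun ω => aV (o3 ω) ^ 2)
      ≤ 2 * s0 * av w0 (fun w => gb (bal3 V) Y3 β s w fun ω => 1 - |aV (o2 ω)|)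
        + (Real.exp (-(s0 * (Fintype.card V : ℝ) / 8))
          + Real.exp (-((s0 * (Fintype.card V : ℝ) / 8) ^ 2 / (16 * (Fintype.card E : ℝ)))))

/-- the interpolation bound with all error terms -/
def StAbs : Prop :=
  ∀ (V E : Type) [Fintype V] [DecidableEq V] [Fintype E] [DecidableEq E]
    (w0 : E × Bool → V) (d : ℕ) (U : Finset E) (β s0 S ε p : ℝ),
    Deg w0 d → (bal V).Nonempty → 1 ≤ U.card → 0 < β → β ≤ 1 / 100 → 0 ≤ s0 → 0 ≤ p →
    ε = 1 / (U.card : ℝ) + ((U.card : ℝ) + 1) / (Fintype.card E : ℝ) →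
    av w0 (lZ (bal V) Y1 β fun _ => -1) ≤ β * av w0 (mx (bal V) Y1 fun _ => -1) + S →
    (∀ s, Full U s → av w0 (fun w => gb (bal3 V) Y3 β s w fun ω => aV (o3 ω) ^ 2)
      ≤ 2 * s0 * av w0 (fun w => gb (bal3 V) Y3 β s w fun ω => 1 - |aV (o2 ω)|) + p) →
    av w0 (mx (bal V) Y1 fun _ => 1) ≤ av w0 (mx (bal V) Y1 fun _ => -1)
      + (2 * (U.card : ℝ) + S / β + (Fintype.card E : ℝ) * (1900 * β ^ 4 + 1300 * ε
        + 320000 * β * s0 * (Real.sqrt d * (Fintype.card V : ℝ) / (Fintype.card E : ℝ)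
          + β ^ 4 + ε) + 32 * β ^ 2 * p))

/-- factorials beat exponentials -/
def StFact : Prop :=
  ∀ (c D : ℝ), 0 < c → 1 ≤ D →
    Tendsto (fun k : ℕ => (4 : ℝ) ^ (2 * k) * (D ^ ⌊c * k⌋₊ / ((⌊c * k⌋₊).factorial : ℝ)))
      atTop (𝓝 0)

/-- the quantities depending on k are eventually small -/
def StLim : Prop :=
  ∀ (d r : ℕ) (α s0 c τ : ℝ), 1 ≤ d → 0 < α → 0 < s0 → 0 < c → 0 < τ →
    ∀ᶠ k : ℕ in atTop, r ≤ k ∧ Real.log (2 * ((k : ℝ) * d) + 1) ≤ τ ^ 2 * k ∧
      (r : ℝ) + 1 ≤ τ * k ∧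
      (2 * (k : ℝ) + 1) * Real.exp (-(α * (2 * k)))
        + (4 : ℝ) ^ (2 * k) * (((d : ℝ) ^ 2) ^ ⌊c * k⌋₊ / ((⌊c * k⌋₊).factorial : ℝ)) ≤ τ ∧
      Real.exp (-(s0 * (2 * k) / 8))
        + Real.exp (-((s0 * (2 * k) / 8) ^ 2 / (16 * ((k : ℝ) * d)))) ≤ τ

/-- numerical check of the stiffness condition -/
def StNum1 : Prop :=
  ∀ (u D k r a0 lg lg' P ε : ℝ), 0 < u → u ≤ 1 / 10 ^ 12 → D * u ^ 600 = 1 → 0 < r →
    1 / r ≤ u ^ 1000 → r + 1 ≤ u ^ 1000 * k → a0 ≤ u ^ 199 * (2 * k) + 1 →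
    lg ≤ (u ^ 1000) ^ 2 * k → lg' ≤ lg → P ≤ u ^ 1000 → ε = 1 / r + (r + 1) / (k * D) →
    3 * (u ^ 240 + lg + 3 * (200 / u) * (a0 + 1) + u ^ 200 * (2 * k)
          + 864 * (200 / u) ^ 3 * (2 * k) / (D * (u ^ 240) ^ 2) + 2 * k * P)
        + 6 * u ^ 240 * r + 2 * (k * D * (10000 * u ^ 240 * ((u ^ 240) ^ 2 + ε)))
        + 3 * (lg' / u ^ 900 + 2 * u ^ 900 * (D * u ^ 240) ^ 2 * (2 * k)) + 1
        + 3 * u ^ 240 * (k * D) * (4 * (u ^ 190) ^ 4 + 2 / r)
      ≤ u ^ 116 * (2 * k) / 4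

/-- numerical check of the final bound -/
def StNum2 : Prop :=
  ∀ (u D k r a0 lg P p ε : ℝ), 0 < u → u ≤ 1 / 10 ^ 12 → D * u ^ 600 = 1 → 0 < r →
    1 / r ≤ u ^ 1000 → r + 1 ≤ u ^ 1000 * k → a0 ≤ u ^ 199 * (2 * k) + 1 →
    lg ≤ (u ^ 1000) ^ 2 * k → P ≤ u ^ 1000 → p ≤ u ^ 1000 → ε = 1 / r + (r + 1) / (k * D) →
    2 * r + (u ^ 190 + lg + 3 * (200 / u) * (a0 + 1) + u ^ 200 * (2 * k)
          + 864 * (200 / u) ^ 3 * (2 * k) / (D * (u ^ 190) ^ 2) + 2 * k * P) / u ^ 190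
        + k * D * (1900 * (u ^ 190) ^ 4 + 1300 * ε
          + 320000 * u ^ 190 * u ^ 116 * (Real.sqrt D * (2 * k) / (k * D) + (u ^ 190) ^ 4 + ε)
          + 32 * (u ^ 190) ^ 2 * p)
      ≤ 10 ^ 6 * u ^ 6 * k

/-- the mean bound for large degree -/
def StMean : Prop :=
  ∀ (d : ℕ) (u : ℝ), 0 < u → u ≤ 1 / 10 ^ 12 → (d : ℝ) * u ^ 600 = 1 →
    MeanBound d (10 ^ 6 * u ^ 6)

end Pool.Agent.MP_32a90a_pr.L

end

section

set_option autoImplicit false

namespace Pool.Agent.MP_32a90a_pr.L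

open Finset Equiv

namespace JCube

theorem cube_fin (c : ℝ) (hc : 0 < c) (l : ℝ) (n : ℕ) : ∀ f : (Fin n → Bool) → ℝ,
    (∀ τ v b, |f (Function.update τ v b) - f τ| ≤ c) →
    ∑ τ, Real.exp (l * (f τ - (∑ σ, f σ) / (2 : ℝ) ^ n))
      ≤ (2 : ℝ) ^ n * Real.exp (l ^ 2 * c ^ 2 * n / 2) := by
  induction n with
  | zero =>
    intro f _
    simp
  | succ n ih =>
    intro f hf
    have hF : (0 : ℝ) < (2 : ℝ) ^ n := by positivity
    have split : ∀ F : (Fin (n + 1) → Bool) → ℝ,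
        ∑ π, F π = ∑ p : Bool, ∑ e : Fin n → Bool, F (Fin.cons p e) := by
      intro F
      rw [← Fintype.sum_prod_type', ← Equiv.sum_comp (Fin.consEquiv fun _ => Bool)]
      rfl
    set m : Bool → ℝ := fun p => (∑ e : Fin n → Bool, f (Fin.cons p e)) / (2 : ℝ) ^ n with hm
    have hμ : (∑ σ, f σ) / (2 : ℝ) ^ (n + 1) = (∑ p, m p) / Fintype.card Bool := by
      rw [split f, hm, ← sum_div, Fintype.card_bool]
      push_cast; field_simp; ring
    have hmm : ∀ p q, |m p - m q| ≤ c := by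
      intro p q
      simp only [hm]
      rw [← sub_div, ← sum_sub_distrib, abs_div, abs_of_pos hF, div_le_iff₀ hF]
      calc _ ≤ ∑ e : Fin n → Bool, |f (Fin.cons p e) - f (Fin.cons q e)| :=
            abs_sum_le_sum_abs _ _
        _ ≤ ∑ _e : Fin n → Bool, c := by
            refine sum_le_sum fun e _ => ?_
            have h1 := hf (Fin.cons q e) 0 p
            rwa [Fin.update_cons_zero] at h1
        _ = c * (2 : ℝ) ^ n := by simp [mul_comm]
    have hH := hoeff m c hc hmm l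
    rw [split, hμ]
    set μ := (∑ p, m p) / Fintype.card Bool
    calc ∑ p : Bool, ∑ e : Fin n → Bool, Real.exp (l * (f (Fin.cons p e) - μ))
        = ∑ p : Bool, Real.exp (l * (m p - μ)) *
            ∑ e : Fin n → Bool, Real.exp (l * (f (Fin.cons p e) - m p)) := by
          refine sum_congr rfl fun p _ => ?_
          rw [mul_sum]
          refine sum_congr rfl fun e _ => ?_
          rw [← Real.exp_add]; congr 1; ring
      _ ≤ ∑ p : Bool, Real.exp (l * (m p - μ)) *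
            ((2 : ℝ) ^ n * Real.exp (l ^ 2 * c ^ 2 * n / 2)) := by
          refine sum_le_sum fun p _ => mul_le_mul_of_nonneg_left ?_ (Real.exp_pos _).le
          refine ih (fun e => f (Fin.cons p e)) fun e a b => ?_
          simp only [Fin.cons_update]; exact hf _ _ _
      _ = (∑ p : Bool, Real.exp (l * (m p - μ))) *
            ((2 : ℝ) ^ n * Real.exp (l ^ 2 * c ^ 2 * n / 2)) := by
          rw [sum_mul]
      _ ≤ (Fintype.card Bool * Real.exp (l ^ 2 * c ^ 2 / 2))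
            * ((2 : ℝ) ^ n * Real.exp (l ^ 2 * c ^ 2 * n / 2)) :=
          mul_le_mul_of_nonneg_right hH (by positivity)
      _ = _ := by
          rw [Fintype.card_bool]
          push_cast
          have : l ^ 2 * c ^ 2 * ((n : ℝ) + 1) / 2
            = l ^ 2 * c ^ 2 / 2 + l ^ 2 * c ^ 2 * n / 2 := by ring
          rw [this, Real.exp_add]; ring

end JCube

theorem stCube : StCube := by
  intro V _ _ g c l hc hg
  let e : Fin (Fintype.card V) ≃ V := (Fintype.equivFin V).symm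
  let φ : (Fin (Fintype.card V) → Bool) ≃ (V → Bool) := Equiv.arrowCongr e (Equiv.refl Bool)
  have key := JCube.cube_fin c hc l (Fintype.card V) (fun τ => g (φ τ)) (by
    intro τ v b
    have : φ (Function.update τ v b) = Function.update (φ τ) (e v) b := by
      funext x
      obtain ⟨y, rfl⟩ := e.surjective x
      by_cases h : y = v
      · subst h; simp [φ]
      · simp [φ, Function.update_of_ne h, Function.update_of_ne (e.injective.ne h)]
    simp only [this]; exact hg _ _ _)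
  rwa [Equiv.sum_comp φ g,
    Equiv.sum_comp φ (fun τ => Real.exp (l * (g τ - (∑ σ, g σ) / _)))] at key

end Pool.Agent.MP_32a90a_pr.L

end

section

set_option autoImplicit false

namespace Pool.Agent.MP_32a90a_pr.L

open Finset Equiv

namespace JGaugeF

theorem sgn_beq (a b : Bool) : sgn (a == b) = sgn a * sgn b := by
  cases a <;> cases b <;> simp [sgn]

theorem abs_sgn (a : Bool) : |sgn a| = 1 := by
  cases a <;> simp [sgn]

/-- pointwise comparison with a fixed bit vector -/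
def gg {ι : Type} (t : ι → Bool) : Perm (ι → Bool) :=
  Function.Involutive.toPerm (fun x i => x i == t i) fun x => funext fun i => by
    cases h : x i <;> cases h' : t i <;> simp [h, h']

theorem gg_apply {ι : Type} (t x : ι → Bool) (i : ι) : gg t x i = (x i == t i) := rfl

theorem gg_comm {ι : Type} (t x : ι → Bool) : gg t x = gg x t :=
  funext fun i => (Bool.beq_comm : (x i == t i) = (t i == x i))

variable {V E : Type} [Fintype V] [DecidableEq V] [Fintype E] [DecidableEq E]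

omit [Fintype V] [DecidableEq V] in
theorem en_gauge (U : Finset E) (J : E → Bool) (w : E × Bool → V) (τ x : V → Bool) :
    en Y1 (patt U (gg (fun i => τ (w (i, false)) == τ (w (i, true))) J)) w x =
      en Y1 (patt U J) w (gg τ x) := by
  refine sum_congr rfl fun i _ => ?_
  simp only [patt, Y1, gg_apply, sgn_beq]
  split_ifs <;> ring

omit [Fintype V] [DecidableEq E] in
theorem en_le {w : E × Bool → V} {d : ℕ} (hw : Deg w d) {s : E → ℝ} (hs : ∀ i, |s i| ≤ 1)
    {x y : V → Bool} {v : V} (h : ∀ u, u ≠ v → x u = y u) :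
    en Y1 s w x ≤ en Y1 s w y + 2 * d := by
  have h1 : (d : ℝ) = ∑ i, ((if w (i, true) = v then (1 : ℝ) else 0) +
      if w (i, false) = v then 1 else 0) := by
    rw [← hw v, card_filter, Nat.cast_sum, Fintype.sum_prod_type]
    simp only [Fintype.sum_bool, Nat.cast_ite, Nat.cast_one, Nat.cast_zero]
  rw [h1, en, en, mul_sum, ← sum_add_distrib]
  refine sum_le_sum fun i _ => ?_
  have h2 : ∀ z : V → Bool, |s i * Y1 z (w (i, false)) (w (i, true))| ≤ 1 := fun z => by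
    rw [Y1, abs_mul, abs_mul, abs_sgn, abs_sgn, mul_one, mul_one]
    exact hs i
  have h3 := (abs_le.1 (h2 x)).2
  have h4 := (abs_le.1 (h2 y)).1
  split_ifs with e1 e2 e2
  · linarith
  · linarith
  · linarith
  · rw [Y1, Y1, h _ e1, h _ e2]
    linarith

theorem card_bal (h : (bal V).Nonempty) :
    (2 : ℝ) ^ Fintype.card V ≤ ((Fintype.card V : ℝ) + 1) * (bal V).card := by
  have h1 : ∀ x : V → Bool, x ∈ bal V ↔
      Fintype.card V = 2 * (univ.filter fun v => x v = true).card := fun x => by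
    have e : ∑ v, sgn (x v) = 2 * ((univ.filter fun v => x v = true).card : ℝ) -
        Fintype.card V := by
      rw [card_filter, Nat.cast_sum, mul_sum, ← card_univ, card_eq_sum_ones, Nat.cast_sum,
        ← sum_sub_distrib]
      refine sum_congr rfl fun v _ => ?_
      cases x v <;> norm_num [sgn]
    simp only [bal, mem_filter, mem_univ, true_and]
    rw [e, sub_eq_zero, eq_comm]
    norm_cast
  obtain ⟨x, hx⟩ := h
  obtain ⟨k, hk⟩ : ∃ k, Fintype.card V = 2 * k := ⟨_, (h1 x).1 hx⟩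
  have h2 : (powersetCard k (univ : Finset V)).card ≤ (bal V).card := by
    refine card_le_card_of_injOn (fun s v => decide (v ∈ s)) (fun s hs => ?_) fun s _ t _ e => ?_
    · refine (h1 _).2 ?_
      simp [hk, (mem_powersetCard.1 hs).2]
    · ext v
      simpa using congrFun e v
  rw [card_powersetCard, card_univ] at h2
  have h3 : 2 ^ Fintype.card V ≤ (Fintype.card V + 1) * (bal V).card := by
    refine le_trans ?_ (Nat.mul_le_mul_left _ h2)
    rw [hk, pow_mul]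
    exact Nat.four_pow_le_two_mul_add_one_mul_central_binom k
  exact_mod_cast h3

theorem mean_le (h : StCube) (G : (V → Bool) → ℝ) {L c l : ℝ} (hc : 0 < c) (hl : 0 < l)
    (hl1 : l ≤ 1) (hG : ∀ τ, G τ ≤ L) (hd : ∀ τ v b, |G (Function.update τ v b) - G τ| ≤ c)
    (hs : (2 : ℝ) ^ Fintype.card V * Real.exp L ≤
      ((Fintype.card V : ℝ) + 1) * ∑ τ, Real.exp (G τ)) :
    L ≤ (∑ τ, G τ) / (2 : ℝ) ^ Fintype.card V +
      (Real.log ((Fintype.card V : ℝ) + 1) / l + l * c ^ 2 * Fintype.card V / 2) := by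
  have h1 := h V G c l hc hd
  generalize (∑ τ, G τ) / (2 : ℝ) ^ Fintype.card V = m at h1 ⊢
  have h2 : ∑ τ, Real.exp (G τ) ≤
      Real.exp (L + l * (m - L)) * ∑ τ, Real.exp (l * (G τ - m)) := by
    rw [mul_sum]
    refine sum_le_sum fun τ _ => ?_
    rw [← Real.exp_add]
    exact Real.exp_le_exp.2 (by nlinarith [hG τ])
  have hn : (0 : ℝ) < (Fintype.card V : ℝ) + 1 := by positivity
  have h3 : (2 : ℝ) ^ Fintype.card V * Real.exp L ≤ (2 : ℝ) ^ Fintype.card V *
      Real.exp (Real.log ((Fintype.card V : ℝ) + 1) +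
        (L + l * (m - L) + l ^ 2 * c ^ 2 * Fintype.card V / 2)) := by
    refine hs.trans ((mul_le_mul_of_nonneg_left (h2.trans
      (mul_le_mul_of_nonneg_left h1 (Real.exp_pos _).le)) hn.le).trans_eq ?_)
    rw [Real.exp_add (Real.log _), Real.exp_log hn, Real.exp_add (L + _)]
    ring
  have h4 := Real.exp_le_exp.1 (le_of_mul_le_mul_left h3 (by positivity))
  refine le_of_mul_le_mul_left ?_ hl
  rw [mul_add, mul_add, mul_div_cancel₀ _ hl.ne']
  nlinarith

theorem log_le {Ω : Type} {S : Finset Ω} (hS : S.Nonempty) {a b : Ω → ℝ} {c : ℝ}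
    (h : ∀ x, a x ≤ b x + c) :
    Real.log (∑ x ∈ S, Real.exp (a x)) ≤ Real.log (∑ x ∈ S, Real.exp (b x)) + c := by
  have h1 : 0 < ∑ x ∈ S, Real.exp (b x) := sum_pos (fun _ _ => Real.exp_pos _) hS
  rw [Real.log_le_iff_le_exp (sum_pos (fun _ _ => Real.exp_pos _) hS), Real.exp_add,
    Real.exp_log h1, sum_mul]
  exact sum_le_sum fun x _ => by rw [← Real.exp_add]; exact Real.exp_le_exp.2 (h x)

omit [DecidableEq E] in
theorem one_le (h : StCube) {w : E × Bool → V} {d : ℕ} (hw : Deg w d) (hd : 1 ≤ d)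
    (hb : (bal V).Nonempty) {β l : ℝ} (hβ : 0 < β) (hl : 0 < l) (hl1 : l ≤ 1) {s : E → ℝ}
    (hs : ∀ i, |s i| ≤ 1) :
    lZ (univ : Finset (V → Bool)) Y1 β s w ≤
      (∑ τ, Real.log (∑ x ∈ bal V, bw Y1 β s w (gg τ x))) / (2 : ℝ) ^ Fintype.card V +
        (Real.log ((Fintype.card V : ℝ) + 1) / l
          + 2 * l * ((d : ℝ) * β) ^ 2 * (Fintype.card V : ℝ)) := by
  have hp : ∀ x, 0 < bw Y1 β s w x := fun _ => Real.exp_pos _
  have h1 : ∀ τ, 0 < ∑ x ∈ bal V, bw Y1 β s w (gg τ x) := fun τ => sum_pos (fun _ _ => hp _) hb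
  have h2 : 0 < ∑ x, bw Y1 β s w x := sum_pos (fun _ _ => hp _) univ_nonempty
  have h3 : ∀ (τ τ' : V → Bool) v, (∀ u, u ≠ v → τ u = τ' u) →
      Real.log (∑ x ∈ bal V, bw Y1 β s w (gg τ x)) ≤
        Real.log (∑ x ∈ bal V, bw Y1 β s w (gg τ' x)) + β * (2 * d) := fun τ τ' v e =>
    log_le hb fun x => by
      rw [← mul_add]
      exact mul_le_mul_of_nonneg_left (en_le hw hs (v := v) fun u hu => by
        rw [gg_apply, gg_apply, e u hu]) hβ.le
  refine (mean_le h (fun τ => Real.log (∑ x ∈ bal V, bw Y1 β s w (gg τ x))) (c := β * (2 * d))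
    (by positivity) hl hl1 (fun τ => Real.log_le_log (h1 τ) ?_) (fun τ v b => ?_) ?_).trans_eq
    (by ring)
  · rw [← Equiv.sum_comp (gg τ)]
    exact sum_le_sum_of_subset_of_nonneg (subset_univ _) fun _ _ _ => (hp _).le
  · have h4 := h3 (Function.update τ v b) τ v fun u hu => Function.update_of_ne hu _ _
    have h5 := h3 τ (Function.update τ v b) v fun u hu => (Function.update_of_ne hu _ _).symm
    exact abs_sub_le_iff.2 ⟨by linarith, by linarith⟩
  · simp only [Real.exp_log h2, Real.exp_log (h1 _)]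
    rw [sum_comm]
    simp only [fun τ x : V → Bool => gg_comm τ x]
    rw [sum_congr rfl fun x _ => Equiv.sum_comp (gg x) (bw Y1 β s w), sum_const, nsmul_eq_mul,
      ← mul_assoc]
    exact mul_le_mul_of_nonneg_right (card_bal hb) h2.le

end JGaugeF

open JGaugeF in
theorem stGaugeF (h : StCube) : StGaugeF := by
  intro V E _ _ _ _ w d U β l hw hd hb hβ hl hl1
  refine (sum_le_sum fun J _ => one_le h hw hd hb hβ hl hl1 (s := patt U J) fun i => ?_).trans_eq ?_
  · rw [patt]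
    split_ifs
    · simp
    · exact (abs_sgn _).le
  rw [sum_add_distrib, sum_add_distrib (f := fun J => lZ (bal V) Y1 β (patt U J) w), ← sum_div,
    sum_comm]
  congr 1
  have e : ∀ τ : V → Bool, ∑ J : E → Bool, Real.log (∑ x ∈ bal V, bw Y1 β (patt U J) w (gg τ x)) =
      ∑ J : E → Bool, lZ (bal V) Y1 β (patt U J) w := fun τ => by
    rw [← Equiv.sum_comp (gg fun i => τ (w (i, false)) == τ (w (i, true)))
      fun J => lZ (bal V) Y1 β (patt U J) w]
    simp only [lZ, bw, en_gauge]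
  rw [sum_congr rfl fun τ _ => e τ, sum_const, card_univ, Fintype.card_fun, Fintype.card_bool,
    nsmul_eq_mul, Nat.cast_pow, Nat.cast_ofNat, mul_div_cancel_left₀ _ (by positivity)]

end Pool.Agent.MP_32a90a_pr.L

end

section

set_option autoImplicit false

namespace Pool.Agent.MP_32a90a_pr.L

open Finset Equiv

namespace JLayer

variable {V E : Type} [Fintype V] [DecidableEq V] [Fintype E]

theorem sauer (T : Finset (V → Bool)) (K : ℕ) (hK : ∀ W, Shat T W → W.card ≤ K) :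
    (T.card : ℝ) ≤ ∑ i ∈ range (K + 1), ((Fintype.card V).choose i : ℝ) := by
  have hi : Function.Injective fun x : V → Bool => univ.filter fun v => x v = true := by
    intro x y e
    funext v
    have := Finset.ext_iff.1 e v
    simp only [mem_filter, mem_univ, true_and] at this
    exact Bool.eq_iff_iff.2 this
  have hv : (T.image fun x : V → Bool => univ.filter fun v => x v = true).vcDim ≤ K := by
    refine Finset.sup_le fun W hW => hK W fun τ => ?_
    obtain ⟨u, hu, e⟩ := mem_shatterer.1 hW (filter_subset (fun v => τ v = true) W)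
    obtain ⟨x, hx, rfl⟩ := mem_image.1 hu
    refine ⟨x, hx, fun v hv => ?_⟩
    have := Finset.ext_iff.1 e v
    simp only [mem_inter, mem_filter, mem_univ, true_and, hv] at this
    exact Bool.eq_iff_iff.2 this
  have h1 := (card_le_card_shatterer _).trans (card_shatterer_le_sum_vcDim
    (𝒜 := T.image fun x : V → Bool => univ.filter fun v => x v = true))
  rw [card_image_of_injective _ hi] at h1
  have h2 := h1.trans (sum_le_sum_of_subset (t := range (K + 1)) fun i hi =>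
    mem_range.2 (Nat.lt_succ_of_le ((mem_Iic.1 hi).trans hv)))
  exact_mod_cast h2

theorem pick (d a0 : ℕ) (n l β L : ℝ) (hd : 1 ≤ d) (hn : 0 ≤ n) (hl : 0 ≤ l) (hβ : 0 < β)
    (hL : 0 ≤ L) : ∃ a : ℕ, a0 ≤ a ∧ 32 * l ^ 2 * n ≤ (d : ℝ) * (a : ℝ) ^ 3 ∧
      3 * (a : ℝ) * L ≤ 3 * L * ((a0 : ℝ) + 1) + β * l + 864 * L ^ 3 * n / (d * β ^ 2) := by
  classical
  have hd' : (1 : ℝ) ≤ d := by exact_mod_cast hd
  have hex : ∃ a : ℕ, a0 ≤ a ∧ 32 * l ^ 2 * n ≤ (d : ℝ) * (a : ℝ) ^ 3 := by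
    obtain ⟨b, hb⟩ := exists_nat_ge (32 * l ^ 2 * n)
    refine ⟨max a0 b, le_max_left _ _, hb.trans ?_⟩
    have h1 : b ≤ d * max a0 b ^ 3 := ((le_max_right a0 b).trans
      (Nat.le_self_pow (by norm_num) _)).trans (Nat.le_mul_of_pos_left _ hd)
    exact_mod_cast h1
  obtain ⟨h1, h2⟩ := Nat.find_spec hex
  refine ⟨_, h1, h2, ?_⟩
  have hq : 0 < (d : ℝ) * β ^ 2 := by positivity
  have p1 : 0 ≤ β * l := by positivity
  have p2 : 0 ≤ 864 * L ^ 3 * n / (d * β ^ 2) := by positivity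
  have p3 : 0 ≤ L * a0 := by positivity
  rcases h1.eq_or_lt with e | e
  · rw [← e]
    nlinarith
  obtain ⟨b, hb⟩ : ∃ b, Nat.find hex = b + 1 := ⟨Nat.find hex - 1, by omega⟩
  have h3 : (d : ℝ) * (b : ℝ) ^ 3 < 32 * l ^ 2 * n :=
    not_le.1 fun h => Nat.find_min hex (m := b) (by omega) ⟨by omega, h⟩
  rw [hb]
  push_cast
  have hb0 : (0 : ℝ) ≤ b := Nat.cast_nonneg b
  by_cases h4 : b * (d * β ^ 2) ≤ 288 * L ^ 2 * n
  · have h5 : 3 * (b : ℝ) * L ≤ 864 * L ^ 3 * n / (d * β ^ 2) := by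
      rw [le_div_iff₀ hq]
      nlinarith [mul_le_mul_of_nonneg_left h4 hL]
    nlinarith
  · have h5 := mul_le_mul_of_nonneg_left (not_le.1 h4).le (sq_nonneg (b : ℝ))
    have h6 := mul_lt_mul_of_pos_left h3 (pow_pos hβ 2)
    have h7 : n * (3 * b * L) ^ 2 < n * (β * l) ^ 2 := by nlinarith
    have h8 := lt_of_pow_lt_pow_left₀ 2 p1 (lt_of_mul_lt_mul_left h7 hn)
    nlinarith

omit [Fintype V] [DecidableEq V] in
theorem abs_en (w : E × Bool → V) (x : V → Bool) :
    |en Y1 (fun _ => -1) w x| ≤ Fintype.card E := by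
  refine (abs_sum_le_sum_abs _ _).trans (le_of_eq ?_)
  rw [sum_congr rfl (g := fun _ => 1) fun i _ => ?_]
  · simp
  · unfold Y1 sgn
    split_ifs <;> simp

end JLayer

open JLayer in
theorem stLayer (h : StBin) : StLayer := by
  intro V E _ _ _ _ w d a0 β x L hb hd hR hβ hx hx1 hL
  classical
  have hL0 : 0 ≤ L := le_trans (neg_nonneg.2 (Real.log_nonpos hx.le hx1)) hL
  obtain ⟨m, hm⟩ : ∃ m, m = mx (bal V) Y1 (fun _ => -1) w := ⟨_, rfl⟩
  obtain ⟨R, hR'⟩ : ∃ R, R = 3 * L * ((a0 : ℝ) + 1) + x * (Fintype.card V : ℝ) +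
    864 * L ^ 3 * (Fintype.card V : ℝ) / ((d : ℝ) * β ^ 2) := ⟨_, rfl⟩
  have h1 : ∀ l : ℝ, 0 ≤ l → ((near w l).card : ℝ) ≤ Real.exp (R + β * l) := fun l hl => by
    obtain ⟨a, a1, a2, a3⟩ := pick d a0 (Fintype.card V) l β L hd (Nat.cast_nonneg _) hl hβ hL0
    refine ((sauer _ (3 * a) fun W hW => ?_).trans (h _ _ x L hx hx1 hL)).trans
      (Real.exp_le_exp.2 ?_)
    · by_contra hc
      exact absurd (hR a l W a1 hl (not_le.1 hc).le hW) (not_lt.2 a2)
    · push_cast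
      linarith
  have := hb.to_subtype
  have h2 : ∀ y ∈ bal V, en Y1 (fun _ => -1) w y ≤ m := fun y hy =>
    hm ▸ le_ciSup (f := fun ω : bal V => en Y1 (fun _ => -1) w ω) (Set.finite_range _).bddAbove
      ⟨y, hy⟩
  have h3 : m ≤ Fintype.card E := hm ▸ ciSup_le fun y => (abs_le.1 (abs_en w y)).2
  have h4 : ∀ y ∈ bal V, ⌊m - en Y1 (fun _ => -1) w y⌋₊ ∈ range (2 * Fintype.card E + 1) := by
    intro y _
    refine mem_range.2 (Nat.lt_succ_of_le (Nat.floor_le_of_le ?_))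
    have := (abs_le.1 (abs_en w y)).1
    push_cast
    linarith
  have h5 : ∑ y ∈ bal V, bw Y1 β (fun _ => -1) w y ≤
      (2 * (Fintype.card E : ℝ) + 1) * Real.exp (β * m + β + R) := by
    rw [← sum_fiberwise_of_maps_to h4]
    refine (sum_le_card_nsmul _ _ (Real.exp (β * m + β + R)) fun q _ => ?_).trans (le_of_eq ?_)
    · refine (sum_le_card_nsmul _ _ (Real.exp (β * m - β * q)) fun y hy => ?_).trans ?_
      · obtain ⟨y1, rfl⟩ := mem_filter.1 hy
        have := mul_le_mul_of_nonneg_left (Nat.floor_le (sub_nonneg.2 (h2 y y1))) hβ.le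
        exact Real.exp_le_exp.2 (by linarith)
      · have h6 : ((bal V).filter fun y => ⌊m - en Y1 (fun _ => -1) w y⌋₊ = q) ⊆
            near w (q + 1) := fun y hy => by
          obtain ⟨y1, rfl⟩ := mem_filter.1 hy
          have := Nat.lt_floor_add_one (m - en Y1 (fun _ => -1) w y)
          exact mem_filter.2 ⟨y1, by rw [← hm]; linarith⟩
        have h7 := (Nat.cast_le.2 (card_le_card h6)).trans (h1 (q + 1) (by positivity))
        rw [nsmul_eq_mul]
        refine (mul_le_mul_of_nonneg_right h7 (Real.exp_pos _).le).trans (le_of_eq ?_)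
        rw [← Real.exp_add]
        congr 1
        ring
    · rw [card_range, nsmul_eq_mul]
      push_cast
      rfl
  have h6 := Real.log_le_log (sum_pos (fun y _ => Real.exp_pos _) hb) h5
  rw [Real.log_mul (by positivity) (Real.exp_pos _).ne', Real.log_exp] at h6
  rw [← hm]
  refine le_trans h6 (le_of_eq ?_)
  rw [hR']
  ring

end Pool.Agent.MP_32a90a_pr.L

end

section

set_option autoImplicit false

namespace Pool.Agent.MP_32a90a_pr.L

open Finset

namespace JBin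

theorem sum_le (n K : ℕ) {x : ℝ} (hx : 0 ≤ x) :
    ∑ i ∈ range (K + 1), (n.choose i : ℝ) * x ^ i ≤ Real.exp (x * n) := by
  refine le_trans (sum_le_sum fun i _ => ?_) (Real.sum_le_exp_of_nonneg (by positivity) (K + 1))
  rw [mul_comm x, mul_pow, mul_div_right_comm]
  exact mul_le_mul_of_nonneg_right (Nat.choose_le_pow_div i n) (pow_nonneg hx i)

end JBin

theorem stBin : StBin := by
  intro n K x L hx hx1 hL
  have h1 : 1 ≤ Real.exp L * x := by
    have := Real.exp_le_exp.2 hL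
    rw [Real.exp_neg, Real.exp_log hx, inv_le_iff_one_le_mul₀ hx] at this
    exact this
  have h2 : 1 ≤ Real.exp L :=
    h1.trans (mul_le_of_le_one_right (Real.exp_pos L).le hx1)
  rw [Real.exp_add, Real.exp_nat_mul]
  refine le_trans ?_ (mul_le_mul_of_nonneg_left (JBin.sum_le n K hx.le) (by positivity))
  rw [mul_sum]
  refine sum_le_sum fun i hi => ?_
  have h3 : 1 ≤ Real.exp L ^ K * x ^ i :=
    ((one_le_pow₀ h1).trans_eq (mul_pow _ _ i)).trans (mul_le_mul_of_nonneg_right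
      (pow_le_pow_right₀ h2 (Nat.lt_succ_iff.1 (mem_range.1 hi))) (by positivity))
  rw [mul_left_comm]
  exact le_mul_of_one_le_right (Nat.cast_nonneg _) h3

end Pool.Agent.MP_32a90a_pr.L

end

section

set_option autoImplicit false

namespace Pool.Agent.MP_32a90a_pr.L

open Finset

namespace JKhin

variable {V : Type} [Fintype V] [DecidableEq V]

lemma sgn_not (b : Bool) : sgn (!b) = -sgn b := by
  cases b <;> simp [sgn]

lemma sgn_sq (b : Bool) : sgn b ^ 2 = 1 := by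
  cases b <;> simp [sgn]

lemma odd_sum (a : V → ℝ) {D : Finset V} {v : V} (hv : v ∉ D) (G : ℝ → ℝ) :
    ∑ τ : V → Bool, sgn (τ v) * G (∑ u ∈ D, a u * sgn (τ u)) = 0 := by
  have hi : Function.Involutive fun τ : V → Bool => Function.update τ v (!τ v) := fun τ => by
    simp
  have h := Equiv.sum_comp hi.toPerm fun τ => sgn (τ v) * G (∑ u ∈ D, a u * sgn (τ u))
  have h2 : ∀ τ : V → Bool, sgn (hi.toPerm _ τ v) * G (∑ u ∈ D, a u * sgn (hi.toPerm _ τ u)) =
      -(sgn (τ v) * G (∑ u ∈ D, a u * sgn (τ u))) := fun τ => by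
    have e : ∑ u ∈ D, a u * sgn (hi.toPerm _ τ u) = ∑ u ∈ D, a u * sgn (τ u) :=
      sum_congr rfl fun u hu => by
        have : u ≠ v := fun e => hv (e ▸ hu)
        simp [Function.update_of_ne this]
    rw [e]
    simp [sgn_not]
  rw [sum_congr rfl fun τ _ => h2 τ, sum_neg_distrib] at h
  linarith

lemma sum_c (c : ℝ) : ∑ _τ : V → Bool, c = (2 : ℝ) ^ Fintype.card V * c := by
  simp

lemma mom2 (a : V → ℝ) (D : Finset V) : ∑ τ : V → Bool, (∑ u ∈ D, a u * sgn (τ u)) ^ 2 =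
    (2 : ℝ) ^ Fintype.card V * ∑ u ∈ D, a u ^ 2 := by
  induction D using Finset.induction_on with
  | empty => simp
  | insert v D hv ih =>
    have e : ∀ τ : V → Bool, (∑ u ∈ insert v D, a u * sgn (τ u)) ^ 2 =
        a v ^ 2 + sgn (τ v) * (2 * a v * ∑ u ∈ D, a u * sgn (τ u)) +
          (∑ u ∈ D, a u * sgn (τ u)) ^ 2 := fun τ => by
      rw [sum_insert hv]
      linear_combination a v ^ 2 * sgn_sq (τ v)
    rw [sum_congr rfl fun τ _ => e τ, sum_add_distrib, sum_add_distrib, ih,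
      odd_sum a hv fun x => 2 * a v * x, sum_c, sum_insert hv]
    ring

lemma mom4 (a : V → ℝ) (D : Finset V) : ∑ τ : V → Bool, (∑ u ∈ D, a u * sgn (τ u)) ^ 4 ≤
    (2 : ℝ) ^ Fintype.card V * (3 * (∑ u ∈ D, a u ^ 2) ^ 2) := by
  induction D using Finset.induction_on with
  | empty => simp
  | insert v D hv ih =>
    have e : ∀ τ : V → Bool, (∑ u ∈ insert v D, a u * sgn (τ u)) ^ 4 =
        a v ^ 4 + sgn (τ v) * (4 * a v ^ 3 * (∑ u ∈ D, a u * sgn (τ u)) +
          4 * a v * (∑ u ∈ D, a u * sgn (τ u)) ^ 3) +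
          6 * a v ^ 2 * (∑ u ∈ D, a u * sgn (τ u)) ^ 2 +
          (∑ u ∈ D, a u * sgn (τ u)) ^ 4 := fun τ => by
      rw [sum_insert hv]
      generalize ∑ u ∈ D, a u * sgn (τ u) = S
      linear_combination (a v ^ 4 * (sgn (τ v) ^ 2 + 1) + 4 * a v ^ 3 * sgn (τ v) * S +
        6 * a v ^ 2 * S ^ 2) * sgn_sq (τ v)
    rw [sum_congr rfl fun τ _ => e τ, sum_add_distrib, sum_add_distrib, sum_add_distrib,
      ← mul_sum, mom2, odd_sum a hv fun x => 4 * a v ^ 3 * x + 4 * a v * x ^ 3, sum_c,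
      sum_insert hv]
    have h0 : (0 : ℝ) ≤ 2 ^ Fintype.card V * a v ^ 4 := by positivity
    nlinarith

lemma pointwise {A : ℝ} (hA : 0 ≤ A) (S : ℝ) : 12 * A ^ 2 * S ^ 2 - S ^ 4 ≤ 16 * A ^ 3 * |S| := by
  have h1 : S ^ 2 = |S| ^ 2 := (sq_abs S).symm
  have h2 : S ^ 4 = |S| ^ 4 := by rw [show 4 = 2 * 2 from rfl, pow_mul, pow_mul, h1]
  rw [h2, h1]
  have h0 := abs_nonneg S
  generalize |S| = z at h0
  have : 0 ≤ z * ((z - 2 * A) ^ 2 * (z + 4 * A)) := by positivity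
  nlinarith

end JKhin

theorem stKhin : StKhin := by
  intro V _ _ a
  have h0 : 0 ≤ ∑ v, a v ^ 2 := sum_nonneg fun _ _ => sq_nonneg _
  have h2 := JKhin.mom2 a univ
  have h4 := JKhin.mom4 a univ
  rw [← Real.sq_sqrt h0] at h2 h4
  have hA := Real.sqrt_nonneg (∑ v, a v ^ 2)
  generalize Real.sqrt (∑ v, a v ^ 2) = A at h2 h4 hA
  rcases hA.eq_or_lt with rfl | hA'
  · simpa using sum_nonneg fun _ _ => abs_nonneg _
  have h1 := sum_le_sum fun (τ : V → Bool) (_ : τ ∈ univ) =>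
    JKhin.pointwise hA (∑ v, a v * sgn (τ v))
  rw [sum_sub_distrib, ← mul_sum, ← mul_sum, h2] at h1
  have h3 : (0 : ℝ) ≤ 2 ^ Fintype.card V * A ^ 4 := by positivity
  refine le_of_mul_le_mul_left ?_ (by positivity : 0 < 16 * A ^ 3)
  nlinarith

end Pool.Agent.MP_32a90a_pr.L

end

section

set_option autoImplicit false

namespace Pool.Agent.MP_32a90a_pr.L

open Finset Equiv Filter Topology
open scoped Classical

namespace JTransfer

section
variable {V E Ω : Type} [Fintype E] [DecidableEq E]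

omit [DecidableEq E] in
lemma le_mx {S : Finset Ω} (Y : Ω → V → V → ℝ) (s : E → ℝ) (w : E × Bool → V) {x : Ω}
    (hx : x ∈ S) : en Y s w x ≤ mx S Y s w :=
  le_ciSup (f := fun ω : S => en Y s w ω) (Set.finite_range _).bddAbove ⟨x, hx⟩

omit [DecidableEq E] in
lemma exists_mx {S : Finset Ω} (hS : S.Nonempty) (Y : Ω → V → V → ℝ) (s : E → ℝ)
    (w : E × Bool → V) : ∃ x ∈ S, en Y s w x = mx S Y s w := by
  have : Nonempty S := hS.to_subtype
  obtain ⟨x, hx⟩ := exists_eq_ciSup_of_finite (f := fun ω : S => en Y s w ω)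
  exact ⟨x.1, x.2, hx⟩

lemma Y1_abs (x : V → Bool) (u v : V) : |Y1 x u v| ≤ 1 := by
  unfold Y1
  cases x u <;> cases x v <;> simp [sgn]

lemma en_swap (s : E → ℝ) (hs : ∀ i, |s i| ≤ 1) (w : E × Bool → V) (a b : E × Bool)
    (x : V → Bool) : en Y1 s (w ∘ swap a b) x ≤ en Y1 s w x + 4 := by
  have h1 : ∀ i u v, |s i * Y1 x u v| ≤ 1 := fun i u v => by
    rw [abs_mul]
    exact mul_le_one₀ (hs i) (abs_nonneg _) (Y1_abs x u v)
  have h2 : (∑ i : E, if i ∈ ({a.1, b.1} : Finset E) then (2 : ℝ) else 0) ≤ 4 := by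
    rw [← sum_filter, sum_const, nsmul_eq_mul]
    have : (univ.filter fun i : E => i ∈ ({a.1, b.1} : Finset E)).card ≤ 2 := by
      rw [filter_mem_eq_inter, univ_inter]; exact card_le_two
    have h3 : ((univ.filter fun i : E => i ∈ ({a.1, b.1} : Finset E)).card : ℝ) ≤ 2 := by
      exact_mod_cast this
    linarith
  refine le_trans ?_ (add_le_add_right h2 _)
  unfold en
  rw [← sum_add_distrib]
  refine sum_le_sum fun i _ => ?_
  split_ifs with hi
  · have p := abs_le.1 (h1 i ((w ∘ swap a b) (i, false)) ((w ∘ swap a b) (i, true)))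
    have q := abs_le.1 (h1 i (w (i, false)) (w (i, true)))
    linarith [p.2, q.1]
  · simp only [mem_insert, mem_singleton, not_or] at hi
    have e : ∀ c, (w ∘ swap a b) (i, c) = w (i, c) := fun c => by
      rw [Function.comp_apply, swap_apply_of_ne_of_ne]
      · rintro rfl; exact hi.1 rfl
      · rintro rfl; exact hi.2 rfl
    rw [e, e, add_zero]

lemma mx_swap {S : Finset (V → Bool)} (hS : S.Nonempty) (s : E → ℝ) (hs : ∀ i, |s i| ≤ 1)
    (w : E × Bool → V) (a b : E × Bool) :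
    |mx S Y1 s (w ∘ swap a b) - mx S Y1 s w| ≤ 4 := by
  have key : ∀ w : E × Bool → V, mx S Y1 s (w ∘ swap a b) ≤ mx S Y1 s w + 4 := fun w => by
    obtain ⟨x, hx, e⟩ := exists_mx hS Y1 s (w ∘ swap a b)
    have := en_swap s hs w a b x
    have := le_mx Y1 s w hx
    linarith
  have h1 := key w
  have h2 := key (w ∘ swap a b)
  have e : (w ∘ swap a b) ∘ swap a b = w := by funext p; simp
  rw [e] at h2
  rw [abs_le]; constructor <;> linarith

end

lemma bal_eq (k : ℕ) : bal (Fin (2 * k)) = Bal k := by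
  ext x; simp [bal, Bal]

lemma sum_le {k : ℕ} {E : Type} [Fintype E] [DecidableEq E] {w : E × Bool → Fin (2 * k)}
    {G : SimpleGraph (Fin (2 * k))} (h : Rep w G) :
    sSup (vals G) + sInf (vals G) ≤ (1 / ((2 * k : ℕ) : ℝ)) *
      (2 * (mx (bal (Fin (2 * k))) Y1 (fun _ => 1) w - mx (bal (Fin (2 * k))) Y1 (fun _ => -1) w)) := by
  have hp : 0 ≤ 1 / ((2 * k : ℕ) : ℝ) := by positivity
  have q1 : ∀ x : Fin (2 * k) → Bool,
      dotProduct (fun i => sgn (x i)) ((G.adjMatrix ℝ).mulVec fun i => sgn (x i))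
        = 2 * en Y1 (fun _ => 1) w x := fun x => by
    rw [quad_eq h]; simp [en, Y1, mul_sum]
  have q2 : ∀ x : Fin (2 * k) → Bool,
      dotProduct (fun i => sgn (x i)) ((G.adjMatrix ℝ).mulVec fun i => sgn (x i))
        = -2 * en Y1 (fun _ => -1) w x := fun x => by
    rw [quad_eq h]; simp [en, Y1, mul_sum]
  rw [bal_eq]
  obtain ⟨x, hx, e⟩ := exists_mx (Bal_nonempty k) Y1 (fun _ : E => (-1 : ℝ)) w
  have hm := (mem_vals G _).2 ⟨x, hx, rfl⟩
  have hb : BddBelow (vals G) := by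
    refine ⟨(1 / ((2 * k : ℕ) : ℝ)) * (-2 * mx (Bal k) Y1 (fun _ => -1) w), fun t ht => ?_⟩
    obtain ⟨y, hy, rfl⟩ := (mem_vals G t).1 ht
    rw [q2]
    refine mul_le_mul_of_nonneg_left ?_ hp
    have := le_mx Y1 (fun _ : E => (-1 : ℝ)) w hy
    linarith
  have h1 := csInf_le hb hm
  rw [q2, e] at h1
  have h2 : sSup (vals G) ≤ (1 / ((2 * k : ℕ) : ℝ)) * (2 * mx (Bal k) Y1 (fun _ => 1) w) := by
    refine csSup_le ⟨_, hm⟩ fun t ht => ?_
    obtain ⟨y, hy, rfl⟩ := (mem_vals G t).1 ht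
    rw [q1]
    refine mul_le_mul_of_nonneg_left ?_ hp
    have := le_mx Y1 (fun _ : E => (1 : ℝ)) w hy
    linarith
  linarith

lemma bound (d : ℕ) (hd : 1 ≤ d) (η : ℝ) (hη : 0 < η) (k : ℕ)
    (hM : ∀ w0 : Fin (k * d) × Bool → Fin (2 * k), Deg w0 d →
      av w0 (mx (bal (Fin (2 * k))) Y1 fun _ => 1)
        ≤ av w0 (mx (bal (Fin (2 * k))) Y1 fun _ => -1) + η * k)
    (hk3 : 2 * d * (2 * d + 2) + 2 * (d * (d + 1) + d + 2) < k) :
    (({G : SimpleGraph (Fin (2 * k)) | G.IsRegularOfDegree d ∧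
        3 * η < sSup (vals G) + sInf (vals G)}.ncard : ℝ)
      / ({G : SimpleGraph (Fin (2 * k)) | G.IsRegularOfDegree d}.ncard : ℝ))
      ≤ 2 * (((2 * k * d : ℕ) : ℝ) ^ 2 + 1) ^ (2 * (d * (d + 1) + d + 2))
        * Real.exp (-(η ^ 2 / (256 * d) * k)) := by
  let e : Fin (k * d) × Bool ≃ Fin (2 * k) × Fin d := Fintype.equivOfCardEq (by simp; ring)
  let w0 : Fin (k * d) × Bool → Fin (2 * k) := fun p => (e p).1
  have h0 : Deg w0 d := by
    intro v
    have : (univ.filter fun p => w0 p = v).card = (univ : Finset (Fin d)).card := by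
      refine card_bij (fun p _ => (e p).2) (by simp) ?_ ?_
      · intro p hp q hq h
        simp only [mem_filter, mem_univ, true_and, w0] at hp hq
        exact e.injective (Prod.ext (hp.trans hq.symm) h)
      · intro j _
        exact ⟨e.symm (v, j), by simp [w0], by simp⟩
    simpa using this
  have hP : Fintype.card (Fin (k * d) × Bool) = 2 * k * d := by simp; ring
  have hkd : k ≤ k * d := Nat.le_mul_of_pos_right k hd
  obtain ⟨κ, hκ, hA⟩ := uniform' h0
  have s1 := simple_prob h0 (by rw [hP]; nlinarith)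
  have a1 := hA fun _ => True
  have a2 := hA fun G => 3 * η < sSup (vals G) + sInf (vals G)
  have b1 : {π : Perm (Fin (k * d) × Bool) | Bad (w0 ∘ π) = ∅}
      = {π : Perm (Fin (k * d) × Bool) | ∃ G, Rep (w0 ∘ π) G ∧ True} := by
    ext π
    simp only [Set.mem_ofPred_eq, and_true, Bad_empty]
    exact ⟨exists_graph, fun ⟨G, hG⟩ => hG.1⟩
  rw [← ncard_filter, b1, a1, hP] at s1
  simp only [and_true] at s1
  have hI := hM w0 h0
  let f : Perm (Fin (k * d) × Bool) → ℝ := fun π =>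
    mx (bal (Fin (2 * k))) Y1 (fun _ => 1) (w0 ∘ π)
      - mx (bal (Fin (2 * k))) Y1 (fun _ => -1) (w0 ∘ π)
  have hd' : (1 : ℝ) ≤ d := by exact_mod_cast hd
  have hk0 : (0 : ℝ) < k := by exact_mod_cast (by omega : 0 < k)
  have hne : (bal (Fin (2 * k))).Nonempty := by rw [bal_eq]; exact Bal_nonempty k
  have hf : ∀ π a b, |f (π * swap a b) - f π| ≤ 8 := by
    intro π a b
    have k1 := abs_le.1 (mx_swap hne (fun _ => 1) (fun _ => by simp) (w0 ∘ π) a b)
    have k2 := abs_le.1 (mx_swap hne (fun _ => -1) (fun _ => by simp) (w0 ∘ π) a b)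
    have e1 : w0 ∘ (π * swap a b : Perm _) = (w0 ∘ π) ∘ swap a b := rfl
    simp only [f]
    rw [e1, abs_le]; constructor <;> linarith [k1.1, k1.2, k2.1, k2.2]
  have hT := perm_tail 8 (by norm_num) (η / (256 * d)) (by positivity) f hf (2 * η * k)
  set N : ℝ := (Fintype.card (Perm (Fin (k * d) × Bool)) : ℝ) with hN
  have hN0 : 0 < N := by rw [hN]; exact_mod_cast Fintype.card_pos
  have hmean : (∑ σ, f σ) / N ≤ η * k := by
    simp only [f, sum_sub_distrib, sub_div]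
    unfold av at hI
    rw [sub_le_iff_le_add']
    exact hI
  have b2 : (univ.filter fun π : Perm (Fin (k * d) × Bool) =>
        ∃ G, Rep (w0 ∘ π) G ∧ 3 * η < sSup (vals G) + sInf (vals G))
      ⊆ univ.filter fun π => (∑ σ, f σ) / N + 2 * η * k ≤ f π := by
    intro π hπ
    simp only [mem_filter, mem_univ, true_and] at hπ ⊢
    obtain ⟨G, h1, h2⟩ := hπ
    have h3 := h2.trans_le (sum_le h1)
    have h4 : 3 * η * k < f π := by
      simp only [f]
      push_cast at h3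
      rw [one_div, lt_inv_mul_iff₀ (by positivity)] at h3
      linarith
    linarith
  have b3 := card_le_card b2
  rw [← ncard_filter, a2] at b3
  have hexp : 2 * (η / (256 * d)) ^ 2 * 8 ^ 2 * (Fintype.card (Fin (k * d) × Bool) : ℝ)
      - η / (256 * d) * (2 * η * k) = -(η ^ 2 / (256 * d) * k) := by
    rw [hP]; push_cast; field_simp; ring
  rw [hexp] at hT
  set B := {G : SimpleGraph (Fin (2 * k)) | G.IsRegularOfDegree d ∧
        3 * η < sSup (vals G) + sInf (vals G)}.ncard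
  set R := {G : SimpleGraph (Fin (2 * k)) | G.IsRegularOfDegree d}.ncard
  set M : ℝ := 2 * (((2 * k * d : ℕ) : ℝ) ^ 2 + 1) ^ (2 * (d * (d + 1) + d + 2)) with hM'
  have s2 : N ≤ M * (R * κ) := by rw [hN, hM']; exact_mod_cast s1
  have b4 : (B : ℝ) * κ ≤ N * Real.exp (-(η ^ 2 / (256 * d) * k)) :=
    le_trans (by exact_mod_cast b3) hT
  have hκ' : (0 : ℝ) < κ := by exact_mod_cast hκ
  have hR : (0 : ℝ) < R := by
    rcases (Nat.cast_nonneg R : (0 : ℝ) ≤ R).lt_or_eq with h | h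
    · exact h
    · rw [← h] at s2; simp at s2; linarith
  rw [div_le_iff₀ hR]
  apply le_of_mul_le_mul_right _ hκ'
  have := mul_le_mul_of_nonneg_right s2 (Real.exp_pos (-(η ^ 2 / (256 * d) * k))).le
  linarith

end JTransfer

theorem stTransfer : StTransfer := by
  intro d η hd hη hM
  have hd' : (1 : ℝ) ≤ d := by exact_mod_cast hd
  set K := 2 * (d * (d + 1) + d + 2) with hK
  set c : ℝ := η ^ 2 / (256 * d) with hc
  have hc0 : 0 < c := by positivity
  have lim : Tendsto (fun k : ℕ => (2 * (4 * (d : ℝ) ^ 2 + 1) ^ K / c ^ (2 * K))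
      * ((c * k) ^ (2 * K) * Real.exp (-(c * k)))) atTop (𝓝 0) := by
    have := ((Real.tendsto_pow_mul_exp_neg_atTop_nhds_zero (2 * K)).comp
      (tendsto_natCast_atTop_atTop.const_mul_atTop hc0)).const_mul
      (2 * (4 * (d : ℝ) ^ 2 + 1) ^ K / c ^ (2 * K))
    simpa using this
  refine squeeze_zero' (Eventually.of_forall fun k => by positivity) ?_ lim
  filter_upwards [hM, eventually_gt_atTop (2 * d * (2 * d + 2) + K)] with k h1 h3
  have hk1 : (1 : ℝ) ≤ k := by exact_mod_cast (by omega : 1 ≤ k)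
  refine (JTransfer.bound d hd η hη k h1 h3).trans ?_
  rw [← mul_assoc]
  refine mul_le_mul_of_nonneg_right ?_ (Real.exp_pos _).le
  have e : 2 * (4 * (d : ℝ) ^ 2 + 1) ^ K / c ^ (2 * K) * (c * k) ^ (2 * K)
      = 2 * ((4 * (d : ℝ) ^ 2 + 1) * k ^ 2) ^ K := by
    rw [mul_pow, mul_pow, ← pow_mul]; field_simp
  rw [e]
  refine mul_le_mul_of_nonneg_left (pow_le_pow_left₀ (by positivity) ?_ _) (by norm_num)
  push_cast; nlinarith

end Pool.Agent.MP_32a90a_pr.L

end
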