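import Mathlib
import Pool.Agent.MP_32a90a_pr.Defs
import Pool.Agent.Mg.F32a90ap.G41260d

section

set_option autoImplicit false

namespace Pool.Agent.MP_32a90a_pr

open Finset Equiv

lemma exp_le_chord (l c y : ℝ) (hc : 0 < c) (hy : |y| ≤ c) :
    Real.exp (l * y) ≤ Real.cosh (l * c) + y / c * Real.sinh (l * c) := by
  have h1 : -c ≤ y := (abs_le.1 hy).1
  have h2 : y ≤ c := (abs_le.1 hy).2
  have ha : 0 ≤ (1 + y / c) / 2 := by
    have : -1 ≤ y / c := by rw [le_div_iff₀ hc]; linarith
    linarith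
  have hb : 0 ≤ (1 - y / c) / 2 := by
    have : y / c ≤ 1 := by rw [div_le_iff₀ hc]; linarith
    linarith
  have := convexOn_exp.2 (Set.mem_univ (l * c)) (Set.mem_univ (-(l * c))) ha hb (by ring)
  simp only [smul_eq_mul] at this
  have e : (1 + y / c) / 2 * (l * c) + (1 - y / c) / 2 * -(l * c) = l * y := by
    field_simp; ring
  rw [e] at this
  rw [Real.cosh_eq, Real.sinh_eq]
  linarith

lemma hoeff {ι : Type*} [Fintype ι] [Nonempty ι] (g : ι → ℝ) (c : ℝ) (hc : 0 < c)
    (h : ∀ i j, |g i - g j| ≤ c) (l : ℝ) :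
    ∑ i, Real.exp (l * (g i - (∑ j, g j) / Fintype.card ι))
      ≤ Fintype.card ι * Real.exp (l ^ 2 * c ^ 2 / 2) := by
  have hN : (0 : ℝ) < Fintype.card ι := by exact_mod_cast Fintype.card_pos
  set μ := (∑ j, g j) / Fintype.card ι with hμ
  have hy : ∀ i, |g i - μ| ≤ c := by
    intro i
    have e : g i - μ = (∑ j, (g i - g j)) / Fintype.card ι := by
      rw [sum_sub_distrib, sum_const, card_univ, nsmul_eq_mul, hμ]; field_simp
    rw [e, abs_div, abs_of_pos hN, div_le_iff₀ hN]
    calc |∑ j, (g i - g j)| ≤ ∑ j, |g i - g j| := abs_sum_le_sum_abs _ _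
      _ ≤ ∑ _j : ι, c := sum_le_sum fun j _ => h i j
      _ = c * Fintype.card ι := by simp [mul_comm]
  have hs : ∑ i, (g i - μ) = 0 := by
    rw [sum_sub_distrib, sum_const, card_univ, nsmul_eq_mul, hμ]; field_simp; ring
  calc ∑ i, Real.exp (l * (g i - μ))
      ≤ ∑ i, (Real.cosh (l * c) + (g i - μ) / c * Real.sinh (l * c)) :=
        sum_le_sum fun i _ => exp_le_chord l c _ hc (hy i)
    _ = Fintype.card ι * Real.cosh (l * c) := by
        rw [sum_add_distrib, ← sum_mul, ← sum_div, hs]; simp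
    _ ≤ Fintype.card ι * Real.exp (l ^ 2 * c ^ 2 / 2) := by
        have := Real.cosh_le_exp_half_sq (l * c)
        rw [mul_pow] at this
        exact mul_le_mul_of_nonneg_left this hN.le

lemma dec_swap {n : ℕ} (p : Fin (n + 1)) (e : Perm (Fin n)) (a b : Fin n) :
    Perm.decomposeFin.symm (p, e * swap a b)
      = Perm.decomposeFin.symm (p, e) * swap a.succ b.succ := by
  ext x
  refine Fin.cases ?_ (fun x => ?_) x
  · rw [Perm.mul_apply, swap_apply_of_ne_of_ne (Fin.succ_ne_zero a).symm (Fin.succ_ne_zero b).symm]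
    simp
  · rw [Perm.mul_apply, Perm.decomposeFin_symm_apply_succ, Perm.mul_apply,
      (Fin.succ_injective n).swap_apply, Perm.decomposeFin_symm_apply_succ]

lemma dec_left {n : ℕ} (p : Fin (n + 1)) (e : Perm (Fin n)) :
    Perm.decomposeFin.symm (p, e) = swap 0 p * Perm.decomposeFin.symm (0, e) := by
  ext x
  refine Fin.cases ?_ (fun x => ?_) x
  · simp
  · simp [Perm.decomposeFin_symm_apply_succ]

theorem perm_mgf_fin (c : ℝ) (hc : 0 < c) (l : ℝ) (n : ℕ) : ∀ f : Perm (Fin n) → ℝ,
    (∀ π a b, |f (π * swap a b) - f π| ≤ c) →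
    ∑ π, Real.exp (l * (f π - (∑ σ, f σ) / n.factorial))
      ≤ n.factorial * Real.exp (2 * l ^ 2 * c ^ 2 * n) := by
  induction n with
  | zero =>
    intro f _
    simp
  | succ n ih =>
    intro f hf
    have hF : (0 : ℝ) < n.factorial := by exact_mod_cast n.factorial_pos
    have split : ∀ F : Perm (Fin (n + 1)) → ℝ,
        ∑ π, F π = ∑ p, ∑ e, F (Perm.decomposeFin.symm (p, e)) := by
      intro F
      rw [← Fintype.sum_prod_type', ← Equiv.sum_comp Perm.decomposeFin.symm]
    set m : Fin (n + 1) → ℝ := fun p => (∑ e, f (Perm.decomposeFin.symm (p, e))) / n.factorial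
      with hm
    have hμ : (∑ σ, f σ) / (n + 1).factorial = (∑ p, m p) / Fintype.card (Fin (n + 1)) := by
      rw [split f, hm, ← sum_div, Nat.factorial_succ, Fintype.card_fin]
      push_cast; field_simp
    have hl : ∀ (π : Perm (Fin (n + 1))) a b, |f (swap a b * π) - f π| ≤ c := by
      intro π a b
      rw [swap_mul_eq_mul_swap]; exact hf _ _ _
    have hmm : ∀ p q, |m p - m q| ≤ 2 * c := by
      intro p q
      simp only [hm]
      rw [← sub_div, ← sum_sub_distrib, abs_div, abs_of_pos hF, div_le_iff₀ hF]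
      calc _ ≤ ∑ e : Perm (Fin n), |f (Perm.decomposeFin.symm (p, e))
              - f (Perm.decomposeFin.symm (q, e))| := abs_sum_le_sum_abs _ _
        _ ≤ ∑ _e : Perm (Fin n), 2 * c := by
            refine sum_le_sum fun e _ => ?_
            rw [dec_left p, dec_left q]
            have h1 := abs_le.1 (hl (Perm.decomposeFin.symm (0, e)) 0 p)
            have h2 := abs_le.1 (hl (Perm.decomposeFin.symm (0, e)) 0 q)
            rw [abs_le]; constructor <;> linarith [h1.1, h1.2, h2.1, h2.2]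
        _ = 2 * c * n.factorial := by simp [Fintype.card_perm, mul_comm]
    have hH := hoeff m (2 * c) (by linarith) hmm l
    rw [split, hμ]
    set μ := (∑ p, m p) / Fintype.card (Fin (n + 1))
    calc ∑ p, ∑ e, Real.exp (l * (f (Perm.decomposeFin.symm (p, e)) - μ))
        = ∑ p, Real.exp (l * (m p - μ)) *
            ∑ e, Real.exp (l * (f (Perm.decomposeFin.symm (p, e)) - m p)) := by
          refine sum_congr rfl fun p _ => ?_
          rw [mul_sum]
          refine sum_congr rfl fun e _ => ?_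
          rw [← Real.exp_add]; congr 1; ring
      _ ≤ ∑ p, Real.exp (l * (m p - μ)) * (n.factorial * Real.exp (2 * l ^ 2 * c ^ 2 * n)) := by
          refine sum_le_sum fun p _ => mul_le_mul_of_nonneg_left ?_ (Real.exp_pos _).le
          refine ih (fun e => f (Perm.decomposeFin.symm (p, e))) fun e a b => ?_
          simp only [dec_swap]; exact hf _ _ _
      _ = (∑ p, Real.exp (l * (m p - μ))) * (n.factorial * Real.exp (2 * l ^ 2 * c ^ 2 * n)) := by
          rw [sum_mul]
      _ ≤ (Fintype.card (Fin (n + 1)) * Real.exp (l ^ 2 * (2 * c) ^ 2 / 2))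
            * (n.factorial * Real.exp (2 * l ^ 2 * c ^ 2 * n)) :=
          mul_le_mul_of_nonneg_right hH (by positivity)
      _ = _ := by
          rw [Fintype.card_fin, Nat.factorial_succ]
          push_cast
          have : 2 * l ^ 2 * c ^ 2 * ((n : ℝ) + 1)
            = l ^ 2 * (2 * c) ^ 2 / 2 + 2 * l ^ 2 * c ^ 2 * n := by ring
          rw [this, Real.exp_add]; ring

theorem perm_tail {P : Type*} [Fintype P] [DecidableEq P] (c : ℝ) (hc : 0 < c) (l : ℝ)
    (hl : 0 ≤ l) (f : Perm P → ℝ) (hf : ∀ π a b, |f (π * swap a b) - f π| ≤ c) (t : ℝ) :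
    ((univ.filter fun π => (∑ σ, f σ) / Fintype.card (Perm P) + t ≤ f π).card : ℝ)
      ≤ Fintype.card (Perm P) * Real.exp (2 * l ^ 2 * c ^ 2 * Fintype.card P - l * t) := by
  classical
  let e : Fin (Fintype.card P) ≃ P := (Fintype.equivFin P).symm
  have key := perm_mgf_fin c hc l (Fintype.card P) (fun π => f (e.permCongr π)) (by
    intro π a b
    have : e.permCongr (π * swap a b) = e.permCongr π * swap (e a) (e b) := by
      ext x
      simp only [permCongr_apply, Perm.mul_apply]
      congr 2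
      rw [eq_symm_apply, ← e.injective.swap_apply, apply_symm_apply]
    simp only [this]; exact hf _ _ _)
  rw [Equiv.sum_comp e.permCongr f,
    Equiv.sum_comp e.permCongr (fun π => Real.exp (l * (f π - (∑ σ, f σ) / _))),
    ← Fintype.card_perm] at key
  set μ := (∑ σ, f σ) / Fintype.card (Perm P)
  have h1 : ((univ.filter fun π => μ + t ≤ f π).card : ℝ) * Real.exp (l * t)
      ≤ ∑ π, Real.exp (l * (f π - μ)) := by
    calc _ = ∑ π ∈ univ.filter fun π => μ + t ≤ f π, Real.exp (l * t) := by simp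
      _ ≤ ∑ π ∈ univ.filter fun π => μ + t ≤ f π, Real.exp (l * (f π - μ)) := by
          refine sum_le_sum fun π hπ => Real.exp_le_exp.2 ?_
          have := (mem_filter.1 hπ).2
          exact mul_le_mul_of_nonneg_left (by linarith) hl
      _ ≤ _ := sum_le_sum_of_subset_of_nonneg (filter_subset _ _) fun _ _ _ => (Real.exp_pos _).le
  rw [Real.exp_sub, ← mul_div_assoc, le_div_iff₀ (Real.exp_pos _)]
  exact h1.trans key

end Pool.Agent.MP_32a90a_pr

end

section

set_option autoImplicit false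

namespace Pool.Agent.MP_32a90a_pr

open Finset Equiv

lemma pair_count {Q Y : Type*} [Fintype Y] [DecidableEq Y] (S : Finset Q) (φ : Q → Y)
    (ι : Perm Y) :
    ∑ a ∈ S, ∑ b ∈ S, (if φ a = ι (φ b) then 1 else 0 : ℝ)
      ≤ ∑ a ∈ S, ∑ b ∈ S, (if φ a = φ b then 1 else 0 : ℝ) := by
  set n : Y → ℝ := fun y => ∑ a ∈ S, if φ a = y then 1 else 0 with hn
  have key : ∀ κ : Y → Y, ∑ a ∈ S, ∑ b ∈ S, (if φ a = κ (φ b) then 1 else 0 : ℝ)
      = ∑ y, n (κ y) * n y := by
    intro κ
    simp only [hn, sum_mul_sum]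
    rw [sum_comm (s := univ)]
    refine sum_congr rfl fun a _ => ?_
    rw [sum_comm (s := univ)]
    refine sum_congr rfl fun b _ => ?_
    rw [sum_eq_single (φ b)]
    · simp
    · intro y _ hy; simp [hy.symm]
    · simp
  rw [key ι, key (fun y => y)]
  have h1 : ∑ y, n (ι y) * n (ι y) = ∑ y, n y * n y := Equiv.sum_comp ι (fun y => n y * n y)
  have h2 : ∑ y, 2 * (n (ι y) * n y) ≤ ∑ y, (n (ι y) * n (ι y) + n y * n y) :=
    sum_le_sum fun y _ => by nlinarith [sq_nonneg (n (ι y) - n y)]
  rw [← mul_sum, sum_add_distrib, h1] at h2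
  linarith

section
variable {V : Type*} (X : Finset (V → Bool)) (hX : X.Nonempty)

/-- minimum of a cost over the admissible configurations -/
def mn (c : (V → Bool) → ℕ) : ℕ := X.inf' hX c

lemma mn_le (c : (V → Bool) → ℕ) {x : V → Bool} (hx : x ∈ X) : mn X hX c ≤ c x :=
  inf'_le c hx

lemma exists_mn (c : (V → Bool) → ℕ) : ∃ x ∈ X, c x = mn X hX c := by
  obtain ⟨x, hx, e⟩ := exists_mem_eq_inf' hX c
  exact ⟨x, hx, e.symm⟩

lemma mn_mono {c c' : (V → Bool) → ℕ} (k : ℕ) (h : ∀ x, c' x ≤ c x + k) :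
    mn X hX c' ≤ mn X hX c + k := by
  obtain ⟨x, hx, e⟩ := exists_mn X hX c
  rw [← e]; exact (mn_le X hX c' hx).trans (h x)

/-- cost of an edge of a given type -/
def ec (s : Option Bool) (p q : Bool) : ℕ :=
  match s with
  | none => 0
  | some true => if p = q then 0 else 1
  | some false => if p = q then 1 else 0

lemma ec_le_one (s : Option Bool) (p q : Bool) : ec s p q ≤ 1 := by
  revert s p q; decide

lemma step {Q : Type*} (S : Finset Q) (g : Q → V) (c : (V → Bool) → ℕ) :
    ∑ a ∈ S, ∑ b ∈ S, (mn X hX (fun x => c x + ec (some true) (x (g a)) (x (g b))) : ℝ)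
      ≤ ∑ a ∈ S, ∑ b ∈ S, (mn X hX (fun x => c x + ec (some false) (x (g a)) (x (g b))) : ℝ) := by
  classical
  let O := X.filter fun x => c x = mn X hX c
  let φ : Q → (O → Bool) := fun a x => x.1 (g a)
  let ι : Perm (O → Bool) := Function.Involutive.toPerm (fun ψ x => !ψ x) (by
    intro ψ; funext x; simp)
  have h := pair_count S φ ι
  have h1 : ∀ a b, (mn X hX (fun x => c x + ec (some true) (x (g a)) (x (g b))) : ℝ)
      ≤ mn X hX c + (if φ a = ι (φ b) then 1 else 0 : ℝ) := by
    intro a b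
    split_ifs with hh
    · exact_mod_cast mn_mono X hX 1 (fun x => Nat.add_le_add_left (ec_le_one _ _ _) _)
    · obtain ⟨x, hx⟩ := Function.ne_iff.1 hh
      have hx' : x.1 (g a) = x.1 (g b) := by
        have : x.1 (g a) ≠ !x.1 (g b) := hx
        revert this; cases x.1 (g a) <;> cases x.1 (g b) <;> simp
      have hm := mem_filter.1 x.2
      have := mn_le X hX (fun x => c x + ec (some true) (x (g a)) (x (g b))) hm.1
      simp only [hx', ec, if_true, add_zero, hm.2] at this
      rw [add_zero]; exact_mod_cast this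
  have h2 : ∀ a b, mn X hX c + (if φ a = φ b then 1 else 0 : ℝ)
      ≤ (mn X hX (fun x => c x + ec (some false) (x (g a)) (x (g b))) : ℝ) := by
    intro a b
    obtain ⟨x, hx, e⟩ := exists_mn X hX (fun x => c x + ec (some false) (x (g a)) (x (g b)))
    rw [← e]
    have h3 := mn_le X hX c hx
    split_ifs with hh
    · rcases h3.lt_or_eq with h4 | h4
      · have : mn X hX c + 1 ≤ c x + ec (some false) (x (g a)) (x (g b)) := by omega
        exact_mod_cast this
      · have : x (g a) = x (g b) := congrFun hh ⟨x, mem_filter.2 ⟨hx, h4.symm⟩⟩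
        simp [ec, this, h4]
    · have : mn X hX c ≤ c x + ec (some false) (x (g a)) (x (g b)) := by omega
      rw [add_zero]; exact_mod_cast this
  calc _ ≤ ∑ a ∈ S, ∑ b ∈ S, (mn X hX c + (if φ a = ι (φ b) then 1 else 0 : ℝ)) :=
        sum_le_sum fun a _ => sum_le_sum fun b _ => h1 a b
    _ ≤ ∑ a ∈ S, ∑ b ∈ S, (mn X hX c + (if φ a = φ b then 1 else 0 : ℝ)) := by
        simp only [sum_add_distrib]; linarith
    _ ≤ _ := sum_le_sum fun a _ => sum_le_sum fun b _ => h2 a b

variable {E : Type*} [Fintype E] [DecidableEq E]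

/-- total cost of a configuration -/
def cost (s : E → Option Bool) (w : E × Bool → V) (x : V → Bool) : ℕ :=
  ∑ i, ec (s i) (x (w (i, false))) (x (w (i, true)))

/-- optimal cost -/
def C (s : E → Option Bool) (w : E × Bool → V) : ℕ := mn X hX (cost s w)

lemma cost_le (B : Finset E) {s s' : E → Option Bool} {w w' : E × Bool → V}
    (h : ∀ i, i ∉ B → s' i = none ∨ (s' i = s i ∧ ∀ b, w' (i, b) = w (i, b))) (x : V → Bool) :
    cost s' w' x ≤ cost s w x + B.card := by
  unfold cost
  have : B.card = ∑ i, if i ∈ B then 1 else 0 := by simp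
  rw [this, ← sum_add_distrib]
  refine sum_le_sum fun i _ => ?_
  split_ifs with hi
  · exact (ec_le_one _ _ _).trans (Nat.le_add_left _ _)
  · rcases h i hi with h | ⟨h1, h2⟩
    · simp [h, ec]
    · simp [h1, h2]

lemma C_le (B : Finset E) {s s' : E → Option Bool} {w w' : E × Bool → V}
    (h : ∀ i, i ∉ B → s' i = none ∨ (s' i = s i ∧ ∀ b, w' (i, b) = w (i, b))) :
    C X hX s' w' ≤ C X hX s w + B.card :=
  mn_mono X hX _ (cost_le B h)

lemma C_swap (s : E → Option Bool) (w : E × Bool → V) (a b : E × Bool) :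
    C X hX s (w ∘ swap a b) ≤ C X hX s w + 2 := by
  refine (C_le X hX {a.1, b.1} (s := s) (w := w) fun i hi => Or.inr ⟨rfl, fun c => ?_⟩).trans
    (Nat.add_le_add_left card_le_two _)
  simp only [mem_insert, mem_singleton, not_or] at hi
  rw [Function.comp_apply, swap_apply_of_ne_of_ne]
  · rintro rfl; exact hi.1 rfl
  · rintro rfl; exact hi.2 rfl

lemma cost_update (s : E → Option Bool) (k : E) (hk : s k = none) (σ : Option Bool)
    (w w' : E × Bool → V) (h : ∀ i, s i ≠ none → ∀ b, w' (i, b) = w (i, b)) (x : V → Bool) :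
    cost (Function.update s k σ) w' x
      = cost s w x + ec σ (x (w' (k, false))) (x (w' (k, true))) := by
  unfold cost
  rw [← add_sum_erase _ _ (mem_univ k), ← add_sum_erase _ _ (mem_univ k), hk]
  simp only [Function.update_self, ec, zero_add]
  rw [add_comm]
  congr 1
  refine sum_congr rfl fun i hi => ?_
  rw [Function.update_of_ne (mem_erase.1 hi).1]
  by_cases hs : s i = none
  · simp [hs]
  · rw [h i hs, h i hs]

/-- sum of the optimal cost over all arrangements of the half-edges -/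
def S (w0 : E × Bool → V) (s : E → Option Bool) : ℝ :=
  ∑ π : Perm (E × Bool), (C X hX s (w0 ∘ π) : ℝ)

lemma flip (w0 : E × Bool → V) (s : E → Option Bool) (k : E) (hk : s k = none) (U : Finset E)
    (hU : ∀ i ∈ U, s i = none) (hkU : k ∉ U) (hr : 1 ≤ U.card) :
    S X hX w0 (Function.update s k (some true)) ≤ S X hX w0 (Function.update s k (some false))
      + Fintype.card (Perm (E × Bool)) / (2 * U.card - 1) := by
  classical
  set Q : Finset (E × Bool) := U ×ˢ univ with hQ
  have hQc : (Q.card : ℝ) = 2 * U.card := by simp [hQ, mul_comm]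
  set G : Option Bool → Perm (E × Bool) → E × Bool → E × Bool → ℝ := fun σ π a b =>
    (mn X hX (fun x => cost s (w0 ∘ π) x + ec σ (x ((w0 ∘ π) a)) (x ((w0 ∘ π) b))) : ℝ) with hG
  have off : ∀ σ, ∀ a ∈ Q, ∀ b ∈ Q, a ≠ b →
      ∑ π, G σ π a b = S X hX w0 (Function.update s k σ) := by
    intro σ a ha b hb hab
    have ha1 : a.1 ∈ U := (mem_product.1 ha).1
    have hb1 : b.1 ∈ U := (mem_product.1 hb).1
    have hak : ∀ c, (k, c) ≠ a := by rintro c rfl; exact hkU ha1
    have hbk : ∀ c, (k, c) ≠ b := by rintro c rfl; exact hkU hb1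
    let τ : Perm (E × Bool) := swap (k, false) a * swap (k, true) b
    have t0 : τ (k, false) = a := by
      simp only [τ, Perm.mul_apply]
      rw [swap_apply_of_ne_of_ne (x := (k, false)) (by simp) (hbk _), swap_apply_left]
    have t1 : τ (k, true) = b := by
      simp only [τ, Perm.mul_apply]
      rw [swap_apply_left, swap_apply_of_ne_of_ne (hbk _).symm hab.symm]
    have t2 : ∀ i, s i ≠ none → ∀ c, τ (i, c) = (i, c) := by
      intro i hi c
      have h1 : ∀ c', (i, c) ≠ (k, c') := by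
        intro c' e; have e' : i = k := (Prod.ext_iff.1 e).1; rw [e'] at hi; exact hi hk
      have h2 : (i, c) ≠ a := by rintro rfl; exact hi (hU _ ha1)
      have h3 : (i, c) ≠ b := by rintro rfl; exact hi (hU _ hb1)
      simp only [τ, Perm.mul_apply]
      rw [swap_apply_of_ne_of_ne (h1 _) h3, swap_apply_of_ne_of_ne (h1 _) h2]
    rw [S, ← Equiv.sum_comp (Equiv.mulRight τ)
      (fun π : Perm (E × Bool) => (C X hX (Function.update s k σ) (w0 ∘ π) : ℝ))]
    refine sum_congr rfl fun π _ => ?_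
    simp only [hG, C, coe_mulRight]
    congr 2
    funext x
    rw [cost_update s k hk σ (w0 ∘ π) (w0 ∘ (π * τ : Perm _))]
    · simp [t0, t1]
    · intro i hi c; simp [t2 i hi c]
  have diag : ∀ π a, G (some false) π a a ≤ G (some true) π a a + 1 := by
    intro π a
    simp only [hG]
    exact_mod_cast mn_mono X hX 1 (fun x => by simp [ec])
  have tot : ∀ σ, ∑ π, ∑ a ∈ Q, ∑ b ∈ Q, G σ π a b
      = ∑ π, ∑ a ∈ Q, G σ π a a + Q.card * (Q.card - 1) * S X hX w0 (Function.update s k σ) := by
    intro σ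
    have : ∀ a ∈ Q, ∑ π, ∑ b ∈ Q, G σ π a b
        = ∑ π, G σ π a a + (Q.card - 1) * S X hX w0 (Function.update s k σ) := by
      intro a ha
      rw [sum_comm, ← add_sum_erase _ _ ha]
      congr 1
      rw [sum_congr rfl fun b hb => off σ a ha b (mem_of_mem_erase hb) (ne_of_mem_erase hb).symm,
        sum_const, card_erase_of_mem ha, nsmul_eq_mul, Nat.cast_pred (card_pos.2 ⟨a, ha⟩)]
    rw [sum_comm, sum_congr rfl this, sum_add_distrib, sum_comm, sum_const, nsmul_eq_mul]
    ring
  have h1 : ∑ π, ∑ a ∈ Q, ∑ b ∈ Q, G (some true) π a b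
      ≤ ∑ π, ∑ a ∈ Q, ∑ b ∈ Q, G (some false) π a b :=
    sum_le_sum fun π _ => step X hX Q (w0 ∘ π) _
  have h2 : ∑ π, ∑ a ∈ Q, G (some false) π a a
      ≤ ∑ π, ∑ a ∈ Q, G (some true) π a a + Fintype.card (Perm (E × Bool)) * Q.card := by
    calc _ ≤ ∑ π, ∑ a ∈ Q, (G (some true) π a a + 1) :=
          sum_le_sum fun π _ => sum_le_sum fun a _ => diag π a
      _ = _ := by simp [sum_add_distrib]
  rw [tot, tot, hQc] at h1
  rw [hQc] at h2
  have hr' : (1 : ℝ) ≤ U.card := by exact_mod_cast hr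
  have hp : (0 : ℝ) < 2 * U.card - 1 := by linarith
  rw [← sub_le_iff_le_add', le_div_iff₀ hp]
  have hp2 : (0 : ℝ) < 2 * U.card := by linarith
  apply le_of_mul_le_mul_left _ hp2
  nlinarith

theorem interp (w0 : E × Bool → V) (U : Finset E) (hr : 1 ≤ U.card) :
    S X hX w0 (fun _ => some true) ≤ S X hX w0 (fun _ => some false)
      + Fintype.card (Perm (E × Bool)) * (U.card + Fintype.card E / (2 * U.card - 1)) := by
  classical
  let sT : Finset E → E → Option Bool := fun T i => if i ∈ U then none else some (decide (i ∈ T))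
  set N : ℝ := (Fintype.card (Perm (E × Bool)) : ℝ) with hN
  have hr' : (1 : ℝ) ≤ U.card := by exact_mod_cast hr
  have hp : (0 : ℝ) < 2 * U.card - 1 := by linarith
  have chain : ∀ T : Finset E,
      S X hX w0 (sT T) ≤ S X hX w0 (sT ∅) + T.card * (N / (2 * U.card - 1)) := by
    intro T
    induction T using Finset.induction_on with
    | empty => simp
    | insert k T hk ih =>
      rw [card_insert_of_notMem hk]
      push_cast
      have hpos : 0 ≤ N / (2 * U.card - 1) := by positivity
      by_cases hkU : k ∈ U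
      · have : sT (insert k T) = sT T := by
          funext i
          by_cases h : i = k
          · simp [sT, h, hkU]
          · simp [sT, h]
        rw [this]; linarith
      · have := flip X hX w0 (Function.update (sT T) k none) k (by simp) U (by
          intro i hi
          have : i ≠ k := by rintro rfl; exact hkU hi
          simp [sT, this, hi]) hkU hr
        have e1 : Function.update (Function.update (sT T) k none) k (some true)
            = sT (insert k T) := by
          funext i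
          by_cases h : i = k
          · simp [sT, h, hkU]
          · simp [sT, h]
        have e2 : Function.update (Function.update (sT T) k none) k (some false) = sT T := by
          funext i
          by_cases h : i = k
          · simp [sT, h, hkU, hk]
          · simp [sT, h]
        rw [e1, e2] at this
        linarith
  have h1 : S X hX w0 (fun _ => some true) ≤ S X hX w0 (sT univ) + N * U.card := by
    have : ∀ π : Perm (E × Bool), (C X hX (fun _ => some true) (w0 ∘ π) : ℝ)
        ≤ C X hX (sT univ) (w0 ∘ π) + U.card := by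
      intro π
      exact_mod_cast C_le X hX U fun i hi => Or.inr ⟨by simp [sT, hi], fun _ => rfl⟩
    calc _ ≤ ∑ π : Perm (E × Bool), ((C X hX (sT univ) (w0 ∘ π) : ℝ) + U.card) :=
          sum_le_sum fun π _ => this π
      _ = _ := by simp [sum_add_distrib, S, hN]
  have h2 : S X hX w0 (sT ∅) ≤ S X hX w0 (fun _ => some false) := by
    refine sum_le_sum fun π _ => ?_
    have := C_le X hX ∅ (s' := sT ∅) (s := fun _ => some false) (w := w0 ∘ π) (w' := w0 ∘ π)
      fun i _ => by by_cases h : i ∈ U <;> simp [sT, h]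
    exact_mod_cast this
  have h3 := chain univ
  rw [card_univ] at h3
  have e : N * (U.card + Fintype.card E / (2 * U.card - 1))
    = N * U.card + Fintype.card E * (N / (2 * U.card - 1)) := by ring
  rw [e]; linarith

end

end Pool.Agent.MP_32a90a_pr

end

section

set_option autoImplicit false

namespace Pool.Agent.MP_32a90a_pr

open Finset Equiv Filter Topology
open scoped Classical

/-- the sign attached to a bit -/
def sgn (b : Bool) : ℝ := if b then 1 else -1

lemma quad_eq {n : ℕ} {E : Type*} [Fintype E] [DecidableEq E] {w : E × Bool → Fin n}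
    {G : SimpleGraph (Fin n)} (h : Rep w G) (x : Fin n → ℝ) :
    dotProduct x ((G.adjMatrix ℝ).mulVec x)
      = ∑ i : E, 2 * (x (w (i, false)) * x (w (i, true))) := by
  have e1 : dotProduct x ((G.adjMatrix ℝ).mulVec x)
      = ∑ q ∈ univ.filter (fun q : Fin n × Fin n => G.Adj q.1 q.2), x q.1 * x q.2 := by
    rw [sum_filter, Fintype.sum_prod_type]
    simp only [dotProduct, Matrix.mulVec, SimpleGraph.adjMatrix_apply, mul_sum]
    refine sum_congr rfl fun u _ => sum_congr rfl fun v _ => ?_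
    split_ifs <;> simp
  have e2 : univ.filter (fun q : Fin n × Fin n => G.Adj q.1 q.2) = univ.image (dart w) := by
    ext q; simp [h.2]
  rw [e1, e2, sum_image (fun p _ q _ e => h.1 e), Fintype.sum_prod_type]
  refine sum_congr rfl fun i _ => ?_
  simp [dart, pt]; ring

lemma quad_cost {n : ℕ} {E : Type*} [Fintype E] [DecidableEq E] {w : E × Bool → Fin n}
    {G : SimpleGraph (Fin n)} (h : Rep w G) (x : Fin n → Bool) :
    dotProduct (fun i => sgn (x i)) ((G.adjMatrix ℝ).mulVec fun i => sgn (x i))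
        = 2 * Fintype.card E - 4 * cost (fun _ => some true) w x ∧
      dotProduct (fun i => sgn (x i)) ((G.adjMatrix ℝ).mulVec fun i => sgn (x i))
        = 4 * cost (fun _ => some false) w x - 2 * Fintype.card E := by
  have a : ∀ p q : Bool, 2 * (sgn p * sgn q) = 2 - 4 * (ec (some true) p q : ℝ) := by
    intro p q; cases p <;> cases q <;> simp [sgn, ec] <;> norm_num
  have b : ∀ p q : Bool, 2 * (sgn p * sgn q) = 4 * (ec (some false) p q : ℝ) - 2 := by
    intro p q; cases p <;> cases q <;> simp [sgn, ec] <;> norm_num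
  rw [quad_eq h]
  constructor
  · simp only [a, cost, sum_sub_distrib, ← mul_sum]; push_cast; simp [mul_comm]
  · simp only [b, cost, sum_sub_distrib, ← mul_sum]; push_cast; simp [mul_comm]

/-- balanced configurations -/
noncomputable def Bal (k : ℕ) : Finset (Fin (2 * k) → Bool) :=
  univ.filter fun x => ∑ i, sgn (x i) = 0

lemma Bal_nonempty (k : ℕ) : (Bal k).Nonempty := by
  let e : Fin (2 * k) ≃ Bool × Fin k := Fintype.equivOfCardEq (by simp)
  refine ⟨fun i => (e i).1, ?_⟩
  simp only [Bal, mem_filter, mem_univ, true_and]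
  rw [Equiv.sum_comp e (fun q => sgn q.1), Fintype.sum_prod_type]
  simp [sgn]

lemma mem_vals {k : ℕ} (G : SimpleGraph (Fin (2 * k))) (t : ℝ) : t ∈ vals G ↔ ∃ x ∈ Bal k,
    t = (1 / ((2 * k : ℕ) : ℝ)) *
      dotProduct (fun i => sgn (x i)) ((G.adjMatrix ℝ).mulVec fun i => sgn (x i)) := by
  constructor
  · rintro ⟨x, h1, h2, h3⟩
    have : x = fun i => sgn (decide (x i = 1)) := by
      funext i
      rcases h1 i with h | h
      · simp [sgn, h]
      · have : ¬ ((-1 : ℝ) = 1) := by norm_num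
        simp [sgn, h, this]
    refine ⟨fun i => decide (x i = 1), ?_, ?_⟩
    · simp only [Bal, mem_filter, mem_univ, true_and]
      rw [this] at h2; exact h2
    · rw [← this]; exact h3
  · rintro ⟨x, h1, h2⟩
    refine ⟨_, fun i => ?_, (mem_filter.1 h1).2, h2⟩
    cases x i <;> simp [sgn]

lemma sum_ge {k : ℕ} {E : Type*} [Fintype E] [DecidableEq E] {w : E × Bool → Fin (2 * k)}
    {G : SimpleGraph (Fin (2 * k))} (h : Rep w G) :
    (1 / ((2 * k : ℕ) : ℝ)) * (4 * ((C (Bal k) (Bal_nonempty k) (fun _ => some false) w : ℝ)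
      - C (Bal k) (Bal_nonempty k) (fun _ => some true) w)) ≤ sSup (vals G) + sInf (vals G) := by
  have hp : 0 ≤ 1 / ((2 * k : ℕ) : ℝ) := by positivity
  have hb : BddAbove (vals G) := by
    refine ⟨(1 / ((2 * k : ℕ) : ℝ)) * (2 * Fintype.card E), fun t ht => ?_⟩
    obtain ⟨x, _, rfl⟩ := (mem_vals G t).1 ht
    rw [(quad_cost h x).1]
    refine mul_le_mul_of_nonneg_left ?_ hp
    have : (0 : ℝ) ≤ cost (fun _ => some true) w x := Nat.cast_nonneg _
    linarith
  obtain ⟨x, hx, e⟩ := exists_mn (Bal k) (Bal_nonempty k) (cost (fun _ => some true) w)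
  have hm := (mem_vals G _).2 ⟨x, hx, rfl⟩
  have h1 := le_csSup hb hm
  rw [(quad_cost h x).1, e] at h1
  have h2 : (1 / ((2 * k : ℕ) : ℝ)) * (4 * (C (Bal k) (Bal_nonempty k) (fun _ => some false) w : ℝ)
      - 2 * Fintype.card E) ≤ sInf (vals G) := by
    refine le_csInf ⟨_, hm⟩ fun t ht => ?_
    obtain ⟨y, hy, rfl⟩ := (mem_vals G t).1 ht
    rw [(quad_cost h y).2]
    refine mul_le_mul_of_nonneg_left ?_ hp
    have : (C (Bal k) (Bal_nonempty k) (fun _ => some false) w : ℝ)
        ≤ cost (fun _ => some false) w y := by exact_mod_cast mn_le _ _ _ hy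
    linarith
  unfold C at *
  nlinarith

lemma bound (d : ℕ) (hd : 1 ≤ d) (ε : ℝ) (hε : 0 < ε) (r k : ℕ) (hr1 : 1 ≤ r)
    (hr : 8 * d ≤ ε * (2 * r - 1)) (hk : 8 * r ≤ ε * k) (hk2 : r ≤ k)
    (hk3 : 2 * d * (2 * d + 2) + 2 * (d * (d + 1) + d + 2) < k) :
    (({G : SimpleGraph (Fin (2 * k)) | G.IsRegularOfDegree d ∧
        sSup (vals G) + sInf (vals G) < -ε}.ncard : ℝ)
      / ({G : SimpleGraph (Fin (2 * k)) | G.IsRegularOfDegree d}.ncard : ℝ))
      ≤ 2 * (((2 * k * d : ℕ) : ℝ) ^ 2 + 1) ^ (2 * (d * (d + 1) + d + 2))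
        * Real.exp (-(ε ^ 2 / (4096 * d) * k)) := by
  let e : Fin (k * d) × Bool ≃ Fin (2 * k) × Fin d := Fintype.equivOfCardEq (by simp; ring)
  let w0 : Fin (k * d) × Bool → Fin (2 * k) := fun p => (e p).1
  have h0 : Deg w0 d := by
    intro v
    have : (univ.filter fun p => w0 p = v).card = (univ : Finset (Fin d)).card := by
      refine card_bij (fun p _ => (e p).2) (by simp) ?_ ?_
      · intro p hp q hq h
        simp only [mem_filter, mem_univ, true_and, w0] at hp hq
        exact e.injective (Prod.ext (hp.trans hq.symm) h)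
      · intro j _
        exact ⟨e.symm (v, j), by simp [w0], by simp⟩
    simpa using this
  have hP : Fintype.card (Fin (k * d) × Bool) = 2 * k * d := by simp; ring
  have hkd : k ≤ k * d := Nat.le_mul_of_pos_right k hd
  obtain ⟨κ, hκ, hA⟩ := uniform' h0
  have s1 := simple_prob h0 (by rw [hP]; nlinarith)
  have a1 := hA fun _ => True
  have a2 := hA fun G => sSup (vals G) + sInf (vals G) < -ε
  have b1 : {π : Perm (Fin (k * d) × Bool) | Bad (w0 ∘ π) = ∅}
      = {π : Perm (Fin (k * d) × Bool) | ∃ G, Rep (w0 ∘ π) G ∧ True} := by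
    ext π
    simp only [Set.mem_ofPred_eq, and_true, Bad_empty]
    exact ⟨exists_graph, fun ⟨G, hG⟩ => hG.1⟩
  rw [← ncard_filter, b1, a1, hP] at s1
  simp only [and_true] at s1
  obtain ⟨U, -, hU⟩ := exists_subset_card_eq (s := (univ : Finset (Fin (k * d)))) (n := r)
    (by simp; omega)
  have hI := interp (Bal k) (Bal_nonempty k) w0 U (by omega)
  rw [hU, Fintype.card_fin] at hI
  let f : Perm (Fin (k * d) × Bool) → ℝ := fun π =>
    (C (Bal k) (Bal_nonempty k) (fun _ => some true) (w0 ∘ π) : ℝ)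
      - C (Bal k) (Bal_nonempty k) (fun _ => some false) (w0 ∘ π)
  have hd' : (1 : ℝ) ≤ d := by exact_mod_cast hd
  have hr1' : (1 : ℝ) ≤ r := by exact_mod_cast hr1
  have hk0 : (0 : ℝ) < k := by exact_mod_cast (by omega : 0 < k)
  have hf : ∀ π a b, |f (π * swap a b) - f π| ≤ 4 := by
    intro π a b
    have key : ∀ s, (C (Bal k) (Bal_nonempty k) s (w0 ∘ (π * swap a b : Perm _)) : ℝ)
          ≤ C (Bal k) (Bal_nonempty k) s (w0 ∘ π) + 2 ∧
        (C (Bal k) (Bal_nonempty k) s (w0 ∘ π) : ℝ)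
          ≤ C (Bal k) (Bal_nonempty k) s (w0 ∘ (π * swap a b : Perm _)) + 2 := by
      intro s
      have h1 := C_swap (Bal k) (Bal_nonempty k) s (w0 ∘ π) a b
      have h2 := C_swap (Bal k) (Bal_nonempty k) s ((w0 ∘ π) ∘ swap a b) a b
      have e : ((w0 ∘ π) ∘ swap a b) ∘ swap a b = w0 ∘ π := by funext p; simp
      rw [e] at h2
      exact ⟨by exact_mod_cast h1, by exact_mod_cast h2⟩
    have k1 := key fun _ => some true
    have k2 := key fun _ => some false
    simp only [f]
    rw [abs_le]; constructor <;> linarith [k1.1, k1.2, k2.1, k2.2]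
  have hT := perm_tail 4 (by norm_num) (ε / (512 * d)) (by positivity) f hf (ε * k / 4)
  set N : ℝ := (Fintype.card (Perm (Fin (k * d) × Bool)) : ℝ) with hN
  have hN0 : 0 < N := by rw [hN]; exact_mod_cast Fintype.card_pos
  have hmean : (∑ σ, f σ) / N ≤ ε * k / 4 := by
    rw [div_le_iff₀ hN0]
    have e1 : ∑ σ, f σ = S (Bal k) (Bal_nonempty k) w0 (fun _ => some true)
      - S (Bal k) (Bal_nonempty k) w0 (fun _ => some false) := by
      simp only [f, S, sum_sub_distrib]
    have e2 : ((k * d : ℕ) : ℝ) / (2 * r - 1) ≤ ε * k / 8 := by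
      rw [div_le_iff₀ (by linarith)]; push_cast; nlinarith
    have e3 : (r : ℝ) + ((k * d : ℕ) : ℝ) / (2 * r - 1) ≤ ε * k / 4 := by linarith
    have := mul_le_mul_of_nonneg_left e3 hN0.le
    linarith
  have b2 : (univ.filter fun π : Perm (Fin (k * d) × Bool) =>
        ∃ G, Rep (w0 ∘ π) G ∧ sSup (vals G) + sInf (vals G) < -ε)
      ⊆ univ.filter fun π => (∑ σ, f σ) / N + ε * k / 4 ≤ f π := by
    intro π hπ
    simp only [mem_filter, mem_univ, true_and] at hπ ⊢
    obtain ⟨G, h1, h2⟩ := hπ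
    have h3 := (sum_ge h1).trans_lt h2
    have h4 : ε * k / 2 < f π := by
      simp only [f]
      push_cast at h3
      rw [one_div, inv_mul_lt_iff₀ (by positivity)] at h3
      linarith
    linarith
  have b3 := card_le_card b2
  rw [← ncard_filter, a2] at b3
  have hexp : 2 * (ε / (512 * d)) ^ 2 * 4 ^ 2 * (Fintype.card (Fin (k * d) × Bool) : ℝ)
      - ε / (512 * d) * (ε * k / 4) = -(ε ^ 2 / (4096 * d) * k) := by
    rw [hP]; push_cast; field_simp; ring
  rw [hexp] at hT
  set B := {G : SimpleGraph (Fin (2 * k)) | G.IsRegularOfDegree d ∧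
        sSup (vals G) + sInf (vals G) < -ε}.ncard
  set R := {G : SimpleGraph (Fin (2 * k)) | G.IsRegularOfDegree d}.ncard
  set M : ℝ := 2 * (((2 * k * d : ℕ) : ℝ) ^ 2 + 1) ^ (2 * (d * (d + 1) + d + 2)) with hM
  have s2 : N ≤ M * (R * κ) := by rw [hN, hM]; exact_mod_cast s1
  have b4 : (B : ℝ) * κ ≤ N * Real.exp (-(ε ^ 2 / (4096 * d) * k)) :=
    le_trans (by exact_mod_cast b3) hT
  have hκ' : (0 : ℝ) < κ := by exact_mod_cast hκ
  have hR : (0 : ℝ) < R := by
    rcases (Nat.cast_nonneg R : (0 : ℝ) ≤ R).lt_or_eq with h | h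
    · exact h
    · rw [← h] at s2; simp at s2; linarith
  rw [div_le_iff₀ hR]
  apply le_of_mul_le_mul_right _ hκ'
  have := mul_le_mul_of_nonneg_right s2 (Real.exp_pos (-(ε ^ 2 / (4096 * d) * k))).le
  linarith

theorem one_sided (d : ℕ) (hd : 1 ≤ d) (ε : ℝ) (hε : 0 < ε) :
    Tendsto (fun k : ℕ => ({G : SimpleGraph (Fin (2 * k)) | G.IsRegularOfDegree d ∧
        sSup (vals G) + sInf (vals G) < -ε}.ncard : ℝ)
      / ({G : SimpleGraph (Fin (2 * k)) | G.IsRegularOfDegree d}.ncard : ℝ)) atTop (𝓝 0) := by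
  have hd' : (1 : ℝ) ≤ d := by exact_mod_cast hd
  obtain ⟨r0, hr0⟩ := exists_nat_ge (8 * d / ε)
  set K := 2 * (d * (d + 1) + d + 2) with hK
  set c : ℝ := ε ^ 2 / (4096 * d) with hc
  have hc0 : 0 < c := by positivity
  have lim : Tendsto (fun k : ℕ => (2 * (4 * (d : ℝ) ^ 2 + 1) ^ K / c ^ (2 * K))
      * ((c * k) ^ (2 * K) * Real.exp (-(c * k)))) atTop (𝓝 0) := by
    have := ((Real.tendsto_pow_mul_exp_neg_atTop_nhds_zero (2 * K)).comp
      (tendsto_natCast_atTop_atTop.const_mul_atTop hc0)).const_mul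
      (2 * (4 * (d : ℝ) ^ 2 + 1) ^ K / c ^ (2 * K))
    simpa using this
  refine squeeze_zero' (Eventually.of_forall fun k => by positivity) ?_ lim
  obtain ⟨k0, hk0⟩ := exists_nat_ge (8 * (r0 + 1 : ℕ) / ε)
  filter_upwards [eventually_ge_atTop k0, eventually_ge_atTop (r0 + 1),
    eventually_gt_atTop (2 * d * (2 * d + 2) + K)] with k h1 h2 h3
  have h1' : (k0 : ℝ) ≤ k := by exact_mod_cast h1
  have hk1 : (1 : ℝ) ≤ k := by exact_mod_cast (by omega : 1 ≤ k)
  refine (bound d hd ε hε (r0 + 1) k (by omega) ?_ ?_ h2 h3).trans ?_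
  · rw [div_le_iff₀ hε] at hr0
    have : (0 : ℝ) ≤ r0 := Nat.cast_nonneg _
    push_cast; nlinarith
  · rw [div_le_iff₀ hε] at hk0
    nlinarith
  · rw [← mul_assoc]
    refine mul_le_mul_of_nonneg_right ?_ (Real.exp_pos _).le
    have e : 2 * (4 * (d : ℝ) ^ 2 + 1) ^ K / c ^ (2 * K) * (c * k) ^ (2 * K)
        = 2 * ((4 * (d : ℝ) ^ 2 + 1) * k ^ 2) ^ K := by
      rw [mul_pow, mul_pow, ← pow_mul]; field_simp
    rw [e]
    refine mul_le_mul_of_nonneg_left (pow_le_pow_left₀ (by positivity) ?_ _) (by norm_num)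
    push_cast; nlinarith

end Pool.Agent.MP_32a90a_pr

end
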