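import Pool.Agent.Mg.F32a90ap.Gac7422
import Pool.Agent.Mg.F32a90ap.G8b60b8
import Pool.Agent.Mg.F32a90ap.G946f23
import Pool.Agent.Mg.F32a90ap.Gb8a124

section

set_option autoImplicit false

namespace Pool.Agent.MP_32a90a_pr.D.AZ

open Finset Equiv Filter Pool.Agent.MP_32a90a_pr Pool.Agent.MP_32a90a_pr.L

noncomputable section

/-- the canonical arrangement on 2 k vertices -/
def cw (d k : ℕ) : Fin (k * d) × Bool → Fin (2 * k) := fun p =>
  ((Fintype.equivOfCardEq (by simp; ring) : Fin (k * d) × Bool ≃ Fin (2 * k) × Fin d) p).1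

/-- mean optimum of the balanced antiferromagnet -/
def af (d k : ℕ) : ℝ := VV (cw d k) ∅ univ ∅ 0 (magSet (Fin (2 * k)) 0)

/-- mean optimum of the balanced ferromagnet -/
def fe (d k : ℕ) : ℝ := VV (cw d k) ∅ ∅ univ 0 (magSet (Fin (2 * k)) 0)

/-- the hypothesis to be refuted -/
def HypH (d : ℕ) (γ : ℝ) : Prop := ∀ᶠ k : ℕ in atTop, fe d k ≤ af d k + γ * (2 * k)

open Classical in
/-- configurations with magnetisation in a window -/
def win (V : Type) [Fintype V] [DecidableEq V] (a b : ℝ) : Finset (V → Bool) :=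
  univ.filter fun σ => a * Fintype.card V ≤ mag σ ∧ mag σ ≤ b * Fintype.card V

/-- type of a slot: idle, or the blocks of its two ends and its sign -/
abbrev Ty (B : Type) : Type := Option (B × B × Bool)

/-- number of half-edges of block b used by a slot -/
def ct {B : Type} (b : B) (o : Ty B) : ℝ := o.elim 0 fun x => ind (x.1 = b) + ind (x.2.1 = b)

/-- the quadratic form of a slot type -/
def qf {B : Type} (x y : B → ℝ) (t : B × B × Bool) : ℝ :=
  x t.1 * x t.2.1 - sgn t.2.2 * (y t.1 * y t.2.1)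

/-- number of points with a given value -/
def nx {E X : Type} [Fintype E] (T : E → X) (x : X) : ℝ := ∑ i, ind (T i = x)

section
variable {V E B : Type} [Fintype V] [DecidableEq V] [Fintype E] [DecidableEq E]

/-- optimum after adding one edge from u to v with coupling j -/
def mxJ (Ω : Finset (V → Bool)) (s : E → ℝ) (w : E × Bool → V) (j : ℝ) (u v : V) : ℝ :=
  ⨆ σ : Ω, (HH s 0 w σ + j * Y1 σ u v)

/-- the arrangement has the prescribed blocks -/
def mt (β : V → B) (T : E → Ty B) (w : E × Bool → V) : Prop :=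
  ∀ i x, T i = some x → β (w (i, false)) = x.1 ∧ β (w (i, true)) = x.2.1

/-- couplings of a pattern -/
def sT (T : E → Ty B) (i : E) : ℝ := (T i).elim 0 fun x => sgn x.2.2

/-- probability of a pattern -/
def ms (w0 : E × Bool → V) (β : V → B) (T : E → Ty B) : ℝ := av w0 fun w => ind (mt β T w)

/-- conditional mean optimum given a pattern -/
def Phi (w0 : E × Bool → V) (β : V → B) (Ω : Finset (V → Bool)) (T : E → Ty B) : ℝ :=
  av w0 (fun w => ind (mt β T w) * mxH Ω (sT T) 0 w) / ms w0 β T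

/-- number of free half-edges of block b -/
def pb (d : ℕ) (β : V → B) (T : E → Ty B) (b : B) : ℝ := d * nx β b - ∑ i, ct b (T i)

open Classical in
/-- idle positions that carry a vertex of block b -/
def pl (β : V → B) (T : E → Ty B) (w : E × Bool → V) (b : B) : Finset (E × Bool) :=
  univ.filter fun a => T a.1 = none ∧ β (w a) = b

/-- number of ordered pairs of distinct free half-edges of the blocks of x -/
def np (d : ℕ) (β : V → B) (T : E → Ty B) (x : B × B × Bool) : ℝ :=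
  pb d β T x.1 * pb d β T x.2.1 - ind (x.1 = x.2.1) * pb d β T x.1

/-- the pattern with idle set U and independent types elsewhere -/
def Tm {Ξ : Type} (U : Finset E) (f : Ξ → B × B × Bool) (ω : E → Ξ) (i : E) : Ty B :=
  if i ∈ U then none else some (f (ω i))

/-- sign of a slot as a function of its coin -/
def jj (A F : Finset E) (i : E) (c : Bool) : Bool :=
  if i ∈ A then false else if i ∈ F then true else c

/-- mean coupling of a slot -/
def cm (A F : Finset E) (i : E) : ℝ := if i ∈ A then -1 else if i ∈ F then 1 else 0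

/-- joint law of the types -/
def jt (γ : E → B) (f : Bool) (ξ : E × E × Bool) : B × B × Bool := (γ ξ.1, γ ξ.2.1, f || ξ.2.2)

/-- split law of the types -/
def st (γ : E → B) (A F : Finset E) (ξ : E × E × Bool) : B × B × Bool :=
  (γ ξ.1, γ ξ.1, jj A F ξ.1 ξ.2.2)

/-- the block diagonal pattern -/
def T0 (γ : E → B) (A F : Finset E) (J : E → Bool) (i : E) : Ty B :=
  some (γ i, γ i, jj A F i (J i))

/-- couplings along the gain chain: T is the set of raised slots -/
def cq (f : Bool) (U T : Finset E) (J : E → Bool) : E → ℝ :=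
  if f then cp U ∅ T J else cp U Tᶜ ∅ J

/-- free energy along the gain chain -/
def Fq (w0 : E × Bool → V) (Ω : Finset (V → Bool)) (f : Bool) (U T : Finset E) : ℝ :=
  ED w0 fun w J => lZ Ω Y1 1 (cq f U T J) w

/-- correlation of two positions -/
def cc (Ω : Finset (V → Bool)) (s : E → ℝ) (w : E × Bool → V) (a b : E × Bool) : ℝ :=
  gb Ω Y1 1 s w fun σ => Y1 σ (w a) (w b)

/-- magnetisation of a position -/
def mm (Ω : Finset (V → Bool)) (s : E → ℝ) (w : E × Bool → V) (a : E × Bool) : ℝ :=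
  gb Ω Y1 1 s w fun σ => sgn (σ (w a))

/-- gain of one step -/
def GG (Ω : Finset (V → Bool)) (s : E → ℝ) (U : Finset E) (w : E × Bool → V) : ℝ :=
  aQQ U fun a b => (Real.log (1 + Real.tanh 1 * cc Ω s w a b)
    - Real.log (1 - Real.tanh 1 * cc Ω s w a b)) / 2

open Classical in
/-- configurations within l of the optimum -/
def nr (Ω : Finset (V → Bool)) (s : E → ℝ) (B0 : ℝ) (w : E × Bool → V) (l : ℝ) :
    Finset (V → Bool) :=
  Ω.filter fun σ => mxH Ω s B0 w - l ≤ HH s B0 w σ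

/-- large sets are shattered only at a large energy deficit -/
def Rg (d a0 : ℕ) (Ω : Finset (V → Bool)) (s : E → ℝ) (B0 : ℝ) (w : E × Bool → V) : Prop :=
  ∀ (a : ℕ) (l : ℝ) (W : Finset V), a0 ≤ a → 0 ≤ l → 3 * a ≤ W.card → Shat (nr Ω s B0 w l) W →
    (d : ℝ) * (a : ℝ) ^ 3 < 2048 * l ^ 2 * (Fintype.card V : ℝ)

end

section
variable {B : Type} [Fintype B] [DecidableEq B] {Vb Eb : B → Type} [∀ b, Fintype (Vb b)]
  [∀ b, DecidableEq (Vb b)] [∀ b, Fintype (Eb b)] [∀ b, DecidableEq (Eb b)]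

/-- disjoint union of arrangements -/
def sg (wb : ∀ b, Eb b × Bool → Vb b) : (Σ b, Eb b) × Bool → Σ b, Vb b :=
  fun p => ⟨p.1.1, wb p.1.1 (p.1.2, p.2)⟩

/-- mean optimum of independent blocks under a joint constraint -/
def SV (wb : ∀ b, Eb b × Bool → Vb b) (A F : Finset (Σ b, Eb b))
    (Ω : Finset ((Σ b, Vb b) → Bool)) : ℝ :=
  avg fun J : (Σ b, Eb b) → Bool => avg fun π : ∀ b, Perm (Eb b × Bool) =>
    mxH Ω (cp ∅ A F J) 0 (sg fun b => wb b ∘ π b)

end

/-- the free spin statement at a fixed degree -/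
def PhiD (d : ℕ) : Prop :=
  Big d fun V E _ _ _ _ w0 =>
    ∀ A0 A1 : Finset E, A0 ⊆ A1 → (A1.card : ℝ) ≤ 2 * tau d * Fintype.card E →
      tau d * Fintype.card E / 2 ≤ (A1.card : ℝ) - A0.card →
      VV w0 ∅ A0 ∅ 0 univ ≤ VV w0 ∅ A1 ∅ 0 univ + qq d ^ 4 * Fintype.card V →
      ∃ A : Finset E, A0 ⊆ A ∧ A ⊆ A1 ∧ ∃ a : ℝ, mu1 d ≤ a ∧ a + mu1 d / 2 ≤ 1 ∧
        ∀ M : ℕ, Even (M + Fintype.card V) → a * Fintype.card V ≤ M →
          (M : ℝ) ≤ (a + mu1 d / 2) * Fintype.card V →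
          VV w0 ∅ A ∅ 0 univ - 6 * qq d ^ 4 * Fintype.card V ≤ VV w0 ∅ A ∅ 0 (magSet V (-M))

/-- the susceptibility bound at a fixed degree -/
def B3D (c : ℝ) (d : ℕ) : Prop :=
  Big d fun V E _ _ _ _ w0 =>
    ∀ B : ℝ, 1 / (d : ℝ) ≤ B → B ≤ 1 →
      FF w0 (∅ : Finset E) ∅ ∅ 1 0 univ
          + c * B ^ 2 * Fintype.card V / (Real.sqrt d * ell d ^ 2)
        ≤ FF w0 ∅ ∅ ∅ 1 B univ

/-- the entropy bound in mean at a fixed degree -/
def B1D (C : ℝ) (d : ℕ) : Prop :=
  ∀ η : ℝ, 0 < η → Big d fun V E _ _ _ _ w0 =>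
    ∀ (F : Finset E) (Ω : Finset (V → Bool)), 2 * F.card ≤ Fintype.card E → Ω.Nonempty →
      FF w0 ∅ ∅ F 1 0 Ω ≤ VV w0 ∅ ∅ F 0 Ω + (C * ell d ^ 3 / d + η) * Fintype.card V

/-- the gain of a magnetised system at a fixed degree -/
def GainD (c : ℝ) (d : ℕ) : Prop :=
  ∀ ν0 η : ℝ, 0 < ν0 → 0 < η → Big d fun V E _ _ _ _ w0 =>
    ∀ (ν : ℝ) (Ω : Finset (V → Bool)) (X : Finset E), ν0 ≤ ν → Ω.Nonempty →
      (∀ σ ∈ Ω, ν * Fintype.card V ≤ mag σ) →
      FF w0 ∅ ∅ ∅ 1 0 Ω + c * X.card * ν ^ 2 ≤ FF w0 ∅ ∅ X 1 0 Ω + η * Fintype.card V ∧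
        FF w0 ∅ X ∅ 1 0 Ω + c * X.card * ν ^ 2 ≤ FF w0 ∅ ∅ ∅ 1 0 Ω + η * Fintype.card V

/-- the field used for block 1 -/
def bb (d : ℕ) : ℝ := (d : ℝ) ^ (-(13 / 100 : ℝ))

/-- lower bound for the magnetisation of block 1 -/
def nu0 (d : ℕ) : ℝ := (d : ℝ) ^ (-(13 / 20 : ℝ))

/-- upper bound for the magnetisation of block 2 -/
def aa1 (d : ℕ) : ℝ := (d : ℝ) ^ (-(9 / 10 : ℝ))

/-- the numerical conditions on the degree -/
def Num (c3 C cg : ℝ) (d : ℕ) : Prop :=
  3 ≤ d ∧ 2 * tau d ≤ 1 ∧ 1 / (d : ℝ) ≤ bb d ∧ bb d ≤ 1 ∧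
    nu0 d + mu1 d / 20 < c3 * bb d / (Real.sqrt d * ell d ^ 2) ∧ mu1 d ≤ nu0 d ∧ nu0 d ≤ 1 ∧
    C * ell d ^ 3 / d + 7 * qq d ^ 4 < cg * tau d * d * aa1 d ^ 2 / 2 ∧ 10 * aa1 d ≤ nu0 d ∧
    128 * bb d ≤ cg * tau d * d * mu1 d ∧
    256 * (C * ell d ^ 3 / d) ≤ cg * tau d * d * mu1 d * nu0 d ∧
    2048 * qq d ^ 4 ≤ cg * tau d * d * mu1 d ^ 2

/-- block 2 at a fixed degree -/
def Blk2 (d : ℕ) : Prop :=
  ∀ᶠ k : ℕ in atTop, ∃ (A : Finset (Fin (k * d))) (a : ℝ), tau d * (k * d) ≤ A.card ∧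
    mu1 d ≤ a ∧ a ≤ aa1 d ∧ ∀ M : ℕ, Even M → a * (2 * k) ≤ M →
      (M : ℝ) ≤ (a + mu1 d / 2) * (2 * k) →
      (magSet (Fin (2 * k)) (-M)).Nonempty ∧
        af d k - 7 * qq d ^ 4 * (2 * k) ≤ VV (cw d k) ∅ A ∅ 0 (magSet (Fin (2 * k)) (-M))

/-- block 1 at a fixed degree -/
def Blk1 (C cg : ℝ) (d : ℕ) : Prop :=
  ∀ (J0 : ℕ) (η : ℝ), 0 < η → ∀ᶠ k : ℕ in atTop, ∃ ν : ℝ, nu0 d ≤ ν ∧ ν ≤ 1 ∧
    ∀ j : ℕ, 1 ≤ j → j ≤ J0 → (win (Fin (2 * (j * k))) ν (ν + mu1 d / 20)).Nonempty ∧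
      ∀ F : Finset (Fin (j * k * d)), 2 * F.card ≤ j * k * d →
        j * af d k + cg * F.card * ν ^ 2
            - (2 * bb d * ν + 2 * (C * ell d ^ 3 / d) + η) * (2 * (j * k))
          ≤ VV (cw d (j * k)) ∅ ∅ F 0 (win (Fin (2 * (j * k))) ν (ν + mu1 d / 20))

end

end Pool.Agent.MP_32a90a_pr.D.AZ

end

section

set_option autoImplicit false

namespace Pool.Agent.MP_32a90a_pr.D.AZ

open Finset Equiv Filter Pool.Agent.MP_32a90a_pr Pool.Agent.MP_32a90a_pr.L

/-! ### zero temperature toolkit -/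

/-- optimum after adding one edge -/
def ZMax : Prop :=
  ∀ (V E : Type) [Fintype V] [DecidableEq V] [Fintype E] [DecidableEq E]
    (Ω : Finset (V → Bool)) (s : E → ℝ) (w : E × Bool → V) (j : Bool) (u v : V), Ω.Nonempty →
    (∀ i, s i = 0 ∨ s i = 1 ∨ s i = -1) →
    mxJ Ω s w (sgn j) u v = mxH Ω s 0 w + 1
      - 2 * ind (∀ σ ∈ Ω, HH s 0 w σ = mxH Ω s 0 w → σ u = if j then !σ v else σ v)

/-- one step from an antiferromagnetic to a ferromagnetic slot -/
def ZStep0 : Prop :=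
  ∀ (V E : Type) [Fintype V] [DecidableEq V] [Fintype E] [DecidableEq E]
    (w0 : E × Bool → V) (Ω : Finset (V → Bool)) (U : Finset E) (s : E → ℝ) (k : E), Ω.Nonempty →
    1 ≤ U.card → (∀ i, s i = 0 ∨ s i = 1 ∨ s i = -1) → (∀ i ∈ U, s i = 0) → s k = 0 → k ∉ U →
    av w0 (mxH Ω (Function.update s k (-1)) 0)
      ≤ av w0 (mxH Ω (Function.update s k 1) 0) + 2 / (U.card : ℝ)

/-- monotonicity in the slot classes -/
def ZMono : Prop :=
  ∀ (d : ℕ) (η : ℝ), 1 ≤ d → 0 < η → Big d fun V E _ _ _ _ w0 =>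
    ∀ (A A' F F' : Finset E) (Ω : Finset (V → Bool)), A ⊆ A' → F' ⊆ F → Ω.Nonempty →
      VV w0 ∅ A' F' 0 Ω ≤ VV w0 ∅ A F 0 Ω + η * Fintype.card V

/-- with random signs the balance constraint is almost free -/
def ZGauge : Prop :=
  ∀ (V E : Type) [Fintype V] [DecidableEq V] [Fintype E] [DecidableEq E]
    (w0 : E × Bool → V) (d : ℕ), Deg w0 d → Even (Fintype.card V) →
    VV w0 ∅ ∅ ∅ 0 univ ≤ VV w0 ∅ ∅ ∅ 0 (magSet V 0) + d * Real.sqrt (Fintype.card V)

/-- all slightly antiferromagnetic models have almost the same value -/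
def ZA6 : Prop :=
  ∀ (d : ℕ) (η : ℝ), 1 ≤ d → 0 < η →
    (∀ᶠ k : ℕ in atTop, ∀ A : Finset (Fin (k * d)),
      af d k - η * (2 * k) ≤ VV (cw d k) ∅ A ∅ 0 univ) ∧
    ∀ γ : ℝ, HypH d γ → ∀ᶠ k : ℕ in atTop, ∀ A : Finset (Fin (k * d)),
      VV (cw d k) ∅ A ∅ 0 univ ≤ af d k + (γ + η) * (2 * k)

/-! ### block interpolation -/

/-- size of the pools -/
def ZPl : Prop :=
  ∀ (V E B : Type) [Fintype V] [DecidableEq V] [Fintype E] [DecidableEq E]
    (w : E × Bool → V) (d : ℕ) (β : V → B) (T : E → Ty B) (b : B), Deg w d → mt β T w →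
    ((pl β T w b).card : ℝ) = pb d β T b

/-- adding one slot to a pattern -/
def ZEx : Prop :=
  ∀ (V E B : Type) [Fintype V] [DecidableEq V] [Fintype E] [DecidableEq E]
    (w0 : E × Bool → V) (d : ℕ) (β : V → B) (Ω : Finset (V → Bool)) (T : E → Ty B) (r : E)
    (x : B × B × Bool), Deg w0 d → T r = none →
    (0 < ms w0 β (Function.update T r (some x)) ↔ 0 < ms w0 β T ∧ 0 < np d β T x) ∧
      (0 < ms w0 β (Function.update T r (some x)) →
        Phi w0 β Ω (Function.update T r (some x)) =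
          av w0 (fun w => ind (mt β T w) * ((∑ a ∈ pl β T w x.1, ∑ a' ∈ (pl β T w x.2.1).erase a,
            mxJ Ω (sT T) w (sgn x.2.2) (w a) (w a')) / np d β T x)) / ms w0 β T)

/-- patterns that do not overload a block are feasible -/
def ZFeas : Prop :=
  ∀ (V E B : Type) [Fintype V] [DecidableEq V] [Fintype E] [DecidableEq E]
    (w0 : E × Bool → V) (d : ℕ) (β : V → B) (T : E → Ty B), Deg w0 d →
    (∀ b, 0 ≤ pb d β T b) → 0 < ms w0 β T

/-- the conditional value is Lipschitz in the pattern -/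
def ZLip : Prop :=
  ∀ (V E B : Type) [Fintype V] [DecidableEq V] [Fintype E] [DecidableEq E]
    (w0 : E × Bool → V) (d : ℕ) (β : V → B) (Ω : Finset (V → Bool)) (T T' : E → Ty B),
    Deg w0 d → Ω.Nonempty → 0 < ms w0 β T → 0 < ms w0 β T' →
    Phi w0 β Ω T ≤ Phi w0 β Ω T' + 2 * ∑ i, ind (T i ≠ T' i)

/-- two labellings with close counts are close after a permutation -/
def ZMatch : Prop :=
  ∀ (E X : Type) [Fintype E] [DecidableEq E] [Fintype X] (T T' : E → X),
    ∃ ρ : Perm E, ∑ i, ind (T (ρ i) ≠ T' i) ≤ ∑ x, |nx T x - nx T' x|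

/-- the conditional value is Lipschitz in the type counts -/
def ZCnt : Prop :=
  ∀ (V E B : Type) [Fintype V] [DecidableEq V] [Fintype E] [DecidableEq E] [Fintype B]
    (w0 : E × Bool → V) (d : ℕ) (β : V → B) (Ω : Finset (V → Bool)) (T T' : E → Ty B),
    Deg w0 d → Ω.Nonempty → 0 < ms w0 β T → 0 < ms w0 β T' →
    Phi w0 β Ω T ≤ Phi w0 β Ω T' + 2 * ∑ x, |nx T x - nx T' x|

/-- comparison of collision probabilities -/
def ZForm : Prop :=
  ∀ (B Q Y Ξ : Type) [Fintype Y] [Fintype Ξ] (P : B → Finset Q) (ω : Q → Y) (ν : Y → Y)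
    (f g : Ξ → B × B × Bool), (∀ y, ν (ν y) = y) →
    (∀ x y : B → ℝ, avg (fun ξ => qf x y (f ξ)) ≤ avg fun ξ => qf x y (g ξ)) →
    avg (fun ξ => (∑ a ∈ P (f ξ).1, ∑ a' ∈ P (f ξ).2.1,
        ind (ω a = if (f ξ).2.2 then ν (ω a') else ω a')) / ((P (f ξ).1).card * (P (f ξ).2.1).card))
      ≤ avg fun ξ => (∑ a ∈ P (g ξ).1, ∑ a' ∈ P (g ξ).2.1,
        ind (ω a = if (g ξ).2.2 then ν (ω a') else ω a')) / ((P (g ξ).1).card * (P (g ξ).2.1).card)

/-- one hybrid step -/
def ZHyb : Prop :=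
  ∀ (V E B Ξ : Type) [Fintype V] [DecidableEq V] [Fintype E] [DecidableEq E] [Fintype Ξ]
    [Nonempty Ξ] (w0 : E × Bool → V) (d : ℕ) (β : V → B) (Ω : Finset (V → Bool)) (T : E → Ty B)
    (r : E) (f g : Ξ → B × B × Bool) (L : ℝ), Deg w0 d → Ω.Nonempty → T r = none → 2 ≤ L →
    (∀ b, L ≤ pb d β T b) →
    (∀ x y : B → ℝ, avg (fun ξ => qf x y (f ξ)) ≤ avg fun ξ => qf x y (g ξ)) →
    avg (fun ξ => Phi w0 β Ω (Function.update T r (some (g ξ))))
      ≤ avg (fun ξ => Phi w0 β Ω (Function.update T r (some (f ξ)))) + 4 / L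

/-- Hoeffding inequality for independent uniform coordinates -/
def ZHoef : Prop :=
  ∀ (ι Ξ : Type) [Fintype ι] [DecidableEq ι] [Fintype Ξ] [Nonempty Ξ] (X : ι → Ξ → ℝ) (c t : ℝ),
    0 < c → 0 ≤ t → (∀ i ξ ξ', |X i ξ - X i ξ'| ≤ c) →
    avg (fun ω : ι → Ξ => ind (t ≤ |∑ i, X i (ω i) - ∑ i, avg (X i)|))
      ≤ 2 * Real.exp (-(t ^ 2 / (2 * c ^ 2 * Fintype.card ι)))

/-- random patterns rarely overload a block -/
def ZPool : Prop :=
  ∀ (V E B Ξ : Type) [Fintype V] [DecidableEq V] [Fintype E] [DecidableEq E] [Nonempty E]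
    [Fintype B] [Fintype Ξ] [Nonempty Ξ] (d : ℕ) (β : V → B) (U : Finset E)
    (h : E → Ξ → B × B × Bool) (L t : ℝ), 0 ≤ t →
    (∀ i b, (Fintype.card E : ℝ) * avg (fun ξ => ct b (some (h i ξ))) ≤ d * nx β b) →
    (∀ b, (L + t) * Fintype.card E ≤ U.card * (d * nx β b)) →
    avg (fun ω : E → Ξ => ind (¬ ∀ b, L ≤ pb d β (fun i => if i ∈ U then none else some (h i (ω i))) b))
      ≤ 2 * Fintype.card B * Real.exp (-(t ^ 2 / (8 * Fintype.card E)))

/-- the hybrid chain -/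
def ZChain : Prop :=
  ∀ (V E B Ξ : Type) [Fintype V] [DecidableEq V] [Fintype E] [DecidableEq E] [Nonempty E]
    [Fintype B] [Fintype Ξ] [Nonempty Ξ] (w0 : E × Bool → V) (d : ℕ) (β : V → B)
    (Ω : Finset (V → Bool)) (U : Finset E) (f g : Ξ → B × B × Bool) (L t : ℝ), Deg w0 d →
    Ω.Nonempty → 2 ≤ L → 0 ≤ t →
    (∀ x y : B → ℝ, avg (fun ξ => qf x y (f ξ)) ≤ avg fun ξ => qf x y (g ξ)) →
    (∀ b, (Fintype.card E : ℝ) * avg (fun ξ => ct b (some (f ξ))) ≤ d * nx β b) →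
    (∀ b, (Fintype.card E : ℝ) * avg (fun ξ => ct b (some (g ξ))) ≤ d * nx β b) →
    (∀ b, (L + t) * Fintype.card E ≤ U.card * (d * nx β b)) →
    avg (fun ω : E → Ξ => Phi w0 β Ω (Tm U g ω)) ≤ avg (fun ω : E → Ξ => Phi w0 β Ω (Tm U f ω))
      + Fintype.card E * (4 / L + 4 * Fintype.card E * Fintype.card B
          * Real.exp (-(t ^ 2 / (8 * Fintype.card E))))

/-- comparison of two means through good sets -/
def ZCmp : Prop :=
  ∀ (α α' : Type) [Fintype α] [Nonempty α] [Fintype α'] [Nonempty α'] (f : α → ℝ) (f' : α' → ℝ)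
    (G : α → Prop) (G' : α' → Prop) (R D p p' : ℝ), 0 ≤ D → (∀ a, |f a| ≤ R) → (∀ a, |f' a| ≤ R) →
    avg (fun a => ind (¬ G a)) ≤ p → avg (fun a => ind (¬ G' a)) ≤ p' →
    (∀ a a', G a → G' a' → f a ≤ f' a' + D) → avg f ≤ avg f' + D + 2 * R * (p + p')

/-- conditioning on the pattern of the arrangement -/
def ZTow : Prop :=
  ∀ (V E B : Type) [Fintype V] [DecidableEq V] [Fintype E] [DecidableEq E]
    (w0 : E × Bool → V) (β : V → B) (Ω : Finset (V → Bool)) (U : Finset E) (j : E → Bool),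
    av w0 (fun w => Phi w0 β Ω fun i =>
        if i ∈ U then none else some (β (w (i, false)), β (w (i, true)), j i))
      = av w0 (mxH Ω (fun i => if i ∈ U then 0 else sgn (j i)) 0)

/-- the type counts of the pairing model are concentrated -/
def ZTypJ : Prop :=
  ∀ (V E B : Type) [Fintype V] [DecidableEq V] [Fintype E] [DecidableEq E] [Nonempty E]
    (w0 : E × Bool → V) (d : ℕ) (β : V → B) (γ : E → B) (U : Finset E) (f : Bool)
    (x : B × B × Bool) (t : ℝ), Deg w0 d → 0 ≤ t → (∀ b, 2 * nx γ b = d * nx β b) →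
    PD w0 (fun w J => t + 1 <
        |nx (fun i => if i ∈ U then none else some (β (w (i, false)), β (w (i, true)), f || J i))
            (some x)
          - ((Fintype.card E : ℝ) - U.card) * avg fun ξ => ind (jt γ f ξ = x)|)
      ≤ 4 * Real.exp (-(t ^ 2 / (256 * Fintype.card E)))

/-- the joint end of the interpolation -/
def ZJoint : Prop :=
  ∀ (V E B : Type) [Fintype V] [DecidableEq V] [Fintype E] [DecidableEq E] [Nonempty E]
    [Fintype B] (w0 : E × Bool → V) (d : ℕ) (β : V → B) (γ : E → B) (Ω : Finset (V → Bool))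
    (U : Finset E) (f : Bool) (t : ℝ), Deg w0 d → Ω.Nonempty → 0 ≤ t →
    (∀ b, 2 * nx γ b = d * nx β b) → (∀ b, t * Fintype.card E ≤ U.card * (d * nx β b)) →
    avg (fun ω : E → E × E × Bool => Phi w0 β Ω (Tm U (jt γ f) ω))
      ≤ VV w0 ∅ ∅ (if f then univ else ∅) 0 Ω + (U.card + 8 * (Fintype.card B : ℝ) ^ 2 * (t + 1)
        + 40 * Fintype.card E * (Fintype.card B : ℝ) ^ 2
          * Real.exp (-(t ^ 2 / (256 * Fintype.card E))))

/-- the split end of the interpolation -/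
def ZSplitE : Prop :=
  ∀ (V E B : Type) [Fintype V] [DecidableEq V] [Fintype E] [DecidableEq E] [Nonempty E]
    [Fintype B] (w0 : E × Bool → V) (d : ℕ) (β : V → B) (γ : E → B) (Ω : Finset (V → Bool))
    (U A F : Finset E) (t : ℝ), Deg w0 d → Ω.Nonempty → 0 ≤ t →
    (∀ b, 2 * nx γ b = d * nx β b) → (∀ b, t * Fintype.card E ≤ U.card * (d * nx β b)) →
    avg (fun J : E → Bool => Phi w0 β Ω (T0 γ A F J))
      ≤ avg (fun ω : E → E × E × Bool => Phi w0 β Ω (Tm U (st γ A F) ω))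
        + (4 * U.card + 8 * (Fintype.card B : ℝ) ^ 2 * (t + 1)
          + 40 * Fintype.card E * (Fintype.card B : ℝ) ^ 2
            * Real.exp (-(t ^ 2 / (256 * Fintype.card E))))

/-- given a block diagonal pattern the blocks are independent pairing models -/
def ZProd : Prop :=
  ∀ (B : Type) [Fintype B] [DecidableEq B] (Vb Eb : B → Type) [∀ b, Fintype (Vb b)]
    [∀ b, DecidableEq (Vb b)] [∀ b, Fintype (Eb b)] [∀ b, DecidableEq (Eb b)]
    (wb : ∀ b, Eb b × Bool → Vb b) (A F : Finset (Σ b, Eb b)) (Ω : Finset ((Σ b, Vb b) → Bool)),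
    SV wb A F Ω = avg fun J : (Σ b, Eb b) → Bool => Phi (sg wb) Sigma.fst Ω (T0 Sigma.fst A F J)

/-- the block interpolation inequality -/
def ZInt : Prop :=
  ∀ (d : ℕ) (p0 η : ℝ), 1 ≤ d → 0 < p0 → 0 < η → ∃ N0 : ℕ,
    ∀ (B : Type) [Fintype B] [DecidableEq B] (Vb Eb : B → Type) [∀ b, Fintype (Vb b)]
      [∀ b, DecidableEq (Vb b)] [∀ b, Fintype (Eb b)] [∀ b, DecidableEq (Eb b)]
      (wb : ∀ b, Eb b × Bool → Vb b) (A F : Finset (Σ b, Eb b)) (f : Bool)
      (Ω : Finset ((Σ b, Vb b) → Bool)), (∀ b, Deg (wb b) d) → N0 ≤ Fintype.card (Σ b, Vb b) →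
      (∀ b, p0 * Fintype.card (Σ b, Vb b) ≤ Fintype.card (Vb b)) → Ω.Nonempty →
      (∀ y : B → ℝ, avg (fun i : Σ b, Eb b => cm A F i * y i.1 ^ 2)
        ≤ (if f then 1 else 0) * avg (fun i : Σ b, Eb b => y i.1) ^ 2) →
      SV wb A F Ω ≤ VV (sg wb) ∅ ∅ (if f then univ else ∅) 0 Ω + η * Fintype.card (Σ b, Vb b)

/-- gluing optimal configurations of independent blocks -/
def ZSplit : Prop :=
  ∀ (B : Type) [Fintype B] [DecidableEq B] (Vb Eb : B → Type) [∀ b, Fintype (Vb b)]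
    [∀ b, DecidableEq (Vb b)] [∀ b, Fintype (Eb b)] [∀ b, DecidableEq (Eb b)]
    (wb : ∀ b, Eb b × Bool → Vb b) (Ab Fb : ∀ b, Finset (Eb b)) (b0 : B)
    (Ω0 : Finset (Vb b0 → Bool)) (Om : ℝ → ∀ b, Finset (Vb b → Bool)) (L : B → ℝ)
    (Ω : Finset ((Σ b, Vb b) → Bool)), Ω0.Nonempty →
    (∀ σ0 ∈ Ω0, ∀ b, b ≠ b0 → (Om (mag σ0) b).Nonempty ∧
      L b ≤ VV (wb b) ∅ (Ab b) (Fb b) 0 (Om (mag σ0) b)) →
    (∀ σ : (Σ b, Vb b) → Bool, (fun v => σ ⟨b0, v⟩) ∈ Ω0 →
      (∀ b, b ≠ b0 → (fun v => σ ⟨b, v⟩) ∈ Om (mag fun v => σ ⟨b0, v⟩) b) → σ ∈ Ω) →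
    Ω.Nonempty ∧ VV (wb b0) ∅ (Ab b0) (Fb b0) 0 Ω0 + ∑ b ∈ univ.erase b0, L b
      ≤ SV wb (univ.sigma Ab) (univ.sigma Fb) Ω

/-! ### entropy -/

/-- entropy bound for a rigid system -/
def ZLay : Prop :=
  ∀ (V E : Type) [Fintype V] [DecidableEq V] [Fintype E] [DecidableEq E]
    (Ω : Finset (V → Bool)) (s : E → ℝ) (B : ℝ) (w : E × Bool → V) (d a0 : ℕ) (β x L : ℝ),
    Ω.Nonempty → 1 ≤ d → (∀ i, |s i| ≤ 1) → |B| ≤ 1 → Rg d a0 Ω s B w → 0 < β → 0 < x → x ≤ 1 →
    -Real.log x ≤ L →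
    lzH Ω β s B w ≤ β * mxH Ω s B w
      + (β + Real.log (2 * ((Fintype.card E : ℝ) + Fintype.card V) + 1) + 3 * L * ((a0 : ℝ) + 1)
        + x * (Fintype.card V : ℝ) + 55296 * L ^ 3 * (Fintype.card V : ℝ) / ((d : ℝ) * β ^ 2))

/-- two sign patterns that shatter the same set are close -/
def ZRigD : Prop :=
  ∀ (V E : Type) [Fintype V] [DecidableEq V] [Fintype E] [DecidableEq E]
    (Ω : Finset (V → Bool)) (U A F : Finset E) (B : ℝ) (w : E × Bool → V) (J J' : E → Bool)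
    (A1 B1 : Finset V) (l : ℝ), Disjoint A1 B1 → Disjoint B1 (badV w) →
    (∀ i, J i ≠ J' i → i ∉ U ∧ i ∉ A ∧ i ∉ F ∧ w (i, false) ∈ A1 ∧ w (i, true) ∈ B1) →
    Shat (nr Ω (cp U A F J) B w l) (A1 ∪ B1) → Shat (nr Ω (cp U A F J') B w l) (A1 ∪ B1) →
    ∑ v ∈ B1, Real.sqrt (univ.filter fun i => J i ≠ J' i ∧ w (i, true) = v).card ≤ l

/-- many evenly spread fair slots between two large sets -/
def ZRigG : Prop :=
  ∀ (V E : Type) [Fintype V] [DecidableEq V] [Fintype E] [DecidableEq E]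
    (w : E × Bool → V) (d a : ℕ) (U A : Finset E) (A1 B1 : Finset V), 3 ≤ d → G3 d U A w →
    A1.card = a → B1.card = a → 1 ≤ a → 2560 * ell d * Fintype.card V ≤ d * a →
    ∃ (I : Finset E) (n0 : ℕ),
      (∀ i ∈ I, i ∉ U ∧ i ∉ A ∧ w (i, false) ∈ A1 ∧ w (i, true) ∈ B1) ∧
      (∀ v, (I.filter fun i => w (i, true) = v).card ≤ n0) ∧
      (d : ℝ) * a ≤ 32 * Fintype.card V * n0 ∧ n0 * a ≤ 2 * I.card

/-- a family of sign patterns with small diameter on I is small -/
def ZRigP : Prop :=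
  ∀ (E : Type) [Fintype E] [DecidableEq E] (S : (E → Bool) → Prop) (I : Finset E),
    (∀ J J', S J → S J' → (∀ i, i ∉ I → J i = J' i) →
      4 * (I.filter fun i => J i ≠ J' i).card ≤ I.card) →
    avg (fun J => ind (S J)) ≤ Real.exp (-((I.card : ℝ) / 8))

/-- rigidity holds for most sign patterns -/
def ZRigU : Prop :=
  ∀ (V E : Type) [Fintype V] [DecidableEq V] [Fintype E] [DecidableEq E]
    (Ω : Finset (V → Bool)) (U A F : Finset E) (B : ℝ) (w : E × Bool → V) (d a0 : ℕ), 3 ≤ d →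
    G3 d U (A ∪ F) w → (badV w).card ≤ a0 → 1 ≤ a0 → 2560 * ell d * Fintype.card V ≤ d * a0 →
    avg (fun J : E → Bool => ind (¬ Rg d a0 Ω (cp U A F J) B w))
      ≤ (Fintype.card V + 1) * Real.exp (-(a0 : ℝ))

/-- entropy bound in mean -/
def ZB1m : Prop := ∃ C : ℝ, 0 < C ∧ ∀ᶠ d : ℕ in atTop, B1D C d

/-! ### gain -/

/-- the magnetisation after joining is controlled by the gain -/
def Ker (C : ℝ) : Prop :=
  ∀ (V E : Type) [Fintype V] [DecidableEq V] [Fintype E] [DecidableEq E]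
    (Ω : Finset (V → Bool)) (s : E → ℝ) (U : Finset E) (w : E × Bool → V) (j lam : ℝ),
    Ω.Nonempty → 1 ≤ U.card → |j| ≤ 1 → 0 < lam →
    0 ≤ GG Ω s U w ∧
      aQQ U (fun a b => (mm Ω s w a + j * Real.tanh 1 * mm Ω s w b)
        / (1 + j * Real.tanh 1 * cc Ω s w a b)) ≤ lam + C * GG Ω s U w / lam

def ZKer : Prop := ∃ C : ℝ, 1 ≤ C ∧ Ker C

/-- one step at inverse temperature one -/
def Step2 (C : ℝ) : Prop :=
  ∀ (V E : Type) [Fintype V] [DecidableEq V] [Fintype E] [DecidableEq E]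
    (w0 : E × Bool → V) (Ω : Finset (V → Bool)) (U : Finset E) (s : E → ℝ) (k : E), Ω.Nonempty →
    1 ≤ U.card → (∀ i ∈ U, s i = 0) → s k = 0 → k ∉ U →
    0 ≤ av w0 (GG Ω s U) ∧
      av w0 (lZ Ω Y1 1 (Function.update s k (-1))) + 2 * av w0 (GG Ω s U) - 2 / (U.card : ℝ)
        ≤ av w0 (lZ Ω Y1 1 (Function.update s k 1)) ∧
      ∀ (j c : Bool) (lam : ℝ), 0 < lam →
        av w0 (fun w => mm Ω (Function.update s k (sgn j)) w (k, c))
          ≤ lam + C * av w0 (GG Ω s U) / lam + 1 / (U.card : ℝ)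

def ZStep2 : Prop := ∀ C : ℝ, 1 ≤ C → Ker C → Step2 C

/-- one and two steps of the gain chain -/
def Two (c : ℝ) : Prop :=
  ∀ (V E : Type) [Fintype V] [DecidableEq V] [Fintype E] [DecidableEq E]
    (w0 : E × Bool → V) (d : ℕ) (Ω : Finset (V → Bool)) (f : Bool) (U T : Finset E) (i : E),
    Deg w0 d → Ω.Nonempty → 1 ≤ U.card → i ∉ U → i ∉ T →
    Fq w0 Ω f U T - 1 / (U.card : ℝ) ≤ Fq w0 Ω f U (insert i T) ∧
      ∀ (i' : E) (ν : ℝ), i' ∉ U → i' ∉ T → i' ≠ i → 0 < ν →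
        (∀ σ ∈ Ω, ν * Fintype.card V ≤ mag σ) → 4 * (U.card : ℝ) ≤ ν * Fintype.card E →
        4 ≤ ν * U.card →
        Fq w0 Ω f U T + c * ν ^ 2 - 2 / (U.card : ℝ) ≤ Fq w0 Ω f U (insert i' (insert i T))

def ZTwo : Prop := ∀ C : ℝ, 1 ≤ C → Step2 C → Two (1 / (16 * C))

def ZGain : Prop := ∀ c : ℝ, 0 < c → Two c → ∀ d : ℕ, 1 ≤ d → GainD (c / 2) d

/-! ### assembly -/

/-- a magnetisation window that costs little -/
def ZWin : Prop :=
  ∀ (d : ℕ) (c C w η : ℝ), 1 ≤ d → 0 ≤ c → 0 < w → 0 < η → B3D c d → B1D C d →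
    Big d fun V E _ _ _ _ w0 => ∀ B : ℝ, 1 / (d : ℝ) ≤ B → B ≤ 1 →
      ∃ ν : ℝ, c * B / (Real.sqrt d * ell d ^ 2) - w - η ≤ ν ∧ ν ≤ 1 ∧
        (win V ν (ν + w)).Nonempty ∧
        VV w0 (∅ : Finset E) ∅ ∅ 0 univ
            - (B * (ν + w) + C * ell d ^ 3 / d + η) * Fintype.card V
          ≤ VV w0 ∅ ∅ ∅ 0 (win V ν (ν + w))

/-- merging copies of a block with random signs -/
def ZMerge : Prop :=
  ∀ (d J0 : ℕ) (η : ℝ), 1 ≤ d → 0 < η → ∀ᶠ k : ℕ in atTop, ∀ (j : ℕ) (a b : ℝ), 1 ≤ j → j ≤ J0 →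
    (win (Fin (2 * k)) a b).Nonempty → (win (Fin (2 * (j * k))) a b).Nonempty ∧
      j * VV (cw d k) ∅ ∅ ∅ 0 (win (Fin (2 * k)) a b)
        ≤ VV (cw d (j * k)) ∅ ∅ ∅ 0 (win (Fin (2 * (j * k))) a b) + η * (2 * (j * k))

def ZBlk1 : Prop :=
  ∀ (c3 C cg : ℝ) (d : ℕ), 0 < c3 → 0 < C → 0 < cg → Num c3 C cg d → B3D c3 d → B1D C d →
    GainD cg d → Blk1 C cg d

def ZBlk2 : Prop :=
  ∀ (c3 C cg : ℝ) (d : ℕ), 0 < C → 0 < cg → Num c3 C cg d → PhiD d → B1D C d → GainD cg d →
    HypH d (qq d ^ 4 / 2) → Blk2 d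

/-- three blocks inside the balanced ferromagnet -/
def ZGlue : Prop :=
  ∀ (d : ℕ) (p0 η : ℝ), 1 ≤ d → 0 < p0 → 0 < η → ∃ K0 : ℕ, ∀ (k1 k2 k3 : ℕ) (τ L2 : ℝ)
    (F1 : Finset (Fin (k1 * d))) (A2 : Finset (Fin (k2 * d))) (Ω1 : Finset (Fin (2 * k1) → Bool)),
    K0 ≤ k1 + k2 + k3 → p0 * (k1 + k2 + k3) ≤ k1 → p0 * (k1 + k2 + k3) ≤ k2 →
    p0 * (k1 + k2 + k3) ≤ k3 → 0 ≤ τ → τ ≤ 1 →
    2 * (F1.card : ℝ) * (k1 + k2 + k3) ≤ τ * k1 * (k1 * d) → τ * (k2 * d) ≤ A2.card →
    Ω1.Nonempty →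
    (∀ σ ∈ Ω1, (magSet (Fin (2 * k2)) (-mag σ)).Nonempty ∧
      L2 ≤ VV (cw d k2) ∅ A2 ∅ 0 (magSet (Fin (2 * k2)) (-mag σ))) →
    VV (cw d k1) ∅ ∅ F1 0 Ω1 + L2 + af d k3 ≤ fe d (k1 + k2 + k3) + η * (2 * (k1 + k2 + k3))

/-- a linearly bounded sequence is not strictly superadditive at a linear rate -/
def ZSeq : Prop :=
  ∀ (a : ℕ → ℝ) (C c : ℝ), 0 < c → (∀ k, |a k| ≤ C * k) →
    ¬ ∀ K : ℕ, ∀ᶠ k : ℕ in atTop, ∃ j k1 k2 k3 : ℕ, K ≤ k1 ∧ K ≤ k2 ∧ K ≤ k3 ∧
      j * k1 + k2 + k3 = k ∧ j * a k1 + a k2 + a k3 + c * k ≤ a k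

def ZNum : Prop :=
  ∀ c3 C cg : ℝ, 0 < c3 → 0 < C → 0 < cg → ∀ᶠ d : ℕ in atTop, Num c3 C cg d

/-- the contradiction at a fixed degree -/
def ZZ : Prop :=
  ∀ (c3 C cg : ℝ) (d : ℕ), 0 < C → 0 < cg → Num c3 C cg d → Blk1 C cg d → Blk2 d →
    ¬ HypH d (qq d ^ 4 / 2)

open Classical in
/-- concentration and transfer to simple graphs -/
def ZTrans : Prop :=
  ∀ (d : ℕ) (γ : ℝ), 1 ≤ d → 0 < γ → ¬ HypH d γ → ∃ᶠ k : ℕ in atTop,
    (1 / 2 : ℝ) < ({G : SimpleGraph (Fin (2 * k)) | G.IsRegularOfDegree d ∧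
          γ < |sSup (vals G) + sInf (vals G)|}.ncard : ℝ)
        / ({G : SimpleGraph (Fin (2 * k)) | G.IsRegularOfDegree d}.ncard : ℝ)

end Pool.Agent.MP_32a90a_pr.D.AZ

end

section

set_option autoImplicit false
set_option linter.unusedSectionVars false

namespace Pool.Agent.MP_32a90a_pr.D.AZ

open Finset Equiv Filter Pool.Agent.MP_32a90a_pr Pool.Agent.MP_32a90a_pr.L

lemma abs_sgn (b : Bool) : |sgn b| = 1 := by cases b <;> simp [sgn]
lemma sgn_not (b : Bool) : sgn (!b) = -sgn b := by cases b <;> simp [sgn]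
lemma sgn_mul_self (b : Bool) : sgn b * sgn b = 1 := by cases b <;> simp [sgn]
@[simp] lemma sgn_true : sgn true = 1 := by simp [sgn]
@[simp] lemma sgn_false : sgn false = -1 := by simp [sgn]

lemma nx_eq_card {E X : Type} [Fintype E] [DecidableEq X] (T : E → X) (x : X) :
    nx T x = ((univ.filter fun i => T i = x).card : ℝ) := sum_ind _
lemma nx_nonneg {E X : Type} [Fintype E] (T : E → X) (x : X) : 0 ≤ nx T x :=
  sum_nonneg fun _ _ => ind_nonneg _
lemma ct_nonneg {B : Type} (b : B) (o : Ty B) : 0 ≤ ct b o := by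
  cases o
  · exact le_rfl
  · exact add_nonneg (ind_nonneg _) (ind_nonneg _)
lemma ct_le_two {B : Type} (b : B) (o : Ty B) : ct b o ≤ 2 := by
  cases o
  · exact zero_le_two
  · exact (add_le_add (ind_le_one _) (ind_le_one _)).trans_eq one_add_one_eq_two

lemma cw_deg (d k : ℕ) : Deg (cw d k) d := by
  intro v
  unfold cw
  generalize (Fintype.equivOfCardEq _ : Fin (k * d) × Bool ≃ Fin (2 * k) × Fin d) = e
  have : (univ.filter fun p => (e p).1 = v).card = (univ : Finset (Fin d)).card := by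
    refine card_bij (fun p _ => (e p).2) (by simp) ?_ ?_
    · intro p hp q hq h
      simp only [mem_filter, mem_univ, true_and] at hp hq
      exact e.injective (Prod.ext (hp.trans hq.symm) h)
    · intro j _
      exact ⟨e.symm (v, j), by simp, by simp⟩
  simpa using this

/-- a property of all large models holds eventually for the canonical models -/
lemma big_cw {d : ℕ} {P : ∀ (V E : Type) [Fintype V] [DecidableEq V] [Fintype E] [DecidableEq E],
    (E × Bool → V) → Prop} (h : Big d P) :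
    ∀ᶠ k : ℕ in atTop, ∀ k', k ≤ k' → P (Fin (2 * k')) (Fin (k' * d)) (cw d k') := by
  obtain ⟨N0, h⟩ := h
  filter_upwards [eventually_ge_atTop N0] with k hk k' hk'
  exact h _ _ _ (cw_deg d k') (by rw [Fintype.card_fin]; omega)

section
variable {V E : Type} [Fintype V] [DecidableEq V] [Fintype E] [DecidableEq E]
  {Ω Ω' : Finset (V → Bool)} {s s' : E → ℝ} {B B' β β' : ℝ} {w w' w0 : E × Bool → V}
  {U A F : Finset E} {d : ℕ}

lemma cp_cases (U A F : Finset E) (J : E → Bool) (i : E) :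
    cp U A F J i = 0 ∨ cp U A F J i = 1 ∨ cp U A F J i = -1 := by
  unfold cp
  split_ifs
  · exact Or.inl rfl
  · exact Or.inr (Or.inr rfl)
  · exact Or.inr (Or.inl rfl)
  · exact Or.inr (sgn_cases _)

lemma abs_cp_le (U A F : Finset E) (J : E → Bool) (i : E) : |cp U A F J i| ≤ 1 := by
  rcases cp_cases U A F J i with h | h | h <;> simp [h]

lemma cp_eq_jj (A F : Finset E) (J : E → Bool) (i : E) : cp ∅ A F J i = sgn (jj A F i (J i)) := by
  unfold cp jj
  split_ifs <;> simp_all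

lemma sT_cases {C : Type} (T : E → Ty C) (i : E) : sT T i = 0 ∨ sT T i = 1 ∨ sT T i = -1 := by
  unfold sT
  cases T i
  · exact Or.inl rfl
  · exact Or.inr (sgn_cases _)

lemma abs_sT_le {C : Type} (T : E → Ty C) (i : E) : |sT T i| ≤ 1 := by
  rcases sT_cases T i with h | h | h <;> simp [h]

lemma abs_mag_le (σ : V → Bool) : |mag σ| ≤ Fintype.card V := by
  refine (abs_sum_le_sum_abs _ _).trans (le_of_eq ?_)
  simp only [abs_sgn, sum_const, card_univ, nsmul_eq_mul, mul_one]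

lemma mag_not (σ : V → Bool) : mag (fun v => !σ v) = -mag σ := by
  simp [mag, sgn_not]

lemma mag_eq (σ : V → Bool) :
    mag σ = 2 * ((univ.filter fun v => σ v = true).card : ℝ) - Fintype.card V := by
  have h : ∀ v, sgn (σ v) = 2 * (if σ v = true then (1 : ℝ) else 0) - 1 := fun v => by
    cases σ v <;> norm_num
  simp only [mag, h, sum_sub_distrib, ← mul_sum, sum_boole, sum_const, card_univ, nsmul_eq_mul,
    mul_one]

/-- a nonnegative magnetisation is a natural number of the parity of the volume -/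
lemma mag_nat {σ : V → Bool} (h : 0 ≤ mag σ) :
    ∃ M : ℕ, mag σ = M ∧ Even (M + Fintype.card V) := by
  rw [mag_eq, sub_nonneg] at h
  have h1 : Fintype.card V ≤ 2 * (univ.filter fun v => σ v = true).card := by exact_mod_cast h
  refine ⟨2 * (univ.filter fun v => σ v = true).card - Fintype.card V, ?_, ?_⟩
  · rw [mag_eq, Nat.cast_sub h1]
    norm_num
  · rw [Nat.sub_add_cancel h1]
    exact even_two_mul _

lemma mem_magSet {M : ℝ} {σ : V → Bool} : σ ∈ magSet V M ↔ mag σ = M := by simp [magSet]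

lemma mem_win {a b : ℝ} {σ : V → Bool} :
    σ ∈ win V a b ↔ a * Fintype.card V ≤ mag σ ∧ mag σ ≤ b * Fintype.card V := by simp [win]

lemma magSet_zero : magSet V 0 = bal V := by
  ext σ
  rw [mem_magSet, mem_bal, mag]

lemma magSet_nonempty {M : ℕ} (h : Even (M + Fintype.card V)) (hM : M ≤ Fintype.card V) :
    (magSet V M).Nonempty := by
  obtain ⟨r, hr⟩ := h
  obtain ⟨X, -, hX⟩ := exists_subset_card_eq (s := (univ : Finset V)) (n := r)
    (by rw [card_univ]; omega)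
  refine ⟨fun v => decide (v ∈ X), mem_magSet.2 ?_⟩
  have hr' : (M : ℝ) + Fintype.card V = r + r := by exact_mod_cast hr
  rw [mag_eq]
  simp only [decide_eq_true_eq, filter_mem_eq_inter, univ_inter, hX]
  linarith

lemma magSet_neg_nonempty {M : ℝ} (h : (magSet V M).Nonempty) : (magSet V (-M)).Nonempty := by
  obtain ⟨σ, hσ⟩ := h
  exact ⟨fun v => !σ v, mem_magSet.2 (by rw [mag_not, mem_magSet.1 hσ])⟩

lemma magSet_zero_nonempty (h : Even (Fintype.card V)) : (magSet V 0).Nonempty := by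
  simpa using magSet_nonempty (V := V) (M := 0) (by simpa using h) (Nat.zero_le _)

lemma HH_zero (s : E → ℝ) (w : E × Bool → V) (σ : V → Bool) : HH s 0 w σ = en Y1 s w σ := by
  simp [HH]

lemma mxH_zero (Ω : Finset (V → Bool)) (s : E → ℝ) : mxH Ω s 0 = mx (E := E) Ω Y1 s := by
  funext w
  simp [mxH, mx, HH]

lemma lzH_zero (Ω : Finset (V → Bool)) (β : ℝ) (s : E → ℝ) :
    lzH Ω β s 0 = lZ (E := E) Ω Y1 β s := by
  funext w
  simp [lzH, lZ, bw, HH]

lemma le_mxH {σ : V → Bool} (h : σ ∈ Ω) : HH s B w σ ≤ mxH Ω s B w :=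
  le_ciSup (f := fun σ : Ω => HH s B w σ) (Set.finite_range _).bddAbove ⟨σ, h⟩

lemma exists_mxH (h : Ω.Nonempty) : ∃ σ ∈ Ω, HH s B w σ = mxH Ω s B w := by
  have := h.to_subtype
  obtain ⟨x, hx⟩ := exists_eq_ciSup_of_finite (f := fun σ : Ω => HH s B w σ)
  exact ⟨x.1, x.2, hx⟩

lemma mxH_le (h : Ω.Nonempty) {c : ℝ} (hc : ∀ σ ∈ Ω, HH s B w σ ≤ c) : mxH Ω s B w ≤ c := by
  obtain ⟨σ, hσ, e⟩ := exists_mxH (s := s) (B := B) (w := w) h
  exact e ▸ hc σ hσ

lemma mxH_le_add (h : Ω.Nonempty) {c : ℝ} (hc : ∀ σ ∈ Ω, HH s B w σ ≤ HH s' B' w' σ + c) :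
    mxH Ω s B w ≤ mxH Ω s' B' w' + c :=
  mxH_le h fun σ hσ => (hc σ hσ).trans (by linarith [le_mxH (s := s') (B := B') (w := w') hσ])

lemma mxH_mono (h : Ω.Nonempty) (hs : Ω ⊆ Ω') : mxH Ω s B w ≤ mxH Ω' s B w :=
  mxH_le h fun _ hσ => le_mxH (hs hσ)

lemma le_mxJ {j : ℝ} {u v : V} {σ : V → Bool} (h : σ ∈ Ω) :
    HH s 0 w σ + j * Y1 σ u v ≤ mxJ Ω s w j u v :=
  le_ciSup (f := fun σ : Ω => HH s 0 w σ + j * Y1 σ u v) (Set.finite_range _).bddAbove ⟨σ, h⟩

lemma exists_mxJ (h : Ω.Nonempty) (j : ℝ) (u v : V) :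
    ∃ σ ∈ Ω, HH s 0 w σ + j * Y1 σ u v = mxJ Ω s w j u v := by
  have := h.to_subtype
  obtain ⟨x, hx⟩ := exists_eq_ciSup_of_finite (f := fun σ : Ω => HH s 0 w σ + j * Y1 σ u v)
  exact ⟨x.1, x.2, hx⟩

lemma abs_mxJ_sub (h : Ω.Nonempty) {j : ℝ} (hj : |j| ≤ 1) (u v : V) :
    |mxJ Ω s w j u v - mxH Ω s 0 w| ≤ 1 := by
  have k : ∀ σ : V → Bool, |j * Y1 σ u v| ≤ 1 := fun σ => by
    rw [abs_mul]
    exact mul_le_one₀ hj (abs_nonneg _) (abs_Y1 σ u v)
  obtain ⟨σ, h1, e1⟩ := exists_mxJ (s := s) (w := w) h j u v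
  obtain ⟨τ, h2, e2⟩ := exists_mxH (s := s) (B := 0) (w := w) h
  have a1 := le_mxH (s := s) (B := 0) (w := w) h1
  have a2 := le_mxJ (s := s) (w := w) (j := j) (u := u) (v := v) h2
  rw [abs_le]
  constructor <;> linarith [abs_le.1 (k σ), abs_le.1 (k τ)]

lemma sum_exp_pos (h : Ω.Nonempty) : 0 < ∑ σ ∈ Ω, Real.exp (β * HH s B w σ) :=
  sum_pos (fun _ _ => Real.exp_pos _) h

lemma lzH_le_add (h : Ω.Nonempty) {c : ℝ}
    (hc : ∀ σ ∈ Ω, β * HH s B w σ ≤ β' * HH s' B' w' σ + c) :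
    lzH Ω β s B w ≤ lzH Ω β' s' B' w' + c := by
  unfold lzH
  rw [← Real.log_exp c, ← Real.log_mul (sum_exp_pos h).ne' (Real.exp_pos c).ne', sum_mul]
  refine Real.log_le_log (sum_exp_pos h) (sum_le_sum fun σ hσ => ?_)
  rw [← Real.exp_add]
  exact Real.exp_le_exp.2 (hc σ hσ)

lemma lzH_mono (h : Ω.Nonempty) (hs : Ω ⊆ Ω') : lzH Ω β s B w ≤ lzH Ω' β s B w :=
  Real.log_le_log (sum_exp_pos h)
    (sum_le_sum_of_subset_of_nonneg hs fun _ _ _ => (Real.exp_pos _).le)

lemma mul_mxH_le_lzH (h : Ω.Nonempty) : β * mxH Ω s B w ≤ lzH Ω β s B w := by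
  obtain ⟨σ, hσ, e⟩ := exists_mxH (s := s) (B := B) (w := w) h
  rw [← e, lzH, Real.le_log_iff_exp_le (sum_exp_pos h)]
  exact single_le_sum (f := fun σ => Real.exp (β * HH s B w σ))
    (fun _ _ => (Real.exp_pos _).le) hσ

lemma lzH_le_mxH (h : Ω.Nonempty) (hβ : 0 ≤ β) :
    lzH Ω β s B w ≤ β * mxH Ω s B w + Fintype.card V := by
  rw [lzH, Real.log_le_iff_le_exp (sum_exp_pos h), Real.exp_add, mul_comm]
  refine (sum_le_card_nsmul _ _ (Real.exp (β * mxH Ω s B w)) fun σ hσ =>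
    Real.exp_le_exp.2 (mul_le_mul_of_nonneg_left (le_mxH hσ) hβ)).trans ?_
  rw [nsmul_eq_mul]
  refine mul_le_mul_of_nonneg_right ?_ (Real.exp_pos _).le
  have h1 : (Ω.card : ℝ) ≤ 2 ^ Fintype.card V := by
    have := card_le_univ Ω
    rw [Fintype.card_fun, Fintype.card_bool] at this
    exact_mod_cast this
  refine h1.trans ?_
  rw [← Real.exp_one_pow]
  exact pow_le_pow_left₀ zero_le_two (by linarith [Real.add_one_le_exp 1]) _

lemma abs_en_le (hs : ∀ i, |s i| ≤ 1) (σ : V → Bool) : |en Y1 s w σ| ≤ Fintype.card E := by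
  refine (abs_sum_le_sum_abs _ _).trans ((sum_le_card_nsmul _ _ 1 fun i _ => ?_).trans (by simp))
  rw [abs_mul]
  exact mul_le_one₀ (hs i) (abs_nonneg _) (abs_Y1 _ _ _)

lemma abs_mxH_le (hs : ∀ i, |s i| ≤ 1) : |mxH Ω s 0 w| ≤ Fintype.card E := by
  rcases Ω.eq_empty_or_nonempty with rfl | h
  · simp [mxH]
  · obtain ⟨σ, -, e⟩ := exists_mxH (s := s) (B := 0) (w := w) h
    rw [← e, HH_zero]
    exact abs_en_le hs σ

/-- changing the couplings by at most c on X -/
lemma HH_le_of_eq_off (X : Finset E) {c : ℝ} (h1 : ∀ i, i ∉ X → s i = s' i)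
    (h2 : ∀ i ∈ X, |s i - s' i| ≤ c) (σ : V → Bool) : HH s B w σ ≤ HH s' B w σ + c * X.card := by
  have : en Y1 s w σ - en Y1 s' w σ ≤ c * X.card := by
    rw [en, en, ← sum_sub_distrib, ← sum_subset (subset_univ X) fun i _ hi => by
      rw [h1 i hi, sub_self], mul_comm, ← nsmul_eq_mul]
    refine sum_le_card_nsmul _ _ _ fun i hi => (le_abs_self _).trans ?_
    rw [← sub_mul, abs_mul]
    exact (mul_le_of_le_one_right (abs_nonneg _) (abs_Y1 _ _ _)).trans (h2 i hi)
  unfold HH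
  linarith

lemma HH_swap (hs : ∀ i, |s i| ≤ 1) (a b : E × Bool) (σ : V → Bool) :
    |HH s B (w ∘ swap a b) σ - HH s B w σ| ≤ 4 := by
  have := en_swap (y := 1) (Y := Y1) abs_Y1 hs w a b σ
  simpa [HH] using this

lemma abs_cp_sub_idle (U A F : Finset E) (J : E → Bool) :
    (∀ i, i ∉ U → cp U A F J i = cp ∅ A F J i) ∧ ∀ i ∈ U, |cp U A F J i - cp ∅ A F J i| ≤ 1 := by
  refine ⟨fun i hi => by simp [cp, hi], fun i hi => ?_⟩
  have : cp U A F J i = 0 := by simp [cp, hi]
  rw [this, zero_sub, abs_neg]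
  exact abs_cp_le _ _ _ _ _

lemma ED_le_add {Φ Ψ : (E × Bool → V) → (E → Bool) → ℝ} {c : ℝ} (h : ∀ w J, Φ w J ≤ Ψ w J + c) :
    ED w0 Φ ≤ ED w0 Ψ + c := by
  refine (ED_mono h).trans_eq ?_
  rw [ED_add, ED_const]

lemma ED_comm (Φ : (E × Bool → V) → (E → Bool) → ℝ) :
    ED w0 Φ = avg fun J => av w0 fun w => Φ w J :=
  avg_comm fun (π : Perm (E × Bool)) J => Φ (w0 ∘ π) J

lemma ED_update (i : E) (Φ : (E × Bool → V) → (E → Bool) → ℝ) :
    ED w0 Φ = ED w0 fun w J => (Φ w (Function.update J i true) + Φ w (Function.update J i false))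
      / 2 := by
  unfold ED
  refine congrArg _ (funext fun w => ?_)
  rw [avg_update i]
  exact avg_congr fun J => avg_bool _

lemma VV_idle (h : Ω.Nonempty) :
    VV w0 U A F B Ω ≤ VV w0 ∅ A F B Ω + U.card ∧ VV w0 ∅ A F B Ω ≤ VV w0 U A F B Ω + U.card := by
  constructor <;> refine ED_le_add fun w J => mxH_le_add h fun σ _ => ?_
  · simpa using HH_le_of_eq_off U (abs_cp_sub_idle U A F J).1 (abs_cp_sub_idle U A F J).2 σ
  · simpa using HH_le_of_eq_off (B := B) (w := w) (c := 1) U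
      (fun i hi => ((abs_cp_sub_idle U A F J).1 i hi).symm)
      (fun i hi => by rw [abs_sub_comm]; exact (abs_cp_sub_idle U A F J).2 i hi) σ

lemma FF_idle (h : Ω.Nonempty) :
    FF w0 U A F 1 B Ω ≤ FF w0 ∅ A F 1 B Ω + U.card ∧
      FF w0 ∅ A F 1 B Ω ≤ FF w0 U A F 1 B Ω + U.card := by
  constructor <;> refine ED_le_add fun w J => lzH_le_add h fun σ _ => ?_
  · simpa using HH_le_of_eq_off U (abs_cp_sub_idle U A F J).1 (abs_cp_sub_idle U A F J).2 σ
  · simpa using HH_le_of_eq_off (B := B) (w := w) (c := 1) U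
      (fun i hi => ((abs_cp_sub_idle U A F J).1 i hi).symm)
      (fun i hi => by rw [abs_sub_comm]; exact (abs_cp_sub_idle U A F J).2 i hi) σ

lemma VV_mono (h : Ω.Nonempty) (hs : Ω ⊆ Ω') : VV w0 U A F B Ω ≤ VV w0 U A F B Ω' :=
  ED_mono fun _ _ => mxH_mono h hs

lemma FF_mono (h : Ω.Nonempty) (hs : Ω ⊆ Ω') : FF w0 U A F β B Ω ≤ FF w0 U A F β B Ω' :=
  ED_mono fun _ _ => lzH_mono h hs

lemma VV_le_FF (h : Ω.Nonempty) : VV w0 U A F B Ω ≤ FF w0 U A F 1 B Ω :=
  ED_mono fun _ _ => (one_mul _).symm.trans_le (mul_mxH_le_lzH h)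

lemma abs_VV_le : |VV w0 U A F 0 Ω| ≤ Fintype.card E :=
  abs_le.2 ⟨const_le_ED fun _ J => (abs_le.1 (abs_mxH_le (abs_cp_le U A F J))).1,
    ED_le_const fun _ J => (abs_le.1 (abs_mxH_le (abs_cp_le U A F J))).2⟩

lemma VV_neg {M : ℝ} (h : (magSet V M).Nonempty) :
    VV w0 U A F 0 (magSet V M) ≤ VV w0 U A F 0 (magSet V (-M)) := by
  refine ED_mono fun w J => mxH_le h fun σ hσ => le_trans (le_of_eq ?_)
    (le_mxH (σ := fun v => !σ v) (mem_magSet.2 (by rw [mag_not, mem_magSet.1 hσ])))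
  simp [HH, en, Y1, sgn_not]

lemma ms_nonneg {C : Type} (γ : V → C) (T : E → Ty C) : 0 ≤ ms w0 γ T :=
  const_le_av fun _ => ind_nonneg _

lemma ms_pos {C : Type} {γ : V → C} {T : E → Ty C} (π : Perm (E × Bool)) (h : mt γ T (w0 ∘ π)) :
    0 < ms w0 γ T :=
  div_pos (sum_pos' (fun _ _ => ind_nonneg _) ⟨π, mem_univ _, one_pos.trans_eq (ind_pos h).symm⟩)
    card_perm_pos

lemma abs_Phi_le {C : Type} (γ : V → C) (T : E → Ty C) : |Phi w0 γ Ω T| ≤ Fintype.card E := by
  rcases (ms_nonneg (w0 := w0) γ T).eq_or_lt with h | h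
  · simp [Phi, ← h]
  · rw [Phi, abs_div, abs_of_pos h, div_le_iff₀ h, ms, ← av_mul, abs_le, ← av_neg]
    constructor <;> refine av_mono fun w => ?_ <;>
      nlinarith [abs_le.1 (abs_mxH_le (Ω := Ω) (w := w) (abs_sT_le T)), ind_nonneg (mt γ T w)]

/-- two arrangements of the same degree differ by a permutation -/
lemma exists_perm (h0 : Deg w0 d) (h : Deg w d) : ∃ τ : Perm (E × Bool), w0 ∘ τ = w := by
  have e : ∀ v, {p // w p = v} ≃ {p // w0 p = v} := fun v => Fintype.equivOfCardEq (by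
    rw [Fintype.card_subtype, Fintype.card_subtype, h v, h0 v])
  exact ⟨Equiv.ofFiberEquiv e, funext fun p => Equiv.ofFiberEquiv_map e p⟩

lemma av_indep (h0 : Deg w0 d) (h : Deg w d) (G : (E × Bool → V) → ℝ) : av w G = av w0 G := by
  obtain ⟨τ, rfl⟩ := exists_perm h0 h
  unfold av
  exact congrArg (· / _) (Equiv.sum_comp (Equiv.mulLeft τ) fun π => G (w0 ∘ π))

/-- relabelling of the slots -/
lemma ED_slot (ρ : Perm E) (Φ : (E × Bool → V) → (E → Bool) → ℝ) :
    ED w0 Φ = ED w0 fun w J => Φ (fun p => w (ρ p.1, p.2)) fun i => J (ρ i) := by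
  unfold ED
  rw [← av_comp (ρ.prodCongr (Equiv.refl Bool))]
  refine congrArg _ (funext fun w => ?_)
  exact (avg_equiv (Equiv.arrowCongr ρ.symm (Equiv.refl Bool)) _).symm

end

section
variable {V E V' E' : Type} [Fintype V] [DecidableEq V] [Fintype E] [DecidableEq E]
  [Fintype V'] [DecidableEq V'] [Fintype E'] [DecidableEq E'] {w0 : E × Bool → V}
  {w0' : E' × Bool → V'} {d : ℕ}

/-- transport of averages along bijections of the vertices and of the slots -/
lemma ED_tr (h : Deg w0 d) (h' : Deg w0' d) (e : V ≃ V') (f : E ≃ E')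
    (Φ : (E × Bool → V) → (E → Bool) → ℝ) :
    ED w0 Φ = ED w0' fun w J => Φ (fun p => e.symm (w (f p.1, p.2))) fun i => J (f i) := by
  let g := f.prodCongr (Equiv.refl Bool)
  have h1 : Deg (fun p => e.symm (w0' (g p))) d := fun v => by
    rw [← h' (e v)]
    exact card_bij (fun p _ => g p) (by simp [Equiv.symm_apply_eq]) (by simp)
      fun q hq => ⟨g.symm q, by simpa [Equiv.symm_apply_eq] using hq, by simp⟩
  unfold ED
  rw [← av_indep h h1]
  refine (avg_equiv g.symm.permCongr _).symm.trans (avg_congr fun π => ?_)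
  refine (avg_equiv (Equiv.arrowCongr f.symm (Equiv.refl Bool)) _).symm.trans
    (avg_congr fun J => ?_)
  refine congrArg₂ Φ (funext fun p => ?_) rfl
  exact congrArg (fun q => e.symm (w0' q)) (g.apply_symm_apply _)

lemma mag_comp (e : V ≃ V') (σ : V' → Bool) : mag (σ ∘ e) = mag σ :=
  Equiv.sum_comp e fun v => sgn (σ v)

/-- models of the same size with constant slot classes have the same value -/
lemma VV_same (h : Deg w0 d) (h' : Deg w0' d) (hc : Fintype.card V = Fintype.card V')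
    (P : ℝ → Prop) {Ω : Finset (V → Bool)} {Ω' : Finset (V' → Bool)}
    (hΩ : ∀ σ, σ ∈ Ω ↔ P (mag σ)) (hΩ' : ∀ σ, σ ∈ Ω' ↔ P (mag σ)) (a f : Bool) :
    (Ω.Nonempty ↔ Ω'.Nonempty) ∧
      VV w0 ∅ (if a then univ else ∅) (if f then univ else ∅) 0 Ω
        = VV w0' ∅ (if a then univ else ∅) (if f then univ else ∅) 0 Ω' := by
  have e : V ≃ V' := Fintype.equivOfCardEq hc
  have g : E ≃ E' := Fintype.equivOfCardEq (by
    have := (card_half h).trans ((congrArg (fun n : ℕ => (d : ℝ) * n) hc).trans (card_half h').symm)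
    exact_mod_cast mul_left_cancel₀ two_ne_zero this)
  let t : Ω' ≃ Ω := (Equiv.arrowCongr e.symm (Equiv.refl Bool)).subtypeEquiv fun σ => by
    rw [hΩ, hΩ']
    exact (congrArg P (mag_comp e σ)).symm.to_iff
  refine ⟨by rw [← nonempty_coe_sort, ← nonempty_coe_sort, t.nonempty_congr], ?_⟩
  unfold VV
  rw [ED_tr h h' e g]
  refine congrArg _ (funext fun w => funext fun J => ?_)
  unfold mxH
  rw [← t.iSup_comp]
  refine iSup_congr fun σ => ?_
  rw [HH_zero, HH_zero, en, en, ← Equiv.sum_comp g]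
  refine sum_congr rfl fun i _ => ?_
  cases a <;> cases f <;> simp [cp, t, Y1]

end

lemma abs_af_le (d k : ℕ) : |af d k| ≤ d * k := by
  refine abs_VV_le.trans (le_of_eq ?_)
  rw [Fintype.card_fin, Nat.cast_mul, mul_comm]

section
variable {B : Type} [Fintype B] [DecidableEq B] {Vb Eb : B → Type} [∀ b, Fintype (Vb b)]
  [∀ b, DecidableEq (Vb b)] [∀ b, Fintype (Eb b)] [∀ b, DecidableEq (Eb b)]

lemma sg_deg {wb : ∀ b, Eb b × Bool → Vb b} {d : ℕ} (h : ∀ b, Deg (wb b) d) : Deg (sg wb) d := by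
  rintro ⟨b, v⟩
  rw [← h b v]
  refine (card_bij (fun p _ => (⟨b, p.1⟩, p.2)) ?_ ?_ ?_).symm
  · intro p hp
    simp only [mem_filter, mem_univ, true_and] at hp ⊢
    simp [sg, hp]
  · intro p _ q _ e
    simp only [Prod.mk.injEq, Sigma.mk.injEq, heq_eq_eq, true_and] at e
    exact Prod.ext e.1 e.2
  · rintro ⟨⟨c, i⟩, t⟩ hq
    obtain ⟨rfl, hq⟩ := Sigma.mk.inj_iff.1 (mem_filter.1 hq).2
    exact ⟨(i, t), mem_filter.2 ⟨mem_univ _, eq_of_heq hq⟩, rfl⟩

lemma mag_sigma (σ : (Σ b, Vb b) → Bool) : mag σ = ∑ b, mag fun v => σ ⟨b, v⟩ :=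
  Fintype.sum_sigma _

lemma nx_fst (b : B) : nx (Sigma.fst : (Σ b, Vb b) → B) b = Fintype.card (Vb b) := by
  rw [nx, Fintype.sum_sigma, sum_eq_single b (fun c _ hc => by simp [ind_neg hc]) (by simp)]
  simp [ind_pos]

end

end Pool.Agent.MP_32a90a_pr.D.AZ

end

section

set_option autoImplicit false

namespace Pool.Agent.MP_32a90a_pr.D.AZ

open Finset Equiv Filter Pool.Agent.MP_32a90a_pr Pool.Agent.MP_32a90a_pr.L

namespace B1w

open Topology

lemma ev1 (d K : ℝ) (hd : 0 < d) :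
    ∀ᶠ N : ℕ in atTop, K + Real.log ((d + 2) * N + 1) ≤ 1 / d * N := by
  obtain ⟨δ, hδ⟩ : ∃ δ : ℝ, δ = 1 / (2 * d * (d + 2)) := ⟨_, rfl⟩
  have h0 : 0 < δ := by rw [hδ]; positivity
  have t : Tendsto (fun N : ℕ => 1 / (2 * d) * (N : ℝ)) atTop atTop :=
    tendsto_natCast_atTop_atTop.const_mul_atTop (by positivity)
  filter_upwards [t.eventually_ge_atTop (K + δ - Real.log δ)] with N hN
  have h1 : 0 < (d + 2) * N + 1 := by positivity
  have h2 := Real.log_le_sub_one_of_pos (mul_pos h0 h1)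
  rw [Real.log_mul h0.ne' h1.ne'] at h2
  have h3 : δ * ((d + 2) * N + 1) = 1 / (2 * d) * N + δ := by
    rw [hδ]; field_simp
  have h4 : 1 / d * N = 1 / (2 * d) * N + 1 / (2 * d) * N := by field_simp; ring
  linarith

lemma ev2 (d ε : ℝ) (hd : 0 < d) (hε : 0 < ε) :
    ∀ᶠ N : ℕ in atTop, ((N : ℝ) + 1) * Real.exp (-(1 / d * N)) ≤ ε := by
  have t : Tendsto (fun N : ℕ => 1 / d * (N : ℝ)) atTop atTop :=
    tendsto_natCast_atTop_atTop.const_mul_atTop (by positivity)
  have t1 := (((Real.tendsto_pow_mul_exp_neg_atTop_nhds_zero 1).const_mul d).add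
    Real.tendsto_exp_neg_atTop_nhds_zero).comp t
  rw [mul_zero, add_zero] at t1
  filter_upwards [t1.eventually (gt_mem_nhds hε)] with N hN
  refine le_trans (le_of_eq ?_) hN.le
  simp only [Function.comp]
  field_simp

lemma num {d N l β a lg : ℝ} (hd : 0 < d) (hN : 0 ≤ N) (hl : 1 ≤ l) (b1 : 1 / 2 ≤ β) (b2 : β ≤ 1)
    (ha : a ≤ 2560 * l * N / d + 1) (hg : 1 + 6 * l + lg ≤ 1 / d * N) :
    β + lg + 3 * l * (a + 1) + 1 / d * N + 55296 * l ^ 3 * N / (d * β ^ 2)
      ≤ 300000 * l ^ 3 / d * N := by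
  obtain ⟨t, ht⟩ : ∃ t : ℝ, t = 1 / d * N := ⟨_, rfl⟩
  have t0 : 0 ≤ t := by rw [ht]; positivity
  have e1 : 2560 * l * N / d = 2560 * l * t := by rw [ht]; ring
  have e2 : 300000 * l ^ 3 / d * N = 300000 * (l ^ 3 * t) := by rw [ht]; ring
  have e3 : 55296 * l ^ 3 * N / (d * β ^ 2) ≤ 221184 * (l ^ 3 * t) := by
    calc 55296 * l ^ 3 * N / (d * β ^ 2) ≤ 55296 * l ^ 3 * N / (d * (1 / 2) ^ 2) := by gcongr
      _ = _ := by rw [ht]; field_simp; ring
  have e4 : t ≤ l ^ 3 * t := le_mul_of_one_le_left t0 (one_le_pow₀ hl)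
  have e5 : l ^ 2 * t ≤ l ^ 3 * t :=
    mul_le_mul_of_nonneg_right (pow_le_pow_right₀ hl (by norm_num)) t0
  have e6 : 3 * l * (a + 1) ≤ 3 * l * (2560 * l * t + 1 + 1) := by
    rw [e1] at ha
    gcongr
  rw [← ht] at hg
  rw [e2, ← ht]
  nlinarith

end B1w

open B1w

theorem zB1w (h1 : ZLay) (h2 : ZRigU) (h3 : StTyp) : StB1w := by
  obtain ⟨C, c, -, -, h3⟩ := h3
  refine ⟨300000, by norm_num, ?_⟩
  filter_upwards [h3, eventually_ge_atTop 3] with d hT hd ε hε
  have d3 : (3 : ℝ) ≤ d := by exact_mod_cast hd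
  have d0 : (0 : ℝ) < d := by linarith
  have hl : 1 ≤ ell d := by
    unfold ell
    rw [Real.le_log_iff_exp_le d0]
    linarith [Real.exp_one_lt_d9]
  have e0 : 0 < min (ε / 2) (1 / (d : ℝ)) := lt_min (by linarith) (by positivity)
  refine ((hT _ e0).and (Big.card d _ (((ev1 d (1 + 6 * ell d) d0).and
    (ev2 d (ε / 2) d0 (by linarith))).and (eventually_ge_atTop 1)))).mono ?_
  rintro V E _ _ _ _ w0 hw ⟨t1, ⟨t2, t3⟩, t4⟩ U A F β B Ω hc b1 b2 hB hΩ
  have N1 : (1 : ℝ) ≤ Fintype.card V := by exact_mod_cast t4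
  obtain ⟨a0, ha⟩ : ∃ a0 : ℕ, a0 = ⌈2560 * ell d * Fintype.card V / d⌉₊ := ⟨_, rfl⟩
  have a1 : 2560 * ell d * Fintype.card V / d ≤ a0 := ha ▸ Nat.le_ceil _
  have a2 : (a0 : ℝ) ≤ 2560 * ell d * Fintype.card V / d + 1 :=
    ha ▸ (Nat.ceil_lt_add_one (by positivity)).le
  have a3 : 1 / (d : ℝ) * Fintype.card V ≤ a0 := by
    refine le_trans ?_ a1
    rw [one_div_mul_eq_div]
    gcongr
    nlinarith
  have a4 : 1 ≤ a0 := by
    have : (0 : ℝ) < a0 := lt_of_lt_of_le (by positivity) a3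
    exact_mod_cast this
  have a5 : 2560 * ell d * Fintype.card V ≤ d * a0 := by
    rw [div_le_iff₀ d0] at a1
    linarith
  have s1 := t1 U (A ∪ F) (by have := card_union_le A F; omega)
  have s2 : PD w0 (fun w J => (G3 d U (A ∪ F) w ∧ (badV w).card ≤ a0) ∧
      ¬ Rg d a0 Ω (cp U A F J) B w) ≤ ε / 2 := by
    have : ∀ w : E × Bool → V, avg (fun J => ind ((G3 d U (A ∪ F) w ∧ (badV w).card ≤ a0) ∧
        ¬ Rg d a0 Ω (cp U A F J) B w)) ≤ ε / 2 := by
      intro w
      by_cases hw : G3 d U (A ∪ F) w ∧ (badV w).card ≤ a0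
      · refine (avg_mono fun J => ind_mono And.right).trans
          ((h2 V E Ω U A F B w d a0 hd hw.1 hw.2 a4 a5).trans (le_trans ?_ t3))
        gcongr
      · exact avg_le_const (by linarith) fun J => by
          rw [ind_neg fun h => hw h.1]; linarith
    exact (av_mono this).trans_eq (av_const _)
  refine (PD_mono fun w J hb => ?_).trans ((PD_or_le _ _).trans
    ((add_le_add (s1.trans (min_le_left _ _)) s2).trans (by linarith)))
  by_contra hn
  rw [not_or, not_not, not_and, not_not] at hn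
  obtain ⟨⟨-, -, g3, -, -, g8, -⟩, hr⟩ := hn
  have g9 : (badV w).card ≤ a0 := by
    have : ((badV w).card : ℝ) ≤ a0 :=
      g8.trans ((mul_le_mul_of_nonneg_right (min_le_right _ _) (by linarith)).trans a3)
    exact_mod_cast this
  have z := h1 V E Ω (cp U A F J) B w d a0 β (1 / d) (ell d) hΩ (by omega) (abs_cp_le U A F J) hB
    (hr ⟨g3, g9⟩) (by linarith) (by positivity) ((div_le_one d0).2 (by linarith))
    (by rw [one_div, Real.log_inv, neg_neg]; rfl)
  have e : 2 * ((Fintype.card E : ℝ) + Fintype.card V) + 1 = (d + 2) * Fintype.card V + 1 := by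
    have := card_half hw
    linarith
  rw [e] at z
  have := num d0 (by linarith) hl b1 b2 a2 t2
  linarith

end Pool.Agent.MP_32a90a_pr.D.AZ

end

section

set_option autoImplicit false

namespace Pool.Agent.MP_32a90a_pr.D.AZ

open Finset Equiv Filter Pool.Agent.MP_32a90a_pr Pool.Agent.MP_32a90a_pr.L

namespace Blk2

lemma ev_large {c : ℝ} (hc : 0 < c) : ∀ᶠ k : ℕ in atTop, 4 ≤ c * k :=
  (tendsto_natCast_atTop_atTop.const_mul_atTop hc).eventually_ge_atTop 4

lemma sets {E : Type} [Fintype E] {x : ℝ} (hx : 4 ≤ x) (hE : 2 * x ≤ Fintype.card E) :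
    ∃ A0 A1 : Finset E, A0 ⊆ A1 ∧ (A1.card : ℝ) ≤ 2 * x ∧ x / 2 ≤ (A1.card : ℝ) - A0.card ∧
      x ≤ A0.card := by
  have h1 : (⌊2 * x⌋₊ : ℝ) ≤ 2 * x := Nat.floor_le (by linarith)
  have h2 : 2 * x < ⌊2 * x⌋₊ + 1 := Nat.lt_floor_add_one _
  have h3 : (⌈x⌉₊ : ℝ) < x + 1 := Nat.ceil_lt_add_one (by linarith)
  obtain ⟨A1, -, hA1⟩ := exists_subset_card_eq (s := (univ : Finset E)) (n := ⌊2 * x⌋₊)
    (by rw [card_univ]; exact_mod_cast h1.trans hE)
  obtain ⟨A0, h01, hA0⟩ := exists_subset_card_eq (s := A1) (n := ⌈x⌉₊)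
    (by rw [hA1]; exact_mod_cast (show (⌈x⌉₊ : ℝ) ≤ ⌊2 * x⌋₊ by linarith))
  refine ⟨A0, A1, h01, ?_, ?_, ?_⟩
  · rw [hA1]; exact h1
  · rw [hA1, hA0]; linarith
  · rw [hA0]; exact Nat.le_ceil x

end Blk2

theorem zBlk2 (h : ZA6) : ZBlk2 := by
  intro c3 C cg d hC hcg hN hPhi hB1 hG hH
  obtain ⟨hd, hτ, -, -, -, -, -, hnum, -⟩ := hN
  have hd0 : (0 : ℝ) < d := by exact_mod_cast (show 0 < d by omega)
  have hth : 0 < qq d ^ 4 := pow_pos (Real.exp_pos _) 4
  have hμ : 0 < mu1 d := Real.rpow_pos_of_pos hd0 _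
  have hτ0 : 0 < tau d := Real.rpow_pos_of_pos hd0 _
  have ha0 : 0 < aa1 d := Real.rpow_pos_of_pos hd0 _
  have he : 0 < qq d ^ 4 / 8 := by positivity
  obtain ⟨h1, h2⟩ := h d (qq d ^ 4 / 8) (by omega) he
  filter_upwards [h1, h2 _ hH, big_cw hPhi, big_cw (hB1 _ he), big_cw (hG _ _ hμ he),
    Blk2.ev_large (mul_pos hτ0 hd0), Blk2.ev_large (mul_pos hμ two_pos)]
    with k a1 a2 a3 a4 a5 a6 a7
  replace a3 := a3 k le_rfl
  replace a4 := a4 k le_rfl
  replace a5 := a5 k le_rfl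
  have cV : (Fintype.card (Fin (2 * k)) : ℝ) = 2 * k := by simp
  have cE : (Fintype.card (Fin (k * d)) : ℝ) = k * d := by simp
  have hk : (0 : ℝ) < k := by
    by_contra hc
    have := mul_nonpos_of_nonneg_of_nonpos (mul_pos hμ two_pos).le (not_lt.1 hc)
    linarith
  have hkd : (0 : ℝ) < k * d := mul_pos hk hd0
  have hthk : 0 < qq d ^ 4 * k := mul_pos hth hk
  rw [cV, cE] at a3
  rw [cV] at a4 a5
  obtain ⟨A0, A1, b1, b2, b3, b4⟩ := Blk2.sets (E := Fin (k * d)) (x := tau d * (k * d))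
    (by linarith) (by rw [cE]; linarith [mul_le_mul_of_nonneg_right hτ hkd.le])
  obtain ⟨A, c1, -, a, c3, c4, c5⟩ := a3 A0 A1 b1 (by linarith) b3
    (by linarith [a1 A1, a2 A0])
  have hA : tau d * (k * d) ≤ A.card := b4.trans (by exact_mod_cast card_le_card c1)
  have key : ∀ M : ℕ, Even M → (M : ℝ) ≤ (a + mu1 d / 2) * (2 * k) →
      Even (M + Fintype.card (Fin (2 * k))) ∧ (magSet (Fin (2 * k)) M).Nonempty := by
    intro M hM hle
    have hev : Even (M + Fintype.card (Fin (2 * k))) := by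
      rw [Fintype.card_fin]
      exact hM.add (even_two_mul k)
    refine ⟨hev, magSet_nonempty hev ?_⟩
    have : (M : ℝ) ≤ Fintype.card (Fin (2 * k)) := by
      rw [cV]
      linarith [mul_le_mul_of_nonneg_right c4 (show (0 : ℝ) ≤ 2 * k by linarith)]
    exact_mod_cast this
  refine ⟨A, a, hA, c3, ?_, fun M hM l1 l2 => ⟨magSet_neg_nonempty (key M hM l2).2, ?_⟩⟩
  · have ha : 0 < a := hμ.trans_le c3
    have l1 : a * (2 * k) ≤ ((2 * ⌈a * k⌉₊ : ℕ) : ℝ) := by
      push_cast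
      linarith [Nat.le_ceil (a * k)]
    have l2 : ((2 * ⌈a * k⌉₊ : ℕ) : ℝ) ≤ (a + mu1 d / 2) * (2 * k) := by
      push_cast
      linarith [Nat.ceil_lt_add_one (mul_pos ha hk).le]
    obtain ⟨hev, hne⟩ := key _ (even_two_mul _) l2
    have d1 := c5 _ hev l1 l2
    have d2 := VV_neg (w0 := cw d k) (U := ∅) (A := A) (F := ∅) (magSet_neg_nonempty hne)
    rw [neg_neg] at d2
    have d3 := VV_le_FF (w0 := cw d k) (U := ∅) (A := A) (F := ∅) (B := 0) hne
    have d4 := (a5 a _ A c3 hne fun σ hσ => by rw [mem_magSet.1 hσ]; exact l1).2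
    have d5 := a4 ∅ _ (by simp) hne
    have d6 := VV_mono (w0 := cw d k) (U := ∅) (A := ∅) (F := ∅) (B := 0) hne (subset_univ _)
    have d7 := a2 ∅
    have d8 := a1 A
    have d9 : cg * (tau d * (k * d)) * a ^ 2 ≤ cg * A.card * a ^ 2 := by gcongr
    have d10 := mul_lt_mul_of_pos_right hnum (show (0 : ℝ) < 2 * k by linarith)
    have d11 : cg * (tau d * (k * d)) * a ^ 2 < cg * (tau d * (k * d)) * aa1 d ^ 2 := by
      linarith
    exact (pow_lt_pow_iff_left₀ ha.le ha0.le two_ne_zero).1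
      (lt_of_mul_lt_mul_left d11 (by positivity)) |>.le
  · linarith [c5 M (key M hM l2).1 l1 l2, a1 A]

end Pool.Agent.MP_32a90a_pr.D.AZ

end

section

set_option autoImplicit false

namespace Pool.Agent.MP_32a90a_pr.D.AZ

open Finset Equiv Filter Pool.Agent.MP_32a90a_pr Pool.Agent.MP_32a90a_pr.L

theorem zChain (h1 : ZHyb) (h2 : ZPool) : ZChain := by
  intro V E B Ξ _ _ _ _ _ _ _ _ w0 d β Ω U f g L t hd hΩ hL ht hq hf hg hU
  obtain ⟨T, hT⟩ : ∃ T : Finset E → (E → Ξ) → E → Ty B, ∀ S ω, T S ω =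
      fun i => if i ∈ U then none else some ((if i ∈ S then f else g) (ω i)) :=
    ⟨_, fun _ _ => rfl⟩
  obtain ⟨e, he⟩ : ∃ e : ℝ, e = 4 / L + 4 * Fintype.card E * Fintype.card B
      * Real.exp (-(t ^ 2 / (8 * Fintype.card E))) := ⟨_, rfl⟩
  have hL0 : 0 ≤ 4 / L := div_nonneg (by norm_num) (by linarith)
  have hE : (0 : ℝ) ≤ Fintype.card E := Nat.cast_nonneg _
  have he0 : 0 ≤ e := by rw [he]; positivity
  have step : ∀ (S : Finset E) (r : E), r ∉ S →
      avg (fun ω => Phi w0 β Ω (T S ω)) ≤ avg (fun ω => Phi w0 β Ω (T (insert r S) ω)) + e := by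
    intro S r hr
    by_cases hrU : r ∈ U
    · have : ∀ ω, T (insert r S) ω = T S ω := fun ω => by
        rw [hT, hT]
        funext i
        by_cases hi : i = r
        · rw [hi, if_pos hrU, if_pos hrU]
        · simp only [mem_insert, hi, false_or]
      simp only [this]
      linarith
    have e1 : ∀ ω ξ, T S (Function.update ω r ξ) =
        Function.update (Function.update (T S ω) r none) r (some (g ξ)) := fun ω ξ => by
      rw [Function.update_idem, hT, hT]
      funext i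
      by_cases hi : i = r
      · rw [hi, Function.update_self, Function.update_self, if_neg hrU, if_neg hr]
      · rw [Function.update_of_ne hi, Function.update_of_ne hi]
    have e2 : ∀ ω ξ, T (insert r S) (Function.update ω r ξ) =
        Function.update (Function.update (T S ω) r none) r (some (f ξ)) := fun ω ξ => by
      rw [Function.update_idem, hT, hT]
      funext i
      by_cases hi : i = r
      · rw [hi, Function.update_self, Function.update_self, if_neg hrU,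
          if_pos (mem_insert_self r S)]
      · rw [Function.update_of_ne hi, Function.update_of_ne hi]
        simp only [mem_insert, hi, false_or]
    have a1 : ∀ ω, avg (fun ξ => Phi w0 β Ω (T S (Function.update ω r ξ))) ≤
        avg (fun ξ => Phi w0 β Ω (T (insert r S) (Function.update ω r ξ))) + 4 / L +
          2 * Fintype.card E * ind (¬ ∀ b, L ≤ pb d β (T S ω) b) := by
      intro ω
      by_cases hb : ∀ b, L ≤ pb d β (T S ω) b
      · rw [ind_neg (not_not.2 hb), mul_zero, add_zero]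
        simp only [e1, e2]
        refine h1 V E B Ξ w0 d β Ω _ r f g L hd hΩ (Function.update_self ..) hL (fun b => ?_) hq
        refine (hb b).trans (sub_le_sub_left (sum_le_sum fun i _ => ?_) _)
        by_cases hi : i = r
        · rw [hi, Function.update_self]
          exact ct_nonneg b _
        · rw [Function.update_of_ne hi]
      · rw [ind_pos hb]
        have b1 := avg_le_const (f := fun ξ => Phi w0 β Ω (T S (Function.update ω r ξ))) hE
          fun ξ => (abs_le.1 (abs_Phi_le _ _)).2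
        have b2 := const_le_avg
          (f := fun ξ => Phi w0 β Ω (T (insert r S) (Function.update ω r ξ)))
          fun ξ => (abs_le.1 (abs_Phi_le _ _)).1
        linarith
    have a2 := h2 V E B Ξ d β U (fun i => if i ∈ S then f else g) L t ht (fun i b => by
      split_ifs
      exacts [hf b, hg b]) hU
    simp only [← hT] at a2
    have a3 := avg_mono a1
    rw [avg_add, avg_add, avg_const, avg_mul, ← avg_update r fun ω => Phi w0 β Ω (T S ω),
      ← avg_update r fun ω => Phi w0 β Ω (T (insert r S) ω)] at a3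
    have a4 := mul_le_mul_of_nonneg_left a2 hE
    rw [he]
    linarith
  have main : ∀ S : Finset E, avg (fun ω => Phi w0 β Ω (T ∅ ω)) ≤
      avg (fun ω => Phi w0 β Ω (T S ω)) + S.card * e := by
    intro S
    induction S using Finset.induction_on with
    | empty => simp
    | insert r S hr ih =>
      rw [card_insert_of_notMem hr]
      push_cast
      linarith [step S r hr]
  have := main univ
  simp only [hT, notMem_empty, mem_univ, if_true, if_false, card_univ, he] at this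
  exact this

end Pool.Agent.MP_32a90a_pr.D.AZ

end

section

set_option autoImplicit false

namespace Pool.Agent.MP_32a90a_pr.D.AZ

open Finset Equiv Filter Pool.Agent.MP_32a90a_pr Pool.Agent.MP_32a90a_pr.L

namespace Conc

variable {V E : Type} [Fintype V] [DecidableEq V] [Fintype E] [DecidableEq E]

lemma mgf (w0 : E × Bool → V) (F : (E × Bool → V) → (E → Bool) → ℝ) {c : ℝ} (hc : 0 < c) (l : ℝ)
    (h1 : ∀ w J a b, |F (w ∘ swap a b) J - F w J| ≤ c)
    (h2 : ∀ w J i b, |F w (Function.update J i b) - F w J| ≤ c) :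
    ED w0 (fun w J => Real.exp (l * (F w J - ED w0 F)))
      ≤ Real.exp (5 * l ^ 2 * c ^ 2 * Fintype.card E) := by
  have h3 : ∀ J i b, |(av w0 fun w => F w (Function.update J i b)) - av w0 fun w => F w J| ≤ c :=
    fun J i b => by
      rw [← av_sub, abs_le]
      exact ⟨const_le_av fun w => (abs_le.1 (h2 w J i b)).1,
        av_le_const fun w => (abs_le.1 (h2 w J i b)).2⟩
  have h4 := stCube E (fun J => av w0 fun w => F w J) c l hc h3
  have h5 : ((Fintype.card (E → Bool) : ℕ) : ℝ) = 2 ^ Fintype.card E := by simp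
  have h6 : (∑ J : E → Bool, av w0 fun w => F w J) / (2 : ℝ) ^ Fintype.card E = ED w0 F := by
    rw [ED_comm, avg, h5]
  rw [h6] at h4
  have h7 : avg (fun J : E → Bool => Real.exp (l * ((av w0 fun w => F w J) - ED w0 F)))
      ≤ Real.exp (l ^ 2 * c ^ 2 * Fintype.card E / 2) := by
    rw [avg, h5, div_le_iff₀' (by positivity)]
    exact h4
  rw [ED_comm]
  calc _ ≤ avg fun J : E → Bool => Real.exp (l * ((av w0 fun w => F w J) - ED w0 F)) *
          Real.exp (2 * l ^ 2 * c ^ 2 * (2 * (Fintype.card E : ℝ))) := by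
        refine avg_mono fun J => le_trans (le_of_eq ?_) (mul_le_mul_of_nonneg_left
          (av_mgf w0 (fun w => F w J) hc l fun w a b => h1 w J a b) (Real.exp_pos _).le)
        rw [← av_mul]
        congr 1
        funext w
        rw [← Real.exp_add]
        congr 1
        ring
    _ ≤ Real.exp (l ^ 2 * c ^ 2 * Fintype.card E / 2) *
          Real.exp (2 * l ^ 2 * c ^ 2 * (2 * (Fintype.card E : ℝ))) := by
        rw [avg_mul_right]
        exact mul_le_mul_of_nonneg_right h7 (Real.exp_pos _).le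
    _ ≤ _ := by
        rw [← Real.exp_add]
        have : 0 ≤ l ^ 2 * c ^ 2 * (Fintype.card E : ℝ) := by positivity
        exact Real.exp_le_exp.2 (by linarith)

lemma markov {l t x : ℝ} (hl : 0 ≤ l) : ind (t ≤ |x|) ≤
    Real.exp (-(l * t)) * (Real.exp (l * x) + Real.exp (-l * x)) := by
  by_cases h : t ≤ |x|
  · rw [ind_pos h, mul_add, ← Real.exp_add, ← Real.exp_add]
    have h1 := Real.exp_pos (-(l * t) + l * x)
    have h2 := Real.exp_pos (-(l * t) + -l * x)
    rcases le_abs.1 h with h | h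
    · have := Real.one_le_exp (x := -(l * t) + l * x)
        (by nlinarith [mul_le_mul_of_nonneg_left h hl])
      linarith
    · have := Real.one_le_exp (x := -(l * t) + -l * x)
        (by nlinarith [mul_le_mul_of_nonneg_left h hl])
      linarith
  · rw [ind_neg h]; positivity

end Conc

theorem zConc : StConc := by
  intro V E _ _ _ _ _ w0 F c t hc ht h1 h2
  have hn : (0 : ℝ) < Fintype.card E := by exact_mod_cast Fintype.card_pos
  obtain ⟨l, hl⟩ : ∃ l : ℝ, l = t / (10 * c ^ 2 * Fintype.card E) := ⟨_, rfl⟩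
  have h0 : 0 ≤ l := by rw [hl]; positivity
  have h3 := Conc.mgf w0 F hc l h1 h2
  have h4 := Conc.mgf w0 F hc (-l) h1 h2
  rw [neg_sq] at h4
  refine (ED_mono fun w J => Conc.markov h0).trans ?_
  rw [ED_mul, ED_add]
  refine (mul_le_mul_of_nonneg_left (add_le_add h3 h4) (Real.exp_pos _).le).trans ?_
  rw [mul_add, ← Real.exp_add]
  have h5 : -(l * t) + 5 * l ^ 2 * c ^ 2 * Fintype.card E =
      -(t ^ 2 / (20 * c ^ 2 * Fintype.card E)) := by
    rw [hl]; field_simp; ring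
  have h6 : t ^ 2 / (64 * c ^ 2 * Fintype.card E) ≤ t ^ 2 / (20 * c ^ 2 * Fintype.card E) := by
    gcongr; norm_num
  have h7 := Real.exp_le_exp.2 (neg_le_neg h6)
  have h8 := Real.exp_pos (-(t ^ 2 / (64 * c ^ 2 * Fintype.card E)))
  rw [h5]
  linarith

end Pool.Agent.MP_32a90a_pr.D.AZ

end

section

set_option autoImplicit false
set_option linter.unusedSectionVars false

namespace Pool.Agent.MP_32a90a_pr.D.AZ

open Finset Equiv Filter Pool.Agent.MP_32a90a_pr Pool.Agent.MP_32a90a_pr.L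

namespace Ex

variable {V E B : Type} [Fintype V] [DecidableEq V] [Fintype E] [DecidableEq E]
  {w0 w : E × Bool → V} {β : V → B} {T : E → Ty B} {r : E} {x : B × B × Bool} {a a' : E × Bool}

/-- a permutation that sends the two ends of r to a and a' -/
def tt (r : E) (a a' : E × Bool) : Perm (E × Bool) :=
  swap (r, false) a * swap (r, true) (swap (r, false) a a')

lemma tt_true (r : E) (a a' : E × Bool) : tt r a a' (r, true) = a' := by simp [tt]

lemma tt_false (h : a' ≠ a) : tt r a a' (r, false) = a := by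
  rw [tt, Perm.mul_apply, swap_apply_of_ne_of_ne (a := (r, true)) (by simp), swap_apply_left]
  intro e
  exact h ((swap (r, false) a).injective (e.symm.trans (swap_apply_right _ _).symm))

lemma tt_other (hr : T r = none) (ha : T a.1 = none) (ha' : T a'.1 = none) {p : E × Bool}
    (hp : T p.1 ≠ none) : tt r a a' p = p := by
  have k : ∀ q : E × Bool, T q.1 = none → p ≠ q := fun q hq e => hp (e ▸ hq)
  have h1 : T (swap (r, false) a a').1 = none := by
    rw [swap_apply_def]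
    split_ifs
    exacts [ha, hr, ha']
  rw [tt, Perm.mul_apply, swap_apply_of_ne_of_ne (k (r, true) hr) (k _ h1),
    swap_apply_of_ne_of_ne (k (r, false) hr) (k _ ha)]

lemma mt_tt (hr : T r = none) (ha : T a.1 = none) (ha' : T a'.1 = none) (h : a' ≠ a) :
    mt β (Function.update T r (some x)) (w ∘ tt r a a') ↔
      mt β T w ∧ β (w a) = x.1 ∧ β (w a') = x.2.1 := by
  have k : ∀ i y c, T i = some y → (w ∘ tt r a a') (i, c) = w (i, c) := fun i y c hy =>
    congrArg w (tt_other hr ha ha' (by simp [hy]))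
  constructor
  · intro hm
    refine ⟨fun i y hy => ?_, ?_⟩
    · have hi : i ≠ r := fun e => by simp [e, hr] at hy
      rw [← k i y false hy, ← k i y true hy]
      exact hm i y (by rwa [Function.update_of_ne hi])
    · have := hm r x (Function.update_self _ _ _)
      rwa [Function.comp_apply, Function.comp_apply, tt_true, tt_false h] at this
  · rintro ⟨hm, h1⟩ i y hy
    by_cases hi : i = r
    · subst hi
      rw [Function.update_self, Option.some.injEq] at hy
      rwa [Function.comp_apply, Function.comp_apply, tt_true, tt_false h, ← hy]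
    · rw [Function.update_of_ne hi] at hy
      rw [k i y false hy, k i y true hy]
      exact hm i y hy

lemma mxH_tt (Ω : Finset (V → Bool)) (hr : T r = none) (ha : T a.1 = none) (ha' : T a'.1 = none)
    (h : a' ≠ a) : mxH Ω (sT (Function.update T r (some x))) 0 (w ∘ tt r a a')
      = mxJ Ω (sT T) w (sgn x.2.2) (w a) (w a') := by
  have e : sT (Function.update T r (some x)) = Function.update (sT T) r (sgn x.2.2) := by
    funext i
    by_cases hi : i = r
    · subst hi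
      simp [sT]
    · simp [sT, hi]
  refine iSup_congr fun σ => ?_
  rw [e, HH_zero, HH_zero, en_update r (by simp [sT, hr]), Function.comp_apply,
    Function.comp_apply, tt_true, tt_false h]
  refine congrArg (· + _) (sum_congr rfl fun i _ => ?_)
  by_cases hi : T i = none
  · simp [sT, hi]
  · rw [Function.comp_apply, Function.comp_apply, tt_other (p := (i, false)) hr ha ha' hi,
      tt_other (p := (i, true)) hr ha ha' hi]

open Classical in
/-- the exchange identity -/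
lemma exch (hr : T r = none) : ∃ c : ℝ, 0 < c ∧ ∀ F : (E × Bool → V) → ℝ,
    c * av w0 (fun w => ind (mt β (Function.update T r (some x)) w) * F w) =
      av w0 fun w => ind (mt β T w) *
        ∑ a ∈ pl β T w x.1, ∑ a' ∈ (pl β T w x.2.1).erase a, F (w ∘ tt r a a') := by
  let Q : Finset (E × Bool) := univ.filter fun a => T a.1 = none
  refine ⟨∑ a ∈ Q, ∑ _a' ∈ Q.erase a, 1, ?_, fun F => ?_⟩
  · refine sum_pos' (fun _ _ => sum_nonneg fun _ _ => zero_le_one) ⟨(r, false), by simp [Q, hr],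
      sum_pos (fun _ _ => one_pos) ⟨(r, true), by simp [Q, hr]⟩⟩
  have e1 : ∀ w : E × Bool → V, ind (mt β T w) *
      ∑ a ∈ pl β T w x.1, ∑ a' ∈ (pl β T w x.2.1).erase a, F (w ∘ tt r a a') =
      ∑ a ∈ Q, ∑ a' ∈ Q.erase a,
        ind (mt β (Function.update T r (some x)) (w ∘ tt r a a')) * F (w ∘ tt r a a') := by
    intro w
    have p1 : pl β T w x.1 = Q.filter fun a => β (w a) = x.1 := by
      ext a
      simp [pl, Q]
    have p2 : ∀ a, (pl β T w x.2.1).erase a = (Q.erase a).filter fun a' => β (w a') = x.2.1 := by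
      intro a
      ext a'
      simp [pl, Q, and_assoc]
    rw [p1, sum_filter, mul_sum]
    refine sum_congr rfl fun a ha => ?_
    have k : ∀ a' ∈ Q.erase a, mt β (Function.update T r (some x)) (w ∘ tt r a a') ↔
        mt β T w ∧ β (w a) = x.1 ∧ β (w a') = x.2.1 := fun a' ha' =>
      mt_tt hr (mem_filter.1 ha).2 (mem_filter.1 (mem_erase.1 ha').2).2 (mem_erase.1 ha').1
    rw [p2, sum_filter]
    split_ifs with h1
    · rw [mul_sum]
      refine sum_congr rfl fun a' ha' => ?_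
      rw [ind_congr (k a' ha')]
      split_ifs with h2
      · simp only [h1, h2, and_true]
      · rw [ind_neg (P := _ ∧ _) fun h => h2 h.2.2, mul_zero, zero_mul]
    · rw [mul_zero]
      exact (sum_eq_zero fun a' ha' => by
        rw [ind_neg fun h => h1 ((k a' ha').1 h).2.1, zero_mul]).symm
  simp only [e1]
  rw [av_sum, sum_mul]
  refine sum_congr rfl fun a _ => ?_
  rw [av_sum, sum_mul]
  refine sum_congr rfl fun a' _ => ?_
  rw [one_mul]
  exact (av_comp (tt r a a') fun w => ind (mt β (Function.update T r (some x)) w) * F w).symm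

lemma pairs (h : ZPl) {d : ℕ} (hd : Deg w d) (hm : mt β T w) (x : B × B × Bool) :
    ∑ a ∈ pl β T w x.1, ∑ _a' ∈ (pl β T w x.2.1).erase a, (1 : ℝ) = np d β T x := by
  have e : ∀ a ∈ pl β T w x.1, ∑ _a' ∈ (pl β T w x.2.1).erase a, (1 : ℝ) =
      pb d β T x.2.1 - ind (x.1 = x.2.1) := by
    intro a ha
    rw [← h V E B w d β T _ hd hm]
    by_cases hx : x.1 = x.2.1
    · rw [ind_pos hx, sum_erase_eq_sub (hx ▸ ha)]
      simp
    · rw [ind_neg hx, erase_eq_of_notMem]
      · simp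
      · intro ha'
        simp only [pl, mem_filter] at ha ha'
        exact hx (ha.2.2.symm.trans ha'.2.2)
  rw [sum_congr rfl e, sum_const, nsmul_eq_mul, h V E B w d β T _ hd hm, np]
  ring

end Ex

open Ex in
theorem zEx (h : ZPl) : ZEx := by
  intro V E B _ _ _ _ w0 d β Ω T r x hd hr
  obtain ⟨c, hc, he⟩ := exch (w0 := w0) (β := β) (x := x) hr
  have h1 : c * ms w0 β (Function.update T r (some x)) = ms w0 β T * np d β T x := by
    have := he fun _ => 1
    simp only [mul_one] at this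
    rw [ms, this, ms, mul_comm, ← av_mul]
    refine av_congr_deg hd fun w hw => ?_
    by_cases hm : mt β T w
    · rw [pairs h hw hm, mul_comm]
    · rw [ind_neg hm, mul_zero, zero_mul]
  have h2 : 0 < ms w0 β (Function.update T r (some x)) ↔ 0 < ms w0 β T ∧ 0 < np d β T x := by
    rw [← mul_pos_iff_of_pos_left hc, h1]
    refine ⟨fun h3 => ?_, fun h3 => mul_pos h3.1 h3.2⟩
    have h4 := (ms_nonneg (w0 := w0) β T).lt_of_ne fun e => by
      rw [← e, zero_mul] at h3
      exact lt_irrefl _ h3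
    exact ⟨h4, (mul_pos_iff_of_pos_left h4).1 h3⟩
  refine ⟨h2, fun h3 => ?_⟩
  obtain ⟨h4, h5⟩ := h2.1 h3
  rw [Phi, ← mul_div_mul_left _ _ hc.ne', h1, he, mul_comm (ms w0 β T), ← div_div, ← av_div]
  refine congrArg (· / _) (congrArg _ (funext fun w => ?_))
  rw [mul_div_assoc]
  refine congrArg (fun y => _ * (y / _)) (sum_congr rfl fun a ha => sum_congr rfl fun a' ha' => ?_)
  simp only [pl, mem_filter, mem_erase] at ha ha'
  exact mxH_tt Ω hr ha.2.1 ha'.2.2.1 ha'.1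

end Pool.Agent.MP_32a90a_pr.D.AZ

end

section

set_option autoImplicit false

namespace Pool.Agent.MP_32a90a_pr.D.AZ

open Finset Equiv Filter Pool.Agent.MP_32a90a_pr Pool.Agent.MP_32a90a_pr.L

theorem zFin (hB : ZB1m) (hK : ZKer) (hS : ZStep2) (hT : ZTwo) (hG : ZGain) (hN : ZNum)
    (h1 : ZBlk1) (h2 : ZBlk2) (hZ : ZZ) (hR : ZTrans) : StFinal := by
  rintro hP ⟨c3, hc3, h3⟩
  obtain ⟨C, hC, hB⟩ := hB
  obtain ⟨K, hK1, hK⟩ := hK
  have hc : 0 < 1 / (16 * K) := by positivity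
  obtain ⟨d, he, p1, p2, p3, p4⟩ := (Nat.frequently_even.and_eventually
    (hP.and (h3.and (hB.and (hN c3 C _ hc3 hC (half_pos hc)))))).exists
  have hd : 1 ≤ d := le_trans (by norm_num) p4.1
  have hg := hG _ hc (hT K hK1 (hS K hK1 hK)) d hd
  have hq : 0 < qq d ^ 4 / 2 := half_pos (pow_pos (Real.exp_pos _) 4)
  refine ⟨d, p4.1, _, hq, 1 / 2, by norm_num, hR d _ hd hq fun hH => ?_⟩
  exact hZ c3 C _ d hC (half_pos hc) p4 (h1 c3 C _ d hc3 hC (half_pos hc) p4 (p2 he) p3 hg)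
    (h2 c3 C _ d hC (half_pos hc) p4 (p1 he) p3 hg hH) hH

end Pool.Agent.MP_32a90a_pr.D.AZ

end

section

set_option autoImplicit false

namespace Pool.Agent.MP_32a90a_pr.D.AZ

open Finset Equiv Filter Pool.Agent.MP_32a90a_pr Pool.Agent.MP_32a90a_pr.L

namespace Form

variable {B Q Y : Type}

/-- empirical law of the values on a block -/
noncomputable def q (P : B → Finset Q) (ω : Q → Y) (b : B) (p : Y) : ℝ :=
  (∑ a ∈ P b, ind (ω a = p)) / (P b).card

variable [Fintype Y]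

lemma sum_ind (u v : Y) (μ : Y → Y) : ∑ p, ind (u = p) * ind (v = μ p) = ind (v = μ u) := by
  rw [sum_eq_single u]
  · rw [ind_pos rfl, one_mul]
  · intro p _ hp
    rw [ind_neg (Ne.symm hp), zero_mul]
  · intro h
    exact absurd (mem_univ u) h

lemma sum_q (P : B → Finset Q) (ω : Q → Y) (μ : Y → Y) (b b' : B) :
    ∑ p, q P ω b p * q P ω b' (μ p)
      = (∑ a ∈ P b, ∑ a' ∈ P b', ind (ω a' = μ (ω a))) / ((P b).card * (P b').card) := by
  simp only [q, div_mul_div_comm, ← sum_div, sum_mul_sum]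
  congr 1
  rw [sum_comm]
  refine sum_congr rfl fun a _ => ?_
  rw [sum_comm]
  exact sum_congr rfl fun a' _ => sum_ind _ _ μ

lemma key (P : B → Finset Q) (ω : Q → Y) (ν : Y → Y) (hν : ∀ y, ν (ν y) = y)
    (t : B × B × Bool) :
    (∑ a ∈ P t.1, ∑ a' ∈ P t.2.1, ind (ω a = if t.2.2 then ν (ω a') else ω a'))
        / ((P t.1).card * (P t.2.1).card)
      = (1 / 4) * ∑ p, qf (fun b => q P ω b p + q P ω b (ν p))
          (fun b => q P ω b p - q P ω b (ν p)) t := by
  obtain ⟨b, b', j⟩ := t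
  have hre : ∀ F : Y → ℝ, ∑ p, F (ν p) = ∑ p, F p := fun F =>
    Equiv.sum_comp (Function.Involutive.toPerm ν hν) F
  cases j
  · have e : ∀ p, qf (fun b => q P ω b p + q P ω b (ν p)) (fun b => q P ω b p - q P ω b (ν p))
        (b, b', false) = 2 * (q P ω b p * q P ω b' p) + 2 * (q P ω b (ν p) * q P ω b' (ν p)) := by
      intro p
      simp only [qf, sgn]
      norm_num
      ring
    have h1 := sum_q P ω id b b'
    simp only [id] at h1
    simp only [e, sum_add_distrib, ← mul_sum]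
    rw [hre fun p => q P ω b p * q P ω b' p, h1]
    simp only [Bool.false_eq_true, if_false, ind_congr (eq_comm (a := ω _) (b := ω _))]
    ring
  · have e : ∀ p, qf (fun b => q P ω b p + q P ω b (ν p)) (fun b => q P ω b p - q P ω b (ν p))
        (b, b', true)
          = 2 * (q P ω b p * q P ω b' (ν p)) + 2 * (q P ω b (ν p) * q P ω b' (ν (ν p))) := by
      intro p
      simp only [qf, sgn, hν]
      norm_num
      ring
    have h2 : ∀ a a', ind (ω a' = ν (ω a)) = ind (ω a = ν (ω a')) := fun a a' =>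
      ind_congr ⟨fun h => by rw [h, hν], fun h => by rw [h, hν]⟩
    simp only [e, sum_add_distrib, ← mul_sum]
    rw [hre fun p => q P ω b p * q P ω b' (ν p), sum_q P ω ν b b']
    simp only [if_true, h2]
    ring

end Form

theorem zForm : ZForm := by
  intro B Q Y Ξ _ _ P ω ν f g hν h
  simp only [Form.key P ω ν hν, avg_mul, avg_sum]
  exact mul_le_mul_of_nonneg_left (sum_le_sum fun p _ => h _ _) (by norm_num)

end Pool.Agent.MP_32a90a_pr.D.AZ

end

section

set_option autoImplicit false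
set_option linter.unusedSectionVars false

namespace Pool.Agent.MP_32a90a_pr.D.AZ

open Finset Equiv Filter Pool.Agent.MP_32a90a_pr Pool.Agent.MP_32a90a_pr.L

namespace Gauge

open JGaugeF (gg gg_apply gg_comm sgn_beq en_le)

variable {V E : Type} [Fintype V] [DecidableEq V] [Fintype E] [DecidableEq E]

lemma mag_update {τ : V → Bool} {v : V} (h : τ v = true) :
    mag (Function.update τ v false) = mag τ - 2 := by
  unfold mag
  rw [← add_sum_erase univ _ (mem_univ v), ← add_sum_erase univ (fun u => sgn (τ u)) (mem_univ v),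
    Function.update_self, h,
    sum_congr rfl fun u hu => by rw [Function.update_of_ne (ne_of_mem_erase hu)]]
  simp only [sgn_true, sgn_false]
  ring

lemma repair_nat {w : E × Bool → V} {d : ℕ} (hw : Deg w d) {s : E → ℝ} (hs : ∀ i, |s i| ≤ 1)
    (n : ℕ) : ∀ τ : V → Bool, mag τ = 2 * n →
      HH s 0 w τ ≤ mxH (magSet V 0) s 0 w + d * (2 * n) := by
  induction n with
  | zero =>
    intro τ h
    simpa using le_mxH (mem_magSet.2 (by simpa using h))
  | succ n ih =>
    intro τ h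
    push_cast at h ⊢
    obtain ⟨v, hv⟩ : ∃ v, τ v = true := by
      by_contra hn
      have : mag τ ≤ 0 := sum_nonpos fun v _ => by
        cases e : τ v
        · simp
        · exact absurd ⟨v, e⟩ hn
      have : (0 : ℝ) ≤ n := Nat.cast_nonneg n
      linarith
    have h1 := ih (Function.update τ v false) (by rw [mag_update hv, h]; ring)
    have h2 := en_le hw hs (x := τ) (y := Function.update τ v false) (v := v) fun u hu =>
      (Function.update_of_ne hu _ _).symm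
    rw [HH_zero] at h1 ⊢
    linarith

lemma repair_pos {w : E × Bool → V} {d : ℕ} (hw : Deg w d) (hV : Even (Fintype.card V))
    {s : E → ℝ} (hs : ∀ i, |s i| ≤ 1) {τ : V → Bool} (h : 0 ≤ mag τ) :
    HH s 0 w τ ≤ mxH (magSet V 0) s 0 w + d * mag τ := by
  obtain ⟨M, hM, he⟩ := mag_nat h
  obtain ⟨n, hn⟩ : Even M := (Nat.even_add.1 he).2 hV
  have e : mag τ = 2 * n := by rw [hM, hn]; push_cast; ring
  have := repair_nat hw hs n τ e
  rwa [← e] at this

lemma repair {w : E × Bool → V} {d : ℕ} (hw : Deg w d) (hV : Even (Fintype.card V))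
    {s : E → ℝ} (hs : ∀ i, |s i| ≤ 1) (τ : V → Bool) :
    HH s 0 w τ ≤ mxH (magSet V 0) s 0 w + d * |mag τ| := by
  rcases le_total 0 (mag τ) with h | h
  · rw [abs_of_nonneg h]
    exact repair_pos hw hV hs h
  · have h1 := repair_pos hw hV hs (τ := fun v => !τ v) (by rw [mag_not]; linarith)
    rw [mag_not] at h1
    rw [abs_of_nonpos h]
    refine le_trans (le_of_eq ?_) h1
    simp [HH, en, Y1, sgn_not]

lemma avg_pair (u v : V) :
    avg (fun ε : V → Bool => sgn (ε u) * sgn (ε v)) = if u = v then 1 else 0 := by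
  split_ifs with h
  · simp only [h, sgn_mul_self]
    exact avg_const 1
  · rw [avg_update u]
    refine (avg_congr fun ε => ?_).trans avg_zero
    rw [avg_bool]
    simp only [Function.update_self, Function.update_of_ne (Ne.symm h), sgn_true, sgn_false]
    ring

lemma avg_mag_sq : avg (fun ε : V → Bool => mag ε ^ 2) = Fintype.card V := by
  have e : ∀ ε : V → Bool, mag ε ^ 2 = ∑ u, ∑ v, sgn (ε u) * sgn (ε v) := fun ε => by
    rw [sq, mag, sum_mul_sum]
  simp only [e, avg_sum, avg_pair]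
  simp

lemma avg_abs_mag : avg (fun ε : V → Bool => |mag ε|) ≤ Real.sqrt (Fintype.card V) := by
  refine Real.le_sqrt_of_sq_le ((sq_avg_le _).trans (le_of_eq ?_))
  simp only [sq_abs]
  exact avg_mag_sq

lemma HH_gauge (J : E → Bool) (w : E × Bool → V) (ε σ : V → Bool) :
    HH (cp ∅ ∅ ∅ J) 0 w σ
      = HH (cp ∅ ∅ ∅ (gg (fun i => ε (w (i, false)) == ε (w (i, true))) J)) 0 w (gg σ ε) := by
  rw [HH_zero, HH_zero]
  refine sum_congr rfl fun i _ => ?_
  simp only [cp, notMem_empty, if_false, Y1, gg_apply, sgn_beq]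
  have h1 := sgn_mul_self (ε (w (i, false)))
  have h2 := sgn_mul_self (ε (w (i, true)))
  linear_combination (-(sgn (J i) * sgn (σ (w (i, false))) * sgn (σ (w (i, true))))) * h1
    - sgn (J i) * sgn (σ (w (i, false))) * sgn (σ (w (i, true)))
      * (sgn (ε (w (i, false))) * sgn (ε (w (i, false)))) * h2

lemma one_le {w : E × Bool → V} {d : ℕ} (hw : Deg w d) (hV : Even (Fintype.card V))
    (J : E → Bool) : mxH univ (cp ∅ ∅ ∅ J) 0 w ≤ (avg fun ε : V → Bool => mxH (magSet V 0)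
      (cp ∅ ∅ ∅ (gg (fun i => ε (w (i, false)) == ε (w (i, true))) J)) 0 w)
      + d * Real.sqrt (Fintype.card V) := by
  obtain ⟨σ, -, e⟩ := exists_mxH (Ω := (univ : Finset (V → Bool))) (s := cp ∅ ∅ ∅ J) (B := 0)
    (w := w) univ_nonempty
  have h1 : avg (fun _ : V → Bool => mxH univ (cp ∅ ∅ ∅ J) 0 w) ≤ avg fun ε : V → Bool =>
      mxH (magSet V 0) (cp ∅ ∅ ∅ (gg (fun i => ε (w (i, false)) == ε (w (i, true))) J)) 0 w
        + d * |mag (gg σ ε)| :=
    avg_mono fun ε => by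
      rw [← e, HH_gauge J w ε σ]
      exact repair hw hV (abs_cp_le _ _ _ _) _
  rw [avg_const, avg_add, avg_mul, avg_equiv (gg σ) fun ε => |mag ε|] at h1
  exact h1.trans (add_le_add le_rfl (mul_le_mul_of_nonneg_left avg_abs_mag (Nat.cast_nonneg d)))

end Gauge

open JGaugeF (gg) in
theorem zGauge : ZGauge := by
  intro V E _ _ _ _ w0 d hd hV
  unfold VV ED
  rw [← av_const (w0 := w0) (d * Real.sqrt (Fintype.card V)), ← av_add]
  refine av_mono_deg hd fun w hw => ?_
  refine (avg_mono fun J => Gauge.one_le hw hV J).trans (le_of_eq ?_)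
  rw [avg_add, avg_const, avg_comm]
  congr 1
  refine (avg_congr fun ε => ?_).trans (avg_const _)
  exact avg_equiv (gg fun i => ε (w (i, false)) == ε (w (i, true)))
    fun J => mxH (magSet V 0) (cp ∅ ∅ ∅ J) 0 w

end Pool.Agent.MP_32a90a_pr.D.AZ

end

section

set_option autoImplicit false

namespace Pool.Agent.MP_32a90a_pr.D.AZ

open Finset Equiv Filter Pool.Agent.MP_32a90a_pr Pool.Agent.MP_32a90a_pr.L

namespace Hoef

variable {ι Ξ : Type} [Fintype ι] [DecidableEq ι] [Fintype Ξ]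

lemma avg_prod_pi (f : ι → Ξ → ℝ) :
    avg (fun ω : ι → Ξ => ∏ i, f i (ω i)) = ∏ i, avg (f i) := by
  simp only [avg, prod_div_distrib, prod_const, card_univ, Fintype.card_fun, Nat.cast_pow]
  rw [prod_univ_sum, Fintype.piFinset_univ]

lemma oneS [Nonempty Ξ] (X : ι → Ξ → ℝ) (c t : ℝ) (hc : 0 < c) (ht : 0 ≤ t)
    (h : ∀ i ξ ξ', |X i ξ - X i ξ'| ≤ c) :
    avg (fun ω : ι → Ξ => ind (t ≤ ∑ i, X i (ω i) - ∑ i, avg (X i)))
      ≤ Real.exp (-(t ^ 2 / (2 * c ^ 2 * Fintype.card ι))) := by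
  rcases Nat.eq_zero_or_pos (Fintype.card ι) with h0 | h0
  · rw [h0]
    simp only [Nat.cast_zero, mul_zero, div_zero, neg_zero, Real.exp_zero]
    exact avg_le_const zero_le_one fun _ => ind_le_one _
  have hn : (0 : ℝ) < Fintype.card ι := by exact_mod_cast h0
  have hN : (0 : ℝ) < Fintype.card Ξ := by exact_mod_cast Fintype.card_pos
  set l := t / (c ^ 2 * Fintype.card ι) with hl
  have hl0 : 0 ≤ l := by positivity
  have h1 : ∀ ω : ι → Ξ, ind (t ≤ ∑ i, X i (ω i) - ∑ i, avg (X i))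
      ≤ Real.exp (-(l * t)) * ∏ i, Real.exp (l * (X i (ω i) - avg (X i))) := by
    intro ω
    rw [← Real.exp_sum, ← Real.exp_add, ← mul_sum, sum_sub_distrib]
    by_cases h2 : t ≤ ∑ i, X i (ω i) - ∑ i, avg (X i)
    · rw [ind_pos h2]
      exact Real.one_le_exp (by nlinarith [mul_le_mul_of_nonneg_left h2 hl0])
    · rw [ind_neg h2]; exact (Real.exp_pos _).le
  refine (avg_mono h1).trans ?_
  rw [avg_mul, avg_prod_pi fun i ξ => Real.exp (l * (X i ξ - avg (X i)))]
  have h2 : ∏ i, avg (fun ξ => Real.exp (l * (X i ξ - avg (X i))))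
      ≤ ∏ _i : ι, Real.exp (l ^ 2 * c ^ 2 / 2) := by
    refine prod_le_prod (fun i _ => avg_nonneg fun _ => (Real.exp_pos _).le) fun i _ => ?_
    rw [avg, div_le_iff₀' hN]
    exact hoeff (X i) c hc (h i) l
  refine (mul_le_mul_of_nonneg_left h2 (Real.exp_pos _).le).trans (le_of_eq ?_)
  rw [prod_const, card_univ, ← Real.exp_nat_mul, ← Real.exp_add, hl]
  congr 1
  field_simp
  ring

lemma ct_abs {B : Type} (b : B) (o o' : Ty B) : |ct b o - ct b o'| ≤ 2 :=
  abs_le.2 ⟨by linarith [ct_nonneg b o, ct_le_two b o'], by linarith [ct_nonneg b o', ct_le_two b o]⟩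

end Hoef

open Hoef in
theorem zHoef : ZHoef := by
  intro ι Ξ _ _ _ _ X c t hc ht h
  have h1 := oneS X c t hc ht h
  have h2 := oneS (fun i ξ => -X i ξ) c t hc ht fun i ξ ξ' => by
    rw [neg_sub_neg]; exact h i ξ' ξ
  simp only [avg_neg, sum_neg_distrib] at h2
  rw [two_mul]
  refine le_trans ?_ (add_le_add h1 h2)
  rw [← avg_add]
  refine avg_mono fun ω => le_trans (ind_mono fun h3 => ?_) (ind_or_le _ _)
  rcases le_abs.1 h3 with h4 | h4
  · exact Or.inl h4
  · exact Or.inr (by linarith)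

open Hoef in
theorem zPool (h : ZHoef) : ZPool := by
  intro V E B Ξ _ _ _ _ _ _ _ _ d β U g L t ht h1 h2
  have hE : (0 : ℝ) < Fintype.card E := by exact_mod_cast Fintype.card_pos
  have h3 : ∀ b, avg (fun ω : E → Ξ =>
      ind (¬ L ≤ pb d β (fun i => if i ∈ U then none else some (g i (ω i))) b))
      ≤ 2 * Real.exp (-(t ^ 2 / (8 * Fintype.card E))) := by
    intro b
    have h4 := h E Ξ (fun i ξ => ct b (if i ∈ U then none else some (g i ξ))) 2 t two_pos ht
      fun i ξ ξ' => ct_abs b _ _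
    rw [show (2 : ℝ) * 2 ^ 2 = 8 by norm_num] at h4
    refine le_trans (avg_mono fun ω => ind_mono fun h5 => le_trans ?_ (le_abs_self _)) h4
    have h6 : (Fintype.card E : ℝ) *
        ∑ i, avg (fun ξ => ct b (if i ∈ U then none else some (g i ξ)))
        ≤ ∑ i, (1 - ind (i ∈ U)) * (d * nx β b) := by
      rw [mul_sum]
      refine sum_le_sum fun i _ => ?_
      by_cases hi : i ∈ U
      · simp [hi, ind, ct, avg]
      · simp only [if_neg hi, ind_neg hi, sub_zero, one_mul]; exact h1 i b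
    have h7 : ∑ i, ind (i ∈ U) = (U.card : ℝ) := by rw [sum_ind]; simp
    rw [← sum_mul, sum_sub_distrib, h7] at h6
    simp only [sum_const, card_univ, nsmul_eq_mul, mul_one] at h6
    have h8 := mul_lt_mul_of_pos_right (not_le.1 h5) hE
    unfold pb at h8
    refine le_of_mul_le_mul_right ?_ hE
    nlinarith [h2 b]
  calc _ ≤ avg fun ω : E → Ξ => ∑ b,
        ind (¬ L ≤ pb d β (fun i => if i ∈ U then none else some (g i (ω i))) b) := by
        refine avg_mono fun ω => ?_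
        by_cases h4 : ∀ b, L ≤ pb d β (fun i => if i ∈ U then none else some (g i (ω i))) b
        · rw [ind_neg (not_not.2 h4)]; exact sum_nonneg fun _ _ => ind_nonneg _
        · obtain ⟨b, hb⟩ := not_forall.1 h4
          rw [ind_pos h4, ← ind_pos hb]
          exact single_le_sum (f := fun b => ind (¬ L ≤ pb d β
            (fun i => if i ∈ U then none else some (g i (ω i))) b))
            (fun _ _ => ind_nonneg _) (mem_univ b)
    _ ≤ _ := by
        rw [avg_sum]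
        refine (sum_le_card_nsmul _ _ _ fun b _ => h3 b).trans (le_of_eq ?_)
        rw [card_univ, nsmul_eq_mul]; ring

theorem zCmp : ZCmp := by
  intro α α' _ _ _ _ f f' G G' R D p p' hD hf hf' hp hp' h
  have hR : 0 ≤ R := (abs_nonneg _).trans (hf (Classical.arbitrary α))
  have h1 : ∀ a a', f a ≤ f' a' + D + 2 * R * ind (¬ G a) + 2 * R * ind (¬ G' a') := by
    intro a a'
    have h2 := abs_le.1 (hf a)
    have h3 := abs_le.1 (hf' a')
    have h4 := mul_nonneg hR (ind_nonneg (¬ G a))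
    have h5 := mul_nonneg hR (ind_nonneg (¬ G' a'))
    by_cases hg : G a
    · by_cases hg' : G' a'
      · linarith [h a a' hg hg']
      · rw [ind_pos hg']; linarith
    · rw [ind_pos hg]; linarith
  have h2 : ∀ a', avg f ≤ f' a' + (D + 2 * R * avg fun a => ind (¬ G a))
      + 2 * R * ind (¬ G' a') := by
    intro a'
    have := avg_mono fun a => h1 a a'
    simp only [avg_add, avg_const, avg_mul] at this
    linarith
  have h3 := avg_mono h2
  simp only [avg_add, avg_const, avg_mul] at h3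
  nlinarith [mul_le_mul_of_nonneg_left hp hR, mul_le_mul_of_nonneg_left hp' hR]

end Pool.Agent.MP_32a90a_pr.D.AZ

end

section

set_option autoImplicit false
set_option linter.unusedSectionVars false

namespace Pool.Agent.MP_32a90a_pr.D.AZ

open Finset Equiv Filter Pool.Agent.MP_32a90a_pr Pool.Agent.MP_32a90a_pr.L

namespace Joint

lemma ind_all {X : Type} [Fintype X] (P : X → Prop) :
    ind (¬ ∀ x, ¬ P x) ≤ ∑ x, ind (P x) := by
  by_cases h : ∀ x, ¬ P x
  · rw [ind_neg (not_not.2 h)]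
    exact sum_nonneg fun _ _ => ind_nonneg _
  · rw [ind_pos h]
    obtain ⟨x, hx⟩ := not_forall.1 h
    exact (ind_pos (not_not.1 hx)).symm.trans_le
      (single_le_sum (f := fun x => ind (P x)) (fun _ _ => ind_nonneg _) (mem_univ x))

lemma avg_all {α X : Type} [Fintype α] [Fintype X] (P : α → X → Prop) {c : ℝ}
    (h : ∀ x, avg (fun a => ind (P a x)) ≤ c) :
    avg (fun a => ind (¬ ∀ x, ¬ P a x)) ≤ Fintype.card X * c := by
  refine (avg_mono fun a => ind_all (P a)).trans ?_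
  rw [avg_sum]
  refine (sum_le_card_nsmul _ _ c fun x _ => h x).trans_eq ?_
  rw [nsmul_eq_mul, card_univ]

variable {V E B : Type} [Fintype E] [DecidableEq E]

/-- the pattern of an arrangement -/
def TT (β : V → B) (U : Finset E) (f : Bool) (w : E × Bool → V) (J : E → Bool) (i : E) : Ty B :=
  if i ∈ U then none else some (β (w (i, false)), β (w (i, true)), f || J i)

lemma mt_TT (β : V → B) (U : Finset E) (f : Bool) (w : E × Bool → V) (J : E → Bool) :
    mt β (TT β U f w J) w := by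
  intro i x hx
  unfold TT at hx
  split_ifs at hx
  obtain rfl := Option.some.inj hx
  exact ⟨rfl, rfl⟩

lemma nx_none (U : Finset E) (g g' : E → B × B × Bool) :
    nx (fun i => if i ∈ U then (none : Ty B) else some (g i)) none
      = nx (fun i => if i ∈ U then (none : Ty B) else some (g' i)) none := by
  unfold nx
  refine sum_congr rfl fun i _ => ind_congr ?_
  by_cases h : i ∈ U <;> simp [h]

lemma avg_ct [Nonempty E] (γ : E → B) (f : Bool) (b : B) :
    (Fintype.card E : ℝ) * avg (fun ξ => ct b (some (jt γ f ξ))) = 2 * nx γ b := by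
  have hc : (0 : ℝ) < Fintype.card E := by exact_mod_cast Fintype.card_pos
  have e : avg (fun ξ : E × E × Bool => ct b (some (jt γ f ξ)))
      = avg (fun ξ : E × E × Bool => ind (γ ξ.1 = b))
        + avg fun ξ : E × E × Bool => ind (γ ξ.2.1 = b) := by
    rw [← avg_add]; rfl
  have e1 : avg (fun ξ : E × E × Bool => ind (γ ξ.1 = b)) = nx γ b / Fintype.card E := by
    rw [avg_prod]
    simp only [avg_const]
    rfl
  have e2 : avg (fun ξ : E × E × Bool => ind (γ ξ.2.1 = b)) = nx γ b / Fintype.card E := by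
    rw [avg_prod]
    simp only [avg_const]
    rw [avg_prod]
    simp only [avg_const]
    rfl
  rw [e, e1, e2]
  field_simp
  ring

lemma hoef [Nonempty E] (h3 : ZHoef) (γ : E → B) (U : Finset E) (f : Bool) (x : B × B × Bool)
    {t : ℝ} (ht : 0 ≤ t) :
    avg (fun ω : E → E × E × Bool => ind (t ≤ |nx (Tm U (jt γ f) ω) (some x)
        - ((Fintype.card E : ℝ) - U.card) * avg fun ξ => ind (jt γ f ξ = x)|))
      ≤ 2 * Real.exp (-(t ^ 2 / (2 * 1 ^ 2 * Fintype.card E))) := by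
  have h := h3 E (E × E × Bool) (fun i ξ => if i ∈ U then 0 else ind (jt γ f ξ = x)) 1 t one_pos ht
    (by
      intro i ξ ξ'
      split_ifs
      · simp
      · rw [abs_le]
        constructor <;>
          linarith [ind_nonneg (jt γ f ξ = x), ind_nonneg (jt γ f ξ' = x),
            ind_le_one (jt γ f ξ = x), ind_le_one (jt γ f ξ' = x)])
  refine le_trans (le_of_eq (avg_congr fun ω => ?_)) h
  have e1 : nx (Tm U (jt γ f) ω) (some x)
      = ∑ i, if i ∈ U then 0 else ind (jt γ f (ω i) = x) := by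
    unfold nx Tm
    refine sum_congr rfl fun i _ => ?_
    split_ifs
    · exact ind_neg (by simp)
    · exact ind_congr (by simp)
  have e2 : ((Fintype.card E : ℝ) - U.card) * avg (fun ξ => ind (jt γ f ξ = x))
      = ∑ i, avg fun ξ : E × E × Bool => if i ∈ U then 0 else ind (jt γ f ξ = x) := by
    have : ∀ i, (avg fun ξ : E × E × Bool => if i ∈ U then 0 else ind (jt γ f ξ = x))
        = avg (fun ξ => ind (jt γ f ξ = x))
          - if i ∈ U then avg (fun ξ => ind (jt γ f ξ = x)) else 0 := by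
      intro i
      split_ifs
      · rw [avg_zero, sub_self]
      · rw [sub_zero]
    simp only [this, sum_sub_distrib, sum_const, card_univ, nsmul_eq_mul, sum_ite_mem, univ_inter]
    ring
  rw [e1, e2]

end Joint

open Joint in
theorem zJoint (h1 : ZFeas) (h2 : ZCnt) (h3 : ZHoef) (h4 : ZPool) (h5 : ZCmp) (h6 : ZTow)
    (h7 : ZTypJ) : ZJoint := by
  intro V E B _ _ _ _ _ _ w0 d β γ Ω U f t hd hΩ ht hγ hU
  have hB : Nonempty B := ⟨γ (Classical.arbitrary E)⟩
  have hc : (0 : ℝ) < Fintype.card E := by exact_mod_cast Fintype.card_pos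
  have hb : (1 : ℝ) ≤ Fintype.card B := by exact_mod_cast Fintype.card_pos
  have hX : (Fintype.card (B × B × Bool) : ℝ) = 2 * (Fintype.card B : ℝ) ^ 2 := by
    simp only [Fintype.card_prod, Fintype.card_bool]
    push_cast
    ring
  set e : ℝ := Real.exp (-(t ^ 2 / (256 * Fintype.card E))) with he
  have he0 : 0 < e := Real.exp_pos _
  have hle : ∀ c : ℝ, 0 < c → c ≤ 256 → Real.exp (-(t ^ 2 / (c * Fintype.card E))) ≤ e := by
    intro c c0 c1
    refine Real.exp_le_exp.2 (neg_le_neg ?_)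
    exact div_le_div_of_nonneg_left (sq_nonneg t) (by positivity)
      (mul_le_mul_of_nonneg_right c1 hc.le)
  set m : B × B × Bool → ℝ := fun x =>
    ((Fintype.card E : ℝ) - U.card) * avg fun ξ => ind (jt γ f ξ = x) with hm
  have hp : avg (fun ω : E → E × E × Bool => ind (¬ ((∀ b, 0 ≤ pb d β (Tm U (jt γ f) ω) b) ∧
      ∀ x, ¬ t ≤ |nx (Tm U (jt γ f) ω) (some x) - m x|))) ≤ 6 * (Fintype.card B : ℝ) ^ 2 * e := by
    have a1 := h4 V E B (E × E × Bool) d β U (fun _ => jt γ f) 0 t ht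
      (fun _ b => (avg_ct γ f b).le.trans (hγ b).le) (fun b => by rw [zero_add]; exact hU b)
    have a2 := avg_all (fun (ω : E → E × E × Bool) x => t ≤ |nx (Tm U (jt γ f) ω) (some x) - m x|)
      fun x => (hoef h3 γ U f x ht).trans
        (mul_le_mul_of_nonneg_left (hle (2 * 1 ^ 2) (by norm_num) (by norm_num)) zero_le_two)
    have a3 := hle 8 (by norm_num) (by norm_num)
    have a4 : avg (fun ω : E → E × E × Bool => ind (¬ ((∀ b, 0 ≤ pb d β (Tm U (jt γ f) ω) b) ∧
        ∀ x, ¬ t ≤ |nx (Tm U (jt γ f) ω) (some x) - m x|)))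
        ≤ avg (fun ω : E → E × E × Bool => ind (¬ ∀ b, 0 ≤ pb d β (Tm U (jt γ f) ω) b))
          + avg fun ω : E → E × E × Bool =>
            ind (¬ ∀ x, ¬ t ≤ |nx (Tm U (jt γ f) ω) (some x) - m x|) := by
      rw [← avg_add]
      exact avg_mono fun ω => (ind_congr not_and_or).le.trans (ind_or_le _ _)
    have a5 : avg (fun ω : E → E × E × Bool => ind (¬ ∀ b, 0 ≤ pb d β (Tm U (jt γ f) ω) b))
        ≤ 2 * Fintype.card B * Real.exp (-(t ^ 2 / (8 * Fintype.card E))) := a1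
    rw [hX] at a2
    have a6 : 2 * (Fintype.card B : ℝ) * Real.exp (-(t ^ 2 / (8 * Fintype.card E)))
        ≤ 2 * (Fintype.card B : ℝ) ^ 2 * e :=
      mul_le_mul (by nlinarith) a3 (Real.exp_pos _).le (by positivity)
    linarith
  have hp' : avg (fun δ : Perm (E × Bool) × (E → Bool) =>
      ind (¬ ∀ x, ¬ t + 1 < |nx (TT β U f (w0 ∘ δ.1) δ.2) (some x) - m x|))
      ≤ 8 * (Fintype.card B : ℝ) ^ 2 * e := by
    have a2 := avg_all (fun (δ : Perm (E × Bool) × (E → Bool)) x =>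
      t + 1 < |nx (TT β U f (w0 ∘ δ.1) δ.2) (some x) - m x|) (c := 4 * e) fun x => by
        have := h7 V E B w0 d β γ U f x t hd ht hγ
        rw [PD, ED_eq_avg] at this
        exact this
    rw [hX] at a2
    linarith
  have hcmp := h5 (E → E × E × Bool) (Perm (E × Bool) × (E → Bool))
    (fun ω => Phi w0 β Ω (Tm U (jt γ f) ω)) (fun δ => Phi w0 β Ω (TT β U f (w0 ∘ δ.1) δ.2))
    _ _ (Fintype.card E) (8 * (Fintype.card B : ℝ) ^ 2 * (t + 1)) _ _ (by positivity)
    (fun _ => abs_Phi_le _ _) (fun _ => abs_Phi_le _ _) hp hp' (by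
      intro ω δ hω hδ
      have b1 := h2 V E B w0 d β Ω (Tm U (jt γ f) ω) (TT β U f (w0 ∘ δ.1) δ.2) hd hΩ
        (h1 V E B w0 d β _ hd hω.1) (ms_pos δ.1 (mt_TT β U f _ _))
      have b2 : nx (Tm U (jt γ f) ω) none = nx (TT β U f (w0 ∘ δ.1) δ.2) none := nx_none U _ _
      rw [Fintype.sum_option, b2, sub_self, abs_zero, zero_add] at b1
      have b3 : ∑ x : B × B × Bool,
          |nx (Tm U (jt γ f) ω) (some x) - nx (TT β U f (w0 ∘ δ.1) δ.2) (some x)|
          ≤ Fintype.card (B × B × Bool) * (2 * (t + 1)) := by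
        refine (sum_le_card_nsmul _ _ (2 * (t + 1)) fun x _ => ?_).trans_eq
          (by rw [nsmul_eq_mul, card_univ])
        have c1 := not_le.1 (hω.2 x)
        have c2 := not_lt.1 (hδ x)
        have c3 := abs_sub_le (nx (Tm U (jt γ f) ω) (some x)) (m x)
          (nx (TT β U f (w0 ∘ δ.1) δ.2) (some x))
        rw [abs_sub_comm (m x)] at c3
        linarith
      rw [hX] at b3
      linarith)
  have hfin : avg (fun δ : Perm (E × Bool) × (E → Bool) =>
      Phi w0 β Ω (TT β U f (w0 ∘ δ.1) δ.2)) = VV w0 U ∅ (if f then univ else ∅) 0 Ω := by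
    rw [← ED_eq_avg (w0 := w0) fun w J => Phi w0 β Ω (TT β U f w J), VV, ED_comm, ED_comm]
    refine avg_congr fun J => ?_
    have e1 : cp U ∅ (if f then univ else ∅) J = fun i => if i ∈ U then 0 else sgn (f || J i) := by
      funext i
      cases f <;> simp [cp]
    rw [e1]
    exact h6 V E B w0 β Ω U fun i => f || J i
  have hid := (VV_idle (w0 := w0) (U := U) (A := ∅) (F := if f then univ else ∅) (B := 0) hΩ).1
  rw [hfin] at hcmp
  have hpos : 0 ≤ Fintype.card E * (Fintype.card B : ℝ) ^ 2 * e := by positivity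
  nlinarith

end Pool.Agent.MP_32a90a_pr.D.AZ

end

section

set_option autoImplicit false

namespace Pool.Agent.MP_32a90a_pr.D.AZ

open Finset Equiv Filter Pool.Agent.MP_32a90a_pr Pool.Agent.MP_32a90a_pr.L

namespace Ker

variable {V E : Type} [Fintype V] [DecidableEq V] [Fintype E] [DecidableEq E]
  {Ω : Finset (V → Bool)} {s : E → ℝ} {U : Finset E} {w : E × Bool → V}

/-- the bilinear form of a power of the correlation kernel -/
noncomputable def BB (Ω : Finset (V → Bool)) (s : E → ℝ) (U : Finset E) (w : E × Bool → V) (k : ℕ)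
    (f g : E × Bool → ℝ) : ℝ :=
  aQQ U fun a b => cc Ω s w a b ^ k * (f a * g b)

lemma cc_comm (a b : E × Bool) : cc Ω s w a b = cc Ω s w b a :=
  gb_congr fun _ _ => mul_comm _ _

lemma abs_cc (hΩ : Ω.Nonempty) (a b : E × Bool) : |cc Ω s w a b| ≤ 1 :=
  abs_gb_le hΩ fun _ _ => abs_Y1 _ _ _

lemma abs_mm (hΩ : Ω.Nonempty) (a : E × Bool) : |mm Ω s w a| ≤ 1 :=
  abs_gb_le hΩ fun _ _ => (abs_sgn _).le

lemma BB_comm (k : ℕ) (f g : E × Bool → ℝ) : BB Ω s U w k f g = BB Ω s U w k g f := by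
  unfold BB
  rw [← aQQ_comm]
  congr 1
  funext a b
  rw [cc_comm, mul_comm (f b)]

lemma BB_succ (k : ℕ) (f : E × Bool → ℝ) :
    BB Ω s U w (k + 1) f f = gb Ω Y1 1 s w fun σ =>
      BB Ω s U w k (fun a => f a * sgn (σ (w a))) fun a => f a * sgn (σ (w a)) := by
  unfold BB
  rw [gb_aQQ]
  congr 1
  funext a b
  rw [pow_succ, mul_right_comm]
  conv_lhs => rw [show cc Ω s w a b ^ k * (f a * f b) * cc Ω s w a b
    = cc Ω s w a b ^ k * (f a * f b) * gb Ω Y1 1 s w fun σ => Y1 σ (w a) (w b) from rfl, ← gb_mul]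
  exact gb_congr fun σ _ => by unfold Y1; ring

lemma BB_nonneg (hΩ : Ω.Nonempty) (k : ℕ) : ∀ f : E × Bool → ℝ, 0 ≤ BB Ω s U w k f f := by
  induction k with
  | zero =>
    intro f
    unfold BB aQQ
    simp only [pow_zero, one_mul]
    rw [← sum_mul_sum]
    exact div_nonneg (mul_self_nonneg _) (sq_nonneg _)
  | succ k ih =>
    intro f
    rw [BB_succ]
    exact const_le_gb hΩ fun σ _ => ih _

lemma BB_le (hΩ : Ω.Nonempty) (hU : 1 ≤ U.card) (k : ℕ) {f : E × Bool → ℝ} (hf : ∀ a, |f a| ≤ 1) :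
    BB Ω s U w k f f ≤ 1 := by
  refine (aQQ_mono hU fun a _ b _ => ?_).trans_eq (aQQ_const hU 1)
  refine (le_abs_self _).trans ?_
  rw [abs_mul, abs_mul, abs_pow]
  exact mul_le_one₀ (pow_le_one₀ (abs_nonneg _) (abs_cc hΩ a b)) (by positivity)
    (mul_le_one₀ (hf a) (abs_nonneg _) (hf b))

lemma BB_exp (k : ℕ) (t : ℝ) (f g : E × Bool → ℝ) :
    BB Ω s U w k (fun a => t * f a + g a) (fun a => t * f a + g a)
      = t ^ 2 * BB Ω s U w k f f + 2 * t * BB Ω s U w k f g + BB Ω s U w k g g := by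
  have e : BB Ω s U w k (fun a => t * f a + g a) (fun a => t * f a + g a)
      = t ^ 2 * BB Ω s U w k f f + t * BB Ω s U w k f g + t * BB Ω s U w k g f
        + BB Ω s U w k g g := by
    unfold BB
    rw [← aQQ_smul, ← aQQ_smul, ← aQQ_smul, ← aQQ_add, ← aQQ_add, ← aQQ_add]
    congr 1
    funext a b
    ring
  rw [e, BB_comm k g f]
  ring

lemma BB_am (hΩ : Ω.Nonempty) (hU : 1 ≤ U.card) (k : ℕ) {t : ℝ} (ht : 0 < t)
    {f : E × Bool → ℝ} (hf : ∀ a, |f a| ≤ 1) (g : E × Bool → ℝ) :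
    |2 * BB Ω s U w k f g| ≤ t + BB Ω s U w k g g / t := by
  have h1 := BB_nonneg (s := s) (U := U) (w := w) hΩ k fun a => t * f a + g a
  have h2 := BB_nonneg (s := s) (U := U) (w := w) hΩ k fun a => -t * f a + g a
  rw [BB_exp] at h1 h2
  have h3 := mul_le_mul_of_nonneg_left (BB_le (s := s) (w := w) hΩ hU k hf) (sq_nonneg t)
  rw [add_div' _ _ _ ht.ne', le_div_iff₀ ht, ← abs_of_pos ht, ← abs_mul, abs_of_pos ht, abs_le]
  constructor <;> nlinarith

omit [Fintype E] [DecidableEq E] in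
lemma hs_aQQ {F : E × Bool → E × Bool → ℕ → ℝ} {K : E × Bool → E × Bool → ℝ}
    (h : ∀ a b, HasSum (F a b) (K a b)) :
    HasSum (fun k => aQQ U fun a b => F a b k) (aQQ U K) :=
  (hasSum_sum fun a _ => hasSum_sum fun b _ => h a b).div_const _

lemma th_pos : 0 < Real.tanh 1 := by
  rw [Real.tanh_eq_sinh_div_cosh]
  exact div_pos (Real.sinh_pos_iff.2 one_pos) (Real.cosh_pos _)

lemma hs_GG (hΩ : Ω.Nonempty) :
    HasSum (fun i : ℕ => Real.tanh 1 ^ (2 * i + 1) / (2 * i + 1)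
      * BB Ω s U w (2 * i + 1) (fun _ => 1) fun _ => 1) (GG Ω s U w) := by
  have h := hs_aQQ (U := U) fun a b => (Real.hasSum_log_sub_log_of_abs_lt_one
    (x := Real.tanh 1 * cc Ω s w a b) (by
      rw [abs_mul]
      exact (mul_le_of_le_one_right (abs_nonneg _) (abs_cc hΩ a b)).trans_lt
        (Real.abs_tanh_lt_one 1))).div_const 2
  convert h using 2 with i
  · unfold BB
    rw [← aQQ_smul]
    congr 1
    funext a b
    rw [mul_pow]
    ring
  · rfl

lemma term_nonneg (hΩ : Ω.Nonempty) (i : ℕ) : 0 ≤ Real.tanh 1 ^ (2 * i + 1) / (2 * i + 1)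
      * BB Ω s U w (2 * i + 1) (fun _ => 1) fun _ => 1 :=
  mul_nonneg (div_nonneg (pow_pos th_pos _).le (by positivity)) (BB_nonneg hΩ _ _)

lemma GG_nonneg (hΩ : Ω.Nonempty) : 0 ≤ GG Ω s U w :=
  (hs_GG hΩ).nonneg (term_nonneg hΩ)

lemma odd_le (hΩ : Ω.Nonempty) (i : ℕ) :
    BB Ω s U w (2 * i + 1) (fun _ => 1) (fun _ => 1) * Real.tanh 1 ^ (2 * i + 1)
      ≤ (2 * i + 1) * GG Ω s U w := by
  have h := le_hasSum (hs_GG (s := s) (U := U) (w := w) hΩ) i fun j _ => term_nonneg hΩ j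
  rw [div_mul_eq_mul_div, div_le_iff₀ (by positivity)] at h
  linarith

lemma key (hΩ : Ω.Nonempty) (hU : 1 ≤ U.card) (k : ℕ) {t : ℝ} (ht : 0 < t) :
    ∃ g : ℝ, g * Real.tanh 1 ^ (k + 1) ≤ (k + 1) * GG Ω s U w ∧
      |2 * BB Ω s U w k (mm Ω s w) fun _ => 1| ≤ t + g / t := by
  obtain ⟨i, rfl | rfl⟩ := Nat.even_or_odd' k
  · refine ⟨_, by exact_mod_cast odd_le hΩ i, ?_⟩
    have e : BB Ω s U w (2 * i) (mm Ω s w) (fun _ => 1) = gb Ω Y1 1 s w fun σ =>
        BB Ω s U w (2 * i) (fun _ => 1) fun a => 1 * sgn (σ (w a)) := by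
      rw [BB_comm]
      unfold BB
      rw [gb_aQQ]
      congr 1
      funext a b
      simp only [one_mul]
      rw [gb_mul]
      rfl
    rw [e, BB_succ, ← gb_mul, ← gb_div, ← gb_const (Y := Y1) (β := 1) (s := s) (w := w) hΩ t,
      ← gb_add]
    refine (abs_wav_le_wav_abs hΩ (bw_pos' _ _ _ _ _) _).trans (gb_mono hΩ fun σ _ => ?_)
    rw [gb_const hΩ]
    exact BB_am hΩ hU _ ht (fun _ => by simp) _
  · refine ⟨_, ?_, BB_am hΩ hU _ ht (abs_mm hΩ) _⟩
    have h1 := odd_le (s := s) (U := U) (w := w) hΩ i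
    have h2 := GG_nonneg (s := s) (U := U) (w := w) hΩ
    have h3 := mul_nonneg (BB_nonneg (s := s) (U := U) (w := w) hΩ (2 * i + 1) fun _ => 1)
      (pow_pos th_pos (2 * i + 1)).le
    have h4 := Real.tanh_lt_one 1
    rw [pow_succ, ← mul_assoc]
    push_cast
    nlinarith

lemma hs_left (hΩ : Ω.Nonempty) {x : ℝ} (hx : |x| < 1) :
    HasSum (fun k : ℕ => (-x) ^ k * ((1 + x) * BB Ω s U w k (mm Ω s w) fun _ => 1))
      (aQQ U fun a b => (mm Ω s w a + x * mm Ω s w b) / (1 + x * cc Ω s w a b)) := by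
  have h := hs_aQQ (U := U) fun a b => (hasSum_geometric_of_abs_lt_one
    (r := -x * cc Ω s w a b) (by
      rw [abs_mul, abs_neg]
      exact (mul_le_of_le_one_right (abs_nonneg _) (abs_cc hΩ a b)).trans_lt hx)).mul_left
        (mm Ω s w a + x * mm Ω s w b)
  convert h using 2 with k
  · rw [add_mul, one_mul]
    conv_lhs => rw [BB_comm k (mm Ω s w) fun _ => 1]
    conv_lhs => enter [2, 1]; rw [BB_comm]
    unfold BB
    rw [← aQQ_smul, ← aQQ_add, ← aQQ_smul]
    congr 1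
    funext a b
    rw [mul_pow]
    ring
  · funext a b
    rw [div_eq_mul_inv, neg_mul, sub_neg_eq_add]

end Ker

open Ker in
theorem zKer : ZKer := by
  have t0 := th_pos
  have t1 := Real.tanh_lt_one 1
  obtain ⟨r, r0, hr⟩ : ∃ r : ℝ, 0 < r ∧ Real.tanh 1 = r ^ 2 :=
    ⟨_, Real.sqrt_pos.2 t0, (Real.sq_sqrt t0.le).symm⟩
  have r1 : r < 1 := by nlinarith
  have ra : |r| < 1 := by rwa [abs_of_pos r0]
  have g1 := hasSum_geometric_of_abs_lt_one ra
  have g2 := (hasSum_coe_mul_geometric_of_norm_lt_one (r := r) ra).add g1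
  set S := r / (1 - r) ^ 2 + (1 - r)⁻¹
  have q0 : 0 < 1 - r := by linarith
  refine ⟨max 1 (S / (r ^ 2 * (1 - r))), le_max_left _ _, ?_⟩
  intro V E _ _ _ _ Ω s U w j lam hΩ hU hj hl
  have hG := GG_nonneg (s := s) (U := U) (w := w) hΩ
  refine ⟨hG, ?_⟩
  have hx : |j * Real.tanh 1| ≤ Real.tanh 1 := by
    rw [abs_mul, abs_of_pos t0]
    exact mul_le_of_le_one_left t0.le hj
  have h1 := hs_left (s := s) (U := U) (w := w) hΩ (hx.trans_lt t1)
  have h2 := (g1.mul_left (lam * (1 - r))).add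
    (g2.mul_left (GG Ω s U w / (lam * (r ^ 2 * (1 - r)))))
  refine (hasSum_le (fun k => ?_) h1 h2).trans ?_
  · have rk : 0 < r ^ k := pow_pos r0 k
    obtain ⟨g, hg, hb⟩ := key (s := s) (U := U) (w := w) hΩ hU k
      (t := lam * (1 - r) / r ^ k) (by positivity)
    refine (le_abs_self _).trans ?_
    rw [abs_mul, abs_mul, abs_pow, abs_neg]
    have a1 : |j * Real.tanh 1| ^ k ≤ (r ^ k) ^ 2 := by
      rw [← pow_mul, mul_comm k, pow_mul, ← hr]
      exact pow_le_pow_left₀ (abs_nonneg _) hx k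
    have a2 : |1 + j * Real.tanh 1| ≤ |2| := by
      refine (abs_add_le _ _).trans ?_
      rw [abs_one, abs_two]
      linarith
    refine (mul_le_mul a1 ((mul_le_mul_of_nonneg_right a2 (abs_nonneg _)).trans
      ((abs_mul _ _).symm.trans_le hb)) (by positivity) (by positivity)).trans ?_
    rw [hr, ← pow_mul, mul_comm 2, pow_mul, pow_succ r k, mul_pow] at hg
    have e : (r ^ k) ^ 2 * (lam * (1 - r) / r ^ k + g / (lam * (1 - r) / r ^ k))
        = lam * (1 - r) * r ^ k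
          + r ^ k / (lam * (r ^ 2 * (1 - r))) * (g * ((r ^ k) ^ 2 * r ^ 2)) := by
      field_simp
    rw [e]
    refine add_le_add le_rfl ((mul_le_mul_of_nonneg_left hg (by positivity)).trans_eq ?_)
    ring
  · rw [mul_assoc, mul_inv_cancel₀ q0.ne', mul_one]
    refine add_le_add le_rfl ?_
    calc _ = S / (r ^ 2 * (1 - r)) * GG Ω s U w / lam := by field_simp
      _ ≤ _ := by gcongr; exact le_max_right _ _

end Pool.Agent.MP_32a90a_pr.D.AZ

end

section

set_option autoImplicit false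

namespace Pool.Agent.MP_32a90a_pr.D.AZ

open Finset Equiv Filter Pool.Agent.MP_32a90a_pr Pool.Agent.MP_32a90a_pr.L

namespace Lay

theorem abs_HH {V E : Type} [Fintype V] [DecidableEq V] [Fintype E] [DecidableEq E] {s : E → ℝ}
    {B : ℝ} (w : E × Bool → V) (hs : ∀ i, |s i| ≤ 1) (hB : |B| ≤ 1) (σ : V → Bool) :
    |HH s B w σ| ≤ Fintype.card E + Fintype.card V := by
  unfold HH
  refine (abs_add_le _ _).trans (add_le_add (abs_en_le hs σ) ?_)
  rw [abs_mul]
  exact (mul_le_of_le_one_left (abs_nonneg _) hB).trans (abs_mag_le σ)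

end Lay

open JLayer in
theorem zLay : ZLay := by
  intro V E _ _ _ _ Ω s B w d a0 β x L hb hd hs hB hR hβ hx hx1 hL
  classical
  have hL0 : 0 ≤ L := le_trans (neg_nonneg.2 (Real.log_nonpos hx.le hx1)) hL
  obtain ⟨m, hm⟩ : ∃ m, m = mxH Ω s B w := ⟨_, rfl⟩
  obtain ⟨R, hR'⟩ : ∃ R, R = 3 * L * ((a0 : ℝ) + 1) + x * (Fintype.card V : ℝ) +
    55296 * L ^ 3 * (Fintype.card V : ℝ) / ((d : ℝ) * β ^ 2) := ⟨_, rfl⟩
  have h1 : ∀ l : ℝ, 0 ≤ l → ((nr Ω s B w l).card : ℝ) ≤ Real.exp (R + β * l) := fun l hl => by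
    obtain ⟨a, a1, a2, a3⟩ := pick d a0 (64 * Fintype.card V) l β L hd (by positivity) hl hβ hL0
    refine ((sauer _ (3 * a) fun W hW => ?_).trans (stBin _ _ x L hx hx1 hL)).trans
      (Real.exp_le_exp.2 ?_)
    · by_contra hc
      have := hR a l W a1 hl (not_le.1 hc).le hW
      linarith
    · have e : 864 * L ^ 3 * (64 * (Fintype.card V : ℝ)) = 55296 * L ^ 3 * Fintype.card V := by
        ring
      rw [e] at a3
      push_cast
      linarith
  have h2 : ∀ y ∈ Ω, HH s B w y ≤ m := fun y hy => hm ▸ le_mxH hy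
  have h3 : m ≤ Fintype.card E + Fintype.card V :=
    hm ▸ mxH_le hb fun y _ => (abs_le.1 (Lay.abs_HH w hs hB y)).2
  have h4 : ∀ y ∈ Ω, ⌊m - HH s B w y⌋₊ ∈ range (2 * (Fintype.card E + Fintype.card V) + 1) := by
    intro y _
    refine mem_range.2 (Nat.lt_succ_of_le (Nat.floor_le_of_le ?_))
    have := (abs_le.1 (Lay.abs_HH w hs hB y)).1
    push_cast
    linarith
  have h5 : ∑ y ∈ Ω, Real.exp (β * HH s B w y) ≤
      (2 * ((Fintype.card E : ℝ) + Fintype.card V) + 1) * Real.exp (β * m + β + R) := by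
    rw [← sum_fiberwise_of_maps_to h4]
    refine (sum_le_card_nsmul _ _ (Real.exp (β * m + β + R)) fun q _ => ?_).trans (le_of_eq ?_)
    · refine (sum_le_card_nsmul _ _ (Real.exp (β * m - β * q)) fun y hy => ?_).trans ?_
      · obtain ⟨y1, rfl⟩ := mem_filter.1 hy
        have := mul_le_mul_of_nonneg_left (Nat.floor_le (sub_nonneg.2 (h2 y y1))) hβ.le
        exact Real.exp_le_exp.2 (by linarith)
      · have h6 : (Ω.filter fun y => ⌊m - HH s B w y⌋₊ = q) ⊆ nr Ω s B w (q + 1) := fun y hy => by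
          obtain ⟨y1, rfl⟩ := mem_filter.1 hy
          have := Nat.lt_floor_add_one (m - HH s B w y)
          exact mem_filter.2 ⟨y1, by rw [← hm]; linarith⟩
        have h7 := (Nat.cast_le.2 (card_le_card h6)).trans (h1 (q + 1) (by positivity))
        rw [nsmul_eq_mul]
        refine (mul_le_mul_of_nonneg_right h7 (Real.exp_pos _).le).trans (le_of_eq ?_)
        rw [← Real.exp_add]
        congr 1
        ring
    · rw [card_range, nsmul_eq_mul]
      push_cast
      rfl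
  have h6 := Real.log_le_log (sum_exp_pos hb) h5
  rw [Real.log_mul (by positivity) (Real.exp_pos _).ne', Real.log_exp] at h6
  rw [← hm]
  refine le_trans h6 (le_of_eq ?_)
  rw [hR']
  ring

theorem zB1m (h : StB1w) : ZB1m := by
  obtain ⟨C, hC, h⟩ := h
  refine ⟨C, hC, h.mono fun d hd η hη => (hd η hη).mono ?_⟩
  intro V E _ _ _ _ w0 _ hP F Ω hF hΩ
  have h1 := hP ∅ ∅ F 1 0 Ω (by simpa using hF) (by norm_num) le_rfl (by simp) hΩ
  have hN : (0 : ℝ) ≤ Fintype.card V := Nat.cast_nonneg _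
  have hl : 0 ≤ C * ell d ^ 3 / d * Fintype.card V := by
    have : 0 ≤ ell d := Real.log_natCast_nonneg d
    positivity
  have h2 : FF w0 ∅ ∅ F 1 0 Ω ≤ ED w0 fun w J => (mxH Ω (cp ∅ ∅ F J) 0 w +
      C * ell d ^ 3 / d * Fintype.card V) + Fintype.card V *
        ind (1 * mxH Ω (cp ∅ ∅ F J) 0 w + C * ell d ^ 3 / d * Fintype.card V
          < lzH Ω 1 (cp ∅ ∅ F J) 0 w) := by
    refine ED_mono fun w J => ?_
    by_cases hb : 1 * mxH Ω (cp ∅ ∅ F J) 0 w + C * ell d ^ 3 / d * Fintype.card V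
        < lzH Ω 1 (cp ∅ ∅ F J) 0 w
    · have := lzH_le_mxH (β := 1) (s := cp ∅ ∅ F J) (B := 0) (w := w) hΩ zero_le_one
      rw [ind_pos hb]
      linarith
    · rw [ind_neg hb]
      linarith [not_lt.1 hb]
  rw [ED_add, ED_add, ED_const, ED_mul] at h2
  have h3 := mul_le_mul_of_nonneg_left h1 hN
  unfold PD at h3
  unfold VV
  linarith

end Pool.Agent.MP_32a90a_pr.D.AZ

end

section

set_option autoImplicit false

namespace Pool.Agent.MP_32a90a_pr.D.AZ

open Finset Equiv Filter Pool.Agent.MP_32a90a_pr Pool.Agent.MP_32a90a_pr.L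

namespace Match

lemma count {E X : Type} [Fintype E] [Fintype X] (S T' : E → X)
    (h : ∀ i i', S i ≠ T' i → S i' ≠ T' i' → S i' ≠ T' i) :
    ∑ i, ind (S i ≠ T' i) ≤ ∑ x, |nx S x - nx T' x| := by
  have e1 : ∑ i, ind (S i ≠ T' i) = ∑ x, ∑ i, ind (S i ≠ T' i ∧ T' i = x) := by
    rw [sum_comm]
    refine sum_congr rfl fun i _ => ?_
    rw [sum_eq_single (T' i) (fun x _ hx => ind_neg fun h => hx h.2.symm)
      (fun h => absurd (mem_univ _) h)]
    exact ind_congr (by simp)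
  rw [e1]
  refine sum_le_sum fun x _ => ?_
  by_cases hb : ∃ i, S i ≠ T' i ∧ T' i = x
  · obtain ⟨i, hi, hx⟩ := hb
    refine le_trans ?_ (neg_le_abs _)
    rw [neg_sub, nx, nx, ← sum_sub_distrib]
    refine sum_le_sum fun j _ => ?_
    by_cases hj : S j = T' j
    · rw [ind_neg (fun h => h.1 hj), hj, sub_self]
    · have : ¬ S j = x := hx ▸ h i j hi hj
      rw [ind_neg this, sub_zero]
      exact ind_mono fun h => h.2
  · rw [sum_eq_zero fun i _ => ind_neg fun h => hb ⟨i, h⟩]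
    exact abs_nonneg _

lemma nx_comp {E X : Type} [Fintype E] (ρ : Perm E) (T : E → X) (x : X) :
    nx (fun i => T (ρ i)) x = nx T x := Equiv.sum_comp ρ fun i => ind (T i = x)

section
variable {V E B : Type} [Fintype V] [DecidableEq V] [Fintype E] [DecidableEq E]

omit [Fintype V] [DecidableEq V] [Fintype E] [DecidableEq E] in
lemma mt_comp (ρ : Perm E) (β : V → B) (T : E → Ty B) (w : E × Bool → V) :
    mt β (fun i => T (ρ i)) (w ∘ ρ.prodCongr (Equiv.refl Bool)) ↔ mt β T w := by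
  refine ⟨fun h i x hx => ?_, fun h i x hx => h (ρ i) x hx⟩
  obtain ⟨j, rfl⟩ := ρ.surjective i
  exact h j x hx

omit [DecidableEq V] [DecidableEq E] in
lemma mxH_comp (ρ : Perm E) (Ω : Finset (V → Bool)) (T : E → Ty B) (w : E × Bool → V) :
    mxH Ω (sT fun i => T (ρ i)) 0 (w ∘ ρ.prodCongr (Equiv.refl Bool)) = mxH Ω (sT T) 0 w := by
  unfold mxH
  refine iSup_congr fun σ => ?_
  unfold HH en
  rw [← Equiv.sum_comp ρ fun i => sT T i * Y1 σ (w (i, false)) (w (i, true))]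
  rfl

lemma ms_comp (ρ : Perm E) (w0 : E × Bool → V) (β : V → B) (T : E → Ty B) :
    ms w0 β (fun i => T (ρ i)) = ms w0 β T := by
  unfold ms
  rw [← av_comp (ρ.prodCongr (Equiv.refl Bool))]
  exact congrArg _ (funext fun w => ind_congr (mt_comp ρ β T w))

lemma Phi_comp (ρ : Perm E) (w0 : E × Bool → V) (β : V → B) (Ω : Finset (V → Bool))
    (T : E → Ty B) : Phi w0 β Ω (fun i => T (ρ i)) = Phi w0 β Ω T := by
  unfold Phi
  rw [ms_comp, ← av_comp (ρ.prodCongr (Equiv.refl Bool))]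
  congr 2
  funext w
  rw [ind_congr (mt_comp ρ β T w), mxH_comp]

end

end Match

theorem zMatch : ZMatch := by
  intro E X _ _ _ T T'
  obtain ⟨ρ, hρ⟩ := Finite.exists_min fun ρ : Perm E => ∑ i, ind (T (ρ i) ≠ T' i)
  refine ⟨ρ, ?_⟩
  have key := Match.count (fun i => T (ρ i)) T' fun i i' hi hi' e => by
    refine (hρ (ρ * swap i i')).not_gt (sum_lt_sum (fun j _ => ?_) ⟨i, mem_univ _, ?_⟩)
    · refine ind_mono fun h => ?_
      by_cases h1 : j = i
      · exact h1 ▸ hi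
      by_cases h2 : j = i'
      · exact h2 ▸ hi'
      rwa [Perm.mul_apply, swap_apply_of_ne_of_ne h1 h2] at h
    · rw [Perm.mul_apply, swap_apply_left, ind_neg (not_not.2 e), ind_pos hi]
      exact one_pos
  simpa only [Match.nx_comp] using key

theorem zCnt (h1 : ZLip) (h2 : ZMatch) : ZCnt := by
  intro V E B _ _ _ _ _ w0 d β Ω T T' hd hΩ hT hT'
  obtain ⟨ρ, hρ⟩ := h2 E (Ty B) T T'
  have := h1 V E B w0 d β Ω (fun i => T (ρ i)) T' hd hΩ (by rwa [Match.ms_comp]) hT'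
  rw [Match.Phi_comp] at this
  linarith

end Pool.Agent.MP_32a90a_pr.D.AZ

end

section

set_option autoImplicit false

namespace Pool.Agent.MP_32a90a_pr.D.AZ

open Finset Equiv Filter Pool.Agent.MP_32a90a_pr Pool.Agent.MP_32a90a_pr.L

namespace Max

variable {V E : Type} [Fintype V] [DecidableEq V] [Fintype E] [DecidableEq E]

omit [Fintype V] [DecidableEq V] in
lemma Y1_cases (σ : V → Bool) (u v : V) : Y1 σ u v = 1 ∨ Y1 σ u v = -1 := by
  unfold Y1
  cases σ u <;> cases σ v <;> simp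

lemma even_diff {s : E → ℝ} (hs : ∀ i, s i = 0 ∨ s i = 1 ∨ s i = -1) (w : E × Bool → V)
    (σ τ : V → Bool) : ∃ n : ℤ, HH s 0 w σ - HH s 0 w τ = 2 * n := by
  have h : ∀ i, ∃ n : ℤ, s i * Y1 σ (w (i, false)) (w (i, true))
      - s i * Y1 τ (w (i, false)) (w (i, true)) = 2 * n := fun i => by
    rcases hs i with h | h | h <;> rcases Y1_cases σ (w (i, false)) (w (i, true)) with a | a <;>
      rcases Y1_cases τ (w (i, false)) (w (i, true)) with b | b <;> rw [h, a, b] <;>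
      first
        | (refine ⟨0, ?_⟩; norm_num; done)
        | (refine ⟨1, ?_⟩; norm_num; done)
        | (refine ⟨-1, ?_⟩; norm_num)
  choose n hn using h
  refine ⟨∑ i, n i, ?_⟩
  rw [HH_zero, HH_zero, en, en, ← sum_sub_distrib, Int.cast_sum, mul_sum]
  exact sum_congr rfl fun i _ => hn i

omit [Fintype V] [DecidableEq V] in
lemma val_neg {j : Bool} {σ : V → Bool} {u v : V} (h : σ u = if j then !σ v else σ v) :
    sgn j * Y1 σ u v = -1 := by
  unfold Y1
  rw [h]
  cases j <;> cases σ v <;> simp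

omit [Fintype V] [DecidableEq V] in
lemma val_pos {j : Bool} {σ : V → Bool} {u v : V} (h : ¬ σ u = if j then !σ v else σ v) :
    sgn j * Y1 σ u v = 1 := by
  unfold Y1
  revert h
  cases j <;> cases σ v <;> cases σ u <;> simp

end Max

theorem zMax : ZMax := by
  intro V E _ _ _ _ Ω s w j u v hΩ hs
  by_cases h : ∀ σ ∈ Ω, HH s 0 w σ = mxH Ω s 0 w → σ u = if j then !σ v else σ v
  · rw [ind_pos h]
    obtain ⟨τ, hτ, eτ⟩ := exists_mxH (s := s) (B := 0) (w := w) hΩ
    apply le_antisymm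
    · obtain ⟨σ, hσ, eσ⟩ := exists_mxJ (s := s) (w := w) hΩ (sgn j) u v
      rw [← eσ]
      by_cases e : HH s 0 w σ = mxH Ω s 0 w
      · rw [Max.val_neg (h σ hσ e), e]; linarith
      · obtain ⟨n, hn⟩ := Max.even_diff hs w τ σ
        have h1 := lt_of_le_of_ne (le_mxH (s := s) (B := 0) (w := w) hσ) e
        have h2 : (0 : ℝ) < n := by linarith
        have h3 : (1 : ℝ) ≤ n := by exact_mod_cast (show (1 : ℤ) ≤ n by exact_mod_cast h2)
        have h4 : sgn j * Y1 σ u v ≤ 1 := by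
          rcases Max.Y1_cases σ u v with a | a <;> rw [a] <;> cases j <;> simp
        linarith
    · have := le_mxJ (s := s) (w := w) (j := sgn j) (u := u) (v := v) hτ
      rw [Max.val_neg (h τ hτ eτ), eτ] at this
      linarith
  · rw [ind_neg h]
    push Not at h
    obtain ⟨σ, hσ, e, hn⟩ := h
    have h1 := le_mxJ (s := s) (w := w) (j := sgn j) (u := u) (v := v) hσ
    rw [Max.val_pos hn, e] at h1
    have h2 := (abs_le.1 (abs_mxJ_sub (s := s) (w := w) hΩ (abs_sgn j).le u v)).2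
    linarith

theorem zStep0 (h : ZMax) : ZStep0 := by
  intro V E _ _ _ _ w0 Ω U s k hΩ hU hs hsU hk hkU
  classical
  let K : Bool → (E × Bool → V) → E × Bool → E × Bool → ℝ := fun j w a b =>
    1 - 2 * ind (∀ σ ∈ Ω, HH s 0 w σ = mxH Ω s 0 w →
      σ (w a) = if j then !σ (w b) else σ (w b))
  let G : Bool → (E × Bool → V) → ℝ := fun j w =>
    mxH Ω (Function.update s k (sgn j)) 0 w - mxH Ω s 0 w
  have hJ : ∀ (J : ℝ) (w : E × Bool → V), mxH Ω (Function.update s k J) 0 w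
      = mxJ Ω s w J (w (k, false)) (w (k, true)) := fun J w => by
    unfold mxH mxJ
    refine iSup_congr fun σ => ?_
    rw [HH_zero, HH_zero, en_update k hk]
  have hG : ∀ j w, |G j w| ≤ 1 := fun j w => by
    simp only [G, hJ]
    exact abs_mxJ_sub hΩ (abs_sgn j).le _ _
  have hK : ∀ j w a b, |K j w a b| ≤ 1 := fun j w a b => by
    simp only [K]
    rcases ind_cases (∀ σ ∈ Ω, HH s 0 w σ = mxH Ω s 0 w →
      σ (w a) = if j then !σ (w b) else σ (w b)) with e | e <;> rw [e] <;> norm_num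
  have hGK : ∀ j w, ∀ a ∈ cav U, ∀ b ∈ cav U, a ≠ b → G j (w ∘ ex k a b) = K j w a b := by
    intro j w a ha b hb hab
    have e0 : ∀ σ, HH s 0 (w ∘ ex k a b) σ = HH s 0 w σ := fun σ => by
      rw [HH_zero, HH_zero, en_ex_zero Y1 hsU hk ha hb]
    have e1 : mxH Ω s 0 (w ∘ ex k a b) = mxH Ω s 0 w := by
      unfold mxH
      exact iSup_congr fun σ => e0 σ
    have e2 : mxH Ω (Function.update s k (sgn j)) 0 (w ∘ ex k a b)
        = mxJ Ω s w (sgn j) (w a) (w b) := by
      rw [hJ]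
      unfold mxJ
      refine iSup_congr fun σ => ?_
      rw [e0, Function.comp_apply, Function.comp_apply, ex_false hkU ha hb, ex_true hkU ha hb hab]
    simp only [G, K]
    rw [e1, e2, h V E Ω s w j (w a) (w b) hΩ hs]
    ring
  have h1 := offdiag_le (w0 := w0) hU k le_rfl (hG false) (hK false)
    fun w a ha b hb hab => by rw [hGK false w a ha b hb hab, add_zero]
  have h2 := offdiag_ge (w0 := w0) hU k le_rfl (hG true) (hK true)
    fun w a ha b hb hab => by rw [hGK true w a ha b hb hab, sub_zero]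
  have h3 : av w0 (fun w => aQQ U (K false w)) ≤ av w0 fun w => aQQ U (K true w) := by
    refine av_mono fun w => ?_
    let O := {σ : V → Bool // σ ∈ Ω ∧ HH s 0 w σ = mxH Ω s 0 w}
    let φ : E × Bool → O → Bool := fun a σ => σ.1 (w a)
    let ι : Perm (O → Bool) := Function.Involutive.toPerm (fun ψ x => !ψ x) (by
      intro ψ; funext x; simp)
    have hp := pair_count (cav U) φ ι
    have e1 : ∀ a b, K false w a b = 1 - 2 * (if φ a = φ b then 1 else 0 : ℝ) := fun a b => by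
      simp only [K]
      by_cases e : φ a = φ b
      · rw [if_pos e, ind_pos fun σ h1 h2 => by simpa using congrFun e ⟨σ, h1, h2⟩]
      · rw [if_neg e, ind_neg fun hh => e (funext fun σ => by simpa using hh σ.1 σ.2.1 σ.2.2)]
    have e2 : ∀ a b, K true w a b = 1 - 2 * (if φ a = ι (φ b) then 1 else 0 : ℝ) := fun a b => by
      simp only [K]
      by_cases e : φ a = ι (φ b)
      · rw [if_pos e, ind_pos]
        exact fun σ h1 h2 => congrFun e ⟨σ, h1, h2⟩
      · rw [if_neg e, ind_neg]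
        exact fun hh => e (funext fun σ => hh σ.1 σ.2.1 σ.2.2)
    unfold aQQ
    refine div_le_div_of_nonneg_right ?_ (sq_nonneg _)
    simp only [e1, e2, sum_sub_distrib, ← mul_sum]
    linarith
  simp only [G, av_sub, sgn_true, sgn_false] at h1 h2
  have e : (2 : ℝ) / U.card = 1 / U.card + 1 / U.card := by ring
  linarith

end Pool.Agent.MP_32a90a_pr.D.AZ

end

section

set_option autoImplicit false

namespace Pool.Agent.MP_32a90a_pr.D.AZ

open Finset Equiv Filter Pool.Agent.MP_32a90a_pr Pool.Agent.MP_32a90a_pr.L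

theorem zMerge (h1 : ZInt) (h2 : ZSplit) : ZMerge := by
  intro d J0 η hd hη
  obtain ⟨N0, hN⟩ := h1 d (1 / (J0 + 1)) η hd (by positivity) hη
  filter_upwards [eventually_ge_atTop N0] with k hk j a b hj hJ hne
  have hc : Fintype.card (Σ _ : Fin j, Fin (2 * k)) = 2 * (j * k) := by
    simp only [Fintype.card_sigma, Fintype.card_fin, sum_const, card_univ, smul_eq_mul]
    ring
  have hc' : (Fintype.card (Σ _ : Fin j, Fin (2 * k)) : ℝ) = 2 * (j * k) := by
    rw [hc]
    push_cast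
    rfl
  have hk' : (Fintype.card (Fin (2 * k)) : ℝ) = 2 * k := by simp
  obtain ⟨s1, s2⟩ := h2 (Fin j) (fun _ => Fin (2 * k)) (fun _ => Fin (k * d)) (fun _ => cw d k)
    (fun _ => ∅) (fun _ => ∅) ⟨0, hj⟩ (win _ a b) (fun _ _ => win _ a b)
    (fun _ => VV (cw d k) ∅ ∅ ∅ 0 (win (Fin (2 * k)) a b)) (win _ a b) hne
    (fun _ _ _ _ => ⟨hne, le_rfl⟩) (fun σ e1 e2 => by
      have e3 : ∀ c : Fin j, (fun v => σ ⟨c, v⟩) ∈ win (Fin (2 * k)) a b := fun c => by
        by_cases hc0 : c = ⟨0, hj⟩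
        · rw [hc0]
          exact e1
        · exact e2 c hc0
      have e4 := sum_le_sum fun c (_ : c ∈ univ) => (mem_win.1 (e3 c)).1
      have e5 := sum_le_sum fun c (_ : c ∈ univ) => (mem_win.1 (e3 c)).2
      simp only [hk', sum_const, card_univ, Fintype.card_fin, nsmul_eq_mul] at e4 e5
      rw [mem_win, mag_sigma, hc']
      push_cast at e4 e5
      constructor <;> linarith)
  have e0 : (univ.sigma fun _ : Fin j => (∅ : Finset (Fin (k * d)))) = ∅ := by
    ext x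
    simp
  have hjk : k ≤ j * k := Nat.le_mul_of_pos_left k hj
  have s3 := hN (Fin j) (fun _ => Fin (2 * k)) (fun _ => Fin (k * d)) (fun _ => cw d k) ∅ ∅ false
    (win _ a b) (fun _ => cw_deg d k) (by omega) (fun _ => by
      have : (j : ℝ) ≤ J0 := by exact_mod_cast hJ
      have : (0 : ℝ) ≤ k := Nat.cast_nonneg k
      rw [hc', hk', one_div_mul_eq_div, div_le_iff₀ (by positivity)]
      nlinarith) s1 (fun y => by simp [cm, avg_zero])
  obtain ⟨s4, s5⟩ := VV_same (sg_deg (wb := fun _ : Fin j => cw d k) fun _ => cw_deg d k)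
    (cw_deg d (j * k)) (by rw [hc, Fintype.card_fin])
    (fun m => a * (2 * (j * k)) ≤ m ∧ m ≤ b * (2 * (j * k))) (Ω := win _ a b) (Ω' := win _ a b)
    (fun σ => by rw [mem_win, hc']) (fun σ => by
      rw [mem_win, Fintype.card_fin]
      push_cast
      rfl) false false
  refine ⟨s4.1 s1, ?_⟩
  rw [e0, sum_const, card_erase_of_mem (mem_univ _), card_univ, Fintype.card_fin, nsmul_eq_mul,
    Nat.cast_pred hj] at s2
  simp only [Bool.false_eq_true, if_false] at s3 s5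
  rw [hc', s5] at s3
  linarith

theorem zBlk1 (h1 : ZWin) (h2 : ZA6) (h3 : ZMerge) : ZBlk1 := by
  intro c3 C cg d hc3 _ _ hN hB3 hB1 hG J0 η hη
  obtain ⟨n1, -, n3, n4, n5, n6, -⟩ := hN
  have hd : 1 ≤ d := by omega
  have hd' : (0 : ℝ) < d := by exact_mod_cast hd
  have hmu : 0 < mu1 d := Real.rpow_pos_of_pos hd' _
  have hbb : 0 < bb d := Real.rpow_pos_of_pos hd' _
  obtain ⟨e, he, e1, e2⟩ : ∃ e : ℝ, 0 < e ∧ e ≤ η / 5 ∧
      e ≤ c3 * bb d / (Real.sqrt d * ell d ^ 2) - (nu0 d + mu1 d / 20) :=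
    ⟨min _ _, lt_min (by positivity) (sub_pos.2 n5), min_le_left _ _, min_le_right _ _⟩
  filter_upwards [big_cw (h1 d c3 C (mu1 d / 20) e hd hc3.le (by positivity) he hB3 hB1),
    (h2 d e hd he).1, h3 d J0 e hd he, big_cw (hB1 e he),
    big_cw (hG (nu0 d) e (by linarith) he)] with k a1 a2 a3 a4 a5
  obtain ⟨ν, b1, b2, b3, b4⟩ := a1 k le_rfl (bb d) n3 n4
  have hν : nu0 d ≤ ν := by linarith
  refine ⟨ν, hν, b2, fun j hj hJ => ?_⟩
  obtain ⟨c1, c2⟩ := a3 j ν _ hj hJ b3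
  have hjk : k ≤ j * k := Nat.le_mul_of_pos_left k hj
  refine ⟨c1, fun F hF => ?_⟩
  have d1 := a4 (j * k) hjk F _ (by rwa [Fintype.card_fin]) c1
  have d2 := (a5 (j * k) hjk ν _ F hν c1 fun σ hσ => (mem_win.1 hσ).1).1
  have d3 := VV_le_FF (w0 := cw d (j * k)) (U := ∅) (A := ∅) (F := ∅) (B := 0) c1
  have d4 := a2 ∅
  rw [Fintype.card_fin] at d1 d2 b4
  push_cast at d1 d2 b4
  have hj0 : (0 : ℝ) ≤ j := Nat.cast_nonneg j
  have hk0 : (0 : ℝ) ≤ 2 * (j * k) := by positivity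
  have d5 := mul_le_mul_of_nonneg_left b4 hj0
  have d6 := mul_le_mul_of_nonneg_left d4 hj0
  have d7 : bb d * (ν + mu1 d / 20) + 5 * e ≤ 2 * bb d * ν + η := by
    nlinarith [mul_le_mul_of_nonneg_left (show mu1 d / 20 ≤ ν by linarith) hbb.le]
  have d8 := mul_le_mul_of_nonneg_right d7 hk0
  linarith

end Pool.Agent.MP_32a90a_pr.D.AZ

end

section

set_option autoImplicit false

namespace Pool.Agent.MP_32a90a_pr.D.AZ

open Finset Equiv Filter Pool.Agent.MP_32a90a_pr Pool.Agent.MP_32a90a_pr.L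

namespace NumJ

lemma core {c3 C cg y l q : ℝ} (hC : 0 < C) (hg : 0 < cg) (y0 : 0 < y) (y1 : y ≤ 1 / 10)
    (l0 : 0 < l) (hq : q ≤ y ^ 200) (h1 : 2 * (l * y) ^ 2 < c3) (h2 : 256 * C * (l * y) ^ 3 < cg)
    (h3 : 2048 * y < cg) :
    2 * y ^ 10 ≤ 1 ∧ 1 / (y ^ 100)⁻¹ ≤ y ^ 13 ∧ y ^ 13 ≤ 1 ∧
    y ^ 65 + y ^ 102 / 20 < c3 * y ^ 13 / ((y ^ 50)⁻¹ * l ^ 2) ∧ y ^ 102 ≤ y ^ 65 ∧ y ^ 65 ≤ 1 ∧
    C * l ^ 3 / (y ^ 100)⁻¹ + 7 * q < cg * y ^ 10 * (y ^ 100)⁻¹ * (y ^ 90) ^ 2 / 2 ∧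
    10 * y ^ 90 ≤ y ^ 65 ∧ 128 * y ^ 13 ≤ cg * y ^ 10 * (y ^ 100)⁻¹ * y ^ 102 ∧
    256 * (C * l ^ 3 / (y ^ 100)⁻¹) ≤ cg * y ^ 10 * (y ^ 100)⁻¹ * y ^ 102 * y ^ 65 ∧
    2048 * q ≤ cg * y ^ 10 * (y ^ 100)⁻¹ * (y ^ 102) ^ 2 := by
  have y2 : y ≤ 1 := by linarith
  have mono : ∀ {m n : ℕ}, m ≤ n → y ^ n ≤ y ^ m := fun h => pow_le_pow_of_le_one y0.le y2 h
  have e1 : C * l ^ 3 / (y ^ 100)⁻¹ = C * (l * y) ^ 3 * y ^ 97 := by field_simp
  have s0 : 0 < C * (l * y) ^ 3 := by positivity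
  refine ⟨?_, ?_, pow_le_one₀ y0.le y2, ?_, mono (by norm_num), pow_le_one₀ y0.le y2, ?_, ?_, ?_,
    ?_, ?_⟩
  · have := mono (show 1 ≤ 10 by norm_num)
    rw [pow_one] at this
    linarith
  · rw [one_div, inv_inv]
    exact mono (by norm_num)
  · have e : c3 * y ^ 13 / ((y ^ 50)⁻¹ * l ^ 2) = c3 * y ^ 63 / l ^ 2 := by field_simp
    rw [e, lt_div_iff₀ (by positivity)]
    have a1 := mono (show 65 ≤ 102 by norm_num)
    have a2 : 0 < y ^ 65 := by positivity
    calc (y ^ 65 + y ^ 102 / 20) * l ^ 2 ≤ 2 * y ^ 65 * l ^ 2 :=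
          mul_le_mul_of_nonneg_right (by linarith) (by positivity)
      _ = 2 * (l * y) ^ 2 * y ^ 63 := by ring
      _ < c3 * y ^ 63 := mul_lt_mul_of_pos_right h1 (by positivity)
  · have e : cg * y ^ 10 * (y ^ 100)⁻¹ * (y ^ 90) ^ 2 / 2 = cg * y ^ 90 / 2 := by field_simp
    rw [e, e1]
    have a1 := mul_le_mul_of_nonneg_left (mono (show 90 ≤ 97 by norm_num)) s0.le
    have a2 := mono (show 91 ≤ 200 by norm_num)
    have a3 : 0 < y ^ 90 := by positivity
    have a4 := mul_lt_mul_of_pos_right h2 a3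
    have a5 := mul_lt_mul_of_pos_right h3 a3
    have a6 : y ^ 91 = y * y ^ 90 := by ring
    have a7 : 0 < cg * y ^ 90 := by positivity
    linarith
  · have a2 := mono (show 66 ≤ 90 by norm_num)
    have a3 : 0 < y ^ 65 := by positivity
    have a5 := mul_le_mul_of_nonneg_right y1 a3.le
    have a6 : y ^ 66 = y * y ^ 65 := by ring
    linarith
  · have e : cg * y ^ 10 * (y ^ 100)⁻¹ * y ^ 102 = cg * y ^ 12 := by field_simp
    have a3 : 0 < y ^ 12 := by positivity
    have a5 := mul_lt_mul_of_pos_right h3 a3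
    have a6 : y ^ 13 = y * y ^ 12 := by ring
    have a7 : 0 < y * y ^ 12 := by positivity
    rw [e]
    linarith
  · have e : cg * y ^ 10 * (y ^ 100)⁻¹ * y ^ 102 * y ^ 65 = cg * y ^ 77 := by field_simp
    rw [e, e1]
    have a1 := mul_le_mul_of_nonneg_left (mono (show 77 ≤ 97 by norm_num)) s0.le
    have a3 : 0 < y ^ 77 := by positivity
    have a4 := mul_lt_mul_of_pos_right h2 a3
    linarith
  · have e : cg * y ^ 10 * (y ^ 100)⁻¹ * (y ^ 102) ^ 2 = cg * y ^ 114 := by field_simp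
    have a2 := mono (show 115 ≤ 200 by norm_num)
    have a3 : 0 < y ^ 114 := by positivity
    have a5 := mul_lt_mul_of_pos_right h3 a3
    have a6 : y ^ 115 = y * y ^ 114 := by ring
    rw [e]
    linarith

lemma pw {t : ℝ} (ht : 0 < t) (n : ℕ) (r : ℝ) (h : r = -(1 / 100) * n) :
    t ^ r = (t ^ (-(1 / 100 : ℝ))) ^ n := by
  rw [h, Real.rpow_mul ht.le, Real.rpow_natCast]

end NumJ

open NumJ Topology

theorem zNum : ZNum := by
  intro c3 C cg h3 hC hg
  have ty : Tendsto (fun d : ℕ => (d : ℝ) ^ (-(1 / 100 : ℝ))) atTop (𝓝 0) :=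
    (tendsto_rpow_neg_atTop (by norm_num)).comp tendsto_natCast_atTop_atTop
  have ts : Tendsto (fun d : ℕ => ell d * (d : ℝ) ^ (-(1 / 100 : ℝ))) atTop (𝓝 0) := by
    have := ((isLittleO_log_rpow_atTop (show (0 : ℝ) < 1 / 100 by norm_num)).tendsto_div_nhds_zero).comp
      tendsto_natCast_atTop_atTop
    refine this.congr fun d => ?_
    simp only [Function.comp, ell]
    rw [Real.rpow_neg (Nat.cast_nonneg _), div_eq_mul_inv]
  have t1 := ((ts.pow 2).const_mul 2).eventually (gt_mem_nhds (show 2 * (0 : ℝ) ^ 2 < c3 by simpa))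
  have t2 := ((ts.pow 3).const_mul (256 * C)).eventually
    (gt_mem_nhds (show 256 * C * (0 : ℝ) ^ 3 < cg by simpa))
  have t3 := (ty.const_mul 2048).eventually (gt_mem_nhds (show 2048 * (0 : ℝ) < cg by simpa))
  have t4 := ty.eventually (gt_mem_nhds (show (0 : ℝ) < 1 / 10 by norm_num))
  filter_upwards [t1, t2, t3, t4, eventually_ge_atTop 3] with d a1 a2 a3 a4 hd
  have d3 : (3 : ℝ) ≤ d := by exact_mod_cast hd
  have d0 : (0 : ℝ) < d := by linarith
  have e1 : tau d = _ := pw d0 10 _ (by norm_num)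
  have e2 : mu1 d = _ := pw d0 102 _ (by norm_num)
  have e3 : bb d = _ := pw d0 13 _ (by norm_num)
  have e4 : nu0 d = _ := pw d0 65 _ (by norm_num)
  have e5 : aa1 d = _ := pw d0 90 _ (by norm_num)
  have e6 := pw d0 100 (-1) (by norm_num)
  have e7 := pw d0 50 (-(1 / 2)) (by norm_num)
  have e8 := pw d0 200 (-2) (by norm_num)
  have y0 : 0 < (d : ℝ) ^ (-(1 / 100 : ℝ)) := Real.rpow_pos_of_pos d0 _
  generalize (d : ℝ) ^ (-(1 / 100 : ℝ)) = y at *
  have e9 : (d : ℝ) = (y ^ 100)⁻¹ := by rw [← e6, Real.rpow_neg_one, inv_inv]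
  have e10 : Real.sqrt d = (y ^ 50)⁻¹ := by
    rw [← e7, Real.rpow_neg d0.le, inv_inv, Real.sqrt_eq_rpow]
  have l0 : 0 < ell d := Real.log_pos (by linarith)
  have hq : qq d ^ 4 ≤ y ^ 200 := by
    rw [← e8, Real.rpow_neg d0.le, qq, ← Real.exp_nat_mul, Real.rpow_two,
      show ((4 : ℕ) : ℝ) * -((d : ℝ) ^ 2 / 4) = -(d : ℝ) ^ 2 by push_cast; ring, Real.exp_neg]
    exact inv_anti₀ (by positivity) (by linarith [Real.add_one_le_exp ((d : ℝ) ^ 2)])
  have := core hC hg y0 a4.le l0 hq a1 a2 a3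
  rw [← e9, ← e10, ← e1, ← e2, ← e3, ← e4, ← e5] at this
  exact ⟨hd, this⟩

theorem zSeq : ZSeq := by
  intro a C c hc hb h
  obtain ⟨S, hS⟩ : ∃ S : Set ℝ, S = {x | ∀ᶠ k : ℕ in atTop, x * k ≤ a k} := ⟨_, rfl⟩
  have h1 : S.Nonempty := ⟨-C, hS ▸ Eventually.of_forall fun k => by
    have := (abs_le.1 (hb k)).1
    linarith⟩
  have h2 : BddAbove S := ⟨C, fun x hx => by
    rw [hS] at hx
    obtain ⟨k, k1, k2⟩ := (hx.and (eventually_ge_atTop 1)).exists
    have k0 : (0 : ℝ) < k := by exact_mod_cast k2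
    exact le_of_mul_le_mul_right (k1.trans (abs_le.1 (hb k)).2) k0⟩
  obtain ⟨x, hx, hx2⟩ := exists_lt_of_lt_csSup h1 (show sSup S - c < sSup S by linarith)
  have hx3 := hx
  rw [hS] at hx3
  obtain ⟨K, hK⟩ := eventually_atTop.1 hx3
  have h3 : x + c ∈ S := by
    rw [hS]
    refine (h K).mono ?_
    rintro k ⟨j, k1, k2, k3, a1, a2, a3, e, a4⟩
    have e' : (k : ℝ) = j * k1 + k2 + k3 := by rw [← e]; push_cast; rfl
    have b1 := mul_le_mul_of_nonneg_left (hK k1 a1) (Nat.cast_nonneg (α := ℝ) j)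
    have b2 := hK k2 a2
    have b3 := hK k3 a3
    have b4 : x * k = j * (x * k1) + x * k2 + x * k3 := by rw [e']; ring
    linarith
  have := le_csSup h2 h3
  linarith

end Pool.Agent.MP_32a90a_pr.D.AZ

end

section

set_option autoImplicit false

namespace Pool.Agent.MP_32a90a_pr.D.AZ

open Finset Equiv Filter Pool.Agent.MP_32a90a_pr Pool.Agent.MP_32a90a_pr.L

theorem zPl : ZPl := by
  classical
  intro V E B _ _ _ _ w d β T b hd hm
  have h1 : ((pl β T w b).card : ℝ) = ∑ a : E × Bool, ind (T a.1 = none ∧ β (w a) = b) := by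
    rw [sum_ind, pl]
  have h2 := sum_half hd fun v => ind (β v = b)
  rw [h1, pb, nx, ← h2, eq_sub_iff_add_eq, Fintype.sum_prod_type, Fintype.sum_prod_type,
    ← sum_add_distrib]
  refine sum_congr rfl fun i _ => ?_
  rw [Fintype.sum_bool, Fintype.sum_bool]
  rcases e : T i with _ | x
  · simp only [true_and, ct, Option.elim, add_zero]
  · obtain ⟨a1, a2⟩ := hm i x e
    rw [ind_neg (by simp), ind_neg (by simp), a1, a2]
    simp only [ct, Option.elim]
    ring

namespace Pl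

variable {V E B : Type} [Fintype V] [DecidableEq V] [Fintype E] [DecidableEq E]

omit [DecidableEq V] in
lemma pb_update (d : ℕ) (β : V → B) {T : E → Ty B} {r : E} (h : T r = none) (x : B × B × Bool)
    (c : B) : pb d β T c = pb d β (Function.update T r (some x)) c + ct c (some x) := by
  have e : ∑ i ∈ univ.erase r, ct c (Function.update T r (some x) i) =
      ∑ i ∈ univ.erase r, ct c (T i) :=
    sum_congr rfl fun i hi => by rw [Function.update_of_ne (mem_erase.1 hi).1]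
  have e0 : ct c (none : Ty B) = 0 := rfl
  unfold pb
  rw [← add_sum_erase _ _ (mem_univ r), ← add_sum_erase _ _ (mem_univ r), h, Function.update_self,
    e, e0]
  ring

lemma count (h1 : ZPl) {w : E × Bool → V} {d : ℕ} {β : V → B} {T : E → Ty B} (hd : Deg w d)
    (hm : mt β T w) (x : B × B × Bool) (c : ℝ) :
    ∑ a ∈ pl β T w x.1, ∑ _a' ∈ (pl β T w x.2.1).erase a, c = np d β T x * c := by
  have k : ∀ a ∈ pl β T w x.1,
      (((pl β T w x.2.1).erase a).card : ℝ) = pb d β T x.2.1 - ind (x.1 = x.2.1) := by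
    intro a ha
    rw [← h1 V E B w d β T x.2.1 hd hm]
    by_cases e : x.1 = x.2.1
    · rw [ind_pos e, eq_sub_iff_add_eq, ← e]
      exact_mod_cast card_erase_add_one ha
    · rw [ind_neg e, sub_zero, erase_eq_of_notMem]
      intro ha'
      simp only [pl, mem_filter] at ha ha'
      exact e (ha.2.2.symm.trans ha'.2.2)
  rw [sum_congr rfl (g := fun _ => (pb d β T x.2.1 - ind (x.1 = x.2.1)) * c) fun a ha => by
    rw [sum_const, nsmul_eq_mul, k a ha], sum_const, nsmul_eq_mul, h1 V E B w d β T x.1 hd hm, np]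
  ring

lemma edge (h1 : ZPl) (h2 : ZEx) {w0 : E × Bool → V} {d : ℕ} {β : V → B} {Ω : Finset (V → Bool)}
    {T : E → Ty B} {r : E} {x : B × B × Bool} (hd : Deg w0 d) (hΩ : Ω.Nonempty) (hr : T r = none)
    (h : 0 < ms w0 β (Function.update T r (some x))) :
    0 < ms w0 β T ∧ |Phi w0 β Ω (Function.update T r (some x)) - Phi w0 β Ω T| ≤ 1 := by
  obtain ⟨a1, a2⟩ := h2 V E B w0 d β Ω T r x hd hr
  obtain ⟨b1, b2⟩ := a1.1 h
  refine ⟨b1, ?_⟩
  rw [a2 h, Phi, ← sub_div, abs_div, abs_of_pos b1, div_le_one b1, ← av_sub, abs_le, ms,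
    ← av_neg]
  have k : ∀ w, Deg w d → mt β T w →
      |(∑ a ∈ pl β T w x.1, ∑ a' ∈ (pl β T w x.2.1).erase a,
        mxJ Ω (sT T) w (sgn x.2.2) (w a) (w a')) / np d β T x - mxH Ω (sT T) 0 w| ≤ 1 := by
    intro w hw hm
    have c := fun u v => abs_le.1 (abs_mxJ_sub (s := sT T) (w := w) hΩ (abs_sgn x.2.2).le u v)
    rw [abs_le, le_sub_iff_add_le, le_div_iff₀ b2, sub_le_iff_le_add, div_le_iff₀ b2,
      mul_comm _ (np d β T x), mul_comm _ (np d β T x), ← count h1 hw hm, ← count h1 hw hm]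
    constructor <;> refine sum_le_sum fun a _ => sum_le_sum fun a' _ => ?_ <;>
      linarith [(c (w a) (w a')).1, (c (w a) (w a')).2]
  constructor <;> refine av_mono_deg hd fun w hw => ?_ <;> by_cases hm : mt β T w
  · rw [ind_pos hm, one_mul, one_mul]
    exact (abs_le.1 (k w hw hm)).1
  · simp [ind_neg hm]
  · rw [ind_pos hm, one_mul, one_mul]
    exact (abs_le.1 (k w hw hm)).2
  · simp [ind_neg hm]

lemma chain (h1 : ZPl) (h2 : ZEx) {w0 : E × Bool → V} {d : ℕ} {β : V → B} {Ω : Finset (V → Bool)}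
    {T : E → Ty B} (hd : Deg w0 d) (hΩ : Ω.Nonempty) (h : 0 < ms w0 β T) (S : Finset E) :
    0 < ms w0 β (fun i => if i ∈ S then none else T i) ∧
      |Phi w0 β Ω T - Phi w0 β Ω (fun i => if i ∈ S then none else T i)| ≤ S.card := by
  induction S using Finset.induction_on with
  | empty => simpa using h
  | insert r S hr ih =>
    rw [card_insert_of_notMem hr]
    push_cast
    rcases e : T r with _ | x
    · have e1 : (fun i => if i ∈ insert r S then none else T i) =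
          fun i => if i ∈ S then none else T i := by
        funext i
        by_cases hi : i = r
        · simp [hi, e]
        · simp [hi]
      rw [e1]
      exact ⟨ih.1, by linarith [ih.2]⟩
    · have e1 : (fun i => if i ∈ S then none else T i) =
          Function.update (fun i => if i ∈ insert r S then none else T i) r (some x) := by
        funext i
        by_cases hi : i = r
        · simp [hi, e, hr]
        · simp [hi]
      rw [e1] at ih
      obtain ⟨a1, a2⟩ := edge (Ω := Ω) h1 h2 hd hΩ (by simp) ih.1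
      refine ⟨a1, ?_⟩
      have a3 := ih.2
      rw [abs_le] at a2 a3 ⊢
      constructor <;> linarith [a2.1, a2.2, a3.1, a3.2]

end Pl

theorem zFeas (h : ZEx) : ZFeas := by
  classical
  intro V E B _ _ _ _ w0 d β T hd
  induction hn : (univ.filter fun i => T i ≠ none).card generalizing T with
  | zero =>
    intro _
    refine ms_pos 1 fun i x e => ?_
    have := card_eq_zero.1 hn
    rw [filter_eq_empty_iff] at this
    exact absurd (by simp [e]) (this (mem_univ i))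
  | succ n ih =>
    intro hp
    obtain ⟨r, hr⟩ := card_pos.1 ((Nat.succ_pos n).trans_eq hn.symm)
    obtain ⟨x, hx⟩ := Option.ne_none_iff_exists'.1 (mem_filter.1 hr).2
    have e : T = Function.update (Function.update T r none) r (some x) := by
      rw [Function.update_idem, ← hx, Function.update_eq_self]
    have hb : ∀ c, ct c (some x) ≤ pb d β (Function.update T r none) c := fun c => by
      rw [Pl.pb_update d β (Function.update_self r none T) x c, ← e]
      linarith [hp c]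
    have hc : (univ.filter fun i => Function.update T r none i ≠ none).card = n := by
      have e1 : (univ.filter fun i => Function.update T r none i ≠ none) =
          (univ.filter fun i => T i ≠ none).erase r := by
        ext i
        by_cases hi : i = r
        · simp [hi]
        · simp [hi]
      rw [e1, card_erase_of_mem hr, hn]
      rfl
    rw [e]
    refine (h V E B w0 d β ∅ _ r x hd (Function.update_self r none T)).1.2
      ⟨ih _ hc fun c => (ct_nonneg c _).trans (hb c), ?_⟩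
    have b1 := hb x.1
    have b2 := hb x.2.1
    simp only [ct, Option.elim] at b1 b2
    rw [ind_pos trivial] at b1 b2
    unfold np
    by_cases e1 : x.1 = x.2.1
    · rw [ind_pos e1] at b2 ⊢
      rw [e1]
      nlinarith
    · rw [ind_neg e1] at b2 ⊢
      have := ind_nonneg (x.2.1 = x.1)
      nlinarith

theorem zLip (h1 : ZPl) (h2 : ZEx) : ZLip := by
  classical
  intro V E B _ _ _ _ w0 d β Ω T T' hd hΩ hT hT'
  have a1 := abs_le.1 (Pl.chain h1 h2 hd hΩ hT (univ.filter fun i => T i ≠ T' i)).2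
  have a2 := abs_le.1 (Pl.chain h1 h2 hd hΩ hT' (univ.filter fun i => T i ≠ T' i)).2
  have e : (fun i => if i ∈ univ.filter fun i => T i ≠ T' i then none else T' i) =
      fun i => if i ∈ univ.filter fun i => T i ≠ T' i then none else T i := by
    funext i
    by_cases hi : T i = T' i <;> simp [hi]
  rw [e] at a2
  rw [sum_ind]
  linarith [a1.2, a2.1]

end Pool.Agent.MP_32a90a_pr.D.AZ

end

section

set_option autoImplicit false

namespace Pool.Agent.MP_32a90a_pr.D.AZ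

open Finset Equiv Filter Pool.Agent.MP_32a90a_pr Pool.Agent.MP_32a90a_pr.L

namespace Prod

variable {B : Type} {Eb : B → Type}

/-- the block diagonal permutation -/
def bl (π : ∀ b, Perm (Eb b × Bool)) : Perm ((Σ b, Eb b) × Bool) where
  toFun p := (⟨p.1.1, (π p.1.1 (p.1.2, p.2)).1⟩, (π p.1.1 (p.1.2, p.2)).2)
  invFun p := (⟨p.1.1, ((π p.1.1).symm (p.1.2, p.2)).1⟩, ((π p.1.1).symm (p.1.2, p.2)).2)
  left_inv := by rintro ⟨⟨b, e⟩, c⟩; simp
  right_inv := by rintro ⟨⟨b, e⟩, c⟩; simp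

lemma emb_inj (b : B) {x y : Eb b × Bool}
    (h : ((⟨b, x.1⟩ : Σ b, Eb b), x.2) = (⟨b, y.1⟩, y.2)) : x = y := by
  simp only [Prod.mk.injEq, Sigma.mk.injEq, heq_eq_eq, true_and] at h
  exact Prod.ext h.1 h.2

lemma bl_inj : Function.Injective (bl : (∀ b, Perm (Eb b × Bool)) → _) := by
  intro π π' h
  funext b
  ext1 x
  exact emb_inj b (congrArg (fun g : Perm ((Σ b, Eb b) × Bool) => g (⟨b, x.1⟩, x.2)) h)

lemma bl_surj [∀ b, Fintype (Eb b)] (g : Perm ((Σ b, Eb b) × Bool))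
    (h : ∀ p, (g p).1.1 = p.1.1) : ∃ π, bl π = g := by
  have h1 : ∀ (b : B) (x : Eb b × Bool), ∃ y : Eb b × Bool,
      g (⟨b, x.1⟩, x.2) = (⟨b, y.1⟩, y.2) := by
    intro b x
    have := h (⟨b, x.1⟩, x.2)
    generalize g (⟨b, x.1⟩, x.2) = z at this
    obtain ⟨⟨b', e⟩, c⟩ := z
    obtain rfl : b' = b := this
    exact ⟨(e, c), rfl⟩
  choose f hf using h1
  have hi : ∀ b, Function.Injective (f b) := fun b x y e =>
    emb_inj b (g.injective (by rw [hf, hf, e]))
  refine ⟨fun b => Equiv.ofBijective (f b) (Finite.injective_iff_bijective.1 (hi b)), ?_⟩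
  ext1 ⟨⟨b, e⟩, c⟩
  exact (hf b (e, c)).symm

lemma sum_bl [Fintype B] [DecidableEq B] [∀ b, Fintype (Eb b)] [∀ b, DecidableEq (Eb b)]
    (G : Perm ((Σ b, Eb b) × Bool) → ℝ) :
    ∑ g, ind (∀ p, (g p).1.1 = p.1.1) * G g = ∑ π : ∀ b, Perm (Eb b × Bool), G (bl π) := by
  classical
  rw [← sum_image (s := univ) (g := bl) (f := G) fun _ _ _ _ h => bl_inj h,
    ← sum_subset (subset_univ (image bl univ))]
  · refine sum_congr rfl fun g hg => ?_
    obtain ⟨π, -, rfl⟩ := mem_image.1 hg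
    rw [ind_pos (P := ∀ p, (bl π p).1.1 = p.1.1) fun p => rfl, one_mul]
  · intro g _ hg
    rw [ind_neg, zero_mul]
    intro h
    obtain ⟨π, rfl⟩ := bl_surj g h
    exact hg (mem_image_of_mem _ (mem_univ _))

end Prod

theorem zProd : ZProd := by
  intro B _ _ Vb Eb _ _ _ _ wb A F Ω
  refine avg_congr fun J => ?_
  have hs : sT (T0 Sigma.fst A F J) = cp ∅ A F J := funext fun i => (cp_eq_jj A F J i).symm
  have hm : ∀ g : Perm ((Σ b, Eb b) × Bool),
      mt Sigma.fst (T0 Sigma.fst A F J) (sg wb ∘ g) ↔ ∀ p, (g p).1.1 = p.1.1 := by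
    intro g
    constructor
    · rintro h ⟨i, c⟩
      cases c
      · exact (h i _ rfl).1
      · exact (h i _ rfl).2
    · intro h i x hx
      obtain rfl : (i.1, i.1, jj A F i (J i)) = x := Option.some.inj hx
      exact ⟨h _, h _⟩
  have h1 := Prod.sum_bl (Eb := Eb) fun _ => 1
  simp only [mul_one, sum_const, card_univ, nsmul_eq_mul] at h1
  have h2 := Prod.sum_bl (Eb := Eb) fun g => mxH Ω (cp ∅ A F J) 0 (sg wb ∘ g)
  have hc : (0 : ℝ) < Fintype.card (Perm ((Σ b, Eb b) × Bool)) := by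
    exact_mod_cast Fintype.card_pos
  unfold Phi ms av
  simp only [hs, hm]
  rw [h1, h2, div_div_div_cancel_right₀ hc.ne']
  rfl

end Pool.Agent.MP_32a90a_pr.D.AZ

end

section

set_option autoImplicit false

namespace Pool.Agent.MP_32a90a_pr.D.AZ

open Finset Equiv Filter Pool.Agent.MP_32a90a_pr Pool.Agent.MP_32a90a_pr.L

namespace RigD

lemma sq_sum {E : Type} (T : Finset E) (h : T.card ≤ 1) (e : E → ℝ) :
    (∑ i ∈ T, e i) ^ 2 = ∑ i ∈ T, e i ^ 2 := by
  rcases Nat.le_one_iff_eq_zero_or_eq_one.1 h with h | h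
  · rw [card_eq_zero.1 h]
    simp
  · obtain ⟨i, rfl⟩ := card_eq_one.1 h
    simp

lemma sgn_abs (r : ℝ) : sgn (decide (0 ≤ r)) * r = |r| := by
  by_cases h : 0 ≤ r
  · simp [h, abs_of_nonneg h]
  · simp [h, abs_of_neg (not_le.1 h)]

variable {V E : Type} [Fintype V] [DecidableEq V]

lemma khin (T : Finset E) (t : E → V) (e : E → ℝ) (ht : ∀ i ∈ T, ∀ j ∈ T, t i = t j → i = j)
    (he : ∀ i ∈ T, e i ^ 2 = 4) : (2 : ℝ) ^ Fintype.card V * Real.sqrt T.card
      ≤ ∑ τ : V → Bool, |∑ i ∈ T, e i * sgn (τ (t i))| := by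
  have h := stKhin V fun u => ∑ i ∈ T.filter fun i => t i = u, e i
  have h1 : ∑ u, (∑ i ∈ T.filter fun i => t i = u, e i) ^ 2 = 2 ^ 2 * (T.card : ℝ) := by
    rw [sum_congr rfl fun u _ => sq_sum _ (card_le_one.2 fun i hi j hj =>
      ht i (mem_filter.1 hi).1 j (mem_filter.1 hj).1
        ((mem_filter.1 hi).2.trans (mem_filter.1 hj).2.symm)) e, sum_fiberwise,
      sum_congr rfl he, sum_const, nsmul_eq_mul]
    ring
  have h2 : ∀ τ : V → Bool, ∑ u, (∑ i ∈ T.filter fun i => t i = u, e i) * sgn (τ u)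
      = ∑ i ∈ T, e i * sgn (τ (t i)) := fun τ => by
    rw [← sum_fiberwise T t fun i => e i * sgn (τ (t i))]
    refine sum_congr rfl fun u _ => ?_
    rw [sum_mul]
    exact sum_congr rfl fun i hi => by rw [(mem_filter.1 hi).2]
  simp only [h1, h2] at h
  rwa [Real.sqrt_mul (by positivity), Real.sqrt_sq (by positivity), mul_div_cancel_left₀ _
    (two_ne_zero' ℝ)] at h

variable [Fintype E] [DecidableEq E]

/-- the energy difference -/
noncomputable def dl (w : E × Bool → V) (J J' : E → Bool) (x : V → Bool) : ℝ :=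
  ∑ i ∈ univ.filter fun i => J i ≠ J' i,
    sgn (x (w (i, true))) * ((sgn (J i) - sgn (J' i)) * sgn (x (w (i, false))))

omit [DecidableEq V] in
lemma en_sub {U A F : Finset E} {J J' : E → Bool} (B : ℝ) (w : E × Bool → V)
    (h : ∀ i, J i ≠ J' i → i ∉ U ∧ i ∉ A ∧ i ∉ F) (x : V → Bool) :
    HH (cp U A F J) B w x - HH (cp U A F J') B w x = dl w J J' x := by
  rw [HH, HH, add_sub_add_right_eq_sub, en, en, ← sum_sub_distrib, dl, sum_filter]
  refine sum_congr rfl fun i _ => ?_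
  split_ifs with hi
  · obtain ⟨h1, h2, h3⟩ := h i hi
    simp only [cp, if_neg h1, if_neg h2, if_neg h3, Y1]
    ring
  · simp only [cp, not_not.1 hi, sub_self]

end RigD

open RigD in
theorem zRigD : ZRigD := by
  intro V E _ _ _ _ Ω U A F B w J J' A1 B1 l hAB hbad hJ h1 h2
  classical
  have hI : ∀ i ∈ univ.filter fun i => J i ≠ J' i, w (i, false) ∈ A1 ∧ w (i, true) ∈ B1 :=
    fun i hi => (hJ i (mem_filter.1 hi).2).2.2.2
  have hc : ∀ x y : V → Bool, (∀ v ∈ A1 ∪ B1, x v = y v) → dl w J J' x = dl w J J' y :=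
    fun x y h => sum_congr rfl fun i hi => by
      rw [h _ (mem_union_left _ (hI i hi).1), h _ (mem_union_right _ (hI i hi).2)]
  have hl : ∀ σ : V → Bool, dl w J J' σ ≤ l := fun σ => by
    obtain ⟨x, hx, hxσ⟩ := h2 σ
    obtain ⟨y, hy, hyσ⟩ := h1 fun v => if v ∈ B1 then !σ v else σ v
    obtain ⟨hx1, hx2⟩ := mem_filter.1 hx
    obtain ⟨hy1, hy2⟩ := mem_filter.1 hy
    have e0 : ∀ i, J i ≠ J' i → i ∉ U ∧ i ∉ A ∧ i ∉ F := fun i hi =>
      ⟨(hJ i hi).1, (hJ i hi).2.1, (hJ i hi).2.2.1⟩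
    have e1 := en_sub B w e0 x
    have e2 := en_sub B w e0 y
    have e3 : dl w J J' (fun v => if v ∈ B1 then !σ v else σ v) = -dl w J J' σ := by
      rw [dl, dl, ← sum_neg_distrib]
      refine sum_congr rfl fun i hi => ?_
      rw [if_pos (hI i hi).2, if_neg (disjoint_left.1 hAB (hI i hi).1), sgn_not, neg_mul]
    rw [hc _ _ hxσ] at e1
    rw [hc _ _ hyσ, e3] at e2
    have e4 := le_mxH (s := cp U A F J) (B := B) (w := w) hx1
    have e5 := le_mxH (s := cp U A F J') (B := B) (w := w) hy1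
    linarith
  let g : (V → Bool) → V → ℝ := fun τ v =>
    ∑ i ∈ univ.filter fun i => J i ≠ J' i ∧ w (i, true) = v,
      (sgn (J i) - sgn (J' i)) * sgn (τ (w (i, false)))
  have hg : ∀ τ : V → Bool, ∑ v ∈ B1, |g τ v| ≤ l := fun τ => by
    refine le_of_eq_of_le ?_ (hl fun v => if v ∈ B1 then decide (0 ≤ g τ v) else τ v)
    rw [dl, ← sum_fiberwise_of_maps_to (g := fun i => w (i, true)) fun i hi => (hI i hi).2]
    refine sum_congr rfl fun v hv => ?_
    rw [← sgn_abs, mul_sum, filter_filter]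
    refine sum_congr rfl fun i hi => ?_
    obtain ⟨-, hi, hv'⟩ := mem_filter.1 hi
    rw [if_neg (disjoint_left.1 hAB (hJ i hi).2.2.2.1), hv', if_pos hv]
  have k1 : ∑ v ∈ B1, (2 : ℝ) ^ Fintype.card V *
      Real.sqrt (univ.filter fun i => J i ≠ J' i ∧ w (i, true) = v).card ≤
      ∑ v ∈ B1, ∑ τ : V → Bool, |g τ v| := by
    refine sum_le_sum fun v hv => khin _ (fun i => w (i, false)) _ (fun i hi j hj e => ?_)
      fun i hi => ?_
    · by_contra hij
      have a1 := (mem_filter.1 hi).2.2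
      have a2 := (mem_filter.1 hj).2.2
      refine disjoint_left.1 hbad hv (mem_image.2 ⟨(i, true), mem_filter.2 ⟨mem_univ _,
        (j, true), fun e' => hij (congrArg Prod.fst e').symm, ?_⟩, a1⟩)
      exact Prod.ext (a2.trans a1.symm) e.symm
    · have a1 := (mem_filter.1 hi).2.1
      revert a1
      cases J i <;> cases J' i <;> simp <;> norm_num
  have k2 : ∑ τ : V → Bool, ∑ v ∈ B1, |g τ v| ≤ ∑ _τ : V → Bool, l := sum_le_sum fun τ _ => hg τ
  rw [sum_const, card_univ, Fintype.card_fun, Fintype.card_bool, nsmul_eq_mul, Nat.cast_pow,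
    Nat.cast_ofNat, sum_comm] at k2
  rw [← mul_sum] at k1
  exact le_of_mul_le_mul_left (k1.trans k2) (by positivity)

end Pool.Agent.MP_32a90a_pr.D.AZ

end

section

set_option autoImplicit false

namespace Pool.Agent.MP_32a90a_pr.D.AZ

open Finset Equiv Filter Pool.Agent.MP_32a90a_pr Pool.Agent.MP_32a90a_pr.L

namespace RigG

lemma one_le_ell {d : ℕ} (hd : 3 ≤ d) : 1 ≤ ell d := by
  unfold ell
  have h3 : (3 : ℝ) ≤ d := by exact_mod_cast hd
  rw [Real.le_log_iff_exp_le (by linarith)]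
  have := Real.exp_one_lt_d9
  linarith

lemma num {d a x N l : ℝ} (hd : 3 ≤ d) (ha : 1 ≤ a) (hN : 0 < N) (hl : 1 ≤ l) (hx : x ≤ a)
    (hx2 : a ≤ 2 * x) (h : 2560 * l * N ≤ d * a)
    (hG : d / 8 * a * x / N - 2 * l * (a + x) - 5 * N / d ^ 2 ≤ x * (d * a / (32 * N))) :
    False := by
  have hd0 : 0 < d := by linarith
  have ht : 2560 * l ≤ d * a / N := by rwa [le_div_iff₀ hN]
  have e1 : d / 8 * a * x / N = d * a / N * x / 8 := by ring
  have e2 : x * (d * a / (32 * N)) = d * a / N * x / 32 := by field_simp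
  have h1 : N ≤ d * a := by nlinarith
  have h2 : 5 * N / d ^ 2 ≤ 2 * a := by
    rw [div_le_iff₀ (by positivity)]
    nlinarith [mul_nonneg (mul_nonneg hd0.le (by linarith : (0 : ℝ) ≤ a))
      (by linarith : (0 : ℝ) ≤ d - 3)]
  have hx0 : 0 ≤ x := by linarith
  have h3 : 2560 * l * x ≤ d * a / N * x := mul_le_mul_of_nonneg_right ht hx0
  have h4 : l * a ≤ l * (2 * x) := mul_le_mul_of_nonneg_left hx2 (by linarith)
  have h5 : l * x ≤ l * a := mul_le_mul_of_nonneg_left hx (by linarith)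
  have h6 : a ≤ l * a := le_mul_of_one_le_left (by linarith) hl
  rw [e1, e2] at hG
  nlinarith

lemma tail {E : Type} [Fintype E] [DecidableEq E] (I : Finset E) (K0 : E → Bool) :
    avg (fun K : E → Bool => Real.exp ((I.card : ℝ) / 4 - (I.filter fun i => K i ≠ K0 i).card))
      ≤ Real.exp (-((I.card : ℝ) / 8)) := by
  let φ : E → Bool → ℝ := fun i b =>
    if i ∈ I then Real.exp (1 / 2 - if b ≠ K0 i then 1 else 0) else 1
  have e : ∀ K : E → Bool,
      Real.exp ((I.card : ℝ) / 4 - (I.filter fun i => K i ≠ K0 i).card)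
        = Real.exp (-((I.card : ℝ) / 4)) * ∏ i, φ i (K i) := by
    intro K
    simp only [φ]
    rw [prod_ite_mem, univ_inter, ← Real.exp_sum, ← Real.exp_add, sum_sub_distrib, card_filter]
    push_cast
    rw [sum_const, nsmul_eq_mul]
    congr 1
    ring
  have hc : Real.exp (1 / 2) + Real.exp (1 / 2 - 1) ≤ 2 * Real.exp (1 / 8) := by
    have := Real.cosh_le_exp_half_sq (1 / 2)
    rw [Real.cosh_eq] at this
    rw [show (1 / 2 - 1 : ℝ) = -(1 / 2) by norm_num,
      show (1 / 8 : ℝ) = (1 / 2) ^ 2 / 2 by norm_num]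
    linarith
  have hb : ∀ i, ∑ b, φ i b ≤ 2 * (if i ∈ I then Real.exp (1 / 8) else 1) := by
    intro i
    simp only [φ, Fintype.sum_bool]
    by_cases hi : i ∈ I
    · simp only [if_pos hi]
      cases K0 i
      · simp only [ne_eq, Bool.true_eq_false, not_false_eq_true, if_true, not_true_eq_false,
          if_false, sub_zero]
        linarith
      · simp only [ne_eq, Bool.false_eq_true, not_false_eq_true, if_true, not_true_eq_false,
          if_false, sub_zero]
        linarith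
    · simp only [if_neg hi]
      norm_num
  have h0 : ∀ i, 0 ≤ ∑ b, φ i b := fun i => sum_nonneg fun b _ => by
    simp only [φ]
    split_ifs <;> positivity
  have hs : ∑ K : E → Bool, ∏ i, φ i (K i)
      ≤ 2 ^ Fintype.card E * Real.exp ((I.card : ℝ) / 8) := by
    rw [← Fintype.piFinset_univ, ← prod_univ_sum]
    refine (prod_le_prod (fun i _ => h0 i) fun i _ => hb i).trans_eq ?_
    rw [prod_mul_distrib, prod_const, card_univ, prod_ite_mem, univ_inter, prod_const,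
      ← Real.exp_nat_mul]
    congr 2
    ring
  rw [avg_congr e, avg_mul]
  have h2 : avg (fun K : E → Bool => ∏ i, φ i (K i)) ≤ Real.exp ((I.card : ℝ) / 8) := by
    unfold avg
    rw [Fintype.card_fun, Fintype.card_bool, div_le_iff₀ (by positivity)]
    push_cast
    rw [mul_comm]
    exact hs
  refine (mul_le_mul_of_nonneg_left h2 (Real.exp_pos _).le).trans_eq ?_
  rw [← Real.exp_add]
  congr 1
  ring

end RigG

theorem zRigG : ZRigG := by
  intro V E _ _ _ _ w d a U A A1 B1 hd hG hA hB ha h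
  have hl := RigG.one_le_ell hd
  have haN : a ≤ Fintype.card V := hA ▸ card_le_univ A1
  have hN : (0 : ℝ) < Fintype.card V := by
    have : 0 < Fintype.card V := by omega
    exact_mod_cast this
  set n0 : ℕ := ⌈(d : ℝ) * a / (32 * Fintype.card V)⌉₊ with hn0
  let Iv : V → Finset E := fun v =>
    univ.filter fun i => i ∉ U ∧ i ∉ A ∧ w (i, false) ∈ A1 ∧ w (i, true) = v
  let X : Finset V := B1.filter fun v => (Iv v).card < n0
  have hXB : X ⊆ B1 := filter_subset _ _
  have hXa : X.card ≤ a := hB ▸ card_le_card hXB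
  have hX : 2 * X.card ≤ a := by
    by_contra hc
    have hc' : a ≤ 2 * X.card := by omega
    have g := hG A1 X
    have s1 : (univ.filter fun i : E => i ∉ U ∧ i ∉ A ∧ w (i, false) ∈ A1 ∧ w (i, true) ∈ X)
        ⊆ X.biUnion Iv := by
      intro i hi
      obtain ⟨-, h1, h2, h3, h4⟩ := mem_filter.1 hi
      exact mem_biUnion.2 ⟨_, h4, mem_filter.2 ⟨mem_univ _, h1, h2, h3, rfl⟩⟩
    have s2 := (card_le_card s1).trans card_biUnion_le
    have s3 : ∑ v ∈ X, ((Iv v).card : ℝ)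
        ≤ X.card * ((d : ℝ) * a / (32 * Fintype.card V)) := by
      rw [← nsmul_eq_mul]
      exact sum_le_card_nsmul _ _ _ fun v hv => (Nat.lt_ceil.1 (mem_filter.1 hv).2).le
    have s4 : (((univ.filter fun i : E =>
        i ∉ U ∧ i ∉ A ∧ w (i, false) ∈ A1 ∧ w (i, true) ∈ X).card : ℕ) : ℝ)
        ≤ ∑ v ∈ X, ((Iv v).card : ℝ) := by exact_mod_cast s2
    rw [hA] at g
    exact RigG.num (d := d) (a := a) (x := X.card) (by exact_mod_cast hd) (by exact_mod_cast ha) hN
      hl (by exact_mod_cast hXa) (by exact_mod_cast hc') h (g.trans (s4.trans s3))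
  have hT : ∀ v, ∃ T : Finset E, T ⊆ Iv v ∧ T.card ≤ n0 ∧ (v ∈ B1 \ X → T.card = n0) := by
    intro v
    by_cases hv : v ∈ B1 \ X
    · obtain ⟨h1, h2⟩ := mem_sdiff.1 hv
      have h3 : n0 ≤ (Iv v).card := not_lt.1 fun c => h2 (mem_filter.2 ⟨h1, c⟩)
      obtain ⟨T, hT, hc⟩ := exists_subset_card_eq h3
      exact ⟨T, hT, hc.le, fun _ => hc⟩
    · exact ⟨∅, empty_subset _, Nat.zero_le _, fun c => absurd c hv⟩
  choose T hT1 hT2 hT3 using hT
  have hw : ∀ v, ∀ i ∈ T v, w (i, true) = v := fun v i hi => (mem_filter.1 (hT1 v hi)).2.2.2.2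
  refine ⟨(B1 \ X).biUnion T, n0, fun i hi => ?_, fun v => ?_, ?_, ?_⟩
  · obtain ⟨v, hv, hi⟩ := mem_biUnion.1 hi
    obtain ⟨-, h1, h2, h3, h4⟩ := mem_filter.1 (hT1 v hi)
    exact ⟨h1, h2, h3, h4 ▸ (mem_sdiff.1 hv).1⟩
  · refine (card_le_card fun i hi => ?_).trans (hT2 v)
    obtain ⟨hi, e⟩ := mem_filter.1 hi
    obtain ⟨v', -, hi⟩ := mem_biUnion.1 hi
    rwa [← e, hw v' i hi]
  · have := Nat.le_ceil ((d : ℝ) * a / (32 * Fintype.card V))
    rw [div_le_iff₀ (by positivity), ← hn0] at this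
    linarith
  · rw [card_biUnion, sum_congr rfl fun v hv => hT3 v hv, sum_const, smul_eq_mul,
      card_sdiff_of_subset hXB, hB]
    · calc n0 * a ≤ n0 * (2 * (a - X.card)) := Nat.mul_le_mul_left _ (by omega)
        _ = 2 * ((a - X.card) * n0) := by ring
    · intro v _ v' _ hne
      exact disjoint_left.2 fun i h1 h2 => hne ((hw v i h1).symm.trans (hw v' i h2))

theorem zRigP : ZRigP := by
  intro E _ _ S I hS
  let e : ((E → Bool) × (E → Bool)) ≃ ((E → Bool) × (E → Bool)) :=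
    Function.Involutive.toPerm (fun p => (I.piecewise p.2 p.1, I.piecewise p.1 p.2)) fun p => by
      refine Prod.ext (funext fun i => ?_) (funext fun i => ?_)
      · by_cases hi : i ∈ I <;> simp [hi]
      · by_cases hi : i ∈ I <;> simp [hi]
  have e1 : avg (fun J => ind (S J))
      = avg fun J : E → Bool => avg fun K : E → Bool => ind (S (I.piecewise K J)) := by
    have a := avg_equiv e fun p => ind (S p.1)
    rw [avg_prod, avg_prod] at a
    simp only [avg_const] at a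
    exact a.symm
  rw [e1]
  refine avg_le_const (Real.exp_pos _).le fun J => ?_
  by_cases h : ∃ K0, S (I.piecewise K0 J)
  · obtain ⟨K0, h0⟩ := h
    refine (avg_mono fun K => ?_).trans (RigG.tail I K0)
    by_cases hK : S (I.piecewise K J)
    · rw [ind_pos hK]
      have a := hS _ _ hK h0 fun i hi => by simp [hi]
      have b : (I.filter fun i => I.piecewise K J i ≠ I.piecewise K0 J i)
          = I.filter fun i => K i ≠ K0 i :=
        filter_congr fun i hi => by simp [hi]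
      rw [b] at a
      have c : (4 : ℝ) * (I.filter fun i => K i ≠ K0 i).card ≤ I.card := by exact_mod_cast a
      exact Real.one_le_exp (by linarith)
    · rw [ind_neg hK]
      exact (Real.exp_pos _).le
  · refine avg_le_const (Real.exp_pos _).le fun K => ?_
    rw [ind_neg fun c => h ⟨K, c⟩]
    exact (Real.exp_pos _).le

end Pool.Agent.MP_32a90a_pr.D.AZ

end

section

set_option autoImplicit false

namespace Pool.Agent.MP_32a90a_pr.D.AZ

open Finset Equiv Filter Pool.Agent.MP_32a90a_pr Pool.Agent.MP_32a90a_pr.L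

namespace RigU

lemma one_le_ell {d : ℕ} (hd : 3 ≤ d) : 1 ≤ ell d := by
  have h3 : (3 : ℝ) ≤ d := by exact_mod_cast hd
  unfold ell
  rw [Real.le_log_iff_exp_le (by linarith)]
  linarith [Real.exp_one_lt_d9]

lemma choose_le {d N a : ℕ} (hd : 3 ≤ d) (h : 2560 * ell d * N ≤ d * a) :
    (N.choose a : ℝ) ≤ Real.exp (2 * (ell d * a)) := by
  have h3 : (3 : ℝ) ≤ d := by exact_mod_cast hd
  have hl := one_le_ell hd
  have hb := stBin N a (1 / d) (ell d) (by positivity) (by rw [div_le_one (by linarith)]; linarith)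
    (by rw [one_div, Real.log_inv, neg_neg]; exact le_rfl)
  have h1 : (N.choose a : ℝ) ≤ ∑ i ∈ range (a + 1), (N.choose i : ℝ) :=
    single_le_sum (f := fun i => (N.choose i : ℝ)) (fun _ _ => Nat.cast_nonneg _)
      (mem_range.2 (Nat.lt_succ_self a))
  refine h1.trans (hb.trans (Real.exp_le_exp.2 ?_))
  have hN : (0 : ℝ) ≤ N := Nat.cast_nonneg _
  have ha : (0 : ℝ) ≤ a := Nat.cast_nonneg _
  have h2 : 1 / (d : ℝ) * N ≤ a := by
    rw [one_div, inv_mul_le_iff₀ (by linarith)]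
    nlinarith
  nlinarith

section
variable {V E : Type} [Fintype V] [DecidableEq V] [Fintype E] [DecidableEq E]

omit [DecidableEq E] in
lemma shat_mono {Ω : Finset (V → Bool)} {s : E → ℝ} {B : ℝ} {w : E × Bool → V} {l l' : ℝ}
    {W W' : Finset V} (h : Shat (nr Ω s B w l) W) (hl : l ≤ l') (hW : W' ⊆ W) :
    Shat (nr Ω s B w l') W' := by
  intro τ
  obtain ⟨x, hx, hτ⟩ := h τ
  refine ⟨x, ?_, fun v hv => hτ v (hW hv)⟩
  unfold nr at hx ⊢
  rw [mem_filter] at hx ⊢
  exact ⟨hx.1, by linarith [hx.2]⟩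

/-- the union of the two sets is shattered at a small deficit -/
def SS (Ω : Finset (V → Bool)) (U A F : Finset E) (B : ℝ) (w : E × Bool → V) (d a : ℕ)
    (A1 B1 : Finset V) (J : E → Bool) : Prop :=
  ∃ l : ℝ, 0 ≤ l ∧ 2048 * l ^ 2 * (Fintype.card V : ℝ) ≤ d * (a : ℝ) ^ 3 ∧
    Shat (nr Ω (cp U A F J) B w l) (A1 ∪ B1)

lemma pair (h1 : ZRigD) (h2 : ZRigG) (h3 : ZRigP) (Ω : Finset (V → Bool)) (U A F : Finset E)
    (B : ℝ) (w : E × Bool → V) (d a : ℕ) (hd : 3 ≤ d) (hG : G3 d U (A ∪ F) w) (ha : 1 ≤ a)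
    (hN : 2560 * ell d * Fintype.card V ≤ d * a) (A1 B1 : Finset V) (hA : A1.card = a)
    (hB : B1.card = a) (d1 : Disjoint A1 B1) (d2 : Disjoint B1 (badV w)) :
    avg (fun J => ind (SS Ω U A F B w d a A1 B1 J)) ≤ Real.exp (-(5 * (ell d * a))) := by
  obtain ⟨I, n0, i1, i2, i3, i4⟩ := h2 V E w d a U (A ∪ F) A1 B1 hd hG hA hB ha hN
  have hN0 : (0 : ℝ) < Fintype.card V := by
    have : 0 < Fintype.card V := lt_of_lt_of_le (by omega) (hA ▸ card_le_univ A1)
    exact_mod_cast this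
  have ha0 : (0 : ℝ) ≤ a := Nat.cast_nonneg _
  have hn0 : (0 : ℝ) ≤ n0 := Nat.cast_nonneg _
  have i4' : (n0 : ℝ) * a ≤ 2 * I.card := by exact_mod_cast i4
  refine (h3 E _ I ?_).trans (Real.exp_le_exp.2 ?_)
  · rintro J J' ⟨l, l0, l1, l2⟩ ⟨l', l0', l1', l2'⟩ hJ
    have hI : ∀ i, J i ≠ J' i → i ∈ I := fun i hi => by
      by_contra hn
      exact hi (hJ i hn)
    have hL0 : 0 ≤ max l l' := le_max_of_le_left l0
    have hL1 : 2048 * max l l' ^ 2 * (Fintype.card V : ℝ) ≤ d * (a : ℝ) ^ 3 := by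
      rcases max_choice l l' with h | h <;> rw [h] <;> assumption
    have hD := h1 V E Ω U A F B w J J' A1 B1 (max l l') d1 d2 (fun i hi => by
      obtain ⟨e1, e2, e3, e4⟩ := i1 i (hI i hi)
      rw [mem_union, not_or] at e2
      exact ⟨e1, e2.1, e2.2, e3, e4⟩) (shat_mono l2 (le_max_left _ _) Subset.rfl)
      (shat_mono l2' (le_max_right _ _) Subset.rfl)
    generalize max l l' = L at hL0 hL1 hD
    have hc : (I.filter fun i => J i ≠ J' i).card
        ≤ ∑ v ∈ B1, (univ.filter fun i => J i ≠ J' i ∧ w (i, true) = v).card := by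
      refine le_trans (card_le_card ?_) card_biUnion_le
      intro i hi
      rw [mem_filter] at hi
      exact mem_biUnion.2 ⟨w (i, true), (i1 i hi.1).2.2.2, mem_filter.2 ⟨mem_univ _, hi.2, rfl⟩⟩
    have hK : ∀ v, ((univ.filter fun i => J i ≠ J' i ∧ w (i, true) = v).card : ℝ)
        ≤ Real.sqrt n0 * Real.sqrt (univ.filter fun i => J i ≠ J' i ∧ w (i, true) = v).card := by
      intro v
      have e : (univ.filter fun i => J i ≠ J' i ∧ w (i, true) = v).card ≤ n0 :=
        le_trans (card_le_card fun i hi => by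
          rw [mem_filter] at hi ⊢
          exact ⟨hI i hi.2.1, hi.2.2⟩) (i2 v)
      have e' : ((univ.filter fun i => J i ≠ J' i ∧ w (i, true) = v).card : ℝ) ≤ n0 := by
        exact_mod_cast e
      calc _ = Real.sqrt _ * Real.sqrt _ := (Real.mul_self_sqrt (Nat.cast_nonneg _)).symm
        _ ≤ _ := mul_le_mul_of_nonneg_right (Real.sqrt_le_sqrt e') (Real.sqrt_nonneg _)
    have hs0 := Real.sqrt_nonneg (n0 : ℝ)
    have hs := Real.mul_self_sqrt hn0
    have hc' : ((I.filter fun i => J i ≠ J' i).card : ℝ) ≤ Real.sqrt n0 * L := by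
      calc _ ≤ ∑ v ∈ B1, ((univ.filter fun i => J i ≠ J' i ∧ w (i, true) = v).card : ℝ) := by
            exact_mod_cast hc
        _ ≤ ∑ v ∈ B1, Real.sqrt n0 *
            Real.sqrt (univ.filter fun i => J i ≠ J' i ∧ w (i, true) = v).card :=
            sum_le_sum fun v _ => hK v
        _ ≤ _ := by rw [← mul_sum]; exact mul_le_mul_of_nonneg_left hD hs0
    have h64 : 64 * L ^ 2 ≤ n0 * (a : ℝ) ^ 2 := by
      have e : (d : ℝ) * a * (a : ℝ) ^ 2 ≤ 32 * Fintype.card V * n0 * (a : ℝ) ^ 2 :=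
        mul_le_mul_of_nonneg_right i3 (sq_nonneg _)
      refine le_of_mul_le_mul_right ?_ hN0
      nlinarith
    have h8 : 8 * L ≤ Real.sqrt n0 * a := by
      refine abs_le_of_sq_le_sq' ?_ (mul_nonneg hs0 ha0) |>.2
      rw [mul_pow, mul_pow, Real.sq_sqrt hn0]
      linarith
    have h9 : Real.sqrt n0 * (8 * L) ≤ Real.sqrt n0 * (Real.sqrt n0 * a) :=
      mul_le_mul_of_nonneg_left h8 hs0
    rw [← mul_assoc (Real.sqrt n0) (Real.sqrt n0), hs] at h9
    have : (4 : ℝ) * ((I.filter fun i => J i ≠ J' i).card : ℝ) ≤ I.card := by linarith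
    exact_mod_cast this
  · have e : 80 * ell d ≤ n0 := by
      refine le_of_mul_le_mul_right ?_ hN0
      linarith
    have := mul_le_mul_of_nonneg_right e ha0
    linarith

/-- the bad event for one pair of sets -/
def BB (Ω : Finset (V → Bool)) (U A F : Finset E) (B : ℝ) (w : E × Bool → V) (d a : ℕ)
    (p : Finset V × Finset V) (J : E → Bool) : Prop :=
  Disjoint p.1 p.2 ∧ Disjoint p.2 (badV w) ∧ SS Ω U A F B w d a p.1 p.2 J

lemma cover (Ω : Finset (V → Bool)) (U A F : Finset E) (B : ℝ) (w : E × Bool → V) (d a0 : ℕ)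
    (hb : (badV w).card ≤ a0) (J : E → Bool) :
    ind (¬ Rg d a0 Ω (cp U A F J) B w) ≤ ∑ a ∈ Icc a0 (Fintype.card V),
      ∑ p ∈ powersetCard a (univ : Finset V) ×ˢ powersetCard a (univ : Finset V),
        ind (BB Ω U A F B w d a p J) := by
  by_cases h : Rg d a0 Ω (cp U A F J) B w
  · rw [ind_neg (not_not.2 h)]
    exact sum_nonneg fun _ _ => sum_nonneg fun _ _ => ind_nonneg _
  · rw [ind_pos h]
    unfold Rg at h
    push Not at h
    obtain ⟨a, l, W, e1, e2, e3, e4, e5⟩ := h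
    have c1 : 2 * a ≤ (W \ badV w).card := by
      have := le_card_sdiff (badV w) W
      omega
    obtain ⟨B1, b1, b2⟩ := exists_subset_card_eq (s := W \ badV w) (n := a) (by omega)
    have c2 : a ≤ (W \ B1).card := by
      have := le_card_sdiff B1 W
      omega
    obtain ⟨A1, a1, a2⟩ := exists_subset_card_eq c2
    have hBB : BB Ω U A F B w d a (A1, B1) J := by
      refine ⟨disjoint_of_subset_left a1 sdiff_disjoint, disjoint_of_subset_left b1 sdiff_disjoint,
        l, e2, e5, shat_mono e4 le_rfl (union_subset (a1.trans sdiff_subset)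
          (b1.trans sdiff_subset))⟩
    have ha : a ∈ Icc a0 (Fintype.card V) := by
      have := card_le_univ W
      rw [mem_Icc]
      omega
    refine le_trans ?_ (single_le_sum (f := fun a => ∑ p ∈ powersetCard a (univ : Finset V) ×ˢ
      powersetCard a (univ : Finset V), ind (BB Ω U A F B w d a p J))
      (fun _ _ => sum_nonneg fun _ _ => ind_nonneg _) ha)
    refine le_trans (ind_pos hBB).ge (single_le_sum (f := fun p => ind (BB Ω U A F B w d a p J))
      (fun _ _ => ind_nonneg _) ?_)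
    simp [mem_powersetCard, a2, b2]

end

end RigU

theorem zRigU (h1 : ZRigD) (h2 : ZRigG) (h3 : ZRigP) : ZRigU := by
  intro V E _ _ _ _ Ω U A F B w d a0 hd hG hb ha0 hN
  have hl := RigU.one_le_ell hd
  refine (avg_mono fun J => RigU.cover Ω U A F B w d a0 hb J).trans ?_
  rw [avg_sum]
  have key : ∀ a ∈ Icc a0 (Fintype.card V), (avg fun J : E → Bool =>
      ∑ p ∈ powersetCard a (univ : Finset V) ×ˢ powersetCard a (univ : Finset V),
        ind (RigU.BB Ω U A F B w d a p J)) ≤ Real.exp (-(a0 : ℝ)) := by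
    intro a ha
    have e1 := (mem_Icc.1 ha).1
    have e2 : (a0 : ℝ) ≤ a := by exact_mod_cast e1
    have hN' : 2560 * ell d * Fintype.card V ≤ d * a :=
      hN.trans (mul_le_mul_of_nonneg_left e2 (Nat.cast_nonneg _))
    rw [avg_sum]
    have k2 : ∀ p ∈ powersetCard a (univ : Finset V) ×ˢ powersetCard a (univ : Finset V),
        avg (fun J : E → Bool => ind (RigU.BB Ω U A F B w d a p J))
          ≤ Real.exp (-(5 * (ell d * a))) := by
      intro p hp
      rw [mem_product, mem_powersetCard, mem_powersetCard] at hp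
      by_cases hd1 : Disjoint p.1 p.2 ∧ Disjoint p.2 (badV w)
      · exact (avg_mono fun J => ind_mono fun h => h.2.2).trans (RigU.pair h1 h2 h3 Ω U A F B w d a
          hd hG (by omega) hN' p.1 p.2 hp.1.2 hp.2.2 hd1.1 hd1.2)
      · exact avg_le_const (Real.exp_pos _).le fun J =>
          (ind_neg fun h => hd1 ⟨h.1, h.2.1⟩).trans_le (Real.exp_pos _).le
    refine (sum_le_sum k2).trans ?_
    rw [sum_const, card_product, card_powersetCard, card_univ, nsmul_eq_mul]
    push_cast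
    have hc := RigU.choose_le hd hN'
    have hc0 : (0 : ℝ) ≤ (Fintype.card V).choose a := Nat.cast_nonneg _
    calc _ ≤ Real.exp (2 * (ell d * a)) * Real.exp (2 * (ell d * a))
          * Real.exp (-(5 * (ell d * a))) :=
          mul_le_mul_of_nonneg_right (mul_le_mul hc hc hc0 (Real.exp_pos _).le) (Real.exp_pos _).le
      _ ≤ _ := by
          rw [← Real.exp_add, ← Real.exp_add]
          refine Real.exp_le_exp.2 ?_
          have : (0 : ℝ) ≤ a := Nat.cast_nonneg _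
          nlinarith
  refine (sum_le_sum key).trans ?_
  rw [sum_const, Nat.card_Icc, nsmul_eq_mul]
  refine mul_le_mul_of_nonneg_right ?_ (Real.exp_pos _).le
  have : Fintype.card V + 1 - a0 ≤ Fintype.card V + 1 := Nat.sub_le _ _
  exact_mod_cast this

end Pool.Agent.MP_32a90a_pr.D.AZ

end

section

set_option autoImplicit false
set_option linter.unusedSectionVars false

namespace Pool.Agent.MP_32a90a_pr.D.AZ

open Finset Equiv Filter Pool.Agent.MP_32a90a_pr Pool.Agent.MP_32a90a_pr.L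

namespace Split

section
variable {B : Type} [Fintype B] [DecidableEq B] {D : B → Type} [∀ b, Fintype (D b)]
  [∀ b, Nonempty (D b)]

/-- resampling one coordinate of a product -/
lemma avg_upd (b : B) (f : (∀ b, D b) → ℝ) :
    avg f = avg fun ω : ∀ b, D b => avg fun o : D b => f (Function.update ω b o) := by
  let e : ((∀ b, D b) × D b) ≃ ((∀ b, D b) × D b) :=
    { toFun := fun p => (Function.update p.1 b p.2, p.1 b)
      invFun := fun p => (Function.update p.1 b p.2, p.1 b)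
      left_inv := fun p => by simp
      right_inv := fun p => by simp }
  have h1 := avg_equiv e (fun p => f p.1)
  rw [avg_prod (fun p : (∀ b, D b) × D b => f p.1)] at h1
  simp only [avg_const] at h1
  rw [avg_prod] at h1
  exact h1.symm

lemma avg_one (b : B) (h : D b → ℝ) : avg (fun δ : ∀ b, D b => h (δ b)) = avg h := by
  rw [avg_upd b]
  simp only [Function.update_self]
  exact avg_const _

lemma avg_two {b0 b : B} (hb : b ≠ b0) (g : D b0 → D b → ℝ) :
    avg (fun δ : ∀ b, D b => g (δ b0) (δ b)) = avg fun x => avg fun y => g x y := by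
  rw [avg_upd b]
  simp only [Function.update_self, Function.update_of_ne hb.symm]
  exact avg_one b0 (fun x => avg fun y => g x y)

end

section
variable {B : Type} [Fintype B] [DecidableEq B] {Vb Eb : B → Type} [∀ b, Fintype (Vb b)]
  [∀ b, DecidableEq (Vb b)] [∀ b, Fintype (Eb b)] [∀ b, DecidableEq (Eb b)]

/-- the energy of independent blocks is the sum of the block energies -/
lemma HH_sum (wb : ∀ b, Eb b × Bool → Vb b) (Ab Fb : ∀ b, Finset (Eb b))
    (J : ∀ b, Eb b → Bool) (τ : ∀ b, Vb b → Bool) :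
    HH (cp ∅ (univ.sigma Ab) (univ.sigma Fb) fun i => J i.1 i.2) 0 (sg wb) (fun v => τ v.1 v.2)
      = ∑ b, HH (cp ∅ (Ab b) (Fb b) (J b)) 0 (wb b) (τ b) := by
  simp only [HH_zero, en]
  rw [Fintype.sum_sigma]
  refine sum_congr rfl fun b _ => sum_congr rfl fun i _ => ?_
  simp only [cp, mem_sigma, mem_univ, true_and, notMem_empty, if_false, Y1, sg]

lemma SV_eq (wb : ∀ b, Eb b × Bool → Vb b) (A F : Finset (Σ b, Eb b))
    (Ω : Finset ((Σ b, Vb b) → Bool)) :
    SV wb A F Ω = avg fun δ : ∀ b, Perm (Eb b × Bool) × (Eb b → Bool) =>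
      mxH Ω (cp ∅ A F fun i => (δ i.1).2 i.2) 0 (sg fun b => wb b ∘ (δ b).1) := by
  let e : (∀ b, Perm (Eb b × Bool) × (Eb b → Bool)) ≃
      ((Σ b, Eb b) → Bool) × (∀ b, Perm (Eb b × Bool)) :=
    { toFun := fun δ => (fun i => (δ i.1).2 i.2, fun b => (δ b).1)
      invFun := fun p b => (p.2 b, fun i => p.1 ⟨b, i⟩)
      left_inv := fun _ => rfl
      right_inv := fun _ => rfl }
  have h1 := avg_equiv e (fun p => mxH Ω (cp ∅ A F p.1) 0 (sg fun b => wb b ∘ p.2 b))
  rw [avg_prod (fun p : ((Σ b, Eb b) → Bool) × (∀ b, Perm (Eb b × Bool)) =>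
    mxH Ω (cp ∅ A F p.1) 0 (sg fun b => wb b ∘ p.2 b))] at h1
  exact h1.symm

/-- gluing block configurations -/
lemma glue {b0 : B} {Ω0 : Finset (Vb b0 → Bool)} {Om : ℝ → ∀ b, Finset (Vb b → Bool)}
    {Ω : Finset ((Σ b, Vb b) → Bool)}
    (hg : ∀ σ : (Σ b, Vb b) → Bool, (fun v => σ ⟨b0, v⟩) ∈ Ω0 →
      (∀ b, b ≠ b0 → (fun v => σ ⟨b, v⟩) ∈ Om (mag fun v => σ ⟨b0, v⟩) b) → σ ∈ Ω)
    {σ0 : Vb b0 → Bool} (h0 : σ0 ∈ Ω0) (P : ∀ b, (Vb b → Bool) → Prop)
    (h : ∀ b, b ≠ b0 → ∃ σ ∈ Om (mag σ0) b, P b σ) :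
    ∃ τ : ∀ b, Vb b → Bool, τ b0 = σ0 ∧ (∀ b, b ≠ b0 → P b (τ b)) ∧
      (fun v : Σ b, Vb b => τ v.1 v.2) ∈ Ω := by
  have h' : ∀ b, ∃ σ : Vb b → Bool, b ≠ b0 → σ ∈ Om (mag σ0) b ∧ P b σ := fun b => by
    by_cases hb : b = b0
    · exact ⟨fun _ => true, fun k => absurd hb k⟩
    · obtain ⟨σ, k1, k2⟩ := h b hb
      exact ⟨σ, fun _ => ⟨k1, k2⟩⟩
  choose t ht using h'
  have e0 : Function.update t b0 σ0 b0 = σ0 := Function.update_self _ _ _
  have e1 : ∀ b, b ≠ b0 → Function.update t b0 σ0 b = t b := fun b hb =>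
    Function.update_of_ne hb _ _
  refine ⟨Function.update t b0 σ0, e0, fun b hb => ?_, hg _ ?_ fun b hb => ?_⟩
  · rw [e1 b hb]
    exact (ht b hb).2
  · change Function.update t b0 σ0 b0 ∈ Ω0
    rwa [e0]
  · change Function.update t b0 σ0 b ∈ Om (mag (Function.update t b0 σ0 b0)) b
    rw [e0, e1 b hb]
    exact (ht b hb).1

end

end Split

open Split in
theorem zSplit : ZSplit := by
  intro B _ _ Vb Eb _ _ _ _ wb Ab Fb b0 Ω0 Om L Ω h0 hL hg
  constructor
  · obtain ⟨σ0, hσ0⟩ := h0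
    obtain ⟨τ, -, -, h⟩ := glue hg hσ0 (fun _ _ => True) fun b hb => by
      obtain ⟨σ, hσ⟩ := (hL σ0 hσ0 b hb).1
      exact ⟨σ, hσ, trivial⟩
    exact ⟨_, h⟩
  have hs : ∀ x : Perm (Eb b0 × Bool) × (Eb b0 → Bool), ∃ σ ∈ Ω0,
      HH (cp ∅ (Ab b0) (Fb b0) x.2) 0 (wb b0 ∘ x.1) σ
        = mxH Ω0 (cp ∅ (Ab b0) (Fb b0) x.2) 0 (wb b0 ∘ x.1) := fun x => exists_mxH h0
  choose s0 hs0 hs1 using hs
  rw [SV_eq]
  refine le_trans ?_ (avg_mono (f := fun δ : ∀ b, Perm (Eb b × Bool) × (Eb b → Bool) =>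
    mxH Ω0 (cp ∅ (Ab b0) (Fb b0) (δ b0).2) 0 (wb b0 ∘ (δ b0).1) + ∑ b ∈ univ.erase b0,
      mxH (Om (mag (s0 (δ b0))) b) (cp ∅ (Ab b) (Fb b) (δ b).2) 0 (wb b ∘ (δ b).1))
    fun δ => ?_)
  · rw [avg_add, avg_sum]
    refine add_le_add (le_of_eq ?_) (sum_le_sum fun b hb => ?_)
    · rw [VV, ED_eq_avg]
      exact (avg_one (D := fun b => Perm (Eb b × Bool) × (Eb b → Bool)) b0
        (fun x => mxH Ω0 (cp ∅ (Ab b0) (Fb b0) x.2) 0 (wb b0 ∘ x.1))).symm
    · have hb' : b ≠ b0 := (mem_erase.1 hb).1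
      refine le_trans ?_ (le_of_eq (avg_two (D := fun b => Perm (Eb b × Bool) × (Eb b → Bool)) hb'
        (fun x y => mxH (Om (mag (s0 x)) b) (cp ∅ (Ab b) (Fb b) y.2) 0 (wb b ∘ y.1))).symm)
      refine const_le_avg fun x => ?_
      have := (hL _ (hs0 x) b hb').2
      rwa [VV, ED_eq_avg] at this
  · obtain ⟨τ, k0, k1, k2⟩ := glue hg (hs0 (δ b0))
      (fun b σ => HH (cp ∅ (Ab b) (Fb b) (δ b).2) 0 (wb b ∘ (δ b).1) σ
        = mxH (Om (mag (s0 (δ b0))) b) (cp ∅ (Ab b) (Fb b) (δ b).2) 0 (wb b ∘ (δ b).1))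
      fun b hb => exists_mxH (hL _ (hs0 (δ b0)) b hb).1
    refine le_trans (le_of_eq ?_) (le_mxH k2)
    rw [HH_sum (fun b => wb b ∘ (δ b).1) Ab Fb (fun b => (δ b).2) τ,
      ← add_sum_erase _ _ (mem_univ b0), k0, hs1]
    congr 1
    exact sum_congr rfl fun b hb => (k1 b (mem_erase.1 hb).1).symm

end Pool.Agent.MP_32a90a_pr.D.AZ

end

section

set_option autoImplicit false
set_option linter.unusedSectionVars false

namespace Pool.Agent.MP_32a90a_pr.D.AZ

open Finset Equiv Filter Pool.Agent.MP_32a90a_pr Pool.Agent.MP_32a90a_pr.L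

namespace SplitE

/-- union bound for the deviation of several counts -/
lemma tail (h3 : ZHoef) {E Ξ X : Type} [Fintype E] [DecidableEq E] [Fintype Ξ] [Nonempty Ξ]
    [Fintype X] (P : X → E → Ξ → Prop) {t : ℝ} (ht : 0 ≤ t) :
    avg (fun ω : E → Ξ => ind (¬ ∀ x,
        |∑ i, ind (P x i (ω i)) - ∑ i, avg (fun ξ => ind (P x i ξ))| ≤ t))
      ≤ Fintype.card X * (2 * Real.exp (-(t ^ 2 / (2 * 1 ^ 2 * Fintype.card E)))) := by
  have k : ∀ ω : E → Ξ, ind (¬ ∀ x,
        |∑ i, ind (P x i (ω i)) - ∑ i, avg (fun ξ => ind (P x i ξ))| ≤ t)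
      ≤ ∑ x, ind (t ≤ |∑ i, ind (P x i (ω i)) - ∑ i, avg (fun ξ => ind (P x i ξ))|) := by
    intro ω
    by_cases h : ∀ x, |∑ i, ind (P x i (ω i)) - ∑ i, avg (fun ξ => ind (P x i ξ))| ≤ t
    · rw [ind_neg (not_not.2 h)]
      exact sum_nonneg fun _ _ => ind_nonneg _
    · rw [ind_pos h]
      obtain ⟨x, hx⟩ := not_forall.1 h
      refine le_trans (ind_pos (not_le.1 hx).le).ge ?_
      exact single_le_sum (f := fun x =>
        ind (t ≤ |∑ i, ind (P x i (ω i)) - ∑ i, avg (fun ξ => ind (P x i ξ))|))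
        (fun _ _ => ind_nonneg _) (mem_univ x)
  refine (avg_mono k).trans ?_
  rw [avg_sum univ fun x (ω : E → Ξ) =>
    ind (t ≤ |∑ i, ind (P x i (ω i)) - ∑ i, avg (fun ξ => ind (P x i ξ))|)]
  refine (sum_le_card_nsmul _ _ _ fun x _ => h3 E Ξ (fun i ξ => ind (P x i ξ)) 1 t one_pos ht
    fun i ξ ξ' => ?_).trans (by rw [card_univ, nsmul_eq_mul])
  rw [abs_le]
  constructor <;>
    linarith [ind_nonneg (P x i ξ), ind_le_one (P x i ξ), ind_nonneg (P x i ξ'),
      ind_le_one (P x i ξ')]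

section
variable {E B : Type} [Fintype E] [DecidableEq E] [Nonempty E]

/-- law of the split type -/
noncomputable def mu (γ : E → B) (A F : Finset E) (x : B × B × Bool) : ℝ :=
  avg fun ξ : E × E × Bool => ind (st γ A F ξ = x)

lemma card_mul_avg (f : E → ℝ) : (Fintype.card E : ℝ) * avg f = ∑ i, f i := by
  have : (0 : ℝ) < Fintype.card E := by exact_mod_cast Fintype.card_pos
  rw [avg, mul_div_cancel₀ _ this.ne']

lemma avg_st (γ : E → B) (A F : Finset E) (g : B × B × Bool → ℝ) :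
    (Fintype.card E : ℝ) * avg (fun ξ : E × E × Bool => g (st γ A F ξ))
      = ∑ i, avg fun c : Bool => g (γ i, γ i, jj A F i c) := by
  rw [avg_prod, card_mul_avg]
  refine sum_congr rfl fun i _ => ?_
  rw [avg_prod]
  exact avg_const (avg fun c : Bool => g (γ i, γ i, jj A F i c))

omit [Nonempty E] in
lemma mu_nonneg (γ : E → B) (A F : Finset E) (x : B × B × Bool) : 0 ≤ mu γ A F x :=
  avg_nonneg fun _ => ind_nonneg _

lemma sum_mu [Fintype B] (γ : E → B) (A F : Finset E) : ∑ x, mu γ A F x = 1 := by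
  classical
  unfold mu
  rw [← avg_sum univ fun x (ξ : E × E × Bool) => ind (st γ A F ξ = x)]
  refine (avg_congr fun ξ => ?_).trans (avg_const 1)
  rw [sum_eq_single (st γ A F ξ) (fun y _ hy => ind_neg fun h => hy h.symm) (by simp), ind_pos rfl]

lemma mean0 (γ : E → B) (A F : Finset E) (x : B × B × Bool) :
    ∑ i, avg (fun c : Bool => ind ((some (γ i, γ i, jj A F i c) : Ty B) = some x))
      = Fintype.card E * mu γ A F x := by
  rw [mu, avg_st γ A F fun y => ind (y = x)]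
  exact sum_congr rfl fun i _ => avg_congr fun c => ind_congr Option.some_inj

omit [Nonempty E] in
lemma sum_mem (U : Finset E) : ∑ i, ind (i ∈ U) = (U.card : ℝ) := by
  rw [sum_ind, filter_mem_eq_inter, univ_inter]

lemma mean1 (γ : E → B) (U A F : Finset E) (x : B × B × Bool) :
    ∑ i, avg (fun ξ : E × E × Bool =>
        ind ((if i ∈ U then none else some (st γ A F ξ) : Ty B) = some x))
      = (Fintype.card E - U.card) * mu γ A F x := by
  have k : ∀ i, avg (fun ξ : E × E × Bool =>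
        ind ((if i ∈ U then none else some (st γ A F ξ) : Ty B) = some x))
      = mu γ A F x - ind (i ∈ U) * mu γ A F x := by
    intro i
    by_cases h : i ∈ U
    · rw [ind_pos h, one_mul, sub_self]
      refine (avg_congr fun ξ => ?_).trans avg_zero
      rw [if_pos h]
      exact ind_neg (by simp)
    · rw [ind_neg h, zero_mul, sub_zero]
      refine avg_congr fun ξ => ?_
      rw [if_neg h]
      exact ind_congr Option.some_inj
  rw [sum_congr rfl fun i _ => k i, sum_sub_distrib, ← sum_mul, sum_mem, sum_const, card_univ,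
    nsmul_eq_mul, sub_mul]

lemma ct_st (γ : E → B) (A F : Finset E) (b : B) :
    (Fintype.card E : ℝ) * avg (fun ξ : E × E × Bool => ct b (some (st γ A F ξ)))
      = 2 * nx γ b := by
  rw [avg_st γ A F fun y => ct b (some y), nx, mul_sum]
  refine sum_congr rfl fun i _ => ?_
  rw [two_mul]
  exact avg_const (ind (γ i = b) + ind (γ i = b))

omit [Nonempty E] in
lemma ct_T0 (γ : E → B) (A F : Finset E) (J : E → Bool) (b : B) :
    ∑ i, ct b (T0 γ A F J i) = 2 * nx γ b := by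
  rw [nx, mul_sum]
  refine sum_congr rfl fun i _ => ?_
  rw [two_mul]
  rfl

omit [Nonempty E] in
lemma nx_T0 (γ : E → B) (A F : Finset E) (J : E → Bool) : nx (T0 γ A F J) none = 0 :=
  sum_eq_zero fun _ _ => ind_neg (by simp [T0])

omit [Nonempty E] in
lemma nx_Tm {Ξ : Type} (U : Finset E) (f : Ξ → B × B × Bool) (ω : E → Ξ) :
    nx (Tm U f ω) none = U.card := by
  rw [← sum_mem]
  refine sum_congr rfl fun i _ => ind_congr ?_
  by_cases h : i ∈ U <;> simp [Tm, h]

end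

end SplitE

open SplitE in
theorem zSplitE (h1 : ZFeas) (h2 : ZCnt) (h3 : ZHoef) (h4 : ZPool) (h5 : ZCmp) : ZSplitE := by
  intro V E B _ _ _ _ _ _ w0 d β γ Ω U A F t hd hΩ ht hγ hU
  have hN : (0 : ℝ) < Fintype.card E := by exact_mod_cast Fintype.card_pos
  have hB : Nonempty B := ⟨γ (Classical.arbitrary E)⟩
  have hn : (1 : ℝ) ≤ Fintype.card B := by exact_mod_cast Fintype.card_pos
  have hc : (Fintype.card (B × B × Bool) : ℝ) = 2 * (Fintype.card B : ℝ) ^ 2 := by
    simp only [Fintype.card_prod, Fintype.card_bool]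
    push_cast
    ring
  have hU0 : (0 : ℝ) ≤ U.card := Nat.cast_nonneg _
  have e1 : Real.exp (-(t ^ 2 / (2 * 1 ^ 2 * Fintype.card E)))
      ≤ Real.exp (-(t ^ 2 / (256 * Fintype.card E))) := by
    refine Real.exp_le_exp.2 (neg_le_neg ?_)
    exact div_le_div_of_nonneg_left (sq_nonneg t) (by positivity) (by linarith)
  have e2 : Real.exp (-(t ^ 2 / (8 * Fintype.card E)))
      ≤ Real.exp (-(t ^ 2 / (256 * Fintype.card E))) := by
    refine Real.exp_le_exp.2 (neg_le_neg ?_)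
    exact div_le_div_of_nonneg_left (sq_nonneg t) (by positivity) (by linarith)
  have e0 := Real.exp_pos (-(t ^ 2 / (256 * Fintype.card E)))
  have p0 := tail h3 (fun (x : B × B × Bool) (i : E) (c : Bool) =>
    (some (γ i, γ i, jj A F i c) : Ty B) = some x) ht
  have p1 := tail h3 (fun (x : B × B × Bool) (i : E) (ξ : E × E × Bool) =>
    (if i ∈ U then none else some (st γ A F ξ) : Ty B) = some x) ht
  have p2 := h4 V E B (E × E × Bool) d β U (fun _ => st γ A F) 0 t ht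
    (fun _ b => ((ct_st γ A F b).trans (hγ b)).le) (fun b => by rw [zero_add]; exact hU b)
  simp only [mean0, mean1, hc] at p0 p1
  generalize Real.exp (-(t ^ 2 / (256 * Fintype.card E))) = e at e1 e2 e0 ⊢
  generalize Real.exp (-(t ^ 2 / (2 * 1 ^ 2 * Fintype.card E))) = e' at e1 p0 p1
  generalize Real.exp (-(t ^ 2 / (8 * Fintype.card E))) = e'' at e2 p2
  have key := h5 (E → Bool) (E → E × E × Bool) (fun J => Phi w0 β Ω (T0 γ A F J))
    (fun ω => Phi w0 β Ω (Tm U (st γ A F) ω))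
    (fun J => ∀ x, |nx (T0 γ A F J) (some x) - Fintype.card E * mu γ A F x| ≤ t)
    (fun ω => (∀ b, 0 ≤ pb d β (Tm U (st γ A F) ω) b) ∧
      ∀ x, |nx (Tm U (st γ A F) ω) (some x) - (Fintype.card E - U.card) * mu γ A F x| ≤ t)
    (Fintype.card E) (4 * U.card + 8 * (Fintype.card B : ℝ) ^ 2 * t)
    (4 * (Fintype.card B : ℝ) ^ 2 * e) (6 * (Fintype.card B : ℝ) ^ 2 * e) (by positivity)
    (fun _ => abs_Phi_le _ _) (fun _ => abs_Phi_le _ _) ?_ ?_ ?_
  · refine key.trans ?_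
    have a1 : 0 ≤ (Fintype.card B : ℝ) ^ 2 := sq_nonneg _
    have a2 : 0 ≤ (Fintype.card E : ℝ) * (Fintype.card B : ℝ) ^ 2 * e := by positivity
    nlinarith
  · refine p0.trans ?_
    nlinarith [mul_le_mul_of_nonneg_left e1 (sq_nonneg (Fintype.card B : ℝ))]
  · refine (avg_mono fun ω => (ind_congr not_and_or).trans_le (ind_or_le _ _)).trans ?_
    rw [avg_add]
    refine (add_le_add p2 p1).trans ?_
    have a1 : (Fintype.card B : ℝ) * e'' ≤ (Fintype.card B : ℝ) ^ 2 * e :=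
      (mul_le_mul_of_nonneg_left e2 (by linarith)).trans
        (mul_le_mul_of_nonneg_right (by nlinarith) e0.le)
    nlinarith [mul_le_mul_of_nonneg_left e1 (sq_nonneg (Fintype.card B : ℝ))]
  · rintro J ω hJ ⟨hω, hω'⟩
    have f0 : 0 < ms w0 β (T0 γ A F J) := h1 V E B w0 d β _ hd fun b => by
      rw [pb, ct_T0, hγ b, sub_self]
    have f1 : 0 < ms w0 β (Tm U (st γ A F) ω) := h1 V E B w0 d β _ hd hω
    refine (h2 V E B w0 d β Ω _ _ hd hΩ f0 f1).trans (add_le_add le_rfl ?_)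
    rw [Fintype.sum_option, nx_T0, nx_Tm, zero_sub, abs_neg, abs_of_nonneg hU0]
    have k : ∑ x : B × B × Bool, |nx (T0 γ A F J) (some x) - nx (Tm U (st γ A F) ω) (some x)|
        ≤ ∑ x : B × B × Bool, (2 * t + U.card * mu γ A F x) := by
      refine sum_le_sum fun x _ => ?_
      have b1 := abs_le.1 (hJ x)
      have b2 := abs_le.1 (hω' x)
      have b3 := mul_nonneg hU0 (mu_nonneg γ A F x)
      rw [abs_le]
      constructor <;> nlinarith
    rw [sum_add_distrib, ← mul_sum, ← mul_sum, sum_mu, sum_const, card_univ, nsmul_eq_mul, hc] at k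
    nlinarith

end Pool.Agent.MP_32a90a_pr.D.AZ

end

section

set_option autoImplicit false

namespace Pool.Agent.MP_32a90a_pr.D.AZ

open Finset Equiv Filter Pool.Agent.MP_32a90a_pr Pool.Agent.MP_32a90a_pr.L

namespace Step2J

variable {V E : Type} [Fintype V] [DecidableEq V] [Fintype E] [DecidableEq E]
  {Ω : Finset (V → Bool)} {s : E → ℝ} {w : E × Bool → V} {J : ℝ}

lemma gE (hΩ : Ω.Nonempty) (hJ : J = 1 ∨ J = -1) (u v : V) :
    gb Ω Y1 1 s w (fun σ => Real.exp (1 * J * Y1 σ u v))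
      = Real.cosh 1 * (1 + J * Real.tanh 1 * gb Ω Y1 1 s w fun σ => Y1 σ u v) := by
  rw [gb_congr (g := fun σ => Real.cosh 1 * (1 + J * Real.tanh 1 * Y1 σ u v)) fun σ _ => by
    rw [exp_sign 1 J _ hJ (Y1_cases σ u v)]; ring, gb_mul, gb_add, gb_const hΩ, gb_mul]

lemma gM (hJ : J = 1 ∨ J = -1) (u v : V) :
    gb Ω Y1 1 s w (fun σ => Real.exp (1 * J * Y1 σ u v) * sgn (σ u))
      = Real.cosh 1 * ((gb Ω Y1 1 s w fun σ => sgn (σ u))
        + J * Real.tanh 1 * gb Ω Y1 1 s w fun σ => sgn (σ v)) := by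
  rw [← gb_mul (J * Real.tanh 1), ← gb_add, ← gb_mul]
  refine gb_congr fun σ _ => ?_
  rw [exp_sign 1 J _ hJ (Y1_cases σ u v), Y1]
  linear_combination Real.cosh 1 * Real.tanh 1 * J * sgn (σ v) * sgn_mul_self (σ u)

omit [Fintype V] [DecidableEq V] in
lemma Y1_comm (σ : V → Bool) (u v : V) : Y1 σ u v = Y1 σ v u := mul_comm _ _

lemma gE_pos (hΩ : Ω.Nonempty) (u v : V) :
    0 < gb Ω Y1 1 s w (fun σ => Real.exp (1 * J * Y1 σ u v)) :=
  wav_pos hΩ (bw_pos' _ _ _ _ _) fun _ _ => Real.exp_pos _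

lemma logb (hΩ : Ω.Nonempty) (hJ : J = 1 ∨ J = -1) (u v : V) :
    |Real.log (gb Ω Y1 1 s w fun σ => Real.exp (1 * J * Y1 σ u v))| ≤ 1 := by
  have h : ∀ σ : V → Bool, -1 ≤ 1 * J * Y1 σ u v ∧ 1 * J * Y1 σ u v ≤ 1 := fun σ => by
    rcases hJ with rfl | rfl <;> rcases Y1_cases σ u v with e | e <;> rw [e] <;> norm_num
  rw [abs_le, Real.le_log_iff_exp_le (gE_pos hΩ u v), Real.log_le_iff_le_exp (gE_pos hΩ u v)]
  exact ⟨const_le_gb hΩ fun σ _ => Real.exp_le_exp.2 (h σ).1,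
    gb_le_const hΩ fun σ _ => Real.exp_le_exp.2 (h σ).2⟩

lemma logd (hΩ : Ω.Nonempty) (u v : V) :
    |Real.log (gb Ω Y1 1 s w fun σ => Real.exp (1 * 1 * Y1 σ u v))
      - Real.log (gb Ω Y1 1 s w fun σ => Real.exp (1 * (-1) * Y1 σ u v))| ≤ 2 :=
  (abs_sub _ _).trans (by
    linarith [logb (s := s) (w := w) hΩ (Or.inl rfl) u v,
      logb (s := s) (w := w) hΩ (Or.inr rfl) u v])

lemma logE (hΩ : Ω.Nonempty) (hJ : J = 1 ∨ J = -1) (u v : V) :
    Real.log (gb Ω Y1 1 s w fun σ => Real.exp (1 * J * Y1 σ u v))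
      = Real.log (Real.cosh 1)
        + Real.log (1 + J * Real.tanh 1 * gb Ω Y1 1 s w fun σ => Y1 σ u v) := by
  have h := gE_pos (s := s) (w := w) (J := J) hΩ u v
  rw [gE hΩ hJ] at h ⊢
  exact Real.log_mul (Real.cosh_pos 1).ne' ((mul_pos_iff_of_pos_left (Real.cosh_pos 1)).1 h).ne'

lemma quot (hΩ : Ω.Nonempty) (u v x : V) :
    |gb Ω Y1 1 s w (fun σ => Real.exp (1 * J * Y1 σ u v) * sgn (σ x))
      / gb Ω Y1 1 s w (fun σ => Real.exp (1 * J * Y1 σ u v))| ≤ 1 := by
  rw [abs_div, abs_of_pos (gE_pos hΩ u v), div_le_one (gE_pos hΩ u v)]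
  refine (abs_wav_le_wav_abs hΩ (bw_pos' _ _ _ _ _) _).trans (le_of_eq (wav_congr fun σ _ => ?_))
  rw [abs_mul, abs_sgn, mul_one, abs_of_pos (Real.exp_pos _)]

/-- the gain chain -/
lemma chain {c : ℝ} (hc : 0 < c) (h2 : Two c) {w0 : E × Bool → V} {d : ℕ} (hd : Deg w0 d)
    (hΩ : Ω.Nonempty) (f : Bool) {U : Finset E} (hU : 1 ≤ U.card) {ν : ℝ} (hν : 0 < ν)
    (hm : ∀ σ ∈ Ω, ν * Fintype.card V ≤ mag σ) (h4 : 4 * (U.card : ℝ) ≤ ν * Fintype.card E)
    (h5 : 4 ≤ ν * U.card) (T : Finset E) (n : ℕ) :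
    ∀ S : Finset E, S.card = n → (∀ i ∈ S, i ∉ U ∧ i ∉ T) →
      Fq w0 Ω f U T + ((n : ℝ) - 1) / 2 * (c * ν ^ 2) - n / (U.card : ℝ)
        ≤ Fq w0 Ω f U (T ∪ S) := by
  induction n using Nat.twoStepInduction with
  | zero =>
    intro S hS _
    rw [card_eq_zero.1 hS, union_empty]
    have : 0 < c * ν ^ 2 := by positivity
    simp only [Nat.cast_zero, zero_div]
    linarith
  | one =>
    intro S hS h
    obtain ⟨i, rfl⟩ := card_eq_one.1 hS
    have hi := h i (mem_singleton_self i)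
    have := (h2 V E w0 d Ω f U T i hd hΩ hU hi.1 hi.2).1
    rw [union_comm, ← insert_eq]
    simp only [Nat.cast_one, sub_self, zero_div, zero_mul, add_zero]
    exact this
  | more n ih _ =>
    intro S hS h
    obtain ⟨i', S1, hi', rfl, hS1⟩ := card_eq_succ.1 hS
    obtain ⟨i, S2, hi, rfl, hS2⟩ := card_eq_succ.1 hS1
    have a1 := ih S2 hS2 fun j hj => h j (mem_insert_of_mem (mem_insert_of_mem hj))
    have b := h i (mem_insert_of_mem (mem_insert_self _ _))
    have b' := h i' (mem_insert_self _ _)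
    rw [mem_insert, not_or] at hi'
    have a2 := (h2 V E w0 d Ω f U (T ∪ S2) i hd hΩ hU b.1
      (fun x => (mem_union.1 x).elim b.2 hi)).2 i' ν b'.1
      (fun x => (mem_union.1 x).elim b'.2 hi'.2) hi'.1 hν hm h4 h5
    rw [union_insert, union_insert]
    have e : ((n + 2 : ℕ) : ℝ) / U.card = n / U.card + 2 / U.card := by push_cast; ring
    rw [e]
    push_cast
    linarith

lemma Fq_eq {w0 : E × Bool → V} {f : Bool} {U T A F : Finset E}
    (h : ∀ J, cq f U T J = cp U A F J) : Fq w0 Ω f U T = FF w0 U A F 1 0 Ω := by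
  simp only [Fq, FF, lzH_zero, h]

end Step2J

open Step2J in
theorem zStep2 : ZStep2 := by
  intro C _ hK V E _ _ _ _ w0 Ω U s k hΩ hU hs hk hkU
  refine ⟨const_le_av fun w => (hK V E Ω s U w 0 1 hΩ hU (by simp) one_pos).1, ?_, ?_⟩
  · have h := offdiag_ge (w0 := w0) hU k (c := 2) (η := 0)
      (G := fun w => lZ Ω Y1 1 (Function.update s k 1) w - lZ Ω Y1 1 (Function.update s k (-1)) w)
      (K := fun w a b => Real.log (gb Ω Y1 1 s w fun σ => Real.exp (1 * 1 * Y1 σ (w a) (w b)))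
        - Real.log (gb Ω Y1 1 s w fun σ => Real.exp (1 * (-1) * Y1 σ (w a) (w b)))) le_rfl
      (fun w => by
        rw [lZ_update hΩ k hk, lZ_update hΩ k hk, add_sub_add_left_eq_sub]
        exact logd hΩ _ _)
      (fun w a b => logd hΩ _ _)
      (fun w a ha b hb hab => by
        rw [lZ_ex hΩ Y1 1 hs hk hkU ha hb hab, lZ_ex hΩ Y1 1 hs hk hkU ha hb hab,
          add_sub_add_left_eq_sub, sub_zero])
    have e : ∀ w : E × Bool → V, aQQ U (fun a b =>
        Real.log (gb Ω Y1 1 s w fun σ => Real.exp (1 * 1 * Y1 σ (w a) (w b)))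
          - Real.log (gb Ω Y1 1 s w fun σ => Real.exp (1 * (-1) * Y1 σ (w a) (w b))))
        = 2 * GG Ω s U w := by
      intro w
      rw [GG, ← aQQ_smul]
      congr 1
      funext a b
      rw [logE hΩ (Or.inl rfl), logE hΩ (Or.inr rfl), cc, one_mul, neg_mul, neg_mul, one_mul,
        ← sub_eq_add_neg]
      ring
    simp only [e] at h
    rw [av_mul, av_sub] at h
    linarith
  · intro j c lam hl
    have hJ := sgn_cases j
    have h := offdiag_le (w0 := w0) hU k (c := 1) (η := 0)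
      (G := fun w => mm Ω (Function.update s k (sgn j)) w (k, c))
      (K := fun w a b => gb Ω Y1 1 s w (fun σ => Real.exp (1 * sgn j * Y1 σ (w a) (w b))
          * sgn (σ (w (if c then b else a))))
        / gb Ω Y1 1 s w (fun σ => Real.exp (1 * sgn j * Y1 σ (w a) (w b)))) le_rfl
      (fun w => abs_gb_le hΩ fun σ _ => (abs_sgn _).le)
      (fun w a b => quot hΩ _ _ _)
      (fun w a ha b hb hab => by
        rw [mm, gb_ex hΩ Y1 1 hs hk hkU ha hb hab, add_zero]
        cases c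
        · simp only [Function.comp_apply, ex_false hkU ha hb, Bool.false_eq_true, if_false, le_refl]
        · simp only [Function.comp_apply, ex_true hkU ha hb hab, if_true, le_refl])
    have e : ∀ (w : E × Bool → V) (a b : E × Bool),
        gb Ω Y1 1 s w (fun σ => Real.exp (1 * sgn j * Y1 σ (w a) (w b)) * sgn (σ (w a)))
          / gb Ω Y1 1 s w (fun σ => Real.exp (1 * sgn j * Y1 σ (w a) (w b)))
        = (mm Ω s w a + sgn j * Real.tanh 1 * mm Ω s w b)
          / (1 + sgn j * Real.tanh 1 * cc Ω s w a b) := by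
      intro w a b
      rw [gM hJ, gE hΩ hJ, mul_div_mul_left _ _ (Real.cosh_pos 1).ne']
      rfl
    have h2 : av w0 (fun w => aQQ U fun a b =>
        gb Ω Y1 1 s w (fun σ => Real.exp (1 * sgn j * Y1 σ (w a) (w b))
          * sgn (σ (w (if c then b else a))))
        / gb Ω Y1 1 s w (fun σ => Real.exp (1 * sgn j * Y1 σ (w a) (w b))))
        ≤ av w0 fun w => lam + C * GG Ω s U w / lam := by
      refine av_mono fun w => le_trans (le_of_eq ?_)
        (hK V E Ω s U w (sgn j) lam hΩ hU (abs_sgn j).le hl).2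
      cases c
      · simp only [Bool.false_eq_true, if_false, e]
      · rw [← aQQ_comm]
        congr 1
        funext a b
        simp only [if_true, Y1_comm _ (w b) (w a), e]
    rw [av_add, av_const, av_div, av_mul] at h2
    linarith

open Step2J in
theorem zGain : ZGain := by
  intro c hc h2 d hd ν0 η hν0 hη
  obtain ⟨u, hu⟩ := exists_nat_ge (4 / ν0 + d / η)
  obtain ⟨N0, hN0⟩ := exists_nat_ge (8 * u / ν0 + 2 * ((2 + c) * (u + 1)) / η + 1)
  refine ⟨N0, fun V E _ _ _ _ w0 hw hN ν Ω X hν hΩ hm => ?_⟩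
  have hd1 : (1 : ℝ) ≤ d := by exact_mod_cast hd
  have hNR : (N0 : ℝ) ≤ Fintype.card V := by exact_mod_cast hN
  have hE := card_half hw
  set N : ℝ := (Fintype.card V : ℝ) with hNdef
  have p1 : 0 < 4 / ν0 := by positivity
  have p2 : 0 < d / η := by positivity
  have p3 : 0 ≤ 8 * u / ν0 := by positivity
  have p4 : 0 ≤ 2 * ((2 + c) * (u + 1)) / η := by positivity
  have hu0 : (0 : ℝ) < u := by linarith
  have hN1 : 0 < N := by linarith
  have hν1 : ν ≤ 1 := by
    obtain ⟨σ, hσ⟩ := hΩ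
    have := (hm σ hσ).trans ((le_abs_self _).trans (abs_mag_le σ))
    rw [← hNdef] at this
    nlinarith
  have hνp : 0 < ν := hν0.trans_le hν
  have q1 : 4 ≤ ν * u := by
    have : 4 ≤ u * ν0 := (div_le_iff₀ hν0).1 (by linarith)
    nlinarith
  have q2 : 4 * (u : ℝ) ≤ ν * Fintype.card E := by
    have a1 : 8 * u ≤ N * ν0 := (div_le_iff₀ hν0).1 (by linarith)
    have a2 : N * ν0 ≤ N * ν := mul_le_mul_of_nonneg_left hν hN1.le
    have a3 : N ≤ 2 * Fintype.card E := by nlinarith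
    nlinarith
  have q3 : (2 + c) * (u + 1) ≤ η * N / 2 := by
    have : 2 * ((2 + c) * (u + 1)) ≤ N * η := (div_le_iff₀ hη).1 (by linarith)
    linarith
  have q4 : (Fintype.card E : ℝ) / u ≤ η * N / 2 := by
    have : d ≤ u * η := (div_le_iff₀ hη).1 (by linarith)
    rw [div_le_iff₀ hu0]
    nlinarith
  have hE0 : (0 : ℝ) ≤ Fintype.card E := Nat.cast_nonneg _
  obtain ⟨U, -, hU⟩ := exists_subset_card_eq (s := (univ : Finset E)) (n := u) (by
    rw [card_univ]
    have : (u : ℝ) ≤ Fintype.card E := by nlinarith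
    exact_mod_cast this)
  have hU1 : 1 ≤ U.card := by rw [hU]; exact_mod_cast hu0
  have key : ∀ (f : Bool) (T A F A' F' : Finset E), (∀ i ∈ X, i ∉ T) →
      (∀ J, cq f U T J = cp U A F J) → (∀ J, cq f U (T ∪ X \ U) J = cp U A' F' J) →
      FF w0 ∅ A F 1 0 Ω + c / 2 * X.card * ν ^ 2 ≤ FF w0 ∅ A' F' 1 0 Ω + η * N := by
    intro f T A F A' F' hT e1 e2
    have a1 := chain hc h2 hw hΩ f hU1 hνp hm (by rw [hU]; exact q2) (by rw [hU]; exact q1) T _
      (X \ U) rfl fun i hi => ⟨(mem_sdiff.1 hi).2, hT i (mem_sdiff.1 hi).1⟩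
    rw [Fq_eq e1, Fq_eq e2, hU] at a1
    have a2 := (FF_idle (w0 := w0) (U := U) (A := A) (F := F) (B := 0) hΩ).2
    have a3 := (FF_idle (w0 := w0) (U := U) (A := A') (F := F') (B := 0) hΩ).1
    rw [hU] at a2 a3
    have a4 : (X.card : ℝ) ≤ (X \ U).card + u := by
      rw [← hU]
      exact_mod_cast card_le_card_sdiff_add_card
    have a5 : ((X \ U).card : ℝ) / u ≤ (Fintype.card E : ℝ) / u :=
      div_le_div_of_nonneg_right (by exact_mod_cast card_le_univ _) hu0.le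
    have a6 : c * ν ^ 2 ≤ c := mul_le_of_le_one_right hc.le (pow_le_one₀ hνp.le hν1)
    have a7 : 0 < c * ν ^ 2 := by positivity
    have a8 := mul_le_mul_of_nonneg_right a4 a7.le
    have a9 := mul_le_mul_of_nonneg_left a6 (by linarith : (0 : ℝ) ≤ u + 1)
    nlinarith
  refine ⟨key true ∅ ∅ ∅ ∅ X (fun i _ => notMem_empty i) (fun J => rfl) fun J => ?_,
    key false Xᶜ X ∅ ∅ ∅ (fun i hi => by simpa using hi) (fun J => ?_) fun J => ?_⟩
  · funext i
    by_cases hi : i ∈ U <;> simp [cq, cp, hi]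
  · simp [cq]
  · funext i
    by_cases hi : i ∈ U <;> simp [cq, cp, hi]

end Pool.Agent.MP_32a90a_pr.D.AZ

end

section

set_option autoImplicit false

namespace Pool.Agent.MP_32a90a_pr.D.AZ

open Finset Equiv Filter Pool.Agent.MP_32a90a_pr Pool.Agent.MP_32a90a_pr.L

namespace Tow

lemma tower {α X : Type} [Fintype α] (T : α → X) (F : α → ℝ) :
    avg (fun a => avg (fun a' => ind (T a' = T a) * F a') / avg fun a' => ind (T a' = T a))
      = avg F := by
  have hc : ∀ a, 0 < avg fun a' => ind (T a' = T a) := fun a =>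
    div_pos (sum_pos' (fun _ _ => ind_nonneg _) ⟨a, mem_univ _, one_pos.trans_eq (ind_pos rfl).symm⟩)
      (by exact_mod_cast Fintype.card_pos_iff.2 ⟨a⟩)
  simp only [← avg_div]
  rw [avg_comm]
  refine avg_congr fun a' => ?_
  have h : ∀ a, (ind (T a' = T a) * F a' / avg fun b => ind (T b = T a))
      = ind (T a = T a') * (F a' / avg fun b => ind (T b = T a')) := fun a => by
    by_cases e : T a' = T a
    · rw [ind_pos e, ind_pos e.symm, e, mul_div_assoc]
    · rw [ind_neg e, ind_neg (Ne.symm e), zero_mul, zero_mul, zero_div]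
  rw [avg_congr h, avg_mul_right, mul_div_cancel₀ _ (hc a').ne']

/-- the pattern of an arrangement -/
def Tp {V E B : Type} [DecidableEq E] (β : V → B) (U : Finset E) (j : E → Bool)
    (w : E × Bool → V) : E → Ty B :=
  fun i => if i ∈ U then none else some (β (w (i, false)), β (w (i, true)), j i)

variable {V E B : Type} [DecidableEq E] {β : V → B} {U : Finset E}

lemma sT_Tp (j : E → Bool) (w : E × Bool → V) :
    sT (Tp β U j w) = fun i => if i ∈ U then 0 else sgn (j i) := by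
  funext i
  unfold sT Tp
  split_ifs <;> rfl

lemma mt_Tp (j : E → Bool) (w w' : E × Bool → V) :
    mt β (Tp β U j w) w' ↔ Tp β U j w' = Tp β U j w := by
  constructor
  · intro h
    funext i
    by_cases hi : i ∈ U
    · simp only [Tp, if_pos hi]
    · obtain ⟨h1, h2⟩ := h i (β (w (i, false)), β (w (i, true)), j i) (by simp only [Tp, if_neg hi])
      simp only [Tp, if_neg hi, h1, h2]
  · intro h i x hx
    rw [← h] at hx
    by_cases hi : i ∈ U
    · simp [Tp, hi] at hx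
    · simp only [Tp, if_neg hi, Option.some.injEq] at hx
      rw [← hx]
      exact ⟨rfl, rfl⟩

lemma ind_three (a b : B) (c : Bool) (x : B × B × Bool) :
    ind ((a, b, c) = x) = ind (a = x.1) * ind (b = x.2.1) * ind (c = x.2.2) := by
  rw [← ind_and, ← ind_and]
  obtain ⟨x1, x2, x3⟩ := x
  exact ind_congr (by simp [and_assoc])

lemma nx_sub [Fintype E] {X : Type} (T T' : E → X) (x : X) (S : Finset E)
    (h : ∀ i, i ∉ S → T i = T' i) : |nx T x - nx T' x| ≤ S.card := by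
  rw [nx, nx, ← sum_sub_distrib, ← sum_subset (subset_univ S) fun i _ hi => by
    rw [h i hi, sub_self]]
  refine (abs_sum_le_sum_abs _ _).trans ((sum_le_card_nsmul _ _ 1 fun i _ => ?_).trans (by simp))
  rw [abs_le]
  constructor <;>
    linarith [ind_nonneg (T i = x), ind_le_one (T i = x), ind_nonneg (T' i = x),
      ind_le_one (T' i = x)]

lemma avg_at [Fintype E] (i : E) (K : Bool → ℝ) : avg (fun J : E → Bool => K (J i)) = avg K := by
  rw [avg_update i]
  simp only [Function.update_self]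
  exact avg_const _

lemma num {n g g' Z m κ : ℝ} (hn : 1 ≤ n) (h1 : 0 ≤ g) (h2 : g ≤ n) (h3 : 0 ≤ g') (h4 : g' ≤ n)
    (h5 : 0 ≤ Z) (h6 : Z ≤ 2 * n) (h7 : 0 ≤ m) (h8 : m ≤ n) (h9 : 0 ≤ κ) (h10 : κ ≤ 1) :
    |m * ((2 * g * (2 * g') - Z) / (2 * n * (2 * n - 1)) * κ) - m * (g / n * (g' / n * κ))| ≤ 1 := by
  have a1 : 0 < 2 * n - 1 := by linarith
  have a2 : 0 < n := by linarith
  have e : m * ((2 * g * (2 * g') - Z) / (2 * n * (2 * n - 1)) * κ) - m * (g / n * (g' / n * κ))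
      = m * κ * (2 * g * g' - Z * n) / (2 * n ^ 2 * (2 * n - 1)) := by
    field_simp
    ring
  have a3 : |2 * g * g' - Z * n| ≤ 2 * n ^ 2 := by
    have := mul_le_mul h2 h4 h3 a2.le
    have := mul_nonneg h1 h3
    have := mul_le_mul_of_nonneg_right h6 a2.le
    have := mul_nonneg h5 a2.le
    rw [abs_le]
    constructor <;> nlinarith
  have a4 : m * κ ≤ 2 * n - 1 := by nlinarith
  rw [e, abs_div, abs_of_pos (by positivity : 0 < 2 * n ^ 2 * (2 * n - 1)),
    div_le_one (by positivity), abs_mul, abs_of_nonneg (mul_nonneg h7 h9), mul_comm]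
  exact mul_le_mul a3 a4 (mul_nonneg h7 h9) (by positivity)

end Tow

open Tow in
theorem zTow : ZTow := by
  intro V E B _ _ _ _ w0 β Ω U j
  refine Eq.trans ?_ (tower (fun π : Perm (E × Bool) => Tp β U j (w0 ∘ π))
    fun π => mxH Ω (fun i => if i ∈ U then 0 else sgn (j i)) 0 (w0 ∘ π))
  refine avg_congr (f := fun π : Perm (E × Bool) => Phi w0 β Ω (Tp β U j (w0 ∘ π))) fun π => ?_
  simp only [Phi, ms, sT_Tp, mt_Tp]
  rfl

open Tow in
theorem zTypJ (h : StConc) : ZTypJ := by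
  intro V E B _ _ _ _ _ w0 d β γ U f x t hd ht hγ
  have h1 := h V E w0 (fun w J => nx (Tp β U (fun i => f || J i) w) (some x)) 2 t two_pos ht
    (fun w J a b => (nx_sub _ _ _ {a.1, b.1} fun i hi => by
      simp only [mem_insert, mem_singleton, not_or] at hi
      have e : ∀ c, swap a b (i, c) = (i, c) := fun c =>
        swap_apply_of_ne_of_ne (fun e => hi.1 (congrArg Prod.fst e))
          fun e => hi.2 (congrArg Prod.fst e)
      simp only [Tp, Function.comp_apply, e]).trans (by exact_mod_cast card_le_two))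
    fun w J i b => (nx_sub _ _ _ {i} fun k hk => by
      simp only [Tp, Function.update_of_ne (notMem_singleton.1 hk)]).trans (by simp)
  rw [show (64 : ℝ) * 2 ^ 2 = 256 by norm_num] at h1
  refine le_trans (PD_mono fun w J hw => ?_) h1
  have hn : (1 : ℝ) ≤ Fintype.card E := by exact_mod_cast Fintype.card_pos
  have hD : ∀ b, ∑ a, ind (β (w0 a) = b) = 2 * nx γ b := fun b => by
    rw [hγ, sum_half hd fun v => ind (β v = b)]
    rfl
  have hg : ∀ b, nx γ b ≤ Fintype.card E := fun b =>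
    (sum_le_card_nsmul _ _ 1 fun i _ => ind_le_one _).trans (by simp)
  set κ := avg fun c : Bool => ind ((f || c) = x.2.2) with hκ
  set Z := ∑ a, ind (β (w0 a) = x.1) * ind (β (w0 a) = x.2.1) with hZ
  have e1 : ED w0 (fun w J => nx (Tp β U (fun i => f || J i) w) (some x))
      = ((Fintype.card E : ℝ) - U.card) * ((2 * nx γ x.1 * (2 * nx γ x.2.1) - Z)
        / (2 * (Fintype.card E : ℝ) * (2 * (Fintype.card E : ℝ) - 1)) * κ) := by
    simp only [nx]
    rw [ED_sum, ← sum_subset (subset_univ Uᶜ) fun i _ hi => by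
      have hi' : i ∈ U := by simpa using hi
      simp only [Tp, if_pos hi', ind_neg (Option.some_ne_none x).symm]
      exact ED_const 0]
    rw [sum_congr rfl (g := fun _ => (2 * nx γ x.1 * (2 * nx γ x.2.1) - Z)
        / (2 * (Fintype.card E : ℝ) * (2 * (Fintype.card E : ℝ) - 1)) * κ) fun i hi => ?_,
      sum_const, card_compl, nsmul_eq_mul, Nat.cast_sub (card_le_univ U)]
    · rfl
    · have hi' : i ∉ U := mem_compl.1 hi
      simp only [Tp, if_neg hi', Option.some.injEq, ind_three, ED, avg_mul]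
      rw [avg_at i fun c => ind ((f || c) = x.2.2)]
      simp only [mul_comm _ κ, ← hκ, av_mul]
      rw [av_pair w0 (fun u v => ind (β u = x.1) * ind (β v = x.2.1)) (p := (i, false))
        (q := (i, true)) (by simp), ← sum_mul_sum, hD, hD]
  have e2 : (avg fun ξ => ind (jt γ f ξ = x))
      = nx γ x.1 / Fintype.card E * (nx γ x.2.1 / Fintype.card E * κ) := by
    simp only [jt, ind_three, mul_assoc]
    rw [avg_prod]
    simp only [avg_mul]
    rw [avg_mul_right, avg_prod]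
    simp only [avg_mul]
    rw [avg_mul_right]
    rfl
  have e3 := num (Z := Z) (m := (Fintype.card E : ℝ) - U.card) (κ := κ) hn (nx_nonneg γ x.1) (hg _)
    (nx_nonneg γ x.2.1) (hg _) (sum_nonneg fun _ _ => mul_nonneg (ind_nonneg _) (ind_nonneg _))
    ((sum_le_card_nsmul _ _ 1 fun a _ =>
      mul_le_one₀ (ind_le_one _) (ind_nonneg _) (ind_le_one _)).trans (by simp [mul_comm]))
    (sub_nonneg.2 (by exact_mod_cast card_le_univ U)) (sub_le_self _ (Nat.cast_nonneg _))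
    (avg_nonneg fun _ => ind_nonneg _) (avg_le_const zero_le_one fun _ => ind_le_one _)
  rw [← e1, ← e2] at e3
  have e4 := abs_sub_le (nx (Tp β U (fun i => f || J i) w) (some x))
    (ED w0 fun w J => nx (Tp β U (fun i => f || J i) w) (some x))
    (((Fintype.card E : ℝ) - U.card) * avg fun ξ => ind (jt γ f ξ = x))
  have hw' : t + 1 < |nx (Tp β U (fun i => f || J i) w) (some x)
      - ((Fintype.card E : ℝ) - U.card) * avg fun ξ => ind (jt γ f ξ = x)| := hw
  linarith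

end Pool.Agent.MP_32a90a_pr.D.AZ

end

section

set_option autoImplicit false

namespace Pool.Agent.MP_32a90a_pr.D.AZ

open Finset Equiv Filter Topology Pool.Agent.MP_32a90a_pr Pool.Agent.MP_32a90a_pr.L
open scoped Classical

namespace Trans

open JTransfer

lemma sum_ge {k : ℕ} {E : Type} [Fintype E] [DecidableEq E] {w : E × Bool → Fin (2 * k)}
    {G : SimpleGraph (Fin (2 * k))} (h : Rep w G) :
    (1 / ((2 * k : ℕ) : ℝ)) * (2 * (mx (bal (Fin (2 * k))) Y1 (fun _ => 1) w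
      - mx (bal (Fin (2 * k))) Y1 (fun _ => -1) w)) ≤ sSup (vals G) + sInf (vals G) := by
  have hp : 0 ≤ 1 / ((2 * k : ℕ) : ℝ) := by positivity
  have q1 : ∀ x : Fin (2 * k) → Bool,
      dotProduct (fun i => sgn (x i)) ((G.adjMatrix ℝ).mulVec fun i => sgn (x i))
        = 2 * en Y1 (fun _ => 1) w x := fun x => by
    rw [quad_eq h]; simp [en, Y1, mul_sum]
  have q2 : ∀ x : Fin (2 * k) → Bool,
      dotProduct (fun i => sgn (x i)) ((G.adjMatrix ℝ).mulVec fun i => sgn (x i))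
        = -2 * en Y1 (fun _ => -1) w x := fun x => by
    rw [quad_eq h]; simp [en, Y1, mul_sum]
  rw [bal_eq]
  obtain ⟨x, hx, e⟩ := exists_mx (Bal_nonempty k) Y1 (fun _ : E => (1 : ℝ)) w
  have hm := (mem_vals G _).2 ⟨x, hx, rfl⟩
  have hb : BddAbove (vals G) := by
    refine ⟨(1 / ((2 * k : ℕ) : ℝ)) * (2 * mx (Bal k) Y1 (fun _ => 1) w), fun t ht => ?_⟩
    obtain ⟨y, hy, rfl⟩ := (mem_vals G t).1 ht
    rw [q1]
    refine mul_le_mul_of_nonneg_left ?_ hp
    have := JTransfer.le_mx Y1 (fun _ : E => (1 : ℝ)) w hy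
    linarith
  have h1 := le_csSup hb hm
  rw [q1, e] at h1
  have h2 : (1 / ((2 * k : ℕ) : ℝ)) * (-2 * mx (Bal k) Y1 (fun _ => -1) w) ≤ sInf (vals G) := by
    refine le_csInf ⟨_, hm⟩ fun t ht => ?_
    obtain ⟨y, hy, rfl⟩ := (mem_vals G t).1 ht
    rw [q2]
    refine mul_le_mul_of_nonneg_left ?_ hp
    have := JTransfer.le_mx Y1 (fun _ : E => (-1 : ℝ)) w hy
    linarith
  linarith

lemma fe_eq (d k : ℕ) : fe d k = av (cw d k) (mx (bal (Fin (2 * k))) Y1 fun _ => 1) := by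
  have e : ∀ J : Fin (k * d) → Bool, cp ∅ ∅ univ J = fun _ => 1 := fun J => by
    funext i; simp [cp]
  simp only [fe, VV, ED, e, avg_const, mxH_zero, magSet_zero]

lemma af_eq (d k : ℕ) : af d k = av (cw d k) (mx (bal (Fin (2 * k))) Y1 fun _ => -1) := by
  have e : ∀ J : Fin (k * d) → Bool, cp ∅ univ ∅ J = fun _ => -1 := fun J => by
    funext i; simp [cp]
  simp only [af, VV, ED, e, avg_const, mxH_zero, magSet_zero]

lemma bound (d : ℕ) (hd : 1 ≤ d) (γ : ℝ) (hγ : 0 < γ) (k : ℕ)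
    (hM : af d k + γ * (2 * k) < fe d k)
    (hk3 : 2 * d * (2 * d + 2) + 2 * (d * (d + 1) + d + 2) < k) :
    1 - 2 * (((2 * k * d : ℕ) : ℝ) ^ 2 + 1) ^ (2 * (d * (d + 1) + d + 2))
        * Real.exp (-(γ ^ 2 / (1024 * d) * k)) ≤
      ({G : SimpleGraph (Fin (2 * k)) | G.IsRegularOfDegree d ∧
          γ < |sSup (vals G) + sInf (vals G)|}.ncard : ℝ)
        / ({G : SimpleGraph (Fin (2 * k)) | G.IsRegularOfDegree d}.ncard : ℝ) := by
  rw [fe_eq, af_eq] at hM
  have h0 := cw_deg d k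
  generalize cw d k = w0 at hM h0
  have hP : Fintype.card (Fin (k * d) × Bool) = 2 * k * d := by simp; ring
  have hkd : k ≤ k * d := Nat.le_mul_of_pos_right k hd
  obtain ⟨κ, hκ, hA⟩ := uniform' h0
  have s1 := simple_prob h0 (by rw [hP]; nlinarith)
  have a1 := hA fun _ => True
  have a2 := hA fun G => ¬ γ < |sSup (vals G) + sInf (vals G)|
  have b1 : {π : Perm (Fin (k * d) × Bool) | Bad (w0 ∘ π) = ∅}
      = {π : Perm (Fin (k * d) × Bool) | ∃ G, Rep (w0 ∘ π) G ∧ True} := by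
    ext π
    simp only [Set.mem_ofPred_eq, and_true, Bad_empty]
    exact ⟨exists_graph, fun ⟨G, hG⟩ => hG.1⟩
  rw [← ncard_filter, b1, a1, hP] at s1
  simp only [and_true] at s1
  let f : Perm (Fin (k * d) × Bool) → ℝ := fun π =>
    mx (bal (Fin (2 * k))) Y1 (fun _ => -1) (w0 ∘ π)
      - mx (bal (Fin (2 * k))) Y1 (fun _ => 1) (w0 ∘ π)
  have hd' : (1 : ℝ) ≤ d := by exact_mod_cast hd
  have hk0 : (0 : ℝ) < k := by exact_mod_cast (by omega : 0 < k)
  have hne : (bal (Fin (2 * k))).Nonempty := by rw [bal_eq]; exact Bal_nonempty k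
  have hf : ∀ π a b, |f (π * swap a b) - f π| ≤ 8 := by
    intro π a b
    have k1 := abs_le.1 (JTransfer.mx_swap hne (fun _ => 1) (fun _ => by simp) (w0 ∘ π) a b)
    have k2 := abs_le.1 (JTransfer.mx_swap hne (fun _ => -1) (fun _ => by simp) (w0 ∘ π) a b)
    have e1 : w0 ∘ (π * swap a b : Perm _) = (w0 ∘ π) ∘ swap a b := rfl
    simp only [f]
    rw [e1, abs_le]; constructor <;> linarith [k1.1, k1.2, k2.1, k2.2]
  have hT := perm_tail 8 (by norm_num) (γ / (512 * d)) (by positivity) f hf (γ * k)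
  set N : ℝ := (Fintype.card (Perm (Fin (k * d) × Bool)) : ℝ) with hN
  have hN0 : 0 < N := by rw [hN]; exact_mod_cast Fintype.card_pos
  have hmean : (∑ σ, f σ) / N ≤ -(γ * (2 * k)) := by
    simp only [f, sum_sub_distrib, sub_div]
    unfold av at hM
    linarith
  have b2 : (univ.filter fun π : Perm (Fin (k * d) × Bool) =>
        ∃ G, Rep (w0 ∘ π) G ∧ ¬ γ < |sSup (vals G) + sInf (vals G)|)
      ⊆ univ.filter fun π => (∑ σ, f σ) / N + γ * k ≤ f π := by
    intro π hπ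
    simp only [mem_filter, mem_univ, true_and] at hπ ⊢
    obtain ⟨G, h1, h2⟩ := hπ
    have h3 := (sum_ge h1).trans ((le_abs_self _).trans (not_lt.1 h2))
    have h4 : -(γ * k) ≤ f π := by
      simp only [f]
      push_cast at h3
      rw [one_div, inv_mul_le_iff₀ (by positivity)] at h3
      linarith
    linarith
  have b3 := card_le_card b2
  rw [← ncard_filter, a2] at b3
  have hexp : 2 * (γ / (512 * d)) ^ 2 * 8 ^ 2 * (Fintype.card (Fin (k * d) × Bool) : ℝ)
      - γ / (512 * d) * (γ * k) = -(γ ^ 2 / (1024 * d) * k) := by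
    rw [hP]; push_cast; field_simp; ring
  rw [hexp] at hT
  have hsplit : {G : SimpleGraph (Fin (2 * k)) | G.IsRegularOfDegree d}.ncard ≤
      {G : SimpleGraph (Fin (2 * k)) | G.IsRegularOfDegree d ∧
        γ < |sSup (vals G) + sInf (vals G)|}.ncard +
      {G : SimpleGraph (Fin (2 * k)) | G.IsRegularOfDegree d ∧
        ¬ γ < |sSup (vals G) + sInf (vals G)|}.ncard := by
    refine le_trans (Set.ncard_le_ncard (fun G hG => ?_)) (Set.ncard_union_le _ _)
    by_cases h : γ < |sSup (vals G) + sInf (vals G)|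
    · exact Or.inl ⟨hG, h⟩
    · exact Or.inr ⟨hG, h⟩
  set A := {G : SimpleGraph (Fin (2 * k)) | G.IsRegularOfDegree d ∧
        γ < |sSup (vals G) + sInf (vals G)|}.ncard
  set B := {G : SimpleGraph (Fin (2 * k)) | G.IsRegularOfDegree d ∧
        ¬ γ < |sSup (vals G) + sInf (vals G)|}.ncard
  set R := {G : SimpleGraph (Fin (2 * k)) | G.IsRegularOfDegree d}.ncard
  set M : ℝ := 2 * (((2 * k * d : ℕ) : ℝ) ^ 2 + 1) ^ (2 * (d * (d + 1) + d + 2)) with hM'
  have s2 : N ≤ M * (R * κ) := by rw [hN, hM']; exact_mod_cast s1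
  have b4 : (B : ℝ) * κ ≤ N * Real.exp (-(γ ^ 2 / (1024 * d) * k)) :=
    le_trans (by exact_mod_cast b3) hT
  have hκ' : (0 : ℝ) < κ := by exact_mod_cast hκ
  have hR : (0 : ℝ) < R := by
    rcases (Nat.cast_nonneg R : (0 : ℝ) ≤ R).lt_or_eq with h | h
    · exact h
    · rw [← h] at s2; simp at s2; linarith
  have hs : (R : ℝ) ≤ A + B := by exact_mod_cast hsplit
  rw [le_div_iff₀ hR]
  have h5 : (B : ℝ) ≤ M * Real.exp (-(γ ^ 2 / (1024 * d) * k)) * R := by
    apply le_of_mul_le_mul_right _ hκ'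
    have := mul_le_mul_of_nonneg_right s2 (Real.exp_pos (-(γ ^ 2 / (1024 * d) * k))).le
    linarith
  linarith

end Trans

theorem zTrans : ZTrans := by
  intro d γ hd hγ hH
  have hd' : (1 : ℝ) ≤ d := by exact_mod_cast hd
  set K := 2 * (d * (d + 1) + d + 2) with hK
  set c : ℝ := γ ^ 2 / (1024 * d) with hc
  have hc0 : 0 < c := by positivity
  have lim : Tendsto (fun k : ℕ => (2 * (4 * (d : ℝ) ^ 2 + 1) ^ K / c ^ (2 * K))
      * ((c * k) ^ (2 * K) * Real.exp (-(c * k)))) atTop (𝓝 0) := by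
    have := ((Real.tendsto_pow_mul_exp_neg_atTop_nhds_zero (2 * K)).comp
      (tendsto_natCast_atTop_atTop.const_mul_atTop hc0)).const_mul
      (2 * (4 * (d : ℝ) ^ 2 + 1) ^ K / c ^ (2 * K))
    simpa using this
  have hev := (lim.eventually (gt_mem_nhds (show (0 : ℝ) < 1 / 2 by norm_num))).and
    (eventually_gt_atTop (2 * d * (2 * d + 2) + K))
  refine ((not_eventually.1 hH).and_eventually hev).mono fun k ⟨h1, h2, h3⟩ => ?_
  have hk1 : (1 : ℝ) ≤ k := by exact_mod_cast (by omega : 1 ≤ k)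
  refine lt_of_lt_of_le ?_ (Trans.bound d hd γ hγ k (not_le.1 h1) h3)
  have e : 2 * (4 * (d : ℝ) ^ 2 + 1) ^ K / c ^ (2 * K) * (c * k) ^ (2 * K)
      = 2 * ((4 * (d : ℝ) ^ 2 + 1) * k ^ 2) ^ K := by
    rw [mul_pow, mul_pow, ← pow_mul]; field_simp
  rw [← mul_assoc, e] at h2
  have h4 : 2 * (((2 * k * d : ℕ) : ℝ) ^ 2 + 1) ^ K * Real.exp (-(c * k)) ≤
      2 * ((4 * (d : ℝ) ^ 2 + 1) * k ^ 2) ^ K * Real.exp (-(c * k)) := by
    refine mul_le_mul_of_nonneg_right ?_ (Real.exp_pos _).le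
    refine mul_le_mul_of_nonneg_left (pow_le_pow_left₀ (by positivity) ?_ _) (by norm_num)
    push_cast; nlinarith
  linarith

end Pool.Agent.MP_32a90a_pr.D.AZ

end

section

set_option autoImplicit false
set_option linter.unusedSectionVars false

namespace Pool.Agent.MP_32a90a_pr.D.AZ

open Finset Equiv Filter Pool.Agent.MP_32a90a_pr Pool.Agent.MP_32a90a_pr.L

namespace Two

variable {V E : Type} [Fintype V] [DecidableEq V] [Fintype E] [DecidableEq E]
  {w0 : E × Bool → V} {Ω : Finset (V → Bool)} {f : Bool} {U T : Finset E} {i x : E} {C : ℝ}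

lemma cq_eq (f : Bool) (U T : Finset E) (J : E → Bool) (y : E) : cq f U T J y =
    if y ∈ U then 0 else sgn (if y ∈ T then (f || J y) else (f && J y)) := by
  cases f <;> by_cases h1 : y ∈ U <;> by_cases h2 : y ∈ T <;> simp [cq, cp, h1, h2]

lemma cq_upd (hx : x ∉ U) (T : Finset E) (J : E → Bool) :
    cq f U T J = Function.update (cq f (insert x U) T J) x
      (sgn (if x ∈ T then (f || J x) else (f && J x))) := by
  funext y
  by_cases hy : y = x
  · subst hy
    rw [Function.update_self, cq_eq, if_neg hx]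
  · simp [cq_eq, hy]

lemma cq_ind (J : E → Bool) (b : Bool) :
    cq f (insert x U) T (Function.update J x b) = cq f (insert x U) T J := by
  funext y
  by_cases hy : y = x <;> simp [cq_eq, hy]

lemma cq_ins (J : E → Bool) : cq f (insert x U) (insert x T) J = cq f (insert x U) T J := by
  funext y
  by_cases hy : y = x <;> simp [cq_eq, hy]

lemma cq_zero (J : E → Bool) : (∀ y ∈ U, cq f (insert x U) T J y = 0) ∧
    cq f (insert x U) T J x = 0 :=
  ⟨fun y hy => by simp [cq_eq, hy], by simp [cq_eq]⟩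

/-- mean gain when slot x is cut -/
noncomputable def Gb (w0 : E × Bool → V) (Ω : Finset (V → Bool)) (f : Bool) (U T : Finset E)
    (x : E) : ℝ :=
  ED w0 fun w J => GG Ω (cq f (insert x U) T J) U w

lemma Gb_nonneg (h : Step2 C) (hΩ : Ω.Nonempty) (hU : 1 ≤ U.card) (hx : x ∉ U) :
    0 ≤ Gb w0 Ω f U T x := by
  rw [Gb, ED_comm]
  exact avg_nonneg fun J => (h V E w0 Ω U _ x hΩ hU (cq_zero J).1 (cq_zero J).2 hx).1

lemma one (h : Step2 C) (hΩ : Ω.Nonempty) (hU : 1 ≤ U.card) (hi : i ∉ U) (hT : i ∉ T) :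
    Fq w0 Ω f U T + Gb w0 Ω f U T i - 1 / (U.card : ℝ) ≤ Fq w0 Ω f U (insert i T) := by
  unfold Fq Gb
  rw [ED_update i, ED_update i fun w J => lZ Ω Y1 1 (cq f U (insert i T) J) w, ED_comm, ED_comm,
    ED_comm, ← avg_add, ← avg_const (α := E → Bool) (1 / (U.card : ℝ)), ← avg_sub]
  refine avg_mono fun J => ?_
  have k := (h V E w0 Ω U _ i hΩ hU (cq_zero (f := f) (T := T) J).1 (cq_zero J).2 hi).2.1
  have e2 : 2 / (U.card : ℝ) = 2 * (1 / (U.card : ℝ)) := by ring
  simp only [cq_upd hi T, cq_upd hi (insert i T), cq_ind, cq_ins, Function.update_self, if_neg hT,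
    if_pos (mem_insert_self i T), av_div, av_add]
  cases f <;> simp only [Bool.false_or, Bool.false_and, Bool.true_or, Bool.true_and, sgn_true,
    sgn_false] at k ⊢ <;> linarith

lemma GG_slot (ρ : Perm E) (hρ : ∀ y ∈ U, ρ y = y) (s : E → ℝ) (w : E × Bool → V) :
    GG Ω (fun y => s (ρ y)) U (fun p => w (ρ p.1, p.2)) = GG Ω s U w := by
  have e : ∀ a ∈ cav U, ∀ b ∈ cav U, cc Ω (fun y => s (ρ y)) (fun p => w (ρ p.1, p.2)) a b
      = cc Ω s w a b := by
    intro a ha b hb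
    unfold cc gb
    beta_reduce
    rw [hρ _ (mem_cav.1 ha), hρ _ (mem_cav.1 hb)]
    refine wav_congr_w fun σ _ => ?_
    unfold bw en
    rw [← Equiv.sum_comp ρ fun y => s y * Y1 σ (w (y, false)) (w (y, true))]
  unfold GG aQQ
  exact congrArg (· / _) (sum_congr rfl fun a ha => sum_congr rfl fun b hb => by
    simp only [e a ha b hb])

lemma Gb_swap (hx : x ∉ U) (hi : i ∉ U) (hT : x ∈ T ↔ i ∈ T) :
    Gb w0 Ω f U T x = Gb w0 Ω f U T i := by
  unfold Gb
  rw [ED_slot (swap x i)]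
  refine congrArg _ (funext fun w => funext fun J => ?_)
  have hρ : ∀ y ∈ U, swap x i y = y := fun y hy =>
    swap_apply_of_ne_of_ne (fun e => hx (e ▸ hy)) fun e => hi (e ▸ hy)
  rw [← GG_slot (swap x i) hρ (cq f (insert i U) T J) w]
  refine congrArg (fun s => GG Ω s U _) (funext fun y => ?_)
  by_cases h1 : y = x
  · simp [cq_eq, h1]
  · by_cases h2 : y = i
    · subst h2
      simp [cq_eq, h1, Ne.symm h1, hx, hi, hT]
    · simp [cq_eq, h1, h2, swap_apply_of_ne_of_ne h1 h2]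

lemma mm_le (h : Step2 C) (hΩ : Ω.Nonempty) (hU : 1 ≤ U.card) (hx : x ∉ U) (c : Bool) {lam : ℝ}
    (hl : 0 < lam) : ED w0 (fun w J => mm Ω (cq f U T J) w (x, c))
      ≤ lam + C * Gb w0 Ω f U T x / lam + 1 / (U.card : ℝ) := by
  rw [Gb, ED_comm, ED_comm, ← avg_mul, ← avg_div, ← avg_const (α := E → Bool) (1 / (U.card : ℝ)),
    ← avg_const (α := E → Bool) lam, ← avg_add, ← avg_add]
  refine avg_mono fun J => ?_
  rw [cq_upd hx T J, avg_const]
  exact (h V E w0 Ω U _ x hΩ hU (cq_zero J).1 (cq_zero J).2 hx).2.2 _ c lam hl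

end Two

open Two in
theorem zTwo : ZTwo := by
  intro C hC h V E _ _ _ _ w0 d Ω f U T i hd hΩ hU hi hT
  have s1 := one (w0 := w0) (f := f) h hΩ hU hi hT
  have g1 := Gb_nonneg (w0 := w0) (f := f) (T := T) h hΩ hU hi
  refine ⟨by linarith, fun i' ν hi' hT' hne hν hm h4 h5 => ?_⟩
  have hT1 : i' ∉ insert i T := by simp [hne, hT']
  have s2 := one (w0 := w0) (f := f) h hΩ hU hi' hT1
  have g2 := Gb_nonneg (w0 := w0) (f := f) (T := insert i T) h hΩ hU hi'
  obtain ⟨G, hG⟩ : ∃ G, G = Gb w0 Ω f U T i + Gb w0 Ω f U (insert i T) i' := ⟨_, rfl⟩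
  have hC0 : 0 < C := one_pos.trans_le hC
  have hu : (0 : ℝ) < U.card := by exact_mod_cast hU
  have hE : (0 : ℝ) < Fintype.card E := hu.trans_le (by exact_mod_cast card_le_univ U)
  have h6 : 1 / (U.card : ℝ) ≤ ν / 4 := by
    rw [div_le_div_iff₀ hu four_pos]
    linarith
  have hG0 : 0 ≤ C * G / (ν / 4) :=
    div_nonneg (mul_nonneg hC0.le (hG ▸ add_nonneg g1 g2)) (by positivity)
  have k1 : ∀ p : E × Bool, ED w0 (fun w J => mm Ω (cq f U (insert i T) J) w p)
      ≤ ind (p.1 ∈ U) + (ν / 2 + C * G / (ν / 4)) := by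
    rintro ⟨x, c⟩
    by_cases hx : x ∈ U
    · rw [ind_pos hx]
      refine (ED_le_const fun w J => gb_le_const hΩ fun σ _ =>
        (le_abs_self _).trans (abs_sgn _).le).trans (by linarith)
    · have k2 : Gb w0 Ω f U (insert i T) x ≤ G := by
        by_cases hx' : x ∈ insert i T
        · rw [Gb_swap hx hi (iff_of_true hx' (mem_insert_self _ _))]
          have : Gb w0 Ω f U (insert i T) i = Gb w0 Ω f U T i := by simp only [Gb, cq_ins]
          linarith
        · rw [Gb_swap hx hi' (iff_of_false hx' hT1)]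
          linarith
      have k3 := mm_le (w0 := w0) (f := f) (T := insert i T) h hΩ hU hx c (lam := ν / 4)
        (by positivity)
      have k4 : C * Gb w0 Ω f U (insert i T) x / (ν / 4) ≤ C * G / (ν / 4) :=
        div_le_div_of_nonneg_right (mul_le_mul_of_nonneg_left k2 hC0.le) (by positivity)
      rw [ind_neg hx]
      linarith
  have k5 : 2 * Fintype.card E * ν ≤
      ∑ p : E × Bool, ED w0 fun w J => mm Ω (cq f U (insert i T) J) w p := by
    rw [← ED_sum, ← ED_const (w0 := w0) (2 * Fintype.card E * ν)]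
    refine ED_mono_deg hd fun w J hw => ?_
    unfold mm
    rw [← gb_sum]
    refine const_le_gb hΩ fun σ hσ => ?_
    rw [sum_half hw fun v => sgn (σ v), card_half hw, mul_assoc, mul_comm _ ν]
    exact mul_le_mul_of_nonneg_left (hm σ hσ) (Nat.cast_nonneg _)
  have k6 := k5.trans (sum_le_sum fun p _ => k1 p)
  have k7 : ∑ p : E × Bool, ind (p.1 ∈ U) = 2 * U.card := by
    rw [sum_ind, ← card_cav]
    exact congrArg (fun s : Finset (E × Bool) => (s.card : ℝ)) (by ext p; simp [mem_cav])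
  rw [sum_add_distrib, k7, sum_const, card_univ, Fintype.card_prod, Fintype.card_bool,
    nsmul_eq_mul] at k6
  push_cast at k6
  have k8 : ν / 4 ≤ C * G / (ν / 4) := le_of_mul_le_mul_left (by linarith) hE
  rw [le_div_iff₀ (by positivity)] at k8
  have k9 : 1 / (16 * C) * ν ^ 2 ≤ G := by
    rw [one_div_mul_eq_div, div_le_iff₀ (by positivity)]
    linarith
  have e2 : 2 / (U.card : ℝ) = 2 * (1 / (U.card : ℝ)) := by ring
  linarith

end Pool.Agent.MP_32a90a_pr.D.AZ

end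

section

set_option autoImplicit false

namespace Pool.Agent.MP_32a90a_pr.D.AZ

open Finset Equiv Filter Pool.Agent.MP_32a90a_pr Pool.Agent.MP_32a90a_pr.L

namespace ZZ

/-- sizes of the blocks -/
lemma sizes {μ ν a : ℝ} {k k1 k2 j : ℕ} (hμ : 0 < μ) (hν : ν ≤ 1) (ha : μ ≤ a) (ha' : 10 * a ≤ ν)
    (hk : 200 ≤ μ * k) (h1 : k1 = ⌊μ * k / 100⌋₊) (h2 : k2 = k / 2)
    (hj : j = ⌈a * k2 / (k1 * ν)⌉₊) :
    μ / 200 * k ≤ k1 ∧ (k : ℝ) ≤ 4 * k2 ∧ 2 * (k2 : ℝ) ≤ k ∧ 1 ≤ j ∧ (j : ℝ) ≤ 10 / μ + 1 ∧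
      a * k2 ≤ j * k1 * ν ∧ (j : ℝ) * k1 * ν ≤ a * k2 + μ * k / 100 ∧ 10 * ((j : ℝ) * k1) ≤ k := by
  have hν0 : 0 < ν := by linarith
  have hk0 : (200 : ℝ) ≤ k := by nlinarith [Nat.cast_nonneg (α := ℝ) k]
  have e1 : (k1 : ℝ) ≤ μ * k / 100 := h1 ▸ Nat.floor_le (by positivity)
  have e2 : μ * k / 100 < k1 + 1 := h1 ▸ Nat.lt_floor_add_one _
  have e3 : 2 * (k2 : ℝ) ≤ k := by exact_mod_cast (by omega : 2 * k2 ≤ k)
  have e4 : (k : ℝ) ≤ 2 * k2 + 1 := by exact_mod_cast (by omega : k ≤ 2 * k2 + 1)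
  have e5 : 0 < k1 * ν := mul_pos (by linarith) hν0
  have e6 : 0 < a * k2 / (k1 * ν) := div_pos (mul_pos (by linarith) (by linarith)) e5
  have e7 : a * k2 ≤ j * (k1 * ν) := (div_le_iff₀ e5).1 (hj ▸ Nat.le_ceil _)
  have e8 : (j - 1) * (k1 * ν) < a * k2 :=
    (lt_div_iff₀ e5).1 (sub_lt_iff_lt_add.2 (hj ▸ Nat.ceil_lt_add_one e6.le))
  have e9 : (j - 1) * k1 * ν ≤ k / 20 * ν := by nlinarith
  have e10 : ((j : ℝ) - 1) * k1 ≤ k / 20 := le_of_mul_le_mul_right e9 hν0
  have hj1 : 1 ≤ j := hj ▸ Nat.ceil_pos.2 e6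
  have hj2 : (1 : ℝ) ≤ j := by exact_mod_cast hj1
  refine ⟨by linarith, by linarith, e3, hj1, ?_, by linarith, by nlinarith, by nlinarith⟩
  rw [← sub_le_iff_le_add, le_div_iff₀ hμ]
  refine le_of_mul_le_mul_right ?_ (show (0 : ℝ) < k by linarith)
  nlinarith [mul_le_mul_of_nonneg_left (show μ * k / 200 ≤ k1 by linarith) (sub_nonneg.2 hj2)]

/-- the gain beats the losses -/
lemma gain {G cg τd μ ν ν0 b e th f k k1 k2 : ℝ} (hG : G = cg * τd * μ) (hcg : 0 < cg)
    (hτ : 0 < τd) (hμ : 0 < μ) (hν0 : μ ≤ ν0) (hν : ν0 ≤ ν) (hν1 : ν ≤ 1) (hb : 128 * b ≤ G)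
    (he : 256 * e ≤ G * ν0) (hth : 2048 * th ≤ G * μ) (hth0 : 0 ≤ th) (hk : 256 * cg ≤ G * μ * k)
    (hk0 : 0 < k) (hk1 : 0 ≤ k1) (h2 : k ≤ 4 * k2) (h2' : 2 * k2 ≤ k) (h3 : μ * k2 ≤ k1 * ν)
    (hf : τd * k1 * k1 / (2 * k) ≤ f + 1) :
    G * μ / 256 * k + th / 2 * (2 * k) + G * μ / 512 * (2 * k) + 7 * th * (2 * k2)
      ≤ cg * f * ν ^ 2 - (2 * b * ν + 2 * e + G * μ / 512) * (2 * k1) := by
  have hG0 : 0 < G := by rw [hG]; positivity
  have hν2 : 0 < ν := by linarith
  have a0 : 0 ≤ k1 * ν := by positivity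
  have a1 : G * (k1 * ν) / 8 ≤ cg * (τd * k1 * k1 / (2 * k)) * ν ^ 2 := by
    have : cg * (τd * k1 * k1 / (2 * k)) * ν ^ 2 = cg * τd * (k1 * ν) * (k1 * ν) / (2 * k) := by
      ring
    rw [this, le_div_iff₀ (by positivity), hG]
    have h4 : μ * k ≤ 4 * (k1 * ν) := by nlinarith
    nlinarith [mul_le_mul_of_nonneg_left h4 (show 0 ≤ cg * τd * (k1 * ν) by positivity)]
  have a2 : cg * (τd * k1 * k1 / (2 * k)) * ν ^ 2 ≤ cg * f * ν ^ 2 + cg := by
    have h4 := mul_le_mul_of_nonneg_left hf (show 0 ≤ cg * ν ^ 2 by positivity)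
    have h5 : cg * ν ^ 2 ≤ cg := mul_le_of_le_one_right hcg.le (by nlinarith)
    nlinarith
  have a3 : 128 * b * (k1 * ν) ≤ G * (k1 * ν) := mul_le_mul_of_nonneg_right hb a0
  have a4 : 256 * e * k1 ≤ G * (k1 * ν) := by
    nlinarith [mul_le_mul_of_nonneg_right he hk1, mul_le_mul_of_nonneg_left hν (mul_nonneg hG0.le hk1)]
  have a5 : G * μ * k1 ≤ G * (k1 * ν) := by
    nlinarith [mul_le_mul_of_nonneg_left (hν0.trans hν) (mul_nonneg hG0.le hk1)]
  have a6 : G * μ * k ≤ 4 * (G * (k1 * ν)) := by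
    nlinarith [mul_le_mul_of_nonneg_left h3 hG0.le,
      mul_le_mul_of_nonneg_left h2 (mul_pos hG0 hμ).le]
  have a7 : 2048 * th * k ≤ G * μ * k := mul_le_mul_of_nonneg_right hth hk0.le
  have a8 : th * (2 * k2) ≤ th * k := mul_le_mul_of_nonneg_left h2' hth0
  nlinarith

end ZZ

open ZZ in
theorem zZ (h1 : ZGlue) (h2 : ZSeq) : ZZ := by
  intro c3 C cg d hC hcg hN b1 b2 hH
  obtain ⟨n1, n2, -, -, -, n6, n7, -, n9, n10, n11, n12⟩ := hN
  have hd : (0 : ℝ) < d := by exact_mod_cast (by omega : 0 < d)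
  have hμ : 0 < mu1 d := Real.rpow_pos_of_pos hd _
  have hτ : 0 < tau d := Real.rpow_pos_of_pos hd _
  obtain ⟨G, hG⟩ : ∃ G, G = cg * (tau d * d) * mu1 d := ⟨_, rfl⟩
  have hG0 : 0 < G * mu1 d := by rw [hG]; positivity
  refine h2 (af d) d (G * mu1 d / 256) (by positivity) (abs_af_le d) fun K => ?_
  obtain ⟨K0, hg⟩ := h1 d (mu1 d / 200) (G * mu1 d / 512) (by omega) (by positivity)
    (by positivity)
  have t0 : ∀ c : ℝ, 0 < c → Tendsto (fun k : ℕ => c * k) atTop atTop := fun c hc =>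
    tendsto_natCast_atTop_atTop.const_mul_atTop hc
  have t1 : Tendsto (fun k : ℕ => ⌊mu1 d * k / 100⌋₊) atTop atTop :=
    tendsto_nat_floor_atTop.comp ((t0 _ hμ).atTop_div_const (by norm_num))
  have t2 : Tendsto (fun k : ℕ => k / 2) atTop atTop := Nat.tendsto_div_const_atTop two_ne_zero
  filter_upwards [hH, t1.eventually (b1 (⌈10 / mu1 d⌉₊ + 1) (G * mu1 d / 512) (by positivity)),
    t2.eventually b2, t1.eventually_ge_atTop K, (t0 _ hμ).eventually_ge_atTop 200,
    (t0 _ hG0).eventually_ge_atTop (256 * cg), eventually_ge_atTop K0,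
    eventually_ge_atTop (4 * K)] with k p1 ⟨ν, q1, q2, q3⟩ ⟨A, a, r1, r2, r3, r4⟩ p4 p5 p6 p7 p8
  generalize hk1 : ⌊mu1 d * k / 100⌋₊ = k1 at q3 p4
  generalize hk2 : k / 2 = k2 at A r1 r4
  obtain ⟨j, hj⟩ : ∃ j, j = ⌈a * k2 / (k1 * ν)⌉₊ := ⟨_, rfl⟩
  obtain ⟨s1, s2, s3, s4, s5, s6, s7, s8⟩ :=
    sizes hμ q2 r2 (by linarith) p5 hk1.symm hk2.symm hj
  have s9 : 10 * (j * k1) ≤ k := by exact_mod_cast s8
  obtain ⟨k3, hk3⟩ : ∃ k3, j * k1 + k2 + k3 = k := ⟨k - (j * k1 + k2), by omega⟩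
  have hk3' : (j : ℝ) * k1 + k2 + k3 = k := by exact_mod_cast hk3
  have hk0 : (0 : ℝ) < k := by
    refine (Nat.cast_nonneg k).lt_of_ne fun h => ?_
    rw [← h] at p5
    linarith
  have hj1 : (1 : ℝ) ≤ j := by exact_mod_cast s4
  have hk1' : (0 : ℝ) ≤ k1 := Nat.cast_nonneg _
  obtain ⟨q4, q5⟩ := q3 j s4 (by
    have : (j : ℝ) ≤ ((⌈10 / mu1 d⌉₊ + 1 : ℕ) : ℝ) := by
      push_cast
      linarith [Nat.le_ceil (10 / mu1 d)]
    exact_mod_cast this)
  obtain ⟨x, hx⟩ : ∃ x, x = tau d * d * (j * k1) * (j * k1) / (2 * k) := ⟨_, rfl⟩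
  have x0 : 0 ≤ x := by rw [hx]; positivity
  have x1 : 2 * (⌊x⌋₊ : ℝ) * k ≤ tau d * (j * k1) * (j * k1 * d) := by
    have := Nat.floor_le x0
    rw [hx, le_div_iff₀ (by positivity), ← hx] at this
    linarith
  have x2 : 2 * ⌊x⌋₊ ≤ j * k1 * d := by
    have h3 : tau d * (j * k1) ≤ k :=
      (mul_le_of_le_one_left (by positivity) (by linarith only [n2, hτ])).trans
        (by linarith only [s8, hk0])
    have h4 := x1.trans (mul_le_mul_of_nonneg_right h3 (by positivity))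
    rw [mul_comm (k : ℝ)] at h4
    exact_mod_cast le_of_mul_le_mul_right h4 hk0
  obtain ⟨F, -, hF⟩ := exists_subset_card_eq (s := (univ : Finset (Fin (j * k1 * d))))
    (n := ⌊x⌋₊) (by rw [card_univ, Fintype.card_fin]; omega)
  have hμ1 : mu1 d ≤ 1 := n6.trans n7
  have y1 := mul_le_mul_of_nonneg_right hμ1 hk0.le
  have y2 := mul_le_mul_of_nonneg_right hj1 hk1'
  have y3 := mul_le_mul_of_nonneg_left s8 hμ.le
  have y4 := mul_le_mul_of_nonneg_left s2 hμ.le
  have y5 : 0 ≤ a * (2 * k2) := mul_nonneg (hμ.le.trans r2) (by positivity)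
  have y6 : 0 ≤ mu1 d * k2 := by positivity
  have g1 := hg (j * k1) k2 k3 (tau d) (af d k2 - 7 * qq d ^ 4 * (2 * k2)) F A _ (hk3 ▸ p7)
    (by push_cast; rw [hk3']; linarith only [s1, y2])
    (by push_cast; rw [hk3']; linarith only [y1, s2, hk0])
    (by push_cast; rw [hk3']; linarith only [y1, s3, s8, hk3', hk0]) hτ.le
    (by linarith only [n2, hτ]) (by push_cast; rw [hk3', hF]; exact x1) r1 q4 fun σ hσ => by
      obtain ⟨w1, w2⟩ := mem_win.1 hσ
      rw [Fintype.card_fin] at w1 w2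
      push_cast at w1 w2
      have w3 : a * (2 * k2) ≤ mag σ := by linarith only [w1, s6]
      obtain ⟨M, w4, w5⟩ := mag_nat (y5.trans w3)
      rw [Fintype.card_fin, Nat.even_add] at w5
      rw [w4] at w2 w3 ⊢
      refine r4 M (w5.2 (even_two_mul _)) w3 (w2.trans ?_)
      linarith only [y3, y4, y6, s7]
  have g2 := q5 F (hF ▸ x2)
  have g3 := gain (b := bb d) (e := C * ell d ^ 3 / d) (th := qq d ^ 4) (f := F.card) hG hcg
    (mul_pos hτ hd) hμ n6 q1 q2 (by rw [hG]; linarith only [n10])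
    (by rw [hG]; linarith only [n11]) (by rw [hG]; linarith only [n12]) (pow_pos (Real.exp_pos _) 4).le p6 hk0
    (mul_nonneg (zero_le_one.trans hj1) hk1') s2 s3
    (le_trans (mul_le_mul_of_nonneg_right r2 (Nat.cast_nonneg _)) s6)
    (by rw [← hx, hF]; exact (Nat.lt_floor_add_one x).le)
  refine ⟨j, k1, k2, k3, p4, by omega, by omega, hk3, ?_⟩
  push_cast at g1
  rw [hk3, hk3'] at g1
  linarith only [g1, g2, g3, p1]

end Pool.Agent.MP_32a90a_pr.D.AZ

end
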