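import Pool.Agent.Mg.F32a90ap.Gad1de9

section

set_option autoImplicit false

open Finset Filter Pool.Agent.MP_32a90a_pr Pool.Agent.MP_32a90a_pr.L

namespace Pool.Agent.MP_32a90a_pr.D.BalJ

lemma chain {a t1 f1 f2 t2 t3 c δ p m q r u z W : ℝ} (hδ : 0 ≤ δ) (hc : 0 ≤ c)
    (h1 : a ≤ Real.exp p * t1 + δ) (h2 : t1 ≤ Real.exp m * (f1 + δ)) (h3 : f1 ≤ Real.exp q * f2)
    (h4 : f2 ≤ Real.exp m * (t2 + δ)) (h5 : t2 ≤ 4 * Real.exp r * t3 + δ)
    (h6 : Real.exp (-u) / 2 * t3 - δ ≤ c) (hz : p + 2 * m + q + r + u + 3 ≤ z) (hzW : z ≤ W)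
    (h7 : p + 2 * m + q ≤ W) (h8 : p + m ≤ W) (hW : 0 ≤ W) :
    a ≤ Real.exp z * c + 5 * Real.exp W * δ := by
  have hp := Real.exp_pos p
  have hm := Real.exp_pos m
  have hq := Real.exp_pos q
  have hr := Real.exp_pos r
  have hu := Real.exp_pos u
  have g6 : t3 ≤ 2 * Real.exp u * (c + δ) := by
    have e : 2 * Real.exp u * (Real.exp (-u) / 2 * t3) = t3 := by
      rw [Real.exp_neg]; field_simp
    calc t3 = 2 * Real.exp u * (Real.exp (-u) / 2 * t3) := e.symm
      _ ≤ 2 * Real.exp u * (c + δ) := mul_le_mul_of_nonneg_left (by linarith) (by positivity)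
  have g5 : t2 ≤ 4 * Real.exp r * (2 * Real.exp u * (c + δ)) + δ :=
    h5.trans (by gcongr)
  have g4 : f2 ≤ Real.exp m * (4 * Real.exp r * (2 * Real.exp u * (c + δ)) + δ + δ) :=
    h4.trans (by gcongr)
  have g3 : f1 ≤ Real.exp q * (Real.exp m * (4 * Real.exp r * (2 * Real.exp u * (c + δ)) + δ + δ)) :=
    h3.trans (by gcongr)
  have g2 : t1 ≤ Real.exp m * (Real.exp q *
      (Real.exp m * (4 * Real.exp r * (2 * Real.exp u * (c + δ)) + δ + δ)) + δ) :=
    h2.trans (by gcongr)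
  have g1 : a ≤ Real.exp p * (Real.exp m * (Real.exp q *
      (Real.exp m * (4 * Real.exp r * (2 * Real.exp u * (c + δ)) + δ + δ)) + δ)) + δ :=
    h1.trans (by gcongr)
  have e8 : (8 : ℝ) ≤ Real.exp 3 := by
    have : Real.exp 3 = Real.exp 1 ^ 3 := by rw [← Real.exp_nat_mul]; norm_num
    rw [this]
    calc (8 : ℝ) = 2 ^ 3 := by norm_num
      _ ≤ Real.exp 1 ^ 3 := pow_le_pow_left₀ (by norm_num)
        (by have := Real.add_one_le_exp (1 : ℝ); linarith) 3
  have eA : Real.exp (p + 2 * m + q) = Real.exp p * Real.exp m * Real.exp q * Real.exp m := by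
    simp only [← Real.exp_add]; congr 1; ring
  have eB : Real.exp (p + m) = Real.exp p * Real.exp m := Real.exp_add _ _
  have eC : 8 * (Real.exp (p + 2 * m + q) * Real.exp r * Real.exp u) ≤ Real.exp z := by
    calc 8 * (Real.exp (p + 2 * m + q) * Real.exp r * Real.exp u)
        ≤ Real.exp 3 * (Real.exp (p + 2 * m + q) * Real.exp r * Real.exp u) := by gcongr
      _ = Real.exp (p + 2 * m + q + r + u + 3) := by
        simp only [← Real.exp_add]; congr 1; ring
      _ ≤ Real.exp z := Real.exp_le_exp.2 hz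
  have b1 : Real.exp z ≤ Real.exp W := Real.exp_le_exp.2 hzW
  have b2 : Real.exp (p + 2 * m + q) ≤ Real.exp W := Real.exp_le_exp.2 h7
  have b3 : Real.exp (p + m) ≤ Real.exp W := Real.exp_le_exp.2 h8
  have b4 : 1 ≤ Real.exp W := Real.one_le_exp hW
  have eq : Real.exp p * (Real.exp m * (Real.exp q *
      (Real.exp m * (4 * Real.exp r * (2 * Real.exp u * (c + δ)) + δ + δ)) + δ)) + δ
      = 8 * (Real.exp (p + 2 * m + q) * Real.exp r * Real.exp u) * c
        + (8 * (Real.exp (p + 2 * m + q) * Real.exp r * Real.exp u)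
          + 2 * Real.exp (p + 2 * m + q) + Real.exp (p + m) + 1) * δ := by
    rw [eA, eB]; ring
  rw [eq] at g1
  refine g1.trans (add_le_add (mul_le_mul_of_nonneg_right eC hc)
    (mul_le_mul_of_nonneg_right (by linarith) hδ))

lemma HK_mono {Sg A : Type} [Fintype Sg] [Nonempty Sg] [Fintype A] {μ : Sg → ℝ}
    {sp : A → Sg → Bool} {k : ℕ} {α e e' : ℝ} (h : HK μ sp k α e) (he : e ≤ e') :
    HK μ sp k α e' := by
  intro T F h0 h1
  have hF : 0 ≤ F := (h0 fun _ => Classical.arbitrary Sg).trans (h1 _)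
  exact (h T F h0 h1).trans (by gcongr)

lemma ev_log : ∀ᶠ d : ℕ in atTop, 4000 * Real.log d ≤ d := by
  have h := (Real.isLittleO_log_id_atTop.comp_tendsto tendsto_natCast_atTop_atTop).bound
    (by norm_num : (0 : ℝ) < 1 / 4000)
  filter_upwards [h] with d hd
  simp only [Function.comp, id, Real.norm_eq_abs] at hd
  rw [abs_of_nonneg (Real.log_natCast_nonneg d), abs_of_nonneg (Nat.cast_nonneg d)] at hd
  linarith

/-- the error of the odd overlaps -/
lemma err_le {d k : ℕ} {y β H : ℝ} (hd : 1000 ≤ d) (hlog : 4000 * Real.log d ≤ d)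
    (hk : (k : ℝ) ≤ 5 * Real.log d) (hy : 1 / (d : ℝ) ≤ y) (hβ : (d : ℝ) ^ 2 ≤ β) (hH0 : 0 ≤ H)
    (hH : H ≤ Real.exp (-((d : ℝ) ^ 2 / 8))) :
    Real.sqrt (2 ^ k * (k * (16 / y) ^ k * H)) + k * (2 * Real.exp (-(β / 2)) + 2 * sm 200 d)
      ≤ sm 193 d := by
  have hd3 : 3 ≤ d := by omega
  have hdR : (1000 : ℝ) ≤ d := by exact_mod_cast hd
  have hd0 : (0 : ℝ) < d := by linarith
  have hl1 := one_le_log hd3
  have hy0 : 0 < y := lt_of_lt_of_le (by positivity) hy
  have hkd : (k : ℝ) ≤ d + 1 := by linarith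
  have hk0 : (0 : ℝ) ≤ k := Nat.cast_nonneg k
  have hdl : (d : ℝ) * (4000 * Real.log d) ≤ d * d := mul_le_mul_of_nonneg_left hlog hd0.le
  have hdl0 := dlog_nonneg d
  have a1 : Real.exp (-(β / 2)) ≤ sm 200 d := by
    unfold sm
    refine Real.exp_le_exp.2 ?_
    nlinarith
  have a2 : k * (2 * Real.exp (-(β / 2)) + 2 * sm 200 d) ≤ sm 198 d := by
    have b1 := mul_sm_le (a := 4) 199 hd3 (by linarith)
    have b2 := mul_sm_le (a := k) 198 hd3 hkd
    norm_num at b1 b2
    calc k * (2 * Real.exp (-(β / 2)) + 2 * sm 200 d) ≤ k * sm 199 d :=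
          mul_le_mul_of_nonneg_left (by linarith) hk0
      _ ≤ sm 198 d := b2
  have a3 : Real.sqrt (2 ^ k * (k * (16 / y) ^ k * H)) ≤ sm 198 d := by
    refine Real.sqrt_le_iff.2 ⟨(sm_pos _ _).le, ?_⟩
    have c1 : 16 / y ≤ 16 * d := by
      rw [div_le_iff₀ hy0]
      rw [div_le_iff₀ hd0] at hy
      nlinarith
    have c2 : (2 : ℝ) ^ k * (16 / y) ^ k ≤ Real.exp (k * (2 * Real.log d)) := by
      rw [← mul_pow, Real.exp_nat_mul]
      refine pow_le_pow_left₀ (by positivity) ?_ k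
      have : Real.exp (2 * Real.log d) = (d : ℝ) ^ 2 := by
        rw [show (2 : ℝ) * Real.log d = (2 : ℕ) * Real.log d by norm_num, Real.exp_nat_mul,
          Real.exp_log hd0]
      rw [this]; nlinarith
    have c3 : (k : ℝ) ≤ Real.exp d := hkd.trans (Real.add_one_le_exp _)
    have c4 : (k : ℝ) * (2 * Real.log d) ≤ 10 * (d * Real.log d) := by
      have : (k : ℝ) ≤ 5 * d := by linarith
      nlinarith
    have c5 : (d : ℝ) ≤ d * Real.log d := by nlinarith
    calc 2 ^ k * (k * (16 / y) ^ k * H) = (2 ^ k * (16 / y) ^ k) * k * H := by ring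
      _ ≤ Real.exp (k * (2 * Real.log d)) * Real.exp d * Real.exp (-((d : ℝ) ^ 2 / 8)) := by
        gcongr
      _ = Real.exp (k * (2 * Real.log d) + d + -((d : ℝ) ^ 2 / 8)) := by
        simp only [← Real.exp_add]
      _ ≤ sm 198 d ^ 2 := by
        unfold sm
        rw [← Real.exp_nat_mul]
        refine Real.exp_le_exp.2 ?_
        push_cast
        nlinarith
  have b3 := mul_sm_le (a := 2) 197 hd3 (by linarith)
  norm_num at b3
  have b4 : sm 197 d ≤ sm 193 d := sm_anti (by norm_num) d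
  linarith

lemma err2_le {d k1 : ℕ} {y : ℝ} (hd : 1000 ≤ d) (hk : (k1 : ℝ) ≤ Real.log d + 1)
    (hy : y ≤ 1 / 1000) :
    20 * d * Real.exp (2 * y * d * (k1 + 1)) * sm 193 d ≤ sm 90 d := by
  have hd3 : 3 ≤ d := by omega
  have hdR : (1000 : ℝ) ≤ d := by exact_mod_cast hd
  have hl1 := one_le_log hd3
  have a1 : Real.exp (2 * y * d * (k1 + 1)) * sm 193 d ≤ sm 192 d := by
    unfold sm
    rw [← Real.exp_add]
    refine Real.exp_le_exp.2 ?_
    have c0 : (0 : ℝ) ≤ d * (k1 + 1) := by positivity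
    have c1 : 2 * y * d * (k1 + 1) ≤ 2 / 1000 * (d * (k1 + 1)) := by nlinarith
    have c2 : (d : ℝ) * (k1 + 1) ≤ d * (3 * Real.log d) :=
      mul_le_mul_of_nonneg_left (by linarith) (by linarith)
    have := dlog_nonneg d
    nlinarith
  have b1 := mul_sm_le (a := d) 191 hd3 (by linarith)
  have b2 := mul_sm_le (a := 20) 190 hd3 (by linarith)
  norm_num at b1 b2
  have b3 : sm 190 d ≤ sm 90 d := sm_anti (by norm_num) d
  calc 20 * d * Real.exp (2 * y * d * (k1 + 1)) * sm 193 d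
      = 20 * (d * (Real.exp (2 * y * d * (k1 + 1)) * sm 193 d)) := by ring
    _ ≤ 20 * (d * sm 192 d) := by gcongr
    _ ≤ 20 * sm 191 d := by gcongr
    _ ≤ sm 90 d := b2.trans b3

lemma pow_le {d k1 : ℕ} {y : ℝ} (hd : 1000 ≤ d) (hk : Real.log d ≤ k1) (hy0 : 0 ≤ y)
    (hy : y ≤ 1 / 1000) : 16 * d * y ^ (2 * k1) ≤ 1 := by
  have hdR : (1000 : ℝ) ≤ d := by exact_mod_cast hd
  have hd0 : (0 : ℝ) < d := by linarith
  have a0 : y ≤ Real.exp (-1) := by
    have h1 : Real.exp 1 ≤ 1000 := by have := Real.exp_one_lt_d9; linarith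
    rw [Real.exp_neg, ← one_div]
    exact hy.trans (one_div_le_one_div_of_le (Real.exp_pos 1) h1)
  have a1 : y ^ (2 * k1) ≤ Real.exp (-(2 * Real.log d)) := by
    refine (pow_le_pow_left₀ hy0 a0 _).trans ?_
    rw [← Real.exp_nat_mul]
    refine Real.exp_le_exp.2 ?_
    push_cast
    linarith
  have a2 : Real.exp (-(2 * Real.log d)) = 1 / (d : ℝ) ^ 2 := by
    rw [Real.exp_neg, show (2 : ℝ) * Real.log d = (2 : ℕ) * Real.log d by norm_num,
      Real.exp_nat_mul, Real.exp_log hd0, one_div]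
  rw [a2] at a1
  calc 16 * d * y ^ (2 * k1) ≤ 16 * d * (1 / (d : ℝ) ^ 2) := by gcongr
    _ = 16 / d := by field_simp
    _ ≤ 1 := by rw [div_le_one hd0]; linarith

lemma fin_err {d : ℕ} (hd : 1000 ≤ d) : 5 * Real.exp (2 * d) * sm 90 d ≤ sm 20 d := by
  have hd3 : 3 ≤ d := by omega
  have hdR : (1000 : ℝ) ≤ d := by exact_mod_cast hd
  have b1 := exp_mul_sm (c := 2) (by norm_num) 88 hd3
  have b2 := mul_sm_le (a := 5) 87 hd3 (by linarith)
  norm_num at b1 b2
  have b3 : sm 87 d ≤ sm 20 d := sm_anti (by norm_num) d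
  rw [mul_assoc]
  linarith

end Pool.Agent.MP_32a90a_pr.D.BalJ

namespace Pool.Agent.MP_32a90a_pr.D

open BalJ

theorem stBal (hSand : StSand) (hTh : StTh) (hHK : StHK) (hLind : StLind) (hFair : StFair) :
    StBal := by
  filter_upwards [ev_log, eventually_ge_atTop 1000] with d hlog hd
  intro Sg G0 A _ _ _ _ _ _ S lam fl o AA b l hP hD hSym hAA hy hβ hH hlam hl
  have hd3 : 3 ≤ d := by omega
  have hdR : (1000 : ℝ) ≤ d := by exact_mod_cast hd
  have hd0 : (0 : ℝ) < d := by linarith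
  have hl1 := one_le_log hd3
  haveI := hP.nonempty
  have hok := hP.ok hd3
  have hμ := Cas.root_prob hok
  have hy0 : 0 ≤ S.y := le_trans (by positivity) hy
  have hy1 : S.y ≤ 1 / 1000 := hP.2.2.1
  have hlam0 : 1 / 2 ≤ lam := hD.1
  have hlR : 20 * (l : ℝ) ≤ d := by exact_mod_cast hl
  have hl0 : (0 : ℝ) ≤ l := Nat.cast_nonneg l
  obtain ⟨k1, hk1, hk2⟩ : ∃ k1 : ℕ, Real.log d ≤ k1 ∧ (k1 : ℝ) ≤ Real.log d + 1 :=
    ⟨⌈Real.log d⌉₊, Nat.le_ceil _, (Nat.ceil_lt_add_one (by linarith)).le⟩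
  have hβ2 : 2 ≤ S.β := by nlinarith
  have hk : ∀ j ≤ k1, HK S.cas.root S.sp (2 * j + 1) (2 * lam / d) (sm 193 d) := by
    intro j hj
    obtain ⟨g0, g1⟩ := hHK Sg G0 A S d (2 * j + 1) lam hd hP hD hβ2 ⟨j, rfl⟩
    refine HK_mono g1 (err_le hd hlog ?_ hy hβ g0 hH)
    have : (j : ℝ) ≤ k1 := by exact_mod_cast hj
    push_cast
    linarith
  have hpow := pow_le hd hk1 hy0 hy1
  have hpow0 : 0 ≤ S.y ^ (2 * k1) := pow_nonneg hy0 _
  have hα0 : 0 ≤ 2 * lam / d := by positivity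
  have hα1 : 2 * lam / d ≤ 1 / 50 := by rw [div_le_iff₀ hd0]; linarith
  have hα2 : 2 * lam / d + S.y ^ (2 * k1) ≤ 1 / 16 := by nlinarith
  obtain ⟨m, hm⟩ : ∃ m : ℝ, m = 16 * d * (2 * lam / d + S.y ^ (2 * k1)) := ⟨_, rfl⟩
  have hm0 : 0 ≤ m := by rw [hm]; positivity
  have hm1 : m ≤ 32 * lam + 1 := by
    have : 16 * (d : ℝ) * (2 * lam / d) = 32 * lam := by field_simp; ring
    rw [hm, mul_add, this]; linarith
  have hE := err2_le hd hk2 hy1
  have hL : ∀ x : ℝ, Th0 S.cas.root S.sp S.y AA x ≤ Real.exp m *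
        (Th0 S.cas.root S.sp S.y (∅ : Finset (Fin d)) x + sm 90 d) ∧
      Th0 S.cas.root S.sp S.y (∅ : Finset (Fin d)) x ≤ Real.exp m *
        (Th0 S.cas.root S.sp S.y AA x + sm 90 d) := by
    intro x
    obtain ⟨g0, g1⟩ := hLind Sg A S.cas.root S.sp d k1 AA S.y (2 * lam / d) (sm 193 d) x hμ hy0
      hy1 hα0 (sm_pos _ _).le hα2 hk
    rw [← hm] at g0 g1
    exact ⟨g0.trans (by gcongr), g1.trans (by gcongr)⟩
  obtain ⟨hF1, hF2⟩ := hFair Sg A S.cas.root S.sp d S.y hμ hy0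
  have hLv : ∀ (c : Bool) (x : ℝ), 0 ≤ S.Lv o AA c x := fun c x =>
    avg_nonneg fun ω => Cas.P_nonneg ((hP.add _).ok hd3) fun g σ =>
      mul_nonneg (ind_nonneg _) (ind_nonneg _)
  have h180 : sm 180 d ≤ sm 90 d := sm_anti (by norm_num) d
  have habs : ∀ c : Bool, |sgn c * (2 * (l : ℝ))| ≤ d / 10 := by
    intro c
    rw [abs_mul, abs_sgn, one_mul, abs_of_nonneg (by positivity)]; linarith
  have habs' : |2 * (l : ℝ)| ≤ d / 10 := by rw [abs_of_nonneg (by positivity)]; linarith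
  have habs0 : |(0 : ℝ)| ≤ d / 10 := by rw [abs_zero]; positivity
  have hyl0 : 0 ≤ S.y * l := mul_nonneg hy0 hl0
  have hyl1 : S.y * l ≤ d / 20000 := by nlinarith
  have s1 : S.Lv o AA b (2 * l) ≤ Real.exp (8 * lam + S.y * (2 * l))
      * Th0 S.cas.root S.sp S.y AA (sgn b * (2 * l)) + sm 90 d := by
    refine (hSand Sg G0 A S d lam (2 * l) fl o AA b hd hP hD hSym hAA habs').1.trans ?_
    have := (hTh Sg G0 A S d lam (sgn b * (2 * l)) AA hd hP hD hAA (habs b)).1
    gcongr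
  have hfin := fin_err hd
  constructor
  · have s3 : Th0 S.cas.root S.sp S.y (∅ : Finset (Fin d)) (sgn b * (2 * l))
        ≤ Real.exp 0 * Th0 S.cas.root S.sp S.y (∅ : Finset (Fin d)) (sgn (!b) * (2 * l)) := by
      have : sgn (!b) * (2 * (l : ℝ)) = -(sgn b * (2 * l)) := by cases b <;> simp [sgn]
      rw [this, hF1, Real.exp_zero, one_mul]
    have s5 := (hTh Sg G0 A S d lam (sgn (!b) * (2 * l)) AA hd hP hD hAA (habs _)).2
    have s6 := (hSand Sg G0 A S d lam (2 * l) fl o AA (!b) hd hP hD hSym hAA habs').2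
      (by positivity) (by linarith)
    have s6' : Real.exp (-(8 * lam - S.y * (2 * l))) / 2 * S.Th AA (sgn (!b) * (2 * l)) - sm 90 d
        ≤ S.Lv o AA (!b) (2 * l) := by
      rw [show -(8 * lam - S.y * (2 * l)) = -(8 * lam) + S.y * (2 * l) by ring]
      linarith
    have := chain (z := 100 * lam) (W := 2 * d) (sm_pos 90 d).le (hLv _ _) s1 (hL _).1 s3
      (hL _).2 s5 s6' (by linarith) (by linarith) (by linarith) (by linarith) (by linarith)
    linarith
  · have s3 : Th0 S.cas.root S.sp S.y (∅ : Finset (Fin d)) (sgn b * (2 * l))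
        ≤ Real.exp (2 * S.y * l) * Th0 S.cas.root S.sp S.y (∅ : Finset (Fin d)) 0 := by
      refine le_trans (le_of_eq ?_) (hF2 l)
      cases b
      · rw [← hF1]; simp [sgn]
      · simp [sgn]
    have s5 := (hTh Sg G0 A S d lam 0 AA hd hP hD hAA habs0).2
    have s6 := (hSand Sg G0 A S d lam 0 fl o AA true hd hP hD hSym hAA habs0).2
      le_rfl (by linarith)
    have s6' : Real.exp (-(8 * lam)) / 2 * S.Th AA 0 - sm 90 d ≤ S.Lv o AA true 0 := by
      simp only [mul_zero, add_zero] at s6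
      linarith
    have := chain (z := 100 * lam + 4 * S.y * l) (W := 2 * d) (sm_pos 90 d).le (hLv _ _) s1
      (hL _).1 s3 (hL _).2 s5 s6' (by linarith) (by linarith) (by linarith) (by linarith)
      (by linarith)
    linarith

end Pool.Agent.MP_32a90a_pr.D

end

section

/-! The series bound: positive semidefinite kernels and the binomial series. -/

set_option autoImplicit false

namespace Pool.Agent.MP_32a90a_pr.D

open Finset Pool.Agent.MP_32a90a_pr Pool.Agent.MP_32a90a_pr.L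

noncomputable section

namespace SerJ

section psd
variable {B : Type} [Fintype B] {M M' : B → B → ℝ}

/-- symmetric positive semidefinite kernels -/
def K (M : B → B → ℝ) : Prop :=
  (∀ i j, M j i = M i j) ∧ ∀ v : B → ℝ, 0 ≤ ∑ i, ∑ j, v i * M i j * v j

lemma K_iff : K M ↔ (Matrix.of M).PosSemidef := by
  rw [Matrix.posSemidef_iff_dotProduct_mulVec]
  refine and_congr ⟨fun h => Matrix.IsHermitian.ext fun i j => h i j, fun h i j => h.apply i j⟩
    (forall_congr' fun v => ?_)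
  simp only [dotProduct, Matrix.mulVec, star_trivial, Matrix.of_apply, mul_sum, mul_assoc]

lemma K.mul (h : K M) (h' : K M') : K fun i j => M i j * M' i j :=
  K_iff.2 ((K_iff.1 h).hadamard (K_iff.1 h'))

lemma K.add (h : K M) (h' : K M') : K fun i j => M i j + M' i j :=
  ⟨fun i j => congrArg₂ _ (h.1 i j) (h'.1 i j), fun v => by
    simp only [mul_add, add_mul, sum_add_distrib]
    exact add_nonneg (h.2 v) (h'.2 v)⟩

lemma K.smul (h : K M) {c : ℝ} (hc : 0 ≤ c) : K fun i j => c * M i j :=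
  ⟨fun i j => congrArg _ (h.1 i j), fun v => by
    have := mul_nonneg hc (h.2 v)
    simp only [mul_sum] at this
    exact this.trans_eq (sum_congr rfl fun i _ => sum_congr rfl fun j _ => by ring)⟩

lemma K_rank (f : B → ℝ) : K fun i j => f i * f j :=
  ⟨fun i j => mul_comm _ _, fun v => by
    have := mul_self_nonneg (∑ i, v i * f i)
    rw [sum_mul_sum] at this
    exact this.trans_eq (sum_congr rfl fun i _ => sum_congr rfl fun j _ => by ring)⟩

lemma K_const {c : ℝ} (hc : 0 ≤ c) : K fun _ _ : B => c := by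
  simpa using (K_rank fun _ : B => (1 : ℝ)).smul hc

lemma K_sum {ι : Type} (s : Finset ι) {f : ι → B → B → ℝ} (h : ∀ n ∈ s, K (f n)) :
    K fun i j => ∑ n ∈ s, f n i j := by
  classical
  induction s using Finset.induction_on with
  | empty => simpa using K_const (B := B) le_rfl
  | insert a s ha ih =>
    simp only [sum_insert ha]
    exact (h a (mem_insert_self _ _)).add (ih fun n hn => h n (mem_insert_of_mem hn))

lemma K_prod {ι : Type} (s : Finset ι) {f : ι → B → B → ℝ} (h : ∀ n ∈ s, K (f n)) :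
    K fun i j => ∏ n ∈ s, f n i j := by
  classical
  induction s using Finset.induction_on with
  | empty => simpa using K_const (B := B) zero_le_one
  | insert a s ha ih =>
    simp only [prod_insert ha]
    exact (h a (mem_insert_self _ _)).mul (ih fun n hn => h n (mem_insert_of_mem hn))

lemma K.pow (h : K M) (n : ℕ) : K fun i j => M i j ^ n := by
  simpa using K_prod (range n) (f := fun _ => M) fun _ _ => h

lemma K_hasSum {f : ℕ → B → B → ℝ} (h : ∀ n, K (f n))
    (hs : ∀ i j, HasSum (fun n => f n i j) (M i j)) : K M :=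
  ⟨fun i j => (hs j i).unique (by simpa only [fun n => (h n).1 i j] using hs i j), fun v =>
    HasSum.nonneg (fun n => (h n).2 v) (hasSum_sum fun i _ => hasSum_sum fun j _ =>
      ((hs i j).mul_left (v i)).mul_right (v j))⟩

lemma K.pow_sub (h : K M) (h' : K M') (n : ℕ) :
    K fun i j => (M i j + M' i j) ^ n - M i j ^ n := by
  induction n with
  | zero => simpa using K_const (B := B) le_rfl
  | succ n ih =>
    have := ((h.add h').mul ih).add (h'.mul (h.pow n))
    convert this using 3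
    ring

end psd

section series

/-- coefficient of z ^ (j + 1) in 1 - (1 - z) ^ x -/
def co (x : ℝ) (j : ℕ) : ℝ := (-1) ^ j * Ring.choose x (j + 1)

lemma co_zero (x : ℝ) : co x 0 = x := by simp [co]

lemma co_succ (x : ℝ) (j : ℕ) : co x (j + 1) = co x j * ((j + 1 - x) / (j + 2)) := by
  have h := Ring.choose_smul_choose x (Nat.le_succ (j + 1))
  rw [Nat.choose_succ_self_right, Nat.succ_sub (le_refl _), Nat.sub_self, Ring.choose_one_right,
    nsmul_eq_mul] at h
  push_cast at h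
  have h2 : (j : ℝ) + 2 ≠ 0 := by positivity
  unfold co
  rw [pow_succ]
  field_simp
  linear_combination (-1 : ℝ) * h

lemma hasSum_co (x : ℝ) {z : ℝ} (h0 : 0 ≤ z) (h1 : z < 1) :
    HasSum (fun j => co x j * z ^ (j + 1)) (1 - (1 - z) ^ x) := by
  have h := (Real.one_add_rpow_hasFPowerSeriesOnBall_zero (a := x)).hasSum (y := -z) (by
    rw [← ENNReal.coe_one, Metric.eball_coe, NNReal.coe_one, mem_ball_zero_iff, norm_neg,
      Real.norm_of_nonneg h0]
    exact h1)
  simp only [binomialSeries_apply, List.ofFn_const, List.prod_replicate, smul_eq_mul,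
    zero_add] at h
  have h2 := ((hasSum_nat_add_iff' 1).2 h).neg
  have e1 : (fun j => co x j * z ^ (j + 1)) =
      fun j => -(Ring.choose x (j + 1) * (-z) ^ (j + 1)) := by
    funext j
    rw [co, neg_pow z, pow_succ (-1 : ℝ)]
    ring
  have e2 : 1 - (1 - z) ^ x = -((1 + -z) ^ x - ∑ i ∈ range 1, Ring.choose x i * (-z) ^ i) := by
    simp [sub_eq_add_neg]
  rw [e1, e2]
  exact h2

lemma co_ge {x : ℝ} (h0 : 0 ≤ x) (h1 : x ≤ 1) (j : ℕ) :
    0 ≤ co x j ∧ x / (j + 1) * (1 - x * harmonic j) ≤ co x j := by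
  induction j with
  | zero => simp [co_zero, h0]
  | succ j ih =>
    have hj : (0 : ℝ) ≤ j := Nat.cast_nonneg j
    have h2 : 0 ≤ ((j : ℝ) + 1 - x) / (j + 2) := div_nonneg (by linarith) (by linarith)
    have h3 : (0 : ℝ) ≤ harmonic j := by
      exact_mod_cast (sum_nonneg fun i _ => by positivity : (0 : ℚ) ≤ harmonic j)
    rw [co_succ]
    refine ⟨mul_nonneg ih.1 h2, le_trans ?_ (mul_le_mul_of_nonneg_right ih.2 h2)⟩
    rw [harmonic_succ]
    push_cast
    rw [← sub_nonneg]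
    have : x / (j + 1) * (1 - x * harmonic j) * ((j + 1 - x) / (j + 2)) -
        x / (j + 1 + 1) * (1 - x * (harmonic j + ((j : ℝ) + 1)⁻¹)) =
        x ^ 3 * harmonic j / ((j + 1) * (j + 2)) := by
      field_simp
      ring
    rw [this]
    positivity

lemma sum_co {β x : ℝ} (hβ : 2 ≤ β) (h0 : 0 ≤ x) (h1 : x ≤ 1) (hy : β * x ≤ 1 / 1000) :
    β * x / 16 ≤ ∑ j ∈ range ⌊Real.exp (β / 2)⌋₊,
      co x j * (1 - Real.exp (-(2 * β))) ^ (j + 1) := by
  have hK := Nat.floor_le (Real.exp_pos (β / 2)).le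
  have hH := log_le_harmonic_floor _ (Real.exp_pos (β / 2)).le
  rw [Real.log_exp, harmonic] at hH
  push_cast at hH
  have he : Real.exp (β / 2) * Real.exp (-(2 * β)) ≤ 1 / 2 := by
    rw [← Real.exp_add, show β / 2 + -(2 * β) = -(3 * β / 2) by ring, Real.exp_neg, one_div]
    exact inv_anti₀ two_pos (by linarith [Real.add_one_le_exp (3 * β / 2)])
  have he1 : Real.exp (-(2 * β)) ≤ 1 := Real.exp_le_one_iff.2 (by linarith)
  calc β * x / 16 ≤ x / 4 * (β / 2) := by nlinarith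
    _ ≤ x / 4 * ∑ j ∈ range ⌊Real.exp (β / 2)⌋₊, ((j : ℝ) + 1)⁻¹ :=
        mul_le_mul_of_nonneg_left hH (by positivity)
    _ ≤ _ := by
        rw [mul_sum]
        refine sum_le_sum fun j hj => ?_
        have hj1 : (j : ℝ) + 1 ≤ Real.exp (β / 2) :=
          le_trans (by exact_mod_cast mem_range.1 hj) hK
        have hl : Real.log j ≤ β / 2 := by
          rcases Nat.eq_zero_or_pos j with rfl | hp
          · simp only [Nat.cast_zero, Real.log_zero]; linarith
          · rw [Real.log_le_iff_le_exp (by exact_mod_cast hp)]; linarith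
        have a1 : x * harmonic j ≤ 1 / 2 := by
          have := mul_le_mul_of_nonneg_left
            ((harmonic_le_one_add_log j).trans (show 1 + Real.log j ≤ β by linarith)) h0
          linarith
        have a2 : x / (j + 1) * (1 / 2) ≤ co x j :=
          (mul_le_mul_of_nonneg_left (by linarith) (by positivity)).trans (co_ge h0 h1 j).2
        have a3 : 1 / 2 ≤ (1 - Real.exp (-(2 * β))) ^ (j + 1) := by
          have b1 := one_add_mul_le_pow (a := -Real.exp (-(2 * β))) (by linarith) (j + 1)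
          have b2 := mul_le_mul_of_nonneg_right hj1 (Real.exp_pos (-(2 * β))).le
          push_cast at b1
          rw [sub_eq_add_neg]
          linarith
        calc _ = x / (j + 1) * (1 / 2) * (1 / 2) := by ring
          _ ≤ _ := mul_le_mul a2 a3 (by norm_num) (co_ge h0 h1 j).1

end series

section core
variable {Gm B : Type} [Fintype Gm] [Fintype B]

/-- moments -/
def mo (W w : Gm → ℝ) (n : ℕ) : ℝ := ∑ γ, W γ * w γ ^ n

/-- the logarithmic functional -/
def lg (W : Gm → ℝ) (th x : ℝ) (w : Gm → ℝ) : ℝ := -Real.log (∑ γ, W γ * (1 - th * w γ) ^ x)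

/-- the truncated series -/
def tr (W : Gm → ℝ) (th x : ℝ) (N : ℕ) (w : Gm → ℝ) : ℝ :=
  ∑ n ∈ range N, co x n * th ^ (n + 1) * mo W w (n + 1)

variable {W : Gm → ℝ} {q : Gm → B → B → ℝ} {th x : ℝ}

lemma K_mo (hW : Prob W) (hq : ∀ γ, K (q γ)) (n : ℕ) : K fun i j => mo W (fun γ => q γ i j) n :=
  K_sum _ fun γ _ => ((hq γ).pow n).smul (hW.1 γ)

lemma K_lg (hW : Prob W) (hq : ∀ γ, K (q γ)) (hb : ∀ γ i j, 0 ≤ q γ i j ∧ q γ i j ≤ 1)
    (t0 : 0 ≤ th) (t1 : th < 1) (h0 : 0 ≤ x) (h1 : x ≤ 1) (N k : ℕ) :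
    (K fun i j => lg W th x fun γ => q γ i j) ∧ K fun i j =>
      lg W th x (fun γ => q γ i j) - tr W th x N (fun γ => q γ i j) ^ (k + 1) / (k + 1) := by
  have z0 : ∀ γ i j, 0 ≤ th * q γ i j := fun γ i j => mul_nonneg t0 (hb γ i j).1
  have z1 : ∀ γ i j, th * q γ i j < 1 := fun γ i j =>
    (mul_le_of_le_one_right t0 (hb γ i j).2).trans_lt t1
  obtain ⟨u, hu⟩ : ∃ u : B → B → ℝ, ∀ i j, u i j = 1 - ∑ γ, W γ * (1 - th * q γ i j) ^ x :=
    ⟨_, fun _ _ => rfl⟩
  have hs : ∀ i j, HasSum (fun n => co x n * th ^ (n + 1) * mo W (fun γ => q γ i j) (n + 1))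
      (u i j) := fun i j => by
    have := hasSum_sum (s := univ) fun γ _ =>
      (hasSum_co x (z0 γ i j) (z1 γ i j)).mul_left (W γ)
    have e1 : (fun n => co x n * th ^ (n + 1) * mo W (fun γ => q γ i j) (n + 1)) =
        fun n => ∑ γ, W γ * (co x n * (th * q γ i j) ^ (n + 1)) := by
      funext n
      rw [mo, mul_sum]
      exact sum_congr rfl fun γ _ => by ring
    have e2 : u i j = ∑ γ, W γ * (1 - (1 - th * q γ i j) ^ x) := by
      simp only [hu, mul_sub, mul_one, sum_sub_distrib, hW.2]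
    rw [e1, e2]
    exact this
  have hK : ∀ n, K fun i j => co x n * th ^ (n + 1) * mo W (fun γ => q γ i j) (n + 1) := fun n =>
    (K_mo hW hq _).smul (mul_nonneg (co_ge h0 h1 n).1 (pow_nonneg t0 _))
  have k1 : K u := K_hasSum hK hs
  have k2 : K fun i j => tr W th x N fun γ => q γ i j := K_sum _ fun n _ => hK n
  have k3 : K fun i j => u i j - tr W th x N fun γ => q γ i j :=
    K_hasSum (fun n => hK (n + N)) fun i j => (hasSum_nat_add_iff' N).2 (hs i j)
  have hl : ∀ i j, HasSum (fun n : ℕ => u i j ^ (n + 1) / (n + 1))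
      (lg W th x fun γ => q γ i j) := fun i j => by
    have a1 : 0 < ∑ γ, W γ * (1 - th * q γ i j) ^ x :=
      hW.Ex_pos fun γ => Real.rpow_pos_of_pos (sub_pos.2 (z1 γ i j)) x
    have a2 : ∑ γ, W γ * (1 - th * q γ i j) ^ x ≤ 1 :=
      hW.Ex_le fun γ => Real.rpow_le_one (sub_pos.2 (z1 γ i j)).le (sub_le_self _ (z0 γ i j)) h0
    have := Real.hasSum_pow_div_log_of_abs_lt_one (x := u i j)
      (by rw [hu, abs_lt]; constructor <;> linarith)
    rwa [hu, sub_sub_cancel, ← hu] at this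
  have k4 : ∀ n : ℕ, K fun i j => u i j ^ (n + 1) / (n + 1) := fun n => by
    simpa only [div_eq_inv_mul] using
      (k1.pow (n + 1)).smul (c := ((n : ℝ) + 1)⁻¹) (by positivity)
  refine ⟨K_hasSum k4 hl, ?_⟩
  have k5 : K fun i j => lg W th x (fun γ => q γ i j) - u i j ^ (k + 1) / (k + 1) :=
    K_hasSum (f := fun n i j => if n = k then 0 else u i j ^ (n + 1) / (n + 1))
      (fun n => by
        by_cases h : n = k
        · simpa only [if_pos h] using K_const (B := B) le_rfl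
        · simpa only [if_neg h] using k4 n)
      fun i j => hasSum_ite_sub_hasSum (hl i j) k
  have := k5.add ((k2.pow_sub k3 (k + 1)).smul (c := ((k : ℝ) + 1)⁻¹) (by positivity))
  convert this using 3
  rw [add_sub_cancel]
  ring

end core

section asym
variable {Sg Gm A : Type} [Fintype Sg] [Fintype A]

/-- the probability of agreement on the doubled pool -/
def qd (μ : Sg → ℝ) (sp : A → Sg → Bool) (i j : A × Bool) : ℝ :=
  Ex μ fun σ => ind ((sp i.1 σ == i.2) = (sp j.1 σ == j.2))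

/-- the probability of agreement -/
def qT (μ : Sg → ℝ) (sp : A → Sg → Bool) (a a' : A) : ℝ := Ex μ fun σ => ind (sp a σ = sp a' σ)

/-- the probability of disagreement -/
def qF (μ : Sg → ℝ) (sp : A → Sg → Bool) (a a' : A) : ℝ := Ex μ fun σ => ind (sp a σ ≠ sp a' σ)

omit [Fintype A] in
lemma qq_eq (μ : Sg → ℝ) (sp : A → Sg → Bool) (a a' : A) (b b' : Bool) :
    qd μ sp (a, b) (a', b') = if b = b' then qT μ sp a a' else qF μ sp a a' := by
  split_ifs with h <;> refine Ex_congr fun σ => ind_congr ?_ <;> revert h <;>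
    cases b <;> cases b' <;> cases sp a σ <;> cases sp a' σ <;> simp

lemma K_qq {μ : Sg → ℝ} (h : Prob μ) (sp : A → Sg → Bool) : K (qd μ sp) := by
  have := K_sum univ fun σ _ => (((K_rank fun i : A × Bool => sgn (sp i.1 σ == i.2)).smul
    (c := 1 / 2) (by norm_num)).add (K_const (c := 1 / 2) (by norm_num))).smul (h.1 σ)
  have e : ∀ b b' : Bool, 1 / 2 * (sgn b * sgn b') + 1 / 2 = ind (b = b') := fun b b' => by
    cases b <;> cases b' <;> simp [ind, sgn] <;> norm_num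
  simp only [e] at this
  exact this

omit [Fintype A] in
lemma qq_mem {μ : Sg → ℝ} (h : Prob μ) (sp : A → Sg → Bool) (i j : A × Bool) :
    0 ≤ qd μ sp i j ∧ qd μ sp i j ≤ 1 :=
  ⟨Ex_nonneg h.1 fun _ => ind_nonneg _, h.Ex_le fun _ => ind_le_one _⟩

lemma asym (μ : Gm → Sg → ℝ) (sp : A → Sg → Bool) (Φ : (Gm → ℝ) → ℝ)
    (h : K fun i j => Φ fun γ => qd (μ γ) sp i j) :
    0 ≤ avg fun a => avg fun a' =>
      Φ (fun γ => qT (μ γ) sp a a') - Φ fun γ => qF (μ γ) sp a a' := by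
  have h1 := h.2 fun i => sgn i.2
  simp only [Fintype.sum_prod_type, Fintype.sum_bool, qq_eq, sgn, if_true, Bool.false_eq_true,
    Bool.true_eq_false, if_false, ← sum_add_distrib] at h1
  simp only [avg, ← sum_div]
  refine div_nonneg (div_nonneg ?_ (Nat.cast_nonneg _)) (Nat.cast_nonneg _)
  refine nonneg_of_mul_nonneg_right (a := 2) (h1.trans_eq ?_) two_pos
  simp only [mul_sum]
  exact sum_congr rfl fun a _ => sum_congr rfl fun a' _ => by ring

end asym

section cas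
variable {Sg Gm A : Type} [Fintype Sg] [Nonempty Sg] [Fintype Gm] {C : Cas Sg Gm}

/-- weights of the children -/
def ww (C : Cas Sg Gm) (γ : Gm) : ℝ := C.p γ * Zf C.β (C.H γ) ^ C.x / C.N

lemma P_child (f : Gm → ℝ) : (C.P fun γ _ => f γ) = ∑ γ, ww C γ * f γ := by
  rw [Cas.P, Cas.E_eq, sum_div]
  refine sum_congr rfl fun γ _ => ?_
  rw [(Cas.nu_prob γ).Ex_const, ww]
  ring

lemma ww_prob (h : C.Ok) : Prob (ww C) :=
  ⟨fun γ => div_nonneg (mul_nonneg (h.2.2.2.1 γ) (Real.rpow_nonneg (Zf_pos _ _).le _))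
    (Cas.N_pos h).le, by simpa [Cas.P_const h] using (P_child (C := C) fun _ => 1).symm⟩

lemma log_N (h : C.Ok) (D : Sg → ℝ) (p : Sg → Prop) (h1 : ∀ σ, p σ → D σ = -1)
    (h2 : ∀ σ, ¬ p σ → D σ = 1) :
    Real.log (C.add fun _ σ => D σ).N = C.y + Real.log C.N -
      lg (ww C) (1 - Real.exp (-(2 * C.β))) C.x fun γ => Ex (C.nu γ) fun σ => ind (p σ) := by
  have e1 : ∀ σ, Real.exp (C.β * D σ) =
      Real.exp C.β * (1 - (1 - Real.exp (-(2 * C.β))) * ind (p σ)) := fun σ => by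
    by_cases hp : p σ
    · rw [h1 σ hp, ind_pos hp, mul_one, sub_sub_cancel, ← Real.exp_add]
      congr 1
      ring
    · rw [h2 σ hp, ind_neg hp, mul_zero, sub_zero, mul_one, mul_one]
  have e2 : ∀ γ, 0 < 1 - (1 - Real.exp (-(2 * C.β))) * Ex (C.nu γ) fun σ => ind (p σ) := fun γ => by
    have a1 : (Ex (C.nu γ) fun σ => ind (p σ)) ≤ 1 := (Cas.nu_prob γ).Ex_le fun _ => ind_le_one _
    have a2 : Real.exp (-(2 * C.β)) ≤ 1 := Real.exp_le_one_iff.2 (by linarith [h.1])
    nlinarith [Real.exp_pos (-(2 * C.β))]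
  have e3 : (C.add fun _ σ => D σ).N = Real.exp C.y * C.N * ∑ γ, ww C γ *
      (1 - (1 - Real.exp (-(2 * C.β))) * Ex (C.nu γ) fun σ => ind (p σ)) ^ C.x := by
    rw [Cas.N, Cas.E_add_child _ fun _ => 1, ← P_child, mul_assoc, mul_comm C.N,
      ← Cas.E_eq_P_mul h, ← Cas.E_mul]
    refine Cas.E_congr fun γ _ => ?_
    simp only [e1]
    rw [Ex_mul, Ex_sub, Ex_mul, (Cas.nu_prob γ).Ex_const, mul_one,
      Real.mul_rpow (Real.exp_pos _).le (e2 γ).le, ← Real.exp_mul, Cas.y]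
  have e4 : 0 < ∑ γ, ww C γ *
      (1 - (1 - Real.exp (-(2 * C.β))) * Ex (C.nu γ) fun σ => ind (p σ)) ^ C.x :=
    (ww_prob h).Ex_pos fun γ => Real.rpow_pos_of_pos (e2 γ) _
  rw [e3, Real.log_mul (mul_pos (Real.exp_pos _) (Cas.N_pos h)).ne' e4.ne',
    Real.log_mul (Real.exp_pos _).ne' (Cas.N_pos h).ne', Real.log_exp, lg, sub_neg_eq_add]

lemma log_diff (h : C.Ok) (sp : A → Sg → Bool) (a a' : A) :
    Real.log (C.add fun _ σ => sgn true * (sgn (sp a σ) * sgn (sp a' σ))).N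
      - Real.log (C.add fun _ σ => sgn false * (sgn (sp a σ) * sgn (sp a' σ))).N =
    lg (ww C) (1 - Real.exp (-(2 * C.β))) C.x (fun γ => qT (C.nu γ) sp a a') -
      lg (ww C) (1 - Real.exp (-(2 * C.β))) C.x fun γ => qF (C.nu γ) sp a a' := by
  rw [log_N h _ (fun σ => sp a σ ≠ sp a' σ)
      (fun σ => by cases sp a σ <;> cases sp a' σ <;> simp [sgn])
      (fun σ => by cases sp a σ <;> cases sp a' σ <;> simp [sgn]),
    log_N h _ (fun σ => sp a σ = sp a' σ)
      (fun σ => by cases sp a σ <;> cases sp a' σ <;> simp [sgn])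
      (fun σ => by cases sp a σ <;> cases sp a' σ <;> simp [sgn])]
  unfold qT qF
  ring

end cas

end SerJ

open SerJ in
theorem stSer : StSer := by
  intro Sg Gm A _ _ _ _ _ C sp k h hβ hy hk
  obtain ⟨k, rfl⟩ : ∃ k', k = k' + 1 := ⟨k - 1, by omega⟩
  have hW := ww_prob h
  have hq : ∀ γ, K (qd (C.nu γ) sp) := fun γ => K_qq (Cas.nu_prob γ) sp
  have t0 : 0 ≤ 1 - Real.exp (-(2 * C.β)) :=
    sub_nonneg.2 (Real.exp_le_one_iff.2 (by linarith))
  obtain ⟨k1, k2⟩ := K_lg hW hq (fun γ => qq_mem (Cas.nu_prob γ) sp) t0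
    (sub_lt_self _ (Real.exp_pos _)) h.2.1.le h.2.2.1 ⌊Real.exp (C.β / 2)⌋₊ k
  have hs := sum_co hβ h.2.1.le h.2.2.1 hy
  have hK := Nat.floor_le (Real.exp_pos (C.β / 2)).le
  have hK1 : 0 < ⌊Real.exp (C.β / 2)⌋₊ :=
    Nat.floor_pos.2 (Real.one_le_exp (by linarith))
  simp only [log_diff h, P_child]
  generalize ⌊Real.exp (C.β / 2)⌋₊ = N at k2 hs hK hK1
  generalize 1 - Real.exp (-(2 * C.β)) = th at t0 k1 k2 hs
  refine ⟨asym C.nu sp _ k1, ?_⟩
  have a2 := asym C.nu sp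
    (fun w => lg (ww C) th C.x w - tr (ww C) th C.x N w ^ (k + 1) / (k + 1)) k2
  obtain ⟨D, hD⟩ : ∃ D : (Fin (k + 1) → ℕ) → ℝ, ∀ r, D r = avg fun a => avg fun a' =>
      ∏ i, mo (ww C) (fun γ => qT (C.nu γ) sp a a') (r i + 1) -
        ∏ i, mo (ww C) (fun γ => qF (C.nu γ) sp a a') (r i + 1) := ⟨_, fun _ => rfl⟩
  have d0 : ∀ r, 0 ≤ D r := fun r => by
    rw [hD]
    exact asym C.nu sp (fun w => ∏ i, mo (ww C) w (r i + 1))
      (K_prod _ fun i _ => K_mo hW hq _)
  obtain ⟨r, hr, hmin⟩ := exists_min_image (Fintype.piFinset fun _ : Fin (k + 1) => range N) D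
    ⟨fun _ => 0, Fintype.mem_piFinset.2 fun _ => mem_range.2 hK1⟩
  refine ⟨fun i => r i + 1, fun i => ⟨Nat.le_add_left _ _, le_trans ?_ hK⟩, ?_⟩
  · exact_mod_cast mem_range.1 (Fintype.mem_piFinset.1 hr i)
  have c0 : ∀ n, 0 ≤ co C.x n * th ^ (n + 1) := fun n =>
    mul_nonneg (co_ge h.2.1.le h.2.2.1 n).1 (pow_nonneg t0 _)
  have a3 : (avg fun a => avg fun a' => tr (ww C) th C.x N (fun γ => qT (C.nu γ) sp a a') ^ (k + 1)
      - tr (ww C) th C.x N (fun γ => qF (C.nu γ) sp a a') ^ (k + 1)) =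
      ∑ p ∈ Fintype.piFinset fun _ : Fin (k + 1) => range N,
        (∏ i, co C.x (p i) * th ^ (p i + 1)) * D p := by
    simp only [hD, ← avg_mul, ← avg_sum]
    refine avg_congr fun a => avg_congr fun a' => ?_
    simp only [tr, sum_pow', ← sum_sub_distrib, mul_sub, ← prod_mul_distrib]
  have hy0 := h.y_pos
  have a4 : (C.y / 16) ^ (k + 1) * D r ≤ ∑ p ∈ Fintype.piFinset fun _ : Fin (k + 1) => range N,
      (∏ i, co C.x (p i) * th ^ (p i + 1)) * D p := by
    refine le_trans (mul_le_mul_of_nonneg_right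
      (pow_le_pow_left₀ (by positivity) hs (k + 1)) (d0 r)) ?_
    rw [sum_pow', sum_mul]
    exact sum_le_sum fun p hp =>
      mul_le_mul_of_nonneg_left (hmin p hp) (prod_nonneg fun i _ => c0 _)
  have a5 : ∀ a a', lg (ww C) th C.x (fun γ => qT (C.nu γ) sp a a') -
      tr (ww C) th C.x N (fun γ => qT (C.nu γ) sp a a') ^ (k + 1) / (k + 1) -
      (lg (ww C) th C.x (fun γ => qF (C.nu γ) sp a a') -
      tr (ww C) th C.x N (fun γ => qF (C.nu γ) sp a a') ^ (k + 1) / (k + 1)) =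
      (lg (ww C) th C.x (fun γ => qT (C.nu γ) sp a a') -
        lg (ww C) th C.x fun γ => qF (C.nu γ) sp a a') -
      (tr (ww C) th C.x N (fun γ => qT (C.nu γ) sp a a') ^ (k + 1)
        - tr (ww C) th C.x N (fun γ => qF (C.nu γ) sp a a') ^ (k + 1)) / (k + 1) :=
    fun a a' => by ring
  simp only [a5] at a2
  simp only [avg_sub _ (fun _ => _ / ((k : ℝ) + 1)), avg_div] at a2
  rw [a3, sub_nonneg, div_le_iff₀ (by positivity)] at a2
  refine (hD r).symm.trans_le ?_
  have a6 := mul_le_mul_of_nonneg_left (a4.trans a2)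
    (pow_nonneg (a := 16 / C.y) (by positivity) (k + 1))
  rw [← mul_assoc, ← mul_pow, show 16 / C.y * (C.y / 16) = 1 by field_simp, one_pow, one_mul] at a6
  refine a6.trans_eq ?_
  push_cast
  ring

end

end Pool.Agent.MP_32a90a_pr.D

end
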