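import Pool.Agent.Mg.F32a90ap.G8b60b8

section

set_option autoImplicit false

namespace Pool.Agent.MP_32a90a_pr.D

open Finset Equiv Pool.Agent.MP_32a90a_pr Pool.Agent.MP_32a90a_pr.L

noncomputable section

/-- uniform average over a finite type -/
def avg {α : Type} [Fintype α] (f : α → ℝ) : ℝ := (∑ a, f a) / (Fintype.card α : ℝ)

open Classical in
/-- indicator of a proposition -/
def ind (P : Prop) : ℝ := if P then 1 else 0

/-- log d -/
def ell (d : ℕ) : ℝ := Real.log d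

/-- log log d -/
def lll (d : ℕ) : ℝ := Real.log (Real.log d)

/-- the tiny parameter q, with th = q ^ 4 -/
def qq (d : ℕ) : ℝ := Real.exp (-((d : ℝ) ^ 2 / 4))

/-- density of antiferromagnetic slots -/
def tau (d : ℕ) : ℝ := (d : ℝ) ^ (-(1 / 10 : ℝ))

/-- threshold for the node width -/
def z1 (d : ℕ) : ℝ := ell d ^ (3 / 4 : ℝ) / d

/-- free mass -/
def mu1 (d : ℕ) : ℝ := (d : ℝ) ^ (-(51 / 50 : ℝ))

/-- the constant of the sparse edge bound -/
def k0 (d : ℕ) (z : ℝ) : ℝ := 1 + 3 * ell d / Real.log (ell d / (6 * d * z))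

/-- a property holds for all large pairing models of degree d -/
def Big (d : ℕ) (P : ∀ (V E : Type) [Fintype V] [DecidableEq V] [Fintype E] [DecidableEq E],
    (E × Bool → V) → Prop) : Prop :=
  ∃ N0 : ℕ, ∀ (V E : Type) [Fintype V] [DecidableEq V] [Fintype E] [DecidableEq E]
    (w0 : E × Bool → V), Deg w0 d → N0 ≤ Fintype.card V → P V E w0

section
variable {V E : Type} [Fintype V] [DecidableEq V] [Fintype E] [DecidableEq E]

/-- couplings: 0 on U, -1 on A, 1 on F, the sign J elsewhere -/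
def cp (U A F : Finset E) (J : E → Bool) (i : E) : ℝ :=
  if i ∈ U then 0 else if i ∈ A then -1 else if i ∈ F then 1 else sgn (J i)

/-- average over the arrangement and the signs -/
def ED (w0 : E × Bool → V) (Φ : (E × Bool → V) → (E → Bool) → ℝ) : ℝ :=
  av w0 fun w => avg (Φ w)

/-- probability over the arrangement and the signs -/
def PD (w0 : E × Bool → V) (P : (E × Bool → V) → (E → Bool) → Prop) : ℝ :=
  ED w0 fun w J => ind (P w J)

/-- total magnetisation -/
def mag (σ : V → Bool) : ℝ := ∑ v, sgn (σ v)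

/-- energy with a uniform field -/
def HH (s : E → ℝ) (B : ℝ) (w : E × Bool → V) (σ : V → Bool) : ℝ := en Y1 s w σ + B * mag σ

/-- maximal energy on Ω -/
def mxH (Ω : Finset (V → Bool)) (s : E → ℝ) (B : ℝ) (w : E × Bool → V) : ℝ :=
  ⨆ σ : Ω, HH s B w σ

/-- log partition function on Ω -/
def lzH (Ω : Finset (V → Bool)) (β : ℝ) (s : E → ℝ) (B : ℝ) (w : E × Bool → V) : ℝ :=
  Real.log (∑ σ ∈ Ω, Real.exp (β * HH s B w σ))

/-- mean maximal energy -/
def VV (w0 : E × Bool → V) (U A F : Finset E) (B : ℝ) (Ω : Finset (V → Bool)) : ℝ :=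
  ED w0 fun w J => mxH Ω (cp U A F J) B w

/-- mean log partition function -/
def FF (w0 : E × Bool → V) (U A F : Finset E) (β B : ℝ) (Ω : Finset (V → Bool)) : ℝ :=
  ED w0 fun w J => lzH Ω β (cp U A F J) B w

open Classical in
/-- configurations of magnetisation M -/
def magSet (V : Type) [Fintype V] [DecidableEq V] (M : ℝ) : Finset (V → Bool) :=
  univ.filter fun σ => mag σ = M

/-- value of a slot -/
def sl (s : E → ℝ) (w : E × Bool → V) (σ : V → Bool) (i : E) : ℝ :=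
  s i * Y1 σ (w (i, false)) (w (i, true))

/-- signed count of half-edges from X to Y -/
def eS (s : E → ℝ) (w : E × Bool → V) (σ : V → Bool) (X Y : Finset V) : ℝ :=
  ∑ p ∈ univ.filter (fun p : E × Bool => w p ∈ X ∧ w (pt p) ∈ Y), sl s w σ p.1

/-- number of half-edges from X to Y -/
def nS (w : E × Bool → V) (X Y : Finset V) : ℕ :=
  (univ.filter fun p : E × Bool => w p ∈ X ∧ w (pt p) ∈ Y).card

/-- number of slots inside Z -/
def nIn (w : E × Bool → V) (Z : Finset V) : ℕ :=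
  (univ.filter fun i : E => w (i, false) ∈ Z ∧ w (i, true) ∈ Z).card

/-- local field, a loop counts twice -/
def loc (s : E → ℝ) (w : E × Bool → V) (σ : V → Bool) (v : V) : ℝ :=
  ∑ p ∈ univ.filter (fun p : E × Bool => w p = v), sl s w σ p.1

/-- flip the spins of X -/
def flp (σ : V → Bool) (X : Finset V) : V → Bool := fun v => if v ∈ X then !σ v else σ v

/-- set of vertices where two configurations differ -/
def dif (σ σ' : V → Bool) : Finset V := univ.filter fun v => σ v ≠ σ' v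

/-- vertices that own a half-edge in a loop or in a multiple edge -/
def badV (w : E × Bool → V) : Finset V := (Bad w).image w

/-- small sets span few slots -/
def G1 (d : ℕ) (z ε : ℝ) (w : E × Bool → V) : Prop :=
  ∀ Z : Finset V, (Z.card : ℝ) ≤ 6 * z * Fintype.card V →
    (nIn w Z : ℝ) ≤ k0 d z * Z.card + ε * Fintype.card V

/-- upper bound on the signed count inside a set -/
def G2 (d : ℕ) (s : E → ℝ) (w : E × Bool → V) : Prop :=
  ∀ (σ : V → Bool) (X : Finset V) (θ : ℝ), 1 / 2 ^ d ≤ θ → θ ≤ 1 →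
    eS s w σ X X ≤ 3 * d * θ * (X.card : ℝ) ^ 2 / Fintype.card V
      + 2 / θ * (X.card * (4 * ell d + 4) + 6 * Fintype.card V / (d : ℝ) ^ 2)

/-- lower bound on the number of fair slots from X to X' -/
def G3 (d : ℕ) (U A : Finset E) (w : E × Bool → V) : Prop :=
  ∀ X X' : Finset V,
    (d : ℝ) / 8 * X.card * X'.card / Fintype.card V - 2 * ell d * (X.card + X'.card)
        - 5 * Fintype.card V / (d : ℝ) ^ 2
      ≤ ((univ.filter fun i : E => i ∉ U ∧ i ∉ A ∧ w (i, false) ∈ X ∧ w (i, true) ∈ X').card : ℝ)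

open Classical in
/-- union bound for r pairs of replicas -/
def G4 (d : ℕ) (U A : Finset E) (r : ℕ) (κ θ : ℝ) (w : E × Bool → V) (J : E → Bool) : Prop :=
  ∀ ξ : V → Fin r → ℝ, (∀ v k, ξ v k = 0 ∨ ξ v k = 1 ∨ ξ v k = -1) →
    θ * ∑ i ∈ univ.filter (fun i : E => i ∉ U ∧ i ∉ A),
        sgn (J i) * ∑ k, ξ (w (i, false)) k * ξ (w (i, true)) k
      ≤ (d : ℝ) / (2 * Fintype.card V) * ∑ u, ∑ v, (Real.cosh (θ * ∑ k, ξ u k * ξ v k) - 1)
        + (2 * ell d + 2 * κ * r) * ((univ.filter fun v => ∃ k, ξ v k ≠ 0).card : ℝ)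
        + Real.log (2 / κ) * ((univ.filter fun p : V × Fin r => ξ p.1 p.2 ≠ 0).card : ℝ)
        + 3 * Fintype.card V / (d : ℝ) ^ 2

/-- upper bound on the number of slots from B to Y -/
def G5a (d : ℕ) (w : E × Bool → V) : Prop :=
  ∀ B Y : Finset V,
    ((univ.filter fun i : E => w (i, false) ∈ B ∧ w (i, true) ∈ Y).card : ℝ)
      ≤ (d : ℝ) * B.card * Y.card / Fintype.card V + 2 * ell d * (B.card + Y.card)
        + 5 * Fintype.card V / (d : ℝ) ^ 2

/-- many fair slots at B are frustrated by any given configuration -/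
def G5b (d : ℕ) (U A : Finset E) (w : E × Bool → V) (J : E → Bool) : Prop :=
  ∀ (B : Finset V) (μ : V → Bool),
    ((d : ℝ) / 16 - 2 * ell d) * B.card - Fintype.card V
      ≤ ((univ.filter fun i : E => i ∉ U ∧ i ∉ A ∧ w (i, false) ∈ B ∧
          (J i = true ↔ μ (w (i, false)) ≠ μ (w (i, true)))).card : ℝ)

open Classical in
/-- pseudo-gap, direct form -/
def P1 (d : ℕ) (C c : ℝ) (A : Finset E) (s : E → ℝ) (w : E × Bool → V) : Prop :=
  ∀ (L B η : ℝ) (σ : V → Bool), 1 ≤ L → L ≤ d → |B| ≤ 1 → η * d ≤ L ^ 3 →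
    (A.card : ℝ) * L ≤ c * Fintype.card E →
    mxH univ s B w - η * Fintype.card V ≤ HH s B w σ →
    ((univ.filter fun v => loc s w σ v ≤ L).card : ℝ) ≤ C * L ^ 2 * ell d / d * Fintype.card V

open Classical in
/-- pseudo-gap, balanced form -/
def P2 (d : ℕ) (C : ℝ) (s : E → ℝ) (w : E × Bool → V) : Prop :=
  ∀ (L η : ℝ) (σ : V → Bool), 1 ≤ L → L ≤ d → η * d ≤ L ^ 3 →
    mxH univ s 0 w - η * Fintype.card V ≤ HH s 0 w σ →
    ∃ b : Bool, ((univ.filter fun v => σ v = b ∧ loc s w σ v ≤ L).card : ℝ)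
      ≤ C * L ^ 2 * ell d / d * Fintype.card V

/-- all typical properties of the disorder -/
def Typ (d : ℕ) (C c ε : ℝ) (U A : Finset E) (w : E × Bool → V) (J : E → Bool) : Prop :=
  G1 d (z1 d) ε w ∧ G2 d (cp U A ∅ J) w ∧ G3 d U A w ∧ G5a d w ∧ G5b d U A w J ∧
    ((badV w).card : ℝ) ≤ ε * Fintype.card V ∧ P1 d C c A (cp U A ∅ J) w ∧ P2 d C (cp U A ∅ J) w

/-- no loop and no slot of U at v -/
def Gd (U : Finset E) (w : E × Bool → V) (v : V) : Prop :=
  ∀ p, w p = v → p.1 ∉ U ∧ w (pt p) ≠ v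

/-- pos enumerates the half-edges of v and depends only on their set -/
def IsPos (d : ℕ) (v : V) (pos : (E × Bool → V) → Fin d → E × Bool) : Prop :=
  (∀ w, Deg w d → Function.Injective (pos w) ∧ ∀ p, w p = v ↔ ∃ i, pos w i = p) ∧
    ∀ w w', (∀ p, w p = v ↔ w' p = v) → pos w = pos w'

open Classical in
/-- exchange of the partners of the half-edges p i with the half-edges u i -/
def xv {d : ℕ} (w : E × Bool → V) (p u : Fin d → E × Bool) : E × Bool → V := fun t =>
  if h : ∃ i, t = pt (p i) then w (u h.choose)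
  else if h : ∃ i, t = u i then w (pt (p h.choose)) else w t

open Classical in
/-- new signs on the slots of the half-edges p i -/
def xj {d : ℕ} (J : E → Bool) (p : Fin d → E × Bool) (J' : Fin d → Bool) : E → Bool := fun e =>
  if h : ∃ i, e = (p i).1 then J' h.choose else J e

end

end

end Pool.Agent.MP_32a90a_pr.D

end

section

set_option autoImplicit false

namespace Pool.Agent.MP_32a90a_pr.D

open Finset Equiv Pool.Agent.MP_32a90a_pr Pool.Agent.MP_32a90a_pr.L

section ind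
variable {P Q : Prop}

lemma ind_pos (h : P) : ind P = 1 := by simp [ind, h]
lemma ind_neg (h : ¬ P) : ind P = 0 := by simp [ind, h]
lemma ind_nonneg (P : Prop) : 0 ≤ ind P := by unfold ind; split_ifs <;> norm_num
lemma ind_le_one (P : Prop) : ind P ≤ 1 := by unfold ind; split_ifs <;> norm_num
lemma ind_mono (h : P → Q) : ind P ≤ ind Q := by
  by_cases hp : P
  · rw [ind_pos hp, ind_pos (h hp)]
  · rw [ind_neg hp]; exact ind_nonneg Q
lemma ind_congr (h : P ↔ Q) : ind P = ind Q := by rw [propext h]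
lemma ind_and (P Q : Prop) : ind (P ∧ Q) = ind P * ind Q := by
  by_cases hp : P <;> by_cases hq : Q <;> simp [ind, hp, hq]
lemma ind_not (P : Prop) : ind (¬ P) = 1 - ind P := by by_cases hp : P <;> simp [ind, hp]
lemma ind_or_le (P Q : Prop) : ind (P ∨ Q) ≤ ind P + ind Q := by
  by_cases hp : P <;> by_cases hq : Q <;> simp [ind, hp, hq]
lemma ind_mul_self (P : Prop) : ind P * ind P = ind P := by by_cases hp : P <;> simp [ind, hp]
lemma ind_cases (P : Prop) : ind P = 0 ∨ ind P = 1 := by by_cases hp : P <;> simp [ind, hp]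
lemma sum_ind {α : Type} [Fintype α] (p : α → Prop) [DecidablePred p] :
    ∑ a, ind (p a) = ((univ.filter p).card : ℝ) := by
  rw [card_filter]; push_cast
  exact sum_congr rfl fun a _ => by by_cases h : p a <;> simp [ind, h]
lemma ind_le_div {x t : ℝ} (hx : 0 ≤ x) (ht : 0 < t) : ind (t ≤ x) ≤ x / t := by
  by_cases h : t ≤ x
  · rw [ind_pos h]; exact (one_le_div ht).2 h
  · rw [ind_neg h]; positivity
end ind

section avg
variable {α γ : Type} [Fintype α] [Fintype γ]

lemma avg_mono {f g : α → ℝ} (h : ∀ a, f a ≤ g a) : avg f ≤ avg g :=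
  div_le_div_of_nonneg_right (sum_le_sum fun a _ => h a) (Nat.cast_nonneg _)
lemma avg_nonneg {f : α → ℝ} (h : ∀ a, 0 ≤ f a) : 0 ≤ avg f :=
  div_nonneg (sum_nonneg fun a _ => h a) (Nat.cast_nonneg _)
lemma avg_congr {f g : α → ℝ} (h : ∀ a, f a = g a) : avg f = avg g := by
  rw [show f = g from funext h]
lemma avg_const [Nonempty α] (c : ℝ) : avg (fun _ : α => c) = c := by
  have : (0 : ℝ) < Fintype.card α := by exact_mod_cast Fintype.card_pos
  simp only [avg, sum_const, card_univ, nsmul_eq_mul]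
  field_simp
lemma avg_zero : avg (fun _ : α => (0 : ℝ)) = 0 := by simp [avg]
lemma avg_add (f g : α → ℝ) : avg (fun a => f a + g a) = avg f + avg g := by
  simp only [avg, sum_add_distrib, add_div]
lemma avg_sub (f g : α → ℝ) : avg (fun a => f a - g a) = avg f - avg g := by
  simp only [avg, sum_sub_distrib, sub_div]
lemma avg_mul (c : ℝ) (f : α → ℝ) : avg (fun a => c * f a) = c * avg f := by
  simp only [avg, ← mul_sum, mul_div_assoc]
lemma avg_mul_right (c : ℝ) (f : α → ℝ) : avg (fun a => f a * c) = avg f * c := by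
  simp only [mul_comm _ c, avg_mul]
lemma avg_div (c : ℝ) (f : α → ℝ) : avg (fun a => f a / c) = avg f / c := by
  simp only [div_eq_mul_inv, avg_mul_right]
lemma avg_neg (f : α → ℝ) : avg (fun a => -f a) = -avg f := by
  simp only [avg, sum_neg_distrib, neg_div]
lemma avg_sum {ι : Type*} (T : Finset ι) (f : ι → α → ℝ) :
    avg (fun a => ∑ i ∈ T, f i a) = ∑ i ∈ T, avg (f i) := by
  simp only [avg]; rw [sum_comm, sum_div]
lemma avg_comm (f : α → γ → ℝ) :
    avg (fun a => avg fun c => f a c) = avg fun c => avg fun a => f a c := by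
  simp only [avg, sum_div]; rw [sum_comm]
  exact sum_congr rfl fun _ _ => sum_congr rfl fun _ _ => by ring
lemma avg_prod (f : α × γ → ℝ) : avg f = avg fun a => avg fun c => f (a, c) := by
  simp only [avg, Fintype.sum_prod_type, Fintype.card_prod, Nat.cast_mul, ← sum_div]
  rw [div_div, mul_comm]
lemma avg_equiv (e : α ≃ γ) (f : γ → ℝ) : avg (fun a => f (e a)) = avg f := by
  simp only [avg, Equiv.sum_comp, Fintype.card_congr e]
lemma avg_le_const {f : α → ℝ} {c : ℝ} (hc : 0 ≤ c) (h : ∀ a, f a ≤ c) : avg f ≤ c := by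
  rcases isEmpty_or_nonempty α with hα | hα
  · simpa [avg] using hc
  · exact (avg_mono h).trans_eq (avg_const c)
lemma const_le_avg [Nonempty α] {f : α → ℝ} {c : ℝ} (h : ∀ a, c ≤ f a) : c ≤ avg f :=
  (avg_const c).symm.trans_le (avg_mono h)
lemma abs_avg_le (f : α → ℝ) : |avg f| ≤ avg fun a => |f a| := by
  simp only [avg, abs_div, Nat.abs_cast]
  exact div_le_div_of_nonneg_right (abs_sum_le_sum_abs _ _) (Nat.cast_nonneg _)
lemma avg_bool (f : Bool → ℝ) : avg f = (f true + f false) / 2 := by simp [avg]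
lemma exists_le_avg [Nonempty α] (f : α → ℝ) : ∃ a, f a ≤ avg f := by
  by_contra h
  push Not at h
  have h1 : ∑ _a : α, avg f < ∑ a, f a := sum_lt_sum_of_nonempty univ_nonempty fun a _ => h a
  have : (0 : ℝ) < Fintype.card α := by exact_mod_cast Fintype.card_pos
  simp only [sum_const, card_univ, nsmul_eq_mul, avg] at h1
  rw [mul_div_cancel₀ _ this.ne'] at h1
  exact lt_irrefl _ h1
lemma sq_avg_le (f : α → ℝ) : avg f ^ 2 ≤ avg fun a => f a ^ 2 := by
  rcases isEmpty_or_nonempty α with hα | hα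
  · simp [avg]
  · have h : avg (fun a => 2 * avg f * f a - avg f ^ 2) ≤ avg fun a => f a ^ 2 :=
      avg_mono fun a => by nlinarith [sq_nonneg (f a - avg f)]
    rw [avg_sub, avg_mul, avg_const] at h
    nlinarith
/-- resampling one coordinate -/
lemma avg_update {ι : Type} [Fintype ι] [DecidableEq ι] [Nonempty γ] (i : ι) (f : (ι → γ) → ℝ) :
    avg f = avg fun ω : ι → γ => avg fun o : γ => f (Function.update ω i o) := by
  let e : ((ι → γ) × γ) ≃ ((ι → γ) × γ) :=
    { toFun := fun p => (Function.update p.1 i p.2, p.1 i)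
      invFun := fun p => (Function.update p.1 i p.2, p.1 i)
      left_inv := by rintro ⟨ω, o⟩; simp
      right_inv := by rintro ⟨ω, o⟩; simp }
  have h1 := avg_equiv e fun p => f p.1
  rw [avg_prod, avg_prod] at h1
  simp only [avg_const] at h1
  exact h1.symm
end avg

section ED
variable {V E : Type} [Fintype V] [DecidableEq V] [Fintype E] [DecidableEq E]
  {w0 : E × Bool → V}

omit [Fintype V] [DecidableEq V] in
lemma ED_eq_avg (Φ : (E × Bool → V) → (E → Bool) → ℝ) :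
    ED w0 Φ = avg fun δ : Perm (E × Bool) × (E → Bool) => Φ (w0 ∘ δ.1) δ.2 := by
  rw [avg_prod]; rfl

omit [Fintype V] [DecidableEq V]
lemma ED_mono {Φ Ψ : (E × Bool → V) → (E → Bool) → ℝ} (h : ∀ w J, Φ w J ≤ Ψ w J) :
    ED w0 Φ ≤ ED w0 Ψ := by simp only [ED_eq_avg]; exact avg_mono fun _ => h _ _
lemma ED_nonneg {Φ : (E × Bool → V) → (E → Bool) → ℝ} (h : ∀ w J, 0 ≤ Φ w J) : 0 ≤ ED w0 Φ := by
  simp only [ED_eq_avg]; exact avg_nonneg fun _ => h _ _
lemma ED_const (c : ℝ) : ED w0 (fun _ _ => c) = c := by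
  simp only [ED_eq_avg]; exact avg_const c
lemma ED_add (Φ Ψ : (E × Bool → V) → (E → Bool) → ℝ) :
    ED w0 (fun w J => Φ w J + Ψ w J) = ED w0 Φ + ED w0 Ψ := by
  simp only [ED_eq_avg]; exact avg_add _ _
lemma ED_sub (Φ Ψ : (E × Bool → V) → (E → Bool) → ℝ) :
    ED w0 (fun w J => Φ w J - Ψ w J) = ED w0 Φ - ED w0 Ψ := by
  simp only [ED_eq_avg]; exact avg_sub _ _
lemma ED_mul (c : ℝ) (Φ : (E × Bool → V) → (E → Bool) → ℝ) :
    ED w0 (fun w J => c * Φ w J) = c * ED w0 Φ := by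
  simp only [ED_eq_avg]; exact avg_mul _ _
lemma ED_div (c : ℝ) (Φ : (E × Bool → V) → (E → Bool) → ℝ) :
    ED w0 (fun w J => Φ w J / c) = ED w0 Φ / c := by
  simp only [ED_eq_avg]; exact avg_div _ _
lemma ED_sum {ι : Type*} (T : Finset ι) (Φ : ι → (E × Bool → V) → (E → Bool) → ℝ) :
    ED w0 (fun w J => ∑ i ∈ T, Φ i w J) = ∑ i ∈ T, ED w0 (Φ i) := by
  simp only [ED_eq_avg]; exact avg_sum T fun i (δ : Perm (E × Bool) × (E → Bool)) => Φ i (w0 ∘ δ.1) δ.2
lemma ED_avg {α : Type} [Fintype α] (Φ : α → (E × Bool → V) → (E → Bool) → ℝ) :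
    ED w0 (fun w J => avg fun a => Φ a w J) = avg fun a => ED w0 (Φ a) := by
  simp only [ED_eq_avg]; exact avg_comm _
lemma ED_le_const {Φ : (E × Bool → V) → (E → Bool) → ℝ} {c : ℝ} (h : ∀ w J, Φ w J ≤ c) :
    ED w0 Φ ≤ c := (ED_mono h).trans_eq (ED_const c)
lemma const_le_ED {Φ : (E × Bool → V) → (E → Bool) → ℝ} {c : ℝ} (h : ∀ w J, c ≤ Φ w J) :
    c ≤ ED w0 Φ := (ED_const c).symm.trans_le (ED_mono h)
lemma PD_nonneg (P : (E × Bool → V) → (E → Bool) → Prop) : 0 ≤ PD w0 P :=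
  ED_nonneg fun _ _ => ind_nonneg _
lemma PD_le_one (P : (E × Bool → V) → (E → Bool) → Prop) : PD w0 P ≤ 1 :=
  ED_le_const fun _ _ => ind_le_one _
lemma PD_mono {P Q : (E × Bool → V) → (E → Bool) → Prop} (h : ∀ w J, P w J → Q w J) :
    PD w0 P ≤ PD w0 Q := ED_mono fun w J => ind_mono (h w J)
lemma PD_not (P : (E × Bool → V) → (E → Bool) → Prop) :
    PD w0 (fun w J => ¬ P w J) = 1 - PD w0 P := by
  simp only [PD, ind_not]; rw [ED_sub, ED_const]
lemma PD_or_le (P Q : (E × Bool → V) → (E → Bool) → Prop) :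
    PD w0 (fun w J => P w J ∨ Q w J) ≤ PD w0 P + PD w0 Q := by
  unfold PD; rw [← ED_add]; exact ED_mono fun _ _ => ind_or_le _ _
lemma PD_markov {Φ : (E × Bool → V) → (E → Bool) → ℝ} {t : ℝ} (h : ∀ w J, 0 ≤ Φ w J) (ht : 0 < t) :
    PD w0 (fun w J => t ≤ Φ w J) ≤ ED w0 Φ / t := by
  rw [← ED_div]; exact ED_mono fun w J => ind_le_div (h w J) ht
end ED

section EDdeg
variable {V E : Type} [Fintype V] [DecidableEq V] [Fintype E] [DecidableEq E]
  {w0 : E × Bool → V} {d : ℕ}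

omit [Fintype V] in
lemma ED_mono_deg (hd : Deg w0 d) {Φ Ψ : (E × Bool → V) → (E → Bool) → ℝ}
    (h : ∀ w J, Deg w d → Φ w J ≤ Ψ w J) : ED w0 Φ ≤ ED w0 Ψ := by
  simp only [ED_eq_avg]; exact avg_mono fun δ => h _ _ (hd.comp δ.1)

omit [Fintype V] in
lemma ED_congr_deg (hd : Deg w0 d) {Φ Ψ : (E × Bool → V) → (E → Bool) → ℝ}
    (h : ∀ w J, Deg w d → Φ w J = Ψ w J) : ED w0 Φ = ED w0 Ψ :=
  le_antisymm (ED_mono_deg hd fun w J hw => (h w J hw).le)
    (ED_mono_deg hd fun w J hw => (h w J hw).ge)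

omit [Fintype V] in
lemma exists_of_PD_pos (hd : Deg w0 d) {P : (E × Bool → V) → (E → Bool) → Prop}
    (h : 0 < PD w0 P) : ∃ w J, Deg w d ∧ P w J := by
  by_contra hn
  push Not at hn
  have : PD w0 P ≤ ED w0 fun _ _ => 0 :=
    ED_mono_deg hd fun w J hw => (ind_neg (hn w J hw)).le
  rw [ED_const] at this
  linarith
end EDdeg

section Big
variable {d : ℕ} {P Q : ∀ (V E : Type) [Fintype V] [DecidableEq V] [Fintype E] [DecidableEq E],
    (E × Bool → V) → Prop}

lemma Big.mono (h : Big d P) (hPQ : ∀ (V E : Type) [Fintype V] [DecidableEq V] [Fintype E]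
    [DecidableEq E] (w0 : E × Bool → V), Deg w0 d → P V E w0 → Q V E w0) : Big d Q := by
  obtain ⟨N0, h⟩ := h
  exact ⟨N0, fun V E _ _ _ _ w0 hw hN => hPQ V E w0 hw (h V E w0 hw hN)⟩

lemma Big.and (h : Big d P) (h' : Big d Q) :
    Big d fun V E _ _ _ _ w0 => P V E w0 ∧ Q V E w0 := by
  obtain ⟨N0, h⟩ := h
  obtain ⟨N1, h'⟩ := h'
  exact ⟨max N0 N1, fun V E _ _ _ _ w0 hw hN =>
    ⟨h V E w0 hw (le_of_max_le_left hN), h' V E w0 hw (le_of_max_le_right hN)⟩⟩

lemma Big.card (d : ℕ) (p : ℕ → Prop) (h : ∀ᶠ N in Filter.atTop, p N) :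
    Big d fun V _ _ _ _ _ _ => p (Fintype.card V) := by
  obtain ⟨N0, h⟩ := Filter.eventually_atTop.1 h
  exact ⟨N0, fun V _ _ _ _ _ _ _ hN => h _ hN⟩

lemma Big.all {ι : Type} (T : Finset ι) {R : ι → ∀ (V E : Type) [Fintype V] [DecidableEq V]
    [Fintype E] [DecidableEq E], (E × Bool → V) → Prop} (h : ∀ i ∈ T, Big d (R i)) :
    Big d fun V E _ _ _ _ w0 => ∀ i ∈ T, R i V E w0 := by
  classical
  induction T using Finset.induction_on with
  | empty => exact ⟨0, fun _ _ _ _ _ _ _ _ _ i hi => absurd hi (notMem_empty i)⟩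
  | insert a s _ ih =>
    refine ((h a (mem_insert_self _ _)).and (ih fun i hi => h i (mem_insert_of_mem hi))).mono ?_
    intro V E _ _ _ _ w0 _ hh i hi
    rcases mem_insert.1 hi with rfl | hi
    · exact hh.1
    · exact hh.2 i hi
end Big

end Pool.Agent.MP_32a90a_pr.D

end

section

set_option autoImplicit false

namespace Pool.Agent.MP_32a90a_pr.D

open Finset Equiv Filter Pool.Agent.MP_32a90a_pr Pool.Agent.MP_32a90a_pr.L

/-- free spins absorb a window of magnetisations -/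
def StPhi : Prop :=
  ∀ᶠ d : ℕ in atTop, Even d → Big d fun V E _ _ _ _ w0 =>
    ∀ A0 A1 : Finset E, A0 ⊆ A1 → (A1.card : ℝ) ≤ 2 * tau d * Fintype.card E →
      tau d * Fintype.card E / 2 ≤ (A1.card : ℝ) - A0.card →
      VV w0 ∅ A0 ∅ 0 univ ≤ VV w0 ∅ A1 ∅ 0 univ + qq d ^ 4 * Fintype.card V →
      ∃ A : Finset E, A0 ⊆ A ∧ A ⊆ A1 ∧ ∃ a : ℝ, mu1 d ≤ a ∧ a + mu1 d / 2 ≤ 1 ∧
        ∀ M : ℕ, Even (M + Fintype.card V) → a * Fintype.card V ≤ M →
          (M : ℝ) ≤ (a + mu1 d / 2) * Fintype.card V →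
          VV w0 ∅ A ∅ 0 univ - 6 * qq d ^ 4 * Fintype.card V ≤ VV w0 ∅ A ∅ 0 (magSet V (-M))

/-- susceptibility of the spin glass at inverse temperature 1 -/
def StB3 : Prop :=
  ∃ c : ℝ, 0 < c ∧ ∀ᶠ d : ℕ in atTop, Even d → Big d fun V E _ _ _ _ w0 =>
    ∀ B : ℝ, 1 / (d : ℝ) ≤ B → B ≤ 1 →
      FF w0 (∅ : Finset E) ∅ ∅ 1 0 univ
          + c * B ^ 2 * Fintype.card V / (Real.sqrt d * ell d ^ 2)
        ≤ FF w0 ∅ ∅ ∅ 1 B univ

/-- entropy bound, with high probability -/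
def StB1w : Prop :=
  ∃ C : ℝ, 0 < C ∧ ∀ᶠ d : ℕ in atTop, ∀ ε : ℝ, 0 < ε → Big d fun V E _ _ _ _ w0 =>
    ∀ (U A F : Finset E) (β B : ℝ) (Ω : Finset (V → Bool)),
      2 * (U.card + A.card + F.card) ≤ Fintype.card E → 1 / 2 ≤ β → β ≤ 1 → |B| ≤ 1 →
      Ω.Nonempty →
      PD w0 (fun w J => β * mxH Ω (cp U A F J) B w + C * ell d ^ 3 / d * Fintype.card V
        < lzH Ω β (cp U A F J) B w) ≤ ε

/-- bounded differences over the disorder -/
def StConc : Prop :=
  ∀ (V E : Type) [Fintype V] [DecidableEq V] [Fintype E] [DecidableEq E] [Nonempty E]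
    (w0 : E × Bool → V) (F : (E × Bool → V) → (E → Bool) → ℝ) (c t : ℝ), 0 < c → 0 ≤ t →
    (∀ w J a b, |F (w ∘ swap a b) J - F w J| ≤ c) →
    (∀ w J i b, |F w (Function.update J i b) - F w J| ≤ c) →
    PD w0 (fun w J => t ≤ |F w J - ED w0 F|)
      ≤ 4 * Real.exp (-(t ^ 2 / (64 * c ^ 2 * Fintype.card E)))

open Classical in
/-- the negation of the conjecture -/
def StMain : Prop :=
  ∃ d : ℕ, 3 ≤ d ∧ ∃ ε : ℝ, 0 < ε ∧ ∃ δ : ℝ, 0 < δ ∧ ∃ᶠ k : ℕ in atTop,
    δ < ({G : SimpleGraph (Fin (2 * k)) | G.IsRegularOfDegree d ∧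
          ε < |sSup (vals G) + sInf (vals G)|}.ncard : ℝ)
        / ({G : SimpleGraph (Fin (2 * k)) | G.IsRegularOfDegree d}.ncard : ℝ)

/-- the reduction of Part 1 -/
def StFinal : Prop := StPhi → StB3 → StMain

end Pool.Agent.MP_32a90a_pr.D

end

section

set_option autoImplicit false

namespace Pool.Agent.MP_32a90a_pr.D

open Finset Equiv Filter Pool.Agent.MP_32a90a_pr Pool.Agent.MP_32a90a_pr.L

/-- the typical properties hold with high probability -/
def StTyp : Prop :=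
  ∃ C c : ℝ, 1 ≤ C ∧ 0 < c ∧ ∀ᶠ d : ℕ in atTop, ∀ ε : ℝ, 0 < ε → Big d fun V E _ _ _ _ w0 =>
    ∀ U A : Finset E, 2 * (U.card + A.card) ≤ Fintype.card E →
      PD w0 (fun w J => ¬ Typ (V := V) d C c ε U A w J) ≤ ε

/-- the replica union bound holds with high probability -/
def StG4 : Prop :=
  ∀ (d r : ℕ) (κ θ ε : ℝ), 3 ≤ d → 0 < κ → κ ≤ 1 / 2 → 0 < ε → Big d fun V E _ _ _ _ w0 =>
    ∀ U A : Finset E, PD w0 (fun w J => ¬ G4 (V := V) d U A r κ θ w J) ≤ ε

/-- few vertices have a loop or a slot of U -/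
def StG9a : Prop :=
  ∀ (V E : Type) [Fintype V] [DecidableEq V] [Fintype E] [DecidableEq E]
    (w0 : E × Bool → V) (d : ℕ) (U : Finset E), Deg w0 d →
    ∑ v, PD w0 (fun w _ => ¬ Gd U w v) ≤ 2 * U.card + d + 1

/-- few vertices have many half-edges in antiferromagnetic slots -/
def StG9b : Prop :=
  ∀ᶠ d : ℕ in atTop, Big d fun V E _ _ _ _ w0 =>
    ∀ A : Finset E, (A.card : ℝ) ≤ 2 * tau d * Fintype.card E →
      ∑ v : V, PD w0 (fun w _ =>
          8 * tau d * d < ((univ.filter fun p : E × Bool => w p = v ∧ p.1 ∈ A).card : ℝ))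
        ≤ Fintype.card V / (d : ℝ) ^ 10

/-- energy change under a flip -/
def StFlip : Prop :=
  ∀ (V E : Type) [Fintype V] [DecidableEq V] [Fintype E] [DecidableEq E]
    (s : E → ℝ) (B : ℝ) (w : E × Bool → V) (σ : V → Bool) (X : Finset V),
    HH s B w (flp σ X) = HH s B w σ - 2 * ∑ v ∈ X, loc s w σ v + 2 * eS s w σ X X
      - 2 * B * ∑ v ∈ X, sgn (σ v)

/-- closure of a small set under having many neighbours in it -/
def StCL : Prop :=
  ∀ (V E : Type) [Fintype V] [DecidableEq V] [Fintype E] [DecidableEq E]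
    (w : E × Bool → V) (d : ℕ) (z ε j : ℝ) (B0 : Finset V), G1 d z ε w → 1 ≤ k0 d z →
    16 * k0 d z ≤ j → 0 ≤ ε → ε ≤ z → 1 ≤ z * Fintype.card V →
    (B0.card : ℝ) ≤ 2 * z * Fintype.card V →
    ∃ Y : Finset V, B0 ⊆ Y ∧ (Y.card : ℝ) ≤ 2 * B0.card + ε * Fintype.card V + 1 ∧
      ∀ v, v ∉ Y → (nS w {v} Y : ℝ) < j / 4

/-- large independent subsets -/
def StIS : Prop :=
  ∀ (V E : Type) [Fintype V] [DecidableEq V] [Fintype E] [DecidableEq E]
    (w : E × Bool → V) (d : ℕ) (z ε : ℝ) (F : Finset V), G1 d z ε w → 1 ≤ k0 d z → 0 ≤ ε →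
    1 ≤ z * Fintype.card V → ((badV w).card : ℝ) ≤ ε * Fintype.card V →
    ∃ I : Finset V, I ⊆ F ∧ nIn w I = 0 ∧
      min (F.card : ℝ) (5 * z * Fintype.card V) / (20 * k0 d z) - 2 * ε * Fintype.card V
        ≤ I.card

open Classical in
/-- near-optimal states have few negative local fields -/
def StNEG : Prop :=
  ∀ (V E : Type) [Fintype V] [DecidableEq V] [Fintype E] [DecidableEq E]
    (w : E × Bool → V) (d : ℕ) (s : E → ℝ) (σ : V → Bool) (a : ℝ), Deg w d →
    (∀ i, s i = 0 ∨ s i = 1 ∨ s i = -1) → mxH univ s 0 w - a ≤ HH s 0 w σ →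
    ((univ.filter fun v => loc s w σ v < 0).card : ℝ) ≤ (d + 1) * a + (badV w).card

open Classical in
/-- local fields are integers of size at most d, even away from the idle slots -/
def StPAR : Prop :=
  ∀ (V E : Type) [Fintype V] [DecidableEq V] [Fintype E] [DecidableEq E]
    (w : E × Bool → V) (d : ℕ) (s : E → ℝ) (σ : V → Bool), Deg w d →
    (∀ i, s i = 0 ∨ s i = 1 ∨ s i = -1) →
    (∀ v, ∃ l : ℤ, loc s w σ v = l ∧ |l| ≤ d) ∧
      (Even d → (univ.filter fun v => ¬ ∃ l : ℤ, loc s w σ v = 2 * l).card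
        ≤ 2 * (univ.filter fun i => s i = 0).card)

/-- resampling of the sign of one slot together with a fixed rearrangement -/
def StXE : Prop :=
  ∀ (V E : Type) [Fintype V] [DecidableEq V] [Fintype E] [DecidableEq E]
    (w0 : E × Bool → V) (F : (E × Bool → V) → (E → Bool) → ℝ) (τ : Perm (E × Bool)) (i : E),
    ED w0 F = ED w0 fun w J => avg fun b : Bool => F (w ∘ τ) (Function.update J i b)

/-- resampling of the signs of two slots together with a fixed rearrangement -/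
def StXS : Prop :=
  ∀ (V E : Type) [Fintype V] [DecidableEq V] [Fintype E] [DecidableEq E]
    (w0 : E × Bool → V) (F : (E × Bool → V) → (E → Bool) → ℝ) (τ : Perm (E × Bool)) (i j : E),
    i ≠ j → ED w0 F = ED w0 fun w J => avg fun b : Bool × Bool =>
      F (w ∘ τ) (Function.update (Function.update J i b.1) j b.2)

/-- enumerations of the half-edges of a vertex exist -/
def StPos : Prop :=
  ∀ (V E : Type) [Fintype V] [DecidableEq V] [Fintype E] [DecidableEq E] [Nonempty E]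
    (d : ℕ) (v : V), ∃ pos : (E × Bool → V) → Fin d → E × Bool, IsPos d v pos

/-- vertex exchange for one injective choice of pool half-edges -/
def StXV : Prop :=
  ∀ (V E : Type) [Fintype V] [DecidableEq V] [Fintype E] [DecidableEq E]
    (w0 : E × Bool → V) (d : ℕ) (U : Finset E) (v : V)
    (pos : (E × Bool → V) → Fin d → E × Bool) (u : Fin d → E × Bool)
    (F : (E × Bool → V) → (E → Bool) → ℝ), Deg w0 d → IsPos d v pos → Function.Injective u →
    (∀ i, u i ∈ cav U) →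
    ED w0 (fun w J => ind (Gd U w v) * F w J)
      = ED w0 fun w J => ind (Gd U w v) *
          avg fun J' : Fin d → Bool => F (xv w (pos w) u) (xj J (pos w) J')

/-- the values of the exchanged arrangement -/
def StXVval : Prop :=
  ∀ (V E : Type) [Fintype V] [DecidableEq V] [Fintype E] [DecidableEq E]
    (w : E × Bool → V) (d : ℕ) (U : Finset E) (v : V) (p u : Fin d → E × Bool)
    (J : E → Bool) (J' : Fin d → Bool), Deg w d → Gd U w v → Function.Injective p →
    (∀ t, w t = v ↔ ∃ i, p i = t) → Function.Injective u → (∀ i, u i ∈ cav U) →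
    Deg (xv w p u) d ∧ (∀ t, xv w p u t = v ↔ w t = v) ∧
      (∀ i, xv w p u (pt (p i)) = w (u i)) ∧ (∀ i, xv w p u (u i) = w (pt (p i))) ∧
      (∀ t, (∀ i, t ≠ pt (p i)) → (∀ i, t ≠ u i) → xv w p u t = w t) ∧
      (∀ i, xj J p J' (p i).1 = J' i) ∧ (∀ e, (∀ i, e ≠ (p i).1) → xj J p J' e = J e) ∧
      Function.Injective fun i => (p i).1

end Pool.Agent.MP_32a90a_pr.D

end

section

set_option autoImplicit false

namespace Pool.Agent.MP_32a90a_pr.D

open Finset Equiv Filter Pool.Agent.MP_32a90a_pr Pool.Agent.MP_32a90a_pr.L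

noncomputable section

/-- number of points with value t -/
def fcnt {P T : Type} [Fintype P] [DecidableEq T] (y : P → T) (t : T) : ℕ :=
  (univ.filter fun p => y p = t).card

/-- centred sum over a random subset of density 1 / m -/
def Wm {ι : Type} [Fintype ι] {m : ℕ} (c : ι → ℝ) (ξ : ι → Fin m) : ℝ :=
  ∑ u, c u * (ind ((ξ u).val = 0) - 1 / m)

section
variable {V E T : Type} [Fintype V] [DecidableEq V] [Fintype E] [DecidableEq E]

/-- statistic of a labelling φ -/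
def muL (f : E → T → T → Bool → ℝ) (φ : V → T) (w : E × Bool → V) (J : E → Bool) : ℝ :=
  ∑ i, f i (φ (w (i, false))) (φ (w (i, true))) (J i)

/-- annealed cost of a labelling φ -/
def muA (f : E → T → T → Bool → ℝ) (φ : V → T) : ℝ :=
  ∑ i, avg fun x : V × V × Bool => Real.exp (f i (φ x.1) (φ x.2.1) x.2.2) - 1

/-- prior cost of a labelling φ -/
def muP (q0 : T → ℝ) (φ : V → T) : ℝ := ∑ v, Real.log (1 / q0 (φ v))

/-- magnetisation of a set -/
def mg (σ : V → Bool) (X : Finset V) : ℝ := ∑ v ∈ X, sgn (σ v)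

/-- signed count inside a set, one value of the tilt, direction η -/
def G2p (d : ℕ) (A : Finset E) (s : E → ℝ) (θ η : ℝ) (w : E × Bool → V) : Prop :=
  ∀ (σ : V → Bool) (X : Finset V),
    η * θ * eS s w σ X X ≤ 3 / 2 * d * θ ^ 2 * (X.card : ℝ) ^ 2 / Fintype.card V
      + 2 * (1 - η) * θ * A.card * mg σ X ^ 2 / (Fintype.card V : ℝ) ^ 2
      + X.card * (2 * ell d + 2) + 3 * Fintype.card V / (d : ℝ) ^ 2

/-- signed count between disjoint sets, one value of the tilt, lower bound -/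
def G2d (d : ℕ) (A : Finset E) (s : E → ℝ) (θ : ℝ) (w : E × Bool → V) : Prop :=
  ∀ (σ : V → Bool) (X Y : Finset V), Disjoint X Y →
    -(θ * eS s w σ X Y) ≤ 3 / 2 * d * θ ^ 2 * X.card * Y.card / Fintype.card V
      + 4 * θ * A.card * |mg σ X| * |mg σ Y| / (Fintype.card V : ℝ) ^ 2
      + (X.card + Y.card) * (2 * ell d + 2) + 3 * Fintype.card V / (d : ℝ) ^ 2

/-- lower bound on signed counts -/
def G2m (d : ℕ) (A : Finset E) (s : E → ℝ) (w : E × Bool → V) : Prop :=
  ∀ (σ : V → Bool) (X Y : Finset V) (θ : ℝ), (X = Y ∨ Disjoint X Y) → 1 / 2 ^ d ≤ θ → θ ≤ 1 →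
    -eS s w σ X Y ≤ 3 * d * θ * X.card * Y.card / Fintype.card V
      + 4 * A.card * |mg σ X| * |mg σ Y| / (Fintype.card V : ℝ) ^ 2
      + 2 / θ * ((X.card + Y.card) * (2 * ell d + 2) + 3 * Fintype.card V / (d : ℝ) ^ 2)

/-- random subset of X of density 1 / m -/
def sel {m : ℕ} (X : Finset V) (ξ : V → Fin m) : Finset V := X.filter fun v => (ξ v).val = 0

open Classical in
/-- number of active half-edges from v into X -/
def nz (s : E → ℝ) (w : E × Bool → V) (v : V) (X : Finset V) : ℕ :=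
  (univ.filter fun p : E × Bool => w p = v ∧ w (pt p) ∈ X ∧ s p.1 ≠ 0).card

/-- couplings with values 0, 1, -1 -/
def Tri (s : E → ℝ) : Prop := ∀ i, s i = 0 ∨ s i = 1 ∨ s i = -1

end

/-- size of a type class -/
def StOrb : Prop :=
  ∀ (P T : Type) [Fintype P] [DecidableEq P] [Fintype T] [DecidableEq T] (y0 : P → T),
    (univ.filter fun y : P → T => ∀ t, fcnt y t = fcnt y0 t).card * ∏ t, (fcnt y0 t).factorial
      = (Fintype.card P).factorial

/-- the exact type class is not too unlikely -/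
def StTPa : Prop :=
  ∀ (P V T : Type) [Fintype P] [DecidableEq P] [Fintype V] [DecidableEq V] [Nonempty V]
    [Fintype T] [DecidableEq T] (w0 : P → V) (d : ℕ) (φ : V → T), (∀ v, fcnt w0 v = d) →
    1 ≤ (3 * ((Fintype.card P : ℝ) + 1)) ^ Fintype.card T *
      avg fun x : P → V => ind (∀ t, fcnt (φ ∘ x) t = fcnt (φ ∘ w0) t)

/-- comparison of the pairing model with independent end points -/
def StTP : Prop :=
  ∀ (V E T : Type) [Fintype V] [DecidableEq V] [Nonempty V] [Fintype E] [DecidableEq E]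
    [Fintype T] [DecidableEq T] (w0 : E × Bool → V) (d : ℕ) (φ : V → T)
    (F : (E × Bool → T) → ℝ), Deg w0 d → (∀ y, 0 ≤ F y) →
    av w0 (fun w => F (φ ∘ w)) ≤ (3 * ((Fintype.card (E × Bool) : ℝ) + 1)) ^ Fintype.card T *
      avg fun x : E × Bool → V => F (φ ∘ x)

/-- annealed bound for one labelling -/
def StMUa : Prop :=
  ∀ (V E T : Type) [Fintype V] [DecidableEq V] [Nonempty V] [Fintype E] [DecidableEq E]
    [Fintype T] [DecidableEq T] (w0 : E × Bool → V) (d : ℕ) (φ : V → T)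
    (f : E → T → T → Bool → ℝ), Deg w0 d →
    ED w0 (fun w J => Real.exp (muL f φ w J))
      ≤ (3 * ((Fintype.card (E × Bool) : ℝ) + 1)) ^ Fintype.card T * Real.exp (muA f φ)

/-- master union bound -/
def StMU : Prop :=
  ∀ (d : ℕ) (T : Type) [Fintype T] [DecidableEq T] (δ ε : ℝ), 0 < δ → 0 < ε →
    Big d fun V E _ _ _ _ w0 => ∀ (q0 : T → ℝ) (f : E → T → T → Bool → ℝ),
      (∀ t, 0 < q0 t) → ∑ t, q0 t ≤ 1 →
      PD w0 (fun w J => ∃ φ : V → T,
        muA f φ + muP q0 φ + δ * Fintype.card V < muL f φ w J) ≤ ε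

def StG1 : Prop :=
  ∀ (d : ℕ) (z ε ε' : ℝ), 8 ≤ d → 0 < z → 18 * d * z ≤ ell d → 0 < ε → 0 < ε' →
    Big d fun V _ _ _ _ _ w0 => PD w0 (fun w _ => ¬ G1 (V := V) d z ε w) ≤ ε'

def StG2p : Prop :=
  ∀ (d : ℕ) (θ η ε : ℝ), 3 ≤ d → 0 < θ → θ ≤ 1 → (η = 1 ∨ η = -1) → 0 < ε →
    Big d fun V E _ _ _ _ w0 => ∀ U A : Finset E,
      PD w0 (fun w J => ¬ G2p (V := V) d A (cp U A ∅ J) θ η w) ≤ ε

def StG2d : Prop :=
  ∀ (d : ℕ) (θ ε : ℝ), 3 ≤ d → 0 < θ → θ ≤ 1 → 0 < ε →
    Big d fun V E _ _ _ _ w0 => ∀ U A : Finset E,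
      PD w0 (fun w J => ¬ G2d (V := V) d A (cp U A ∅ J) θ w) ≤ ε

def StG2 : Prop :=
  ∀ (d : ℕ) (ε : ℝ), 3 ≤ d → 0 < ε →
    Big d fun V E _ _ _ _ w0 => ∀ U A : Finset E,
      PD w0 (fun w J => ¬ (G2 (V := V) d (cp U A ∅ J) w ∧ G2m d A (cp U A ∅ J) w)) ≤ ε

def StG3 : Prop :=
  ∀ (d : ℕ) (ε : ℝ), 3 ≤ d → 0 < ε →
    Big d fun V E _ _ _ _ w0 => ∀ U A : Finset E, 2 * (U.card + A.card) ≤ Fintype.card E →
      PD w0 (fun w _ => ¬ G3 (V := V) d U A w) ≤ ε

def StG5a : Prop :=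
  ∀ (d : ℕ) (ε : ℝ), 3 ≤ d → 0 < ε →
    Big d fun V _ _ _ _ _ w0 => PD w0 (fun w _ => ¬ G5a (V := V) d w) ≤ ε

def StG5b : Prop :=
  ∀ (d : ℕ) (ε : ℝ), 3 ≤ d → 0 < ε →
    Big d fun V E _ _ _ _ w0 => ∀ U A : Finset E, 2 * (U.card + A.card) ≤ Fintype.card E →
      PD w0 (fun w J => ¬ G5b (V := V) d U A w J) ≤ ε

def StG8 : Prop :=
  ∀ (d : ℕ) (ε ε' : ℝ), 0 < ε → 0 < ε' →
    Big d fun V _ _ _ _ _ w0 =>
      PD w0 (fun w _ => ¬ ((badV (V := V) w).card : ℝ) ≤ ε * Fintype.card V) ≤ ε'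

/-- sampling without replacement -/
def StHyp : Prop :=
  ∀ (P : Type) [Fintype P] [DecidableEq P] (S R : Finset P),
    avg (fun π : Perm P => ind (∀ t ∈ R, π t ∈ S))
      ≤ ((S.card : ℝ) / Fintype.card P) ^ R.card

/-- moments of a centred sum -/
def StMom : Prop :=
  ∀ (ι : Type) [Fintype ι] [DecidableEq ι] (m : ℕ) (c : ι → ℝ), 1 ≤ m → (∀ u, |c u| ≤ 1) →
    avg (fun ξ : ι → Fin m => Wm c ξ) = 0 ∧
    avg (fun ξ : ι → Fin m => Wm c ξ ^ 2) = 1 / m * (1 - 1 / m) * ∑ u, c u ^ 2 ∧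
    avg (fun ξ : ι → Fin m => Wm c ξ ^ 4)
      ≤ 3 * avg (fun ξ : ι → Fin m => Wm c ξ ^ 2) ^ 2 + avg fun ξ : ι → Fin m => Wm c ξ ^ 2

/-- one-sided anti-concentration -/
def StPZ : Prop :=
  ∀ (α : Type) [Fintype α] [Nonempty α] (W : α → ℝ) (v : ℝ), 1 ≤ v → avg W = 0 →
    avg (fun a => W a ^ 2) = v → avg (fun a => W a ^ 4) ≤ 3 * v ^ 2 + v →
    1 / 64 ≤ avg fun a => ind (Real.sqrt v / 8 ≤ W a)

/-- variance under bounded differences -/
def StVar : Prop :=
  ∀ (ι γ : Type) [Fintype ι] [DecidableEq ι] [Fintype γ] [Nonempty γ] (f : (ι → γ) → ℝ)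
    (c : ι → ℝ), (∀ ω i o, |f (Function.update ω i o) - f ω| ≤ c i) →
    avg (fun ω => (f ω - avg f) ^ 2) ≤ ∑ i, c i ^ 2

/-- mean energy after flipping a random subset -/
def StExp : Prop :=
  ∀ (V E : Type) [Fintype V] [DecidableEq V] [Fintype E] [DecidableEq E]
    (s : E → ℝ) (B : ℝ) (w : E × Bool → V) (σ : V → Bool) (X : Finset V) (m : ℕ), 1 ≤ m →
    (∀ p, w p ∈ X → w (pt p) ≠ w p) →
    avg (fun ξ : V → Fin m => HH s B w (flp σ (sel X ξ)))
      = HH s B w σ - 2 * (∑ v ∈ X, loc s w σ v) / m + 2 * eS s w σ X X / (m : ℝ) ^ 2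
        - 2 * B * mg σ X / m

/-- a vertex with many active neighbours in A gets a large push with positive probability -/
def StElig : Prop :=
  ∀ (V E : Type) [Fintype V] [DecidableEq V] [Fintype E] [DecidableEq E]
    (s : E → ℝ) (w : E × Bool → V) (σ : V → Bool) (A : Finset V) (v : V) (m : ℕ) (L : ℝ),
    Tri s → v ∉ badV w → 2 ≤ m → 1 ≤ L → 2 ^ 27 * m * L ^ 2 ≤ (nz s w v A : ℝ) →
    -(4 * m * L) ≤ eS s w σ {v} A →
    1 / 64 ≤ avg fun ξ : V → Fin m => ind (1020 * L ≤ eS s w σ {v} (sel A ξ))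

open Classical in
/-- many vertices get the push -/
def StCnt : Prop :=
  ∀ (V E : Type) [Fintype V] [DecidableEq V] [Fintype E] [DecidableEq E]
    (s : E → ℝ) (w : E × Bool → V) (σ : V → Bool) (A B' : Finset V) (d m n0 : ℕ) (t : ℝ),
    Deg w d → 1 ≤ m → 0 < n0 → 2 ^ 19 * d ^ 2 ≤ n0 → A.card ≤ 2 * n0 → n0 ≤ 2 * B'.card →
    (∀ v ∈ B', 1 / 64 ≤ avg fun ξ : V → Fin m => ind (t ≤ eS s w σ {v} (sel A ξ))) →
    avg (fun ξ : V → Fin m =>
      ind (256 * (B'.filter fun v => t ≤ eS s w σ {v} (sel A ξ)).card < n0)) ≤ 1 / 4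

open Classical in
/-- half of the vertices are well connected and not pushed back -/
def StSel : Prop :=
  ∀ (V E : Type) [Fintype V] [DecidableEq V] [Fintype E] [DecidableEq E]
    (s : E → ℝ) (w : E × Bool → V) (σ : V → Bool) (A B1 : Finset V) (n0 : ℕ) (b ν : ℝ),
    0 < b → B1.card = n0 → (∀ Y ⊆ B1, -eS s w σ A Y ≤ b * n0) →
    4 * (B1.filter fun v => (nz s w v A : ℝ) < ν).card ≤ n0 →
    ∃ B' ⊆ B1, n0 ≤ 2 * B'.card ∧ ∀ v ∈ B', ν ≤ (nz s w v A : ℝ) ∧ -(4 * b) ≤ eS s w σ {v} A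

/-- second stage of the flip -/
def StTwo : Prop :=
  ∀ (V E : Type) [Fintype V] [DecidableEq V] [Fintype E] [DecidableEq E]
    (s : E → ℝ) (B : ℝ) (w : E × Bool → V) (σ : V → Bool) (A' Y : Finset V) (m : ℕ) (L t R : ℝ),
    1 ≤ m → |B| ≤ 1 → Disjoint A' Y → (∀ v ∈ Y, v ∉ badV w) → (∀ v ∈ Y, loc s w σ v ≤ L) →
    (∀ v ∈ Y, t ≤ eS s w σ {v} A') → -eS s w σ Y Y ≤ R →
    ∃ σ' : V → Bool, HH s B w (flp σ A') + 2 * (2 * t - L - 1) * Y.card / m - 2 * R / (m : ℝ) ^ 2
      ≤ HH s B w σ'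

open Classical in
/-- two stage flip -/
def StCore : Prop :=
  ∀ (V E : Type) [Fintype V] [DecidableEq V] [Fintype E] [DecidableEq E]
    (s : E → ℝ) (B : ℝ) (w : E × Bool → V) (σ : V → Bool) (A B1 B2 : Finset V) (d m n0 : ℕ)
    (L : ℝ), Deg w d → Tri s → |B| ≤ 1 → 1 ≤ L → 2 ≤ m → 0 < n0 → 2 ^ 19 * d ^ 2 ≤ n0 →
    A.card = 2 * n0 → B1.card = n0 → B2.card = n0 →
    Disjoint A B1 → Disjoint A B2 → Disjoint B1 B2 →
    (∀ v ∈ A ∪ B1 ∪ B2, v ∉ badV w ∧ loc s w σ v ≤ L) →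
    -eS s w σ A A ≤ m * L * n0 → (∀ Y ⊆ B1 ∪ B2, -eS s w σ A Y ≤ m * L * n0) →
    (∀ Y1 ⊆ B1, ∀ Y2 ⊆ B2, Y1.card = Y2.card → -eS s w σ (Y1 ∪ Y2) (Y1 ∪ Y2) ≤ m * L * n0) →
    4 * (B1.filter fun v => (nz s w v A : ℝ) < 2 ^ 27 * m * L ^ 2).card ≤ n0 →
    4 * (B2.filter fun v => (nz s w v A : ℝ) < 2 ^ 27 * m * L ^ 2).card ≤ n0 →
    ∃ σ' : V → Bool, HH s B w σ + L * n0 / m ≤ HH s B w σ'

open Classical in
/-- most vertices of a large set have many active half-edges into another large set -/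
def StNz : Prop :=
  ∀ (V E : Type) [Fintype V] [DecidableEq V] [Fintype E] [DecidableEq E]
    (s : E → ℝ) (w : E × Bool → V) (U A : Finset E) (A0 B1 : Finset V) (d n0 : ℕ),
    8 ≤ d → (∀ i, i ∉ U → s i ≠ 0) → G3 d U A w → 0 < n0 → A0.card = 2 * n0 → B1.card = n0 →
    152 * ell d * Fintype.card V ≤ d * n0 →
    4 * (B1.filter fun v => (nz s w v A0 : ℝ) < d * n0 / (8 * Fintype.card V)).card ≤ n0

/-- the signed lower bound at the optimal tilt -/
def StG2o : Prop :=
  ∀ (V E : Type) [Fintype V] [DecidableEq V] [Fintype E] [DecidableEq E]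
    (s : E → ℝ) (w : E × Bool → V) (A : Finset E) (σ : V → Bool) (X Y : Finset V) (d n0 : ℕ)
    (L : ℝ), 8 ≤ d → G2m d A s w → 1 ≤ L → 0 < n0 → n0 ≤ Fintype.card V →
    2 ^ 75 * L ^ 2 * ell d / d * Fintype.card V ≤ n0 → (X = Y ∨ Disjoint X Y) →
    X.card ≤ 2 * n0 → Y.card ≤ 2 * n0 →
    2 ^ 35 * A.card * |mg σ X| * L ≤ d * n0 * Fintype.card V →
    -eS s w σ X Y ≤ d * n0 / (2 ^ 31 * L * Fintype.card V) * n0

/-- improvement of a state with four large soft sets -/
def StPPa : Prop :=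
  ∀ (V E : Type) [Fintype V] [DecidableEq V] [Fintype E] [DecidableEq E]
    (s : E → ℝ) (B : ℝ) (w : E × Bool → V) (U A : Finset E) (σ : V → Bool)
    (A0 B1 B2 : Finset V) (d n0 : ℕ) (L : ℝ), 8 ≤ d → Deg w d → Tri s →
    (∀ i, i ∉ U → s i ≠ 0) → G2m d A s w → G3 d U A w → |B| ≤ 1 → 1 ≤ L →
    2 ^ 75 * L ^ 2 * ell d / d * Fintype.card V ≤ n0 → 2 ^ 19 * d ^ 2 ≤ n0 →
    A0.card = 2 * n0 → B1.card = n0 → B2.card = n0 →
    Disjoint A0 B1 → Disjoint A0 B2 → Disjoint B1 B2 →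
    (∀ v ∈ A0 ∪ B1 ∪ B2, v ∉ badV w ∧ loc s w σ v ≤ L) →
    2 ^ 35 * A.card * |mg σ A0| * L ≤ d * n0 * Fintype.card V →
    (∀ Y1 ⊆ B1, ∀ Y2 ⊆ B2, Y1.card = Y2.card →
      2 ^ 35 * A.card * |mg σ (Y1 ∪ Y2)| * L ≤ d * n0 * Fintype.card V) →
    ∃ σ' : V → Bool, HH s B w σ + 2 ^ 30 * L ^ 3 * Fintype.card V / d ≤ HH s B w σ'

def StP1 : Prop :=
  ∀ (V E : Type) [Fintype V] [DecidableEq V] [Fintype E] [DecidableEq E]
    (s : E → ℝ) (w : E × Bool → V) (U A : Finset E) (d : ℕ), 8 ≤ d → Deg w d →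
    2 ^ 19 * d ^ 3 ≤ Fintype.card V → Tri s → (∀ i, i ∉ U → s i ≠ 0) → G2m d A s w →
    G3 d U A w → ((badV w).card : ℝ) ≤ 1 / d * Fintype.card V →
    P1 d (10 * 2 ^ 75) (1 / 2 ^ 35) A s w

def StP2 : Prop :=
  ∀ (V E : Type) [Fintype V] [DecidableEq V] [Fintype E] [DecidableEq E]
    (s : E → ℝ) (w : E × Bool → V) (U A : Finset E) (d : ℕ), 8 ≤ d → Deg w d →
    2 ^ 19 * d ^ 3 ≤ Fintype.card V → Tri s → (∀ i, i ∉ U → s i ≠ 0) → G2m d A s w →
    G3 d U A w → ((badV w).card : ℝ) ≤ 1 / d * Fintype.card V →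
    P2 d (10 * 2 ^ 75) s w

end

end Pool.Agent.MP_32a90a_pr.D

end

section

set_option autoImplicit false

namespace Pool.Agent.MP_32a90a_pr.D

open Finset Equiv Filter Pool.Agent.MP_32a90a_pr Pool.Agent.MP_32a90a_pr.L

namespace Typ

lemma num : ∀ᶠ d : ℕ in atTop, 8 ≤ d ∧ 0 < z1 d ∧ 18 * d * z1 d ≤ ell d := by
  have h1 : Tendsto (fun d : ℕ => ell d) atTop atTop :=
    Real.tendsto_log_atTop.comp tendsto_natCast_atTop_atTop
  have h2 : Tendsto (fun d : ℕ => ell d ^ (1 / 4 : ℝ)) atTop atTop :=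
    (tendsto_rpow_atTop (by norm_num)).comp h1
  filter_upwards [eventually_ge_atTop 8, h1.eventually_gt_atTop 0, h2.eventually_ge_atTop 18]
    with d hd hl h18
  have hd0 : (0 : ℝ) < d := by exact_mod_cast (by omega : 0 < d)
  have hp : 0 < ell d ^ (3 / 4 : ℝ) := Real.rpow_pos_of_pos hl _
  refine ⟨hd, div_pos hp hd0, ?_⟩
  have e : ell d = ell d ^ (1 / 4 : ℝ) * ell d ^ (3 / 4 : ℝ) := by
    rw [← Real.rpow_add hl]; norm_num
  calc 18 * (d : ℝ) * z1 d = 18 * ell d ^ (3 / 4 : ℝ) := by unfold z1; field_simp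
    _ ≤ ell d ^ (1 / 4 : ℝ) * ell d ^ (3 / 4 : ℝ) := mul_le_mul_of_nonneg_right h18 hp.le
    _ = ell d := e.symm

lemma tri_cp {E : Type} [DecidableEq E] (U A F : Finset E) (J : E → Bool) : Tri (cp U A F J) := by
  intro i
  unfold cp
  split_ifs
  · simp
  · simp
  · simp
  · rcases sgn_cases (J i) with h | h <;> simp [h]

lemma cp_ne {E : Type} [DecidableEq E] (U A F : Finset E) (J : E → Bool) (i : E) (hi : i ∉ U) :
    cp U A F J i ≠ 0 := by
  unfold cp
  rw [if_neg hi]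
  split_ifs
  · norm_num
  · norm_num
  · rcases sgn_cases (J i) with h | h <;> rw [h] <;> norm_num

end Typ

theorem stTyp_of (h1 : StG1) (h2 : StG2) (h3 : StG3) (h5a : StG5a) (h5b : StG5b) (h8 : StG8)
    (hP1 : StP1) (hP2 : StP2) : StTyp := by
  refine ⟨10 * 2 ^ 75, 1 / 2 ^ 35, by norm_num, by norm_num, ?_⟩
  filter_upwards [Typ.num] with d hd ε hε
  obtain ⟨hd8, hz, hzl⟩ := hd
  have hd3 : 3 ≤ d := by omega
  have hd0 : (0 : ℝ) < d := by exact_mod_cast (by omega : 0 < d)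
  have he : 0 < ε / 7 := by positivity
  have b1 := h1 d (z1 d) ε (ε / 7) hd8 hz hzl hε he
  have b2 := h2 d (ε / 7) hd3 he
  have b3 := h3 d (ε / 7) hd3 he
  have b4 := h5a d (ε / 7) hd3 he
  have b5 := h5b d (ε / 7) hd3 he
  have b6 := h8 d ε (ε / 7) hε he
  have b7 := h8 d (1 / d) (ε / 7) (by positivity) he
  have b8 := Big.card d (fun N => 2 ^ 19 * d ^ 3 ≤ N) (eventually_ge_atTop _)
  refine (b1.and (b2.and (b3.and (b4.and (b5.and (b6.and (b7.and b8))))))).mono ?_
  intro V E _ _ _ _ w0 hw ⟨c1, c2, c3, c4, c5, c6, c7, c8⟩ U A hUA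
  have key : PD w0 (fun w J => ¬ Typ (V := V) d (10 * 2 ^ 75) (1 / 2 ^ 35) ε U A w J)
      ≤ PD w0 (fun w J => ¬ G1 (V := V) d (z1 d) ε w ∨
        ¬ (G2 (V := V) d (cp U A ∅ J) w ∧ G2m d A (cp U A ∅ J) w) ∨ ¬ G3 (V := V) d U A w ∨
        ¬ G5a (V := V) d w ∨ ¬ G5b (V := V) d U A w J ∨
        ¬ ((badV (V := V) w).card : ℝ) ≤ ε * Fintype.card V ∨
        ¬ ((badV (V := V) w).card : ℝ) ≤ 1 / d * Fintype.card V) := by
    refine ED_mono_deg hw fun w J hwd => ind_mono fun hn => ?_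
    by_contra hc
    simp only [not_or, not_not] at hc
    obtain ⟨g1, ⟨g2, g2m⟩, g3, g4, g5, g6, g7⟩ := hc
    exact hn ⟨g1, g2, g3, g4, g5, g6,
      hP1 V E _ w U A d hd8 hwd c8 (Typ.tri_cp _ _ _ _) (Typ.cp_ne _ _ _ _) g2m g3 g7,
      hP2 V E _ w U A d hd8 hwd c8 (Typ.tri_cp _ _ _ _) (Typ.cp_ne _ _ _ _) g2m g3 g7⟩
  refine key.trans ?_
  refine (PD_or_le _ _).trans ((add_le_add c1 ((PD_or_le _ _).trans (add_le_add (c2 U A)
    ((PD_or_le _ _).trans (add_le_add (c3 U A hUA) ((PD_or_le _ _).trans (add_le_add c4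
    ((PD_or_le _ _).trans (add_le_add (c5 U A hUA) ((PD_or_le _ _).trans
      (add_le_add c6 c7))))))))))).trans ?_)
  linarith

end Pool.Agent.MP_32a90a_pr.D

end

section

set_option autoImplicit false

namespace Pool.Agent.MP_32a90a_pr.D

open Finset Equiv Pool.Agent.MP_32a90a_pr Pool.Agent.MP_32a90a_pr.L

namespace NEG

variable {V E : Type} [Fintype V] [DecidableEq V] [Fintype E] [DecidableEq E]

omit [Fintype V] [DecidableEq E] in
lemma loc_int (s : E → ℝ) (hs : ∀ i, s i = 0 ∨ s i = 1 ∨ s i = -1) (w : E × Bool → V)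
    (σ : V → Bool) (v : V) : ∃ l : ℤ, loc s w σ v = l := by
  unfold loc
  refine Finset.sum_induction _ (fun x : ℝ => ∃ l : ℤ, x = l) ?_ ⟨0, by simp⟩ fun p _ => ?_
  · rintro _ _ ⟨a, rfl⟩ ⟨b, rfl⟩
    exact ⟨a + b, by push_cast; rfl⟩
  · unfold sl Y1
    rcases hs p.1 with h | h | h <;> rcases sgn_cases (σ (w (p.1, false))) with h1 | h1 <;>
      rcases sgn_cases (σ (w (p.1, true))) with h2 | h2 <;> rw [h, h1, h2] <;>
      first
        | (refine ⟨0, ?_⟩; norm_num; done)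
        | (refine ⟨1, ?_⟩; norm_num; done)
        | (refine ⟨-1, ?_⟩; norm_num; done)

omit [Fintype V] in
lemma no_loop {w : E × Bool → V} {v : V} (hv : v ∉ badV w) (p : E × Bool) (h : w p = v) :
    w (pt p) ≠ v := fun h' =>
  hv (mem_image.2 ⟨p, mem_filter.2 ⟨mem_univ _, pt p, pt_ne p, by simp [dart, h, h']⟩, h⟩)

omit [Fintype V] in
lemma exists_indep {w : E × Bool → V} {d : ℕ} (hw : Deg w d) (F : Finset V)
    (hF : ∀ v ∈ F, v ∉ badV w) :
    ∃ I ⊆ F, (∀ p, w p ∈ I → w (pt p) ∉ I) ∧ F.card ≤ (d + 1) * I.card := by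
  classical
  obtain ⟨I, hI, hmax⟩ := exists_max_image
    (F.powerset.filter fun I : Finset V => ∀ p, w p ∈ I → w (pt p) ∉ I) card
    ⟨∅, by simp⟩
  obtain ⟨h1, h2⟩ := mem_filter.1 hI
  refine ⟨I, mem_powerset.1 h1, h2, ?_⟩
  have hsub : F ⊆ I ∪ I.biUnion (Nb w) := by
    intro v hv
    by_contra hc
    rw [mem_union, not_or, mem_biUnion] at hc
    have h3 := hmax (insert v I) (mem_filter.2
      ⟨mem_powerset.2 (insert_subset hv (mem_powerset.1 h1)), fun p hp hq => ?_⟩)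
    · rw [card_insert_of_notMem hc.1] at h3; omega
    · rcases mem_insert.1 hp with hp | hp <;> rcases mem_insert.1 hq with hq | hq
      · exact no_loop (hF v hv) p hp hq
      · refine hc.2 ⟨w (pt p), hq, ?_⟩
        have := mem_Nb w (pt p)
        rwa [pt_pt, hp] at this
      · exact hc.2 ⟨w p, hp, hq ▸ mem_Nb w p⟩
      · exact h2 p hp hq
  have h4 : (I.biUnion (Nb w)).card ≤ I.card * d :=
    card_biUnion_le_card_mul _ _ _ fun u _ => Nb_card hw u
  have h5 := (card_le_card hsub).trans (card_union_le _ _)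
  nlinarith

end NEG

theorem stNEG (hF : StFlip) : StNEG := by
  classical
  intro V E _ _ _ _ w d s σ a hw hs ha
  obtain ⟨I, hI, hind, hcard⟩ := NEG.exists_indep hw
    ((univ.filter fun v => loc s w σ v < 0) \ badV w) fun v hv => (mem_sdiff.1 hv).2
  have h1 : eS s w σ I I = 0 := by
    unfold eS
    rw [filter_eq_empty_iff.2 fun p _ h => hind p h.1 h.2, sum_empty]
  have h2 : ∑ v ∈ I, loc s w σ v ≤ ∑ _v ∈ I, (-1 : ℝ) := by
    refine sum_le_sum fun v hv => ?_
    have h3 := (mem_filter.1 (mem_sdiff.1 (hI hv)).1).2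
    obtain ⟨l, hl⟩ := NEG.loc_int s hs w σ v
    rw [hl] at h3 ⊢
    have h4 : l < 0 := by exact_mod_cast h3
    exact_mod_cast (show l ≤ -1 by omega)
  have h3 : HH s 0 w (flp σ I) ≤ mxH univ s 0 w :=
    le_ciSup (f := fun τ : (univ : Finset (V → Bool)) => HH s 0 w τ) (Set.finite_range _).bddAbove
      ⟨flp σ I, mem_univ _⟩
  rw [hF V E s 0 w σ I, h1] at h3
  simp only [sum_const, nsmul_eq_mul] at h2
  have h4 : (2 : ℝ) * I.card ≤ a := by linarith
  have h5 : (univ.filter fun v => loc s w σ v < 0).card ≤ (d + 1) * I.card + (badV w).card :=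
    card_le_card_sdiff_add_card.trans (Nat.add_le_add_right hcard _)
  have h6 : ((univ.filter fun v => loc s w σ v < 0).card : ℝ) ≤
      (d + 1) * I.card + (badV w).card := by exact_mod_cast h5
  have h7 : (0 : ℝ) ≤ I.card := Nat.cast_nonneg _
  have h8 : (0 : ℝ) ≤ d + 1 := by positivity
  nlinarith [mul_le_mul_of_nonneg_left (show (I.card : ℝ) ≤ a by linarith) h8]

end Pool.Agent.MP_32a90a_pr.D

end

section

set_option autoImplicit false

namespace Pool.Agent.MP_32a90a_pr.D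

open Finset Equiv Pool.Agent.MP_32a90a_pr Pool.Agent.MP_32a90a_pr.L

namespace XVval

variable {V E : Type} [DecidableEq E] {d : ℕ} {p u : Fin d → E × Bool}

lemma val1 (w : E × Bool → V) (hp : Function.Injective p) (i : Fin d) :
    xv w p u (pt (p i)) = w (u i) := by
  have h : ∃ j, pt (p i) = pt (p j) := ⟨i, rfl⟩
  rw [xv, dif_pos h, ← hp (pt_inj h.choose_spec)]

lemma val2 (w : E × Bool → V) (hu : Function.Injective u) (hne : ∀ i j, u i ≠ pt (p j))
    (i : Fin d) : xv w p u (u i) = w (pt (p i)) := by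
  have h : ∃ j, u i = u j := ⟨i, rfl⟩
  rw [xv, dif_neg (not_exists.2 (hne i)), dif_pos h, ← hu h.choose_spec]

lemma val3 (w : E × Bool → V) {t : E × Bool} (h1 : ∀ i, t ≠ pt (p i)) (h2 : ∀ i, t ≠ u i) :
    xv w p u t = w t := by
  rw [xv, dif_neg (not_exists.2 h1), dif_neg (not_exists.2 h2)]

omit [DecidableEq E] in
lemma cases3 (p u : Fin d → E × Bool) (t : E × Bool) :
    (∃ i, t = pt (p i)) ∨ (∃ i, t = u i) ∨ ((∀ i, t ≠ pt (p i)) ∧ ∀ i, t ≠ u i) := by
  by_cases h1 : ∃ i, t = pt (p i)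
  · exact Or.inl h1
  by_cases h2 : ∃ i, t = u i
  · exact Or.inr (Or.inl h2)
  exact Or.inr (Or.inr ⟨not_exists.1 h1, not_exists.1 h2⟩)

lemma xv_eq (w : E × Bool → V) (p u : Fin d → E × Bool) : xv w p u = w ∘ xv id p u := by
  funext t
  simp only [xv, Function.comp_apply]
  split_ifs <;> rfl

lemma invol (hp : Function.Injective p) (hu : Function.Injective u)
    (hne : ∀ i j, u i ≠ pt (p j)) : Function.Involutive (xv id p u) := by
  intro t
  rcases cases3 p u t with ⟨i, rfl⟩ | ⟨i, rfl⟩ | ⟨h1, h2⟩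
  · rw [val1 id hp, id, val2 id hu hne, id]
  · rw [val2 id hu hne, id, val1 id hp, id]
  · rw [val3 id h1 h2, id, val3 id h1 h2, id]

/-- the exchange is a fixed permutation of the half-edges -/
lemma exists_rho (hp : Function.Injective p) (hu : Function.Injective u)
    (hne : ∀ i j, u i ≠ pt (p j)) :
    ∃ ρ : Perm (E × Bool), ∀ w : E × Bool → V, xv w p u = w ∘ ρ :=
  ⟨(invol hp hu hne).toPerm, fun w => xv_eq w p u⟩

omit [DecidableEq E] in
lemma same_slot {a b : E × Bool} (h : a.1 = b.1) : a = b ∨ a = pt b := by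
  obtain ⟨a1, a2⟩ := a
  obtain ⟨b1, b2⟩ := b
  simp only at h
  subst h
  cases a2 <;> cases b2 <;> simp [pt]

end XVval

open XVval

theorem stPos : StPos := by
  intro V E _ _ _ _ _ d v
  let g : Finset (E × Bool) → Fin d → E × Bool := fun S =>
    if h : S.card = d then fun i => ((S.equivFinOfCardEq h).symm i).1
    else fun _ => (Classical.arbitrary E, true)
  refine ⟨fun w => g (univ.filter fun p => w p = v), fun w hw => ?_, fun w w' h => ?_⟩
  · simp only [g, dif_pos (hw v)]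
    refine ⟨fun i j h => (Equiv.injective _) (Subtype.ext h), fun q => ⟨fun hq => ?_, ?_⟩⟩
    · exact ⟨Finset.equivFinOfCardEq (hw v) ⟨q, by simpa using hq⟩, by simp⟩
    · rintro ⟨i, rfl⟩
      exact (mem_filter.1 ((Finset.equivFinOfCardEq (hw v)).symm i).2).2
  · simp only [h]

theorem stXVval : StXVval := by
  intro V E _ _ _ _ w d U v p u J J' hw hG hp hv hu hc
  have h0 : ∀ i, w (p i) = v := fun i => (hv _).2 ⟨i, rfl⟩
  have hne : ∀ i j, u i ≠ pt (p j) := fun i j e =>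
    (hG _ (h0 j)).1 (by have := mem_cav.1 (hc i); rwa [e] at this)
  have h1 : ∀ i, w (pt (p i)) ≠ v := fun i => (hG _ (h0 i)).2
  have h2 : ∀ i, w (u i) ≠ v := fun i e => (hG _ e).1 (mem_cav.1 (hc i))
  have h3 : Function.Injective fun i => (p i).1 := fun i j e =>
    (same_slot e).elim (fun e' => hp e') fun e' => absurd (e' ▸ h0 i) (h1 j)
  refine ⟨?_, fun t => ?_, val1 w hp, val2 w hu hne, fun t => val3 w, fun i => ?_,
    fun e he => ?_, h3⟩
  · obtain ⟨ρ, hρ⟩ := exists_rho (V := V) hp hu hne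
    rw [hρ]
    exact hw.comp ρ
  · rcases cases3 p u t with ⟨i, rfl⟩ | ⟨i, rfl⟩ | ⟨a1, a2⟩
    · rw [val1 w hp]
      exact iff_of_false (h2 i) (h1 i)
    · rw [val2 w hu hne]
      exact iff_of_false (h1 i) (h2 i)
    · rw [val3 w a1 a2]
  · have h : ∃ j, (p i).1 = (p j).1 := ⟨i, rfl⟩
    rw [xj, dif_pos h, ← h3 h.choose_spec]
  · rw [xj, dif_neg (not_exists.2 he)]

end Pool.Agent.MP_32a90a_pr.D

end

section

set_option autoImplicit false

namespace Pool.Agent.MP_32a90a_pr.D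

open Finset Equiv Pool.Agent.MP_32a90a_pr Pool.Agent.MP_32a90a_pr.L

namespace G9a

variable {V E : Type} [Fintype V] [DecidableEq V] [Fintype E] [DecidableEq E]

lemma point (U : Finset E) (w : E × Bool → V) :
    ∑ v, ind (¬ Gd U w v) ≤ 2 * U.card + ∑ p, ind (w (pt p) = w p) := by
  classical
  rw [sum_ind, sum_ind]
  have h : (univ.filter fun v => ¬ Gd U w v) ⊆
      (U ×ˢ (univ : Finset Bool) ∪ univ.filter fun p => w (pt p) = w p).image w := by
    intro v hv
    simp only [Gd, mem_filter, mem_univ, true_and, not_forall, not_and, not_not] at hv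
    obtain ⟨p, rfl, h⟩ := hv
    refine mem_image_of_mem w ?_
    by_cases h1 : p.1 ∈ U
    · exact mem_union_left _ (mem_product.2 ⟨h1, mem_univ _⟩)
    · exact mem_union_right _ (mem_filter.2 ⟨mem_univ _, h h1⟩)
  have h2 := (card_le_card h).trans (card_image_le.trans (card_union_le _ _))
  rw [card_product, card_univ, Fintype.card_bool, mul_comm] at h2
  exact_mod_cast h2

omit [Fintype V] in
lemma loop {w0 : E × Bool → V} {d : ℕ} (h : Deg w0 d) (p : E × Bool) :
    (Fintype.card (E × Bool) : ℝ) * ED w0 (fun w _ => ind (w (pt p) = w p)) ≤ d + 1 := by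
  have h0 : (0 : ℝ) < Fintype.card (Perm (E × Bool)) := by exact_mod_cast Fintype.card_pos
  have e : ED w0 (fun w _ => ind (w (pt p) = w p)) =
      avg fun π : Perm (E × Bool) => ind (w0 (π (pt p)) = w0 (π p)) := by
    rw [ED_eq_avg, avg_prod]
    exact avg_congr fun π => avg_const (α := E → Bool) (ind (w0 (π (pt p)) = w0 (π p)))
  rw [e, avg, sum_ind, ← mul_div_assoc, div_le_iff₀ h0, mul_comm ((d : ℝ) + 1)]
  exact_mod_cast loop_count h p

end G9a

theorem stG9a : StG9a := by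
  intro V E _ _ _ _ w0 d U h
  unfold PD
  rw [← ED_sum]
  refine (ED_mono fun w _ => G9a.point U w).trans ?_
  rw [ED_add, ED_const, ED_sum, add_assoc]
  refine add_le_add_right ?_ _
  rcases isEmpty_or_nonempty (E × Bool) with h0 | h0
  · simp only [univ_eq_empty, sum_empty]
    positivity
  · have h1 : (0 : ℝ) < Fintype.card (E × Bool) := by exact_mod_cast Fintype.card_pos
    refine le_of_mul_le_mul_left ?_ h1
    rw [mul_sum]
    refine (sum_le_sum fun p _ => G9a.loop h p).trans_eq ?_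
    rw [sum_const, card_univ, nsmul_eq_mul]

end Pool.Agent.MP_32a90a_pr.D

end

section

set_option autoImplicit false

namespace Pool.Agent.MP_32a90a_pr.D

open Finset Equiv

namespace Orb

variable {P T : Type} [Fintype P] [DecidableEq T]

lemma exists_perm {y y0 : P → T} (h : ∀ t, fcnt y t = fcnt y0 t) : ∃ ρ : Perm P, y = y0 ∘ ρ := by
  have e : ∀ t, {p // y p = t} ≃ {p // y0 p = t} := fun t => Fintype.equivOfCardEq (by
    rw [Fintype.card_subtype, Fintype.card_subtype]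
    exact h t)
  exact ⟨Equiv.ofFiberEquiv e, funext fun p => (Equiv.ofFiberEquiv_map e p).symm⟩

lemma cnt_comp (y : P → T) (ρ : Perm P) (t : T) : fcnt (y ∘ ρ) t = fcnt y t :=
  card_equiv ρ fun p => by simp

lemma card_fib [DecidableEq P] [Fintype T] (y0 : P → T) (ρ : Perm P) :
    (univ.filter fun π : Perm P => y0 ∘ π = y0 ∘ ρ).card = ∏ t, (fcnt y0 t).factorial := by
  have h1 : (univ.filter fun π : Perm P => y0 ∘ π = y0).card =
      (univ.filter fun π : Perm P => y0 ∘ π = y0 ∘ ρ).card := by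
    refine card_equiv (Equiv.mulRight ρ) fun π => ?_
    simp only [mem_filter, mem_univ, true_and, coe_mulRight, Perm.coe_mul]
    rw [← Function.comp_assoc]
    exact ⟨fun h => by rw [h], fun h => ρ.surjective.injective_comp_right h⟩
  rw [← h1, ← Fintype.card_subtype, DomMulAct.stabilizer_card]
  exact prod_congr rfl fun t _ => by rw [Fintype.card_subtype, fcnt]

end Orb

theorem stOrb : StOrb := by
  intro P T _ _ _ _ y0
  rw [← Fintype.card_perm, ← card_univ, card_eq_sum_card_fiberwise (f := fun π : Perm P => y0 ∘ π)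
    (t := univ.filter fun y : P → T => ∀ t, fcnt y t = fcnt y0 t)
    (fun π _ => by simpa using Orb.cnt_comp y0 π), ← smul_eq_mul, ← sum_const]
  refine sum_congr rfl fun y hy => ?_
  obtain ⟨ρ, rfl⟩ := Orb.exists_perm (mem_filter.1 hy).2
  exact (Orb.card_fib y0 ρ).symm

end Pool.Agent.MP_32a90a_pr.D

end

section

set_option autoImplicit false

namespace Pool.Agent.MP_32a90a_pr.D

open Finset

namespace TPa

lemma fact_le (k : ℕ) :
    (k.factorial : ℝ) ≤ 3 * ((k : ℝ) + 1) * ((k : ℝ) ^ k / Real.exp k) := by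
  rcases k with _ | k
  · simp
  · have h : Stirling.stirlingSeq (k + 1) ≤ Stirling.stirlingSeq 1 :=
      Stirling.stirlingSeq'_antitone (Nat.zero_le k)
    rw [Stirling.stirlingSeq_one, Stirling.stirlingSeq, div_le_iff₀ (by positivity)] at h
    set m : ℝ := ((k + 1 : ℕ) : ℝ) with hm
    have hm0 : 0 ≤ m := Nat.cast_nonneg _
    have e1 : (m / Real.exp 1) ^ (k + 1) = m ^ (k + 1) / Real.exp m := by
      rw [div_pow, ← Real.exp_nat_mul, mul_one]
    have e2 : Real.exp 1 / √2 * (√(2 * m) * (m / Real.exp 1) ^ (k + 1)) =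
        Real.exp 1 * √m * (m ^ (k + 1) / Real.exp m) := by
      rw [e1, Real.sqrt_mul (by norm_num)]
      have : √2 ≠ 0 := by positivity
      field_simp
    rw [e2] at h
    refine h.trans (mul_le_mul_of_nonneg_right ?_ (by positivity))
    have h3 : Real.exp 1 ≤ 3 := Real.exp_one_lt_three.le
    have h4 : √m ≤ m + 1 := by
      rw [Real.sqrt_le_iff]
      exact ⟨by linarith, by nlinarith⟩
    exact mul_le_mul h3 h4 (Real.sqrt_nonneg _) (by norm_num)

lemma le_fact (n : ℕ) : (n : ℝ) ^ n / Real.exp n ≤ n.factorial := by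
  have h := Real.pow_div_factorial_le_exp (n : ℝ) (Nat.cast_nonneg n) n
  rw [div_le_iff₀ (by positivity)] at h
  rw [div_le_iff₀ (Real.exp_pos _)]
  linarith

variable {P V T : Type} [Fintype P] [DecidableEq P] [Fintype V] [DecidableEq V]
  [Fintype T] [DecidableEq T]

omit [DecidableEq P] in
lemma sum_cnt (y : P → T) : ∑ t, fcnt y t = Fintype.card P := by
  unfold fcnt
  rw [← card_univ, card_eq_sum_card_fiberwise (f := y) (t := univ) (by simp)]

omit [DecidableEq P] [Fintype T] in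
lemma cnt_comp {w0 : P → V} {d : ℕ} (φ : V → T) (h : ∀ v, fcnt w0 v = d) (t : T) :
    fcnt (φ ∘ w0) t = d * fcnt φ t := by
  unfold fcnt
  rw [card_eq_sum_card_fiberwise (f := w0) (t := univ.filter fun v => φ v = t)
    (by intro p hp; simpa using hp), mul_comm, ← smul_eq_mul, ← sum_const]
  refine sum_congr rfl fun v hv => ?_
  rw [← h v, fcnt]
  congr 1
  ext p
  simp only [mem_filter, mem_univ, true_and, Function.comp_apply]
  exact ⟨fun hp => hp.2, fun hp => ⟨by rw [hp]; exact (mem_filter.1 hv).2, hp⟩⟩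

omit [DecidableEq V] in
lemma card_fib (φ : V → T) (y : P → T) :
    (univ.filter fun x : P → V => φ ∘ x = y).card = ∏ t, fcnt φ t ^ fcnt y t := by
  have h1 : (univ.filter fun x : P → V => φ ∘ x = y) =
      Fintype.piFinset fun p => univ.filter fun v => φ v = y p := by
    ext x
    simp only [mem_filter, mem_univ, true_and, Fintype.mem_piFinset, funext_iff,
      Function.comp_apply]
  rw [h1, Fintype.card_piFinset, ← prod_fiberwise (s := univ) (g := y)]
  refine prod_congr rfl fun t _ => ?_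
  rw [prod_congr rfl (g := fun _ => fcnt φ t) fun p hp => by rw [(mem_filter.1 hp).2, fcnt],
    prod_const, fcnt, fcnt]

omit [DecidableEq V] in
lemma card_cls (φ : V → T) (y0 : P → T) :
    (univ.filter fun x : P → V => ∀ t, fcnt (φ ∘ x) t = fcnt y0 t).card =
      (univ.filter fun y : P → T => ∀ t, fcnt y t = fcnt y0 t).card *
        ∏ t, fcnt φ t ^ fcnt y0 t := by
  rw [card_eq_sum_card_fiberwise (f := fun x : P → V => φ ∘ x)
    (t := univ.filter fun y : P → T => ∀ t, fcnt y t = fcnt y0 t)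
    (by intro x hx; simpa using hx), ← smul_eq_mul, ← sum_const]
  refine sum_congr rfl fun y hy => ?_
  have hy' := (mem_filter.1 hy).2
  rw [← prod_congr rfl fun t _ => congrArg (fcnt φ t ^ ·) (hy' t), ← card_fib φ y]
  congr 1
  ext x
  simp only [mem_filter, mem_univ, true_and]
  exact ⟨fun hx => hx.2, fun hx => ⟨by rw [hx]; exact hy', hx⟩⟩

end TPa

theorem stTPa (h : StOrb) : StTPa := by
  intro P V T _ _ _ _ _ _ _ w0 d φ hd
  have hk := TPa.cnt_comp φ hd
  have hn : Fintype.card P = d * Fintype.card V := by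
    rw [← TPa.sum_cnt w0, sum_congr rfl fun v _ => hd v, sum_const, card_univ, smul_eq_mul,
      mul_comm]
  have hs := TPa.sum_cnt (φ ∘ w0)
  have ho := h P T (φ ∘ w0)
  have hN : (0 : ℝ) < Fintype.card V := by exact_mod_cast Fintype.card_pos
  rw [avg, sum_ind, TPa.card_cls, Fintype.card_fun]
  set n := Fintype.card P with hn'
  set C := (univ.filter fun y : P → T => ∀ t, fcnt y t = fcnt (φ ∘ w0) t).card
  set k : T → ℕ := fcnt (φ ∘ w0) with hk'
  set K : ℝ := (3 * ((n : ℝ) + 1)) ^ Fintype.card T with hK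
  set A : ℝ := ∏ t, (fcnt φ t : ℝ) ^ k t with hA
  have hA0 : 0 ≤ A := prod_nonneg fun t _ => by positivity
  have hK0 : 0 ≤ K := by positivity
  have hF : (0 : ℝ) < ∏ t, ((k t).factorial : ℝ) := prod_pos fun t _ => by positivity
  have ho' : (C : ℝ) * ∏ t, ((k t).factorial : ℝ) = n.factorial := by exact_mod_cast ho
  have h1 : ∏ t, ((k t).factorial : ℝ) ≤ K * ((d : ℝ) ^ n * A / Real.exp n) := by
    have h2 : ∏ t, ((k t).factorial : ℝ) ≤
        ∏ t, (3 * ((n : ℝ) + 1) * ((d : ℝ) ^ k t * (fcnt φ t : ℝ) ^ k t / Real.exp (k t))) := by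
      refine prod_le_prod (fun t _ => by positivity) fun t _ => (TPa.fact_le (k t)).trans ?_
      have h3 : k t ≤ n := hs ▸ single_le_sum (f := k) (fun _ _ => Nat.zero_le _) (mem_univ t)
      have h4 : (k t : ℝ) ≤ n := by exact_mod_cast h3
      have h5 : (k t : ℝ) = d * fcnt φ t := by exact_mod_cast hk t
      rw [← mul_pow, ← h5]
      gcongr
    refine h2.trans_eq ?_
    rw [prod_mul_distrib, prod_const, card_univ, prod_div_distrib, prod_mul_distrib,
      prod_pow_eq_pow_sum, ← Real.exp_sum, ← Nat.cast_sum, hs]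
  have h2 : (d : ℝ) ^ n / Real.exp n ≤ n.factorial / (Fintype.card V : ℝ) ^ n := by
    have h3 := TPa.le_fact n
    have h4 : (n : ℝ) = d * Fintype.card V := by exact_mod_cast hn
    rw [le_div_iff₀ (by positivity), div_mul_eq_mul_div, ← mul_pow, ← h4]
    exact h3
  refine le_of_mul_le_mul_right ?_ hF
  rw [one_mul]
  refine h1.trans ?_
  push_cast
  rw [← hA]
  calc K * ((d : ℝ) ^ n * A / Real.exp n) = K * A * ((d : ℝ) ^ n / Real.exp n) := by ring
    _ ≤ K * A * (n.factorial / (Fintype.card V : ℝ) ^ n) :=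
        mul_le_mul_of_nonneg_left h2 (mul_nonneg hK0 hA0)
    _ = _ := by rw [← ho']; ring

end Pool.Agent.MP_32a90a_pr.D

end

section

set_option autoImplicit false

namespace Pool.Agent.MP_32a90a_pr.D

open Finset Equiv Pool.Agent.MP_32a90a_pr Pool.Agent.MP_32a90a_pr.L

namespace TP

lemma exists_perm {P T : Type} [Fintype P] [DecidableEq T] {y y0 : P → T}
    (h : ∀ t, fcnt y t = fcnt y0 t) : ∃ ρ : Perm P, y = y0 ∘ ρ := by
  have e : ∀ t, {p // y p = t} ≃ {p // y0 p = t} := fun t =>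
    Fintype.equivOfCardEq (by rw [Fintype.card_subtype, Fintype.card_subtype]; exact h t)
  exact ⟨Equiv.ofFiberEquiv e, funext fun p => (Equiv.ofFiberEquiv_map e p).symm⟩

end TP

theorem stTP (h : StTPa) : StTP := by
  intro V E T _ _ _ _ _ _ _ w0 d φ F hd hF
  have h0 := h (E × Bool) V T w0 d φ hd
  have hA : av w0 (fun w => F (φ ∘ w)) = avg fun π : Perm (E × Bool) => F (φ ∘ w0 ∘ π) := rfl
  have h1 : avg (fun x : E × Bool → V => F (φ ∘ x)) =
      avg fun x : E × Bool → V => avg fun π : Perm (E × Bool) => F (φ ∘ x ∘ π) := by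
    rw [avg_comm, ← avg_const (α := Perm (E × Bool)) (avg fun x : E × Bool → V => F (φ ∘ x))]
    exact avg_congr fun π =>
      (avg_equiv (Equiv.arrowCongr π.symm (Equiv.refl V)) fun x => F (φ ∘ x)).symm
  have h2 : avg (fun x : E × Bool → V => ind (∀ t, fcnt (φ ∘ x) t = fcnt (φ ∘ w0) t)) *
      av w0 (fun w => F (φ ∘ w)) ≤ avg fun x : E × Bool → V => F (φ ∘ x) := by
    rw [h1, ← avg_mul_right]
    refine avg_mono fun x => ?_
    by_cases hx : ∀ t, fcnt (φ ∘ x) t = fcnt (φ ∘ w0) t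
    · obtain ⟨ρ, hρ⟩ := TP.exists_perm hx
      rw [ind_pos hx, one_mul, hA, ← avg_equiv (Equiv.mulLeft ρ)]
      refine le_of_eq (avg_congr fun π => ?_)
      rw [← Function.comp_assoc φ x, hρ]
      rfl
    · rw [ind_neg hx, zero_mul]
      exact avg_nonneg fun π => hF _
  have h3 : 0 ≤ av w0 (fun w => F (φ ∘ w)) := hA ▸ avg_nonneg fun π => hF _
  calc av w0 (fun w => F (φ ∘ w)) = 1 * av w0 (fun w => F (φ ∘ w)) := (one_mul _).symm
    _ ≤ _ := mul_le_mul_of_nonneg_right h0 h3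
    _ ≤ _ := by
      rw [mul_assoc]
      exact mul_le_mul_of_nonneg_left h2 (by positivity)

end Pool.Agent.MP_32a90a_pr.D

end

section

set_option autoImplicit false

namespace Pool.Agent.MP_32a90a_pr.D

open Finset Equiv Filter Pool.Agent.MP_32a90a_pr Pool.Agent.MP_32a90a_pr.L

namespace MUa

lemma avg_pi {ι γ : Type} [Fintype ι] [DecidableEq ι] [Fintype γ] (g : ι → γ → ℝ) :
    avg (fun ω : ι → γ => ∏ i, g i (ω i)) = ∏ i, avg (g i) := by
  simp only [avg]
  rw [prod_div_distrib, prod_univ_sum, Fintype.piFinset_univ, prod_const, card_univ,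
    Fintype.card_fun, Nat.cast_pow]

/-- the two end points of every edge -/
def ends (E V : Type) : (E × Bool → V) ≃ (E → V × V) where
  toFun x i := (x (i, false), x (i, true))
  invFun y p := if p.2 then (y p.1).2 else (y p.1).1
  left_inv x := by
    funext ⟨i, b⟩
    cases b <;> rfl
  right_inv _ := rfl

end MUa

theorem stMUa (h : StTP) : StMUa := by
  intro V E T _ _ _ _ _ _ _ w0 d φ f hd
  have h1 := h V E T w0 d φ
    (fun y => ∏ i, avg fun b : Bool => Real.exp (f i (y (i, false)) (y (i, true)) b)) hd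
    fun y => prod_nonneg fun i _ => avg_nonneg fun b => (Real.exp_pos _).le
  have h2 : ED w0 (fun w J => Real.exp (muL f φ w J)) = av w0 fun w =>
      ∏ i, avg fun b : Bool => Real.exp (f i ((φ ∘ w) (i, false)) ((φ ∘ w) (i, true)) b) := by
    unfold ED
    congr 1
    funext w
    rw [← MUa.avg_pi]
    exact avg_congr fun J => Real.exp_sum _ _
  refine (h2.trans_le h1).trans (mul_le_mul_of_nonneg_left ?_ (by positivity))
  have h3 := avg_equiv (MUa.ends E V)
    fun y => ∏ i, avg fun b : Bool => Real.exp (f i (φ (y i).1) (φ (y i).2) b)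
  refine (h3.trans (MUa.avg_pi fun i (p : V × V) =>
    avg fun b : Bool => Real.exp (f i (φ p.1) (φ p.2) b))).trans_le ?_
  rw [muA, Real.exp_sum]
  refine prod_le_prod (fun i _ => avg_nonneg fun _ => avg_nonneg fun _ => (Real.exp_pos _).le)
    fun i _ => le_trans (le_of_eq ?_) (Real.add_one_le_exp _)
  rw [avg_sub, avg_const, sub_add_cancel, avg_prod, avg_prod]
  exact avg_congr fun u => by rw [avg_prod]

end Pool.Agent.MP_32a90a_pr.D

end

section

set_option autoImplicit false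

namespace Pool.Agent.MP_32a90a_pr.D

open Finset Equiv Filter Topology Pool.Agent.MP_32a90a_pr Pool.Agent.MP_32a90a_pr.L

namespace MU

lemma lim (d k : ℕ) {δ ε : ℝ} (hδ : 0 < δ) (hε : 0 < ε) : ∀ᶠ N : ℕ in atTop,
    1 ≤ N ∧ (3 * ((d : ℝ) * N + 1)) ^ k * Real.exp (-(δ * N)) ≤ ε := by
  have h1 := ((tendsto_rpow_mul_exp_neg_mul_atTop_nhds_zero k δ hδ).comp
    tendsto_natCast_atTop_atTop).const_mul ((3 * ((d : ℝ) + 1)) ^ k)
  rw [mul_zero] at h1
  filter_upwards [h1.eventually (ge_mem_nhds hε), eventually_ge_atTop 1] with N hN h2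
  refine ⟨h2, le_trans ?_ hN⟩
  have h3 : (1 : ℝ) ≤ N := by exact_mod_cast h2
  simp only [Function.comp, Real.rpow_natCast, neg_mul]
  rw [← mul_assoc, ← mul_pow]
  exact mul_le_mul_of_nonneg_right (pow_le_pow_left₀ (by positivity) (by nlinarith) k)
    (Real.exp_pos _).le

lemma ind_le {α : Type} [Fintype α] (a b : α → ℝ) :
    ind (∃ x, a x < b x) ≤ ∑ x, Real.exp (-a x) * Real.exp (b x) := by
  by_cases h : ∃ x, a x < b x
  · rw [ind_pos h]
    obtain ⟨x, hx⟩ := h
    refine le_trans ?_ (single_le_sum (f := fun x => Real.exp (-a x) * Real.exp (b x))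
      (fun _ _ => by positivity) (mem_univ x))
    rw [← Real.exp_add]
    exact Real.one_le_exp (by linarith)
  · rw [ind_neg h]
    positivity

lemma prior {V T : Type} [Fintype V] [DecidableEq V] [Fintype T] (q0 : T → ℝ)
    (h : ∀ t, 0 < q0 t) (h1 : ∑ t, q0 t ≤ 1) : ∑ φ : V → T, Real.exp (-muP q0 φ) ≤ 1 := by
  have h2 : ∀ φ : V → T, Real.exp (-muP q0 φ) = ∏ v, q0 (φ v) := by
    intro φ
    rw [muP, ← sum_neg_distrib, Real.exp_sum]
    refine prod_congr rfl fun v _ => ?_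
    rw [one_div, Real.log_inv, neg_neg, Real.exp_log (h _)]
  simp only [h2]
  rw [← Fintype.piFinset_univ, ← prod_univ_sum fun _ : V => univ]
  exact prod_le_one (fun _ _ => sum_nonneg fun t _ => (h t).le) fun _ _ => h1

end MU

theorem stMU (h : StMUa) : StMU := by
  intro d T _ _ δ ε hδ hε
  refine (Big.card d _ (MU.lim d (Fintype.card T) hδ hε)).mono ?_
  rintro V E _ _ _ _ w0 hw ⟨h1, h2⟩ q0 f hq hq1
  have : Nonempty V := Fintype.card_pos_iff.1 h1
  have hc : (Fintype.card (E × Bool) : ℝ) = d * Fintype.card V := by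
    rw [← card_half hw, Fintype.card_prod, Fintype.card_bool]
    push_cast
    ring
  refine (ED_mono fun w J => MU.ind_le _ _).trans ?_
  rw [ED_sum]
  refine le_trans (sum_le_sum fun φ _ => ?_ : _ ≤ ∑ φ : V → T,
    (3 * ((d : ℝ) * Fintype.card V + 1)) ^ Fintype.card T * Real.exp (-(δ * Fintype.card V)) *
      Real.exp (-muP q0 φ)) ?_
  · rw [ED_mul]
    refine (mul_le_mul_of_nonneg_left (h V E T w0 d φ f hw) (Real.exp_pos _).le).trans_eq ?_
    rw [hc, mul_left_comm, mul_assoc, ← Real.exp_add, ← Real.exp_add]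
    congr 2
    ring
  · rw [← mul_sum]
    exact (mul_le_of_le_one_right (by positivity) (MU.prior q0 hq hq1)).trans h2

end Pool.Agent.MP_32a90a_pr.D

end

section

set_option autoImplicit false

namespace Pool.Agent.MP_32a90a_pr.D

open Finset Equiv Filter Pool.Agent.MP_32a90a_pr Pool.Agent.MP_32a90a_pr.L

namespace G1

lemma scale (a x : ℝ) (hx : x ≤ 2 * a) (K : ℕ) (hK : a / 2 ^ K ≤ x) :
    ∃ k ∈ range (K + 1), a / 2 ^ k ≤ x ∧ x ≤ 2 * (a / 2 ^ k) := by
  induction K with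
  | zero => exact ⟨0, by simp, hK, by simpa using hx⟩
  | succ K ih =>
    by_cases h : a / 2 ^ K ≤ x
    · obtain ⟨k, hk, h1⟩ := ih h
      exact ⟨k, mem_range.2 ((mem_range.1 hk).trans (Nat.lt_succ_self _)), h1⟩
    · refine ⟨K + 1, self_mem_range_succ _, hK, (not_le.1 h).le.trans (le_of_eq ?_)⟩
      rw [pow_succ]
      field_simp

lemma two_le_ell {d : ℕ} (hd : 8 ≤ d) : 2 ≤ ell d := by
  have h1 : (8 : ℝ) ≤ d := by exact_mod_cast hd
  have h2 := Real.log_le_log (by norm_num) h1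
  rw [show (8 : ℝ) = 2 ^ 3 by norm_num, Real.log_pow] at h2
  have h3 := Real.log_two_gt_d9
  unfold ell
  push_cast at h2
  linarith

/-- prior -/
def pq (b : ℝ) : Bool → ℝ := fun t => if t then b else 1 - b

/-- tilt -/
def pf (E : Type) (θ : ℝ) : E → Bool → Bool → Bool → ℝ := fun _ a a' _ => if a && a' then θ else 0

variable {V E : Type} [Fintype V] [DecidableEq V] [Fintype E] [DecidableEq E]

omit [Fintype V] [DecidableEq E] in
lemma muL_eq (θ : ℝ) (Z : Finset V) (w : E × Bool → V) (J : E → Bool) :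
    muL (pf E θ) (fun v => decide (v ∈ Z)) w J = θ * nIn w Z := by
  unfold muL nIn pf
  rw [card_filter, Nat.cast_sum, mul_sum]
  refine sum_congr rfl fun i _ => ?_
  by_cases h1 : w (i, false) ∈ Z <;> by_cases h2 : w (i, true) ∈ Z <;> simp [h1, h2]

omit [DecidableEq E] in
lemma muA_eq (θ : ℝ) (Z : Finset V) :
    muA (pf E θ) (fun v => decide (v ∈ Z)) =
      Fintype.card E * ((Real.exp θ - 1) * (Z.card / Fintype.card V) ^ 2) := by
  have h1 : avg (fun v : V => ind (v ∈ Z)) = Z.card / Fintype.card V := by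
    rw [avg, sum_ind]
    simp
  unfold muA
  rw [← nsmul_eq_mul, ← card_univ, ← sum_const]
  refine sum_congr rfl fun i _ => ?_
  have h2 : ∀ x : V × V × Bool, Real.exp (pf E θ i (decide (x.1 ∈ Z)) (decide (x.2.1 ∈ Z)) x.2.2) - 1
      = (Real.exp θ - 1) * (ind (x.1 ∈ Z) * ind (x.2.1 ∈ Z)) := by
    intro x
    by_cases h3 : x.1 ∈ Z <;> by_cases h4 : x.2.1 ∈ Z <;> simp [pf, ind, h3, h4]
  rw [avg_congr h2, avg_mul, avg_prod]
  simp only [avg_mul, avg_prod (α := V) (γ := Bool), avg_const, h1, avg_mul_right, sq]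

lemma muP_le {b : ℝ} (h0 : 0 < b) (h1 : b ≤ 1 / 2) (Z : Finset V) :
    muP (pq b) (fun v => decide (v ∈ Z)) ≤
      Z.card * Real.log (1 / b) + Fintype.card V * (2 * b) := by
  have h2 : Real.log (1 / (1 - b)) ≤ 2 * b := by
    refine (Real.log_le_sub_one_of_pos (by apply one_div_pos.2; linarith)).trans ?_
    rw [sub_le_iff_le_add, div_le_iff₀ (by linarith)]
    nlinarith
  have h3 : ∑ v : V, (ind (v ∈ Z) * Real.log (1 / b) + 2 * b) =
      Z.card * Real.log (1 / b) + Fintype.card V * (2 * b) := by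
    rw [sum_add_distrib, ← sum_mul, sum_ind]
    simp
  rw [← h3]
  refine sum_le_sum fun v _ => ?_
  by_cases h4 : v ∈ Z
  · simp only [pq, h4, decide_true, if_true, ind_pos trivial, one_mul]
    linarith
  · simp only [pq, h4, decide_false, Bool.false_eq_true, if_false, ind_neg not_false, zero_mul, zero_add]
    exact h2

lemma one_scale {d : ℕ} {z ε b : ℝ} (hd : 8 ≤ d) (hz : 0 < z) (hl : 18 * d * z ≤ ell d)
    (hε : 0 < ε) (hb : 0 < b) (hb' : b ≤ 3 * z) (hN : 1 ≤ Fintype.card V) {w : E × Bool → V}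
    (hw : Deg w d) (J : E → Bool) (Z : Finset V) (h1 : b * Fintype.card V ≤ Z.card)
    (h2 : (Z.card : ℝ) ≤ 2 * (b * Fintype.card V))
    (h : muL (pf E (Real.log (ell d / (d * b)))) (fun v => decide (v ∈ Z)) w J ≤
      muA (pf E (Real.log (ell d / (d * b)))) (fun v => decide (v ∈ Z)) +
        muP (pq b) (fun v => decide (v ∈ Z)) + ε * Fintype.card V) :
    (nIn w Z : ℝ) ≤ k0 d z * Z.card + ε * Fintype.card V := by
  have hd' : (8 : ℝ) ≤ d := by exact_mod_cast hd
  have hd0 : (0 : ℝ) < d := by linarith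
  have hN' : (0 : ℝ) < Fintype.card V := by exact_mod_cast hN
  have hl2 := two_le_ell hd
  have hld : ell d ≤ d := (Real.log_le_sub_one_of_pos hd0).trans (by linarith)
  have hz2 : b ≤ 1 / 2 := by nlinarith
  have hq : 0 < ell d / (d * b) := by positivity
  have ht0 : 1 ≤ Real.log (ell d / (6 * d * z)) := by
    rw [Real.le_log_iff_exp_le (by positivity), le_div_iff₀ (by positivity)]
    have := Real.exp_one_lt_d9
    nlinarith [mul_pos hd0 hz]
  have ht1 : Real.log (ell d / (6 * d * z)) ≤ Real.log (ell d / (d * b)) :=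
    Real.log_le_log (by positivity)
      (div_le_div_of_nonneg_left (by linarith) (by positivity) (by nlinarith))
  have hlb : Real.log (1 / b) ≤ Real.log (ell d / (d * b)) + ell d := by
    rw [Real.log_div (by positivity) (by positivity), Real.log_div (by positivity) (by positivity),
      Real.log_mul hd0.ne' hb.ne', Real.log_one]
    have h3 : 0 ≤ Real.log (ell d) := Real.log_nonneg (by linarith)
    have h4 : ell d = Real.log d := rfl
    linarith
  have hP := muP_le hb hz2 Z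
  have hZ : (0 : ℝ) ≤ Z.card := Nat.cast_nonneg _
  have hA : muA (pf E (Real.log (ell d / (d * b)))) (fun v => decide (v ∈ Z)) ≤
      ell d * Z.card := by
    have h3 : (Fintype.card E : ℝ) = d * Fintype.card V / 2 := by linarith [card_half hw]
    rw [muA_eq, Real.exp_log hq, h3]
    calc (d : ℝ) * Fintype.card V / 2 * ((ell d / (d * b) - 1) * (Z.card / Fintype.card V) ^ 2)
        ≤ d * Fintype.card V / 2 * (ell d / (d * b) * (Z.card / Fintype.card V) ^ 2) := by
          gcongr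
          linarith
      _ = ell d * Z.card * (Z.card / (2 * (b * Fintype.card V))) := by field_simp
      _ ≤ ell d * Z.card := mul_le_of_le_one_right (by positivity)
          ((div_le_one (by positivity)).2 h2)
  rw [muL_eq] at h
  unfold k0
  generalize Real.log (ell d / (d * b)) = θ at h ht1 hlb hA
  generalize Real.log (ell d / (6 * d * z)) = θ₀ at ht0 ht1
  obtain ⟨κ, hκ, hκ0⟩ : ∃ κ, κ = 3 * ell d / θ₀ ∧ κ * θ₀ = 3 * ell d :=
    ⟨_, rfl, div_mul_cancel₀ _ (by linarith)⟩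
  have hκ1 : 0 ≤ κ := by rw [hκ]; positivity
  rw [← hκ]
  refine le_of_mul_le_mul_left ?_ (show 0 < θ by linarith)
  have h5 := mul_le_mul_of_nonneg_left hlb hZ
  have h6 := mul_le_mul_of_nonneg_left hl2 hZ
  have h7 := mul_le_mul_of_nonneg_left (mul_le_mul_of_nonneg_left ht1 hκ1) hZ
  have h8 := mul_le_mul_of_nonneg_left (ht0.trans ht1) (mul_pos hε hN').le
  rw [hκ0] at h7
  nlinarith

end G1

open G1 in
theorem stG1 (h : StMU) : StG1 := by
  intro d z ε ε' hd hz hl hε hε'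
  have hd0 : (0 : ℝ) < d := by exact_mod_cast (show 0 < d by omega)
  obtain ⟨K, hK⟩ : ∃ K : ℕ, 3 * z / 2 ^ K ≤ ε / d := by
    obtain ⟨K, hK⟩ := pow_unbounded_of_one_lt (3 * z / (ε / d)) (one_lt_two (α := ℝ))
    refine ⟨K, ?_⟩
    rw [div_lt_iff₀ (by positivity)] at hK
    rw [div_le_iff₀ (by positivity)]
    linarith
  have hK1 : (0 : ℝ) < (K : ℝ) + 1 := by positivity
  refine ((h d Bool ε (ε' / (K + 1)) hε (by positivity)).and
    (Big.card d (fun N => 1 ≤ N) (eventually_ge_atTop 1))).mono ?_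
  rintro V E _ _ _ _ w0 hw0 ⟨hMU, hN⟩
  have hl2 := two_le_ell hd
  have hld : ell d ≤ d := (Real.log_le_sub_one_of_pos hd0).trans (by linarith)
  have hb : ∀ k : ℕ, 0 < 3 * z / 2 ^ k ∧ 3 * z / 2 ^ k ≤ 3 * z := fun k =>
    ⟨by positivity, div_le_self (by positivity) (one_le_pow₀ one_le_two)⟩
  have h1 : PD w0 (fun w _ => ¬ G1 (V := V) d z ε w) ≤ ∑ k ∈ range (K + 1),
      PD w0 fun w J => ∃ φ : V → Bool,
        muA (pf E (Real.log (ell d / (d * (3 * z / 2 ^ k))))) φ + muP (pq (3 * z / 2 ^ k)) φ +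
          ε * Fintype.card V < muL (pf E (Real.log (ell d / (d * (3 * z / 2 ^ k))))) φ w J := by
    unfold PD
    rw [← ED_sum]
    refine ED_mono_deg hw0 fun w J hw => ?_
    by_cases hG : G1 (V := V) d z ε w
    · rw [ind_neg (not_not.2 hG)]
      exact sum_nonneg fun k _ => ind_nonneg _
    · obtain ⟨Z, hZ⟩ := not_forall.1 hG
      obtain ⟨hZ1, hZ2⟩ := Classical.not_imp.1 hZ
      have hN' : (0 : ℝ) < Fintype.card V := by exact_mod_cast hN
      have hk0 : 0 ≤ k0 d z := by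
        have : 0 ≤ Real.log (ell d / (6 * d * z)) :=
          Real.log_nonneg ((one_le_div (by positivity)).2 (by nlinarith [mul_pos hd0 hz]))
        unfold k0
        positivity
      have h2 : (nIn w Z : ℝ) ≤ d * Z.card := by
        have h3 : nIn w Z ≤ (univ.filter fun p => w p ∈ Z).card :=
          card_le_card_of_injOn (fun i => (i, false))
            (fun i hi => by simpa using (mem_filter.1 (mem_coe.1 hi)).2.1)
            fun i _ j _ hij => congrArg Prod.fst hij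
        exact_mod_cast h3.trans (hw.card_pre Z)
      have h3 : 3 * z / 2 ^ K ≤ Z.card / Fintype.card V := by
        refine hK.trans ?_
        rw [div_le_div_iff₀ hd0 hN']
        have h4 := mul_nonneg hk0 (Nat.cast_nonneg Z.card)
        linarith [not_le.1 hZ2]
      obtain ⟨k, hk, h4, h5⟩ := scale (3 * z) _ ((div_le_iff₀ hN').2 (by linarith)) K h3
      refine (ind_le_one _).trans (le_trans (le_of_eq (ind_pos ?_).symm)
        (single_le_sum (fun k _ => ind_nonneg _) hk))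
      refine ⟨fun v => decide (v ∈ Z), not_le.1 fun h6 => hZ2 ?_⟩
      exact one_scale hd hz hl hε (hb k).1 (hb k).2 hN hw J Z ((le_div_iff₀ hN').1 h4)
        (by rw [← mul_assoc]; exact (div_le_iff₀ hN').1 h5) h6
  refine h1.trans ((sum_le_card_nsmul _ _ (ε' / (K + 1)) fun k _ => hMU _ _ ?_ ?_).trans ?_)
  · have h2 : 3 * z ≤ 1 / 2 := by nlinarith
    intro t
    cases t
    · simp only [pq, Bool.false_eq_true, if_false]
      linarith [(hb k).2]
    · simpa only [pq, if_true] using (hb k).1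
  · simp [pq]
  · rw [card_range, nsmul_eq_mul]
    push_cast
    rw [mul_div_cancel₀ _ hK1.ne']

end Pool.Agent.MP_32a90a_pr.D

end

section

set_option autoImplicit false

namespace Pool.Agent.MP_32a90a_pr.D

open Finset Equiv Filter Pool.Agent.MP_32a90a_pr Pool.Agent.MP_32a90a_pr.L

namespace G2p

lemma hyp {t : ℝ} (h0 : 0 ≤ t) (h1 : t ≤ 1) :
    Real.cosh (2 * t) - 1 ≤ 3 * t ^ 2 ∧ 0 ≤ Real.sinh (2 * t) ∧ Real.sinh (2 * t) ≤ 4 * t := by
  have a := Real.exp_bound (x := t) (by rw [abs_of_nonneg h0]; exact h1) (n := 4) (by norm_num)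
  have b := Real.exp_bound (x := -t) (by rw [abs_neg, abs_of_nonneg h0]; exact h1) (n := 4)
    (by norm_num)
  rw [abs_neg] at b
  rw [abs_of_nonneg h0, abs_le] at a b
  simp only [sum_range_succ, sum_range_zero, Nat.factorial] at a b
  norm_num at a b
  have p2 : t ^ 2 ≤ t := by nlinarith
  have p3 : t ^ 3 ≤ t ^ 2 := by nlinarith [sq_nonneg t]
  have p4 : t ^ 4 ≤ t ^ 3 := by nlinarith [pow_nonneg h0 3]
  have e3 : (-t) ^ 3 = - t ^ 3 := by ring
  rw [e3] at b
  have hs : Real.sinh t ≤ 122 / 100 * t := by rw [Real.sinh_eq]; linarith [a.2, b.1]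
  have hc : Real.cosh t ≤ 16 / 10 := by rw [Real.cosh_eq]; linarith [a.2, b.2]
  have hs0 : 0 ≤ Real.sinh t := Real.sinh_nonneg_iff.2 h0
  have hc0 := Real.cosh_pos t
  rw [Real.cosh_two_mul, Real.sinh_two_mul, Real.cosh_sq]
  refine ⟨by nlinarith, by positivity, ?_⟩
  have := mul_le_mul hs hc hc0.le (by positivity)
  linarith

lemma exp_tri (c y : ℝ) (hy : y = 0 ∨ y = 1 ∨ y = -1) :
    Real.exp (c * y) - 1 = (Real.cosh c - 1) * y ^ 2 + Real.sinh c * y := by
  rcases hy with rfl | rfl | rfl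
  · simp
  · rw [mul_one, ← Real.cosh_add_sinh]; ring
  · rw [mul_neg, mul_one, ← Real.cosh_sub_sinh]; ring

lemma slot {E : Type} [DecidableEq E] (U A : Finset E) (i : E) {θ η : ℝ} (h0 : 0 ≤ θ)
    (h1 : θ ≤ 1) (hη : η = 1 ∨ η = -1) :
    ∃ α κ : ℝ, α ≤ 3 * θ ^ 2 ∧ κ ≤ (if i ∈ A then 2 * (1 - η) * θ else 0) ∧
      ∀ y : ℝ, (y = 0 ∨ y = 1 ∨ y = -1) →
        avg (fun j : Bool => Real.exp (2 * η * θ * cp U A ∅ (fun _ => j) i * y) - 1) =
          α * y ^ 2 + κ * y := by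
  obtain ⟨a, b, c⟩ := hyp h0 h1
  have hc : Real.cosh (2 * η * θ) = Real.cosh (2 * θ) := by
    rcases hη with rfl | rfl <;> simp
  by_cases hU : i ∈ U
  · refine ⟨0, 0, by positivity, ?_, fun y _ => by simp [cp, hU, avg]⟩
    split_ifs
    · rcases hη with rfl | rfl <;> linarith
    · exact le_rfl
  by_cases hA : i ∈ A
  · refine ⟨Real.cosh (2 * θ) - 1, - Real.sinh (2 * η * θ), a, ?_, fun y hy => ?_⟩
    · rw [if_pos hA]
      rcases hη with rfl | rfl
      · rw [mul_one]; linarith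
      · rw [show 2 * (-1) * θ = -(2 * θ) by ring, Real.sinh_neg]; linarith
    · simp only [cp, if_neg hU, if_pos hA, avg_const]
      rw [exp_tri _ y hy, mul_neg, mul_one, Real.cosh_neg, Real.sinh_neg, hc]
  · refine ⟨Real.cosh (2 * θ) - 1, 0, a, by rw [if_neg hA], fun y hy => ?_⟩
    simp only [cp, if_neg hU, if_neg hA, notMem_empty, if_false, avg_bool, exp_tri _ y hy, sgn,
      if_true, Bool.false_eq_true, mul_one, mul_neg, Real.cosh_neg, Real.sinh_neg, hc]
    ring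

/-- the spin carried by a label -/
def vl (t : Option Bool) : ℝ := t.elim 0 sgn

variable {V E : Type} [Fintype V] [DecidableEq V] [Fintype E] [DecidableEq E]

/-- the labelling of a set with spins -/
def lab (σ : V → Bool) (X : Finset V) (v : V) : Option Bool := if v ∈ X then some (σ v) else none

omit [Fintype V] in
lemma vl_lab (σ : V → Bool) (X : Finset V) (v : V) :
    vl (lab σ X v) = if v ∈ X then sgn (σ v) else 0 := by
  unfold lab; split_ifs <;> rfl

lemma vl_tri (t t' : Option Bool) : vl t * vl t' = 0 ∨ vl t * vl t' = 1 ∨ vl t * vl t' = -1 := by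
  rcases t with _ | _ | _ <;> rcases t' with _ | _ | _ <;> simp [vl, sgn]

omit [DecidableEq V] in
lemma avg2 (g : V → ℝ) :
    avg (fun u => avg fun v => g u * g v) = (∑ v, g v) ^ 2 / (Fintype.card V : ℝ) ^ 2 := by
  simp only [avg_mul, avg_mul_right]
  rw [avg, ← div_pow, sq]

lemma sum1 (σ : V → Bool) (X : Finset V) : ∑ v, vl (lab σ X v) = mg σ X := by
  simp only [vl_lab, sum_ite_mem, univ_inter, mg]

lemma sum2 (σ : V → Bool) (X : Finset V) : ∑ v, vl (lab σ X v) ^ 2 = X.card := by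
  have : ∀ v, vl (lab σ X v) ^ 2 = if v ∈ X then 1 else 0 := fun v => by
    rw [vl_lab]
    split_ifs
    · rcases sgn_cases (σ v) with h | h <;> simp [h]
    · simp
  simp [this]

omit [Fintype V] [DecidableEq E] in
lemma eS_eq (s : E → ℝ) (w : E × Bool → V) (σ : V → Bool) (X : Finset V) :
    eS s w σ X X = ∑ i, 2 * s i * (vl (lab σ X (w (i, false))) * vl (lab σ X (w (i, true)))) := by
  rw [eS, sum_filter, Fintype.sum_prod_type]
  refine sum_congr rfl fun i _ => ?_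
  simp only [Fintype.sum_bool, pt, vl_lab, Bool.not_true, Bool.not_false, sl, Y1]
  by_cases h1 : w (i, false) ∈ X <;> by_cases h2 : w (i, true) ∈ X <;> simp [h1, h2]
  ring

lemma muA_le (U A : Finset E) {θ η : ℝ} (h0 : 0 ≤ θ) (h1 : θ ≤ 1) (hη : η = 1 ∨ η = -1)
    (σ : V → Bool) (X : Finset V) :
    muA (fun i t t' j => 2 * η * θ * cp U A ∅ (fun _ => j) i * (vl t * vl t')) (lab σ X) ≤
      Fintype.card E * (3 * θ ^ 2 * ((X.card : ℝ) ^ 2 / (Fintype.card V : ℝ) ^ 2)) +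
        A.card * (2 * (1 - η) * θ * (mg σ X ^ 2 / (Fintype.card V : ℝ) ^ 2)) := by
  have e : (A.card : ℝ) * (2 * (1 - η) * θ * (mg σ X ^ 2 / (Fintype.card V : ℝ) ^ 2)) =
      ∑ i, (if i ∈ A then 2 * (1 - η) * θ else 0) *
        (mg σ X ^ 2 / (Fintype.card V : ℝ) ^ 2) := by
    rw [← sum_mul, sum_ite_mem, univ_inter, sum_const, nsmul_eq_mul]
    ring
  rw [e, ← nsmul_eq_mul, ← card_univ, ← sum_const, ← sum_add_distrib]
  refine sum_le_sum fun i _ => ?_
  obtain ⟨α, κ, a, b, c⟩ := slot U A i h0 h1 hη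
  rw [avg_prod]
  simp only [avg_prod, c _ (vl_tri _ _), mul_pow]
  simp only [avg_add, avg_mul α, avg_mul κ]
  rw [avg2 (fun v => vl (lab σ X v) ^ 2), avg2 (fun v => vl (lab σ X v)), sum1, sum2]
  exact add_le_add (mul_le_mul_of_nonneg_right a (by positivity))
    (mul_le_mul_of_nonneg_right b (by positivity))

lemma muP_le {d : ℕ} (hd : 3 ≤ d) (σ : V → Bool) (X : Finset V) :
    muP (fun t : Option Bool => t.elim (1 - 1 / (d : ℝ) ^ 2) fun _ => 1 / (d : ℝ) ^ 2 / 2)
      (lab σ X) ≤ X.card * (2 * ell d + 2) + Fintype.card V * (2 / (d : ℝ) ^ 2) := by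
  have hd' : (3 : ℝ) ≤ d := by exact_mod_cast hd
  have hd2 : (9 : ℝ) ≤ (d : ℝ) ^ 2 := by nlinarith
  have e : (X.card : ℝ) * (2 * ell d + 2) = ∑ v, if v ∈ X then 2 * ell d + 2 else 0 := by
    rw [sum_ite_mem, univ_inter, sum_const, nsmul_eq_mul]
  rw [e, ← nsmul_eq_mul, ← card_univ, ← sum_const, ← sum_add_distrib]
  refine sum_le_sum fun v _ => ?_
  unfold lab
  split_ifs <;> beta_reduce
  · have h1 : (1 : ℝ) / (1 / (d : ℝ) ^ 2 / 2) = 2 * (d : ℝ) ^ 2 := by field_simp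
    rw [Option.elim_some, h1, Real.log_mul two_ne_zero (by positivity), Real.log_pow, ell]
    have h2 := Real.log_le_sub_one_of_pos (x := 2) two_pos
    have h3 : 0 ≤ 2 / (d : ℝ) ^ 2 := by positivity
    push_cast
    linarith
  · have hb : 1 / (d : ℝ) ^ 2 ≤ 1 / 9 := one_div_le_one_div_of_le (by norm_num) hd2
    have hb0 : 0 < 1 / (d : ℝ) ^ 2 := by positivity
    rw [Option.elim_none, zero_add, show 2 / (d : ℝ) ^ 2 = 2 * (1 / (d : ℝ) ^ 2) by ring]
    generalize 1 / (d : ℝ) ^ 2 = b at hb hb0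
    have h1 : 0 < 1 - b := by linarith
    refine (Real.log_le_sub_one_of_pos (by positivity)).trans ?_
    rw [sub_le_iff_le_add, div_le_iff₀ h1]
    nlinarith

end G2p

theorem stG2p (h : StMU) : StG2p := by
  intro d θ η ε hd h0 h1 hη hε
  have hd' : (3 : ℝ) ≤ d := by exact_mod_cast hd
  have hd2 : (9 : ℝ) ≤ (d : ℝ) ^ 2 := by nlinarith
  have hb : 1 / (d : ℝ) ^ 2 ≤ 1 / 9 := one_div_le_one_div_of_le (by norm_num) hd2
  have hb0 : 0 < 1 / (d : ℝ) ^ 2 := by positivity
  refine ((h d (Option Bool) _ ε hb0 hε).and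
    (Big.card d (fun N => 1 ≤ N) (eventually_ge_atTop 1))).mono ?_
  intro V E _ _ _ _ w0 hw ⟨hP, hN⟩ U A
  refine le_trans (PD_mono fun w J hn => ?_) (hP
    (fun t : Option Bool => t.elim (1 - 1 / (d : ℝ) ^ 2) fun _ => 1 / (d : ℝ) ^ 2 / 2)
    (fun i t t' j => 2 * η * θ * cp U A ∅ (fun _ => j) i * (G2p.vl t * G2p.vl t')) ?_ ?_)
  · unfold G2p at hn
    push Not at hn
    obtain ⟨σ, X, hn⟩ := hn
    refine ⟨G2p.lab σ X, ?_⟩
    have a := G2p.muA_le U A h0.le h1 hη σ X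
    have b := G2p.muP_le hd σ X
    have c : muL (fun i t t' j => 2 * η * θ * cp U A ∅ (fun _ => j) i * (G2p.vl t * G2p.vl t'))
        (G2p.lab σ X) w J = η * θ * eS (cp U A ∅ J) w σ X X := by
      rw [G2p.eS_eq, mul_sum, muL]
      refine sum_congr rfl fun i _ => ?_
      have : cp U A ∅ (fun _ => J i) i = cp U A ∅ J i := rfl
      rw [this]
      ring
    have hN' : (0 : ℝ) < Fintype.card V := by exact_mod_cast hN
    have hE : (Fintype.card E : ℝ) = d * Fintype.card V / 2 := by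
      rw [← card_half hw]; ring
    rw [c]
    refine lt_of_le_of_lt ((add_le_add (add_le_add a b) le_rfl).trans_eq ?_) hn
    rw [hE]
    field_simp
    ring
  · rintro (_ | t)
    · rw [Option.elim_none]; linarith
    · rw [Option.elim_some]; positivity
  · rw [Fintype.sum_option, Fintype.sum_bool]
    simp only [Option.elim_none, Option.elim_some]
    linarith

end Pool.Agent.MP_32a90a_pr.D

end

section

set_option autoImplicit false

namespace Pool.Agent.MP_32a90a_pr.D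

open Finset Equiv Filter Pool.Agent.MP_32a90a_pr Pool.Agent.MP_32a90a_pr.L

namespace G2d

lemma slot {E : Type} [DecidableEq E] (U A : Finset E) (i : E) {θ : ℝ} (h0 : 0 ≤ θ)
    (h1 : θ ≤ 1) :
    ∃ α κ : ℝ, α ≤ 3 / 4 * θ ^ 2 ∧ |κ| ≤ (if i ∈ A then 2 * θ else 0) ∧
      ∀ y : ℝ, (y = 0 ∨ y = 1 ∨ y = -1) →
        avg (fun j : Bool => Real.exp (-θ * cp U A ∅ (fun _ => j) i * y) - 1) =
          α * y ^ 2 + κ * y := by
  obtain ⟨a, b, c⟩ := G2p.hyp (t := θ / 2) (by linarith) (by linarith)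
  rw [show 2 * (θ / 2) = θ by ring] at a b c
  have a' : Real.cosh θ - 1 ≤ 3 / 4 * θ ^ 2 := by linarith
  by_cases hU : i ∈ U
  · refine ⟨0, 0, by positivity, ?_, fun y _ => by simp [cp, hU, avg]⟩
    rw [abs_zero]
    split_ifs
    · linarith
    · exact le_rfl
  by_cases hA : i ∈ A
  · refine ⟨Real.cosh θ - 1, Real.sinh θ, a', ?_, fun y hy => ?_⟩
    · rw [if_pos hA, abs_of_nonneg b]
      linarith
    · simp only [cp, if_neg hU, if_pos hA, avg_const]
      rw [G2p.exp_tri _ y hy, mul_neg, mul_one, neg_neg]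
  · refine ⟨Real.cosh θ - 1, 0, a', by rw [if_neg hA, abs_zero], fun y hy => ?_⟩
    simp only [cp, if_neg hU, if_neg hA, notMem_empty, if_false, avg_bool, G2p.exp_tri _ y hy, sgn,
      if_true, Bool.false_eq_true, mul_one, mul_neg, neg_neg, Real.cosh_neg, Real.sinh_neg]
    ring

/-- the spin carried by a label of colour c -/
def vl (c : Bool) (t : Option (Bool × Bool)) : ℝ :=
  t.elim 0 fun p => if p.1 = c then sgn p.2 else 0

/-- the product of the spins of two labels of different colours -/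
def yy (t t' : Option (Bool × Bool)) : ℝ := vl true t * vl false t' + vl false t * vl true t'

lemma yy_tri (t t' : Option (Bool × Bool)) : yy t t' = 0 ∨ yy t t' = 1 ∨ yy t t' = -1 := by
  rcases t with _ | ⟨_ | _, _ | _⟩ <;> rcases t' with _ | ⟨_ | _, _ | _⟩ <;> simp [yy, vl, sgn]

lemma yy_sq (t t' : Option (Bool × Bool)) :
    yy t t' ^ 2 = vl true t ^ 2 * vl false t' ^ 2 + vl false t ^ 2 * vl true t' ^ 2 := by
  rcases t with _ | ⟨_ | _, _ | _⟩ <;> rcases t' with _ | ⟨_ | _, _ | _⟩ <;> simp [yy, vl, sgn]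

variable {V E : Type} [Fintype V] [DecidableEq V] [Fintype E] [DecidableEq E]

/-- the labelling of two sets with spins -/
def lab (σ : V → Bool) (X Y : Finset V) (v : V) : Option (Bool × Bool) :=
  if v ∈ X then some (true, σ v) else if v ∈ Y then some (false, σ v) else none

omit [Fintype V] in
lemma vl_X (σ : V → Bool) (X Y : Finset V) (v : V) :
    vl true (lab σ X Y v) = if v ∈ X then sgn (σ v) else 0 := by
  unfold lab; split_ifs <;> simp [vl]

omit [Fintype V] in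
lemma vl_Y (σ : V → Bool) {X Y : Finset V} (h : Disjoint X Y) (v : V) :
    vl false (lab σ X Y v) = if v ∈ Y then sgn (σ v) else 0 := by
  unfold lab
  by_cases h1 : v ∈ X
  · simp [vl, h1, disjoint_left.1 h h1]
  · by_cases h2 : v ∈ Y <;> simp [vl, h1, h2]

omit [DecidableEq V] in
lemma avg2 (g g' : V → ℝ) : avg (fun u => avg fun v => g u * g' v + g' u * g v) =
    2 * ((∑ v, g v) * ∑ v, g' v) / (Fintype.card V : ℝ) ^ 2 := by
  simp only [avg_add, avg_mul, avg_mul_right]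
  simp only [avg]
  ring

lemma sum1 (σ : V → Bool) (X : Finset V) : ∑ v, (if v ∈ X then sgn (σ v) else 0) = mg σ X := by
  simp only [sum_ite_mem, univ_inter, mg]

lemma sum2 (σ : V → Bool) (X : Finset V) :
    ∑ v, (if v ∈ X then sgn (σ v) else 0) ^ 2 = X.card := by
  have : ∀ v, (if v ∈ X then sgn (σ v) else 0) ^ 2 = if v ∈ X then 1 else 0 := fun v => by
    split_ifs
    · rcases sgn_cases (σ v) with h | h <;> simp [h]
    · simp
  simp only [this]
  simp

omit [Fintype V] [DecidableEq E] in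
lemma eS_eq (s : E → ℝ) (w : E × Bool → V) (σ : V → Bool) {X Y : Finset V} (h : Disjoint X Y) :
    eS s w σ X Y = ∑ i, s i * yy (lab σ X Y (w (i, false))) (lab σ X Y (w (i, true))) := by
  rw [eS, sum_filter, Fintype.sum_prod_type]
  refine sum_congr rfl fun i _ => ?_
  simp only [Fintype.sum_bool, pt, yy, vl_X, vl_Y σ h, Bool.not_true, Bool.not_false, sl, Y1]
  by_cases h1 : w (i, false) ∈ X <;> by_cases h2 : w (i, true) ∈ X <;>
    by_cases h3 : w (i, false) ∈ Y <;> by_cases h4 : w (i, true) ∈ Y <;> simp [h1, h2, h3, h4]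
  ring

lemma muA_le (U A : Finset E) {θ : ℝ} (h0 : 0 ≤ θ) (h1 : θ ≤ 1) (σ : V → Bool) {X Y : Finset V}
    (h : Disjoint X Y) :
    muA (fun i t t' j => -θ * cp U A ∅ (fun _ => j) i * yy t t') (lab σ X Y) ≤
      Fintype.card E * (3 / 4 * θ ^ 2 * (2 * ((X.card : ℝ) * Y.card) / (Fintype.card V : ℝ) ^ 2)) +
        A.card * (2 * θ * (2 * (|mg σ X| * |mg σ Y|) / (Fintype.card V : ℝ) ^ 2)) := by
  have e : (A.card : ℝ) * (2 * θ * (2 * (|mg σ X| * |mg σ Y|) / (Fintype.card V : ℝ) ^ 2)) =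
      ∑ i, (if i ∈ A then 2 * θ else 0) *
        (2 * (|mg σ X| * |mg σ Y|) / (Fintype.card V : ℝ) ^ 2) := by
    rw [← sum_mul, sum_ite_mem, univ_inter, sum_const, nsmul_eq_mul]
    ring
  rw [e, ← nsmul_eq_mul, ← card_univ, ← sum_const, ← sum_add_distrib]
  refine sum_le_sum fun i _ => ?_
  obtain ⟨α, κ, a, b, c⟩ := slot U A i h0 h1
  rw [avg_prod]
  simp only [avg_prod, c _ (yy_tri _ _), yy_sq]
  simp only [avg_add _ (fun _ => κ * _), avg_mul α, avg_mul κ, avg_add _ (fun _ => κ * _), yy]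
  rw [avg2 (fun v => vl true (lab σ X Y v) ^ 2) (fun v => vl false (lab σ X Y v) ^ 2),
    avg2 (fun v => vl true (lab σ X Y v)) (fun v => vl false (lab σ X Y v))]
  simp only [vl_X, vl_Y σ h, sum1, sum2]
  refine add_le_add (mul_le_mul_of_nonneg_right a (by positivity)) ((le_abs_self _).trans ?_)
  rw [abs_mul, abs_div, abs_mul, abs_mul, abs_two, abs_sq]
  exact mul_le_mul_of_nonneg_right b (by positivity)

lemma muP_le {d : ℕ} (hd : 3 ≤ d) (σ : V → Bool) (X Y : Finset V) :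
    muP (fun t : Option (Bool × Bool) =>
      t.elim (1 - 1 / (d : ℝ) ^ 2) fun _ => 1 / (d : ℝ) ^ 2 / 4) (lab σ X Y) ≤
      (X.card + Y.card) * (2 * ell d + 2) + Fintype.card V * (2 / (d : ℝ) ^ 2) := by
  have hd' : (3 : ℝ) ≤ d := by exact_mod_cast hd
  have hd2 : (9 : ℝ) ≤ (d : ℝ) ^ 2 := by nlinarith
  have hl : 0 ≤ ell d := Real.log_nonneg (by linarith)
  have e : ∀ Z : Finset V, (Z.card : ℝ) * (2 * ell d + 2) =
      ∑ v, if v ∈ Z then 2 * ell d + 2 else 0 := fun Z => by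
    rw [sum_ite_mem, univ_inter, sum_const, nsmul_eq_mul]
  have h3 : 0 ≤ 2 / (d : ℝ) ^ 2 := by positivity
  have h4 : Real.log (1 / (1 / (d : ℝ) ^ 2 / 4)) ≤ 2 * ell d + 2 := by
    have h1 : (1 : ℝ) / (1 / (d : ℝ) ^ 2 / 4) = (2 * d) ^ 2 := by field_simp; norm_num
    rw [h1, Real.log_pow, Real.log_mul two_ne_zero (by positivity), ell]
    have h2 := Real.log_le_sub_one_of_pos (x := 2) two_pos
    push_cast
    linarith
  rw [add_mul, e, e, ← nsmul_eq_mul, ← card_univ, ← sum_const, ← sum_add_distrib,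
    ← sum_add_distrib]
  refine sum_le_sum fun v _ => ?_
  unfold lab
  split_ifs <;> beta_reduce
  · rw [Option.elim_some]; linarith
  · rw [Option.elim_some]; linarith
  · rw [Option.elim_some]; linarith
  · have hb : 1 / (d : ℝ) ^ 2 ≤ 1 / 9 := one_div_le_one_div_of_le (by norm_num) hd2
    have hb0 : 0 < 1 / (d : ℝ) ^ 2 := by positivity
    rw [Option.elim_none, zero_add, zero_add, show 2 / (d : ℝ) ^ 2 = 2 * (1 / (d : ℝ) ^ 2) by ring]
    generalize 1 / (d : ℝ) ^ 2 = b at hb hb0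
    have h1 : 0 < 1 - b := by linarith
    refine (Real.log_le_sub_one_of_pos (by positivity)).trans ?_
    rw [sub_le_iff_le_add, div_le_iff₀ h1]
    nlinarith

end G2d

theorem stG2d (h : StMU) : StG2d := by
  intro d θ ε hd h0 h1 hε
  have hd' : (3 : ℝ) ≤ d := by exact_mod_cast hd
  have hd2 : (9 : ℝ) ≤ (d : ℝ) ^ 2 := by nlinarith
  have hb : 1 / (d : ℝ) ^ 2 ≤ 1 / 9 := one_div_le_one_div_of_le (by norm_num) hd2
  have hb0 : 0 < 1 / (d : ℝ) ^ 2 := by positivity
  refine ((h d (Option (Bool × Bool)) _ ε hb0 hε).and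
    (Big.card d (fun N => 1 ≤ N) (eventually_ge_atTop 1))).mono ?_
  intro V E _ _ _ _ w0 hw ⟨hP, hN⟩ U A
  refine le_trans (PD_mono fun w J hn => ?_) (hP
    (fun t : Option (Bool × Bool) => t.elim (1 - 1 / (d : ℝ) ^ 2) fun _ => 1 / (d : ℝ) ^ 2 / 4)
    (fun i t t' j => -θ * cp U A ∅ (fun _ => j) i * G2d.yy t t') ?_ ?_)
  · unfold G2d at hn
    push Not at hn
    obtain ⟨σ, X, Y, hXY, hn⟩ := hn
    refine ⟨G2d.lab σ X Y, ?_⟩
    have a := G2d.muA_le U A h0.le h1 σ hXY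
    have b := G2d.muP_le hd σ X Y
    have c : muL (fun i t t' j => -θ * cp U A ∅ (fun _ => j) i * G2d.yy t t')
        (G2d.lab σ X Y) w J = -(θ * eS (cp U A ∅ J) w σ X Y) := by
      rw [G2d.eS_eq _ _ _ hXY, ← neg_mul, mul_sum, muL]
      refine sum_congr rfl fun i _ => ?_
      have : cp U A ∅ (fun _ => J i) i = cp U A ∅ J i := rfl
      rw [this]
      ring
    have hN' : (0 : ℝ) < Fintype.card V := by exact_mod_cast hN
    have hE : (Fintype.card E : ℝ) = d * Fintype.card V / 2 := by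
      rw [← card_half hw]; ring
    rw [c]
    refine lt_of_le_of_lt ((add_le_add (add_le_add a b) le_rfl).trans ?_) hn
    rw [hE]
    have e1 : (d : ℝ) * Fintype.card V / 2 *
        (3 / 4 * θ ^ 2 * (2 * ((X.card : ℝ) * Y.card) / (Fintype.card V : ℝ) ^ 2)) =
        (3 / 2 * d * θ ^ 2 * X.card * Y.card / Fintype.card V) / 2 := by field_simp; ring
    have e2 : 0 ≤ 3 / 2 * d * θ ^ 2 * X.card * Y.card / (Fintype.card V : ℝ) := by positivity
    have e3 : (A.card : ℝ) * (2 * θ * (2 * (|mg σ X| * |mg σ Y|) / (Fintype.card V : ℝ) ^ 2)) =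
        4 * θ * A.card * |mg σ X| * |mg σ Y| / (Fintype.card V : ℝ) ^ 2 := by ring
    have e4 : (Fintype.card V : ℝ) * (2 / (d : ℝ) ^ 2) + 1 / (d : ℝ) ^ 2 * Fintype.card V =
        3 * Fintype.card V / (d : ℝ) ^ 2 := by ring
    linarith
  · rintro (_ | t)
    · rw [Option.elim_none]; linarith
    · rw [Option.elim_some]; positivity
  · rw [Fintype.sum_option]
    simp only [Option.elim_none, Option.elim_some, sum_const, card_univ, Fintype.card_prod,
      Fintype.card_bool, nsmul_eq_mul]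
    push_cast
    linarith

end Pool.Agent.MP_32a90a_pr.D

end

section

set_option autoImplicit false

namespace Pool.Agent.MP_32a90a_pr.D

open Finset Equiv Filter Pool.Agent.MP_32a90a_pr Pool.Agent.MP_32a90a_pr.L

namespace G2

lemma tilt {t θ e a b c c' : ℝ} (ht : 0 < t) (h1 : t ≤ θ) (h2 : θ ≤ 2 * t) (ha : 0 ≤ a)
    (hc' : 0 ≤ c') (hc : c ≤ c') (h : t * e ≤ 3 / 2 * t ^ 2 * a + t * b + c) :
    e ≤ 3 * θ * a + b + 2 / θ * c' := by
  have hθ : 0 < θ := ht.trans_le h1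
  have h3 : 1 ≤ t * (2 / θ) := by
    rw [← mul_div_assoc, one_le_div hθ]; linarith
  have h4 := mul_le_mul_of_nonneg_right h3 hc'
  have h5 : 0 ≤ t * a := mul_nonneg ht.le ha
  have h6 := mul_le_mul_of_nonneg_right h1 h5
  have h7 := mul_nonneg hθ.le h5
  refine le_of_mul_le_mul_left ?_ ht
  nlinarith

lemma dyadic {d : ℕ} {θ : ℝ} (h1 : 1 / 2 ^ d ≤ θ) (h2 : θ ≤ 1) :
    ∃ k ∈ range (d + 1), (1 : ℝ) / 2 ^ k ≤ θ ∧ θ ≤ 2 * (1 / 2 ^ k) := by
  have hex : ∃ k : ℕ, (1 : ℝ) / 2 ^ k ≤ θ := ⟨d, h1⟩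
  refine ⟨Nat.find hex, mem_range.2 (Nat.lt_succ_of_le (Nat.find_min' hex h1)),
    Nat.find_spec hex, ?_⟩
  rcases h : Nat.find hex with _ | k
  · norm_num; linarith
  · have h3 := Nat.find_min hex (m := k) (by omega)
    rw [not_le] at h3
    refine h3.le.trans_eq ?_
    rw [pow_succ]; field_simp

variable {V E : Type} [Fintype V] [DecidableEq V] [Fintype E] [DecidableEq E]

omit [Fintype V] [DecidableEq V] in
lemma PD_ex {w0 : E × Bool → V} {ι : Type} (T : Finset ι)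
    (P : ι → (E × Bool → V) → (E → Bool) → Prop) :
    PD w0 (fun w J => ∃ i ∈ T, P i w J) ≤ ∑ i ∈ T, PD w0 (P i) := by
  unfold PD
  rw [← ED_sum]
  refine ED_mono fun w J => ?_
  by_cases h : ∃ i ∈ T, P i w J
  · rw [ind_pos h]
    obtain ⟨i, hi, h⟩ := h
    exact (ind_pos h).ge.trans
      (single_le_sum (f := fun i => ind (P i w J)) (fun _ _ => ind_nonneg _) hi)
  · rw [ind_neg h]
    exact sum_nonneg fun _ _ => ind_nonneg _

omit [DecidableEq E] in
lemma core {d : ℕ} (hd : 3 ≤ d) {A : Finset E} {s : E → ℝ} {w : E × Bool → V}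
    (h : ∀ k ∈ range (d + 1), G2p d A s (1 / 2 ^ k) 1 w ∧ G2p d A s (1 / 2 ^ k) (-1) w ∧
      G2d d A s (1 / 2 ^ k) w) : G2 d s w ∧ G2m d A s w := by
  have hl : 0 ≤ ell d := Real.log_natCast_nonneg d
  refine ⟨fun σ X θ h1 h2 => ?_, fun σ X Y θ hXY h1 h2 => ?_⟩
  · obtain ⟨k, hk, h3, h4⟩ := dyadic h1 h2
    have h5 := (h k hk).1 σ X
    have h6 := tilt (e := eS s w σ X X) (a := d * (X.card : ℝ) ^ 2 / Fintype.card V) (b := 0)
      (c := X.card * (2 * ell d + 2) + 3 * Fintype.card V / (d : ℝ) ^ 2)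
      (c' := X.card * (4 * ell d + 4) + 6 * Fintype.card V / (d : ℝ) ^ 2)
      (by positivity) h3 h4 (by positivity) (by positivity) (by gcongr <;> linarith)
      (by linear_combination h5)
    linear_combination h6
  · obtain ⟨k, hk, h3, h4⟩ := dyadic h1 h2
    have h6 := tilt (e := -eS s w σ X Y) (a := d * (X.card : ℝ) * Y.card / Fintype.card V)
      (b := 4 * A.card * |mg σ X| * |mg σ Y| / (Fintype.card V : ℝ) ^ 2)
      (c := (X.card + Y.card) * (2 * ell d + 2) + 3 * Fintype.card V / (d : ℝ) ^ 2)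
      (by positivity) h3 h4 (by positivity) (by positivity) le_rfl (by
        rcases hXY with rfl | hXY
        · have h5 := (h k hk).2.1 σ X
          have h7 : 0 ≤ (X.card : ℝ) * (2 * ell d + 2) := by positivity
          rw [← sq_abs (mg σ X)] at h5
          linear_combination h5 + h7
        · have h5 := (h k hk).2.2 σ X Y hXY
          linear_combination h5)
    linear_combination h6

end G2

theorem stG2 (h1 : StG2p) (h2 : StG2d) : StG2 := by
  intro d ε hd hε
  have hε' : 0 < ε / (3 * (d + 1)) := by positivity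
  have hk : ∀ k : ℕ, (0 : ℝ) < 1 / 2 ^ k ∧ (1 : ℝ) / 2 ^ k ≤ 1 := fun k =>
    ⟨by positivity, (div_le_one (by positivity)).2 (one_le_pow₀ one_le_two)⟩
  refine (Big.all (range (d + 1)) fun k _ =>
    (h1 d _ 1 _ hd (hk k).1 (hk k).2 (Or.inl rfl) hε').and
      ((h1 d _ (-1) _ hd (hk k).1 (hk k).2 (Or.inr rfl) hε').and
        (h2 d _ _ hd (hk k).1 (hk k).2 hε'))).mono ?_
  intro V E _ _ _ _ w0 _ h U A
  refine (PD_mono (Q := fun w J => ∃ k ∈ range (d + 1),
    ¬ G2p d A (cp U A ∅ J) (1 / 2 ^ k) 1 w ∨ ¬ G2p d A (cp U A ∅ J) (1 / 2 ^ k) (-1) w ∨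
      ¬ G2d d A (cp U A ∅ J) (1 / 2 ^ k) w) fun w J hn => ?_).trans ((G2.PD_ex _ _).trans ?_)
  · by_contra hc
    refine hn (G2.core hd fun k hk => ?_)
    by_contra h3
    exact hc ⟨k, hk, by tauto⟩
  · refine (sum_le_card_nsmul _ _ (3 * (ε / (3 * (d + 1)))) fun k hk => ?_).trans_eq ?_
    · have h3 := (h k hk).1 U A
      have h4 := (h k hk).2.1 U A
      have h5 := (h k hk).2.2 U A
      refine (PD_or_le _ _).trans ?_
      have h6 := PD_or_le (w0 := w0) (fun w J => ¬ G2p d A (cp U A ∅ J) (1 / 2 ^ k) (-1) w)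
        fun w J => ¬ G2d d A (cp U A ∅ J) (1 / 2 ^ k) w
      linarith
    · rw [card_range, nsmul_eq_mul]
      push_cast
      field_simp

end Pool.Agent.MP_32a90a_pr.D

end

section

set_option autoImplicit false

namespace Pool.Agent.MP_32a90a_pr.D

open Finset Equiv Filter Pool.Agent.MP_32a90a_pr Pool.Agent.MP_32a90a_pr.L

namespace G3

lemma sum_im {V : Type} [Fintype V] [DecidableEq V] (X : Finset V) :
    ∑ v, ind (v ∈ X) = (X.card : ℝ) := by
  rw [sum_ind, filter_mem_eq_inter, univ_inter]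

lemma avg_mem {V : Type} [Fintype V] [DecidableEq V] (X : Finset V) :
    avg (fun v => ind (v ∈ X)) = (X.card : ℝ) / Fintype.card V := by
  rw [avg, sum_im]

lemma exp_le (P : Prop) [Decidable P] :
    Real.exp (if P then -1 else 0) - 1 ≤ -(1 / 2) * ind P := by
  by_cases h : P
  · rw [if_pos h, ind_pos h, Real.exp_neg]
    have h1 : (2 : ℝ) ≤ Real.exp 1 := by have := Real.add_one_le_exp (1 : ℝ); linarith
    have h2 := inv_anti₀ two_pos h1
    linarith
  · rw [if_neg h, ind_neg h]; simp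

lemma log_le {d : ℕ} (hd : 3 ≤ d) (P : Prop) [Decidable P] :
    Real.log (1 / (if decide P = true then 1 / (d : ℝ) ^ 2 else 1 - 1 / (d : ℝ) ^ 2))
      ≤ 2 * ell d * ind P + 2 / (d : ℝ) ^ 2 := by
  have h3 : (3 : ℝ) ≤ d := by exact_mod_cast hd
  by_cases h : P
  · rw [if_pos (by simpa using h), ind_pos h, one_div_one_div, Real.log_pow, ell]
    have : (0 : ℝ) ≤ 2 / (d : ℝ) ^ 2 := by positivity
    push_cast
    linarith
  · rw [if_neg (by simpa using h), ind_neg h, mul_zero, zero_add]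
    have h9 : (9 : ℝ) ≤ (d : ℝ) ^ 2 := by nlinarith
    have hb : 1 / (d : ℝ) ^ 2 ≤ 1 / 9 := one_div_le_one_div_of_le (by norm_num) h9
    have hb0 : 0 < 1 / (d : ℝ) ^ 2 := by positivity
    rw [show 2 / (d : ℝ) ^ 2 = 2 * (1 / (d : ℝ) ^ 2) by ring]
    generalize 1 / (d : ℝ) ^ 2 = b at hb hb0
    have h1 : 0 < 1 - b := by linarith
    refine (Real.log_le_sub_one_of_pos (by positivity)).trans ?_
    rw [sub_le_iff_le_add, div_le_iff₀ h1]
    nlinarith

end G3

open G3 in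
theorem stG3 (h : StMU) : StG3 := by
  intro d ε hd hε
  have h3 : (3 : ℝ) ≤ d := by exact_mod_cast hd
  have h9 : (9 : ℝ) ≤ (d : ℝ) ^ 2 := by nlinarith
  have hb : 1 / (d : ℝ) ^ 2 ≤ 1 / 9 := one_div_le_one_div_of_le (by norm_num) h9
  have hb0 : 0 < 1 / (d : ℝ) ^ 2 := by positivity
  refine ((h d (Bool × Bool) (1 / (d : ℝ) ^ 2) ε hb0 hε).and
    (Big.card d (fun N => 1 ≤ N) (eventually_ge_atTop 1))).mono ?_
  intro V E _ _ _ _ w0 hw ⟨hP, hN⟩ U A hUA
  have hV : Nonempty V := Fintype.card_pos_iff.1 hN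
  have hN' : (0 : ℝ) < Fintype.card V := by exact_mod_cast hN
  let q : Bool → ℝ := fun a => if a = true then 1 / (d : ℝ) ^ 2 else 1 - 1 / (d : ℝ) ^ 2
  have hq : ∀ a, 0 < q a := fun a => by
    simp only [q]
    split_ifs <;> linarith
  refine le_trans (PD_mono fun w J hv => ?_) (hP (fun t => q t.1 * q t.2)
    (fun i t t1 _ => if i ∉ U ∧ i ∉ A ∧ t.1 = true ∧ t1.2 = true then -1 else 0)
    (fun t => mul_pos (hq _) (hq _)) (le_of_eq ?_))
  swap
  · simp only [Fintype.sum_prod_type, Fintype.sum_bool, q, if_true, Bool.false_eq_true, if_false]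
    ring
  unfold G3 at hv
  push Not at hv
  obtain ⟨X, X', hv⟩ := hv
  refine ⟨fun v => (decide (v ∈ X), decide (v ∈ X')), ?_⟩
  have e1 : muP (fun t : Bool × Bool => q t.1 * q t.2)
      (fun v => (decide (v ∈ X), decide (v ∈ X'))) ≤
      2 * ell d * (X.card + X'.card) + 4 * Fintype.card V / (d : ℝ) ^ 2 := by
    unfold muP
    refine (sum_le_sum (g := fun v => 2 * ell d * (ind (v ∈ X) + ind (v ∈ X')) + 4 / (d : ℝ) ^ 2)
      fun v _ => ?_).trans (le_of_eq ?_)
    · rw [← one_div_mul_one_div, Real.log_mul (one_div_pos.2 (hq _)).ne' (one_div_pos.2 (hq _)).ne']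
      have h1 := log_le hd (v ∈ X)
      have h2 := log_le hd (v ∈ X')
      have h4 : 4 / (d : ℝ) ^ 2 = 2 / (d : ℝ) ^ 2 + 2 / (d : ℝ) ^ 2 := by ring
      simp only [q]
      linarith
    · rw [sum_add_distrib, ← mul_sum, sum_add_distrib, sum_im, sum_im, sum_const, card_univ,
        nsmul_eq_mul]
      ring
  have e2 : (d : ℝ) * Fintype.card V / 4 ≤ ∑ i, ind (i ∉ U ∧ i ∉ A) := by
    have h1 : ∑ i : E, (1 - ind (i ∈ U) - ind (i ∈ A)) ≤ ∑ i, ind (i ∉ U ∧ i ∉ A) :=
      sum_le_sum fun i _ => by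
        by_cases h1 : i ∈ U <;> by_cases h2 : i ∈ A <;> simp [ind, h1, h2]
    rw [sum_sub_distrib, sum_sub_distrib, sum_im, sum_im, sum_const, card_univ, nsmul_eq_mul]
      at h1
    have h2 := card_half hw
    have h4 : 2 * ((U.card : ℝ) + A.card) ≤ Fintype.card E := by exact_mod_cast hUA
    linarith
  have e3 : muA (fun (i : E) (t t1 : Bool × Bool) (_ : Bool) =>
      if i ∉ U ∧ i ∉ A ∧ t.1 = true ∧ t1.2 = true then (-1 : ℝ) else 0)
      (fun v => (decide (v ∈ X), decide (v ∈ X'))) ≤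
      -((d : ℝ) / 8 * X.card * X'.card / Fintype.card V) := by
    unfold muA
    refine (sum_le_sum (g := fun i => ind (i ∉ U ∧ i ∉ A) *
      -(1 / 2 * ((X.card : ℝ) / Fintype.card V) * (X'.card / Fintype.card V)))
      fun i _ => ?_).trans ?_
    · refine (avg_mono (g := fun x : V × V × Bool => -(1 / 2) * ind (i ∉ U ∧ i ∉ A) *
        (ind (x.1 ∈ X) * ind (x.2.1 ∈ X'))) fun x => (exp_le _).trans (le_of_eq ?_)).trans
        (le_of_eq ?_)
      · simp only [decide_eq_true_eq, ind_and]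
        ring
      · rw [avg_mul, avg_prod]
        simp only [avg_mul, avg_mul_right, avg_mem]
        rw [avg_prod]
        simp only [avg_const, avg_mem]
        ring
    · rw [← sum_mul]
      refine (mul_le_mul_of_nonpos_right e2 (neg_nonpos.2 (by positivity))).trans (le_of_eq ?_)
      field_simp
      ring
  have e4 : muL (fun (i : E) (t t1 : Bool × Bool) (_ : Bool) =>
      if i ∉ U ∧ i ∉ A ∧ t.1 = true ∧ t1.2 = true then (-1 : ℝ) else 0)
      (fun v => (decide (v ∈ X), decide (v ∈ X'))) w J =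
      -((univ.filter fun i : E =>
        i ∉ U ∧ i ∉ A ∧ w (i, false) ∈ X ∧ w (i, true) ∈ X').card : ℝ) := by
    unfold muL
    rw [card_filter]
    push_cast
    rw [← sum_neg_distrib]
    refine sum_congr rfl fun i _ => ?_
    simp only [decide_eq_true_eq]
    split_ifs <;> simp
  have e5 : 5 * (Fintype.card V : ℝ) / (d : ℝ) ^ 2 =
      4 * Fintype.card V / (d : ℝ) ^ 2 + 1 / (d : ℝ) ^ 2 * Fintype.card V := by ring
  rw [e4]
  linarith

end Pool.Agent.MP_32a90a_pr.D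

end

section

set_option autoImplicit false

namespace Pool.Agent.MP_32a90a_pr.D

open Finset Equiv Filter Pool.Agent.MP_32a90a_pr Pool.Agent.MP_32a90a_pr.L

namespace G5a

/-- prior on one bit -/
noncomputable def qb (d : ℕ) (a : Bool) : ℝ := if a then 1 / (d : ℝ) ^ 2 else 1 - 1 / (d : ℝ) ^ 2

lemma small {d : ℕ} (hd : 3 ≤ d) : 0 < 1 / (d : ℝ) ^ 2 ∧ 1 / (d : ℝ) ^ 2 ≤ 1 / 2 := by
  have h : (3 : ℝ) ≤ d := by exact_mod_cast hd
  exact ⟨by positivity, one_div_le_one_div_of_le two_pos (by nlinarith)⟩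

lemma qb_pos {d : ℕ} (hd : 3 ≤ d) (a : Bool) : 0 < qb d a := by
  have := small hd
  unfold qb
  split_ifs <;> linarith

lemma log_qb {d : ℕ} (hd : 3 ≤ d) (P : Prop) [Decidable P] :
    Real.log (1 / qb d (decide P)) ≤ (if P then 2 * ell d else 0) + 2 * (1 / (d : ℝ) ^ 2) := by
  obtain ⟨h1, h2⟩ := small hd
  by_cases h : P
  · simp only [qb, h, decide_true, if_true, one_div_one_div, Real.log_pow, ell, Nat.cast_ofNat]
    linarith
  · simp only [qb, h, decide_false, if_false, Bool.false_eq_true, zero_add]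
    generalize 1 / (d : ℝ) ^ 2 = b at h1 h2
    have h3 : 0 < 1 - b := by linarith
    refine (Real.log_le_sub_one_of_pos (by positivity)).trans ?_
    rw [sub_le_iff_le_add, div_le_iff₀ h3]
    nlinarith

variable {V E : Type} [Fintype V] [DecidableEq V] [Fintype E] [DecidableEq E]

/-- the test function -/
noncomputable def ff (E : Type) : E → Bool × Bool → Bool × Bool → Bool → ℝ :=
  fun _ t t' _ => if t.1 = true ∧ t'.2 = true then 1 else 0

/-- the labelling -/
def lab (B Y : Finset V) : V → Bool × Bool := fun v => (decide (v ∈ B), decide (v ∈ Y))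

lemma muP_le {d : ℕ} (hd : 3 ≤ d) (B Y : Finset V) :
    muP (fun t : Bool × Bool => qb d t.1 * qb d t.2) (lab B Y) ≤
      2 * ell d * (B.card + Y.card) + 4 * (1 / (d : ℝ) ^ 2) * Fintype.card V := by
  have h1 : ∀ v, Real.log (1 / (qb d (lab B Y v).1 * qb d (lab B Y v).2)) ≤
      (if v ∈ B then 2 * ell d else 0) + (if v ∈ Y then 2 * ell d else 0) +
        4 * (1 / (d : ℝ) ^ 2) := by
    intro v
    rw [← one_div_mul_one_div, Real.log_mul (one_div_pos.2 (qb_pos hd _)).ne'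
      (one_div_pos.2 (qb_pos hd _)).ne']
    have g1 := log_qb hd (v ∈ B)
    have g2 := log_qb hd (v ∈ Y)
    simp only [lab]
    linarith
  refine (sum_le_sum fun v _ => h1 v).trans_eq ?_
  simp only [sum_add_distrib, sum_ite_mem, univ_inter, sum_const, card_univ, nsmul_eq_mul]
  ring

omit [DecidableEq E] in
lemma muA_eq (B Y : Finset V) : muA (ff E) (lab B Y) = Fintype.card E *
    ((Real.exp 1 - 1) * (B.card / Fintype.card V) * (Y.card / Fintype.card V)) := by
  have h1 : ∀ (i : E) (x : V × V × Bool),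
      Real.exp (ff E i (lab B Y x.1) (lab B Y x.2.1) x.2.2) - 1 =
      (Real.exp 1 - 1) * (if x.1 ∈ B then 1 else 0) * (if x.2.1 ∈ Y then 1 else 0) := by
    intro i x
    by_cases g1 : x.1 ∈ B <;> by_cases g2 : x.2.1 ∈ Y <;> simp [ff, lab, g1, g2]
  have h2 : ∀ X : Finset V, avg (fun v => if v ∈ X then (1 : ℝ) else 0) =
      X.card / Fintype.card V := fun X => by simp [avg]
  simp only [muA, h1, sum_const, card_univ, nsmul_eq_mul]
  rw [avg_prod]
  congr 1
  rw [← h2, ← h2, ← avg_mul (Real.exp 1 - 1), ← avg_mul_right]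
  refine avg_congr fun a => ?_
  rw [avg_prod, ← avg_mul]
  refine avg_congr fun c => ?_
  exact avg_const (α := Bool) _

end G5a

open G5a in
theorem stG5a (h : StMU) : StG5a := by
  intro d ε hd hε
  refine (h d (Bool × Bool) (1 / (d : ℝ) ^ 2) ε (small hd).1 hε).mono ?_
  intro V E _ _ _ _ w0 hw H
  refine le_trans (PD_mono fun w J hG => ?_) (H (fun t => qb d t.1 * qb d t.2) (ff E)
    (fun t => mul_pos (qb_pos hd _) (qb_pos hd _)) (le_of_eq ?_))
  · unfold D.G5a at hG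
    push Not at hG
    obtain ⟨B, Y, hBY⟩ := hG
    refine ⟨lab B Y, ?_⟩
    have h1 : muL (ff E) (lab B Y) w J =
        ((univ.filter fun i : E => w (i, false) ∈ B ∧ w (i, true) ∈ Y).card : ℝ) := by
      simp [muL, ff, lab]
    have h2 := muP_le hd B Y
    have h3 : muA (ff E) (lab B Y) ≤ (d : ℝ) * B.card * Y.card / Fintype.card V := by
      have e1 : (Fintype.card E : ℝ) = d * Fintype.card V / 2 := by linarith [card_half hw]
      have e2 : Real.exp 1 - 1 ≤ 2 := by linarith [Real.exp_one_lt_three]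
      rw [muA_eq, e1]
      calc _ ≤ (d : ℝ) * Fintype.card V / 2 *
          (2 * (B.card / Fintype.card V) * (Y.card / Fintype.card V)) := by gcongr
        _ = _ := by
          by_cases h0 : (Fintype.card V : ℝ) = 0
          · simp [h0]
          · field_simp
    have h4 : 5 * (Fintype.card V : ℝ) / (d : ℝ) ^ 2 = 5 * (1 / (d : ℝ) ^ 2) * Fintype.card V := by
      ring
    rw [h1]
    linarith
  · simp only [Fintype.sum_prod_type, Fintype.sum_bool, qb, if_true, Bool.false_eq_true, if_false]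
    ring

end Pool.Agent.MP_32a90a_pr.D

end

section

set_option autoImplicit false

namespace Pool.Agent.MP_32a90a_pr.D

open Finset Equiv Filter Pool.Agent.MP_32a90a_pr Pool.Agent.MP_32a90a_pr.L

namespace G5b

noncomputable section

/-- the prior -/
def q0 (d : ℕ) (t : Bool × Bool) : ℝ := (if t.1 then 1 / (d : ℝ) ^ 2 else 1 - 1 / (d : ℝ) ^ 2) / 2

/-- the statistic -/
def ff {E : Type} (U A : Finset E) (i : E) (t t1 : Bool × Bool) (j : Bool) : ℝ :=
  -ind (i ∉ U ∧ i ∉ A ∧ t.1 = true ∧ (j = true ↔ t.2 ≠ t1.2))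

lemma small {d : ℕ} (hd : 3 ≤ d) : 0 < 1 / (d : ℝ) ^ 2 ∧ 1 / (d : ℝ) ^ 2 ≤ 1 / 9 := by
  have h : (3 : ℝ) ≤ d := by exact_mod_cast hd
  exact ⟨by positivity, one_div_le_one_div_of_le (by norm_num) (by nlinarith)⟩

lemma q0_pos {d : ℕ} (hd : 3 ≤ d) (t : Bool × Bool) : 0 < q0 d t := by
  have := small hd
  unfold q0
  split_ifs <;> linarith

lemma q0_sum (d : ℕ) : ∑ t, q0 d t ≤ 1 := by
  simp only [Fintype.sum_prod_type, Fintype.sum_bool, q0, if_true, Bool.false_eq_true, if_false]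
  linarith

lemma q0_log {d : ℕ} (hd : 3 ≤ d) (t : Bool × Bool) :
    Real.log (1 / q0 d t) ≤ 19 / 20 + 2 * ell d * ind (t.1 = true) := by
  have h2 := Real.log_two_lt_d9
  obtain ⟨h3, h4⟩ := small hd
  have h : (3 : ℝ) ≤ d := by exact_mod_cast hd
  unfold q0
  split_ifs with ht
  · rw [ind_pos ht, one_div_div, div_div_eq_mul_div, div_one,
      Real.log_mul (by norm_num) (by positivity), Real.log_pow, ell]
    push_cast
    linarith
  · rw [ind_neg ht, one_div_div]
    have h5 : 2 / (1 - 1 / (d : ℝ) ^ 2) ≤ 2 * (9 / 8) := by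
      rw [div_le_iff₀ (by linarith)]
      linarith
    have h6 := Real.log_le_log (div_pos two_pos (by linarith)) h5
    rw [Real.log_mul (by norm_num) (by norm_num)] at h6
    linarith [Real.log_le_sub_one_of_pos (show (0 : ℝ) < 9 / 8 by norm_num)]

lemma exp_ind (P : Prop) : Real.exp (-ind P) - 1 ≤ -(1 / 2) * ind P := by
  by_cases h : P
  · rw [ind_pos h, Real.exp_neg]
    have h1 := Real.add_one_le_exp (1 : ℝ)
    have h2 := inv_anti₀ (by norm_num) h1
    linarith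
  · simp [ind_neg h]

variable {V E : Type} [Fintype V] [DecidableEq V] [Fintype E] [DecidableEq E]

omit [Fintype E] in
lemma slot [Nonempty V] (U A : Finset E) (B : Finset V) (μ : V → Bool) (i : E) :
    avg (fun x : V × V × Bool => Real.exp (ff U A i (decide (x.1 ∈ B), μ x.1)
      (decide (x.2.1 ∈ B), μ x.2.1) x.2.2) - 1) ≤
      -(B.card / (4 * Fintype.card V)) * ind (i ∉ U ∪ A) := by
  refine (avg_mono fun x => exp_ind _).trans (le_of_eq ?_)
  have e : ∀ u v : V, avg (fun j : Bool => ind (i ∉ U ∧ i ∉ A ∧ decide (u ∈ B) = true ∧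
      (j = true ↔ μ u ≠ μ v))) = ind (i ∉ U ∪ A) / 2 * ind (u ∈ B) := fun u v => by
    rw [avg_bool]
    by_cases h1 : i ∈ U <;> by_cases h2 : i ∈ A <;> by_cases h3 : u ∈ B <;>
      by_cases h4 : μ u = μ v <;> simp [ind, h1, h2, h3, h4]
  rw [avg_mul, avg_prod]
  simp only [avg_prod (α := V) (γ := Bool), e, avg_const]
  rw [avg_mul, avg, sum_ind, filter_mem_eq_inter, univ_inter]
  ring

lemma key [Nonempty V] {d : ℕ} (hd : 3 ≤ d) (hE : 2 * (Fintype.card E : ℝ) = d * Fintype.card V)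
    (U A : Finset E) (hUA : 2 * (U.card + A.card) ≤ Fintype.card E) (w : E × Bool → V)
    (J : E → Bool) (h : ¬ G5b d U A w J) : ∃ φ : V → Bool × Bool,
      muA (ff U A) φ + muP (q0 d) φ + 1 / 20 * Fintype.card V < muL (ff U A) φ w J := by
  simp only [G5b, not_forall, not_le] at h
  obtain ⟨B, μ, h⟩ := h
  refine ⟨fun v => (decide (v ∈ B), μ v), ?_⟩
  have hN : (0 : ℝ) < Fintype.card V := by exact_mod_cast Fintype.card_pos
  have h1 : muL (ff U A) (fun v => (decide (v ∈ B), μ v)) w J =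
      -((univ.filter fun i : E => i ∉ U ∧ i ∉ A ∧ w (i, false) ∈ B ∧
          (J i = true ↔ μ (w (i, false)) ≠ μ (w (i, true)))).card : ℝ) := by
    rw [← sum_ind, ← sum_neg_distrib]
    simp only [muL, ff, decide_eq_true_eq]
  have h2 : muP (q0 d) (fun v => (decide (v ∈ B), μ v)) ≤
      19 / 20 * Fintype.card V + 2 * ell d * B.card := by
    refine (sum_le_sum fun v _ => q0_log hd _).trans (le_of_eq ?_)
    simp only [decide_eq_true_eq]
    rw [sum_add_distrib, ← mul_sum, sum_ind, filter_mem_eq_inter, univ_inter, sum_const,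
      card_univ, nsmul_eq_mul, mul_comm]
  have h3 : (d : ℝ) * Fintype.card V / 4 ≤ ∑ i, ind (i ∉ U ∪ A) := by
    simp only [ind_not]
    rw [sum_sub_distrib, sum_ind, filter_mem_eq_inter, univ_inter, sum_const, card_univ,
      nsmul_eq_mul, mul_one]
    have h4 : (2 * (U ∪ A).card : ℝ) ≤ Fintype.card E := by
      exact_mod_cast (Nat.mul_le_mul_left 2 (card_union_le U A)).trans hUA
    linarith
  have h4 : muA (ff U A) (fun v => (decide (v ∈ B), μ v)) ≤ -(d / 16 * B.card) := by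
    refine (sum_le_sum fun i _ => slot U A B μ i).trans ?_
    rw [← mul_sum, neg_mul, neg_le_neg_iff]
    refine le_trans (le_of_eq ?_) (mul_le_mul_of_nonneg_left h3 (by positivity))
    field_simp
    ring
  rw [h1]
  linarith

end

end G5b

theorem stG5b (h : StMU) : StG5b := by
  intro d ε hd hε
  refine ((h d (Bool × Bool) (1 / 20) ε (by norm_num) hε).and
    (Big.card d (fun N => 0 < N) (eventually_gt_atTop 0))).mono ?_
  intro V E _ _ _ _ w0 hw ⟨h1, h2⟩ U A hUA
  have : Nonempty V := Fintype.card_pos_iff.1 h2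
  exact (PD_mono fun w J => G5b.key hd (card_half hw) U A hUA w J).trans
    (h1 _ _ (G5b.q0_pos hd) (G5b.q0_sum d))

end Pool.Agent.MP_32a90a_pr.D

end

section

set_option autoImplicit false

namespace Pool.Agent.MP_32a90a_pr.D

open Finset Equiv Filter Pool.Agent.MP_32a90a_pr Pool.Agent.MP_32a90a_pr.L

namespace G8

lemma ed_bad {V E : Type} [Fintype V] [DecidableEq V] [Fintype E] [DecidableEq E]
    {w0 : E × Bool → V} {d : ℕ} (h : Deg w0 d) :
    ED w0 (fun w _ => ((badV w).card : ℝ)) ≤ (d * (d + 1) + d + 2 : ℕ) := by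
  have h1 : ED w0 (fun w _ => ((badV w).card : ℝ)) ≤
      avg fun π : Perm (E × Bool) => ((Bad (w0 ∘ π)).card : ℝ) := by
    rw [ED_eq_avg, avg_prod]
    exact avg_mono fun π => avg_le_const (Nat.cast_nonneg _) fun _ => Nat.cast_le.2 card_image_le
  refine h1.trans ?_
  have h2 : (0 : ℝ) < Fintype.card (Perm (E × Bool)) := by exact_mod_cast Fintype.card_pos
  rw [avg, div_le_iff₀ h2, mul_comm]
  exact_mod_cast sum_bad h

lemma step {P : Type} [Fintype P] [DecidableEq P] (S R : Finset P) {t : P} (ht : t ∉ R) :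
    avg (fun π : Perm P => ind (∀ x ∈ insert t R, π x ∈ S)) ≤
      avg (fun π : Perm P => ind (∀ x ∈ R, π x ∈ S)) * ((S.card : ℝ) / Fintype.card P) := by
  have h1 : ∀ q ∈ Rᶜ, avg (fun π : Perm P => ind (∀ x ∈ insert t R, π x ∈ S)) =
      avg fun π : Perm P => ind (∀ x ∈ R, π x ∈ S) * ind (π q ∈ S) := fun q hq => by
    rw [← avg_equiv (Equiv.mulRight (swap t q))]
    refine avg_congr fun π => ?_
    rw [← ind_and, forall_mem_insert, and_comm]
    refine ind_congr (and_congr (forall₂_congr fun x hx => ?_) ?_)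
    · rw [coe_mulRight, Perm.mul_apply, swap_apply_of_ne_of_ne (ne_of_mem_of_not_mem hx ht)
        (ne_of_mem_of_not_mem hx (mem_compl.1 hq))]
    · rw [coe_mulRight, Perm.mul_apply, swap_apply_left]
  have hn : R.card < Fintype.card P := card_lt_univ_of_notMem ht
  have hn' : (R.card : ℝ) < Fintype.card P := by exact_mod_cast hn
  have hR : (0 : ℝ) ≤ R.card := Nat.cast_nonneg _
  have hS : (S.card : ℝ) ≤ Fintype.card P := by exact_mod_cast card_le_univ S
  have h2 : ∀ π : Perm P, ∑ q ∈ Rᶜ, ind (∀ x ∈ R, π x ∈ S) * ind (π q ∈ S) =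
      ind (∀ x ∈ R, π x ∈ S) * ((S.card : ℝ) - R.card) := fun π => by
    rw [← mul_sum]
    by_cases h : ∀ x ∈ R, π x ∈ S
    · have a1 : ∑ q ∈ R, ind (π q ∈ S) = R.card := by
        rw [sum_congr rfl fun q hq => ind_pos (h q hq)]
        simp
      have a2 : ∑ q, ind (π q ∈ S) = S.card := by
        rw [Equiv.sum_comp π fun q => ind (q ∈ S), sum_ind]
        simp
      rw [← a1, ← a2, ← sum_add_sum_compl R, add_sub_cancel_left]
    · rw [ind_neg h, zero_mul, zero_mul]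
  have h3 := sum_congr rfl h1
  rw [sum_const, ← avg_sum, avg_congr h2, avg_mul_right, card_compl, nsmul_eq_mul,
    Nat.cast_sub hn.le] at h3
  have h4 : 0 ≤ avg fun π : Perm P => ind (∀ x ∈ R, π x ∈ S) := avg_nonneg fun _ => ind_nonneg _
  refine le_of_mul_le_mul_left ?_ (sub_pos.2 hn')
  rw [h3, mul_left_comm]
  refine mul_le_mul_of_nonneg_left ?_ h4
  rw [← mul_div_assoc, le_div_iff₀ (hR.trans_lt hn')]
  nlinarith

end G8

theorem stG8 : StG8 := by
  intro d ε ε' hε hε'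
  refine (Big.card d (fun N => ((d * (d + 1) + d + 2 : ℕ) : ℝ) / (ε * ε') + 1 ≤ N)
    (tendsto_natCast_atTop_atTop.eventually_ge_atTop _)).mono fun V E _ _ _ _ w0 hw hN => ?_
  have h0 : 0 ≤ ((d * (d + 1) + d + 2 : ℕ) : ℝ) / (ε * ε') := by positivity
  have h1 : 0 < ε * Fintype.card V := mul_pos hε (by linarith)
  refine (PD_mono fun w _ h => (not_le.1 h).le).trans
    ((PD_markov (Φ := fun w _ => ((badV w).card : ℝ)) (fun _ _ => Nat.cast_nonneg _) h1).trans ?_)
  rw [div_le_iff₀ h1]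
  refine (G8.ed_bad hw).trans ?_
  have h2 := (div_le_iff₀ (mul_pos hε hε')).1 ((le_add_of_nonneg_right zero_le_one).trans hN)
  linarith

theorem stHyp : StHyp := by
  intro P _ _ S R
  induction R using Finset.induction_on with
  | empty => exact (avg_le_const zero_le_one fun _ => ind_le_one _).trans_eq (by simp)
  | insert t R ht ih =>
    rw [card_insert_of_notMem ht, pow_succ]
    exact (G8.step S R ht).trans (mul_le_mul_of_nonneg_right ih (by positivity))

end Pool.Agent.MP_32a90a_pr.D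

end

section

set_option autoImplicit false

namespace Pool.Agent.MP_32a90a_pr.D

open Finset Equiv Filter Pool.Agent.MP_32a90a_pr Pool.Agent.MP_32a90a_pr.L

namespace G9b

lemma tail {x t : ℝ} {d k : ℕ} (ht : 0 ≤ t) (hx : x = t * d) (hk : 8 * x ≤ k) :
    (d.choose k : ℝ) * (2 * t) ^ k ≤ Real.exp (-(2 * x)) := by
  have hx0 : 0 ≤ x := by rw [hx]; positivity
  have h1 : (d.choose k : ℝ) ≤ (d : ℝ) ^ k / k.factorial := Nat.choose_le_pow_div k d
  have h2 : (6 * x) ^ k / k.factorial ≤ Real.exp (6 * x) :=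
    Real.pow_div_factorial_le_exp _ (by positivity) k
  have h3 : (1 / 3 : ℝ) ^ k ≤ Real.exp (-(8 * x)) := by
    have e3 : (1 / 3 : ℝ) ≤ Real.exp (-1) := by
      rw [Real.exp_neg, one_div]
      exact inv_anti₀ (Real.exp_pos 1) (Real.exp_one_lt_d9.le.trans (by norm_num))
    calc (1 / 3 : ℝ) ^ k ≤ Real.exp (-1) ^ k := pow_le_pow_left₀ (by norm_num) e3 k
      _ = Real.exp (k * (-1)) := (Real.exp_nat_mul _ _).symm
      _ ≤ _ := Real.exp_le_exp.2 (by linarith)
  calc (d.choose k : ℝ) * (2 * t) ^ k ≤ (d : ℝ) ^ k / k.factorial * (2 * t) ^ k :=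
        mul_le_mul_of_nonneg_right h1 (by positivity)
    _ = (1 / 3 : ℝ) ^ k * ((6 * x) ^ k / k.factorial) := by
        rw [← mul_div_assoc, ← mul_pow, div_mul_eq_mul_div, ← mul_pow, hx]
        congr 2; ring
    _ ≤ Real.exp (-(8 * x)) * Real.exp (6 * x) :=
        mul_le_mul h3 h2 (by positivity) (Real.exp_pos _).le
    _ = _ := by rw [← Real.exp_add]; congr 1; ring

lemma ev : ∀ᶠ d : ℕ in atTop, 1 ≤ d ∧ Real.exp (-(2 * (tau d * d))) ≤ 1 / (d : ℝ) ^ 10 := by
  have h := (isLittleO_log_rpow_atTop (r := 9 / 10) (by norm_num)).bound (c := 1 / 5) (by norm_num)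
  filter_upwards [tendsto_natCast_atTop_atTop.eventually h, eventually_ge_atTop 1] with d hd h1
  refine ⟨h1, ?_⟩
  have hd0 : (0 : ℝ) < d := by exact_mod_cast h1
  have e : tau d * d = (d : ℝ) ^ (9 / 10 : ℝ) := by
    rw [tau, ← Real.rpow_add_one hd0.ne']; norm_num
  rw [Real.norm_eq_abs, Real.norm_eq_abs, abs_of_nonneg (Real.rpow_nonneg hd0.le _)] at hd
  have h2 := (le_abs_self _).trans hd
  rw [e, one_div, ← Real.exp_log (pow_pos hd0 10), ← Real.exp_neg, Real.log_pow]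
  refine Real.exp_le_exp.2 ?_
  push_cast
  linarith

variable {V E : Type} [Fintype V] [DecidableEq V] [Fintype E] [DecidableEq E]

omit [Fintype V] in
lemma one (h : StHyp) {w0 : E × Bool → V} {d : ℕ} (hd : Deg w0 d) (A : Finset E) (v : V) (k : ℕ)
    {c : ℝ} (hc : ((cav A).card : ℝ) / Fintype.card (E × Bool) ≤ c) :
    PD w0 (fun w _ => k ≤ (univ.filter fun p : E × Bool => w p = v ∧ p.1 ∈ A).card)
      ≤ (d.choose k : ℝ) * c ^ k := by
  set S := univ.filter fun p : E × Bool => w0 p = v with hS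
  have e1 : PD w0 (fun w _ => k ≤ (univ.filter fun p : E × Bool => w p = v ∧ p.1 ∈ A).card)
      = avg fun π : Perm (E × Bool) =>
        ind (k ≤ (univ.filter fun p : E × Bool => (w0 ∘ π) p = v ∧ p.1 ∈ A).card) := by
    simp only [PD, ED, av, avg_const]; rfl
  have e2 : ∀ π : Perm (E × Bool),
      ind (k ≤ (univ.filter fun p : E × Bool => (w0 ∘ π) p = v ∧ p.1 ∈ A).card)
        ≤ ∑ R ∈ powersetCard k S, ind (∀ t ∈ R, π⁻¹ t ∈ cav A) := by
    intro π
    by_cases hk : k ≤ (univ.filter fun p : E × Bool => (w0 ∘ π) p = v ∧ p.1 ∈ A).card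
    · obtain ⟨T, hT, hTc⟩ := exists_subset_card_eq hk
      have hmem : T.map π.toEmbedding ∈ powersetCard k S := by
        rw [mem_powersetCard, card_map]
        refine ⟨fun t ht => ?_, hTc⟩
        obtain ⟨p, hp, rfl⟩ := mem_map.1 ht
        have := (mem_filter.1 (hT hp)).2.1
        exact mem_filter.2 ⟨mem_univ _, this⟩
      have hall : ∀ t ∈ T.map π.toEmbedding, π⁻¹ t ∈ cav A := by
        intro t ht
        obtain ⟨p, hp, rfl⟩ := mem_map.1 ht
        have := (mem_filter.1 (hT hp)).2.2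
        simpa [mem_cav] using this
      rw [ind_pos hk, ← ind_pos hall]
      exact single_le_sum (f := fun R => ind (∀ t ∈ R, π⁻¹ t ∈ cav A))
        (fun R _ => ind_nonneg _) hmem
    · rw [ind_neg hk]
      exact sum_nonneg fun R _ => ind_nonneg _
  rw [e1]
  refine (avg_mono e2).trans ?_
  rw [avg_sum]
  have e3 : ∀ R ∈ powersetCard k S,
      (avg fun π : Perm (E × Bool) => ind (∀ t ∈ R, π⁻¹ t ∈ cav A)) ≤ c ^ k := by
    intro R hR
    have h1 := h (E × Bool) (cav A) R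
    have h2 := avg_equiv (Equiv.inv (Perm (E × Bool))) fun π => ind (∀ t ∈ R, π t ∈ cav A)
    rw [(mem_powersetCard.1 hR).2] at h1
    exact (h2.le.trans h1).trans (pow_le_pow_left₀ (by positivity) hc k)
  refine (sum_le_sum e3).trans ?_
  rw [sum_const, card_powersetCard, hd v, nsmul_eq_mul]

end G9b

theorem stG9b (h : StHyp) : StG9b := by
  filter_upwards [G9b.ev] with d hd
  refine ⟨0, fun V E _ _ _ _ w0 hw _ A hA => ?_⟩
  have ht : 0 ≤ tau d := Real.rpow_nonneg (Nat.cast_nonneg d) _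
  have hx : 0 ≤ 8 * tau d * d := by positivity
  have hc : ((cav A).card : ℝ) / Fintype.card (E × Bool) ≤ 2 * tau d := by
    refine div_le_of_le_mul₀ (Nat.cast_nonneg _) (by positivity) ?_
    rw [card_cav, Fintype.card_prod, Fintype.card_bool]
    push_cast
    linarith
  have key : ∀ v : V, PD w0 (fun w _ =>
      8 * tau d * d < ((univ.filter fun p : E × Bool => w p = v ∧ p.1 ∈ A).card : ℝ))
        ≤ 1 / (d : ℝ) ^ 10 := by
    intro v
    refine (PD_mono fun w _ hw => ?_).trans ((G9b.one h hw A v (⌊8 * tau d * d⌋₊ + 1) hc).trans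
      ((G9b.tail ht rfl ?_).trans hd.2))
    · exact (Nat.floor_lt hx).2 hw
    · push_cast
      rw [← mul_assoc]
      exact (Nat.lt_floor_add_one _).le
  refine (sum_le_sum fun v _ => key v).trans ?_
  rw [sum_const, card_univ, nsmul_eq_mul, mul_one_div]

end Pool.Agent.MP_32a90a_pr.D

end

section

/-! Moments of a centred sum of independent bounded terms. -/

set_option autoImplicit false

namespace Pool.Agent.MP_32a90a_pr.D

open Finset

namespace Mom

variable {ι γ : Type} [Fintype ι] [DecidableEq ι] [Fintype γ] [Nonempty γ]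

/-- a function that does not depend on the coordinate `u` is independent of it -/
lemma indep (u : ι) (f : (ι → γ) → ℝ) (g : γ → ℝ)
    (hf : ∀ ω o, f (Function.update ω u o) = f ω) :
    avg (fun ω : ι → γ => f ω * g (ω u)) = avg f * avg g := by
  rw [avg_update u]
  simp only [hf, Function.update_self, avg_mul, avg_mul_right]

lemma core (X : ι → γ → ℝ) (h0 : ∀ u, avg (X u) = 0) (h1 : ∀ u o, |X u o| ≤ 1) (S : Finset ι) :
    avg (fun ω : ι → γ => ∑ u ∈ S, X u (ω u)) = 0 ∧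
    avg (fun ω : ι → γ => (∑ u ∈ S, X u (ω u)) ^ 2) = ∑ u ∈ S, avg (fun o => X u o ^ 2) ∧
    avg (fun ω : ι → γ => (∑ u ∈ S, X u (ω u)) ^ 4) ≤
      3 * (∑ u ∈ S, avg (fun o => X u o ^ 2)) ^ 2 + ∑ u ∈ S, avg (fun o => X u o ^ 2) := by
  induction S using Finset.induction_on with
  | empty => simp [avg_zero]
  | insert a S ha ih =>
    obtain ⟨i1, i2, i3⟩ := ih
    have key : ∀ i j : ℕ, avg (fun ω : ι → γ => (∑ u ∈ S, X u (ω u)) ^ i * X a (ω a) ^ j) =
        avg (fun ω : ι → γ => (∑ u ∈ S, X u (ω u)) ^ i) * avg (fun o => X a o ^ j) := fun i j =>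
      indep a (fun ω : ι → γ => (∑ u ∈ S, X u (ω u)) ^ i) (fun o => X a o ^ j) fun ω o => by
        congr 1
        exact sum_congr rfl fun u hu => by
          rw [Function.update_of_ne (ne_of_mem_of_not_mem hu ha)]
    have k01 := key 0 1
    have k02 := key 0 2
    have k04 := key 0 4
    have k11 := key 1 1
    have k31 := key 3 1
    have k22 := key 2 2
    have k13 := key 1 3
    have z : avg (fun o => X a o) = 0 := h0 a
    simp only [pow_zero, pow_one, one_mul, avg_const, z, i1, i2, mul_zero, zero_mul]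
      at k01 k02 k04 k11 k31 k22 k13
    have hx : 0 ≤ avg (fun o => X a o ^ 2) := avg_nonneg fun o => sq_nonneg _
    have h4 : avg (fun o => X a o ^ 4) ≤ avg (fun o => X a o ^ 2) := avg_mono fun o => by
      have := (sq_le_one_iff_abs_le_one _).2 (h1 a o)
      nlinarith [sq_nonneg (X a o)]
    simp only [sum_insert ha]
    refine ⟨by rw [avg_add, k01, i1, add_zero], ?_, ?_⟩
    · rw [avg_congr (g := fun ω : ι → γ => X a (ω a) ^ 2 +
        2 * ((∑ u ∈ S, X u (ω u)) * X a (ω a)) + (∑ u ∈ S, X u (ω u)) ^ 2) fun ω => by ring,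
        avg_add, avg_add, avg_mul, k02, k11, i2, mul_zero, add_zero]
    · rw [avg_congr (g := fun ω : ι → γ => X a (ω a) ^ 4 +
        4 * ((∑ u ∈ S, X u (ω u)) * X a (ω a) ^ 3) +
        6 * ((∑ u ∈ S, X u (ω u)) ^ 2 * X a (ω a) ^ 2) +
        4 * ((∑ u ∈ S, X u (ω u)) ^ 3 * X a (ω a)) + (∑ u ∈ S, X u (ω u)) ^ 4) fun ω => by ring,
        avg_add, avg_add, avg_add, avg_add, avg_mul, avg_mul, avg_mul, k04, k13, k22, k31]
      nlinarith [sq_nonneg (avg fun o => X a o ^ 2)]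

lemma avg_ind {m : ℕ} (hm : 1 ≤ m) : avg (fun o : Fin m => ind (o.val = 0)) = 1 / m := by
  have h : (univ.filter fun o : Fin m => o.val = 0) = {⟨0, hm⟩} := by
    ext o
    simp [Fin.ext_iff]
  rw [avg, sum_ind, h, card_singleton, Fintype.card_fin, Nat.cast_one]

end Mom

theorem stMom : StMom := by
  intro ι _ _ m c hm hc
  have : Nonempty (Fin m) := ⟨⟨0, hm⟩⟩
  have hm1 : (1 : ℝ) ≤ m := by exact_mod_cast hm
  have p0 : (0 : ℝ) ≤ 1 / m := by positivity
  have p1 : (1 : ℝ) / m ≤ 1 := (div_le_one (by linarith)).2 hm1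
  obtain ⟨h1, h2, h3⟩ := Mom.core (fun u (o : Fin m) => c u * (ind (o.val = 0) - 1 / m))
    (fun u => by rw [avg_mul, avg_sub, Mom.avg_ind hm, avg_const, sub_self, mul_zero])
    (fun u o => by
      rw [abs_mul]
      refine mul_le_one₀ (hc u) (abs_nonneg _) (abs_le.2 ⟨?_, ?_⟩)
      · linarith [ind_nonneg (o.val = 0)]
      · linarith [ind_le_one (o.val = 0)]) univ
  refine ⟨h1, ?_, ?_⟩
  · refine h2.trans ?_
    rw [mul_sum]
    refine sum_congr rfl fun u _ => ?_
    rw [avg_congr (g := fun o : Fin m => c u ^ 2 * (1 - 2 * (1 / m)) * ind (o.val = 0) +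
      c u ^ 2 * (1 / m) ^ 2) fun o => by
        linear_combination c u ^ 2 * ind_mul_self (o.val = 0),
      avg_add, avg_mul, Mom.avg_ind hm, avg_const]
    ring
  · rw [← h2] at h3
    exact h3

end Pool.Agent.MP_32a90a_pr.D

end

section

set_option autoImplicit false

namespace Pool.Agent.MP_32a90a_pr.D

open Finset

namespace PZ

lemma poly_le (x : ℝ) : (9 * x + 8 * x ^ 2 - x ^ 4 - 2) / 40 ≤ ind (1 / 8 ≤ x) := by
  by_cases h : 1 / 8 ≤ x
  · rw [ind_pos h]
    nlinarith [sq_nonneg (x ^ 2 - 5), sq_nonneg (x - 9 / 4)]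
  · rw [ind_neg h]
    push Not at h
    rcases le_total 0 x with h0 | h0
    · nlinarith [sq_nonneg (x ^ 2), mul_nonneg h0 (sub_pos.2 h).le]
    · have ht : 0 ≤ -x := by linarith
      nlinarith [sq_nonneg (x ^ 2 + 33 / 20 * x), mul_nonneg ht (sq_nonneg (x + 33 / 20)),
        sq_nonneg x]

section
variable {ι γ : Type} [Fintype ι] [DecidableEq ι] [Fintype γ] [Nonempty γ]

omit [Fintype γ] [Nonempty γ] in
lemma const_of_update (f : (ι → γ) → ℝ) (h : ∀ ω i o, f (Function.update ω i o) = f ω)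
    (ω ω' : ι → γ) : f ω' = f ω := by
  have key : ∀ T : Finset ι, f (T.piecewise ω' ω) = f ω := fun T => by
    induction T using Finset.induction_on with
    | empty => simp
    | insert j T _ ih => rw [Finset.piecewise_insert, h, ih]
  simpa using key univ

lemma var_aux (c : ι → ℝ) (S : Finset ι) : ∀ f : (ι → γ) → ℝ,
    (∀ ω i o, |f (Function.update ω i o) - f ω| ≤ c i) →
    (∀ ω i o, i ∉ S → f (Function.update ω i o) = f ω) →
    avg (fun ω => (f ω - avg f) ^ 2) ≤ ∑ i ∈ S, c i ^ 2 := by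
  induction S using Finset.induction_on with
  | empty =>
    intro f _ h
    have hc := const_of_update f fun ω i o => h ω i o (notMem_empty i)
    have e : ∀ ω, f ω - avg f = 0 := fun ω => by
      rw [avg_congr (g := fun _ => f ω) fun ω' => hc ω ω', avg_const, sub_self]
    simp only [e]
    simp [avg_zero]
  | insert i S hi ih =>
    intro f hc hS
    let g : (ι → γ) → ℝ := fun ω => avg fun o => f (Function.update ω i o)
    have hg : ∀ ω, g ω = avg fun o => f (Function.update ω i o) := fun _ => rfl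
    have gi : ∀ ω o, g (Function.update ω i o) = g ω := fun ω o => by
      simp only [hg, Function.update_idem]
    have hfg : ∀ ω, |f ω - g ω| ≤ c i := fun ω => by
      have e : f ω - g ω = avg fun o => f ω - f (Function.update ω i o) := by
        rw [avg_sub, avg_const]
      rw [e]
      refine (abs_avg_le _).trans ((avg_mono fun o => ?_).trans_eq (avg_const (c i)))
      rw [abs_sub_comm]; exact hc ω i o
    have gc : ∀ ω j o, |g (Function.update ω j o) - g ω| ≤ c j := fun ω j o => by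
      by_cases hj : j = i
      · subst hj
        rw [gi, sub_self, abs_zero]
        exact (abs_nonneg _).trans (hc ω j o)
      · rw [hg, hg, ← avg_sub]
        refine (abs_avg_le _).trans ((avg_mono fun o' => ?_).trans_eq (avg_const (c j)))
        rw [Function.update_comm hj]
        exact hc _ j o
    have gS : ∀ ω j o, j ∉ S → g (Function.update ω j o) = g ω := fun ω j o hj => by
      by_cases hji : j = i
      · subst hji; exact gi ω o
      · rw [hg, hg]
        refine avg_congr fun o' => ?_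
        rw [Function.update_comm hji]
        exact hS _ j o (by simp [hji, hj])
    have hm : avg g = avg f := (avg_update i f).symm
    have h1 := ih g gc gS
    rw [hm] at h1
    have h2 : avg (fun ω => (f ω - g ω) * (g ω - avg f)) = 0 := by
      rw [avg_update i]
      simp only [gi]
      refine (avg_congr fun ω => ?_).trans avg_zero
      rw [avg_mul_right, avg_sub, avg_const, ← hg, sub_self, zero_mul]
    have h3 : avg (fun ω => (f ω - g ω) ^ 2) ≤ c i ^ 2 :=
      avg_le_const (sq_nonneg _) fun ω => by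
        rw [← sq_abs]; exact pow_le_pow_left₀ (abs_nonneg _) (hfg ω) 2
    have h4 : avg (fun ω => (f ω - avg f) ^ 2) = avg (fun ω => (f ω - g ω) ^ 2) +
        2 * avg (fun ω => (f ω - g ω) * (g ω - avg f)) + avg (fun ω => (g ω - avg f) ^ 2) := by
      rw [← avg_mul, ← avg_add, ← avg_add]
      exact avg_congr fun ω => by ring
    rw [sum_insert hi, h4, h2]
    linarith

end

end PZ

theorem stPZ : StPZ := by
  intro α _ _ W v hv h1 h2 h4
  have hv0 : 0 < v := by linarith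
  have hs : 0 < Real.sqrt v := Real.sqrt_pos.2 hv0
  have hs2 : Real.sqrt v ^ 2 = v := Real.sq_sqrt hv0.le
  have hs4 : Real.sqrt v ^ 4 = v ^ 2 := by rw [show 4 = 2 * 2 from rfl, pow_mul, hs2]
  have key : ∀ a, (9 / Real.sqrt v * W a + 8 / v * W a ^ 2 - 1 / v ^ 2 * W a ^ 4 - 2) / 40 ≤
      ind (Real.sqrt v / 8 ≤ W a) := fun a => by
    have := PZ.poly_le (W a / Real.sqrt v)
    rw [div_pow, div_pow, hs2, hs4] at this
    have e : ind (1 / 8 ≤ W a / Real.sqrt v) = ind (Real.sqrt v / 8 ≤ W a) :=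
      ind_congr (by rw [le_div_iff₀ hs]; constructor <;> intro h <;> linarith)
    rw [← e]
    refine le_trans (le_of_eq ?_) this
    ring
  refine le_trans ?_ (avg_mono key)
  rw [avg_div, avg_sub, avg_sub, avg_add, avg_mul, avg_mul, avg_mul, avg_const, h1, h2]
  have h5 : 1 / v ^ 2 * avg (fun a => W a ^ 4) ≤ 4 := by
    rw [one_div, inv_mul_le_iff₀ (by positivity)]
    nlinarith
  have h6 : 8 / v * v = 8 := by field_simp
  rw [h6]
  linarith

theorem stVar : StVar := by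
  intro ι γ _ _ _ _ f c hc
  exact PZ.var_aux c univ f hc fun _ i _ hi => absurd (mem_univ i) hi

end Pool.Agent.MP_32a90a_pr.D

end

section

set_option autoImplicit false

namespace Pool.Agent.MP_32a90a_pr.D

open Finset Equiv Filter Pool.Agent.MP_32a90a_pr Pool.Agent.MP_32a90a_pr.L

namespace Exp

lemma avg_fin {m : ℕ} (hm : 1 ≤ m) : avg (fun o : Fin m => ind (o.val = 0)) = 1 / (m : ℝ) := by
  unfold avg
  rw [sum_ind, Fintype.card_fin]
  have : (univ.filter fun o : Fin m => o.val = 0) = {⟨0, hm⟩} := by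
    ext o
    simp [Fin.ext_iff]
  rw [this]
  simp

section
variable {V : Type} [Fintype V] [DecidableEq V] {m : ℕ}

lemma avg_one (hm : 1 ≤ m) (v : V) :
    avg (fun ξ : V → Fin m => ind ((ξ v).val = 0)) = 1 / (m : ℝ) := by
  have : Nonempty (Fin m) := ⟨⟨0, hm⟩⟩
  rw [avg_update v]
  simp only [Function.update_self]
  rw [avg_fin hm, avg_const]

lemma avg_two (hm : 1 ≤ m) {u v : V} (h : v ≠ u) :
    avg (fun ξ : V → Fin m => ind ((ξ u).val = 0) * ind ((ξ v).val = 0)) = 1 / (m : ℝ) ^ 2 := by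
  have : Nonempty (Fin m) := ⟨⟨0, hm⟩⟩
  rw [avg_update u]
  simp only [Function.update_self, Function.update_of_ne h]
  have : ∀ ω : V → Fin m, avg (fun o : Fin m => ind (o.val = 0) * ind ((ω v).val = 0))
      = 1 / (m : ℝ) * ind ((ω v).val = 0) := fun ω => by rw [avg_mul_right, avg_fin hm]
  rw [avg_congr this, avg_mul, avg_one hm]
  ring

omit [Fintype V] [DecidableEq V] in
lemma sum_sel (X : Finset V) (ξ : V → Fin m) (g : V → ℝ) :
    ∑ v ∈ sel X ξ, g v = ∑ v ∈ X, g v * ind ((ξ v).val = 0) := by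
  unfold sel
  rw [sum_filter]
  refine sum_congr rfl fun v _ => ?_
  by_cases h : (ξ v).val = 0
  · rw [if_pos h, ind_pos h, mul_one]
  · rw [if_neg h, ind_neg h, mul_zero]

lemma avg_sel (hm : 1 ≤ m) (X : Finset V) (g : V → ℝ) :
    avg (fun ξ : V → Fin m => ∑ v ∈ sel X ξ, g v) = (∑ v ∈ X, g v) / m := by
  rw [avg_congr fun ξ => sum_sel X ξ g,
    avg_sum X fun v (ξ : V → Fin m) => g v * ind ((ξ v).val = 0), sum_div]
  refine sum_congr rfl fun v _ => ?_
  rw [avg_mul, avg_one hm]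
  ring

variable {E : Type} [Fintype E] [DecidableEq E]

omit [Fintype V] [DecidableEq E] in
lemma eS_sel (s : E → ℝ) (w : E × Bool → V) (σ : V → Bool) (X : Finset V) (ξ : V → Fin m) :
    eS s w σ (sel X ξ) (sel X ξ)
      = ∑ p ∈ univ.filter (fun p : E × Bool => w p ∈ X ∧ w (pt p) ∈ X),
          sl s w σ p.1 * (ind ((ξ (w p)).val = 0) * ind ((ξ (w (pt p))).val = 0)) := by
  unfold eS
  rw [sum_filter, sum_filter]
  refine sum_congr rfl fun p _ => ?_
  by_cases h1 : w p ∈ X <;> by_cases h2 : w (pt p) ∈ X <;>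
    by_cases h3 : (ξ (w p)).val = 0 <;> by_cases h4 : (ξ (w (pt p))).val = 0 <;>
    simp [sel, ind, h1, h2, h3, h4]

omit [DecidableEq E] in
lemma avg_eS (hm : 1 ≤ m) (s : E → ℝ) (w : E × Bool → V) (σ : V → Bool) (X : Finset V)
    (hX : ∀ p, w p ∈ X → w (pt p) ≠ w p) :
    avg (fun ξ : V → Fin m => eS s w σ (sel X ξ) (sel X ξ)) = eS s w σ X X / (m : ℝ) ^ 2 := by
  rw [avg_congr fun ξ => eS_sel s w σ X ξ,
    avg_sum _ fun (p : E × Bool) (ξ : V → Fin m) =>
      sl s w σ p.1 * (ind ((ξ (w p)).val = 0) * ind ((ξ (w (pt p))).val = 0))]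
  unfold eS
  rw [sum_div]
  refine sum_congr rfl fun p hp => ?_
  rw [avg_mul, avg_two hm (hX p (mem_filter.1 hp).2.1)]
  ring

end

end Exp

theorem stExp (hF : StFlip) : StExp := by
  intro V E _ _ _ _ s B w σ X m hm hX
  have : Nonempty (Fin m) := ⟨⟨0, hm⟩⟩
  rw [avg_congr fun ξ : V → Fin m => hF V E s B w σ (sel X ξ), avg_sub, avg_add, avg_sub,
    avg_const, avg_mul, avg_mul, avg_mul, Exp.avg_sel hm, Exp.avg_sel hm,
    Exp.avg_eS hm s w σ X hX]
  unfold mg
  ring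

end Pool.Agent.MP_32a90a_pr.D

end

section

set_option autoImplicit false

open Finset Equiv Filter Pool.Agent.MP_32a90a_pr Pool.Agent.MP_32a90a_pr.L

namespace Pool.Agent.MP_32a90a_pr.D.Elig

variable {V E : Type} [Fintype V] [DecidableEq V] [Fintype E] [DecidableEq E]

/-- half-edges from v to u -/
def S (w : E × Bool → V) (v u : V) : Finset (E × Bool) :=
  univ.filter fun p => w p = v ∧ w (pt p) = u

omit [Fintype V] in
lemma S_card {w : E × Bool → V} {v : V} (hv : v ∉ badV w) (u : V) : (S w v u).card ≤ 1 := by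
  rw [card_le_one]
  intro p hp q hq
  by_contra hne
  simp only [S, mem_filter, mem_univ, true_and] at hp hq
  apply hv
  refine mem_image.2 ⟨q, ?_, hq.1⟩
  simp only [Bad, mem_filter, mem_univ, true_and]
  exact ⟨p, hne, by simp [dart, hp.1, hp.2, hq.1, hq.2]⟩

omit [Fintype V] [DecidableEq E] in
lemma sum_split (w : E × Bool → V) (v : V) (X : Finset V) (g : E × Bool → ℝ) :
    ∑ p ∈ univ.filter (fun p : E × Bool => w p = v ∧ w (pt p) ∈ X), g p
      = ∑ u ∈ X, ∑ p ∈ S w v u, g p := by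
  rw [← sum_fiberwise_of_maps_to (t := X) (g := fun p => w (pt p))
    (fun p hp => (mem_filter.1 hp).2.2)]
  refine sum_congr rfl fun u hu => sum_congr ?_ fun _ _ => rfl
  ext p
  simp only [S, mem_filter, mem_univ, true_and]
  constructor
  · rintro ⟨⟨h1, _⟩, h3⟩; exact ⟨h1, h3⟩
  · rintro ⟨h1, h3⟩; exact ⟨⟨h1, h3 ▸ hu⟩, h3⟩

omit [Fintype V] [DecidableEq E] in
lemma eS_split (s : E → ℝ) (w : E × Bool → V) (σ : V → Bool) (v : V) (X : Finset V) :
    eS s w σ {v} X = ∑ u ∈ X, ∑ p ∈ S w v u, sl s w σ p.1 := by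
  rw [← sum_split]
  simp only [eS, mem_singleton]

omit [Fintype V] [DecidableEq V] [Fintype E] [DecidableEq E] in
lemma sl_sq {s : E → ℝ} (hs : Tri s) (w : E × Bool → V) (σ : V → Bool) (i : E) :
    sl s w σ i ^ 2 = ind (s i ≠ 0) := by
  have h : Y1 σ (w (i, false)) (w (i, true)) ^ 2 = 1 := by
    unfold Y1
    rcases sgn_cases (σ (w (i, false))) with h | h <;>
      rcases sgn_cases (σ (w (i, true))) with h' | h' <;> rw [h, h'] <;> norm_num
  unfold sl
  rw [mul_pow, h]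
  rcases hs i with h0 | h0 | h0
  · rw [ind_neg (by simp [h0]), h0]; norm_num
  · rw [ind_pos (by simp [h0]), h0]; norm_num
  · rw [ind_pos (by simp [h0]), h0]; norm_num

lemma sq_sum_of_card_le {α : Type} {T : Finset α} (hT : T.card ≤ 1) (g : α → ℝ) :
    (∑ p ∈ T, g p) ^ 2 = ∑ p ∈ T, g p ^ 2 := by
  rcases T.eq_empty_or_nonempty with h | ⟨a, ha⟩
  · simp [h]
  · have : T = {a} := eq_singleton_iff_unique_mem.2 ⟨ha, fun b hb => card_le_one.1 hT b hb a ha⟩
    simp [this]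

/-- the coefficient of u -/
noncomputable def cf (s : E → ℝ) (w : E × Bool → V) (σ : V → Bool) (A : Finset V) (v u : V) : ℝ :=
  if u ∈ A then ∑ p ∈ S w v u, sl s w σ p.1 else 0

omit [Fintype V] in
lemma cf_sq {s : E → ℝ} (hs : Tri s) {w : E × Bool → V} (σ : V → Bool) (A : Finset V) {v : V}
    (hv : v ∉ badV w) (u : V) :
    cf s w σ A v u ^ 2 = if u ∈ A then ∑ p ∈ S w v u, ind (s p.1 ≠ 0) else 0 := by
  unfold cf
  split_ifs
  · rw [sq_sum_of_card_le (S_card hv u)]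
    exact sum_congr rfl fun p _ => sl_sq hs w σ p.1
  · norm_num

omit [Fintype V] in
lemma cf_abs {s : E → ℝ} (hs : Tri s) {w : E × Bool → V} (σ : V → Bool) (A : Finset V) {v : V}
    (hv : v ∉ badV w) (u : V) : |cf s w σ A v u| ≤ 1 := by
  rw [← sq_le_one_iff_abs_le_one, cf_sq hs σ A hv u]
  split_ifs
  · calc ∑ p ∈ S w v u, ind (s p.1 ≠ 0) ≤ ∑ _p ∈ S w v u, (1 : ℝ) :=
          sum_le_sum fun p _ => ind_le_one _
      _ = (S w v u).card := by simp
      _ ≤ 1 := by exact_mod_cast S_card hv u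
  · norm_num

lemma cf_sum_sq {s : E → ℝ} (hs : Tri s) {w : E × Bool → V} (σ : V → Bool) (A : Finset V) {v : V}
    (hv : v ∉ badV w) : ∑ u, cf s w σ A v u ^ 2 = nz s w v A := by
  classical
  simp only [cf_sq hs σ A hv]
  rw [← sum_filter, filter_mem_eq_inter, univ_inter, ← sum_split w v A fun p => ind (s p.1 ≠ 0),
    sum_filter, nz, card_filter]
  push_cast
  refine sum_congr rfl fun p _ => ?_
  by_cases h1 : w p = v <;> by_cases h2 : w (pt p) ∈ A <;> by_cases h3 : s p.1 = 0 <;>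
    simp [ind, h1, h2, h3]

omit [DecidableEq E] in
lemma cf_sum (s : E → ℝ) (w : E × Bool → V) (σ : V → Bool) (A : Finset V) (v : V) :
    ∑ u, cf s w σ A v u = eS s w σ {v} A := by
  unfold cf
  rw [← sum_filter, filter_mem_eq_inter, univ_inter, eS_split]

omit [DecidableEq E] in
lemma eS_sel (s : E → ℝ) (w : E × Bool → V) (σ : V → Bool) (A : Finset V) (v : V) {m : ℕ}
    (ξ : V → Fin m) :
    eS s w σ {v} (sel A ξ) = Wm (cf s w σ A v) ξ + eS s w σ {v} A / m := by
  have h1 : eS s w σ {v} (sel A ξ) = ∑ u, cf s w σ A v u * ind ((ξ u).val = 0) := by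
    rw [eS_split, sel, sum_filter]
    unfold cf
    rw [← sum_subset (subset_univ A) (fun u _ hu => by simp [hu])]
    refine sum_congr rfl fun u hu => ?_
    by_cases h : (ξ u).val = 0
    · simp [h, hu, ind]
    · simp [h, ind]
  rw [h1, ← cf_sum, Wm, sum_div, ← sum_add_distrib]
  exact sum_congr rfl fun u _ => by ring

end Pool.Agent.MP_32a90a_pr.D.Elig

namespace Pool.Agent.MP_32a90a_pr.D

open Elig

theorem stElig (h1 : StMom) (h2 : StPZ) : StElig := by
  intro V E _ _ _ _ s w σ A v m L hs hv hm hL hnz hlow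
  haveI : NeZero m := ⟨by omega⟩
  have hmR : (2 : ℝ) ≤ m := by exact_mod_cast hm
  have hm0 : (0 : ℝ) < m := by linarith
  obtain ⟨e1, e2, e4⟩ := h1 V m (cf s w σ A v) (by omega) (cf_abs hs σ A hv)
  rw [cf_sum_sq hs σ A hv] at e2
  set t : ℝ := 1 / m * (1 - 1 / m) * (nz s w v A : ℝ) with ht
  have hhalf : (1 : ℝ) / 2 ≤ 1 - 1 / m := by
    have : (1 : ℝ) / m ≤ 1 / 2 := one_div_le_one_div_of_le (by norm_num) hmR
    linarith
  have hL2 : 1 ≤ L ^ 2 := one_le_pow₀ hL
  have htl : 2 ^ 26 * L ^ 2 ≤ t := by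
    have a1 : 2 ^ 27 * L ^ 2 ≤ 1 / m * (nz s w v A : ℝ) := by
      rw [one_div, ← div_eq_inv_mul, le_div_iff₀ hm0]; linarith
    have a2 : t = (1 - 1 / m) * (1 / m * (nz s w v A : ℝ)) := by rw [ht]; ring
    rw [a2]
    calc 2 ^ 26 * L ^ 2 = 1 / 2 * (2 ^ 27 * L ^ 2) := by ring
      _ ≤ (1 - 1 / m) * (1 / m * (nz s w v A : ℝ)) :=
        mul_le_mul hhalf a1 (by positivity) (by linarith)
  have hsq : 8192 * L ≤ Real.sqrt t := by
    apply Real.le_sqrt_of_sq_le
    calc (8192 * L) ^ 2 = 2 ^ 26 * L ^ 2 := by ring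
      _ ≤ t := htl
  have hpz := h2 (V → Fin m) (fun ξ => Wm (cf s w σ A v) ξ) t (by linarith) e1 e2
    (by rw [e2] at e4; exact e4)
  refine hpz.trans (avg_mono fun ξ => ind_mono fun hξ => ?_)
  rw [eS_sel]
  have : -(4 * L) ≤ eS s w σ {v} A / m := by
    rw [le_div_iff₀ hm0]; linarith
  linarith

end Pool.Agent.MP_32a90a_pr.D

end

section

set_option autoImplicit false

namespace Pool.Agent.MP_32a90a_pr.D

open Finset Equiv Filter Pool.Agent.MP_32a90a_pr Pool.Agent.MP_32a90a_pr.L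

namespace Cnt

variable {V E : Type} [Fintype V] [DecidableEq V] [Fintype E] [DecidableEq E]

omit [Fintype V] [DecidableEq E] in
lemma eS_update {m : ℕ} (s : E → ℝ) (w : E × Bool → V) (σ : V → Bool) (A : Finset V)
    (ξ : V → Fin m) (u v : V) (o : Fin m) (h : ¬ (u ∈ A ∧ v ∈ Nb w u)) :
    eS s w σ {v} (sel A (Function.update ξ u o)) = eS s w σ {v} (sel A ξ) := by
  unfold eS
  refine sum_congr (filter_congr fun p _ => and_congr_right fun hp => ?_) fun _ _ => rfl
  unfold sel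
  rw [mem_filter, mem_filter]
  refine and_congr_right fun hA => ?_
  have hu : w (pt p) ≠ u := by
    rintro rfl
    refine h ⟨hA, ?_⟩
    have := mem_Nb w (pt p)
    rwa [pt_pt, mem_singleton.1 hp] at this
  rw [Function.update_of_ne hu]

lemma abs_ind_le (P Q : Prop) : |ind P - ind Q| ≤ 1 := by
  rw [abs_le]
  constructor <;> linarith [ind_nonneg P, ind_nonneg Q, ind_le_one P, ind_le_one Q]

omit [Fintype V] [DecidableEq E] in
lemma diff_le {m d : ℕ} (s : E → ℝ) {w : E × Bool → V} (hd : Deg w d) (σ : V → Bool)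
    (A B' : Finset V) (t : ℝ) (ξ : V → Fin m) (u : V) (o : Fin m) :
    |∑ v ∈ B', ind (t ≤ eS s w σ {v} (sel A (Function.update ξ u o))) -
      ∑ v ∈ B', ind (t ≤ eS s w σ {v} (sel A ξ))| ≤ if u ∈ A then (d : ℝ) else 0 := by
  rw [← sum_sub_distrib]
  refine (abs_sum_le_sum_abs _ _).trans ?_
  split_ifs with hu
  · calc _ ≤ ∑ v ∈ B', if v ∈ Nb w u then (1 : ℝ) else 0 := by
          refine sum_le_sum fun v _ => ?_
          split_ifs with hv
          · exact abs_ind_le _ _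
          · rw [eS_update s w σ A ξ u v o fun h => hv h.2, sub_self, abs_zero]
      _ = ((B' ∩ Nb w u).card : ℝ) := by
          rw [sum_ite_mem, sum_const, nsmul_eq_mul, mul_one]
      _ ≤ d := by exact_mod_cast (card_le_card inter_subset_right).trans (Nb_card hd u)
  · refine (sum_eq_zero fun v _ => ?_).le
    rw [eS_update s w σ A ξ u v o fun h => hu h.1, sub_self, abs_zero]

end Cnt

open Cnt in
theorem stCnt (h : StVar) : StCnt := by
  intro V E _ _ _ _ s w σ A B' d m n0 t hd hm hn hdn hA hB hv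
  have : Nonempty (Fin m) := ⟨⟨0, hm⟩⟩
  set f : (V → Fin m) → ℝ := fun ξ => ∑ v ∈ B', ind (t ≤ eS s w σ {v} (sel A ξ)) with hf
  have hn' : (0 : ℝ) < n0 := by exact_mod_cast hn
  have hdn' : (2 : ℝ) ^ 19 * d ^ 2 ≤ n0 := by exact_mod_cast hdn
  have hA' : (A.card : ℝ) ≤ 2 * n0 := by exact_mod_cast hA
  have hB' : (n0 : ℝ) ≤ 2 * B'.card := by exact_mod_cast hB
  have h1 : (n0 : ℝ) / 128 ≤ avg f := by
    rw [hf, avg_sum]
    have := card_nsmul_le_sum B' _ _ hv
    rw [nsmul_eq_mul] at this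
    linarith
  have h2 := h V (Fin m) f (fun u => if u ∈ A then (d : ℝ) else 0)
    fun ξ u o => diff_le s hd σ A B' t ξ u o
  have h3 : ∑ u, (if u ∈ A then (d : ℝ) else 0) ^ 2 = A.card * (d : ℝ) ^ 2 := by
    simp only [ite_pow, ne_eq, OfNat.ofNat_ne_zero, not_false_eq_true, zero_pow]
    rw [sum_ite_mem, univ_inter, sum_const, nsmul_eq_mul]
  have ht : (0 : ℝ) < (n0 / 256) ^ 2 := by positivity
  refine le_trans (avg_mono (g := fun ξ => (f ξ - avg f) ^ 2 / (n0 / 256) ^ 2) fun ξ => ?_) ?_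
  · refine le_trans (ind_mono fun hξ => ?_) (ind_le_div (sq_nonneg _) ht)
    have h5 : ∀ S : Finset V, (∀ v, v ∈ S ↔ v ∈ B' ∧ t ≤ eS s w σ {v} (sel A ξ)) →
        f ξ = S.card := by
      intro S hS
      rw [card_eq_sum_ones, Nat.cast_sum, Nat.cast_one]
      refine (sum_subset (fun v hv => ((hS v).1 hv).1) fun v h6 h7 => ?_).symm.trans
        (sum_congr rfl fun v h6 => ind_pos ((hS v).1 h6).2)
      exact ind_neg fun h8 => h7 ((hS v).2 ⟨h6, h8⟩)
    have h6 : 256 * f ξ < n0 := by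
      rw [h5 _ fun v => mem_filter]
      exact_mod_cast hξ
    have h7 : (n0 : ℝ) / 256 ≤ avg f - f ξ := by linarith
    rw [← neg_sub, neg_sq]
    exact pow_le_pow_left₀ (by positivity) h7 2
  · rw [avg_div, div_le_iff₀ ht]
    refine h2.trans ?_
    rw [h3]
    have h8 : (A.card : ℝ) * d ^ 2 ≤ 2 * n0 * d ^ 2 :=
      mul_le_mul_of_nonneg_right hA' (sq_nonneg _)
    have h9 : (n0 : ℝ) * (2 ^ 19 * d ^ 2) ≤ n0 * n0 := mul_le_mul_of_nonneg_left hdn' hn'.le
    nlinarith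

end Pool.Agent.MP_32a90a_pr.D

end

section

set_option autoImplicit false

namespace Pool.Agent.MP_32a90a_pr.D

open Finset Equiv Filter Pool.Agent.MP_32a90a_pr Pool.Agent.MP_32a90a_pr.L

namespace Sel

variable {V E : Type} [DecidableEq V] [Fintype E]
  (s : E → ℝ) (w : E × Bool → V) (σ : V → Bool)

omit [DecidableEq V] [Fintype E] in
lemma sl_eq (p : E × Bool) :
    sl s w σ p.1 = s p.1 * (sgn (σ (w p)) * sgn (σ (w (pt p)))) := by
  rcases p with ⟨i, b⟩
  cases b
  · simp [sl, Y1, pt]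
  · simp [sl, Y1, pt, mul_comm]

lemma eS_comm (X Y : Finset V) : eS s w σ X Y = eS s w σ Y X := by
  unfold eS
  refine sum_nbij' pt pt ?_ ?_ ?_ ?_ ?_
  · intro p hp; simp only [mem_filter, mem_univ, true_and, pt_pt] at hp ⊢; exact hp.symm
  · intro p hp; simp only [mem_filter, mem_univ, true_and, pt_pt] at hp ⊢; exact hp.symm
  · intro p _; exact pt_pt p
  · intro p _; exact pt_pt p
  · intro p _; rfl

lemma eS_split (Y A : Finset V) : eS s w σ Y A = ∑ v ∈ Y, eS s w σ {v} A := by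
  simp only [eS, sum_filter]
  rw [sum_comm]
  refine sum_congr rfl fun p _ => ?_
  by_cases h : w (pt p) ∈ A
  · simp [h]
  · simp [h]

omit [DecidableEq V] [Fintype E] in
lemma sgn_not (b : Bool) : sgn (!b) = -sgn b := by cases b <;> simp [sgn]

lemma loc_flp (A : Finset V) {v : V} (hv : v ∉ A) :
    loc s w (flp σ A) v = loc s w σ v - 2 * eS s w σ {v} A := by
  simp only [loc, eS, sum_filter, mul_sum]
  rw [← sum_sub_distrib]
  refine sum_congr rfl fun p _ => ?_
  by_cases h : w p = v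
  · rw [sl_eq, sl_eq]
    by_cases h' : w (pt p) ∈ A
    · simp only [h, h', flp, hv, if_true, if_false, mem_singleton, and_self, sgn_not]; ring
    · simp only [h, h', flp, hv, if_true, if_false, and_false]; ring
  · simp [h]

lemma eS_flp {A Y : Finset V} (h : Disjoint A Y) :
    eS s w (flp σ A) Y Y = eS s w σ Y Y := by
  refine sum_congr rfl fun p hp => ?_
  obtain ⟨h1, h2⟩ := (mem_filter.1 hp).2
  rw [sl_eq, sl_eq]
  simp only [flp, disjoint_right.1 h h1, disjoint_right.1 h h2, if_false]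

end Sel

theorem stSel : StSel := by
  classical
  intro V E _ _ _ _ s w σ A B1 n0 b ν hb hB hY hZ
  set Y := B1.filter fun v => eS s w σ {v} A < -(4 * b) with hYd
  set Z := B1.filter fun v => (nz s w v A : ℝ) < ν with hZd
  have h1 : 4 * Y.card ≤ n0 := by
    have h := hY Y (filter_subset _ _)
    rw [Sel.eS_comm, Sel.eS_split] at h
    have h2 : ∑ v ∈ Y, eS s w σ {v} A ≤ Y.card • (-(4 * b)) :=
      sum_le_card_nsmul _ _ _ fun v hv => (mem_filter.1 hv).2.le
    rw [nsmul_eq_mul] at h2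
    have h3 : b * (4 * (Y.card : ℝ)) ≤ b * n0 := by linarith
    exact_mod_cast le_of_mul_le_mul_left h3 hb
  refine ⟨B1.filter fun v => ν ≤ (nz s w v A : ℝ) ∧ -(4 * b) ≤ eS s w σ {v} A,
    filter_subset _ _, ?_, fun v hv => (mem_filter.1 hv).2⟩
  set B' := B1.filter fun v => ν ≤ (nz s w v A : ℝ) ∧ -(4 * b) ≤ eS s w σ {v} A with hB'
  have h4 : B1 ⊆ B' ∪ (Y ∪ Z) := by
    intro v hv
    simp only [hB', hYd, hZd, mem_union, mem_filter, hv, true_and]
    by_cases a : ν ≤ (nz s w v A : ℝ)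
    · by_cases c : -(4 * b) ≤ eS s w σ {v} A
      · exact Or.inl ⟨a, c⟩
      · exact Or.inr (Or.inl (not_le.1 c))
    · exact Or.inr (Or.inr (not_le.1 a))
  have h5 := (card_le_card h4).trans ((card_union_le _ _).trans
    (Nat.add_le_add_left (card_union_le _ _) _))
  omega

theorem stTwo (h : StExp) : StTwo := by
  intro V E _ _ _ _ s B w σ A' Y m L t R hm hB hd hbad hL ht hR
  haveI : Nonempty (Fin m) := ⟨⟨0, by omega⟩⟩
  have hloop : ∀ p, w p ∈ Y → w (pt p) ≠ w p := by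
    intro p hp e
    refine hbad _ hp (mem_image.2 ⟨p, ?_, rfl⟩)
    refine mem_filter.2 ⟨mem_univ _, pt p, pt_ne p, ?_⟩
    simp [dart, e]
  have hE := h V E s B w (flp σ A') Y m hm hloop
  obtain ⟨ξ, hξ⟩ := exists_le_avg fun ξ : V → Fin m => -HH s B w (flp (flp σ A') (sel Y ξ))
  rw [avg_neg, hE, Sel.eS_flp s w σ hd] at hξ
  refine ⟨flp (flp σ A') (sel Y ξ), ?_⟩
  have hm0 : (0 : ℝ) < m := by exact_mod_cast hm
  have h1 : ∑ v ∈ Y, loc s w (flp σ A') v ≤ Y.card • (L - 2 * t) :=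
    sum_le_card_nsmul _ _ _ fun v hv => by
      rw [Sel.loc_flp s w σ A' (disjoint_right.1 hd hv)]
      linarith [hL v hv, ht v hv]
  rw [nsmul_eq_mul] at h1
  have h2 : |mg (flp σ A') Y| ≤ Y.card := by
    refine (abs_sum_le_sum_abs _ _).trans ?_
    simp
  have h3 : B * mg (flp σ A') Y ≤ Y.card := by
    refine (le_abs_self _).trans ?_
    rw [abs_mul]
    nlinarith [abs_nonneg B, abs_nonneg (mg (flp σ A') Y)]
  have h4 : 2 * (2 * t - L - 1) * Y.card / m ≤
      -(2 * (∑ v ∈ Y, loc s w (flp σ A') v) / m) - 2 * B * mg (flp σ A') Y / m := by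
    rw [← neg_div, ← sub_div]
    exact div_le_div_of_nonneg_right (by linarith) hm0.le
  have h5 : -(2 * R / (m : ℝ) ^ 2) ≤ 2 * eS s w σ Y Y / (m : ℝ) ^ 2 := by
    rw [← neg_div]
    exact div_le_div_of_nonneg_right (by linarith) (by positivity)
  linarith

end Pool.Agent.MP_32a90a_pr.D

end

section

set_option autoImplicit false

namespace Pool.Agent.MP_32a90a_pr.D

open Finset Equiv Filter Pool.Agent.MP_32a90a_pr Pool.Agent.MP_32a90a_pr.L

namespace Core

variable {V E : Type} [Fintype V] [DecidableEq V] [Fintype E] [DecidableEq E]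

omit [Fintype V] in
lemma no_loop {w : E × Bool → V} {p : E × Bool} (hv : w p ∉ badV w) : w (pt p) ≠ w p := by
  intro h
  refine hv (mem_image.2 ⟨p, mem_filter.2 ⟨mem_univ _, pt p, ?_, ?_⟩, rfl⟩)
  · obtain ⟨a, b⟩ := p
    cases b <;> simp [pt]
  · simp [dart, h]

omit [Fintype V] [DecidableEq V] in
lemma abs_mg (σ : V → Bool) (X : Finset V) : |mg σ X| ≤ X.card := by
  refine (abs_sum_le_sum_abs _ _).trans ?_
  simp

lemma exists_ge {α : Type} [Fintype α] [Nonempty α] (f : α → ℝ) : ∃ a, avg f ≤ f a := by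
  obtain ⟨a, h⟩ := exists_le_avg fun a => -f a
  rw [avg_neg] at h
  exact ⟨a, by linarith⟩

open Classical in
/-- first stage: a well connected half on which the push is often large -/
lemma half (h2 : StElig) (h3 : StCnt) (h4 : StSel) {s : E → ℝ} {w : E × Bool → V} {σ : V → Bool}
    {A B1 : Finset V} {d m n0 : ℕ} {L : ℝ} (hd : Deg w d) (hs : Tri s) (hL : 1 ≤ L) (hm : 2 ≤ m)
    (hn : 0 < n0) (hdn : 2 ^ 19 * d ^ 2 ≤ n0) (hA : A.card = 2 * n0) (hB : B1.card = n0)
    (hb : ∀ v ∈ B1, v ∉ badV w) (hY : ∀ Y ⊆ B1, -eS s w σ A Y ≤ m * L * n0)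
    (hz : 4 * (B1.filter fun v => (nz s w v A : ℝ) < 2 ^ 27 * m * L ^ 2).card ≤ n0) :
    ∃ B' ⊆ B1, avg (fun ξ : V → Fin m =>
      ind (256 * (B'.filter fun v => 1020 * L ≤ eS s w σ {v} (sel A ξ)).card < n0)) ≤ 1 / 4 := by
  have hm' : (0 : ℝ) < m := by exact_mod_cast (by omega : 0 < m)
  obtain ⟨B', h5, h6, h7⟩ := h4 V E s w σ A B1 n0 (m * L) _ (by positivity) hB hY hz
  refine ⟨B', h5, h3 V E s w σ A B' d m n0 _ hd (by omega) hn hdn hA.le h6 fun v hv =>
    h2 V E s w σ A v m L hs (hb v (h5 hv)) hm hL (h7 v hv).1 ?_⟩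
  rw [mul_assoc]
  exact (h7 v hv).2

end Core

open Classical in
theorem stCore (h1 : StExp) (h2 : StElig) (h3 : StCnt) (h4 : StSel) (h5 : StTwo) : StCore := by
  intro V E _ _ _ _ s B w σ A B1 B2 d m n0 L hd hs hB hL hm hn hdn hA hB1 hB2 d1 d2 d3 hv hAA hAY
    hYY z1 z2
  have m1 : ∀ v ∈ B1, v ∈ A ∪ B1 ∪ B2 := fun v h => mem_union_left _ (mem_union_right _ h)
  have m2 : ∀ v ∈ B2, v ∈ A ∪ B1 ∪ B2 := fun v h => mem_union_right _ h
  have m0 : ∀ v ∈ A, v ∈ A ∪ B1 ∪ B2 := fun v h => mem_union_left _ (mem_union_left _ h)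
  obtain ⟨C1, c1, e1⟩ := Core.half h2 h3 h4 hd hs hL hm hn hdn hA hB1 (fun v h => (hv v (m1 v h)).1)
    (fun Y h => hAY Y (h.trans subset_union_left)) z1
  obtain ⟨C2, c2, e2⟩ := Core.half h2 h3 h4 hd hs hL hm hn hdn hA hB2 (fun v h => (hv v (m2 v h)).1)
    (fun Y h => hAY Y (h.trans subset_union_right)) z2
  have hm' : (0 : ℝ) < m := by exact_mod_cast (by omega : 0 < m)
  have hn' : (0 : ℝ) < n0 := by exact_mod_cast hn
  have : Nonempty (Fin m) := ⟨⟨0, by omega⟩⟩
  obtain ⟨u, hu⟩ : ∃ u : ℝ, u = L * n0 / m := ⟨_, rfl⟩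
  have hu0 : 0 ≤ u := by rw [hu]; positivity
  have hR : 2 * (m * L * n0) / (m : ℝ) ^ 2 = 2 * u := by rw [hu]; field_simp
  have e0 := h1 V E s B w σ A m (by omega) fun p hp => Core.no_loop (hv _ (m0 _ hp)).1
  have a1 : 2 * (∑ v ∈ A, loc s w σ v) / m ≤ 4 * u := by
    have : ∑ v ∈ A, loc s w σ v ≤ 2 * n0 * L := by
      have := sum_le_card_nsmul A _ L fun v h => (hv v (m0 v h)).2
      rw [hA, nsmul_eq_mul] at this
      exact_mod_cast this
    rw [hu, ← mul_div_assoc]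
    exact div_le_div_of_nonneg_right (by linarith) hm'.le
  have a2 : -(2 * u) ≤ 2 * eS s w σ A A / (m : ℝ) ^ 2 := by
    rw [← hR, ← neg_div]
    exact div_le_div_of_nonneg_right (by linarith) (by positivity)
  have a3 : 2 * B * mg σ A / m ≤ 4 * u := by
    have h6 := Core.abs_mg σ A
    rw [hA] at h6
    push_cast at h6
    have h7 : B * mg σ A ≤ 1 * (2 * n0) :=
      (le_abs_self _).trans (by rw [abs_mul]; exact mul_le_mul hB h6 (abs_nonneg _) one_pos.le)
    rw [hu, ← mul_div_assoc]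
    exact div_le_div_of_nonneg_right (by nlinarith) hm'.le
  obtain ⟨ξ, hξ⟩ := Core.exists_ge fun ξ : V → Fin m => HH s B w (flp σ (sel A ξ)) + 29 * u *
    (1 - ind (256 * (C1.filter fun v => 1020 * L ≤ eS s w σ {v} (sel A ξ)).card < n0) -
      ind (256 * (C2.filter fun v => 1020 * L ≤ eS s w σ {v} (sel A ξ)).card < n0))
  rw [avg_add, avg_mul, avg_sub, avg_sub, avg_const, e0] at hξ
  have a4 := mul_le_mul_of_nonneg_left (add_le_add e1 e2) hu0
  rw [← hu]
  by_cases b1 : 256 * (C1.filter fun v => 1020 * L ≤ eS s w σ {v} (sel A ξ)).card < n0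
  · refine ⟨flp σ (sel A ξ), ?_⟩
    rw [ind_pos b1] at hξ
    have := mul_nonneg hu0
      (ind_nonneg (256 * (C2.filter fun v => 1020 * L ≤ eS s w σ {v} (sel A ξ)).card < n0))
    nlinarith
  by_cases b2 : 256 * (C2.filter fun v => 1020 * L ≤ eS s w σ {v} (sel A ξ)).card < n0
  · refine ⟨flp σ (sel A ξ), ?_⟩
    rw [ind_pos b2, ind_neg b1] at hξ
    nlinarith
  rw [ind_neg b1, ind_neg b2] at hξ
  obtain ⟨Y1, y1, k1⟩ := exists_subset_card_eq (n := (n0 + 255) / 256)
    (s := C1.filter fun v => 1020 * L ≤ eS s w σ {v} (sel A ξ)) (by omega)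
  obtain ⟨Y2, y2, k2⟩ := exists_subset_card_eq (n := (n0 + 255) / 256)
    (s := C2.filter fun v => 1020 * L ≤ eS s w σ {v} (sel A ξ)) (by omega)
  have s1 : Y1 ⊆ B1 := y1.trans ((filter_subset _ _).trans c1)
  have s2 : Y2 ⊆ B2 := y2.trans ((filter_subset _ _).trans c2)
  have s3 : ∀ v ∈ Y1 ∪ Y2, v ∈ A ∪ B1 ∪ B2 := fun v h =>
    (mem_union.1 h).elim (fun h => m1 v (s1 h)) fun h => m2 v (s2 h)
  obtain ⟨σ', hσ⟩ := h5 V E s B w σ (sel A ξ) (Y1 ∪ Y2) m L (1020 * L) (m * L * n0) (by omega) hB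
    (disjoint_union_right.2 ⟨d1.mono (filter_subset _ _) s1, d2.mono (filter_subset _ _) s2⟩)
    (fun v h => (hv v (s3 v h)).1) (fun v h => (hv v (s3 v h)).2)
    (fun v h => (mem_union.1 h).elim (fun h => (mem_filter.1 (y1 h)).2)
      fun h => (mem_filter.1 (y2 h)).2)
    (hYY Y1 s1 Y2 s2 (k1.trans k2.symm))
  refine ⟨σ', ?_⟩
  have k3 : n0 ≤ 128 * (Y1 ∪ Y2).card := by
    rw [card_union_of_disjoint (d3.mono s1 s2), k1, k2]
    omega
  have k4 : (n0 : ℝ) ≤ 128 * (Y1 ∪ Y2).card := by exact_mod_cast k3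
  have a5 : 31 * u ≤ 2 * (2 * (1020 * L) - L - 1) * (Y1 ∪ Y2).card / m := by
    rw [hu, ← mul_div_assoc]
    refine div_le_div_of_nonneg_right ?_ hm'.le
    have h8 : (0 : ℝ) ≤ (Y1 ∪ Y2).card := Nat.cast_nonneg _
    nlinarith [mul_le_mul_of_nonneg_left k4 (by linarith : (0 : ℝ) ≤ L),
      mul_le_mul_of_nonneg_right hL h8]
  rw [hR] at hσ
  nlinarith

end Pool.Agent.MP_32a90a_pr.D

end

section

set_option autoImplicit false

namespace Pool.Agent.MP_32a90a_pr.D

open Finset Equiv Filter Pool.Agent.MP_32a90a_pr Pool.Agent.MP_32a90a_pr.L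

namespace Nz

lemma one_le_ell {d : ℕ} (hd : 8 ≤ d) : 1 ≤ ell d := by
  have h8 : (8 : ℝ) ≤ d := by exact_mod_cast hd
  unfold ell
  rw [Real.le_log_iff_exp_le (by linarith)]
  linarith [Real.exp_one_lt_d9]

lemma abs_mg_le {V : Type} (σ : V → Bool) (X : Finset V) : |mg σ X| ≤ X.card := by
  unfold mg
  refine (abs_sum_le_sum_abs _ _).trans ?_
  have : ∀ v ∈ X, |sgn (σ v)| = 1 := by
    intro v _
    unfold sgn
    split_ifs <;> simp
  rw [sum_congr rfl this]
  simp

lemma count_le {V E : Type} [Fintype V] [DecidableEq V] [Fintype E] [DecidableEq E]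
    (s : E → ℝ) (w : E × Bool → V) (U A : Finset E) (X A0 : Finset V)
    (hs : ∀ i, i ∉ U → s i ≠ 0) :
    (univ.filter fun i : E => i ∉ U ∧ i ∉ A ∧ w (i, false) ∈ X ∧ w (i, true) ∈ A0).card
      ≤ ∑ v ∈ X, nz s w v A0 := by
  classical
  rw [card_eq_sum_card_fiberwise (f := fun i : E => w (i, false)) (t := X)
    (fun i hi => (mem_filter.1 (mem_coe.1 hi)).2.2.2.1)]
  refine sum_le_sum fun v _ => ?_
  unfold nz
  refine card_le_card_of_injOn (fun i => (i, false)) (fun i hi => ?_) (fun i _ j _ h => ?_)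
  · simp only [coe_filter, mem_filter, mem_univ, true_and, Set.mem_ofPred_eq] at hi ⊢
    exact ⟨hi.2, by simpa [pt] using hi.1.2.2.2, hs i hi.1.1⟩
  · exact (Prod.ext_iff.1 h).1

lemma num1 (d n N x l c : ℝ) (hd : 8 ≤ d) (hN : 0 < N) (hl : 1 ≤ l) (hx : n < 4 * x)
    (hn : 0 < n) (h : 152 * l * N ≤ d * n)
    (h1 : d / 8 * x * (2 * n) / N - 2 * l * (x + 2 * n) - 5 * N / d ^ 2 ≤ c)
    (h2 : c < x * (d * n / (8 * N))) : False := by
  have hx0 : 0 < x := by linarith
  have hD : 152 * l ≤ d * n / N := by rw [le_div_iff₀ hN]; exact h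
  have e1 : d / 8 * x * (2 * n) / N = x * (d * n / N) / 4 := by field_simp; ring
  have e2 : x * (d * n / (8 * N)) = x * (d * n / N) / 8 := by field_simp
  have a1 : x * (152 * l) ≤ x * (d * n / N) := mul_le_mul_of_nonneg_left hD hx0.le
  have a2 : l * n ≤ l * (4 * x) := mul_le_mul_of_nonneg_left hx.le (by linarith)
  have a3 : 5 * N / d ^ 2 ≤ l * x := by
    rw [div_le_iff₀ (by positivity)]
    have b1 : N ≤ l * N := le_mul_of_one_le_left hN.le hl
    have b2 : d * n ≤ d * (4 * x) := mul_le_mul_of_nonneg_left hx.le (by linarith)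
    have b3 : d * x ≤ l * x * d ^ 2 := by
      have : d * x * 1 ≤ d * x * (l * d) :=
        mul_le_mul_of_nonneg_left (by nlinarith) (by positivity)
      nlinarith
    linarith
  rw [e1] at h1
  rw [e2] at h2
  nlinarith

lemma num2 (d n N x y a m m' l L : ℝ) (hd : 8 ≤ d) (hN : 0 < N) (hl : 1 ≤ l) (hL : 1 ≤ L)
    (hn : 0 < n) (h : 2 ^ 75 * L ^ 2 * l / d * N ≤ n) (hx0 : 0 ≤ x) (hy0 : 0 ≤ y)
    (hx : x ≤ 2 * n) (hy : y ≤ 2 * n) (ha : 0 ≤ a) (hm : 0 ≤ m) (hm' : m' ≤ y)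
    (hA : 2 ^ 35 * a * m * L ≤ d * n * N) :
    3 * d * (1 / (2 ^ 37 * L)) * x * y / N + 4 * a * m * m' / N ^ 2
      + 2 / (1 / (2 ^ 37 * L)) * ((x + y) * (2 * l + 2) + 3 * N / d ^ 2)
      ≤ d * n / (2 ^ 31 * L * N) * n := by
  have hd0 : 0 < d := by linarith
  have hL0 : 0 < L := by linarith
  obtain ⟨D, hD⟩ : ∃ D, D = d * n * n / (L * N) := ⟨_, rfl⟩
  have hD0 : 0 < D := by rw [hD]; positivity
  have e0 : d * n / (2 ^ 31 * L * N) * n = D / 2 ^ 31 := by rw [hD]; field_simp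
  have h' : 2 ^ 75 * L ^ 2 * l * N ≤ n * d := by
    rw [div_mul_eq_mul_div, div_le_iff₀ hd0] at h; exact h
  have t1 : 3 * d * (1 / (2 ^ 37 * L)) * x * y / N ≤ 12 * D / 2 ^ 37 := by
    have : x * y ≤ 2 * n * (2 * n) := mul_le_mul hx hy hy0 (by linarith)
    calc 3 * d * (1 / (2 ^ 37 * L)) * x * y / N = 3 * d / (2 ^ 37 * L * N) * (x * y) := by
          field_simp
      _ ≤ 3 * d / (2 ^ 37 * L * N) * (2 * n * (2 * n)) :=
          mul_le_mul_of_nonneg_left this (by positivity)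
      _ = 12 * D / 2 ^ 37 := by rw [hD]; field_simp; ring
  have t2 : 4 * a * m * m' / N ^ 2 ≤ 32 * D / 2 ^ 37 := by
    have b1 : a * m ≤ d * n * N / (2 ^ 35 * L) := by
      rw [le_div_iff₀ (by positivity)]; linarith
    have b2 : a * m * m' ≤ d * n * N / (2 ^ 35 * L) * (2 * n) :=
      (mul_le_mul_of_nonneg_left (hm'.trans hy) (by positivity)).trans
        (mul_le_mul_of_nonneg_right b1 (by linarith))
    calc 4 * a * m * m' / N ^ 2 = 4 / N ^ 2 * (a * m * m') := by field_simp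
      _ ≤ 4 / N ^ 2 * (d * n * N / (2 ^ 35 * L) * (2 * n)) :=
          mul_le_mul_of_nonneg_left b2 (by positivity)
      _ = 32 * D / 2 ^ 37 := by rw [hD]; field_simp; ring
  have t3 : 2 / (1 / (2 ^ 37 * L)) * ((x + y) * (2 * l + 2) + 3 * N / d ^ 2)
      ≤ 17 * D / 2 ^ 37 := by
    have b1 : (x + y) * (2 * l + 2) ≤ 4 * n * (4 * l) :=
      mul_le_mul (by linarith) (by linarith) (by linarith) (by linarith)
    have b0 : N ≤ L ^ 2 * l * N :=
      le_mul_of_one_le_left hN.le (one_le_mul_of_one_le_of_one_le (one_le_pow₀ hL) hl)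
    have b2 : 3 * N / d ^ 2 ≤ n * l := by
      rw [div_le_iff₀ (by positivity)]
      have : n * d * 1 ≤ n * d * (l * d) :=
        mul_le_mul_of_nonneg_left (by nlinarith) (by positivity)
      nlinarith
    have b3 : 2 ^ 75 * (L * (n * l)) ≤ D := by
      rw [hD, le_div_iff₀ (by positivity)]
      have := mul_le_mul_of_nonneg_left h' hn.le
      linarith
    calc 2 / (1 / (2 ^ 37 * L)) * ((x + y) * (2 * l + 2) + 3 * N / d ^ 2)
        ≤ 2 / (1 / (2 ^ 37 * L)) * (17 * (n * l)) :=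
          mul_le_mul_of_nonneg_left (by linarith) (by positivity)
      _ = 17 * (2 ^ 75 * (L * (n * l))) / 2 ^ 37 := by field_simp
      _ ≤ 17 * D / 2 ^ 37 := by gcongr
  rw [e0]
  linarith

end Nz

theorem stNz : StNz := by
  intro V E _ _ _ _ s w U A A0 B1 d n0 hd hs h3 hn hA hB hN
  by_contra hc
  rw [not_le] at hc
  obtain ⟨X, hX⟩ : ∃ X, X = B1.filter fun v =>
      (nz s w v A0 : ℝ) < d * n0 / (8 * Fintype.card V) := ⟨_, rfl⟩
  have hc' : n0 < 4 * X.card := by rw [hX]; convert hc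
  have hN0 : 0 < Fintype.card V := by
    have := card_le_univ A0
    omega
  have hXne : X.Nonempty := card_pos.1 (by omega)
  have h1 := h3 X A0
  rw [hA] at h1
  push_cast at h1
  refine Nz.num1 d n0 (Fintype.card V) X.card (ell d) _ (by exact_mod_cast hd)
    (by exact_mod_cast hN0) (Nz.one_le_ell hd) (by exact_mod_cast hc') (by exact_mod_cast hn)
    hN h1 ?_
  refine lt_of_le_of_lt (b := ∑ v ∈ X, (nz s w v A0 : ℝ))
    (by exact_mod_cast Nz.count_le s w U A X A0 hs) ?_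
  rw [← nsmul_eq_mul, ← sum_const]
  refine sum_lt_sum_of_nonempty hXne fun v hv => ?_
  rw [hX] at hv
  exact (mem_filter.1 hv).2

theorem stG2o : StG2o := by
  intro V E _ _ _ _ s w A σ X Y d n0 L hd h2 hL hn hN h75 hXY hX hY hA
  have hd' : (8 : ℝ) ≤ d := by exact_mod_cast hd
  have hn' : (0 : ℝ) < n0 := by exact_mod_cast hn
  have hN' : (n0 : ℝ) ≤ Fintype.card V := by exact_mod_cast hN
  have hl := Nz.one_le_ell hd
  have h1 : (1 : ℝ) ≤ 2 ^ 37 * L := by linarith
  have h37 : (2 : ℝ) ^ 37 * L ≤ 2 ^ d := by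
    have a1 : 2 ^ 75 * L ^ 2 * ell d / d ≤ 1 := by
      by_contra hc
      rw [not_le] at hc
      have := mul_lt_mul_of_pos_right hc (hn'.trans_le hN')
      linarith
    rw [div_le_one (by linarith)] at a1
    have a2 : L ≤ L ^ 2 * ell d := by nlinarith
    have a3 : (d : ℝ) ≤ 2 ^ d := by exact_mod_cast (Nat.lt_two_pow_self (n := d)).le
    linarith
  refine (h2 σ X Y (1 / (2 ^ 37 * L)) hXY (one_div_le_one_div_of_le (by linarith) h37)
    ((div_le_one (by linarith)).2 h1)).trans ?_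
  exact Nz.num2 d n0 (Fintype.card V) X.card Y.card A.card |mg σ X| |mg σ Y| (ell d) L hd'
    (hn'.trans_le hN') hl hL hn' h75 (Nat.cast_nonneg _) (Nat.cast_nonneg _)
    (by exact_mod_cast hX) (by exact_mod_cast hY) (Nat.cast_nonneg _) (abs_nonneg _)
    (Nz.abs_mg_le σ Y) hA

end Pool.Agent.MP_32a90a_pr.D

end

section

set_option autoImplicit false

namespace Pool.Agent.MP_32a90a_pr.D

open Finset Equiv Filter Pool.Agent.MP_32a90a_pr Pool.Agent.MP_32a90a_pr.L

namespace PPa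

lemma ell_ge {d : ℕ} (hd : 8 ≤ d) : 1 ≤ ell d := by
  have h : (8 : ℝ) ≤ d := by exact_mod_cast hd
  rw [ell, Real.le_log_iff_exp_le (by linarith)]
  have := Real.exp_one_lt_d9
  linarith

lemma ex_m {d n0 N L l : ℝ} (hd : 0 < d) (hN : 0 < N) (hn : 0 < n0) (hL : 1 ≤ L) (hl : 1 ≤ l)
    (h : 2 ^ 75 * L ^ 2 * l / d * N ≤ n0) :
    152 * l * N ≤ d * n0 ∧ ∃ m : ℕ, 2 ≤ m ∧ d * n0 / (2 ^ 31 * L * N) * n0 ≤ m * L * n0 ∧
      2 ^ 27 * m * L ^ 2 ≤ d * n0 / (8 * N) ∧ 2 ^ 30 * L ^ 3 * N / d ≤ L * n0 / m := by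
  have hL0 : 0 < L := by linarith
  have hL2 : 1 ≤ L ^ 2 := one_le_pow₀ hL
  rw [div_mul_eq_mul_div, div_le_iff₀ hd] at h
  have hlN : 0 < l * N := by positivity
  refine ⟨by nlinarith, ?_⟩
  obtain ⟨y, hy⟩ : ∃ y, y = d * n0 / (2 ^ 30 * L ^ 2 * N) := ⟨_, rfl⟩
  have hy2 : 2 ≤ y := by
    rw [hy, le_div_iff₀ (by positivity)]
    have : 0 < L ^ 2 * N := by positivity
    nlinarith
  have hm2 : 2 ≤ ⌊y⌋₊ := Nat.le_floor (by exact_mod_cast hy2)
  have hm2' : (2 : ℝ) ≤ ⌊y⌋₊ := by exact_mod_cast hm2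
  have hmy : (⌊y⌋₊ : ℝ) ≤ y := Nat.floor_le (by linarith)
  have hym : y < ⌊y⌋₊ + 1 := Nat.lt_floor_add_one y
  refine ⟨⌊y⌋₊, hm2, ?_, ?_, ?_⟩
  · have e : d * n0 / (2 ^ 31 * L * N) * n0 = y / 2 * (L * n0) := by
      rw [hy]; field_simp
    rw [e, mul_assoc]
    exact mul_le_mul_of_nonneg_right (by linarith) (by positivity)
  · have e : d * n0 / (8 * N) = 2 ^ 27 * y * L ^ 2 := by
      rw [hy]; field_simp; norm_num
    rw [e]
    exact mul_le_mul_of_nonneg_right (by linarith) (by positivity)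
  · have e : 2 ^ 30 * L ^ 3 * N / d = L * n0 / y := by
      rw [hy]; field_simp
    rw [e]
    exact div_le_div_of_nonneg_left (by positivity) (by linarith) hmy

end PPa

open PPa in
theorem stPPa (h1 : StCore) (h2 : StNz) (h3 : StG2o) : StPPa := by
  classical
  intro V E _ _ _ _ s B w U A σ A0 B1 B2 d n0 L hd hdeg htri hU hG2 hG3 hB hL hn hn2 cA c1 c2
    d1 d2 d12 hsoft hmA hmY
  have hn0 : 0 < n0 := lt_of_lt_of_le (by positivity) hn2
  have hnN : n0 ≤ Fintype.card V := by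
    have := card_le_univ A0
    omega
  have hd0 : (0 : ℝ) < d := by exact_mod_cast (by omega : 0 < d)
  have hN : (0 : ℝ) < Fintype.card V := by exact_mod_cast hn0.trans_le hnN
  obtain ⟨h152, m, hm2, hR, hν, hgain⟩ :=
    ex_m hd0 hN (by exact_mod_cast hn0) hL (ell_ge hd) hn
  have key : ∀ B' : Finset V, B'.card = n0 →
      4 * (B'.filter fun v => (nz s w v A0 : ℝ) < 2 ^ 27 * m * L ^ 2).card ≤ n0 := by
    intro B' hB'
    refine le_trans (Nat.mul_le_mul_left 4 (card_le_card fun v hv => ?_))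
      (h2 V E s w U A A0 B' d n0 hd hU hG3 hn0 cA hB' h152)
    rw [mem_filter] at hv ⊢
    exact ⟨hv.1, hv.2.trans_le hν⟩
  have cU : ∀ Y ⊆ B1 ∪ B2, Y.card ≤ 2 * n0 := fun Y hY => by
    have := (card_le_card hY).trans (card_union_le B1 B2)
    omega
  obtain ⟨σ', hσ'⟩ := h1 V E s B w σ A0 B1 B2 d m n0 L hdeg htri hB hL hm2 hn0 hn2 cA c1 c2
    d1 d2 d12 hsoft
    ((h3 V E s w A σ A0 A0 d n0 L hd hG2 hL hn0 hnN hn (Or.inl rfl) cA.le cA.le hmA).trans hR)
    (fun Y hY => (h3 V E s w A σ A0 Y d n0 L hd hG2 hL hn0 hnN hn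
      (Or.inr ((disjoint_union_right.2 ⟨d1, d2⟩).mono_right hY)) cA.le (cU Y hY) hmA).trans hR)
    (fun Y1 hY1 Y2 hY2 hc => (h3 V E s w A σ (Y1 ∪ Y2) (Y1 ∪ Y2) d n0 L hd hG2 hL hn0 hnN hn
      (Or.inl rfl) (cU _ (union_subset_union hY1 hY2)) (cU _ (union_subset_union hY1 hY2))
      (hmY Y1 hY1 Y2 hY2 hc)).trans hR)
    (key B1 c1) (key B2 c2)
  exact ⟨σ', by linarith⟩

end Pool.Agent.MP_32a90a_pr.D

end

section

set_option autoImplicit false

namespace Pool.Agent.MP_32a90a_pr.D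

open Finset Equiv Filter Pool.Agent.MP_32a90a_pr Pool.Agent.MP_32a90a_pr.L

namespace P12

lemma setup (d N b : ℕ) (L : ℝ) (hd : 8 ≤ d) (hN : 2 ^ 19 * d ^ 3 ≤ N) (hL : 1 ≤ L)
    (hb : (b : ℝ) ≤ 1 / d * N) :
    ∃ n0 : ℕ, 2 ^ 75 * L ^ 2 * ell d / d * N ≤ n0 ∧ 2 ^ 19 * d ^ 2 ≤ n0 ∧
      ∀ c : ℕ, 10 * 2 ^ 75 * L ^ 2 * ell d / d * N < c → 4 * n0 + b ≤ c := by
  have hd8 : (8 : ℝ) ≤ d := by exact_mod_cast hd
  have hd0 : (0 : ℝ) < d := by linarith
  have hl : 1 / 2 ≤ ell d := by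
    have h1 := Real.one_sub_inv_le_log_of_pos hd0
    have h2 : (d : ℝ)⁻¹ ≤ 1 / 2 := by
      rw [inv_eq_one_div]
      exact one_div_le_one_div_of_le (by norm_num) (by linarith)
    unfold ell
    linarith
  have hL2 : 1 ≤ L ^ 2 := one_le_pow₀ hL
  have h1 : 1 ≤ 2 ^ 75 * L ^ 2 * ell d := by nlinarith
  have hN0 : (0 : ℝ) ≤ N := Nat.cast_nonneg _
  have hNr : 2 ^ 19 * (d : ℝ) ^ 3 ≤ N := by exact_mod_cast hN
  obtain ⟨x, hx⟩ : ∃ x : ℝ, x = 2 ^ 75 * L ^ 2 * ell d / d * N := ⟨_, rfl⟩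
  have h2 : 1 / (d : ℝ) * N ≤ x := by
    rw [hx]
    gcongr
  have h3 : 2 ^ 19 * (d : ℝ) ^ 2 ≤ 1 / d * N := by
    rw [one_div_mul_eq_div, le_div_iff₀ hd0]
    linarith [show 2 ^ 19 * (d : ℝ) ^ 2 * d = 2 ^ 19 * d ^ 3 by ring]
  have h4 : 1 ≤ x := by nlinarith
  have h5 := Nat.le_ceil x
  have h6 := Nat.ceil_lt_add_one (show 0 ≤ x by linarith)
  refine ⟨⌈x⌉₊, hx ▸ h5, ?_, fun c hc => ?_⟩
  · have : 2 ^ 19 * (d : ℝ) ^ 2 ≤ ⌈x⌉₊ := by linarith
    exact_mod_cast this
  · have e : 10 * 2 ^ 75 * L ^ 2 * ell d / d * N = 10 * x := by rw [hx]; ring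
    rw [e] at hc
    have : 4 * (⌈x⌉₊ : ℝ) + b ≤ c := by linarith
    exact_mod_cast this

section
variable {V E : Type} [Fintype V] [DecidableEq V] [Fintype E] [DecidableEq E]

omit [DecidableEq E] in
lemma last (s : E → ℝ) (B : ℝ) (w : E × Bool → V) (σ σ' : V → Bool) (d : ℕ) (L η : ℝ)
    (hd : 8 ≤ d) (hN : 2 ^ 19 * d ^ 3 ≤ Fintype.card V) (hL : 1 ≤ L) (hη : η * d ≤ L ^ 3)
    (h1 : mxH univ s B w - η * Fintype.card V ≤ HH s B w σ)
    (h2 : HH s B w σ + 2 ^ 30 * L ^ 3 * Fintype.card V / d ≤ HH s B w σ') : False := by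
  have h3 : HH s B w σ' ≤ mxH univ s B w :=
    le_ciSup (f := fun τ : (univ : Finset (V → Bool)) => HH s B w τ)
      (Set.finite_range _).bddAbove ⟨σ', mem_univ _⟩
  have hd0 : (0 : ℝ) < d := by exact_mod_cast (show 0 < d by omega)
  have hN0 : (0 : ℝ) < Fintype.card V := by
    have : 0 < 2 ^ 19 * d ^ 3 := by positivity
    exact_mod_cast (show 0 < Fintype.card V by omega)
  have h4 : 2 ^ 30 * L ^ 3 * Fintype.card V / d ≤ η * Fintype.card V := by linarith
  rw [div_le_iff₀ hd0] at h4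
  have h5 : η * Fintype.card V * d ≤ L ^ 3 * Fintype.card V := by nlinarith
  have h6 : 0 < L ^ 3 * Fintype.card V := by positivity
  linarith

omit [Fintype V] [DecidableEq V] in
lemma abs_mg (σ : V → Bool) (X : Finset V) : |mg σ X| ≤ X.card := by
  unfold mg
  refine (abs_sum_le_sum_abs _ _).trans (le_of_eq ?_)
  simp

omit [Fintype V] in
lemma mg_bal (σ : V → Bool) (X Y : Finset V) (hX : ∀ v ∈ X, σ v = true)
    (hY : ∀ v ∈ Y, σ v = false) (hc : X.card = Y.card) : mg σ (X ∪ Y) = 0 := by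
  have hd : Disjoint X Y := disjoint_left.2 fun v h1 h2 => by
    have := (hX v h1).symm.trans (hY v h2)
    simp at this
  unfold mg
  rw [sum_union hd, sum_congr rfl (g := fun _ => 1) (fun v hv => by simp [hX v hv, sgn]),
    sum_congr (s₁ := Y) rfl (g := fun _ => -1) (fun v hv => by simp [hY v hv, sgn])]
  simp [hc]

omit [Fintype V] in
lemma pick (F : Finset V) (a b : ℕ) (h : a + b ≤ F.card) :
    ∃ X ⊆ F, X.card = a ∧ b ≤ (F \ X).card := by
  obtain ⟨X, h1, h2⟩ := exists_subset_card_eq (show a ≤ F.card by omega)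
  refine ⟨X, h1, h2, ?_⟩
  rw [card_sdiff_of_subset h1]
  omega

omit [Fintype V] in
lemma drop (F R : Finset V) (a : ℕ) (h : a + R.card ≤ F.card) : a ≤ (F \ R).card := by
  have := le_card_sdiff R F
  omega

end

end P12

open P12

theorem stP1 (h : StPPa) : StP1 := by
  intro V E _ _ _ _ s w U A d hd hw hN hs hU h2 h3 hb L B η σ hL _ hB hη hA hm
  by_contra hc
  obtain ⟨n0, n1, n2, n3⟩ := setup d _ _ L hd hN hL hb
  have f0 := drop _ _ _ (n3 _ (not_le.1 hc))
  obtain ⟨F, hF, hF2⟩ : ∃ F : Finset V, 4 * n0 ≤ F.card ∧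
      ∀ v ∈ F, v ∉ badV w ∧ loc s w σ v ≤ L :=
    ⟨_, f0, fun v hv => ⟨(Finset.mem_sdiff.1 hv).2, by
      simpa using (Finset.mem_sdiff.1 hv).1⟩⟩
  obtain ⟨A0, a1, a2, a3⟩ := pick F (2 * n0) (n0 + n0) (by omega)
  obtain ⟨B1, b1, b2, b3⟩ := pick (F \ A0) n0 n0 a3
  obtain ⟨B2, c1, c2⟩ := exists_subset_card_eq b3
  have key : ∀ X : Finset V, X.card ≤ 2 * n0 →
      2 ^ 35 * A.card * |mg σ X| * L ≤ d * n0 * Fintype.card V := by
    intro X hX
    have e1 : |mg σ X| ≤ 2 * n0 := (abs_mg σ X).trans (by exact_mod_cast hX)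
    have e2 := card_half hw
    have e3 : 2 ^ 35 * (A.card * L) ≤ d * Fintype.card V / 2 := by linarith
    calc (2 : ℝ) ^ 35 * A.card * |mg σ X| * L = 2 ^ 35 * (A.card * L) * |mg σ X| := by ring
      _ ≤ (d : ℝ) * Fintype.card V / 2 * (2 * n0) :=
          mul_le_mul e3 e1 (abs_nonneg _) (by positivity)
      _ = _ := by ring
  obtain ⟨σ', hσ⟩ := h V E s B w U A σ A0 B1 B2 d n0 L hd hw hs hU h2 h3 hB hL n1 n2 a2 b2 c2
    (disjoint_sdiff.mono_right b1) (disjoint_sdiff.mono_right (c1.trans sdiff_subset))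
    (disjoint_sdiff.mono_right c1)
    (fun v hv => hF2 v (union_subset (union_subset a1 (b1.trans sdiff_subset))
      (c1.trans (sdiff_subset.trans sdiff_subset)) hv))
    (key A0 a2.le) (fun Y1 y1 Y2 y2 _ => key _ ((card_union_le _ _).trans (by
      have := card_le_card y1
      have := card_le_card y2
      omega)))
  exact last s B w σ σ' d L η hd hN hL hη hm hσ

theorem stP2 (h : StPPa) : StP2 := by
  intro V E _ _ _ _ s w U A d hd hw hN hs hU h2 h3 hb L η σ hL _ hη hm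
  by_contra hc
  obtain ⟨n0, n1, n2, n3⟩ := setup d _ _ L hd hN hL hb
  have hF : ∀ b : Bool, ∃ X Y : Finset V, X.card = n0 ∧ Y.card = n0 ∧ Disjoint X Y ∧
      ∀ v, v ∈ X ∨ v ∈ Y → σ v = b ∧ v ∉ badV w ∧ loc s w σ v ≤ L := by
    intro b
    have f0 := drop _ _ _ (n3 _ (not_le.1 fun hh => hc ⟨b, hh⟩))
    obtain ⟨F, hF, hF2⟩ : ∃ F : Finset V, 4 * n0 ≤ F.card ∧
        ∀ v ∈ F, σ v = b ∧ v ∉ badV w ∧ loc s w σ v ≤ L :=
      ⟨_, f0, fun v hv => by
        obtain ⟨e1, e2⟩ := Finset.mem_sdiff.1 hv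
        simp only [Finset.mem_filter] at e1
        exact ⟨e1.2.1, e2, e1.2.2⟩⟩
    obtain ⟨X, a1, a2, a3⟩ := pick F n0 n0 (by omega)
    obtain ⟨Y, c1, c2⟩ := exists_subset_card_eq a3
    exact ⟨X, Y, a2, c2, disjoint_sdiff.mono_right c1, fun v hv =>
      hF2 v (hv.elim (fun hv => a1 hv) fun hv => sdiff_subset (c1 hv))⟩
  obtain ⟨Ap, B1, p1, p2, p3, p4⟩ := hF true
  obtain ⟨Am, B2, m1, m2, m3, m4⟩ := hF false
  have hdj : ∀ X Y : Finset V, (∀ v ∈ X, σ v = true) → (∀ v ∈ Y, σ v = false) → Disjoint X Y :=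
    fun X Y hX hY => disjoint_left.2 fun v h1 h2 => by
      have := (hX v h1).symm.trans (hY v h2)
      simp at this
  have t1 : ∀ v ∈ Ap, σ v = true := fun v hv => (p4 v (Or.inl hv)).1
  have t2 : ∀ v ∈ B1, σ v = true := fun v hv => (p4 v (Or.inr hv)).1
  have t3 : ∀ v ∈ Am, σ v = false := fun v hv => (m4 v (Or.inl hv)).1
  have t4 : ∀ v ∈ B2, σ v = false := fun v hv => (m4 v (Or.inr hv)).1
  have key : ∀ X : Finset V, mg σ X = 0 →
      2 ^ 35 * A.card * |mg σ X| * L ≤ d * n0 * Fintype.card V := by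
    intro X hX
    rw [hX, abs_zero, mul_zero, zero_mul]
    positivity
  obtain ⟨σ', hσ⟩ := h V E s 0 w U A σ (Ap ∪ Am) B1 B2 d n0 L hd hw hs hU h2 h3 (by simp) hL n1 n2
    (by rw [card_union_of_disjoint (hdj _ _ t1 t3)]; omega) p2 m2
    (disjoint_union_left.2 ⟨p3, (hdj _ _ t2 t3).symm⟩)
    (disjoint_union_left.2 ⟨hdj _ _ t1 t4, m3⟩) (hdj _ _ t2 t4)
    (fun v hv => by
      simp only [mem_union] at hv
      rcases hv with ((hv | hv) | hv) | hv
      exacts [(p4 v (Or.inl hv)).2, (m4 v (Or.inl hv)).2, (p4 v (Or.inr hv)).2,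
        (m4 v (Or.inr hv)).2])
    (key _ (mg_bal σ _ _ t1 t3 (p1.trans m1.symm)))
    (fun Y1 y1 Y2 y2 hy => key _ (mg_bal σ _ _ (fun v hv => t2 v (y1 hv))
      (fun v hv => t4 v (y2 hv)) hy))
  exact last s 0 w σ σ' d L η hd hN hL hη hm hσ

end Pool.Agent.MP_32a90a_pr.D

end
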