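import Pool.Agent.Mg.F32a90ap.Gad1de9
import Pool.Agent.Mg.F32a90ap.Gac7422

section

set_option autoImplicit false

namespace Pool.Agent.MP_32a90a_pr.D

open Finset Equiv Filter Pool.Agent.MP_32a90a_pr Pool.Agent.MP_32a90a_pr.L

noncomputable section

/-- top value of β x -/
def y0 (d : ℕ) : ℝ := ell d ^ (-(1 / 100 : ℝ))

/-- the scale of the ensemble j -/
def yj (d j : ℕ) : ℝ := y0 d / 2 ^ j

/-- upper bound for lam in good ensembles -/
def Lam (d : ℕ) : ℝ := ell d / Real.sqrt (lll d)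

/-- softness level for a node of width z -/
def Lz (K : ℝ) (d : ℕ) (z : ℝ) : ℝ := K * (Real.sqrt (d * z * ell d) + ell d)

/-- bound for the change of the site terms under a local modification -/
def dlq (d : ℕ) : ℝ := (4 * d + 16) * qq d ^ 8

/-- upper end of the group g of widths -/
def kG (g : ℕ) : ℝ := 1 / 2 ^ 2 ^ g

/-- the replica parameters used for the groups and for the crude bound -/
def TG (d : ℕ) (y : ℝ) : Finset (ℕ × ℝ × ℝ) :=
  insert (1, 1 / 2, y / 80)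
    ((range d).image fun g => (⌊6400 / (y * kG g) ^ 2⌋₊, kG g ^ 2, y / 80))

/-- a property of all finite pairing data -/
def AllG (Q : ∀ (V E : Type) [Fintype V] [DecidableEq V] [Nonempty V] [Fintype E]
    [DecidableEq E], Prop) : Prop :=
  ∀ (V E : Type) [Fintype V] [DecidableEq V] [Nonempty V] [Fintype E] [DecidableEq E], Q V E

/-- the body of StTyp -/
def TypW (C c : ℝ) : Prop :=
  ∀ᶠ d : ℕ in atTop, ∀ ε : ℝ, 0 < ε → Big d fun V E _ _ _ _ w0 =>
    ∀ U A : Finset E, 2 * (U.card + A.card) ≤ Fintype.card E →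
      PD w0 (fun w J => ¬ Typ (V := V) d C c ε U A w J) ≤ ε

/-- mass of the levels at most L with spin b -/
def rB (d : ℕ) (r : Bool → ℤ → ℝ) (b : Bool) (L : ℝ) : ℝ :=
  ∑ l ∈ Icc (-(d : ℤ)) d, ind ((l : ℝ) ≤ L) * r b l

/-- mass of the levels at most L -/
def rL (d : ℕ) (r : Bool → ℤ → ℝ) (L : ℝ) : ℝ := rB d r true L + rB d r false L

/-- deterministic facts on the level masses -/
def RF (d : ℕ) (C c : ℝ) (r : Bool → ℤ → ℝ) : Prop :=
  (∀ b l, 0 ≤ r b l ∧ r b l ≤ 1) ∧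
  (∀ b, ∑ l ∈ Icc (-(d : ℤ)) d, ind (l < 0 ∨ Odd l) * r b l ≤ 1 / (d : ℝ) ^ 10) ∧
  (∀ L : ℝ, 1 ≤ L → L ≤ d → 2 * tau d * L ≤ c → rL d r L ≤ 2 * C * L ^ 2 * ell d / d) ∧
  (∀ L : ℝ, 1 ≤ L → L ≤ d → ∃ b, rB d r b L ≤ 2 * C * L ^ 2 * ell d / d) ∧
  1 / 2 ≤ rL d r (100 * Real.sqrt (d * ell d))

/-- parameters of an ensemble -/
structure Pk (V E : Type) where
  U : Finset E
  e : E
  A : Finset E
  β : ℝ
  x : ℝ
  ρ : ℝ
  tp : ℝ
  tm : ℝ
  B : ℝ
  g : ℝ
  rwd : Bool → ℝ → ℝ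
  T : Finset V

section
variable {V E : Type} [Fintype V] [DecidableEq V] [Fintype E] [DecidableEq E]

open Classical in
/-- number of vertices with spin b and local field l -/
def cnt (s : E → ℝ) (w : E × Bool → V) (σ : V → Bool) (b : Bool) (l : ℤ) : ℝ :=
  ((univ.filter fun v => σ v = b ∧ loc s w σ v = l).card : ℝ)

/-- near-optimal configurations with the prescribed level masses -/
def Tp (d : ℕ) (r : Bool → ℤ → ℝ) (s : E → ℝ) (w : E × Bool → V) (σ : V → Bool) : Prop :=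
  mxH univ s 0 w - 3 * qq d ^ 4 * Fintype.card V ≤ HH s 0 w σ ∧
    ∀ (b : Bool) (l : ℤ), |l| ≤ d → |cnt s w σ b l / Fintype.card V - r b l| ≤ qq d ^ 2

/-- couplings with the slots at v removed -/
def cavS (s : E → ℝ) (w : E × Bool → V) (v : V) : E → ℝ :=
  fun i => if w (i, false) = v ∨ w (i, true) = v then 0 else s i

/-- fair slots -/
def fair (Z A : Finset E) : Finset E := univ.filter fun i => i ∉ Z ∧ i ∉ A

/-- sum of the products of the widths over the fair slots inside B -/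
def SB (Z A : Finset E) (w : E × Bool → V) (μ : (V → Bool) → ℝ) (B : Finset V) : ℝ :=
  ∑ i ∈ (fair Z A).filter (fun i => w (i, false) ∈ B ∧ w (i, true) ∈ B),
    kt μ (crd (w (i, false))) * kt μ (crd (w (i, true)))

/-- total deficit of the edge signal -/
def Df (Z A : Finset E) (y : ℝ) (w : E × Bool → V) (J : E → Bool) (μ : (V → Bool) → ℝ) : ℝ :=
  ∑ i ∈ fair Z A, max (2 * y * kt μ (crd (w (i, false))) * kt μ (crd (w (i, true)))
    - sgn (J i) * cv μ (crd (w (i, false))) (crd (w (i, true)))) 0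

/-- regular nodes -/
def Reg (d : ℕ) (C c e y : ℝ) (TT : Finset (ℕ × ℝ × ℝ)) (r : Bool → ℤ → ℝ) (Z A : Finset E)
    (w : E × Bool → V) (J : E → Bool) (μ : (V → Bool) → ℝ) : Prop :=
  Deg w d ∧ 2 * (Z.card + A.card) ≤ Fintype.card E ∧ Typ d C c e Z A w J ∧
    (∀ t ∈ TT, G4 d Z A t.1 t.2.1 t.2.2 w J) ∧ Prob μ ∧ c2 μ crd ≤ e ∧
    (Ex μ fun σ => ind (¬ Tp d r (cp Z A ∅ J) w σ)) ≤ e ∧
    Df Z A y w J μ ≤ sm 100 d * Fintype.card E

open Classical in
/-- vertices with minority probability at least t -/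
def flex (ν : (V → Bool) → ℝ) (t : ℝ) : Finset V := univ.filter fun v => t ≤ mn ν (crd v)

/-- number of half-edges at v whose partner is a disagreement -/
def fol (w : E × Bool → V) (v : V) (σ σ' : V → Bool) : ℝ := nS w {v} (dif σ σ')

open Classical in
/-- flexible vertices with few followers -/
def bad0 (w : E × Bool → V) (ν : (V → Bool) → ℝ) (t j : ℝ) : Finset V :=
  univ.filter fun v => BadV ν (crd v) (fol w v) t j (1 / 2)

open Classical in
/-- vertices with minority probability in the interval from a to b -/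
def cls (μ : (V → Bool) → ℝ) (a b : ℝ) : Finset V :=
  univ.filter fun v => a ≤ mn μ (crd v) ∧ mn μ (crd v) ≤ b

namespace Pk
variable (P : Pk V E)

/-- idle slots -/
def Z : Finset E := insert P.e P.U

/-- couplings of the ensemble -/
def s (J : E → Bool) : E → ℝ := cp P.Z P.A ∅ J

/-- the product β x -/
def y : ℝ := P.β * P.x

/-- the gadget system with couplings s and site terms on W -/
def sys (W : Finset V) (s : E → ℝ) (w : E × Bool → V) :
    Sys (V → Bool) (V → Bool) (cav P.U) :=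
  ⟨P.β, P.x, P.ρ, P.tp, P.tm,
    fun γ σ => en Y1 s w σ + ∑ v ∈ W,
      (P.B * sgn (σ v) + P.rwd (σ v) (loc s w σ v) + P.g * (sgn (γ v) * sgn (σ v))),
    fun a σ => σ (w a)⟩

/-- the full system -/
def full (w : E × Bool → V) (J : E → Bool) : Sys (V → Bool) (V → Bool) (cav P.U) :=
  P.sys univ (P.s J) w

/-- the system with the slot i cut -/
def cut (w : E × Bool → V) (J : E → Bool) (i : E) : Sys (V → Bool) (V → Bool) (cav P.U) :=
  P.sys univ (Function.update (P.s J) i 0) w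

/-- the system with the vertex v removed -/
def cavi (w : E × Bool → V) (J : E → Bool) (v : V) : Sys (V → Bool) (V → Bool) (cav P.U) :=
  P.sys (univ.erase v) (cavS (P.s J) w v) w

/-- the full system after the vertex exchange -/
def ins {d : ℕ} (w : E × Bool → V) (J : E → Bool) (p : Fin d → E × Bool)
    (ω : Fin d → (cav P.U) × Bool) : Sys (V → Bool) (V → Bool) (cav P.U) :=
  P.full (xv w p fun i => ((ω i).1 : E × Bool)) (xj J p fun i => (ω i).2)

/-- the full system after the edge exchange -/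
def jn (w : E × Bool → V) (J : E → Bool) (i : E) (a a' : cav P.U) (b : Bool) :
    Sys (V → Bool) (V → Bool) (cav P.U) :=
  P.full (w ∘ ex i a a') (Function.update J i b)

/-- law given the node of the marks γ -/
def mu (w : E × Bool → V) (J : E → Bool) (n : V → Bool) : (V → Bool) → ℝ :=
  (P.full w J).mu (rS P.T) n

/-- mean over the disorder and the node of a function of the node law -/
def EP (w0 : E × Bool → V)
    (F : (E × Bool → V) → (E → Bool) → ((V → Bool) → ℝ) → ℝ) : ℝ :=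
  ED w0 fun w J => (P.full w J).EN (rS P.T) fun n => F w J (P.mu w J n)

/-- mean over the disorder, the child and the configuration -/
def EQ (w0 : E × Bool → V) (F : (E × Bool → V) → (E → Bool) →
    Gam (V → Bool) (cav P.U) → (V → Bool) → ℝ) : ℝ :=
  ED w0 fun w J => (P.full w J).P (F w J)

/-- width of a law on the pool -/
def zA (w : E × Bool → V) (μ : (V → Bool) → ℝ) : ℝ :=
  zz μ fun (a : cav P.U) (σ : V → Bool) => σ (w a)

/-- no loop and no idle slot at v -/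
def Gv (w : E × Bool → V) (v : V) : Prop := Gd P.Z w v

/-- v is good and has few antiferromagnetic slots -/
def Gw (d : ℕ) (w : E × Bool → V) (v : V) : Prop :=
  P.Gv w v ∧ ((univ.filter fun p : E × Bool => w p = v ∧ p.1 ∈ P.A).card : ℝ) ≤ 8 * tau d * d

/-- admissible parameters, common to all ensembles -/
def Ok (d : ℕ) : Prop :=
  P.e ∉ P.U ∧ P.e ∉ P.A ∧ Disjoint P.U P.A ∧ P.U.card = ⌈qq d ^ 16 * Fintype.card V⌉₊ ∧
    (P.A.card : ℝ) ≤ 2 * tau d * Fintype.card E ∧ 1 ≤ P.β ∧ P.β ≤ 1 / qq d ^ 4 ∧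
    qq d ^ 5 ≤ P.x ∧ P.x ≤ qq d ^ 4 ∧ P.y ≤ 1 / 10 ^ 11 ∧ P.ρ = qq d ^ 2 ∧
    1 ≤ P.tp ∧ P.tp ≤ 1 + 2 * qq d ^ 8 ∧ 1 ≤ P.tm ∧ P.tm ≤ 1 + 2 * qq d ^ 8 ∧ |P.B| ≤ 1 ∧
    0 ≤ P.g ∧ P.g ≤ qq d ^ 8 ∧ ∀ b h, |P.rwd b h| ≤ 2 * qq d ^ 8

/-- consequences of Ok for large systems -/
def Lg (d : ℕ) : Prop :=
  1000 ≤ d ∧ (∀ W s w, (P.sys W s w).Par d) ∧ 2 * (P.Z.card + P.A.card) ≤ Fintype.card E ∧
    Real.exp (-(qq d ^ 2 * (P.ρ / (2 * (1 - P.ρ)) * Fintype.card (cav P.U)) / 4))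
      ≤ P.ρ * sm (7 * P.β + 300) d ∧
    P.β * dlq d ≤ sm 300 d ∧ dlq d ≤ 1 ∧ qq d ≤ sm 300 d ∧ 64 * tau d * 10 ^ 7 ≤ 1 ∧
    (d : ℝ) * Fintype.card V ≤ d / qq d ^ 16 * Fintype.card (cav P.U) ∧
    (P.Z.card : ℝ) ≤ sm 300 d * Fintype.card V ∧ 1 ≤ sm 300 d * Fintype.card V

/-- the antiferromagnetic slots among the half-edges p -/
def AAp {d : ℕ} (p : Fin d → E × Bool) : Finset (Fin d) := univ.filter fun i => (p i).1 ∈ P.A

/-- the numbers of gadgets are rigid in mean -/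
def EnsK (d : ℕ) (w0 : E × Bool → V) (c cp ε : ℝ) : Prop :=
  P.Ok d ∧ (P.EQ w0 fun w J g σ => ind (¬ (P.full w J).Good c cp (qq d) g σ)) ≤ ε

/-- a low temperature ensemble with errors at most ε -/
def Ens (d : ℕ) (w0 : E × Bool → V) (r : Bool → ℤ → ℝ) (c cp ε : ℝ) : Prop :=
  P.EnsK d w0 c cp ε ∧ P.B = 0 ∧ P.β = 1 / qq d ^ 4 ∧ 1 / (d : ℝ) ≤ P.y ∧
    (P.EQ w0 fun w J _ σ => ind (¬ Tp d r (P.s J) w σ)) ≤ ε ∧
    (P.EP w0 fun _ _ μ => c2 μ crd) ≤ ε ∧
    (avg fun v => ED w0 fun w J => ind (P.Gv w v) * (P.cavi w J v).dH) ≤ qq d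

/-- narrow nodes have probability at least one half -/
def Narrow (d : ℕ) (w0 : E × Bool → V) : Prop :=
  1 / 2 ≤ P.EP w0 fun _ _ μ => ind (zz μ crd ≤ z1 d)

/-- errors of the full system at one disorder -/
def GD (d : ℕ) (c cp e : ℝ) (w : E × Bool → V) (J : E → Bool) : Prop :=
  ((P.full w J).P fun g σ => ind (¬ (P.full w J).Good c cp (qq d) g σ)) ≤ e ∧
    ((P.full w J).EN (rS P.T) fun n => c2 (P.mu w J n) crd) ≤ e

end Pk

end

end

end Pool.Agent.MP_32a90a_pr.D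

end

section

set_option autoImplicit false

namespace Pool.Agent.MP_32a90a_pr.D

open Finset Equiv Filter Pool.Agent.MP_32a90a_pr Pool.Agent.MP_32a90a_pr.L

/-- admissible parameters of large systems -/
def StPar : Prop := ∀ᶠ d : ℕ in atTop, Big d fun V E _ _ _ _ _ =>
  ∀ P : Pk V E, P.Ok d → P.Lg d

/-- cutting a slot and removing a vertex -/
def StNearCut : Prop := AllG fun V E _ _ _ _ _ =>
  ∀ (d : ℕ) (P : Pk V E) (w : E × Bool → V) (J : E → Bool), P.Ok d → Deg w d →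
    (∀ i, (P.cut w J i).Near (P.full w J) (fun _ σ => sl (P.s J) w σ i) ∅ (dlq d) ∧
      (P.full w J).Near (P.cut w J i) (fun _ σ => -sl (P.s J) w σ i) ∅ (dlq d) ∧
      ∀ σ, |sl (P.s J) w σ i| ≤ 1) ∧
    ∀ v, ∃ D : (V → Bool) → (V → Bool) → ℝ, (∀ γ σ, |D γ σ| ≤ d + 1) ∧
      (P.cavi w J v).Near (P.full w J) D ∅ (dlq d) ∧
      (P.full w J).Near (P.cavi w J v) (fun γ σ => -D γ σ) ∅ (dlq d)

/-- the cavity system does not see the removed spin -/
def StSymCav : Prop := AllG fun V E _ _ _ _ _ =>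
  ∀ (P : Pk V E) (w : E × Bool → V) (J : E → Bool) (v : V), Gd P.U w v →
    (P.cavi w J v).Sym (fun σ => flp σ {v}) (crd v)

/-- the edge exchange joins two pool positions of the cut system -/
def StJoinCut : Prop := AllG fun V E _ _ _ _ _ =>
  ∀ (d : ℕ) (P : Pk V E) (w : E × Bool → V) (J : E → Bool) (i : E), P.Ok d → P.Lg d → Deg w d →
    i ∈ fair P.Z P.A → (P.cut w J i).Join d (P.jn w J i) ∧
      ∀ a a' : cav P.U, a ≠ a' → ∀ b,
        (P.cut w J i).Near (P.jn w J i a a' b) ((P.cut w J i).De a a' b) {a, a'} (dlq d) ∧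
        (w ∘ ex i a a') (i, false) = w a ∧ (w ∘ ex i a a') (i, true) = w a'

/-- the vertex exchange inserts the removed spin -/
def StInsCav : Prop := AllG fun V E _ _ _ _ _ =>
  ∀ (d : ℕ) (P : Pk V E) (w : E × Bool → V) (J : E → Bool) (v : V) (p : Fin d → E × Bool),
    P.Ok d → P.Lg d → Deg w d → P.Gv w v → Function.Injective p → (∀ t, w t = v ↔ ∃ i, p i = t) →
    (P.cavi w J v).Ins (crd v) (P.AAp p) P.B (P.ins w J p) ∧
      (P.AAp p).card = (univ.filter fun t : E × Bool => w t = v ∧ t.1 ∈ P.A).card ∧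
      ∀ ω : Fin d → (cav P.U) × Bool, Function.Injective (uu ω) →
        (P.cavi w J v).Near (P.ins w J p ω) ((P.cavi w J v).Dv (crd v) (P.AAp p) P.B ω)
          (univ.image (uu ω)) (dlq d) ∧
        Deg (xv w p fun i => ((ω i).1 : E × Bool)) d ∧
        (∀ σ, loc (P.s (xj J p fun i => (ω i).2)) (xv w p fun i => ((ω i).1 : E × Bool)) σ v
          = sgn (σ v) * hom (P.cavi w J v).sp (P.AAp p) ω σ) ∧
        ∀ σ σ', fol (xv w p fun i => ((ω i).1 : E × Bool)) v σ σ'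
          = dn (P.cavi w J v).sp (uu ω) σ σ'

/-- the switch of two fair slots -/
def StNearSw : Prop := AllG fun V E _ _ _ _ _ =>
  ∀ (d : ℕ) (P : Pk V E) (w : E × Bool → V) (J : E → Bool) (i i' : E) (b b' : Bool)
    (m : Fin 4 → Bool), P.Ok d → Deg w d → i ≠ i' → i ∈ fair P.Z P.A → i' ∈ fair P.Z P.A →
    sgn (J i) = -(sgn (m 0) * sgn (m 2)) → sgn (J i') = -(sgn (m 1) * sgn (m 3)) →
    sgn b = -(sgn (m 0) * sgn (m 1)) → sgn b' = sgn (m 2) * sgn (m 3) →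
    (P.full w J).Near
      (P.full (w ∘ swap (i, true) (i', false)) (Function.update (Function.update J i b) i' b'))
      (fun _ σ => swE (sgn (σ (w (i, false))) * sgn (m 0)) (sgn (σ (w (i', false))) * sgn (m 1))
        (sgn (σ (w (i, true))) * sgn (m 2)) (sgn (σ (w (i', true))) * sgn (m 3))) ∅ (dlq d)

/-- averaged edge exchange -/
def StEX : Prop := AllG fun V E _ _ _ _ _ =>
  ∀ (w0 : E × Bool → V) (U : Finset E) (i : E) (F : (E × Bool → V) → (E → Bool) → ℝ) (M : ℝ),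
    U.Nonempty → (∀ w J, |F w J| ≤ M) →
    |ED w0 F - ED w0 fun w J => avg fun a : cav U => avg fun a' : cav U => avg fun b : Bool =>
        ind (a ≠ a') * F (w ∘ ex i a a') (Function.update J i b)| ≤ M / Fintype.card (cav U)

/-- averaged vertex exchange -/
def StVX : Prop := AllG fun V E _ _ _ _ _ =>
  ∀ (w0 : E × Bool → V) (d : ℕ) (U : Finset E) (v : V) (pos : (E × Bool → V) → Fin d → E × Bool)
    (G : (E × Bool → V) → Prop) (F : (E × Bool → V) → (E → Bool) → ℝ), Deg w0 d →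
    IsPos d v pos → U.Nonempty → (∀ w, G w → Gd U w v) →
    (∀ w w', (∀ t, w t = v ↔ w' t = v) → G w → G w') → (∀ w J, |F w J| ≤ 1) →
    |(ED w0 fun w J => ind (G w) * F w J) - ED w0 fun w J => ind (G w) *
        avg fun ω : Fin d → (cav U) × Bool => ind (Function.Injective (uu ω)) *
          F (xv w (pos w) fun i => ((ω i).1 : E × Bool)) (xj J (pos w) fun i => (ω i).2)|
      ≤ (d : ℝ) ^ 2 / Fintype.card (cav U)

/-- few vertices are not good -/
def StGwP : Prop := ∀ᶠ d : ℕ in atTop, Big d fun V E _ _ _ _ w0 =>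
  ∀ P : Pk V E, P.Ok d → (avg fun v => PD w0 fun w _ => ¬ P.Gw d w v) ≤ 2 / (d : ℝ) ^ 10 ∧
    (avg fun v => PD w0 fun w _ => ¬ P.Gv w v) ≤ sm 200 d ∧
    (∀ w v, P.Gw d w v → Gd P.U w v) ∧ (∀ w v, P.Gv w v → Gd P.U w v) ∧
    (∀ v w w', (∀ t, w t = v ↔ w' t = v) → P.Gw d w v → P.Gw d w' v) ∧
    ∀ v w w', (∀ t, w t = v ↔ w' t = v) → P.Gv w v → P.Gv w' v

/-- rigidity of the responses in the full, cut and cavity systems -/
def StRigD : Prop := ∀ d : ℕ, ∃ e : ℝ, 0 < e ∧ AllG fun V E _ _ _ _ _ =>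
  ∀ (P : Pk V E) (w : E × Bool → V) (J : E → Bool) (c cp : ℝ), P.Ok d → P.Lg d → Deg w d →
    ((P.full w J).P fun g σ => ind (¬ (P.full w J).Good c cp (qq d) g σ)) ≤ e →
    (P.full w J).Rig d c cp ∧ (∀ i, (P.cut w J i).Rig d c cp) ∧ ∀ v, (P.cavi w J v).Rig d c cp

/-- stability of the widths of most nodes between near systems -/
def StWid : Prop := ∀ (d : ℕ) (s : ℝ), 0 < s → ∃ e : ℝ, 0 < e ∧ AllG fun V E _ _ _ _ _ =>
  ∀ (P : Pk V E) (w : E × Bool → V) (S S' : Sys (V → Bool) (V → Bool) (cav P.U))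
    (D : (V → Bool) → (V → Bool) → ℝ) (I : Finset (cav P.U)) (γ : V → Bool), P.Ok d → P.Lg d →
    Deg w d → S.Par d → S.β = P.β → S.Near S' D I (dlq d) → I.card ≤ d + 2 →
    (∀ g σ, |D g σ| ≤ 3 * d) →
    (c2 (S.mu (rS P.T) (rS P.T γ)) crd ≤ e ∨ c2 (S'.mu (rS P.T) (rS P.T γ)) crd ≤ e) →
    |zz (S.mu (rS P.T) (rS P.T γ)) crd - zz (S'.mu (rS P.T) (rS P.T γ)) crd| ≤ s ∧
      |P.zA w (S.mu (rS P.T) (rS P.T γ)) - P.zA w (S'.mu (rS P.T) (rS P.T γ))| ≤ s ∧
      c2 (S.mu (rS P.T) (rS P.T γ)) crd ≤ s ∧ c2 (S'.mu (rS P.T) (rS P.T γ)) crd ≤ s ∧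
      c2 (S.mu (rS P.T) (rS P.T γ)) (fun (a : cav P.U) (σ : V → Bool) => σ (w a)) ≤ s ∧
      c2 (S'.mu (rS P.T) (rS P.T γ)) (fun (a : cav P.U) (σ : V → Bool) => σ (w a)) ≤ s

/-- mean deficit of the edge signal -/
def StSig : Prop := ∀ᶠ d : ℕ in atTop, ∃ ε : ℝ, 0 < ε ∧ Big d fun V E _ _ _ _ w0 =>
  ∀ P : Pk V E, P.Ok d → (P.EP w0 fun _ _ μ => c2 μ crd) ≤ ε →
    (P.EP w0 fun w J μ => Df P.Z P.A P.y w J μ) ≤ sm 200 d * Fintype.card E

/-- most nodes are regular -/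
def StRegP : Prop := ∀ C c : ℝ, TypW C c → ∀ᶠ d : ℕ in atTop,
  ∀ (TT : Finset (ℕ × ℝ × ℝ)) (e : ℝ), (∀ t ∈ TT, 0 < t.2.1 ∧ t.2.1 ≤ 1 / 2) → 0 < e →
    ∃ ε : ℝ, 0 < ε ∧ Big d fun V E _ _ _ _ w0 =>
      ∀ (P : Pk V E) (r : Bool → ℤ → ℝ) (c' cp : ℝ), P.Ens d w0 r c' cp ε →
        (P.EP w0 fun w J μ => ind (¬ Reg d C c e P.y TT r P.Z P.A w J μ)) ≤ sm 50 d

/-- the replica inequality in one node -/
def StTin : Prop := AllG fun V E _ _ _ _ _ =>
  ∀ (d r : ℕ) (Z A : Finset E) (w : E × Bool → V) (J : E → Bool) (μ : (V → Bool) → ℝ)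
    (B : Finset V) (y κ κ2 θ e : ℝ), 3 ≤ d → G4 d Z A r κ θ w J → Prob μ → c2 μ crd ≤ e →
    0 < κ → κ ≤ 1 / 2 → 0 ≤ θ → θ ≤ 1 → (∀ v ∈ B, kt μ (crd v) ≤ κ2) → θ ^ 2 * r * κ2 ^ 2 ≤ 1 →
    θ * r * (y * SB Z A w μ B - Df Z A y w J μ / 2)
      ≤ 52 / 100 * d * θ ^ 2 * r * (∑ v ∈ B, kt μ (crd v)) ^ 2 / Fintype.card V
        + (2 * ell d + 2 * κ * r) * min (B.card : ℝ) (r * ∑ v ∈ B, kt μ (crd v))
        + Real.log (2 / κ) * (r * ∑ v ∈ B, kt μ (crd v)) + 3 * Fintype.card V / (d : ℝ) ^ 2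
        + d * Fintype.card V * Real.exp (2 * r + 1) * Real.sqrt e

/-- lower bound on the fair slots inside a class -/
def StEM : Prop := AllG fun V E _ _ _ _ _ =>
  ∀ (d : ℕ) (Z A : Finset E) (w : E × Bool → V) (μ : (V → Bool) → ℝ) (B : Finset V),
    G3 d Z A w → Prob μ →
    (d : ℝ) / 8 * (∑ v ∈ B, kt μ (crd v)) ^ 2 / Fintype.card V
        - 4 * ell d * (∑ v ∈ B, kt μ (crd v)) - 5 * Fintype.card V / (d : ℝ) ^ 2 ≤ SB Z A w μ B

/-- most disagreements of two samples are soft in both -/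
def StSoft : Prop := ∃ K : ℝ, 1 ≤ K ∧ ∀ᶠ d : ℕ in atTop, AllG fun V E _ _ _ _ _ =>
  ∀ (C c e y : ℝ) (TT : Finset (ℕ × ℝ × ℝ)) (r : Bool → ℤ → ℝ) (Z A : Finset E)
    (w : E × Bool → V) (J : E → Bool) (μ : (V → Bool) → ℝ), Reg d C c e y TT r Z A w J μ →
    e ≤ 1 / (d : ℝ) ^ 10 → z1 d / 2 ≤ zz μ crd →
    7 / 8 * zz μ crd ≤ avg fun v => E2 μ μ fun σ σ' => ind (σ v ≠ σ' v ∧
      loc (cp Z A ∅ J) w σ v ≤ Lz K d (zz μ crd) ∧ loc (cp Z A ∅ J) w σ' v ≤ Lz K d (zz μ crd))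

open Classical in
/-- consequences of softness for the level masses and for the small classes -/
def StSmall : Prop := ∀ᶠ d : ℕ in atTop, AllG fun V E _ _ _ _ _ =>
  ∀ (C c e y L : ℝ) (TT : Finset (ℕ × ℝ × ℝ)) (r : Bool → ℤ → ℝ) (Z A : Finset E)
    (w : E × Bool → V) (J : E → Bool) (μ : (V → Bool) → ℝ), Reg d C c e y TT r Z A w J μ →
    e ≤ 1 / (d : ℝ) ^ 10 → (∀ b l, 0 ≤ r b l) → z1 d / 2 ≤ zz μ crd →
    (7 / 8 * zz μ crd ≤ avg fun v => E2 μ μ fun σ σ' => ind (σ v ≠ σ' v ∧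
      loc (cp Z A ∅ J) w σ v ≤ L ∧ loc (cp Z A ∅ J) w σ' v ≤ L)) →
    3 / 4 * zz μ crd ≤ rL d r L ∧ ∀ Rb : ℝ, rL d r L ≤ Rb →
      3 / 4 * zz μ crd * Fintype.card V
        ≤ ∑ v ∈ univ.filter (fun v => zz μ crd / (64 * Rb) ≤ kt μ (crd v)), kt μ (crd v)

open Classical in
/-- the mass of the large classes, and the crude bound -/
def StGroup : Prop := ∃ K : ℝ, 1 ≤ K ∧ ∀ᶠ d : ℕ in atTop, ∃ e0 : ℝ, 0 < e0 ∧
  AllG fun V E _ _ _ _ _ =>
    ∀ (C c e y : ℝ) (r : Bool → ℤ → ℝ) (Z A : Finset E) (w : E × Bool → V) (J : E → Bool)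
      (μ : (V → Bool) → ℝ), Reg d C c e y (TG d y) r Z A w J μ → e ≤ e0 → 1 / (d : ℝ) ≤ y →
      y ≤ 1 / 1000 → y ^ 2 * d * zz μ crd ≤ K * ell d ∧
      ∀ κ0 : ℝ, 1 / (d : ℝ) ^ 2 ≤ κ0 → κ0 ≤ 1 / 2 →
        y ^ 2 * d * (∑ v ∈ univ.filter (fun v => κ0 ≤ kt μ (crd v)), kt μ (crd v))
            / Fintype.card V
          ≤ K * (Real.log (1 / κ0) + lll d + y ^ 2 * ell d * lll d)

/-- the top ensemble is narrow -/
def StTop : Prop := ∀ C c : ℝ, 1 ≤ C → 0 < c → TypW C c → ∀ᶠ d : ℕ in atTop,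
  ∃ ε : ℝ, 0 < ε ∧ Big d fun V E _ _ _ _ w0 =>
    ∀ (P : Pk V E) (r : Bool → ℤ → ℝ) (c' cp : ℝ), P.Ens d w0 r c' cp ε → P.y = y0 d →
      RF d C c r → P.Narrow d w0

/-- narrow ensembles are rigid -/
def StL2 : Prop := ∀ C c : ℝ, 1 ≤ C → 0 < c → TypW C c → ∀ᶠ d : ℕ in atTop,
  ∃ ε : ℝ, 0 < ε ∧ Big d fun V E _ _ _ _ w0 =>
    ∀ (P : Pk V E) (r : Bool → ℤ → ℝ) (c' cp : ℝ), P.Ens d w0 r c' cp ε → P.y ≤ y0 d →
      RF d C c r → P.Narrow d w0 → d * (1 - c') + 1 ≤ Lam d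

/-- balance and descent for the level masses -/
def StDesc : Prop := ∀ᶠ d : ℕ in atTop, ∃ ε : ℝ, 0 < ε ∧ Big d fun V E _ _ _ _ w0 =>
  ∀ (P : Pk V E) (r : Bool → ℤ → ℝ) (c' cp : ℝ), P.Ens d w0 r c' cp ε →
    d * (1 - c') + 1 ≤ Lam d → ∀ (b : Bool) (l : ℕ), 20 * l ≤ d →
      r b (2 * l) ≤ Real.exp (100 * Lam d) * r (!b) (2 * l) + 1 / (d : ℝ) ^ 8 ∧
      (4 * P.y * l ≤ ell d / 2 →
        r b (2 * l) ≤ Real.exp (100 * Lam d + 4 * P.y * l) * r true 0 + 1 / (d : ℝ) ^ 8)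

/-- pseudo-gap for both signs from balance -/
def StRb : Prop := ∀ C c : ℝ, 1 ≤ C → ∀ᶠ d : ℕ in atTop, ∀ r : Bool → ℤ → ℝ, RF d C c r →
  (∀ (b : Bool) (l : ℕ), 20 * l ≤ d →
    r b (2 * l) ≤ Real.exp (100 * Lam d) * r (!b) (2 * l) + 1 / (d : ℝ) ^ 8) →
  ∀ L : ℝ, 1 ≤ L → 10 * L ≤ d → rL d r L ≤ Real.exp (101 * Lam d) * L ^ 2 * ell d / d

/-- a wide ensemble has a regular node of controlled width -/
def StWide : Prop := ∃ K : ℝ, 1 ≤ K ∧ ∀ C c : ℝ, TypW C c → ∀ᶠ d : ℕ in atTop,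
  ∀ y : ℝ, 1 / (d : ℝ) ≤ y → y ≤ y0 d → ∃ ε : ℝ, 0 < ε ∧ Big d fun V E _ _ _ _ w0 =>
    ∀ (P : Pk V E) (r : Bool → ℤ → ℝ) (c' cp : ℝ), P.Ens d w0 r c' cp ε → P.y = y →
      RF d C c r → ¬ P.Narrow d w0 →
      (∀ L : ℝ, 1 ≤ L → 10 * L ≤ d → rL d r L ≤ Real.exp (101 * Lam d) * L ^ 2 * ell d / d) →
      ∃ z : ℝ, z1 d ≤ z ∧ z ≤ 1 / 2 ∧ y ^ 2 * d * z ≤ K * Lam d ∧ 3 / 4 * z ≤ rL d r (Lz K d z)

/-- the free mass from the descent -/
def StLow : Prop := ∀ K C c : ℝ, 1 ≤ K → ∀ᶠ d : ℕ in atTop, ∀ (r : Bool → ℤ → ℝ) (y : ℝ),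
  RF d C c r → 0 ≤ y → y ≤ y0 d →
  (∀ (b : Bool) (l : ℕ), 20 * l ≤ d → 4 * y * l ≤ ell d / 2 →
    r b (2 * l) ≤ Real.exp (100 * Lam d + 4 * y * l) * r true 0 + 1 / (d : ℝ) ^ 8) →
  (y ^ 2 * d ≤ 1 ∨
    ∃ z : ℝ, z1 d ≤ z ∧ z ≤ 1 / 2 ∧ y ^ 2 * d * z ≤ 4 * K * Lam d ∧ 3 / 4 * z ≤ rL d r (Lz K d z)) →
  (d : ℝ) ^ (-(101 / 100 : ℝ)) ≤ r true 0

/-- the scan over the ensembles -/
def StScan : Prop := ∀ C c : ℝ, 1 ≤ C → 0 < c → TypW C c → ∀ᶠ d : ℕ in atTop,
  ∃ ε : ℝ, 0 < ε ∧ Big d fun V E _ _ _ _ w0 =>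
    ∀ (Jm : ℕ) (Ps : ℕ → Pk V E) (r : Bool → ℤ → ℝ) (cs cps : ℕ → ℝ), Jm ≤ d →
      yj d Jm ^ 2 * d ≤ 1 → (∀ j ≤ Jm, (Ps j).Ens d w0 r (cs j) (cps j) ε ∧ (Ps j).y = yj d j) →
      RF d C c r → (d : ℝ) ^ (-(101 / 100 : ℝ)) ≤ r true 0

/-- free spins give the window of magnetisations -/
def StFree : Prop := ∀ C c : ℝ, TypW C c → ∀ᶠ d : ℕ in atTop,
  ∃ ε : ℝ, 0 < ε ∧ Big d fun V E _ _ _ _ w0 =>
    ∀ (P : Pk V E) (r : Bool → ℤ → ℝ) (c' cp : ℝ), P.Ens d w0 r c' cp ε →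
      (d : ℝ) ^ (-(101 / 100 : ℝ)) ≤ r true 0 →
      ∃ a : ℝ, mu1 d ≤ a ∧ a + mu1 d / 2 ≤ 1 ∧
        ∀ M : ℕ, Even (M + Fintype.card V) → a * Fintype.card V ≤ M →
          (M : ℝ) ≤ (a + mu1 d / 2) * Fintype.card V →
          VV w0 ∅ P.A ∅ 0 univ - 6 * qq d ^ 4 * Fintype.card V
            ≤ VV w0 ∅ P.A ∅ 0 (magSet V (-M))

/-- deterministic facts on the level masses of an ensemble -/
def StRF : Prop := ∀ C c : ℝ, 1 ≤ C → 0 < c → TypW C c → ∀ᶠ d : ℕ in atTop, Even d →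
  ∃ ε : ℝ, 0 < ε ∧ Big d fun V E _ _ _ _ w0 =>
    ∀ (P : Pk V E) (r : Bool → ℤ → ℝ) (c' cp : ℝ), P.Ens d w0 r c' cp ε →
      (∀ b l, 0 ≤ r b l ∧ r b l ≤ 1) → RF d C c r

/-- existence of the ensembles -/
def StEns : Prop := ∀ᶠ d : ℕ in atTop, ∀ ε : ℝ, 0 < ε → Big d fun V E _ _ _ _ w0 =>
  ∀ A0 A1 : Finset E, A0 ⊆ A1 → (A1.card : ℝ) ≤ 2 * tau d * Fintype.card E →
    tau d * Fintype.card E / 2 ≤ (A1.card : ℝ) - A0.card →
    VV w0 ∅ A0 ∅ 0 univ ≤ VV w0 ∅ A1 ∅ 0 univ + qq d ^ 4 * Fintype.card V →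
    ∃ (A : Finset E) (Jm : ℕ) (Ps : ℕ → Pk V E) (r : Bool → ℤ → ℝ) (cs cps : ℕ → ℝ),
      A0 ⊆ A ∧ A ⊆ A1 ∧ Jm ≤ d ∧ yj d Jm ^ 2 * d ≤ 1 ∧ (∀ b l, 0 ≤ r b l ∧ r b l ≤ 1) ∧
      ∀ j ≤ Jm, (Ps j).Ens d w0 r (cs j) (cps j) ε ∧ (Ps j).y = yj d j ∧ (Ps j).A = A

end Pool.Agent.MP_32a90a_pr.D

end

section

set_option autoImplicit false

namespace Pool.Agent.MP_32a90a_pr.D

open Finset Filter Pool.Agent.MP_32a90a_pr Pool.Agent.MP_32a90a_pr.L

namespace EMJ

lemma card_eq {α : Type} (T : Finset α) (p : α → Prop) [DecidablePred p] :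
    ((T.filter p).card : ℝ) = ∑ a ∈ T, ind (p a) := by
  rw [card_filter]
  push_cast
  exact sum_congr rfl fun a _ => by by_cases h : p a <;> simp [ind, h]

lemma Ex_pair {Sg : Type} [Fintype Sg] (μ : Sg → ℝ) (f : Sg × Sg → ℝ) :
    Ex (fun p : Sg × Sg => μ p.1 * μ p.2) f = E2 μ μ fun σ σ' => f (σ, σ') := by
  simp only [E2, Ex, Fintype.sum_prod_type, mul_sum, mul_assoc]

end EMJ

theorem stEM : StEM := by
  intro V E _ _ _ _ _ d Z A w μ B hG hμ
  obtain ⟨ν, hν, hk⟩ : ∃ ν : (V → Bool) × (V → Bool) → ℝ, Prob ν ∧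
      ∀ v, (Ex ν fun p => ind (p.1 v ≠ p.2 v)) = kt μ (crd v) := by
    refine ⟨fun p => μ p.1 * μ p.2, ⟨fun p => mul_nonneg (hμ.1 _) (hμ.1 _), ?_⟩, fun v => ?_⟩
    · simp only [Fintype.sum_prod_type, ← mul_sum, hμ.2, mul_one]
    · rw [EMJ.Ex_pair]
      exact hμ.E2_ne (crd v)
  have h1 : ∀ p p' : (V → Bool) × (V → Bool),
      (d : ℝ) / 8 / Fintype.card V * (∑ v ∈ B, ind (p.1 v ≠ p.2 v)) *
          (∑ v ∈ B, ind (p'.1 v ≠ p'.2 v)) -
        2 * ell d * ((∑ v ∈ B, ind (p.1 v ≠ p.2 v)) + ∑ v ∈ B, ind (p'.1 v ≠ p'.2 v)) -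
          5 * Fintype.card V / (d : ℝ) ^ 2 ≤
      ∑ i ∈ (fair Z A).filter (fun i => w (i, false) ∈ B ∧ w (i, true) ∈ B),
        ind (p.1 (w (i, false)) ≠ p.2 (w (i, false))) *
          ind (p'.1 (w (i, true)) ≠ p'.2 (w (i, true))) := by
    intro p p'
    have h := hG (B.filter fun v => p.1 v ≠ p.2 v) (B.filter fun v => p'.1 v ≠ p'.2 v)
    rw [EMJ.card_eq, EMJ.card_eq] at h
    refine le_trans (le_of_eq (by ring)) (h.trans (le_of_eq ?_))
    simp only [← ind_and]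
    rw [← EMJ.card_eq, filter_filter, fair, filter_filter]
    refine congrArg (fun s : Finset E => (s.card : ℝ)) (filter_congr fun i _ => ?_)
    simp only [mem_filter]
    tauto
  have h2 := Ex_mono hν.1 fun p => Ex_mono hν.1 (h1 p)
  simp only [Ex_sub, Ex_add, Ex_mul, Ex_mul_right, Ex_sum, hν.Ex_const, hk] at h2
  exact le_trans (le_of_eq (by ring)) h2

end Pool.Agent.MP_32a90a_pr.D

end

section

set_option autoImplicit false

namespace Pool.Agent.MP_32a90a_pr.D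

open Finset Equiv Pool.Agent.MP_32a90a_pr Pool.Agent.MP_32a90a_pr.L

namespace EXJ

lemma avg_ne {A : Type} [Fintype A] [Nonempty A] (a : A) (c : ℝ) :
    (avg fun a' : A => ind (a ≠ a') * c) = c - c / Fintype.card A := by
  classical
  have h : (avg fun a' : A => ind (a = a')) = 1 / Fintype.card A := by simp [avg, ind]
  simp only [ind_not]
  rw [avg_mul_right, avg_sub, avg_const, h]
  ring

end EXJ

theorem stEX (hXE : StXE) : StEX := by
  intro V E _ _ _ _ _ w0 U i F M hU hF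
  obtain ⟨u, hu⟩ := hU
  have : Nonempty (cav U) := ⟨⟨(u, true), mem_product.2 ⟨hu, mem_univ _⟩⟩⟩
  have h1 : ∀ a a' : cav U, (ED w0 fun w J => avg fun b : Bool =>
      ind (a ≠ a') * F (w ∘ ex i a a') (Function.update J i b)) = ind (a ≠ a') * ED w0 F := by
    intro a a'
    simp only [avg_mul]
    rw [ED_mul, ← hXE V E w0 F (ex i a a') i]
  have h2 : (ED w0 fun w J => avg fun a : cav U => avg fun a' : cav U => avg fun b : Bool =>
      ind (a ≠ a') * F (w ∘ ex i a a') (Function.update J i b))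
      = ED w0 F - ED w0 F / Fintype.card (cav U) := by
    rw [ED_avg]
    refine (avg_congr fun a => ?_).trans (avg_const _)
    rw [ED_avg, avg_congr (h1 a), EXJ.avg_ne]
  rw [h2, sub_sub_cancel, abs_div, Nat.abs_cast]
  exact div_le_div_of_nonneg_right (abs_le.2 ⟨const_le_ED fun w J => (abs_le.1 (hF w J)).1,
    ED_le_const fun w J => (abs_le.1 (hF w J)).2⟩) (Nat.cast_nonneg _)

end Pool.Agent.MP_32a90a_pr.D

end

section

set_option autoImplicit false

namespace Pool.Agent.MP_32a90a_pr.D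

open Finset Equiv Filter Pool.Agent.MP_32a90a_pr Pool.Agent.MP_32a90a_pr.L

namespace GwPJ

lemma sm_pow {d : ℕ} (hd : 3 ≤ d) : sm 200 d ≤ 1 / (d : ℝ) ^ 10 := by
  have h3 : (3 : ℝ) ≤ d := by exact_mod_cast hd
  have h0 : (0 : ℝ) < d := by linarith
  rw [one_div, ← Real.exp_log (pow_pos h0 10), ← Real.exp_neg, Real.log_pow]
  refine Real.exp_le_exp.2 (neg_le_neg ?_)
  have := one_le_log hd
  push_cast
  nlinarith

lemma sm_lin {d : ℕ} (hd : 3 ≤ d) : ((d : ℝ) + 3) * sm 300 d ≤ sm 200 d := by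
  have h3 : (3 : ℝ) ≤ d := by exact_mod_cast hd
  have h1 := mul_sm_le (a := (d : ℝ) + 1) 299 hd le_rfl
  have h2 := mul_sm_le (a := 2) 298 hd (by linarith)
  have h4 := sm_anti (k := 200) (k' := 298) (by norm_num) d
  have h5 := sm_pos 300 d
  norm_num at h1 h2
  nlinarith

variable {V E : Type}

lemma gd_mono {U Z : Finset E} (h : U ⊆ Z) {w : E × Bool → V} {v : V} (hg : Gd Z w v) :
    Gd U w v := fun p hp => ⟨fun e => (hg p hp).1 (h e), (hg p hp).2⟩

lemma gd_inv {Z : Finset E} {w w' : E × Bool → V} {v : V} (h : ∀ t, w t = v ↔ w' t = v)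
    (hg : Gd Z w v) : Gd Z w' v := fun p hp =>
  ⟨(hg p ((h p).2 hp)).1, fun e => (hg p ((h p).2 hp)).2 ((h _).2 e)⟩

end GwPJ

open GwPJ in
theorem stGwP (hPar : StPar) (hG9a : StG9a) (hG9b : StG9b) : StGwP := by
  filter_upwards [hPar, hG9b] with d h1 h2
  refine (h1.and h2).mono ?_
  intro V E _ _ _ _ w0 hw hh P hP
  obtain ⟨hd, -, -, -, -, -, -, -, -, hZ, hN⟩ := hh.1 P hP
  have hd3 : 3 ≤ d := by omega
  have hN0 : (0 : ℝ) < Fintype.card V := by
    by_contra hn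
    have := mul_nonpos_of_nonneg_of_nonpos (sm_pos 300 d).le (not_lt.1 hn)
    linarith
  have a2 : (avg fun v => PD w0 fun w _ => ¬ P.Gv w v) ≤ sm 200 d := by
    rw [avg, div_le_iff₀ hN0]
    refine (hG9a V E w0 d P.Z hw).trans ?_
    have h3 := mul_le_mul_of_nonneg_right (sm_lin hd3) hN0.le
    have h4 : (0 : ℝ) ≤ d := Nat.cast_nonneg d
    nlinarith
  have sub : P.U ⊆ P.Z := subset_insert _ _
  refine ⟨?_, a2, fun w v h => gd_mono sub h.1, fun w v h => gd_mono sub h,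
    fun v w w' h hg => ⟨gd_inv h hg.1, ?_⟩, fun v w w' h hg => gd_inv h hg⟩
  · have a1 : (avg fun v : V => PD w0 fun w _ =>
        8 * tau d * d < ((univ.filter fun p : E × Bool => w p = v ∧ p.1 ∈ P.A).card : ℝ))
        ≤ 1 / (d : ℝ) ^ 10 := by
      rw [avg, div_le_iff₀ hN0]
      exact (hh.2 P.A hP.2.2.2.2.1).trans_eq (by ring)
    refine (avg_mono fun v => (PD_mono fun w _ hn => ?_).trans
      (PD_or_le (fun w _ => ¬ P.Gv w v) fun w _ =>
        8 * tau d * d < ((univ.filter fun p : E × Bool => w p = v ∧ p.1 ∈ P.A).card : ℝ))).trans ?_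
    · by_contra hc
      push Not at hc
      exact hn hc
    · rw [avg_add]
      have := sm_pow hd3
      have e : 2 / (d : ℝ) ^ 10 = 1 / (d : ℝ) ^ 10 + 1 / (d : ℝ) ^ 10 := by ring
      linarith
  · have := hg.2
    rwa [filter_congr fun p _ => and_congr_left' (h p)] at this

end Pool.Agent.MP_32a90a_pr.D

end

section

set_option autoImplicit false
set_option linter.unusedSectionVars false

namespace Pool.Agent.MP_32a90a_pr.D

open Finset Equiv Filter Pool.Agent.MP_32a90a_pr Pool.Agent.MP_32a90a_pr.L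

namespace InsCavJ

variable {V E : Type} [Fintype V] [DecidableEq V] [Fintype E] [DecidableEq E] {d : ℕ}

lemma sum_at {w : E × Bool → V} {v : V} {p : Fin d → E × Bool} (hp : Function.Injective p)
    (hw : ∀ t, w t = v ↔ ∃ i, p i = t) (f : E × Bool → ℝ) :
    ∑ t ∈ univ.filter (fun t => w t = v), f t = ∑ i, f (p i) := by
  rw [← sum_image (s := univ) (g := p) fun a _ b _ h => hp h]
  refine sum_congr ?_ fun _ _ => rfl
  ext t
  simp [hw]

lemma slot_cases {t q : E × Bool} (h : t.1 = q.1) : t = q ∨ t = pt q := by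
  obtain ⟨a, x⟩ := t
  obtain ⟨b, y⟩ := q
  cases h
  cases x <;> cases y <;> simp [pt]

/-- the facts on the exchange -/
structure Xc (Z A : Finset E) (v : V) (w w' : E × Bool → V) (J J' : E → Bool)
    (p u : Fin d → E × Bool) (b : Fin d → Bool) : Prop where
  gd : Gd Z w v
  pos : ∀ t, w t = v ↔ ∃ i, p i = t
  uz : ∀ i, (u i).1 ∈ Z
  a1 : ∀ t, w' t = v ↔ w t = v
  a2 : ∀ i, w' (pt (p i)) = w (u i)
  a3 : ∀ t, (∀ i, t ≠ pt (p i)) → (∀ i, t ≠ u i) → w' t = w t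
  a4 : ∀ i, J' (p i).1 = b i
  a5 : ∀ e, (∀ i, e ≠ (p i).1) → J' e = J e
  a6 : Function.Injective fun i => (p i).1

variable {Z A : Finset E} {v : V} {w w' : E × Bool → V} {J J' : E → Bool}
  {p u : Fin d → E × Bool} {b : Fin d → Bool}

lemma Xc.wp (h : Xc Z A v w w' J J' p u b) (i : Fin d) : w (p i) = v := (h.pos _).2 ⟨i, rfl⟩

lemma Xc.sl_new (h : Xc Z A v w w' J J' p u b) (σ : V → Bool) (i : Fin d) :
    sl (cp Z A ∅ J') w' σ (p i).1
      = sgn (σ v) * (Jc (univ.filter fun k => (p k).1 ∈ A) i (b i) * sgn (σ (w (u i)))) := by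
  have h1 : cp Z A ∅ J' (p i).1 = Jc (univ.filter fun k => (p k).1 ∈ A) i (b i) := by
    simp only [cp, Jc, if_neg (h.gd _ (h.wp i)).1, notMem_empty, if_false, h.a4, mem_filter,
      mem_univ, true_and]
  have h2 := (h.a1 _).2 (h.wp i)
  have h3 := h.a2 i
  rw [sl, h1, Y1]
  generalize p i = t at h2 h3
  obtain ⟨e, x⟩ := t
  cases x
  · rw [h2, show w' (e, true) = w (u i) from h3]
    ring
  · rw [h2, show w' (e, false) = w (u i) from h3]
    ring

lemma Xc.sl_old (h : Xc Z A v w w' J J' p u b) (σ : V → Bool) (i : Fin d) :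
    sl (cavS (cp Z A ∅ J) w v) w σ (p i).1 = 0 := by
  have h2 := h.wp i
  generalize p i = t at h2
  obtain ⟨e, x⟩ := t
  cases x <;> simp [sl, cavS, h2]

lemma sl_idle {e : E} (he : e ∈ Z) (σ : V → Bool) :
    sl (cp Z A ∅ J') w' σ e = 0 ∧ sl (cavS (cp Z A ∅ J) w v) w σ e = 0 := by
  simp [sl, cavS, cp, he]

lemma Xc.w_eq (h : Xc Z A v w w' J J' p u b) {t : E × Bool} (h1 : ∀ i, t.1 ≠ (p i).1)
    (h2 : t.1 ∉ Z) : w' t = w t :=
  h.a3 t (fun i e => h1 i (by rw [e]; rfl)) fun i e => h2 (e ▸ h.uz i)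

lemma Xc.sl_off (h : Xc Z A v w w' J J' p u b) (σ : V → Bool) {e : E} (he : ∀ i, e ≠ (p i).1) :
    sl (cp Z A ∅ J') w' σ e = sl (cavS (cp Z A ∅ J) w v) w σ e := by
  by_cases hz : e ∈ Z
  · rw [(sl_idle (A := A) (v := v) (w := w) (w' := w') (J := J) (J' := J') hz σ).1,
      (sl_idle (A := A) (v := v) (w := w) (w' := w') (J := J) (J' := J') hz σ).2]
  · have hv : ∀ x, w (e, x) ≠ v := fun x hx => by
      obtain ⟨i, hi⟩ := (h.pos _).1 hx
      exact he i (by rw [hi])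
    rw [sl, sl, h.w_eq (t := (e, false)) he hz, h.w_eq (t := (e, true)) he hz, cavS,
      if_neg (not_or.2 ⟨hv _, hv _⟩), cp, cp, h.a5 e he]

lemma Xc.en_eq (h : Xc Z A v w w' J J' p u b) (σ : V → Bool) :
    en Y1 (cp Z A ∅ J') w' σ = en Y1 (cavS (cp Z A ∅ J) w v) w σ + sgn (σ v) *
      ∑ i, Jc (univ.filter fun k => (p k).1 ∈ A) i (b i) * sgn (σ (w (u i))) := by
  show ∑ e, sl (cp Z A ∅ J') w' σ e = ∑ e, sl (cavS (cp Z A ∅ J) w v) w σ e + _
  rw [← sub_eq_iff_eq_add', ← sum_sub_distrib, mul_sum,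
    ← sum_subset (subset_univ (univ.image fun i => (p i).1)) fun e _ he => sub_eq_zero.2
      (h.sl_off σ fun i hi => he (mem_image.2 ⟨i, mem_univ _, hi.symm⟩)),
    sum_image fun a _ b _ e => h.a6 e]
  refine sum_congr rfl fun i _ => ?_
  rw [← h.sl_new σ i]
  exact sub_eq_self.2 (h.sl_old σ i)

lemma Xc.loc_off (h : Xc Z A v w w' J J' p u b) (σ : V → Bool) {z : V} (h1 : z ≠ v)
    (h2 : ∀ i, w (u i) ≠ z) :
    loc (cp Z A ∅ J') w' σ z = loc (cavS (cp Z A ∅ J) w v) w σ z := by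
  rw [loc, loc, sum_filter, sum_filter]
  refine sum_congr rfl fun t _ => ?_
  by_cases ht : ∃ i, t.1 = (p i).1
  · obtain ⟨i, hi⟩ := ht
    have h3 : w' t ≠ z := by
      rcases slot_cases hi with e | e <;> rw [e]
      · rw [(h.a1 _).2 (h.wp i)]
        exact h1.symm
      · rw [h.a2]
        exact h2 i
    rw [if_neg h3, hi, h.sl_old, ite_self]
  · have ht' : ∀ i, t.1 ≠ (p i).1 := fun i e => ht ⟨i, e⟩
    by_cases hz : t.1 ∈ Z
    · rw [(sl_idle (A := A) (v := v) (w := w) (w' := w') (J := J) (J' := J') hz σ).1,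
        (sl_idle (A := A) (v := v) (w := w) (w' := w') (J := J) (J' := J') hz σ).2, ite_self,
        ite_self]
    · rw [h.w_eq ht' hz, h.sl_off σ ht']

lemma site {r : Bool → ℝ → ℝ} {q : ℝ} (hr : ∀ b x, |r b x| ≤ 2 * q) (σ : V → Bool) (f f' : V → ℝ)
    (y : Fin d → V) (h : ∀ z, z ≠ v → (∀ i, y i ≠ z) → f' z = f z) :
    |∑ z ∈ univ.erase v, (r (σ z) (f' z) - r (σ z) (f z))| ≤ 4 * d * q := by
  have hq : 0 ≤ q := by linarith [abs_nonneg (r true 0), hr true 0]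
  rw [← sum_subset (filter_subset (fun z => z ∈ univ.image y) (univ.erase v)) fun z hz hz' => by
    rw [h z (ne_of_mem_erase hz) fun i e =>
      hz' (mem_filter.2 ⟨hz, mem_image.2 ⟨i, mem_univ _, e⟩⟩), sub_self]]
  refine (abs_sum_le_sum_abs _ _).trans ((sum_le_card_nsmul _ _ (4 * q) fun z _ => ?_).trans ?_)
  · refine (abs_sub _ _).trans ?_
    linarith [hr (σ z) (f' z), hr (σ z) (f z)]
  · have h1 : ((univ.erase v).filter fun z => z ∈ univ.image y).card ≤ d :=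
      (card_le_card fun z hz => (mem_filter.1 hz).2).trans (card_image_le.trans (by simp))
    have h2 : (((univ.erase v).filter fun z => z ∈ univ.image y).card : ℝ) ≤ d := by
      exact_mod_cast h1
    rw [nsmul_eq_mul]
    nlinarith

end InsCavJ

open InsCavJ in
theorem stInsCav (hXVval : StXVval) : StInsCav := by
  intro V E _ _ _ _ _ d P w J v p hOk hLg hd hG hp hw
  have hUZ : ∀ e, e ∈ P.U → e ∈ P.Z := fun e he => mem_insert_of_mem he
  have hGU : Gd P.U w v := fun t ht => ⟨fun h => (hG t ht).1 (hUZ _ h), (hG t ht).2⟩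
  obtain ⟨-, -, -, -, -, -, -, -, -, -, -, -, -, -, -, -, hg0, hg1, hr⟩ := hOk
  have key : ∀ ω : Fin d → (cav P.U) × Bool, Function.Injective (uu ω) →
      (P.cavi w J v).Near (P.ins w J p ω) ((P.cavi w J v).Dv (crd v) (P.AAp p) P.B ω)
          (univ.image (uu ω)) (dlq d) ∧
        Deg (xv w p fun i => ((ω i).1 : E × Bool)) d ∧
        (∀ σ, loc (P.s (xj J p fun i => (ω i).2)) (xv w p fun i => ((ω i).1 : E × Bool)) σ v
          = sgn (σ v) * hom (P.cavi w J v).sp (P.AAp p) ω σ) ∧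
        ∀ σ σ', fol (xv w p fun i => ((ω i).1 : E × Bool)) v σ σ'
          = dn (P.cavi w J v).sp (uu ω) σ σ' := by
    intro ω hω
    obtain ⟨b0, b1, b2, -, b3, b4, b5, b6⟩ := hXVval V E w d P.U v p (fun i => ((ω i).1 : E × Bool))
      J (fun i => (ω i).2) hd hGU hp hw (fun i k e => hω (Subtype.ext e)) fun i => (ω i).1.2
    have X : Xc P.Z P.A v w (xv w p fun i => ((ω i).1 : E × Bool)) J (xj J p fun i => (ω i).2) p
        (fun i => ((ω i).1 : E × Bool)) fun i => (ω i).2 :=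
      ⟨hG, hw, fun i => hUZ _ (mem_cav.1 (ω i).1.2), b1, b2, b3, b4, b5, b6⟩
    have hw' := fun t => (b1 t).trans (hw t)
    refine ⟨⟨rfl, rfl, rfl, rfl, rfl, fun γ σ => ?_, fun a ha => ?_⟩, b0, fun σ => ?_,
      fun σ σ' => ?_⟩
    · have h1 := X.en_eq σ
      have h2 := site (v := v) hr σ (loc (cavS (P.s J) w v) w σ)
        (loc (P.s (xj J p fun i => (ω i).2)) (xv w p fun i => ((ω i).1 : E × Bool)) σ)
        (fun i => w (ω i).1) fun z hz hz' => X.loc_off σ hz hz'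
      have h3 := hr (σ v)
        (loc (P.s (xj J p fun i => (ω i).2)) (xv w p fun i => ((ω i).1 : E × Bool)) σ v)
      have h4 : |P.g * (sgn (γ v) * sgn (σ v))| ≤ qq d ^ 8 := by
        rw [abs_mul, abs_mul, abs_sgn, abs_sgn, mul_one, mul_one, abs_of_nonneg hg0]
        exact hg1
      have e : (P.ins w J p ω).H0 γ σ - (P.cavi w J v).H0 γ σ
          - (P.cavi w J v).Dv (crd v) (P.AAp p) P.B ω γ σ
          = ∑ z ∈ univ.erase v, (P.rwd (σ z) (loc (P.s (xj J p fun i => (ω i).2))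
              (xv w p fun i => ((ω i).1 : E × Bool)) σ z)
              - P.rwd (σ z) (loc (cavS (P.s J) w v) w σ z))
            + P.rwd (σ v) (loc (P.s (xj J p fun i => (ω i).2))
              (xv w p fun i => ((ω i).1 : E × Bool)) σ v) + P.g * (sgn (γ v) * sgn (σ v)) := by
        simp only [Pk.ins, Pk.full, Pk.cavi, Pk.sys, Sys.Dv, hom, crd, Pk.AAp]
        rw [← add_sum_erase _ _ (mem_univ v)]
        simp only [sum_add_distrib, sum_sub_distrib]
        rw [show en Y1 (P.s (xj J p fun i => (ω i).2)) (xv w p fun i => ((ω i).1 : E × Bool)) σ = _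
          from h1]
        simp only [Pk.s]
        ring
      rw [e, dlq]
      have h5 := abs_nonneg (P.g * (sgn (γ v) * sgn (σ v)))
      refine (abs_add_le _ _).trans ((add_le_add (abs_add_le _ _) le_rfl).trans ?_)
      nlinarith
    · funext σ
      show σ (xv w p (fun i => ((ω i).1 : E × Bool)) a) = σ (w a)
      rw [b3 a (fun i e => (hG _ (X.wp i)).1 (hUZ _ (by
        have := mem_cav.1 a.2
        rwa [e] at this))) fun i e => ha (mem_image.2 ⟨i, mem_univ _, (Subtype.ext e).symm⟩)]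
    · rw [loc, sum_at hp hw', hom, mul_sum]
      exact sum_congr rfl fun i _ => X.sl_new σ i
    · rw [fol, nS, ← filter_filter, card_filter]
      simp only [mem_singleton]
      push_cast
      rw [sum_at hp hw', dn]
      refine sum_congr rfl fun i _ => ?_
      rw [b2 i]
      simp only [dif, mem_filter, mem_univ, true_and, ind]
      congr
  refine ⟨fun ω hω => ⟨dlq d, hLg.2.2.2.2.1, (key ω hω).1⟩, ?_, key⟩
  rw [← filter_filter, ← Nat.cast_inj (R := ℝ), card_filter, Pk.AAp, card_filter]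
  push_cast
  rw [sum_at hp hw]

end Pool.Agent.MP_32a90a_pr.D

end

section

set_option autoImplicit false

namespace Pool.Agent.MP_32a90a_pr.D

open Finset Equiv Filter Pool.Agent.MP_32a90a_pr Pool.Agent.MP_32a90a_pr.L

namespace JoinCutJ

variable {V E : Type} [Fintype V] [DecidableEq V] [Fintype E] [DecidableEq E]

omit [Fintype V] [DecidableEq V] in
lemma en_jn {U : Finset E} {k : E} {a b : E × Bool} {s : E → ℝ} (hU : ∀ i ∈ U, s i = 0)
    (hk : k ∉ U) (ha : a ∈ cav U) (hb : b ∈ cav U) (hab : a ≠ b) (w : E × Bool → V) (c : ℝ)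
    (σ : V → Bool) :
    en Y1 (Function.update s k c) (w ∘ ex k a b) σ
      = en Y1 (Function.update s k 0) w σ + c * (sgn (σ (w a)) * sgn (σ (w b))) := by
  unfold en
  rw [← add_sum_erase _ _ (mem_univ k), ← add_sum_erase _ _ (mem_univ k)]
  simp only [Function.update_self, Function.comp_apply, ex_false hk ha hb, ex_true hk ha hb hab,
    zero_mul, zero_add]
  rw [add_comm]
  congr 1
  refine sum_congr rfl fun i hi => ?_
  have h1 : i ≠ k := ne_of_mem_erase hi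
  rw [Function.update_of_ne h1, Function.update_of_ne h1]
  by_cases hs : s i = 0
  · simp [hs]
  · have h2 : ∀ c, (i, c) ≠ a := by rintro c rfl; exact hs (hU _ (mem_cav.1 ha))
    have h3 : ∀ c, (i, c) ≠ b := by rintro c rfl; exact hs (hU _ (mem_cav.1 hb))
    rw [ex_other (p := (i, false)) h1 (h2 _) (h3 _), ex_other (p := (i, true)) h1 (h2 _) (h3 _)]

omit [Fintype V] in
lemma loc_jn {U : Finset E} {k : E} {a b : E × Bool} {s : E → ℝ} (hU : ∀ i ∈ U, s i = 0)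
    (hk : k ∉ U) (ha : a ∈ cav U) (hb : b ∈ cav U) (hab : a ≠ b) (w : E × Bool → V) (c : ℝ)
    (σ : V → Bool) {u : V} (h1 : u ≠ w a) (h2 : u ≠ w b) :
    loc (Function.update s k c) (w ∘ ex k a b) σ u = loc (Function.update s k 0) w σ u := by
  unfold loc
  rw [sum_filter, sum_filter]
  refine sum_congr rfl fun p _ => ?_
  obtain ⟨i, t⟩ := p
  by_cases hi : i = k
  · subst hi
    have : (w ∘ ex i a b) (i, t) ≠ u := by
      cases t
      · rw [Function.comp_apply, ex_false hk ha hb]; exact h1.symm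
      · rw [Function.comp_apply, ex_true hk ha hb hab]; exact h2.symm
    rw [if_neg this]
    simp [sl]
  · by_cases hs : s i = 0
    · simp [sl, Function.update_of_ne hi, hs]
    · have h3 : ∀ c, (i, c) ≠ a := by rintro c rfl; exact hs (hU _ (mem_cav.1 ha))
      have h4 : ∀ c, (i, c) ≠ b := by rintro c rfl; exact hs (hU _ (mem_cav.1 hb))
      have h5 : ∀ c, ex k a b (i, c) = (i, c) := fun c => ex_other hi (h3 c) (h4 c)
      simp only [sl, Function.comp_apply, h5, Function.update_of_ne hi]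

end JoinCutJ

open JoinCutJ

theorem stJoinCut : StJoinCut := by
  intro V E _ _ _ _ _ d P w J i hO hL _ hi
  have hi' : i ∉ P.Z ∧ i ∉ P.A := (mem_filter.1 hi).2
  have hiU : i ∉ P.U := fun h => hi'.1 (mem_insert_of_mem h)
  have hU : ∀ j ∈ P.U, P.s J j = 0 := fun j hj => by
    simp only [Pk.s, cp, Pk.Z, mem_insert_of_mem hj, if_true]
  have hs : ∀ b, P.s (Function.update J i b) = Function.update (P.s J) i (sgn b) := fun b => by
    funext j
    by_cases hj : j = i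
    · subst hj
      simp [Pk.s, cp, hi'.1, hi'.2]
    · simp only [Pk.s, cp, Function.update_of_ne hj]
  have hr : ∀ b h, |P.rwd b h| ≤ 2 * qq d ^ 8 := hO.2.2.2.2.2.2.2.2.2.2.2.2.2.2.2.2.2.2
  have hq : 0 ≤ qq d ^ 8 := by positivity
  have key : ∀ a a' : cav P.U, a ≠ a' → ∀ b,
      (P.cut w J i).Near (P.jn w J i a a' b) ((P.cut w J i).De a a' b) {a, a'} (dlq d) := by
    intro a a' hab b
    have hab' : (a : E × Bool) ≠ a' := fun h => hab (Subtype.ext h)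
    refine ⟨rfl, rfl, rfl, rfl, rfl, fun γ σ => ?_, fun p hp => ?_⟩
    · simp only [Pk.jn, Pk.cut, Pk.full, Pk.sys, Sys.De, hs, en_jn hU hiU a.2 a'.2 hab']
      have e : ∀ x y z t : ℝ, x + y + z - (x + t) - y = z - t := fun _ _ _ _ => by ring
      rw [e, ← sum_sub_distrib, ← sum_subset (subset_univ {w a, w a'}) (fun v _ hv => by
        simp only [mem_insert, mem_singleton, not_or] at hv
        rw [loc_jn hU hiU a.2 a'.2 hab' w _ σ hv.1 hv.2, sub_self])]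
      refine (abs_sum_le_sum_abs _ _).trans ((sum_le_card_nsmul _ _ (4 * qq d ^ 8)
        fun v _ => ?_).trans ?_)
      · have e2 : ∀ x y z t : ℝ, x + y + z - (x + t + z) = y - t := fun _ _ _ _ => by ring
        rw [e2]
        exact (abs_sub _ _).trans ((add_le_add (hr _ _) (hr _ _)).trans_eq (by ring))
      · have c2 : ((({w a, w a'} : Finset V).card : ℕ) : ℝ) ≤ 2 := by exact_mod_cast card_le_two
        have hd : (0 : ℝ) ≤ d := Nat.cast_nonneg d
        rw [nsmul_eq_mul, dlq]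
        nlinarith [mul_nonneg hd hq]
    · simp only [mem_insert, mem_singleton, not_or] at hp
      have h1 : (p : E × Bool).1 ≠ i := fun h => hiU (h ▸ mem_cav.1 p.2)
      funext σ
      simp only [Pk.jn, Pk.cut, Pk.full, Pk.sys, Function.comp_apply]
      rw [ex_other h1 (fun h => hp.1 (Subtype.ext h)) (fun h => hp.2 (Subtype.ext h))]
  refine ⟨fun a a' b hab => ⟨dlq d, hL.2.2.2.2.1, key a a' hab b⟩, fun a a' hab b =>
    ⟨key a a' hab b, ?_, ?_⟩⟩
  · rw [Function.comp_apply, ex_false hiU a.2 a'.2]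
  · rw [Function.comp_apply, ex_true hiU a.2 a'.2 fun h => hab (Subtype.ext h)]

end Pool.Agent.MP_32a90a_pr.D

end

section

set_option autoImplicit false

namespace Pool.Agent.MP_32a90a_pr.D

open Finset Equiv Filter Pool.Agent.MP_32a90a_pr Pool.Agent.MP_32a90a_pr.L

namespace NearCutJ

lemma near_symm {Sg G0 A : Type} {S S' : Sys Sg G0 A} {D : G0 → Sg → ℝ} {I : Finset A} {dl : ℝ}
    (h : S.Near S' D I dl) : S'.Near S (fun g σ => -D g σ) I dl := by
  obtain ⟨h1, h2, h3, h4, h5, h6, h7⟩ := h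
  refine ⟨h1.symm, h2.symm, h3.symm, h4.symm, h5.symm, fun g σ => ?_, fun a ha => (h7 a ha).symm⟩
  rw [← abs_neg]
  refine le_of_eq_of_le (congrArg _ ?_) (h6 g σ)
  ring

lemma abs_cp {E : Type} [DecidableEq E] (U A F : Finset E) (J : E → Bool) (i : E) :
    |cp U A F J i| ≤ 1 := by
  unfold cp
  split_ifs
  · simp
  · simp
  · simp
  · rcases sgn_cases (J i) with e | e <;> simp [e]

lemma dif_sum {V : Type} [DecidableEq V] (W N : Finset V) (f g : V → ℝ) {c : ℝ} (hc : 0 ≤ c)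
    (hf : ∀ u, |f u| ≤ c) (hg : ∀ u, |g u| ≤ c) (h : ∀ u ∈ W, u ∉ N → f u = g u) {n : ℕ}
    (hn : N.card ≤ n) : |∑ u ∈ W, f u - ∑ u ∈ W, g u| ≤ n * (2 * c) := by
  rw [← sum_sub_distrib, ← sum_subset (inter_subset_left (s₂ := N)) fun u hu hu' => by
    rw [h u hu fun e => hu' (mem_inter.2 ⟨hu, e⟩), sub_self]]
  refine (abs_sum_le_sum_abs _ _).trans ((sum_le_card_nsmul _ _ (2 * c) fun u _ => ?_).trans ?_)
  · exact (abs_sub _ _).trans (by linarith [hf u, hg u])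
  · rw [nsmul_eq_mul]
    refine mul_le_mul_of_nonneg_right ?_ (by linarith)
    exact_mod_cast (card_le_card inter_subset_right).trans hn

variable {V E : Type} [DecidableEq V] [Fintype E]

lemma loc_congr {s s' : E → ℝ} {w : E × Bool → V} (σ : V → Bool) {u : V}
    (h : ∀ p, w p = u → s p.1 = s' p.1) : loc s w σ u = loc s' w σ u :=
  sum_congr rfl fun p hp => by rw [sl, sl, h p (mem_filter.1 hp).2]

lemma cav_eq (s : E → ℝ) {w : E × Bool → V} {u v : V} (h1 : u ≠ v) (h2 : u ∉ Nb w v)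
    (p : E × Bool) (hp : w p = u) : s p.1 = cavS s w v p.1 := by
  have a1 : w p ≠ v := hp ▸ h1
  have a2 : w (pt p) ≠ v := fun e => by
    have := mem_Nb w (pt p)
    rw [pt_pt, e, hp] at this
    exact h2 this
  rw [cavS, if_neg]
  obtain ⟨i, c⟩ := p
  cases c
  · exact not_or.2 ⟨a1, a2⟩
  · exact not_or.2 ⟨a2, a1⟩

lemma en_cav [Fintype V] {s : E → ℝ} (hs : ∀ i, |s i| ≤ 1) {w : E × Bool → V} {d : ℕ} (hd : Deg w d) (v : V)
    (σ : V → Bool) : |en Y1 s w σ - en Y1 (cavS s w v) w σ| ≤ d := by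
  classical
  have h := abs_en_sub_le (s := cavS s w v) (w := w) (abs_Y1 (V := V))
    ((univ.filter fun p : E × Bool => w p = v).image Prod.fst) (s' := s) (fun i hi => ?_)
    (fun i _ => ?_) σ
  · refine h.trans ?_
    rw [one_mul]
    exact_mod_cast card_image_le.trans (hd v).le
  · rw [cavS, if_neg]
    rintro (e | e)
    · exact hi (mem_image.2 ⟨_, mem_filter.2 ⟨mem_univ _, e⟩, rfl⟩)
    · exact hi (mem_image.2 ⟨_, mem_filter.2 ⟨mem_univ _, e⟩, rfl⟩)
  · rw [cavS]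
    split_ifs
    · simpa using hs i
    · simp

end NearCutJ

open NearCutJ in
theorem stNearCut : StNearCut := by
  intro V E _ _ _ _ _ d P w J hP hd
  have hq : 0 ≤ qq d ^ 8 := by unfold qq; positivity
  have hdq : 0 ≤ (d : ℝ) * qq d ^ 8 := by positivity
  obtain ⟨-, -, -, -, -, -, -, -, -, -, -, -, -, -, -, hB, hg0, hg, hr⟩ := hP
  have hs : ∀ i, |P.s J i| ≤ 1 := abs_cp _ _ _ _
  have hsg : ∀ b, |sgn b| = 1 := fun b => by rcases sgn_cases b with e | e <;> simp [e]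
  refine ⟨fun i => ?_, fun v => ?_⟩
  · have h : (P.cut w J i).Near (P.full w J) (fun _ σ => sl (P.s J) w σ i) ∅ (dlq d) := by
      refine ⟨rfl, rfl, rfl, rfl, rfl, fun γ σ => ?_, fun _ _ => rfl⟩
      have h1 := en_update (Y := Y1) (w := w) (s := Function.update (P.s J) i 0) i
        (Function.update_self _ _ _) (P.s J i) σ
      rw [Function.update_idem, Function.update_eq_self] at h1
      have h2 := dif_sum univ {w (i, false), w (i, true)}
        (fun u => P.rwd (σ u) (loc (P.s J) w σ u))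
        (fun u => P.rwd (σ u) (loc (Function.update (P.s J) i 0) w σ u)) (c := 2 * qq d ^ 8)
        (by linarith) (fun _ => hr _ _) (fun _ => hr _ _) (fun u _ hu => by
          rw [loc_congr σ fun p hp => (Function.update_of_ne ?_ _ _).symm]
          rintro rfl
          obtain ⟨k, c⟩ := p
          cases c <;> simp [← hp] at hu) card_le_two
      refine le_of_eq_of_le (congrArg _ ?_) (h2.trans ?_)
      · simp only [Pk.full, Pk.cut, Pk.sys, sum_add_distrib, sl]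
        linear_combination h1
      · rw [dlq]
        push_cast
        linarith
    refine ⟨h, near_symm h, fun σ => ?_⟩
    rw [sl, abs_mul]
    exact mul_le_one₀ (hs i) (abs_nonneg _) (abs_Y1 _ _ _)
  · have h : (P.cavi w J v).Near (P.full w J) (fun _ σ =>
        en Y1 (P.s J) w σ - en Y1 (cavS (P.s J) w v) w σ + P.B * sgn (σ v)) ∅ (dlq d) := by
      refine ⟨rfl, rfl, rfl, rfl, rfl, fun γ σ => ?_, fun _ _ => rfl⟩
      have h2 := dif_sum (univ.erase v) (Nb w v) (fun u => P.rwd (σ u) (loc (P.s J) w σ u))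
        (fun u => P.rwd (σ u) (loc (cavS (P.s J) w v) w σ u)) (c := 2 * qq d ^ 8)
        (by linarith) (fun _ => hr _ _) (fun _ => hr _ _) (fun u hu hu' => by
          rw [loc_congr σ (cav_eq (P.s J) (mem_erase.1 hu).1 hu')]) (Nb_card hd v)
      have h3 : |P.g * (sgn (γ v) * sgn (σ v))| ≤ qq d ^ 8 := by
        rw [abs_mul, abs_mul, hsg, hsg, abs_of_nonneg hg0]
        linarith
      have h4 := hr (σ v) (loc (P.s J) w σ v)
      simp only [Pk.full, Pk.cavi, Pk.sys]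
      rw [← add_sum_erase _ _ (mem_univ v)]
      simp only [sum_add_distrib]
      rw [abs_le] at h2 h3 h4 ⊢
      rw [dlq]
      constructor <;> linarith [h2.1, h2.2, h3.1, h3.2, h4.1, h4.2]
    refine ⟨_, fun _ σ => ?_, h, near_symm h⟩
    refine (abs_add_le _ _).trans (add_le_add (en_cav hs hd v σ) ?_)
    rwa [abs_mul, hsg, mul_one]

end Pool.Agent.MP_32a90a_pr.D

end

section

set_option autoImplicit false

namespace Pool.Agent.MP_32a90a_pr.D

open Finset Equiv Filter Pool.Agent.MP_32a90a_pr Pool.Agent.MP_32a90a_pr.L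

namespace NearSwJ

variable {V E : Type} [DecidableEq E] {i i' : E}

lemma fix {p : E × Bool} (h : p.1 ≠ i) (h' : p.1 ≠ i') : swap (i, true) (i', false) p = p :=
  swap_apply_of_ne_of_ne (fun e => h (congrArg Prod.fst e)) fun e => h' (congrArg Prod.fst e)

omit [DecidableEq E] in
lemma sum_two [Fintype E] (h : i ≠ i') (f g : E → ℝ) (hfg : ∀ k, k ≠ i → k ≠ i' → f k = g k) :
    ∑ k, f k - ∑ k, g k = (f i - g i) + (f i' - g i') := by
  rw [← sum_sub_distrib]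
  exact Fintype.sum_eq_add i i' h fun k hk => sub_eq_zero.2 (hfg k hk.1 hk.2)

lemma sl_eq {s s' : E → ℝ} (hs : ∀ k, k ≠ i → k ≠ i' → s' k = s k) (w : E × Bool → V)
    (σ : V → Bool) {k : E} (h : k ≠ i) (h' : k ≠ i') :
    sl s' (w ∘ swap (i, true) (i', false)) σ k = sl s w σ k := by
  simp only [sl, Function.comp, hs k h h', fix (p := (k, false)) h h', fix (p := (k, true)) h h']

lemma loc_eq [Fintype E] [DecidableEq V] {s s' : E → ℝ} (hs : ∀ k, k ≠ i → k ≠ i' → s' k = s k)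
    (w : E × Bool → V) (σ : V → Bool) {v : V}
    (hv : v ∉ (({i, i'} : Finset E) ×ˢ (univ : Finset Bool)).image w) :
    loc s' (w ∘ swap (i, true) (i', false)) σ v = loc s w σ v := by
  have h1 : ∀ p : E × Bool, w p = v → p.1 ≠ i ∧ p.1 ≠ i' := fun p hp =>
    ⟨fun e => hv (mem_image.2 ⟨p, by simp [e], hp⟩), fun e => hv (mem_image.2 ⟨p, by simp [e], hp⟩)⟩
  have h2 : ∀ p : E × Bool, w (swap (i, true) (i', false) p) = v ↔ w p = v := by
    intro p
    refine ⟨fun hp => ?_, fun hp => by rw [fix (h1 p hp).1 (h1 p hp).2, hp]⟩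
    have h3 := fix (h1 _ hp).1 (h1 _ hp).2
    rw [swap_apply_self] at h3
    rw [h3, hp]
  unfold loc
  refine sum_congr (filter_congr fun p _ => h2 p) fun p hp => ?_
  have h3 := h1 p (mem_filter.1 hp).2
  exact sl_eq hs w σ h3.1 h3.2

end NearSwJ

open NearSwJ in
theorem stNearSw : StNearSw := by
  intro V E _ _ _ _ _ d P w J i i' b b' m hP _ hne hi hi' e1 e2 e3 e4
  obtain ⟨hZ, hA⟩ := (mem_filter.1 hi).2
  obtain ⟨hZ', hA'⟩ := (mem_filter.1 hi').2
  have hs : ∀ k, k ≠ i → k ≠ i' →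
      P.s (Function.update (Function.update J i b) i' b') k = P.s J k := fun k h h' => by
    simp only [Pk.s, cp, Function.update_of_ne h, Function.update_of_ne h']
  refine ⟨rfl, rfl, rfl, rfl, rfl, fun γ σ => ?_, fun a _ => ?_⟩
  · have h1 := sum_two hne
      (sl (P.s (Function.update (Function.update J i b) i' b')) (w ∘ swap (i, true) (i', false)) σ)
      (sl (P.s J) w σ) fun k h h' => sl_eq hs w σ h h'
    have p1 : swap (i, true) (i', false) (i, false) = (i, false) :=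
      swap_apply_of_ne_of_ne (by simp) (by simp [hne])
    have p2 : swap (i, true) (i', false) (i', true) = (i', true) :=
      swap_apply_of_ne_of_ne (by simp [hne.symm]) (by simp)
    have h2 : en Y1 (P.s (Function.update (Function.update J i b) i' b'))
        (w ∘ swap (i, true) (i', false)) σ - en Y1 (P.s J) w σ =
        swE (sgn (σ (w (i, false))) * sgn (m 0)) (sgn (σ (w (i', false))) * sgn (m 1))
          (sgn (σ (w (i, true))) * sgn (m 2)) (sgn (σ (w (i', true))) * sgn (m 3)) := by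
      refine h1.trans ?_
      simp only [sl, Pk.s, cp, if_neg hZ, if_neg hZ', if_neg hA, if_neg hA', notMem_empty,
        if_false, Function.update_self, Function.update_of_ne hne, Function.comp, p1, p2,
        swap_apply_left, swap_apply_right, Y1, swE, e1, e2, e3, e4]
      ring
    have hq : 0 ≤ qq d ^ 8 := by positivity
    have hr := hP.2.2.2.2.2.2.2.2.2.2.2.2.2.2.2.2.2.2
    have h3 : |∑ v, (P.rwd (σ v) (loc (P.s (Function.update (Function.update J i b) i' b'))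
        (w ∘ swap (i, true) (i', false)) σ v) - P.rwd (σ v) (loc (P.s J) w σ v))| ≤ dlq d := by
      rw [← sum_subset (subset_univ ((({i, i'} : Finset E) ×ˢ (univ : Finset Bool)).image w))
        fun v _ hv => by rw [loc_eq hs w σ hv, sub_self]]
      refine (abs_sum_le_sum_abs _ _).trans
        ((sum_le_card_nsmul _ _ (4 * qq d ^ 8) fun v _ => ?_).trans ?_)
      · refine (abs_sub _ _).trans ((add_le_add (hr _ _) (hr _ _)).trans_eq ?_)
        ring
      · have h4 : ((({i, i'} : Finset E) ×ˢ (univ : Finset Bool)).image w).card ≤ 4 := by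
          refine card_image_le.trans ?_
          rw [card_product, card_pair hne, card_univ, Fintype.card_bool]
        have h5 : (((({i, i'} : Finset E) ×ˢ (univ : Finset Bool)).image w).card : ℝ) ≤ 4 := by
          exact_mod_cast h4
        have h6 : 0 ≤ (d : ℝ) * qq d ^ 8 := by positivity
        rw [nsmul_eq_mul, dlq]
        nlinarith
    refine le_of_eq_of_le (congrArg _ ?_) h3
    simp only [Pk.full, Pk.sys, sum_add_distrib, sum_sub_distrib]
    linear_combination h2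
  · have h1 : a.1.1 ∈ P.Z := mem_insert_of_mem (mem_product.1 a.2).1
    funext σ
    show σ (w (swap (i, true) (i', false) a)) = σ (w a)
    rw [fix (p := a.1) (i := i) (i' := i') (fun e => hZ (e ▸ h1)) fun e => hZ' (e ▸ h1)]

end Pool.Agent.MP_32a90a_pr.D

end

section

set_option autoImplicit false

namespace Pool.Agent.MP_32a90a_pr.D

open Finset Equiv Filter Pool.Agent.MP_32a90a_pr Pool.Agent.MP_32a90a_pr.L

namespace ParJ

lemma qq_pos (d : ℕ) : 0 < qq d := Real.exp_pos _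

lemma ev_qq : ∀ᶠ d : ℕ in atTop, qq d ≤ sm 300 d := by
  have h := tendsto_natCast_atTop_atTop.eventually
    (Real.isLittleO_log_id_atTop.bound (show (0 : ℝ) < 1 / 1200 by norm_num))
  filter_upwards [h] with d hd
  have h0 : (0 : ℝ) ≤ d := Nat.cast_nonneg d
  rw [Real.norm_eq_abs, Real.norm_eq_abs, id, abs_of_nonneg h0] at hd
  refine Real.exp_le_exp.2 (neg_le_neg ?_)
  nlinarith [mul_le_mul_of_nonneg_left ((le_abs_self _).trans hd) h0]

lemma ev_tau : ∀ᶠ d : ℕ in atTop, 64 * tau d * 10 ^ 7 ≤ 1 := by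
  have h := ((tendsto_rpow_neg_atTop (show (0 : ℝ) < 1 / 10 by norm_num)).comp
    tendsto_natCast_atTop_atTop).eventually
      (eventually_le_nhds (show (0 : ℝ) < 1 / (64 * 10 ^ 7) by norm_num))
  filter_upwards [h] with d hd
  have h1 : tau d ≤ 1 / (64 * 10 ^ 7) := hd
  linarith

lemma qq_small {d : ℕ} (hd : 1000 ≤ d) : (4 * d + 16) * qq d ≤ 1 := by
  have h0 : (1000 : ℝ) ≤ d := by exact_mod_cast hd
  have h1 := Real.add_one_le_exp ((d : ℝ) ^ 2 / 4)
  rw [qq, Real.exp_neg, ← div_eq_mul_inv, div_le_one (Real.exp_pos _)]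
  nlinarith

end ParJ

open ParJ in
theorem stPar : StPar := by
  filter_upwards [eventually_ge_atTop 1000, ev_qq, ev_tau] with d hd hqm hτ
  have hq := qq_pos d
  have hs := qq_small hd
  have hm := sm_pos 300 d
  have hm1 := sm_le_one (k := 300) (by norm_num) d
  have hd' : (1000 : ℝ) ≤ d := by exact_mod_cast hd
  have hq2 : qq d ≤ 1 / 2 := by nlinarith
  have hq1 : qq d ≤ 1 := by linarith
  have hp : ∀ n : ℕ, qq d ^ (n + 1) ≤ qq d := fun n => pow_le_of_le_one hq.le hq1 n.succ_ne_zero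
  have hp2 : ∀ n : ℕ, 2 * qq d ^ (n + 2) ≤ qq d := fun n => by
    have h1 := mul_le_mul (hp n) hq2 hq.le hq.le
    rw [pow_succ]
    linarith
  have e1 := (tendsto_natCast_atTop_atTop.const_mul_atTop
    (show 0 < sm 300 d * qq d ^ 16 by positivity)).eventually_ge_atTop (4 : ℝ)
  have e2 := (Real.tendsto_exp_neg_atTop_nhds_zero.comp (tendsto_natCast_atTop_atTop.const_mul_atTop
    (show 0 < qq d ^ 20 / 8 by positivity))).eventually (eventually_le_nhds
      (mul_pos (pow_pos hq 2) (sm_pos (7 * (1 / qq d ^ 4) + 300) d)))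
  refine (Big.card d _ (e1.and e2)).mono ?_
  rintro V E _ _ _ _ w0 hw ⟨hN1, hN2⟩ P
    ⟨-, -, -, hU, hA, hβ1, hβ, hx1, hx, hy, hρ, htp1, htp, htm1, htm, -⟩
  have hE := card_half hw
  have hc : (Fintype.card (cav P.U) : ℝ) = 2 * P.U.card := by
    rw [Fintype.card_coe, cav, card_product, card_univ, Fintype.card_bool]
    push_cast
    ring
  have hZ : (P.Z.card : ℝ) ≤ P.U.card + 1 := by exact_mod_cast card_insert_le P.e P.U
  obtain ⟨N, hN⟩ : ∃ N : ℝ, N = Fintype.card V := ⟨_, rfl⟩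
  have hN0 : 0 ≤ N := hN ▸ Nat.cast_nonneg _
  have hu1 : qq d ^ 16 * N ≤ P.U.card := by rw [hU, hN]; exact Nat.le_ceil _
  have hu2 : (P.U.card : ℝ) ≤ qq d ^ 16 * N + 1 := by
    rw [hU, hN]; exact (Nat.ceil_lt_add_one (by positivity)).le
  have hu0 : (0 : ℝ) ≤ P.U.card := Nat.cast_nonneg _
  have hN2' : Real.exp (-(qq d ^ 20 / 8 * N)) ≤ qq d ^ 2 * sm (7 * (1 / qq d ^ 4) + 300) d := by
    rw [hN]; exact hN2
  rw [← hN] at hN1 hE
  have h16 : qq d ^ 16 * N ≤ N := mul_le_of_le_one_left hN0 ((hp 15).trans hq1)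
  have hmN : 4 ≤ sm 300 d * N := hN1.trans (by
    rw [mul_assoc]; exact mul_le_mul_of_nonneg_left h16 hm.le)
  have hN4 : 4 ≤ N := hmN.trans (mul_le_of_le_one_left hN0 hm1)
  have hb : ∀ t : ℝ, 0 ≤ t → t ≤ qq d ^ 5 → P.β * t ≤ sm 300 d := fun t h0 h1 => by
    refine (mul_le_mul hβ h1 h0 (by positivity)).trans (le_trans (le_of_eq ?_) hqm)
    field_simp
  have h85 : 2 * qq d ^ 8 ≤ qq d ^ 5 := by
    have h1 := mul_le_mul_of_nonneg_left ((hp2 1).trans hq1) (pow_pos hq 5).le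
    calc 2 * qq d ^ 8 = qq d ^ 5 * (2 * qq d ^ (1 + 2)) := by ring
      _ ≤ _ := h1.trans_eq (mul_one _)
  have hdl : dlq d ≤ qq d ^ 5 := by
    have h1 := mul_le_mul hs ((hp 1).trans hq1) (by positivity) zero_le_one
    have h2 := mul_le_mul_of_nonneg_left h1 (pow_pos hq 5).le
    calc dlq d = qq d ^ 5 * ((4 * d + 16) * qq d * qq d ^ (1 + 1)) := by unfold dlq; ring
      _ ≤ _ := h2.trans_eq (by ring)
  have hdl0 : 0 ≤ dlq d := by unfold dlq; positivity
  rw [Pk.Lg, ← hN]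
  refine ⟨hd, fun W s w => ⟨hβ1, (pow_pos hq 5).trans_le hx1, hy.trans (by norm_num),
    hx.trans ((hp 3).trans hqm), (pow_pos hq 2).trans_eq hρ.symm, hρ.trans_le ((hp 1).trans hqm), htp1, htm1,
    hb _ (sub_nonneg.2 htp1) ((sub_le_iff_le_add'.2 htp).trans h85),
    hb _ (sub_nonneg.2 htm1) ((sub_le_iff_le_add'.2 htm).trans h85), ?_⟩, ?_, ?_,
    hb _ hdl0 hdl, hdl.trans ((hp 4).trans hq1), hqm, hτ, ?_, ?_, by linarith⟩
  · rw [hc]
    linarith [mul_le_mul_of_nonneg_left hu1 hm.le, mul_nonneg hm.le hu0]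
  · have h1 : (0 : ℝ) ≤ Fintype.card E := Nat.cast_nonneg _
    have h2 : (2 : ℝ) * (P.Z.card + P.A.card) ≤ Fintype.card E := by
      linarith [mul_le_mul_of_nonneg_right hτ h1, mul_le_mul_of_nonneg_right hd' hN0]
    exact_mod_cast h2
  · refine le_trans (Real.exp_le_exp.2 (neg_le_neg ?_)) (hN2'.trans ?_)
    · have h1 : qq d ^ 2 / 2 ≤ P.ρ / (2 * (1 - P.ρ)) := by
        have h2 : qq d ^ 2 ≤ qq d := hp 1
        rw [hρ]
        exact div_le_div_of_nonneg_left (by positivity) (by linarith) (by linarith [pow_pos hq 2])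
      have h2 : qq d ^ 16 * N ≤ Fintype.card (cav P.U) := by rw [hc]; linarith
      have h3 := mul_le_mul_of_nonneg_left (mul_le_mul h1 h2 (by positivity)
        (le_trans (by positivity) h1)) (pow_pos hq 2).le
      calc qq d ^ 20 / 8 * N = qq d ^ 2 * (qq d ^ 2 / 2 * (qq d ^ 16 * N)) / 4 := by ring
        _ ≤ _ := by linarith
    · rw [hρ]
      exact mul_le_mul_of_nonneg_left (sm_anti (by linarith) d) (by positivity)
  · rw [div_mul_eq_mul_div, le_div_iff₀ (by positivity), mul_assoc, hc]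
    exact mul_le_mul_of_nonneg_left (by linarith) (by linarith)
  · have h1 : 2 * qq d ^ 16 ≤ sm 300 d := (hp2 14).trans hqm
    linarith [mul_le_mul_of_nonneg_right h1 hN0]

end Pool.Agent.MP_32a90a_pr.D

end

section

set_option autoImplicit false

namespace Pool.Agent.MP_32a90a_pr.D

open Finset Equiv Filter Pool.Agent.MP_32a90a_pr Pool.Agent.MP_32a90a_pr.L

namespace RbJ

lemma ell_top : Tendsto ell atTop atTop :=
  Real.tendsto_log_atTop.comp tendsto_natCast_atTop_atTop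

lemma le_Lam (K : ℝ) : ∀ᶠ d : ℕ in atTop, K ≤ Lam d := by
  filter_upwards [ell_top.eventually_ge_atTop (K ^ 2), ell_top.eventually_gt_atTop 1] with d h1 h2
  have h3 : 0 < lll d := Real.log_pos h2
  have h4 : lll d ≤ ell d := (Real.log_le_sub_one_of_pos (by linarith : 0 < ell d)).trans
    (by linarith)
  rw [Lam, le_div_iff₀ (Real.sqrt_pos.2 h3)]
  calc K * Real.sqrt (lll d) ≤ Real.sqrt (ell d) * Real.sqrt (ell d) :=
        mul_le_mul (Real.le_sqrt_of_sq_le h1) (Real.sqrt_le_sqrt h4) (Real.sqrt_nonneg _)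
          (Real.sqrt_nonneg _)
    _ = ell d := Real.mul_self_sqrt (by linarith)

lemma rB_le {d : ℕ} {r : Bool → ℤ → ℝ} {M δ ε L : ℝ} (b : Bool) (h0 : ∀ b l, 0 ≤ r b l)
    (hM : 0 ≤ M) (hδ : 0 ≤ δ)
    (h1 : ∑ l ∈ Icc (-(d : ℤ)) d, ind (l < 0 ∨ Odd l) * r (!b) l ≤ ε)
    (h2 : ∀ l : ℕ, 20 * l ≤ d → r (!b) (2 * l) ≤ M * r b (2 * l) + δ) (hL : 10 * L ≤ d) :
    rB d r (!b) L ≤ ε + M * rB d r b L + (2 * d + 1) * δ := by
  have key : ∀ l : ℤ, ind ((l : ℝ) ≤ L) * r (!b) l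
      ≤ ind (l < 0 ∨ Odd l) * r (!b) l + M * (ind ((l : ℝ) ≤ L) * r b l) + δ := fun l => by
    have a1 := mul_nonneg (ind_nonneg (l < 0 ∨ Odd l)) (h0 (!b) l)
    have a2 := mul_nonneg hM (h0 b l)
    by_cases hl : (l : ℝ) ≤ L
    · rw [ind_pos hl, one_mul, one_mul]
      by_cases ho : l < 0 ∨ Odd l
      · rw [ind_pos ho]
        linarith
      · rw [not_or, not_lt, Int.not_odd_iff_even] at ho
        obtain ⟨hn, k, rfl⟩ := ho
        lift k to ℕ using by omega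
        have h3 : ((20 * k : ℕ) : ℝ) ≤ d := by
          push_cast at hl ⊢
          linarith
        have := h2 k (by exact_mod_cast h3)
        rw [two_mul] at this
        linarith
    · rw [ind_neg hl, zero_mul, zero_mul, mul_zero]
      linarith
  refine (sum_le_sum fun l _ => key l).trans ?_
  rw [sum_add_distrib, sum_add_distrib, ← mul_sum, sum_const, Int.card_Icc, nsmul_eq_mul,
    show ((d : ℤ) + 1 - -(d : ℤ)).toNat = 2 * d + 1 by omega]
  push_cast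
  exact add_le_add (add_le_add h1 le_rfl) le_rfl

end RbJ

theorem stRb : StRb := by
  intro C c hC
  filter_upwards [RbJ.le_Lam (4 * C), RbJ.ell_top.eventually_ge_atTop 1,
    eventually_ge_atTop 2] with d h1 h2 h3 r hr hb L hL hL'
  have hd : (2 : ℝ) ≤ d := by exact_mod_cast h3
  have hd0 : (0 : ℝ) < d := by linarith
  obtain ⟨b, h4⟩ := hr.2.2.2.1 L hL (by linarith)
  have h5 := RbJ.rB_le (δ := 1 / (d : ℝ) ^ 8) b (fun b l => (hr.1 b l).1)
    (Real.exp_pos (100 * Lam d)).le (by positivity) (hr.2.1 _)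
    (fun l hl => by simpa only [Bool.not_not] using hb (!b) l hl) hL'
  have e : rL d r L = rB d r b L + rB d r (!b) L := by cases b <;> simp [rL, add_comm]
  have h6 : 1 / (d : ℝ) ≤ L ^ 2 * ell d / d := by
    gcongr
    nlinarith
  have h7 : 1 / (d : ℝ) ^ 10 + (2 * d + 1) * (1 / (d : ℝ) ^ 8) ≤ 1 / d := by
    have a1 : 1 / (d : ℝ) ^ 10 ≤ 1 / (d : ℝ) ^ 8 := by
      gcongr
      · linarith
      · norm_num
    have a2 : (2 : ℝ) ^ 6 ≤ (d : ℝ) ^ 6 := by gcongr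
    have a3 : (2 * d + 2) * (1 / (d : ℝ) ^ 8) ≤ 1 / d := by
      rw [mul_one_div, div_le_div_iff₀ (by positivity) hd0]
      nlinarith [mul_le_mul_of_nonneg_right a2 (sq_nonneg (d : ℝ))]
    linarith
  have h8 : 1 ≤ Real.exp (100 * Lam d) := Real.one_le_exp (by linarith)
  have h9 : Real.exp (100 * Lam d) * (4 * C + 1) ≤ Real.exp (101 * Lam d) := by
    rw [show 101 * Lam d = 100 * Lam d + Lam d by ring, Real.exp_add]
    gcongr
    linarith [Real.add_one_le_exp (Lam d)]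
  have hX : 0 ≤ L ^ 2 * ell d / d := by positivity
  rw [mul_assoc, mul_div_assoc] at h4 ⊢
  generalize L ^ 2 * ell d / d = X at *
  have h10 := mul_le_mul_of_nonneg_left h4 (Real.exp_pos (100 * Lam d)).le
  have h11 := mul_le_mul_of_nonneg_right h9 hX
  have h12 := mul_le_mul_of_nonneg_right h8 (by positivity : 0 ≤ (2 * C + 1) * X)
  rw [e]
  linarith

end Pool.Agent.MP_32a90a_pr.D

end

section

set_option autoImplicit false

namespace Pool.Agent.MP_32a90a_pr.D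

open Finset Equiv Filter Pool.Agent.MP_32a90a_pr Pool.Agent.MP_32a90a_pr.L

namespace RegPJ

variable {V E : Type} [Fintype V] [DecidableEq V] [Fintype E] [DecidableEq E]

lemma typ_mono {d : ℕ} {C c e e' : ℝ} {U A : Finset E} {w : E × Bool → V} {J : E → Bool}
    (he : e ≤ e') (h : Typ d C c e U A w J) : Typ d C c e' U A w J := by
  obtain ⟨h1, h2, h3, h4, h5, h6, h7⟩ := h
  have hN : e * Fintype.card V ≤ e' * Fintype.card V :=
    mul_le_mul_of_nonneg_right he (Nat.cast_nonneg _)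
  exact ⟨fun Z hZ => (h1 Z hZ).trans (by linarith), h2, h3, h4, h5, h6.trans hN, h7⟩

lemma point {d : ℕ} {C c e e' y : ℝ} (TT : Finset (ℕ × ℝ × ℝ)) (r : Bool → ℤ → ℝ)
    {Z A : Finset E} {w : E × Bool → V} (J : E → Bool) {μ : (V → Bool) → ℝ} (he : 0 < e)
    (he' : e' ≤ e) (hw : Deg w d) (hZ : 2 * (Z.card + A.card) ≤ Fintype.card E) (hμ : Prob μ)
    (hE : 0 < sm 100 d * Fintype.card E) :
    ind (¬ Reg d C c e y TT r Z A w J μ) ≤
      (ind (¬ Typ d C c e' Z A w J) + ∑ t ∈ TT, ind (¬ G4 d Z A t.1 t.2.1 t.2.2 w J))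
        + e⁻¹ * c2 μ crd + e⁻¹ * (Ex μ fun σ => ind (¬ Tp d r (cp Z A ∅ J) w σ))
        + (sm 100 d * Fintype.card E)⁻¹ * Df Z A y w J μ := by
  have p1 := ind_nonneg (¬ Typ d C c e' Z A w J)
  have p2 : 0 ≤ ∑ t ∈ TT, ind (¬ G4 d Z A t.1 t.2.1 t.2.2 w J) :=
    sum_nonneg fun _ _ => ind_nonneg _
  have p3 : 0 ≤ e⁻¹ * c2 μ crd :=
    mul_nonneg (inv_nonneg.2 he.le) (avg_nonneg fun _ => avg_nonneg fun _ => sq_nonneg _)
  have p4 : 0 ≤ e⁻¹ * (Ex μ fun σ => ind (¬ Tp d r (cp Z A ∅ J) w σ)) :=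
    mul_nonneg (inv_nonneg.2 he.le) (Ex_nonneg hμ.1 fun _ => ind_nonneg _)
  have p5 : 0 ≤ (sm 100 d * Fintype.card E)⁻¹ * Df Z A y w J μ :=
    mul_nonneg (inv_nonneg.2 hE.le) (sum_nonneg fun _ _ => le_max_right _ _)
  by_cases h : Reg d C c e y TT r Z A w J μ
  · rw [ind_neg (not_not.2 h)]
    linarith
  rw [ind_pos h]
  by_contra hc
  rw [not_le] at hc
  refine h ⟨hw, hZ, typ_mono he' ?_, fun t ht => ?_, hμ, ?_, ?_, ?_⟩
  · by_contra h1
    rw [ind_pos h1] at hc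
    linarith
  · by_contra h1
    have h2 := single_le_sum (f := fun t : ℕ × ℝ × ℝ => ind (¬ G4 d Z A t.1 t.2.1 t.2.2 w J))
      (fun _ _ => ind_nonneg _) ht
    rw [ind_pos h1] at h2
    linarith
  · exact (inv_mul_le_one₀ he).1 (by linarith)
  · exact (inv_mul_le_one₀ he).1 (by linarith)
  · exact (inv_mul_le_one₀ hE).1 (by linarith)

end RegPJ

theorem stRegP (hPar : StPar) (hG4 : StG4) (hSig : StSig) (hTower : StTower) : StRegP := by
  intro C c hT
  filter_upwards [hPar, hSig, hT, eventually_ge_atTop 1000] with d hP hS hT hd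
  intro TT e hTT he
  obtain ⟨ε0, hε0, hS⟩ := hS
  have hd3 : 3 ≤ d := by omega
  have hδ := sm_pos 60 d
  have hc1 : (0 : ℝ) < TT.card + 1 := by positivity
  refine ⟨min ε0 (e * sm 60 d), lt_min hε0 (mul_pos he hδ), ?_⟩
  refine (((hP.and hS).and (hT (min e (sm 60 d)) (lt_min he hδ))).and
    (Big.all TT fun t ht => hG4 d t.1 t.2.1 t.2.2 (sm 60 d / (TT.card + 1)) hd3 (hTT t ht).1
      (hTT t ht).2 (div_pos hδ hc1))).mono ?_
  rintro V E _ _ _ _ w0 hw0 ⟨⟨⟨h1, h2⟩, h3⟩, h4⟩ P r c' cp' hE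
  obtain ⟨⟨hOk, -⟩, -, -, -, hTp, hc2, -⟩ := hE
  obtain ⟨-, hpar, hZ, -⟩ := h1 P hOk
  have hE0 : (0 : ℝ) < Fintype.card E := by exact_mod_cast Fintype.card_pos_iff.2 ⟨P.e⟩
  have hE1 : 0 < sm 100 d * Fintype.card E := mul_pos (sm_pos _ _) hE0
  have key : (P.EP w0 fun w J μ => ind (¬ Reg d C c e P.y TT r P.Z P.A w J μ)) ≤
      ED w0 fun w J => (ind (¬ Typ d C c (min e (sm 60 d)) P.Z P.A w J)
          + ∑ t ∈ TT, ind (¬ G4 d P.Z P.A t.1 t.2.1 t.2.2 w J))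
        + e⁻¹ * ((P.full w J).EN (rS P.T) fun n => c2 (P.mu w J n) crd)
        + e⁻¹ * ((P.full w J).P fun _ σ => ind (¬ Tp d r (P.s J) w σ))
        + (sm 100 d * Fintype.card E)⁻¹ *
          ((P.full w J).EN (rS P.T) fun n => Df P.Z P.A P.y w J (P.mu w J n)) := by
    refine ED_mono_deg hw0 fun w J hw => ?_
    have hp : (P.full w J).Par d := hpar _ _ _
    have hok := hp.ok hd3
    obtain ⟨t1, t2, -⟩ := hTower _ _ _ (P.full w J).cas (fun g => rS P.T g.1) hok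
    have t3 := (t2 fun _ σ => ind (¬ Tp d r (P.s J) w σ)).2
    unfold Sys.P Sys.EN
    rw [t3]
    unfold Cas.EN
    rw [← Cas.P_mul, ← Cas.P_mul, ← Cas.P_mul,
      ← Cas.P_const hok (ind (¬ Typ d C c (min e (sm 60 d)) P.Z P.A w J)
          + ∑ t ∈ TT, ind (¬ G4 d P.Z P.A t.1 t.2.1 t.2.2 w J)),
      ← Cas.P_add, ← Cas.P_add, ← Cas.P_add]
    exact Cas.P_mono_supp hok fun g _ hg =>
      RegPJ.point TT r J he (min_le_left _ _) hw hZ (t1 g hg) hE1
  refine key.trans ?_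
  rw [ED_add, ED_add, ED_add, ED_add, ED_mul, ED_mul, ED_mul, ED_sum]
  have b1 : (ED w0 fun w J => ind (¬ Typ d C c (min e (sm 60 d)) P.Z P.A w J)) ≤ sm 60 d :=
    (h3 P.Z P.A hZ).trans (min_le_right _ _)
  have b2 : (∑ t ∈ TT, ED w0 fun w J => ind (¬ G4 d P.Z P.A t.1 t.2.1 t.2.2 w J)) ≤ sm 60 d := by
    refine (sum_le_card_nsmul _ _ _ fun t ht => h4 t ht P.Z P.A).trans ?_
    rw [nsmul_eq_mul, ← mul_div_assoc, div_le_iff₀ hc1]
    nlinarith
  have b3 : e⁻¹ * (ED w0 fun w J => (P.full w J).EN (rS P.T) fun n => c2 (P.mu w J n) crd)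
      ≤ sm 60 d := (inv_mul_le_iff₀ he).2 (hc2.trans (min_le_right _ _))
  have b4 : e⁻¹ * (ED w0 fun w J => (P.full w J).P fun _ σ => ind (¬ Tp d r (P.s J) w σ))
      ≤ sm 60 d := (inv_mul_le_iff₀ he).2 (hTp.trans (min_le_right _ _))
  have b5 : (sm 100 d * Fintype.card E)⁻¹ * (ED w0 fun w J =>
      (P.full w J).EN (rS P.T) fun n => Df P.Z P.A P.y w J (P.mu w J n)) ≤ sm 60 d := by
    refine (inv_mul_le_iff₀ hE1).2 ((h2 P hOk (hc2.trans (min_le_left _ _))).trans ?_)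
    have e1 : sm 200 d = sm 100 d * sm 100 d := by rw [← sm_add]; norm_num
    have e2 := mul_le_mul_of_nonneg_left (sm_anti (k := 60) (k' := 100) (by norm_num) d) hE1.le
    rw [e1]
    linarith
  have b6 : 5 * sm (50 + 1) d ≤ sm 50 d := mul_sm_le 50 hd3 (by
    have : (1000 : ℝ) ≤ d := by exact_mod_cast hd
    linarith)
  have b7 := sm_anti (k := 50 + 1) (k' := 60) (by norm_num) d
  linarith

end Pool.Agent.MP_32a90a_pr.D

end

section

set_option autoImplicit false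

namespace Pool.Agent.MP_32a90a_pr.D

open Finset Equiv Filter Pool.Agent.MP_32a90a_pr Pool.Agent.MP_32a90a_pr.L

namespace RigDJ

variable {V E : Type} [Fintype V] [DecidableEq V] [Fintype E] [DecidableEq E]

lemma bound {d : ℕ} {P : Pk V E} (h : P.Ok d) :
    Real.exp (40 * P.β * d) *
        (qq d ^ 2 * sm (7 * (1 / qq d ^ 4) + 300) d * Real.exp (-(40 * (1 / qq d ^ 4) * d)))
      ≤ P.ρ * sm (7 * P.β + 300) d := by
  obtain ⟨-, -, -, -, -, -, hb, -, -, -, hr, -⟩ := h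
  have h1 : Real.exp (40 * P.β * d) * Real.exp (-(40 * (1 / qq d ^ 4) * d)) ≤ 1 := by
    rw [← Real.exp_add, Real.exp_le_one_iff]
    have := mul_le_mul_of_nonneg_right hb (Nat.cast_nonneg (α := ℝ) d)
    linarith
  have h2 : sm (7 * (1 / qq d ^ 4) + 300) d ≤ sm (7 * P.β + 300) d := sm_anti (by linarith) d
  have h3 := sm_pos (7 * (1 / qq d ^ 4) + 300) d
  rw [hr]
  calc _ = qq d ^ 2 * (sm (7 * (1 / qq d ^ 4) + 300) d *
        (Real.exp (40 * P.β * d) * Real.exp (-(40 * (1 / qq d ^ 4) * d)))) := by ring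
    _ ≤ _ := mul_le_mul_of_nonneg_left ((mul_le_of_le_one_right h3.le h1).trans h2) (sq_nonneg _)

lemma step (hRig : StRig) (hStab : StStab) {d : ℕ} {P : Pk V E} {w : E × Bool → V} {J : E → Bool}
    {c cp : ℝ} (h : P.Ok d) (hL : P.Lg d)
    (hG : ((P.full w J).P fun g σ => ind (¬ (P.full w J).Good c cp (qq d) g σ)) ≤
      qq d ^ 2 * sm (7 * (1 / qq d ^ 4) + 300) d * Real.exp (-(40 * (1 / qq d ^ 4) * d)))
    (W : Finset V) (s : E → ℝ) (D : (V → Bool) → (V → Bool) → ℝ)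
    (hN : (P.full w J).Near (P.sys W s w) D ∅ (dlq d)) (hD : ∀ g σ, |D g σ| ≤ 3 * d) :
    (P.sys W s w).Rig d c cp := by
  obtain ⟨l1, l2, -, l4, -, l6, l7, -⟩ := hL
  have h1 := ((hStab _ _ _ (P.full w J) d (P.sys W s w) D ∅ (dlq d) l1 (l2 _ _ _) hN
    (by simp) l6 hD).1 (fun g σ => ind (¬ (P.full w J).Good c cp (qq d) g σ))
    fun _ _ => ind_nonneg _).1
  exact hRig _ _ _ (P.sys W s w) d c cp (qq d) l1 (l2 _ _ _) (Real.exp_pos _) l7
    (h1.trans ((mul_le_mul_of_nonneg_left hG (Real.exp_pos _).le).trans (bound h))) l4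

end RigDJ

theorem stRigD (hRig : StRig) (hStab : StStab) (hNearCut : StNearCut) : StRigD := by
  intro d
  have hq : 0 < qq d := Real.exp_pos _
  refine ⟨qq d ^ 2 * sm (7 * (1 / qq d ^ 4) + 300) d * Real.exp (-(40 * (1 / qq d ^ 4) * d)),
    mul_pos (mul_pos (pow_pos hq 2) (sm_pos _ _)) (Real.exp_pos _), ?_⟩
  intro V E _ _ _ _ _ P w J c cp h hL hw hG
  have hd : (1000 : ℝ) ≤ d := by exact_mod_cast hL.1
  have h0 : 0 ≤ dlq d := by unfold dlq; positivity
  obtain ⟨n1, n2⟩ := hNearCut V E d P w J h hw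
  refine ⟨RigDJ.step hRig hStab h hL hG _ _ (fun _ _ => 0)
    ⟨rfl, rfl, rfl, rfl, rfl, fun g σ => ?_, fun _ _ => rfl⟩ (fun _ _ => ?_), fun i => ?_,
    fun v => ?_⟩
  · change |(P.full w J).H0 g σ - (P.full w J).H0 g σ - 0| ≤ _
    simpa using h0
  · rw [abs_zero]; linarith
  · refine RigDJ.step hRig hStab h hL hG _ _ _ (n1 i).2.1 fun _ σ => ?_
    rw [abs_neg]
    linarith [(n1 i).2.2 σ]
  · obtain ⟨D, b, -, hn⟩ := n2 v
    refine RigDJ.step hRig hStab h hL hG _ _ _ hn fun γ σ => ?_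
    rw [abs_neg]
    linarith [b γ σ]

end Pool.Agent.MP_32a90a_pr.D

end

section

set_option autoImplicit false

namespace Pool.Agent.MP_32a90a_pr.D

open Finset Equiv Filter Pool.Agent.MP_32a90a_pr Pool.Agent.MP_32a90a_pr.L

namespace ScanJ

lemma ens_mono {V E : Type} [Fintype V] [DecidableEq V] [Fintype E] [DecidableEq E] {P : Pk V E}
    {d : ℕ} {w0 : E × Bool → V} {r : Bool → ℤ → ℝ} {c cp ε ε' : ℝ} (h : P.Ens d w0 r c cp ε)
    (he : ε ≤ ε') : P.Ens d w0 r c cp ε' := by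
  obtain ⟨⟨a1, a2⟩, a3, a4, a5, a6, a7, a8⟩ := h
  exact ⟨⟨a1, a2.trans he⟩, a3, a4, a5, a6.trans he, a7.trans he, a8⟩

lemma y0_nonneg (d : ℕ) : 0 ≤ y0 d := Real.rpow_nonneg (Real.log_natCast_nonneg d) _

lemma yj_nonneg (d j : ℕ) : 0 ≤ yj d j := div_nonneg (y0_nonneg d) (by positivity)

lemma yj_le (d j : ℕ) : yj d j ≤ y0 d := div_le_self (y0_nonneg d) (one_le_pow₀ (by norm_num))

lemma yj_succ (d j : ℕ) : yj d j = 2 * yj d (j + 1) := by
  unfold yj
  rw [pow_succ]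
  field_simp

end ScanJ

open ScanJ

theorem stScan (hTop : StTop) (hL2 : StL2) (hDesc : StDesc) (hRb : StRb) (hWide : StWide)
    (hLow : StLow) : StScan := by
  intro C c h1 h2 hT
  obtain ⟨K, hK, hW⟩ := hWide
  filter_upwards [hTop C c h1 h2 hT, hL2 C c h1 h2 hT, hDesc, hRb C c h1, hW C c hT,
    hLow K C c hK] with d ⟨ε1, p1, b1⟩ ⟨ε2, p2, b2⟩ ⟨ε3, p3, b3⟩ rb wd lw
  have wj : ∀ j : ℕ, ∃ ε : ℝ, 0 < ε ∧ Big d fun V E _ _ _ _ w0 =>
      ∀ (P : Pk V E) (r : Bool → ℤ → ℝ) (c' cp : ℝ), P.Ens d w0 r c' cp ε → P.y = yj d j →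
        RF d C c r → ¬ P.Narrow d w0 →
        (∀ L : ℝ, 1 ≤ L → 10 * L ≤ d → rL d r L ≤ Real.exp (101 * Lam d) * L ^ 2 * ell d / d) →
        ∃ z : ℝ, z1 d ≤ z ∧ z ≤ 1 / 2 ∧ yj d j ^ 2 * d * z ≤ K * Lam d ∧
          3 / 4 * z ≤ rL d r (Lz K d z) := by
    intro j
    by_cases h : 1 / (d : ℝ) ≤ yj d j
    · exact wd _ h (yj_le d j)
    · exact ⟨1, one_pos, 0, fun V E _ _ _ _ w0 _ _ P r c' cp he hy =>
        absurd (hy ▸ he.2.2.2.1) h⟩
  choose εj pj bj using wj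
  obtain ⟨j0, -, hj0⟩ := exists_min_image (range (d + 1)) εj ⟨0, by simp⟩
  refine ⟨min (min ε1 ε2) (min ε3 (εj j0)), lt_min (lt_min p1 p2) (lt_min p3 (pj j0)),
    (((b1.and b2).and b3).and (Big.all (range (d + 1)) fun j _ => bj j)).mono ?_⟩
  rintro V E _ _ _ _ w0 - ⟨⟨⟨t1, t2⟩, t3⟩, t4⟩ Jm Ps r cs cps hJ hy hE hR
  have m1 : min (min ε1 ε2) (min ε3 (εj j0)) ≤ ε1 := (min_le_left _ _).trans (min_le_left _ _)
  have m2 : min (min ε1 ε2) (min ε3 (εj j0)) ≤ ε2 := (min_le_left _ _).trans (min_le_right _ _)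
  have m3 : min (min ε1 ε2) (min ε3 (εj j0)) ≤ ε3 := (min_le_right _ _).trans (min_le_left _ _)
  have m4 : min (min ε1 ε2) (min ε3 (εj j0)) ≤ εj j0 :=
    (min_le_right _ _).trans (min_le_right _ _)
  have ds := fun j (hj : j ≤ Jm) (hn : (Ps j).Narrow d w0) =>
    t3 (Ps j) r _ _ (ens_mono (hE j hj).1 m3)
      (t2 (Ps j) r _ _ (ens_mono (hE j hj).1 m2) ((hE j hj).2.trans_le (yj_le d j)) hR hn)
  have low := fun j (hj : j ≤ Jm) (hn : (Ps j).Narrow d w0) =>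
    lw r (yj d j) hR (yj_nonneg d j) (yj_le d j) fun b l hl => by
      have := (ds j hj hn b l hl).2
      rwa [(hE j hj).2] at this
  have key : ∀ j, j ≤ Jm → (Ps j).Narrow d w0 ∨ (d : ℝ) ^ (-(101 / 100 : ℝ)) ≤ r true 0 := by
    intro j
    induction j with
    | zero =>
      intro hj
      exact Or.inl (t1 (Ps 0) r _ _ (ens_mono (hE 0 hj).1 m1) (by rw [(hE 0 hj).2, yj]; simp) hR)
    | succ j ih =>
      intro hj
      have hj' : j ≤ Jm := by omega
      rcases ih hj' with hn | hn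
      · by_cases hn' : (Ps (j + 1)).Narrow d w0
        · exact Or.inl hn'
        have hm : j + 1 ∈ range (d + 1) := mem_range.2 (by omega)
        obtain ⟨z, z1, z2, z3, z4⟩ := t4 (j + 1) hm (Ps (j + 1)) r _ _
          (ens_mono (hE _ hj).1 (m4.trans (hj0 _ hm))) (hE _ hj).2 hR hn'
          (rb r hR fun b l hl => (ds j hj' hn b l hl).1)
        refine Or.inr (low j hj' hn (Or.inr ⟨z, z1, z2, ?_, z4⟩))
        rw [yj_succ]
        linarith
      · exact Or.inr hn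
  rcases key Jm le_rfl with hn | hn
  · exact low Jm le_rfl hn (Or.inl hy)
  · exact hn

end Pool.Agent.MP_32a90a_pr.D

end

section

set_option autoImplicit false

namespace Pool.Agent.MP_32a90a_pr.D

open Finset Equiv Filter Pool.Agent.MP_32a90a_pr Pool.Agent.MP_32a90a_pr.L

namespace SigJ

/-- deficit of one edge -/
noncomputable def df {Sg : Type} [Fintype Sg] (y : ℝ) (μ : Sg → ℝ) (φ ψ : Sg → Bool) (b : Bool) :
    ℝ := max (2 * y * kt μ φ * kt μ ψ - sgn b * cv μ φ ψ) 0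

lemma df_le {Sg : Type} [Fintype Sg] {y : ℝ} {μ : Sg → ℝ} (h : Prob μ) (h1 : y ≤ 1)
    (φ ψ : Sg → Bool) (b : Bool) : df y μ φ ψ b ≤ 3 := by
  refine max_le ?_ (by norm_num)
  have a1 : 2 * y * kt μ φ * kt μ ψ ≤ 2 * 1 * (1 / 2) * (1 / 2) := by
    have := h.kt_nonneg φ
    have := h.kt_nonneg ψ
    have := kt_le_half (μ := μ) φ
    have := kt_le_half (μ := μ) ψ
    gcongr
  have a2 : ∀ σ, |sgn (φ σ) * sgn (ψ σ)| ≤ 1 := fun σ => by rw [abs_mul, abs_sgn, abs_sgn, one_mul]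
  have a3 := h.Ex_le fun σ => (abs_le.1 (a2 σ)).2
  have a4 := h.le_Ex fun σ => (abs_le.1 (a2 σ)).1
  have a5 : |mm μ φ * mm μ ψ| ≤ 1 := by
    rw [abs_mul]
    exact mul_le_one₀ (h.abs_mm_le φ) (abs_nonneg _) (h.abs_mm_le ψ)
  have a6 := abs_le.1 a5
  rcases sgn_cases b with e | e <;> rw [e, cv] <;> linarith

lemma sqrt_le {t η : ℝ} (ht : 0 ≤ t) (hη : 0 < η) : Real.sqrt t ≤ η + t / η := by
  have h := Real.sq_sqrt ht
  have h0 := Real.sqrt_nonneg t
  generalize Real.sqrt t = s at h h0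
  rw [← h, ← sub_le_iff_le_add', le_div_iff₀ hη]
  nlinarith [sq_nonneg (s - η), mul_nonneg h0 hη.le]

lemma c2_nonneg {Sg ι : Type} [Fintype Sg] [Fintype ι] (μ : Sg → ℝ) (ph : ι → Sg → Bool) :
    0 ≤ c2 μ ph := avg_nonneg fun _ => avg_nonneg fun _ => sq_nonneg _

lemma prob (hTower : StTower) {Sg G0 A Nd : Type} [Fintype Sg] [Nonempty Sg] [Fintype G0]
    [Nonempty G0] [Fintype A] [DecidableEq A] {S : Sys Sg G0 A} {d : ℕ} (hp : S.Par d)
    (hd : 3 ≤ d) (nd : G0 → Nd) (g : Gam G0 A) : Prob (S.mu nd (nd g.1)) :=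
  (hTower Sg _ Nd S.cas (fun g => nd g.1) (hp.ok hd)).1 g
    (Sys.p_pos hp.2.2.2.2.1 (hp.rho_lt hd) g)

variable {V E : Type} [Fintype V] [DecidableEq V] [Fintype E] [DecidableEq E] {d : ℕ}
  {P : Pk V E}

/-- mean deficit of the slot i -/
noncomputable def Fi (P : Pk V E) (i : E) (w : E × Bool → V) (J : E → Bool) : ℝ :=
  (P.full w J).EN (rS P.T) fun n =>
    df P.y (P.mu w J n) (crd (w (i, false))) (crd (w (i, true))) (J i)

lemma Fi_bd (hTower : StTower) (hL : P.Lg d) (i : E) (w : E × Bool → V) (J : E → Bool) :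
    |Fi P i w J| ≤ 3 := by
  have hd : 3 ≤ d := by have := hL.1; omega
  have hp : (P.full w J).Par d := hL.2.1 _ _ _
  have ok := hp.ok hd
  have h0 : 0 ≤ Fi P i w J := Cas.P_nonneg ok fun _ _ => le_max_right _ _
  rw [abs_of_nonneg h0]
  exact Cas.P_le_const ok fun g _ => df_le (prob hTower hp hd (rS P.T) g)
    (hp.2.2.1.trans (by norm_num)) _ _ _

variable [Nonempty V]

lemma step (hJoinCut : StJoinCut) (hET2 : StET2) (hStab : StStab) (hO : P.Ok d) (hL : P.Lg d)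
    {w : E × Bool → V} (hw : Deg w d) (J : E → Bool) {i : E} (hi : i ∈ fair P.Z P.A)
    {a a' : cav P.U} (ha : a ≠ a') (b : Bool) :
    Fi P i (w ∘ ex i a a') (Function.update J i b) ≤ 3 * Real.exp (40 * P.β * d) *
      ((P.cut w J i).P fun g _ => |cv ((P.cut w J i).mu (rS P.T) (rS P.T g.1))
        ((P.cut w J i).sp a) ((P.cut w J i).sp a')|) + sm 250 d := by
  have hd : 3 ≤ d := by have := hL.1; omega
  have hd' : (3 : ℝ) ≤ d := by exact_mod_cast hd
  have hp : (P.cut w J i).Par d := hL.2.1 _ _ _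
  have hp' : (P.jn w J i a a' b).Par d := hL.2.1 _ _ _
  obtain ⟨hn, e1, e2⟩ := (hJoinCut V E d P w J i hO hL hw hi).2 a a' ha b
  have hI : ({a, a'} : Finset (cav P.U)).card ≤ 2 := card_le_two
  have a1 := ((hStab _ _ _ (P.cut w J i) d _ _ _ _ hL.1 hp hn (by omega) hL.2.2.2.2.2.1
    fun g σ => by
      rw [Sys.De, abs_mul, abs_mul, abs_sgn, abs_sgn, abs_sgn]
      linarith).1 (fun g _ => |cv ((P.cut w J i).mu (rS P.T) (rS P.T g.1))
        ((P.cut w J i).sp a) ((P.cut w J i).sp a')|) fun _ _ => abs_nonneg _).1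
  have a2 : Fi P i (w ∘ ex i a a') (Function.update J i b) ≤ (P.jn w J i a a' b).P fun g _ =>
      3 * |cv ((P.cut w J i).mu (rS P.T) (rS P.T g.1)) ((P.cut w J i).sp a)
        ((P.cut w J i).sp a')| + sm 250 d := by
    rw [Fi, e1, e2, Function.update_self]
    refine Cas.P_mono (hp'.ok hd) fun g _ => max_le ?_ (by have := sm_pos 250 d; positivity)
    have a3 := hET2 _ _ _ (P.cut w J i) d _ a a' b _ _ _ (rS P.T) g.1 hL.1 hp hn hI
      hL.2.2.2.2.1
    exact sub_le_iff_le_add'.2 (sub_le_iff_le_add.1 ((sub_sub _ _ _).symm.trans_le a3))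
  rw [Sys.P, Cas.P_add, Cas.P_mul, Cas.P_const (hp'.ok hd)] at a2
  have e : (P.cut w J i).β = P.β := rfl
  rw [e] at a1
  linarith

lemma pool (hStab : StStab) (hStabV : StStabV) (hOver : StOver) (hNearCut : StNearCut)
    (hTower : StTower) (hO : P.Ok d) (hL : P.Lg d) {w : E × Bool → V} (hw : Deg w d)
    (J : E → Bool) (i : E) {η : ℝ} (hη : 0 < η) :
    ((P.cut w J i).P fun g _ => avg fun a => avg fun a' =>
      |cv ((P.cut w J i).mu (rS P.T) (rS P.T g.1)) ((P.cut w J i).sp a) ((P.cut w J i).sp a')|)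
      ≤ η + (d / qq d ^ 16) ^ 2 * Real.exp (40 * P.β * d) ^ 3 / η *
        (P.full w J).EN (rS P.T) fun n => c2 (P.mu w J n) crd := by
  have hd : 3 ≤ d := by have := hL.1; omega
  have hd' : (3 : ℝ) ≤ d := by exact_mod_cast hd
  have hp : (P.cut w J i).Par d := hL.2.1 _ _ _
  have hp' : (P.full w J).Par d := hL.2.1 _ _ _
  have := hp.nonempty
  obtain ⟨hn, -, hs⟩ := (hNearCut V E d P w J hO hw).1 i
  obtain ⟨a1, a2, -⟩ := hStab _ _ _ (P.cut w J i) d _ _ _ _ hL.1 hp hn (by simp) hL.2.2.2.2.2.1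
    fun g σ => (hs σ).trans (by linarith)
  have e : (P.cut w J i).β = P.β := rfl
  rw [e] at a1 a2
  have hK := Real.exp_pos (40 * P.β * d)
  generalize Real.exp (40 * P.β * d) = K at a1 a2 hK ⊢
  have hR : (d : ℝ) * Fintype.card V / Fintype.card (cav P.U) ≤ d / qq d ^ 16 :=
    (div_le_iff₀ (by exact_mod_cast Fintype.card_pos)).2 hL.2.2.2.2.2.2.2.2.1
  generalize (d : ℝ) / qq d ^ 16 = R at hR ⊢
  have a3 : ((P.cut w J i).P fun g _ => avg fun a => avg fun a' =>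
      |cv ((P.cut w J i).mu (rS P.T) (rS P.T g.1)) ((P.cut w J i).sp a) ((P.cut w J i).sp a')|)
      ≤ (P.cut w J i).P fun g _ => η + R ^ 2 * K ^ 2 / η * c2 (P.mu w J (rS P.T g.1)) crd := by
    refine Cas.P_mono (hp.ok hd) fun g _ => ?_
    have p1 := prob hTower hp hd (rS P.T) g
    have p2 := prob hTower hp' hd (rS P.T) g
    have b1 := (hOver _ _ _ (P.cut w J i).sp p1).2.2.2.1
    have b2 := (hOver _ _ _ crd p1).2.2.2.2 (cav P.U) (fun a => w a) d fun u => by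
      rw [← hw u]
      exact card_le_card_of_injOn (fun a => a.1)
        (fun a ha => mem_coe.2 (mem_filter.2 ⟨mem_univ _, (mem_filter.1 ha).2⟩))
        Subtype.val_injective.injOn
    have b3 := (hStabV _ _ _ _ crd K p2 p1 fun σ => (a2 _ (rS P.T) _ σ).2).1
    have b4 : c2 ((P.cut w J i).mu (rS P.T) (rS P.T g.1)) (P.cut w J i).sp
        ≤ R ^ 2 * (K ^ 2 * c2 (P.mu w J (rS P.T g.1)) crd) :=
      b2.trans (mul_le_mul (pow_le_pow_left₀ (by positivity) hR 2) b3 (c2_nonneg _ _)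
        (sq_nonneg _))
    refine (b1.trans (sqrt_le (c2_nonneg _ _) hη)).trans (add_le_add le_rfl ?_)
    rw [div_mul_eq_mul_div, mul_assoc]
    exact div_le_div_of_nonneg_right b4 hη.le
  have a4 := mul_le_mul_of_nonneg_left (a1 (fun g _ => c2 (P.mu w J (rS P.T g.1)) crd)
    fun _ _ => c2_nonneg _ _).2 (show 0 ≤ R ^ 2 * K ^ 2 / η by positivity)
  rw [Sys.P, Sys.P, Cas.P_add, Cas.P_mul, Cas.P_const (hp.ok hd)] at a3
  refine a3.trans (add_le_add le_rfl (a4.trans_eq ?_))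
  rw [← mul_assoc]
  congr 1
  ring

lemma slot (hEX : StEX) (hJoinCut : StJoinCut) (hET2 : StET2) (hStab : StStab)
    (hStabV : StStabV) (hOver : StOver) (hNearCut : StNearCut) (hTower : StTower) (hO : P.Ok d)
    (hL : P.Lg d) {w0 : E × Bool → V} (hw : Deg w0 d) {i : E} (hi : i ∈ fair P.Z P.A) {η : ℝ}
    (hη : 0 < η) : ED w0 (Fi P i) ≤ 3 * Real.exp (40 * P.β * d) * (η + (d / qq d ^ 16) ^ 2 *
      Real.exp (40 * P.β * d) ^ 3 / η * P.EP w0 fun _ _ μ => c2 μ crd) + 4 * sm 250 d := by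
  have hd : 3 ≤ d := by have := hL.1; omega
  have hp : ∀ w J, (P.cut w J i).Par d := fun _ _ => hL.2.1 _ _ _
  have hne := (hp w0 fun _ => true).nonempty
  have s0 := sm_pos 250 d
  have hU : P.U.Nonempty := by
    obtain ⟨a, ha⟩ := hne
    exact ⟨a.1, (mem_product.1 ha).1⟩
  have a1 := (abs_le.1 (hEX V E w0 P.U i (Fi P i) 3 hU (Fi_bd hTower hL i))).2
  have a2 : (3 : ℝ) / Fintype.card (cav P.U) ≤ 3 * sm 250 d := by
    have b1 : 1 ≤ sm 300 d * Fintype.card (cav P.U) := (hp w0 fun _ => true).2.2.2.2.2.2.2.2.2.2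
    have b2 := mul_le_mul_of_nonneg_right (sm_anti (k := 250) (k' := 300) (by norm_num) d)
      (Nat.cast_nonneg (Fintype.card (cav P.U)))
    rw [div_le_iff₀ (by exact_mod_cast Fintype.card_pos)]
    linarith
  have a3 : (ED w0 fun w J => avg fun a : cav P.U => avg fun a' : cav P.U => avg fun b : Bool =>
      ind (a ≠ a') * Fi P i (w ∘ ex i a a') (Function.update J i b)) ≤ ED w0 fun w J =>
      3 * Real.exp (40 * P.β * d) * (η + (d / qq d ^ 16) ^ 2 * Real.exp (40 * P.β * d) ^ 3 / η *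
        (P.full w J).EN (rS P.T) fun n => c2 (P.mu w J n) crd) + sm 250 d := by
    refine ED_mono_deg hw fun w J hw' => ?_
    have b1 := mul_le_mul_of_nonneg_left
      (pool hStab hStabV hOver hNearCut hTower hO hL hw' J i hη)
      (show 0 ≤ 3 * Real.exp (40 * P.β * d) by positivity)
    refine le_trans ?_ (add_le_add b1 le_rfl)
    rw [Sys.P, Cas.P_avg, ← avg_mul, ← avg_const (α := cav P.U) (sm 250 d), ← avg_add]
    refine avg_mono fun a => ?_
    rw [Cas.P_avg, ← avg_mul, ← avg_const (α := cav P.U) (sm 250 d), ← avg_add]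
    refine avg_mono fun a' => ?_
    have b2 := Cas.P_nonneg ((hp w J).ok hd) fun g (_ : V → Bool) => abs_nonneg
      (cv ((P.cut w J i).mu (rS P.T) (rS P.T g.1)) ((P.cut w J i).sp a) ((P.cut w J i).sp a'))
    refine avg_le_const (by positivity) fun b => ?_
    by_cases ha : a ≠ a'
    · rw [ind_pos ha, one_mul]
      exact step hJoinCut hET2 hStab hO hL hw' J hi ha b
    · rw [ind_neg ha, zero_mul]
      positivity
  rw [ED_add, ED_mul, ED_add, ED_mul, ED_const, ED_const] at a3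
  have e : (P.EP w0 fun _ _ μ => c2 μ crd)
      = ED w0 fun w J => (P.full w J).EN (rS P.T) fun n => c2 (P.mu w J n) crd := rfl
  rw [e]
  linarith

end SigJ

open SigJ in
theorem stSig (hPar : StPar) (hEX : StEX) (hJoinCut : StJoinCut) (hET2 : StET2) (hStab : StStab)
    (hStabV : StStabV) (hOver : StOver) (hNearCut : StNearCut) (hTower : StTower) : StSig := by
  filter_upwards [hPar, eventually_ge_atTop 1000] with d hB hd
  have hd3 : 3 ≤ d := by omega
  have hd' : (1000 : ℝ) ≤ d := by exact_mod_cast hd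
  have s0 := sm_pos 250 d
  have q0 : 0 < qq d := Real.exp_pos _
  obtain ⟨K, hK⟩ : ∃ K, K = Real.exp (40 * (1 / qq d ^ 4) * d) := ⟨_, rfl⟩
  have K0 : 0 < K := hK ▸ Real.exp_pos _
  obtain ⟨R, hR⟩ : ∃ R, R = (d / qq d ^ 16) ^ 2 := ⟨_, rfl⟩
  have R0 : 0 < R := by rw [hR]; positivity
  refine ⟨(sm 250 d / (3 * K)) ^ 2 / (R * K ^ 3), by positivity, hB.mono ?_⟩
  intro V E _ _ _ _ w0 hw hLg P hO hε
  have hL := hLg P hO
  have : Nonempty V := by
    by_contra hn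
    have h1 := hL.2.2.2.2.2.2.2.2.2.2
    rw [Fintype.card_eq_zero_iff.2 (not_nonempty_iff.1 hn)] at h1
    norm_num at h1
  have e : (P.EP w0 fun w J μ => Df P.Z P.A P.y w J μ) = ∑ i ∈ fair P.Z P.A, ED w0 (Fi P i) := by
    rw [← ED_sum]
    exact congrArg (ED w0) (funext fun w => funext fun J => Cas.P_sum _ _)
  have h0 : 0 ≤ P.EP w0 fun _ _ μ => c2 μ crd := ED_nonneg fun w J =>
    Cas.P_nonneg ((show (P.full w J).Par d from hL.2.1 _ _ _).ok hd3) fun _ _ => c2_nonneg _ _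
  have hk : Real.exp (40 * P.β * d) ≤ K := by
    have := hO.2.2.2.2.2.2.1
    rw [hK]
    gcongr
  have h1 : ∀ i ∈ fair P.Z P.A, ED w0 (Fi P i) ≤ sm 200 d := fun i hi => by
    have hη : 0 < sm 250 d / (3 * K) := by positivity
    have a1 := slot hEX hJoinCut hET2 hStab hStabV hOver hNearCut hTower hO hL hw hi hη
    rw [← hR] at a1
    have a2 : 3 * Real.exp (40 * P.β * d) * (sm 250 d / (3 * K) + R * Real.exp (40 * P.β * d) ^ 3
        / (sm 250 d / (3 * K)) * P.EP w0 fun _ _ μ => c2 μ crd) ≤ 3 * K * (sm 250 d / (3 * K)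
        + R * K ^ 3 / (sm 250 d / (3 * K)) * ((sm 250 d / (3 * K)) ^ 2 / (R * K ^ 3))) := by
      gcongr
    have a3 : 3 * K * (sm 250 d / (3 * K) + R * K ^ 3 / (sm 250 d / (3 * K)) *
        ((sm 250 d / (3 * K)) ^ 2 / (R * K ^ 3))) = 2 * sm 250 d := by
      field_simp
      ring
    have a4 := mul_sm_le (a := 6) 200 hd3 (by linarith)
    have a5 := sm_anti (k := 200 + 1) (k' := 250) (by norm_num) d
    linarith
  rw [e]
  refine (sum_le_card_nsmul _ _ _ h1).trans ?_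
  rw [nsmul_eq_mul, mul_comm]
  exact mul_le_mul_of_nonneg_left (by exact_mod_cast card_le_univ _) (sm_pos _ _).le

end Pool.Agent.MP_32a90a_pr.D

end

section

set_option autoImplicit false

namespace Pool.Agent.MP_32a90a_pr.D

open Finset Equiv Filter Pool.Agent.MP_32a90a_pr Pool.Agent.MP_32a90a_pr.L

namespace SmallJ

lemma num {d : ℕ} (hd : 10 ≤ d) :
    2 * (2 * d + 1) * qq d ^ 2 + 1 / (d : ℝ) ^ 10 ≤ z1 d / 16 := by
  have h1 : (10 : ℝ) ≤ d := by exact_mod_cast hd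
  have h0 : (0 : ℝ) < d := by linarith
  have h2 : 1 / (d : ℝ) ≤ z1 d := by
    unfold z1
    exact div_le_div_of_nonneg_right
      (Real.one_le_rpow (one_le_log (by omega)) (by norm_num)) h0.le
  have h3 : qq d ^ 2 ≤ 48 / (d : ℝ) ^ 6 := by
    have e : qq d ^ 2 = (Real.exp ((d : ℝ) ^ 2 / 2))⁻¹ := by
      unfold qq
      rw [← Real.exp_nat_mul, ← Real.exp_neg]
      congr 1
      push_cast
      ring
    have h4 := Real.pow_div_factorial_le_exp ((d : ℝ) ^ 2 / 2) (by positivity) 3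
    have h5 : ((d : ℝ) ^ 2 / 2) ^ 3 / (Nat.factorial 3 : ℕ) = (48 / (d : ℝ) ^ 6)⁻¹ := by
      simp only [Nat.factorial]
      push_cast
      field_simp
      norm_num
    rw [h5] at h4
    rw [e]
    exact inv_le_of_inv_le₀ (by positivity) h4
  have h4 : (10 : ℝ) ^ 4 ≤ (d : ℝ) ^ 4 := pow_le_pow_left₀ (by norm_num) h1 4
  have h5 : (10 : ℝ) ^ 9 ≤ (d : ℝ) ^ 9 := pow_le_pow_left₀ (by norm_num) h1 9
  have h6 : 2 * (2 * d + 1) * (48 / (d : ℝ) ^ 6) ≤ 1 / (d : ℝ) / 32 := by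
    rw [← mul_div_assoc, div_div, div_le_div_iff₀ (by positivity) (by positivity)]
    have : (d : ℝ) ^ 6 = d ^ 4 * (d * d) := by ring
    nlinarith [mul_le_mul_of_nonneg_right h4 (mul_pos h0 h0).le]
  have h7 : 1 / (d : ℝ) ^ 10 ≤ 1 / (d : ℝ) / 32 := by
    rw [div_div]
    refine one_div_le_one_div_of_le (by positivity) ?_
    have : (d : ℝ) ^ 10 = d ^ 9 * d := by ring
    nlinarith [mul_le_mul_of_nonneg_right h5 h0.le]
  have h8 := mul_le_mul_of_nonneg_left h3 (show (0 : ℝ) ≤ 2 * (2 * d + 1) by positivity)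
  linarith

lemma pair_le {Sg : Type} [Fintype Sg] {μ : Sg → ℝ} (h : Prob μ) (φ : Sg → Bool) (S : Sg → Prop) :
    (E2 μ μ fun σ σ' => ind (φ σ ≠ φ σ' ∧ S σ ∧ S σ')) ≤ kt μ φ ∧
    (E2 μ μ fun σ σ' => ind (φ σ ≠ φ σ' ∧ S σ ∧ S σ')) ≤ Ex μ (fun σ => ind (S σ)) ∧
    (E2 μ μ fun σ σ' => ind (φ σ ≠ φ σ' ∧ S σ ∧ S σ'))
      ≤ 2 * kt μ φ * Ex μ fun σ => ind (S σ) := by
  refine ⟨?_, Ex_mono h.1 fun σ => h.Ex_le fun σ' => ind_mono fun h0 => h0.2.1, ?_⟩
  · rw [← h.E2_ne]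
    exact Ex_mono h.1 fun σ => Ex_mono h.1 fun σ' => ind_mono fun h0 => h0.1
  obtain ⟨b, hb⟩ : ∃ b, (Ex μ fun σ => ind (φ σ = b)) = mn μ φ := by
    rcases le_total 0 (mm μ φ) with h0 | h0
    · exact ⟨false, by rw [h.Ex_ind_bool, mn, abs_of_nonneg h0]; simp [sgn]; ring⟩
    · exact ⟨true, by rw [h.Ex_ind_bool, mn, abs_of_nonpos h0]; simp [sgn]⟩
  have h1 : (E2 μ μ fun σ σ' => ind (φ σ ≠ φ σ' ∧ S σ ∧ S σ')) ≤
      E2 μ μ fun σ σ' => ind (φ σ = b) * ind (S σ') + ind (S σ) * ind (φ σ' = b) := by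
    refine Ex_mono h.1 fun σ => Ex_mono h.1 fun σ' => ?_
    beta_reduce
    rw [← ind_and, ← ind_and]
    refine (ind_mono fun h0 => ?_).trans (ind_or_le _ _)
    by_cases h2 : φ σ = b
    · exact Or.inl ⟨h2, h0.2.2⟩
    · refine Or.inr ⟨h0.2.1, ?_⟩
      have h3 := h0.1
      revert h2 h3
      cases φ σ <;> cases φ σ' <;> cases b <;> simp
  simp only [E2, Ex_add, Ex_mul, Ex_mul_right, hb] at h1
  have h2 : 0 ≤ Ex μ fun σ => ind (S σ) := Ex_nonneg h.1 fun _ => ind_nonneg _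
  have h3 := mul_le_mul_of_nonneg_right (h.mn_le_kt φ) h2
  unfold E2
  linarith

variable {V E : Type} [Fintype V] [DecidableEq V] [Nonempty V] [Fintype E] [DecidableEq E]

lemma rL_nonneg {d : ℕ} {r : Bool → ℤ → ℝ} (hr : ∀ b l, 0 ≤ r b l) (L : ℝ) : 0 ≤ rL d r L :=
  add_nonneg (sum_nonneg fun _ _ => mul_nonneg (ind_nonneg _) (hr _ _))
    (sum_nonneg fun _ _ => mul_nonneg (ind_nonneg _) (hr _ _))

omit [Nonempty V] [DecidableEq E] in
lemma level {d : ℕ} {r : Bool → ℤ → ℝ} {s : E → ℝ} {w : E × Bool → V} {σ : V → Bool}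
    (hT : Tp d r s w σ) (b : Bool) (L : ℝ) :
    (avg fun v => ∑ l ∈ Icc (-(d : ℤ)) d, ind ((l : ℝ) ≤ L) * ind (σ v = b ∧ loc s w σ v = l))
      ≤ rB d r b L + (2 * d + 1) * qq d ^ 2 := by
  classical
  have h1 : ∑ _l ∈ Icc (-(d : ℤ)) d, qq d ^ 2 = (2 * d + 1) * qq d ^ 2 := by
    rw [sum_const, nsmul_eq_mul, Int.card_Icc]
    congr 1
    rw [show (d : ℤ) + 1 - -(d : ℤ) = ((2 * d + 1 : ℕ) : ℤ) by push_cast; ring, Int.toNat_natCast]
    push_cast
    rfl
  rw [avg_sum, rB, ← h1, ← sum_add_distrib]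
  refine sum_le_sum fun l hl => ?_
  have h2 := (abs_le.1 (hT.2 b l (abs_le.2 (mem_Icc.1 hl)))).2
  have h3 : (avg fun v => ind (σ v = b ∧ loc s w σ v = l)) = cnt s w σ b l / Fintype.card V := by
    unfold avg cnt
    rw [sum_ind]
  rw [avg_mul, h3]
  rcases ind_cases ((l : ℝ) ≤ L) with h0 | h0 <;> rw [h0]
  · simp only [zero_mul, zero_add]
    positivity
  · linarith

omit [Nonempty V] in
lemma soft (hPAR : StPAR) {d : ℕ} {r : Bool → ℤ → ℝ} {Z A : Finset E} {w : E × Bool → V}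
    {J : E → Bool} (hw : Deg w d) (hr : ∀ b l, 0 ≤ r b l) (L : ℝ) (σ : V → Bool) :
    (avg fun v => ind (loc (cp Z A ∅ J) w σ v ≤ L)) ≤
      rL d r L + 2 * (2 * d + 1) * qq d ^ 2 + ind (¬ Tp d r (cp Z A ∅ J) w σ) := by
  by_cases hT : Tp d r (cp Z A ∅ J) w σ
  swap
  · rw [ind_pos hT]
    have h1 := rL_nonneg (d := d) hr L
    have h2 : (0 : ℝ) ≤ 2 * (2 * d + 1) * qq d ^ 2 := by positivity
    have h3 : (avg fun v => ind (loc (cp Z A ∅ J) w σ v ≤ L)) ≤ 1 :=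
      avg_le_const zero_le_one fun _ => ind_le_one _
    linarith
  have hs : ∀ i, cp Z A ∅ J i = 0 ∨ cp Z A ∅ J i = 1 ∨ cp Z A ∅ J i = -1 := by
    intro i
    unfold cp
    split_ifs
    · exact Or.inl rfl
    · exact Or.inr (Or.inr rfl)
    · exact Or.inr (Or.inl rfl)
    · exact Or.inr (sgn_cases _)
  have h1 := (hPAR V E w d _ σ hw hs).1
  have h2 := level hT true L
  have h3 := level hT false L
  have h4 : ∀ (v : V) (b : Bool), (0 : ℝ) ≤ ∑ l ∈ Icc (-(d : ℤ)) d,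
      ind ((l : ℝ) ≤ L) * ind (σ v = b ∧ loc (cp Z A ∅ J) w σ v = l) := fun v b =>
    sum_nonneg fun _ _ => mul_nonneg (ind_nonneg _) (ind_nonneg _)
  have h5 : ∀ v b, σ v = b → ind (loc (cp Z A ∅ J) w σ v ≤ L) ≤ ∑ l ∈ Icc (-(d : ℤ)) d,
      ind ((l : ℝ) ≤ L) * ind (σ v = b ∧ loc (cp Z A ∅ J) w σ v = l) := by
    intro v b hb
    obtain ⟨l, hl, hl'⟩ := h1 v
    refine le_trans ?_ (single_le_sum (f := fun l : ℤ =>
      ind ((l : ℝ) ≤ L) * ind (σ v = b ∧ loc (cp Z A ∅ J) w σ v = l))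
      (fun _ _ => mul_nonneg (ind_nonneg _) (ind_nonneg _)) (mem_Icc.2 (abs_le.1 hl')))
    rw [← ind_and]
    exact ind_mono fun h0 => ⟨hl ▸ h0, hb, hl⟩
  have h6 := avg_mono (g := fun v =>
      (∑ l ∈ Icc (-(d : ℤ)) d, ind ((l : ℝ) ≤ L) * ind (σ v = true ∧ loc (cp Z A ∅ J) w σ v = l))
      + ∑ l ∈ Icc (-(d : ℤ)) d, ind ((l : ℝ) ≤ L) * ind (σ v = false ∧ loc (cp Z A ∅ J) w σ v = l))
    (f := fun v => ind (loc (cp Z A ∅ J) w σ v ≤ L)) fun v => by
      have a1 := h4 v true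
      have a2 := h4 v false
      rcases Bool.eq_false_or_eq_true (σ v) with h0 | h0 <;> linarith [h5 v _ h0]
  rw [avg_add] at h6
  rw [ind_neg (not_not.2 hT), rL]
  linarith

end SmallJ

open SmallJ in
theorem stSmall (hPAR : StPAR) : StSmall := by
  filter_upwards [eventually_ge_atTop 10] with d hd
  intro V E _ _ _ _ _ C c e y L TT r Z A w J μ hR he hr hz hs
  obtain ⟨hw, -, -, -, hμ, -, hT, -⟩ := hR
  have hN : (0 : ℝ) < Fintype.card V := by exact_mod_cast Fintype.card_pos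
  have hz1 : 0 < z1 d := by
    have h0 : (0 : ℝ) < d := by exact_mod_cast (show 0 < d by omega)
    exact div_pos (Real.rpow_pos_of_pos (one_pos.trans_le (one_le_log (by omega))) _) h0
  have h1 : (avg fun v => Ex μ fun σ => ind (loc (cp Z A ∅ J) w σ v ≤ L)) ≤
      rL d r L + zz μ crd / 8 := by
    rw [← Ex_avg]
    refine (Ex_mono hμ.1 (soft hPAR hw hr L)).trans ?_
    rw [Ex_add, hμ.Ex_const]
    linarith [num hd]
  have hp := fun v => pair_le hμ (crd v) fun σ => loc (cp Z A ∅ J) w σ v ≤ L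
  have h2 : 3 / 4 * zz μ crd ≤ rL d r L := by
    have := hs.trans ((avg_mono fun v => (hp v).2.1).trans h1)
    linarith
  refine ⟨h2, fun Rb hRb => ?_⟩
  have hz0 : 0 < zz μ crd := by linarith
  have hR0 : 0 < Rb := by linarith
  have ht : 0 < zz μ crd / (64 * Rb) := by positivity
  have h3 := avg_mono (f := fun v => E2 μ μ fun σ σ' => ind (σ v ≠ σ' v ∧
      loc (cp Z A ∅ J) w σ v ≤ L ∧ loc (cp Z A ∅ J) w σ' v ≤ L))
    (g := fun v => (if zz μ crd / (64 * Rb) ≤ kt μ (crd v) then kt μ (crd v) else 0) +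
      2 * (zz μ crd / (64 * Rb)) * Ex μ fun σ => ind (loc (cp Z A ∅ J) w σ v ≤ L)) fun v => by
      have a0 : 0 ≤ Ex μ fun σ => ind (loc (cp Z A ∅ J) w σ v ≤ L) :=
        Ex_nonneg hμ.1 fun _ => ind_nonneg _
      split_ifs with h0
      · exact (hp v).1.trans (le_add_of_nonneg_right (by positivity))
      · rw [zero_add]
        refine (hp v).2.2.trans (mul_le_mul_of_nonneg_right ?_ a0)
        linarith [not_le.1 h0]
  rw [avg_add, avg_mul] at h3
  have h4 : 2 * (zz μ crd / (64 * Rb)) *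
      (avg fun v => Ex μ fun σ => ind (loc (cp Z A ∅ J) w σ v ≤ L)) ≤ zz μ crd / 16 := by
    refine (mul_le_mul_of_nonneg_left (show _ ≤ 2 * Rb by linarith) (by positivity)).trans_eq ?_
    field_simp
    norm_num
  have h5 : 3 / 4 * zz μ crd ≤
      avg fun v => if zz μ crd / (64 * Rb) ≤ kt μ (crd v) then kt μ (crd v) else 0 := by
    linarith
  rw [sum_filter]
  exact (le_div_iff₀ hN).1 h5

end Pool.Agent.MP_32a90a_pr.D

end

section

set_option autoImplicit false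

namespace Pool.Agent.MP_32a90a_pr.D

open Finset Equiv Filter Pool.Agent.MP_32a90a_pr Pool.Agent.MP_32a90a_pr.L

namespace WidJ

lemma c2_nonneg {Sg ι : Type} [Fintype Sg] [Fintype ι] (μ : Sg → ℝ) (ph : ι → Sg → Bool) :
    0 ≤ c2 μ ph := avg_nonneg fun _ => avg_nonneg fun _ => sq_nonneg _

lemma sqrt_le {K c s : ℝ} (hK : 0 ≤ K) (hs : 0 ≤ s) (h : K ^ 2 * c ≤ s ^ 4) :
    Real.sqrt (K * Real.sqrt c) ≤ s := by
  refine Real.sqrt_le_iff.2 ⟨hs, ?_⟩
  rw [← Real.sqrt_sq hK, ← Real.sqrt_mul (sq_nonneg K)]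
  exact Real.sqrt_le_iff.2 ⟨sq_nonneg s, by linarith⟩

lemma one (hStabV : StStabV) (hOver : StOver) {Sg V A : Type} [Fintype Sg] [Fintype V]
    [DecidableEq V] [Nonempty V] [Fintype A] [Nonempty A] (μ μ' : Sg → ℝ) (ph : V → Sg → Bool)
    (pA : A → V) (d : ℕ) {K R s e : ℝ} (hK : 1 ≤ K) (hR : 1 ≤ R) (hs : 0 < s)
    (he : K ^ 2 * R ^ 2 * e ≤ s) (he' : K ^ 2 * R ^ 2 * e ≤ s ^ 4) (h : Prob μ) (h' : Prob μ')
    (hle : ∀ σ, μ' σ ≤ K * μ σ) (hf : ∀ u, (univ.filter fun a => pA a = u).card ≤ d)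
    (hd : (d : ℝ) * Fintype.card V / Fintype.card A ≤ R) (hc : c2 μ ph ≤ e) :
    |zz μ ph - zz μ' ph| ≤ s ∧ |zz μ (fun a => ph (pA a)) - zz μ' fun a => ph (pA a)| ≤ s ∧
      c2 μ ph ≤ s ∧ c2 μ' ph ≤ s ∧ c2 μ (fun a => ph (pA a)) ≤ s ∧
      c2 μ' (fun a => ph (pA a)) ≤ s := by
  obtain ⟨a1, -, a2⟩ := hStabV Sg V μ μ' ph K h h' hle
  obtain ⟨b1, -, b2⟩ := hStabV Sg A μ μ' (fun a => ph (pA a)) K h h' hle
  have c0 := c2_nonneg μ ph
  have c0' := c2_nonneg μ fun a => ph (pA a)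
  have e0 : 0 ≤ e := c0.trans hc
  have c1 : c2 μ (fun a => ph (pA a)) ≤ R ^ 2 * e :=
    ((hOver Sg V μ ph h).2.2.2.2 A pA d hf).trans (by gcongr)
  have k1 : 1 ≤ K ^ 2 := one_le_pow₀ hK
  have r1 : e ≤ R ^ 2 * e := le_mul_of_one_le_left e0 (one_le_pow₀ hR)
  have d1 : K ^ 2 * c2 μ (fun a => ph (pA a)) ≤ K ^ 2 * R ^ 2 * e := by
    rw [mul_assoc]; gcongr
  have d2 : K ^ 2 * c2 μ ph ≤ K ^ 2 * R ^ 2 * e := by
    rw [mul_assoc]; exact mul_le_mul_of_nonneg_left (hc.trans r1) (sq_nonneg K)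
  exact ⟨a2.trans (sqrt_le (by linarith) hs.le (d2.trans he')),
    b2.trans (sqrt_le (by linarith) hs.le (d1.trans he')),
    (le_mul_of_one_le_left c0 k1).trans (d2.trans he), a1.trans (d2.trans he),
    (le_mul_of_one_le_left c0' k1).trans (d1.trans he), b1.trans (d1.trans he)⟩

end WidJ

theorem stWid (hStab : StStab) (hStabV : StStabV) (hOver : StOver) (hTower : StTower) :
    StWid := by
  intro d s hs
  have hq : 0 < qq d := Real.exp_pos _
  obtain ⟨K, hKe⟩ : ∃ K, K = Real.exp (40 * (1 / qq d ^ 4) * d) := ⟨_, rfl⟩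
  obtain ⟨R, hRe⟩ : ∃ R, R = 1 + d / qq d ^ 16 := ⟨_, rfl⟩
  have hK : 1 ≤ K := hKe ▸ Real.one_le_exp (by positivity)
  have hR : 1 ≤ R := by rw [hRe]; exact le_add_of_nonneg_right (by positivity)
  have hKR : 0 < K ^ 2 * R ^ 2 := by positivity
  have he : K ^ 2 * R ^ 2 * (min s (s ^ 4) / (K ^ 2 * R ^ 2)) = min s (s ^ 4) :=
    mul_div_cancel₀ _ hKR.ne'
  refine ⟨min s (s ^ 4) / (K ^ 2 * R ^ 2), div_pos (lt_min hs (by positivity)) hKR, ?_⟩
  intro V E _ _ _ _ _ P w S S' D I γ hOk hLg hw hPar hβ hN hI hD hc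
  obtain ⟨hd, -, -, -, -, hdl, -, -, hU, -⟩ := hLg
  have hd3 : 3 ≤ d := by omega
  have hPar' := hN.par hPar
  have := hPar.nonempty
  have hp : ∀ T : Sys (V → Bool) (V → Bool) (cav P.U), T.Par d →
      Prob (T.mu (rS P.T) (rS P.T γ)) := fun T hT =>
    (hTower _ _ _ T.cas (fun g => rS P.T g.1) (hT.ok hd3)).1 (γ, fun _ => none)
      (Sys.p_pos hT.2.2.2.2.1 (hT.rho_lt hd3) _)
  have hKb : Real.exp (40 * S.β * d) ≤ K := by
    rw [hKe, hβ]
    have := hOk.2.2.2.2.2.2.1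
    gcongr
  have hst := (hStab _ _ _ S d S' D I (dlq d) hd hPar hN hI hdl hD).2.1 _ (rS P.T) (rS P.T γ)
  have hf : ∀ u, (univ.filter fun a : cav P.U => w a = u).card ≤ d := fun u => by
    rw [← hw u]
    exact card_le_card_of_injOn (fun a => a.1) (fun a ha => by simpa using ha)
      Subtype.val_injective.injOn
  have hdR : (d : ℝ) * Fintype.card V / Fintype.card (cav P.U) ≤ R := by
    have h0 : (0 : ℝ) < Fintype.card (cav P.U) := by exact_mod_cast Fintype.card_pos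
    rw [div_le_iff₀ h0, hRe]
    linarith
  rcases hc with hc | hc
  · exact WidJ.one hStabV hOver _ _ crd (fun a : cav P.U => w a) d hK hR hs
      (he.le.trans (min_le_left _ _)) (he.le.trans (min_le_right _ _)) (hp S hPar) (hp S' hPar')
      (fun σ => (hst σ).1.trans (mul_le_mul_of_nonneg_right hKb ((hp S hPar).1 σ))) hf hdR hc
  · obtain ⟨a1, a2, a3, a4, a5, a6⟩ := WidJ.one hStabV hOver _ _ crd (fun a : cav P.U => w a) d
      hK hR hs (he.le.trans (min_le_left _ _)) (he.le.trans (min_le_right _ _)) (hp S' hPar')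
      (hp S hPar)
      (fun σ => (hst σ).2.trans (mul_le_mul_of_nonneg_right hKb ((hp S' hPar').1 σ))) hf hdR hc
    exact ⟨(abs_sub_comm _ _).trans_le a1, (abs_sub_comm _ _).trans_le a2, a4, a3, a6, a5⟩

end Pool.Agent.MP_32a90a_pr.D

end

section

set_option autoImplicit false

namespace Pool.Agent.MP_32a90a_pr.D

open Finset Equiv Filter Pool.Agent.MP_32a90a_pr Pool.Agent.MP_32a90a_pr.L

noncomputable section

/-- dyadic classes -/
def kD (k : ℕ) : ℝ := 1 / 2 ^ (k + 2)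

/-- replica parameters for a single class at the top level -/
def tT (d : ℕ) (κ : ℝ) : ℕ × ℝ × ℝ :=
  (⌊ell d / (10 * κ * y0 d) ^ 2⌋₊, κ, y0 d / Real.sqrt (ell d))

section
variable {V E : Type} [Fintype V] [DecidableEq V] [Fintype E] [DecidableEq E]

open Classical in
/-- majority configuration -/
def maj (μ : (V → Bool) → ℝ) : V → Bool := fun v => decide (0 ≤ mm μ (crd v))

open Classical in
/-- frustrated fair slots from the class of κ to a rigid vertex -/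
def swS (Z A : Finset E) (w : E × Bool → V) (J : E → Bool) (μ : (V → Bool) → ℝ) (κ : ℝ) :
    Finset E :=
  (fair Z A).filter fun i => w (i, false) ∈ cls μ κ (2 * κ) ∧ w (i, true) ∉ flex μ (κ / 16) ∧
    (J i = true ↔ maj μ (w (i, false)) ≠ maj μ (w (i, true)))

open Classical in
/-- pairs of slots that can be switched -/
def swP (Z A : Finset E) (w : E × Bool → V) (J : E → Bool) (μ : (V → Bool) → ℝ) (κ : ℝ) :
    Finset (E × E) :=
  (swS Z A w J μ κ ×ˢ swS Z A w J μ κ).filter fun p => p.1 ≠ p.2 ∧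
    |cv μ (crd (w (p.1, false))) (crd (w (p.2, false)))| ≤ κ / 10

/-- number of fair slots inside the enlarged class -/
def nB (Z A : Finset E) (w : E × Bool → V) (μ : (V → Bool) → ℝ) (κ : ℝ) : ℝ :=
  (((fair Z A).filter fun i => w (i, false) ∈ cls μ (κ / 5) (5 * κ) ∧
    w (i, true) ∈ cls μ (κ / 5) (5 * κ)).card : ℝ)

/-- narrow nodes that are also narrow on the pool -/
def Pk.Ev (P : Pk V E) (d : ℕ) (lam t : ℝ) (w : E × Bool → V) (μ : (V → Bool) → ℝ) : Prop :=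
  zz μ crd ≤ (1 + t / 100) * z1 d ∧ P.zA w μ ≤ (190 + t) * (lam / d + z1 d)

/-- mean of a function of the child on the nodes of Ev at level 2 -/
def Pk.EV (P : Pk V E) (d : ℕ) (lam : ℝ) (w0 : E × Bool → V)
    (F : (E × Bool → V) → (E → Bool) → ((V → Bool) → ℝ) → (V → Bool) → ℝ) : ℝ :=
  P.EQ w0 fun w J g σ =>
    ind (P.Ev d lam 2 w (P.mu w J (rS P.T g.1))) * F w J ((P.full w J).nu g) σ

end

end

/-- a wide node at the top level has a heavy dyadic class -/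
def StTopCls : Prop := ∀ C c : ℝ, 1 ≤ C → 0 < c → ∀ᶠ d : ℕ in atTop, ∃ e0 : ℝ, 0 < e0 ∧
  AllG fun V E _ _ _ _ _ =>
    ∀ (e : ℝ) (r : Bool → ℤ → ℝ) (Z A : Finset E) (w : E × Bool → V) (J : E → Bool)
      (μ : (V → Bool) → ℝ), Reg d C c e (y0 d) (TG d (y0 d)) r Z A w J μ → e ≤ e0 → RF d C c r →
      z1 d ≤ zz μ crd → d * zz μ crd ≤ ell d ^ (11 / 10 : ℝ) ∧
      ∃ k : ℕ, (k : ℝ) + 2 ≤ 5 * lll d ∧ zz μ crd * Fintype.card V / (8 * lll d)
        ≤ ∑ v ∈ cls μ (kD k) (2 * kD k), kt μ (crd v)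

/-- a heavy class gives many pairs of slots that can be switched -/
def StTopCnt : Prop := ∀ᶠ d : ℕ in atTop, ∃ e0 : ℝ, 0 < e0 ∧ AllG fun V E _ _ _ _ _ =>
  ∀ (C c e y κ : ℝ) (TT : Finset (ℕ × ℝ × ℝ)) (r : Bool → ℤ → ℝ) (Z A : Finset E)
    (w : E × Bool → V) (J : E → Bool) (μ : (V → Bool) → ℝ), Reg d C c e y TT r Z A w J μ →
    e ≤ e0 → z1 d ≤ zz μ crd → d * zz μ crd ≤ ell d ^ (11 / 10 : ℝ) → 1 / ell d ^ 4 ≤ κ →
    κ ≤ 1 / 4 →
    zz μ crd * Fintype.card V / (8 * lll d) ≤ ∑ v ∈ cls μ κ (2 * κ), kt μ (crd v) →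
    (d * zz μ crd * Fintype.card V / (2000 * κ * lll d)) ^ 2 ≤ ((swP Z A w J μ κ).card : ℝ)

/-- the switch produces slots inside the class -/
def StTopSw : Prop := ∀ᶠ d : ℕ in atTop, ∃ e0 : ℝ, 0 < e0 ∧ AllG fun V E _ _ _ _ _ =>
  ∀ (w0 : E × Bool → V) (P : Pk V E) (z κ : ℝ), Deg w0 d → P.Ok d → P.Lg d → z1 d ≤ z →
    sm 200 d ≤ κ →
    (P.EP w0 fun w J μ => ind (z ≤ zz μ crd ∧ zz μ crd ≤ 2 * z ∧ c2 μ crd ≤ e0) *
        ((swP P.Z P.A w J μ κ).card : ℝ)) / 5 - sm 250 d * (Fintype.card E : ℝ) ^ 2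
      ≤ Fintype.card E * P.EP w0 fun w _ μ =>
          ind (z / 2 ≤ zz μ crd ∧ zz μ crd ≤ 3 * z) * nB P.Z P.A w μ κ

/-- upper bound on the fair slots inside one class -/
def StTopUp : Prop := ∀ᶠ d : ℕ in atTop, ∃ e0 : ℝ, 0 < e0 ∧ AllG fun V E _ _ _ _ _ =>
  ∀ (C c e z κ : ℝ) (TT : Finset (ℕ × ℝ × ℝ)) (r : Bool → ℤ → ℝ) (Z A : Finset E)
    (w : E × Bool → V) (J : E → Bool) (μ : (V → Bool) → ℝ), Reg d C c e (y0 d) TT r Z A w J μ →
    e ≤ e0 → tT d κ ∈ TT → z1 d ≤ z → zz μ crd ≤ 3 * z → 1 / ell d ^ 4 ≤ κ → κ ≤ 1 / 4 →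
    κ ^ 2 * nB Z A w μ κ ≤ d * z ^ 2 * Fintype.card V / ell d ^ (1 / 10 : ℝ)

/-- the width on the pool is controlled on narrow nodes -/
def StZA : Prop := ∀ᶠ d : ℕ in atTop, ∃ ε : ℝ, 0 < ε ∧ Big d fun V E _ _ _ _ w0 =>
  ∀ (P : Pk V E) (r : Bool → ℤ → ℝ) (c' cp : ℝ), P.Ens d w0 r c' cp ε →
    d * (1 - c') + 1 ≤ d / 2 →
    (P.EP w0 fun w _ μ => ind (zz μ crd ≤ z1 d) * P.zA w μ)
      ≤ 2 * (d * (1 - c') + 1) / d + 45 * z1 d

/-- many vertices are flexible -/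
def StFlexLo : Prop := ∀ᶠ d : ℕ in atTop, ∃ ε : ℝ, 0 < ε ∧ Big d fun V E _ _ _ _ w0 =>
  ∀ (P : Pk V E) (r : Bool → ℤ → ℝ) (c' cp lam : ℝ), P.Ens d w0 r c' cp ε →
    lam = d * (1 - c') + 1 → 1 / 4 ≤ (P.EP w0 fun w _ μ => ind (P.Ev d lam 0 w μ)) →
    (lam - 4) / (30 * d) ≤ P.EV d lam w0 fun _ _ ν _ =>
      ((flex ν (Real.exp (-(6 * P.β)))).card : ℝ) / Fintype.card V

/-- few flexible vertices have few followers or a large field -/
def StBadUp : Prop := ∃ K : ℝ, 1 ≤ K ∧ ∀ᶠ d : ℕ in atTop, ∃ ε : ℝ, 0 < ε ∧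
  Big d fun V E _ _ _ _ w0 =>
    ∀ (P : Pk V E) (r : Bool → ℤ → ℝ) (c' cp lam : ℝ), P.Ens d w0 r c' cp ε →
      lam = d * (1 - c') + 1 → (∀ b l, 0 ≤ r b l) →
      (P.EV d lam w0 fun w _ ν _ =>
          ((bad0 w ν (Real.exp (-(8 * P.β))) (lam / 20)).card : ℝ) / Fintype.card V)
        ≤ K * Real.exp (-(lam / 500000) + 2 * d * z1 d + K * P.y * (lam + ell d)) *
            min 1 (rL d r (K * (lam + ell d)) + 4 / (d : ℝ) ^ 10) + 5 / (d : ℝ) ^ 10 ∧
      (P.EV d lam w0 fun w J ν σ => avg fun v => ind (v ∈ flex ν (Real.exp (-(8 * P.β)))) *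
          ind (K * (lam + ell d) < |loc (P.s J) w σ v|)) ≤ 5 / (d : ℝ) ^ 10

/-- flexible vertices with many followers contradict sparsity -/
def StPair : Prop := AllG fun V E _ _ _ _ _ =>
  ∀ (d : ℕ) (w : E × Bool → V) (ν : (V → Bool) → ℝ) (z ε t j e : ℝ), Deg w d → G1 d z ε w →
    1 ≤ k0 d z → 16 * k0 d z ≤ j → 0 ≤ ε → ε ≤ z → 1 ≤ z * Fintype.card V → Prob ν → 0 < t →
    t ≤ 1 → ((bad0 w ν (t ^ 4) j).card : ℝ) ≤ z * Fintype.card V →
    (E2 ν ν fun σ σ' => ind (6 * z * Fintype.card V < ((dif σ σ').card : ℝ))) ≤ e →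
    ((flex ν (t ^ 3)).card : ℝ) ≤ 2 * (bad0 w ν (t ^ 4) j).card + ε * Fintype.card V + 1
      + (t + (ε + e * d) / t ^ 3) * Fintype.card V

/-- children of narrow nodes have a small diameter -/
def StDiam : Prop := ∀ᶠ d : ℕ in atTop, ∀ η : ℝ, 0 < η → ∃ ε : ℝ, 0 < ε ∧
  Big d fun V E _ _ _ _ w0 =>
    ∀ (P : Pk V E) (lam : ℝ), P.Ok d → (P.EP w0 fun _ _ μ => c2 μ crd) ≤ ε →
      (P.EV d lam w0 fun _ _ ν _ => E2 ν ν fun σ σ' =>
        ind (6 * z1 d * Fintype.card V < ((dif σ σ').card : ℝ))) ≤ η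

/-- upper bound on the flexible mass -/
def StFlexUp : Prop := ∀ C c : ℝ, TypW C c → ∀ᶠ d : ℕ in atTop, ∃ ε : ℝ, 0 < ε ∧
  Big d fun V E _ _ _ _ w0 =>
    ∀ (P : Pk V E) (r : Bool → ℤ → ℝ) (c' cp lam L b a : ℝ), P.Ens d w0 r c' cp ε →
      Lam d ≤ lam → (∀ b l, 0 ≤ r b l) →
      (P.EV d lam w0 fun w _ ν _ =>
        ((bad0 w ν (Real.exp (-(8 * P.β))) (lam / 20)).card : ℝ) / Fintype.card V) ≤ b →
      (P.EV d lam w0 fun w J ν σ => avg fun v => ind (v ∈ flex ν (Real.exp (-(8 * P.β)))) *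
        ind (L < |loc (P.s J) w σ v|)) ≤ a →
      (P.EV d lam w0 fun _ _ ν _ =>
          ((flex ν (Real.exp (-(6 * P.β)))).card : ℝ) / Fintype.card V)
        ≤ 2 * b + b / z1 d * min 1 (rL d r L + 1 / (d : ℝ) ^ 10) + a + 2 / (d : ℝ) ^ 10

/-- the numerical contradiction for large lam -/
def StL2num : Prop := ∀ K C c : ℝ, 1 ≤ K → 1 ≤ C → 0 < c → ∀ᶠ d : ℕ in atTop,
  ∀ lam y R b : ℝ, Lam d ≤ lam → 0 ≤ y → y ≤ y0 d → 0 ≤ R → 0 ≤ b →
    (K * (lam + ell d) ≤ d → 2 * tau d * (K * (lam + ell d)) ≤ c →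
      R ≤ 2 * C * (K * (lam + ell d)) ^ 2 * ell d / d) →
    b ≤ K * Real.exp (-(lam / 500000) + 2 * d * z1 d + K * y * (lam + ell d)) *
      min 1 (R + 4 / (d : ℝ) ^ 10) + 5 / (d : ℝ) ^ 10 →
    2 * b + b / z1 d * min 1 (R + 1 / (d : ℝ) ^ 10) + 7 / (d : ℝ) ^ 10 < (lam - 4) / (30 * d)

end Pool.Agent.MP_32a90a_pr.D

end

section

set_option autoImplicit false
set_option linter.unusedSectionVars false

namespace Pool.Agent.MP_32a90a_pr.D

open Finset Equiv Filter Pool.Agent.MP_32a90a_pr Pool.Agent.MP_32a90a_pr.L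

namespace BadUpJ

section sys
variable {Sg G0 A : Type} [Fintype Sg] [Nonempty Sg] [Fintype G0] [Nonempty G0] [Fintype A]
  [DecidableEq A] {d : ℕ}

lemma fam_le {S' : (Fin d → A × Bool) → Sys Sg G0 A} (h : ∀ ω, (S' ω).cas.Ok)
    {f f' f'' : (Fin d → A × Bool) → Gam G0 A → Sg → ℝ}
    (hf : ∀ ω, Function.Injective (uu ω) → ∀ g σ, f ω g σ ≤ f' ω g σ + f'' ω g σ) :
    Fam S' f ≤ Fam S' f' + Fam S' f'' := by
  unfold Fam
  rw [← avg_add]
  refine avg_mono fun ω => ?_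
  by_cases hi : Function.Injective (uu ω)
  · simp only [ind_pos hi, one_mul]
    exact (Cas.P_mono (h ω) (hf ω hi)).trans_eq (Cas.P_add _ _)
  · simp only [ind_neg hi, zero_mul, add_zero, le_refl]

lemma fam_congr {S' : (Fin d → A × Bool) → Sys Sg G0 A}
    {f f' : (Fin d → A × Bool) → Gam G0 A → Sg → ℝ}
    (hf : ∀ ω, Function.Injective (uu ω) → ∀ g σ, f ω g σ = f' ω g σ) : Fam S' f = Fam S' f' := by
  refine avg_congr fun ω => ?_
  by_cases hi : Function.Injective (uu ω)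
  · exact congrArg _ (Cas.P_congr (hf ω hi))
  · simp only [ind_neg hi, zero_mul]

lemma hom_le (sp : A → Sg → Bool) (AA : Finset (Fin d)) (ω : Fin d → A × Bool) (σ : Sg) :
    |hom sp AA ω σ| ≤ d := by
  refine (abs_sum_le_sum_abs _ _).trans (le_of_eq ?_)
  rw [sum_congr rfl (g := fun _ => (1 : ℝ)) fun i _ => by
    rw [abs_mul, abs_sgn, mul_one, Jc]
    split_ifs <;> simp]
  simp

lemma mu_prob (hTower : StTower) {S : Sys Sg G0 A} (h : S.Par d) (hd : 3 ≤ d) {Nd : Type}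
    (nd : G0 → Nd) (γ : G0) : Prob (S.mu nd (nd γ)) :=
  (hTower _ _ _ S.cas (fun g => nd g.1) (h.ok hd)).1 (γ, fun _ => none)
    (Sys.p_pos h.2.2.2.2.1 (h.rho_lt hd) _)

lemma zz_le {μ : Sg → ℝ} (h : Prob μ) {sp sp' : A → Sg → Bool} {I : Finset A}
    (hI : ∀ a, a ∉ I → sp' a = sp a) : zz μ sp ≤ zz μ sp' + I.card / Fintype.card A := by
  have e : (I.card : ℝ) / Fintype.card A = avg fun a => ind (a ∈ I) := by
    unfold avg
    rw [sum_ind, filter_mem_eq_inter, univ_inter]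
  rw [e, zz, zz, ← avg_add]
  refine avg_mono fun a => ?_
  by_cases ha : a ∈ I
  · rw [ind_pos ha]
    linarith [kt_le_half (μ := μ) (sp a), h.kt_nonneg (sp' a)]
  · rw [ind_neg ha, hI a ha, add_zero]

lemma cl (hTower : StTower) (hOver : StOver) {S : Sys Sg G0 A} (h : S.Par d) (hd : 3 ≤ d)
    {Nd : Type} (nd : G0 → Nd) {a t s : ℝ} (ht : 0 < t) (hta : t ≤ a)
    (hs : Real.sqrt s / (5 * t) ^ 2 ≤ sm (7 * S.β + 200) d) :
    S.Cl d nd (fun n => zz (S.mu nd n) S.sp ≤ 195 * a ∧ c2 (S.mu nd n) S.sp ≤ s) (200 * a) := by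
  have := h.nonempty
  have e := ((hTower _ _ _ S.cas (fun g => nd g.1) (h.ok hd)).2.1 fun n σ =>
    ind (zz (S.mu nd n) S.sp ≤ 195 * a ∧ c2 (S.mu nd n) S.sp ≤ s) *
      Ex (S.mu nd n) fun r => ind (200 * a < fr S.sp σ r)).2
  refine e.trans_le (Cas.P_le_const (h.ok hd) fun g _ => ?_)
  have hp := mu_prob hTower h hd nd g.1
  change (Ex (S.mu nd (nd g.1)) fun σ => _) ≤ _
  rw [Ex_mul]
  by_cases hE : zz (S.mu nd (nd g.1)) S.sp ≤ 195 * a ∧ c2 (S.mu nd (nd g.1)) S.sp ≤ s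
  swap
  · rw [ind_neg hE, zero_mul]
    exact (sm_pos _ _).le
  rw [ind_pos hE, one_mul]
  have h1 := (hOver Sg A _ S.sp hp).2.2.1 (5 * t) (by linarith)
  refine le_trans (Ex_mono hp.1 fun σ => Ex_mono hp.1 fun r => ind_mono fun h0 => ?_)
    (h1.trans (le_trans ?_ hs))
  · exact le_trans (by linarith [hE.1]) (le_abs_self _)
  · exact div_le_div_of_nonneg_right (Real.sqrt_le_sqrt hE.2) (sq_nonneg _)

lemma split {a a' c : Prop} {b : ℝ} (hb : 0 ≤ b ∧ b ≤ 1) (h : a → ¬ c → a') :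
    ind a * b ≤ ind a' * b + ind c := by
  by_cases hc : c
  · rw [ind_pos hc]
    have := mul_le_one₀ (ind_le_one a) hb.1 hb.2
    linarith [mul_nonneg (ind_nonneg a') hb.1]
  · rw [ind_neg hc, add_zero]
    exact mul_le_mul_of_nonneg_right (ind_mono fun ha => h ha hc) hb.1

end sys

lemma z1_pos {d : ℕ} (hd : 3 ≤ d) : 0 < z1 d := by
  have h0 : (0 : ℝ) < d := by exact_mod_cast (show 0 < d by omega)
  exact div_pos (Real.rpow_pos_of_pos (one_pos.trans_le (one_le_log hd)) _) h0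

lemma z1_ge {d : ℕ} (hd : 3 ≤ d) : 1 / (d : ℝ) ≤ z1 d :=
  div_le_div_of_nonneg_right (Real.one_le_rpow (one_le_log hd) (by norm_num)) (Nat.cast_nonneg d)

lemma z1_le {d : ℕ} (hd : 3 ≤ d) : d * z1 d ≤ ell d := by
  have h0 : (0 : ℝ) < d := by exact_mod_cast (show 0 < d by omega)
  rw [z1, mul_div_cancel₀ _ h0.ne']
  exact Real.rpow_le_self_of_one_le (one_le_log hd) (by norm_num)

variable {V E : Type} [Fintype V] [DecidableEq V] [Nonempty V] [Fintype E] [DecidableEq E]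
  {d : ℕ}

/-- mean of a function of the disorder after the vertex exchange -/
noncomputable def TT (P : Pk V E) (p : Fin d → E × Bool)
    (F : (E × Bool → V) → (E → Bool) → ℝ) (w : E × Bool → V) (J : E → Bool) : ℝ :=
  avg fun ω : Fin d → (cav P.U) × Bool => ind (Function.Injective (uu ω)) *
    F (xv w p fun i => ((ω i).1 : E × Bool)) (xj J p fun i => (ω i).2)

/-- flexible with few followers -/
noncomputable def F1 (P : Pk V E) (d : ℕ) (lam : ℝ) (v : V) (w : E × Bool → V) (J : E → Bool) :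
    ℝ := (P.full w J).P fun g _ => ind (P.Ev d lam 2 w (P.mu w J (rS P.T g.1))) *
      ind (BadV ((P.full w J).nu g) (crd v) (fol w v) (Real.exp (-(8 * P.β))) (lam / 20) (1 / 2))

/-- flexible with a large field -/
noncomputable def F2 (P : Pk V E) (d : ℕ) (lam L : ℝ) (v : V) (w : E × Bool → V) (J : E → Bool) :
    ℝ := (P.full w J).P fun g σ => ind (P.Ev d lam 2 w (P.mu w J (rS P.T g.1))) *
      (ind (Real.exp (-(8 * P.β)) ≤ mn ((P.full w J).nu g) (crd v)) *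
        ind (L < |loc (P.s J) w σ v|))

/-- impure nodes -/
noncomputable def F3 (P : Pk V E) (e : ℝ) (w : E × Bool → V) (J : E → Bool) : ℝ :=
  (P.full w J).P fun g _ => ind (e < c2 (P.mu w J (rS P.T g.1)) crd)

/-- small field -/
noncomputable def F4 (P : Pk V E) (L : ℝ) (v : V) (w : E × Bool → V) (J : E → Bool) : ℝ :=
  (P.full w J).P fun _ σ => ind (|loc (P.s J) w σ v| ≤ L)

variable {P : Pk V E}

lemma ok (h : P.Lg d) (W : Finset V) (s : E → ℝ) (w : E × Bool → V) : (P.sys W s w).cas.Ok :=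
  (h.2.1 W s w).ok (le_trans (by norm_num) h.1)

/-- the body of the statement on the widths -/
def WidB (P : Pk V E) (d : ℕ) (s e : ℝ) : Prop :=
  ∀ (w : E × Bool → V) (S S' : Sys (V → Bool) (V → Bool) (cav P.U))
    (D : (V → Bool) → (V → Bool) → ℝ) (I : Finset (cav P.U)) (γ : V → Bool),
    Deg w d → S.Par d → S.β = P.β → S.Near S' D I (dlq d) → I.card ≤ d + 2 →
    (∀ g σ, |D g σ| ≤ 3 * d) → c2 (S'.mu (rS P.T) (rS P.T γ)) crd ≤ e →
    |P.zA w (S.mu (rS P.T) (rS P.T γ)) - P.zA w (S'.mu (rS P.T) (rS P.T γ))| ≤ s ∧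
      c2 (S.mu (rS P.T) (rS P.T γ)) (fun (a : cav P.U) (σ : V → Bool) => σ (w a)) ≤ s

lemma one (hInsCav : StInsCav) (hSymCav : StSymCav) (hOver : StOver) (hTower : StTower)
    {K c cp lam s e : ℝ} (hO : P.Ok d) (hL : P.Lg d) (hB : P.B = 0)
    (hW : WidB P d s e) (hs : s ≤ z1 d)
    (hs' : Real.sqrt s / (5 * z1 d) ^ 2 ≤ sm (7 * P.β + 200) d) (hlam : lam = d * (1 - c) + 1)
    {w : E × Bool → V} {J : E → Bool} {v : V} {p : Fin d → E × Bool} (hw : Deg w d)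
    (hg : P.Gw d w v) (hg' : Gd P.U w v) (hp : Function.Injective p)
    (hp' : ∀ t, w t = v ↔ ∃ i, p i = t) (hR : (P.cavi w J v).Rig d c cp)
    (hVT : ∀ (S : Sys (V → Bool) (V → Bool) (cav P.U)) (c cp lam z zb : ℝ) (Nd : Type)
      (nd : (V → Bool) → Nd) (Ev : Nd → Prop) (AA : Finset (Fin d))
      (fl : (V → Bool) → V → Bool) (o : (V → Bool) → Bool)
      (S' : (Fin d → cav P.U × Bool) → Sys (V → Bool) (V → Bool) (cav P.U)), S.Par d →
      S.Rig d c cp → lam = d * (1 - c) + 1 → S.Sym fl o → S.Ins o AA 0 S' → S.y ≤ 1 / 10 ^ 11 →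
      0 ≤ z → d * z ≤ ell d → 0 ≤ zb → zb ≤ 200 * (lam / d + z) → S.Cl d nd Ev zb →
      AA.card * 10 ^ 7 ≤ d →
      (Fam S' fun ω g _ => ind (Ev (nd g.1)) *
          ind (BadV ((S' ω).nu g) o (dn S.sp (uu ω)) (Real.exp (-(8 * S.β))) (lam / 20) (1 / 2)))
        ≤ K * Real.exp (-(lam / 500000) + 2 * d * z + K * S.y * (lam + ell d)) *
            min 1 ((Fam S' fun ω _ σ => ind (|hom S.sp AA ω σ| ≤ K * (lam + ell d)))
              + 2 / (d : ℝ) ^ 10) + 1 / (d : ℝ) ^ 10 ∧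
      (Fam S' fun ω g σ => ind (Ev (nd g.1)) * ind (Real.exp (-(8 * S.β)) ≤ mn ((S' ω).nu g) o) *
          ind (K * (lam + ell d) < |hom S.sp AA ω σ|)) ≤ 1 / (d : ℝ) ^ 10) :
    TT P p (F1 P d lam v) w J
      ≤ (K * Real.exp (-(lam / 500000) + 2 * d * z1 d + K * P.y * (lam + ell d)) *
        min 1 (TT P p (F4 P (K * (lam + ell d)) v) w J + 2 / (d : ℝ) ^ 10) + 1 / (d : ℝ) ^ 10)
        + TT P p (F3 P e) w J ∧
    TT P p (F2 P d lam (K * (lam + ell d)) v) w J ≤ 1 / (d : ℝ) ^ 10 + TT P p (F3 P e) w J := by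
  have hd : 1000 ≤ d := hL.1
  have hd3 : 3 ≤ d := by omega
  have hdR : (1000 : ℝ) ≤ d := by exact_mod_cast hd
  obtain ⟨i1, i2, i3⟩ := hInsCav V E d P w J v p hO hL hw hg.1 hp hp'
  have hS : (P.cavi w J v).Par d := hL.2.1 _ _ _
  have hz := z1_pos hd3
  have hl0 : 0 ≤ lam / d := by
    have b1 := mul_sm_le (a := d) 249 hd3 (by linarith)
    have b2 := sm_le_one (k := 249) (by norm_num) d
    have b3 := mul_le_mul_of_nonneg_left hR.2.1 (Nat.cast_nonneg (α := ℝ) d)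
    norm_num at b1
    exact div_nonneg (by linarith) (by linarith)
  have hAA : (P.AAp p).card * 10 ^ 7 ≤ d := by
    have c1 := hg.2
    rw [← i2] at c1
    have c2 : 64 * tau d * 10 ^ 7 ≤ 1 := hL.2.2.2.2.2.2.2.1
    have c3 : 0 ≤ tau d := Real.rpow_nonneg (Nat.cast_nonneg d) _
    have c4 : ((P.AAp p).card : ℝ) * 10 ^ 7 ≤ d := by nlinarith
    exact_mod_cast c4
  have hC := cl hTower hOver hS hd3 (rS P.T) (a := lam / d + z1 d) hz (by linarith) hs'
  obtain ⟨a1, a2⟩ := hVT (P.cavi w J v) c cp lam (z1 d) _ _ (rS P.T) _ (P.AAp p) _ _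
    (P.ins w J p) hS hR hlam (hSymCav V E P w J v hg') (hB ▸ i1) hO.2.2.2.2.2.2.2.2.2.1 hz.le
    (z1_le hd3) (by linarith) le_rfl hC hAA
  have hloc : ∀ ω : Fin d → cav P.U × Bool, Function.Injective (uu ω) → ∀ σ,
      |loc (P.s (xj J p fun i => (ω i).2)) (xv w p fun i => ((ω i).1 : E × Bool)) σ v|
        = |hom (P.cavi w J v).sp (P.AAp p) ω σ| := fun ω hi σ => by
    rw [(i3 ω hi).2.2.1 σ, abs_mul, abs_sgn, one_mul]
  have hev : ∀ ω : Fin d → cav P.U × Bool, Function.Injective (uu ω) → ∀ γ,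
      P.Ev d lam 2 (xv w p fun i => ((ω i).1 : E × Bool))
        ((P.ins w J p ω).mu (rS P.T) (rS P.T γ)) →
      ¬ e < c2 ((P.ins w J p ω).mu (rS P.T) (rS P.T γ)) crd →
      zz ((P.cavi w J v).mu (rS P.T) (rS P.T γ)) (P.cavi w J v).sp ≤ 195 * (lam / d + z1 d) ∧
        c2 ((P.cavi w J v).mu (rS P.T) (rS P.T γ)) (P.cavi w J v).sp ≤ s := by
    intro ω hi γ h1 h2
    have hn := (i3 ω hi).1
    obtain ⟨b1, b2⟩ := hW w _ _ _ _ γ hw hS rfl hn (VT2J.card_le _) (fun g σ => by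
      have c1 := hom_le (P.cavi w J v).sp (P.AAp p) ω σ
      unfold Sys.Dv
      rw [abs_mul, abs_sgn, one_mul, hB, add_zero]
      linarith) (not_lt.1 h2)
    refine ⟨?_, b2⟩
    have b3 := zz_le (mu_prob hTower (hn.par hS) hd3 (rS P.T) γ) hn.2.2.2.2.2.2
    have hc : 1 ≤ sm 300 d * Fintype.card (cav P.U) := hS.2.2.2.2.2.2.2.2.2.2
    have := hS.nonempty
    have hc0 : (0 : ℝ) < Fintype.card (cav P.U) := by exact_mod_cast Fintype.card_pos
    have b4 : ((univ.image (uu ω)).card : ℝ) / Fintype.card (cav P.U) ≤ z1 d := by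
      have c1 : ((univ.image (uu ω)).card : ℝ) ≤ d := by
        exact_mod_cast card_image_le.trans (by simp)
      have c2 := mul_sm_le (a := d) 299 hd3 (by linarith)
      have c3 := (sm_le_inv (k := 299) (by norm_num) hd3).trans
        ((one_div_le_one_div_of_le (by linarith) (by linarith)).trans (z1_ge hd3))
      norm_num at c2
      rw [div_le_iff₀ hc0]
      calc ((univ.image (uu ω)).card : ℝ) ≤ d * (sm 300 d * Fintype.card (cav P.U)) :=
            c1.trans (le_mul_of_one_le_right (by linarith) hc)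
        _ = d * sm 300 d * Fintype.card (cav P.U) := by ring
        _ ≤ _ := mul_le_mul_of_nonneg_right (c2.trans c3) hc0.le
    have b5 : zz ((P.ins w J p ω).mu (rS P.T) (rS P.T γ)) (P.ins w J p ω).sp
      ≤ (190 + 2) * (lam / d + z1 d) := h1.2
    have b6 : zz ((P.cavi w J v).mu (rS P.T) (rS P.T γ)) (P.cavi w J v).sp
      - zz ((P.ins w J p ω).mu (rS P.T) (rS P.T γ)) (P.cavi w J v).sp ≤ s := (abs_le.1 b1).2
    linarith
  have e4 : TT P p (F4 P (K * (lam + ell d)) v) w J = Fam (P.ins w J p) fun ω _ σ =>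
      ind (|hom (P.cavi w J v).sp (P.AAp p) ω σ| ≤ K * (lam + ell d)) :=
    fam_congr (S' := P.ins w J p) fun ω hi g σ => by rw [← hloc ω hi]
  rw [e4]
  refine ⟨le_trans (fam_le (S' := P.ins w J p) (fun ω => ok hL _ _ _) fun ω hi g σ => ?_)
    (add_le_add a1 le_rfl), le_trans (fam_le (S' := P.ins w J p) (fun ω => ok hL _ _ _)
      fun ω hi g σ => ?_) (add_le_add a2 le_rfl)⟩
  · rw [← show fol (xv w p fun i => ((ω i).1 : E × Bool)) v = dn (P.cavi w J v).sp (uu ω) from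
      funext fun σ => funext ((i3 ω hi).2.2.2 σ)]
    exact split ⟨ind_nonneg _, ind_le_one _⟩ (hev ω hi g.1)
  · rw [mul_assoc, ← hloc ω hi]
    exact split (VT2J.ind2 _ _) (hev ω hi g.1)

end BadUpJ

end Pool.Agent.MP_32a90a_pr.D

end

section

set_option autoImplicit false
set_option linter.unusedSectionVars false

namespace Pool.Agent.MP_32a90a_pr.D

open Finset Equiv Filter Pool.Agent.MP_32a90a_pr Pool.Agent.MP_32a90a_pr.L

namespace BadUpJ

variable {V E : Type} [Fintype V] [DecidableEq V] [Nonempty V] [Fintype E] [DecidableEq E]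
  {w0 : E × Bool → V} {d : ℕ} {P : Pk V E}

lemma stepB {F T F' T' X M : (E × Bool → V) → (E → Bool) → ℝ} {G : (E × Bool → V) → Prop}
    {η e : ℝ} (hd : Deg w0 d) (hF : ∀ w J, F w J ≤ 1) (hT : ∀ w J, T w J ≤ 1)
    (hF' : ∀ w J, 0 ≤ F' w J) (hT' : ∀ w J, 0 ≤ T' w J) (hX : ∀ w J, 0 ≤ X w J)
    (hM : ∀ w J, 0 ≤ M w J) (he : 0 < e)
    (h1 : |(ED w0 fun w J => ind (G w) * F w J) - ED w0 fun w J => ind (G w) * T w J| ≤ η)
    (h2 : |(ED w0 fun w J => ind (G w) * F' w J) - ED w0 fun w J => ind (G w) * T' w J| ≤ η)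
    (H : ∀ w J, Deg w d → G w → X w J ≤ e → T w J ≤ M w J + T' w J) :
    ED w0 F ≤ ED w0 M + (PD w0 (fun w _ => ¬ G w) + (2 * η + ED w0 F' + ED w0 X / e)) := by
  have a1 : ED w0 F ≤ (ED w0 fun w J => ind (G w) * F w J) + PD w0 fun w _ => ¬ G w := by
    rw [PD, ← ED_add]
    refine ED_mono fun w J => ?_
    by_cases h : G w
    · rw [ind_pos h, ind_neg (not_not.2 h)]; linarith
    · rw [ind_neg h, ind_pos h]; linarith [hF w J]
  have a2 : (ED w0 fun w J => ind (G w) * F' w J) ≤ ED w0 F' :=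
    ED_mono fun w J => mul_le_of_le_one_left (hF' w J) (ind_le_one _)
  have a3 : (ED w0 fun w J => ind (G w) * T w J)
      ≤ ED w0 M + (ED w0 fun w J => ind (G w) * T' w J) + ED w0 X / e := by
    rw [← ED_div, ← ED_add, ← ED_add]
    refine ED_mono_deg hd fun w J hw => ?_
    have b1 := div_nonneg (hX w J) he.le
    have b2 := hM w J
    by_cases h : G w
    · rw [ind_pos h, one_mul, one_mul]
      by_cases hx : X w J ≤ e
      · linarith [H w J hw h hx]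
      · have := (one_le_div he).2 (not_le.1 hx).le
        linarith [hT w J, hT' w J]
    · rw [ind_neg h, zero_mul, zero_mul]
      linarith
  linarith [(abs_le.1 h1).2, (abs_le.1 h2).1]

lemma P_bd (h : P.Lg d) (w : E × Bool → V) (J : E → Bool)
    {f : Gam (V → Bool) (cav P.U) → (V → Bool) → ℝ} (hf : ∀ g σ, 0 ≤ f g σ ∧ f g σ ≤ 1) :
    0 ≤ (P.full w J).P f ∧ (P.full w J).P f ≤ 1 :=
  ⟨Cas.P_nonneg (ok h _ _ _) fun g σ => (hf g σ).1,
    Cas.P_le_const (ok h _ _ _) fun g σ => (hf g σ).2⟩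

lemma TT_bd {F : (E × Bool → V) → (E → Bool) → ℝ} (hF : ∀ w J, 0 ≤ F w J ∧ F w J ≤ 1)
    (p : Fin d → E × Bool) (w : E × Bool → V) (J : E → Bool) :
    0 ≤ TT P p F w J ∧ TT P p F w J ≤ 1 :=
  ⟨avg_nonneg fun _ => mul_nonneg (ind_nonneg _) (hF _ _).1,
    avg_le_const zero_le_one fun _ => mul_le_one₀ (ind_le_one _) (hF _ _).1 (hF _ _).2⟩

lemma exch (hVX : StVX) (hd : Deg w0 d) (h : P.Lg d) {v : V}
    {pos : (E × Bool → V) → Fin d → E × Bool} (hp : IsPos d v pos)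
    (g1 : ∀ w, P.Gw d w v → Gd P.U w v)
    (g2 : ∀ w w', (∀ t, w t = v ↔ w' t = v) → P.Gw d w v → P.Gw d w' v)
    {F : (E × Bool → V) → (E → Bool) → ℝ} (hF : ∀ w J, 0 ≤ F w J ∧ F w J ≤ 1) :
    |(ED w0 fun w J => ind (P.Gw d w v) * F w J)
      - ED w0 fun w J => ind (P.Gw d w v) * TT P (pos w) F w J| ≤ sm 298 d := by
  have hd3 : 3 ≤ d := le_trans (by norm_num) h.1
  have hS := h.2.1 univ (fun _ => 0) w0
  have hc : 1 ≤ sm 300 d * Fintype.card (cav P.U) := hS.2.2.2.2.2.2.2.2.2.2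
  have := hS.nonempty
  have hc0 : (0 : ℝ) < Fintype.card (cav P.U) := by exact_mod_cast Fintype.card_pos
  have hU : P.U.Nonempty := by
    obtain ⟨a⟩ := this
    exact ⟨a.1.1, mem_cav.1 a.2⟩
  refine (hVX V E w0 d P.U v pos (fun w => P.Gw d w v) F hd hp hU g1 g2
    fun w J => abs_le.2 ⟨by linarith [(hF w J).1], (hF w J).2⟩).trans ?_
  have b1 := mul_sm_le (a := d) 299 hd3 (by linarith)
  have b2 := mul_sm_le (a := d) 298 hd3 (by linarith)
  norm_num at b1 b2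
  rw [div_le_iff₀ hc0]
  have hd0 : (0 : ℝ) ≤ d := Nat.cast_nonneg d
  calc (d : ℝ) ^ 2 ≤ d ^ 2 * (sm 300 d * Fintype.card (cav P.U)) :=
        le_mul_of_one_le_right (by positivity) hc
    _ = d * (d * sm 300 d) * Fintype.card (cav P.U) := by ring
    _ ≤ sm 298 d * Fintype.card (cav P.U) :=
        mul_le_mul_of_nonneg_right ((mul_le_mul_of_nonneg_left b1 hd0).trans b2) hc0.le

lemma mean1 (lam : ℝ) : (P.EV d lam w0 fun w _ ν _ =>
    ((bad0 w ν (Real.exp (-(8 * P.β))) (lam / 20)).card : ℝ) / Fintype.card V) =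
    avg fun v => ED w0 (F1 P d lam v) := by
  unfold Pk.EV Pk.EQ
  rw [← ED_avg]
  refine congrArg (ED w0) (funext fun w => funext fun J => ?_)
  unfold F1
  rw [← Cas.P_avg]
  refine Cas.P_congr fun g σ => ?_
  classical
  rw [avg_mul]
  unfold avg bad0
  rw [sum_ind]

lemma mean2 (lam L : ℝ) : (P.EV d lam w0 fun w J ν σ => avg fun v =>
    ind (v ∈ flex ν (Real.exp (-(8 * P.β)))) * ind (L < |loc (P.s J) w σ v|)) =
    avg fun v => ED w0 (F2 P d lam L v) := by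
  unfold Pk.EV Pk.EQ
  rw [← ED_avg]
  refine congrArg (ED w0) (funext fun w => funext fun J => ?_)
  unfold F2
  rw [← Cas.P_avg]
  refine Cas.P_congr fun g σ => ?_
  rw [avg_mul]
  refine congrArg _ (avg_congr fun v => congrArg (· * _) (ind_congr ?_))
  simp [flex]

lemma mean3 (h : P.Lg d) {e : ℝ} (he : 0 < e) :
    ED w0 (F3 P e) ≤ (P.EP w0 fun _ _ μ => c2 μ crd) / e := by
  unfold Pk.EP
  rw [← ED_div]
  refine ED_mono fun w J => ?_
  rw [div_eq_inv_mul]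
  refine (Cas.P_mono (ok h _ _ _) fun g σ => ?_).trans_eq (Cas.P_mul _ _)
  rw [← div_eq_inv_mul]
  exact (ind_mono le_of_lt).trans
    (ind_le_div (avg_nonneg fun _ => avg_nonneg fun _ => sq_nonneg _) he)

lemma mean4 (hPAR : StPAR) (hd : Deg w0 d) (h : P.Lg d) {r : Bool → ℤ → ℝ}
    (hr : ∀ b l, 0 ≤ r b l) (L : ℝ) : (avg fun v => ED w0 (F4 P L v)) ≤
      rL d r L + 2 * (2 * d + 1) * qq d ^ 2 +
        P.EQ w0 fun w J _ σ => ind (¬ Tp d r (P.s J) w σ) := by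
  unfold Pk.EQ
  rw [← ED_avg, ← ED_const (w0 := w0) (rL d r L + 2 * (2 * d + 1) * qq d ^ 2), ← ED_add]
  refine ED_mono_deg hd fun w J hw => ?_
  unfold F4
  rw [← Cas.P_avg]
  refine (Cas.P_mono (ok h _ _ _) fun g σ => le_trans
    (avg_mono fun v => ind_mono (le_abs_self _).trans) (SmallJ.soft hPAR hw hr L σ)).trans_eq ?_
  exact (Cas.P_add _ _).trans (congrArg (· + _) (Cas.P_const (ok h _ _ _) _))

lemma ED_min (X : (E × Bool → V) → (E → Bool) → ℝ) :
    (ED w0 fun w J => min 1 (X w J)) ≤ min 1 (ED w0 X) :=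
  le_min (ED_le_const fun _ _ => min_le_left _ _) (ED_mono fun _ _ => min_le_right _ _)

lemma avg_min (X : V → ℝ) : (avg fun v => min 1 (X v)) ≤ min 1 (avg X) :=
  le_min (avg_le_const zero_le_one fun _ => min_le_left _ _) (avg_mono fun _ => min_le_right _ _)

end BadUpJ

open BadUpJ in
theorem stBadUp (hPar : StPar) (hPos : StPos) (hVX : StVX) (hInsCav : StInsCav)
    (hSymCav : StSymCav) (hVT2 : StVT2) (hRigD : StRigD) (hWid : StWid) (hOver : StOver)
    (hTower : StTower) (hGwP : StGwP) (hPAR : StPAR) : StBadUp := by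
  obtain ⟨K, hK, hVT⟩ := hVT2
  refine ⟨K, hK, ?_⟩
  filter_upwards [hPar, hVT, hGwP, eventually_ge_atTop 1000] with d hPar hVT hGwP hd
  have hd3 : 3 ≤ d := by omega
  have hdR : (1000 : ℝ) ≤ d := by exact_mod_cast hd
  have hz := z1_pos hd3
  obtain ⟨eR, heR, hRig⟩ := hRigD d
  obtain ⟨s, hs⟩ : ∃ s, s = min (z1 d)
    ((sm (7 * (1 / qq d ^ 4) + 200) d * (5 * z1 d) ^ 2) ^ 2) := ⟨_, rfl⟩
  have hq0 : 0 < sm (7 * (1 / qq d ^ 4) + 200) d * (5 * z1 d) ^ 2 :=
    mul_pos (sm_pos _ _) (by positivity)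
  obtain ⟨e, he, hW⟩ := hWid d s (hs ▸ lt_min hz (pow_pos hq0 2))
  have s0 := sm_pos 300 d
  obtain ⟨ε, hε⟩ : ∃ ε, ε = sm 300 d * min 1 (min e eR) := ⟨_, rfl⟩
  refine ⟨ε, hε ▸ mul_pos s0 (lt_min one_pos (lt_min he heR)), (hPar.and hGwP).mono ?_⟩
  intro V E _ _ _ _ w0 hw0 hh P r c' cp lam hE hlam hr
  have hε1 : ε ≤ sm 300 d := hε ▸ mul_le_of_le_one_right s0.le (min_le_left _ _)
  have hε2 : ε / e ≤ sm 300 d := by
    rw [div_le_iff₀ he, hε]
    exact mul_le_mul_of_nonneg_left ((min_le_right _ _).trans (min_le_left _ _)) s0.le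
  have hε3 : ε / eR ≤ sm 300 d := by
    rw [div_le_iff₀ heR, hε]
    exact mul_le_mul_of_nonneg_left ((min_le_right _ _).trans (min_le_right _ _)) s0.le
  obtain ⟨⟨hO, hG⟩, hB, hβ, -, hT, hc2, -⟩ := hE
  have hL := hh.1 P hO
  obtain ⟨g0, -, g1, -, g2, -⟩ := hh.2 P hO
  have : Nonempty E := ⟨P.e⟩
  have : Nonempty V := ⟨w0 (P.e, true)⟩
  have hWB : WidB P d s e := fun w S S' D I γ a1 a2 a3 a4 a5 a6 a7 =>
    let h := hW V E P w S S' D I γ hO hL a1 a2 a3 a4 a5 a6 (Or.inr a7)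
    ⟨h.2.1, h.2.2.2.2.1⟩
  have hs' : Real.sqrt s / (5 * z1 d) ^ 2 ≤ sm (7 * P.β + 200) d := by
    rw [div_le_iff₀ (by positivity), hβ]
    exact Real.sqrt_le_iff.2 ⟨hq0.le, hs ▸ min_le_right _ _⟩
  obtain ⟨L, hLe⟩ : ∃ L, L = K * (lam + ell d) := ⟨_, rfl⟩
  obtain ⟨Q, hQ⟩ : ∃ Q, Q = K * Real.exp (-(lam / 500000) + 2 * d * z1 d + K * P.y * (lam + ell d)) :=
    ⟨_, rfl⟩
  have hQ0 : 0 ≤ Q := hQ ▸ mul_nonneg (zero_le_one.trans hK) (Real.exp_pos _).le
  have hi : (0 : ℝ) < 1 / (d : ℝ) ^ 10 := by positivity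
  have hi2 : (0 : ℝ) < 2 / (d : ℝ) ^ 10 := by positivity
  have b1 : ∀ v w J, 0 ≤ F1 P d lam v w J ∧ F1 P d lam v w J ≤ 1 := fun v w J =>
    P_bd hL w J fun _ _ => VT2J.ind2 _ _
  have b2 : ∀ v w J, 0 ≤ F2 P d lam L v w J ∧ F2 P d lam L v w J ≤ 1 := fun v w J =>
    P_bd hL w J fun _ _ => mul_assoc (ind _) (ind _) (ind _) ▸ VT2J.ind3 _ _ _
  have b3 : ∀ w J, 0 ≤ F3 P e w J ∧ F3 P e w J ≤ 1 := fun w J =>
    P_bd hL w J fun _ _ => ⟨ind_nonneg _, ind_le_one _⟩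
  have b4 : ∀ v w J, 0 ≤ F4 P L v w J ∧ F4 P L v w J ≤ 1 := fun v w J =>
    P_bd hL w J fun _ _ => ⟨ind_nonneg _, ind_le_one _⟩
  have c3 : ED w0 (F3 P e) ≤ sm 300 d :=
    (mean3 hL he).trans ((div_le_div_of_nonneg_right hc2 he.le).trans hε2)
  have cX : (ED w0 fun w J => (P.full w J).P fun g σ =>
      ind (¬ (P.full w J).Good c' cp (qq d) g σ)) / eR ≤ sm 300 d :=
    (div_le_div_of_nonneg_right hG heR.le).trans hε3
  have st : ∀ v, ED w0 (F1 P d lam v) ≤ Q * min 1 (ED w0 (F4 P L v) + (sm 298 d + 2 / (d : ℝ) ^ 10))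
        + (PD w0 (fun w _ => ¬ P.Gw d w v) + (1 / (d : ℝ) ^ 10 + 2 * sm 298 d + 2 * sm 300 d)) ∧
      ED w0 (F2 P d lam L v) ≤
        PD w0 (fun w _ => ¬ P.Gw d w v) + (1 / (d : ℝ) ^ 10 + 2 * sm 298 d + 2 * sm 300 d) := by
    intro v
    obtain ⟨pos, hp⟩ := hPos V E d v
    have ex := fun F hF => exch (F := F) hVX hw0 hL hp (fun w => g1 w v) (g2 v) hF
    have on := fun w J (hw : Deg w d) (hg : P.Gw d w v) hx =>
      one hInsCav hSymCav hOver hTower hO hL hB hWB (hs ▸ min_le_left _ _) hs' hlam hw hg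
        (g1 w v hg) (hp.1 w hw).1 (hp.1 w hw).2 ((hRig V E P w J c' cp hO hL hw hx).2.2 v)
        (hVT _ _ _)
    rw [← hQ, ← hLe] at on
    have hX : ∀ w J, 0 ≤ (P.full w J).P fun g σ => ind (¬ (P.full w J).Good c' cp (qq d) g σ) :=
      fun w J => (P_bd hL w J fun _ _ => ⟨ind_nonneg _, ind_le_one _⟩).1
    constructor
    · have a1 := stepB (G := fun w => P.Gw d w v) (M := fun w J => Q * min 1
          (ind (P.Gw d w v) * TT P (pos w) (F4 P L v) w J + 2 / (d : ℝ) ^ 10) + 1 / (d : ℝ) ^ 10)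
        hw0 (fun w J => (b1 v w J).2) (fun w J => (TT_bd (b1 v) _ w J).2) (fun w J => (b3 w J).1)
        (fun w J => (TT_bd b3 _ w J).1) hX (fun w J => add_nonneg (mul_nonneg hQ0 (le_min
          zero_le_one (add_nonneg (mul_nonneg (ind_nonneg _) (TT_bd (b4 v) _ w J).1) hi2.le)))
          hi.le) heR (ex _ (b1 v)) (ex _ b3) fun w J hw hg hx => by
            rw [ind_pos hg, one_mul]
            exact (on w J hw hg hx).1
      rw [ED_add, ED_mul, ED_const] at a1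
      have a2 := ED_min (w0 := w0) fun w J =>
        ind (P.Gw d w v) * TT P (pos w) (F4 P L v) w J + 2 / (d : ℝ) ^ 10
      rw [ED_add, ED_const] at a2
      have a3 : (ED w0 fun w J => ind (P.Gw d w v) * F4 P L v w J) ≤ ED w0 (F4 P L v) :=
        ED_mono fun w J => mul_le_of_le_one_left (b4 v w J).1 (ind_le_one _)
      have a4 := mul_le_mul_of_nonneg_left (a2.trans (min_le_min le_rfl
        (show _ ≤ ED w0 (F4 P L v) + (sm 298 d + 2 / (d : ℝ) ^ 10) by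
          linarith [(abs_le.1 (ex _ (b4 v))).1]))) hQ0
      linarith
    · have a1 := stepB (G := fun w => P.Gw d w v) (M := fun _ _ => 1 / (d : ℝ) ^ 10)
        hw0 (fun w J => (b2 v w J).2) (fun w J => (TT_bd (b2 v) _ w J).2) (fun w J => (b3 w J).1)
        (fun w J => (TT_bd b3 _ w J).1) hX (fun _ _ => hi.le) heR (ex _ (b2 v)) (ex _ b3)
        fun w J hw hg hx => (on w J hw hg hx).2
      rw [ED_const] at a1
      linarith
  have n1 : sm 300 d ≤ sm 298 d := sm_anti (by norm_num) d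
  have n2 : 2 * sm 298 d ≤ 1 / (d : ℝ) ^ 10 := by
    linarith [sm_anti (show (280 : ℝ) ≤ 298 by norm_num) d, VT2J.sm_le (d := d) (by omega),
      VT2J.two_le (d := d) (by omega)]
  have n3 : 2 * (2 * d + 1) * qq d ^ 2 ≤ sm 298 d := by
    have hq : qq d ≤ sm 300 d := hL.2.2.2.2.2.2.1
    have q0 : 0 < qq d := Real.exp_pos _
    have q1 : qq d ≤ 1 / 4 := hq.trans ((sm_le_inv (by norm_num) hd3).trans
      (one_div_le_one_div_of_le (by norm_num) (by linarith)))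
    have q2 := mul_sm_le (a := d + 1) 299 hd3 le_rfl
    have q3 : sm 299 d ≤ sm 298 d := sm_anti (by norm_num) d
    have q4 := mul_le_mul_of_nonneg_left hq (show (0 : ℝ) ≤ d + 1 by linarith)
    have q5 := mul_le_mul_of_nonneg_left q1 (show (0 : ℝ) ≤ 2 * (2 * d + 1) * qq d by positivity)
    norm_num at q2
    nlinarith
  have e2 : (2 : ℝ) / (d : ℝ) ^ 10 = 2 * (1 / (d : ℝ) ^ 10) := by ring
  have e4 : (4 : ℝ) / (d : ℝ) ^ 10 = 4 * (1 / (d : ℝ) ^ 10) := by ring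
  have e5 : (5 : ℝ) / (d : ℝ) ^ 10 = 5 * (1 / (d : ℝ) ^ 10) := by ring
  rw [mean1, mean2, ← hQ, ← hLe]
  have m1 := avg_mono fun v => (st v).1
  have m2 := avg_mono fun v => (st v).2
  simp only [avg_add, avg_mul, avg_const] at m1 m2
  have m3 := avg_min fun v => ED w0 (F4 P L v) + (sm 298 d + 2 / (d : ℝ) ^ 10)
  rw [avg_add, avg_const] at m3
  have m4 := mul_le_mul_of_nonneg_left (m3.trans (min_le_min le_rfl
    (show _ ≤ rL d r L + 4 / (d : ℝ) ^ 10 by linarith [mean4 hPAR hw0 hL hr L]))) hQ0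
  constructor <;> linarith

end Pool.Agent.MP_32a90a_pr.D

end

section

set_option autoImplicit false

namespace Pool.Agent.MP_32a90a_pr.D

open Finset Equiv Filter Pool.Agent.MP_32a90a_pr Pool.Agent.MP_32a90a_pr.L

namespace DiamJ

variable {Sg Gm Nd ι : Type} [Fintype Sg] [Fintype Gm] [Fintype ι]

omit [Fintype Sg] in
lemma fr_tri (ph : ι → Sg → Bool) (σ σ' r : Sg) : fr ph σ σ' ≤ fr ph σ r + fr ph σ' r := by
  unfold fr
  rw [← avg_add]
  refine avg_mono fun u => ?_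
  cases ph u σ <;> cases ph u σ' <;> cases ph u r <;> simp [ind]

lemma two_ref {ν μ : Sg → ℝ} (hν : Prob ν) (hμ : Prob μ) (ph : ι → Sg → Bool) (z : ℝ) :
    (E2 ν ν fun σ σ' => ind (6 * z < fr ph σ σ')) ≤
      2 * Ex ν fun σ => Ex μ fun r => ind (3 * z < fr ph σ r) := by
  have h1 : (E2 ν ν fun σ σ' => ind (6 * z < fr ph σ σ')) ≤ Ex ν fun σ => Ex ν fun σ' =>
      (Ex μ fun r => ind (3 * z < fr ph σ r)) + Ex μ fun r => ind (3 * z < fr ph σ' r) := by
    refine Ex_mono hν.1 fun σ => Ex_mono hν.1 fun σ' => ?_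
    rw [← Ex_add]
    refine hμ.le_Ex fun r => le_trans (ind_mono fun h => ?_) (ind_or_le _ _)
    by_contra h2
    push Not at h2
    linarith [fr_tri ph σ σ' r, h2.1, h2.2]
  simp only [Ex_add, hν.Ex_const] at h1
  linarith

lemma sqrt_le {c δ : ℝ} (hc : 0 ≤ c) (hδ : 0 < δ) : Real.sqrt c ≤ δ + c / δ := by
  rw [add_div' _ _ _ hδ.ne', le_div_iff₀ hδ]
  nlinarith [Real.sq_sqrt hc, sq_nonneg (Real.sqrt c - δ), Real.sqrt_nonneg c]

lemma core [Nonempty Sg] [Nonempty ι] (hOver : StOver) (hT : StTower) (C : Cas Sg Gm) (hO : C.Ok)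
    (hp : ∀ γ, 0 < C.p γ) (nd : Gm → Nd) (ph : ι → Sg → Bool) (Ev : Nd → Prop) {z δ : ℝ}
    (hz : 0 < z) (hδ : 0 < δ) (hEv : ∀ n, Ev n → zz (C.mu nd n) ph ≤ 2 * z) :
    (C.P fun g _ => ind (Ev (nd g)) * E2 (C.nu g) (C.nu g) fun σ σ' => ind (6 * z < fr ph σ σ'))
      ≤ 2 / z ^ 2 * (δ + (C.EN nd fun n => c2 (C.mu nd n) ph) / δ) := by
  obtain ⟨h1, h2, -⟩ := hT Sg Gm Nd C nd hO
  have h3 := (h2 fun n σ => ind (Ev n) * Ex (C.mu nd n) fun r => ind (3 * z < fr ph σ r)).2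
  rw [← Cas.P_Ex] at h3
  have h4 : (C.P fun g _ =>
      ind (Ev (nd g)) * E2 (C.nu g) (C.nu g) fun σ σ' => ind (6 * z < fr ph σ σ')) ≤
      C.P fun g _ => 2 * Ex (C.nu g) fun σ =>
        ind (Ev (nd g)) * Ex (C.mu nd (nd g)) fun r => ind (3 * z < fr ph σ r) := by
    refine Cas.P_mono hO fun g _ => ?_
    rw [Ex_mul, mul_left_comm]
    exact mul_le_mul_of_nonneg_left (two_ref (Cas.nu_prob g) (h1 g (hp g)) ph z) (ind_nonneg _)
  have h5 : (C.EN nd fun n => Ex (C.mu nd n) fun σ =>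
      ind (Ev n) * Ex (C.mu nd n) fun r => ind (3 * z < fr ph σ r)) ≤
      C.P fun g _ => 1 / z ^ 2 * (δ + c2 (C.mu nd (nd g)) ph * δ⁻¹) := by
    refine Cas.P_mono hO fun g _ => ?_
    have hμ := h1 g (hp g)
    have hc : 0 ≤ c2 (C.mu nd (nd g)) ph := avg_nonneg fun _ => avg_nonneg fun _ => sq_nonneg _
    simp only [Ex_mul]
    by_cases hE : Ev (nd g)
    · rw [ind_pos hE, one_mul, one_div, mul_comm (z ^ 2)⁻¹, ← div_eq_mul_inv, ← div_eq_mul_inv]
      refine le_trans (Ex_mono hμ.1 fun σ => Ex_mono hμ.1 fun r => ind_mono fun h => ?_)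
        (((hOver Sg ι _ ph hμ).2.2.1 z hz).trans
          (div_le_div_of_nonneg_right (sqrt_le hc hδ) (sq_nonneg z)))
      exact le_trans (by linarith [hEv _ hE]) (le_abs_self _)
    · rw [ind_neg hE, zero_mul]
      positivity
  rw [Cas.P_mul, h3] at h4
  rw [Cas.P_mul, Cas.P_add, Cas.P_const hO, Cas.P_mul_right] at h5
  refine h4.trans ((mul_le_mul_of_nonneg_left h5 zero_le_two).trans (le_of_eq ?_))
  unfold Cas.EN
  ring

lemma dif_iff {V : Type} [Fintype V] [Nonempty V] (t : ℝ) (σ σ' : V → Bool) :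
    t * Fintype.card V < ((dif σ σ').card : ℝ) ↔ t < fr crd σ σ' := by
  have hN : (0 : ℝ) < Fintype.card V := by exact_mod_cast Fintype.card_pos
  rw [fr, avg, sum_ind, lt_div_iff₀ hN]
  rfl

end DiamJ

open DiamJ in
theorem stDiam (hPar : StPar) (hOver : StOver) (hTower : StTower) : StDiam := by
  filter_upwards [hPar, eventually_ge_atTop 3] with d hP hd η hη
  have hz : 0 < z1 d := by
    have h1 : (3 : ℝ) ≤ d := by exact_mod_cast hd
    exact div_pos (Real.rpow_pos_of_pos (lt_of_lt_of_le one_pos (one_le_log hd)) _) (by linarith)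
  obtain ⟨δ, hδ, hδ'⟩ : ∃ δ : ℝ, 0 < δ ∧ 2 / z1 d ^ 2 * (δ + δ) = η :=
    ⟨η * z1 d ^ 2 / 4, by positivity, by field_simp; ring⟩
  refine ⟨δ * δ, mul_pos hδ hδ,
    (hP.and (Big.card d (fun N => 1 ≤ N) (eventually_ge_atTop 1))).mono ?_⟩
  rintro V E _ _ _ _ w0 - ⟨hL, hN⟩ P lam hOk hε
  have : Nonempty V := Fintype.card_pos_iff.1 hN
  have h1 : (P.EV d lam w0 fun _ _ ν _ => E2 ν ν fun σ σ' =>
      ind (6 * z1 d * Fintype.card V < ((dif σ σ').card : ℝ))) ≤ ED w0 fun w J =>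
        2 / z1 d ^ 2 * (δ + ((P.full w J).EN (rS P.T) fun n => c2 (P.mu w J n) crd) / δ) := by
    unfold Pk.EV Pk.EQ
    refine ED_mono fun w J => ?_
    have h2 : (P.full w J).Par d := (hL P hOk).2.1 _ _ _
    simp only [dif_iff]
    exact core hOver hTower (P.full w J).cas (h2.ok hd) (Sys.p_pos h2.2.2.2.2.1 (h2.rho_lt hd))
      (fun g => rS P.T g.1) crd (fun n => P.Ev d lam 2 w (P.mu w J n)) hz hδ
      fun n hn => hn.1.trans (by linarith)
  rw [ED_mul, ED_add, ED_const, ED_div] at h1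
  refine h1.trans (le_trans (mul_le_mul_of_nonneg_left ?_ (by positivity)) hδ'.le)
  exact add_le_add_right ((div_le_iff₀ hδ).2 hε) δ

end Pool.Agent.MP_32a90a_pr.D

end

section

set_option autoImplicit false

namespace Pool.Agent.MP_32a90a_pr.D

open Finset Equiv Filter Pool.Agent.MP_32a90a_pr Pool.Agent.MP_32a90a_pr.L

namespace FlexUpJ

lemma k0_ok : ∀ᶠ d : ℕ in atTop, 1 ≤ k0 d (z1 d) ∧ 16 * k0 d (z1 d) ≤ Lam d / 20 := by
  have t1 : Tendsto ell atTop atTop := Real.tendsto_log_atTop.comp tendsto_natCast_atTop_atTop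
  have t2 : Tendsto lll atTop atTop := Real.tendsto_log_atTop.comp t1
  filter_upwards [t1.eventually_gt_atTop 1, t2.eventually_ge_atTop (5120 ^ 2),
    eventually_gt_atTop 0] with d h1 h2 h3
  have hd : (0 : ℝ) < d := by exact_mod_cast h3
  have hl : 0 < ell d := by linarith
  have h4 : lll d ≤ ell d := (Real.log_le_sub_one_of_pos hl).trans (by linarith)
  have e1 : 6 * d * z1 d = 6 * ell d ^ (3 / 4 : ℝ) := by
    unfold z1
    field_simp
  have e2 : Real.log (ell d / (6 * d * z1 d)) = lll d / 4 - Real.log 6 := by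
    rw [e1, Real.log_div hl.ne' (by positivity), Real.log_mul (by norm_num) (by positivity),
      Real.log_rpow hl]
    show lll d - (Real.log 6 + 3 / 4 * lll d) = _
    ring
  have h6 : Real.log 6 ≤ 5 := (Real.log_le_sub_one_of_pos (by norm_num)).trans (by norm_num)
  have h7 : lll d / 5 ≤ lll d / 4 - Real.log 6 := by linarith
  have h8 : 0 < lll d := by linarith
  have hs : 5120 ≤ Real.sqrt (lll d) := Real.le_sqrt_of_sq_le h2
  have hs2 := Real.mul_self_sqrt h8.le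
  unfold k0 Lam
  rw [e2]
  refine ⟨le_add_of_nonneg_right (div_nonneg (by linarith) (by linarith)), ?_⟩
  have h9 : 3 * ell d / (lll d / 4 - Real.log 6) ≤ 3 * ell d / (lll d / 5) :=
    div_le_div_of_nonneg_left (by linarith) (by linarith) h7
  have h10 : 1 ≤ ell d / lll d := (one_le_div h8).2 h4
  have h11 : 3 * ell d / (lll d / 5) = 15 * (ell d / lll d) := by
    field_simp
    norm_num
  have h12 : 5120 * (ell d / lll d) ≤ ell d / Real.sqrt (lll d) := by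
    rw [← mul_div_assoc, div_le_div_iff₀ h8 (by linarith)]
    have := mul_le_mul_of_nonneg_right hs (mul_nonneg hl.le (Real.sqrt_nonneg (lll d)))
    nlinarith
  linarith

lemma sm_pow {d : ℕ} (hd : 3 ≤ d) : 4 * sm 300 d ≤ 1 / (d : ℝ) ^ 10 := by
  have h3 : (3 : ℝ) ≤ d := by exact_mod_cast hd
  have h1 := mul_sm_le (a := 4) 10 hd (by linarith)
  have h2 := sm_anti (k := 10 + 1) (k' := 300) (by norm_num) d
  have h4 : sm 10 d ≤ 1 / (d : ℝ) ^ 10 := by
    have e : 1 / (d : ℝ) ^ 10 = Real.exp (-(10 * Real.log d)) := by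
      rw [Real.exp_neg, one_div, show (10 : ℝ) * Real.log d = ((10 : ℕ) : ℝ) * Real.log d by simp,
        Real.exp_nat_mul, Real.exp_log (by linarith)]
    rw [e]
    refine Real.exp_le_exp.2 (neg_le_neg ?_)
    nlinarith [one_le_log hd]
  linarith

lemma qq_small {d : ℕ} (hd : 1000 ≤ d) : 2 * (2 * d + 1) * qq d ≤ 1 := by
  have h0 : (1000 : ℝ) ≤ d := by exact_mod_cast hd
  have h1 := Real.add_one_le_exp ((d : ℝ) ^ 2 / 4)
  rw [qq, Real.exp_neg, ← div_eq_mul_inv, div_le_one (Real.exp_pos _)]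
  nlinarith

lemma t_le {q : ℝ} (h0 : 0 < q) (h1 : q ≤ 1) : Real.exp (-(2 * (1 / q ^ 4))) ≤ q := by
  have h2 := Real.add_one_le_exp (2 * (1 / q ^ 4))
  have h3 : 1 / q ≤ 1 / q ^ 4 :=
    one_div_le_one_div_of_le (by positivity) (pow_le_of_le_one h0.le h1 (by norm_num))
  have h4 : 0 < 1 / q := by positivity
  rw [Real.exp_neg, inv_le_comm₀ (Real.exp_pos _) h0, ← one_div]
  linarith

variable {V E : Type} [Fintype V] [DecidableEq V] [Fintype E] [DecidableEq E]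

omit [DecidableEq V] in
lemma card_avg (X : Finset V) : (X.card : ℝ) / Fintype.card V = avg fun v => ind (v ∈ X) := by
  classical
  unfold avg
  rw [sum_ind]
  simp

lemma point [Nonempty V] (hPair : StPair) (hPAR : StPAR) {d : ℕ} {C c ε t j L : ℝ}
    {r : Bool → ℤ → ℝ} {Z A : Finset E} {w : E × Bool → V} (J : E → Bool) {ν : (V → Bool) → ℝ}
    (σ : V → Bool) (hw : Deg w d) (k1 : 1 ≤ k0 d (z1 d)) (k2 : 16 * k0 d (z1 d) ≤ j) (e0 : 0 ≤ ε)
    (e1 : ε ≤ z1 d) (hz : 1 ≤ z1 d * Fintype.card V) (hν : Prob ν) (t0 : 0 < t) (t1 : t ≤ 1)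
    (hr : ∀ b l, 0 ≤ r b l) (hq : 2 * (2 * d + 1) * qq d ^ 2 ≤ 1 / (d : ℝ) ^ 10) :
    ((flex ν (t ^ 3)).card : ℝ) / Fintype.card V
      ≤ (ind (¬ Typ d C c ε Z A w J) + ind (¬ Tp d r (cp Z A ∅ J) w σ)
          + (ε + 1 / Fintype.card V + t + ε / t ^ 3))
        + ((2 + min 1 (rL d r L + 1 / (d : ℝ) ^ 10) / z1 d) *
            (((bad0 w ν (t ^ 4) j).card : ℝ) / Fintype.card V)
          + d / t ^ 3 * (E2 ν ν fun σ σ' =>
              ind (6 * z1 d * Fintype.card V < ((dif σ σ').card : ℝ)))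
          + avg fun v => ind (v ∈ flex ν (t ^ 4)) * ind (L < |loc (cp Z A ∅ J) w σ v|)) := by
  have hN : (0 : ℝ) < Fintype.card V := by exact_mod_cast Fintype.card_pos
  have hz0 : 0 < z1 d := by
    by_contra h
    nlinarith [not_lt.1 h]
  have hM : 0 ≤ min 1 (rL d r L + 1 / (d : ℝ) ^ 10) :=
    le_min zero_le_one (add_nonneg (SmallJ.rL_nonneg hr L) (by positivity))
  have n1 := ind_nonneg (¬ Typ d C c ε Z A w J)
  have n2 := ind_nonneg (¬ Tp d r (cp Z A ∅ J) w σ)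
  have n3 : 0 ≤ ε + 1 / Fintype.card V + t + ε / t ^ 3 := by positivity
  have n4 : 0 ≤ ((bad0 w ν (t ^ 4) j).card : ℝ) / Fintype.card V := by positivity
  have n5 : 0 ≤ E2 ν ν fun σ σ' => ind (6 * z1 d * Fintype.card V < ((dif σ σ').card : ℝ)) :=
    Ex_nonneg hν.1 fun _ => Ex_nonneg hν.1 fun _ => ind_nonneg _
  have n6 : 0 ≤ avg fun v => ind (v ∈ flex ν (t ^ 4)) * ind (L < |loc (cp Z A ∅ J) w σ v|) :=
    avg_nonneg fun _ => mul_nonneg (ind_nonneg _) (ind_nonneg _)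
  have n7 := mul_nonneg (div_nonneg hM hz0.le) n4
  have n8 := mul_nonneg (show (0 : ℝ) ≤ d / t ^ 3 by positivity) n5
  rw [add_mul]
  by_cases hb : ((bad0 w ν (t ^ 4) j).card : ℝ) ≤ z1 d * Fintype.card V
  · by_cases hT : Typ d C c ε Z A w J
    · have h := hPair V E d w ν (z1 d) ε t j _ hw hT.1 k1 k2 e0 e1 hz hν t0 t1 hb le_rfl
      generalize (E2 ν ν fun σ σ' => ind (6 * z1 d * Fintype.card V < ((dif σ σ').card : ℝ))) = e
        at h n8 ⊢
      have h2 := div_le_div_of_nonneg_right h hN.le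
      have h3 : (2 * ((bad0 w ν (t ^ 4) j).card : ℝ) + ε * Fintype.card V + 1
          + (t + (ε + e * d) / t ^ 3) * Fintype.card V) / Fintype.card V
          = 2 * (((bad0 w ν (t ^ 4) j).card : ℝ) / Fintype.card V)
            + (ε + 1 / Fintype.card V + t + ε / t ^ 3) + d / t ^ 3 * e := by
        field_simp
        ring
      linarith
    · rw [ind_pos hT]
      have h2 : ((flex ν (t ^ 3)).card : ℝ) / Fintype.card V ≤ 1 := by
        rw [div_le_one hN]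
        exact_mod_cast card_le_univ _
      linarith
  · have h1 : ((flex ν (t ^ 3)).card : ℝ) / Fintype.card V
        ≤ (avg fun v => ind (v ∈ flex ν (t ^ 4)) * ind (L < |loc (cp Z A ∅ J) w σ v|))
          + avg fun v => ind (loc (cp Z A ∅ J) w σ v ≤ L) := by
      rw [card_avg, ← avg_add]
      refine avg_mono fun v => ?_
      rw [← ind_and]
      refine (ind_mono fun h => ?_).trans (ind_or_le _ _)
      by_cases hl : loc (cp Z A ∅ J) w σ v ≤ L
      · exact Or.inr hl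
      · refine Or.inl ⟨?_, (not_le.1 hl).trans_le (le_abs_self _)⟩
        unfold flex at h ⊢
        rw [mem_filter] at h ⊢
        exact ⟨h.1, (pow_le_pow_of_le_one t0.le t1 (by norm_num)).trans h.2⟩
    have h2 := SmallJ.soft hPAR (Z := Z) (A := A) (J := J) hw hr L σ
    have h3 : (avg fun v => ind (loc (cp Z A ∅ J) w σ v ≤ L)) ≤ 1 :=
      avg_le_const zero_le_one fun _ => ind_le_one _
    have h4 : (avg fun v => ind (loc (cp Z A ∅ J) w σ v ≤ L))
        ≤ min 1 (rL d r L + 1 / (d : ℝ) ^ 10) + ind (¬ Tp d r (cp Z A ∅ J) w σ) := by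
      rcases min_choice 1 (rL d r L + 1 / (d : ℝ) ^ 10) with h | h <;> rw [h] <;> linarith
    have h5 : z1 d ≤ ((bad0 w ν (t ^ 4) j).card : ℝ) / Fintype.card V := by
      rw [le_div_iff₀ hN]
      exact (not_le.1 hb).le
    have h6 := mul_le_mul_of_nonneg_left h5 (div_nonneg hM hz0.le)
    rw [div_mul_cancel₀ _ hz0.ne'] at h6
    linarith

variable {P : Pk V E} {d : ℕ} {w0 : E × Bool → V}

lemma ok (h : P.Lg d) (w : E × Bool → V) (J : E → Bool) : (P.full w J).cas.Ok :=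
  (h.2.1 _ _ _).ok (by have := h.1; omega)

lemma EQ_mono (h : P.Lg d) (hw : Deg w0 d) {F G : (E × Bool → V) → (E → Bool) →
    Gam (V → Bool) (cav P.U) → (V → Bool) → ℝ}
    (hFG : ∀ w J g σ, Deg w d → F w J g σ ≤ G w J g σ) : P.EQ w0 F ≤ P.EQ w0 G :=
  ED_mono_deg hw fun w J hw => Cas.P_mono (ok h w J) fun g σ => hFG w J g σ hw

lemma EQ_add (F G : (E × Bool → V) → (E → Bool) →
    Gam (V → Bool) (cav P.U) → (V → Bool) → ℝ) :
    P.EQ w0 (fun w J g σ => F w J g σ + G w J g σ) = P.EQ w0 F + P.EQ w0 G := by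
  unfold Pk.EQ
  rw [← ED_add]
  congr 1
  funext w J
  exact Cas.P_add _ _

lemma EQ_mul (c : ℝ) (F : (E × Bool → V) → (E → Bool) →
    Gam (V → Bool) (cav P.U) → (V → Bool) → ℝ) :
    P.EQ w0 (fun w J g σ => c * F w J g σ) = c * P.EQ w0 F := by
  unfold Pk.EQ
  rw [← ED_mul]
  congr 1
  funext w J
  exact Cas.P_mul _ _

lemma EQ_dis (h : P.Lg d) (f : (E × Bool → V) → (E → Bool) → ℝ) :
    P.EQ w0 (fun w J _ _ => f w J) = ED w0 f := by
  unfold Pk.EQ
  congr 1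
  funext w J
  exact Cas.P_const (ok h w J) _

end FlexUpJ

open FlexUpJ in
theorem stFlexUp (hPar : StPar) (hPair : StPair) (hDiam : StDiam) (hPAR : StPAR) :
    StFlexUp := by
  intro C c hT
  filter_upwards [hT, hPar, hDiam, k0_ok, eventually_ge_atTop 1000] with d hT hP hD hk hd
  have hd3 : 3 ≤ d := by omega
  have hd0 : (1000 : ℝ) ≤ d := by exact_mod_cast hd
  obtain ⟨t, ht⟩ : ∃ t, t = Real.exp (-(2 * (1 / qq d ^ 4))) := ⟨_, rfl⟩
  obtain ⟨δ, hδ⟩ : ∃ δ, δ = 1 / (d : ℝ) ^ 10 := ⟨_, rfl⟩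
  have t0 : 0 < t := ht ▸ Real.exp_pos _
  have δ0 : 0 < δ := by rw [hδ]; positivity
  have hz : 1 / (d : ℝ) ≤ z1 d := div_le_div_of_nonneg_right
    (Real.one_le_rpow (one_le_log hd3) (by norm_num)) (by linarith)
  have hz0 : 0 < z1 d := lt_of_lt_of_le (by positivity) hz
  obtain ⟨ε1, e0, e1, e2⟩ : ∃ ε1 : ℝ, 0 < ε1 ∧ ε1 ≤ z1 d ∧ 2 * ε1 + ε1 / t ^ 3 ≤ δ / 2 := by
    refine ⟨min (z1 d) (δ / 2 / (2 + 1 / t ^ 3)), lt_min hz0 (by positivity), min_le_left _ _, ?_⟩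
    have h1 := (le_div_iff₀ (show 0 < 2 + 1 / t ^ 3 by positivity)).1
      (min_le_right (z1 d) (δ / 2 / (2 + 1 / t ^ 3)))
    rw [mul_add, mul_one_div] at h1
    linarith
  obtain ⟨ε2, f0, f1⟩ := hD (δ / 4 / (d / t ^ 3)) (by positivity)
  refine ⟨min ε2 (δ / 4), lt_min f0 (by positivity), ((hT ε1 e0).and (hP.and f1)).mono ?_⟩
  rintro V E _ _ _ _ w0 hw ⟨b1, b2, b3⟩ P r c' cp lam L b a hE hlam hr hb ha
  obtain ⟨⟨hO, -⟩, -, hβ, -, hTp, hc2, -⟩ := hE
  have hL := b2 P hO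
  obtain ⟨-, -, l3, -, -, -, l7, -, -, -, l11⟩ := id hL
  have hN : (0 : ℝ) < Fintype.card V := by
    by_contra h
    nlinarith [not_lt.1 h, sm_pos 300 d]
  have : Nonempty V := Fintype.card_pos_iff.1 (by exact_mod_cast hN)
  have s1 := sm_pow hd3
  rw [← hδ] at s1 ⊢
  have q0 : 0 < qq d := Real.exp_pos _
  have q1 : qq d ≤ 1 := l7.trans (sm_le_one (by norm_num) d)
  have t1 : t ≤ qq d := ht ▸ t_le q0 q1
  have hq : 2 * (2 * d + 1) * qq d ^ 2 ≤ 1 / (d : ℝ) ^ 10 := by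
    have := mul_le_mul_of_nonneg_right (qq_small hd) q0.le
    rw [← hδ]
    nlinarith
  have hzN : 1 ≤ z1 d * Fintype.card V := by
    refine l11.trans (mul_le_mul_of_nonneg_right ?_ hN.le)
    refine (sm_le_inv (by norm_num) hd3).trans (le_trans ?_ hz)
    exact one_div_le_one_div_of_le (by linarith) (by linarith)
  have hN1 : 1 / (Fintype.card V : ℝ) ≤ sm 300 d := by
    rw [div_le_iff₀ hN]
    exact l11
  have p3 : Real.exp (-(6 * P.β)) = t ^ 3 := by
    rw [ht, hβ, ← Real.exp_nat_mul]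
    congr 1
    push_cast
    ring
  have p4 : Real.exp (-(8 * P.β)) = t ^ 4 := by
    rw [ht, hβ, ← Real.exp_nat_mul]
    congr 1
    push_cast
    ring
  rw [p4] at hb ha
  rw [p3]
  have hDi := b3 P lam hO (hc2.trans (min_le_left _ _))
  have hTy := b1 P.Z P.A l3
  have hM : 0 ≤ min 1 (rL d r L + δ) :=
    le_min zero_le_one (add_nonneg (SmallJ.rL_nonneg hr L) δ0.le)
  obtain ⟨c0, hc0⟩ : ∃ c0, c0 = ε1 + 1 / Fintype.card V + t + ε1 / t ^ 3 := ⟨_, rfl⟩
  have main := EQ_mono hL hw (F := fun w J g _ =>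
      ind (P.Ev d lam 2 w (P.mu w J (rS P.T g.1))) *
        (((flex ((P.full w J).nu g) (t ^ 3)).card : ℝ) / Fintype.card V))
    (G := fun w J g σ => (ind (¬ Typ d C c ε1 P.Z P.A w J) + ind (¬ Tp d r (P.s J) w σ) + c0)
        + ((2 + min 1 (rL d r L + δ) / z1 d) * (ind (P.Ev d lam 2 w (P.mu w J (rS P.T g.1))) *
            (((bad0 w ((P.full w J).nu g) (t ^ 4) (lam / 20)).card : ℝ) / Fintype.card V))
          + d / t ^ 3 * (ind (P.Ev d lam 2 w (P.mu w J (rS P.T g.1))) *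
              E2 ((P.full w J).nu g) ((P.full w J).nu g) fun σ σ' =>
              ind (6 * z1 d * Fintype.card V < ((dif σ σ').card : ℝ)))
          + ind (P.Ev d lam 2 w (P.mu w J (rS P.T g.1))) *
            avg fun v => ind (v ∈ flex ((P.full w J).nu g) (t ^ 4)) *
              ind (L < |loc (P.s J) w σ v|))) (by
      intro w J g σ hw
      rcases ind_cases (P.Ev d lam 2 w (P.mu w J (rS P.T g.1))) with h | h <;> rw [h]
      · simp only [zero_mul, mul_zero, add_zero]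
        exact add_nonneg (add_nonneg (ind_nonneg _) (ind_nonneg _)) (by rw [hc0]; positivity)
      · simp only [one_mul]
        rw [hδ, hc0]
        exact point hPair hPAR J σ hw hk.1 (by linarith [hk.2]) e0.le e1 hzN (Cas.nu_prob g) t0
          (t1.trans q1) hr hq)
  rw [EQ_add, EQ_add, EQ_add, EQ_add, EQ_add, EQ_mul, EQ_mul, EQ_dis hL,
    EQ_dis hL fun _ _ => c0, ED_const] at main
  have m1 := mul_le_mul_of_nonneg_left hb
    (show 0 ≤ 2 + min 1 (rL d r L + δ) / z1 d by positivity)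
  have m2 := mul_le_mul_of_nonneg_left hDi (show (0 : ℝ) ≤ d / t ^ 3 by positivity)
  rw [mul_div_cancel₀ _ (show (0 : ℝ) < d / t ^ 3 by positivity).ne'] at m2
  have m3 := hTp.trans (min_le_right _ _)
  have m4 : (2 + min 1 (rL d r L + δ) / z1 d) * b
      = 2 * b + b / z1 d * min 1 (rL d r L + δ) := by ring
  have m5 : 2 / (d : ℝ) ^ 10 = 2 * δ := by rw [hδ]; ring
  unfold Pk.EV at m1 m2 ha ⊢
  unfold PD at hTy
  rw [m5]
  linarith

end Pool.Agent.MP_32a90a_pr.D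

end

section

set_option autoImplicit false

namespace Pool.Agent.MP_32a90a_pr.D

open Finset Equiv Filter Pool.Agent.MP_32a90a_pr Pool.Agent.MP_32a90a_pr.L

namespace L2J

lemma kt_nn {Sg Gm Nd : Type} [Fintype Sg] [Nonempty Sg] [Fintype Gm] {C : Cas Sg Gm} (h : C.Ok)
    (nd : Gm → Nd) (n : Nd) (φ : Sg → Bool) : 0 ≤ kt (C.mu nd n) φ := by
  have h0 : ∀ σ, 0 ≤ C.mu nd n σ := fun σ =>
    div_nonneg (Cas.E_nonneg h fun _ _ => ind_nonneg _) (Cas.E_nonneg h fun _ _ => ind_nonneg _)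
  have h1 : ∑ σ, C.mu nd n σ ≤ 1 := by
    unfold Cas.mu
    rw [← sum_div, ← Cas.E_sum]
    have e : (C.E fun g σ' => ∑ σ, ind (nd g = n ∧ σ' = σ)) = C.E fun g _ => ind (nd g = n) := by
      refine Cas.E_congr fun g σ' => ?_
      rw [sum_eq_single σ']
      · simp
      · intro b _ hb
        exact ind_neg fun h => hb h.2.symm
      · simp
    rw [e]
    exact div_self_le_one _
  have h2 : |mm (C.mu nd n) φ| ≤ 1 := by
    refine (abs_Ex_le h0 _).trans ?_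
    simpa [Ex] using h1
  have h3 := (sq_le_one_iff_abs_le_one _).2 h2
  unfold kt
  linarith

variable {V E : Type} [Fintype V] [DecidableEq V] [Fintype E] [DecidableEq E] {P : Pk V E}
  {w0 : E × Bool → V}

lemma ens_mono {d : ℕ} {r : Bool → ℤ → ℝ} {c cp ε ε' : ℝ} (h : P.Ens d w0 r c cp ε)
    (he : ε ≤ ε') : P.Ens d w0 r c cp ε' :=
  ⟨⟨h.1.1, h.1.2.trans he⟩, h.2.1, h.2.2.1, h.2.2.2.1, h.2.2.2.2.1.trans he,
    h.2.2.2.2.2.1.trans he, h.2.2.2.2.2.2⟩

lemma quarter {d : ℕ} {lam : ℝ} (hok : ∀ w J, (P.full w J).cas.Ok) (hn : P.Narrow d w0)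
    (hQ : 0 < lam / d + z1 d)
    (hz : (P.EP w0 fun w _ μ => ind (zz μ crd ≤ z1 d) * P.zA w μ) ≤ 45 * (lam / d + z1 d)) :
    1 / 4 ≤ P.EP w0 fun w _ μ => ind (P.Ev d lam 0 w μ) := by
  have h1 : (P.EP w0 fun _ _ μ => ind (zz μ crd ≤ z1 d)) ≤
      (P.EP w0 fun w _ μ => ind (P.Ev d lam 0 w μ)) + 1 / (190 * (lam / d + z1 d)) *
        P.EP w0 fun w _ μ => ind (zz μ crd ≤ z1 d) * P.zA w μ := by
    unfold Pk.EP
    rw [← ED_mul, ← ED_add]
    refine ED_mono fun w J => ?_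
    unfold Sys.EN Cas.EN
    rw [← Cas.P_mul, ← Cas.P_add]
    refine Cas.P_mono (hok w J) fun g _ => ?_
    have z0 : 0 ≤ P.zA w (P.mu w J (rS P.T g.1)) := avg_nonneg fun a => kt_nn (hok w J) _ _ _
    beta_reduce
    generalize P.mu w J (rS P.T g.1) = μ at z0 ⊢
    by_cases ha : zz μ crd ≤ z1 d
    · rw [ind_pos ha, one_mul]
      by_cases hb : P.zA w μ ≤ 190 * (lam / d + z1 d)
      · rw [ind_pos (show P.Ev d lam 0 w μ from ⟨by simpa using ha, by simpa using hb⟩)]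
        have : 0 ≤ 1 / (190 * (lam / d + z1 d)) * P.zA w μ := by positivity
        linarith
      · have h2 : 1 ≤ 1 / (190 * (lam / d + z1 d)) * P.zA w μ := by
          rw [one_div_mul_eq_div, one_le_div (by positivity)]
          exact (not_le.1 hb).le
        linarith [ind_nonneg (P.Ev d lam 0 w μ)]
    · rw [ind_neg ha, zero_mul, mul_zero, add_zero]
      exact ind_nonneg _
  have h2 : 1 / (190 * (lam / d + z1 d)) *
      (P.EP w0 fun w _ μ => ind (zz μ crd ≤ z1 d) * P.zA w μ) ≤ 45 / 190 := by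
    rw [one_div_mul_eq_div, div_le_iff₀ (by positivity)]
    linarith
  unfold Pk.Narrow at hn
  linarith

lemma half {d : ℕ} (hok : ∀ w J, (P.full w J).cas.Ok) :
    (P.EP w0 fun w _ μ => ind (zz μ crd ≤ z1 d) * P.zA w μ) ≤ 1 / 2 := by
  refine ED_le_const fun w J => Cas.P_le_const (hok w J) fun g _ => ?_
  have h1 : P.zA w (P.mu w J (rS P.T g.1)) ≤ 1 / 2 :=
    avg_le_const (by norm_num) fun a => kt_le_half _
  rcases ind_cases (zz (P.mu w J (rS P.T g.1)) crd ≤ z1 d) with h | h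
  · change ind (zz (P.mu w J (rS P.T g.1)) crd ≤ z1 d) * _ ≤ _
    rw [h]
    norm_num
  · change ind (zz (P.mu w J (rS P.T g.1)) crd ≤ z1 d) * _ ≤ _
    rwa [h, one_mul]

lemma ev_nn {d : ℕ} {lam : ℝ} (hok : ∀ w J, (P.full w J).cas.Ok)
    {F : (E × Bool → V) → (E → Bool) → ((V → Bool) → ℝ) → (V → Bool) → ℝ}
    (h : ∀ w J ν σ, 0 ≤ F w J ν σ) : 0 ≤ P.EV d lam w0 F := by
  unfold Pk.EV Pk.EQ
  refine ED_nonneg fun w J => ?_
  refine Cas.P_nonneg (hok w J) fun g σ => ?_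
  exact mul_nonneg (ind_nonneg _) (h _ _ _ _)

end L2J

open L2J

theorem stL2 (hPar : StPar) (hZA : StZA) (hFlexLo : StFlexLo) (hBadUp : StBadUp)
    (hFlexUp : StFlexUp) (hL2num : StL2num) : StL2 := by
  intro C c hC hc hT
  obtain ⟨K, hK, hBad⟩ := hBadUp
  filter_upwards [hPar, hZA, hFlexLo, hBad, hFlexUp C c hT, hL2num K C c hK hC hc,
    eventually_ge_atTop 3] with d h0 h1 h2 h3 h4 h5 hd
  obtain ⟨ε1, p1, h1⟩ := h1
  obtain ⟨ε2, p2, h2⟩ := h2
  obtain ⟨ε3, p3, h3⟩ := h3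
  obtain ⟨ε4, p4, h4⟩ := h4
  refine ⟨min (min ε1 ε2) (min ε3 ε4), by positivity,
    (h0.and (h1.and (h2.and (h3.and h4)))).mono ?_⟩
  rintro V E _ _ _ _ w0 - ⟨h0, h1, h2, h3, h4⟩ P r c' cp hE hy hR hn
  by_contra hlt
  have hlam := (not_le.1 hlt).le
  obtain ⟨lam, hl⟩ : ∃ lam : ℝ, lam = d * (1 - c') + 1 := ⟨_, rfl⟩
  rw [← hl] at hlam
  have hok : ∀ w J, (P.full w J).cas.Ok := fun w J =>
    Sys.Par.ok ((h0 P hE.1.1).2.1 univ (P.s J) w) hd
  have hd0 : (0 : ℝ) < d := by exact_mod_cast (show 0 < d by omega)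
  have hell : 1 ≤ ell d := one_le_log hd
  have hL0 : 0 ≤ Lam d := div_nonneg (by linarith) (Real.sqrt_nonneg _)
  have hz : 0 < z1 d := div_pos (Real.rpow_pos_of_pos (by linarith) _) hd0
  have hq : 0 ≤ lam / d := div_nonneg (hL0.trans hlam) hd0.le
  have hr : ∀ b l, 0 ≤ r b l := fun b l => (hR.1 b l).1
  have k1 := quarter (lam := lam) hok hn (by linarith) (by
    by_cases h : lam ≤ d / 2
    · have := h1 P r c' cp (ens_mono hE ((min_le_left _ _).trans (min_le_left _ _))) (hl ▸ h)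
      rw [← hl, mul_div_assoc] at this
      linarith
    · have h' : 1 / 2 ≤ lam / d := by
        rw [le_div_iff₀ hd0]
        linarith
      linarith [half (w0 := w0) (d := d) hok])
  have k2 := h2 P r c' cp lam (ens_mono hE ((min_le_left _ _).trans (min_le_right _ _))) hl k1
  obtain ⟨k3, k4⟩ := h3 P r c' cp lam
    (ens_mono hE ((min_le_right _ _).trans (min_le_left _ _))) hl hr
  have k5 := h4 P r c' cp lam _ _ _ (ens_mono hE ((min_le_right _ _).trans (min_le_right _ _)))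
    hlam hr le_rfl k4
  have hRn : ∀ L, 0 ≤ rL d r L := fun L =>
    add_nonneg (sum_nonneg fun l _ => mul_nonneg (ind_nonneg _) (hr _ _))
      (sum_nonneg fun l _ => mul_nonneg (ind_nonneg _) (hr _ _))
  have hb : 0 ≤ P.EV d lam w0 fun w _ ν _ =>
      ((bad0 w ν (Real.exp (-(8 * P.β))) (lam / 20)).card : ℝ) / Fintype.card V :=
    ev_nn hok fun _ _ _ _ => by positivity
  have hy0 : 0 ≤ P.y := le_trans (by positivity) hE.2.2.2.1
  have hL1 : 1 ≤ K * (lam + ell d) := one_le_mul_of_one_le_of_one_le hK (by linarith)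
  have k6 := h5 lam P.y _ _ hlam hy0 hy (hRn _) hb (hR.2.2.1 _ hL1) k3
  have e : (7 : ℝ) / (d : ℝ) ^ 10 = 5 / (d : ℝ) ^ 10 + 2 / (d : ℝ) ^ 10 := by ring
  linarith

end Pool.Agent.MP_32a90a_pr.D

end

section

set_option autoImplicit false

namespace Pool.Agent.MP_32a90a_pr.D

open Finset Equiv Filter Pool.Agent.MP_32a90a_pr Pool.Agent.MP_32a90a_pr.L

namespace PairJ

section E2
variable {Sg : Type} [Fintype Sg] {μ : Sg → ℝ}

lemma E2_mono (h : Prob μ) {f g : Sg → Sg → ℝ} (hfg : ∀ σ σ', f σ σ' ≤ g σ σ') :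
    E2 μ μ f ≤ E2 μ μ g := Ex_mono h.1 fun σ => Ex_mono h.1 fun σ' => hfg σ σ'

lemma E2_add (f g : Sg → Sg → ℝ) :
    E2 μ μ (fun σ σ' => f σ σ' + g σ σ') = E2 μ μ f + E2 μ μ g := by
  simp only [E2, Ex_add]

lemma E2_mul (c : ℝ) (f : Sg → Sg → ℝ) : E2 μ μ (fun σ σ' => c * f σ σ') = c * E2 μ μ f := by
  simp only [E2, Ex_mul]

lemma E2_sum {ι : Type} (T : Finset ι) (f : ι → Sg → Sg → ℝ) :
    E2 μ μ (fun σ σ' => ∑ i ∈ T, f i σ σ') = ∑ i ∈ T, E2 μ μ (f i) := by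
  simp only [E2, Ex_sum]

lemma E2_const (h : Prob μ) (c : ℝ) : E2 μ μ (fun _ _ => c) = c := by
  simp only [E2, h.Ex_const]

end E2

variable {V E : Type} [Fintype V] [DecidableEq V] [Fintype E] [DecidableEq E]

omit [Fintype V] [DecidableEq E] in
lemma sum_nS (w : E × Bool → V) (X Y : Finset V) : ∑ v ∈ X, nS w {v} Y = nS w X Y := by
  unfold nS
  rw [card_eq_sum_card_fiberwise (f := w) (t := X)
    (s := univ.filter fun p : E × Bool => w p ∈ X ∧ w (pt p) ∈ Y)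
    (fun p hp => (mem_filter.1 (mem_coe.1 hp)).2.1)]
  refine sum_congr rfl fun v hv => congrArg card ?_
  ext p
  simp only [mem_filter, mem_univ, true_and, mem_singleton]
  exact ⟨fun h => ⟨⟨h.1 ▸ hv, h.2⟩, h.1⟩, fun h => ⟨h.2, h.1.2⟩⟩

omit [Fintype V] [DecidableEq E] in
lemma nS_self (w : E × Bool → V) (X : Finset V) : nS w X X ≤ 2 * nIn w X := by
  unfold nS nIn
  have h : (univ.filter fun p : E × Bool => w p ∈ X ∧ w (pt p) ∈ X)
      ⊆ (univ.filter fun i : E => w (i, false) ∈ X ∧ w (i, true) ∈ X) ×ˢ univ := by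
    rintro ⟨e, b⟩ hp
    simp only [mem_filter, mem_univ, true_and, mem_product, and_true] at hp ⊢
    cases b
    · exact hp
    · exact ⟨hp.2, hp.1⟩
  have := card_le_card h
  rwa [card_product, card_univ, Fintype.card_bool, mul_comm] at this

omit [Fintype V] in
lemma nS_split (w : E × Bool → V) (v : V) (D Y : Finset V) :
    nS w {v} D ≤ nS w {v} (D \ Y) + nS w {v} Y := by
  unfold nS
  refine le_trans (card_le_card fun p hp => ?_) (card_union_le _ _)
  simp only [mem_filter, mem_univ, true_and, mem_union, Finset.mem_sdiff] at hp ⊢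
  by_cases h : w (pt p) ∈ Y
  · exact Or.inr ⟨hp.1, h⟩
  · exact Or.inl ⟨hp.1, hp.2, h⟩

omit [DecidableEq E] in
lemma nS_le {d : ℕ} {w : E × Bool → V} (h : Deg w d) (X Y : Finset V) :
    nS w X Y ≤ d * Fintype.card V := by
  refine le_trans (card_le_card fun p _ => ?_) (h.card_pre univ)
  simp

/-- the bound for one pair of configurations -/
lemma pair {d : ℕ} {w : E × Bool → V} {z ε j : ℝ} (hD : Deg w d) (hG : G1 d z ε w)
    (hk : 1 ≤ k0 d z) (hε : 0 ≤ ε) {Y : Finset V} (hY : ∀ v, v ∉ Y → (nS w {v} Y : ℝ) < j / 4)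
    (σ σ' : V → Bool) :
    3 * j / 4 * ∑ v ∈ univ \ Y, ind (crd v σ ≠ crd v σ' ∧ j ≤ fol w v σ σ')
      ≤ 2 * k0 d z * ∑ v ∈ univ \ Y, ind (crd v σ ≠ crd v σ') + 2 * ε * Fintype.card V
        + d * Fintype.card V * ind (6 * z * Fintype.card V < ((dif σ σ').card : ℝ)) := by
  set X := dif σ σ' \ Y with hX
  have hsub : X ⊆ univ \ Y := sdiff_subset_sdiff (subset_univ _) subset_rfl
  have hm : ∀ v ∈ univ \ Y, v ∈ X ↔ crd v σ ≠ crd v σ' := fun v hv => by
    simp only [hX, dif, Finset.mem_sdiff, mem_filter, mem_univ, true_and, crd] at hv ⊢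
    exact ⟨fun h => h.1, fun h => ⟨h, hv⟩⟩
  have h1 : ∑ v ∈ univ \ Y, ind (crd v σ ≠ crd v σ') = (X.card : ℝ) := by
    rw [← sum_subset hsub fun v hv h => ind_neg fun e => h ((hm v hv).2 e), card_eq_sum_ones]
    push_cast
    exact sum_congr rfl fun v hv => ind_pos ((hm v (hsub hv)).1 hv)
  have h2 : 3 * j / 4 * ∑ v ∈ univ \ Y, ind (crd v σ ≠ crd v σ' ∧ j ≤ fol w v σ σ')
      ≤ (nS w X X : ℝ) := by
    rw [← sum_subset hsub fun v hv h => ind_neg fun e => h ((hm v hv).2 e.1), ← sum_nS, mul_sum]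
    push_cast
    refine sum_le_sum fun v hv => ?_
    by_cases h : crd v σ ≠ crd v σ' ∧ j ≤ fol w v σ σ'
    · have a1 : (nS w {v} (dif σ σ') : ℝ) ≤ nS w {v} X + nS w {v} Y := by
        exact_mod_cast nS_split w v _ Y
      have a2 := hY v (Finset.mem_sdiff.1 hv).2
      have a3 : j ≤ nS w {v} (dif σ σ') := h.2
      rw [ind_pos h]
      linarith
    · rw [ind_neg h, mul_zero]
      positivity
  have hN : (0 : ℝ) ≤ Fintype.card V := Nat.cast_nonneg _
  rw [h1]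
  refine h2.trans ?_
  by_cases h : 6 * z * Fintype.card V < ((dif σ σ').card : ℝ)
  · have a1 : (nS w X X : ℝ) ≤ d * Fintype.card V := by exact_mod_cast nS_le hD X X
    have a2 : 0 ≤ 2 * k0 d z * X.card := mul_nonneg (by linarith) (Nat.cast_nonneg _)
    have a3 := mul_nonneg hε hN
    rw [ind_pos h]
    linarith
  · have a1 : (X.card : ℝ) ≤ (dif σ σ').card := by exact_mod_cast card_le_card sdiff_subset
    have a2 := hG X (a1.trans (not_lt.1 h))
    have a3 : (nS w X X : ℝ) ≤ 2 * nIn w X := by exact_mod_cast nS_self w X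
    rw [ind_neg h]
    linarith

end PairJ

open PairJ in
theorem stPair (hCL : StCL) : StPair := by
  classical
  intro V E _ _ _ _ _ d w ν z ε t j e hD hG hk hj hε hεz hz hν t0 t1 hB he
  have hN : (0 : ℝ) ≤ Fintype.card V := Nat.cast_nonneg _
  obtain ⟨Y, y1, y2, y3⟩ := hCL V E w d z ε j (bad0 w ν (t ^ 4) j) hG hk hj hε hεz hz
    (by linarith)
  have e0 : 0 ≤ e := le_trans
    (Ex_nonneg hν.1 fun _ => Ex_nonneg hν.1 fun _ => ind_nonneg _) he
  set W := (univ \ Y).filter fun v => t ^ 4 ≤ mn ν (crd v) with hW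
  have h1 := E2_mono hν (pair hD hG hk hε y3)
  simp only [E2_add, E2_mul, E2_sum, E2_const hν] at h1
  have e1 : ∀ v : V, E2 ν ν (fun σ σ' => ind (crd v σ ≠ crd v σ')) = kt ν (crd v) :=
    fun v => hν.E2_ne _
  simp only [e1] at h1
  have h2 : ∑ v ∈ W, kt ν (crd v)
      ≤ 2 * ∑ v ∈ univ \ Y, E2 ν ν fun σ σ' => ind (crd v σ ≠ crd v σ' ∧ j ≤ fol w v σ σ') := by
    rw [mul_sum]
    refine le_trans (sum_le_sum fun v hv => ?_) (sum_le_sum_of_subset_of_nonneg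
      (filter_subset _ _) fun v _ _ => mul_nonneg zero_le_two
        (Ex_nonneg hν.1 fun _ => Ex_nonneg hν.1 fun _ => ind_nonneg _))
    obtain ⟨a1, a2⟩ := mem_filter.1 hv
    have a3 : ¬ BadV ν (crd v) (fol w v) (t ^ 4) j (1 / 2) := fun h =>
      (Finset.mem_sdiff.1 a1).2 (y1 (mem_filter.2 ⟨mem_univ _, h⟩))
    have a4 := not_le.1 fun h => a3 ⟨a2, h⟩
    have a5 : E2 ν ν (fun σ σ' => ind (crd v σ ≠ crd v σ'))
        ≤ E2 ν ν fun σ σ' => ind (crd v σ ≠ crd v σ' ∧ fol w v σ σ' < j)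
          + ind (crd v σ ≠ crd v σ' ∧ j ≤ fol w v σ σ') := by
      refine E2_mono hν fun σ σ' => le_trans (ind_mono fun h => ?_) (ind_or_le _ _)
      rcases lt_or_ge (fol w v σ σ') j with h' | h'
      · exact Or.inl ⟨h, h'⟩
      · exact Or.inr ⟨h, h'⟩
    rw [E2_add, e1] at a5
    linarith
  have h3 : ∑ v ∈ univ \ Y, kt ν (crd v) ≤ ∑ v ∈ W, kt ν (crd v) + 2 * t ^ 4 * Fintype.card V := by
    rw [← sum_filter_add_sum_filter_not (univ \ Y) fun v => t ^ 4 ≤ mn ν (crd v)]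
    refine add_le_add le_rfl ?_
    refine (sum_le_card_nsmul _ _ (2 * t ^ 4) fun v hv => ?_).trans ?_
    · have := not_le.1 (mem_filter.1 hv).2
      linarith [hν.kt_le_mn (crd v)]
    · rw [nsmul_eq_mul, mul_comm]
      exact mul_le_mul_of_nonneg_left (by exact_mod_cast card_le_univ _) (by positivity)
  have W0 : 0 ≤ ∑ v ∈ W, kt ν (crd v) := sum_nonneg fun v _ => hν.kt_nonneg _
  have d0 : (0 : ℝ) ≤ d := Nat.cast_nonneg _
  have h4 : ∑ v ∈ W, kt ν (crd v) ≤ t ^ 4 * Fintype.card V + (ε + e * d) * Fintype.card V := by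
    refine le_of_mul_le_mul_left ?_ (lt_of_lt_of_le one_pos hk)
    have b1 := mul_le_mul_of_nonneg_left h2 (show 0 ≤ j by linarith)
    have b2 := mul_le_mul_of_nonneg_right hj W0
    have b3 := mul_le_mul_of_nonneg_left h3 (show 0 ≤ k0 d z by linarith)
    have b4 := mul_le_mul_of_nonneg_left he (mul_nonneg d0 hN)
    have b5 := mul_nonneg hε hN
    have b6 := mul_nonneg (mul_nonneg e0 d0) hN
    have b7 := mul_le_mul_of_nonneg_right hk b5
    have b8 := mul_le_mul_of_nonneg_right hk b6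
    linarith
  have t3 : 0 < t ^ 3 := by positivity
  have h5 : ((flex ν (t ^ 3) \ Y).card : ℝ) * t ^ 3 ≤ ∑ v ∈ W, kt ν (crd v) := by
    have a1 := card_nsmul_le_sum (flex ν (t ^ 3) \ Y) (fun v => kt ν (crd v)) (t ^ 3)
      fun v hv => (mem_filter.1 (Finset.mem_sdiff.1 hv).1).2.trans (hν.mn_le_kt _)
    rw [nsmul_eq_mul] at a1
    refine a1.trans (sum_le_sum_of_subset_of_nonneg (fun v hv => ?_) fun v _ _ => hν.kt_nonneg _)
    exact mem_filter.2 ⟨Finset.mem_sdiff.2 ⟨mem_univ _, (Finset.mem_sdiff.1 hv).2⟩,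
      (pow_le_pow_of_le_one t0.le t1 (by norm_num)).trans (mem_filter.1 (Finset.mem_sdiff.1 hv).1).2⟩
  have h6 : ((flex ν (t ^ 3) \ Y).card : ℝ) ≤ (t + (ε + e * d) / t ^ 3) * Fintype.card V := by
    refine le_of_mul_le_mul_right ((h5.trans h4).trans_eq ?_) t3
    field_simp
  have h7 : ((flex ν (t ^ 3)).card : ℝ) ≤ (flex ν (t ^ 3) \ Y).card + Y.card := by
    exact_mod_cast card_le_card_sdiff_add_card
  linarith

end Pool.Agent.MP_32a90a_pr.D

end

section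

set_option autoImplicit false

namespace Pool.Agent.MP_32a90a_pr.D

open Finset Equiv Filter Pool.Agent.MP_32a90a_pr Pool.Agent.MP_32a90a_pr.L

namespace PhiJ

lemma ens_mono {V E : Type} [Fintype V] [DecidableEq V] [Fintype E] [DecidableEq E]
    {P : Pk V E} {d : ℕ} {w0 : E × Bool → V} {r : Bool → ℤ → ℝ} {c cp ε ε' : ℝ}
    (h : P.Ens d w0 r c cp ε) (he : ε ≤ ε') : P.Ens d w0 r c cp ε' := by
  obtain ⟨⟨a1, a2⟩, h2, h3, h4, h5, h6, h7⟩ := h
  exact ⟨⟨a1, a2.trans he⟩, h2, h3, h4, h5.trans he, h6.trans he, h7⟩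

end PhiJ

open PhiJ in
theorem stPhi (hTyp : StTyp) (hEns : StEns) (hRF : StRF) (hScan : StScan) (hFree : StFree) :
    StPhi := by
  obtain ⟨C, c, hC, hc, hT⟩ := hTyp
  filter_upwards [hEns, hRF C c hC hc hT, hScan C c hC hc hT, hFree C c hT] with d h1 h2 h3 h4 hd
  obtain ⟨e2, p2, h2⟩ := h2 hd
  obtain ⟨e3, p3, h3⟩ := h3
  obtain ⟨e4, p4, h4⟩ := h4
  refine (((h1 (min e2 (min e3 e4)) (lt_min p2 (lt_min p3 p4))).and h2).and (h3.and h4)).mono ?_
  rintro V E _ _ _ _ w0 - ⟨⟨g1, g2⟩, g3, g4⟩ A0 A1 b1 b2 b3 b4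
  obtain ⟨A, Jm, Ps, r, cs, cps, a1, a2, a3, a4, a5, a6⟩ := g1 A0 A1 b1 b2 b3 b4
  obtain ⟨c1, -, c3⟩ := a6 0 (Nat.zero_le _)
  have f1 := g2 _ r _ _ (ens_mono c1 (min_le_left _ _)) a5
  have f2 := g3 Jm Ps r cs cps a3 a4 (fun j hj => ⟨ens_mono (a6 j hj).1
    ((min_le_right _ _).trans (min_le_left _ _)), (a6 j hj).2.1⟩) f1
  have f3 := g4 _ r _ _ (ens_mono c1 ((min_le_right _ _).trans (min_le_right _ _))) f2
  rw [c3] at f3
  exact ⟨A, a1, a2, f3⟩

end Pool.Agent.MP_32a90a_pr.D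

end

section

set_option autoImplicit false

namespace Pool.Agent.MP_32a90a_pr.D

open Finset Filter Pool.Agent.MP_32a90a_pr Pool.Agent.MP_32a90a_pr.L

namespace TopJ

lemma pow_sm {d : ℕ} (hd : 3 ≤ d) (n : ℕ) : (d : ℝ) ^ n * sm n d ≤ 1 := by
  induction n with
  | zero => simp [sm]
  | succ n ih =>
    rw [pow_succ, mul_assoc, Nat.cast_succ]
    exact (mul_le_mul_of_nonneg_left (mul_sm_le n hd (by linarith)) (by positivity)).trans ih

lemma num : ∀ᶠ d : ℕ in atTop, 3 ≤ d ∧ 1 ≤ ell d ∧ 4 ≤ lll d ∧ 5 * lll d ≤ d ∧ ell d ≤ d ∧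
    4 * 10 ^ 8 * lll d ^ 4 < ell d ^ (1 / 10 : ℝ) ∧ Real.exp (lll d) = ell d := by
  have t1 : Tendsto ell atTop atTop := Real.tendsto_log_atTop.comp tendsto_natCast_atTop_atTop
  have t2 : Tendsto lll atTop atTop := Real.tendsto_log_atTop.comp t1
  filter_upwards [eventually_ge_atTop 3, t1.eventually_ge_atTop 1,
    t2.eventually_ge_atTop (10 ^ 16)] with d h3 h1 h4
  have hd : (0 : ℝ) < d := by exact_mod_cast (by omega : 0 < d)
  have e2 : Real.exp (lll d) = ell d := Real.exp_log (show 0 < ell d by linarith)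
  have e3 : ell d ≤ d := (Real.log_le_sub_one_of_pos hd).trans (by linarith)
  refine ⟨h3, h1, by linarith, ?_, e3, ?_, e2⟩
  · have := Real.pow_div_factorial_le_exp (lll d) (by linarith) 2
    norm_num [Nat.factorial] at this
    nlinarith
  · rw [← e2, ← Real.exp_mul]
    have := Real.pow_div_factorial_le_exp (lll d * (1 / 10)) (by linarith) 5
    norm_num [Nat.factorial] at this
    have h5 : 0 < lll d ^ 4 := by positivity
    nlinarith

lemma kD_pos (k : ℕ) : 0 < kD k := by unfold kD; positivity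

lemma kD_le (k : ℕ) : kD k ≤ 1 / 4 := by
  refine one_div_le_one_div_of_le (by norm_num) ?_
  rw [pow_add]
  nlinarith [one_le_pow₀ (n := k) (one_le_two (α := ℝ))]

lemma le_kD {k : ℕ} {t : ℝ} (h : (k : ℝ) + 2 ≤ 5 * t) : 1 / Real.exp t ^ 4 ≤ kD k := by
  refine one_div_le_one_div_of_le (by positivity) ?_
  rw [← Real.exp_log (two_pos (α := ℝ)), ← Real.exp_nat_mul, ← Real.exp_nat_mul]
  refine Real.exp_le_exp.2 ?_
  push_cast
  nlinarith [Real.log_two_lt_d9, (Nat.cast_nonneg k : (0 : ℝ) ≤ k)]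

lemma dyad {x t : ℝ} (h1 : 1 ≤ x) (h2 : x ≤ Real.exp (t * (7 / 20))) (ht : 4 ≤ t) :
    ∃ i ∈ range ⌊t⌋₊, 2 ^ i ≤ x ∧ x ≤ 2 * 2 ^ i := by
  obtain ⟨i, h3, h4⟩ := exists_nat_pow_near h1 one_lt_two
  refine ⟨i, mem_range.2 (Nat.le_floor ?_), h3, by rw [← pow_succ']; exact h4.le⟩
  have h5 := h3.trans h2
  rw [← Real.exp_log (two_pos (α := ℝ)), ← Real.exp_nat_mul, Real.exp_le_exp] at h5
  push_cast
  nlinarith [Real.log_two_gt_d9, (Nat.cast_nonneg i : (0 : ℝ) ≤ i)]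

lemma TG_ok (d : ℕ) (y : ℝ) : ∀ t ∈ TG d y, 0 < t.2.1 ∧ t.2.1 ≤ 1 / 2 := by
  intro t ht
  rcases mem_insert.1 ht with rfl | ht
  · norm_num
  · obtain ⟨g, -, rfl⟩ := mem_image.1 ht
    have h1 : 0 < kG g := by unfold kG; positivity
    have h2 : kG g ≤ 1 / 2 := one_div_le_one_div_of_le two_pos
      (le_self_pow₀ one_le_two (by positivity))
    exact ⟨by positivity, by nlinarith⟩

lemma fin {d N z κ t A s s' p M : ℝ} (hd : 0 < d) (hN : 0 < N) (hz : 1 ≤ d * z) (k0 : 0 < κ)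
    (k1 : κ ≤ 1) (ht : 0 < t) (hA : 4 * 10 ^ 8 * t ^ 4 < A) (hA' : A ≤ d) (s0 : 0 ≤ s')
    (hs : s' ≤ s) (hs' : d ^ 3 * s ≤ 1) (hp : 1 / (20 * t ^ 2) ≤ p) (hM : 2 * M = d * N)
    (h : (d * z * N / (2000 * κ * t)) ^ 2 * p / 5 - s' * M ^ 2
      ≤ M * (d * z ^ 2 * N / A / κ ^ 2 + M * s)) : False := by
  have A0 : 0 < A := lt_trans (by positivity) hA
  have z0 : 0 < z := (mul_pos_iff_of_pos_left hd).1 (by linarith)
  obtain rfl : M = d * N / 2 := by linarith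
  obtain ⟨X, hX⟩ : ∃ X, X = (d * z * N / κ) ^ 2 := ⟨_, rfl⟩
  have X0 : 0 < X := by rw [hX]; positivity
  have a1 : X / (4 * 10 ^ 8 * t ^ 4) ≤ (d * z * N / (2000 * κ * t)) ^ 2 * p / 5 := by
    refine le_trans (le_of_eq ?_) (div_le_div_of_nonneg_right
      (mul_le_mul_of_nonneg_left hp (sq_nonneg _)) (by norm_num))
    rw [hX]
    field_simp
    norm_num
  have a2 : d * N / 2 * (d * z ^ 2 * N / A / κ ^ 2) = X / A / 2 := by
    rw [hX]
    field_simp
  have a3 : N ≤ d * z * N / κ := by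
    rw [le_div_iff₀ k0]
    nlinarith
  have a4 : N ^ 2 ≤ X := hX ▸ pow_le_pow_left₀ hN.le a3 2
  have a5 : d ^ 2 * s ≤ 1 / A := by
    rw [le_div_iff₀ A0]
    nlinarith [mul_nonneg (sq_nonneg d) (s0.trans hs)]
  have a6 : N ^ 2 * (d ^ 2 * s) ≤ X * (1 / A) :=
    mul_le_mul a4 a5 (mul_nonneg (sq_nonneg d) (s0.trans hs)) X0.le
  have a7 : X / A < X / (4 * 10 ^ 8 * t ^ 4) := div_lt_div_of_pos_left X0 (by positivity) hA
  have a8 := mul_le_mul_of_nonneg_right hs (sq_nonneg (d * N / 2))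
  rw [mul_add, a2] at h
  rw [mul_one_div] at a6
  nlinarith

variable {V E : Type} [Fintype V] [DecidableEq V] [Fintype E] [DecidableEq E] {P : Pk V E}
  {w0 : E × Bool → V}

lemma EP_mono (h : ∀ w J, (P.full w J).cas.Ok)
    {F G : (E × Bool → V) → (E → Bool) → ((V → Bool) → ℝ) → ℝ} (hFG : ∀ w J μ, F w J μ ≤ G w J μ) :
    P.EP w0 F ≤ P.EP w0 G :=
  ED_mono fun w J => Cas.P_mono (h w J) fun _ _ => hFG _ _ _

lemma EP_const (h : ∀ w J, (P.full w J).cas.Ok) (c : ℝ) : (P.EP w0 fun _ _ _ => c) = c := by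
  refine Eq.trans ?_ (ED_const (w0 := w0) c)
  exact congrArg (ED w0) (funext fun w => funext fun J => Cas.P_const (h w J) c)

lemma EP_add (F G : (E × Bool → V) → (E → Bool) → ((V → Bool) → ℝ) → ℝ) :
    (P.EP w0 fun w J μ => F w J μ + G w J μ) = P.EP w0 F + P.EP w0 G := by
  unfold Pk.EP Sys.EN Cas.EN
  simp only [Cas.P_add, ED_add]

lemma EP_mul (c : ℝ) (F : (E × Bool → V) → (E → Bool) → ((V → Bool) → ℝ) → ℝ) :
    (P.EP w0 fun w J μ => c * F w J μ) = c * P.EP w0 F := by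
  unfold Pk.EP Sys.EN Cas.EN
  simp only [Cas.P_mul, ED_mul]

lemma EP_sum {ι : Type} (T : Finset ι)
    (F : ι → (E × Bool → V) → (E → Bool) → ((V → Bool) → ℝ) → ℝ) :
    (P.EP w0 fun w J μ => ∑ i ∈ T, F i w J μ) = ∑ i ∈ T, P.EP w0 (F i) := by
  classical
  induction T using Finset.induction_on with
  | empty => simpa using EP_mul (P := P) (w0 := w0) 0 fun _ _ _ => 0
  | insert a s ha ih => simp only [sum_insert ha, EP_add, ih]

end TopJ

open TopJ in
theorem stTop (hPar : StPar) (hRegP : StRegP) (hTopCls : StTopCls) (hTopCnt : StTopCnt)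
    (hTopSw : StTopSw) (hTopUp : StTopUp) : StTop := by
  classical
  intro C c hC hc hT
  filter_upwards [hPar, hRegP C c hT, hTopCls C c hC hc, hTopCnt, hTopSw, hTopUp, num] with d hP hR
    ⟨e1, p1, h1⟩ ⟨e2, p2, h2⟩ ⟨e3, p3, h3⟩ ⟨e4, p4, h4⟩ ⟨n1, n2, n3, n4, n5, n6, n7⟩
  obtain ⟨e, he⟩ : ∃ e, e = min (min e1 e2) (min e3 e4) := ⟨_, rfl⟩
  have q1 : e ≤ e1 := he ▸ (min_le_left _ _).trans (min_le_left _ _)
  have q2 : e ≤ e2 := he ▸ (min_le_left _ _).trans (min_le_right _ _)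
  have q3 : e ≤ e3 := he ▸ (min_le_right _ _).trans (min_le_left _ _)
  have q4 : e ≤ e4 := he ▸ (min_le_right _ _).trans (min_le_right _ _)
  obtain ⟨TT, hTT⟩ : ∃ TT, TT = TG d (y0 d) ∪ (range d).image fun k => tT d (kD k) := ⟨_, rfl⟩
  obtain ⟨ε, hε, hR⟩ := hR TT e (fun t ht => by
    rcases mem_union.1 (hTT ▸ ht) with ht | ht
    · exact TG_ok d _ t ht
    · obtain ⟨k, -, rfl⟩ := mem_image.1 ht
      exact ⟨kD_pos k, (kD_le k).trans (by norm_num)⟩) (by rw [he]; positivity)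
  refine ⟨ε, hε, ((hR.and hP).and (Big.card d (fun N => 1 ≤ N) (eventually_ge_atTop 1))).mono ?_⟩
  intro V E _ _ _ _ w0 hw ⟨⟨hR, hP⟩, hV⟩ P r c' cp hE hy hF
  have : Nonempty V := Fintype.card_pos_iff.1 hV
  have hV' : (0 : ℝ) < Fintype.card V := by exact_mod_cast hV
  have hd : (3 : ℝ) ≤ d := by exact_mod_cast n1
  have hd0 : (0 : ℝ) < d := by linarith
  have hL := hP P hE.1.1
  have ok : ∀ w J, (P.full w J).cas.Ok := fun w J => (hL.2.1 _ _ _).ok n1
  have hR := hR P r c' cp hE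
  rw [hy] at hR
  have z0 : 1 ≤ d * z1 d := by
    rw [z1, mul_div_cancel₀ _ hd0.ne']
    exact Real.one_le_rpow n2 (by norm_num)
  have z2 : 0 < z1 d := div_pos (Real.rpow_pos_of_pos (by linarith) _) hd0
  by_contra hN
  rw [Pk.Narrow, not_le] at hN
  let G : ℕ × ℕ → (E × Bool → V) → (E → Bool) → ((V → Bool) → ℝ) → Prop := fun p w J μ =>
    Reg d C c e (y0 d) TT r P.Z P.A w J μ ∧ z1 d * 2 ^ p.1 ≤ zz μ crd ∧
      zz μ crd ≤ 2 * (z1 d * 2 ^ p.1) ∧ d * zz μ crd ≤ ell d ^ (11 / 10 : ℝ) ∧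
      zz μ crd * Fintype.card V / (8 * lll d) ≤ ∑ v ∈ cls μ (kD p.2) (2 * kD p.2), kt μ (crd v)
  let I : Finset (ℕ × ℕ) :=
    range ⌊lll d⌋₊ ×ˢ (range ⌊5 * lll d⌋₊).filter fun k : ℕ => (k : ℝ) + 2 ≤ 5 * lll d
  have a1 : (P.EP w0 fun _ _ _ => 1) ≤ P.EP w0 fun w J μ => ind (zz μ crd ≤ z1 d) +
      ind (¬ Reg d C c e (y0 d) TT r P.Z P.A w J μ) + ∑ p ∈ I, ind (G p w J μ) := by
    refine EP_mono ok fun w J μ => ?_
    have b1 := ind_nonneg (zz μ crd ≤ z1 d)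
    have b2 := ind_nonneg (¬ Reg d C c e (y0 d) TT r P.Z P.A w J μ)
    have b3 : 0 ≤ ∑ p ∈ I, ind (G p w J μ) := sum_nonneg fun _ _ => ind_nonneg _
    by_cases g1 : zz μ crd ≤ z1 d
    · rw [ind_pos g1]
      linarith
    by_cases g2 : Reg d C c e (y0 d) TT r P.Z P.A w J μ
    swap
    · rw [ind_pos g2]
      linarith
    rw [not_le] at g1
    obtain ⟨g3, k, g4, g5⟩ := h1 V E e r _ _ w J μ ⟨g2.1, g2.2.1, g2.2.2.1,
      fun t ht => g2.2.2.2.1 t (hTT ▸ mem_union_left _ ht), g2.2.2.2.2⟩ q1 hF g1.le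
    obtain ⟨i, g6, g7, g8⟩ := dyad (x := zz μ crd / z1 d) ((one_le_div z2).2 g1.le) (by
      rw [Real.exp_mul, n7, div_le_iff₀ z2, z1, ← mul_div_assoc, le_div_iff₀ hd0,
        ← Real.rpow_add (by linarith), mul_comm]
      exact g3.trans_eq (by norm_num)) n3
    rw [le_div_iff₀ z2] at g7
    rw [div_le_iff₀ z2] at g8
    have b4 := single_le_sum (f := fun p => ind (G p w J μ)) (fun _ _ => ind_nonneg _)
      (show (i, k) ∈ I from mem_product.2 ⟨g6, mem_filter.2 ⟨mem_range.2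
        (Nat.le_floor (by push_cast; linarith)), g4⟩⟩)
    rw [ind_pos (show G (i, k) w J μ from ⟨g2, by linarith, by linarith, g3, g5⟩)] at b4
    linarith
  rw [EP_const ok, EP_add, EP_add, EP_sum] at a1
  have hs : sm 50 d ≤ 1 / 4 := (sm_le_inv (by norm_num) n1).trans
    (one_div_le_one_div_of_le (by norm_num) (by linarith))
  obtain ⟨p, hp, a2⟩ : ∃ p ∈ I, 1 / (20 * lll d ^ 2) ≤ P.EP w0 fun w J μ => ind (G p w J μ) := by
    by_contra hn
    push Not at hn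
    have b1 := sum_le_card_nsmul _ _ _ fun p hp => (hn p hp).le
    have b2 : (I.card : ℝ) ≤ lll d * (5 * lll d) := by
      rw [card_product, card_range, Nat.cast_mul]
      refine mul_le_mul (Nat.floor_le (by linarith)) (le_trans ?_ (Nat.floor_le (by linarith)))
        (Nat.cast_nonneg _) (by linarith)
      exact_mod_cast (card_filter_le _ _).trans_eq (card_range _)
    have b3 : (I.card : ℝ) * (1 / (20 * lll d ^ 2)) ≤ 1 / 4 := by
      rw [mul_one_div, div_le_iff₀ (by positivity)]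
      linarith
    rw [nsmul_eq_mul] at b1
    linarith
  have k1 := (mem_filter.1 (mem_product.1 hp).2).2
  have k2 : 1 / ell d ^ 4 ≤ kD p.2 := n7 ▸ le_kD k1
  have k3 : tT d (kD p.2) ∈ TT := hTT ▸ mem_union_right _ (mem_image_of_mem _
    (mem_range.2 (by exact_mod_cast (by linarith : (p.2 : ℝ) < d))))
  have k4 : sm 200 d ≤ kD p.2 := by
    refine le_trans ?_ k2
    rw [le_div_iff₀ (by positivity), mul_comm]
    refine le_trans (mul_le_mul (pow_le_pow_left₀ (by linarith) n5 4) ?_ (sm_pos _ _).le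
      (by positivity)) (pow_sm n1 4)
    exact sm_anti (by norm_num) d
  have k0 := kD_pos p.2
  obtain ⟨z, hz⟩ : ∃ z, z = z1 d * 2 ^ p.1 := ⟨_, rfl⟩
  have z3 : z1 d ≤ z := hz ▸ le_mul_of_one_le_right z2.le (one_le_pow₀ one_le_two)
  have t0 : 0 < lll d := by linarith
  have a3 : (P.EP w0 fun w J μ =>
      (d * z * Fintype.card V / (2000 * kD p.2 * lll d)) ^ 2 * ind (G p w J μ)) ≤
      P.EP w0 fun w J μ => ind (z ≤ zz μ crd ∧ zz μ crd ≤ 2 * z ∧ c2 μ crd ≤ e3) *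
        ((swP P.Z P.A w J μ (kD p.2)).card : ℝ) := by
    refine EP_mono ok fun w J μ => ?_
    by_cases g : G p w J μ
    swap
    · rw [ind_neg g, mul_zero]
      exact mul_nonneg (ind_nonneg _) (Nat.cast_nonneg _)
    rw [ind_pos g, mul_one]
    obtain ⟨g1, g2, g3, g4, g5⟩ := g
    rw [← hz] at g2 g3
    rw [ind_pos ⟨g2, g3, g1.2.2.2.2.2.1.trans q3⟩, one_mul]
    refine le_trans ?_ (h2 V E C c e _ _ TT r _ _ w J μ g1 q2 (z3.trans g2) g4 k2 (kD_le _) g5)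
    have : 0 < z := z2.trans_le z3
    gcongr
  have a4 : (P.EP w0 fun w _ μ => ind (z / 2 ≤ zz μ crd ∧ zz μ crd ≤ 3 * z) *
      nB P.Z P.A w μ (kD p.2)) ≤ P.EP w0 fun w J μ =>
        d * z ^ 2 * Fintype.card V / ell d ^ (1 / 10 : ℝ) / kD p.2 ^ 2 +
          Fintype.card E * ind (¬ Reg d C c e (y0 d) TT r P.Z P.A w J μ) := by
    refine EP_mono ok fun w J μ => ?_
    have b0 : 0 < ell d ^ (1 / 10 : ℝ) := Real.rpow_pos_of_pos (by linarith) _
    have b1 : 0 ≤ d * z ^ 2 * Fintype.card V / ell d ^ (1 / 10 : ℝ) / kD p.2 ^ 2 := by positivity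
    have b2 : 0 ≤ Fintype.card E * ind (¬ Reg d C c e (y0 d) TT r P.Z P.A w J μ) :=
      mul_nonneg (Nat.cast_nonneg _) (ind_nonneg _)
    by_cases g1 : z / 2 ≤ zz μ crd ∧ zz μ crd ≤ 3 * z
    swap
    · rw [ind_neg g1, zero_mul]
      linarith
    rw [ind_pos g1, one_mul]
    by_cases g2 : Reg d C c e (y0 d) TT r P.Z P.A w J μ
    · have b3 := h4 V E C c e z _ TT r _ _ w J μ g2 q4 k3 z3 g1.2 k2 (kD_le _)
      rw [← le_div_iff₀' (by positivity)] at b3
      linarith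
    · have b3 : nB P.Z P.A w μ (kD p.2) ≤ Fintype.card E := Nat.cast_le.2 (card_le_univ _)
      rw [ind_pos g2]
      linarith
  rw [EP_mul] at a3
  rw [EP_add, EP_const ok, EP_mul] at a4
  have a5 := h3 V E w0 P z _ hw hE.1.1 hL z3 k4
  have a6 : (2 : ℝ) * Fintype.card E = d * Fintype.card V := by
    exact_mod_cast card_half hw
  have hE0 : (0 : ℝ) ≤ Fintype.card E := Nat.cast_nonneg _
  refine fin hd0 hV' (z0.trans (mul_le_mul_of_nonneg_left z3 hd0.le)) k0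
    ((kD_le _).trans (by norm_num)) t0 n6 (le_trans ?_ n5) (sm_pos 250 d).le
    (sm_anti (k := 50) (by norm_num) d) (le_trans (mul_le_mul_of_nonneg_left
      (sm_anti (by norm_num) d) (by positivity)) (pow_sm n1 3)) a2 a6 ?_
  · exact (Real.rpow_le_rpow_of_exponent_le n2 (by norm_num)).trans_eq (Real.rpow_one _)
  · refine le_trans (by linarith) (a5.trans (mul_le_mul_of_nonneg_left (a4.trans ?_) hE0))
    linarith [mul_le_mul_of_nonneg_left hR hE0]

end Pool.Agent.MP_32a90a_pr.D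

end

section

set_option autoImplicit false

namespace Pool.Agent.MP_32a90a_pr.D

open Finset Filter Pool.Agent.MP_32a90a_pr Pool.Agent.MP_32a90a_pr.L

namespace TopCntJ

lemma num : ∀ᶠ d : ℕ in atTop, 1 ≤ d ∧ 1 ≤ ell d ∧ 1 ≤ lll d ∧ lll d ≤ ell d ∧
    320000 * ell d ^ 6 ≤ d ∧ 15000 * lll d ≤ ell d ^ (3 / 4 : ℝ) := by
  have t1 : Tendsto ell atTop atTop := Real.tendsto_log_atTop.comp tendsto_natCast_atTop_atTop
  have t2 : Tendsto lll atTop atTop := Real.tendsto_log_atTop.comp t1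
  filter_upwards [eventually_ge_atTop 1, t1.eventually_ge_atTop (320000 * 5040),
    t2.eventually_ge_atTop 60000] with d h3 h1 h2
  have hd : (0 : ℝ) < d := by exact_mod_cast (by omega : 0 < d)
  have e1 : Real.exp (ell d) = d := Real.exp_log hd
  have e2 : Real.exp (lll d) = ell d := Real.exp_log (show 0 < ell d by linarith)
  refine ⟨h3, by linarith, by linarith, by linarith [Real.add_one_le_exp (lll d)], ?_, ?_⟩
  · have h := Real.pow_div_factorial_le_exp (ell d) (by linarith) 7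
    have h6 : 0 ≤ ell d ^ 6 := pow_nonneg (by linarith) 6
    rw [e1, pow_succ] at h
    norm_num [Nat.factorial] at h
    nlinarith
  · have h := Real.pow_div_factorial_le_exp (lll d * (3 / 4)) (by linarith) 2
    rw [Real.exp_mul, e2] at h
    norm_num [Nat.factorial] at h ⊢
    nlinarith

variable {V E : Type} [Fintype V] [DecidableEq V] [Fintype E] [DecidableEq E]

omit [DecidableEq E] in
lemma half {w : E × Bool → V} {d : ℕ} (hd : Deg w d) {φ : V → ℝ} (h : ∀ v, 0 ≤ φ v) :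
    ∑ i, φ (w (i, false)) ≤ d * ∑ v, φ v := by
  classical
  rw [← sum_half hd, Fintype.sum_prod_type]
  refine sum_le_sum fun i _ => ?_
  rw [Fintype.sum_bool]
  linarith [h (w (i, true))]

omit [DecidableEq E] in
lemma pairs {w : E × Bool → V} {d : ℕ} (hd : Deg w d) {ψ : V → V → ℝ} (h : ∀ u v, 0 ≤ ψ u v) :
    ∑ p : E × E, ψ (w (p.1, false)) (w (p.2, false)) ≤ d * (d * ∑ u, ∑ v, ψ u v) := by
  rw [Fintype.sum_prod_type]
  refine (sum_le_sum fun i _ => half hd (h (w (i, false)))).trans ?_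
  rw [← mul_sum]
  exact mul_le_mul_of_nonneg_left
    (half hd (φ := fun u => ∑ v, ψ u v) fun u => sum_nonneg fun v _ => h u v) (Nat.cast_nonneg d)

open Classical in
lemma swP_ge {d : ℕ} (Z A : Finset E) {w : E × Bool → V} (hd : Deg w d) (J : E → Bool)
    (μ : (V → Bool) → ℝ) {κ : ℝ} (hκ : 0 < κ) [Nonempty V] :
    ∃ b : ℝ, b * (κ / 10) ^ 2 ≤ d * (d * (Fintype.card V * (Fintype.card V * c2 μ crd))) ∧
      ((swS Z A w J μ κ).card : ℝ) ^ 2 ≤ (swS Z A w J μ κ).card + ((swP Z A w J μ κ).card + b) := by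
  let Bd : Finset (E × E) :=
    univ.filter fun p => κ / 10 < |cv μ (crd (w (p.1, false))) (crd (w (p.2, false)))|
  refine ⟨Bd.card, ?_, ?_⟩
  · have hN : (Fintype.card V : ℝ) ≠ 0 := by exact_mod_cast Fintype.card_ne_zero
    have e : Fintype.card V * (Fintype.card V * c2 μ crd)
        = ∑ u : V, ∑ v : V, cv μ (crd u) (crd v) ^ 2 := by
      simp only [c2, avg, ← sum_div]
      field_simp
    rw [e]
    refine le_trans ?_ (pairs hd (ψ := fun u v => cv μ (crd u) (crd v) ^ 2) fun u v => sq_nonneg _)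
    refine le_trans ?_ (sum_le_sum_of_subset_of_nonneg (subset_univ Bd) fun p _ _ => sq_nonneg _)
    rw [← nsmul_eq_mul]
    refine card_nsmul_le_sum _ _ _ fun p hp => ?_
    rw [← sq_abs (cv _ _ _)]
    exact pow_le_pow_left₀ (by positivity) (mem_filter.1 hp).2.le 2
  · have hs : swS Z A w J μ κ ×ˢ swS Z A w J μ κ ⊆
        (swS Z A w J μ κ).diag ∪ (swP Z A w J μ κ ∪ Bd) := by
      intro p hp
      by_cases h1 : p.1 = p.2
      · exact mem_union_left _ (mem_diag.2 ⟨(mem_product.1 hp).1, h1⟩)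
      · refine mem_union_right _ ?_
        by_cases h2 : p ∈ Bd
        · exact mem_union_right _ h2
        · refine mem_union_left _ (mem_filter.2 ⟨hp, h1, not_lt.1 fun h3 => h2 ?_⟩)
          exact mem_filter.2 ⟨mem_univ _, h3⟩
    have h := ((card_le_card hs).trans (card_union_le _ _)).trans
      (Nat.add_le_add_left (card_union_le _ _) _)
    rw [card_product, diag_card, ← sq] at h
    exact_mod_cast h

open Classical in
lemma swS_ge {d : ℕ} {Z A : Finset E} {w : E × Bool → V} {J : E → Bool} (ha : G5a d w)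
    (hb : G5b d Z A w J) (μ : (V → Bool) → ℝ) (κ : ℝ) :
    ((d : ℝ) / 16 - 2 * ell d) * (cls μ κ (2 * κ)).card - Fintype.card V
      ≤ (swS Z A w J μ κ).card + ((d : ℝ) * (cls μ κ (2 * κ)).card * (flex μ (κ / 16)).card
        / Fintype.card V + 2 * ell d * ((cls μ κ (2 * κ)).card + (flex μ (κ / 16)).card)
        + 5 * Fintype.card V / (d : ℝ) ^ 2) := by
  refine (hb (cls μ κ (2 * κ)) (maj μ)).trans
    (le_trans ?_ (add_le_add_right (ha (cls μ κ (2 * κ)) (flex μ (κ / 16))) _))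
  rw [← Nat.cast_add, Nat.cast_le]
  refine le_trans (card_le_card fun i hi => ?_) (card_union_le _ _)
  obtain ⟨-, h1, h2, h3, h4⟩ := mem_filter.1 hi
  by_cases h5 : w (i, true) ∈ flex μ (κ / 16)
  · exact mem_union_right _ (mem_filter.2 ⟨mem_univ _, h3, h5⟩)
  · exact mem_union_left _ (mem_filter.2 ⟨mem_filter.2 ⟨mem_univ _, h1, h2⟩, h3, h5, h4⟩)

lemma arith {d l m N κ z b y s P Bd c X : ℝ} (d1 : 1 ≤ d) (l1 : 1 ≤ l) (m1 : 1 ≤ m) (ml : m ≤ l)
    (ld : 320000 * l ^ 6 ≤ d) (N1 : 1 ≤ N) (k1 : 1 / l ^ 4 ≤ κ) (k2 : κ ≤ 1 / 4)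
    (z1 : 15000 * m ≤ d * z) (z2 : d * z ≤ l ^ 2) (b0 : 0 ≤ b) (y0 : 0 ≤ y)
    (hb : z * N / (8 * m) ≤ b * (4 * κ)) (hy : y * (κ / 16) ≤ z * N)
    (hs : (d / 16 - 2 * l) * b - N ≤ s + (d * b * y / N + 2 * l * (b + y) + 5 * N / d ^ 2))
    (hc : c ≤ 1 / (1000 * d ^ 2 * l ^ 8)) (hB : Bd * (κ / 10) ^ 2 ≤ d * (d * (N * (N * c))))
    (hP : s ^ 2 ≤ s + (P + Bd)) (hX : X = d * z * N / (κ * m)) : (X / 2000) ^ 2 ≤ P := by
  have l4 : 0 < l ^ 4 := by positivity
  have k0 : 0 < κ := lt_of_lt_of_le (by positivity) k1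
  have k3 : 1 ≤ κ * l ^ 4 := (div_le_iff₀ l4).1 k1
  have km : 0 < κ * m := by positivity
  have z0 : 0 ≤ z := by
    by_contra h
    linarith [mul_pos (show 0 < d by linarith) (neg_pos.2 (not_le.1 h))]
  have zN : 0 ≤ z * N := by positivity
  have eX : X * (κ * m) = d * (z * N) := by rw [hX]; field_simp
  have l6 : l * l ≤ l ^ 6 := by rw [← sq]; exact pow_le_pow_right₀ l1 (by norm_num)
  have h1 : X ≤ 32 * (d * b) := by
    refine le_of_mul_le_mul_right ?_ km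
    rw [div_le_iff₀ (by positivity)] at hb
    rw [eX]
    linarith [mul_le_mul_of_nonneg_left hb (show 0 ≤ d by linarith)]
  have h2 : 60000 * N ≤ X := by
    refine le_of_mul_le_mul_right ?_ km
    have : 60000 * (κ * m) ≤ d * z := by
      linarith [mul_le_mul_of_nonneg_right k2 (show 0 ≤ m by linarith)]
    rw [eX]
    linarith [mul_le_mul_of_nonneg_left this (show 0 ≤ N by linarith)]
  have h4 : y ≤ N / 1000 := by
    refine le_of_mul_le_mul_left ?_ (show 0 < d by linarith)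
    have a1 : y ≤ 16 * (z * N) * l ^ 4 := by
      linarith [mul_le_mul_of_nonneg_left k3 y0, mul_le_mul_of_nonneg_right hy l4.le]
    have a2 : d * z * (N * l ^ 4) ≤ l ^ 2 * (N * l ^ 4) :=
      mul_le_mul_of_nonneg_right z2 (by positivity)
    have a3 : 320000 * l ^ 6 * N ≤ d * N := mul_le_mul_of_nonneg_right ld (by linarith)
    have a4 := mul_le_mul_of_nonneg_left a1 (show 0 ≤ d by linarith)
    have a5 : 0 ≤ d * N := by positivity
    linarith
  have h5 : d * b * y / N ≤ d * b / 1000 := by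
    rw [div_le_iff₀ (by linarith)]
    linarith [mul_le_mul_of_nonneg_left h4 (show 0 ≤ d * b by positivity)]
  have h6 : l * y ≤ X / 20000 := by
    refine le_of_mul_le_mul_right ?_ km
    have a1 : 320000 * (l * m) ≤ d := by
      linarith [mul_le_mul_of_nonneg_left ml (show 0 ≤ l by linarith)]
    have a2 := mul_le_mul_of_nonneg_left hy (show 0 ≤ l * m by positivity)
    have a3 := mul_le_mul_of_nonneg_right a1 zN
    linarith
  have h7 : l * b ≤ d * b / 4000 := by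
    have : l ≤ d / 4000 := by
      linarith [mul_le_mul_of_nonneg_left l1 (show 0 ≤ l by linarith)]
    linarith [mul_le_mul_of_nonneg_right this b0]
  have h8 : 5 * N / d ^ 2 ≤ 5 * N := div_le_self (by linarith) (one_le_pow₀ d1)
  have h9 : X / 800 ≤ s := by linarith
  have h10 : Bd ≤ N ^ 2 / 10 := by
    by_contra hh
    have a0 : N ^ 2 / 10 < Bd := not_le.1 hh
    have a1 : c * (1000 * d ^ 2 * l ^ 8) ≤ 1 := (le_div_iff₀ (by positivity)).1 hc
    have a2 : 1 ≤ (κ * l ^ 4) ^ 2 := one_le_pow₀ k3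
    have a3 := mul_le_mul_of_nonneg_right hB (show 0 ≤ 1000 * l ^ 8 by positivity)
    have a4 := mul_le_mul_of_nonneg_left a1 (sq_nonneg N)
    have a5 := mul_le_mul_of_nonneg_left a2 (show 0 ≤ Bd by linarith [sq_nonneg N])
    linarith [sq_nonneg N]
  have h11 : 75 * N ≤ s := by linarith
  have h12 : (X / 800) ^ 2 ≤ s ^ 2 := pow_le_pow_left₀ (by linarith) h9 2
  have h13 : (75 * N) ^ 2 ≤ s ^ 2 := pow_le_pow_left₀ (by linarith) h11 2
  linarith [sq_nonneg X, sq_nonneg s, mul_nonneg (show 0 ≤ s by linarith) (show 0 ≤ s - 75 by linarith)]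

end TopCntJ

open TopCntJ in
theorem stTopCnt : StTopCnt := by
  classical
  filter_upwards [num] with d ⟨d1, l1, m1, ml, ld, lm⟩
  have d1' : (1 : ℝ) ≤ d := by exact_mod_cast d1
  refine ⟨1 / (1000 * d ^ 2 * ell d ^ 8), by positivity,
    fun V E _ _ _ _ _ C c e y κ TT r Z A w J μ hR he hz1 hz2 k1 k2 hcl => ?_⟩
  obtain ⟨hd, -, ⟨-, -, -, ha, hb, -⟩, -, hμ, hc, -⟩ := hR
  have k0 : 0 < κ := lt_of_lt_of_le (by positivity) k1
  have N1 : (1 : ℝ) ≤ Fintype.card V := by exact_mod_cast Fintype.card_pos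
  obtain ⟨Bd, hB, hP⟩ := swP_ge Z A hd J μ k0
  have eX : d * zz μ crd * Fintype.card V / (2000 * κ * lll d)
      = d * zz μ crd * Fintype.card V / (κ * lll d) / 2000 := by
    rw [div_div]; congr 1; ring
  rw [eX]
  refine arith d1' l1 m1 ml ld N1 k1 k2 ?_ ?_ (Nat.cast_nonneg _) (Nat.cast_nonneg _) ?_ ?_
    (swS_ge ha hb μ κ) (hc.trans he) hB hP rfl
  · rw [z1, div_le_iff₀ (by linarith)] at hz1
    linarith
  · refine hz2.trans ?_
    rw [← Real.rpow_natCast]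
    exact Real.rpow_le_rpow_of_exponent_le l1 (by norm_num)
  · refine hcl.trans ?_
    rw [← nsmul_eq_mul]
    refine sum_le_card_nsmul _ _ _ fun v hv => ?_
    linarith [hμ.kt_le_mn (crd v), (mem_filter.1 hv).2.2]
  · have e1 : zz μ crd * Fintype.card V = ∑ v, kt μ (crd v) := by
      rw [zz, avg, div_mul_cancel₀ _ (by linarith)]
    rw [e1, ← nsmul_eq_mul]
    refine le_trans (card_nsmul_le_sum _ (fun v => kt μ (crd v)) _ fun v hv => ?_)
      (sum_le_sum_of_subset_of_nonneg (subset_univ _) fun v _ _ => hμ.kt_nonneg _)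
    exact (mem_filter.1 hv).2.trans (hμ.mn_le_kt _)

end Pool.Agent.MP_32a90a_pr.D

end

section

set_option autoImplicit false
set_option linter.unusedSectionVars false

namespace Pool.Agent.MP_32a90a_pr.D

open Finset Equiv Filter Pool.Agent.MP_32a90a_pr Pool.Agent.MP_32a90a_pr.L

namespace TopSwJ

lemma card_ind {α : Type} [Fintype α] (T : Finset α) : (T.card : ℝ) = ∑ a, ind (a ∈ T) := by
  classical
  rw [sum_ind, filter_mem_eq_inter, univ_inter]

lemma avg_ind_eq (c : Bool × Bool) : avg (fun b => ind (c = b)) = 1 / 4 := by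
  rw [avg, sum_ind, Finset.filter_eq]
  simp

lemma abs_swE (a b c e : Bool) (a' b' c' e' : Bool) :
    |swE (sgn a * sgn a') (sgn b * sgn b') (sgn c * sgn c') (sgn e * sgn e')| ≤ 2 := by
  have k : ∀ x y : Bool, sgn x * sgn y = sgn (x == y) := fun x y => by
    cases x <;> cases y <;> simp [sgn]
  rw [k, k, k, k]
  cases (a == a') <;> cases (b == b') <;> cases (c == c') <;> cases (e == e') <;>
    norm_num [swE, sgn]

lemma sgn_ne {j x y : Bool} (h : j = true ↔ x ≠ y) : sgn j = -(sgn x * sgn y) := by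
  cases j <;> cases x <;> cases y <;> simp [sgn] at h ⊢

lemma sgn_bne (x y : Bool) : sgn (x != y) = -(sgn x * sgn y) := by
  cases x <;> cases y <;> simp [sgn]

lemma sgn_beq (x y : Bool) : sgn (x == y) = sgn x * sgn y := by
  cases x <;> cases y <;> simp [sgn]

variable {V E : Type} [Fintype V] [DecidableEq V] [Nonempty V] [Fintype E] [DecidableEq E]

lemma ex_maj {μ : (V → Bool) → ℝ} (h : Prob μ) (v : V) :
    (Ex μ fun σ => ind (crd v σ ≠ maj μ v)) = mn μ (crd v) := by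
  have e : ∀ σ : V → Bool, ind (crd v σ ≠ maj μ v) = ind (crd v σ = !maj μ v) := fun σ =>
    ind_congr (by cases crd v σ <;> cases maj μ v <;> simp)
  rw [Ex_congr e, h.Ex_ind_bool, mn, maj]
  by_cases h0 : 0 ≤ mm μ (crd v)
  · rw [abs_of_nonneg h0]
    simp [h0, sgn, sub_eq_add_neg]
  · rw [abs_of_neg (not_le.1 h0)]
    simp [h0, sgn]

lemma EP_sum (P : Pk V E) (w0 : E × Bool → V) {ι : Type} (T : Finset ι)
    (F : ι → (E × Bool → V) → (E → Bool) → ((V → Bool) → ℝ) → ℝ) :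
    (P.EP w0 fun w J μ => ∑ k ∈ T, F k w J μ) = ∑ k ∈ T, P.EP w0 (F k) := by
  unfold Pk.EP Sys.EN Cas.EN
  rw [← ED_sum]
  exact congrArg _ (funext fun w => funext fun J => Cas.P_sum _ _)

/-- the event before the switch -/
def Gp (P : Pk V E) (z κ e : ℝ) (i i' : E) (w : E × Bool → V) (J : E → Bool)
    (μ : (V → Bool) → ℝ) : Prop :=
  (z ≤ zz μ crd ∧ zz μ crd ≤ 2 * z ∧ c2 μ crd ≤ e) ∧ (i, i') ∈ swP P.Z P.A w J μ κ

/-- the event after the switch -/
def Gq (P : Pk V E) (z κ : ℝ) (i : E) (w : E × Bool → V) (μ : (V → Bool) → ℝ) : Prop :=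
  (z / 2 ≤ zz μ crd ∧ zz μ crd ≤ 3 * z) ∧ i ∈ fair P.Z P.A ∧
    w (i, false) ∈ cls μ (κ / 5) (5 * κ) ∧ w (i, true) ∈ cls μ (κ / 5) (5 * κ)

/-- the new signs -/
noncomputable def bt (i i' : E) (w : E × Bool → V) (μ : (V → Bool) → ℝ) : Bool × Bool :=
  (maj μ (w (i, false)) != maj μ (w (i', false)), maj μ (w (i, true)) == maj μ (w (i', true)))

/-- the signs after the switch -/
def Jb (J : E → Bool) (i i' : E) (b : Bool × Bool) : E → Bool :=
  Function.update (Function.update J i b.1) i' b.2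

/-- the change of the energy -/
noncomputable def Dm (i i' : E) (w : E × Bool → V) (μ : (V → Bool) → ℝ) (_g σ : V → Bool) : ℝ :=
  swE (sgn (σ (w (i, false))) * sgn (maj μ (w (i, false))))
    (sgn (σ (w (i', false))) * sgn (maj μ (w (i', false))))
    (sgn (σ (w (i, true))) * sgn (maj μ (w (i, true))))
    (sgn (σ (w (i', true))) * sgn (maj μ (w (i', true))))

/-- the stability of the width -/
def Wd (P : Pk V E) (d : ℕ) (s e : ℝ) : Prop :=
  ∀ (w : E × Bool → V) (S S' : Sys (V → Bool) (V → Bool) (cav P.U))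
    (D : (V → Bool) → (V → Bool) → ℝ) (γ : V → Bool), Deg w d → S.Par d → S.β = P.β →
    S.Near S' D ∅ (dlq d) → (∀ g σ, |D g σ| ≤ 3 * d) → c2 (S.mu (rS P.T) (rS P.T γ)) crd ≤ e →
    |zz (S.mu (rS P.T) (rS P.T γ)) crd - zz (S'.mu (rS P.T) (rS P.T γ)) crd| ≤ s

variable {P : Pk V E} {d : ℕ} {z κ e s : ℝ} {i i' : E} {w : E × Bool → V} {J : E → Bool}

lemma Gp.spec {μ : (V → Bool) → ℝ} (h : Gp P z κ e i i' w J μ) :
    i ≠ i' ∧ |cv μ (crd (w (i, false))) (crd (w (i', false)))| ≤ κ / 10 ∧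
      ∀ k, k = i ∨ k = i' → k ∈ fair P.Z P.A ∧ κ ≤ mn μ (crd (w (k, false))) ∧
        mn μ (crd (w (k, false))) ≤ 2 * κ ∧ mn μ (crd (w (k, true))) ≤ κ / 16 ∧
        sgn (J k) = -(sgn (maj μ (w (k, false))) * sgn (maj μ (w (k, true)))) := by
  obtain ⟨-, h⟩ := h
  rw [swP, mem_filter, mem_product] at h
  refine ⟨h.2.1, h.2.2, fun k hk => ?_⟩
  have hk' : k ∈ swS P.Z P.A w J μ κ := by
    rcases hk with rfl | rfl
    · exact h.1.1
    · exact h.1.2
  rw [swS, mem_filter, cls, mem_filter, flex, mem_filter] at hk'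
  obtain ⟨a1, ⟨-, a2, a3⟩, a4, a5⟩ := hk'
  exact ⟨a1, a2, a3, (not_le.1 fun h' => a4 ⟨mem_univ _, h'⟩).le, sgn_ne a5⟩

lemma Gp.near (hN : StNearSw) (hOk : P.Ok d) (hw : Deg w d) {μ : (V → Bool) → ℝ}
    (h : Gp P z κ e i i' w J μ) :
    (P.full w J).Near (P.full (w ∘ swap (i, true) (i', false)) (Jb J i i' (bt i i' w μ)))
      (Dm i i' w μ) ∅ (dlq d) := by
  obtain ⟨a1, -, a2⟩ := h.spec
  exact hN V E d P w J i i' _ _ ![maj μ (w (i, false)), maj μ (w (i', false)),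
    maj μ (w (i, true)), maj μ (w (i', true))] hOk hw a1 (a2 i (Or.inl rfl)).1
    (a2 i' (Or.inr rfl)).1 (a2 i (Or.inl rfl)).2.2.2.2 (a2 i' (Or.inr rfl)).2.2.2.2
    (sgn_bne _ _) (sgn_beq _ _)

lemma abs_Dm (μ : (V → Bool) → ℝ) (g σ : V → Bool) : |Dm i i' w μ g σ| ≤ 2 :=
  abs_swE _ _ _ _ _ _ _ _

lemma node (hN : StNearSw) (hSw : StSw) (hT : StTower) (hOk : P.Ok d) (hLg : P.Lg d)
    (hw : Deg w d) (hW : Wd P d s e) (hs0 : 0 ≤ s) (hs : s ≤ z / 2) (hκ : sm 200 d ≤ κ)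
    (γ : V → Bool) (h : Gp P z κ e i i' w J (P.mu w J (rS P.T γ))) :
    Gq P z κ i (w ∘ swap (i, true) (i', false)) (P.mu (w ∘ swap (i, true) (i', false))
      (Jb J i i' (bt i i' w (P.mu w J (rS P.T γ)))) (rS P.T γ)) := by
  have hn := h.near hN hOk hw
  obtain ⟨a1, a2, a3⟩ := h.spec
  obtain ⟨hd, hP, -, -, hb, -⟩ := hLg
  have hd3 : 3 ≤ d := by omega
  have hd' : (3 : ℝ) ≤ d := by exact_mod_cast hd3
  have hPar : (P.full w J).Par d := hP _ _ _
  have hp : Prob (P.mu w J (rS P.T γ)) :=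
    (hT _ _ _ (P.full w J).cas (fun g => rS P.T g.1) (hPar.ok hd3)).1 (γ, fun _ => none)
      (Sys.p_pos hPar.2.2.2.2.1 (hPar.rho_lt hd3) _)
  have b1 := abs_le.1 (hW w _ _ _ γ hw hPar rfl hn
    (fun g σ => (abs_Dm _ g σ).trans (by linarith)) h.1.2.2)
  obtain ⟨c1, c2, c3, c4, -⟩ := a3 i (Or.inl rfl)
  obtain ⟨-, d2, d3, d4, -⟩ := a3 i' (Or.inr rfl)
  have b2 := hSw _ _ _ (P.full w J) d _
    (fun k => crd (![w (i, false), w (i', false), w (i, true), w (i', true)] k))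
    (fun k => maj (P.mu w J (rS P.T γ))
      (![w (i, false), w (i', false), w (i, true), w (i', true)] k))
    κ (dlq d) _ (rS P.T) γ hd hPar hn hb hκ
    (fun k hk => by
      have e := ex_maj hp (![w (i, false), w (i', false), w (i, true), w (i', true)] k)
      unfold Pk.mu at e ⊢
      rw [e]
      fin_cases k
      · exact ⟨c2, c3, mn_le_half _⟩
      · exact ⟨d2, d3, mn_le_half _⟩
      · simp at hk
      · simp at hk)
    (fun k hk => by
      have e := ex_maj hp (![w (i, false), w (i', false), w (i, true), w (i', true)] k)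
      unfold Pk.mu at e ⊢
      rw [e]
      fin_cases k
      · simp at hk
      · simp at hk
      · exact c4
      · exact d4) a2
  have e1 : (w ∘ swap (i, true) (i', false)) (i, false) = w (i, false) := by
    rw [Function.comp_apply, swap_apply_of_ne_of_ne (by simp) (by simp [a1])]
  have e2 : (w ∘ swap (i, true) (i', false)) (i, true) = w (i', false) := by
    rw [Function.comp_apply, swap_apply_left]
  have z1 := h.1.1
  have z2 := h.1.2.1
  unfold Pk.mu at z1 z2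
  refine ⟨⟨?_, ?_⟩, c1, ?_, ?_⟩
  · unfold Pk.mu at b1 ⊢
    linarith [b1.2]
  · unfold Pk.mu at b1 ⊢
    linarith [b1.1]
  · rw [e1, cls, mem_filter]
    exact ⟨mem_univ _, b2 0 (by simp)⟩
  · rw [e2, cls, mem_filter]
    exact ⟨mem_univ _, b2 1 (by simp)⟩

lemma one (hN : StNearSw) (hSw : StSw) (hSt : StStab) (hT : StTower) (hOk : P.Ok d)
    (hLg : P.Lg d) (hw : Deg w d) (hW : Wd P d s e) (hs0 : 0 ≤ s) (hs : s ≤ z / 2)
    (hκ : sm 200 d ≤ κ) (b : Bool × Bool) :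
    4 / 5 * ((P.full w J).P fun g _ => ind (Gp P z κ e i i' w J (P.mu w J (rS P.T g.1)) ∧
        bt i i' w (P.mu w J (rS P.T g.1)) = b)) - sm 250 d
      ≤ (P.full (w ∘ swap (i, true) (i', false)) (Jb J i i' b)).EN (rS P.T) fun n =>
          ind (Gq P z κ i (w ∘ swap (i, true) (i', false))
            (P.mu (w ∘ swap (i, true) (i', false)) (Jb J i i' b) n)) := by
  have hd := hLg.1
  have hd3 : 3 ≤ d := by omega
  have hd' : (3 : ℝ) ≤ d := by exact_mod_cast hd3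
  have hPar : ∀ w J, (P.full w J).Par d := fun w J => hLg.2.1 _ _ _
  by_cases h : ∃ γ, Gp P z κ e i i' w J (P.mu w J (rS P.T γ)) ∧
      bt i i' w (P.mu w J (rS P.T γ)) = b
  · obtain ⟨γ, h1, h2⟩ := h
    have hn := h1.near hN hOk hw
    rw [h2] at hn
    refine le_trans ?_ ((hSt _ _ _ (P.full w J) d _ _ ∅ (dlq d) hd (hPar w J) hn (by simp)
      hLg.2.2.2.2.2.1 fun g σ => (abs_Dm _ g σ).trans (by linarith)).2.2.2 2 (abs_Dm _)
      hLg.2.2.2.2.1 (fun g => ind (Gp P z κ e i i' w J (P.mu w J (rS P.T g.1)) ∧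
        bt i i' w (P.mu w J (rS P.T g.1)) = b)) _ (fun _ => ⟨ind_nonneg _, ind_le_one _⟩)
      (fun _ => ⟨ind_nonneg _, ind_le_one _⟩) fun g _ => ind_mono fun hg => ?_)
    · refine sub_le_sub_right (mul_le_mul_of_nonneg_right ?_
        (Cas.P_nonneg ((hPar w J).ok hd3) fun _ _ => ind_nonneg _)) _
      linarith [Real.add_one_le_exp (-(2 * (P.full w J).y * 2)), (hPar w J).2.2.1]
    · have := node hN hSw hT hOk hLg hw hW hs0 hs hκ g.1 hg.1
      rwa [hg.2] at this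
  · have e0 : ((P.full w J).P fun g _ => ind (Gp P z κ e i i' w J (P.mu w J (rS P.T g.1)) ∧
        bt i i' w (P.mu w J (rS P.T g.1)) = b)) ≤ 0 :=
      Cas.P_le_const ((hPar w J).ok hd3) fun g _ => (ind_neg fun hg => h ⟨g.1, hg⟩).le
    refine le_trans (by linarith [sm_pos 250 d]) (Cas.P_nonneg ((hPar _ _).ok hd3)
      fun _ _ => ind_nonneg _)

lemma pair (hX : StXS) (hN : StNearSw) (hSw : StSw) (hSt : StStab) (hT : StTower) (hOk : P.Ok d)
    (hLg : P.Lg d) {w0 : E × Bool → V} (hw : Deg w0 d) (hW : Wd P d s e) (hs0 : 0 ≤ s)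
    (hs : s ≤ z / 2) (hκ : sm 200 d ≤ κ) (i i' : E) :
    (P.EP w0 fun w J μ => ind (Gp P z κ e i i' w J μ)) / 5 - sm 250 d
      ≤ P.EP w0 fun w _ μ => ind (Gq P z κ i w μ) := by
  have hd := hLg.1
  have hd3 : 3 ≤ d := by omega
  have hok : ∀ w J, (P.full w J).cas.Ok := fun w J => (hLg.2.1 _ _ _).ok hd3
  by_cases h : i = i'
  · have e0 : (P.EP w0 fun w J μ => ind (Gp P z κ e i i' w J μ)) ≤ 0 :=
      ED_le_const fun w J => Cas.P_le_const (hok w J) fun g _ =>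
        (ind_neg fun hg => hg.spec.1 h).le
    refine le_trans (by linarith [sm_pos 250 d]) (ED_nonneg fun w J =>
      Cas.P_nonneg (hok w J) fun _ _ => ind_nonneg _)
  unfold Pk.EP
  rw [hX V E w0 (fun w J => (P.full w J).EN (rS P.T) fun n => ind (Gq P z κ i w (P.mu w J n)))
    (swap (i, true) (i', false)) i i' h, ← ED_div, ← ED_const (w0 := w0) (sm 250 d), ← ED_sub]
  refine ED_mono_deg hw fun w J hw' => le_trans ?_
    (avg_mono fun b => one (J := J) hN hSw hSt hT hOk hLg hw' hW hs0 hs hκ b)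
  rw [avg_sub, avg_const, avg_mul, ← Cas.P_avg]
  refine sub_le_sub_right (le_of_eq ?_) _
  unfold Sys.EN Cas.EN
  rw [← Cas.P_mul, div_eq_mul_inv, ← Cas.P_mul_right]
  refine Cas.P_congr fun g _ => ?_
  simp only [ind_and]
  rw [avg_mul, avg_ind_eq]
  ring

end TopSwJ

open TopSwJ in
theorem stTopSw (hXS : StXS) (hNearSw : StNearSw) (hSw : StSw) (hStab : StStab) (hWid : StWid)
    (hTower : StTower) : StTopSw := by
  filter_upwards [eventually_ge_atTop 3] with d hd3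
  have hz1 : 0 < z1 d / 2 := by
    have h1 : 0 < ell d := lt_of_lt_of_le one_pos (one_le_log hd3)
    have h2 : (0 : ℝ) < d := by exact_mod_cast (by omega : 0 < d)
    unfold z1
    positivity
  obtain ⟨e, he, hW⟩ := hWid d _ hz1
  refine ⟨e, he, ?_⟩
  intro V E _ _ _ _ _ w0 P z κ hw hOk hLg hz hκ
  have hW' : Wd P d (z1 d / 2) e := fun w S S' D γ a1 a2 a3 a4 a5 a6 =>
    (hW V E P w S S' D ∅ γ hOk hLg a1 a2 a3 a4 (by simp) a5 (Or.inl a6)).1
  have e1 : (P.EP w0 fun w J μ => ind (z ≤ zz μ crd ∧ zz μ crd ≤ 2 * z ∧ c2 μ crd ≤ e) *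
      ((swP P.Z P.A w J μ κ).card : ℝ))
      = ∑ p : E × E, P.EP w0 fun w J μ => ind (Gp P z κ e p.1 p.2 w J μ) := by
    rw [← EP_sum]
    refine congrArg _ (funext fun w => funext fun J => funext fun μ => ?_)
    rw [card_ind, mul_sum]
    exact sum_congr rfl fun p _ => (ind_and _ _).symm
  have e2 : (P.EP w0 fun w _ μ => ind (z / 2 ≤ zz μ crd ∧ zz μ crd ≤ 3 * z) * nB P.Z P.A w μ κ)
      = ∑ i : E, P.EP w0 fun w _ μ => ind (Gq P z κ i w μ) := by
    rw [← EP_sum]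
    refine congrArg _ (funext fun w => funext fun J => funext fun μ => ?_)
    rw [nB, card_ind, mul_sum]
    refine sum_congr rfl fun p _ => ?_
    rw [← ind_and, mem_filter]
    rfl
  have e3 := sum_le_sum (s := (univ : Finset (E × E))) fun p _ =>
    pair hXS hNearSw hSw hStab hTower hOk hLg hw hW' hz1.le (by linarith : z1 d / 2 ≤ z / 2) hκ
      p.1 p.2
  rw [sum_sub_distrib, ← sum_div, ← e1] at e3
  simp only [Fintype.sum_prod_type, sum_const, card_univ, Fintype.card_prod, nsmul_eq_mul,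
    ← mul_sum] at e3
  rw [e2]
  push_cast at e3
  linarith

end Pool.Agent.MP_32a90a_pr.D

end

section

set_option autoImplicit false

namespace Pool.Agent.MP_32a90a_pr.D

open Finset Equiv Filter Pool.Agent.MP_32a90a_pr Pool.Agent.MP_32a90a_pr.L

namespace ZAJ

lemma c2_nonneg {Sg ι : Type} [Fintype Sg] [Fintype ι] (μ : Sg → ℝ) (ph : ι → Sg → Bool) :
    0 ≤ c2 μ ph := avg_nonneg fun _ => avg_nonneg fun _ => sq_nonneg _

lemma zz_nonneg {Sg ι : Type} [Fintype Sg] [Fintype ι] {μ : Sg → ℝ} (h : Prob μ)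
    (ph : ι → Sg → Bool) : 0 ≤ zz μ ph := avg_nonneg fun _ => h.kt_nonneg _

lemma zz_le_one {Sg ι : Type} [Fintype Sg] [Fintype ι] (μ : Sg → ℝ) (ph : ι → Sg → Bool) :
    zz μ ph ≤ 1 := avg_le_const zero_le_one fun _ => (kt_le_half _).trans (by norm_num)

lemma prob (hTower : StTower) {Sg G0 A Nd : Type} [Fintype Sg] [Nonempty Sg] [Fintype G0]
    [Nonempty G0] [Fintype A] [DecidableEq A] {S : Sys Sg G0 A} {d : ℕ} (hp : S.Par d)
    (hd : 3 ≤ d) (nd : G0 → Nd) (g : Gam G0 A) : Prob (S.mu nd (nd g.1)) :=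
  (hTower Sg _ Nd S.cas (fun g => nd g.1) (hp.ok hd)).1 g
    (Sys.p_pos hp.2.2.2.2.1 (hp.rho_lt hd) g)

variable {V E : Type} [Fintype V] [DecidableEq V] [Fintype E] [DecidableEq E] {d : ℕ}
  {P : Pk V E}

/-- the part of StWid that is used here -/
def Wd (P : Pk V E) (d : ℕ) (s e : ℝ) : Prop :=
  ∀ (w : E × Bool → V) (S S' : Sys (V → Bool) (V → Bool) (cav P.U))
    (D : (V → Bool) → (V → Bool) → ℝ) (I : Finset (cav P.U)) (γ : V → Bool),
    Deg w d → S.Par d → S.β = P.β → S.Near S' D I (dlq d) → I.card ≤ d + 2 →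
    (∀ g σ, |D g σ| ≤ 3 * d) →
    (c2 (S.mu (rS P.T) (rS P.T γ)) crd ≤ e ∨ c2 (S'.mu (rS P.T) (rS P.T γ)) crd ≤ e) →
    |zz (S.mu (rS P.T) (rS P.T γ)) crd - zz (S'.mu (rS P.T) (rS P.T γ)) crd| ≤ s ∧
      |P.zA w (S.mu (rS P.T) (rS P.T γ)) - P.zA w (S'.mu (rS P.T) (rS P.T γ))| ≤ s ∧
      c2 (S.mu (rS P.T) (rS P.T γ)) crd ≤ s

/-- mean width at the first end of the slot i on narrow nodes -/
noncomputable def Fi (P : Pk V E) (z : ℝ) (i : E) (w : E × Bool → V) (J : E → Bool) : ℝ :=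
  (P.full w J).EN (rS P.T) fun n =>
    ind (zz (P.mu w J n) crd ≤ 2 * z) * kt (P.mu w J n) (crd (w (i, false)))

/-- narrow and pure nodes of the cut system -/
def Ev (P : Pk V E) (w : E × Bool → V) (J : E → Bool) (i : E) (z e : ℝ) (n : V → Bool) : Prop :=
  zz ((P.cut w J i).mu (rS P.T) n) crd ≤ z ∧ c2 ((P.cut w J i).mu (rS P.T) n) crd ≤ e

/-- the pool width of the cut system on these nodes -/
noncomputable def Hc (P : Pk V E) (w : E × Bool → V) (J : E → Bool) (i : E) (z e : ℝ) : ℝ :=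
  (P.cut w J i).EN (rS P.T) fun n =>
    ind (Ev P w J i z e n) * zz ((P.cut w J i).mu (rS P.T) n) (P.cut w J i).sp

/-- the mean after the edge exchange -/
noncomputable def Mi (P : Pk V E) (z : ℝ) (i : E) (w : E × Bool → V) (J : E → Bool) : ℝ :=
  avg fun a : cav P.U => avg fun a' : cav P.U => avg fun b : Bool =>
    ind (a ≠ a') * Fi P z i (w ∘ ex i a a') (Function.update J i b)

lemma Fi_nonneg (hTower : StTower) (hL : P.Lg d) (z : ℝ) (i : E) (w : E × Bool → V)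
    (J : E → Bool) : 0 ≤ Fi P z i w J := by
  have hd : 3 ≤ d := by have := hL.1; omega
  have hp : (P.full w J).Par d := hL.2.1 _ _ _
  exact Cas.P_nonneg (hp.ok hd) fun g _ =>
    mul_nonneg (ind_nonneg _) ((prob hTower hp hd (rS P.T) g).kt_nonneg _)

lemma Fi_bd (hTower : StTower) (hL : P.Lg d) (z : ℝ) (i : E) (w : E × Bool → V)
    (J : E → Bool) : |Fi P z i w J| ≤ 1 := by
  have hd : 3 ≤ d := by have := hL.1; omega
  have hp : (P.full w J).Par d := hL.2.1 _ _ _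
  rw [abs_of_nonneg (Fi_nonneg hTower hL z i w J)]
  exact Cas.P_le_const (hp.ok hd) fun g _ => mul_le_one₀ (ind_le_one _)
    ((prob hTower hp hd (rS P.T) g).kt_nonneg _) ((kt_le_half _).trans (by norm_num))

lemma Mi_nonneg (hTower : StTower) (hL : P.Lg d) (z : ℝ) (i : E) (w : E × Bool → V)
    (J : E → Bool) : 0 ≤ Mi P z i w J :=
  avg_nonneg fun _ => avg_nonneg fun _ => avg_nonneg fun _ =>
    mul_nonneg (ind_nonneg _) (Fi_nonneg hTower hL z i _ _)

variable [Nonempty V]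

/-- from the full system to the cut system -/
lemma stepA (hNearCut : StNearCut) (hStab : StStab) (hTower : StTower) (hO : P.Ok d)
    (hL : P.Lg d) {s s' e1 e2 z : ℝ} (hs : 0 ≤ s) (h1 : s' ≤ s) (h2 : s' ≤ e1) (he : 0 < e2)
    (hW : Wd P d s' e2) {w : E × Bool → V} (hw : Deg w d) (J : E → Bool) (i : E) :
    ((P.full w J).EN (rS P.T) fun n => ind (zz (P.mu w J n) crd ≤ z) * P.zA w (P.mu w J n))
      ≤ 101 / 100 * (Hc P w J i (z + s) e1 + sm 250 d) + s
        + ((P.full w J).EN (rS P.T) fun n => c2 (P.mu w J n) crd) / e2 := by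
  have hd : 3 ≤ d := by have := hL.1; omega
  have hd' : (3 : ℝ) ≤ d := by exact_mod_cast hd
  have hp : (P.cut w J i).Par d := hL.2.1 _ _ _
  have hp' : (P.full w J).Par d := hL.2.1 _ _ _
  obtain ⟨hn, hn', hs1⟩ := (hNearCut V E d P w J hO hw).1 i
  obtain ⟨f, hf⟩ : ∃ f : Gam (V → Bool) (cav P.U) → ℝ, f = fun g =>
      ind (Ev P w J i (z + s) e1 (rS P.T g.1)) *
        zz ((P.cut w J i).mu (rS P.T) (rS P.T g.1)) (P.cut w J i).sp := ⟨_, rfl⟩
  have f01 : ∀ g, 0 ≤ f g ∧ f g ≤ 1 := fun g => by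
    have p1 := zz_nonneg (prob hTower hp hd (rS P.T) g) (P.cut w J i).sp
    rw [hf]
    exact ⟨mul_nonneg (ind_nonneg _) p1, mul_le_one₀ (ind_le_one _) p1 (zz_le_one _ _)⟩
  have a1 := (hStab _ _ _ (P.full w J) d _ _ _ _ hL.1 hp' hn' (by simp) hL.2.2.2.2.2.1
    fun g σ => by rw [abs_neg]; exact (hs1 σ).trans (by linarith)).2.2.2 1
    (fun g σ => by rw [abs_neg]; exact hs1 σ) hL.2.2.2.2.1 f f f01 f01 fun _ _ => le_rfl
  have a2 : ((P.cut w J i).P fun g _ => f g) = Hc P w J i (z + s) e1 := by rw [hf]; rfl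
  have a3 : 0 ≤ (P.full w J).P fun g _ => f g := Cas.P_nonneg (hp'.ok hd) fun g _ => (f01 g).1
  have a4 : 998 / 1000 ≤ Real.exp (-(2 * (P.full w J).y * 1)) := by
    have := Real.add_one_le_exp (-(2 * (P.full w J).y * 1))
    have := hp'.2.2.1
    linarith
  have a5 := mul_le_mul_of_nonneg_right a4 a3
  have a6 : ((P.full w J).EN (rS P.T) fun n =>
      ind (zz (P.mu w J n) crd ≤ z) * P.zA w (P.mu w J n))
      ≤ (P.full w J).P fun g _ => f g + s + e2⁻¹ * c2 (P.mu w J (rS P.T g.1)) crd := by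
    refine Cas.P_mono (hp'.ok hd) fun g _ => ?_
    beta_reduce
    have b0 := (f01 g).1
    have b1 : 0 ≤ e2⁻¹ * c2 (P.mu w J (rS P.T g.1)) crd :=
      mul_nonneg (inv_nonneg.2 he.le) (c2_nonneg _ _)
    by_cases hz : zz (P.mu w J (rS P.T g.1)) crd ≤ z
    · rw [ind_pos hz, one_mul]
      by_cases hc : c2 (P.mu w J (rS P.T g.1)) crd ≤ e2
      · obtain ⟨c1, c2', c3⟩ := hW w _ _ _ _ g.1 hw hp rfl hn (by simp)
          (fun g σ => (hs1 σ).trans (by linarith)) (Or.inr hc)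
        have c4 : Ev P w J i (z + s) e1 (rS P.T g.1) :=
          ⟨by have := (abs_le.1 c1).2; unfold Pk.mu at hz; linarith, c3.trans h2⟩
        have c5 : f g = P.zA w ((P.cut w J i).mu (rS P.T) (rS P.T g.1)) := by
          rw [hf]
          simp only [ind_pos c4, one_mul]
          rfl
        have := (abs_le.1 c2').1
        unfold Pk.mu at b1 ⊢
        linarith
      · have c1 : 1 ≤ e2⁻¹ * c2 (P.mu w J (rS P.T g.1)) crd :=
          (one_le_inv_mul₀ he).2 (not_le.1 hc).le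
        have c3 : P.zA w (P.mu w J (rS P.T g.1)) ≤ 1 := zz_le_one _ _
        linarith
    · rw [ind_neg hz, zero_mul]
      linarith
  rw [Sys.P, Cas.P_add, Cas.P_add, Cas.P_mul, Cas.P_const (hp'.ok hd)] at a6
  have a7 : ((P.full w J).EN (rS P.T) fun n => c2 (P.mu w J n) crd) / e2
      = e2⁻¹ * (P.full w J).cas.P fun g _ => c2 (P.mu w J (rS P.T g.1)) crd := by
    rw [div_eq_inv_mul]; rfl
  rw [a7, ← a2]
  unfold Sys.P at a1 a3 a5 ⊢
  linarith

/-- from the cut system to the exchanged systems -/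
lemma stepB (hJoinCut : StJoinCut) (hETb : StETb) (hTower : StTower) (hO : P.Ok d)
    (hL : P.Lg d) {s e1 z lam : ℝ} (hs : 2 * s ≤ z) (hW : Wd P d s e1) {w : E × Bool → V}
    (hw : Deg w d) (J : E → Bool) {i : E} (hi : i ∈ fair P.Z P.A)
    (hD : (P.cut w J i).D1 d lam) (hl : lam ≤ d / 2) :
    Hc P w J i (z + s) e1 ≤ lam / d + 8 * (Mi P z i w J + sm 100 d) := by
  have hd : 3 ≤ d := by have := hL.1; omega
  have hd' : (3 : ℝ) ≤ d := by exact_mod_cast hd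
  have hp : (P.cut w J i).Par d := hL.2.1 _ _ _
  obtain ⟨j1, j2⟩ := hJoinCut V E d P w J i hO hL hw hi
  have a1 := hETb _ _ _ (P.cut w J i) d lam _ _ (rS P.T) (Ev P w J i (z + s) e1) hL.1 hp hD hl j1
  have a2 : (avg fun a : cav P.U => avg fun a' : cav P.U => avg fun b : Bool => ind (a ≠ a') *
      (P.jn w J i a a' b).EN (rS P.T) fun n => ind (Ev P w J i (z + s) e1 n) *
        kt ((P.jn w J i a a' b).mu (rS P.T) n) ((P.cut w J i).sp a)) ≤ Mi P z i w J := by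
    refine avg_mono fun a => avg_mono fun a' => avg_mono fun b => ?_
    by_cases ha : a ≠ a'
    · refine mul_le_mul_of_nonneg_left ?_ (ind_nonneg _)
      obtain ⟨hn, e1', -⟩ := j2 a a' ha b
      have hp' : (P.jn w J i a a' b).Par d := hL.2.1 _ _ _
      have hI : ({a, a'} : Finset (cav P.U)).card ≤ 2 := card_le_two
      rw [Fi, e1']
      refine Cas.P_mono (hp'.ok hd) fun g _ => ?_
      refine mul_le_mul_of_nonneg_right (ind_mono fun hE => ?_)
        ((prob hTower hp' hd (rS P.T) g).kt_nonneg _)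
      have c1 := (hW w _ _ _ _ g.1 hw hp rfl hn (by omega) (fun g σ => by
        rw [Sys.De, abs_mul, abs_mul, abs_sgn, abs_sgn, abs_sgn]
        linarith) (Or.inl hE.2)).1
      have c2' := (abs_le.1 c1).1
      have c3 := hE.1
      show zz ((P.jn w J i a a' b).mu (rS P.T) (rS P.T g.1)) crd ≤ 2 * z
      linarith
    · rw [ind_neg ha, zero_mul, zero_mul]
  have a3 := a1.trans a2
  unfold Hc
  linarith

/-- the edge exchange -/
lemma stepC (hEX : StEX) (hTower : StTower) (hL : P.Lg d) (w0 : E × Bool → V) (z : ℝ) (i : E) :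
    ED w0 (Mi P z i) ≤ ED w0 (Fi P z i) + sm 300 d := by
  have hp : (P.full w0 fun _ => true).Par d := hL.2.1 _ _ _
  have hne := hp.nonempty
  have hU : P.U.Nonempty := by
    obtain ⟨a, ha⟩ := hne
    exact ⟨a.1, mem_cav.1 ha⟩
  have a1 := (abs_le.1 (hEX V E w0 P.U i (Fi P z i) 1 hU (Fi_bd hTower hL z i))).1
  have a2 : (1 : ℝ) / Fintype.card (cav P.U) ≤ sm 300 d := by
    rw [div_le_iff₀ (by exact_mod_cast Fintype.card_pos)]
    exact hp.2.2.2.2.2.2.2.2.2.2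
  have e : ED w0 (Mi P z i) = ED w0 fun w J => avg fun a : cav P.U => avg fun a' : cav P.U =>
      avg fun b : Bool => ind (a ≠ a') * Fi P z i (w ∘ ex i a a') (Function.update J i b) := rfl
  rw [e]
  linarith

/-- some fair slot has a small mean width -/
lemma stepD (hTower : StTower) (hO : P.Ok d) (hL : P.Lg d) {w0 : E × Bool → V} (hw : Deg w0 d)
    {z : ℝ} (hz : 0 ≤ z) : ∃ i ∈ fair P.Z P.A, ED w0 (Fi P z i) ≤ 5 * z := by
  have hd : 3 ≤ d := by have := hL.1; omega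
  have hd' : (1000 : ℝ) ≤ d := by exact_mod_cast hL.1
  have hV : (0 : ℝ) < Fintype.card V := by exact_mod_cast Fintype.card_pos
  have hE := card_half hw
  have a1 : (Fintype.card E : ℝ) ≤ (fair P.Z P.A).card + P.Z.card + P.A.card := by
    have : (univ : Finset E) ⊆ (fair P.Z P.A ∪ P.Z) ∪ P.A := fun i _ => by
      by_cases h1 : i ∈ P.Z
      · simp [h1]
      · by_cases h2 : i ∈ P.A
        · simp [h2]
        · simp [fair, h1, h2]
    have h := (card_le_card this).trans ((card_union_le _ _).trans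
      (Nat.add_le_add_right (card_union_le _ _) _))
    rw [card_univ] at h
    exact_mod_cast h
  have a2 : 2 / 5 * (d * Fintype.card V) ≤ ((fair P.Z P.A).card : ℝ) := by
    have b1 := hO.2.2.2.2.1
    have b2 := hL.2.2.2.2.2.2.2.1
    have b3 := hL.2.2.2.2.2.2.2.2.2.1
    have b4 := mul_le_mul_of_nonneg_right (sm_le_one (k := 300) (by norm_num) d) hV.le
    have b5 : 2 * tau d * Fintype.card E ≤ 1 / 100 * Fintype.card E :=
      mul_le_mul_of_nonneg_right (by linarith) (Nat.cast_nonneg _)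
    have b6 := mul_le_mul_of_nonneg_right hd' hV.le
    linarith
  have a3 : ∑ i ∈ fair P.Z P.A, ED w0 (Fi P z i) ≤ 2 * z * (d * Fintype.card V) := by
    rw [← ED_sum, ← ED_const (w0 := w0) (2 * z * (d * Fintype.card V))]
    refine ED_mono_deg hw fun w J hw' => ?_
    have hp : (P.full w J).Par d := hL.2.1 _ _ _
    refine (Cas.P_sum _ _).symm.trans_le (Cas.P_le_const (hp.ok hd) fun g _ => ?_)
    beta_reduce
    have p1 : Prob (P.mu w J (rS P.T g.1)) := prob hTower hp hd (rS P.T) g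
    generalize P.mu w J (rS P.T g.1) = μ at p1
    rw [← mul_sum]
    by_cases hh : zz μ crd ≤ 2 * z
    · rw [ind_pos hh, one_mul]
      have c1 : ∑ i ∈ fair P.Z P.A, kt μ (crd (w (i, false))) ≤ ∑ p, kt μ (crd (w p)) := by
        rw [Fintype.sum_prod_type]
        refine (sum_le_sum_of_subset_of_nonneg (subset_univ _) fun i _ _ =>
          p1.kt_nonneg _).trans (sum_le_sum fun i _ => ?_)
        rw [Fintype.sum_bool]
        linarith [p1.kt_nonneg (crd (w (i, true)))]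
      rw [sum_half hw' fun v => kt μ (crd v)] at c1
      have c3 : ∑ v, kt μ (crd v) ≤ 2 * z * Fintype.card V := (div_le_iff₀ hV).1 hh
      have c4 := mul_le_mul_of_nonneg_left c3 (Nat.cast_nonneg (α := ℝ) d)
      linarith
    · rw [ind_neg hh, zero_mul]
      positivity
  have a4 : (fair P.Z P.A).Nonempty := by
    rw [← card_pos]
    have : (0 : ℝ) < (fair P.Z P.A).card := lt_of_lt_of_le (by positivity) a2
    exact_mod_cast this
  refine exists_le_of_sum_le a4 (a3.trans ?_)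
  rw [sum_const, nsmul_eq_mul]
  nlinarith [mul_le_mul_of_nonneg_left a2 hz]

end ZAJ

open ZAJ in
theorem stZA (hPar : StPar) (hRigD : StRigD) (hD1 : StD1) (hNearCut : StNearCut)
    (hJoinCut : StJoinCut) (hStab : StStab) (hWid : StWid) (hETb : StETb) (hEX : StEX)
    (hTower : StTower) : StZA := by
  filter_upwards [hPar, eventually_ge_atTop 1000] with d hB hd
  have hd3 : 3 ≤ d := by omega
  have hd' : (1000 : ℝ) ≤ d := by exact_mod_cast hd
  have hd0 : (0 : ℝ) < d := by linarith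
  have hz : 1 / (d : ℝ) ≤ z1 d :=
    div_le_div_of_nonneg_right (Real.one_le_rpow (one_le_log hd3) (by norm_num)) hd0.le
  have hz0 : 0 < z1 d := lt_of_lt_of_le (by positivity) hz
  generalize z1 d = z at hz hz0 ⊢
  obtain ⟨e1, he1, hW1⟩ := hWid d (z / 100) (by positivity)
  obtain ⟨e2, he2, hW2⟩ := hWid d (min (z / 100) e1) (lt_min (by positivity) he1)
  obtain ⟨eR, heR, hR⟩ := hRigD d
  refine ⟨1 / d * min e2 eR, mul_pos (by positivity) (lt_min he2 heR), hB.mono ?_⟩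
  intro V E _ _ _ _ w0 hw hLg P r c' cp hE hlam
  obtain ⟨⟨hO, hG⟩, -, -, -, -, hC, -⟩ := hE
  have hL := hLg P hO
  have : Nonempty V := ⟨w0 (P.e, true)⟩
  have W1 : Wd P d (z / 100) e1 := fun w S S' D I γ h1 h2 h3 h4 h5 h6 h7 =>
    have h := hW1 V E P w S S' D I γ hO hL h1 h2 h3 h4 h5 h6 h7
    ⟨h.1, h.2.1, h.2.2.1⟩
  have W2 : Wd P d (min (z / 100) e1) e2 := fun w S S' D I γ h1 h2 h3 h4 h5 h6 h7 =>
    have h := hW2 V E P w S S' D I γ hO hL h1 h2 h3 h4 h5 h6 h7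
    ⟨h.1, h.2.1, h.2.2.1⟩
  obtain ⟨i, hi, hF⟩ := stepD hTower hO hL hw hz0.le
  obtain ⟨X, hX⟩ : ∃ X : (E × Bool → V) → (E → Bool) → ℝ, X = fun w J =>
      (P.full w J).P fun g σ => ind (¬ (P.full w J).Good c' cp (qq d) g σ) := ⟨_, rfl⟩
  obtain ⟨C, hCd⟩ : ∃ C : (E × Bool → V) → (E → Bool) → ℝ, C = fun w J =>
      (P.full w J).EN (rS P.T) fun n => c2 (P.mu w J n) crd := ⟨_, rfl⟩
  have hok : ∀ w J, (P.full w J).cas.Ok := fun w J =>
    (show (P.full w J).Par d from hL.2.1 _ _ _).ok hd3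
  have X0 : ∀ w J, 0 ≤ X w J := fun w J =>
    hX ▸ Cas.P_nonneg (hok w J) fun _ _ => ind_nonneg _
  have C0 : ∀ w J, 0 ≤ C w J := fun w J =>
    hCd ▸ Cas.P_nonneg (hok w J) fun _ _ => c2_nonneg _ _
  have X1 : ED w0 X / eR ≤ 1 / d := by
    rw [div_le_iff₀ heR, hX]
    exact hG.trans (mul_le_mul_of_nonneg_left (min_le_right _ _) (by positivity))
  have C1 : ED w0 C / e2 ≤ 1 / d := by
    rw [div_le_iff₀ he2, hCd]
    exact hC.trans (mul_le_mul_of_nonneg_left (min_le_left _ _) (by positivity))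
  have hD : ∀ w J, Deg w d → X w J ≤ eR → (P.cut w J i).D1 d (d * (1 - c') + 1) :=
    fun w J hw' hx => hD1 _ _ _ _ d c' cp hd (hL.2.1 _ _ _)
      ((hR V E P w J c' cp hO hL hw' (by rw [hX] at hx; exact hx)).2.1 i)
  generalize (d : ℝ) * (1 - c') + 1 = lam at hlam hD ⊢
  have hd1 : 1 / (d : ℝ) ≤ 1 / 1000 := one_div_le_one_div_of_le (by norm_num) hd'
  have l0 : 0 ≤ lam := by
    by_contra hn
    have b1 : ED w0 (fun _ _ => eR) ≤ ED w0 X := ED_mono_deg hw fun w J hw' => by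
      by_contra hc
      have := (hD w J hw' (not_le.1 hc).le).1
      exact hn (by linarith)
    rw [ED_const] at b1
    have := (one_le_div heR).2 b1
    linarith
  have l1 : 0 ≤ lam / d := div_nonneg l0 hd0.le
  have s1 := sm_pos 100 d
  have s2 := sm_pos 250 d
  have key : (P.EP w0 fun w _ μ => ind (zz μ crd ≤ z) * P.zA w μ) ≤ ED w0 fun w J =>
      (101 / 100 * (lam / d + 8 * sm 100 d + sm 250 d) + z / 100) + 202 / 25 * Mi P z i w J
        + C w J / e2 + X w J / eR := by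
    refine ED_mono_deg hw fun w J hw' => ?_
    have b1 := div_nonneg (C0 w J) he2.le
    have b2 := div_nonneg (X0 w J) heR.le
    have b3 := Mi_nonneg hTower hL z i w J
    by_cases hx : X w J ≤ eR
    · have c1 := stepA (z := z) hNearCut hStab hTower hO hL (by positivity)
        (min_le_left (z / 100) e1) (min_le_right (z / 100) e1) he2 W2 hw' J i
      have c2' := stepB (z := z) hJoinCut hETb hTower hO hL (by linarith) W1 hw' J hi
        (hD w J hw' hx) hlam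
      have c3 : ((P.full w J).EN (rS P.T) fun n => c2 (P.mu w J n) crd) = C w J := by rw [hCd]
      rw [c3] at c1
      linarith
    · have c1 := (one_le_div heR).2 (not_le.1 hx).le
      have hp : (P.full w J).Par d := hL.2.1 _ _ _
      have c2' : ((P.full w J).EN (rS P.T) fun n =>
          ind (zz (P.mu w J n) crd ≤ z) * P.zA w (P.mu w J n)) ≤ 1 :=
        Cas.P_le_const (hok w J) fun g _ => mul_le_one₀ (ind_le_one _)
          (zz_nonneg (prob hTower hp hd3 (rS P.T) g) _) (zz_le_one _ _)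
      linarith
  rw [ED_add, ED_add, ED_add, ED_const, ED_mul, ED_div, ED_div] at key
  have k1 := stepC hEX hTower hL w0 z i
  have k2 := sm_anti (k := 100) (k' := 250) (by norm_num) d
  have k3 := sm_anti (k := 100) (k' := 300) (by norm_num) d
  have k4 := mul_sm_le (a := 20) 99 hd3 (by linarith)
  have k5 : sm 99 d ≤ 1 / d :=
    (sm_le_inv (by norm_num) hd3).trans (one_div_le_one_div_of_le hd0 (by linarith))
  norm_num at k4
  rw [mul_div_assoc]
  linarith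

end Pool.Agent.MP_32a90a_pr.D

end
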