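import Pool.Agent.Mg.F32a90ap.Gad1de9

section

set_option autoImplicit false

namespace Pool.Agent.MP_32a90a_pr.D

open Finset Pool.Agent.MP_32a90a_pr Pool.Agent.MP_32a90a_pr.L

namespace FixJ

variable {Sg : Type} [Fintype Sg] [Nonempty Sg] {β b : ℝ} {H K : Sg → ℝ}

omit [Nonempty Sg] in
lemma Zf_le (hβ : 0 ≤ β) (h : ∀ σ, H σ ≤ K σ + b) : Zf β H ≤ Real.exp (β * b) * Zf β K := by
  rw [Zf, Zf, mul_sum]
  refine sum_le_sum fun σ _ => ?_
  rw [← Real.exp_add]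
  exact Real.exp_le_exp.2 (by nlinarith [mul_le_mul_of_nonneg_left (h σ) hβ])

lemma log_le (hβ : 0 ≤ β) (h : ∀ σ, H σ ≤ K σ + b) :
    Real.log (Zf β H) ≤ β * b + Real.log (Zf β K) := by
  have := Real.log_le_log (Zf_pos β H) (Zf_le hβ h)
  rwa [Real.log_mul (Real.exp_pos _).ne' (Zf_pos β K).ne', Real.log_exp] at this

lemma gibbs_eq (σ : Sg) : gibbs β H σ = Real.exp (β * H σ - Real.log (Zf β H)) := by
  rw [Real.exp_sub, Real.exp_log (Zf_pos β H), gibbs]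

lemma gibbs_le (hβ : 0 ≤ β) (h : ∀ σ, H σ ≤ K σ + b) (h' : ∀ σ, K σ ≤ H σ + b) (σ : Sg) :
    gibbs β H σ ≤ Real.exp (2 * β * b) * gibbs β K σ := by
  rw [gibbs_eq, gibbs_eq, ← Real.exp_add]
  exact Real.exp_le_exp.2 (by nlinarith [mul_le_mul_of_nonneg_left (h σ) hβ, log_le hβ h'])

end FixJ

theorem stFix : StFix := by
  intro Sg Gm _ _ _ C K b hC hp hb
  have hβ := hC.1.le
  have hx := hC.2.1.le
  have h1 : ∀ γ σ, C.H γ σ ≤ K σ + b := fun γ σ => by linarith [(abs_le.1 (hb γ σ)).2]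
  have h2 : ∀ γ σ, K σ ≤ C.H γ σ + b := fun γ σ => by linarith [(abs_le.1 (hb γ σ)).1]
  have h3 : ∀ f : Sg → ℝ, (∀ σ, 0 ≤ f σ) →
      (C.P fun _ σ => f σ) ≤ Real.exp (2 * C.β * b) * Ex (gibbs C.β K) f := fun f hf => by
    rw [← Cas.P_Ex]
    refine Cas.P_le_const hC fun γ _ => ?_
    refine (Ex_mono_left (FixJ.gibbs_le hβ (h1 γ) (h2 γ)) hf).trans_eq ?_
    simp only [Ex, mul_sum, mul_assoc]
  refine ⟨?_, fun m ⟨σ0, h0⟩ hm => ?_, h3⟩
  · have hP : Prob C.p := ⟨hC.2.2.2.1, hp⟩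
    have hN : C.N = Ex C.p fun γ => Real.exp (Real.log (Zf C.β (C.H γ)) * C.x) := by
      rw [Cas.N_eq]
      exact sum_congr rfl fun γ _ => by rw [Real.rpow_def_of_pos (Zf_pos _ _)]
    have u1 : C.N ≤ Real.exp (C.x * Real.log (Zf C.β K) + C.y * b) := by
      rw [hN]
      refine hP.Ex_le fun γ => Real.exp_le_exp.2 ?_
      have := mul_le_mul_of_nonneg_right (FixJ.log_le hβ (h1 γ)) hx
      unfold Cas.y
      nlinarith
    have u2 : Real.exp (C.x * Real.log (Zf C.β K) - C.y * b) ≤ C.N := by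
      rw [hN]
      refine hP.le_Ex fun γ => Real.exp_le_exp.2 ?_
      have := mul_le_mul_of_nonneg_right (FixJ.log_le hβ (h2 γ)) hx
      unfold Cas.y
      nlinarith
    rw [← Real.log_le_iff_le_exp (Cas.N_pos hC)] at u1
    rw [← Real.le_log_iff_exp_le (Cas.N_pos hC)] at u2
    exact abs_le.2 ⟨by linarith, by linarith⟩
  · have l1 : C.β * m ≤ Real.log (Zf C.β K) := by
      rw [Real.le_log_iff_exp_le (Zf_pos _ _), ← h0]
      exact single_le_sum (f := fun σ => Real.exp (C.β * K σ)) (fun _ _ => (Real.exp_pos _).le)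
        (mem_univ σ0)
    have hc : (0 : ℝ) < Fintype.card Sg := by exact_mod_cast Fintype.card_pos
    refine ⟨l1, ?_, fun a => (h3 _ fun _ => ind_nonneg _).trans ?_⟩
    · rw [Real.log_le_iff_le_exp (Zf_pos _ _), Real.exp_add, Real.exp_log hc, mul_comm,
        ← nsmul_eq_mul, ← card_univ]
      exact sum_le_card_nsmul _ _ _ fun σ _ =>
        Real.exp_le_exp.2 (mul_le_mul_of_nonneg_left (hm σ) hβ)
    · have : Ex (gibbs C.β K) (fun σ => ind (K σ ≤ m - a))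
          ≤ Fintype.card Sg * Real.exp (-(C.β * a)) := by
        rw [← nsmul_eq_mul, ← card_univ]
        refine sum_le_card_nsmul _ _ _ fun σ _ => ?_
        beta_reduce
        by_cases h : K σ ≤ m - a
        · rw [ind_pos h, mul_one, FixJ.gibbs_eq]
          exact Real.exp_le_exp.2 (by nlinarith [mul_le_mul_of_nonneg_left h hβ])
        · rw [ind_neg h, mul_zero]
          exact (Real.exp_pos _).le
      refine (mul_le_mul_of_nonneg_left this (Real.exp_pos _).le).trans_eq ?_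
      rw [mul_left_comm, ← Real.exp_add]
      congr 2
      ring

end Pool.Agent.MP_32a90a_pr.D

end

section

set_option autoImplicit false

open Finset Filter Pool.Agent.MP_32a90a_pr Pool.Agent.MP_32a90a_pr.L

namespace Pool.Agent.MP_32a90a_pr.D.LevAJ

variable {d : ℕ}

/-- one term of the sign sum -/
noncomputable def xx (AA : Finset (Fin d)) (a J : Fin d → Bool) (i : Fin d) : ℝ :=
  Jc AA i (J i) * sgn (a i)

/-- flip of one coordinate -/
def fl (i : Fin d) (J : Fin d → Bool) : Fin d → Bool := Function.update J i (!J i)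

lemma fl_fl (i : Fin d) (J : Fin d → Bool) : fl i (fl i J) = J := by simp [fl]

lemma xx_cases (AA : Finset (Fin d)) (a J : Fin d → Bool) (i : Fin d) :
    xx AA a J i = 1 ∨ xx AA a J i = -1 := by
  unfold xx Jc
  split_ifs
  · rcases sgn_cases (a i) with h | h <;> rw [h] <;> norm_num
  · rcases sgn_cases (a i) with h | h <;> rcases sgn_cases (J i) with h' | h' <;>
      rw [h, h'] <;> norm_num

lemma xx_fl_self {AA : Finset (Fin d)} (a J : Fin d → Bool) {i : Fin d} (hi : i ∉ AA) :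
    xx AA a (fl i J) i = -xx AA a J i := by
  unfold xx Jc fl
  rw [if_neg hi, if_neg hi, Function.update_self]
  cases J i <;> cases a i <;> simp [sgn]

lemma xx_fl_ne (AA : Finset (Fin d)) (a J : Fin d → Bool) {i j : Fin d} (h : j ≠ i) :
    xx AA a (fl i J) j = xx AA a J j := by
  unfold xx fl
  rw [Function.update_of_ne h]

lemma sum_fl {AA : Finset (Fin d)} (a J : Fin d → Bool) {i : Fin d} (hi : i ∉ AA) :
    ∑ j, xx AA a (fl i J) j = ∑ j, xx AA a J j - 2 * xx AA a J i := by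
  rw [← add_sum_erase univ _ (mem_univ i), ← add_sum_erase univ (xx AA a J) (mem_univ i),
    xx_fl_self a J hi, sum_congr rfl fun j hj => xx_fl_ne AA a J (ne_of_mem_erase hj)]
  ring

lemma ind_xx (AA : Finset (Fin d)) (a J : Fin d → Bool) (i : Fin d) {e : ℝ}
    (he : e = 1 ∨ e = -1) : ind (xx AA a J i = e) = (1 + e * xx AA a J i) / 2 := by
  rcases xx_cases AA a J i with h | h <;> rcases he with he | he <;> rw [h, he]
  · rw [ind_pos rfl]; norm_num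
  · rw [ind_neg (by norm_num)]; norm_num
  · rw [ind_neg (by norm_num)]; norm_num
  · rw [ind_pos rfl]; norm_num

lemma sum_ind_xx (AA : Finset (Fin d)) (a J : Fin d → Bool) {e : ℝ} (he : e = 1 ∨ e = -1) :
    ∑ i, ind (xx AA a J i = e) = (d + e * ∑ i, xx AA a J i) / 2 := by
  simp only [ind_xx AA a J _ he]
  rw [← sum_div, sum_add_distrib, ← mul_sum]
  simp

lemma cnt_le (AA : Finset (Fin d)) (a J : Fin d → Bool) {e : ℝ} (he : e = 1 ∨ e = -1) :
    ∑ i, ind (i ∉ AA ∧ xx AA a J i = e) ≤ (d + e * ∑ i, xx AA a J i) / 2 := by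
  rw [← sum_ind_xx AA a J he]
  exact sum_le_sum fun i _ => ind_mono fun h => h.2

lemma cnt_ge (AA : Finset (Fin d)) (a J : Fin d → Bool) {e : ℝ} (he : e = 1 ∨ e = -1) :
    (d + e * ∑ i, xx AA a J i) / 2 - AA.card ≤ ∑ i, ind (i ∉ AA ∧ xx AA a J i = e) := by
  have h1 : (AA.card : ℝ) = ∑ i : Fin d, ind (i ∈ AA) := by
    rw [sum_ind]; simp
  rw [← sum_ind_xx AA a J he, h1, ← sum_sub_distrib]
  refine sum_le_sum fun i _ => ?_
  by_cases h : i ∈ AA
  · rw [ind_pos h]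
    have := ind_le_one (xx AA a J i = e)
    have := ind_nonneg (i ∉ AA ∧ xx AA a J i = e)
    linarith
  · rw [ind_neg h, sub_zero]
    exact ind_mono fun h' => ⟨h, h'⟩

lemma sum_fl_comp (i : Fin d) (f : (Fin d → Bool) → ℝ) : ∑ J, f (fl i J) = ∑ J, f J :=
  Equiv.sum_comp (Function.Involutive.toPerm (fl i) (fl_fl i)) f

end Pool.Agent.MP_32a90a_pr.D.LevAJ

namespace Pool.Agent.MP_32a90a_pr.D

open LevAJ

theorem stLevA : StLevA := by
  intro d AA a G b l l' hA hG hb hl hl' hd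
  obtain ⟨η, hη, hll⟩ : ∃ η : ℝ, (η = 1 ∨ η = -1) ∧ l = l' + 2 * η := by
    rcases abs_eq (by norm_num : (0 : ℝ) ≤ 2) |>.1 hd with h | h
    · exact ⟨1, Or.inl rfl, by linarith⟩
    · exact ⟨-1, Or.inr rfl, by linarith⟩
  have hη' : -η = 1 ∨ -η = -1 := by rcases hη with h | h <;> simp [h]
  have hAR : 8 * (AA.card : ℝ) ≤ d := by exact_mod_cast hA
  have hl1 := abs_le.1 hl
  have hl2 := abs_le.1 hl'
  have hd0 : (0 : ℝ) < d := by rcases hη with h | h <;> rw [h] at hll <;> linarith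
  have he := Real.exp_pos b
  change avg (fun J => G J * ind (∑ i, xx AA a J i = l'))
    ≤ 3 * Real.exp b * avg fun J => G J * ind (∑ i, xx AA a J i = l)
  have key : ∀ i J, G J * ind (∑ j, xx AA a J j = l') * ind (i ∉ AA ∧ xx AA a J i = -η)
      ≤ Real.exp b * (G (fl i J) * ind (∑ j, xx AA a (fl i J) j = l)
        * ind (i ∉ AA ∧ xx AA a (fl i J) i = η)) := by
    intro i J
    by_cases h1 : ∑ j, xx AA a J j = l'
    · by_cases h2 : i ∉ AA ∧ xx AA a J i = -η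
      · have h3 : ∑ j, xx AA a (fl i J) j = l := by
          rw [sum_fl a J h2.1, h1, h2.2, hll]; ring
        have h4 : i ∉ AA ∧ xx AA a (fl i J) i = η := ⟨h2.1, by rw [xx_fl_self a J h2.1, h2.2]; ring⟩
        rw [ind_pos h1, ind_pos h2, ind_pos h3, ind_pos h4]
        have h5 := hb (fl i J) i (J i)
        have h6 : Function.update (fl i J) i (J i) = J := by simp [fl]
        rw [h6] at h5
        linarith
      · rw [ind_neg h2, mul_zero]
        exact mul_nonneg he.le (mul_nonneg (mul_nonneg (hG _) (ind_nonneg _)) (ind_nonneg _))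
    · rw [ind_neg h1, mul_zero, zero_mul]
      exact mul_nonneg he.le (mul_nonneg (mul_nonneg (hG _) (ind_nonneg _)) (ind_nonneg _))
  have s1 : 5 * d / 16 * ∑ J, G J * ind (∑ j, xx AA a J j = l')
      ≤ ∑ J, ∑ i, G J * ind (∑ j, xx AA a J j = l') * ind (i ∉ AA ∧ xx AA a J i = -η) := by
    rw [mul_sum]
    refine sum_le_sum fun J _ => ?_
    rw [← mul_sum]
    by_cases h1 : ∑ j, xx AA a J j = l'
    · have h2 := cnt_ge AA a J hη'
      rw [h1] at h2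
      have h3 : 5 * (d : ℝ) / 16 ≤ ∑ i, ind (i ∉ AA ∧ xx AA a J i = -η) := by
        rcases hη with h | h <;> rw [h] at h2 ⊢ <;> linarith
      rw [mul_comm]
      exact mul_le_mul_of_nonneg_left h3 (mul_nonneg (hG _) (ind_nonneg _))
    · rw [ind_neg h1]; simp
  have s2 : ∑ J, ∑ i, G J * ind (∑ j, xx AA a J j = l) * ind (i ∉ AA ∧ xx AA a J i = η)
      ≤ 9 * d / 16 * ∑ J, G J * ind (∑ j, xx AA a J j = l) := by
    rw [mul_sum]
    refine sum_le_sum fun J _ => ?_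
    rw [← mul_sum]
    by_cases h1 : ∑ j, xx AA a J j = l
    · have h2 := cnt_le AA a J hη
      rw [h1] at h2
      have h3 : ∑ i, ind (i ∉ AA ∧ xx AA a J i = η) ≤ 9 * (d : ℝ) / 16 := by
        rcases hη with h | h <;> rw [h] at h2 ⊢ <;> linarith
      rw [mul_comm (9 * (d : ℝ) / 16)]
      exact mul_le_mul_of_nonneg_left h3 (mul_nonneg (hG _) (ind_nonneg _))
    · rw [ind_neg h1]; simp
  have s3 : ∑ J, ∑ i, G J * ind (∑ j, xx AA a J j = l') * ind (i ∉ AA ∧ xx AA a J i = -η)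
      ≤ Real.exp b *
        ∑ J, ∑ i, G J * ind (∑ j, xx AA a J j = l) * ind (i ∉ AA ∧ xx AA a J i = η) := by
    rw [sum_comm, sum_comm (f := fun J i =>
      G J * ind (∑ j, xx AA a J j = l) * ind (i ∉ AA ∧ xx AA a J i = η)), mul_sum]
    refine sum_le_sum fun i _ => ?_
    rw [← sum_fl_comp i fun J =>
      G J * ind (∑ j, xx AA a J j = l) * ind (i ∉ AA ∧ xx AA a J i = η), mul_sum]
    exact sum_le_sum fun J _ => key i J
  have hS : 0 ≤ ∑ J, G J * ind (∑ j, xx AA a J j = l) :=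
    sum_nonneg fun J _ => mul_nonneg (hG _) (ind_nonneg _)
  have s4 : ∑ J, G J * ind (∑ j, xx AA a J j = l')
      ≤ 3 * Real.exp b * ∑ J, G J * ind (∑ j, xx AA a J j = l) := by
    have h1 := s1.trans (s3.trans (mul_le_mul_of_nonneg_left s2 he.le))
    have h2 : 0 ≤ Real.exp b * ∑ J, G J * ind (∑ j, xx AA a J j = l) := mul_nonneg he.le hS
    refine le_of_mul_le_mul_left (h1.trans ?_) (by positivity : (0 : ℝ) < 5 * d / 16)
    nlinarith
  unfold avg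
  rw [← mul_div_assoc]
  exact div_le_div_of_nonneg_right s4 (Nat.cast_nonneg _)

end Pool.Agent.MP_32a90a_pr.D

end

section

set_option autoImplicit false

namespace Pool.Agent.MP_32a90a_pr.D

open Finset Filter Pool.Agent.MP_32a90a_pr Pool.Agent.MP_32a90a_pr.L

namespace LindJ

lemma iter {ι : Type} [DecidableEq ι] (T : Finset ι → ℝ) {r c : ℝ} (hr : 1 ≤ r) (hc : 0 ≤ c)
    (h : ∀ i A, i ∉ A → T (insert i A) ≤ r * T A + c ∧ T A ≤ r * (T (insert i A) + c))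
    (A : Finset ι) :
    T A ≤ r ^ A.card * (T ∅ + A.card * c) ∧ T ∅ ≤ r ^ A.card * (T A + A.card * c) := by
  induction A using Finset.induction_on with
  | empty => simp
  | insert i A hi ih =>
    obtain ⟨h1, h2⟩ := h i A hi
    have h3 : 1 ≤ r ^ A.card := one_le_pow₀ hr
    have h4 : 1 ≤ r ^ (A.card + 1) := one_le_pow₀ hr
    have h5 : 0 ≤ (A.card : ℝ) * c := by positivity
    rw [card_insert_of_notMem hi]
    push_cast
    constructor
    · have h6 := mul_le_mul_of_nonneg_left ih.1 (zero_le_one.trans hr)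
      have h7 := mul_le_mul_of_nonneg_right h4 hc
      rw [pow_succ] at h7 ⊢
      linarith
    · have h6 := mul_le_mul_of_nonneg_left
        (add_le_add h2 ((le_mul_of_one_le_left h5 hr))) (zero_le_one.trans h3)
      rw [pow_succ]
      linarith [ih.2]

end LindJ

theorem stLind (hLind1 : StLind1) : StLind := by
  classical
  intro Sg A _ _ _ μ sp d k1 AA y α e l hμ hy hy' hα he hal hK
  have ha : 0 ≤ α + y ^ (2 * k1) := by positivity
  have hT : ∀ B : Finset (Fin d), 0 ≤ Th0 μ sp y B l := fun B =>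
    avg_nonneg fun ω => div_nonneg
      (sum_nonneg fun σ _ => mul_nonneg (hμ.1 σ) (ind_nonneg _))
      (sum_nonneg fun σ _ => mul_nonneg (hμ.1 σ) (Real.exp_pos _).le)
  have hs := fun i B hi => hLind1 Sg A μ sp d k1 B i y α e l hμ hy hy' hα he hi hK
  generalize α + y ^ (2 * k1) = a at ha hal hs ⊢
  have hc : 0 ≤ 10 * Real.exp (2 * y * d * (k1 + 1)) * e := by positivity
  have hr : 16 * a + 1 ≤ Real.exp (16 * a) := Real.add_one_le_exp _
  have hr1 : 1 ≤ Real.exp (16 * a) := by linarith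
  have key := LindJ.iter (fun B => Th0 μ sp y B l) hr1 hc (fun i B hi => by
    obtain ⟨h1, h2⟩ := abs_le.1 (hs i B hi)
    have h3 := mul_le_mul_of_nonneg_right hr (hT B)
    have h4 := mul_nonneg ha (hT B)
    have h5 := mul_le_mul_of_nonneg_right hr (add_nonneg (hT (insert i B)) hc)
    have h6 := mul_le_mul_of_nonneg_left h1 (by linarith : 0 ≤ 16 * a + 1)
    have h7 := mul_nonneg (sub_nonneg.2 hal) h4
    constructor
    · linarith
    · nlinarith) AA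
  have hd : (AA.card : ℝ) ≤ d := by exact_mod_cast (card_le_univ AA).trans_eq (Fintype.card_fin d)
  have h1 : Real.exp (16 * a) ^ AA.card ≤ Real.exp (16 * d * a) := by
    rw [← Real.exp_nat_mul]
    exact Real.exp_le_exp.2 (by nlinarith)
  have h2 : AA.card * (10 * Real.exp (2 * y * d * (k1 + 1)) * e)
      ≤ 20 * d * Real.exp (2 * y * d * (k1 + 1)) * e := by
    have h3 := mul_le_mul_of_nonneg_right hd hc
    have h4 := mul_nonneg (Nat.cast_nonneg d : (0 : ℝ) ≤ d) hc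
    linarith
  have h3 : 0 ≤ AA.card * (10 * Real.exp (2 * y * d * (k1 + 1)) * e) := by positivity
  exact ⟨key.1.trans (mul_le_mul h1 (by linarith) (add_nonneg (hT _) h3) (Real.exp_pos _).le),
    key.2.trans (mul_le_mul h1 (by linarith) (add_nonneg (hT _) h3) (Real.exp_pos _).le)⟩

end Pool.Agent.MP_32a90a_pr.D

end

section

set_option autoImplicit false

namespace Pool.Agent.MP_32a90a_pr.D

open Finset Filter Pool.Agent.MP_32a90a_pr Pool.Agent.MP_32a90a_pr.L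

namespace Lind1J

variable {Sg A : Type} [Fintype Sg] [Fintype A] {μ : Sg → ℝ} {sp : A → Sg → Bool}

lemma Ek_prod (μ : Sg → ℝ) (k : ℕ) (f : Fin k → Sg → ℝ) :
    (Ek μ k fun τ => ∏ i, f i (τ i)) = ∏ i, Ex μ (f i) := by
  classical
  unfold Ek Ex
  rw [prod_univ_sum, Fintype.piFinset_univ]
  exact sum_congr rfl fun τ _ => prod_mul_distrib.symm

lemma key (hμ : Prob μ) {k : ℕ} {α e : ℝ} (hk : HK μ sp k α e) (φ ψ : Fin k → Sg → ℝ) {c F : ℝ}
    (hc : 0 ≤ c) (h1 : ∀ τ : Fin k → Sg, |∏ i, φ i (τ i)| ≤ c * ∏ i, ψ i (τ i))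
    (h2 : ∀ τ : Fin k → Sg, 0 ≤ ∏ i, ψ i (τ i)) (h3 : ∀ τ : Fin k → Sg, ∏ i, ψ i (τ i) ≤ F) :
    |avg fun u => ∏ i, Ex μ fun σ => φ i σ * sgn (sp u σ)|
      ≤ c * (k * α * ∏ i, Ex μ (ψ i) + F * e) := by
  have hw : ∀ τ : Fin k → Sg, 0 ≤ ∏ i, μ (τ i) := fun τ => prod_nonneg fun i _ => hμ.1 _
  have e1 : (avg fun u => ∏ i, Ex μ fun σ => φ i σ * sgn (sp u σ)) =
      Ex (fun τ : Fin k → Sg => ∏ i, μ (τ i))
        fun τ => (∏ i, φ i (τ i)) * avg fun u => ∏ i, sgn (sp u (τ i)) := by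
    simp only [← avg_mul, Ex_avg, ← prod_mul_distrib]
    exact avg_congr fun u => (Ek_prod μ k fun i σ => φ i σ * sgn (sp u σ)).symm
  have h4 := hk _ F h2 h3
  rw [Ek_prod] at h4
  rw [e1]
  refine (abs_Ex_le hw _).trans (le_trans ?_ (mul_le_mul_of_nonneg_left h4 hc))
  refine le_trans (Ex_mono hw fun τ => ?_) (Ex_mul c _).le
  rw [abs_mul, ← mul_assoc]
  exact mul_le_mul_of_nonneg_right (h1 τ) (abs_nonneg _)

lemma mom (hμ : Prob μ) {m : ℕ} {α e y V B : ℝ} (hk : HK μ sp (m + 1) α e) (hy : 0 ≤ y)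
    {g0 g1 v w : Sg → ℝ} (hg : ∀ σ, |g1 σ| ≤ g0 σ) (hB : ∀ σ, g0 σ ≤ B) (hv : ∀ σ, 0 ≤ v σ)
    (hV : ∀ σ, v σ ≤ V) (hw : ∀ σ, |w σ| ≤ y * v σ) (h1 : Ex μ v = 1) :
    |avg fun u => (Ex μ fun σ => g1 σ * sgn (sp u σ)) * (Ex μ fun σ => w σ * sgn (sp u σ)) ^ m|
      ≤ y ^ m * ((m + 1) * α * Ex μ g0 + B * V ^ m * e) := by
  have g0n : ∀ σ, 0 ≤ g0 σ := fun σ => (abs_nonneg _).trans (hg σ)
  have h := key hμ hk (Fin.cons g1 fun _ => w) (Fin.cons g0 fun _ => v) (c := y ^ m)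
    (F := B * V ^ m) (pow_nonneg hy m) (fun τ => ?_) (fun τ => ?_) fun τ => ?_
  · simpa only [Fin.prod_univ_succ, Fin.cons_zero, Fin.cons_succ, prod_const, card_univ,
      Fintype.card_fin, h1, one_pow, mul_one, Nat.cast_add, Nat.cast_one] using h
  · simp only [Fin.prod_univ_succ, Fin.cons_zero, Fin.cons_succ]
    have h2 : ∏ i : Fin m, |w (τ i.succ)| ≤ ∏ i : Fin m, y * v (τ i.succ) :=
      prod_le_prod (fun _ _ => abs_nonneg _) fun _ _ => hw _
    rw [prod_mul_distrib, prod_const, card_univ, Fintype.card_fin] at h2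
    rw [abs_mul, abs_prod, mul_left_comm]
    exact mul_le_mul (hg _) h2 (prod_nonneg fun _ _ => abs_nonneg _) (g0n _)
  · simp only [Fin.prod_univ_succ, Fin.cons_zero, Fin.cons_succ]
    exact mul_nonneg (g0n _) (prod_nonneg fun _ _ => hv _)
  · simp only [Fin.prod_univ_succ, Fin.cons_zero, Fin.cons_succ]
    have h2 : ∏ i : Fin m, v (τ i.succ) ≤ ∏ _i : Fin m, V :=
      prod_le_prod (fun _ _ => hv _) fun _ _ => hV _
    rw [prod_const, card_univ, Fintype.card_fin] at h2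
    exact mul_le_mul (hB _) h2 (prod_nonneg fun _ _ => hv _) ((g0n (τ 0)).trans (hB _))

lemma abs_Ex_sgn (hμ : Prob μ) {g0 g1 : Sg → ℝ} (hg : ∀ σ, |g1 σ| ≤ g0 σ) (φ : Sg → Bool) :
    |Ex μ fun σ => g1 σ * sgn (φ σ)| ≤ Ex μ g0 :=
  (abs_Ex_le hμ.1 _).trans (Ex_mono hμ.1 fun σ => by rw [abs_mul, abs_sgn, mul_one]; exact hg σ)

lemma wt_le {y : ℝ} (hy : 0 ≤ y) (hy' : y ≤ 1 / 1000) (j : ℕ) :
    y ^ (2 * j) * (2 * j + 1) ≤ (1 / 2) ^ j := by
  have h1 : (2 * j + 1 : ℝ) ≤ 3 ^ j := by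
    have := one_add_mul_le_pow (a := (2 : ℝ)) (by norm_num) j
    norm_num at this
    linarith
  have h2 : y ^ 2 * 3 ≤ 1 / 2 := by nlinarith
  calc _ ≤ y ^ (2 * j) * 3 ^ j := mul_le_mul_of_nonneg_left h1 (by positivity)
    _ = (y ^ 2 * 3) ^ j := by rw [mul_pow, pow_mul]
    _ ≤ _ := pow_le_pow_left₀ (by positivity) h2 j

lemma expand {p N r : ℝ} (hr : 1 - r ^ 2 ≠ 0) (k : ℕ) : (p - N * r) / (1 - r ^ 2) =
    ∑ j ∈ range k, (p * r ^ (2 * j) - N * (r * r ^ (2 * j))) +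
      (p - N * r) * r ^ (2 * k) / (1 - r ^ 2) := by
  induction k with
  | zero => simp
  | succ k ih =>
    rw [sum_range_succ, ih, add_assoc]
    congr 1
    field_simp
    ring

lemma rest {p N r y : ℝ} (hy' : y ≤ 1 / 1000) (hp : |p| ≤ N) (hr : |r| ≤ y) (k : ℕ) :
    |(p - N * r) * r ^ (2 * k) / (1 - r ^ 2)| ≤ 4 * y ^ (2 * k) * N := by
  have N0 : 0 ≤ N := (abs_nonneg _).trans hp
  have r0 := abs_nonneg r
  have h1 : r ^ 2 ≤ 1 / 2 := by rw [← sq_abs]; nlinarith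
  have h2 : |p - N * r| ≤ 2 * N := by
    refine (abs_sub _ _).trans ?_
    rw [abs_mul, abs_of_nonneg N0]
    nlinarith
  have h3 : |r| ^ (2 * k) ≤ y ^ (2 * k) := pow_le_pow_left₀ r0 hr _
  have h4 := mul_le_mul h2 h3 (by positivity) (by positivity)
  have h5 : 0 ≤ y ^ (2 * k) * N := mul_nonneg ((pow_nonneg r0 _).trans h3) N0
  rw [abs_div, abs_mul, abs_pow, abs_of_pos (by linarith : 0 < 1 - r ^ 2),
    div_le_iff₀ (by linarith)]
  nlinarith

lemma core (hμ : Prob μ) {k : ℕ} {α e y V : ℝ} (hk : ∀ j ≤ k, HK μ sp (2 * j + 1) α e)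
    (hy : 0 ≤ y) (hy' : y ≤ 1 / 1000) (hα : 0 ≤ α) (he : 0 ≤ e) (V1 : 1 ≤ V)
    {n0 n1 v w : Sg → ℝ} (hn : ∀ σ, |n1 σ| ≤ n0 σ) (hn' : ∀ σ, n0 σ ≤ 1) (hv : ∀ σ, 0 ≤ v σ)
    (hV : ∀ σ, v σ ≤ V) (hw : ∀ σ, |w σ| ≤ y * v σ) (h1 : Ex μ v = 1) :
    |avg fun u => ((Ex μ fun σ => n1 σ * sgn (sp u σ)) -
        Ex μ n0 * Ex μ fun σ => w σ * sgn (sp u σ)) /
        (1 - (Ex μ fun σ => w σ * sgn (sp u σ)) ^ 2)|
      ≤ 4 * (α + y ^ (2 * k)) * Ex μ n0 + 4 * V ^ (2 * (k + 1)) * e := by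
  have hw' : ∀ σ, |w σ| ≤ v σ := fun σ => (hw σ).trans (by nlinarith [hv σ])
  have hr : ∀ u, |Ex μ fun σ => w σ * sgn (sp u σ)| ≤ y := fun u => by
    have := abs_Ex_sgn hμ hw (sp u)
    rwa [Ex_mul, h1, mul_one] at this
  have hp := fun u => abs_Ex_sgn hμ hn (sp u)
  have m1 := fun j (hj : j ≤ k) => mom hμ (hk j hj) hy hn hn' hv hV hw h1
  have m2 := fun j (hj : j ≤ k) => mom hμ (hk j hj) hy hw' hV hv hV hw h1
  have N0 : 0 ≤ Ex μ n0 := Ex_nonneg hμ.1 fun σ => (abs_nonneg _).trans (hn σ)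
  have N1 : Ex μ n0 ≤ 1 := hμ.Ex_le hn'
  rw [h1] at m2
  generalize Ex μ n0 = N at *
  set p : A → ℝ := fun u => Ex μ fun σ => n1 σ * sgn (sp u σ) with hpd
  set r : A → ℝ := fun u => Ex μ fun σ => w σ * sgn (sp u σ) with hrd
  change ∀ u, |r u| ≤ y at hr
  change ∀ u, |p u| ≤ N at hp
  change ∀ j ≤ k, |avg fun u => p u * r u ^ (2 * j)| ≤ _ at m1
  change ∀ j ≤ k, |avg fun u => r u * r u ^ (2 * j)| ≤ _ at m2
  change |avg fun u => (p u - N * r u) / (1 - r u ^ 2)| ≤ _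
  clear_value p r
  have hne : ∀ u, 1 - r u ^ 2 ≠ 0 := fun u => by
    have := hr u
    have := abs_nonneg (r u)
    rw [← sq_abs]
    nlinarith
  have G0 : 0 ≤ V ^ (2 * (k + 1)) * e := by positivity
  have hj : ∀ j ∈ range k, |avg fun u => p u * r u ^ (2 * j) - N * (r u * r u ^ (2 * j))| ≤
      (1 / 2) ^ j * (2 * (α * N) + 2 * (V ^ (2 * (k + 1)) * e)) := fun j hj => by
    have hj' := mem_range.1 hj
    have a1 := m1 j hj'.le
    have a2 := mul_le_mul_of_nonneg_left (m2 j hj'.le) N0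
    have a3 : V ^ (2 * j) * e ≤ V ^ (2 * (k + 1)) * e :=
      mul_le_mul_of_nonneg_right (pow_le_pow_right₀ V1 (by omega)) he
    have a4 : V * V ^ (2 * j) * e ≤ V ^ (2 * (k + 1)) * e := by
      rw [← pow_succ']
      exact mul_le_mul_of_nonneg_right (pow_le_pow_right₀ V1 (by omega)) he
    have a5 : N * (V * V ^ (2 * j) * e) ≤ 1 * (V ^ (2 * (k + 1)) * e) :=
      mul_le_mul N1 a4 (by positivity) zero_le_one
    have a6 := wt_le hy hy' j
    have y0 : 0 ≤ y ^ (2 * j) := pow_nonneg hy _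
    have a7 : y ^ (2 * j) ≤ (1 / 2) ^ j := by
      have : (0 : ℝ) ≤ j := Nat.cast_nonneg j
      nlinarith
    have a8 := mul_le_mul_of_nonneg_right a6 (mul_nonneg hα N0)
    have a9 := mul_le_mul_of_nonneg_right a7 G0
    have b1 := mul_le_mul_of_nonneg_left a3 y0
    have b2 := mul_le_mul_of_nonneg_left a5 y0
    rw [avg_sub, avg_mul]
    refine (abs_sub _ _).trans ?_
    rw [abs_mul, abs_of_nonneg N0]
    push_cast at a1 a2
    linarith
  have hs := (abs_sum_le_sum_abs _ _).trans (sum_le_sum hj)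
  rw [← sum_mul] at hs
  have hs' := mul_le_mul_of_nonneg_right (sum_geometric_two_le k)
    (show 0 ≤ 2 * (α * N) + 2 * (V ^ (2 * (k + 1)) * e) by positivity)
  have hr' := (abs_avg_le _).trans (avg_le_const (by positivity)
    fun u => rest hy' (hp u) (hr u) k)
  rw [avg_congr fun u => expand (hne u) k, avg_add, avg_sum]
  refine (abs_add_le _ _).trans ?_
  linarith

lemma exp_diff {a b y : ℝ} (hy : 0 ≤ y) (hy' : y ≤ 1 / 1000) (h : a ≤ b + 2 * y) :
    Real.exp a - Real.exp b ≤ y * (Real.exp a + Real.exp b) := by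
  have h1 := Real.exp_le_two_add_div_two_sub (x := 2 * y) (by linarith) (by linarith)
  rw [le_div_iff₀ (by linarith)] at h1
  have h2 := Real.exp_le_exp.2 h
  rw [Real.exp_add] at h2
  have h3 := mul_le_mul_of_nonneg_left h1 (Real.exp_pos b).le
  have h4 := mul_le_mul_of_nonneg_right h2 (show 0 ≤ 2 - 2 * y by linarith)
  linarith

/-- the weight with the field `h + J a` -/
noncomputable def Θ (μ : Sg → ℝ) (sp : A → Sg → Bool) (y l : ℝ) (h : Sg → ℝ) (u : A) (J : ℝ) : ℝ :=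
  (Ex μ fun σ => ind (h σ + J * sgn (sp u σ) = l)) /
    Ex μ fun σ => Real.exp (y * |h σ + J * sgn (sp u σ)|)

lemma split (f : ℝ → ℝ) (x : ℝ) (b c : Bool) : f (x + sgn b * sgn c) =
    (f (x + 1) + f (x - 1)) / 2 + sgn b * ((f (x + 1) - f (x - 1)) / 2 * sgn c) := by
  cases b <;> cases c <;> simp [sgn, ← sub_eq_add_neg] <;> ring

lemma slot [Nonempty A] (hμ : Prob μ) {k : ℕ} {α e y d : ℝ}
    (hk : ∀ j ≤ k, HK μ sp (2 * j + 1) α e) (hy : 0 ≤ y) (hy' : y ≤ 1 / 1000) (hα : 0 ≤ α)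
    (he : 0 ≤ e) (l : ℝ) {h : Sg → ℝ} (hd : 0 ≤ d) (hh : ∀ σ, |h σ| + 1 ≤ d) :
    |(avg fun u => Θ μ sp y l h u (sgn false)) -
        avg fun u => (Θ μ sp y l h u (sgn true) + Θ μ sp y l h u (sgn false)) / 2|
      ≤ 8 * (α + y ^ (2 * k)) *
          (avg fun u => (Θ μ sp y l h u (sgn true) + Θ μ sp y l h u (sgn false)) / 2) +
        10 * Real.exp (2 * y * d * (k + 1)) * e := by
  set n0 : Sg → ℝ := fun σ => (ind (h σ + 1 = l) + ind (h σ - 1 = l)) / 2 with hn0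
  set n1 : Sg → ℝ := fun σ => (ind (h σ + 1 = l) - ind (h σ - 1 = l)) / 2 with hn1
  set D : Sg → ℝ := fun σ => (Real.exp (y * |h σ + 1|) + Real.exp (y * |h σ - 1|)) / 2 with hD
  set D1 : Sg → ℝ := fun σ => (Real.exp (y * |h σ + 1|) - Real.exp (y * |h σ - 1|)) / 2 with hD1
  have a1 : ∀ σ, |n1 σ| ≤ n0 σ := fun σ => by
    have := ind_nonneg (h σ + 1 = l)
    have := ind_nonneg (h σ - 1 = l)
    simp only [hn0, hn1, abs_le]
    constructor <;> linarith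
  have a2 : ∀ σ, n0 σ ≤ 1 := fun σ => by
    have := ind_le_one (h σ + 1 = l)
    have := ind_le_one (h σ - 1 = l)
    simp only [hn0]
    linarith
  have a3 : ∀ σ, 1 ≤ D σ := fun σ => by
    have := Real.one_le_exp (mul_nonneg hy (abs_nonneg (h σ + 1)))
    have := Real.one_le_exp (mul_nonneg hy (abs_nonneg (h σ - 1)))
    simp only [hD]
    linarith
  have a4 : ∀ σ, D σ ≤ Real.exp (y * d) := fun σ => by
    have b1 : |h σ + 1| ≤ d := (abs_add_le _ _).trans (by rw [abs_one]; exact hh σ)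
    have b2 : |h σ - 1| ≤ d := (abs_sub _ _).trans (by rw [abs_one]; exact hh σ)
    have := Real.exp_le_exp.2 (mul_le_mul_of_nonneg_left b1 hy)
    have := Real.exp_le_exp.2 (mul_le_mul_of_nonneg_left b2 hy)
    simp only [hD]
    linarith
  have a5 : ∀ σ, |D1 σ| ≤ y * D σ := fun σ => by
    have b0 := abs_abs_sub_abs_le_abs_sub (h σ + 1) (h σ - 1)
    rw [show h σ + 1 - (h σ - 1) = 2 by ring, abs_two, abs_le] at b0
    have b1 := exp_diff (a := y * |h σ + 1|) (b := y * |h σ - 1|) hy hy' (by nlinarith [b0.2])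
    have b2 := exp_diff (a := y * |h σ - 1|) (b := y * |h σ + 1|) hy hy' (by nlinarith [b0.1])
    simp only [hD, hD1, abs_le]
    constructor <;> linarith
  have e0 : ∀ u b, Θ μ sp y l h u (sgn b) =
      (Ex μ n0 + sgn b * Ex μ fun σ => n1 σ * sgn (sp u σ)) /
        (Ex μ D + sgn b * Ex μ fun σ => D1 σ * sgn (sp u σ)) := fun u b => by
    rw [Θ, ← Ex_mul, ← Ex_mul, ← Ex_add, ← Ex_add]
    congr 1
    · exact Ex_congr fun σ => split (fun x => ind (x = l)) (h σ) b (sp u σ)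
    · exact Ex_congr fun σ => split (fun x => Real.exp (y * |x|)) (h σ) b (sp u σ)
  clear_value n0 n1 D D1
  have D0 : 1 ≤ Ex μ D := hμ.le_Ex a3
  obtain ⟨c, hc⟩ : ∃ c, c = (Ex μ D)⁻¹ := ⟨_, rfl⟩
  have c0 : 0 < c := hc ▸ inv_pos.2 (by linarith)
  have c1 : c ≤ 1 := hc ▸ inv_le_one_of_one_le₀ D0
  have c2 : c * Ex μ D = 1 := hc ▸ inv_mul_cancel₀ (by linarith)
  have hw : ∀ σ, |c * D1 σ| ≤ y * (c * D σ) := fun σ => by
    rw [abs_mul, abs_of_pos c0, mul_left_comm]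
    exact mul_le_mul_of_nonneg_left (a5 σ) c0.le
  have hc1 : (Ex μ fun σ => c * D σ) = 1 := by rw [Ex_mul, c2]
  have key := core hμ hk hy hy' hα he (Real.one_le_exp (mul_nonneg hy hd)) a1 a2
    (v := fun σ => c * D σ) (w := fun σ => c * D1 σ)
    (fun σ => mul_nonneg c0.le (by linarith [a3 σ]))
    (fun σ => by nlinarith [a3 σ, a4 σ]) hw hc1
  have hr : ∀ u, |Ex μ fun σ => c * D1 σ * sgn (sp u σ)| ≤ y := fun u => by
    have := abs_Ex_sgn hμ hw (sp u)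
    rwa [Ex_mul, hc1, mul_one] at this
  have hp := fun u => abs_Ex_sgn hμ a1 (sp u)
  have N0 : 0 ≤ Ex μ n0 := Ex_nonneg hμ.1 fun σ => (abs_nonneg _).trans (a1 σ)
  have e1 : ∀ u b, Θ μ sp y l h u (sgn b) =
      c * ((Ex μ n0 + sgn b * Ex μ fun σ => n1 σ * sgn (sp u σ)) /
        (1 + sgn b * Ex μ fun σ => c * D1 σ * sgn (sp u σ))) := fun u b => by
    rw [e0, ← mul_div_assoc, ← mul_div_mul_left _ _ c0.ne', mul_add c (Ex μ D), c2,
      mul_left_comm c (sgn b), ← Ex_mul c fun σ => D1 σ * sgn (sp u σ)]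
    simp only [mul_assoc]
  rw [← Real.exp_nat_mul, show ((2 * (k + 1) : ℕ) : ℝ) * (y * d) = 2 * y * d * (k + 1) by
    push_cast; ring] at key
  simp only [e1]
  generalize Ex μ n0 = N at *
  set p : A → ℝ := fun u => Ex μ fun σ => n1 σ * sgn (sp u σ) with hpd
  set r : A → ℝ := fun u => Ex μ fun σ => c * D1 σ * sgn (sp u σ) with hrd
  change ∀ u, |r u| ≤ y at hr
  change ∀ u, |p u| ≤ N at hp
  change |avg fun u => (p u - N * r u) / (1 - r u ^ 2)| ≤ _ at key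
  change |(avg fun u => c * ((N + sgn false * p u) / (1 + sgn false * r u))) -
    avg fun u => (c * ((N + sgn true * p u) / (1 + sgn true * r u)) +
      c * ((N + sgn false * p u) / (1 + sgn false * r u))) / 2| ≤ _ *
    (avg fun u => (c * ((N + sgn true * p u) / (1 + sgn true * r u)) +
      c * ((N + sgn false * p u) / (1 + sgn false * r u))) / 2) + _
  clear_value p r
  have s1 : sgn true = 1 := rfl
  have s2 : sgn false = -1 := rfl
  have r1 : ∀ u, 0 < 1 + r u := fun u => by linarith [(abs_le.1 (hr u)).1]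
  have r2 : ∀ u, 0 < 1 - r u := fun u => by linarith [(abs_le.1 (hr u)).2]
  have r3 : ∀ u, 1 - r u ^ 2 = (1 + r u) * (1 - r u) := fun u => by ring
  simp only [s1, s2, one_mul, neg_mul, ← sub_eq_add_neg]
  have f1 : c * N / 2 ≤ avg fun u =>
      (c * ((N + p u) / (1 + r u)) + c * ((N - p u) / (1 - r u))) / 2 :=
    const_le_avg fun u => by
      have b1 := r1 u
      have b2 := r2 u
      have b3 : N ≤ (N + p u) / (1 + r u) + (N - p u) / (1 - r u) := by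
        rw [div_add_div _ _ b1.ne' b2.ne', le_div_iff₀ (mul_pos b1 b2)]
        have b4 : p u * r u ≤ N * y := (le_abs_self _).trans (by
          rw [abs_mul]
          exact mul_le_mul (hp u) (hr u) (abs_nonneg _) N0)
        nlinarith [mul_nonneg N0 (sq_nonneg (r u)), mul_le_mul_of_nonneg_left hy' N0]
      have := mul_le_mul_of_nonneg_left b3 c0.le
      linarith
  have f2 : (avg fun u => c * ((N - p u) / (1 - r u))) -
      (avg fun u => (c * ((N + p u) / (1 + r u)) + c * ((N - p u) / (1 - r u))) / 2) =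
      -c * avg fun u => (p u - N * r u) / (1 - r u ^ 2) := by
    rw [← avg_sub, ← avg_mul]
    refine avg_congr fun u => ?_
    have b1 := (r1 u).ne'
    have b2 := (r2 u).ne'
    rw [r3]
    field_simp
    ring
  rw [f2, abs_mul, abs_neg, abs_of_pos c0]
  have g1 := mul_le_mul_of_nonneg_left key c0.le
  have g2 := mul_le_mul_of_nonneg_left f1 (show 0 ≤ 8 * (α + y ^ (2 * k)) by positivity)
  have g3 : 0 ≤ Real.exp (2 * y * d * (k + 1)) * e := by positivity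
  have g4 := mul_le_mul_of_nonneg_right c1 g3
  linarith

end Lind1J

open Lind1J in
theorem stLind1 : StLind1 := by
  intro Sg A _ _ _ μ sp d k1 AA i y α e l hμ hy hy' hα he hi hk
  set h : (Fin d → A × Bool) → Sg → ℝ :=
    fun ω σ => ∑ j ∈ univ.erase i, Jc AA j (ω j).2 * sgn (sp (ω j).1 σ) with hh
  have hJ : ∀ j b, |Jc AA j b| = 1 := fun j b => by
    unfold Jc
    split_ifs <;> simp
  have h1 : ∀ ω σ, |h ω σ| + 1 ≤ d := fun ω σ => by
    have b1 : |h ω σ| ≤ ∑ _j ∈ univ.erase i, (1 : ℝ) :=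
      (abs_sum_le_sum_abs _ _).trans (sum_le_sum fun j _ => by
        rw [abs_mul, hJ, abs_sgn, mul_one])
    have b2 := card_erase_add_one (mem_univ i)
    rw [card_univ, Fintype.card_fin] at b2
    rw [sum_const, nsmul_eq_mul, mul_one] at b1
    have b3 : ((univ.erase i).card : ℝ) + 1 = d := by exact_mod_cast b2
    linarith
  have h2 : ∀ ω o σ, hom sp AA (Function.update ω i o) σ = h ω σ + sgn o.2 * sgn (sp o.1 σ) :=
    fun ω o σ => by
    rw [hom, ← sum_erase_add _ _ (mem_univ i), Function.update_self, Jc, if_neg hi]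
    congr 1
    exact sum_congr rfl fun j hj => by rw [Function.update_of_ne (mem_erase.1 hj).1]
  have h3 : ∀ ω o σ, hom sp (insert i AA) (Function.update ω i o) σ =
      h ω σ + sgn false * sgn (sp o.1 σ) := fun ω o σ => by
    rw [hom, ← sum_erase_add _ _ (mem_univ i), Function.update_self, Jc,
      if_pos (mem_insert_self i AA)]
    congr 1
    refine sum_congr rfl fun j hj => ?_
    have hj' := (mem_erase.1 hj).1
    rw [Function.update_of_ne hj']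
    simp only [Jc, mem_insert, hj', false_or]
  have e1 : Th0 μ sp y AA l = avg fun ω : Fin d → A × Bool => avg fun u =>
      (Θ μ sp y l (h ω) u (sgn true) + Θ μ sp y l (h ω) u (sgn false)) / 2 := by
    rw [Th0, avg_update i]
    refine avg_congr fun ω => ?_
    rw [avg_prod]
    refine avg_congr fun u => ?_
    rw [avg_bool]
    simp only [h2, Θ]
  have e2 : Th0 μ sp y (insert i AA) l = avg fun ω : Fin d → A × Bool => avg fun u =>
      Θ μ sp y l (h ω) u (sgn false) := by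
    rw [Th0, avg_update i]
    refine avg_congr fun ω => ?_
    rw [avg_prod]
    refine avg_congr fun u => ?_
    simp only [h3, Θ, avg_const]
  rw [e1, e2, ← avg_sub]
  refine (abs_avg_le _).trans ((avg_mono fun ω =>
    slot hμ hk hy hy' hα he l (Nat.cast_nonneg d) (h1 ω)).trans_eq ?_)
  rw [avg_add, avg_mul, avg_const]

end Pool.Agent.MP_32a90a_pr.D

end

section

set_option autoImplicit false

namespace Pool.Agent.MP_32a90a_pr.D

open Finset Pool.Agent.MP_32a90a_pr Pool.Agent.MP_32a90a_pr.L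

namespace MinorJ

lemma cmp {Sg : Type} [Fintype Sg] {μ μ' : Sg → ℝ} (φ : Sg → Bool) {k : ℝ} (h : Prob μ)
    (h' : Prob μ') (hk : ∀ σ, k * μ σ ≤ μ' σ) (b : Bool) :
    k * ((1 + sgn b * mm μ φ) / 2) ≤ (1 + sgn b * mm μ' φ) / 2 := by
  rw [← h.Ex_ind_bool φ b, ← h'.Ex_ind_bool φ b]
  have e : k * (Ex μ fun σ => ind (φ σ = b)) = Ex (fun σ => k * μ σ) fun σ => ind (φ σ = b) := by
    simp only [Ex, mul_sum, mul_assoc]
  rw [e]
  exact Ex_mono_left hk fun _ => ind_nonneg _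

end MinorJ

theorem stMinor : StMinor := by
  intro Sg _ μ μ' φ k h h' h0 hk
  have h1 := MinorJ.cmp φ h h' hk true
  have h2 := MinorJ.cmp φ h h' hk false
  have e1 : sgn true = 1 := by simp [sgn]
  have e2 : sgn false = -1 := by simp [sgn]
  rw [e1, one_mul, one_mul] at h1
  rw [e2, neg_one_mul, neg_one_mul] at h2
  have h3 := abs_le.1 (h.abs_mm_le φ)
  have a1 := mul_le_mul_of_nonneg_left (le_abs_self (mm μ φ)) h0
  have a2 := mul_le_mul_of_nonneg_left (neg_abs_le (mm μ φ)) h0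
  unfold mn kt
  constructor
  · rcases abs_cases (mm μ' φ) with h4 | h4 <;> rw [h4.1] <;> linarith
  · have b1 : 0 ≤ k * ((1 + mm μ φ) / 2) := mul_nonneg h0 (by linarith)
    have b2 : 0 ≤ k * ((1 + -mm μ φ) / 2) := mul_nonneg h0 (by linarith)
    have h5 := mul_le_mul h1 h2 b2 (b1.trans h1)
    nlinarith

end Pool.Agent.MP_32a90a_pr.D

end

section

set_option autoImplicit false

namespace Pool.Agent.MP_32a90a_pr.D

open Finset Pool.Agent.MP_32a90a_pr Pool.Agent.MP_32a90a_pr.L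

namespace OddsJ

lemma num {a1 a2 b1 b2 y q δ : ℝ} (h1 : 0 ≤ a1) (h2 : 0 ≤ a2) (h3 : 0 ≤ b1) (h4 : 0 ≤ b2)
    (hs : a1 + a2 + b1 + b2 = 1) (hq : 1 + 4 * y ≤ q) (hq3 : q ≤ 3) (hy : 0 ≤ y)
    (hy1 : y ≤ 1 / 1000) (hδ : 0 ≤ δ) (h : q * (b1 * b2) - q * δ ≤ a1 * a2) :
    2 * y * ((a1 + b1) * (a1 + b2) * ((a2 + b2) * (a2 + b1))) - 3 * δ ≤ a1 * a2 - b1 * b2 := by
  have e1 : a1 = (a1 + b1) * (a1 + b2) + (a1 * a2 - b1 * b2) := by linear_combination -a1 * hs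
  have e2 : a2 = (a2 + b2) * (a2 + b1) + (a1 * a2 - b1 * b2) := by linear_combination -a2 * hs
  have e3 : b1 = (a1 + b1) * (a2 + b1) - (a1 * a2 - b1 * b2) := by linear_combination -b1 * hs
  have e4 : b2 = (a2 + b2) * (a1 + b2) - (a1 * a2 - b1 * b2) := by linear_combination -b2 * hs
  have p0 : 0 ≤ (a1 + b1) * (a1 + b2) * ((a2 + b2) * (a2 + b1)) := by positivity
  rcases le_total 0 (a1 * a2 - b1 * b2) with hD | hD
  · have k : (a1 + b1) * (a1 + b2) * ((a2 + b2) * (a2 + b1)) ≤ a1 * a2 :=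
      mul_le_mul (by linarith) (by linarith) (by positivity) h1
    generalize (a1 + b1) * (a1 + b2) * ((a2 + b2) * (a2 + b1)) = P at *
    generalize a1 * a2 = A at *
    generalize b1 * b2 = B at *
    have q0 : 0 < q := by linarith
    have k1 : 1 ≤ q * (1 - 2 * y) := by nlinarith
    have k2 : 0 ≤ q * (A - B - 2 * y * P + δ) := by
      nlinarith [mul_nonneg (sub_nonneg.2 k1) p0, mul_nonneg (show 0 ≤ q - 1 by linarith)
        (sub_nonneg.2 k)]
    have k3 := nonneg_of_mul_nonneg_right (by rwa [mul_comm] at k2) q0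
    linarith
  · have k : (a1 + b1) * (a2 + b1) * ((a2 + b2) * (a1 + b2)) ≤ b1 * b2 :=
      mul_le_mul (by linarith) (by linarith) (by positivity) h3
    have k' : (a1 + b1) * (a1 + b2) * ((a2 + b2) * (a2 + b1)) ≤ b1 * b2 := by
      refine le_trans (le_of_eq ?_) k
      ring
    generalize (a1 + b1) * (a1 + b2) * ((a2 + b2) * (a2 + b1)) = P at *
    generalize a1 * a2 = A at *
    generalize b1 * b2 = B at *
    nlinarith [mul_nonneg hy p0, mul_nonneg hy (sub_nonneg.2 k'),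
      mul_nonneg (sub_nonneg.2 hq) (p0.trans k'), mul_nonneg (sub_nonneg.2 hq3) hδ]

variable {Sg : Type} [Fintype Sg]

/-- the weight of a cell -/
noncomputable def ce (μ : Sg → ℝ) (φ ψ : Sg → Bool) (s t : Bool) : ℝ :=
  Ex μ fun σ => ind (φ σ = s ∧ ψ σ = t)

lemma tab (μ : Sg → ℝ) (φ ψ : Sg → Bool) (b : Bool) (F : Bool → Bool → ℝ) :
    Ex μ (fun σ => F (φ σ) (ψ σ)) = F true b * ce μ φ ψ true b + F false (!b) * ce μ φ ψ false (!b)
      + F true (!b) * ce μ φ ψ true (!b) + F false b * ce μ φ ψ false b := by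
  unfold ce
  rw [← Ex_mul, ← Ex_mul, ← Ex_mul, ← Ex_mul, ← Ex_add, ← Ex_add, ← Ex_add]
  refine Ex_congr fun σ => ?_
  cases φ σ <;> cases ψ σ <;> cases b <;> simp [ind]

lemma ce_nonneg {μ : Sg → ℝ} (h : Prob μ) (φ ψ : Sg → Bool) (s t : Bool) : 0 ≤ ce μ φ ψ s t :=
  Ex_nonneg h.1 fun _ => ind_nonneg _

lemma ce_sum {μ : Sg → ℝ} (h : Prob μ) (φ ψ : Sg → Bool) (b : Bool) :
    ce μ φ ψ true b + ce μ φ ψ false (!b) + ce μ φ ψ true (!b) + ce μ φ ψ false b = 1 := by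
  have := tab μ φ ψ b fun _ _ => 1
  rw [h.Ex_const] at this
  linarith

lemma facts {μ : Sg → ℝ} (h : Prob μ) (φ ψ : Sg → Bool) (b : Bool) :
    sgn b * cv μ φ ψ = 4 * (ce μ φ ψ true b * ce μ φ ψ false (!b) -
      ce μ φ ψ true (!b) * ce μ φ ψ false b) ∧
    kt μ φ = 2 * ((ce μ φ ψ true b + ce μ φ ψ true (!b)) *
      (ce μ φ ψ false (!b) + ce μ φ ψ false b)) ∧
    kt μ ψ = 2 * ((ce μ φ ψ true b + ce μ φ ψ false b) *
      (ce μ φ ψ false (!b) + ce μ φ ψ true (!b))) := by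
  have hs := ce_sum h φ ψ b
  have e1 := tab μ φ ψ b fun s _ => sgn s
  have e2 := tab μ φ ψ b fun _ t => sgn t
  have e3 := tab μ φ ψ b fun s t => sgn s * sgn t
  unfold cv kt mm
  rw [e1, e2, e3]
  generalize ce μ φ ψ true b = a1 at *
  generalize ce μ φ ψ false (!b) = a2 at *
  generalize ce μ φ ψ true (!b) = b1 at *
  generalize ce μ φ ψ false b = b2 at *
  obtain rfl : b2 = 1 - a1 - a2 - b1 := by linarith
  cases b <;> simp only [sgn, Bool.not_true, Bool.not_false] <;> refine ⟨?_, ?_, ?_⟩ <;>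
    norm_num <;> ring

end OddsJ

open OddsJ

theorem stOdds (hSafe : StSafe) (hBd : StBd) : StOdds := by
  intro Sg Gm _ _ _ C φ ψ b hC hy
  set D : Gm → Sg → ℝ := fun _ σ => sgn b * (sgn (φ σ) * sgn (ψ σ)) with hD
  have hC' : (C.add D).Ok := hC.add D
  have p0 := Cas.root_prob hC
  have p1 := Cas.root_prob hC'
  have N0 := Cas.N_pos hC
  have N1 := Cas.N_pos hC'
  have y0 := hC.y_pos
  have hD1 : ∀ γ σ, |D γ σ| ≤ 1 := by
    intro γ σ
    simp only [hD]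
    cases φ σ <;> cases ψ σ <;> cases b <;> simp [sgn]
  have hE : ∀ (C₁ : Cas Sg Gm), C₁.Ok → ∀ s t,
      (C₁.E fun _ σ => ind (φ σ = s ∧ ψ σ = t)) = ce C₁.root φ ψ s t * C₁.N := by
    intro C₁ h s t
    rw [Cas.E_eq_P_mul h, Cas.P_root]
    rfl
  have up : ∀ s t, sgn b * (sgn s * sgn t) = 1 →
      Real.exp C.y * (ce C.root φ ψ s t * C.N) ≤ ce (C.add D).root φ ψ s t * (C.add D).N := by
    intro s t hst
    have := (hSafe Sg Gm C D (fun _ σ => ind (φ σ = s ∧ ψ σ = t)) 1 0 hC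
      fun _ _ => ind_nonneg _).1 (fun γ σ => (abs_le.1 (hD1 γ σ)).2) (by
        intro γ σ h
        by_cases h' : φ σ = s ∧ ψ σ = t
        · simp only [hD, h'.1, h'.2, hst]
          norm_num
        · exact absurd (ind_neg h') h)
    rwa [hE C hC, hE _ hC', mul_one, mul_zero, sub_zero] at this
  have dn : ∀ s t, sgn b * (sgn s * sgn t) = -1 →
      Real.exp C.y * (ce (C.add D).root φ ψ s t * (C.add D).N) ≤ ce C.root φ ψ s t * C.N := by
    intro s t hst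
    have := (hSafe Sg Gm C D (fun _ σ => ind (φ σ = s ∧ ψ σ = t)) 1 0 hC
      fun _ _ => ind_nonneg _).2 (fun γ σ => (abs_le.1 (hD1 γ σ)).1) (by
        intro γ σ h
        by_cases h' : φ σ = s ∧ ψ σ = t
        · simp only [hD, h'.1, h'.2, hst]
          norm_num
        · exact absurd (ind_neg h') h)
    rw [hE C hC, hE _ hC', mul_one, mul_zero, add_zero] at this
    have h2 := mul_le_mul_of_nonneg_left this (Real.exp_pos C.y).le
    rwa [← mul_assoc _ (Real.exp (-C.y)), ← Real.exp_add, add_neg_cancel, Real.exp_zero, one_mul] at h2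
  have hN : C.N ≤ Real.exp C.y * (C.add D).N := by
    have := ((hBd Sg Gm C D 1 hC fun γ σ _ => hD1 γ σ).2.1 (fun _ => 1) fun _ => zero_le_one).2.1
    rw [mul_one] at this
    have h2 := mul_le_mul_of_nonneg_left this (Real.exp_pos C.y).le
    rwa [← mul_assoc, ← Real.exp_add, add_neg_cancel, Real.exp_zero, one_mul] at h2
  have u1 := up true b (by cases b <;> simp [sgn])
  have u2 := up false (!b) (by cases b <;> simp [sgn])
  have d1 := dn true (!b) (by cases b <;> simp [sgn])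
  have d2 := dn false b (by cases b <;> simp [sgn])
  obtain ⟨f0, -, -⟩ := facts p0 φ ψ b
  obtain ⟨f1, f2, f3⟩ := facts p1 φ ψ b
  have f4 : -|cv C.root φ ψ| ≤ sgn b * cv C.root φ ψ := by
    cases b <;> simp [sgn, neg_abs_le, le_abs_self]
  have hs := ce_sum p1 φ ψ b
  have n0 := ce_nonneg p0 φ ψ
  have n1 := ce_nonneg p1 φ ψ
  have q1 : 1 + 4 * C.y ≤ Real.exp C.y ^ 4 := by
    rw [← Real.exp_nat_mul]
    have := Real.add_one_le_exp (((4 : ℕ) : ℝ) * C.y)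
    push_cast at this ⊢
    linarith
  have q3 : Real.exp C.y ^ 4 ≤ 3 := by
    rw [← Real.exp_nat_mul]
    refine (Real.exp_le_exp.2 (show ((4 : ℕ) : ℝ) * C.y ≤ 1 by push_cast; linarith)).trans ?_
    linarith [Real.exp_one_lt_d9]
  have x0 := Real.exp_pos C.y
  have key := num (δ := |cv C.root φ ψ| / 4) (n1 _ _) (n1 _ _) (n1 _ _) (n1 _ _) hs q1 q3 y0.le hy
    (by positivity) (by
      have a1 := mul_le_mul u1 u2 (mul_nonneg x0.le (mul_nonneg (n0 _ _) N0.le))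
        (mul_nonneg (n1 _ _) N1.le)
      have a2 := mul_le_mul d1 d2 (mul_nonneg x0.le (mul_nonneg (n1 _ _) N1.le))
        (mul_nonneg (n0 _ _) N0.le)
      have a3 := mul_le_mul hN hN N0.le (mul_nonneg x0.le N1.le)
      have a4 : 0 ≤ |cv C.root φ ψ| / 4 := by positivity
      have a5 : ce C.root φ ψ true (!b) * ce C.root φ ψ false b - |cv C.root φ ψ| / 4 ≤
        ce C.root φ ψ true b * ce C.root φ ψ false (!b) := by linarith
      generalize |cv C.root φ ψ| / 4 = δ at *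
      generalize Real.exp C.y = x at *
      refine le_of_mul_le_mul_right ?_ (mul_pos N1 N1)
      have b2 := mul_le_mul_of_nonneg_left a2 (mul_pos x0 x0).le
      have b3 := mul_le_mul_of_nonneg_left a3 (mul_nonneg (mul_pos x0 x0).le a4)
      have b5 := mul_le_mul_of_nonneg_left a5 (mul_pos (mul_pos x0 x0) (mul_pos N0 N0)).le
      linarith)
  rw [f1, f2, f3]
  linarith

end Pool.Agent.MP_32a90a_pr.D

end

section

set_option autoImplicit false

namespace Pool.Agent.MP_32a90a_pr.D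

open Finset Filter Pool.Agent.MP_32a90a_pr Pool.Agent.MP_32a90a_pr.L

namespace OverJ

variable {Sg ι : Type} [Fintype Sg] [Fintype ι] {μ : Sg → ℝ}

lemma E2_congr {f g : Sg → Sg → ℝ} (h : ∀ σ σ', f σ σ' = g σ σ') : E2 μ μ f = E2 μ μ g := by
  rw [show f = g from funext fun σ => funext (h σ)]

lemma E2_mono (h : Prob μ) {f g : Sg → Sg → ℝ} (hfg : ∀ σ σ', f σ σ' ≤ g σ σ') :
    E2 μ μ f ≤ E2 μ μ g := Ex_mono h.1 fun σ => Ex_mono h.1 fun σ' => hfg σ σ'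

lemma E2_add (f g : Sg → Sg → ℝ) :
    E2 μ μ (fun σ σ' => f σ σ' + g σ σ') = E2 μ μ f + E2 μ μ g := by
  simp only [E2, Ex_add]

lemma E2_mul (c : ℝ) (f : Sg → Sg → ℝ) : E2 μ μ (fun σ σ' => c * f σ σ') = c * E2 μ μ f := by
  simp only [E2, Ex_mul]

lemma E2_const (h : Prob μ) (c : ℝ) : E2 μ μ (fun _ _ => c) = c := by
  simp only [E2, h.Ex_const]

lemma E2_avg {α : Type} [Fintype α] (f : α → Sg → Sg → ℝ) :
    E2 μ μ (fun σ σ' => avg fun a => f a σ σ') = avg fun a => E2 μ μ (f a) := by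
  simp only [E2, Ex_avg]

lemma E2_prod (f : Sg → ℝ) : E2 μ μ (fun σ σ' => f σ * f σ') = Ex μ f ^ 2 := by
  simp only [E2, Ex_mul, Ex_mul_right]
  ring

lemma avg_mul_avg {α : Type} [Fintype α] (f g : α → ℝ) :
    avg f * avg g = avg fun u => avg fun v => f u * g v := by
  simp only [avg_mul, avg_mul_right]

/-- the overlap of two configurations -/
noncomputable def q (ph : ι → Sg → Bool) (σ σ' : Sg) : ℝ :=
  avg fun u => sgn (ph u σ) * sgn (ph u σ')

omit [Fintype Sg] in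
lemma fr_eq [Nonempty ι] (ph : ι → Sg → Bool) (σ σ' : Sg) :
    fr ph σ σ' = 1 / 2 - 1 / 2 * q ph σ σ' := by
  have : ∀ u, ind (ph u σ ≠ ph u σ') = 1 / 2 - 1 / 2 * (sgn (ph u σ) * sgn (ph u σ')) := by
    intro u; cases ph u σ <;> cases ph u σ' <;> simp [ind, sgn] <;> norm_num
  simp only [fr, q, this, avg_sub, avg_mul, avg_const]

lemma zz_eq [Nonempty ι] (ph : ι → Sg → Bool) :
    zz μ ph = 1 / 2 - 1 / 2 * avg fun u => mm μ (ph u) ^ 2 := by
  have : ∀ u, kt μ (ph u) = 1 / 2 - 1 / 2 * mm μ (ph u) ^ 2 := by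
    intro u; unfold kt; ring
  simp only [zz, this, avg_sub, avg_mul, avg_const]

lemma E2_q (ph : ι → Sg → Bool) : E2 μ μ (q ph) = avg fun u => mm μ (ph u) ^ 2 := by
  refine (E2_avg fun u σ σ' => sgn (ph u σ) * sgn (ph u σ')).trans (avg_congr fun u => ?_)
  exact E2_prod fun σ => sgn (ph u σ)

lemma E2_q2 (ph : ι → Sg → Bool) : E2 μ μ (fun σ σ' => q ph σ σ' ^ 2) =
    avg fun u => avg fun v => (cv μ (ph u) (ph v) + mm μ (ph u) * mm μ (ph v)) ^ 2 := by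
  have h1 : ∀ σ σ', q ph σ σ' ^ 2 = avg fun u => avg fun v =>
      (sgn (ph u σ) * sgn (ph v σ)) * (sgn (ph u σ') * sgn (ph v σ')) := by
    intro σ σ'
    rw [sq, q, avg_mul_avg]
    exact avg_congr fun u => avg_congr fun v => by ring
  rw [E2_congr h1, E2_avg]
  refine avg_congr fun u => ?_
  rw [E2_avg]
  refine avg_congr fun v => ?_
  rw [E2_prod fun σ => sgn (ph u σ) * sgn (ph v σ), cv, sub_add_cancel]

lemma abs_mm_mul (h : Prob μ) (φ ψ : Sg → Bool) : |mm μ φ * mm μ ψ| ≤ 1 := by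
  rw [abs_mul]
  exact mul_le_one₀ (h.abs_mm_le φ) (abs_nonneg _) (h.abs_mm_le ψ)

lemma abs_cv_le (h : Prob μ) (φ ψ : Sg → Bool) : |cv μ φ ψ| ≤ 2 := by
  have h1 : |Ex μ fun σ => sgn (φ σ) * sgn (ψ σ)| ≤ 1 :=
    (abs_Ex_le h.1 _).trans (h.Ex_le fun σ => by simp [abs_mul])
  have h2 := abs_mm_mul h φ ψ
  unfold cv
  exact (abs_sub _ _).trans (by linarith)

lemma avg_abs_cv (ph : ι → Sg → Bool) :
    (avg fun u => avg fun v => |cv μ (ph u) (ph v)|) ≤ Real.sqrt (c2 μ ph) := by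
  refine Real.le_sqrt_of_sq_le ((sq_avg_le _).trans (avg_mono fun u => ?_))
  refine (sq_avg_le _).trans_eq (avg_congr fun v => sq_abs _)

lemma E2_q2_le (h : Prob μ) (ph : ι → Sg → Bool) : E2 μ μ (fun σ σ' => q ph σ σ' ^ 2) ≤
    (avg fun u => mm μ (ph u) ^ 2) ^ 2 + 4 * Real.sqrt (c2 μ ph) := by
  have h1 : (avg fun u => avg fun v => (cv μ (ph u) (ph v) + mm μ (ph u) * mm μ (ph v)) ^ 2) ≤
      avg fun u => avg fun v =>
        (mm μ (ph u) ^ 2 * mm μ (ph v) ^ 2 + 4 * |cv μ (ph u) (ph v)|) := by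
    refine avg_mono fun u => avg_mono fun v => ?_
    have a1 := abs_cv_le h (ph u) (ph v)
    have a2 := abs_mm_mul h (ph u) (ph v)
    have a3 : cv μ (ph u) (ph v) * (mm μ (ph u) * mm μ (ph v)) ≤ |cv μ (ph u) (ph v)| := by
      refine (le_abs_self _).trans ?_
      rw [abs_mul]
      exact mul_le_of_le_one_right (abs_nonneg _) a2
    have a4 : cv μ (ph u) (ph v) ^ 2 ≤ 2 * |cv μ (ph u) (ph v)| := by
      rw [← sq_abs]
      nlinarith [abs_nonneg (cv μ (ph u) (ph v))]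
    nlinarith
  rw [E2_q2]
  refine h1.trans ?_
  simp only [avg_add, avg_mul]
  rw [avg_mul_right, ← sq]
  linarith [avg_abs_cv (μ := μ) ph]

lemma mean [Nonempty ι] (h : Prob μ) (ph : ι → Sg → Bool) : E2 μ μ (fr ph) = zz μ ph := by
  refine (E2_avg fun u σ σ' => ind (ph u σ ≠ ph u σ')).trans (avg_congr fun u => ?_)
  exact h.E2_ne _

lemma second [Nonempty ι] (h : Prob μ) (ph : ι → Sg → Bool) :
    (E2 μ μ fun σ σ' => fr ph σ σ' ^ 2) ≤ zz μ ph ^ 2 + Real.sqrt (c2 μ ph) := by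
  have h1 : ∀ σ σ', fr ph σ σ' ^ 2 =
      (1 / 4 + (-1 / 2) * q ph σ σ') + 1 / 4 * q ph σ σ' ^ 2 := by
    intro σ σ'; rw [fr_eq]; ring
  rw [E2_congr h1, E2_add, E2_add, E2_const h, E2_mul, E2_mul, E2_q, zz_eq]
  nlinarith [E2_q2_le h ph]

lemma var [Nonempty ι] (h : Prob μ) (ph : ι → Sg → Bool) :
    (E2 μ μ fun σ σ' => (fr ph σ σ' - zz μ ph) ^ 2) ≤ Real.sqrt (c2 μ ph) := by
  have h1 : ∀ σ σ', (fr ph σ σ' - zz μ ph) ^ 2 =
      (zz μ ph ^ 2 + (-2 * zz μ ph) * fr ph σ σ') + fr ph σ σ' ^ 2 := by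
    intro σ σ'; ring
  rw [E2_congr h1, E2_add, E2_add, E2_const h, E2_mul, mean h]
  nlinarith [second h ph]

lemma cheb [Nonempty ι] (h : Prob μ) (ph : ι → Sg → Bool) {s : ℝ} (hs : 0 < s) :
    (E2 μ μ fun σ σ' => ind (s ≤ |fr ph σ σ' - zz μ ph|)) ≤ Real.sqrt (c2 μ ph) / s ^ 2 := by
  have h1 : ∀ σ σ', ind (s ≤ |fr ph σ σ' - zz μ ph|) ≤
      (s ^ 2)⁻¹ * (fr ph σ σ' - zz μ ph) ^ 2 := by
    intro σ σ'
    rw [← div_eq_inv_mul]
    refine (ind_mono fun h0 => ?_).trans (ind_le_div (sq_nonneg _) (pow_pos hs 2))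
    rw [← sq_abs (fr ph σ σ' - zz μ ph)]
    exact pow_le_pow_left₀ hs.le h0 2
  refine (E2_mono h h1).trans ?_
  rw [E2_mul, ← div_eq_inv_mul]
  exact div_le_div_of_nonneg_right (var h ph) (sq_nonneg s)

lemma avg_fib {A : Type} [Fintype A] [Nonempty ι] [DecidableEq ι] (pA : A → ι) (d : ℕ)
    (hd : ∀ u, (univ.filter fun a => pA a = u).card ≤ d) {f : ι → ℝ} (hf : ∀ u, 0 ≤ f u) :
    (avg fun a => f (pA a)) ≤ ((d : ℝ) * Fintype.card ι / Fintype.card A) * avg f := by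
  have h0 : (0 : ℝ) < Fintype.card ι := by exact_mod_cast Fintype.card_pos
  have h1 : ∑ a, f (pA a) ≤ d * ∑ u, f u := by
    rw [← sum_fiberwise univ pA, mul_sum]
    refine sum_le_sum fun u _ => ?_
    rw [sum_congr rfl (g := fun _ => f u) fun a ha => by rw [(mem_filter.1 ha).2], sum_const,
      nsmul_eq_mul]
    exact mul_le_mul_of_nonneg_right (by exact_mod_cast hd u) (hf u)
  have h2 : ((d : ℝ) * Fintype.card ι / Fintype.card A) * avg f =
      (d * ∑ u, f u) / Fintype.card A := by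
    unfold avg
    field_simp
  rw [h2]
  exact div_le_div_of_nonneg_right h1 (Nat.cast_nonneg _)

lemma pool {A : Type} [Fintype A] [Nonempty ι] [DecidableEq ι] (ph : ι → Sg → Bool) (pA : A → ι)
    (d : ℕ) (hd : ∀ u, (univ.filter fun a => pA a = u).card ≤ d) :
    c2 μ (fun a => ph (pA a)) ≤ ((d : ℝ) * Fintype.card ι / Fintype.card A) ^ 2 * c2 μ ph := by
  have hk : 0 ≤ (d : ℝ) * Fintype.card ι / Fintype.card A := by positivity
  have h1 : c2 μ (fun a => ph (pA a)) ≤ avg fun a =>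
      ((d : ℝ) * Fintype.card ι / Fintype.card A) * avg fun v => cv μ (ph (pA a)) (ph v) ^ 2 :=
    avg_mono fun a => avg_fib pA d hd (f := fun v => cv μ (ph (pA a)) (ph v) ^ 2)
      fun _ => sq_nonneg _
  have h2 := avg_fib pA d hd (f := fun u => avg fun v => cv μ (ph u) (ph v) ^ 2)
    fun _ => avg_nonneg fun _ => sq_nonneg _
  rw [avg_mul] at h1
  rw [sq, mul_assoc]
  exact h1.trans (mul_le_mul_of_nonneg_left h2 hk)

end OverJ

theorem stOver : StOver := fun _ _ _ _ _ _ ph h =>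
  ⟨OverJ.mean h ph, OverJ.second h ph, fun _ hs => OverJ.cheb h ph hs, OverJ.avg_abs_cv ph,
    fun _ _ _ _ pA d hd => OverJ.pool ph pA d hd⟩

end Pool.Agent.MP_32a90a_pr.D

end

section

set_option autoImplicit false
set_option linter.unusedSectionVars false

namespace Pool.Agent.MP_32a90a_pr.D

open Finset Pool.Agent.MP_32a90a_pr Pool.Agent.MP_32a90a_pr.L

noncomputable section

namespace PureJ

lemma sgn_sq (b : Bool) : sgn b * sgn b = 1 := by cases b <;> simp [sgn]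
lemma sgn_not' (b : Bool) : sgn (!b) = -sgn b := by cases b <;> simp [sgn]
lemma abs_sgn' (b : Bool) : |sgn b| = 1 := by cases b <;> simp [sgn]

section gen
variable {Sg Gm Nd : Type} [Fintype Sg] [Fintype Gm]

lemma pt {ν t : Sg → ℝ} (hν : Prob ν) {a x : ℝ} (ha : ∀ σ, |t σ| ≤ a) (ha' : a ≤ 1 / 2)
    (h0 : 0 ≤ x) (h1 : x ≤ 1) (σ : Sg) :
    |Real.exp (t σ) * (Ex ν fun σ => Real.exp (t σ)) ^ (x - 1) - 1 - t σ - (x - 1) * Ex ν t|
      ≤ 5 * a ^ 2 := by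
  have hA : 0 < Ex ν fun σ => Real.exp (t σ) := hν.Ex_pos fun _ => Real.exp_pos _
  set A := Ex ν fun σ => Real.exp (t σ) with hAdef
  have a0 : 0 ≤ a := (abs_nonneg _).trans (ha σ)
  have l1 : Ex ν t ≤ Real.log A := (Real.le_log_iff_exp_le hA).2 (hν.exp_Ex_le t)
  have l2 : Real.log A ≤ Ex ν t + a ^ 2 := by
    have : A ≤ Ex ν fun σ => t σ + (1 + a ^ 2) := Ex_mono hν.1 fun σ => by
      have h := (abs_le.1 (Real.abs_exp_sub_one_sub_id_le ((ha σ).trans (by linarith)))).2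
      have := sq_le_sq' (abs_le.1 (ha σ)).1 (abs_le.1 (ha σ)).2
      linarith
    rw [Ex_add, hν.Ex_const] at this
    linarith [Real.log_le_sub_one_of_pos hA]
  have l3 : -a ≤ Ex ν t := hν.le_Ex fun σ => (abs_le.1 (ha σ)).1
  have l4 : Real.log A ≤ a :=
    (Real.log_le_iff_le_exp hA).2 (hν.Ex_le fun σ => Real.exp_le_exp.2 (abs_le.1 (ha σ)).2)
  rw [Real.rpow_def_of_pos hA, ← Real.exp_add]
  set L := Real.log A
  obtain ⟨t1, t2⟩ := abs_le.1 (ha σ)
  have hu1 : -(2 * a) ≤ t σ + L * (x - 1) := by nlinarith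
  have hu2 : t σ + L * (x - 1) ≤ 2 * a := by nlinarith
  have h := abs_le.1 (Real.abs_exp_sub_one_sub_id_le (x := t σ + L * (x - 1))
    (abs_le.2 ⟨by linarith, by linarith⟩))
  have hs := sq_le_sq' hu1 hu2
  have k1 : 0 ≤ (1 - x) * (L - Ex ν t) := mul_nonneg (by linarith) (by linarith)
  have k2 : (1 - x) * (L - Ex ν t) ≤ a ^ 2 := by nlinarith
  rw [abs_le]
  constructor <;> nlinarith

variable [Nonempty Sg] {C : Cas Sg Gm}

lemma abs_P_le (h : C.Ok) {f : Gm → Sg → ℝ} {c : ℝ} (hf : ∀ γ σ, |f γ σ| ≤ c) : |C.P f| ≤ c :=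
  abs_le.2 ⟨Cas.const_le_P h fun γ σ => (abs_le.1 (hf γ σ)).1,
    Cas.P_le_const h fun γ σ => (abs_le.1 (hf γ σ)).2⟩

/-- first order response to one mark -/
lemma step (h : C.Ok) (τ : Gm ≃ Gm) (s : Gm → Bool) (ψ : Sg → Bool) {g : ℝ}
    (hp : ∀ γ, C.p (τ γ) = C.p γ)
    (hH : ∀ γ σ, C.H (τ γ) σ = C.H γ σ + -(2 * g * (sgn (s γ) * sgn (ψ σ))))
    (hs : ∀ γ, sgn (s (τ γ)) = -sgn (s γ)) (hb0 : 0 ≤ C.β * g) (hb : C.β * g ≤ 1 / 200)
    (f : Sg → ℝ) (hf : ∀ σ, |f σ| ≤ 1) :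
    |(C.P fun γ σ => sgn (s γ) * f σ) - C.β * g *
        C.P fun γ σ => f σ * (sgn (ψ σ) - (1 - C.x) * mm (C.nu γ) ψ)| ≤ 10 * (C.β * g) ^ 2 := by
  set D : Gm → Sg → ℝ := fun γ σ => -(2 * g * (sgn (s γ) * sgn (ψ σ))) with hD
  have e1 : ∀ γ σ, (C.add D).wt γ σ = C.wt (τ γ) σ := by
    intro γ σ
    have : C.H (τ γ) = fun σ => C.H γ σ + D γ σ := funext (hH γ)
    simp only [Cas.wt, Cas.nu, Cas.add, hp, this]
  have e2 : ((C.add D).E fun γ σ => sgn (s γ) * f σ) = -C.E fun γ σ => sgn (s γ) * f σ := by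
    simp only [Cas.E, e1]
    rw [← Equiv.sum_comp τ fun γ => ∑ σ, C.wt γ σ * (sgn (s γ) * f σ), ← sum_neg_distrib]
    refine sum_congr rfl fun γ _ => ?_
    rw [← sum_neg_distrib]
    exact sum_congr rfl fun σ _ => by rw [hs]; ring
  rw [Cas.E_add_eq] at e2
  have e3 : (C.P fun γ σ => Real.exp (C.β * D γ σ)
      * (Ex (C.nu γ) fun σ => Real.exp (C.β * D γ σ)) ^ (C.x - 1) * (sgn (s γ) * f σ))
      = -C.P fun γ σ => sgn (s γ) * f σ := by
    rw [Cas.P, Cas.P, e2, neg_div]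
  have key := abs_P_le h (c := 5 * (2 * (C.β * g)) ^ 2) (f := fun γ σ =>
    Real.exp (C.β * D γ σ) * (Ex (C.nu γ) fun σ => Real.exp (C.β * D γ σ)) ^ (C.x - 1)
      * (sgn (s γ) * f σ) - sgn (s γ) * f σ
      + 2 * (C.β * g) * (f σ * (sgn (ψ σ) - (1 - C.x) * mm (C.nu γ) ψ))) fun γ σ => by
    have ht : ∀ σ, |C.β * D γ σ| ≤ 2 * (C.β * g) := fun σ => by
      have : C.β * D γ σ = -(2 * (C.β * g) * (sgn (s γ) * sgn (ψ σ))) := by
        simp only [hD]; ring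
      rw [this, abs_neg, abs_mul, abs_mul (sgn _), abs_sgn', abs_sgn', abs_of_nonneg (by linarith)]
      linarith
    have h1 := pt (Cas.nu_prob (C := C) γ) ht (by linarith) h.2.1.le h.2.2.1 σ
    have h2 : (Ex (C.nu γ) fun σ => C.β * D γ σ) = -(2 * (C.β * g) * sgn (s γ)) * mm (C.nu γ) ψ := by
      rw [mm, ← Ex_mul]
      exact Ex_congr fun σ => by simp only [hD]; ring
    rw [h2] at h1
    set W := Real.exp (C.β * D γ σ) * (Ex (C.nu γ) fun σ => Real.exp (C.β * D γ σ)) ^ (C.x - 1)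
    have h3 : W * (sgn (s γ) * f σ) - sgn (s γ) * f σ
        + 2 * (C.β * g) * (f σ * (sgn (ψ σ) - (1 - C.x) * mm (C.nu γ) ψ))
        = (W - 1 - C.β * D γ σ - (C.x - 1) * (-(2 * (C.β * g) * sgn (s γ)) * mm (C.nu γ) ψ))
          * (sgn (s γ) * f σ) := by
      have := sgn_sq (s γ)
      simp only [hD]
      linear_combination (-(2 * (C.β * g) * (f σ * (sgn (ψ σ) - (1 - C.x) * mm (C.nu γ) ψ)))) * this
    rw [h3, abs_mul, abs_mul (sgn _), abs_sgn', one_mul]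
    exact (mul_le_of_le_one_right (abs_nonneg _) (hf σ)).trans h1
  rw [Cas.P_add, Cas.P_sub, Cas.P_mul, e3] at key
  rw [abs_le] at key ⊢
  constructor <;> nlinarith [key.1, key.2]

/-- mean of a spin -/
def mP (C : Cas Sg Gm) (φ : Sg → Bool) : ℝ := C.P fun _ σ => sgn (φ σ)

/-- covariance of a mark and a spin -/
def cc (C : Cas Sg Gm) (s : Gm → Bool) (φ : Sg → Bool) : ℝ :=
  (C.P fun γ σ => sgn (s γ) * sgn (φ σ)) - (C.P fun γ _ => sgn (s γ)) * mP C φ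

/-- covariance of two spins -/
def cvP (C : Cas Sg Gm) (φ ψ : Sg → Bool) : ℝ :=
  (C.P fun _ σ => sgn (φ σ) * sgn (ψ σ)) - mP C φ * mP C ψ

/-- mean Gibbs covariance -/
def Gb (C : Cas Sg Gm) (φ ψ : Sg → Bool) : ℝ :=
  C.P fun γ σ => (sgn (φ σ) - mm (C.nu γ) φ) * (sgn (ψ σ) - mm (C.nu γ) ψ)

lemma abs_mP (h : C.Ok) (φ : Sg → Bool) : |mP C φ| ≤ 1 := abs_P_le h fun _ σ => (abs_sgn' _).le

lemma P_mm (F : Gm → ℝ) (ψ : Sg → Bool) :
    (C.P fun γ _ => F γ * mm (C.nu γ) ψ) = C.P fun γ σ => F γ * sgn (ψ σ) := by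
  rw [← Cas.P_Ex fun γ σ => F γ * sgn (ψ σ)]
  exact Cas.P_congr fun γ _ => by rw [Ex_mul, mm]

lemma Gb_eq (φ ψ : Sg → Bool) : Gb C φ ψ = (C.P fun _ σ => sgn (φ σ) * sgn (ψ σ))
    - C.P fun γ σ => sgn (φ σ) * mm (C.nu γ) ψ := by
  have e := P_mm (C := C) (fun γ => mm (C.nu γ) φ) ψ
  have : Gb C φ ψ = C.P fun γ σ => sgn (φ σ) * sgn (ψ σ) - sgn (φ σ) * mm (C.nu γ) ψ
      - mm (C.nu γ) φ * sgn (ψ σ) + mm (C.nu γ) φ * mm (C.nu γ) ψ :=
    Cas.P_congr fun γ σ => by ring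
  rw [this, Cas.P_add, Cas.P_sub, Cas.P_sub, e]; ring

lemma cvP_eq (h : C.Ok) (φ ψ : Sg → Bool) :
    cvP C φ ψ = C.P fun _ σ => (sgn (φ σ) - mP C φ) * (sgn (ψ σ) - mP C ψ) := by
  have : (C.P fun _ σ => (sgn (φ σ) - mP C φ) * (sgn (ψ σ) - mP C ψ))
      = C.P fun _ σ => sgn (φ σ) * sgn (ψ σ) - mP C ψ * sgn (φ σ)
        - mP C φ * sgn (ψ σ) + mP C φ * mP C ψ := Cas.P_congr fun γ σ => by ring
  rw [this, Cas.P_add, Cas.P_sub, Cas.P_sub, Cas.P_mul, Cas.P_mul, Cas.P_const h, cvP]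
  show _ = _ - mP C ψ * mP C φ - mP C φ * mP C ψ + _
  ring

lemma cvP_sq (h : C.Ok) (φ ψ : Sg → Bool) : cvP C φ ψ ^ 2 ≤ 1 := by
  have h1 : ∀ c : ℝ, 0 ≤ C.P fun _ σ => (sgn (φ σ) - mP C φ - c * sgn (ψ σ)) ^ 2 := fun c =>
    Cas.P_nonneg h fun _ _ => sq_nonneg _
  have h2 := h1 (cvP C φ ψ)
  have : (C.P fun _ σ => (sgn (φ σ) - mP C φ - cvP C φ ψ * sgn (ψ σ)) ^ 2)
      = C.P fun _ σ => (1 + mP C φ ^ 2 + cvP C φ ψ ^ 2) - (2 * mP C φ) * sgn (φ σ)
        - (2 * cvP C φ ψ) * (sgn (φ σ) * sgn (ψ σ)) + (2 * mP C φ * cvP C φ ψ) * sgn (ψ σ) :=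
    Cas.P_congr fun γ σ => by
      linear_combination sgn_sq (φ σ) + cvP C φ ψ ^ 2 * sgn_sq (ψ σ)
  rw [this, Cas.P_add, Cas.P_sub, Cas.P_sub, Cas.P_mul, Cas.P_mul, Cas.P_mul, Cas.P_const h] at h2
  have e : (C.P fun _ σ => sgn (φ σ) * sgn (ψ σ)) = cvP C φ ψ + mP C φ * mP C ψ := by
    rw [cvP]; ring
  rw [e] at h2
  change 0 ≤ _ - 2 * mP C φ * mP C φ - _ + 2 * mP C φ * cvP C φ ψ * mP C ψ at h2
  nlinarith [sq_nonneg (mP C φ)]

lemma psd (h : C.Ok) {ι : Type} (S : Finset ι) (a b : ι → Gm → Sg → ℝ) :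
    0 ≤ ∑ u ∈ S, ∑ w ∈ S, (C.P fun γ σ => a u γ σ * a w γ σ) * C.P fun γ σ => b u γ σ * b w γ σ := by
  have : 0 ≤ C.P fun γ σ => C.P fun γ' σ' => (∑ u ∈ S, a u γ σ * b u γ' σ') ^ 2 :=
    Cas.P_nonneg h fun _ _ => Cas.P_nonneg h fun _ _ => sq_nonneg _
  refine this.trans_eq ?_
  simp only [sq, sum_mul_sum, Cas.P_sum]
  refine sum_congr rfl fun u _ => sum_congr rfl fun w _ => ?_
  rw [← Cas.P_mul_right]
  refine Cas.P_congr fun γ σ => ?_
  rw [← Cas.P_mul]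
  exact Cas.P_congr fun γ' σ' => by ring

lemma frob (h : C.Ok) {ι : Type} (S : Finset ι) (ph : ι → Sg → Bool) :
    C.x ^ 2 * ∑ u ∈ S, ∑ w ∈ S, cvP C (ph u) (ph w) ^ 2
      ≤ ∑ u ∈ S, ∑ w ∈ S, (C.x * cvP C (ph u) (ph w) + (1 - C.x) * Gb C (ph u) (ph w)) ^ 2 := by
  have h1 : 0 ≤ ∑ u ∈ S, ∑ w ∈ S, cvP C (ph u) (ph w) * Gb C (ph u) (ph w) := by
    simp only [cvP_eq h]
    exact psd h S (fun u _ σ => sgn (ph u σ) - mP C (ph u))
      fun u γ σ => sgn (ph u σ) - mm (C.nu γ) (ph u)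
  have h2 : 0 ≤ 2 * C.x * (1 - C.x) := mul_nonneg (by linarith [h.2.1]) (by linarith [h.2.2.1])
  refine (le_add_of_nonneg_right (mul_nonneg h2 h1)).trans ?_
  simp only [mul_sum, ← sum_add_distrib]
  refine sum_le_sum fun u _ => sum_le_sum fun w _ => ?_
  nlinarith [sq_nonneg ((1 - C.x) * Gb C (ph u) (ph w))]

lemma cov (h : C.Ok) (τ : Gm ≃ Gm) (s : Gm → Bool) (ψ : Sg → Bool) {g : ℝ}
    (hp : ∀ γ, C.p (τ γ) = C.p γ)
    (hH : ∀ γ σ, C.H (τ γ) σ = C.H γ σ + -(2 * g * (sgn (s γ) * sgn (ψ σ))))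
    (hs : ∀ γ, sgn (s (τ γ)) = -sgn (s γ)) (hb0 : 0 ≤ C.β * g) (hb : C.β * g ≤ 1 / 200)
    (φ : Sg → Bool) :
    (C.β * g) ^ 2 / 2 * (C.x * cvP C φ ψ + (1 - C.x) * Gb C φ ψ) ^ 2 - 400 * (C.β * g) ^ 4
      ≤ cc C s φ ^ 2 := by
  have h1 := step h τ s ψ hp hH hs hb0 hb (fun σ => sgn (φ σ)) fun σ => (abs_sgn' _).le
  have h2 := step h τ s ψ hp hH hs hb0 hb (fun _ => 1) fun σ => by simp
  have e1 : (C.P fun γ σ => sgn (φ σ) * (sgn (ψ σ) - (1 - C.x) * mm (C.nu γ) ψ))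
      = C.x * cvP C φ ψ + (1 - C.x) * Gb C φ ψ + C.x * (mP C φ * mP C ψ) := by
    have : (C.P fun γ σ => sgn (φ σ) * (sgn (ψ σ) - (1 - C.x) * mm (C.nu γ) ψ))
        = C.P fun γ σ => sgn (φ σ) * sgn (ψ σ) - (1 - C.x) * (sgn (φ σ) * mm (C.nu γ) ψ) :=
      Cas.P_congr fun γ σ => by ring
    rw [this, Cas.P_sub, Cas.P_mul, Gb_eq, cvP]; ring
  have e2 : (C.P fun γ σ => 1 * (sgn (ψ σ) - (1 - C.x) * mm (C.nu γ) ψ)) = C.x * mP C ψ := by
    simp only [one_mul]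
    rw [Cas.P_sub, P_mm (fun _ => 1 - C.x), Cas.P_mul, mP]; ring
  rw [e1] at h1
  rw [e2] at h2
  simp only [mul_one] at h2
  set R := C.x * cvP C φ ψ + (1 - C.x) * Gb C φ ψ
  set b := C.β * g
  have h3 : |cc C s φ - b * R| ≤ 20 * b ^ 2 := by
    have e : cc C s φ - b * R = ((C.P fun γ σ => sgn (s γ) * sgn (φ σ))
        - b * (R + C.x * (mP C φ * mP C ψ)))
        - ((C.P fun γ _ => sgn (s γ)) - b * (C.x * mP C ψ)) * mP C φ := by
      rw [cc]; ring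
    rw [e]
    refine (abs_sub _ _).trans ?_
    rw [abs_mul]
    have := mul_le_of_le_one_right
      (abs_nonneg ((C.P fun γ _ => sgn (s γ)) - b * (C.x * mP C ψ))) (abs_mP h φ)
    linarith
  have h4 := sq_le_sq' (abs_le.1 h3).1 (abs_le.1 h3).2
  nlinarith [sq_nonneg (2 * cc C s φ - b * R)]

/-- the cascade restricted to the node of γ -/
def nodeC (C : Cas Sg Gm) (nd : Gm → Nd) (γ : Gm) : Cas Sg Gm :=
  C.res fun γ' => ind (nd γ' = nd γ)

lemma node_ok (h : C.Ok) (nd : Gm → Nd) {γ : Gm} (hγ : 0 < C.p γ) : (nodeC C nd γ).Ok :=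
  ⟨h.1, h.2.1, h.2.2.1, fun γ' => mul_nonneg (h.2.2.2.1 γ') (ind_nonneg _),
    ⟨γ, by show 0 < C.p γ * ind (nd γ = nd γ); rw [ind_pos rfl, mul_one]; exact hγ⟩⟩

lemma node_P (nd : Gm → Nd) (γ : Gm) (F : Gm → Sg → ℝ) : (nodeC C nd γ).P F
    = (C.E fun γ' σ => ind (nd γ' = nd γ) * F γ' σ) / C.E fun γ' _ => ind (nd γ' = nd γ) := by
  simp only [nodeC, Cas.P, Cas.N, Cas.E_res, mul_one]

lemma node_congr (nd : Gm → Nd) (γ : Gm) {F G : Gm → Sg → ℝ}
    (h : ∀ γ' σ, nd γ' = nd γ → F γ' σ = G γ' σ) : (nodeC C nd γ).P F = (nodeC C nd γ).P G := by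
  rw [node_P, node_P]
  congr 1
  refine Cas.E_congr fun γ' σ => ?_
  by_cases e : nd γ' = nd γ
  · rw [h γ' σ e]
  · rw [ind_neg e, zero_mul, zero_mul]

lemma node_eq (nd : Gm → Nd) {γ γ' : Gm} (h : nd γ' = nd γ) : nodeC C nd γ' = nodeC C nd γ := by
  simp only [nodeC, h]

lemma tower (h : C.Ok) (nd : Gm → Nd) (F : Gm → Sg → ℝ) :
    (C.P fun γ _ => (nodeC C nd γ).P F) = C.P F := by
  rw [Cas.P, Cas.P]
  congr 1
  set w : Gm → ℝ := fun γ => C.p γ * Zf C.β (C.H γ) ^ C.x with hw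
  have w0 : ∀ γ, 0 ≤ w γ := fun γ =>
    mul_nonneg (h.2.2.2.1 γ) (Real.rpow_nonneg (Zf_pos _ _).le _)
  set W : Gm → ℝ := fun γ => ∑ γ', w γ' * ind (nd γ' = nd γ) with hW
  have e1 : ∀ γ, (nodeC C nd γ).P F
      = ∑ γ', w γ' * Ex (C.nu γ') (F γ') * (ind (nd γ' = nd γ) / W γ') := by
    intro γ
    rw [node_P, Cas.E_eq, Cas.E_eq, sum_div]
    refine sum_congr rfl fun γ' _ => ?_
    simp only [(Cas.nu_prob _).Ex_const, Ex_mul]
    by_cases e : nd γ' = nd γ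
    · simp only [hW, hw, e]; ring
    · rw [ind_neg e]; simp
  rw [Cas.E_eq, Cas.E_eq]
  simp only [(Cas.nu_prob _).Ex_const, e1, mul_sum]
  rw [sum_comm]
  refine sum_congr rfl fun γ' _ => ?_
  have e2 : ∑ γ, w γ * (w γ' * Ex (C.nu γ') (F γ') * (ind (nd γ' = nd γ) / W γ'))
      = w γ' * Ex (C.nu γ') (F γ') * (W γ' / W γ') := by
    rw [hW]
    simp only [sum_div, mul_sum]
    refine sum_congr rfl fun γ _ => ?_
    rw [ind_congr (eq_comm (a := nd γ') (b := nd γ))]; ring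
  refine e2.trans ?_
  rcases eq_or_ne (W γ') 0 with e | e
  · have : w γ' ≤ W γ' := by
      have := single_le_sum (f := fun γ => w γ * ind (nd γ = nd γ'))
        (fun γ _ => mul_nonneg (w0 γ) (ind_nonneg _)) (mem_univ γ')
      rwa [ind_pos rfl, mul_one] at this
    have : w γ' = 0 := le_antisymm (e ▸ this) (w0 γ')
    show _ = w γ' * _
    rw [this]; simp
  · rw [div_self e, mul_one]

/-- gain in the mean squared magnetisation when a mark is revealed -/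
lemma gain (h : C.Ok) {Nd' : Type} (nd : Gm → Nd) (nd' : Gm → Nd') (s : Gm → Bool)
    (hn : ∀ γ γ', nd' γ' = nd' γ → nd γ' = nd γ ∧ s γ' = s γ) (φ : Sg → Bool) :
    (C.P fun γ _ => mP (nodeC C nd γ) φ ^ 2) + (C.P fun γ _ => cc (nodeC C nd γ) s φ ^ 2)
      ≤ C.P fun γ _ => mP (nodeC C nd' γ) φ ^ 2 := by
  set η : Gm → ℝ := fun γ => mP (nodeC C nd γ) φ + cc (nodeC C nd γ) s φ
    * (sgn (s γ) - (nodeC C nd γ).P fun γ _ => sgn (s γ)) with hη
  have h1 : (C.P fun γ σ => 2 * η γ * sgn (φ σ) - η γ ^ 2)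
      ≤ C.P fun γ _ => mP (nodeC C nd' γ) φ ^ 2 := by
    rw [← tower h nd']
    refine Cas.P_mono_supp h fun γ _ hγ => ?_
    have : ((nodeC C nd' γ).P fun γ σ => 2 * η γ * sgn (φ σ) - η γ ^ 2)
        = (nodeC C nd' γ).P fun _ σ => 2 * η γ * sgn (φ σ) - η γ ^ 2 :=
      node_congr nd' γ fun γ' σ e => by
        simp only [hη, node_eq nd (hn γ γ' e).1, (hn γ γ' e).2]
    rw [this, Cas.P_sub, Cas.P_mul, Cas.P_const (node_ok h nd' hγ)]
    change 2 * η γ * mP (nodeC C nd' γ) φ - _ ≤ _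
    nlinarith [sq_nonneg (η γ - mP (nodeC C nd' γ) φ)]
  refine le_trans ?_ h1
  rw [← Cas.P_add, ← tower h nd fun γ σ => 2 * η γ * sgn (φ σ) - η γ ^ 2]
  refine Cas.P_mono_supp h fun γ _ hγ => ?_
  have hk := node_ok h nd hγ
  set B := nodeC C nd γ with hB
  set m := mP B φ with hm
  set c := cc B s φ with hc
  set t := B.P fun γ _ => sgn (s γ) with ht
  have : (B.P fun γ σ => 2 * η γ * sgn (φ σ) - η γ ^ 2)
      = B.P fun γ' σ => 2 * (m - c * t) * sgn (φ σ) + 2 * c * (sgn (s γ') * sgn (φ σ))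
        - 2 * (m - c * t) * c * sgn (s γ') - ((m - c * t) ^ 2 + c ^ 2) :=
    node_congr nd γ fun γ' σ e => by
      simp only [hη, node_eq nd e]
      rw [← hB, ← hm, ← hc, ← ht]
      linear_combination (-c ^ 2) * sgn_sq (s γ')
  rw [this, Cas.P_sub, Cas.P_sub, Cas.P_add, Cas.P_mul, Cas.P_mul, Cas.P_mul, Cas.P_const hk]
  have e : (B.P fun γ' σ => sgn (s γ') * sgn (φ σ)) = c + t * m := by
    rw [hc, cc]; ring
  rw [e]
  change _ ≤ 2 * (m - c * t) * m + _ - 2 * (m - c * t) * c * t - _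
  nlinarith [sq_nonneg (c * t)]

end gen

section marks
variable {V Z : Type} [Fintype V] [DecidableEq V] [Fintype Z]
  {C : Cas (V → Bool) ((V → Bool) × Z)}

/-- flip of one mark -/
def fw (Z : Type) (w : V) : ((V → Bool) × Z) ≃ ((V → Bool) × Z) where
  toFun γ := (Function.update γ.1 w (!γ.1 w), γ.2)
  invFun γ := (Function.update γ.1 w (!γ.1 w), γ.2)
  left_inv γ := by simp
  right_inv γ := by simp

/-- mean squared magnetisation -/
def qq' (C : Cas (V → Bool) ((V → Bool) × Z)) (T : Finset V) : ℝ :=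
  ∑ u, C.P fun γ _ => mP (nodeC C (fun γ => rS T γ.1) γ) (crd u) ^ 2

/-- squared covariances off T -/
def XX (C : Cas (V → Bool) ((V → Bool) × Z)) (T : Finset V) : ℝ :=
  C.P fun γ _ => ∑ u ∈ Tᶜ, ∑ w ∈ Tᶜ, cvP (nodeC C (fun γ => rS T γ.1) γ) (crd u) (crd w) ^ 2

lemma qq_bd (h : C.Ok) (T : Finset V) : 0 ≤ qq' C T ∧ qq' C T ≤ Fintype.card V := by
  refine ⟨sum_nonneg fun u _ => Cas.P_nonneg h fun _ _ => sq_nonneg _, ?_⟩
  have : ∀ u ∈ (univ : Finset V),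
      (C.P fun γ _ => mP (nodeC C (fun γ => rS T γ.1) γ) (crd u) ^ 2) ≤ 1 := fun u _ =>
    (Cas.P_mono_supp h fun γ _ hγ => (sq_le_one_iff_abs_le_one _).2
      (abs_mP (node_ok h _ hγ) _)).trans_eq (Cas.P_const h 1)
  simpa [qq'] using sum_le_sum this

lemma count (a : V → V → ℝ) (ha : ∀ u w, a u w ≤ 1) (T : Finset V) :
    ∑ u, ∑ w, a u w ≤ ∑ u ∈ Tᶜ, ∑ w ∈ Tᶜ, a u w + 2 * T.card * Fintype.card V := by
  have h1 : ∑ u ∈ T, ∑ w, a u w ≤ T.card * Fintype.card V := by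
    simpa using sum_le_sum fun u (_ : u ∈ T) => sum_le_sum fun w (_ : w ∈ univ) => ha u w
  have h2 : ∑ u ∈ Tᶜ, ∑ w ∈ T, a u w ≤ T.card * Fintype.card V := by
    have h3 : ∑ u ∈ Tᶜ, ∑ w ∈ T, a u w ≤ (Tᶜ.card : ℝ) * T.card := by
      simpa using sum_le_sum fun u (_ : u ∈ Tᶜ) => sum_le_sum fun w (_ : w ∈ T) => ha u w
    have h4 : (Tᶜ.card : ℝ) ≤ Fintype.card V := by exact_mod_cast card_le_univ _
    have h5 : (0 : ℝ) ≤ T.card := Nat.cast_nonneg _
    nlinarith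
  rw [← sum_add_sum_compl T]
  have h6 : ∑ u ∈ Tᶜ, ∑ w, a u w = ∑ u ∈ Tᶜ, ∑ w ∈ T, a u w + ∑ u ∈ Tᶜ, ∑ w ∈ Tᶜ, a u w := by
    rw [← sum_add_distrib]
    exact sum_congr rfl fun u _ => (sum_add_sum_compl T _).symm
  linarith

lemma err_le (hT : StTower) (h : C.Ok) (hV : 0 < Fintype.card V) (T : Finset V) :
    C.errP (fun γ => rS T γ.1) crd
      ≤ XX C T / (Fintype.card V : ℝ) ^ 2 + 2 * T.card / Fintype.card V := by
  have hN : (0 : ℝ) < Fintype.card V := by exact_mod_cast hV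
  have e : ∀ γ (f : (V → Bool) → ℝ), Ex (C.mu (fun γ => rS T γ.1) (rS T γ.1)) f
      = (nodeC C (fun γ => rS T γ.1) γ).P fun _ σ => f σ := fun γ f => by
    rw [node_P]; exact (hT _ _ _ C (fun γ => rS T γ.1) h).2.2.1 _ f
  have e2 : XX C T / (Fintype.card V : ℝ) ^ 2 + 2 * T.card / Fintype.card V
      = C.P fun γ _ => (∑ u ∈ Tᶜ, ∑ w ∈ Tᶜ,
        cvP (nodeC C (fun γ => rS T γ.1) γ) (crd u) (crd w) ^ 2) * (1 / (Fintype.card V : ℝ) ^ 2)
          + 2 * T.card / Fintype.card V := by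
    rw [Cas.P_add, Cas.P_mul_right, Cas.P_const h, XX, mul_one_div]
  rw [e2]
  refine Cas.P_mono_supp h fun γ _ hγ => ?_
  have h1 := count (fun u w => cvP (nodeC C (fun γ => rS T γ.1) γ) (crd u) (crd w) ^ 2)
    (fun u w => cvP_sq (node_ok h _ hγ) _ _) T
  have e3 : c2 (C.mu (fun γ => rS T γ.1) (rS T γ.1)) crd
      = (∑ u, ∑ w, cvP (nodeC C (fun γ => rS T γ.1) γ) (crd u) (crd w) ^ 2)
        / (Fintype.card V : ℝ) ^ 2 := by
    simp only [c2, avg, cv, mm, e, ← sum_div, cvP, mP]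
    rw [div_div, sq (Fintype.card V : ℝ)]
  show c2 (C.mu (fun γ => rS T γ.1) (rS T γ.1)) crd ≤ _
  rw [e3, div_le_iff₀ (by positivity)]
  refine h1.trans_eq ?_
  field_simp

lemma one (h : C.Ok) {g : ℝ} (hp : ∀ γ γ' ζ, C.p (γ, ζ) = C.p (γ', ζ))
    (hH : ∀ γ γ' ζ σ, C.H (γ, ζ) σ - g * ∑ v, sgn (γ v) * sgn (σ v)
      = C.H (γ', ζ) σ - g * ∑ v, sgn (γ' v) * sgn (σ v))
    (hb0 : 0 ≤ C.β * g) (hb : C.β * g ≤ 1 / 200) (T : Finset V) :
    (C.β * g) ^ 2 / 2 * C.x ^ 2 * XX C T - 400 * (C.β * g) ^ 4 * (Fintype.card V : ℝ) ^ 2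
      ≤ ∑ w ∈ Tᶜ, (qq' C (insert w T) - qq' C T) := by
  have h1 : ∀ w ∈ Tᶜ, ∑ u ∈ Tᶜ, (C.P fun γ _ =>
      cc (nodeC C (fun γ => rS T γ.1) γ) (fun γ => γ.1 w) (crd u) ^ 2)
      ≤ qq' C (insert w T) - qq' C T := by
    intro w hw
    rw [qq', qq', ← sum_sub_distrib]
    refine (sum_le_sum_of_subset_of_nonneg (subset_univ _)
      fun u _ _ => Cas.P_nonneg h fun _ _ => sq_nonneg _).trans (sum_le_sum fun u _ => ?_)
    rw [le_sub_iff_add_le']
    refine gain h _ _ _ (fun γ γ' e => ⟨funext fun v => ?_, ?_⟩) _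
    · have := congrFun e v
      by_cases hv : v ∈ T
      · simpa [rS, hv] using this
      · simp [rS, hv]
    · simpa [rS] using congrFun e w
  refine le_trans ?_ (sum_le_sum h1)
  simp only [← Cas.P_sum]
  rw [XX, ← Cas.P_mul, ← Cas.P_const h (400 * (C.β * g) ^ 4 * (Fintype.card V : ℝ) ^ 2),
    ← Cas.P_sub]
  refine Cas.P_mono_supp h fun γ _ hγ => ?_
  have hk := node_ok h (fun γ => rS T γ.1) hγ
  set B := nodeC C (fun γ => rS T γ.1) γ with hB
  have h2 : ∀ u ∈ Tᶜ, ∀ w ∈ Tᶜ, (C.β * g) ^ 2 / 2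
      * (C.x * cvP B (crd u) (crd w) + (1 - C.x) * Gb B (crd u) (crd w)) ^ 2 - 400 * (C.β * g) ^ 4
      ≤ cc B (fun γ => γ.1 w) (crd u) ^ 2 := by
    intro u _ w hw
    have hw' : w ∉ T := mem_compl.1 hw
    refine cov hk (fw Z w) (fun γ => γ.1 w) (crd w) (fun γ' => ?_) (fun γ' σ => ?_)
      (fun γ' => ?_) hb0 hb (crd u)
    · have e : rS T (Function.update γ'.1 w (!γ'.1 w)) = rS T γ'.1 := funext fun v => by
        by_cases hv : v ∈ T
        · have : v ≠ w := fun e => hw' (e ▸ hv)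
          simp [rS, hv, this]
        · simp [rS, hv]
      show C.p (Function.update γ'.1 w (!γ'.1 w), γ'.2)
        * ind (rS T (Function.update γ'.1 w (!γ'.1 w)) = rS T γ.1)
          = C.p (γ'.1, γ'.2) * ind (rS T γ'.1 = rS T γ.1)
      rw [e, hp _ γ'.1]
    · have e : ∑ v, sgn (Function.update γ'.1 w (!γ'.1 w) v) * sgn (σ v)
          = ∑ v, sgn (γ'.1 v) * sgn (σ v) - 2 * (sgn (γ'.1 w) * sgn (σ w)) := by
        rw [← add_sum_erase _ _ (mem_univ w), ← add_sum_erase univ _ (mem_univ w),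
          Function.update_self, sgn_not',
          sum_congr rfl fun v hv => by rw [Function.update_of_ne (ne_of_mem_erase hv)]]
        ring
      have := hH (Function.update γ'.1 w (!γ'.1 w)) γ'.1 γ'.2 σ
      rw [e] at this
      show C.H (Function.update γ'.1 w (!γ'.1 w), γ'.2) σ
        = C.H (γ'.1, γ'.2) σ + -(2 * g * (sgn (γ'.1 w) * sgn (σ w)))
      linarith
    · show sgn (Function.update γ'.1 w (!γ'.1 w) w) = _
      rw [Function.update_self, sgn_not']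
  have h3 := frob hk Tᶜ crd
  have h4 := sum_le_sum fun u hu => sum_le_sum fun w hw => h2 u hu w hw
  rw [sum_comm (s := Tᶜ) (t := Tᶜ) (f := fun w u => cc B (fun γ => γ.1 w) (crd u) ^ 2)]
  refine le_trans ?_ h4
  simp only [sum_sub_distrib, ← mul_sum, sum_const, nsmul_eq_mul]
  have h5 : (Tᶜ.card : ℝ) ≤ Fintype.card V := by exact_mod_cast card_le_univ _
  have h6 : (Tᶜ.card : ℝ) * Tᶜ.card ≤ (Fintype.card V : ℝ) ^ 2 := by
    rw [← sq]; exact pow_le_pow_left₀ (Nat.cast_nonneg _) h5 2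
  have h7 := mul_le_mul_of_nonneg_left h3 (show 0 ≤ (C.β * g) ^ 2 / 2 by positivity)
  have h8 := mul_le_mul_of_nonneg_left h6 (show 0 ≤ 400 * (C.β * g) ^ 4 by positivity)
  change (C.β * g) ^ 2 / 2 * (C.x ^ 2 * _) ≤ (C.β * g) ^ 2 / 2 * ∑ u ∈ Tᶜ, ∑ w ∈ Tᶜ,
    (C.x * cvP B (crd u) (crd w) + (1 - C.x) * Gb B (crd u) (crd w)) ^ 2 at h7
  nlinarith

end marks

lemma greedy {V : Type} [DecidableEq V] (Q : Finset V → ℝ) (k : ℕ) (c : ℝ)
    (h : ∀ T : Finset V, T.card < k → ∃ w, w ∉ T ∧ Q T + c ≤ Q (insert w T)) :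
    ∀ j ≤ k, ∃ T : Finset V, T.card = j ∧ Q ∅ + j * c ≤ Q T := by
  intro j
  induction j with
  | zero => exact fun _ => ⟨∅, rfl, by simp⟩
  | succ j ih =>
    intro hj
    obtain ⟨T, hT, hQ⟩ := ih (by omega)
    obtain ⟨w, hw, hq⟩ := h T (by omega)
    refine ⟨insert w T, by rw [card_insert_of_notMem hw, hT], ?_⟩
    push_cast
    linarith

end PureJ

open PureJ in
theorem stPure (hBd : StBd) (hTower : StTower) : StPure := by
  refine ⟨800, by norm_num, ?_⟩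
  intro Dd V Z _ _ _ _ _ Cs β x g k hC hp hH hg hb hk1 hkV
  by_contra hcon
  push Not at hcon
  have hV : 0 < Fintype.card V := by omega
  have hN : (0 : ℝ) < Fintype.card V := by exact_mod_cast hV
  have hk : (0 : ℝ) < k := by exact_mod_cast hk1
  obtain ⟨δ0⟩ := ‹Nonempty Dd›
  have hβ : 0 < β := (hC δ0).2.1 ▸ (hC δ0).1.1
  have hx : 0 < x := (hC δ0).2.2 ▸ (hC δ0).1.2.1
  have hb0 : 0 < β * g := mul_pos hβ hg
  set b := β * g with hbdef
  set N : ℝ := (Fintype.card V : ℝ) with hNdef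
  have key : ∀ T : Finset V, T.card < k → ∃ w, w ∉ T ∧
      (avg fun δ => qq' (Cs δ) T) + 2 * N / k ≤ avg fun δ => qq' (Cs δ) (insert w T) := by
    intro T hT
    by_contra hn
    push Not at hn
    have h1 := hcon T hT.le
    have h2 : (avg fun δ => (Cs δ).errP (fun γ => rS T γ.1) crd)
        ≤ (avg fun δ => XX (Cs δ) T) / N ^ 2 + 2 * T.card / N := by
      refine (avg_mono fun δ => err_le hTower (hC δ).1 hV T).trans_eq ?_
      rw [avg_add, avg_div, avg_const]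
    have h3 : b ^ 2 / 2 * x ^ 2 * (avg fun δ => XX (Cs δ) T) - 400 * b ^ 4 * N ^ 2
        ≤ ∑ w ∈ Tᶜ, ((avg fun δ => qq' (Cs δ) (insert w T)) - avg fun δ => qq' (Cs δ) T) := by
      simp only [← avg_sub]
      rw [← avg_sum, ← avg_mul, ← avg_const (α := Dd) (400 * b ^ 4 * N ^ 2), ← avg_sub]
      refine avg_mono fun δ => ?_
      have := one (hC δ).1 (hp δ) (hH δ) (by rw [(hC δ).2.1]; exact hb0.le)
        (by rw [(hC δ).2.1]; exact hb) T
      rwa [(hC δ).2.1, (hC δ).2.2] at this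
    have h4 : ∑ w ∈ Tᶜ, ((avg fun δ => qq' (Cs δ) (insert w T)) - avg fun δ => qq' (Cs δ) T)
        ≤ N * (2 * N / k) := by
      refine (sum_le_sum fun w hw => (sub_lt_iff_lt_add'.2 (hn w (mem_compl.1 hw))).le).trans ?_
      rw [sum_const, nsmul_eq_mul]
      exact mul_le_mul_of_nonneg_right (by rw [hNdef]; exact_mod_cast card_le_univ _)
        (by positivity)
    have h5 : 2 * (T.card : ℝ) / N ≤ 2 * k / N := by
      have : (T.card : ℝ) ≤ k := by exact_mod_cast hT.le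
      gcongr
    set X := avg fun δ => XX (Cs δ) T
    have h6 : 800 / x ^ 2 * (1 / (k * b ^ 2) + b ^ 2) < X / N ^ 2 := by linarith
    rw [lt_div_iff₀ (by positivity)] at h6
    have h7 := mul_lt_mul_of_pos_left h6 (show 0 < b ^ 2 / 2 * x ^ 2 by positivity)
    have e : b ^ 2 / 2 * x ^ 2 * (800 / x ^ 2 * (1 / (k * b ^ 2) + b ^ 2) * N ^ 2)
        = 200 * (N * (2 * N / k)) + 400 * b ^ 4 * N ^ 2 := by
      field_simp; ring
    have h8 : 0 < N * (2 * N / k) := by positivity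
    linarith
  obtain ⟨T, -, hT⟩ := greedy (fun T => avg fun δ => qq' (Cs δ) T) k (2 * N / k) key k le_rfl
  have h1 : 0 ≤ avg fun δ => qq' (Cs δ) ∅ := avg_nonneg fun δ => (qq_bd (hC δ).1 _).1
  have h2 : (avg fun δ => qq' (Cs δ) T) ≤ N := avg_le_const hN.le fun δ => (qq_bd (hC δ).1 _).2
  have e : (k : ℝ) * (2 * N / k) = 2 * N := by field_simp
  simp only [e] at hT
  linarith

end

end Pool.Agent.MP_32a90a_pr.D

end

section

set_option autoImplicit false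

namespace Pool.Agent.MP_32a90a_pr.D

open Finset Pool.Agent.MP_32a90a_pr Pool.Agent.MP_32a90a_pr.L

theorem stResNode : StResNode := by
  intro Sg Gm Nd _ _ _ C nd γ0 hC h0
  refine ⟨⟨hC.1, hC.2.1, hC.2.2.1, fun g => mul_nonneg (hC.2.2.2.1 g) (ind_nonneg _), γ0, ?_⟩,
    fun D => ?_⟩
  · show 0 < C.p γ0 * ind (nd γ0 = nd γ0)
    rw [ind_pos rfl, mul_one]; exact h0
  · have e : (C.res fun γ => ind (nd γ = nd γ0)).add D
        = (C.add D).res fun γ => ind (nd γ = nd γ0) := rfl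
    funext σ
    rw [e, Cas.root, Cas.P, Cas.N, Cas.E_res, Cas.E_res, Cas.mu]
    simp only [ind_and, mul_one]

end Pool.Agent.MP_32a90a_pr.D

end

section

set_option autoImplicit false

namespace Pool.Agent.MP_32a90a_pr.D

open Finset Pool.Agent.MP_32a90a_pr Pool.Agent.MP_32a90a_pr.L

theorem stSafe : StSafe := by
  intro Sg Gm _ _ _ C D f b dl hC hf
  have hβ := hC.1
  have hx : C.x - 1 ≤ 0 := by linarith [hC.2.2.1]
  have hpos : ∀ γ, 0 < Ex (C.nu γ) fun σ => Real.exp (C.β * D γ σ) := fun γ =>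
    (Cas.nu_prob γ).Ex_pos fun _ => Real.exp_pos _
  constructor
  · intro h1 h2
    rw [Cas.E_add_eq, ← Cas.E_mul]
    refine Cas.E_mono hC fun γ σ => ?_
    by_cases h0 : f γ σ = 0
    · simp [h0]
    refine mul_le_mul_of_nonneg_right ?_ (hf γ σ)
    have a1 : (Ex (C.nu γ) fun σ => Real.exp (C.β * D γ σ)) ≤ Real.exp (C.β * b) :=
      (Cas.nu_prob γ).Ex_le fun σ =>
        Real.exp_le_exp.2 (mul_le_mul_of_nonneg_left (h1 γ σ) hβ.le)
    have a2 := Real.rpow_le_rpow_of_nonpos (hpos γ) a1 hx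
    rw [← Real.exp_mul] at a2
    have a3 : Real.exp (C.β * (b - dl)) ≤ Real.exp (C.β * D γ σ) :=
      Real.exp_le_exp.2 (mul_le_mul_of_nonneg_left (h2 γ σ h0) hβ.le)
    refine le_trans (le_of_eq ?_) (mul_le_mul a3 a2 (Real.exp_pos _).le (Real.exp_pos _).le)
    rw [← Real.exp_add]; congr 1; unfold Cas.y; ring
  · intro h1 h2
    rw [Cas.E_add_eq, ← Cas.E_mul]
    refine Cas.E_mono hC fun γ σ => ?_
    by_cases h0 : f γ σ = 0
    · simp [h0]
    refine mul_le_mul_of_nonneg_right ?_ (hf γ σ)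
    have a1 : Real.exp (C.β * -b) ≤ Ex (C.nu γ) fun σ => Real.exp (C.β * D γ σ) :=
      (Cas.nu_prob γ).le_Ex fun σ =>
        Real.exp_le_exp.2 (mul_le_mul_of_nonneg_left (h1 γ σ) hβ.le)
    have a2 := Real.rpow_le_rpow_of_nonpos (Real.exp_pos _) a1 hx
    rw [← Real.exp_mul] at a2
    have a3 : Real.exp (C.β * D γ σ) ≤ Real.exp (C.β * (-b + dl)) :=
      Real.exp_le_exp.2 (mul_le_mul_of_nonneg_left (h2 γ σ h0) hβ.le)
    refine le_trans (mul_le_mul a3 a2 (Real.rpow_nonneg (hpos γ).le _) (Real.exp_pos _).le)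
      (le_of_eq ?_)
    rw [← Real.exp_add]; congr 1; unfold Cas.y; ring

end Pool.Agent.MP_32a90a_pr.D

end

section

set_option autoImplicit false

namespace Pool.Agent.MP_32a90a_pr.D

open Finset Pool.Agent.MP_32a90a_pr Pool.Agent.MP_32a90a_pr.L

namespace StabVJ

variable {Sg ι : Type} [Fintype Sg] [Fintype ι] {μ μ' : Sg → ℝ} {K : ℝ}

/-- centred spin -/
noncomputable def X (μ : Sg → ℝ) (φ : Sg → Bool) (σ : Sg) : ℝ := sgn (φ σ) - mm μ φ

/-- the covariance as a quadratic form -/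
noncomputable def Q (μ : Sg → ℝ) (ph : ι → Sg → Bool) (f : ι → ℝ) : ℝ :=
  Ex μ fun σ => (avg fun u => f u * X μ (ph u) σ) ^ 2

lemma Ex_X (h : Prob μ') (φ : Sg → Bool) : Ex μ' (X μ φ) = mm μ' φ - mm μ φ := by
  unfold X
  rw [Ex_sub, h.Ex_const]
  rfl

lemma cv_eq (h : Prob μ) (φ ψ : Sg → Bool) :
    (Ex μ fun σ => X μ φ σ * X μ ψ σ) = cv μ φ ψ := by
  have e : ∀ σ, X μ φ σ * X μ ψ σ =
      sgn (φ σ) * sgn (ψ σ) - mm μ ψ * sgn (φ σ) - mm μ φ * X μ ψ σ := fun σ => by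
    unfold X; ring
  rw [Ex_congr e, Ex_sub, Ex_sub, Ex_mul, Ex_mul, Ex_X h]
  unfold cv mm
  ring

lemma avg_sq (g : ι → ℝ) : avg g ^ 2 = avg fun u => avg fun v => g u * g v := by
  simp only [avg_mul, avg_mul_right, sq]

lemma Q_eq (h : Prob μ) (ph : ι → Sg → Bool) (f : ι → ℝ) :
    Q μ ph f = avg fun u => avg fun v => f u * f v * cv μ (ph u) (ph v) := by
  simp only [Q, avg_sq, Ex_avg]
  refine avg_congr fun u => avg_congr fun v => ?_
  rw [← cv_eq h, ← Ex_mul]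
  exact Ex_congr fun σ => by ring

lemma Ex_le (hK : ∀ σ, μ' σ ≤ K * μ σ) {f : Sg → ℝ} (hf : ∀ σ, 0 ≤ f σ) :
    Ex μ' f ≤ K * Ex μ f := by
  refine (Ex_mono_left hK hf).trans_eq ?_
  simp only [Ex, mul_sum, mul_assoc]

lemma Ex_Y (h' : Prob μ') (ph : ι → Sg → Bool) (f : ι → ℝ) :
    (Ex μ' fun σ => avg fun u => f u * X μ (ph u) σ) =
      avg fun u => f u * (mm μ' (ph u) - mm μ (ph u)) := by
  rw [Ex_avg]
  exact avg_congr fun u => by rw [Ex_mul, Ex_X h']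

lemma Q_le (h' : Prob μ') (hK : ∀ σ, μ' σ ≤ K * μ σ) (ph : ι → Sg → Bool) (f : ι → ℝ) :
    Q μ' ph f ≤ K * Q μ ph f := by
  refine le_trans ?_ (Ex_le hK fun σ => sq_nonneg _)
  set Y : Sg → ℝ := fun σ => avg fun u => f u * X μ (ph u) σ with hY
  have e : ∀ σ, (avg fun u => f u * X μ' (ph u) σ) = Y σ - Ex μ' Y := fun σ => by
    rw [hY, Ex_Y h', ← avg_sub]
    exact avg_congr fun u => by unfold X; ring
  have e2 : ∀ σ, (avg fun u => f u * X μ' (ph u) σ) ^ 2 =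
      Y σ ^ 2 - 2 * Ex μ' Y * Y σ + Ex μ' Y ^ 2 := fun σ => by rw [e]; ring
  rw [Q, Ex_congr e2, Ex_add, Ex_sub, Ex_mul, h'.Ex_const]
  change _ ≤ Ex μ' fun σ => Y σ ^ 2
  nlinarith [sq_nonneg (Ex μ' Y)]

lemma T_eq (h : Prob μ) (h' : Prob μ') (ph : ι → Sg → Bool) :
    (Ex μ' fun σ => Q μ ph fun u => X μ' (ph u) σ) =
      avg fun u => avg fun v => cv μ' (ph u) (ph v) * cv μ (ph u) (ph v) := by
  simp only [Q_eq h, Ex_avg, Ex_mul_right, cv_eq h']

lemma cs {α : Type} [Fintype α] (f g : α → ℝ) :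
    (avg fun a => f a * g a) ^ 2 ≤ (avg fun a => f a ^ 2) * avg fun a => g a ^ 2 := by
  simp only [avg]
  rw [div_pow, div_mul_div_comm, ← sq]
  exact div_le_div_of_nonneg_right (sum_mul_sq_le_sq_mul_sq _ _ _) (sq_nonneg _)

lemma Q_cs (h : Prob μ) (ph : ι → Sg → Bool) (f : ι → ℝ) :
    Q μ ph f ≤ (avg fun u => f u ^ 2) * Real.sqrt (c2 μ ph) := by
  have h1 := cs (fun p : ι × ι => f p.1 * f p.2) fun p => cv μ (ph p.1) (ph p.2)
  simp only [avg_prod] at h1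
  have h2 : (avg fun u => avg fun v => (f u * f v) ^ 2) = (avg fun u => f u ^ 2) ^ 2 := by
    simp only [avg_sq, mul_pow]
  rw [h2, ← Q_eq h] at h1
  have h3 := Real.le_sqrt_of_sq_le h1
  rwa [Real.sqrt_mul (sq_nonneg _), Real.sqrt_sq (avg_nonneg fun u => sq_nonneg _)] at h3

end StabVJ

open StabVJ in
theorem stStabV : StStabV := by
  intro Sg ι _ _ _ μ μ' ph K h h' hK
  have hK0 : 0 ≤ K := by
    have h1 := Ex_le hK (f := fun _ => 1) fun _ => zero_le_one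
    rw [h.Ex_const, h'.Ex_const] at h1
    linarith
  have h2 : (avg fun u => (mm μ (ph u) - mm μ' (ph u)) ^ 2) ≤ K * Real.sqrt (c2 μ ph) := by
    set a : ℝ := avg fun u => (mm μ (ph u) - mm μ' (ph u)) ^ 2 with ha
    have e : a = avg fun u => (mm μ' (ph u) - mm μ (ph u)) ^ 2 := avg_congr fun u => by ring
    have b1 := h'.sq_Ex_le fun σ => avg fun u => (mm μ' (ph u) - mm μ (ph u)) * X μ (ph u) σ
    rw [Ex_Y h'] at b1
    simp only [← sq, ← e] at b1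
    have b2 := b1.trans (Ex_le hK fun σ => sq_nonneg _)
    have b3 := Q_cs h ph fun u => mm μ' (ph u) - mm μ (ph u)
    rw [← e] at b3
    have b4 : a ^ 2 ≤ K * (a * Real.sqrt (c2 μ ph)) :=
      b2.trans (mul_le_mul_of_nonneg_left b3 hK0)
    have b5 : 0 ≤ a := avg_nonneg fun u => sq_nonneg _
    rcases b5.eq_or_lt with b6 | b6
    · rw [← b6]
      positivity
    · exact le_of_mul_le_mul_left (by linarith) b6
  refine ⟨?_, h2, Real.abs_le_sqrt (le_trans ?_ h2)⟩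
  · have e : ∀ {ν : Sg → ℝ}, Prob ν → c2 ν ph = Ex ν fun σ => Q ν ph fun u => X ν (ph u) σ :=
      fun hν => by simp only [T_eq hν hν, c2, sq]
    have b1 : c2 μ' ph ≤ K * Ex μ' fun σ => Q μ ph fun u => X μ' (ph u) σ := by
      rw [e h', ← Ex_mul]
      exact Ex_mono h'.1 fun σ => Q_le h' hK ph _
    have b2 : (Ex μ fun σ => Q μ' ph fun u => X μ (ph u) σ) ≤ K * c2 μ ph := by
      rw [e h, ← Ex_mul]
      exact Ex_mono h.1 fun σ => Q_le h' hK ph _
    have b3 : (Ex μ' fun σ => Q μ ph fun u => X μ' (ph u) σ) =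
        Ex μ fun σ => Q μ' ph fun u => X μ (ph u) σ := by
      simp only [T_eq h h', T_eq h' h, mul_comm]
    rw [b3] at b1
    calc c2 μ' ph ≤ K * (K * c2 μ ph) := b1.trans (mul_le_mul_of_nonneg_left b2 hK0)
      _ = _ := by ring
  · rw [zz, zz, ← avg_sub]
    refine (sq_avg_le _).trans (avg_mono fun u => ?_)
    have b1 := abs_le.1 (h.abs_mm_le (ph u))
    have b2 := abs_le.1 (h'.abs_mm_le (ph u))
    have e : (kt μ (ph u) - kt μ' (ph u)) ^ 2 =
        (mm μ (ph u) - mm μ' (ph u)) ^ 2 * ((mm μ (ph u) + mm μ' (ph u)) / 2) ^ 2 := by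
      unfold kt; ring
    rw [e]
    refine mul_le_of_le_one_right (sq_nonneg _) ?_
    rw [sq_le_one_iff_abs_le_one, abs_le]
    constructor <;> linarith

end Pool.Agent.MP_32a90a_pr.D

end

section

set_option autoImplicit false

namespace Pool.Agent.MP_32a90a_pr.D

open Finset Filter Pool.Agent.MP_32a90a_pr Pool.Agent.MP_32a90a_pr.L

namespace SwCJ

variable {Sg : Type} [Fintype Sg] {μ μ' : Sg → ℝ}

lemma ind_ne (a b : Bool) : ind (a ≠ b) = 1 / 2 - sgn b / 2 * sgn a := by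
  cases a <;> cases b <;> simp [ind, sgn] <;> norm_num

lemma Ex_ne (h : Prob μ) (φ : Sg → Bool) (b : Bool) :
    (Ex μ fun σ => ind (φ σ ≠ b)) = 1 / 2 - sgn b / 2 * mm μ φ := by
  simp only [ind_ne]
  rw [Ex_sub, Ex_mul, h.Ex_const, mm]

lemma mn_eq (h : Prob μ) (φ : Sg → Bool) (b : Bool) :
    mn μ φ = min (Ex μ fun σ => ind (φ σ ≠ b)) (1 - Ex μ fun σ => ind (φ σ ≠ b)) := by
  rw [Ex_ne h, mn]
  rcases sgn_cases b with e | e <;> rcases abs_cases (mm μ φ) with ⟨e1, e2⟩ | ⟨e1, e2⟩ <;>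
    rw [e, e1, min_def] <;> split_ifs <;> linarith

lemma Ex_both (h : Prob μ) (φ ψ : Sg → Bool) (a b : Bool) :
    (Ex μ fun σ => ind (φ σ ≠ a) * ind (ψ σ ≠ b)) ≤
      (Ex μ fun σ => ind (φ σ ≠ a)) * (Ex μ fun σ => ind (ψ σ ≠ b)) + |cv μ φ ψ| / 4 := by
  have e : ∀ σ, ind (φ σ ≠ a) * ind (ψ σ ≠ b) = 1 / 4 - sgn a / 4 * sgn (φ σ) -
      sgn b / 4 * sgn (ψ σ) + sgn a * sgn b / 4 * (sgn (φ σ) * sgn (ψ σ)) := fun σ => by
    rw [ind_ne, ind_ne]; ring
  rw [Ex_congr e, Ex_add, Ex_sub, Ex_sub, Ex_mul, Ex_mul, Ex_mul, h.Ex_const, Ex_ne h, Ex_ne h]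
  have h1 := le_abs_self (cv μ φ ψ)
  have h2 := neg_abs_le (cv μ φ ψ)
  generalize |cv μ φ ψ| = c at h1 h2 ⊢
  unfold cv mm at *
  rcases sgn_cases a with e1 | e1 <;> rcases sgn_cases b with e2 | e2 <;> rw [e1, e2] <;>
    linarith

lemma core (h : Prob μ) (h' : Prob μ') (φ ψ u v : Sg → Bool) (a b c d : Bool) (κ : ℝ)
    (hge : ∀ f : Sg → ℝ, (∀ σ, 0 ≤ f σ) →
      (∀ σ, f σ ≠ 0 → u σ = c ∧ v σ = d ∧ (φ σ = a ∨ ψ σ = b)) → Ex μ f ≤ Ex μ' f)
    (hκ : 0 < κ) (h1 : κ ≤ Ex μ fun σ => ind (φ σ ≠ a))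
    (h2 : (Ex μ fun σ => ind (φ σ ≠ a)) ≤ 2 * κ) (h3 : (Ex μ fun σ => ind (φ σ ≠ a)) ≤ 1 / 2)
    (h4 : (Ex μ fun σ => ind (ψ σ ≠ b)) ≤ 1 / 2)
    (h5 : (Ex μ fun σ => ind (u σ ≠ c)) ≤ κ / 16) (h6 : (Ex μ fun σ => ind (v σ ≠ d)) ≤ κ / 16)
    (h7 : |cv μ φ ψ| ≤ κ / 10) : κ / 4 ≤ mn μ' φ ∧ mn μ' φ ≤ 3 * κ := by
  have a1 : (Ex μ fun σ => ind (φ σ ≠ a) - ind (φ σ ≠ a) * ind (ψ σ ≠ b) - ind (u σ ≠ c) -
      ind (v σ ≠ d)) ≤ Ex μ' fun σ => ind (φ σ ≠ a) := by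
    refine le_trans (Ex_mono h.1 fun σ => ?_) ((hge
      (fun σ => ind (u σ = c ∧ v σ = d ∧ φ σ ≠ a ∧ ψ σ = b)) (fun σ => ind_nonneg _)
      fun σ hσ => ?_).trans (Ex_mono h'.1 fun σ => ind_mono fun e => e.2.2.1))
    · by_cases e1 : φ σ = a <;> by_cases e2 : ψ σ = b <;> by_cases e3 : u σ = c <;>
        by_cases e4 : v σ = d <;> simp [ind, e1, e2, e3, e4]
    · have e : u σ = c ∧ v σ = d ∧ φ σ ≠ a ∧ ψ σ = b := by
        by_contra e
        exact hσ (ind_neg e)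
      exact ⟨e.1, e.2.1, Or.inr e.2.2.2⟩
  have a2 : (Ex μ fun σ => 1 - ind (φ σ ≠ a) - ind (u σ ≠ c) - ind (v σ ≠ d)) ≤
      Ex μ' fun σ => 1 - ind (φ σ ≠ a) := by
    refine le_trans (Ex_mono h.1 fun σ => ?_) ((hge
      (fun σ => ind (u σ = c ∧ v σ = d ∧ φ σ = a)) (fun σ => ind_nonneg _)
      fun σ hσ => ?_).trans (Ex_mono h'.1 fun σ => ?_))
    · by_cases e1 : φ σ = a <;> by_cases e3 : u σ = c <;>
        by_cases e4 : v σ = d <;> simp [ind, e1, e3, e4]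
    · have e : u σ = c ∧ v σ = d ∧ φ σ = a := by
        by_contra e
        exact hσ (ind_neg e)
      exact ⟨e.1, e.2.1, Or.inl e.2.2⟩
    · rw [← ind_not]
      exact ind_mono fun e => not_not.2 e.2.2
  simp only [Ex_sub, h.Ex_const, h'.Ex_const] at a1 a2
  have a3 := Ex_both h φ ψ a b
  have a4 := mul_le_mul_of_nonneg_left h4 (hκ.le.trans h1)
  rw [mn_eq h' φ a]
  exact ⟨le_min (by linarith) (by linarith), (min_le_left _ _).trans (by linarith)⟩

lemma abs_swE (a b c d a' b' c' d' : Bool) :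
    |swE (sgn a * sgn a') (sgn b * sgn b') (sgn c * sgn c') (sgn d * sgn d')| ≤ 2 := by
  have k : ∀ x y : Bool, sgn x * sgn y = 1 ∨ sgn x * sgn y = -1 := fun x y => by
    cases x <;> cases y <;> simp [sgn]
  rcases k a a' with e1 | e1 <;> rcases k b b' with e2 | e2 <;> rcases k c c' with e3 | e3 <;>
    rcases k d d' with e4 | e4 <;> rw [e1, e2, e3, e4, swE] <;> norm_num

end SwCJ

open SwCJ in
theorem stSwC (hSafe : StSafe) (hBd : StBd) : StSwC := by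
  intro Sg Gm _ _ _ C φ m κ hC hκ h1 h2 h3 i hi
  set D : Gm → Sg → ℝ := fun _ σ => swE (sgn (φ 0 σ) * sgn (m 0)) (sgn (φ 1 σ) * sgn (m 1))
    (sgn (φ 2 σ) * sgn (m 2)) (sgn (φ 3 σ) * sgn (m 3)) with hD
  have hb : ∀ γ σ, |D γ σ| ≤ 2 := fun γ σ => abs_swE _ _ _ _ _ _ _ _
  have hN : (C.add D).N ≤ Real.exp (C.y * 2) * C.N :=
    ((hBd Sg Gm C D 2 hC fun γ σ _ => hb γ σ).2.1 (fun _ => 1) fun _ => zero_le_one).1
  have hge : ∀ f : Sg → ℝ, (∀ σ, 0 ≤ f σ) →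
      (∀ σ, f σ ≠ 0 → φ 2 σ = m 2 ∧ φ 3 σ = m 3 ∧ (φ 0 σ = m 0 ∨ φ 1 σ = m 1)) →
      Ex C.root f ≤ Ex (C.add D).root f := fun f hf hs => by
    have e := (hSafe Sg Gm C D (fun _ σ => f σ) 2 0 hC fun _ σ => hf σ).1
      (fun γ σ => (abs_le.1 (hb γ σ)).2) fun γ σ hσ => by
        obtain ⟨e2, e3, e0 | e0⟩ := hs σ hσ <;>
          simp only [hD, e2, e3, e0, sgn_mul_self, swE] <;> linarith
    rw [mul_zero, sub_zero] at e
    rw [← Cas.P_root, ← Cas.P_root, Cas.P, Cas.P,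
      div_le_div_iff₀ (Cas.N_pos hC) (Cas.N_pos (hC.add D))]
    have e0 := Cas.E_nonneg hC (f := fun _ σ => f σ) fun _ σ => hf σ
    calc _ ≤ C.E (fun _ σ => f σ) * (Real.exp (C.y * 2) * C.N) := mul_le_mul_of_nonneg_left hN e0
      _ = Real.exp (C.y * 2) * C.E (fun _ σ => f σ) * C.N := by ring
      _ ≤ _ := mul_le_mul_of_nonneg_right e (Cas.N_pos hC).le
  have p := Cas.root_prob hC
  have p' := Cas.root_prob (hC.add D)
  have k0 := h1 0 (by decide)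
  have k1 := h1 1 (by decide)
  have k2 := h2 2 (by decide)
  have k3 := h2 3 (by decide)
  obtain rfl | rfl : i = 0 ∨ i = 1 := by omega
  · exact core p p' _ _ _ _ _ _ _ _ κ hge hκ k0.1 k0.2.1 k0.2.2 k1.2.2 k2 k3 h3
  · refine core p p' _ (φ 0) _ _ _ _ _ _ κ
      (fun f hf hs => hge f hf fun σ hσ => ⟨(hs σ hσ).1, (hs σ hσ).2.1, (hs σ hσ).2.2.symm⟩)
      hκ k1.1 k1.2.1 k1.2.2 k0.2.2 k2 k3 (le_trans (le_of_eq ?_) h3)
    simp only [cv, mul_comm]

end Pool.Agent.MP_32a90a_pr.D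

end

section

set_option autoImplicit false

namespace Pool.Agent.MP_32a90a_pr.D.CAll

theorem aBd : StBd := stBd
theorem aFix : StFix := stFix
theorem aGrid : StGrid := stGrid
theorem aLevA : StLevA := stLevA
theorem aLevB : StLevB := stLevB
theorem aLind1 : StLind1 := stLind1
theorem aMinor : StMinor := stMinor
theorem aOver : StOver := stOver
theorem aResNode : StResNode := stResNode
theorem aSafe : StSafe := stSafe
theorem aSeqL : StSeqL := stSeqL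
theorem aSeqU : StSeqU := stSeqU
theorem aStabV : StStabV := stStabV
theorem aSwC : StSwC := stSwC CAll.aSafe CAll.aBd
theorem aTilt : StTilt := stTilt
theorem aTower : StTower := stTower CAll.aBd
theorem aFair : StFair := stFair CAll.aLevB
theorem aLind : StLind := stLind CAll.aLind1
theorem aOdds : StOdds := stOdds CAll.aSafe CAll.aBd
theorem aPure : StPure := stPure CAll.aBd CAll.aTower

end Pool.Agent.MP_32a90a_pr.D.CAll

end
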