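import Pool.Agent.Mg.F32a90ap.G4fb964
import Pool.Agent.Mg.F32a90ap.G44e7c2

section

set_option autoImplicit false
set_option linter.unusedSectionVars false

namespace Pool.Agent.MP_32a90a_pr.D

open Finset Equiv Filter Pool.Agent.MP_32a90a_pr Pool.Agent.MP_32a90a_pr.L

namespace FreeJ

/-- choice of the window -/
lemma window {μ dl m0 : ℝ} (h0 : 0 ≤ dl) (h1 : 2 * dl ≤ μ) (hlo : -1 ≤ m0 + dl - 4 * μ)
    (hhi : m0 - dl ≤ 1) :
    ∃ a : ℝ, μ ≤ a ∧ a + μ / 2 ≤ 1 ∧ ((m0 + dl - 4 * μ ≤ a ∧ a + μ / 2 ≤ m0 - dl) ∨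
      (m0 + dl - 4 * μ ≤ -(a + μ / 2) ∧ -a ≤ m0 - dl)) := by
  by_cases h : 3 / 2 * μ ≤ m0 - dl
  · refine ⟨max μ (m0 + dl - 4 * μ), le_max_left _ _, ?_, Or.inl ⟨le_max_right _ _, ?_⟩⟩ <;>
      rcases max_cases μ (m0 + dl - 4 * μ) with ⟨e, _⟩ | ⟨e, _⟩ <;> rw [e] <;> linarith
  · refine ⟨max μ (dl - m0), le_max_left _ _, ?_, Or.inr ⟨?_, ?_⟩⟩ <;>
      rcases max_cases μ (dl - m0) with ⟨e, _⟩ | ⟨e, _⟩ <;> rw [e] <;> linarith

/-- the numerical conditions on the degree -/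
def Nm (d : ℕ) : Prop :=
  1 ≤ d ∧ 1 ≤ k0 d (z1 d) ∧ 120 * k0 d (z1 d) * mu1 d ≤ (d : ℝ) ^ (-(101 / 100 : ℝ)) ∧
    (d : ℝ) ^ (-(101 / 100 : ℝ)) ≤ 10 * z1 d ∧ 2 * ((4 * d + 2) * qq d ^ 2) ≤ mu1 d ∧
    mu1 d ≤ 1 ∧ 0 < z1 d

lemma qq_pos (d : ℕ) : 0 < qq d := Real.exp_pos _

lemma num : ∀ᶠ d : ℕ in atTop, Nm d := by
  have t1 : Tendsto (fun d : ℕ => Real.log d) atTop atTop :=
    Real.tendsto_log_atTop.comp tendsto_natCast_atTop_atTop
  have t2 := tendsto_natCast_atTop_atTop.eventually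
    ((isLittleO_log_rpow_atTop (r := 1 / 100) (by norm_num)).bound (c := 1 / 480) (by norm_num))
  filter_upwards [t1.eventually_ge_atTop (18 ^ 4), t2, eventually_ge_atTop 9] with d h1 h2 h3
  have hd : (9 : ℝ) ≤ d := by exact_mod_cast h3
  have hd0 : (0 : ℝ) < d := by linarith
  have hl : (1 : ℝ) ≤ ell d := le_trans (by norm_num) h1
  have hl0 : (0 : ℝ) < ell d := by linarith
  have h34 : (1 : ℝ) ≤ ell d ^ (3 / 4 : ℝ) := Real.one_le_rpow hl (by norm_num)
  have h14 : (18 : ℝ) ≤ ell d ^ (1 / 4 : ℝ) := by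
    have := Real.rpow_le_rpow (by norm_num) h1 (show (0 : ℝ) ≤ 1 / 4 by norm_num)
    refine le_trans (le_of_eq ?_) this
    rw [show (1 / 4 : ℝ) = ((4 : ℕ) : ℝ)⁻¹ by norm_num,
      Real.pow_rpow_inv_natCast (by norm_num) (by norm_num)]
  have hsp : ell d = ell d ^ (1 / 4 : ℝ) * ell d ^ (3 / 4 : ℝ) := by
    rw [← Real.rpow_add hl0]
    norm_num
  have hq : 3 ≤ ell d / (6 * d * z1 d) := by
    have e : 6 * d * z1 d = 6 * ell d ^ (3 / 4 : ℝ) := by
      unfold z1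
      field_simp
    rw [e, le_div_iff₀ (by positivity)]
    nlinarith
  have hlog : 1 ≤ Real.log (ell d / (6 * d * z1 d)) := by
    rw [Real.le_log_iff_exp_le (by linarith)]
    linarith [Real.exp_one_lt_d9]
  have hk1 : 1 ≤ k0 d (z1 d) := le_add_of_nonneg_right (by positivity)
  have hk2 : k0 d (z1 d) ≤ 4 * ell d := by
    have : 3 * ell d / Real.log (ell d / (6 * d * z1 d)) ≤ 3 * ell d :=
      div_le_self (by positivity) hlog
    unfold k0
    linarith
  have hm0 : 0 < mu1 d := Real.rpow_pos_of_pos hd0 _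
  have hm2 : 1 / (d : ℝ) ^ 2 ≤ mu1 d := by
    rw [one_div, ← Real.rpow_natCast, ← Real.rpow_neg hd0.le]
    exact Real.rpow_le_rpow_of_exponent_le (by linarith) (by norm_num)
  refine ⟨by omega, hk1, ?_, ?_, ?_, ?_, div_pos (by linarith) hd0⟩
  · rw [Real.norm_of_nonneg (Real.log_natCast_nonneg d),
      Real.norm_of_nonneg (Real.rpow_nonneg hd0.le _)] at h2
    have e : (d : ℝ) ^ (-(101 / 100 : ℝ)) = (d : ℝ) ^ (1 / 100 : ℝ) * mu1 d := by
      rw [mu1, ← Real.rpow_add hd0]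
      norm_num
    rw [e]
    refine mul_le_mul_of_nonneg_right ?_ hm0.le
    have : ell d = Real.log d := rfl
    linarith
  · have : (d : ℝ) ^ (-(101 / 100 : ℝ)) ≤ 1 / d := by
      rw [one_div, ← Real.rpow_neg_one]
      exact Real.rpow_le_rpow_of_exponent_le (by linarith) (by norm_num)
    refine this.trans ?_
    rw [z1, ← mul_div_assoc]
    exact div_le_div_of_nonneg_right (by linarith) hd0.le
  · refine le_trans ?_ hm2
    have e : qq d ^ 2 = (Real.exp ((d : ℝ) ^ 2 / 2))⁻¹ := by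
      rw [qq, ← Real.exp_nat_mul, ← Real.exp_neg]
      congr 1
      push_cast
      ring
    have h6 := Real.pow_div_factorial_le_exp ((d : ℝ) ^ 2 / 2) (by positivity) 3
    have h7 : (d : ℝ) ^ 6 / 48 ≤ Real.exp ((d : ℝ) ^ 2 / 2) := by
      refine le_trans (le_of_eq ?_) h6
      norm_num [Nat.factorial]
      ring
    rw [e, ← mul_assoc, ← div_eq_mul_inv, div_le_div_iff₀ (Real.exp_pos _) (by positivity)]
    have h8 : (729 : ℝ) ≤ (d : ℝ) ^ 3 := le_trans (by norm_num) (pow_le_pow_left₀ (by norm_num) hd 3)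
    have h9 : (0 : ℝ) < (d : ℝ) ^ 2 := by positivity
    nlinarith [mul_le_mul_of_nonneg_right h8 (pow_pos hd0 3).le, mul_le_mul_of_nonneg_right hd h9.le]
  · exact Real.rpow_le_one_of_one_le_of_nonpos (by linarith) (by norm_num)

section
variable {V E : Type} [Fintype V] [DecidableEq V] [Fintype E] [DecidableEq E]

lemma mag_flp (σ : V → Bool) (X : Finset V) (h : ∀ v ∈ X, σ v = true) :
    mag (flp σ X) = mag σ - 2 * X.card := by
  have k : ∀ v, sgn (flp σ X v) = sgn (σ v) - 2 * ind (v ∈ X) := by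
    intro v
    by_cases hv : v ∈ X
    · rw [ind_pos hv, flp, if_pos hv, h v hv]
      norm_num [sgn]
    · rw [ind_neg hv, flp, if_neg hv, mul_zero, sub_zero]
  simp only [mag, k, sum_sub_distrib, ← mul_sum]
  rw [sum_ind, filter_mem_eq_inter, univ_inter]

lemma eS_zero (s : E → ℝ) (w : E × Bool → V) (σ : V → Bool) {I X : Finset V} (hI : nIn w I = 0)
    (hX : X ⊆ I) : eS s w σ X X = 0 := by
  refine sum_eq_zero fun p hp => ?_
  obtain ⟨i, b⟩ := p
  obtain ⟨h1, h2⟩ := (mem_filter.1 hp).2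
  refine absurd ?_ (filter_eq_empty_iff.1 (card_eq_zero.1 hI) (mem_univ i))
  cases b
  · exact ⟨hX h1, hX h2⟩
  · exact ⟨hX h2, hX h1⟩

/-- flipping a part of an independent set of free spins -/
lemma reach (hFlip : StFlip) {s : E → ℝ} {w : E × Bool → V} {σ : V → Bool} {I : Finset V}
    (hI : nIn w I = 0) (h : ∀ v ∈ I, σ v = true ∧ loc s w σ v = 0) {m : ℝ} {j : ℤ}
    (hm : mag σ - m = 2 * j) (h1 : m ≤ mag σ) (h2 : mag σ - 2 * I.card ≤ m) :
    ∃ τ, mag τ = m ∧ HH s 0 w τ = HH s 0 w σ := by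
  have j0 : 0 ≤ j := by
    have : (0 : ℝ) ≤ j := by linarith
    exact_mod_cast this
  lift j to ℕ using j0
  rw [Int.cast_natCast] at hm
  have j1 : j ≤ I.card := by
    have : (j : ℝ) ≤ I.card := by linarith
    exact_mod_cast this
  obtain ⟨X, hX, hc⟩ := exists_subset_card_eq j1
  refine ⟨flp σ X, ?_, ?_⟩
  · rw [mag_flp σ X fun v hv => (h v (hX hv)).1, hc]
    linarith
  · rw [hFlip, eS_zero s w σ hI hX, sum_eq_zero fun v hv => (h v (hX hv)).2]
    ring

lemma cnt_eq (s : E → ℝ) (w : E × Bool → V) (σ : V → Bool) (b : Bool) (l : ℤ) :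
    cnt s w σ b l = ∑ v, ind (σ v = b ∧ loc s w σ v = l) := by
  classical
  unfold cnt
  convert (sum_ind _).symm

lemma mag_cnt (hPAR : StPAR) {d : ℕ} {s : E → ℝ} {w : E × Bool → V} (σ : V → Bool) (hd : Deg w d)
    (hs : ∀ i, s i = 0 ∨ s i = 1 ∨ s i = -1) :
    mag σ = ∑ l ∈ Icc (-(d : ℤ)) d, (cnt s w σ true l - cnt s w σ false l) := by
  simp only [cnt_eq, ← sum_sub_distrib]
  rw [sum_comm]
  refine sum_congr rfl fun v _ => ?_
  obtain ⟨l, hl, hl'⟩ := (hPAR V E w d s σ hd hs).1 v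
  rw [sum_eq_single l, hl]
  · cases σ v <;> simp [ind, sgn]
  · intro k _ hk
    have : ¬ loc s w σ v = k := fun e => hk (Int.cast_injective (α := ℝ) (e.symm.trans hl))
    rw [ind_neg fun e => this e.2, ind_neg fun e => this e.2, sub_self]
  · exact fun e => absurd (mem_Icc.2 (abs_le.1 hl')) e

/-- the mean magnetisation prescribed by the level masses -/
noncomputable def m0 (d : ℕ) (r : Bool → ℤ → ℝ) : ℝ :=
  ∑ l ∈ Icc (-(d : ℤ)) d, (r true l - r false l)

lemma mag_near (hPAR : StPAR) {d : ℕ} {r : Bool → ℤ → ℝ} {s : E → ℝ} {w : E × Bool → V}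
    {σ : V → Bool} (hd : Deg w d) (hs : ∀ i, s i = 0 ∨ s i = 1 ∨ s i = -1)
    (hN : (0 : ℝ) < Fintype.card V) (h : Tp d r s w σ) :
    |mag σ - m0 d r * Fintype.card V| ≤ (4 * d + 2) * qq d ^ 2 * Fintype.card V := by
  rw [mag_cnt hPAR σ hd hs, m0, sum_mul, ← sum_sub_distrib]
  refine (abs_sum_le_sum_abs _ _).trans
    ((sum_le_card_nsmul _ _ (2 * qq d ^ 2 * Fintype.card V) fun l hl => ?_).trans (le_of_eq ?_))
  · have k : ∀ b, |cnt s w σ b l - r b l * Fintype.card V| ≤ qq d ^ 2 * Fintype.card V := by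
      intro b
      have := h.2 b l (abs_le.2 (mem_Icc.1 hl))
      rwa [div_sub' hN.ne', abs_div, abs_of_pos hN, div_le_iff₀ hN, mul_comm _ (r b l)] at this
    rw [abs_le]
    constructor <;> linarith [abs_le.1 (k true), abs_le.1 (k false)]
  · have : ((d : ℤ) + 1 - -(d : ℤ)).toNat = 2 * d + 1 := by omega
    rw [Int.card_Icc, this, nsmul_eq_mul]
    push_cast
    ring

/-- a large independent set of free spins -/
lemma indep (hIS : StIS) {d : ℕ} {r : Bool → ℤ → ℝ} {s : E → ℝ} {w : E × Bool → V}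
    {σ : V → Bool} (hn : Nm d) (hN : 1 ≤ z1 d * Fintype.card V)
    (hG : G1 d (z1 d) (mu1 d / 8) w) (hb : ((badV w).card : ℝ) ≤ mu1 d / 8 * Fintype.card V)
    (hr : (d : ℝ) ^ (-(101 / 100 : ℝ)) ≤ r true 0) (h : Tp d r s w σ) :
    ∃ I : Finset V, nIn w I = 0 ∧ (∀ v ∈ I, σ v = true ∧ loc s w σ v = 0) ∧
      2 * mu1 d * Fintype.card V ≤ I.card := by
  classical
  obtain ⟨hd, hk1, hk2, hz, hq, -, hz0⟩ := hn
  have hN0 : (0 : ℝ) < Fintype.card V := by
    by_contra hc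
    nlinarith
  have hd1 : (1 : ℝ) ≤ d := by exact_mod_cast hd
  have hm0 : 0 < mu1 d := Real.rpow_pos_of_pos (by linarith) _
  obtain ⟨I, hI, h0, hc⟩ := hIS V E w d (z1 d) (mu1 d / 8)
    (univ.filter fun v => σ v = true ∧ loc s w σ v = ((0 : ℤ) : ℝ)) hG hk1 (by positivity) hN hb
  refine ⟨I, h0, fun v hv => by simpa using (mem_filter.1 (hI hv)).2, le_trans ?_ hc⟩
  have e : ((univ.filter fun v => σ v = true ∧ loc s w σ v = ((0 : ℤ) : ℝ)).card : ℝ)
      = cnt s w σ true 0 := by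
    rw [cnt_eq, sum_ind]
  have h1 := (abs_le.1 (h.2 true 0 (by simp))).1
  rw [le_sub_iff_add_le, le_div_iff₀ hN0] at h1
  generalize (d : ℝ) ^ (-(101 / 100 : ℝ)) = δ at hk2 hz hr
  have hq0 := sq_nonneg (qq d)
  have h2 : qq d ^ 2 ≤ δ / 2 := by nlinarith
  have h3 : δ / 2 * Fintype.card V ≤ min (cnt s w σ true 0) (5 * z1 d * Fintype.card V) :=
    le_min (le_trans (mul_le_mul_of_nonneg_right (by linarith) hN0.le) h1)
      (mul_le_mul_of_nonneg_right (by linarith) hN0.le)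
  rw [e, le_sub_iff_add_le, le_div_iff₀ (by positivity)]
  refine le_trans ?_ h3
  have h4 := mul_le_mul_of_nonneg_right hk2 hN0.le
  have h5 : 0 ≤ k0 d (z1 d) * mu1 d * Fintype.card V := by positivity
  nlinarith

/-- the magnetisations attained by near-optimal states -/
lemma good (hIS : StIS) (hFlip : StFlip) (hPAR : StPAR) {d : ℕ} {r : Bool → ℤ → ℝ} {s : E → ℝ}
    {w : E × Bool → V} {σ : V → Bool} (hn : Nm d) (hN : 1 ≤ z1 d * Fintype.card V)
    (hd : Deg w d) (hs : ∀ i, s i = 0 ∨ s i = 1 ∨ s i = -1)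
    (hG : G1 d (z1 d) (mu1 d / 8) w) (hb : ((badV w).card : ℝ) ≤ mu1 d / 8 * Fintype.card V)
    (hr : (d : ℝ) ^ (-(101 / 100 : ℝ)) ≤ r true 0) (h : Tp d r s w σ) :
    -1 ≤ m0 d r + (4 * d + 2) * qq d ^ 2 - 4 * mu1 d ∧ m0 d r - (4 * d + 2) * qq d ^ 2 ≤ 1 ∧
      ∀ (M : ℕ) (m : ℝ), Even (M + Fintype.card V) → (m = M ∨ m = -M) →
        (m0 d r + (4 * d + 2) * qq d ^ 2 - 4 * mu1 d) * Fintype.card V ≤ m →
        m ≤ (m0 d r - (4 * d + 2) * qq d ^ 2) * Fintype.card V →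
        ∃ τ, mag τ = -M ∧ mxH univ s 0 w - 3 * qq d ^ 4 * Fintype.card V ≤ HH s 0 w τ := by
  obtain ⟨I, h0, hI, hc⟩ := indep hIS hn hN hG hb hr h
  have hN0 : (0 : ℝ) < Fintype.card V := by
    by_contra hc
    nlinarith [hn.2.2.2.2.2.2]
  obtain ⟨a1, a2⟩ := abs_le.1 (mag_near hPAR hd hs hN0 h)
  refine ⟨le_of_mul_le_mul_right ?_ hN0, le_of_mul_le_mul_right ?_ hN0, ?_⟩
  · have := (abs_le.1 (AZ.abs_mag_le (flp σ I))).1
    rw [mag_flp σ I fun v hv => (hI v hv).1] at this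
    linarith
  · linarith [(abs_le.1 (AZ.abs_mag_le σ)).2]
  · rintro M m ⟨t, ht⟩ hm h1 h2
    have ht' : (M : ℝ) + Fintype.card V = t + t := by exact_mod_cast ht
    have e := AZ.mag_eq σ
    generalize (univ.filter fun v => σ v = true).card = n at e
    rcases hm with rfl | rfl
    · obtain ⟨τ, e1, e2⟩ := reach hFlip h0 hI (m := M) (j := n - t) (by push_cast; linarith)
        (by linarith) (by linarith)
      refine ⟨fun v => !τ v, by rw [AZ.mag_not, e1], h.1.trans (le_of_eq ?_)⟩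
      rw [← e2]
      simp [HH, en, Y1, AZ.sgn_not]
    · obtain ⟨τ, e1, e2⟩ := reach hFlip h0 hI (m := -M) (j := n + t - Fintype.card V)
        (by push_cast; linarith) (by linarith) (by linarith)
      exact ⟨τ, e1, h.1.trans e2.ge⟩

lemma lip_swap {Ω : Finset (V → Bool)} (h : Ω.Nonempty) (A : Finset E) (w : E × Bool → V)
    (J : E → Bool) (a b : E × Bool) :
    |mxH Ω (cp ∅ A ∅ J) 0 (w ∘ swap a b) - mxH Ω (cp ∅ A ∅ J) 0 w| ≤ 4 := by
  have k := fun σ => abs_le.1 (AZ.HH_swap (B := 0) (w := w) (AZ.abs_cp_le ∅ A ∅ J) a b σ)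
  have h1 : mxH Ω (cp ∅ A ∅ J) 0 (w ∘ swap a b) ≤ mxH Ω (cp ∅ A ∅ J) 0 w + 4 :=
    AZ.mxH_le_add h fun σ _ => by linarith [(k σ).2]
  have h2 : mxH Ω (cp ∅ A ∅ J) 0 w ≤ mxH Ω (cp ∅ A ∅ J) 0 (w ∘ swap a b) + 4 :=
    AZ.mxH_le_add h fun σ _ => by linarith [(k σ).1]
  rw [abs_le]
  constructor <;> linarith

lemma lip_one {Ω : Finset (V → Bool)} (h : Ω.Nonempty) (A : Finset E) (w : E × Bool → V)
    {J J' : E → Bool} (i : E) (hJ : ∀ k, k ≠ i → J k = J' k) :
    mxH Ω (cp ∅ A ∅ J) 0 w ≤ mxH Ω (cp ∅ A ∅ J') 0 w + 4 := by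
  refine AZ.mxH_le_add h fun σ _ => ?_
  refine (AZ.HH_le_of_eq_off (s' := cp ∅ A ∅ J') (c := 4) {i} (fun k hk => ?_) (fun k _ => ?_)
    σ).trans (by simp)
  · rw [cp, cp, hJ k (notMem_singleton.1 hk)]
  · have a1 := abs_le.1 (AZ.abs_cp_le ∅ A ∅ J k)
    have a2 := abs_le.1 (AZ.abs_cp_le ∅ A ∅ J' k)
    rw [abs_le]
    constructor <;> linarith [a1.1, a1.2, a2.1, a2.2]

lemma lip_upd {Ω : Finset (V → Bool)} (h : Ω.Nonempty) (A : Finset E) (w : E × Bool → V)
    (J : E → Bool) (i : E) (b : Bool) :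
    |mxH Ω (cp ∅ A ∅ (Function.update J i b)) 0 w - mxH Ω (cp ∅ A ∅ J) 0 w| ≤ 4 := by
  have h1 := lip_one h A w (J := Function.update J i b) (J' := J) i
    fun k hk => Function.update_of_ne hk _ _
  have h2 := lip_one h A w (J := J) (J' := Function.update J i b) i
    fun k hk => (Function.update_of_ne hk _ _).symm
  rw [abs_le]
  constructor <;> linarith

/-- concentration of the cost of a constraint -/
lemma conc (hConc : StConc) {d : ℕ} {w0 : E × Bool → V} (hd : Deg w0 d) (h1 : 1 ≤ d)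
    {Ω : Finset (V → Bool)} (h : Ω.Nonempty) (A : Finset E) {q : ℝ} (hq : 0 < q)
    (hN : 30720 * (d : ℝ) ≤ q ^ 2 * Fintype.card V) :
    PD w0 (fun w J => q * Fintype.card V ≤ |mxH Ω (cp ∅ A ∅ J) 0 w - mxH univ (cp ∅ A ∅ J) 0 w
      - (VV w0 ∅ A ∅ 0 Ω - VV w0 ∅ A ∅ 0 univ)|) ≤ 1 / 4 := by
  have hd1 : (1 : ℝ) ≤ d := by exact_mod_cast h1
  have hN0 : (0 : ℝ) < Fintype.card V := by
    by_contra hc
    nlinarith [sq_nonneg q]
  have he := card_half hd
  have hE0 : (0 : ℝ) < Fintype.card E := by nlinarith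
  have : Nonempty E := Fintype.card_pos_iff.1 (by exact_mod_cast hE0)
  have key := hConc V E w0 (fun w J => mxH Ω (cp ∅ A ∅ J) 0 w - mxH univ (cp ∅ A ∅ J) 0 w) 8
    (q * Fintype.card V) (by norm_num) (by positivity) (fun w J a b => ?_) (fun w J i b => ?_)
  · rw [ED_sub] at key
    refine key.trans ?_
    have h2 : 15 ≤ (q * Fintype.card V) ^ 2 / (64 * 8 ^ 2 * Fintype.card E) := by
      rw [le_div_iff₀ (by positivity)]
      nlinarith [mul_le_mul_of_nonneg_right hN hN0.le]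
    have h3 := Real.add_one_le_exp ((q * Fintype.card V) ^ 2 / (64 * 8 ^ 2 * Fintype.card E))
    rw [Real.exp_neg, ← div_eq_mul_inv, div_le_iff₀ (Real.exp_pos _)]
    linarith
  · have a1 := abs_le.1 (lip_swap h A w J a b)
    have a2 := abs_le.1 (lip_swap (univ_nonempty (α := V → Bool)) A w J a b)
    rw [abs_le]
    constructor <;> linarith [a1.1, a1.2, a2.1, a2.2]
  · have a1 := abs_le.1 (lip_upd h A w J i b)
    have a2 := abs_le.1 (lip_upd (univ_nonempty (α := V → Bool)) A w J i b)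
    rw [abs_le]
    constructor <;> linarith [a1.1, a1.2, a2.1, a2.2]

/-- removing the idle slots -/
lemma idle {Ω : Finset (V → Bool)} (Z A : Finset E) (w : E × Bool → V) (J : E → Bool)
    {τ : V → Bool} (hτ : τ ∈ Ω) {c : ℝ}
    (h : mxH univ (cp Z A ∅ J) 0 w - c ≤ HH (cp Z A ∅ J) 0 w τ) :
    mxH univ (cp ∅ A ∅ J) 0 w - c - 2 * Z.card ≤ mxH Ω (cp ∅ A ∅ J) 0 w := by
  have k := AZ.abs_cp_sub_idle Z A ∅ J
  have h1 := AZ.HH_le_of_eq_off (B := 0) (w := w) Z k.1 k.2 τ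
  have h2 := AZ.le_mxH (s := cp ∅ A ∅ J) (B := 0) (w := w) hτ
  have h3 : mxH univ (cp ∅ A ∅ J) 0 w ≤ mxH univ (cp Z A ∅ J) 0 w + 1 * Z.card :=
    AZ.mxH_le_add univ_nonempty fun σ _ => AZ.HH_le_of_eq_off Z (fun i hi => (k.1 i hi).symm)
      (fun i hi => by rw [abs_sub_comm]; exact k.2 i hi) σ
  linarith

end

end FreeJ

open FreeJ in
theorem stFree (hPar : StPar) (hIS : StIS) (hFlip : StFlip) (hPAR : StPAR) (hConc : StConc) :
    StFree := by
  intro C c hT
  filter_upwards [hT, hPar, num] with d hT hP hn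
  have hd1 : (1 : ℝ) ≤ d := by exact_mod_cast hn.1
  have hm0 : 0 < mu1 d := Real.rpow_pos_of_pos (by linarith) _
  have hq := qq_pos d
  have hm1 := hn.2.2.2.2.2.1
  have hdl := hn.2.2.2.2.1
  have ev : ∀ a K : ℝ, 0 < a → ∀ᶠ N : ℕ in atTop, K ≤ a * N := fun a K ha =>
    (tendsto_natCast_atTop_atTop.const_mul_atTop ha).eventually_ge_atTop K
  refine ⟨mu1 d / 8, by positivity, ?_⟩
  refine (((hT (mu1 d / 8) (by positivity)).and hP).and (Big.card d
    (fun N => 1 ≤ z1 d * N ∧ 8 ≤ qq d ^ 4 * N ∧ 30720 * (d : ℝ) ≤ (qq d ^ 4) ^ 2 * N)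
    ((ev _ _ hn.2.2.2.2.2.2).and ((ev _ _ (by positivity)).and (ev _ _ (by positivity)))))).mono ?_
  rintro V E _ _ _ _ w0 hd ⟨⟨hT, hP⟩, hN1, hN2, hN3⟩ P r c' cp' hE hr
  have hOk := hE.1.1
  have hL := hP P hOk
  have hN0 : (0 : ℝ) ≤ Fintype.card V := Nat.cast_nonneg _
  have p1 := hT P.Z P.A hL.2.2.1
  have p2 : PD w0 (fun w J => ¬ ∃ σ, Tp d r (P.s J) w σ) ≤ mu1 d / 8 := by
    refine le_trans (ED_mono fun w J => ?_) hE.2.2.2.2.1
    have ok := (hL.2.1 univ (P.s J) w).ok (le_trans (by norm_num) hL.1)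
    by_cases h : ∃ σ, Tp d r (P.s J) w σ
    · rw [ind_neg (not_not.2 h)]
      exact Cas.P_nonneg ok fun _ _ => ind_nonneg _
    · rw [ind_pos h]
      exact Cas.const_le_P ok fun _ σ => (ind_pos fun e => h ⟨σ, e⟩).ge
  have ex : ∀ Q : (E × Bool → V) → (E → Bool) → Prop, PD w0 Q ≤ 1 / 4 →
      ∃ w J σ, Deg w d ∧ Typ d C c (mu1 d / 8) P.Z P.A w J ∧ Tp d r (P.s J) w σ ∧ ¬ Q w J := by
    intro Q hQ
    have a1 := PD_or_le (w0 := w0) (fun w J => ¬ Typ d C c (mu1 d / 8) P.Z P.A w J)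
      fun w J => (¬ ∃ σ, Tp d r (P.s J) w σ) ∨ Q w J
    have a2 := PD_or_le (w0 := w0) (fun w J => ¬ ∃ σ, Tp d r (P.s J) w σ) Q
    have a3 := PD_not (w0 := w0) fun w J => ¬ Typ d C c (mu1 d / 8) P.Z P.A w J ∨
      (¬ ∃ σ, Tp d r (P.s J) w σ) ∨ Q w J
    obtain ⟨w, J, hw, h⟩ := exists_of_PD_pos hd (lt_of_lt_of_eq (by linarith) a3.symm)
    rw [not_or, not_or, not_not, not_not] at h
    obtain ⟨h1, ⟨σ, h2⟩, h3⟩ := h
    exact ⟨w, J, σ, hw, h1, h2, h3⟩
  have gd := fun (w : E × Bool → V) (J : E → Bool) (σ : V → Bool) (hw : Deg w d)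
    (h1 : Typ d C c (mu1 d / 8) P.Z P.A w J) (h2 : Tp d r (P.s J) w σ) =>
    good hIS hFlip hPAR hn hN1 hw (AZ.cp_cases P.Z P.A ∅ J) h1.1 h1.2.2.2.2.2.1 hr h2
  obtain ⟨w, J, σ, hw, h1, h2, -⟩ := ex (fun _ _ => False) (by
    refine ED_le_const fun _ _ => ?_
    rw [ind_neg not_false]
    norm_num)
  obtain ⟨a, a1, a2, a3⟩ := window (by positivity) hdl (gd w J σ hw h1 h2).1 (gd w J σ hw h1 h2).2.1
  refine ⟨a, a1, a2, fun M hM b1 b2 => ?_⟩
  have at' : ∀ (w : E × Bool → V) (J : E → Bool) (σ : V → Bool), Deg w d →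
      Typ d C c (mu1 d / 8) P.Z P.A w J → Tp d r (P.s J) w σ → ∃ τ ∈ magSet V (-M),
        mxH univ (P.s J) 0 w - 3 * qq d ^ 4 * Fintype.card V ≤ HH (P.s J) 0 w τ := by
    intro w J σ hw h1 h2
    simp only [AZ.mem_magSet]
    rcases a3 with ⟨c1, c2⟩ | ⟨c1, c2⟩
    · exact (gd w J σ hw h1 h2).2.2 M M hM (Or.inl rfl)
        ((mul_le_mul_of_nonneg_right c1 hN0).trans b1)
        (b2.trans (mul_le_mul_of_nonneg_right c2 hN0))
    · refine (gd w J σ hw h1 h2).2.2 M (-M) hM (Or.inr rfl)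
        ((mul_le_mul_of_nonneg_right c1 hN0).trans ?_)
        (le_trans ?_ (mul_le_mul_of_nonneg_right c2 hN0)) <;> linarith
  have hne : (magSet V (-M)).Nonempty := by
    obtain ⟨τ, hτ, -⟩ := at' w J σ hw h1 h2
    exact ⟨τ, hτ⟩
  obtain ⟨w', J', σ', hw', h1', h2', h3'⟩ := ex _ (conc hConc hd hn.1 hne P.A (pow_pos hq 4) hN3)
  obtain ⟨τ, hτ, h4⟩ := at' w' J' σ' hw' h1' h2'
  have h5 := idle P.Z P.A w' J' hτ h4
  have h6 := (abs_lt.1 (not_le.1 h3')).2
  have h7 : (P.Z.card : ℝ) ≤ qq d ^ 16 * Fintype.card V + 2 := by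
    have c1 : (P.Z.card : ℝ) ≤ P.U.card + 1 := by exact_mod_cast card_insert_le P.e P.U
    have c2 := Nat.ceil_lt_add_one (a := qq d ^ 16 * Fintype.card V) (by positivity)
    rw [hOk.2.2.2.1] at c1
    linarith
  have h8 : qq d ^ 16 ≤ qq d ^ 4 / 4 := by
    have c1 : qq d ^ 2 ≤ 1 / 4 := by nlinarith [sq_nonneg (qq d)]
    have c2 : (qq d ^ 2) ^ 5 ≤ 1 := pow_le_one₀ (by positivity) (by linarith)
    have c3 : (qq d ^ 2) ^ 5 * qq d ^ 2 ≤ 1 * (1 / 4) :=
      mul_le_mul c2 c1 (by positivity) zero_le_one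
    have c4 := mul_le_mul_of_nonneg_right c3 (pow_pos hq 4).le
    linarith [show qq d ^ 16 = (qq d ^ 2) ^ 5 * qq d ^ 2 * qq d ^ 4 by ring]
  have h9 := mul_le_mul_of_nonneg_right h8 hN0
  linarith

end Pool.Agent.MP_32a90a_pr.D

end

section

set_option autoImplicit false

namespace Pool.Agent.MP_32a90a_pr.D

open Finset Filter Topology Pool.Agent.MP_32a90a_pr Pool.Agent.MP_32a90a_pr.L

namespace LowJ

lemma cnt (d : ℕ) {L : ℝ} (hL : 0 ≤ L) :
    ∑ l ∈ Icc (-(d : ℤ)) d, ind (0 ≤ l ∧ (l : ℝ) ≤ L) ≤ L + 1 := by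
  classical
  have h1 : ∑ l ∈ Icc (-(d : ℤ)) d, ind (0 ≤ l ∧ (l : ℝ) ≤ L)
      = (((Icc (-(d : ℤ)) d).filter fun l : ℤ => 0 ≤ l ∧ (l : ℝ) ≤ L).card : ℝ) := by
    rw [card_filter]; push_cast
    exact sum_congr rfl fun a _ => by by_cases h : 0 ≤ a ∧ (a : ℝ) ≤ L <;> simp [ind, h]
  have h2 : ((Icc (-(d : ℤ)) d).filter fun l : ℤ => 0 ≤ l ∧ (l : ℝ) ≤ L) ⊆ Icc 0 ⌊L⌋ := by
    intro l hl
    have := (mem_filter.1 hl).2
    exact mem_Icc.2 ⟨this.1, Int.le_floor.2 this.2⟩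
  have h3 := card_le_card h2
  have h4 : 0 ≤ ⌊L⌋ := Int.floor_nonneg.2 hL
  have h5 : ((Icc (0 : ℤ) ⌊L⌋).card : ℤ) = ⌊L⌋ + 1 := by
    rw [Int.card_Icc, Int.toNat_of_nonneg (by omega)]; ring
  have h6 : ((Icc (0 : ℤ) ⌊L⌋).card : ℝ) = ⌊L⌋ + 1 := by exact_mod_cast h5
  have h7 : ((((Icc (-(d : ℤ)) d).filter fun l : ℤ => 0 ≤ l ∧ (l : ℝ) ≤ L).card : ℕ) : ℝ)
      ≤ ((Icc (0 : ℤ) ⌊L⌋).card : ℝ) := by exact_mod_cast h3
  rw [h1]
  linarith [Int.floor_le L]

lemma bnd {d : ℕ} {r : Bool → ℤ → ℝ} {L W η : ℝ} (hL : 1 ≤ L) (hW : 0 ≤ W)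
    (h0 : ∀ b l, 0 ≤ r b l) (h1 : ∀ b, ∑ l ∈ Icc (-(d : ℤ)) d, ind (l < 0 ∨ Odd l) * r b l ≤ η)
    (h2 : ∀ b (l : ℕ), 2 * (l : ℝ) ≤ L → r b (2 * l) ≤ W) : rL d r L ≤ 2 * η + 4 * L * W := by
  have h : ∀ b, rB d r b L ≤ η + 2 * L * W := fun b => by
    have h3 : rB d r b L ≤ ∑ l ∈ Icc (-(d : ℤ)) d,
        (ind (l < 0 ∨ Odd l) * r b l + ind (0 ≤ l ∧ (l : ℝ) ≤ L) * W) := by
      refine sum_le_sum fun l _ => ?_
      have a1 := mul_nonneg (ind_nonneg (l < 0 ∨ Odd l)) (h0 b l)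
      have a2 := mul_nonneg (ind_nonneg (0 ≤ l ∧ (l : ℝ) ≤ L)) hW
      by_cases e1 : (l : ℝ) ≤ L
      · by_cases e2 : l < 0 ∨ Odd l
        · rw [ind_pos e1, ind_pos e2]; linarith
        · rw [not_or, not_lt, Int.not_odd_iff_even] at e2
          obtain ⟨e2, m, hm⟩ := e2
          obtain ⟨n, rfl⟩ := Int.eq_ofNat_of_zero_le (show 0 ≤ m by omega)
          have e3 : l = 2 * n := by omega
          have e4 := h2 b n (by rw [e3] at e1; exact_mod_cast e1)
          rw [← e3] at e4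
          rw [ind_pos e1, ind_pos (show 0 ≤ l ∧ (l : ℝ) ≤ L from ⟨e2, e1⟩)]
          linarith
      · rw [ind_neg e1]; linarith
    rw [sum_add_distrib, ← sum_mul] at h3
    have h4 := mul_le_mul_of_nonneg_right (cnt d (L := L) (by linarith)) hW
    have h5 : (L + 1) * W ≤ 2 * L * W := mul_le_mul_of_nonneg_right (by linarith) hW
    linarith [h1 b]
  unfold rL
  linarith [h true, h false]

lemma tl : Tendsto (fun d : ℕ => ell d) atTop atTop :=
  Real.tendsto_log_atTop.comp tendsto_natCast_atTop_atTop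

lemma ev_pow (c : ℝ) {s : ℝ} (hs : 0 < s) : ∀ᶠ d : ℕ in atTop, c * ell d ≤ (d : ℝ) ^ s := by
  have h := ((isLittleO_log_rpow_atTop hs).const_mul_left c).bound one_pos
  filter_upwards [tendsto_natCast_atTop_atTop.eventually h] with d hd
  rw [one_mul, Real.norm_of_nonneg (Real.rpow_nonneg (Nat.cast_nonneg d) s)] at hd
  exact (le_abs_self _).trans hd

lemma ev_lll (c : ℝ) : ∀ᶠ d : ℕ in atTop, c ≤ Real.sqrt (lll d) :=
  (Real.tendsto_sqrt_atTop.comp (Real.tendsto_log_atTop.comp tl)).eventually_ge_atTop c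

lemma ev_y0 (K : ℝ) : ∀ᶠ d : ℕ in atTop, K * y0 d ≤ 1 / 2000 := by
  have h : Tendsto (fun d : ℕ => K * y0 d) atTop (𝓝 (K * 0)) :=
    ((tendsto_rpow_neg_atTop (y := 1 / 100) (by norm_num)).comp tl).const_mul K
  rw [mul_zero] at h
  exact h.eventually_le_const (by norm_num)

end LowJ

theorem stLow : StLow := by
  intro K C c hK
  filter_upwards [LowJ.tl.eventually_ge_atTop (10 ^ 10), LowJ.ev_pow (10 ^ 6 * K ^ 2) one_pos,
    LowJ.ev_lll (16 * 10 ^ 6 * K ^ 3), LowJ.ev_y0 K,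
    LowJ.ev_pow (16 * K) (show (0 : ℝ) < 7 / 1000 by norm_num), eventually_ge_atTop 3]
    with d ha hb hc hd he hd3 r y hR hy0 hy hS hcase
  rw [Real.rpow_one] at hb
  have hd3' : (3 : ℝ) ≤ d := by exact_mod_cast hd3
  have hdp : (0 : ℝ) < d := by linarith
  have hl0 : 0 < ell d := by linarith
  have hK2 : 1 ≤ K ^ 2 := one_le_pow₀ hK
  have hK3 : 1 ≤ K ^ 3 := one_le_pow₀ hK
  have hr0 := (hR.1 true 0).1
  have hs0 : 0 < Real.sqrt (lll d) := by linarith
  have hLam : 16 * 10 ^ 6 * K ^ 3 * Lam d ≤ ell d := by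
    unfold Lam
    rw [← mul_div_assoc, div_le_iff₀ hs0, mul_comm]
    exact mul_le_mul_of_nonneg_left hc hl0.le
  have hLam0 : 0 ≤ Lam d := div_nonneg hl0.le hs0.le
  have hLam1 : 100 * Lam d ≤ ell d / 1000 := by
    have := mul_le_mul_of_nonneg_right hK3 hLam0
    linarith
  set E : ℝ := (d : ℝ) ^ (3 / 1000 : ℝ) with hE
  have hE0 : 0 < E := Real.rpow_pos_of_pos hdp _
  have hEe : Real.exp (3 / 1000 * ell d) = E := by
    rw [hE, Real.rpow_def_of_pos hdp, ell, mul_comm]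
  have h7 : 1 / (d : ℝ) ^ 7 ≤ 1 / (12 * d) := by
    refine one_div_le_one_div_of_le (by positivity) ?_
    have : (3 : ℝ) ^ 6 ≤ (d : ℝ) ^ 6 := pow_le_pow_left₀ (by norm_num) hd3' 6
    rw [pow_succ]
    exact mul_le_mul_of_nonneg_right (by linarith) hdp.le
  have h10 : 1 / (d : ℝ) ^ 10 ≤ 1 / (d : ℝ) ^ 7 :=
    one_div_le_one_div_of_le (by positivity) (pow_le_pow_right₀ (by linarith) (by norm_num))
  have key : ∀ L : ℝ, 1 ≤ L → 10 * L ≤ d → y * L ≤ ell d / 1000 →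
      rL d r L ≤ 4 * L * (E * r true 0) + 1 / (4 * d) := by
    intro L h1 h2 h3
    have h4 := LowJ.bnd (d := d) (r := r) (W := E * r true 0 + 1 / (d : ℝ) ^ 8) h1 (by positivity)
      (fun b l => (hR.1 b l).1) hR.2.1 fun b l hl => by
        have a1 : y * (2 * l) ≤ y * L := mul_le_mul_of_nonneg_left hl hy0
        have a2 := hS b l (by exact_mod_cast (show (20 : ℝ) * l ≤ d by linarith)) (by linarith)
        have a3 : Real.exp (100 * Lam d + 4 * y * l) ≤ E := by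
          rw [← hEe]
          exact Real.exp_le_exp.2 (by linarith)
        linarith [mul_le_mul_of_nonneg_right a3 hr0]
    have h5 : 4 * L * (1 / (d : ℝ) ^ 8) ≤ 1 / (d : ℝ) ^ 7 := by
      have : 1 / (d : ℝ) ^ 7 = d * (1 / (d : ℝ) ^ 8) := by field_simp
      rw [this]
      exact mul_le_mul_of_nonneg_right (by linarith) (by positivity)
    have h6 : 1 / (4 * (d : ℝ)) = 3 * (1 / (12 * d)) := by field_simp; norm_num
    rw [mul_add] at h4
    linarith
  have hEr : 0 ≤ E * r true 0 := mul_nonneg hE0.le hr0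
  have hdl : 10 ^ 6 * ell d ≤ d := by
    have := mul_le_mul_of_nonneg_right hK2 hl0.le
    linarith
  have hsq : K * Real.sqrt (d * ell d) ≤ d / 1000 := by
    rw [← Real.sqrt_sq (show 0 ≤ K by linarith), ← Real.sqrt_mul (by positivity)]
    refine Real.sqrt_le_iff.2 ⟨by positivity, ?_⟩
    have := mul_le_mul_of_nonneg_left hb hdp.le
    linarith
  have hsq0 : ell d ≤ Real.sqrt (d * ell d) := Real.le_sqrt_of_sq_le (by
    rw [sq]; exact mul_le_mul_of_nonneg_right (by linarith) hl0.le)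
  have main : 1 ≤ 16 * K * ell d * (d * (E * r true 0)) := by
    rcases hcase with h | ⟨z, hz1, hz2, hz3, hz4⟩
    · have a0 : Real.sqrt (d * ell d) ≤ d / 1000 := by
        have := mul_le_mul_of_nonneg_right hK (Real.sqrt_nonneg (d * ell d))
        linarith
      have a1 : y * Real.sqrt (d * ell d) ≤ ell d / 100000 := by
        rw [← Real.sqrt_sq hy0, ← Real.sqrt_mul (by positivity)]
        refine Real.sqrt_le_iff.2 ⟨by positivity, ?_⟩
        have g1 := mul_le_mul_of_nonneg_right h hl0.le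
        have g2 := mul_le_mul_of_nonneg_right ha hl0.le
        linarith
      have a2 := key (100 * Real.sqrt (d * ell d)) (by linarith) (by linarith) (by linarith)
      have a3 := hR.2.2.2.2
      have a4 : 1 / (4 * (d : ℝ)) ≤ 1 / 4 :=
        one_div_le_one_div_of_le (by norm_num) (by linarith)
      have a5 : 4 * (100 * Real.sqrt (d * ell d)) * (E * r true 0) ≤ d * (E * r true 0) :=
        mul_le_mul_of_nonneg_right (by linarith) hEr
      have a6 : 4 ≤ 16 * K * ell d := by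
        have := mul_le_mul_of_nonneg_right hK hl0.le
        linarith
      have a7 := mul_le_mul_of_nonneg_right a6 (mul_nonneg hdp.le hEr)
      linarith
    · have b0 : 1 ≤ ell d ^ (3 / 4 : ℝ) := Real.one_le_rpow (by linarith) (by norm_num)
      have b1 : 1 ≤ d * z := by
        unfold z1 at hz1
        rw [div_le_iff₀ hdp] at hz1
        linarith
      have hz0 : 0 < z := (mul_pos_iff_of_pos_left hdp).1 (by linarith)
      have b2 : 1 ≤ d * z * ell d := one_le_mul_of_one_le_of_one_le b1 (by linarith)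
      have b3 : Real.sqrt (d * z * ell d) ≤ d * z * ell d :=
        Real.sqrt_le_iff.2 ⟨by linarith, le_self_pow₀ b2 two_ne_zero⟩
      have b4 : ell d ≤ d * z * ell d := le_mul_of_one_le_left hl0.le b1
      have b5 : Real.sqrt (d * z * ell d) ≤ Real.sqrt (d * ell d) :=
        Real.sqrt_le_sqrt (mul_le_mul_of_nonneg_right
          (mul_le_of_le_one_right hdp.le (by linarith)) hl0.le)
      have b6 : 0 ≤ Real.sqrt (d * z * ell d) := Real.sqrt_nonneg _
      have c1 : 1 ≤ Lz K d z := one_le_mul_of_one_le_of_one_le hK (by linarith)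
      have c2 : 10 * Lz K d z ≤ d := by
        have : Lz K d z ≤ K * (2 * Real.sqrt (d * ell d)) :=
          mul_le_mul_of_nonneg_left (by linarith) (by linarith)
        linarith
      have c3 : y * Lz K d z ≤ ell d / 1000 := by
        have e1 : K * y * Real.sqrt (d * z * ell d) ≤ ell d / 2000 := by
          rw [← Real.sqrt_sq (show 0 ≤ K * y by positivity), ← Real.sqrt_mul (by positivity)]
          refine Real.sqrt_le_iff.2 ⟨by positivity, ?_⟩
          have f1 : (K * y) ^ 2 * (d * z * ell d) = K ^ 2 * ell d * (y ^ 2 * d * z) := by ring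
          have f2 : K ^ 2 * ell d * (y ^ 2 * d * z) ≤ K ^ 2 * ell d * (4 * K * Lam d) :=
            mul_le_mul_of_nonneg_left hz3 (by positivity)
          have f3 : ell d * (16 * 10 ^ 6 * K ^ 3 * Lam d) ≤ ell d * ell d :=
            mul_le_mul_of_nonneg_left hLam hl0.le
          linarith
        have e2 : K * y * ell d ≤ 1 / 2000 * ell d :=
          mul_le_mul_of_nonneg_right
            ((mul_le_mul_of_nonneg_left hy (by linarith)).trans hd) hl0.le
        unfold Lz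
        linarith
      have c4 := key _ c1 c2 c3
      have c5 : Lz K d z ≤ K * (2 * (d * z * ell d)) :=
        mul_le_mul_of_nonneg_left (by linarith) (by linarith)
      have c6 : 4 * Lz K d z * (E * r true 0) ≤ 4 * (K * (2 * (d * z * ell d))) * (E * r true 0) :=
        mul_le_mul_of_nonneg_right (by linarith) hEr
      have c7 : 1 / (4 * (d : ℝ)) ≤ z / 4 := by
        rw [div_le_div_iff₀ (by positivity) (by norm_num)]
        linarith
      have c8 : z * 1 ≤ z * (16 * K * ell d * (d * (E * r true 0))) := by linarith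
      exact le_of_mul_le_mul_left c8 hz0
  have fin : 1 ≤ (d : ℝ) ^ (101 / 100 : ℝ) * r true 0 := by
    have e : (d : ℝ) ^ (101 / 100 : ℝ) = (d : ℝ) ^ (7 / 1000 : ℝ) * (d * E) := by
      rw [hE, show (101 / 100 : ℝ) = 7 / 1000 + (1 + 3 / 1000) by norm_num, Real.rpow_add hdp,
        Real.rpow_add hdp, Real.rpow_one]
    have := mul_le_mul_of_nonneg_right he (mul_nonneg hdp.le hEr)
    rw [e]
    linarith
  rw [Real.rpow_neg hdp.le, inv_le_iff_one_le_mul₀' (Real.rpow_pos_of_pos hdp _)]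
  exact fin

end Pool.Agent.MP_32a90a_pr.D

end

section

set_option autoImplicit false

namespace Pool.Agent.MP_32a90a_pr.D

open Filter Real

namespace L2numJ

lemma ev (a M : ℝ) (ha : 0 < a) (n : ℕ) : ∀ᶠ x : ℝ in atTop, M * x ^ n ≤ exp (a * x) := by
  have h := (isLittleO_pow_exp_pos_mul_atTop n ha).const_mul_left M
  filter_upwards [h.bound one_pos] with x hx
  rw [one_mul, Real.norm_of_nonneg (exp_pos _).le] at hx
  exact (le_abs_self _).trans hx

/-- the exponent is at most - lam / 10^6 -/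
lemma expo (K u v s lam y : ℝ) (hK : 1 ≤ K) (hu : u = exp v) (hv : 1 ≤ v) (hs1 : 1 ≤ s)
    (hsv : s ≤ v) (hA : 4000000 * K * v ≤ exp (1 / 100 * v))
    (hB : 4000000 * v ≤ exp (1 / 4 * v)) (hl : u / s ≤ lam) (hy0 : 0 ≤ y)
    (hy : y ≤ exp (-(1 / 100 * v))) :
    -(lam / 500000) + 2 * exp (3 / 4 * v) + K * y * (lam + u) ≤ -(lam / 1000000) := by
  have hs : 0 < s := by linarith
  have hu0 : 0 < u := hu ▸ exp_pos v
  have hul : u ≤ lam * s := by rwa [div_le_iff₀ hs] at hl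
  have hlam : 0 < lam := lt_of_lt_of_le (div_pos hu0 hs) hl
  have h1 : exp (3 / 4 * v) * exp (1 / 4 * v) = u := by
    rw [← exp_add, hu]; congr 1; ring
  have he := exp_pos (3 / 4 * v)
  have h2 : exp (3 / 4 * v) * (4000000 * s) ≤ lam * s := by
    calc exp (3 / 4 * v) * (4000000 * s) ≤ exp (3 / 4 * v) * exp (1 / 4 * v) := by
          apply mul_le_mul_of_nonneg_left _ he.le; linarith
      _ = u := h1
      _ ≤ lam * s := hul
  have h3 : exp (3 / 4 * v) * 4000000 ≤ lam := by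
    have : (exp (3 / 4 * v) * 4000000) * s ≤ lam * s := by linarith
    exact le_of_mul_le_mul_right this hs
  have h4 : y * exp (1 / 100 * v) ≤ 1 := by
    calc y * exp (1 / 100 * v) ≤ exp (-(1 / 100 * v)) * exp (1 / 100 * v) :=
          mul_le_mul_of_nonneg_right hy (exp_pos _).le
      _ = 1 := by rw [← exp_add]; simp
  have h5 : y * (4000000 * K * v) ≤ 1 := (mul_le_mul_of_nonneg_left hA hy0).trans h4
  have h6 : lam + u ≤ lam * (2 * v) := by nlinarith
  have h7 : K * y * (lam + u) ≤ K * y * (lam * (2 * v)) :=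
    mul_le_mul_of_nonneg_left h6 (mul_nonneg (by linarith) hy0)
  have h8 : K * y * (lam * (2 * v)) = lam * (y * (4000000 * K * v)) / 2000000 := by ring
  have h9 : lam * (y * (4000000 * K * v)) ≤ lam := by nlinarith
  linarith

lemma fin (D lam b z m : ℝ) (hD : 1 ≤ D) (hl : 1000 ≤ lam) (hb : b ≤ 6 / D)
    (hm : b / z * m ≤ 6 / D) : 2 * b + b / z * m + 7 / D ^ 10 < (lam - 4) / (30 * D) := by
  have hD0 : 0 < D := by linarith
  have h1 : 7 / D ^ 10 ≤ 7 / D := by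
    apply div_le_div_of_nonneg_left (by norm_num) hD0
    exact le_self_pow₀ hD (by norm_num)
  have h2 : 25 / D < (lam - 4) / (30 * D) := by
    rw [div_lt_div_iff₀ hD0 (by positivity)]; nlinarith
  have h3 : 2 * (6 / D) + 6 / D + 7 / D = 25 / D := by ring
  linarith

lemma core (K C c u v s D lam y R b : ℝ) (hK : 1 ≤ K) (hC : 1 ≤ C) (hc : 0 < c)
    (hD : D = exp u) (hu : u = exp v) (hv : 1 ≤ v) (hs1 : 1 ≤ s) (hsv : s ≤ v)
    (hA : 4000000 * K * v ≤ exp (1 / 100 * v)) (hB : 4000000 * v ≤ exp (1 / 4 * v))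
    (h1 : 2 * K * u ^ 2 ≤ exp (1 * u)) (h2 : 4 * K / c * u ^ 2 ≤ exp (1 / 10 * u))
    (h3 : 20000000 * v ^ 2 ≤ exp (1 * v)) (h4 : 144 * C ^ 2 * K ^ 5 ≤ u)
    (h5 : 12 * C * K ^ 2 * u ^ 5 ≤ exp (1 * u)) (h6 : 11000000 ≤ u)
    (hl : u / s ≤ lam) (hy0 : 0 ≤ y) (hy : y ≤ exp (-(1 / 100 * v))) (hR : 0 ≤ R) (hb0 : 0 ≤ b)
    (hRu : K * (lam + u) ≤ D → 2 * exp (-(1 / 10 * u)) * (K * (lam + u)) ≤ c →
      R ≤ 2 * C * (K * (lam + u)) ^ 2 * u / D)
    (hb : b ≤ K * exp (-(lam / 500000) + 2 * exp (3 / 4 * v) + K * y * (lam + u)) *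
      min 1 (R + 4 / D ^ 10) + 5 / D ^ 10) :
    2 * b + b / (exp (3 / 4 * v) / D) * min 1 (R + 1 / D ^ 10) + 7 / D ^ 10
      < (lam - 4) / (30 * D) := by
  rw [one_mul] at h1 h3 h5
  rw [← hD] at h1 h5
  rw [← hu] at h3
  have hs : 0 < s := by linarith
  have hu1 : 1 ≤ u := by linarith
  have hu0 : 0 < u := by linarith
  have hD1 : 1 ≤ D := by rw [hD]; exact one_le_exp hu0.le
  have hD0 : 0 < D := by linarith
  have hK0 : 0 < K := by linarith
  have hul : u ≤ lam * s := by rwa [div_le_iff₀ hs] at hl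
  have hlv : 20000000 * v ≤ lam := by
    have k : (20000000 * v) * s ≤ (20000000 * v) * v :=
      mul_le_mul_of_nonneg_left hsv (by linarith)
    have k2 : (20000000 * v) * v = 20000000 * v ^ 2 := by ring
    have : (20000000 * v) * s ≤ lam * s := by linarith
    exact le_of_mul_le_mul_right this hs
  have hl3 : 1000 ≤ lam := by linarith
  have hex := expo K u v s lam y hK hu hv hs1 hsv hA hB hl hy0 hy
  have hE : exp (-(lam / 500000) + 2 * exp (3 / 4 * v) + K * y * (lam + u))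
      ≤ exp (-(lam / 1000000)) := exp_le_exp.2 hex
  have hm0 : 0 ≤ min 1 (R + 4 / D ^ 10) := le_min zero_le_one (by positivity)
  have hm1 : 0 ≤ min 1 (R + 1 / D ^ 10) := le_min zero_le_one (by positivity)
  have hb' : b ≤ K * exp (-(lam / 1000000)) * min 1 (R + 4 / D ^ 10) + 5 / D ^ 10 := by
    refine hb.trans ?_
    have := mul_le_mul_of_nonneg_right (mul_le_mul_of_nonneg_left hE hK0.le) hm0
    linarith
  have hz : b / (exp (3 / 4 * v) / D) ≤ b * D := by
    have h34 : 1 ≤ exp (3 / 4 * v) := one_le_exp (by linarith)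
    rw [div_div_eq_mul_div]
    exact div_le_self (by positivity) h34
  have hD9 : D ≤ D ^ 9 := le_self_pow₀ hD1 (by norm_num)
  have hD10 : D ≤ D ^ 10 := le_self_pow₀ hD1 (by norm_num)
  rcases le_or_gt (u ^ 2) lam with hc1 | hc1
  · have e1 : K * exp (-(lam / 1000000)) ≤ 1 / D ^ 10 := by
      have k1 : K ≤ D := by
        have : K * 1 ≤ K * u ^ 2 := mul_le_mul_of_nonneg_left (one_le_pow₀ hu1) hK0.le
        linarith
      have k2 : exp (-(lam / 1000000)) ≤ exp (-(11 * u)) := by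
        apply exp_le_exp.2
        have : 11000000 * u ≤ u * u := mul_le_mul_of_nonneg_right h6 hu0.le
        have k : u ^ 2 = u * u := by ring
        linarith
      have k3 : D * exp (-(11 * u)) = 1 / D ^ 10 := by
        rw [hD, ← exp_add, ← exp_nat_mul, one_div, ← exp_neg]; congr 1; push_cast; ring
      calc K * exp (-(lam / 1000000)) ≤ D * exp (-(11 * u)) :=
            mul_le_mul k1 k2 (exp_pos _).le hD0.le
        _ = 1 / D ^ 10 := k3
    have e2 : b ≤ 6 / D ^ 10 := by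
      have k1 : K * exp (-(lam / 1000000)) * min 1 (R + 4 / D ^ 10) ≤ 1 / D ^ 10 * 1 :=
        mul_le_mul e1 (min_le_left _ _) hm0 (by positivity)
      have k2 : 1 / D ^ 10 * 1 + 5 / D ^ 10 = 6 / D ^ 10 := by ring
      linarith
    apply fin D lam b _ _ hD1 hl3
    · exact e2.trans (div_le_div_of_nonneg_left (by norm_num) hD0 hD10)
    · calc b / (exp (3 / 4 * v) / D) * min 1 (R + 1 / D ^ 10) ≤ b * D * 1 :=
            mul_le_mul hz (min_le_left _ _) hm1 (by positivity)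
        _ ≤ 6 / D ^ 10 * D := by rw [mul_one]; exact mul_le_mul_of_nonneg_right e2 hD0.le
        _ = 6 / D ^ 9 := by field_simp
        _ ≤ 6 / D := div_le_div_of_nonneg_left (by norm_num) hD0 hD9
  · have hu2 : u ≤ u ^ 2 := le_self_pow₀ hu1 (by norm_num)
    have a0 : 0 ≤ K * (lam + u) := by positivity
    have a1 : K * (lam + u) ≤ 2 * K * u ^ 2 := by
      have : K * (lam + u) ≤ K * (2 * u ^ 2) := mul_le_mul_of_nonneg_left (by linarith) hK0.le
      linarith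
    have a2 : 2 * exp (-(1 / 10 * u)) * (K * (lam + u)) ≤ c := by
      have k1 : 4 * K * u ^ 2 ≤ c * exp (1 / 10 * u) := by
        have : 4 * K / c * u ^ 2 * c ≤ exp (1 / 10 * u) * c := mul_le_mul_of_nonneg_right h2 hc.le
        have k : 4 * K / c * u ^ 2 * c = 4 * K * u ^ 2 := by field_simp
        linarith
      have k2 : exp (-(1 / 10 * u)) * exp (1 / 10 * u) = 1 := by rw [← exp_add]; simp
      have k3 := exp_pos (-(1 / 10 * u))
      calc 2 * exp (-(1 / 10 * u)) * (K * (lam + u))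
          ≤ 2 * exp (-(1 / 10 * u)) * (2 * K * u ^ 2) :=
            mul_le_mul_of_nonneg_left a1 (by positivity)
        _ = exp (-(1 / 10 * u)) * (4 * K * u ^ 2) := by ring
        _ ≤ exp (-(1 / 10 * u)) * (c * exp (1 / 10 * u)) := mul_le_mul_of_nonneg_left k1 k3.le
        _ = c * (exp (-(1 / 10 * u)) * exp (1 / 10 * u)) := by ring
        _ = c := by rw [k2, mul_one]
    have a3 := hRu (a1.trans h1) a2
    set Q := 12 * C * K ^ 2 * u ^ 5 with hQ
    have q0 : 1 ≤ C * K ^ 2 * u ^ 5 :=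
      one_le_mul_of_one_le_of_one_le (one_le_mul_of_one_le_of_one_le hC (one_le_pow₀ hK))
        (one_le_pow₀ hu1)
    have q1 : 1 ≤ Q := by rw [hQ]; linarith
    have a4 : R + 4 / D ^ 10 ≤ Q / D := by
      have k1 : (K * (lam + u)) ^ 2 ≤ (2 * K * u ^ 2) ^ 2 := pow_le_pow_left₀ a0 a1 2
      have k2 : 2 * C * (K * (lam + u)) ^ 2 * u ≤ 2 * C * (2 * K * u ^ 2) ^ 2 * u := by
        apply mul_le_mul_of_nonneg_right _ hu0.le
        exact mul_le_mul_of_nonneg_left k1 (by linarith)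
      have k3 : 2 * C * (2 * K * u ^ 2) ^ 2 * u = 8 * (C * K ^ 2 * u ^ 5) := by ring
      have k4 : R ≤ 8 * (C * K ^ 2 * u ^ 5) / D :=
        a3.trans (div_le_div_of_nonneg_right (k2.trans k3.le) hD0.le)
      have k5 : 4 / D ^ 10 ≤ 4 / D := div_le_div_of_nonneg_left (by norm_num) hD0 hD10
      have k6 : 4 / D ≤ 4 * (C * K ^ 2 * u ^ 5) / D :=
        div_le_div_of_nonneg_right (by linarith) hD0.le
      have k7 : 8 * (C * K ^ 2 * u ^ 5) / D + 4 * (C * K ^ 2 * u ^ 5) / D = Q / D := by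
        rw [hQ]; ring
      linarith
    have a5 : exp (-(lam / 1000000)) ≤ 1 / u ^ 20 := by
      have k1 : exp (-(lam / 1000000)) ≤ exp (-(20 * v)) := by
        apply exp_le_exp.2; linarith
      have k2 : exp (-(20 * v)) = 1 / u ^ 20 := by
        rw [hu, ← exp_nat_mul, one_div, ← exp_neg]; congr 1
      exact k1.trans k2.le
    have a6 : b ≤ K * (1 / u ^ 20) * (Q / D) + 5 / D ^ 10 := by
      have k1 : K * exp (-(lam / 1000000)) * min 1 (R + 4 / D ^ 10)
          ≤ K * (1 / u ^ 20) * (Q / D) :=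
        mul_le_mul (mul_le_mul_of_nonneg_left a5 hK0.le) ((min_le_right _ _).trans a4) hm0
          (by positivity)
      linarith
    have a7 : K * Q ^ 2 ≤ u ^ 20 := by
      have k1 : K * Q ^ 2 = (144 * C ^ 2 * K ^ 5) * u ^ 10 := by rw [hQ]; ring
      have k2 : u ≤ u ^ 10 := le_self_pow₀ hu1 (by norm_num)
      have k3 : u ^ 20 = u ^ 10 * u ^ 10 := by ring
      rw [k1, k3]
      exact mul_le_mul_of_nonneg_right (h4.trans k2) (by positivity)
    have a8 : b * Q ≤ 6 / D := by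
      have k1 : b * Q ≤ (K * (1 / u ^ 20) * (Q / D) + 5 / D ^ 10) * Q :=
        mul_le_mul_of_nonneg_right a6 (by linarith)
      have k2 : (K * (1 / u ^ 20) * (Q / D) + 5 / D ^ 10) * Q
          = (K * Q ^ 2 / u ^ 20) / D + 5 * Q / D ^ 10 := by ring
      have k3 : K * Q ^ 2 / u ^ 20 ≤ 1 := by rw [div_le_one (by positivity)]; exact a7
      have k4 : (K * Q ^ 2 / u ^ 20) / D ≤ 1 / D := div_le_div_of_nonneg_right k3 hD0.le
      have k5 : 5 * Q / D ^ 10 ≤ 5 * D / D ^ 10 :=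
        div_le_div_of_nonneg_right (by linarith) (by positivity)
      have k6 : 5 * D / D ^ 10 = 5 / D ^ 9 := by field_simp
      have k7 : 5 / D ^ 9 ≤ 5 / D := div_le_div_of_nonneg_left (by norm_num) hD0 hD9
      have k8 : 1 / D + 5 / D = 6 / D := by ring
      linarith
    apply fin D lam b _ _ hD1 hl3
    · exact (le_mul_of_one_le_right hb0 q1).trans a8
    · have k1 : min 1 (R + 1 / D ^ 10) ≤ Q / D := by
        refine (min_le_right _ _).trans (le_trans ?_ a4)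
        have : 1 / D ^ 10 ≤ 4 / D ^ 10 := div_le_div_of_nonneg_right (by norm_num) (by positivity)
        linarith
      calc b / (exp (3 / 4 * v) / D) * min 1 (R + 1 / D ^ 10) ≤ b * D * (Q / D) :=
            mul_le_mul hz k1 hm1 (by positivity)
        _ = b * Q := by field_simp
        _ ≤ 6 / D := a8

end L2numJ

open L2numJ in
theorem stL2num : StL2num := by
  intro K C c hK hC hc
  have t1 : Tendsto ell atTop atTop := Real.tendsto_log_atTop.comp tendsto_natCast_atTop_atTop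
  have t2 : Tendsto lll atTop atTop := Real.tendsto_log_atTop.comp t1
  filter_upwards [t2.eventually (ev (1 / 100) (4000000 * K) (by norm_num) 1),
    t2.eventually (ev (1 / 4) 4000000 (by norm_num) 1),
    t1.eventually (ev 1 (2 * K) one_pos 2), t1.eventually (ev (1 / 10) (4 * K / c) (by norm_num) 2),
    t2.eventually (ev 1 20000000 one_pos 2), t1.eventually_ge_atTop (144 * C ^ 2 * K ^ 5),
    t1.eventually (ev 1 (12 * C * K ^ 2) one_pos 5), t1.eventually_ge_atTop 11000000,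
    t2.eventually_ge_atTop 1, eventually_ge_atTop 1] with d hA hB h1 h2 h3 h4 h5 h6 hv hd
  intro lam y R b hl hy0 hy hR hb0 hRu hb
  rw [pow_one] at hA hB
  have hd0 : (0 : ℝ) < d := by exact_mod_cast hd
  have hu0 : 0 < ell d := by linarith
  have hD : (d : ℝ) = exp (ell d) := (exp_log hd0).symm
  have hu : ell d = exp (lll d) := (exp_log hu0).symm
  have hs1 : 1 ≤ Real.sqrt (lll d) := Real.one_le_sqrt.2 hv
  have hsv : Real.sqrt (lll d) ≤ lll d := by
    rw [Real.sqrt_le_left (by linarith)]; nlinarith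
  have e1 : z1 d = exp (3 / 4 * lll d) / d := by
    unfold z1; rw [rpow_def_of_pos hu0]; congr 2; unfold lll ell; ring
  have e2 : y0 d = exp (-(1 / 100 * lll d)) := by
    unfold y0; rw [rpow_def_of_pos hu0]; congr 1; unfold lll ell; ring
  have e3 : tau d = exp (-(1 / 10 * ell d)) := by
    unfold tau; rw [rpow_def_of_pos hd0]; congr 1; unfold ell; ring
  have e4 : 2 * (d : ℝ) * z1 d = 2 * exp (3 / 4 * lll d) := by rw [e1]; field_simp
  rw [e4] at hb
  rw [e3] at hRu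
  rw [e2] at hy
  rw [e1]
  exact core K C c (ell d) (lll d) (Real.sqrt (lll d)) d lam y R b hK hC hc hD hu hv hs1 hsv hA hB
    h1 h2 h3 h4 h5 h6 hl hy0 hy hR hb0 hRu hb

end Pool.Agent.MP_32a90a_pr.D

end

section

set_option autoImplicit false

namespace Pool.Agent.MP_32a90a_pr.D

open Finset Equiv Filter Pool.Agent.MP_32a90a_pr Pool.Agent.MP_32a90a_pr.L

namespace TopClsJ

lemma ell_top : Tendsto ell atTop atTop :=
  Real.tendsto_log_atTop.comp tendsto_natCast_atTop_atTop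

lemma num (M : ℝ) {c : ℝ} (hc : 0 < c) : ∀ᶠ d : ℕ in atTop, ∃ u : ℝ, M ≤ u ∧ 1000 ≤ u ∧
    ell d = u ^ 100 ∧ y0 d = u⁻¹ ∧ z1 d = u ^ 75 / d ∧ ell d ^ (11 / 10 : ℝ) = u ^ 110 ∧
    u ^ 200 ≤ d ∧ 2 * tau d * u ^ 200 ≤ c ∧ 4 ≤ lll d := by
  have h1 := ((tendsto_rpow_atTop (y := 1 / 100) (by norm_num)).comp ell_top).eventually_ge_atTop
    (max M 1000)
  have h2 := (Real.tendsto_log_atTop.comp ell_top).eventually_ge_atTop 4
  have h3 := tendsto_natCast_atTop_atTop.eventually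
    ((isLittleO_log_rpow_rpow_atTop 2 (s := 1 / 10) (by norm_num)).bound
      (lt_min (half_pos hc) one_pos))
  filter_upwards [h1, h2, h3, ell_top.eventually_gt_atTop 0, eventually_ge_atTop 1]
    with d h1 h2 h3 h4 h5
  have hd : (1 : ℝ) ≤ d := by exact_mod_cast h5
  have hp : ∀ n : ℕ, (ell d ^ (1 / 100 : ℝ)) ^ n = ell d ^ (n / 100 : ℝ) := fun n => by
    rw [← Real.rpow_natCast, ← Real.rpow_mul h4.le]
    congr 1
    ring
  have q0 : 0 < (d : ℝ) ^ (1 / 10 : ℝ) := by positivity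
  have e2 : (ell d ^ (1 / 100 : ℝ)) ^ 200 ≤ min (c / 2) 1 * (d : ℝ) ^ (1 / 10 : ℝ) := by
    rw [hp, show ((200 : ℕ) : ℝ) / 100 = 2 by norm_num]
    rw [Real.norm_of_nonneg q0.le] at h3
    exact (le_abs_self _).trans h3
  refine ⟨ell d ^ (1 / 100 : ℝ), (le_max_left _ _).trans h1, (le_max_right _ _).trans h1,
    by rw [hp]; norm_num, Real.rpow_neg h4.le _, by rw [hp, z1]; norm_num, by rw [hp]; norm_num,
    ?_, ?_, h2⟩
  · refine e2.trans ((mul_le_of_le_one_left q0.le (min_le_right _ _)).trans ?_)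
    exact (Real.rpow_le_rpow_of_exponent_le hd (by norm_num)).trans_eq (Real.rpow_one _)
  · have e3 := e2.trans (mul_le_mul_of_nonneg_right (min_le_left _ _) q0.le)
    rw [tau, Real.rpow_neg (by positivity), mul_assoc, inv_mul_eq_div, ← le_div_iff₀' two_pos,
      div_le_iff₀ q0]
    exact e3

lemma dyadic {x : ℝ} {n : ℕ} (h1 : 1 / 2 ^ (n + 2) ≤ x) (h2 : x ≤ 1 / 2) :
    ∃ k < n + 1, kD k ≤ x ∧ x ≤ 2 * kD k := by
  induction n with
  | zero => exact ⟨0, one_pos, h1, by unfold kD; linarith⟩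
  | succ n ih =>
    by_cases h : 1 / 2 ^ (n + 2) ≤ x
    · obtain ⟨k, hk, h⟩ := ih h
      exact ⟨k, by omega, h⟩
    · refine ⟨n + 1, by omega, h1, (not_le.1 h).le.trans_eq ?_⟩
      unfold kD
      field_simp
      ring

lemma pigeon {V : Type} [Fintype V] [DecidableEq V] {μ : (V → Bool) → ℝ} (hμ : Prob μ)
    (S : Finset V) (n : ℕ) (hS : ∀ v ∈ S, 1 / 2 ^ (n + 1) ≤ kt μ (crd v)) :
    ∃ k < n + 1, (∑ v ∈ S, kt μ (crd v)) / (n + 1 : ℕ)
      ≤ ∑ v ∈ cls μ (kD k) (2 * kD k), kt μ (crd v) := by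
  classical
  have h : ∑ v ∈ S, kt μ (crd v)
      ≤ ∑ k ∈ range (n + 1), ∑ v ∈ cls μ (kD k) (2 * kD k), kt μ (crd v) := by
    simp only [cls, sum_filter]
    rw [sum_comm]
    refine le_trans (sum_le_sum fun v hv => ?_) (sum_le_sum_of_subset_of_nonneg (subset_univ S)
      fun v _ _ => sum_nonneg fun k _ => ite_nonneg (hμ.kt_nonneg _) le_rfl)
    obtain ⟨k, hk, h⟩ := dyadic (x := mn μ (crd v)) (n := n) (by
      have h1 := hS v hv
      have h2 := hμ.kt_le_mn (crd v)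
      rw [pow_succ, ← div_div]
      linarith) (mn_le_half _)
    refine le_trans ?_ (single_le_sum (fun k _ => ite_nonneg (hμ.kt_nonneg _) le_rfl)
      (mem_range.2 hk))
    rw [if_pos h]
  obtain ⟨k, hk, h⟩ := exists_le_of_sum_le (s := range (n + 1))
    (f := fun _ => (∑ v ∈ S, kt μ (crd v)) / (n + 1 : ℕ)) nonempty_range_add_one
    (le_trans (by rw [sum_const, card_range, nsmul_eq_mul, mul_div_cancel₀ _ (by positivity)]) h)
  exact ⟨k, mem_range.1 hk, h⟩

end TopClsJ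

open TopClsJ in
theorem stTopCls (hGroup : StGroup) (hSoft : StSoft) (hSmall : StSmall) : StTopCls := by
  intro C c hC hc
  obtain ⟨K, hK, hG⟩ := hGroup
  obtain ⟨K1, hK1, hS⟩ := hSoft
  filter_upwards [hG, hS, hSmall, num (K + 2 * K1 + 2 * C) hc] with d ⟨e0, he0, hG⟩ hS hSm
    ⟨u, hM, hu, he, hy, hz, h11, hd, hτ, hl⟩
  have u1 : 1 ≤ u := by linarith
  have u0 : 0 < u := by linarith
  have pw : ∀ {a b : ℕ}, a ≤ b → u ^ a ≤ u ^ b := fun h => pow_le_pow_right₀ u1 h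
  have d0 : (0 : ℝ) < d := (pow_pos u0 _).trans_le hd
  refine ⟨min e0 (1 / (d : ℝ) ^ 10), lt_min he0 (by positivity), ?_⟩
  intro V E _ _ _ _ _ e r Z A w J μ hR hE hF h1
  have hμ : Prob μ := hR.2.2.2.2.1
  have z0 : 0 < z1 d := by rw [hz]; positivity
  have g1 := (hG V E C c e _ r Z A w J μ hR (hE.trans (min_le_left _ _))
    (by
      rw [hy, one_div]
      exact inv_anti₀ u0 (((pow_one u).symm.trans_le (pw (by norm_num))).trans hd))
    (by rw [hy, one_div]; exact inv_anti₀ (by norm_num) hu)).1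
  have s1 := hS V E C c e _ _ r Z A w J μ hR (hE.trans (min_le_right _ _)) (by linarith)
  have s2 := (hSm V E C c e _ _ _ r Z A w J μ hR (hE.trans (min_le_right _ _))
    (fun b l => (hF.1 b l).1) (by linarith) s1).2 (u ^ 313 / d)
  generalize zz μ crd = z at *
  have zp : 0 < z := z0.trans_le h1
  have g2 : d * z ≤ u ^ 110 := by
    rw [hy, he, inv_pow, mul_assoc, inv_mul_le_iff₀ (by positivity)] at g1
    calc _ ≤ u ^ 2 * (u * u ^ 100) := g1.trans (by gcongr; linarith)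
      _ = u ^ 103 := by ring
      _ ≤ _ := pw (by norm_num)
  refine ⟨h11 ▸ g2, ?_⟩
  have l1 : √(d * z * ell d) ≤ u ^ 105 := by
    rw [Real.sqrt_le_left (by positivity), he]
    calc _ ≤ u ^ 110 * u ^ 100 := by gcongr
      _ = _ := by ring
  have l0 : 1 ≤ Lz K1 d z := by
    have := Real.sqrt_nonneg (d * z * ell d)
    have := one_le_pow₀ (n := 100) u1
    rw [← he] at this
    exact one_le_mul_of_one_le_of_one_le hK1 (by linarith)
  have l2 : Lz K1 d z ≤ u ^ 106 := by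
    have := pw (a := 100) (b := 105) (by norm_num)
    rw [← he] at this
    calc _ ≤ K1 * (2 * u ^ 105) := mul_le_mul_of_nonneg_left (by linarith) (by linarith)
      _ = 2 * K1 * u ^ 105 := by ring
      _ ≤ u * u ^ 105 := by gcongr; linarith
      _ = _ := by ring
  have l3 := l2.trans (pw (b := 200) (by norm_num))
  have t0 : 0 ≤ tau d := by unfold tau; positivity
  have r1 := hF.2.2.1 _ l0 (l3.trans hd) ((mul_le_mul_of_nonneg_left l3 (by positivity)).trans hτ)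
  have s3 := s2 (r1.trans (div_le_div_of_nonneg_right (by
    rw [he]
    calc _ ≤ u * (u ^ 106) ^ 2 * u ^ 100 := by gcongr; linarith
      _ = _ := by ring) d0.le))
  obtain ⟨n, n1, n2⟩ : ∃ n : ℕ, 22 / 5 * lll d ≤ (n + 1 : ℕ) ∧ (n : ℝ) ≤ 22 / 5 * lll d :=
    ⟨⌊22 / 5 * lll d⌋₊, by push_cast; exact (Nat.lt_floor_add_one _).le,
      Nat.floor_le (by linarith)⟩
  have p1 : u ^ 300 ≤ 2 ^ (n + 1) := by
    have a1 : u ^ 300 = Real.exp (3 * lll d) := by
      rw [show (3 : ℝ) = (3 : ℕ) by norm_num, Real.exp_nat_mul,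
        show lll d = Real.log (ell d) from rfl, Real.exp_log (by rw [he]; positivity), he]
      ring
    rw [a1, ← Real.exp_log two_pos, ← Real.exp_nat_mul]
    have := Real.log_two_gt_d9
    exact Real.exp_le_exp.2 (by nlinarith)
  obtain ⟨k, hk, h⟩ := pigeon hμ _ n fun v hv => le_trans (b := z / (64 * (u ^ 313 / d))) (by
    rw [hz, div_le_iff₀ d0] at h1
    rw [div_le_div_iff₀ (by positivity) (by positivity), one_mul, ← mul_div_assoc,
      div_le_iff₀ d0]
    calc 64 * u ^ 313 ≤ u * u ^ 313 := by gcongr; linarith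
      _ = u ^ 314 := by ring
      _ ≤ u ^ 375 := pw (by norm_num)
      _ = u ^ 75 * u ^ 300 := by ring
      _ ≤ z * d * 2 ^ (n + 1) := by gcongr
      _ = _ := by ring) (mem_filter.1 hv).2
  have hk' : (k : ℝ) ≤ n := by exact_mod_cast Nat.lt_succ_iff.1 hk
  refine ⟨k, by linarith, le_trans ?_ ((div_le_div_of_nonneg_right s3 (by positivity)).trans h)⟩
  have hN : 0 ≤ z * Fintype.card V := by positivity
  rw [div_le_div_iff₀ (by linarith) (by positivity), mul_assoc (3 / 4)]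
  push_cast
  nlinarith

end Pool.Agent.MP_32a90a_pr.D

end
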