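import Pool.Agent.Mg.F32a90ap.G4fb964

section

set_option autoImplicit false
set_option linter.unusedSectionVars false

open Finset Equiv Filter Pool.Agent.MP_32a90a_pr Pool.Agent.MP_32a90a_pr.L

namespace Pool.Agent.MP_32a90a_pr.D.DescJ

section
variable {V E : Type} [Fintype V] [DecidableEq V] [Fintype E] [DecidableEq E]
  {w0 : E × Bool → V} {d : ℕ}

lemma abs_step {F F' M M' X Y : (E × Bool → V) → (E → Bool) → ℝ} {G : (E × Bool → V) → Prop}
    {η K δ e t : ℝ} (hd : Deg w0 d) (hF : ∀ w J, F w J ≤ 1) (hF' : ∀ w J, 0 ≤ F' w J)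
    (hM : ∀ w J, M w J ≤ 1) (hM' : ∀ w J, 0 ≤ M' w J) (hX : ∀ w J, 0 ≤ X w J)
    (hY : ∀ w J, 0 ≤ Y w J) (hK : 0 ≤ K) (hδ : 0 ≤ δ) (he : 0 < e) (ht : 0 < t)
    (h1 : |(ED w0 fun w J => ind (G w) * F w J) - ED w0 fun w J => ind (G w) * M w J| ≤ η)
    (h2 : |(ED w0 fun w J => ind (G w) * F' w J) - ED w0 fun w J => ind (G w) * M' w J| ≤ η)
    (H : ∀ w J, Deg w d → G w → X w J ≤ e → Y w J ≤ t → M w J ≤ K * M' w J + δ) :
    ED w0 F ≤ K * ED w0 F' +
      (PD w0 (fun w _ => ¬ G w) + η + K * η + δ + ED w0 X / e + ED w0 Y / t) := by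
  have a1 : ED w0 F ≤ (ED w0 fun w J => ind (G w) * F w J) + PD w0 fun w _ => ¬ G w := by
    rw [PD, ← ED_add]
    refine ED_mono fun w J => ?_
    by_cases h : G w
    · rw [ind_pos h, ind_neg (not_not.2 h)]; linarith
    · rw [ind_neg h, ind_pos h]; linarith [hF w J]
  have a2 : (ED w0 fun w J => ind (G w) * F' w J) ≤ ED w0 F' :=
    ED_mono fun w J => mul_le_of_le_one_left (hF' w J) (ind_le_one _)
  have a3 : (ED w0 fun w J => ind (G w) * M w J)
      ≤ K * (ED w0 fun w J => ind (G w) * M' w J) + δ + ED w0 X / e + ED w0 Y / t := by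
    rw [← ED_mul, ← ED_div, ← ED_div, ← ED_const (w0 := w0) δ, ← ED_add, ← ED_add, ← ED_add]
    refine ED_mono_deg hd fun w J hw => ?_
    have b1 := div_nonneg (hX w J) he.le
    have b2 := div_nonneg (hY w J) ht.le
    by_cases h : G w
    · rw [ind_pos h, one_mul, one_mul]
      have b3 := mul_nonneg hK (hM' w J)
      have b4 := hM w J
      by_cases hx : X w J ≤ e
      · by_cases hy : Y w J ≤ t
        · linarith [H w J hw h hx hy]
        · have := (one_le_div ht).2 (not_le.1 hy).le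
          linarith
      · have := (one_le_div he).2 (not_le.1 hx).le
        linarith
    · rw [ind_neg h, zero_mul, zero_mul, mul_zero]
      linarith
  have a4 := mul_le_mul_of_nonneg_left ((abs_le.1 h2).1.trans (sub_le_sub_right a2 _)) hK
  linarith [(abs_le.1 h1).2]

/-- probability of spin b and local field l at v -/
noncomputable def Fv (P : Pk V E) (b : Bool) (l : ℝ) (v : V) (w : E × Bool → V) (J : E → Bool) :
    ℝ := (P.full w J).P fun _ σ => ind (σ v = b ∧ loc (P.s J) w σ v = l)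

/-- the same after the vertex exchange -/
noncomputable def Fm (P : Pk V E) (b : Bool) (l : ℝ) (v : V)
    (pos : (E × Bool → V) → Fin d → E × Bool) (w : E × Bool → V) (J : E → Bool) : ℝ :=
  Fam (P.ins w J (pos w)) fun ω _ σ => ind (crd v σ = b ∧
    sgn (crd v σ) * hom (P.cavi w J v).sp (P.AAp (pos w)) ω σ = l)

variable {P : Pk V E}

lemma ok (h : P.Lg d) (W : Finset V) (s : E → ℝ) (w : E × Bool → V) : (P.sys W s w).cas.Ok :=
  (h.2.1 W s w).ok (le_trans (by norm_num) h.1)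

lemma Fv_nonneg (h : P.Lg d) (b : Bool) (l : ℝ) (v : V) (w : E × Bool → V) (J : E → Bool) :
    0 ≤ Fv P b l v w J := Cas.P_nonneg (ok h _ _ _) fun _ _ => ind_nonneg _

lemma Fv_le (h : P.Lg d) (b : Bool) (l : ℝ) (v : V) (w : E × Bool → V) (J : E → Bool) :
    Fv P b l v w J ≤ 1 := Cas.P_le_const (ok h _ _ _) fun _ _ => ind_le_one _

lemma Fm_nonneg (h : P.Lg d) (b : Bool) (l : ℝ) (v : V)
    (pos : (E × Bool → V) → Fin d → E × Bool) (w : E × Bool → V) (J : E → Bool) :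
    0 ≤ Fm P b l v pos w J :=
  avg_nonneg fun _ => mul_nonneg (ind_nonneg _) (Cas.P_nonneg (ok h _ _ _) fun _ _ => ind_nonneg _)

lemma Fm_le (h : P.Lg d) (b : Bool) (l : ℝ) (v : V)
    (pos : (E × Bool → V) → Fin d → E × Bool) (w : E × Bool → V) (J : E → Bool) :
    Fm P b l v pos w J ≤ 1 :=
  avg_le_const zero_le_one fun _ => mul_le_one₀ (ind_le_one _)
    (Cas.P_nonneg (ok h _ _ _) fun _ _ => ind_nonneg _)
    (Cas.P_le_const (ok h _ _ _) fun _ _ => ind_le_one _)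

lemma exch [Nonempty V] (hVX : StVX) (hInsCav : StInsCav) (hd : Deg w0 d) (hO : P.Ok d)
    (h : P.Lg d) {v : V} {pos : (E × Bool → V) → Fin d → E × Bool} (hp : IsPos d v pos)
    (g1 : ∀ w, P.Gw d w v → Gd P.U w v)
    (g2 : ∀ w w', (∀ t, w t = v ↔ w' t = v) → P.Gw d w v → P.Gw d w' v) (b : Bool) (l : ℝ) :
    |(ED w0 fun w J => ind (P.Gw d w v) * Fv P b l v w J)
      - ED w0 fun w J => ind (P.Gw d w v) * Fm P b l v pos w J| ≤ sm 298 d := by
  have hd3 : 3 ≤ d := le_trans (by norm_num) h.1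
  have hc : 1 ≤ sm 300 d * Fintype.card (cav P.U) :=
    (h.2.1 univ (fun _ => 0) w0).2.2.2.2.2.2.2.2.2.2
  have hc0 : (0 : ℝ) < Fintype.card (cav P.U) := by
    rcases (Nat.cast_nonneg (α := ℝ) (Fintype.card (cav P.U))).eq_or_lt with e | e
    · rw [← e] at hc; linarith
    · exact e
  have hU : P.U.Nonempty := by
    obtain ⟨a⟩ := (h.2.1 univ (fun _ => 0) w0).nonempty
    exact ⟨a.1.1, mem_cav.1 a.2⟩
  have key := hVX V E w0 d P.U v pos (fun w => P.Gw d w v) (Fv P b l v) hd hp hU g1 g2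
    fun w J => abs_le.2 ⟨by linarith [Fv_nonneg h b l v w J], Fv_le h b l v w J⟩
  have e : (ED w0 fun w J => ind (P.Gw d w v) * Fm P b l v pos w J)
      = ED w0 fun w J => ind (P.Gw d w v) *
        avg fun ω : Fin d → (cav P.U) × Bool => ind (Function.Injective (uu ω)) *
          Fv P b l v (xv w (pos w) fun i => ((ω i).1 : E × Bool))
            (xj J (pos w) fun i => (ω i).2) := by
    refine ED_congr_deg hd fun w J hw => ?_
    by_cases hg : P.Gw d w v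
    · refine congrArg _ (avg_congr fun ω => ?_)
      by_cases hi : Function.Injective (uu ω)
      · refine congrArg _ (Cas.P_congr fun g σ => ?_)
        rw [((hInsCav V E d P w J v (pos w) hO h hw hg.1 (hp.1 w hw).1 (hp.1 w hw).2).2.2 ω
          hi).2.2.1 σ]
        rfl
      · rw [ind_neg hi, zero_mul, zero_mul]
    · rw [ind_neg hg, zero_mul, zero_mul]
  rw [e]
  refine key.trans ?_
  have b1 := mul_sm_le (a := d) 299 hd3 (by linarith)
  have b2 := mul_sm_le (a := d) 298 hd3 (by linarith)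
  norm_num at b1 b2
  rw [div_le_iff₀ hc0]
  have hd0 : (0 : ℝ) ≤ d := Nat.cast_nonneg d
  calc (d : ℝ) ^ 2 ≤ d ^ 2 * (sm 300 d * Fintype.card (cav P.U)) :=
        le_mul_of_one_le_right (by positivity) hc
    _ = d * (d * sm 300 d) * Fintype.card (cav P.U) := by ring
    _ ≤ sm 298 d * Fintype.card (cav P.U) :=
        mul_le_mul_of_nonneg_right ((mul_le_mul_of_nonneg_left b1 hd0).trans b2) hc0.le

lemma mean_Fv (b : Bool) (l : ℤ) : (avg fun v => ED w0 (Fv P b l v))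
    = P.EQ w0 fun w J _ σ => cnt (P.s J) w σ b l / Fintype.card V := by
  rw [← ED_avg]
  refine congrArg _ (funext fun w => funext fun J => ?_)
  unfold Fv
  rw [← Cas.P_avg]
  refine Cas.P_congr fun g σ => ?_
  classical
  unfold avg cnt
  rw [sum_ind]

lemma cnt_bd [Nonempty V] (s : E → ℝ) (w : E × Bool → V) (σ : V → Bool) (b : Bool) (l : ℤ) :
    0 ≤ cnt s w σ b l / Fintype.card V ∧ cnt s w σ b l / Fintype.card V ≤ 1 := by
  have hV : (0 : ℝ) < Fintype.card V := by exact_mod_cast Fintype.card_pos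
  refine ⟨div_nonneg (Nat.cast_nonneg _) hV.le, (div_le_one hV).2 ?_⟩
  unfold cnt
  exact_mod_cast card_le_univ _

lemma near_r [Nonempty V] (h : P.Lg d) {r : Bool → ℤ → ℝ} {ε : ℝ} (hε : ε < 1)
    (hq : qq d ^ 2 ≤ 1) (hT : (P.EQ w0 fun w J _ σ => ind (¬ Tp d r (P.s J) w σ)) ≤ ε) (b : Bool)
    {l : ℤ} (hl : |l| ≤ d) :
    |(avg fun v => ED w0 (Fv P b l v)) - r b l| ≤ qq d ^ 2 + 3 * ε := by
  have hr : |r b l| ≤ 2 := by
    by_contra hn
    have : (1 : ℝ) ≤ P.EQ w0 fun w J _ σ => ind (¬ Tp d r (P.s J) w σ) := by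
      refine const_le_ED fun w J => Cas.const_le_P (ok h _ _ _) fun g σ => (ind_pos ?_).ge
      intro ht
      have h1 := abs_le.1 (ht.2 b l hl)
      have h2 := cnt_bd (P.s J) w σ b l
      exact hn (abs_le.2 ⟨by linarith, by linarith⟩)
    linarith
  have pt : ∀ (w : E × Bool → V) (J : E → Bool) (σ : V → Bool), |cnt (P.s J) w σ b l / Fintype.card V - r b l|
      ≤ qq d ^ 2 + 3 * ind (¬ Tp d r (P.s J) w σ) := by
    intro w J σ
    by_cases ht : Tp d r (P.s J) w σ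
    · rw [ind_neg (not_not.2 ht)]
      linarith [ht.2 b l hl]
    · have h2 := cnt_bd (P.s J) w σ b l
      have h3 := abs_le.1 hr
      rw [ind_pos ht]
      exact abs_le.2 ⟨by nlinarith [sq_nonneg (qq d)], by nlinarith [sq_nonneg (qq d)]⟩
  have lin : ∀ a c : ℝ, (P.EQ w0 fun w J _ σ => a + c * ind (¬ Tp d r (P.s J) w σ))
      = a + c * P.EQ w0 fun w J _ σ => ind (¬ Tp d r (P.s J) w σ) := by
    intro a c
    unfold Pk.EQ
    rw [← ED_mul, ← ED_const (w0 := w0) a, ← ED_add, ED_const]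
    refine congrArg _ (funext fun w => funext fun J => ?_)
    exact (Cas.P_add _ _).trans (congrArg₂ _ (Cas.P_const (ok h _ _ _) a) (Cas.P_mul _ _))
  rw [mean_Fv, abs_le]
  constructor
  · have : (P.EQ w0 fun w J _ σ => (r b l - qq d ^ 2) + (-3) * ind (¬ Tp d r (P.s J) w σ))
        ≤ P.EQ w0 fun w J _ σ => cnt (P.s J) w σ b l / Fintype.card V :=
      ED_mono fun w J => Cas.P_mono (ok h _ _ _) fun g σ => by
        linarith [(abs_le.1 (pt w J σ)).1]
    rw [lin] at this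
    linarith
  · have : (P.EQ w0 fun w J _ σ => cnt (P.s J) w σ b l / Fintype.card V)
        ≤ P.EQ w0 fun w J _ σ => (r b l + qq d ^ 2) + 3 * ind (¬ Tp d r (P.s J) w σ) :=
      ED_mono fun w J => Cas.P_mono (ok h _ _ _) fun g σ => by
        linarith [(abs_le.1 (pt w J σ)).2]
    rw [lin] at this
    linarith

end

lemma dH_nonneg (hSer : StSer) {Sg G0 A : Type} [Fintype Sg] [Nonempty Sg] [Fintype G0]
    [Nonempty G0] [Fintype A] [DecidableEq A] {S : Sys Sg G0 A} {d : ℕ} (hd : 3 ≤ d)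
    (h : S.Par d) (hβ : 2 ≤ S.β) : 0 ≤ S.dH := by
  haveI := h.nonempty
  have := (hSer Sg _ A S.cas S.sp 1 (h.ok hd) hβ h.2.2.1 le_rfl).1
  unfold Sys.dH Sys.N
  simp only [Sys.cas_add]
  exact this

lemma ev_log : ∀ᶠ d : ℕ in atTop, 4000 * Real.log d ≤ d := by
  have h := (Real.isLittleO_log_id_atTop.comp_tendsto tendsto_natCast_atTop_atTop).bound
    (by norm_num : (0 : ℝ) < 1 / 4000)
  filter_upwards [h] with d hd
  simp only [Function.comp, id, Real.norm_eq_abs] at hd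
  rw [abs_of_nonneg (Real.log_natCast_nonneg d), abs_of_nonneg (Nat.cast_nonneg d)] at hd
  linarith

lemma Lam_le {d : ℕ} (hd : 1000 ≤ d) : Lam d ≤ Real.log d := by
  have hdR : (1000 : ℝ) ≤ d := by exact_mod_cast hd
  have h1 : Real.exp 1 ≤ Real.log d := by
    have e := Real.exp_one_lt_d9
    refine le_trans (by linarith : Real.exp 1 ≤ 3) ?_
    rw [Real.le_log_iff_exp_le (by linarith)]
    have : Real.exp 3 = Real.exp 1 ^ 3 := by rw [← Real.exp_nat_mul]; norm_num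
    rw [this]
    refine (pow_le_pow_left₀ (Real.exp_pos 1).le (by linarith : Real.exp 1 ≤ 3) 3).trans ?_
    linarith
  have h2 : 1 ≤ lll d := by
    rw [lll, Real.le_log_iff_exp_le ((Real.exp_pos 1).trans_le h1)]
    exact h1
  exact div_le_self (Real.log_natCast_nonneg d) (Real.one_le_sqrt.2 h2)

lemma fin_err {d : ℕ} {K ε e : ℝ} (hd : 1000 ≤ d) (hlog : 4000 * Real.log d ≤ d)
    (hK0 : 0 ≤ K) (hK : K ≤ Real.exp (2 * d)) (hq : qq d ≤ sm 300 d) (hε : ε ≤ sm 300 d)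
    (hεe : ε / e ≤ sm 300 d) :
    K * (qq d ^ 2 + 3 * ε) + (2 / (d : ℝ) ^ 10 + sm 298 d + K * sm 298 d + sm 10 d + ε / e
      + qq d / Real.exp (-((d : ℝ) ^ 2 / 8))) + (qq d ^ 2 + 3 * ε) ≤ 1 / (d : ℝ) ^ 8 := by
  have hd3 : 3 ≤ d := by omega
  have hdR : (1000 : ℝ) ≤ d := by exact_mod_cast hd
  have hd0 : (0 : ℝ) < d := by linarith
  have hl1 := one_le_log hd3
  have q0 : 0 < qq d := Real.exp_pos _
  have s1 : sm 300 d ≤ 1 := sm_le_one (by norm_num) d
  have a1 : qq d ^ 2 ≤ sm 300 d := by nlinarith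
  have a2 := mul_sm_le (a := 4) 299 hd3 (by linarith)
  have a3 := exp_mul_sm (c := 2) (by norm_num) 296 hd3
  have a4 := mul_sm_le (a := 7) 9 hd3 (by linarith)
  norm_num at a2 a3 a4
  have m1 : sm 299 d ≤ sm 298 d := sm_anti (by norm_num) d
  have m2 : sm 298 d ≤ sm 10 d := sm_anti (by norm_num) d
  have m3 : sm 296 d ≤ sm 10 d := sm_anti (by norm_num) d
  have m4 : sm 300 d ≤ sm 10 d := sm_anti (by norm_num) d
  have a5 : K * sm 298 d ≤ sm 10 d :=
    (mul_le_mul_of_nonneg_right hK (sm_pos _ _).le).trans (a3.trans m3)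
  have a6 : K * (qq d ^ 2 + 3 * ε) ≤ sm 10 d :=
    (mul_le_mul_of_nonneg_left (by linarith) hK0).trans a5
  have a7 : qq d / Real.exp (-((d : ℝ) ^ 2 / 8)) ≤ sm 10 d := by
    unfold qq sm
    rw [← Real.exp_sub]
    refine Real.exp_le_exp.2 ?_
    nlinarith [mul_le_mul_of_nonneg_left hlog hd0.le, dlog_nonneg d]
  have a8 : sm 9 d ≤ 1 / (d : ℝ) ^ 9 := by
    have : 1 / (d : ℝ) ^ 9 = Real.exp (-((9 : ℕ) * Real.log d)) := by
      rw [Real.exp_neg, Real.exp_nat_mul, Real.exp_log hd0, one_div]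
    rw [this]
    refine Real.exp_le_exp.2 ?_
    push_cast
    nlinarith
  have a9 : 1 / (d : ℝ) ^ 9 + 2 / (d : ℝ) ^ 10 ≤ 1 / (d : ℝ) ^ 8 := by
    rw [div_add_div _ _ (by positivity) (by positivity), div_le_div_iff₀ (by positivity)
      (by positivity)]
    have : (d : ℝ) ^ 17 * (d + 2) ≤ d ^ 17 * d ^ 2 :=
      mul_le_mul_of_nonneg_left (by nlinarith) (by positivity)
    nlinarith
  linarith

end Pool.Agent.MP_32a90a_pr.D.DescJ

namespace Pool.Agent.MP_32a90a_pr.D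

open DescJ

theorem stDesc (hPar : StPar) (hVX : StVX) (hPos : StPos) (hInsCav : StInsCav)
    (hSymCav : StSymCav) (hVT1 : StVT1) (hRigD : StRigD) (hD1 : StD1) (hGwP : StGwP)
    (_hHK : StHK) (hSer : StSer) : StDesc := by
  filter_upwards [hPar, hVT1, hGwP, ev_log, eventually_ge_atTop 1000] with d hPar hVT1 hGwP hlog hd
  obtain ⟨e, he, hRig⟩ := hRigD d
  have hd3 : 3 ≤ d := by omega
  have hdR : (1000 : ℝ) ≤ d := by exact_mod_cast hd
  have s0 := sm_pos 300 d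
  have s1 : sm 300 d ≤ 1 / 2 :=
    (sm_le_inv (by norm_num) hd3).trans (one_div_le_one_div_of_le (by norm_num) (by linarith))
  refine ⟨sm 300 d * min e 1, mul_pos s0 (lt_min he one_pos), (hPar.and hGwP).mono ?_⟩
  intro V E _ _ _ _ w0 hw0 hh P r c' cp hE hlam b l hl
  obtain ⟨ε, hε⟩ : ∃ ε, ε = sm 300 d * min e 1 := ⟨_, rfl⟩
  rw [← hε] at hE
  have hε1 : ε ≤ sm 300 d := hε ▸ mul_le_of_le_one_right s0.le (min_le_right _ _)
  have hε2 : ε / e ≤ sm 300 d := by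
    rw [div_le_iff₀ he, hε]
    exact mul_le_mul_of_nonneg_left (min_le_left _ _) s0.le
  obtain ⟨⟨hO, hG⟩, hB, hβ, hy, hT, -, hH⟩ := hE
  have hL := hh.1 P hO
  obtain ⟨g0, -, g1, -, g2, -⟩ := hh.2 P hO
  haveI : Nonempty E := ⟨P.e⟩
  haveI : Nonempty V := ⟨w0 (P.e, true)⟩
  have hq : qq d ≤ sm 300 d := hL.2.2.2.2.2.2.1
  have q0 : 0 < qq d := Real.exp_pos _
  have hq2 : qq d ^ 2 ≤ 1 := by nlinarith
  have hβ2 : (d : ℝ) ^ 2 ≤ P.β := by
    rw [hβ, qq, ← Real.exp_nat_mul, one_div, ← Real.exp_neg]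
    refine le_trans ?_ (Real.add_one_le_exp _)
    push_cast
    linarith
  have hLam := Lam_le hd
  have hlR : 20 * (l : ℝ) ≤ d := by exact_mod_cast hl
  have hl2 : |2 * (l : ℤ)| ≤ d := by rw [abs_of_nonneg (by positivity)]; omega
  have hl0 : |(0 : ℤ)| ≤ d := by simp
  have main : ∀ (b' : Bool) (l' : ℤ) (K : ℝ), |l'| ≤ d → 0 ≤ K → K ≤ Real.exp (2 * d) →
      (∀ v pos w J, IsPos d v pos → Deg w d → P.Gw d w v →
        ((P.full w J).P fun g σ => ind (¬ (P.full w J).Good c' cp (qq d) g σ)) ≤ e →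
        (P.cavi w J v).dH ≤ Real.exp (-((d : ℝ) ^ 2 / 8)) →
        Fm P b ((2 * (l : ℤ) : ℤ) : ℝ) v pos w J ≤ K * Fm P b' l' v pos w J + sm 10 d) →
      r b (2 * l) ≤ K * r b' l' + 1 / (d : ℝ) ^ 8 := by
    intro b' l' K hl' hK0 hK H
    have st : ∀ v, ED w0 (Fv P b ((2 * (l : ℤ) : ℤ) : ℝ) v) ≤ K * ED w0 (Fv P b' l' v) +
        (PD w0 (fun w _ => ¬ P.Gw d w v) + sm 298 d + K * sm 298 d + sm 10 d + ε / e
          + (ED w0 fun w J => ind (P.Gv w v) * (P.cavi w J v).dH)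
            / Real.exp (-((d : ℝ) ^ 2 / 8))) := by
      intro v
      obtain ⟨pos, hp⟩ := hPos V E d v
      refine (abs_step (G := fun w => P.Gw d w v) (t := Real.exp (-((d : ℝ) ^ 2 / 8)))
        (X := fun w J => (P.full w J).P fun g σ => ind (¬ (P.full w J).Good c' cp (qq d) g σ))
        (Y := fun w J => ind (P.Gv w v) * (P.cavi w J v).dH) hw0 (Fv_le hL _ _ _)
        (Fv_nonneg hL _ _ _) (Fm_le hL _ _ _ pos) (Fm_nonneg hL _ _ _ pos)
        (fun w J => Cas.P_nonneg (ok hL _ _ _) fun _ _ => ind_nonneg _)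
        (fun w J => mul_nonneg (ind_nonneg _) (dH_nonneg hSer hd3 (hL.2.1 _ _ _) ?_)) hK0
        (sm_pos 10 d).le he (Real.exp_pos _)
        (exch hVX hInsCav hw0 hO hL hp (fun w => g1 w v) (g2 v) _ _)
        (exch hVX hInsCav hw0 hO hL hp (fun w => g1 w v) (g2 v) _ _)
        fun w J hw hg hx hY => H v pos w J hp hw hg hx ?_).trans ?_
      · change 2 ≤ P.β
        nlinarith
      · rwa [ind_pos hg.1, one_mul] at hY
      · have := div_le_div_of_nonneg_right hG he.le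
        exact add_le_add le_rfl (add_le_add (add_le_add le_rfl this) le_rfl)
    have s2 := avg_mono st
    simp only [avg_add, avg_mul, avg_const, avg_div] at s2
    have n1 := abs_le.1 (near_r hL (by linarith) hq2 hT b hl2)
    have n2 := abs_le.1 (near_r hL (by linarith) hq2 hT b' hl')
    have n3 := div_le_div_of_nonneg_right hH (Real.exp_pos (-((d : ℝ) ^ 2 / 8))).le
    have n4 := mul_le_mul_of_nonneg_left n2.2 hK0
    have n5 := fin_err hd hlog hK0 hK hq hε1 hε2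
    linarith [n1.1]
  have vt : ∀ v pos w J, IsPos d v pos → Deg w d → P.Gw d w v →
      ((P.full w J).P fun g σ => ind (¬ (P.full w J).Good c' cp (qq d) g σ)) ≤ e →
      (P.cavi w J v).dH ≤ Real.exp (-((d : ℝ) ^ 2 / 8)) →
      Fm P b (2 * l) v pos w J
          ≤ Real.exp (100 * (d * (1 - c') + 1)) * Fm P (!b) (2 * l) v pos w J + sm 10 d ∧
        Fm P b (2 * l) v pos w J
          ≤ Real.exp (100 * (d * (1 - c') + 1) + 4 * P.y * l) * Fm P true 0 v pos w J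
            + sm 10 d := by
    intro v pos w J hp hw hg hx hY
    obtain ⟨i1, i2, -⟩ := hInsCav V E d P w J v (pos w) hO hL hw hg.1 (hp.1 w hw).1 (hp.1 w hw).2
    rw [hB] at i1
    have hS : (P.cavi w J v).Par d := hL.2.1 _ _ _
    refine hVT1 _ _ _ (P.cavi w J v) _ _ _ (P.AAp (pos w)) (P.ins w J (pos w)) b l hS
      (hD1 _ _ _ _ d c' cp hd hS ((hRig V E P w J c' cp hO hL hw hx).2.2 v))
      (hSymCav V E P w J v (g1 w v hg)) i1 ?_ hy hβ2 hY (by linarith) hl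
    have c1 := hg.2
    rw [← i2] at c1
    have c2 : 64 * tau d * 10 ^ 7 ≤ 1 := hL.2.2.2.2.2.2.2.1
    have c3 : 0 ≤ tau d := Real.rpow_nonneg (Nat.cast_nonneg d) _
    have c4 : 8 * ((P.AAp (pos w)).card : ℝ) ≤ d := by nlinarith
    exact_mod_cast c4
  refine ⟨main (!b) (2 * l) _ hl2 (Real.exp_pos _).le (Real.exp_le_exp.2 (by linarith)) ?_,
    fun hyl => main true 0 _ hl0 (Real.exp_pos _).le (Real.exp_le_exp.2 ?_) ?_⟩
  · intro v pos w J hp hw hg hx hY
    push_cast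
    refine (vt v pos w J hp hw hg hx hY).1.trans (add_le_add (mul_le_mul_of_nonneg_right
      (Real.exp_le_exp.2 (by linarith)) (Fm_nonneg hL _ _ _ _ _ _)) le_rfl)
  · unfold ell at hyl
    linarith
  · intro v pos w J hp hw hg hx hY
    push_cast
    refine (vt v pos w J hp hw hg hx hY).2.trans (add_le_add (mul_le_mul_of_nonneg_right
      (Real.exp_le_exp.2 (by linarith)) (Fm_nonneg hL _ _ _ _ _ _)) le_rfl)

end Pool.Agent.MP_32a90a_pr.D

end

section

set_option autoImplicit false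

namespace Pool.Agent.MP_32a90a_pr.D

open Finset Equiv Filter Pool.Agent.MP_32a90a_pr Pool.Agent.MP_32a90a_pr.L

namespace GroupJ

/-- the arithmetic behind the bound for one class -/
lemma arith {d N Z y r l SB Df M lg W t : ℝ} (hd : 3 ≤ d) (hN : 0 < N) (hZ : N ≤ d * Z)
    (y0 : 0 ≤ y) (y1 : y ≤ 1) (hr : 1 ≤ r) (hl : 0 ≤ l)
    (h1 : y / 80 * r * (y * SB - Df / 2) ≤ 52 / 100 * d * (y / 80) ^ 2 * r * Z ^ 2 / N + M
      + lg * (r * Z) + 3 * N / d ^ 2 + t)
    (h2 : d / 8 * Z ^ 2 / N - 4 * l * Z - 5 * N / d ^ 2 ≤ SB) (h3 : Df ≤ Z)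
    (h4 : M ≤ W * (r * Z)) (h5 : t ≤ Z) :
    y ^ 2 * d * Z / N ≤ 700 * (y ^ 2 * l + 4 + lg + W) := by
  have d0 : 0 < d := by linarith
  have Z0 : 0 < Z := by
    by_contra h
    have := mul_nonpos_of_nonneg_of_nonpos d0.le (not_lt.1 h)
    linarith
  have rZ : 0 < r * Z := mul_pos (by linarith) Z0
  have ZrZ : Z ≤ r * Z := le_mul_of_one_le_left Z0.le hr
  have a1 : 3 * N / d ^ 2 ≤ Z := by
    rw [div_le_iff₀ (by positivity)]
    have := mul_le_mul_of_nonneg_right hd (mul_pos d0 Z0).le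
    nlinarith
  have a1' : 3 * (N / d ^ 2) ≤ Z := by rw [← mul_div_assoc]; exact a1
  have n0 : 0 ≤ N / d ^ 2 := by positivity
  have yy : y ^ 2 ≤ 1 := pow_le_one₀ y0 y1
  obtain ⟨X, hX⟩ : ∃ X, X = y ^ 2 * d * Z / N := ⟨_, rfl⟩
  have e1 : 52 / 100 * d * (y / 80) ^ 2 * r * Z ^ 2 / N = 52 / 640000 * (r * Z * X) := by
    rw [hX]; field_simp; ring
  have e2 : y ^ 2 * r / 80 * (d / 8 * Z ^ 2 / N - 4 * l * Z - 5 * N / d ^ 2)
      = 1 / 640 * (r * Z * X) - 1 / 20 * (r * Z * (y ^ 2 * l))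
        - 1 / 16 * (r * (y ^ 2 * (N / d ^ 2))) := by
    rw [hX]; field_simp; ring
  have a2 := mul_le_mul_of_nonneg_left h2 (show 0 ≤ y ^ 2 * r / 80 by positivity)
  have a3 : y ^ 2 * (N / d ^ 2) ≤ Z := by
    have := mul_le_mul_of_nonneg_right yy n0
    linarith
  have a4 := mul_le_mul_of_nonneg_left a3 (show 0 ≤ r by linarith)
  have a5 : y * r * Df ≤ r * Z := by
    have b1 := mul_le_mul_of_nonneg_left h3 (show 0 ≤ y * r by positivity)
    have b2 := mul_le_mul_of_nonneg_right y1 rZ.le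
    linarith
  have a6 : 0 ≤ r * Z * (y ^ 2 * l) := by positivity
  have X0 : 0 ≤ r * Z * X := by rw [hX]; positivity
  rw [e1] at h1
  rw [e2] at a2
  rw [← hX]
  refine le_of_mul_le_mul_left ?_ rZ
  linarith

variable {V E : Type} [Fintype V] [DecidableEq V] [Nonempty V] [Fintype E] [DecidableEq E]

/-- the admissible error -/
noncomputable def eG (d : ℕ) : ℝ := (Real.exp (-(2 * (6400 * (d : ℝ) ^ 6) + 1)) / (d : ℝ) ^ 2) ^ 2

lemma key (hTin : StTin) (hEM : StEM) {d r : ℕ} {C c e y κ κ2 W : ℝ} {TT : Finset (ℕ × ℝ × ℝ)}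
    {rr : Bool → ℤ → ℝ} {Z A : Finset E} {w : E × Bool → V} {J : E → Bool}
    {μ : (V → Bool) → ℝ} (B : Finset V) (hd : 3 ≤ d) (hR : Reg d C c e y TT rr Z A w J μ)
    (he : e ≤ eG d) (y0 : 0 ≤ y) (y1 : y ≤ 1) (ht : (r, κ, y / 80) ∈ TT) (hr : 1 ≤ r)
    (hr' : (r : ℝ) ≤ 6400 * (d : ℝ) ^ 6) (k0 : 0 < κ) (k1 : κ ≤ 1 / 2)
    (hB : ∀ v ∈ B, kt μ (crd v) ≤ κ2) (hθ : (y / 80) ^ 2 * r * κ2 ^ 2 ≤ 1) (W0 : 0 ≤ W)
    (hW : (2 * ell d + 2 * κ * r) * min (B.card : ℝ) (r * ∑ v ∈ B, kt μ (crd v))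
      ≤ W * (r * ∑ v ∈ B, kt μ (crd v))) :
    y ^ 2 * d * (∑ v ∈ B, kt μ (crd v)) / Fintype.card V
      ≤ 700 * (y ^ 2 * ell d + 4 + Real.log (2 / κ) + W) := by
  obtain ⟨hD, -, hT, h4, hμ, hc, -, hDf⟩ := hR
  have hd' : (3 : ℝ) ≤ d := by exact_mod_cast hd
  have d0 : (0 : ℝ) < d := by linarith
  have hN : (0 : ℝ) < Fintype.card V := by exact_mod_cast Fintype.card_pos
  have l0 : 0 ≤ ell d := zero_le_one.trans (one_le_log hd)
  have lg0 : 0 ≤ Real.log (2 / κ) := Real.log_nonneg (by rw [le_div_iff₀ k0]; linarith)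
  rcases le_or_gt (Fintype.card V : ℝ) (d * ∑ v ∈ B, kt μ (crd v)) with hZ | hZ
  · have h1 := hTin V E d r Z A w J μ B y κ κ2 (y / 80) e hd (h4 _ ht) hμ hc k0 k1
      (by positivity) (by linarith) hB hθ
    have h2 := hEM V E d Z A w μ B hT.2.2.1 hμ
    have hE : (Fintype.card E : ℝ) ≤ d * Fintype.card V := by
      have := hD.card_pre univ
      simp only [mem_univ, filter_true, card_univ, Fintype.card_prod, Fintype.card_bool] at this
      have h : Fintype.card E ≤ d * Fintype.card V := by omega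
      exact_mod_cast h
    have Z0 : 0 ≤ ∑ v ∈ B, kt μ (crd v) := sum_nonneg fun v _ => hμ.kt_nonneg _
    refine arith hd' hN hZ y0 y1 (by exact_mod_cast hr) l0 h1 h2 ?_ hW ?_
    · have s1 := mul_sm_le (a := d) 99 hd (by linarith)
      have s2 := mul_sm_le (a := d) 98 hd (by linarith)
      norm_num at s1 s2
      have s3 := sm_le_one (k := 98) (by norm_num) d
      have s0 := sm_pos 100 d
      have s4 : d * (d * sm 100 d) ≤ 1 :=
        (mul_le_mul_of_nonneg_left s1 d0.le).trans (s2.trans s3)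
      have b1 := mul_le_mul_of_nonneg_left hE s0.le
      have b2 := mul_le_mul_of_nonneg_left hZ (mul_pos d0 s0).le
      have b3 := mul_le_mul_of_nonneg_right s4 Z0
      linarith
    · have q1 : Real.sqrt e ≤ Real.exp (-(2 * (6400 * (d : ℝ) ^ 6) + 1)) / (d : ℝ) ^ 2 :=
        Real.sqrt_le_iff.2 ⟨by positivity, he⟩
      have q2 : Real.exp (2 * r + 1) ≤ Real.exp (2 * (6400 * (d : ℝ) ^ 6) + 1) :=
        Real.exp_le_exp.2 (by linarith)
      have q3 := mul_le_mul q2 q1 (Real.sqrt_nonneg _) (Real.exp_pos _).le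
      rw [← mul_div_assoc, ← Real.exp_add, add_neg_cancel, Real.exp_zero] at q3
      have q4 := mul_le_mul_of_nonneg_left q3 (mul_pos d0 hN).le
      have q5 : d * (Fintype.card V : ℝ) * (1 / (d : ℝ) ^ 2) ≤ ∑ v ∈ B, kt μ (crd v) := by
        rw [mul_one_div, div_le_iff₀ (by positivity)]
        have := mul_le_mul_of_nonneg_left hZ d0.le
        linarith
      linarith
  · have h1 : y ^ 2 * d * (∑ v ∈ B, kt μ (crd v)) / Fintype.card V ≤ 1 := by
      rw [div_le_one hN, mul_assoc]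
      have h2 := mul_le_mul_of_nonneg_left hZ.le (sq_nonneg y)
      have h3 := mul_le_mul_of_nonneg_right (pow_le_one₀ (n := 2) y0 y1) hN.le
      linarith
    have h2 : 0 ≤ y ^ 2 * ell d := by positivity
    linarith

lemma kG_pos (g : ℕ) : 0 < kG g := by unfold kG; positivity

lemma kG_zero : kG 0 = 1 / 2 := by unfold kG; norm_num

lemma kG_succ (g : ℕ) : kG (g + 1) = kG g ^ 2 := by
  unfold kG; rw [pow_succ, pow_mul, div_pow, one_pow]

lemma kG_le (g : ℕ) : kG g ≤ 1 / 2 := by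
  induction g with
  | zero => exact kG_zero.le
  | succ g ih => rw [kG_succ]; nlinarith [kG_pos g]

lemma log_kG (g : ℕ) : Real.log (1 / kG g) = 2 ^ g * Real.log 2 := by
  unfold kG; rw [one_div_one_div, Real.log_pow]; push_cast; rfl

lemma kG_small {κ : ℝ} (h : 0 < κ) : ∃ g, kG g < κ := by
  obtain ⟨n, hn⟩ := exists_pow_lt_of_lt_one h (show (1 / 2 : ℝ) < 1 by norm_num)
  refine ⟨n, lt_of_le_of_lt ?_ hn⟩
  unfold kG
  rw [← one_div_pow]
  exact pow_le_pow_of_le_one (by norm_num) (by norm_num) Nat.lt_two_pow_self.le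

open Classical in
/-- the bound for one group -/
lemma group (hTin : StTin) (hEM : StEM) {d g : ℕ} {C c e y : ℝ}
    {rr : Bool → ℤ → ℝ} {Z A : Finset E} {w : E × Bool → V} {J : E → Bool}
    {μ : (V → Bool) → ℝ} (hd : 3 ≤ d) (hR : Reg d C c e y (TG d y) rr Z A w J μ)
    (he : e ≤ eG d) (y0 : 1 / (d : ℝ) ≤ y) (y1 : y ≤ 1) (hg : g < d)
    (hk : 1 / (d : ℝ) ^ 2 ≤ kG g) :
    y ^ 2 * d * (∑ v ∈ univ.filter (fun v => kG g ^ 2 < kt μ (crd v) ∧ kt μ (crd v) ≤ kG g),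
        kt μ (crd v)) / Fintype.card V ≤ 700 * (2 * (y ^ 2 * ell d) + 7 + 2 ^ (g + 1)) := by
  have hμ : Prob μ := hR.2.2.2.2.1
  have hd' : (3 : ℝ) ≤ d := by exact_mod_cast hd
  have d0 : (0 : ℝ) < d := by linarith
  have yp : 0 < y := lt_of_lt_of_le (by positivity) y0
  have k0 := kG_pos g
  have k1 := kG_le g
  have l0 : 0 ≤ ell d := zero_le_one.trans (one_le_log hd)
  have yk : 0 < (y * kG g) ^ 2 := by positivity
  have yk1 : (y * kG g) ^ 2 ≤ 1 :=
    pow_le_one₀ (by positivity) (mul_le_one₀ y1 k0.le (by linarith))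
  have x1 : 1 ≤ 6400 / (y * kG g) ^ 2 := by rw [le_div_iff₀ yk]; linarith
  set r := ⌊6400 / (y * kG g) ^ 2⌋₊ with hr
  have r1 : 1 ≤ r := Nat.le_floor (by exact_mod_cast x1)
  have r1' : (1 : ℝ) ≤ r := by exact_mod_cast r1
  have r2 : (r : ℝ) ≤ 6400 / (y * kG g) ^ 2 := Nat.floor_le (by linarith)
  have r3 : 6400 / (y * kG g) ^ 2 < r + 1 := Nat.lt_floor_add_one _
  rw [le_div_iff₀ yk] at r2
  rw [div_lt_iff₀ yk] at r3
  have r4 : 3200 ≤ r * (y * kG g) ^ 2 := by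
    have := mul_le_mul_of_nonneg_right r1' yk.le
    linarith
  have r5 : (r : ℝ) ≤ 6400 * (d : ℝ) ^ 6 := by
    have h1 : 1 / (d : ℝ) * (1 / (d : ℝ) ^ 2) ≤ y * kG g :=
      mul_le_mul y0 hk (by positivity) yp.le
    have h2 := pow_le_pow_left₀ (by positivity) h1 2
    have h3 := mul_le_mul_of_nonneg_left h2 (show (0 : ℝ) ≤ r by positivity)
    have e1 : (r : ℝ) * (1 / (d : ℝ) * (1 / (d : ℝ) ^ 2)) ^ 2 = r / (d : ℝ) ^ 6 := by
      field_simp
    rw [e1] at h3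
    rw [← div_le_iff₀ (by positivity)]
    linarith
  set B := univ.filter fun v => kG g ^ 2 < kt μ (crd v) ∧ kt μ (crd v) ≤ kG g with hB
  have Z0 : 0 ≤ ∑ v ∈ B, kt μ (crd v) := sum_nonneg fun v _ => hμ.kt_nonneg _
  have b1 : (B.card : ℝ) * kG g ^ 2 ≤ ∑ v ∈ B, kt μ (crd v) := by
    have := card_nsmul_le_sum B (fun v => kt μ (crd v)) (kG g ^ 2)
      fun v hv => (mem_filter.1 hv).2.1.le
    rwa [nsmul_eq_mul] at this
  have h := key hTin hEM (r := r) (κ := kG g ^ 2) (κ2 := kG g) (W := y ^ 2 * ell d + 2) B hd hR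
    he yp.le y1 (mem_insert_of_mem (mem_image.2 ⟨g, mem_range.2 hg, rfl⟩)) r1 r5
    (by positivity) (by nlinarith) (fun v hv => (mem_filter.1 hv).2.2) (by linarith)
    (by positivity) ?_
  · have e1 : Real.log (2 / kG g ^ 2) = Real.log 2 + 2 ^ (g + 1) * Real.log 2 := by
      rw [← kG_succ, ← log_kG, ← Real.log_mul (by norm_num) (by have := kG_pos (g + 1); positivity),
        mul_one_div]
    have e2 : Real.log 2 ≤ 1 := by linarith [Real.log_two_lt_d9]
    have e3 := mul_le_mul_of_nonneg_left e2 (show (0 : ℝ) ≤ 2 ^ (g + 1) by positivity)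
    rw [e1] at h
    linarith
  · refine (mul_le_mul_of_nonneg_left (min_le_left _ _) (by positivity)).trans ?_
    have c0 : (0 : ℝ) ≤ B.card := Nat.cast_nonneg _
    have b2 := mul_le_mul_of_nonneg_left b1
      (show 0 ≤ (y ^ 2 * ell d + 2) * r by positivity)
    have b3 := mul_le_mul_of_nonneg_left r4 (mul_nonneg l0 c0)
    have b4 := mul_nonneg l0 c0
    linarith

open Classical in
/-- summation over the groups -/
lemma groups (hTin : StTin) (hEM : StEM) {d : ℕ} {C c e y : ℝ}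
    {rr : Bool → ℤ → ℝ} {Z A : Finset E} {w : E × Bool → V} {J : E → Bool}
    {μ : (V → Bool) → ℝ} (hd : 3 ≤ d) (hR : Reg d C c e y (TG d y) rr Z A w J μ)
    (he : e ≤ eG d) (y0 : 1 / (d : ℝ) ≤ y) (y1 : y ≤ 1) (n : ℕ)
    (hn : ∀ g < n, g < d ∧ 1 / (d : ℝ) ^ 2 ≤ kG g) :
    y ^ 2 * d * (∑ v ∈ univ.filter (fun v => kG n < kt μ (crd v)), kt μ (crd v)) / Fintype.card V
      ≤ 700 * (n * (2 * (y ^ 2 * ell d) + 7) + 2 ^ (n + 1)) := by
  have hμ : Prob μ := hR.2.2.2.2.1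
  induction n with
  | zero =>
    rw [filter_false_of_mem fun v _ => by rw [kG_zero]; exact not_lt.2 (kt_le_half _)]
    norm_num
  | succ n ih =>
    have h1 := ih fun g hg => hn g (by omega)
    have h2 := group hTin hEM hd hR he y0 y1 (hn n (by omega)).1 (hn n (by omega)).2
    have h3 : ∑ v ∈ univ.filter (fun v => kG (n + 1) < kt μ (crd v)), kt μ (crd v)
        ≤ ∑ v ∈ univ.filter (fun v => kG n < kt μ (crd v)), kt μ (crd v)
          + ∑ v ∈ univ.filter (fun v => kG n ^ 2 < kt μ (crd v) ∧ kt μ (crd v) ≤ kG n),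
            kt μ (crd v) := by
      simp only [sum_filter, ← sum_add_distrib, kG_succ]
      refine sum_le_sum fun v _ => ?_
      have := hμ.kt_nonneg (crd v)
      by_cases a1 : kG n < kt μ (crd v)
      · rw [if_pos a1]
        split_ifs <;> linarith
      · rw [if_neg a1]
        by_cases a2 : kG n ^ 2 < kt μ (crd v)
        · rw [if_pos a2, if_pos ⟨a2, not_lt.1 a1⟩, zero_add]
        · rw [if_neg a2, if_neg fun h => a2 h.1, zero_add]
    have h4 := div_le_div_of_nonneg_right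
      (mul_le_mul_of_nonneg_left h3 (show 0 ≤ y ^ 2 * d by positivity))
      (show (0 : ℝ) ≤ Fintype.card V by positivity)
    rw [mul_add, add_div] at h4
    rw [pow_succ (2 : ℝ) (n + 1)]
    push_cast
    linarith

end GroupJ

open GroupJ in
theorem stGroup (hTin : StTin) (hEM : StEM) : StGroup := by
  classical
  refine ⟨25000, by norm_num, ?_⟩
  have hl : ∀ᶠ d : ℕ in atTop, 1 ≤ lll d :=
    (Real.tendsto_log_atTop.comp (Real.tendsto_log_atTop.comp
      tendsto_natCast_atTop_atTop)).eventually_ge_atTop 1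
  filter_upwards [hl, eventually_ge_atTop 12] with d hl hd
  have hd3 : 3 ≤ d := by omega
  have hd' : (12 : ℝ) ≤ d := by exact_mod_cast hd
  have d0 : (0 : ℝ) < d := by linarith
  have l1 : 1 ≤ ell d := one_le_log hd3
  have lg1 := Real.log_two_lt_d9
  have lg2 := Real.log_two_gt_d9
  refine ⟨eG d, by unfold eG; positivity, fun V E _ _ _ _ _ C c e y r Z A w J μ hR he y0 y1 => ?_⟩
  have hμ : Prob μ := hR.2.2.2.2.1
  have yp : 0 < y := lt_of_lt_of_le (by positivity) y0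
  have y1' : y ≤ 1 := by linarith
  have yl : y ^ 2 * ell d ≤ ell d :=
    mul_le_of_le_one_left (by linarith) (pow_le_one₀ yp.le y1')
  refine ⟨?_, fun κ0 k0 k1 => ?_⟩
  · have Z0 : 0 ≤ ∑ v, kt μ (crd v) := sum_nonneg fun v _ => hμ.kt_nonneg _
    have h := key hTin hEM (r := 1) (κ := 1 / 2) (κ2 := 1 / 2) (W := 2 * ell d + 1) univ hd3 hR
      he yp.le y1' (mem_insert_self _ _) le_rfl
      (by have := one_le_pow₀ (n := 6) (show (1 : ℝ) ≤ d by linarith); push_cast; linarith)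
      (by norm_num) le_rfl (fun v _ => kt_le_half _) (by push_cast; nlinarith) (by linarith)
      (by
        refine mul_le_mul (by push_cast; linarith) (min_le_right _ _) (le_min (by positivity) ?_)
          (by linarith)
        positivity)
    have e1 : Real.log (2 / (1 / 2)) = 2 * Real.log 2 := by
      rw [show (2 / (1 / 2) : ℝ) = 2 ^ 2 by norm_num, Real.log_pow]; norm_num
    rw [e1, mul_div_assoc] at h
    change y ^ 2 * d * ((∑ v, kt μ (crd v)) / Fintype.card V) ≤ _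
    linarith
  · have kp : 0 < κ0 := lt_of_lt_of_le (by positivity) k0
    have hex := kG_small kp
    have hM := Nat.find_spec hex
    have hmin : ∀ g < Nat.find hex, κ0 ≤ kG g := fun g hg => not_lt.1 (Nat.find_min hex hg)
    obtain ⟨m, hm⟩ : ∃ m, Nat.find hex = m + 1 := by
      refine Nat.exists_eq_succ_of_ne_zero fun h => ?_
      rw [h, kG_zero] at hM
      linarith
    rw [hm] at hM hmin
    have a1 : 2 ^ m * Real.log 2 ≤ Real.log (1 / κ0) := by
      rw [← log_kG]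
      have := kG_pos m
      exact Real.log_le_log (by positivity) (one_div_le_one_div_of_le kp (hmin m (by omega)))
    have a2 : Real.log (1 / κ0) ≤ 2 * ell d := by
      have h1 : 1 / κ0 ≤ (d : ℝ) ^ 2 := by
        rw [div_le_iff₀ kp]
        rw [div_le_iff₀ (by positivity)] at k0
        linarith
      refine (Real.log_le_log (by positivity) h1).trans_eq ?_
      rw [Real.log_pow]; norm_num [ell]
    have p0 : (0 : ℝ) < 2 ^ m := by positivity
    have a3 := mul_le_mul_of_nonneg_left lg2.le p0.le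
    have a4 : (2 : ℝ) ^ m ≤ 3 * ell d := by linarith
    have a5 : ell d ≤ d / 4 + 1 := by
      have h1 := Real.log_le_sub_one_of_pos (show (0 : ℝ) < d / 2 ^ 2 by positivity)
      rw [Real.log_div d0.ne' (by norm_num), Real.log_pow] at h1
      push_cast at h1
      unfold ell
      linarith
    have a6 : m < d := by
      have h1 : (m : ℝ) < 2 ^ m := by exact_mod_cast Nat.lt_two_pow_self
      have h2 : (m : ℝ) < d := by linarith
      exact_mod_cast h2
    have a7 : (m : ℝ) ≤ 2 * lll d + 2 := by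
      have h1 : Real.log (2 ^ m) ≤ Real.log (2 ^ 2 * ell d) := Real.log_le_log p0 (by linarith)
      rw [Real.log_mul (by norm_num) (by linarith), Real.log_pow, Real.log_pow] at h1
      push_cast at h1
      change _ ≤ _ + lll d at h1
      rcases le_or_gt (m : ℝ) 2 with h | h
      · linarith
      · have := mul_le_mul_of_nonneg_left lg2.le (sub_pos.2 h).le
        linarith
    have h := groups hTin hEM hd3 hR he y0 y1' (m + 1) fun g hg =>
      ⟨by omega, k0.trans (hmin g hg)⟩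
    have h3 : ∑ v ∈ univ.filter (fun v => κ0 ≤ kt μ (crd v)), kt μ (crd v)
        ≤ ∑ v ∈ univ.filter (fun v => kG (m + 1) < kt μ (crd v)), kt μ (crd v) :=
      sum_le_sum_of_subset_of_nonneg
        (fun v hv => mem_filter.2 ⟨mem_univ _, hM.trans_le (mem_filter.1 hv).2⟩)
        fun v _ _ => hμ.kt_nonneg _
    refine (div_le_div_of_nonneg_right
      (mul_le_mul_of_nonneg_left h3 (show 0 ≤ y ^ 2 * d by positivity))
      (show (0 : ℝ) ≤ Fintype.card V by positivity)).trans (h.trans ?_)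
    have u0 : 0 ≤ y ^ 2 * ell d := by positivity
    have u1 := mul_le_mul_of_nonneg_right (show (m : ℝ) + 1 ≤ 5 * lll d by linarith)
      (show 0 ≤ 2 * (y ^ 2 * ell d) + 7 by positivity)
    have u2 : 0 ≤ y ^ 2 * ell d * lll d := by positivity
    rw [pow_succ (2 : ℝ), pow_succ (2 : ℝ)]
    push_cast
    linarith

end Pool.Agent.MP_32a90a_pr.D

end

section

set_option autoImplicit false

namespace Pool.Agent.MP_32a90a_pr.D

open Finset Equiv Filter Pool.Agent.MP_32a90a_pr Pool.Agent.MP_32a90a_pr.L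

namespace SoftJ

section
variable {V E : Type} [Fintype V] [DecidableEq V] [Fintype E] [DecidableEq E]

omit [DecidableEq E] in
lemma le_mx (s : E → ℝ) (w : E × Bool → V) (σ : V → Bool) : HH s 0 w σ ≤ mxH univ s 0 w :=
  le_ciSup (f := fun σ : (univ : Finset (V → Bool)) => HH s 0 w σ)
    (Set.finite_range _).bddAbove ⟨σ, mem_univ σ⟩

omit [Fintype E] in
lemma cp_cases (Z A : Finset E) (J : E → Bool) (i : E) :
    cp Z A ∅ J i = 0 ∨ cp Z A ∅ J i = 1 ∨ cp Z A ∅ J i = -1 := by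
  unfold cp
  split_ifs
  · simp
  · simp
  · simp
  · exact Or.inr (sgn_cases _)

omit [Fintype V] [DecidableEq E] in
lemma neg_le_loc {d : ℕ} {w : E × Bool → V} (hd : Deg w d) {s : E → ℝ}
    (hs : ∀ i, s i = 0 ∨ s i = 1 ∨ s i = -1) (σ : V → Bool) (v : V) : -(d : ℝ) ≤ loc s w σ v := by
  have h : ∀ i, -1 ≤ sl s w σ i := fun i => by
    unfold sl Y1
    rcases hs i with h | h | h <;> rcases sgn_cases (σ (w (i, false))) with a | a <;>
      rcases sgn_cases (σ (w (i, true))) with b | b <;> rw [h, a, b] <;> norm_num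
  have := card_nsmul_le_sum (univ.filter fun p : E × Bool => w p = v) (fun p => sl s w σ p.1) (-1)
    (fun p _ => h p.1)
  rw [hd v] at this
  simpa [loc] using this

lemma flp_dif (σ σ' : V → Bool) : flp σ (dif σ σ') = σ' := by
  funext v
  simp only [flp, dif, mem_filter, mem_univ, true_and]
  cases σ v <;> cases σ' v <;> simp

omit [DecidableEq V] in
lemma card_dif (σ σ' : V → Bool) : ((dif σ σ').card : ℝ) = ∑ v, ind (σ v ≠ σ' v) := by
  rw [sum_ind]; rfl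

/-- the deterministic bound for two near-optimal configurations -/
lemma det (hFlip : StFlip) (hNEG : StNEG) {d : ℕ} {w : E × Bool → V} (hd : Deg w d) {s : E → ℝ}
    (hs : ∀ i, s i = 0 ∨ s i = 1 ∨ s i = -1) {σ σ' : V → Bool} {a L : ℝ}
    (h : mxH univ s 0 w - a ≤ HH s 0 w σ) (h' : mxH univ s 0 w - a ≤ HH s 0 w σ') :
    L * ∑ v, ind (σ v ≠ σ' v ∧ L < loc s w σ v) ≤
      eS s w σ (dif σ σ') (dif σ σ') + a / 2 + d * ((d + 1) * a + (badV w).card) := by
  classical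
  have h1 := hFlip V E s 0 w σ (dif σ σ')
  rw [flp_dif] at h1
  have h2 := le_mx s w σ
  have h3 := hNEG V E w d s σ a hd hs h
  rw [← sum_ind] at h3
  have h4 : ∑ v ∈ dif σ σ', loc s w σ v = ∑ v, ind (σ v ≠ σ' v) * loc s w σ v := by
    rw [dif, sum_filter]
    exact sum_congr rfl fun v _ => by by_cases hv : σ v ≠ σ' v <;> simp [ind, hv]
  have h5 : ∑ v, (L * ind (σ v ≠ σ' v ∧ L < loc s w σ v) - d * ind (loc s w σ v < 0)) ≤
      ∑ v, ind (σ v ≠ σ' v) * loc s w σ v := sum_le_sum fun v _ => by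
    have := neg_le_loc hd hs σ v
    have d0 : (0 : ℝ) ≤ d := Nat.cast_nonneg d
    have i0 := mul_nonneg d0 (ind_nonneg (loc s w σ v < 0))
    rw [ind_and]
    by_cases a1 : σ v ≠ σ' v
    · rw [ind_pos a1]
      by_cases a2 : L < loc s w σ v
      · rw [ind_pos a2]; linarith
      · rw [ind_neg a2]
        by_cases a3 : loc s w σ v < 0
        · rw [ind_pos a3]; linarith
        · linarith [not_lt.1 a3]
    · rw [ind_neg a1]; linarith
  rw [sum_sub_distrib, ← mul_sum, ← mul_sum] at h5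
  have := mul_le_mul_of_nonneg_left h3 (Nat.cast_nonneg d : (0 : ℝ) ≤ d)
  linarith

end

section
variable {Sg : Type} [Fintype Sg] {μ : Sg → ℝ}

lemma E2_mono (h : Prob μ) {f g : Sg → Sg → ℝ} (hfg : ∀ σ σ', f σ σ' ≤ g σ σ') :
    E2 μ μ f ≤ E2 μ μ g := Ex_mono h.1 fun σ => Ex_mono h.1 fun σ' => hfg σ σ'

lemma E2_avg {α : Type} [Fintype α] (f : α → Sg → Sg → ℝ) :
    E2 μ μ (fun σ σ' => avg fun a => f a σ σ') = avg fun a => E2 μ μ (f a) := by
  unfold E2
  rw [← Ex_avg]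
  exact Ex_congr fun σ => Ex_avg _

lemma E2_lin (h : Prob μ) (a b c k : ℝ) (f g : Sg → Sg → ℝ) (u : Sg → ℝ) :
    E2 μ μ (fun σ σ' => a * f σ σ' + b * g σ σ' + c + k * (u σ + u σ')) =
      a * E2 μ μ f + b * E2 μ μ g + c + k * (Ex μ u + Ex μ u) := by
  simp only [E2, Ex_add, Ex_mul, h.Ex_const]

lemma E2_sub (f g k : Sg → Sg → ℝ) :
    E2 μ μ (fun σ σ' => f σ σ' - g σ σ' - k σ σ') = E2 μ μ f - E2 μ μ g - E2 μ μ k := by
  simp only [E2, Ex_sub]

end

lemma theta {d : ℕ} {z l : ℝ} (hd : 1 ≤ d) (hl : 1 ≤ l) (z0 : 0 < z) (z1 : z ≤ 1 / 2) :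
    ∃ θ : ℝ, 0 < θ ∧ 1 / 2 ^ d ≤ θ ∧ θ ≤ 1 ∧
      6 * d * θ * z ^ 2 + 18 * z * l / θ ≤ 24 * z * (Real.sqrt (d * z * l) + l) := by
  have d1 : (1 : ℝ) ≤ d := by exact_mod_cast hd
  have p : 0 < d * z * l := by positivity
  have S0 := Real.sqrt_pos.2 p
  have S2 := Real.mul_self_sqrt p.le
  generalize Real.sqrt (d * z * l) = S at S0 S2
  have h2 : (d : ℝ) ≤ 2 ^ d := by exact_mod_cast (Nat.lt_two_pow_self).le
  rcases le_total S l with h | h
  · refine ⟨1, one_pos, by rw [div_le_one (by positivity)]; linarith, le_rfl, ?_⟩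
    have : d * z ≤ l := by
      by_contra hn
      nlinarith [not_le.1 hn]
    nlinarith [mul_pos z0 S0]
  · refine ⟨l / S, by positivity, ?_, (div_le_one S0).2 h, ?_⟩
    · have : S ≤ d * l := by
        by_contra hn
        have a := not_le.1 hn
        have b : d * z * l ≤ d * l := by nlinarith [mul_pos (show (0 : ℝ) < d by linarith) (show 0 < l by linarith)]
        have c : 1 ≤ d * l := by nlinarith
        nlinarith
      rw [div_le_div_iff₀ (by positivity) S0]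
      nlinarith
    · have e1 : 6 * d * (l / S) * z ^ 2 = 6 * z * S := by
        field_simp; linear_combination -S2
      have e2 : 18 * z * l / (l / S) = 18 * z * S := by field_simp
      rw [e1, e2]; nlinarith

lemma num {d : ℕ} (hd : 20 ≤ d) : (3 / 2 + 3 * d * (d + 1)) * qq d ^ 4 ≤ 1 / (4 * d) := by
  have d1 : (20 : ℝ) ≤ d := by exact_mod_cast hd
  have e : qq d ^ 4 = Real.exp (-((d : ℝ) ^ 2)) := by
    rw [qq, ← Real.exp_nat_mul]; congr 1; push_cast; ring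
  have h := Real.pow_div_factorial_le_exp ((d : ℝ) ^ 2) (by positivity) 3
  simp only [Nat.factorial] at h
  push_cast at h
  rw [e, Real.exp_neg, ← div_eq_mul_inv, div_le_div_iff₀ (Real.exp_pos _) (by positivity)]
  have a : (d : ℝ) ^ 3 * 8000 ≤ ((d : ℝ) ^ 2) ^ 3 := by
    have : (20 : ℝ) ^ 3 ≤ (d : ℝ) ^ 3 := by gcongr
    nlinarith [pow_pos (show (0 : ℝ) < d by linarith) 3]
  nlinarith [pow_pos (show (0 : ℝ) < d by linarith) 2]

lemma nums {d : ℕ} (hd : 20 ≤ d) {z e c : ℝ} (zd : 1 ≤ 2 * d * z) (e0 : 0 ≤ e)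
    (he : e ≤ 1 / (d : ℝ) ^ 10) (hc : c ≤ e) : Real.sqrt c ≤ z ^ 2 ∧ 6 / (d : ℝ) ^ 2 ≤ z ∧
    200 * (d * e) ≤ z ∧ (3 / 2 + 3 * d * (d + 1)) * qq d ^ 4 ≤ z / 2 := by
  have d1 : (20 : ℝ) ≤ d := by exact_mod_cast hd
  have d0 : (0 : ℝ) < d := by linarith
  refine ⟨?_, ?_, ?_, ?_⟩
  · have d5 : (1 / (d : ℝ) ^ 5) ^ 2 = 1 / (d : ℝ) ^ 10 := by field_simp
    refine (Real.sqrt_le_iff.2 ⟨by positivity, (hc.trans he).trans d5.ge⟩).trans ?_
    rw [div_le_iff₀ (by positivity)]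
    have : (20 : ℝ) ^ 3 ≤ (d : ℝ) ^ 3 := by gcongr
    have a : 1 ≤ (2 * d * z) ^ 2 := one_le_pow₀ zd
    nlinarith [mul_le_mul_of_nonneg_left this (sq_nonneg (d * z))]
  · rw [div_le_iff₀ (by positivity)]; nlinarith
  · have d9 : (20 : ℝ) ^ 8 ≤ (d : ℝ) ^ 8 := by gcongr
    rw [le_div_iff₀ (by positivity)] at he
    have a : d * e * (d * (d : ℝ) ^ 8) ≤ 1 := by linarith
    have b : d * e * (d * 20 ^ 8) ≤ 1 := le_trans (by gcongr) a
    refine le_of_mul_le_mul_left ?_ (show (0 : ℝ) < 2 * d by positivity)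
    have : 0 ≤ d * (d * e) := by positivity
    linarith
  · refine (num hd).trans ?_
    rw [div_le_iff₀ (by positivity)]; linarith

lemma fin {d : ℕ} (hd : 20 ≤ d) {z e c l θ S L F p g : ℝ} (zd : 1 ≤ 2 * d * z) (e0 : 0 ≤ e)
    (he : e ≤ 1 / (d : ℝ) ^ 10) (hc : c ≤ e) (l1 : 1 ≤ l) (t0 : 0 < θ)
    (t3 : 6 * d * θ * z ^ 2 + 18 * z * l / θ ≤ 24 * z * (S + l)) (S0 : 0 ≤ S)
    (hL : 1000 * (S + l) = L) (o2 : F ≤ z ^ 2 + Real.sqrt c) (hp : p ≤ e)
    (m1 : L * g ≤ 3 * d * θ * F + 2 / θ * (4 * l + 4) * z + (2 / θ * (6 / (d : ℝ) ^ 2) +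
      ((3 / 2 + 3 * d * (d + 1)) * qq d ^ 4 + d * e)) + L * (p + p)) : g ≤ z / 16 := by
  obtain ⟨n1, n2, n3, n4⟩ := nums hd zd e0 he hc
  have d1 : (20 : ℝ) ≤ d := by exact_mod_cast hd
  have n0 : 0 ≤ 6 / (d : ℝ) ^ 2 := by positivity
  have z0 : 0 ≤ z := n0.trans n2
  have L0 : 0 < L := by linarith
  have n5 : 200 * e ≤ z := by nlinarith
  have n6 := mul_le_mul_of_nonneg_left (show F ≤ 2 * z ^ 2 by linarith)
    (show 0 ≤ 3 * d * θ by positivity)
  have n7 : 2 / θ * (4 * l + 4) * z + 2 / θ * (6 / (d : ℝ) ^ 2) ≤ 18 * z * l / θ := by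
    have : (4 * l + 4) * z + 6 / (d : ℝ) ^ 2 ≤ 9 * z * l := by nlinarith
    have := mul_le_mul_of_nonneg_left this (show 0 ≤ 2 / θ by positivity)
    calc _ = 2 / θ * ((4 * l + 4) * z + 6 / (d : ℝ) ^ 2) := by ring
      _ ≤ _ := this
      _ = _ := by ring
  refine le_of_mul_le_mul_left ?_ L0
  have a := mul_le_mul_of_nonneg_left hp L0.le
  have b := mul_le_mul_of_nonneg_left n5 L0.le
  have c : z ≤ z * (S + l) := le_mul_of_one_le_right z0 (by linarith)
  have f : L * z = 1000 * (z * (S + l)) := by rw [← hL]; ring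
  generalize (3 / 2 + 3 * d * (d + 1)) * qq d ^ 4 = Q at m1 n4
  linarith

end SoftJ

open SoftJ in
theorem stSoft (hFlip : StFlip) (hNEG : StNEG) (hOver : StOver) : StSoft := by
  refine ⟨1000, by norm_num, ?_⟩
  filter_upwards [eventually_ge_atTop 20] with d hd
  intro V E _ _ _ _ _ C c e y TT r Z A w J μ hR he hz
  obtain ⟨hD, -, hT, -, hμ, hc, hp, -⟩ := hR
  obtain ⟨-, hG, -, -, -, hb, -⟩ := hT
  obtain ⟨o1, o2, -⟩ := hOver (V → Bool) V μ crd hμ
  have hs := cp_cases Z A J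
  have z1' : zz μ crd ≤ 1 / 2 := avg_le_const (by norm_num) fun v : V => kt_le_half _
  generalize cp Z A ∅ J = s at hG hp hs ⊢
  have d1 : (20 : ℝ) ≤ d := by exact_mod_cast hd
  have l1 : 1 ≤ ell d := one_le_log (by omega)
  have N0 : (0 : ℝ) < Fintype.card V := by exact_mod_cast Fintype.card_pos
  have zl : 1 / (2 * d) ≤ zz μ crd := by
    have : 1 ≤ ell d ^ (3 / 4 : ℝ) := Real.one_le_rpow l1 (by norm_num)
    refine le_trans ?_ hz
    rw [z1, div_div, mul_comm (d : ℝ)]; gcongr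
  have key : ∀ v, E2 μ μ (fun σ σ' => ind (σ v ≠ σ' v)) = kt μ (crd v) := fun v =>
    hμ.E2_ne (crd v)
  have hzz : zz μ crd = avg fun v => E2 μ μ fun σ σ' => ind (σ v ≠ σ' v) :=
    avg_congr fun v => (key v).symm
  generalize hL : Lz 1000 d (zz μ crd) = L
  generalize zz μ crd = z at *
  have z0 : 0 < z := lt_of_lt_of_le (by positivity) zl
  obtain ⟨θ, t0, t1, t2, t3⟩ := theta (d := d) (by omega) l1 z0 z1'
  rw [Lz] at hL
  have S0 := Real.sqrt_nonneg (d * z * ell d)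
  generalize Real.sqrt (d * z * ell d) = S at t3 hL S0
  have L0 : 0 < L := by linarith
  have e0 : 0 ≤ e := (Ex_nonneg hμ.1 fun _ => ind_nonneg _).trans hp
  have pw : ∀ σ σ' : V → Bool, L * (avg fun v => ind (σ v ≠ σ' v ∧ L < loc s w σ v)) ≤
      (3 * d * θ) * fr crd σ σ' ^ 2 + (2 / θ * (4 * ell d + 4)) * fr crd σ σ' +
        (2 / θ * (6 / (d : ℝ) ^ 2) + ((3 / 2 + 3 * d * (d + 1)) * qq d ^ 4 + d * e)) +
        L * (ind (¬ Tp d r s w σ) + ind (¬ Tp d r s w σ')) := by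
    intro σ σ'
    have f0 : 0 ≤ fr crd σ σ' := avg_nonneg fun _ => ind_nonneg _
    have q0 : 0 ≤ (3 * d * θ) * fr crd σ σ' ^ 2 + (2 / θ * (4 * ell d + 4)) * fr crd σ σ' +
        (2 / θ * (6 / (d : ℝ) ^ 2) + ((3 / 2 + 3 * d * (d + 1)) * qq d ^ 4 + d * e)) := by
      positivity
    have g1 : (avg fun v => ind (σ v ≠ σ' v ∧ L < loc s w σ v)) ≤ 1 :=
      avg_le_const zero_le_one fun _ => ind_le_one _
    by_cases a : Tp d r s w σ
    swap
    · rw [ind_pos a]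
      linarith [mul_nonneg L0.le (ind_nonneg (¬ Tp d r s w σ')), mul_le_mul_of_nonneg_left g1 L0.le]
    by_cases b : Tp d r s w σ'
    swap
    · rw [ind_pos b]
      linarith [mul_nonneg L0.le (ind_nonneg (¬ Tp d r s w σ)), mul_le_mul_of_nonneg_left g1 L0.le]
    rw [ind_neg (not_not.2 a), ind_neg (not_not.2 b)]
    have h1 := det (L := L) hFlip hNEG hD hs a.1 b.1
    have h2 := hG σ (dif σ σ') θ t1 t2
    have h3 : ((dif σ σ').card : ℝ) = fr crd σ σ' * Fintype.card V := by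
      rw [card_dif, fr, avg, div_mul_cancel₀ _ N0.ne']; rfl
    rw [h3] at h2
    have h4 := mul_le_mul_of_nonneg_left hb (Nat.cast_nonneg d : (0 : ℝ) ≤ d)
    rw [avg, ← mul_div_assoc, div_le_iff₀ N0]
    have e1 : 3 * d * θ * (fr crd σ σ' * Fintype.card V) ^ 2 / Fintype.card V =
        3 * d * θ * fr crd σ σ' ^ 2 * Fintype.card V := by field_simp
    have e2 : 6 * (Fintype.card V : ℝ) / (d : ℝ) ^ 2 = 6 / (d : ℝ) ^ 2 * Fintype.card V := by ring
    rw [e1, e2] at h2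
    linarith
  have m1 := E2_mono hμ pw
  rw [E2_lin hμ, o1] at m1
  have m2 : E2 μ μ (fun σ σ' => L * avg fun v => ind (σ v ≠ σ' v ∧ L < loc s w σ v)) =
      L * E2 μ μ fun σ σ' => avg fun v => ind (σ v ≠ σ' v ∧ L < loc s w σ v) := by
    simp only [E2, Ex_mul]
  rw [m2, E2_avg] at m1
  have zd : 1 ≤ 2 * d * z := by rwa [div_le_iff₀ (by positivity), mul_comm] at zl
  have m3 : (avg fun v => E2 μ μ fun σ σ' => ind (σ v ≠ σ' v ∧ L < loc s w σ v)) ≤ z / 16 :=
    fin hd zd e0 he hc l1 t0 t3 S0 hL o2 hp m1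
  have m4 : (avg fun v => E2 μ μ fun σ σ' => ind (σ v ≠ σ' v ∧ L < loc s w σ' v)) ≤ z / 16 := by
    refine le_of_eq_of_le (avg_congr fun v => ?_) m3
    unfold E2
    rw [Ex_comm]
    exact Ex_congr fun σ => Ex_congr fun σ' => ind_congr (by rw [ne_comm])
  have m5 : (avg fun v => E2 μ μ fun σ σ' => ind (σ v ≠ σ' v) -
      ind (σ v ≠ σ' v ∧ L < loc s w σ v) - ind (σ v ≠ σ' v ∧ L < loc s w σ' v)) ≤
      avg fun v => E2 μ μ fun σ σ' => ind (σ v ≠ σ' v ∧ loc s w σ v ≤ L ∧ loc s w σ' v ≤ L) :=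
    avg_mono fun v => E2_mono hμ fun σ σ' => by
      rw [← not_le, ← not_le]
      by_cases a1 : σ v ≠ σ' v <;> by_cases a2 : loc s w σ v ≤ L <;>
        by_cases a3 : loc s w σ' v ≤ L <;> simp [ind, a1, a2, a3]
  simp only [E2_sub, avg_sub] at m5
  linarith

end Pool.Agent.MP_32a90a_pr.D

end

section

set_option autoImplicit false

namespace Pool.Agent.MP_32a90a_pr.D

open Finset Equiv Filter Pool.Agent.MP_32a90a_pr Pool.Agent.MP_32a90a_pr.L

namespace TinJ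

lemma hyp {t : ℝ} (h0 : 0 ≤ t) (h1 : t ≤ 1) :
    Real.cosh t - 1 ≤ 6 / 10 * t ^ 2 ∧ |Real.sinh t| ≤ 13 / 10 := by
  have a := Real.exp_bound (x := t) (by rw [abs_of_nonneg h0]; exact h1) (n := 4) (by norm_num)
  have b := Real.exp_bound (x := -t) (by rw [abs_neg, abs_of_nonneg h0]; exact h1) (n := 4)
    (by norm_num)
  rw [abs_neg] at b
  rw [abs_of_nonneg h0, abs_le] at a b
  simp only [sum_range_succ, sum_range_zero, Nat.factorial] at a b
  norm_num at a b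
  have p2 : t ^ 2 ≤ t := by nlinarith
  have p3 : t ^ 3 ≤ t ^ 2 := by nlinarith [sq_nonneg t]
  have p4 : t ^ 4 ≤ t ^ 3 := by nlinarith [pow_nonneg h0 3]
  have e3 : (-t) ^ 3 = - t ^ 3 := by ring
  rw [e3] at b
  rw [abs_of_nonneg (Real.sinh_nonneg_iff.2 h0), Real.sinh_eq, Real.cosh_eq]
  constructor
  · nlinarith [a.2, b.2, sq_nonneg t]
  · linarith [a.2, b.1]

lemma exp_tri (c y : ℝ) (hy : y = 0 ∨ y = 1 ∨ y = -1) :
    Real.exp (c * y) = 1 + (Real.cosh c - 1) * y ^ 2 + Real.sinh c * y := by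
  rcases hy with rfl | rfl | rfl
  · simp
  · rw [mul_one, ← Real.cosh_add_sinh]; ring
  · rw [mul_neg, mul_one, ← Real.cosh_sub_sinh]; ring

lemma exp_two {t q a : ℝ} (t0 : 0 ≤ t) (t1 : t ≤ 6 / 10) (q0 : 0 ≤ q) (q1 : q ≤ 1) :
    Real.exp (t + q * a) - 1 ≤ 16 / 10 * t + q * Real.exp (a + 1) := by
  have h1 := Real.abs_exp_sub_one_sub_id_le (x := t) (by rw [abs_of_nonneg t0]; linarith)
  have h2 : Real.exp t ≤ 1 + 16 / 10 * t := by nlinarith [(abs_le.1 h1).2]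
  have h3 := convexOn_exp.2 (Set.mem_univ 0) (Set.mem_univ a) (sub_nonneg.2 q1) q0
    (sub_add_cancel 1 q)
  simp only [smul_eq_mul, mul_zero, zero_add, Real.exp_zero, mul_one] at h3
  have h4 : Real.exp t ≤ Real.exp 1 := Real.exp_le_exp.2 (by linarith)
  have h5 := mul_le_mul_of_nonneg_left h3 (Real.exp_pos t).le
  have h6 := mul_le_mul_of_nonneg_left h4 (mul_nonneg q0 (Real.exp_pos a).le)
  have h7 := mul_nonneg q0 (Real.exp_pos t).le
  rw [Real.exp_add, Real.exp_add]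
  nlinarith

section pw
variable {S : Type} [Fintype S] {ν : S → ℝ}

/-- product law of r samples -/
def pw (ν : S → ℝ) (r : ℕ) (τ : Fin r → S) : ℝ := ∏ k, ν (τ k)

lemma pw_prod {r : ℕ} (f : Fin r → S → ℝ) :
    (Ex (pw ν r) fun τ => ∏ k, f k (τ k)) = ∏ k, Ex ν (f k) := by
  simp only [Ex, pw, ← prod_mul_distrib]
  rw [prod_univ_sum, Fintype.piFinset_univ]

lemma pw_prob (h : Prob ν) (r : ℕ) : Prob (pw ν r) := by
  refine ⟨fun τ => prod_nonneg fun k _ => h.1 _, ?_⟩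
  have := pw_prod (ν := ν) (r := r) fun _ _ => 1
  simp only [h.Ex_const, prod_const_one] at this
  simpa [Ex] using this

lemma pw_sum (h : Prob ν) (r : ℕ) (g : S → ℝ) :
    (Ex (pw ν r) fun τ => ∑ k, g (τ k)) = r * Ex ν g := by
  have h1 : ∀ k : Fin r, (Ex (pw ν r) fun τ => g (τ k)) = Ex ν g := by
    intro k
    have := pw_prod (ν := ν) fun j s => if j = k then g s else 1
    rw [Fintype.prod_eq_single k fun j hj => by simp only [if_neg hj, h.Ex_const]] at this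
    simpa using this
  rw [Ex_sum]
  simp [h1]

lemma pw_cosh (h : Prob ν) (r : ℕ) {y : S → ℝ} (hy : ∀ s, y s = 0 ∨ y s = 1 ∨ y s = -1)
    {θ K q : ℝ} (θ0 : 0 ≤ θ) (θ1 : θ ≤ 1) (K0 : 0 ≤ K) (q0 : 0 ≤ q) (q1 : q ≤ 1)
    (hK : θ ^ 2 * r * K ≤ 1) (h1 : |Ex ν y| ≤ q) (h2 : (Ex ν fun s => y s ^ 2) ≤ K + q) :
    (Ex (pw ν r) fun τ => Real.cosh (θ * ∑ k, y (τ k)) - 1)
      ≤ θ ^ 2 * r * K + q * Real.exp (2 * r + 1) := by
  obtain ⟨a1, a2⟩ := hyp θ0 θ1
  have hθ : θ ^ 2 ≤ 1 := pow_le_one₀ θ0 θ1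
  have key : ∀ c : ℝ, Real.cosh c = Real.cosh θ → |Real.sinh c| ≤ 13 / 10 →
      (Ex (pw ν r) fun τ => Real.exp (c * ∑ k, y (τ k))) ≤
        1 + (θ ^ 2 * r * K + q * Real.exp (2 * r + 1)) := by
    intro c hc hs
    have b1 : (Ex ν fun s => Real.exp (c * y s)) ≤ Real.exp (6 / 10 * θ ^ 2 * K + 2 * q) := by
      simp only [exp_tri c _ (hy _), Ex_add, Ex_mul, h.Ex_const, hc]
      have c1 : Real.sinh c * Ex ν y ≤ 13 / 10 * q := by
        refine (le_abs_self _).trans ?_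
        rw [abs_mul]
        exact mul_le_mul hs h1 (abs_nonneg _) (by norm_num)
      have c2 := mul_le_mul a1 h2 (Ex_nonneg h.1 fun _ => sq_nonneg _) (by positivity)
      have c3 := Real.add_one_le_exp (6 / 10 * θ ^ 2 * K + 2 * q)
      have c4 := mul_le_mul_of_nonneg_right hθ q0
      have e : (Ex ν fun s => y s) = Ex ν y := rfl
      rw [e]
      nlinarith
    have b2 := exp_two (t := 6 / 10 * (θ ^ 2 * r * K)) (q := q) (a := 2 * r) (by positivity)
      (by linarith) q0 q1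
    have b3 : 0 ≤ θ ^ 2 * r * K := by positivity
    simp only [mul_sum, Real.exp_sum]
    rw [pw_prod fun _ s => Real.exp (c * y s), prod_const, card_univ, Fintype.card_fin]
    refine (pow_le_pow_left₀ (Ex_nonneg h.1 fun _ => (Real.exp_pos _).le) b1 r).trans ?_
    rw [← Real.exp_nat_mul, show (r : ℝ) * (6 / 10 * θ ^ 2 * K + 2 * q) =
      6 / 10 * (θ ^ 2 * r * K) + q * (2 * r) by ring]
    linarith
  have k1 := key θ rfl a2
  have k2 := key (-θ) (Real.cosh_neg θ) (by rwa [Real.sinh_neg, abs_neg])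
  have e : ∀ τ : Fin r → S, Real.cosh (θ * ∑ k, y (τ k)) - 1 =
      1 / 2 * (Real.exp (θ * ∑ k, y (τ k)) + Real.exp (-θ * ∑ k, y (τ k))) - 1 := fun τ => by
    rw [Real.cosh_eq, neg_mul]; ring
  simp only [e]
  rw [Ex_sub, Ex_mul, Ex_add, (pw_prob h r).Ex_const]
  linarith

end pw

section pair
variable {Sg : Type} [Fintype Sg] {μ : Sg → ℝ}

/-- law of a pair of samples -/
def nu (μ : Sg → ℝ) (p : Sg × Sg) : ℝ := μ p.1 * μ p.2

/-- half the difference of the two spins -/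
noncomputable def dx (φ : Sg → Bool) (p : Sg × Sg) : ℝ := (sgn (φ p.1) - sgn (φ p.2)) / 2

lemma Ex_nu (f g : Sg → ℝ) : (Ex (nu μ) fun p => f p.1 * g p.2) = Ex μ f * Ex μ g := by
  simp only [Ex, nu, Fintype.sum_prod_type, sum_mul_sum]
  exact sum_congr rfl fun _ _ => sum_congr rfl fun _ _ => by ring

lemma nu_prob (h : Prob μ) : Prob (nu μ) := by
  refine ⟨fun p => mul_nonneg (h.1 _) (h.1 _), ?_⟩
  have := Ex_nu (μ := μ) (fun _ => 1) fun _ => 1
  simp only [h.Ex_const] at this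
  simpa [Ex] using this

omit [Fintype Sg] in
lemma dx_tri (φ : Sg → Bool) (p : Sg × Sg) : dx φ p = 0 ∨ dx φ p = 1 ∨ dx φ p = -1 := by
  unfold dx
  cases φ p.1 <;> cases φ p.2 <;> norm_num [sgn]

lemma dx_one (h : Prob μ) (φ ψ : Sg → Bool) :
    (Ex (nu μ) fun p => dx φ p * dx ψ p) = cv μ φ ψ / 2 := by
  have e : ∀ p : Sg × Sg, dx φ p * dx ψ p = 1 / 4 * (sgn (φ p.1) * sgn (ψ p.1) * 1 -
      sgn (φ p.1) * sgn (ψ p.2) - sgn (ψ p.1) * sgn (φ p.2) +
      1 * (sgn (φ p.2) * sgn (ψ p.2))) := fun p => by unfold dx; ring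
  simp only [e]
  rw [Ex_mul, Ex_add, Ex_sub, Ex_sub, Ex_nu (fun s => sgn (φ s) * sgn (ψ s)) fun _ => 1,
    Ex_nu (fun s => sgn (φ s)) fun s => sgn (ψ s), Ex_nu (fun s => sgn (ψ s)) fun s => sgn (φ s),
    Ex_nu (fun _ => 1) fun s => sgn (φ s) * sgn (ψ s), h.Ex_const]
  unfold cv mm
  ring

lemma dx_sq (h : Prob μ) (φ : Sg → Bool) : (Ex (nu μ) fun p => dx φ p ^ 2) = kt μ φ := by
  have e : ∀ p : Sg × Sg, dx φ p ^ 2 = 1 / 2 * (1 - sgn (φ p.1) * sgn (φ p.2)) := fun p => by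
    unfold dx
    cases φ p.1 <;> cases φ p.2 <;> norm_num [sgn]
  simp only [e]
  rw [Ex_mul, Ex_sub, Ex_nu (fun s => sgn (φ s)) fun s => sgn (φ s), (nu_prob h).Ex_const]
  unfold kt mm
  ring

lemma cv_le (h : Prob μ) (φ ψ : Sg → Bool) :
    |cv μ φ ψ + mm μ φ * mm μ ψ| ≤ 1 ∧ |mm μ φ * mm μ ψ| ≤ 1 := by
  constructor
  · rw [cv, sub_add_cancel]
    exact (abs_Ex_le h.1 _).trans (h.Ex_le fun σ => by simp [abs_mul])
  · rw [abs_mul]
    exact mul_le_one₀ (h.abs_mm_le φ) (abs_nonneg _) (h.abs_mm_le ψ)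

lemma dx_two (h : Prob μ) (φ ψ : Sg → Bool) :
    (Ex (nu μ) fun p => (dx φ p * dx ψ p) ^ 2) ≤ kt μ φ * kt μ ψ + |cv μ φ ψ| / 2 := by
  have e : ∀ p : Sg × Sg, (dx φ p * dx ψ p) ^ 2 = 1 / 4 * (1 - sgn (φ p.1) * sgn (φ p.2) -
      sgn (ψ p.1) * sgn (ψ p.2) +
      sgn (φ p.1) * sgn (ψ p.1) * (sgn (φ p.2) * sgn (ψ p.2))) := fun p => by
    unfold dx
    cases φ p.1 <;> cases φ p.2 <;> cases ψ p.1 <;> cases ψ p.2 <;> norm_num [sgn]
  simp only [e]
  rw [Ex_mul, Ex_add, Ex_sub, Ex_sub, Ex_nu (fun s => sgn (φ s)) fun s => sgn (φ s),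
    Ex_nu (fun s => sgn (ψ s)) fun s => sgn (ψ s),
    Ex_nu (fun s => sgn (φ s) * sgn (ψ s)) fun s => sgn (φ s) * sgn (ψ s), (nu_prob h).Ex_const]
  obtain ⟨h1, h2⟩ := cv_le h φ ψ
  have h3 : cv μ φ ψ * (cv μ φ ψ + mm μ φ * mm μ ψ + mm μ φ * mm μ ψ) ≤ |cv μ φ ψ| * 2 := by
    refine (le_abs_self _).trans ?_
    rw [abs_mul]
    exact mul_le_mul_of_nonneg_left ((abs_add_le _ _).trans (by linarith)) (abs_nonneg _)
  have e1 : (Ex μ fun s => sgn (φ s) * sgn (ψ s)) = cv μ φ ψ + mm μ φ * mm μ ψ := by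
    rw [cv, sub_add_cancel]
  rw [e1]
  change 1 / 4 * (1 - mm μ φ * mm μ φ - mm μ ψ * mm μ ψ + _) ≤ _
  unfold kt
  nlinarith

end pair

variable {V : Type} [Fintype V] [DecidableEq V] {μ : (V → Bool) → ℝ} {B : Finset V}

/-- the difference field restricted to B -/
noncomputable def xi (B : Finset V) (v : V) (p : (V → Bool) × (V → Bool)) : ℝ :=
  if v ∈ B then dx (crd v) p else 0

/-- the width restricted to B -/
noncomputable def kb (μ : (V → Bool) → ℝ) (B : Finset V) (v : V) : ℝ :=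
  if v ∈ B then kt μ (crd v) else 0

omit [Fintype V] in
lemma xi_tri (v : V) (p : (V → Bool) × (V → Bool)) :
    xi B v p = 0 ∨ xi B v p = 1 ∨ xi B v p = -1 := by
  unfold xi
  split_ifs
  · exact dx_tri _ _
  · exact Or.inl rfl

lemma xi_one (h : Prob μ) (u v : V) : (Ex (nu μ) fun p => xi B u p * xi B v p) =
    if u ∈ B ∧ v ∈ B then cv μ (crd u) (crd v) / 2 else 0 := by
  by_cases hu : u ∈ B <;> by_cases hv : v ∈ B <;> simp [xi, hu, hv, dx_one h, Ex_zero]

lemma xi_sq (h : Prob μ) (v : V) : (Ex (nu μ) fun p => xi B v p ^ 2) = kb μ B v := by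
  by_cases hv : v ∈ B <;> simp [xi, kb, hv, dx_sq h, Ex_zero]

lemma xi_cosh (h : Prob μ) (r : ℕ) {θ κ2 : ℝ} (θ0 : 0 ≤ θ) (θ1 : θ ≤ 1)
    (hB : ∀ v ∈ B, kt μ (crd v) ≤ κ2) (hK : θ ^ 2 * r * κ2 ^ 2 ≤ 1) (u v : V) :
    (Ex (pw (nu μ) r) fun τ => Real.cosh (θ * ∑ k, xi B u (τ k) * xi B v (τ k)) - 1)
      ≤ θ ^ 2 * r * (kb μ B u * kb μ B v) +
        |cv μ (crd u) (crd v)| / 2 * Real.exp (2 * r + 1) := by
  by_cases huv : u ∈ B ∧ v ∈ B
  · obtain ⟨hu, hv⟩ := huv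
    obtain ⟨h1, h2⟩ := cv_le h (crd u) (crd v)
    have h3 := abs_sub (cv μ (crd u) (crd v) + mm μ (crd u) * mm μ (crd v))
      (mm μ (crd u) * mm μ (crd v))
    rw [add_sub_cancel_right] at h3
    have h4 : kt μ (crd u) * kt μ (crd v) ≤ κ2 ^ 2 := by
      rw [sq]
      exact mul_le_mul (hB u hu) (hB v hv) (h.kt_nonneg _) ((h.kt_nonneg _).trans (hB u hu))
    simp only [xi, kb, if_pos hu, if_pos hv]
    refine pw_cosh (nu_prob h) r (y := fun p => dx (crd u) p * dx (crd v) p) (fun p => ?_) θ0 θ1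
      (mul_nonneg (h.kt_nonneg _) (h.kt_nonneg _)) (by positivity) (by linarith)
      ((mul_le_mul_of_nonneg_left h4 (by positivity)).trans hK) ?_ (dx_two h _ _)
    · rcases dx_tri (crd u) p with a | a | a <;> rcases dx_tri (crd v) p with b | b | b <;>
        simp [a, b]
    · rw [dx_one h, abs_div, abs_two]
  · have h1 : ∀ p, xi B u p * xi B v p = 0 := fun p => by
      by_cases hu : u ∈ B <;> by_cases hv : v ∈ B <;> simp_all [xi]
    have h2 : kb μ B u * kb μ B v = 0 := by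
      by_cases hu : u ∈ B <;> by_cases hv : v ∈ B <;> simp_all [kb]
    simp only [h1, h2, sum_const_zero, mul_zero, Real.cosh_zero, sub_self, Ex_zero, zero_add]
    positivity

open Classical in
lemma counts {r : ℕ} (ξ : V → Fin r → ℝ) (h : ∀ v k, ξ v k = 0 ∨ ξ v k = 1 ∨ ξ v k = -1) :
    ((univ.filter fun p : V × Fin r => ξ p.1 p.2 ≠ 0).card : ℝ) = ∑ v, ∑ k, ξ v k ^ 2 ∧
      ((univ.filter fun v => ∃ k, ξ v k ≠ 0).card : ℝ) ≤ ∑ v, ∑ k, ξ v k ^ 2 := by
  have h1 : ((univ.filter fun p : V × Fin r => ξ p.1 p.2 ≠ 0).card : ℝ) = ∑ v, ∑ k, ξ v k ^ 2 := by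
    rw [card_filter, Nat.cast_sum, Fintype.sum_prod_type]
    refine sum_congr rfl fun v _ => sum_congr rfl fun k _ => ?_
    rcases h v k with a | a | a <;> simp [a]
  refine ⟨h1, ?_⟩
  rw [← h1, Nat.cast_le]
  refine le_trans (card_le_card fun v hv => ?_) (card_image_le (f := Prod.fst))
  obtain ⟨k, hk⟩ := (mem_filter.1 hv).2
  exact mem_image.2 ⟨(v, k), mem_filter.2 ⟨mem_univ _, hk⟩, rfl⟩

end TinJ

open TinJ Classical in
theorem stTin (hOver : StOver) : StTin := by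
  intro V E _ _ _ _ _ d r Z A w J μ B y κ κ2 θ e hd hG hμ hc κ0 κ1 θ0 θ1 hB hK
  have hν := nu_prob hμ
  have hP := pw_prob hν r
  have hN : (0 : ℝ) < Fintype.card V := by exact_mod_cast Fintype.card_pos
  have hkb : ∑ v, kb μ B v = ∑ v ∈ B, kt μ (crd v) := by
    simp only [kb, sum_ite_mem, univ_inter]
  have h0 := Ex_mono hP.1 fun τ => hG (fun v k => xi B v (τ k)) fun v k => xi_tri v _
  have hS : (Ex (pw (nu μ) r) fun τ => ∑ v, ∑ k, xi B v (τ k) ^ 2) =
      r * ∑ v ∈ B, kt μ (crd v) := by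
    rw [Ex_sum, ← hkb, mul_sum]
    exact sum_congr rfl fun v _ => by rw [pw_sum hν r fun p => xi B v p ^ 2, xi_sq hμ]
  have a1 : (Ex (pw (nu μ) r) fun τ => ((univ.filter fun v => ∃ k, xi B v (τ k) ≠ 0).card : ℝ))
      ≤ min (B.card : ℝ) (r * ∑ v ∈ B, kt μ (crd v)) := by
    refine le_min (hP.Ex_le fun τ => Nat.cast_le.2 (card_le_card fun v hv => ?_)) ?_
    · obtain ⟨k, hk⟩ := (mem_filter.1 hv).2
      by_contra hn
      exact hk (if_neg hn)
    · rw [← hS]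
      exact Ex_mono hP.1 fun τ => (counts (fun v k => xi B v (τ k)) fun v k => xi_tri v _).2
  have a2 : (Ex (pw (nu μ) r) fun τ =>
      ((univ.filter fun p : V × Fin r => xi B p.1 (τ p.2) ≠ 0).card : ℝ))
      = r * ∑ v ∈ B, kt μ (crd v) := by
    rw [← hS]
    exact Ex_congr fun τ => (counts (fun v k => xi B v (τ k)) fun v k => xi_tri v _).1
  have a3 : (Ex (pw (nu μ) r) fun τ =>
      ∑ u, ∑ v, (Real.cosh (θ * ∑ k, xi B u (τ k) * xi B v (τ k)) - 1)) ≤
      θ ^ 2 * r * (∑ v ∈ B, kt μ (crd v)) ^ 2 +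
        (Fintype.card V : ℝ) ^ 2 * Real.sqrt e * Real.exp (2 * r + 1) := by
    have b1 := ((hOver _ V μ crd hμ).2.2.2.1).trans (Real.sqrt_le_sqrt hc)
    simp only [avg, ← sum_div] at b1
    rw [div_div, div_le_iff₀ (by positivity)] at b1
    simp only [Ex_sum]
    refine (sum_le_sum fun u _ => sum_le_sum fun v _ => xi_cosh hμ r θ0 θ1 hB hK u v).trans ?_
    simp only [sum_add_distrib, ← mul_sum, ← sum_mul, ← sum_div, hkb]
    rw [← sq]
    refine add_le_add le_rfl (mul_le_mul_of_nonneg_right ?_ (Real.exp_pos _).le)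
    have b2 : 0 ≤ Real.sqrt e * (Fintype.card V * Fintype.card V) := by positivity
    nlinarith
  have a4 : r * (y * SB Z A w μ B - Df Z A y w J μ / 2) ≤ Ex (pw (nu μ) r) fun τ =>
      ∑ i ∈ univ.filter (fun i : E => i ∉ Z ∧ i ∉ A),
        sgn (J i) * ∑ k, xi B (w (i, false)) (τ k) * xi B (w (i, true)) (τ k) := by
    rw [Ex_sum, SB, Df, sum_filter, mul_sum, sum_div, ← sum_sub_distrib, mul_sum]
    refine sum_le_sum fun i _ => ?_
    rw [Ex_mul, pw_sum hν r fun p => xi B (w (i, false)) p * xi B (w (i, true)) p, xi_one hμ,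
      mul_left_comm]
    refine mul_le_mul_of_nonneg_left ?_ (Nat.cast_nonneg r)
    split_ifs
    · linarith [le_max_left (2 * y * kt μ (crd (w (i, false))) * kt μ (crd (w (i, true)))
        - sgn (J i) * cv μ (crd (w (i, false))) (crd (w (i, true)))) 0]
    · linarith [le_max_right (2 * y * kt μ (crd (w (i, false))) * kt μ (crd (w (i, true)))
        - sgn (J i) * cv μ (crd (w (i, false))) (crd (w (i, true)))) 0]
  rw [Ex_mul, Ex_add, Ex_add, Ex_add, Ex_mul, Ex_mul, Ex_mul, hP.Ex_const, a2] at h0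
  have c1 : 0 ≤ 2 * ell d + 2 * κ * r := by
    have := Real.log_natCast_nonneg d
    unfold ell
    positivity
  have c2 := mul_le_mul_of_nonneg_left a1 c1
  have c3 := mul_le_mul_of_nonneg_left a3
    (show (0 : ℝ) ≤ d / (2 * Fintype.card V) by positivity)
  have c4 := mul_le_mul_of_nonneg_left a4 θ0
  have c5 : (d : ℝ) / (2 * Fintype.card V) * (θ ^ 2 * r * (∑ v ∈ B, kt μ (crd v)) ^ 2 +
        (Fintype.card V : ℝ) ^ 2 * Real.sqrt e * Real.exp (2 * r + 1)) =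
      1 / 2 * (d * θ ^ 2 * r * (∑ v ∈ B, kt μ (crd v)) ^ 2 / Fintype.card V) +
        1 / 2 * (d * Fintype.card V * Real.exp (2 * r + 1) * Real.sqrt e) := by
    field_simp
  have c6 : 0 ≤ d * θ ^ 2 * r * (∑ v ∈ B, kt μ (crd v)) ^ 2 / Fintype.card V := by positivity
  have c7 : 0 ≤ d * Fintype.card V * Real.exp (2 * r + 1) * Real.sqrt e := by positivity
  have c8 : 52 / 100 * d * θ ^ 2 * r * (∑ v ∈ B, kt μ (crd v)) ^ 2 / Fintype.card V =
      52 / 100 * (d * θ ^ 2 * r * (∑ v ∈ B, kt μ (crd v)) ^ 2 / Fintype.card V) := by ring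
  rw [c8, mul_assoc θ]
  linarith

end Pool.Agent.MP_32a90a_pr.D

end
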