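import Pool.Agent.Mg.F32a90ap.G4fb964

section

set_option autoImplicit false

namespace Pool.Agent.MP_32a90a_pr.D

open Finset Equiv Filter Pool.Agent.MP_32a90a_pr Pool.Agent.MP_32a90a_pr.L

noncomputable section

/-- coordinates of the grid: one reward per spin and level, and the two gadget strengths -/
abbrev Co (d : ℕ) : Type := (Bool × Fin (2 * d + 1)) ⊕ Bool

/-- the level with index i -/
def lev (d : ℕ) (i : Fin (2 * d + 1)) : ℤ := (i.val : ℤ) - d

/-- rewards at a grid point -/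
def rwdT (d : ℕ) (θ : Co d → ℕ) (b : Bool) (h : ℝ) : ℝ :=
  ∑ i : Fin (2 * d + 1), ind (h = lev d i) * (qq d ^ 12 * θ (Sum.inl (b, i)))

/-- side of the grid -/
def MM (d : ℕ) : ℕ := ⌊1 / qq d ^ 4⌋₊

/-- a grid point as a vector of naturals -/
def up {d M : ℕ} (θ : Co d → Fin M) : Co d → ℕ := fun k => (θ k).val

/-- the chain of antiferromagnetic sets -/
def Ak {E : Type} [DecidableEq E] {m : ℕ} (A0 : Finset E) (e : Fin m → E) (k : ℕ) : Finset E :=
  A0 ∪ (univ.filter fun i : Fin m => i.val < k).image e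

section
variable {V E : Type} [Fintype V] [DecidableEq V] [Fintype E] [DecidableEq E]

/-- bounded differences in the disorder -/
def Lip (c : ℝ) (F : (E × Bool → V) → (E → Bool) → ℝ) : Prop :=
  (∀ w J a b, |F (w ∘ swap a b) J - F w J| ≤ c) ∧
    ∀ w J i b, |F w (Function.update J i b) - F w J| ≤ c

namespace Pk
variable (P : Pk V E)

/-- parameters at a grid point -/
abbrev grid (d : ℕ) (θ : Co d → ℕ) : Pk V E :=
  ⟨P.U, P.e, P.A, P.β, P.x, P.ρ, 1 + qq d ^ 12 * θ (Sum.inr true),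
    1 + qq d ^ 12 * θ (Sum.inr false), P.B, P.g, rwdT d θ, P.T⟩

/-- change of the power -/
abbrev setx (x : ℝ) : Pk V E :=
  ⟨P.U, P.e, P.A, P.β, x, P.ρ, P.tp, P.tm, P.B, P.g, P.rwd, P.T⟩

/-- change of the revealed set -/
abbrev setT (T : Finset V) : Pk V E :=
  ⟨P.U, P.e, P.A, P.β, P.x, P.ρ, P.tp, P.tm, P.B, P.g, P.rwd, T⟩

/-- change of the extra idle slot and of the antiferromagnetic set -/
abbrev setA (e : E) (A : Finset E) : Pk V E :=
  ⟨P.U, e, A, P.β, P.x, P.ρ, P.tp, P.tm, P.B, P.g, P.rwd, P.T⟩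

/-- mean logarithm of the total weight -/
def FN (w0 : E × Bool → V) : ℝ := ED w0 fun w J => Real.log (P.full w J).N

/-- the observable conjugate to a grid coordinate -/
def obs (d : ℕ) (c : Co d) (w : E × Bool → V) (J : E → Bool) (g : Gam (V → Bool) (cav P.U))
    (σ : V → Bool) : ℝ :=
  match c with
  | Sum.inl bi => cnt (P.s J) w σ bi.1 (lev d bi.2)
  | Sum.inr true => (P.full w J).Kp g σ
  | Sum.inr false => -(P.full w J).Km g σ

/-- bound for the observable -/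
def obsB (d : ℕ) (c : Co d) : ℝ :=
  match c with
  | Sum.inl _ => Fintype.card V
  | Sum.inr _ => Fintype.card (cav P.U)

/-- cavity system with idle set U only and antiferromagnetic set A' -/
def cavT (A' : Finset E) (w : E × Bool → V) (J : E → Bool) (v : V) :
    Sys (V → Bool) (V → Bool) (cav P.U) :=
  P.sys (univ.erase v) (cavS (cp P.U A' ∅ J) w v) w

/-- its logarithmic weight -/
def XT (A' : Finset E) (w : E × Bool → V) (J : E → Bool) (v : V) : ℝ :=
  Real.log (P.cavT A' w J v).N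

/-- mean edge gain in the cavity systems -/
def mH (w0 : E × Bool → V) : ℝ :=
  avg fun v => ED w0 fun w J => ind (P.Gv w v) * (P.cavi w J v).dH

/-- the level counts are close to r -/
def RC (d : ℕ) (w0 : E × Bool → V) (r : Bool → ℤ → ℝ) (ε : ℝ) : Prop :=
  (P.EQ w0 fun w J _ σ => ind (¬ ∀ (b : Bool) (l : ℤ), |l| ≤ d →
    |cnt (P.s J) w σ b l / Fintype.card V - r b l| ≤ qq d ^ 2)) ≤ ε

/-- mean fraction of soft spins -/
def soft (w0 : E × Bool → V) (L : ℝ) : ℝ :=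
  P.EQ w0 fun w J _ σ => avg fun v => ind (loc (P.s J) w σ v ≤ L)

/-- mean thermal width of the children -/
def mK (w0 : E × Bool → V) : ℝ :=
  P.EQ w0 fun w J g _ => avg fun v => kt ((P.full w J).nu g) (crd v)

/-- mean magnetisation -/
def mM (w0 : E × Bool → V) : ℝ := P.EQ w0 fun _ _ _ σ => avg fun v => sgn (σ v)

end Pk
end

/-- near optimality at inverse temperature one -/
def NOW (C1 : ℝ) : Prop :=
  ∀ᶠ d : ℕ in atTop, ∀ ε : ℝ, 0 < ε → Big d fun V E _ _ _ _ w0 =>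
    ∀ P : Pk V E, P.Ok d → P.β = 1 →
      (P.EQ w0 fun w J _ σ => ind (¬ mxH univ (P.s J) P.B w
        - C1 * ell d ^ 3 / d * Fintype.card V ≤ HH (P.s J) P.B w σ)) ≤ ε

/-- one grid step adds the conjugate observable -/
def StObs : Prop := AllG fun V E _ _ _ _ _ =>
  ∀ (d : ℕ) (P : Pk V E) (θ : Co d → ℕ) (c : Co d) (w : E × Bool → V) (J : E → Bool),
    ((P.grid d (Function.update θ c (θ c + 1))).full w J).cas
      = ((P.grid d θ).full w J).cas.add (fun g σ => qq d ^ 12 * P.obs d c w J g σ) ∧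
    (1 ≤ θ c → ((P.grid d (Function.update θ c (θ c - 1))).full w J).cas
      = ((P.grid d θ).full w J).cas.add (fun g σ => -(qq d ^ 12 * P.obs d c w J g σ))) ∧
    ∀ g σ, |P.obs d c w J g σ| ≤ P.obsB d c

/-- grid points are admissible -/
def StOkG : Prop := AllG fun V E _ _ _ _ _ =>
  ∀ (d : ℕ) (P : Pk V E), 3 ≤ d → P.Ok d →
    (∀ θ : Co d → ℕ, (∀ c, θ c ≤ MM d + 1) → (P.grid d θ).Ok d) ∧
    (∀ (θ : Co d → ℕ) W s w, ((P.grid d θ).sys W s w).cas.Ok) ∧
    (∀ W s w, (P.sys W s w).cas.Ok) ∧ 0 < P.y ∧ qq d ^ 5 ≤ P.y ∧ qq d ≤ 1 / 9 ∧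
    1 / qq d ^ 4 ≤ (MM d : ℝ) + 1

/-- the scales of the scan -/
def StJm : Prop := ∀ᶠ d : ℕ in atTop, qq d ≤ 1 / (d : ℝ) ∧ 100 * (d + 1) * qq d ≤ 1 ∧
  ∃ Jm : ℕ, Jm ≤ d ∧ yj d Jm ^ 2 * d ≤ 1 ∧ ∀ j ≤ Jm, 1 / (d : ℝ) ≤ yj d j ∧ yj d j ≤ 1 / 10 ^ 11

/-- bounded differences of the logarithmic weight -/
def StLipN : Prop := AllG fun V E _ _ _ _ _ =>
  ∀ (d : ℕ) (P : Pk V E), 3 ≤ d → P.Ok d →
    Lip (20 * P.y) fun w J => Real.log (P.full w J).N

/-- upper tail of an observable from one tilt -/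
def StGrif : Prop := AllG fun V E _ _ _ _ _ =>
  ∀ [Nonempty E] (Sg Gm : Type) [Fintype Sg] [Nonempty Sg] [Fintype Gm] (w0 : E × Bool → V)
    (C : (E × Bool → V) → (E → Bool) → Cas Sg Gm)
    (D : (E × Bool → V) → (E → Bool) → Gm → Sg → ℝ) (y c t : ℝ), 0 < c → 0 ≤ t →
    (∀ w J, (C w J).Ok ∧ (C w J).y = y) → Lip c (fun w J => Real.log (C w J).N) →
    Lip c (fun w J => Real.log ((C w J).add (D w J)).N) →
    (ED w0 fun w J => (C w J).P fun g σ =>
        ind ((ED w0 fun w J => Real.log ((C w J).add (D w J)).N)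
          - (ED w0 fun w J => Real.log (C w J).N) + t ≤ y * D w J g σ))
      ≤ Real.exp (-(t / 2)) + 8 * Real.exp (-(t ^ 2 / (1024 * c ^ 2 * Fintype.card E)))

/-- few grid points have a large second difference -/
def StGridF : Prop := AllG fun V E _ _ _ _ _ =>
  ∀ (d : ℕ) (P : Pk V E) (w0 : E × Bool → V) (c : Co d) (κ : ℝ), 3 ≤ d → P.Ok d → 0 < κ →
    (avg fun θ : Co d → Fin (MM d + 1) => ind (up θ c = 0 ∨
        κ < (P.grid d (Function.update (up θ) c (up θ c + 1))).FN w0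
          + (P.grid d (Function.update (up θ) c (up θ c - 1))).FN w0
          - 2 * (P.grid d (up θ)).FN w0))
      ≤ (1 + 2 * (P.y * (qq d ^ 12 * P.obsB d c)) / κ) * qq d ^ 4

/-- both tails of the conjugate observable at a grid point -/
def StDev : Prop := AllG fun V E _ _ _ _ _ =>
  ∀ [Nonempty E] (d : ℕ) (P : Pk V E) (w0 : E × Bool → V) (θ : Co d → ℕ) (c : Co d) (t : ℝ),
    3 ≤ d → P.Ok d → (∀ k, θ k ≤ MM d) → 1 ≤ θ c → 0 ≤ t →
    ((P.grid d θ).EQ w0 fun w J g σ =>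
        ind ((P.grid d (Function.update θ c (θ c + 1))).FN w0 - (P.grid d θ).FN w0 + t
          ≤ P.y * (qq d ^ 12 * P.obs d c w J g σ)))
      ≤ Real.exp (-(t / 2)) + 8 * Real.exp (-(t ^ 2 / (409600 * P.y ^ 2 * Fintype.card E))) ∧
    ((P.grid d θ).EQ w0 fun w J g σ =>
        ind (P.y * (qq d ^ 12 * P.obs d c w J g σ)
          ≤ (P.grid d θ).FN w0 - (P.grid d (Function.update θ c (θ c - 1))).FN w0 - t))
      ≤ Real.exp (-(t / 2)) + 8 * Real.exp (-(t ^ 2 / (409600 * P.y ^ 2 * Fintype.card E)))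

/-- the deviation bound is small for large systems -/
def StDevN : Prop := ∀ (d : ℕ) (ε : ℝ), 3 ≤ d → 0 < ε → Big d fun V E _ _ _ _ _ =>
  Nonempty V ∧ Nonempty E ∧ 1 ≤ qq d ^ 16 * Fintype.card V ∧
    ∀ y t : ℝ, qq d ^ 5 ≤ y → y * qq d ^ 32 * Fintype.card V ≤ t →
      Real.exp (-(t / 2)) + 8 * Real.exp (-(t ^ 2 / (409600 * y ^ 2 * Fintype.card E))) ≤ ε

/-- most grid points have rigid gadget numbers -/
def StGK : Prop := ∀ (d : ℕ) (ε : ℝ), 3 ≤ d → 0 < ε → Big d fun V E _ _ _ _ w0 =>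
  ∀ P : Pk V E, P.Ok d →
    (avg fun θ : Co d → Fin (MM d + 1) =>
      ind (¬ ∃ c cp : ℝ, (P.grid d (up θ)).EnsK d w0 c cp ε)) ≤ 18 * qq d

/-- comparison of two powers -/
def StCmp : Prop := AllG fun V E _ _ _ _ _ =>
  ∀ (d : ℕ) (P : Pk V E) (w0 : E × Bool → V) (x : ℝ), 3 ≤ d → P.Ok d → (P.setx x).Ok d →
    |P.FN w0 / P.y - (P.setx x).FN w0 / (P.setx x).y|
      ≤ 2 * (P.g * Fintype.card V + 2 * Fintype.card (cav P.U))

/-- most grid points have rigid level counts, common to all powers -/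
def StGR : Prop := ∀ (d : ℕ) (ε : ℝ), 8 ≤ d → 0 < ε → Big d fun V E _ _ _ _ w0 =>
  ∀ P : Pk V E, P.Ok d → P.g ≤ qq d ^ 16 →
    (avg fun θ : Co d → Fin (MM d + 1) =>
      ind (¬ ∃ r : Bool → ℤ → ℝ, (∀ b l, 0 ≤ r b l ∧ r b l ≤ 1) ∧
        ∀ x : ℝ, (P.setx x).Ok d → ((P.setx x).grid d (up θ)).RC d w0 r ε))
      ≤ 6 * (2 * d + 1) * qq d

/-- near optimality at low temperature -/
def StNO : Prop := ∀ (d : ℕ) (ε : ℝ), 3 ≤ d → 0 < ε → Big d fun V E _ _ _ _ w0 =>
  ∀ P : Pk V E, P.Ok d → P.β = 1 / qq d ^ 4 → P.B = 0 →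
    (P.EQ w0 fun w J _ σ => ind (¬ mxH univ (P.s J) 0 w - 3 * qq d ^ 4 * Fintype.card V
      ≤ HH (P.s J) 0 w σ)) ≤ ε

/-- purity -/
def StPur : Prop := ∀ (d : ℕ) (ε : ℝ), 3 ≤ d → 0 < ε → ∃ g : ℝ, 0 < g ∧ g ≤ qq d ^ 16 ∧
  Big d fun V E _ _ _ _ w0 => ∀ P : Pk V E, P.Ok d → P.g = g →
    ∃ T : Finset V, ((P.setT T).EP w0 fun _ _ μ => c2 μ crd) ≤ ε

/-- the cavity weights follow the maximal energy -/
def StXT : Prop := ∀ d : ℕ, 3 ≤ d → Big d fun V E _ _ _ _ _ =>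
  ∀ (P : Pk V E) (A' : Finset E) (w : E × Bool → V) (J : E → Bool) (v : V), P.Ok d →
    P.β = 1 / qq d ^ 4 → P.B = 0 → Deg w d →
    |P.XT A' w J v - P.y * mxH univ (cp ∅ A' ∅ J) 0 w| ≤ 2 * P.y * qq d ^ 4 * Fintype.card V

/-- the extra slot is exchanged into the pool of a cavity system -/
def StNearX : Prop := AllG fun V E _ _ _ _ _ =>
  ∀ (d : ℕ) (P : Pk V E) (w : E × Bool → V) (v : V) (a a' : cav P.U), P.Ok d →
    (P.Gv (w ∘ ex P.e a a') v ↔ P.Gv w v) ∧
    ∀ (J : E → Bool) (b : Bool), P.Gv w v → a ≠ a' →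
      (P.cavi w J v).Near (P.cavT P.A (w ∘ ex P.e a a') (Function.update J P.e b) v)
        ((P.cavi w J v).De a a' b) {a, a'} (dlq d)

/-- one step of the chain controls the edge gain -/
def StStepH : Prop := AllG fun V E _ _ _ _ _ =>
  ∀ (d : ℕ) (P : Pk V E) (w0 : E × Bool → V) (v : V), P.Ok d → P.Lg d →
    1 ≤ qq d ^ 2 * Fintype.card (cav P.U) →
    (ED w0 fun w J => ind (P.Gv w v) * (P.cavi w J v).dH)
      ≤ 2 * (ED w0 fun w J =>
          ind (Gd P.U w v) * (P.XT P.A w J v - P.XT (insert P.e P.A) w J v)) + 10 * qq d ^ 2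

/-- the end points of the chain -/
def StEnd : Prop := ∀ᶠ d : ℕ in atTop, Big d fun V E _ _ _ _ w0 =>
  ∀ (P : Pk V E) (A0 A1 : Finset E), P.Ok d → P.β = 1 / qq d ^ 4 → P.B = 0 →
    VV w0 ∅ A0 ∅ 0 univ ≤ VV w0 ∅ A1 ∅ 0 univ + qq d ^ 4 * Fintype.card V →
    (avg fun v => ED w0 fun w J => ind (Gd P.U w v) * (P.XT A0 w J v - P.XT A1 w J v))
      ≤ 6 * P.y * qq d ^ 4 * Fintype.card V

/-- the mean edge gain along the chain -/
def StTel : Prop := ∀ᶠ d : ℕ in atTop, Big d fun V E _ _ _ _ w0 =>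
  ∀ (P : Pk V E) (m : ℕ) (e : Fin m → E) (A0 A1 : Finset E), P.Ok d → P.β = 1 / qq d ^ 4 →
    P.B = 0 → Ak A0 e m = A1 → (∀ k : Fin m, (P.setA (e k) (Ak A0 e k.val)).Ok d) →
    tau d * Fintype.card E / 2 ≤ m →
    VV w0 ∅ A0 ∅ 0 univ ≤ VV w0 ∅ A1 ∅ 0 univ + qq d ^ 4 * Fintype.card V →
    (avg fun k : Fin m => (P.setA (e k) (Ak A0 e k.val)).mH w0) ≤ 11 * qq d ^ 2 ∧
      ∀ k : Fin m, 0 ≤ (P.setA (e k) (Ak A0 e k.val)).mH w0

def StNO1 : Prop := ∃ C1 : ℝ, 0 < C1 ∧ NOW C1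

/-- upper bound for the soft fraction -/
def StSoftU : Prop := ∀ C c C1 : ℝ, 1 ≤ C → 0 < c → TypW C c → NOW C1 →
  ∀ᶠ d : ℕ in atTop, ∀ ε : ℝ, 0 < ε → Big d fun V E _ _ _ _ w0 =>
    ∀ (P : Pk V E) (L : ℝ), P.Ok d → P.β = 1 → P.A = ∅ → 1 ≤ L → L ≤ d →
      C1 * ell d ^ 3 ≤ L ^ 3 → P.soft w0 L ≤ C * L ^ 2 * ell d / d + ε

/-- lower bound for the soft fraction -/
def StSoftL : Prop := ∃ c3 : ℝ, 0 < c3 ∧ ∀ᶠ d : ℕ in atTop, ∃ ε : ℝ, 0 < ε ∧
  Big d fun V E _ _ _ _ w0 => ∀ (P : Pk V E) (c cp L : ℝ), P.EnsK d w0 c cp ε → P.β = 1 →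
    P.A = ∅ → 16 ≤ L → L ^ 2 ≤ d → (d * (1 - c) + 1) * Real.sqrt d ≤ c3 * L ^ 2 →
    c3 * L / (2 * Real.sqrt d) ≤ P.soft w0 L

/-- lower bound for the response parameter -/
def StLamL : Prop := ∃ c5 : ℝ, 0 < c5 ∧ ∀ᶠ d : ℕ in atTop, ∃ ε : ℝ, 0 < ε ∧
  Big d fun V E _ _ _ _ w0 => ∀ (P : Pk V E) (c cp : ℝ), P.EnsK d w0 c cp ε → P.β = 1 →
    P.A = ∅ → c5 * Real.sqrt d / ell d ^ 2 ≤ d * (1 - c) + 1

/-- thermal widths survive the join -/
def StKtJ : Prop := AllG fun V E _ _ _ _ _ =>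
  ∀ (d : ℕ) (P : Pk V E) (w : E × Bool → V) (J : E → Bool) (i : E) (lam : ℝ), P.Ok d → P.Lg d →
    Deg w d → P.β = 1 → i ∈ fair P.Z P.A → (P.cut w J i).D1 d lam →
    (lam - 3) / (20000 * d) - sm 200 d
      ≤ avg fun a : cav P.U => avg fun a' : cav P.U => avg fun b : Bool => ind (a ≠ a') *
          (P.jn w J i a a' b).P fun g _ => kt ((P.jn w J i a a' b).nu g) (crd (w a))

/-- lower bound for the mean thermal width -/
def StKtL : Prop := ∀ᶠ d : ℕ in atTop, ∃ ε : ℝ, 0 < ε ∧ Big d fun V E _ _ _ _ w0 =>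
  ∀ (P : Pk V E) (c cp : ℝ), P.EnsK d w0 c cp ε → P.β = 1 →
    (d * (1 - c) + 1 - 3) / (200000 * d) - 1 / (d : ℝ) ^ 5 ≤ P.mK w0

/-- lower bound for the magnetisation -/
def StMagL : Prop := ∀ᶠ d : ℕ in atTop, Big d fun V E _ _ _ _ w0 =>
  ∀ P : Pk V E, P.Ok d → P.β = 1 → P.A = ∅ → 0 ≤ P.B →
    P.B / 10 * P.mK w0 - 1 / (d : ℝ) ^ 5 ≤ P.mM w0

/-- from the magnetisation to the free energy -/
def StFinB : Prop := ∀ d : ℕ, 3 ≤ d → Big d fun V E _ _ _ _ w0 =>
  ∀ P : Pk V E, P.Ok d → P.β = 1 → P.A = ∅ →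
    FF w0 (∅ : Finset E) ∅ ∅ 1 0 univ + P.B * Fintype.card V * P.mM w0
        - 10 * qq d ^ 8 * Fintype.card V
      ≤ FF w0 ∅ ∅ ∅ 1 (2 * P.B) univ

end

end Pool.Agent.MP_32a90a_pr.D

end

section

set_option autoImplicit false

namespace Pool.Agent.MP_32a90a_pr.D

open Finset Equiv Filter Pool.Agent.MP_32a90a_pr Pool.Agent.MP_32a90a_pr.L

namespace EB3

/-- a pool and one more slot -/
lemma exists_pool {V E : Type} [Fintype V] [DecidableEq V] [Fintype E] [DecidableEq E]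
    {w0 : E × Bool → V} {d : ℕ} (hw : Deg w0 d) (hd : 8 ≤ d) (hq : qq d ≤ 1)
    (hN : 1 ≤ Fintype.card V) :
    ∃ (U : Finset E) (e : E), e ∉ U ∧ U.card = ⌈qq d ^ 16 * Fintype.card V⌉₊ := by
  have h1 := card_half hw
  have hd' : (8 : ℝ) ≤ d := by exact_mod_cast hd
  have hN' : (1 : ℝ) ≤ Fintype.card V := by exact_mod_cast hN
  have hq0 : 0 ≤ qq d := (Real.exp_pos _).le
  have hq1 : qq d ^ 16 ≤ 1 := pow_le_one₀ hq0 hq
  have hE : (0 : ℝ) < Fintype.card E := by nlinarith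
  have hE' : 0 < Fintype.card E := by exact_mod_cast hE
  obtain ⟨e⟩ := Fintype.card_pos_iff.1 hE'
  have hc : ⌈qq d ^ 16 * Fintype.card V⌉₊ ≤ (univ.erase e).card := by
    rw [Nat.ceil_le, card_erase_of_mem (mem_univ _), card_univ, Nat.cast_sub hE']
    push_cast
    nlinarith
  obtain ⟨U, hU, hUc⟩ := exists_subset_card_eq hc
  exact ⟨U, e, fun h => by simpa using hU h, hUc⟩

/-- the numerical conditions -/
lemma num {c : ℝ} (hc : 0 < c) : ∀ᶠ d : ℕ in atTop,
    6 * ell d ^ 2 ≤ c * Real.sqrt d ∧ 1 ≤ ell d ∧ ell d ^ 2 ≤ Real.sqrt d ∧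
      10 ^ 9 ≤ c * d := by
  have h1 : Tendsto (fun d : ℕ => (d : ℝ)) atTop atTop := tendsto_natCast_atTop_atTop
  have h2 := (isLittleO_log_rpow_rpow_atTop (s := 1 / 2) 2 (by norm_num)).comp_tendsto h1
  have key : ∀ k : ℝ, 0 < k → ∀ᶠ d : ℕ in atTop, ell d ^ 2 ≤ k * Real.sqrt d := by
    intro k hk
    filter_upwards [h2.def hk] with d hd
    simp only [Function.comp, Real.norm_eq_abs] at hd
    rw [Real.sqrt_eq_rpow]
    have e : ell d ^ 2 = Real.log d ^ (2 : ℝ) := by rw [Real.rpow_two]; rfl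
    rw [e]
    refine (le_abs_self _).trans (hd.trans_eq ?_)
    rw [abs_of_nonneg (Real.rpow_nonneg (Nat.cast_nonneg d) _)]
  filter_upwards [key (c / 6) (by positivity), key 1 one_pos, eventually_ge_atTop 3,
    (h1.const_mul_atTop hc).eventually_ge_atTop (10 ^ 9)] with d a1 a2 a3 a4
  exact ⟨by linarith, one_le_log a3, by linarith, a4⟩

lemma final {c d l s q B lam K M : ℝ} (hc : 0 < c) (hd : 8 ≤ d) (hl : 1 ≤ l) (hs : s ^ 2 = d)
    (hs0 : 0 < s) (h6 : 6 * l ^ 2 ≤ c * s) (hls : l ^ 2 ≤ s) (h9 : 10 ^ 9 ≤ c * d)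
    (hq0 : 0 ≤ q) (hq : q ≤ 1 / d) (hB : 1 / d ≤ B) (hB1 : B ≤ 1)
    (h1 : c * s / l ^ 2 ≤ lam) (h2 : (lam - 3) / (200000 * d) - 1 / d ^ 5 ≤ K)
    (h3 : B / 2 / 10 * K - 1 / d ^ 5 ≤ M) :
    c / 10 ^ 8 * B ^ 2 / (s * l ^ 2) ≤ B / 2 * M - 10 * q ^ 8 := by
  have hd0 : 0 < d := by linarith
  have hl2 : 0 < l ^ 2 := by positivity
  have hB0 : 0 < B := lt_of_lt_of_le (by positivity) hB
  set u := c / (s * l ^ 2) with hu
  have hu0 : 0 < u := by positivity
  have e1 : c * s / l ^ 2 = u * d := by rw [hu, ← hs]; field_simp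
  have a1 : 6 ≤ u * d := by rw [← e1, le_div_iff₀ hl2]; exact h6
  have a2 : u / 400000 ≤ (lam - 3) / (200000 * d) := by
    rw [div_le_div_iff₀ (by norm_num) (by positivity)]; nlinarith
  have a3 : c / d ≤ u := by
    rw [hu]
    refine div_le_div_of_nonneg_left hc.le (by positivity) ?_
    nlinarith
  have a4 : 10 ^ 9 / d ^ 2 ≤ u := by
    refine le_trans ?_ a3
    rw [div_le_div_iff₀ (by positivity) hd0]; nlinarith
  set t := 1 / d with ht
  have ht0 : 0 < t := by positivity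
  have ht1 : t ≤ 1 / 8 := one_div_le_one_div_of_le (by norm_num) hd
  have a5 : 10 ^ 9 * t ^ 2 ≤ u := by
    rw [ht]; refine le_trans (le_of_eq ?_) a4; field_simp
  have e5 : 1 / d ^ 5 = t ^ 5 := by rw [ht]; field_simp
  rw [e5] at h2 h3
  have b1 : q ^ 8 ≤ t ^ 8 := pow_le_pow_left₀ hq0 hq 8
  have tB : t ^ 2 ≤ B ^ 2 := pow_le_pow_left₀ ht0.le hB 2
  have t2 : t ^ 2 ≤ 1 := pow_le_one₀ ht0.le (by linarith)
  have t3 : t ^ 3 ≤ 1 := pow_le_one₀ ht0.le (by linarith)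
  have t4 : t ^ 4 ≤ 1 := pow_le_one₀ ht0.le (by linarith)
  have c1 : t ^ 8 ≤ B ^ 2 * t ^ 2 := by
    calc t ^ 8 = t ^ 2 * t ^ 2 * t ^ 4 := by ring
      _ ≤ t ^ 2 * t ^ 2 * 1 := mul_le_mul_of_nonneg_left t4 (by positivity)
      _ ≤ B ^ 2 * t ^ 2 := by rw [mul_one]; exact mul_le_mul_of_nonneg_right tB (by positivity)
  have c2 : B * t ^ 5 ≤ B ^ 2 * t ^ 2 := by
    calc B * t ^ 5 = B * t * t ^ 2 * t ^ 2 := by ring
      _ ≤ B * B * t ^ 2 * 1 := by gcongr
      _ = B ^ 2 * t ^ 2 := by ring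
  have c3 : B ^ 2 * t ^ 5 ≤ B ^ 2 * t ^ 2 := by
    calc B ^ 2 * t ^ 5 = B ^ 2 * t ^ 2 * t ^ 3 := by ring
      _ ≤ B ^ 2 * t ^ 2 * 1 := by gcongr
      _ = _ := mul_one _
  have c4 : 10 ^ 9 * (B ^ 2 * t ^ 2) ≤ B ^ 2 * u := by nlinarith [sq_nonneg B]
  have d1 : u / 400000 - t ^ 5 ≤ K := by linarith
  have d2 : B / 2 / 10 * (u / 400000 - t ^ 5) - t ^ 5 ≤ M :=
    le_trans (sub_le_sub_right (mul_le_mul_of_nonneg_left d1 (by positivity)) _) h3
  have d3 : B / 2 * (B / 2 / 10 * (u / 400000 - t ^ 5) - t ^ 5) ≤ B / 2 * M :=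
    mul_le_mul_of_nonneg_left d2 (by positivity)
  have e2 : c / 10 ^ 8 * B ^ 2 / (s * l ^ 2) = B ^ 2 * u / 10 ^ 8 := by rw [hu]; field_simp
  rw [e2]
  nlinarith

end EB3

open EB3 in
theorem stB3_of (hJ : StJm) (hGK : StGK) (hL : StLamL) (hK : StKtL) (hM : StMagL) (hF : StFinB) :
    StB3 := by
  obtain ⟨c5, hc5, hL⟩ := hL
  refine ⟨c5 / 10 ^ 8, by positivity, ?_⟩
  filter_upwards [hJ, hL, hK, hM, num hc5, eventually_ge_atTop 1000] with d hJ hL hK hM hn hd _
  obtain ⟨hqd, hq100, -⟩ := hJ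
  obtain ⟨ε1, he1, hL⟩ := hL
  obtain ⟨ε2, he2, hK⟩ := hK
  obtain ⟨n1, n2, n3, n4⟩ := hn
  have hd3 : 3 ≤ d := by omega
  have hd0 : (1000 : ℝ) ≤ d := by exact_mod_cast hd
  have hq0 : 0 < qq d := Real.exp_pos _
  have hq1 : qq d ≤ 1 / 1000 := by nlinarith
  refine ((hGK d (min ε1 ε2) hd3 (lt_min he1 he2)).and (hL.and (hK.and (hM.and ((hF d hd3).and
    (Big.card d (fun N => 1 ≤ N) (eventually_ge_atTop 1))))))).mono ?_
  intro V E _ _ _ _ w0 hw ⟨cGK, cL, cK, cM, cF, hN⟩ B hB hB1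
  have hB0 : 0 < B := lt_of_lt_of_le (by positivity) hB
  obtain ⟨U, e, he, hU⟩ := exists_pool hw (by omega) (by linarith) hN
  let P0 : Pk V E := ⟨U, e, ∅, 1, qq d ^ 4, qq d ^ 2, 1, 1, B / 2, 0, fun _ _ => 0, ∅⟩
  have h8 : 0 < qq d ^ 8 := by positivity
  have h4 : qq d ^ 4 ≤ (1 / 1000) ^ 4 := pow_le_pow_left₀ hq0.le hq1 4
  have hP0 : P0.Ok d := by
    refine ⟨he, notMem_empty _, disjoint_empty_right _, hU, ?_, le_rfl, ?_, ?_, le_rfl, ?_, rfl,
      le_rfl, by simp only [P0]; linarith, le_rfl, by simp only [P0]; linarith, ?_, le_rfl, h8.le,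
      fun _ _ => by simp only [P0, abs_zero]; linarith⟩
    · have : 0 < tau d := Real.rpow_pos_of_pos (by linarith) _
      simp only [P0, card_empty, Nat.cast_zero]; positivity
    · exact one_le_one_div (by positivity) (by linarith)
    · exact pow_le_pow_of_le_one hq0.le (by linarith) (by norm_num)
    · simp only [P0, Pk.y]; linarith
    · simp only [P0]; rw [abs_of_pos (by positivity)]; linarith
  obtain ⟨θ, hθ⟩ := exists_le_avg fun θ : Co d → Fin (MM d + 1) =>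
    ind (¬ ∃ c cp : ℝ, (P0.grid d (up θ)).EnsK d w0 c cp (min ε1 ε2))
  have hlt := hθ.trans (cGK P0 hP0)
  obtain ⟨c, cp, hc⟩ : ∃ c cp : ℝ, (P0.grid d (up θ)).EnsK d w0 c cp (min ε1 ε2) := by
    by_contra hn
    rw [ind_pos hn] at hlt
    linarith
  have r1 := cL _ c cp ⟨hc.1, hc.2.trans (min_le_left _ _)⟩ rfl rfl
  have r2 := cK _ c cp ⟨hc.1, hc.2.trans (min_le_right _ _)⟩ rfl
  have r3 := cM _ hc.1 rfl rfl (by show 0 ≤ B / 2; positivity)
  have r4 := cF _ hc.1 rfl rfl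
  have key := final hc5 (by linarith) n2 (Real.sq_sqrt (by positivity))
    (Real.sqrt_pos.2 (by linarith)) n1 n3 n4 hq0.le hqd hB hB1 r1 r2 r3
  have e2 : 2 * (P0.grid d (up θ)).B = B := by show 2 * (B / 2) = B; ring
  rw [e2] at r4
  refine le_trans ?_ r4
  have hN0 : (0 : ℝ) ≤ Fintype.card V := Nat.cast_nonneg _
  have k2 := mul_le_mul_of_nonneg_right key hN0
  have e3 : (P0.grid d (up θ)).B = B / 2 := rfl
  rw [e3]
  have e4 : c5 / 10 ^ 8 * B ^ 2 * Fintype.card V / (Real.sqrt d * ell d ^ 2)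
      = c5 / 10 ^ 8 * B ^ 2 / (Real.sqrt d * ell d ^ 2) * Fintype.card V := by ring
  rw [e4]
  linarith

end Pool.Agent.MP_32a90a_pr.D

end

section

set_option autoImplicit false

namespace Pool.Agent.MP_32a90a_pr.D

open Finset Equiv Filter Pool.Agent.MP_32a90a_pr Pool.Agent.MP_32a90a_pr.L

namespace ECmp

lemma abs_sum_le {ι : Type} [Fintype ι] {f : ι → ℝ} {c : ℝ} (h : ∀ i, |f i| ≤ c) :
    |∑ i, f i| ≤ c * Fintype.card ι := by
  refine (abs_sum_le_sum_abs _ _).trans ((sum_le_sum fun i _ => h i).trans_eq ?_)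
  rw [sum_const, card_univ, nsmul_eq_mul, mul_comm]

variable {V E : Type} [Fintype V] [DecidableEq V] [Fintype E] [DecidableEq E]

omit [DecidableEq V] in
lemma gadb {d : ℕ} {P : Pk V E} (h : P.Ok d) (hq : qq d ≤ 1 / 9)
    (o : cav P.U → Option Bool) (s : cav P.U → Bool) :
    |∑ a, gad P.tp P.tm (o a) (s a)| ≤ 2 * Fintype.card (cav P.U) := by
  obtain ⟨-, -, -, -, -, -, -, -, -, -, -, h1, h2, h3, h4, -⟩ := h
  have q0 : 0 ≤ qq d := (Real.exp_pos _).le
  have q8 : qq d ^ 8 ≤ 1 / 2 := (pow_le_pow_left₀ q0 hq 8).trans (by norm_num)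
  refine abs_sum_le fun a => ?_
  cases o a with
  | none => simp [gad]
  | some b =>
    simp only [gad]
    split_ifs <;> rw [abs_le] <;> constructor <;> linarith

lemma one (hf : StFix) (hk : StOkG) [Nonempty V] {d : ℕ} (hd : 3 ≤ d) {P : Pk V E} (h : P.Ok d)
    (w : E × Bool → V) (J : E → Bool) :
    |Real.log (P.full w J).N / P.y - Real.log (Zf P.β fun σ => en Y1 (P.s J) w σ +
        ∑ v, (P.B * sgn (σ v) + P.rwd (σ v) (loc (P.s J) w σ v))) / P.β|
      ≤ P.g * Fintype.card V + 2 * Fintype.card (cav P.U) := by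
  obtain ⟨-, -, k1, k2, -, k3, -⟩ := hk V E d P hd h
  have hg : 0 ≤ P.g := h.2.2.2.2.2.2.2.2.2.2.2.2.2.2.2.2.1
  have hβ : 0 < P.β := lt_of_lt_of_le one_pos h.2.2.2.2.2.1
  have h1 := (hf _ _ (P.full w J).cas (fun σ => en Y1 (P.s J) w σ +
      ∑ v, (P.B * sgn (σ v) + P.rwd (σ v) (loc (P.s J) w σ v)))
      (P.g * Fintype.card V + 2 * Fintype.card (cav P.U)) (k1 _ _ _) Sys.sum_p fun γ σ => by
    have e : (P.full w J).cas.H γ σ - (en Y1 (P.s J) w σ +
        ∑ v, (P.B * sgn (σ v) + P.rwd (σ v) (loc (P.s J) w σ v)))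
        = ∑ v, P.g * (sgn (γ.1 v) * sgn (σ v)) + ∑ a, gad P.tp P.tm (γ.2 a) (σ (w a)) := by
      simp only [Pk.full, Pk.sys, Sys.cas, sum_add_distrib]; ring
    rw [e]
    refine (abs_add_le _ _).trans (add_le_add (abs_sum_le fun v => ?_) (gadb h k3 _ _))
    simp [abs_mul, abs_of_nonneg hg]).1
  change |Real.log (P.full w J).N - P.x * Real.log (Zf P.β _)| ≤ P.y * _ at h1
  have hx : P.x ≠ 0 := fun e => by
    rw [Pk.y, e, mul_zero] at k2
    exact lt_irrefl _ k2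
  rw [← div_le_iff₀' k2, ← abs_of_pos k2, ← abs_div] at h1
  refine le_of_eq_of_le ?_ h1
  congr 1
  rw [Pk.y]
  field_simp

end ECmp

theorem stCmp (hf : StFix) (hk : StOkG) : StCmp := by
  intro V E _ _ _ _ _ d P w0 x hd h h'
  have key : ∀ w J, |Real.log (P.full w J).N / P.y - Real.log ((P.setx x).full w J).N
      / (P.setx x).y| ≤ 2 * (P.g * Fintype.card V + 2 * Fintype.card (cav P.U)) := by
    intro w J
    have h1 := abs_le.1 (ECmp.one hf hk hd h w J)
    have h2 := abs_le.1 (ECmp.one hf hk hd h' w J)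
    change _ ≤ _ - Real.log (Zf P.β fun σ => en Y1 (P.s J) w σ +
        ∑ v, (P.B * sgn (σ v) + P.rwd (σ v) (loc (P.s J) w σ v))) / P.β ∧
      _ - Real.log (Zf P.β fun σ => en Y1 (P.s J) w σ +
        ∑ v, (P.B * sgn (σ v) + P.rwd (σ v) (loc (P.s J) w σ v))) / P.β ≤
      P.g * Fintype.card V + 2 * Fintype.card (cav P.U) at h2
    rw [abs_le]
    constructor <;> linarith [h1.1, h1.2, h2.1, h2.2]
  rw [Pk.FN, Pk.FN, ← ED_div, ← ED_div, ← ED_sub, abs_le]
  exact ⟨const_le_ED fun w J => (abs_le.1 (key w J)).1, ED_le_const fun w J => (abs_le.1 (key w J)).2⟩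

theorem stNO (hf : StFix) (hk : StOkG) : StNO := by
  intro d ε hd hε
  have q0 : 0 < qq d := Real.exp_pos _
  have ev : ∀ᶠ N : ℕ in atTop, 1 ≤ N ∧ 1 ≤ qq d ^ 16 * N ∧ Real.exp (-(N : ℝ)) ≤ ε := by
    have h1 : Tendsto (fun N : ℕ => qq d ^ 16 * (N : ℝ)) atTop atTop :=
      tendsto_natCast_atTop_atTop.const_mul_atTop (pow_pos q0 16)
    have h2 : Tendsto (fun N : ℕ => Real.exp (-(N : ℝ))) atTop (nhds 0) :=
      Real.tendsto_exp_neg_atTop_nhds_zero.comp tendsto_natCast_atTop_atTop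
    filter_upwards [eventually_ge_atTop 1, h1.eventually_ge_atTop 1,
      h2.eventually (ge_mem_nhds hε)] with N a b c using ⟨a, b, c⟩
  refine (Big.card d _ ev).mono ?_
  intro V E _ _ _ _ w0 _ hN P h hβ hB
  obtain ⟨n1, n2, n3⟩ := hN
  have : Nonempty V := Fintype.card_pos_iff.1 n1
  obtain ⟨-, -, k1, -, -, k3, -⟩ := hk V E d P hd h
  have hU := h.2.2.2.1
  obtain ⟨hg0, hg1, hr⟩ := h.2.2.2.2.2.2.2.2.2.2.2.2.2.2.2.2
  set N : ℝ := (Fintype.card V : ℝ) with hNdef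
  have N0 : 0 ≤ N := Nat.cast_nonneg _
  have hc : (Fintype.card (cav P.U) : ℝ) ≤ 4 * (qq d ^ 16 * N) := by
    rw [Fintype.card_coe, card_cav, hU]
    have := (Nat.ceil_lt_add_one (show 0 ≤ qq d ^ 16 * N by positivity)).le
    linarith
  have q4 : qq d ^ 4 ≤ 1 / 100 := (pow_le_pow_left₀ q0.le k3 4).trans (by norm_num)
  have hb : 3 * qq d ^ 8 * N + 2 * Fintype.card (cav P.U) ≤ qq d ^ 4 * N / 2 := by
    have a0 : 0 ≤ qq d ^ 4 * N := by positivity
    have a1 : qq d ^ 8 * N ≤ 1 / 100 * (qq d ^ 4 * N) := by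
      rw [show qq d ^ 8 * N = qq d ^ 4 * (qq d ^ 4 * N) by ring]
      exact mul_le_mul_of_nonneg_right q4 a0
    have a2 : qq d ^ 16 * N ≤ qq d ^ 8 * N :=
      mul_le_mul_of_nonneg_right (pow_le_pow_of_le_one q0.le (by linarith) (by norm_num)) N0
    linarith
  refine ED_le_const fun w J => ?_
  have : Nonempty (univ : Finset (V → Bool)) := ⟨⟨fun _ => true, mem_univ _⟩⟩
  obtain ⟨σ0, hσ0⟩ := exists_eq_ciSup_of_finite
    (f := fun σ : (univ : Finset (V → Bool)) => HH (P.s J) 0 w σ)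
  have h1 := ((hf _ _ (P.full w J).cas (HH (P.s J) 0 w) (qq d ^ 4 * N / 2) (k1 _ _ _)
    Sys.sum_p fun γ σ => by
      have e : (P.full w J).cas.H γ σ - HH (P.s J) 0 w σ
          = ∑ v, (P.rwd (σ v) (loc (P.s J) w σ v) + P.g * (sgn (γ.1 v) * sgn (σ v)))
            + ∑ a, gad P.tp P.tm (γ.2 a) (σ (w a)) := by
        simp only [Pk.full, Pk.sys, Sys.cas, HH, hB, zero_mul, zero_add]; ring
      rw [e]
      refine ((abs_add_le _ _).trans (add_le_add (ECmp.abs_sum_le (c := 3 * qq d ^ 8) fun v => ?_)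
        (ECmp.gadb h k3 _ _))).trans hb
      refine (abs_add_le _ _).trans ?_
      have := hr (σ v) (loc (P.s J) w σ v)
      rw [abs_mul, abs_mul, abs_sgn, abs_sgn, abs_of_nonneg hg0]
      linarith).2.1 (mxH univ (P.s J) 0 w) ⟨σ0, hσ0⟩ fun σ =>
      le_ciSup (f := fun σ : (univ : Finset (V → Bool)) => HH (P.s J) 0 w σ)
        (Set.finite_range _).bddAbove ⟨σ, mem_univ _⟩).2.2 (3 * qq d ^ 4 * N)
  refine (Cas.P_mono (k1 _ _ _) fun g σ => ind_mono fun hn => (not_le.1 hn).le).trans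
    (h1.trans (le_trans ?_ n3))
  have e : (P.full w J).cas.β * (3 * qq d ^ 4 * N - 2 * (qq d ^ 4 * N / 2)) = 2 * N := by
    change P.β * _ = _
    rw [hβ]
    field_simp
    ring
  have h2 : (Fintype.card (V → Bool) : ℝ) ≤ Real.exp N := by
    rw [Fintype.card_fun, Fintype.card_bool, hNdef, ← mul_one (Fintype.card V : ℝ),
      Real.exp_nat_mul]
    push_cast
    exact pow_le_pow_left₀ (by norm_num) (by linarith [Real.add_one_le_exp 1]) _
  rw [e]
  refine (mul_le_mul_of_nonneg_right h2 (Real.exp_pos _).le).trans_eq ?_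
  rw [← Real.exp_add]
  congr 1
  ring

end Pool.Agent.MP_32a90a_pr.D

end

section

set_option autoImplicit false

namespace Pool.Agent.MP_32a90a_pr.D

open Finset Equiv Filter Pool.Agent.MP_32a90a_pr Pool.Agent.MP_32a90a_pr.L

namespace EDev

lemma ev_exp {a b : ℝ} (ha : 0 < a) (hb : 0 < b) :
    ∀ᶠ N : ℕ in atTop, Real.exp (-(a * N)) ≤ b := by
  have h1 : Tendsto (fun N : ℕ => a * (N : ℝ)) atTop atTop :=
    tendsto_natCast_atTop_atTop.const_mul_atTop ha
  have h2 : Tendsto (fun N : ℕ => Real.exp (-(a * (N : ℝ)))) atTop (nhds 0) :=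
    Real.tendsto_exp_neg_atTop_nhds_zero.comp h1
  exact (h2.eventually (gt_mem_nhds hb)).mono fun _ h => h.le

lemma ev_one {a : ℝ} (ha : 0 < a) : ∀ᶠ N : ℕ in atTop, 1 ≤ a * (N : ℝ) :=
  (tendsto_natCast_atTop_atTop.const_mul_atTop ha).eventually_ge_atTop 1

lemma upd_le {ι : Type} [DecidableEq ι] {θ : ι → ℕ} {M : ℕ} (h : ∀ k, θ k ≤ M) (c : ι) (m : ℕ)
    (hm : m ≤ θ c + 1) (k : ι) : Function.update θ c m k ≤ M + 1 := by
  by_cases hk : k = c
  · subst hk
    rw [Function.update_self]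
    have := h k
    omega
  · rw [Function.update_of_ne hk]
    exact (h k).trans (Nat.le_succ M)

end EDev

open EDev

theorem stDev (hg : StGrif) (ho : StObs) (hk : StOkG) (hl : StLipN) : StDev := by
  intro V E _ _ _ _ _ _ d P w0 θ c t hd hP hθ hc ht
  obtain ⟨k1, k2, -, hy, -⟩ := hk V E d P hd hP
  have hc20 : (0 : ℝ) < 20 * P.y := by linarith
  have e20 : 1024 * (20 * P.y) ^ 2 * (Fintype.card E : ℝ) = 409600 * P.y ^ 2 * Fintype.card E := by
    ring
  have hL0 : Lip (20 * P.y) fun w J => Real.log ((P.grid d θ).full w J).cas.N :=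
    hl V E d (P.grid d θ) hd (k1 θ fun k => (hθ k).trans (Nat.le_succ _))
  have hC : ∀ w J, ((P.grid d θ).full w J).cas.Ok ∧ ((P.grid d θ).full w J).cas.y = P.y :=
    fun w J => ⟨k2 θ _ _ _, rfl⟩
  constructor
  · have e : ∀ w J, ((P.grid d θ).full w J).cas.add (fun g σ => qq d ^ 12 * P.obs d c w J g σ)
        = ((P.grid d (Function.update θ c (θ c + 1))).full w J).cas :=
      fun w J => (ho V E d P θ c w J).1.symm
    have hL1 : Lip (20 * P.y) fun w J =>
        Real.log ((P.grid d (Function.update θ c (θ c + 1))).full w J).cas.N :=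
      hl V E d (P.grid d _) hd (k1 _ (upd_le hθ c _ le_rfl))
    have := hg V E (V → Bool) (Gam (V → Bool) (cav P.U)) w0
      (fun w J => ((P.grid d θ).full w J).cas)
      (fun w J g σ => qq d ^ 12 * P.obs d c w J g σ) P.y (20 * P.y) t hc20 ht hC hL0
      (by simp only [e]; exact hL1)
    simp only [e, e20] at this
    exact this
  · have e : ∀ w J, ((P.grid d θ).full w J).cas.add (fun g σ => -(qq d ^ 12 * P.obs d c w J g σ))
        = ((P.grid d (Function.update θ c (θ c - 1))).full w J).cas :=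
      fun w J => ((ho V E d P θ c w J).2.1 hc).symm
    have hL1 : Lip (20 * P.y) fun w J =>
        Real.log ((P.grid d (Function.update θ c (θ c - 1))).full w J).cas.N :=
      hl V E d (P.grid d _) hd (k1 _ (upd_le hθ c _ (by omega)))
    have := hg V E (V → Bool) (Gam (V → Bool) (cav P.U)) w0
      (fun w J => ((P.grid d θ).full w J).cas)
      (fun w J g σ => -(qq d ^ 12 * P.obs d c w J g σ)) P.y (20 * P.y) t hc20 ht hC hL0
      (by simp only [e]; exact hL1)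
    simp only [e, e20] at this
    refine le_trans (le_of_eq ?_) this
    unfold Pk.EQ
    congr 1
    funext w J
    refine Cas.P_congr fun g σ => ind_congr ?_
    unfold Pk.FN
    constructor <;> intro h <;> linarith

theorem stDevN : StDevN := by
  intro d ε hd hε
  have hq : 0 < qq d := Real.exp_pos _
  have hd0 : (0 : ℝ) < d := by exact_mod_cast (by omega : 0 < d)
  have h1 := ev_one (a := qq d ^ 16) (by positivity)
  have h2 := ev_exp (a := qq d ^ 37 / 2) (b := ε / 2) (by positivity) (by positivity)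
  have h3 := ev_exp (a := qq d ^ 64 / (204800 * d)) (b := ε / 16) (by positivity) (by positivity)
  refine (Big.card d _ (h1.and (h2.and h3))).mono ?_
  intro V E _ _ _ _ w0 hw ⟨a1, a2, a3⟩
  have hE := card_half hw
  have hN : (0 : ℝ) < Fintype.card V := by
    rcases (Nat.cast_nonneg (α := ℝ) (Fintype.card V)).eq_or_lt with h | h
    · rw [← h] at a1; norm_num at a1
    · exact h
  have hE0 : (0 : ℝ) < Fintype.card E := by
    have := mul_pos hd0 hN
    linarith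
  refine ⟨Fintype.card_pos_iff.1 (by exact_mod_cast hN), Fintype.card_pos_iff.1
    (by exact_mod_cast hE0), a1, fun y t hy ht => ?_⟩
  have hy0 : 0 < y := lt_of_lt_of_le (by positivity) hy
  have b1 : qq d ^ 37 / 2 * Fintype.card V ≤ t / 2 := by
    have : qq d ^ 5 * (qq d ^ 32 * Fintype.card V) ≤ y * (qq d ^ 32 * Fintype.card V) :=
      mul_le_mul_of_nonneg_right hy (by positivity)
    have e : qq d ^ 37 / 2 * Fintype.card V = qq d ^ 5 * (qq d ^ 32 * Fintype.card V) / 2 := by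
      ring
    rw [e]
    rw [mul_assoc] at ht
    linarith
  have b2 : qq d ^ 64 / (204800 * d) * Fintype.card V
      ≤ t ^ 2 / (409600 * y ^ 2 * Fintype.card E) := by
    have h4 : (y * qq d ^ 32 * Fintype.card V) ^ 2 ≤ t ^ 2 :=
      pow_le_pow_left₀ (by positivity) ht 2
    refine le_trans (le_of_eq ?_) (div_le_div_of_nonneg_right h4 (by positivity))
    have e : (Fintype.card E : ℝ) = d * Fintype.card V / 2 := by linarith
    rw [e]
    field_simp
    ring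
  have c1 : Real.exp (-(t / 2)) ≤ ε / 2 := (Real.exp_le_exp.2 (by linarith)).trans a2
  have c2 : Real.exp (-(t ^ 2 / (409600 * y ^ 2 * Fintype.card E))) ≤ ε / 16 :=
    (Real.exp_le_exp.2 (by linarith)).trans a3
  linarith

end Pool.Agent.MP_32a90a_pr.D

end

section

set_option autoImplicit false

namespace Pool.Agent.MP_32a90a_pr.D

open Finset Equiv Filter Pool.Agent.MP_32a90a_pr Pool.Agent.MP_32a90a_pr.L

namespace EEnd

variable {V E : Type} [Fintype V] [DecidableEq V] [Fintype E] [DecidableEq E]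

lemma abs_mx (A : Finset E) (J : E → Bool) (w : E × Bool → V) :
    |mxH univ (cp ∅ A ∅ J) 0 w| ≤ Fintype.card E := by
  have : Nonempty (univ : Finset (V → Bool)) := univ_nonempty.to_subtype
  obtain ⟨x, hx⟩ := exists_eq_ciSup_of_finite
    (f := fun σ : (univ : Finset (V → Bool)) => HH (cp ∅ A ∅ J) 0 w σ)
  rw [mxH, ← hx, HH, zero_mul, add_zero]
  refine (abs_sum_le_sum_abs _ _).trans ((sum_le_card_nsmul _ _ 1 fun i _ => ?_).trans (by simp))
  rw [abs_mul]
  refine mul_le_one₀ ?_ (abs_nonneg _) (abs_Y1 _ _ _)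
  unfold cp
  split_ifs <;> simp

lemma qq_small {d : ℕ} (hd : 1000 ≤ d) : 4 * d * qq d ≤ 1 := by
  have h0 : (1000 : ℝ) ≤ d := by exact_mod_cast hd
  have h1 := Real.add_one_le_exp ((d : ℝ) ^ 2 / 4)
  rw [qq, Real.exp_neg, ← div_eq_mul_inv, div_le_one (Real.exp_pos _)]
  nlinarith

end EEnd

open EEnd in
theorem stEnd (hx : StXT) (h9 : StG9a) : StEnd := by
  filter_upwards [eventually_ge_atTop 1000] with d hd
  have q0 : 0 < qq d := Real.exp_pos _
  have hd' : (1000 : ℝ) ≤ d := by exact_mod_cast hd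
  have q1 := qq_small hd
  have hN := Big.card d (fun N => 2 * (d : ℝ) * (d + 3) / qq d ^ 4 ≤ N)
    (tendsto_natCast_atTop_atTop.eventually_ge_atTop _)
  refine ((hx d (by omega)).and hN).mono ?_
  intro V E _ _ _ _ w0 hw ⟨h1, h2⟩ P A0 A1 hP hβ hB hV
  rw [div_le_iff₀ (by positivity)] at h2
  have N0 : (0 : ℝ) < Fintype.card V := by
    by_contra h
    have := mul_nonpos_of_nonpos_of_nonneg (not_lt.1 h) (pow_pos q0 4).le
    nlinarith
  have : Nonempty V := Fintype.card_pos_iff.1 (by exact_mod_cast N0)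
  have hE := card_half hw
  have y0 : 0 ≤ P.y := mul_nonneg (zero_le_one.trans hP.2.2.2.2.2.1)
    ((pow_pos q0 5).le.trans hP.2.2.2.2.2.2.2.1)
  have hU : (P.U.card : ℝ) ≤ qq d ^ 16 * Fintype.card V + 1 := by
    rw [hP.2.2.2.1]
    exact (Nat.ceil_lt_add_one (by positivity)).le
  have k1 : ∀ v, (ED w0 fun w J => ind (Gd P.U w v) * (P.XT A0 w J v - P.XT A1 w J v))
      ≤ 5 * P.y * qq d ^ 4 * Fintype.card V
        + P.y * (d * Fintype.card V) * PD w0 fun w _ => ¬ Gd P.U w v := fun v => by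
    have a1 : (ED w0 fun w J => ind (Gd P.U w v) * (P.XT A0 w J v - P.XT A1 w J v))
        ≤ ED w0 fun w J => P.y * (mxH univ (cp ∅ A0 ∅ J) 0 w - mxH univ (cp ∅ A1 ∅ J) 0 w)
          + P.y * (d * Fintype.card V) * ind (¬ Gd P.U w v)
          + 4 * P.y * qq d ^ 4 * Fintype.card V := by
      refine ED_mono_deg hw fun w J hw' => ?_
      have b0 := abs_le.1 (h1 P A0 w J v hP hβ hB hw')
      have b1 := abs_le.1 (h1 P A1 w J v hP hβ hB hw')
      by_cases h : Gd P.U w v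
      · rw [ind_pos h, ind_neg (not_not.2 h)]
        linarith [b0.2, b1.1]
      · rw [ind_neg h, ind_pos h]
        have c0 := mul_le_mul_of_nonneg_left (abs_le.1 (abs_mx A0 J w)).1 y0
        have c1 := mul_le_mul_of_nonneg_left (abs_le.1 (abs_mx A1 J w)).2 y0
        have c2 : 0 ≤ P.y * qq d ^ 4 * Fintype.card V := by positivity
        rw [← hE]
        linarith
    rw [ED_add, ED_add, ED_mul, ED_mul, ED_sub, ED_const] at a1
    have a2 := mul_le_mul_of_nonneg_left hV y0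
    unfold VV at a2
    unfold PD
    linarith
  refine (avg_mono k1).trans ?_
  rw [avg_add, avg_const, avg_mul, avg, mul_assoc P.y, mul_assoc (d : ℝ),
    mul_div_cancel₀ _ N0.ne']
  have k2 := h9 V E w0 d P.U hw
  have q2 : qq d ^ 12 ≤ qq d := pow_le_of_le_one q0.le (by nlinarith) (by norm_num)
  have q3 : 4 * d * qq d ^ 12 ≤ 1 :=
    (mul_le_mul_of_nonneg_left q2 (by positivity)).trans q1
  have q4 := mul_le_mul_of_nonneg_right q3
    (show 0 ≤ qq d ^ 4 * Fintype.card V by positivity)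
  have k3 : (d : ℝ) * ∑ v, PD w0 (fun w _ => ¬ Gd P.U w v) ≤ qq d ^ 4 * Fintype.card V := by
    have := mul_le_mul_of_nonneg_left (k2.trans (show 2 * (P.U.card : ℝ) + d + 1
      ≤ 2 * (qq d ^ 16 * Fintype.card V) + d + 3 by linarith)) (show (0 : ℝ) ≤ d by positivity)
    linarith
  have k4 := mul_le_mul_of_nonneg_left k3 y0
  linarith

end Pool.Agent.MP_32a90a_pr.D

end

section

set_option autoImplicit false

namespace Pool.Agent.MP_32a90a_pr.D

open Finset Equiv Filter Pool.Agent.MP_32a90a_pr Pool.Agent.MP_32a90a_pr.L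

namespace EEns

lemma tau_small : ∀ᶠ d : ℕ in atTop, tau d ≤ 1 / 4 := by
  have h : Tendsto (fun d : ℕ => tau d) atTop (nhds 0) :=
    (tendsto_rpow_neg_atTop (by norm_num)).comp tendsto_natCast_atTop_atTop
  exact h.eventually (ge_mem_nhds (by norm_num))

lemma tau_pos {d : ℕ} (hd : 1 ≤ d) : 0 < tau d :=
  Real.rpow_pos_of_pos (by exact_mod_cast hd) _

/-- a pool outside a small set of slots -/
lemma exists_pool {V E : Type} [Fintype V] [DecidableEq V] [Fintype E] [DecidableEq E]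
    {w0 : E × Bool → V} {d : ℕ} (hw : Deg w0 d) (hd : 8 ≤ d) (A1 : Finset E)
    (hA : (A1.card : ℝ) ≤ Fintype.card E / 2) (hq : qq d ≤ 1) (hN : 1 ≤ Fintype.card V) :
    ∃ U : Finset E, Disjoint U A1 ∧ U.card = ⌈qq d ^ 16 * Fintype.card V⌉₊ := by
  have h1 := card_half hw
  have hd' : (8 : ℝ) ≤ d := by exact_mod_cast hd
  have hN' : (1 : ℝ) ≤ Fintype.card V := by exact_mod_cast hN
  have hq0 : 0 ≤ qq d := (Real.exp_pos _).le
  have hq1 : qq d ^ 16 ≤ 1 := pow_le_one₀ hq0 hq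
  have hc : ⌈qq d ^ 16 * Fintype.card V⌉₊ ≤ (univ \ A1).card := by
    rw [Nat.ceil_le, card_sdiff_of_subset (subset_univ _), card_univ, Nat.cast_sub (card_le_univ _)]
    nlinarith
  obtain ⟨U, hU, hUc⟩ := exists_subset_card_eq hc
  exact ⟨U, disjoint_left.2 fun a ha => (mem_sdiff.1 (hU ha)).2, hUc⟩

section chain
variable {E : Type} [DecidableEq E] {A0 A1 : Finset E}

lemma exists_chain (h : A0 ⊆ A1) : ∃ (m : ℕ) (e : Fin m → E), (m : ℝ) = A1.card - A0.card ∧
    Ak A0 e m = A1 ∧ (∀ k, e k ∈ A1) ∧ (∀ k : Fin m, e k ∉ Ak A0 e k.val) ∧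
    ∀ k, A0 ⊆ Ak A0 e k ∧ Ak A0 e k ⊆ A1 := by
  let e : Fin (A1 \ A0).card → E := fun i => ((A1 \ A0).equivFin.symm i).1
  have he : ∀ i, e i ∈ A1 \ A0 := fun i => ((A1 \ A0).equivFin.symm i).2
  have hinj : Function.Injective e := fun i j hij =>
    (A1 \ A0).equivFin.symm.injective (Subtype.ext hij)
  have hsub : ∀ k, Ak A0 e k ⊆ A1 := by
    intro k a ha
    rcases mem_union.1 ha with ha | ha
    · exact h ha
    · obtain ⟨i, -, rfl⟩ := mem_image.1 ha
      exact (mem_sdiff.1 (he i)).1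
  refine ⟨_, e, ?_, ?_, fun k => (mem_sdiff.1 (he k)).1, ?_,
    fun k => ⟨subset_union_left, hsub k⟩⟩
  · rw [card_sdiff_of_subset h, Nat.cast_sub (card_le_card h)]
  · refine subset_antisymm (hsub _) fun a ha => ?_
    by_cases h0 : a ∈ A0
    · exact mem_union_left _ h0
    · refine mem_union_right _ (mem_image.2 ⟨(A1 \ A0).equivFin ⟨a, mem_sdiff.2 ⟨ha, h0⟩⟩, ?_, ?_⟩)
      · simp
      · simp [e]
  · intro k hk
    rcases mem_union.1 hk with hk | hk
    · exact (mem_sdiff.1 (he k)).2 hk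
    · obtain ⟨i, hi, hik⟩ := mem_image.1 hk
      have := hinj hik
      subst this
      simp at hi
end chain

lemma ind_lt_one {P : Prop} (h : ind P < 1) : ¬ P := fun hp => by
  rw [ind_pos hp] at h; exact lt_irrefl _ h

/-- the base point of the family -/
noncomputable abbrev Pb {V E : Type} (d : ℕ) (U : Finset E) (e : E) (A : Finset E) (y g : ℝ) :
    Pk V E :=
  ⟨U, e, A, 1 / qq d ^ 4, y * qq d ^ 4, qq d ^ 2, 1, 1, 0, g, fun _ _ => 0, ∅⟩

lemma Pb_y {V E : Type} (d : ℕ) (U : Finset E) (e : E) (A : Finset E) (y g : ℝ) :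
    (Pb d U e A y g : Pk V E).y = y := by
  have hq : 0 < qq d := Real.exp_pos _
  simp only [Pk.y]
  field_simp

lemma Pb_ok {V E : Type} [Fintype V] [Fintype E] [DecidableEq E] {d : ℕ} {U : Finset E} {e : E}
    {A : Finset E} {y g : ℝ} (h1 : e ∉ U) (h2 : e ∉ A) (h3 : Disjoint U A)
    (h4 : U.card = ⌈qq d ^ 16 * Fintype.card V⌉₊) (h5 : (A.card : ℝ) ≤ 2 * tau d * Fintype.card E)
    (hq : qq d ≤ 1) (hy : qq d ≤ y) (hy' : y ≤ 1 / 10 ^ 11) (hg : 0 ≤ g) (hg' : g ≤ qq d ^ 16) :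
    (Pb d U e A y g : Pk V E).Ok d := by
  have hq0 : 0 < qq d := Real.exp_pos _
  have h4' : 0 < qq d ^ 4 := by positivity
  have h8 : 0 < qq d ^ 8 := by positivity
  refine ⟨h1, h2, h3, h4, h5, ?_, le_rfl, ?_, ?_, ?_, rfl, le_rfl, by simp only; linarith, le_rfl,
    by simp only; linarith, by simp, hg, ?_, fun _ _ => by simp only [abs_zero]; linarith⟩
  · exact one_le_one_div h4' (pow_le_one₀ hq0.le hq)
  · calc qq d ^ 5 = qq d * qq d ^ 4 := by ring
      _ ≤ y * qq d ^ 4 := mul_le_mul_of_nonneg_right hy h4'.le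
  · calc y * qq d ^ 4 ≤ 1 * qq d ^ 4 :=
          mul_le_mul_of_nonneg_right (hy'.trans (by norm_num)) h4'.le
      _ = _ := one_mul _
  · rw [Pb_y]; exact hy'
  · exact hg'.trans (pow_le_pow_of_le_one hq0.le hq (by norm_num))

end EEns

open EEns in
theorem stEns_of (hJ : StJm) (hGK : StGK) (hGR : StGR) (hNO : StNO) (hPur : StPur) (hTel : StTel)
    (hk : StOkG) (hN : StDevN) : StEns := by
  filter_upwards [hJ, hTel, eventually_ge_atTop 8, tau_small] with d hJ hTel hd hτ ε hε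
  obtain ⟨hqd, hq100, Jm, hJm, hJy, hyj⟩ := hJ
  have hd3 : 3 ≤ d := by omega
  have hd0 : (8 : ℝ) ≤ d := by exact_mod_cast hd
  have hq0 : 0 < qq d := Real.exp_pos _
  have hq1 : qq d ≤ 1 := by nlinarith
  obtain ⟨g, hg0, hg, hPur⟩ := hPur d ε hd3 hε
  refine ((hGK d ε hd3 hε).and ((hGR d (ε / 2) hd (by positivity)).and
    ((hNO d (ε / 2) hd3 (by positivity)).and (hTel.and (hPur.and (hN d 1 hd3 one_pos)))))).mono ?_
  intro V E _ _ _ _ w0 hw ⟨cGK, cGR, cNO, cTel, cPur, hV, hE, _, _⟩ A0 A1 h01 hA1 hm hVV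
  have hEpos : (0 : ℝ) < Fintype.card E := by exact_mod_cast Fintype.card_pos
  obtain ⟨U, hU, hUc⟩ := exists_pool hw hd A1 (by nlinarith) hq1 Fintype.card_pos
  obtain ⟨m, e, hme, hAm, he1, he2, hAk⟩ := exists_chain h01
  have hm0 : 0 < m := by
    have : (0 : ℝ) < m := by
      rw [hme]; have := tau_pos (d := d) (by omega); nlinarith
    exact_mod_cast this
  have : Nonempty (Fin m) := ⟨⟨0, hm0⟩⟩
  let P : ℕ → Fin m → Pk V E := fun j k => Pb d U (e k) (Ak A0 e k.val) (yj d j) g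
  have hP : ∀ j ≤ Jm, ∀ k, (P j k).Ok d := fun j hj k =>
    Pb_ok (fun h => disjoint_left.1 hU h (he1 k)) (he2 k) (hU.mono_right (hAk k).2) hUc
      (le_trans (by exact_mod_cast card_le_card (hAk k).2) hA1) hq1 (hqd.trans (hyj j hj).1)
      (hyj j hj).2 hg0.le hg
  have hup : ∀ (θ : Co d → Fin (MM d + 1)) c, up θ c ≤ MM d + 1 := fun θ c => (θ c).2.le
  have hG : ∀ j ≤ Jm, ∀ k (θ : Co d → Fin (MM d + 1)), ((P j k).grid d (up θ)).Ok d :=
    fun j hj k θ => (hk V E d (P j k) hd3 (hP j hj k)).1 _ (hup θ)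
  let F : Fin m → (Co d → Fin (MM d + 1)) → ℝ := fun k θ =>
    ∑ j ∈ range (Jm + 1), (ind (¬ ∃ c cp : ℝ, ((P j k).grid d (up θ)).EnsK d w0 c cp ε)
      + ind (qq d ≤ ((P j k).grid d (up θ)).mH w0))
    + ind (¬ ∃ r : Bool → ℤ → ℝ, (∀ b l, 0 ≤ r b l ∧ r b l ≤ 1) ∧
        ∀ x : ℝ, ((P 0 k).setx x).Ok d → (((P 0 k).setx x).grid d (up θ)).RC d w0 r (ε / 2))
  have hH : ∀ j ≤ Jm, ∀ θ : Co d → Fin (MM d + 1),
      (avg fun k : Fin m => ind (qq d ≤ ((P j k).grid d (up θ)).mH w0)) ≤ 11 * qq d := by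
    intro j hj θ
    obtain ⟨t1, t2⟩ := cTel ((P j ⟨0, hm0⟩).grid d (up θ)) m e A0 A1 (hG j hj _ θ) rfl rfl hAm
      (fun k => hG j hj k θ) (by rw [hme]; exact hm) hVV
    calc _ ≤ avg fun k : Fin m => ((P j k).grid d (up θ)).mH w0 / qq d :=
          avg_mono fun k => ind_le_div (t2 k) hq0
      _ = (avg fun k : Fin m => ((P j k).grid d (up θ)).mH w0) / qq d := avg_div _ _
      _ ≤ 11 * qq d ^ 2 / qq d := div_le_div_of_nonneg_right t1 hq0.le
      _ = 11 * qq d := by field_simp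
  have hF : (avg fun k => avg fun θ => F k θ) < 1 := by
    have e1 : (avg fun k => avg fun θ => F k θ)
        = ∑ j ∈ range (Jm + 1), ((avg fun k => avg fun θ : Co d → Fin (MM d + 1) =>
            ind (¬ ∃ c cp : ℝ, ((P j k).grid d (up θ)).EnsK d w0 c cp ε))
          + avg fun θ : Co d → Fin (MM d + 1) => avg fun k =>
            ind (qq d ≤ ((P j k).grid d (up θ)).mH w0))
        + avg fun k => avg fun θ : Co d → Fin (MM d + 1) =>
          ind (¬ ∃ r : Bool → ℤ → ℝ, (∀ b l, 0 ≤ r b l ∧ r b l ≤ 1) ∧ ∀ x : ℝ,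
            ((P 0 k).setx x).Ok d → (((P 0 k).setx x).grid d (up θ)).RC d w0 r (ε / 2)) := by
      simp only [F, avg_add, avg_sum]
      congr 1
      exact sum_congr rfl fun j _ => by rw [avg_comm (α := Co d → Fin (MM d + 1))]
    rw [e1]
    have s1 : ∑ j ∈ range (Jm + 1), ((avg fun k => avg fun θ : Co d → Fin (MM d + 1) =>
            ind (¬ ∃ c cp : ℝ, ((P j k).grid d (up θ)).EnsK d w0 c cp ε))
          + avg fun θ : Co d → Fin (MM d + 1) => avg fun k =>
            ind (qq d ≤ ((P j k).grid d (up θ)).mH w0))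
        ≤ ∑ _j ∈ range (Jm + 1), (18 * qq d + 11 * qq d) := by
      refine sum_le_sum fun j hj => ?_
      have hj' : j ≤ Jm := Nat.lt_succ_iff.1 (mem_range.1 hj)
      exact add_le_add (avg_le_const (by positivity) fun k => cGK _ (hP j hj' k))
        (avg_le_const (by positivity) fun θ => hH j hj' θ)
    have s2 := avg_le_const (α := Fin m) (by positivity) fun k =>
      cGR (P 0 k) (hP 0 (Nat.zero_le _) k) hg
    rw [sum_const, card_range, nsmul_eq_mul] at s1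
    have hJ' : ((Jm + 1 : ℕ) : ℝ) ≤ d + 1 := by exact_mod_cast Nat.succ_le_succ hJm
    have s3 : ((Jm + 1 : ℕ) : ℝ) * (18 * qq d + 11 * qq d) ≤ (d + 1) * (18 * qq d + 11 * qq d) :=
      mul_le_mul_of_nonneg_right hJ' (by positivity)
    nlinarith
  obtain ⟨k, hk1⟩ := exists_le_avg fun k => avg fun θ => F k θ
  obtain ⟨θ, hθ⟩ := exists_le_avg fun θ => F k θ
  have hlt : F k θ < 1 := hθ.trans_lt (hk1.trans_lt hF)
  have hnn : ∀ j ∈ range (Jm + 1),
      0 ≤ ind (¬ ∃ c cp : ℝ, ((P j k).grid d (up θ)).EnsK d w0 c cp ε)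
        + ind (qq d ≤ ((P j k).grid d (up θ)).mH w0) :=
    fun j _ => add_nonneg (ind_nonneg _) (ind_nonneg _)
  have hj1 : ∀ j ≤ Jm, ind (¬ ∃ c cp : ℝ, ((P j k).grid d (up θ)).EnsK d w0 c cp ε)
      + ind (qq d ≤ ((P j k).grid d (up θ)).mH w0) < 1 := fun j hj =>
    ((single_le_sum hnn (mem_range.2 (Nat.lt_succ_of_le hj))).trans
      (le_add_of_nonneg_right (ind_nonneg _))).trans_lt hlt
  obtain ⟨r, hr, hRC⟩ := not_not.1 (ind_lt_one
    ((le_add_of_nonneg_left (sum_nonneg hnn)).trans_lt hlt))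
  have hall : ∀ j, ∃ (c cp : ℝ) (T : Finset V), j ≤ Jm →
      (((P j k).grid d (up θ)).setT T).Ens d w0 r c cp ε := by
    intro j
    by_cases hj : j ≤ Jm
    · obtain ⟨c, cp, hc⟩ := not_not.1 (ind_lt_one
        ((le_add_of_nonneg_right (ind_nonneg _)).trans_lt (hj1 j hj)))
      have hmH := not_le.1 (ind_lt_one
        ((le_add_of_nonneg_left (ind_nonneg _)).trans_lt (hj1 j hj)))
      obtain ⟨T, hT⟩ := cPur _ (hG j hj k θ) rfl
      refine ⟨c, cp, T, fun _ => ⟨hc, rfl, rfl, ?_, ?_, hT, hmH.le⟩⟩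
      · exact (hyj j hj).1.trans_eq (Pb_y (V := V) d U (e k) (Ak A0 e k.val) (yj d j) g).symm
      · have n1 := cNO _ (hG j hj k θ) rfl rfl
        have n2 := hRC (yj d j * qq d ^ 4) (hP j hj k)
        have hok := (hk V E d _ hd3 (hG j hj k θ)).2.2.1
        refine le_trans ?_ ((add_le_add n1 n2).trans_eq (add_halves ε))
        unfold Pk.EQ
        rw [← ED_add]
        refine ED_mono fun w J => ?_
        refine le_trans ?_ (Cas.P_add _ _).le
        refine Cas.P_mono (hok _ _ _) fun γ σ => ?_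
        exact (ind_mono not_and_or.1).trans (ind_or_le _ _)
    · exact ⟨0, 0, ∅, fun h => absurd h hj⟩
  choose cs cps T hT using hall
  exact ⟨Ak A0 e k.val, Jm, fun j => ((P j k).grid d (up θ)).setT (T j), r, cs, cps, (hAk k).1,
    (hAk k).2, hJm, hJy, hr, fun j hj =>
      ⟨hT j hj, Pb_y (V := V) d U (e k) (Ak A0 e k.val) (yj d j) g, rfl⟩⟩

end Pool.Agent.MP_32a90a_pr.D

end

section

set_option autoImplicit false

namespace Pool.Agent.MP_32a90a_pr.D

open Finset Equiv Filter Pool.Agent.MP_32a90a_pr Pool.Agent.MP_32a90a_pr.L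

namespace EFinB

variable {V E : Type} [Fintype V] [DecidableEq V] [Fintype E] [DecidableEq E]

lemma sgn_not' (b : Bool) : sgn (!b) = -sgn b := by cases b <;> simp [sgn]

omit [DecidableEq E] in
lemma lz_eq (s : E → ℝ) (B : ℝ) (w : E × Bool → V) :
    lzH univ 1 s B w = Real.log (Zf 1 (HH s B w)) := rfl

/-- the global spin flip -/
def neg (V : Type) : (V → Bool) ≃ (V → Bool) where
  toFun := fun σ v => !σ v
  invFun := fun σ v => !σ v
  left_inv := fun σ => by funext v; simp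
  right_inv := fun σ => by funext v; simp

omit [DecidableEq E] [DecidableEq V] in
lemma HH_neg (s : E → ℝ) (B : ℝ) (w : E × Bool → V) (σ : V → Bool) :
    HH s B w (neg V σ) = en Y1 s w σ - B * mag σ := by
  have h1 : en Y1 s w (neg V σ) = en Y1 s w σ := by
    unfold en Y1
    refine sum_congr rfl fun i _ => ?_
    show s i * (sgn (!σ _) * sgn (!σ _)) = _
    rw [sgn_not', sgn_not']; ring
  have h2 : mag (neg V σ) = -mag σ := by
    unfold mag
    rw [← sum_neg_distrib]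
    exact sum_congr rfl fun v _ => sgn_not' _
  unfold HH
  rw [h1, h2]; ring

omit [DecidableEq E] in
lemma Z_mono (s : E → ℝ) (B : ℝ) (w : E × Bool → V) : Zf 1 (HH s 0 w) ≤ Zf 1 (HH s B w) := by
  have h1 : Zf 1 (HH s B w) = ∑ σ, Real.exp (1 * HH s B w (neg V σ)) :=
    (Equiv.sum_comp (neg V) fun σ => Real.exp (1 * HH s B w σ)).symm
  have h2 : 2 * Zf 1 (HH s 0 w) ≤ Zf 1 (HH s B w) + Zf 1 (HH s B w) := by
    nth_rewrite 2 [h1]
    unfold Zf
    rw [mul_sum, ← sum_add_distrib]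
    refine sum_le_sum fun σ _ => ?_
    rw [HH_neg]
    unfold HH
    simp only [one_mul, zero_mul, add_zero]
    rw [Real.exp_add, sub_eq_add_neg, Real.exp_add]
    have a1 := Real.add_one_le_exp (B * mag σ)
    have a2 := Real.add_one_le_exp (-(B * mag σ))
    have a3 := Real.exp_pos (en Y1 s w σ)
    nlinarith
  linarith

omit [DecidableEq E] in
lemma lz_mono (s : E → ℝ) (B : ℝ) (w : E × Bool → V) :
    Real.log (Zf 1 (HH s 0 w)) ≤ Real.log (Zf 1 (HH s B w)) :=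
  Real.log_le_log (Zf_pos _ _) (Z_mono s B w)

omit [Fintype V] [DecidableEq V] in
lemma en_diff (Z : Finset E) (J : E → Bool) (w : E × Bool → V) (σ : V → Bool) :
    |en Y1 (cp Z ∅ ∅ J) w σ - en Y1 (cp ∅ ∅ ∅ J) w σ| ≤ Z.card := by
  unfold en
  rw [← sum_sub_distrib]
  refine (abs_sum_le_sum_abs _ _).trans ?_
  have h : ∀ i : E, |cp Z ∅ ∅ J i * Y1 σ (w (i, false)) (w (i, true))
      - cp ∅ ∅ ∅ J i * Y1 σ (w (i, false)) (w (i, true))| ≤ if i ∈ Z then 1 else 0 := by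
    intro i
    by_cases hi : i ∈ Z
    · simp [cp, hi, Y1, abs_mul]
    · simp [cp, hi]
  refine (sum_le_sum fun i _ => h i).trans ?_
  simp

lemma gad_le {tp tm : ℝ} (h1 : 1 ≤ tp) (h2 : tp ≤ 2) (h3 : 1 ≤ tm) (h4 : tm ≤ 2)
    (o : Option Bool) (s : Bool) : |gad tp tm o s| ≤ 2 := by
  cases o with
  | none => simp [gad]
  | some b =>
    show |if b = s then tp else -tm| ≤ 2
    split_ifs
    · rw [abs_le]; constructor <;> linarith
    · rw [abs_le]; constructor <;> linarith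

lemma H_diff {d : ℕ} (P : Pk V E) (hP : P.Ok d) (hA : P.A = ∅) (hq : qq d ^ 8 ≤ 1 / 2)
    (w : E × Bool → V) (J : E → Bool) (g : Gam (V → Bool) (cav P.U)) (σ : V → Bool) :
    |(P.full w J).cas.H g σ - HH (cp ∅ ∅ ∅ J) P.B w σ|
      ≤ 5 * P.U.card + 1 + 3 * qq d ^ 8 * Fintype.card V := by
  obtain ⟨-, -, -, -, -, -, -, -, -, -, -, t1, t2, t3, t4, -, g0, g1, hr⟩ := hP
  have e : (P.full w J).cas.H g σ - HH (cp ∅ ∅ ∅ J) P.B w σ
      = (en Y1 (cp P.Z ∅ ∅ J) w σ - en Y1 (cp ∅ ∅ ∅ J) w σ)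
        + (∑ v, (P.rwd (σ v) (loc (P.s J) w σ v) + P.g * (sgn (g.1 v) * sgn (σ v))))
        + ∑ a, gad P.tp P.tm (g.2 a) (σ (w a)) := by
    have e1 : P.s J = cp P.Z ∅ ∅ J := by rw [Pk.s, hA]
    simp only [Pk.full, Pk.sys, Sys.cas, HH, mag, sum_add_distrib, mul_sum, e1]
    ring
  have b1 := en_diff P.Z J w σ
  have b2 : |∑ v, (P.rwd (σ v) (loc (P.s J) w σ v) + P.g * (sgn (g.1 v) * sgn (σ v)))|
      ≤ 3 * qq d ^ 8 * Fintype.card V := by
    refine (abs_sum_le_sum_abs _ _).trans ?_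
    have h : ∀ v : V, |P.rwd (σ v) (loc (P.s J) w σ v) + P.g * (sgn (g.1 v) * sgn (σ v))|
        ≤ 3 * qq d ^ 8 := by
      intro v
      refine (abs_add_le _ _).trans ?_
      have := hr (σ v) (loc (P.s J) w σ v)
      rw [abs_mul, abs_mul, abs_sgn, abs_sgn, abs_of_nonneg g0]
      linarith
    refine (sum_le_sum fun v _ => h v).trans ?_
    rw [sum_const, card_univ, nsmul_eq_mul, mul_comm]
  have b3 : |∑ a, gad P.tp P.tm (g.2 a) (σ (w a))| ≤ 4 * P.U.card := by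
    refine (abs_sum_le_sum_abs _ _).trans ?_
    refine (sum_le_sum fun a _ => gad_le t1 (by linarith) t3 (by linarith) _ _).trans ?_
    rw [sum_const, card_univ, nsmul_eq_mul, Fintype.card_coe, card_cav]
    linarith
  have b4 : (P.Z.card : ℝ) ≤ P.U.card + 1 := by
    exact_mod_cast card_insert_le P.e P.U
  rw [e]
  have := abs_add_three (en Y1 (cp P.Z ∅ ∅ J) w σ - en Y1 (cp ∅ ∅ ∅ J) w σ)
    (∑ v, (P.rwd (σ v) (loc (P.s J) w σ v) + P.g * (sgn (g.1 v) * sgn (σ v))))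
    (∑ a, gad P.tp P.tm (g.2 a) (σ (w a)))
  linarith

lemma point (ht : StTilt) (hf : StFix) [Nonempty V] (P : Pk V E) (hβ : P.β = 1) (b : ℝ)
    (w : E × Bool → V) (J : E → Bool) (hC : (P.full w J).cas.Ok)
    (hb : ∀ g σ, |(P.full w J).cas.H g σ - HH (cp ∅ ∅ ∅ J) P.B w σ| ≤ b) :
    lzH univ 1 (cp ∅ ∅ ∅ J) 0 w
        + P.B * Fintype.card V * (P.full w J).P (fun _ σ => avg fun v => sgn (σ v)) - 2 * b
      ≤ lzH univ 1 (cp ∅ ∅ ∅ J) (2 * P.B) w := by
  set C := (P.full w J).cas with hCdef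
  have hCβ : C.β = 1 := hβ
  have hx : 0 < C.x := hC.2.1
  have hy : C.y = C.x := by rw [Cas.y, hCβ, one_mul]
  have hp : ∑ g, C.p g = 1 := Sys.sum_p
  have t := (ht _ _ C (fun _ σ => P.B * mag σ) hC).2.2.1
  have f1 := (hf _ _ C (HH (cp ∅ ∅ ∅ J) P.B w) b hC hp hb).1
  have f2 := (hf _ _ (C.add fun _ σ => P.B * mag σ) (HH (cp ∅ ∅ ∅ J) (2 * P.B) w) b
    (hC.add _) hp (fun g σ => by
      have e : (C.add fun _ σ => P.B * mag σ).H g σ - HH (cp ∅ ∅ ∅ J) (2 * P.B) w σ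
          = C.H g σ - HH (cp ∅ ∅ ∅ J) P.B w σ := by
        simp only [Cas.add, HH]; ring
      rw [e]; exact hb g σ)).1
  have ey : (C.add fun _ σ => P.B * mag σ).y = C.x := hy
  have ex : (C.add fun _ σ => P.B * mag σ).x = C.x := rfl
  have eb : (C.add fun _ σ => P.B * mag σ).β = 1 := hCβ
  rw [ey, ex, eb] at f2
  rw [hy, hCβ] at f1
  rw [hy] at t
  have hN : (0 : ℝ) < Fintype.card V := by exact_mod_cast Fintype.card_pos
  have eP : C.P (fun _ σ => P.B * mag σ)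
      = P.B * Fintype.card V * C.P (fun _ σ => avg fun v => sgn (σ v)) := by
    rw [← Cas.P_mul]
    refine Cas.P_congr fun _ σ => ?_
    unfold avg mag
    field_simp
  have m := lz_mono (cp ∅ ∅ ∅ J) P.B w
  rw [lz_eq, lz_eq]
  show _ + P.B * Fintype.card V * C.P (fun _ σ => avg fun v => sgn (σ v)) - 2 * b ≤ _
  rw [← eP]
  have f1' := (abs_le.1 f1).1
  have f2' := (abs_le.1 f2).2
  refine le_of_mul_le_mul_left ?_ hx
  nlinarith [mul_le_mul_of_nonneg_left m hx.le]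

end EFinB

theorem stFinB (ht : StTilt) (hf : StFix) (hk : StOkG) : StFinB := by
  intro d hd
  have hq : 0 < qq d := Real.exp_pos _
  have hq8 : 0 < qq d ^ 8 := pow_pos hq 8
  have hev : ∀ᶠ N : ℕ in atTop, 6 / qq d ^ 8 ≤ (N : ℝ) :=
    tendsto_natCast_atTop_atTop.eventually_ge_atTop _
  refine (Big.card d (fun N => 6 / qq d ^ 8 ≤ (N : ℝ)) hev).mono ?_
  intro V E _ _ _ _ w0 _ hN P hP hβ hA
  have hN6 : 6 ≤ qq d ^ 8 * Fintype.card V := by
    rw [div_le_iff₀ hq8] at hN; linarith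
  have hV : Nonempty V := by
    rw [← Fintype.card_pos_iff]
    by_contra h0
    have : Fintype.card V = 0 := by omega
    rw [this] at hN6
    norm_num at hN6
  obtain ⟨-, -, hok, -, -, hq9, -⟩ := hk V E d P hd hP
  have h8 : qq d ^ 8 ≤ 1 / 5 := by
    have : qq d ^ 8 ≤ qq d ^ 1 := pow_le_pow_of_le_one hq.le (by linarith) (by norm_num)
    rw [pow_one] at this; linarith
  have hU : (P.U.card : ℝ) ≤ qq d ^ 16 * Fintype.card V + 1 := by
    rw [hP.2.2.2.1]
    exact (Nat.ceil_lt_add_one (by positivity)).le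
  have h16 : 5 * (qq d ^ 16 * Fintype.card V) ≤ qq d ^ 8 * Fintype.card V := by
    have e : qq d ^ 16 = qq d ^ 8 * qq d ^ 8 := by ring
    rw [e]
    nlinarith
  have hpt : ∀ w J, lzH univ 1 (cp ∅ ∅ ∅ J) 0 w
        + P.B * Fintype.card V * (P.full w J).P (fun _ σ => avg fun v => sgn (σ v))
        - 10 * qq d ^ 8 * Fintype.card V ≤ lzH univ 1 (cp ∅ ∅ ∅ J) (2 * P.B) w := by
    intro w J
    have := EFinB.point ht hf P hβ (5 * qq d ^ 8 * Fintype.card V) w J (hok _ _ _) fun g σ =>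
      (EFinB.H_diff P hP hA (by linarith) w J g σ).trans (by linarith)
    linarith
  have := ED_mono (w0 := w0) hpt
  rw [ED_sub, ED_add, ED_mul, ED_const] at this
  exact this

end Pool.Agent.MP_32a90a_pr.D

end

section

set_option autoImplicit false

namespace Pool.Agent.MP_32a90a_pr.D

open Finset Equiv Filter Pool.Agent.MP_32a90a_pr Pool.Agent.MP_32a90a_pr.L

namespace EGK

lemma arith {y r δ o F0 Fp Fm : ℝ} (ha : 0 < y * r) (hδ : 0 ≤ δ)
    (h1 : ¬ Fp - F0 + y * r * (δ / 2) ≤ y * (r * o))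
    (h2 : ¬ y * (r * o) ≤ F0 - Fm - y * r * (δ / 2))
    (h3 : ¬ y * r * (δ / 2) < Fp + Fm - 2 * F0) : |o - (Fp - F0) / (y * r)| ≤ δ := by
  have e : o - (Fp - F0) / (y * r) = (y * r * o - (Fp - F0)) / (y * r) := by
    rw [sub_div (y * r * o), mul_div_cancel_left₀ _ ha.ne']
  have h4 := mul_nonneg ha.le hδ
  rw [e, abs_div, abs_of_pos ha, div_le_iff₀ ha, abs_le]
  constructor <;> linarith

lemma EQ_or {V E : Type} [Fintype V] [DecidableEq V] [Fintype E] [DecidableEq E] (P : Pk V E)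
    (w0 : E × Bool → V) (hok : ∀ W s w, (P.sys W s w).cas.Ok)
    {R A B : (E × Bool → V) → (E → Bool) → Gam (V → Bool) (cav P.U) → (V → Bool) → Prop}
    (h : ∀ w J g σ, ¬ A w J g σ → ¬ B w J g σ → ¬ R w J g σ) :
    (P.EQ w0 fun w J g σ => ind (R w J g σ))
      ≤ (P.EQ w0 fun w J g σ => ind (A w J g σ)) + P.EQ w0 fun w J g σ => ind (B w J g σ) := by
  unfold Pk.EQ
  rw [← ED_add]
  refine ED_mono fun w J => (Cas.P_mono (hok _ _ _) fun g σ =>
    (ind_mono fun hr => ?_).trans (ind_or_le _ _)).trans_eq (Cas.P_add _ _)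
  by_contra hn
  exact h w J g σ (fun a => hn (Or.inl a)) (fun b => hn (Or.inr b)) hr

lemma frac {y q n k : ℝ} (hy : 0 < y) (hq : 0 < q) (hq1 : q ≤ 1) (hk : 0 < k)
    (h : q ^ 2 * n ≤ 2 * k) :
    (1 + 2 * (y * (q ^ 12 * n)) / (y * q ^ 12 * (q * k / 2))) * q ^ 4 ≤ 9 * q := by
  have e : (1 + 2 * (y * (q ^ 12 * n)) / (y * q ^ 12 * (q * k / 2))) * q ^ 4
      = q * q ^ 3 + q * (4 * (q ^ 2 * n) / k) := by
    field_simp
    ring
  have h1 : q ^ 3 ≤ 1 := pow_le_one₀ hq.le hq1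
  have h2 : 4 * (q ^ 2 * n) / k ≤ 8 := by
    rw [div_le_iff₀ hk]
    linarith
  rw [e]
  linarith [mul_le_mul_of_nonneg_left h1 hq.le, mul_le_mul_of_nonneg_left h2 hq.le]

end EGK

theorem stGK (h1 : StGridF) (h2 : StDev) (h3 : StDevN) (hk : StOkG) : StGK := by
  intro d ε hd hε
  refine (h3 d (ε / 4) hd (by positivity)).mono ?_
  rintro V E _ _ _ _ w0 - ⟨hV, hE, hN, hb⟩ P hP
  obtain ⟨k1, k2, -, hy, hy5, hq9, -⟩ := hk V E d P hd hP
  have hq : 0 < qq d := Real.exp_pos _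
  have hU : qq d ^ 16 * Fintype.card V ≤ P.U.card := by
    rw [hP.2.2.2.1]
    exact Nat.le_ceil _
  have hn : (Fintype.card (cav P.U) : ℝ) = 2 * P.U.card := by
    rw [Fintype.card_coe, card_cav]
  have hρ : P.ρ = qq d ^ 2 := hP.2.2.2.2.2.2.2.2.2.2.1
  obtain ⟨k, hk0⟩ : ∃ k : ℝ, k = P.ρ / (2 * (1 - P.ρ)) * Fintype.card (cav P.U) := ⟨_, rfl⟩
  have a1 : qq d ^ 2 * Fintype.card (cav P.U) ≤ 2 * k := by
    have b1 : qq d ^ 2 < 1 := pow_lt_one₀ hq.le (by linarith) two_ne_zero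
    have b2 : qq d ^ 2 ≤ 2 * (qq d ^ 2 / (2 * (1 - qq d ^ 2))) := by
      rw [← mul_div_assoc, le_div_iff₀ (by linarith)]
      nlinarith [sq_nonneg (qq d ^ 2)]
    rw [hk0, hρ, ← mul_assoc]
    exact mul_le_mul_of_nonneg_right b2 (Nat.cast_nonneg _)
  have a2 : qq d ^ 2 * (qq d ^ 16 * Fintype.card V) ≤ k := by
    have := mul_le_mul_of_nonneg_left hU (pow_pos hq 2).le
    rw [hn] at a1
    linarith
  have a3 : 0 < k := lt_of_lt_of_le (mul_pos (pow_pos hq 2) (by linarith)) a2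
  have a4 : 0 < P.y * qq d ^ 12 := mul_pos hy (pow_pos hq 12)
  have a5 : 0 < qq d * k := mul_pos hq a3
  have a6 : 0 < P.y * qq d ^ 12 * (qq d * k / 2) := mul_pos a4 (half_pos a5)
  have a7 := hb P.y (P.y * qq d ^ 12 * (qq d * k / 2)) hy5 (by
    have b1 : qq d * (qq d ^ 2 * (qq d ^ 16 * Fintype.card V)) ≤ 1 / 2 * k :=
      mul_le_mul (by linarith) a2 (by positivity) (by norm_num)
    have b2 := mul_le_mul_of_nonneg_left b1 (mul_pos a4 hq).le
    calc _ = P.y * qq d ^ 12 * qq d * (qq d * (qq d ^ 2 * (qq d ^ 16 * Fintype.card V))) := by ring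
      _ ≤ _ := b2
      _ = _ := by ring)
  have gg : ∀ b : Bool, _ ≤ 9 * qq d := fun b =>
    (h1 V E d P w0 (Sum.inr b) _ hd hP a6).trans (EGK.frac hy hq (by linarith) a3 a1)
  refine le_trans ?_ ((add_le_add (gg true) (gg false)).trans_eq (by ring))
  rw [← avg_add]
  refine avg_mono fun θ => (ind_mono fun hr => ?_).trans (ind_or_le _ _)
  by_contra hn'
  have hθ : ∀ c, up θ c ≤ MM d := fun c => Nat.lt_succ_iff.1 (θ c).2
  have dev : ∀ c : Co d, ¬ (up θ c = 0 ∨ P.y * qq d ^ 12 * (qq d * k / 2)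
      < (P.grid d (Function.update (up θ) c (up θ c + 1))).FN w0
        + (P.grid d (Function.update (up θ) c (up θ c - 1))).FN w0
        - 2 * (P.grid d (up θ)).FN w0) → ∃ s : ℝ, ((P.grid d (up θ)).EQ w0 fun w J g σ =>
          ind (¬ |P.obs d c w J g σ - s| ≤ qq d * k)) ≤ ε / 2 := by
    intro c hc
    rw [not_or] at hc
    obtain ⟨b1, b2⟩ := h2 V E d P w0 (up θ) c _ hd hP hθ (Nat.pos_of_ne_zero hc.1) a6.le
    refine ⟨_, (EGK.EQ_or _ w0 (k2 _) fun w J g σ c1 c2 =>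
      not_not.2 (EGK.arith a4 a5.le c1 c2 hc.2)).trans ?_⟩
    linarith
  rw [not_or] at hn'
  obtain ⟨s1, d1⟩ := dev _ hn'.1
  obtain ⟨s2, d2⟩ := dev _ hn'.2
  refine hr ⟨-s2 / (Real.exp (-(P.y * (P.grid d (up θ)).tm)) * k),
    s1 / (Real.exp (P.y * (P.grid d (up θ)).tp) * k),
    k1 _ fun c => (hθ c).trans (Nat.le_succ _), ?_⟩
  refine (EGK.EQ_or _ w0 (k2 _) fun w J g σ c1 c2 => not_not.2 ?_).trans
    ((add_le_add d1 d2).trans_eq (add_halves ε))
  rw [not_not] at c1 c2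
  subst hk0
  constructor
  · refine le_of_eq_of_le ?_ c2
    rw [← abs_neg]
    congr 1
    change -((P.full w J).Km g σ - -s2 / (Real.exp (-(P.y * (P.grid d (up θ)).tm)) *
      (P.ρ / (2 * (1 - P.ρ)) * Fintype.card (cav P.U))) * Real.exp (-(P.y * (P.grid d (up θ)).tm)) *
      (P.ρ / (2 * (1 - P.ρ)) * Fintype.card (cav P.U))) = -(P.full w J).Km g σ - s2
    rw [mul_assoc, div_mul_cancel₀ _ (mul_pos (Real.exp_pos _) a3).ne']
    ring
  · refine le_of_eq_of_le ?_ c1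
    congr 1
    change (P.full w J).Kp g σ - s1 / (Real.exp (P.y * (P.grid d (up θ)).tp) *
      (P.ρ / (2 * (1 - P.ρ)) * Fintype.card (cav P.U))) * Real.exp (P.y * (P.grid d (up θ)).tp) *
      (P.ρ / (2 * (1 - P.ρ)) * Fintype.card (cav P.U)) = (P.full w J).Kp g σ - s1
    rw [mul_assoc, div_mul_cancel₀ _ (mul_pos (Real.exp_pos _) a3).ne']

end Pool.Agent.MP_32a90a_pr.D

end

section

set_option autoImplicit false

namespace Pool.Agent.MP_32a90a_pr.D

open Finset Equiv Filter Pool.Agent.MP_32a90a_pr Pool.Agent.MP_32a90a_pr.L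

namespace EGR

lemma clip {u v e : ℝ} (h0 : 0 ≤ u) (h1 : u ≤ 1) (h : |u - v| ≤ e) :
    |u - max 0 (min 1 v)| ≤ e := by
  rw [abs_le] at h ⊢
  rcases le_total 1 v with a | a
  · rw [min_eq_left a, max_eq_right zero_le_one]
    constructor <;> linarith [h.1, h.2]
  · rw [min_eq_right a]
    rcases le_total 0 v with b | b
    · rw [max_eq_right b]
      exact h
    · rw [max_eq_left b]
      constructor <;> linarith [h.1, h.2]

lemma num {q N y y1 F Fp Fm G Gp Gm n : ℝ} (hq : 0 < q) (hq9 : q ≤ 1 / 9) (hN : 0 < N)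
    (hy : 0 < y) (hy1 : 0 < y1) (h0 : |F / y - G / y1| ≤ 18 * q ^ 16 * N)
    (hp : |Fp / y - Gp / y1| ≤ 18 * q ^ 16 * N) (hm : |Fm / y - Gm / y1| ≤ 18 * q ^ 16 * N)
    (h2 : Fp + Fm - 2 * F ≤ y * (q ^ 15 * N))
    (e1 : y1 * (q ^ 12 * n) < Gp - G + y1 * (q ^ 15 * N))
    (e2 : G - Gm - y1 * (q ^ 15 * N) < y1 * (q ^ 12 * n)) :
    |n / N - (Fp / y - F / y) / (q ^ 12 * N)| ≤ q ^ 2 := by
  have a2 : Fp / y + Fm / y - 2 * (F / y) ≤ q ^ 15 * N := by
    rw [← mul_div_assoc, ← add_div, ← sub_div, div_le_iff₀ hy]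
    linarith
  have a3 : q ^ 12 * n ≤ Gp / y1 - G / y1 + q ^ 15 * N := by
    rw [← sub_div, ← sub_le_iff_le_add, le_div_iff₀ hy1]
    linarith
  have a4 : G / y1 - Gm / y1 ≤ q ^ 12 * n + q ^ 15 * N := by
    rw [← sub_div, div_le_iff₀ hy1]
    linarith
  have hp12 : 0 < q ^ 12 * N := by positivity
  have e : n / N - (Fp / y - F / y) / (q ^ 12 * N)
      = (q ^ 12 * n - (Fp / y - F / y)) / (q ^ 12 * N) := by
    field_simp
  have a5 : 2 * (q ^ 15 * N) + 36 * (q ^ 16 * N) ≤ q ^ 2 * (q ^ 12 * N) := by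
    have : 2 * q + 36 * q ^ 2 ≤ 1 := by nlinarith
    have h14 : 0 < q ^ 14 * N := by positivity
    nlinarith
  have a6 : 0 < q ^ 15 * N := by positivity
  rw [e, abs_div, abs_of_pos hp12, div_le_iff₀ hp12, abs_le]
  rw [abs_le] at h0 hp hm
  constructor <;> linarith [h0.1, h0.2, hp.1, hp.2, hm.1, hm.2]

lemma ind_le_sum {ι : Type} [Fintype ι] {P : Prop} {f : ι → ℝ} (hf : ∀ i, 0 ≤ f i)
    (h : P → ∃ i, 1 ≤ f i) : ind P ≤ ∑ i, f i := by
  by_cases hp : P
  · obtain ⟨i, hi⟩ := h hp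
    rw [ind_pos hp]
    exact hi.trans (single_le_sum (fun j _ => hf j) (mem_univ i))
  · rw [ind_neg hp]
    exact sum_nonneg fun i _ => hf i

variable {V E : Type} [Fintype V] [DecidableEq V] [Fintype E] [DecidableEq E]

lemma EQ_le (P : Pk V E) (w0 : E × Bool → V) (hok : ∀ W s w, (P.sys W s w).cas.Ok) {ι : Type}
    [Fintype ι] {F : (E × Bool → V) → (E → Bool) → Gam (V → Bool) (cav P.U) → (V → Bool) → ℝ}
    {G G' : ι → (E × Bool → V) → (E → Bool) → Gam (V → Bool) (cav P.U) → (V → Bool) → ℝ}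
    (h : ∀ w J g σ, F w J g σ ≤ ∑ i, (G i w J g σ + G' i w J g σ)) :
    P.EQ w0 F ≤ ∑ i, (P.EQ w0 (G i) + P.EQ w0 (G' i)) := by
  unfold Pk.EQ
  simp only [← ED_add]
  rw [← ED_sum]
  refine ED_mono fun w J => ?_
  simp only [← Cas.P_add]
  rw [← Cas.P_sum]
  exact Cas.P_mono (hok _ _ _) (h w J)

omit [DecidableEq E] in
lemma cnt_le (s : E → ℝ) (w : E × Bool → V) (σ : V → Bool) (b : Bool) (l : ℤ) :
    0 ≤ cnt s w σ b l ∧ cnt s w σ b l ≤ Fintype.card V :=
  ⟨Nat.cast_nonneg _, by unfold cnt; exact_mod_cast card_le_univ _⟩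

lemma upd_le {d M : ℕ} (θ : Co d → Fin (M + 1)) (c : Co d) {n : ℕ} (hn : n ≤ M + 1) (k : Co d) :
    Function.update (up θ) c n k ≤ M + 1 := by
  by_cases h : k = c
  · rw [h, Function.update_self]
    exact hn
  · rw [Function.update_of_ne h]
    exact (θ k).2.le

end EGR

open EGR in
theorem stGR (h1 : StGridF) (h2 : StDev) (h3 : StDevN) (h4 : StCmp) (hk : StOkG) : StGR := by
  intro d ε hd hε
  have hd3 : 3 ≤ d := by omega
  have hD : (0 : ℝ) < 4 * (2 * d + 1) := by positivity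
  refine (h3 d (ε / (4 * (2 * d + 1))) hd3 (div_pos hε hD)).mono ?_
  intro V E _ _ _ _ w0 _ ⟨hV, hE, hN1, hdev⟩ P hP hg
  obtain ⟨hgr, -, -, hy, -, hq9, -⟩ := hk V E d P hd3 hP
  have hq : 0 < qq d := Real.exp_pos _
  have hN : (0 : ℝ) < Fintype.card V := by exact_mod_cast Fintype.card_pos
  have hκ : 0 < P.y * (qq d ^ 15 * Fintype.card V) := by positivity
  have hcav : (Fintype.card (cav P.U) : ℝ) ≤ 4 * qq d ^ 16 * Fintype.card V := by
    rw [Fintype.card_coe, card_cav, hP.2.2.2.1]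
    have := Nat.ceil_lt_add_one (a := qq d ^ 16 * Fintype.card V) (by positivity)
    linarith
  refine le_trans (avg_mono fun θ => ind_le_sum (ι := Bool × Fin (2 * d + 1))
    (f := fun bi => ind (up θ (Sum.inl bi) = 0 ∨ P.y * (qq d ^ 15 * Fintype.card V)
      < (P.grid d (Function.update (up θ) (Sum.inl bi) (up θ (Sum.inl bi) + 1))).FN w0
        + (P.grid d (Function.update (up θ) (Sum.inl bi) (up θ (Sum.inl bi) - 1))).FN w0
        - 2 * (P.grid d (up θ)).FN w0)) (fun _ => ind_nonneg _) fun hbad => ?_) ?_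
  · by_contra hn
    have hgood : ∀ bi : Bool × Fin (2 * d + 1), 1 ≤ up θ (Sum.inl bi) ∧
        (P.grid d (Function.update (up θ) (Sum.inl bi) (up θ (Sum.inl bi) + 1))).FN w0
          + (P.grid d (Function.update (up θ) (Sum.inl bi) (up θ (Sum.inl bi) - 1))).FN w0
          - 2 * (P.grid d (up θ)).FN w0 ≤ P.y * (qq d ^ 15 * Fintype.card V) := by
      intro bi
      by_contra hb
      refine hn ⟨bi, (ind_pos ?_).ge⟩
      rw [not_and_or, not_le, not_le, Nat.lt_one_iff] at hb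
      exact hb
    let sl : Bool × Fin (2 * d + 1) → ℝ := fun bi =>
      ((P.grid d (Function.update (up θ) (Sum.inl bi) (up θ (Sum.inl bi) + 1))).FN w0 / P.y
        - (P.grid d (up θ)).FN w0 / P.y) / (qq d ^ 12 * Fintype.card V)
    refine hbad ⟨fun b l => max 0 (min 1
      (if h : (l + d).toNat < 2 * d + 1 then sl (b, ⟨_, h⟩) else 0)),
      fun b l => ⟨le_max_left _ _, max_le zero_le_one (min_le_left _ _)⟩, fun x hx => ?_⟩
    obtain ⟨hgr1, hok1, -, hy1, hy5, -, -⟩ := hk V E d (P.setx x) hd3 hx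
    have hcmp : ∀ θ1 : Co d → ℕ, (∀ c, θ1 c ≤ MM d + 1) →
        |(P.grid d θ1).FN w0 / P.y - ((P.setx x).grid d θ1).FN w0 / (P.setx x).y|
          ≤ 18 * qq d ^ 16 * Fintype.card V := by
      intro θ1 hθ1
      refine (h4 V E d (P.grid d θ1) w0 x hd3 (hgr θ1 hθ1) (hgr1 θ1 hθ1)).trans ?_
      have := mul_le_mul_of_nonneg_right hg hN.le
      change 2 * (P.g * Fintype.card V + 2 * Fintype.card (cav P.U)) ≤ _
      linarith
    have ht : 0 ≤ (P.setx x).y * (qq d ^ 15 * Fintype.card V) := by positivity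
    have hsm := hdev (P.setx x).y ((P.setx x).y * (qq d ^ 15 * Fintype.card V)) hy5 (by
      rw [mul_assoc]
      exact mul_le_mul_of_nonneg_left (mul_le_mul_of_nonneg_right
        (pow_le_pow_of_le_one hq.le (by linarith) (by norm_num)) hN.le) hy1.le)
    have hdv := fun bi : Bool × Fin (2 * d + 1) => h2 V E d (P.setx x) w0 (up θ) (Sum.inl bi) _
      hd3 hx (fun k => Nat.le_of_lt_succ (θ k).2) (hgood bi).1 ht
    refine (EQ_le _ w0 (hok1 (up θ)) (ι := Bool × Fin (2 * d + 1)) fun w J g σ => ?_).trans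
      ((sum_le_sum fun bi _ => add_le_add ((hdv bi).1.trans hsm) ((hdv bi).2.trans hsm)).trans
        (le_of_eq ?_))
    · refine ind_le_sum (fun _ => add_nonneg (ind_nonneg _) (ind_nonneg _)) fun hb => ?_
      by_contra hc
      refine hb fun b l hl => ?_
      have hl' := abs_le.1 hl
      have hi : (l + d).toNat < 2 * d + 1 := by omega
      have el : lev d ⟨_, hi⟩ = l := by
        simp only [lev]
        omega
      have c1 := cnt_le (P.s J) w σ b l
      beta_reduce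
      rw [dif_pos hi]
      refine clip (div_nonneg c1.1 hN.le) ((div_le_one hN).2 c1.2) ?_
      refine num hq hq9 hN hy hy1 (hcmp _ fun c => (θ c).2.le)
        (hcmp _ (upd_le θ _ (θ _).2)) (hcmp _ (upd_le θ _ ((Nat.sub_le _ _).trans (θ _).2.le)))
        (hgood (b, ⟨_, hi⟩)).2 (not_le.1 fun e1 => hc ⟨(b, ⟨_, hi⟩), ?_⟩)
        (not_le.1 fun e2 => hc ⟨(b, ⟨_, hi⟩), ?_⟩)
      · refine le_add_of_le_of_nonneg (ind_pos ?_).ge (ind_nonneg _)
        simp only [Pk.obs, el]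
        exact e1
      · refine le_add_of_nonneg_of_le (ind_nonneg _) (ind_pos ?_).ge
        simp only [Pk.obs, el]
        exact e2
    · simp only [sum_const, card_univ, Fintype.card_prod, Fintype.card_bool, Fintype.card_fin,
        nsmul_eq_mul]
      push_cast
      field_simp
      ring
  · rw [avg_sum]
    refine (sum_le_card_nsmul _ _ (3 * qq d) fun bi _ =>
      (h1 V E d P w0 (Sum.inl bi) _ hd3 hP hκ).trans ?_).trans (le_of_eq ?_)
    · have e : (1 + 2 * (P.y * (qq d ^ 12 * P.obsB d (Sum.inl bi)))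
          / (P.y * (qq d ^ 15 * Fintype.card V))) * qq d ^ 4 = qq d ^ 4 + 2 * qq d := by
        simp only [Pk.obsB]
        field_simp
      have : qq d ^ 4 ≤ qq d ^ 1 := pow_le_pow_of_le_one hq.le (by linarith) (by norm_num)
      rw [e]
      linarith
    · simp only [card_univ, Fintype.card_prod, Fintype.card_bool, Fintype.card_fin, nsmul_eq_mul]
      push_cast
      ring

end Pool.Agent.MP_32a90a_pr.D

end

section

set_option autoImplicit false

namespace Pool.Agent.MP_32a90a_pr.D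

open Finset Equiv Filter Pool.Agent.MP_32a90a_pr Pool.Agent.MP_32a90a_pr.L

namespace EGrif

theorem point (ht : StTilt) {Sg Gm : Type} [Fintype Sg] [Nonempty Sg] [Fintype Gm] (C : Cas Sg Gm)
    (D : Gm → Sg → ℝ) (hC : C.Ok) (m1 m0 t : ℝ) :
    (C.P fun g σ => ind (m1 - m0 + t ≤ C.y * D g σ)) ≤ Real.exp (-(t / 2)) +
      (ind (t / 4 ≤ |Real.log (C.add D).N - m1|) + ind (t / 4 ≤ |Real.log C.N - m0|)) := by
  have e0 := Real.exp_pos (-(t / 2))
  have p1 : (C.P fun g σ => ind (m1 - m0 + t ≤ C.y * D g σ)) ≤ 1 :=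
    Cas.P_le_const hC fun _ _ => ind_le_one _
  have i1 := ind_nonneg (t / 4 ≤ |Real.log (C.add D).N - m1|)
  have i0 := ind_nonneg (t / 4 ≤ |Real.log C.N - m0|)
  by_cases h1 : t / 4 ≤ |Real.log (C.add D).N - m1|
  · rw [ind_pos h1]
    linarith
  by_cases h0 : t / 4 ≤ |Real.log C.N - m0|
  · rw [ind_pos h0]
    linarith
  have a1 := abs_lt.1 (not_le.1 h1)
  have a0 := abs_lt.1 (not_le.1 h0)
  have hy := hC.y_pos
  have h2 := (ht Sg Gm C D hC).1 ((m1 - m0 + t) / C.y)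
  rw [mul_div_cancel₀ _ hy.ne'] at h2
  have h3 : (C.P fun g σ => ind (m1 - m0 + t ≤ C.y * D g σ)) ≤ Real.exp (-(t / 2)) := by
    rw [Cas.P, div_le_iff₀ (Cas.N_pos hC),
      Cas.E_congr (g := fun g σ => ind ((m1 - m0 + t) / C.y ≤ D g σ))
        fun g σ => ind_congr (div_le_iff₀' hy).symm]
    refine h2.trans ?_
    rw [← Real.exp_log (Cas.N_pos (hC.add D)), ← Real.exp_log (Cas.N_pos hC), ← Real.exp_add,
      ← Real.exp_add, Real.exp_le_exp]
    linarith [a1.2, a0.1]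
  linarith

end EGrif

theorem stGrif (ht : StTilt) (hc : StConc) : StGrif := by
  intro V E _ _ _ _ _ _ Sg Gm _ _ _ w0 C D y c t c0 t0 hC l0 l1
  have h0 := hc V E w0 (fun w J => Real.log (C w J).N) c (t / 4) c0 (by linarith) l0.1 l0.2
  have h1 := hc V E w0 (fun w J => Real.log ((C w J).add (D w J)).N) c (t / 4) c0 (by linarith)
    l1.1 l1.2
  have e : (t / 4) ^ 2 / (64 * c ^ 2 * Fintype.card E) =
      t ^ 2 / (1024 * c ^ 2 * Fintype.card E) := by ring
  rw [e, PD] at h0 h1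
  refine (ED_mono fun w J => ?_ : _ ≤ ED w0 fun w J => Real.exp (-(t / 2)) +
    (ind (t / 4 ≤ |Real.log ((C w J).add (D w J)).N -
        ED w0 fun w J => Real.log ((C w J).add (D w J)).N|) +
      ind (t / 4 ≤ |Real.log (C w J).N - ED w0 fun w J => Real.log (C w J).N|))).trans ?_
  · rw [← (hC w J).2]
    exact EGrif.point ht (C w J) (D w J) (hC w J).1 _ _ t
  · rw [ED_add, ED_add, ED_const]
    linarith

theorem stGridF (hg : StGrid) (ht : StTilt) (hb : StBd) (ho : StObs) (hk : StOkG) : StGridF := by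
  intro V E _ _ _ _ _ d P w0 c κ hd hP hκ
  obtain ⟨-, k2, -, k4, -, -, k7⟩ := hk V E d P hd hP
  have q0 : 0 < qq d := Real.exp_pos _
  have hB : 0 ≤ P.obsB d c := by
    rcases c with c | c <;> exact Nat.cast_nonneg _
  refine (hg (Co d) (MM d) c (fun θ => (P.grid d θ).FN w0) (P.y * (qq d ^ 12 * P.obsB d c)) κ hκ
    ?_ ?_).trans ?_
  · intro θ h1 _
    unfold Pk.FN
    rw [← ED_mul, ← ED_add]
    refine ED_mono fun w J => ?_
    obtain ⟨o1, o2, -⟩ := ho V E d P θ c w J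
    have h2 := (ht _ _ ((P.grid d θ).full w J).cas (fun g σ => qq d ^ 12 * P.obs d c w J g σ)
      (k2 θ _ _ _)).2.2.2
    rw [← o1, ← o2 h1] at h2
    exact h2
  · intro θ _
    have key : ∀ w J, |Real.log ((P.grid d (Function.update θ c (θ c + 1))).full w J).N -
        Real.log ((P.grid d θ).full w J).N| ≤ P.y * (qq d ^ 12 * P.obsB d c) := by
      intro w J
      obtain ⟨o1, -, o3⟩ := ho V E d P θ c w J
      have h2 := (hb _ _ ((P.grid d θ).full w J).cas (fun g σ => qq d ^ 12 * P.obs d c w J g σ)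
        (qq d ^ 12 * P.obsB d c) (k2 θ _ _ _) fun g σ _ => by
          rw [abs_mul, abs_of_pos (by positivity)]
          exact mul_le_mul_of_nonneg_left (o3 g σ) (by positivity)).2.2.1
      rw [← o1] at h2
      exact h2
    unfold Pk.FN
    rw [← ED_sub, abs_le]
    exact ⟨const_le_ED fun w J => (abs_le.1 (key w J)).1,
      ED_le_const fun w J => (abs_le.1 (key w J)).2⟩
  · rw [div_eq_mul_one_div]
    refine mul_le_mul_of_nonneg_left ?_ (by positivity)
    rw [div_le_iff₀ (by positivity)] at k7 ⊢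
    linarith

end Pool.Agent.MP_32a90a_pr.D

end

section

set_option autoImplicit false

namespace Pool.Agent.MP_32a90a_pr.D

open Finset Equiv Filter Pool.Agent.MP_32a90a_pr Pool.Agent.MP_32a90a_pr.L

namespace EKtJ

lemma half_le {A : Type} [Fintype A] [DecidableEq A] (h : (2 : ℝ) ≤ Fintype.card A) (a : A) :
    1 / 2 ≤ avg fun a' : A => ind (a ≠ a') := by
  have : Nonempty A := ⟨a⟩
  have e : avg (fun a' : A => ind (a = a')) = 1 / Fintype.card A := by
    unfold avg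
    rw [sum_ind, Finset.filter_eq, if_pos (mem_univ a), card_singleton, Nat.cast_one]
  simp only [ne_eq, ind_not]
  rw [avg_sub, avg_const, e]
  have : 1 / (Fintype.card A : ℝ) ≤ 1 / 2 := one_div_le_one_div_of_le (by norm_num) h
  linarith

lemma exp_seven : 1 / 1200 ≤ Real.exp (-7) := by
  have h : Real.exp 7 ≤ 1200 := by
    have e : Real.exp 7 = Real.exp 1 ^ 7 := by rw [← Real.exp_nat_mul]; norm_num
    rw [e]
    exact (pow_le_pow_left₀ (Real.exp_pos _).le Real.exp_one_lt_d9.le 7).trans (by norm_num)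
  rw [Real.exp_neg, ← one_div]
  exact one_div_le_one_div_of_le (Real.exp_pos _) h

lemma key (h2 : StNear) (h3 : StStab) (h4 : StBd) (h5 : StMinor) {Sg G0 A : Type} [Fintype Sg]
    [Nonempty Sg] [Fintype G0] [Nonempty G0] [Fintype A] [DecidableEq A] (S S1 : Sys Sg G0 A)
    {d : ℕ} {D : G0 → Sg → ℝ} {I : Finset A} {dl : ℝ} (hd : 1000 ≤ d) (hP : S.Par d)
    (hβ : S.β = 1) (hn : S.Near S1 D I dl) (hI : I.card ≤ d + 2) (hdl : S.β * dl ≤ sm 300 d)
    (hD : ∀ g σ, |D g σ| ≤ 1) (φ : Sg → Bool) :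
    (S.P fun g _ => kt (S.nu g) φ) / 1200 - sm 250 d ≤ S1.P fun g _ => kt (S1.nu g) φ := by
  have hd3 : 3 ≤ d := by omega
  have hdR : (1000 : ℝ) ≤ d := by exact_mod_cast hd
  have hok := hP.ok hd3
  have hs : sm 300 d ≤ 1 / 2 :=
    (sm_le_inv (by norm_num) hd3).trans (one_div_le_one_div_of_le (by norm_num) (by linarith))
  have hdl2 : dl ≤ 1 / 2 := by
    rw [hβ, one_mul] at hdl
    exact hdl.trans hs
  have hcmp : ∀ g, oI I g = 1 → ∀ σ, Real.exp (-3) * S.nu g σ ≤ S1.nu g σ := by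
    intro g hg σ
    have a := ((h2 Sg G0 A S d S1 D I dl hd hP hn hI).2.1 g σ hg).2
    have b := ((h4 Sg _ S.cas (fun g σ => D g.1 σ) 1 hok fun g σ _ => hD g.1 σ).2.2.2 g σ
      (Sys.p_pos hP.2.2.2.2.1 (hP.rho_lt hd3) g)).2
    rw [← Sys.cas_add] at b
    have hb : S.cas.β = 1 := hβ
    rw [hb] at b
    rw [hβ] at a
    have c : Real.exp (-3) ≤ Real.exp (-(2 * 1 * dl)) * Real.exp (-(2 * 1 * 1)) := by
      rw [← Real.exp_add]
      exact Real.exp_le_exp.2 (by linarith)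
    calc Real.exp (-3) * S.nu g σ
        ≤ Real.exp (-(2 * 1 * dl)) * Real.exp (-(2 * 1 * 1)) * S.nu g σ :=
          mul_le_mul_of_nonneg_right c (Cas.nu_pos g σ).le
      _ = Real.exp (-(2 * 1 * dl)) * (Real.exp (-(2 * 1 * 1)) * S.nu g σ) := mul_assoc _ _ _
      _ ≤ Real.exp (-(2 * 1 * dl)) * (S.add D).nu g σ :=
          mul_le_mul_of_nonneg_left b (Real.exp_pos _).le
      _ ≤ _ := a
  have hk1 : Real.exp (-3) ^ 2 ≤ 1 :=
    pow_le_one₀ (Real.exp_pos _).le (Real.exp_le_one_iff.2 (by norm_num))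
  have hk0 : ∀ g, 0 ≤ kt (S.nu g) φ := fun g => (Cas.nu_prob g).kt_nonneg φ
  have main := (h3 Sg G0 A S d S1 D I dl hd hP hn hI (by linarith)
    fun g σ => (hD g σ).trans (by linarith)).2.2.2 1 hD hdl
    (fun g => Real.exp (-3) ^ 2 * kt (S.nu g) φ) (fun g => kt (S1.nu g) φ)
    (fun g => ⟨mul_nonneg (by positivity) (hk0 g),
      mul_le_one₀ hk1 (hk0 g) ((kt_le_half φ).trans (by norm_num))⟩)
    (fun g => ⟨(Cas.nu_prob g).kt_nonneg φ, (kt_le_half φ).trans (by norm_num)⟩)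
    fun g hg => (h5 Sg _ _ φ _ (Cas.nu_prob g) (Cas.nu_prob g) (Real.exp_pos _).le (hcmp g hg)).2
  refine le_trans (sub_le_sub_right ?_ _) main
  have e : (S.P fun g _ => Real.exp (-3) ^ 2 * kt (S.nu g) φ)
      = Real.exp (-3) ^ 2 * S.P fun g _ => kt (S.nu g) φ := Cas.P_mul _ _
  have hX : 0 ≤ S.P fun g _ => kt (S.nu g) φ := Cas.P_nonneg hok fun g _ => hk0 g
  have hy : S.y ≤ 1 / 1000 := hP.2.2.1
  have c : 1 / 1200 ≤ Real.exp (-(2 * S.y * 1)) * Real.exp (-3) ^ 2 := by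
    rw [← Real.exp_nat_mul, ← Real.exp_add]
    exact exp_seven.trans (Real.exp_le_exp.2 (by push_cast; linarith))
  rw [e, ← mul_assoc, div_eq_mul_one_div, mul_comm]
  exact mul_le_mul_of_nonneg_right c hX

end EKtJ

theorem stKtJ (h1 : StJoinCut) (h2 : StNear) (h3 : StStab) (h4 : StBd) (h5 : StMinor)
    (h6 : StExc) : StKtJ := by
  intro V E _ _ _ _ _ d P w J i lam hOk hLg hdeg hβ hi hD1
  have hd : 1000 ≤ d := hLg.1
  have hd3 : 3 ≤ d := by omega
  have hdR : (1000 : ℝ) ≤ d := by exact_mod_cast hd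
  have hP : (P.cut w J i).Par d := hLg.2.1 _ _ _
  have hok := hP.ok hd3
  have := hP.nonempty
  have hb : (P.cut w J i).β = 1 := hβ
  have hdl : (P.cut w J i).β * dlq d ≤ sm 300 d := hLg.2.2.2.2.1
  have hcard : (2 : ℝ) ≤ Fintype.card (cav P.U) := by
    have a := hP.2.2.2.2.2.2.2.2.2.2
    have hs : sm 300 d ≤ 1 / 2 :=
      (sm_le_inv (by norm_num) hd3).trans (one_div_le_one_div_of_le (by norm_num) (by linarith))
    have := mul_le_mul_of_nonneg_right hs (Nat.cast_nonneg (α := ℝ) (Fintype.card (cav P.U)))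
    linarith
  let X : cav P.U → ℝ := fun a =>
    (P.cut w J i).P fun g _ => kt ((P.cut w J i).nu g) ((P.cut w J i).sp a)
  have hX : ∀ a, 0 ≤ X a := fun a => Cas.P_nonneg hok fun g _ => (Cas.nu_prob g).kt_nonneg _
  have hm : (lam - 3) / (7 * d) ≤ avg X :=
    (h6 _ _ _ (P.cut w J i) d lam true hd hP hb hD1).2.2.trans_eq (Cas.P_avg _)
  have hm0 : 0 ≤ avg X := avg_nonneg hX
  have hs := sm_pos 250 d
  have step : ∀ a : cav P.U, X a / 2400 - sm 250 d
      ≤ avg fun a' : cav P.U => avg fun b : Bool => ind (a ≠ a') *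
          (P.jn w J i a a' b).P fun g _ => kt ((P.jn w J i a a' b).nu g) (crd (w a)) := by
    intro a
    have c : X a / 2400 - sm 250 d
        ≤ avg fun a' : cav P.U => ind (a ≠ a') * (X a / 1200) - sm 250 d := by
      rw [avg_sub, avg_const, avg_mul_right]
      have := mul_le_mul_of_nonneg_right (EKtJ.half_le hcard a)
        (div_nonneg (hX a) (by norm_num : (0 : ℝ) ≤ 1200))
      linarith
    refine c.trans (avg_mono fun a' => const_le_avg fun b => ?_)
    by_cases h : a = a'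
    · rw [ind_neg (not_not.2 h), zero_mul, zero_mul]
      linarith
    · rw [ind_pos h, one_mul, one_mul]
      refine EKtJ.key h2 h3 h4 h5 _ _ hd hP hb
        ((h1 V E d P w J i hOk hLg hdeg hi).2 a a' h b).1 (card_le_two.trans (by omega)) hdl
        (fun g σ => ?_) _
      simp [Sys.De, abs_mul]
  refine le_trans ?_ (avg_mono step)
  rw [avg_sub, avg_const, avg_div]
  have a1 : sm 250 d ≤ sm 200 d := sm_anti (by norm_num) d
  have a2 : (lam - 3) / (20000 * d) = (lam - 3) / (7 * d) * (7 / 20000) := by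
    field_simp
  rw [a2]
  linarith

end Pool.Agent.MP_32a90a_pr.D

end

section

set_option autoImplicit false

namespace Pool.Agent.MP_32a90a_pr.D

open Finset Equiv Filter Pool.Agent.MP_32a90a_pr Pool.Agent.MP_32a90a_pr.L

namespace EKtL

lemma sm_pow {d : ℕ} (hd : 3 ≤ d) : sm 200 d ≤ 1 / (d : ℝ) ^ 5 := by
  have h3 : (3 : ℝ) ≤ d := by exact_mod_cast hd
  have e : 1 / (d : ℝ) ^ 5 = Real.exp (-(5 * Real.log d)) := by
    rw [Real.exp_neg, one_div, show (5 : ℝ) * Real.log d = ((5 : ℕ) : ℝ) * Real.log d by simp,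
      Real.exp_nat_mul, Real.exp_log (by linarith)]
  rw [e]
  refine Real.exp_le_exp.2 (neg_le_neg ?_)
  nlinarith [one_le_log hd]

variable {V E : Type} [Fintype V] [DecidableEq V] [Fintype E] [DecidableEq E] {d : ℕ}
  {P : Pk V E}

lemma card_fair {Z A : Finset E} (h : 2 * (Z.card + A.card) ≤ Fintype.card E) :
    Fintype.card E ≤ 2 * (fair Z A).card := by
  have e : fair Z A = univ \ (Z ∪ A) := by
    ext i
    simp [fair]
  have h1 := le_card_sdiff (Z ∪ A) (univ : Finset E)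
  have h2 := card_union_le Z A
  rw [card_univ] at h1
  rw [e]
  omega

/-- mean thermal width at the first end of the slot i -/
noncomputable def Fi (P : Pk V E) (i : E) (w : E × Bool → V) (J : E → Bool) : ℝ :=
  (P.full w J).P fun g _ => kt ((P.full w J).nu g) (crd (w (i, false)))

lemma ok (h : P.Lg d) (w : E × Bool → V) (J : E → Bool) : (P.full w J).cas.Ok :=
  (h.2.1 _ _ _).ok (by have := h.1; omega)

lemma Fi_nonneg (hL : P.Lg d) (i : E) (w : E × Bool → V) (J : E → Bool) : 0 ≤ Fi P i w J :=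
  Cas.P_nonneg (ok hL w J) fun g _ => (Cas.nu_prob g).kt_nonneg _

lemma Fi_bd (hL : P.Lg d) (i : E) (w : E × Bool → V) (J : E → Bool) : |Fi P i w J| ≤ 1 := by
  rw [abs_of_nonneg (Fi_nonneg hL i w J)]
  exact Cas.P_le_const (ok hL w J) fun g _ => (kt_le_half _).trans (by norm_num)

lemma sum_Fi [Nonempty V] (hL : P.Lg d) {w0 : E × Bool → V} (hw : Deg w0 d) (T : Finset E) :
    ∑ i ∈ T, ED w0 (Fi P i) ≤ d * Fintype.card V * P.mK w0 := by
  have hN : (0 : ℝ) < Fintype.card V := by exact_mod_cast Fintype.card_pos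
  unfold Pk.mK Pk.EQ
  rw [← ED_sum, ← ED_mul]
  refine ED_mono_deg hw fun w J hw' => ?_
  refine (Cas.P_sum T fun i g _ => kt ((P.full w J).nu g) (crd (w (i, false)))).symm.trans_le
    (le_trans (Cas.P_mono (ok hL w J) fun g _ => ?_) (Cas.P_mul _ _).le)
  have h0 : ∀ v, 0 ≤ kt ((P.full w J).nu g) (crd v) := fun v => (Cas.nu_prob g).kt_nonneg _
  have h1 := sum_half hw' fun v => kt ((P.full w J).nu g) (crd v)
  have h2 : ∑ i ∈ T, kt ((P.full w J).nu g) (crd (w (i, false)))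
      ≤ ∑ p : E × Bool, kt ((P.full w J).nu g) (crd (w p)) := by
    rw [Fintype.sum_prod_type]
    refine (sum_le_sum_of_subset_of_nonneg (subset_univ T) fun i _ _ => h0 _).trans
      (sum_le_sum fun i _ => ?_)
    rw [Fintype.sum_bool]
    linarith [h0 (w (i, true))]
  refine h2.trans (h1.trans ?_).le
  unfold avg
  field_simp

lemma slot [Nonempty V] (h1 : StKtJ) (h2 : StEX) (h4 : StD1) (h5 : StJoinCut) {c cp e : ℝ}
    (he : 0 < e) {w0 : E × Bool → V} (hw : Deg w0 d) (hL : P.Lg d) (hE : P.EnsK d w0 c cp (e / 2))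
    (hβ : P.β = 1) (hR : ∀ w J, Deg w d →
      ((P.full w J).P fun g σ => ind (¬ (P.full w J).Good c cp (qq d) g σ)) ≤ e →
      ∀ i, (P.cut w J i).Rig d c cp) (hl : 3 ≤ d * (1 - c) + 1) {i : E} (hi : i ∈ fair P.Z P.A) :
    (d * (1 - c) + 1 - 3) / (20000 * d) / 2 - 2 * sm 200 d ≤ ED w0 (Fi P i) := by
  have hO := hE.1
  have hp : ∀ w J, (P.cut w J i).Par d := fun _ _ => hL.2.1 _ _ _
  have hne := (hp w0 fun _ => true).nonempty
  have s0 := sm_pos 200 d
  have hU : P.U.Nonempty := by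
    obtain ⟨a, ha⟩ := hne
    exact ⟨a.1, mem_cav.1 ha⟩
  have a1 := (abs_le.1 (h2 V E w0 P.U i (Fi P i) 1 hU (Fi_bd hL i))).1
  have a2 : (1 : ℝ) / Fintype.card (cav P.U) ≤ sm 200 d := by
    have b1 : 1 ≤ sm 300 d * Fintype.card (cav P.U) := (hp w0 fun _ => true).2.2.2.2.2.2.2.2.2.2
    have b2 := mul_le_mul_of_nonneg_right (sm_anti (k := 200) (k' := 300) (by norm_num) d)
      (Nat.cast_nonneg (Fintype.card (cav P.U)))
    rw [div_le_iff₀ (by exact_mod_cast Fintype.card_pos)]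
    linarith
  obtain ⟨κ, hκ⟩ : ∃ κ, κ = (d * (1 - c) + 1 - 3) / (20000 * d) := ⟨_, rfl⟩
  have k0 : 0 ≤ κ := hκ ▸ div_nonneg (by linarith) (by positivity)
  rw [← hκ]
  have a3 : (ED w0 fun w J => κ - sm 200 d - κ / e *
        (P.full w J).P fun g σ => ind (¬ (P.full w J).Good c cp (qq d) g σ))
      ≤ ED w0 fun w J => avg fun a : cav P.U => avg fun a' : cav P.U => avg fun b : Bool =>
        ind (a ≠ a') * Fi P i (w ∘ ex i a a') (Function.update J i b) := by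
    refine ED_mono_deg hw fun w J hw' => ?_
    have b0 : 0 ≤ (P.full w J).P fun g σ => ind (¬ (P.full w J).Good c cp (qq d) g σ) :=
      Cas.P_nonneg (ok hL w J) fun _ _ => ind_nonneg _
    by_cases hb : ((P.full w J).P fun g σ => ind (¬ (P.full w J).Good c cp (qq d) g σ)) ≤ e
    · have b1 := h1 V E d P w J i _ hO hL hw' hβ hi
        (h4 _ _ _ (P.cut w J i) d c cp hL.1 (hp w J) (hR w J hw' hb i))
      rw [← hκ] at b1
      have b2 := mul_nonneg (div_nonneg k0 he.le) b0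
      refine le_trans (by linarith) (b1.trans_eq ?_)
      refine avg_congr fun a => avg_congr fun a' => avg_congr fun b => ?_
      by_cases ha : a ≠ a'
      · rw [Fi, ((h5 V E d P w J i hO hL hw' hi).2 a a' ha b).2.1]
        rfl
      · rw [ind_neg ha, zero_mul, zero_mul]
    · have b1 := mul_le_mul_of_nonneg_left (not_le.1 hb).le (div_nonneg k0 he.le)
      rw [div_mul_cancel₀ _ he.ne'] at b1
      refine le_trans (by linarith) (avg_nonneg fun a => avg_nonneg fun a' => avg_nonneg fun b =>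
        mul_nonneg (ind_nonneg _) (Fi_nonneg hL i _ _))
  rw [ED_sub, ED_mul, ED_const] at a3
  have a4 := mul_le_mul_of_nonneg_left hE.2 (div_nonneg k0 he.le)
  have a5 : κ / e * (e / 2) = κ / 2 := by field_simp
  unfold Pk.EQ at a4
  linarith

lemma mK_nonneg (hL : P.Lg d) (w0 : E × Bool → V) : 0 ≤ P.mK w0 := by
  unfold Pk.mK Pk.EQ
  exact ED_nonneg fun w J => Cas.P_nonneg (ok hL w J) fun g _ =>
    avg_nonneg fun v => (Cas.nu_prob g).kt_nonneg _

lemma arith {κ s δ m D n e : ℝ} (k0 : 0 ≤ κ) (s0 : 0 < s) (s1 : s ≤ δ) (m0 : 0 ≤ m) (D0 : 0 < D)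
    (a2 : n * (κ / 2 - 2 * s) ≤ D * m) (a3 : e ≤ 2 * n) (a4 : 2 * e = D) : κ / 10 - δ ≤ m := by
  by_cases hm : 0 ≤ κ / 2 - 2 * s
  swap
  · linarith
  have a5 : D / 4 ≤ n := by linarith
  have a6 := mul_le_mul_of_nonneg_right a5 hm
  have a7 : (κ / 2 - 2 * s) / 4 ≤ m := by
    refine le_of_mul_le_mul_left ?_ D0
    linarith
  linarith

end EKtL

open EKtL in
theorem stKtL (h1 : StKtJ) (h2 : StEX) (h3 : StRigD) (h4 : StD1) (h5 : StJoinCut) (hp : StPar) :
    StKtL := by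
  filter_upwards [hp, eventually_ge_atTop 1000] with d hB hd
  have hd3 : 3 ≤ d := by omega
  have hd' : (1000 : ℝ) ≤ d := by exact_mod_cast hd
  obtain ⟨e, he, hR⟩ := h3 d
  refine ⟨e / 2, by positivity, hB.mono ?_⟩
  intro V E _ _ _ _ w0 hw hLg P c cp hE hβ
  have hL := hLg P hE.1
  have : Nonempty V := by
    by_contra hn
    have h1 := hL.2.2.2.2.2.2.2.2.2.2
    rw [Fintype.card_eq_zero_iff.2 (not_nonempty_iff.1 hn)] at h1
    norm_num at h1
  have hN : (0 : ℝ) < Fintype.card V := by exact_mod_cast Fintype.card_pos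
  have m0 := mK_nonneg hL w0
  have s0 := sm_pos 200 d
  have s1 := sm_pow hd3
  by_cases hl : 3 ≤ d * (1 - c) + 1
  swap
  · have h0 : (d * (1 - c) + 1 - 3) / (200000 * d) ≤ 0 :=
      div_nonpos_of_nonpos_of_nonneg (by linarith) (by positivity)
    exact le_trans (sub_nonpos.2 (h0.trans (s0.le.trans s1))) m0
  have a1 : ∀ i ∈ fair P.Z P.A,
      (d * (1 - c) + 1 - 3) / (20000 * d) / 2 - 2 * sm 200 d ≤ ED w0 (Fi P i) := fun i hi =>
    slot h1 h2 h4 h5 he hw hL hE hβ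
      (fun w J hw' hb => (hR V E P w J c cp hE.1 hL hw' hb).2.1) hl hi
  have k0 : 0 ≤ (d * (1 - c) + 1 - 3) / (20000 * d) := div_nonneg (by linarith) (by positivity)
  have e1 : (d * (1 - c) + 1 - 3) / (200000 * d) = (d * (1 - c) + 1 - 3) / (20000 * d) / 10 := by
    rw [div_div]
    congr 1
    ring
  rw [e1]
  have a2 := (sum_le_sum a1).trans (sum_Fi hL hw _)
  rw [sum_const, nsmul_eq_mul] at a2
  have a3 : (Fintype.card E : ℝ) ≤ 2 * (fair P.Z P.A).card := by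
    exact_mod_cast card_fair hL.2.2.1
  exact arith k0 s0 s1 m0 (by positivity) a2 a3 (card_half hw)

end Pool.Agent.MP_32a90a_pr.D

end

section

set_option autoImplicit false

namespace Pool.Agent.MP_32a90a_pr.D

open Finset Equiv Filter Pool.Agent.MP_32a90a_pr Pool.Agent.MP_32a90a_pr.L

namespace ELipN

lemma sum_diff {A : Type} [Fintype A] (I : Finset A) (u v : A → ℝ) {c n : ℝ} (hc0 : 0 ≤ c)
    (hn : (I.card : ℝ) ≤ n) (h : ∀ a, a ∉ I → u a = v a) (hc : ∀ a, |u a - v a| ≤ c) :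
    |∑ a, u a - ∑ a, v a| ≤ n * c := by
  rw [← sum_sub_distrib, ← sum_subset (subset_univ I) fun a _ ha => by rw [h a ha, sub_self]]
  refine (abs_sum_le_sum_abs _ _).trans ((sum_le_sum fun a _ => hc a).trans ?_)
  rw [sum_const, nsmul_eq_mul]
  exact mul_le_mul_of_nonneg_right hn hc0

lemma gad_diff {tp tm : ℝ} (h1 : 1 ≤ tp) (h2 : tp ≤ 3 / 2) (h3 : 1 ≤ tm) (h4 : tm ≤ 3 / 2)
    (o : Option Bool) (s s' : Bool) : |gad tp tm o s - gad tp tm o s'| ≤ 3 := by
  rw [abs_le]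
  cases o with
  | none => simp [gad]
  | some b =>
    simp only [gad]
    split_ifs <;> constructor <;> linarith

variable {V E : Type} [Fintype V] [DecidableEq V] [Fintype E] [DecidableEq E]

omit [Fintype V] [DecidableEq V] [Fintype E] in
lemma abs_s (P : Pk V E) (J : E → Bool) (i : E) : |P.s J i| ≤ 1 := by
  unfold Pk.s cp
  split_ifs <;> simp

lemma H_diff {d : ℕ} {P : Pk V E} (hP : P.Ok d) (hq : qq d ≤ 1 / 9) (R : Finset E)
    (hR : R.card ≤ 2) {J J' : E → Bool} {w w' : E × Bool → V} (hJ : ∀ i, i ∉ R → J' i = J i)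
    (hw : ∀ p : E × Bool, p.1 ∉ R → w' p = w p)
    (hw' : ∀ p : E × Bool, p.1 ∈ R → ∃ p' : E × Bool, p'.1 ∈ R ∧ w' p = w p')
    (g : Gam (V → Bool) (cav P.U)) (σ : V → Bool) :
    |(P.full w' J').cas.H g σ - (P.full w J).cas.H g σ| ≤ 20 := by
  obtain ⟨-, -, -, -, -, -, -, -, -, -, -, p1, p2, p3, p4, -, -, -, p5⟩ := hP
  have hq0 : 0 ≤ qq d := (Real.exp_pos _).le
  have hq8 : qq d ^ 8 ≤ 1 / 16 := (pow_le_pow_left₀ hq0 hq 8).trans (by norm_num)
  have hs : ∀ i, i ∉ R → sl (P.s J') w' σ i = sl (P.s J) w σ i := fun i hi => by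
    simp only [sl, Pk.s, cp, hJ i hi, hw (i, _) hi]
  have h4 : (R ×ˢ (univ : Finset Bool)).card ≤ 4 := by
    rw [card_product, card_univ, Fintype.card_bool]
    omega
  have b0 : ∀ (J : E → Bool) (w : E × Bool → V) i, |sl (P.s J) w σ i| ≤ 1 := fun J w i => by
    rw [sl, abs_mul]
    exact mul_le_one₀ (abs_s P J i) (abs_nonneg _) (abs_Y1 _ _ _)
  have a1 := sum_diff R (sl (P.s J') w' σ) (sl (P.s J) w σ) (c := 2) (n := 2) zero_le_two
    (by exact_mod_cast hR) hs fun i => (abs_sub _ _).trans (by linarith [b0 J' w' i, b0 J w i])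
  have a2 := sum_diff ((R ×ˢ univ).image w) (fun v => P.rwd (σ v) (loc (P.s J') w' σ v))
    (fun v => P.rwd (σ v) (loc (P.s J) w σ v)) (c := 1 / 4) (n := 4) (by norm_num)
    (by exact_mod_cast card_image_le.trans h4) (fun v hv => by
      have c1 : ∀ p : E × Bool, w p = v → p.1 ∉ R := fun p e hp =>
        hv (mem_image.2 ⟨p, mem_product.2 ⟨hp, mem_univ _⟩, e⟩)
      have c2 : ∀ p : E × Bool, w' p = v → p.1 ∉ R := fun p e hp => by
        obtain ⟨p', d1, d2⟩ := hw' p hp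
        exact c1 p' (d2.symm.trans e) d1
      refine congrArg _ (sum_congr (filter_congr fun p _ => ?_) fun p hp => ?_)
      · exact ⟨fun e => (hw p (c2 p e)).symm.trans e, fun e => (hw p (c1 p e)).trans e⟩
      · exact hs _ (c1 p (mem_filter.1 hp).2))
    fun v => (abs_sub _ _).trans (by
      linarith [p5 (σ v) (loc (P.s J') w' σ v), p5 (σ v) (loc (P.s J) w σ v)])
  have a3 := sum_diff (univ.filter fun a : cav P.U => a.1.1 ∈ R)
    (fun a => gad P.tp P.tm (g.2 a) (σ (w' a))) (fun a => gad P.tp P.tm (g.2 a) (σ (w a)))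
    (c := 3) (n := 4) (by norm_num) (by
      have := card_le_card_of_injOn (s := univ.filter fun a : cav P.U => a.1.1 ∈ R)
        (t := R ×ˢ (univ : Finset Bool)) Subtype.val
        (fun a ha => mem_product.2 ⟨(mem_filter.1 ha).2, mem_univ _⟩) Subtype.val_injective.injOn
      exact_mod_cast this.trans h4)
    (fun a ha => by rw [hw a fun h => ha (mem_filter.2 ⟨mem_univ _, h⟩)])
    fun a => gad_diff p1 (by linarith) p3 (by linarith) _ _ _
  simp only [sl] at a1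
  simp only [Pk.full, Pk.sys, Sys.cas, en, sum_add_distrib]
  rw [abs_le] at a1 a2 a3 ⊢
  constructor <;> linarith [a1.1, a1.2, a2.1, a2.2, a3.1, a3.2]

end ELipN

theorem stLipN (hb : StBd) (ho : StOkG) : StLipN := by
  intro V E _ _ _ _ _ d P hd hP
  obtain ⟨-, -, hok, -, -, hq, -⟩ := ho V E d P hd hP
  have key : ∀ w w' J J', (∀ g σ, |(P.full w' J').cas.H g σ - (P.full w J).cas.H g σ| ≤ 20) →
      |Real.log (P.full w' J').N - Real.log (P.full w J).N| ≤ 20 * P.y := by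
    intro w w' J J' h
    have e : (P.full w' J').cas = (P.full w J).cas.add
        fun g σ => (P.full w' J').cas.H g σ - (P.full w J).cas.H g σ := by
      simp only [Cas.add, add_sub_cancel]
      rfl
    have := (hb _ _ (P.full w J).cas _ 20 (hok _ _ _) fun g σ _ => h g σ).2.2.1
    rw [← e, mul_comm] at this
    exact this
  refine ⟨fun w J a b => key _ _ _ _ (ELipN.H_diff hP hq {a.1, b.1} card_le_two (fun _ _ => rfl)
    (fun p hp => ?_) fun p hp => ⟨swap a b p, ?_, rfl⟩),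
    fun w J i b => key _ _ _ _ (ELipN.H_diff hP hq {i} (by simp)
      (fun j hj => Function.update_of_ne (by simpa using hj) _ _) (fun _ _ => rfl)
      fun p hp => ⟨p, hp, rfl⟩)⟩
  · simp only [mem_insert, mem_singleton, not_or] at hp
    rw [Function.comp_apply, swap_apply_of_ne_of_ne (by rintro rfl; exact hp.1 rfl)
      (by rintro rfl; exact hp.2 rfl)]
  · rw [swap_apply_def]
    split_ifs
    · simp
    · simp
    · exact hp

end Pool.Agent.MP_32a90a_pr.D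

end

section

set_option autoImplicit false

namespace Pool.Agent.MP_32a90a_pr.D

open Finset Filter Pool.Agent.MP_32a90a_pr Pool.Agent.MP_32a90a_pr.L

namespace EMagL

lemma pow_sm {d : ℕ} (hd : 3 ≤ d) (n : ℕ) (k : ℝ) : (d : ℝ) ^ n * sm (k + n) d ≤ sm k d := by
  induction n with
  | zero => simp
  | succ n ih =>
    refine le_trans ?_ ih
    rw [pow_succ, mul_assoc, Nat.cast_succ, ← add_assoc]
    exact mul_le_mul_of_nonneg_left (mul_sm_le _ hd (by linarith)) (by positivity)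

lemma err {d : ℕ} (hd : 5 ≤ d) :
    2 * sm 200 d + 2 * ((d : ℝ) ^ 2 * sm 300 d) + sm 10 d ≤ 1 / (d : ℝ) ^ 5 := by
  have h5 : (5 : ℝ) ≤ d := by exact_mod_cast hd
  have h1 := pow_sm (d := d) (by omega) 2 298
  have h2 := pow_sm (d := d) (by omega) 6 4
  norm_num at h1 h2
  have h3 := sm_anti (k := 10) (k' := 298) (by norm_num) d
  have h4 := sm_anti (k := 10) (k' := 200) (by norm_num) d
  have h6 := sm_le_one (k := 4) (by norm_num) d
  have h7 : 5 * sm 10 d ≤ 1 / (d : ℝ) ^ 5 := by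
    rw [le_div_iff₀ (by positivity)]
    have := mul_le_mul_of_nonneg_right h5 (mul_pos (sm_pos 10 d) (by positivity :
      0 < (d : ℝ) ^ 5)).le
    nlinarith
  linarith

variable {V E : Type} [Fintype V] [DecidableEq V] [Fintype E] [DecidableEq E]

omit [Fintype V] [DecidableEq V] in
lemma drop (w0 : E × Bool → V) (G : (E × Bool → V) → Prop) {F : (E × Bool → V) → (E → Bool) → ℝ}
    (hF : ∀ w J, |F w J| ≤ 1) :
    |ED w0 F - ED w0 fun w J => ind (G w) * F w J| ≤ PD w0 fun w _ => ¬ G w := by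
  have h : ∀ w J, |F w J - ind (G w) * F w J| ≤ ind (¬ G w) := fun w J => by
    by_cases e : G w
    · simp [ind_pos e, ind_nonneg]
    · simpa [ind_neg e, ind_pos e] using hF w J
  rw [← ED_sub, abs_le, neg_le, ← neg_one_mul, ← ED_mul]
  exact ⟨ED_mono fun w J => by linarith [(abs_le.1 (h w J)).1],
    ED_mono fun w J => (abs_le.1 (h w J)).2⟩

lemma abs_P {Sg Gm : Type} [Fintype Sg] [Nonempty Sg] [Fintype Gm] {C : Cas Sg Gm} (h : C.Ok)
    {f : Gm → Sg → ℝ} (hf : ∀ g σ, |f g σ| ≤ 1) : |C.P f| ≤ 1 :=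
  abs_le.2 ⟨Cas.const_le_P h fun g σ => (abs_le.1 (hf g σ)).1,
    Cas.P_le_const h fun g σ => (abs_le.1 (hf g σ)).2⟩

end EMagL

open EMagL in
theorem stMagL (h1 : StVT4) (h2 : StVX) (h3 : StInsCav) (h4 : StSymCav) (h7 : StGwP) (hp : StPar)
    (hpos : StPos) : StMagL := by
  filter_upwards [h7, hp] with d h7 hp
  refine ((h7.and hp).and (Big.card d (fun N => 1 ≤ N) (eventually_ge_atTop 1))).mono ?_
  intro V E _ _ _ _ w0 hw ⟨⟨h7, hp⟩, hV⟩ P hO hβ hA hB
  have : Nonempty V := Fintype.card_pos_iff.1 hV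
  have : Nonempty E := ⟨P.e⟩
  have hL := hp P hO
  obtain ⟨-, g1, -, g2, -, g3⟩ := h7 P hO
  have hd := hL.1
  have hB1 : P.B ≤ 1 := (abs_le.1 hO.2.2.2.2.2.2.2.2.2.2.2.2.2.2.2.1).2
  have hok : ∀ w J, (P.full w J).cas.Ok := fun w J => (hL.2.1 _ _ _).ok (by omega)
  have hc : 1 ≤ sm 300 d * Fintype.card (cav P.U) :=
    (hL.2.1 univ (fun _ => 0) w0).2.2.2.2.2.2.2.2.2.2
  have hc0 : (0 : ℝ) < Fintype.card (cav P.U) := by
    by_contra h
    nlinarith [sm_pos 300 d]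
  have hU : P.U.Nonempty := by
    obtain ⟨⟨a, ha⟩⟩ := Fintype.card_pos_iff.1 (Nat.cast_pos.1 hc0)
    exact ⟨a.1, mem_cav.1 ha⟩
  have he : (d : ℝ) ^ 2 / Fintype.card (cav P.U) ≤ (d : ℝ) ^ 2 * sm 300 d := by
    rw [div_le_iff₀ hc0, mul_assoc]
    exact le_mul_of_one_le_right (by positivity) hc
  have key : ∀ v, P.B / 10 * (ED w0 fun w J => (P.full w J).P fun g _ =>
      kt ((P.full w J).nu g) (crd v)) - (2 * (PD w0 fun w _ => ¬ P.Gv w v) +
        (2 * ((d : ℝ) ^ 2 * sm 300 d) + sm 10 d))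
      ≤ ED w0 fun w J => (P.full w J).P fun _ σ => sgn (crd v σ) := by
    intro v
    obtain ⟨pos, hq⟩ := hpos V E d v
    have f1 : ∀ w J, |(P.full w J).P fun _ σ => sgn (crd v σ)| ≤ 1 := fun w J =>
      abs_P (hok w J) fun _ _ => by simp
    have f2 : ∀ w J, |(P.full w J).P fun g _ => kt ((P.full w J).nu g) (crd v)| ≤ 1 := fun w J =>
      abs_P (hok w J) fun g _ => abs_le.2 ⟨le_trans (by norm_num)
        ((Cas.nu_prob g).kt_nonneg (crd v)), (kt_le_half _).trans (by norm_num)⟩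
    have a1 := abs_le.1 ((h2 V E w0 d P.U v pos (fun w => P.Gv w v) _ hw hq hU (fun w => g2 w v)
      (g3 v) f1).trans he)
    have a2 := abs_le.1 ((h2 V E w0 d P.U v pos (fun w => P.Gv w v) _ hw hq hU (fun w => g2 w v)
      (g3 v) f2).trans he)
    have a3 := abs_le.1 (drop w0 (fun w => P.Gv w v) f1)
    have a4 := abs_le.1 (drop w0 (fun w => P.Gv w v) f2)
    have a5 : (ED w0 fun w J => P.B / 10 * (ind (P.Gv w v) * Fam (P.ins w J (pos w))
        fun ω g _ => kt ((P.ins w J (pos w) ω).nu g) (crd v)) - sm 10 d)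
        ≤ ED w0 fun w J => ind (P.Gv w v) * Fam (P.ins w J (pos w)) fun _ _ σ => sgn (crd v σ) := by
      refine ED_mono_deg hw fun w J hw' => ?_
      by_cases e : P.Gv w v
      · have b1 := (h3 V E d P w J v (pos w) hO hL hw' e (hq.1 w hw').1 (hq.1 w hw').2).1
        rw [show P.AAp (pos w) = ∅ by simp [Pk.AAp, hA]] at b1
        rw [ind_pos e, one_mul, one_mul]
        exact h1 _ _ _ (P.cavi w J v) d P.B _ _ _ hd (hL.2.1 _ _ _) hβ (h4 V E P w J v (g2 w v e))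
          b1 hB hB1
      · simp [ind_neg e, (sm_pos 10 d).le]
    rw [ED_sub, ED_mul, ED_const] at a5
    have a6 := PD_nonneg (w0 := w0) fun w _ => ¬ P.Gv w v
    have a7 : 0 ≤ (d : ℝ) ^ 2 * sm 300 d := by have := sm_pos 300 d; positivity
    have a8 := mul_le_mul_of_nonneg_left (add_le_add a2.2 a4.2) (show 0 ≤ P.B / 10 by linarith)
    have a9 := mul_le_mul_of_nonneg_right (show P.B / 10 ≤ 1 by linarith) (add_nonneg a7 a6)
    have b1 := a1.1
    have b2 := a3.1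
    simp only [Fam, Pk.ins] at a5
    linarith
  have k2 := avg_mono key
  rw [avg_sub, avg_add, avg_const, avg_mul, avg_mul, ← ED_avg, ← ED_avg] at k2
  simp only [← Cas.P_avg] at k2
  have k3 := err (d := d) (by omega)
  unfold Pk.mK Pk.mM Pk.EQ
  simp only [crd] at k2 ⊢
  linarith

end Pool.Agent.MP_32a90a_pr.D

end

section

set_option autoImplicit false

namespace Pool.Agent.MP_32a90a_pr.D

open Finset Equiv Filter Pool.Agent.MP_32a90a_pr Pool.Agent.MP_32a90a_pr.L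

namespace ENO1

lemma gibbs_tail {Sg : Type} [Fintype Sg] [Nonempty Sg] (K : Sg → ℝ) (m a : ℝ)
    (hm : ∃ σ, K σ = m) :
    (Ex (gibbs 1 K) fun σ => ind (¬ m - a ≤ K σ))
      ≤ Real.exp (Real.log (∑ σ, Real.exp (1 / 2 * K σ)) - m / 2 - a / 2) := by
  obtain ⟨σ0, h0⟩ := hm
  have hZ : Real.exp m ≤ Zf 1 K := by
    have := single_le_sum (f := fun σ => Real.exp (1 * K σ)) (s := univ)
      (fun σ _ => (Real.exp_pos _).le) (mem_univ σ0)
    rw [← h0]
    simpa [Zf] using this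
  have hS : 0 < ∑ σ, Real.exp (1 / 2 * K σ) := sum_pos (fun _ _ => Real.exp_pos _) univ_nonempty
  rw [sub_sub, Real.exp_sub, Real.exp_log hS, sum_div]
  refine sum_le_sum fun σ _ => ?_
  beta_reduce
  by_cases h : m - a ≤ K σ
  · rw [ind_neg (not_not.2 h), mul_zero]; positivity
  · rw [ind_pos h, mul_one]
    refine (div_le_div_of_nonneg_left (Real.exp_pos _).le (Real.exp_pos m) hZ).trans ?_
    rw [← Real.exp_sub, ← Real.exp_sub]
    refine Real.exp_le_exp.2 ?_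
    have := not_le.1 h
    linarith

lemma abs_gad {tp tm : ℝ} (h1 : 1 ≤ tp) (h2 : tp ≤ 2) (h3 : 1 ≤ tm) (h4 : tm ≤ 2)
    (o : Option Bool) (s : Bool) : |gad tp tm o s| ≤ 2 := by
  cases o with
  | none => simp [gad]
  | some b =>
    simp only [gad]
    split_ifs <;> rw [abs_le] <;> constructor <;> linarith

lemma q8_le {d : ℕ} (hd : 8 ≤ d) : 16 * (d : ℝ) * qq d ^ 8 ≤ 1 := by
  have h8 : (8 : ℝ) ≤ d := by exact_mod_cast hd
  have e : qq d ^ 8 = Real.exp (-(2 * (d : ℝ) ^ 2)) := by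
    unfold qq; rw [← Real.exp_nat_mul]; congr 1; push_cast; ring
  have h1 := Real.add_one_le_exp (2 * (d : ℝ) ^ 2)
  rw [e, Real.exp_neg, ← div_eq_mul_inv, div_le_one (Real.exp_pos _)]
  nlinarith

variable {V E : Type} [Fintype V] [DecidableEq V] [Fintype E] [DecidableEq E]

omit [DecidableEq E] in
lemma exists_mx (s : E → ℝ) (B : ℝ) (w : E × Bool → V) :
    ∃ σ : V → Bool, HH s B w σ = mxH univ s B w := by
  have : Nonempty (univ : Finset (V → Bool)) := ⟨⟨fun _ => true, mem_univ _⟩⟩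
  obtain ⟨σ, hσ⟩ := exists_eq_ciSup_of_finite
    (f := fun σ : (univ : Finset (V → Bool)) => HH s B w σ)
  exact ⟨σ, hσ⟩

lemma H_close {d : ℕ} (hd : 8 ≤ d) (P : Pk V E) (hP : P.Ok d) (w : E × Bool → V) (J : E → Bool)
    (g : Gam (V → Bool) (cav P.U)) (σ : V → Bool) :
    |(P.full w J).cas.H g σ - HH (P.s J) P.B w σ| ≤ 4 * qq d ^ 8 * Fintype.card V + 4 := by
  obtain ⟨-, -, -, hU, -, -, -, -, -, -, -, t1, t2, t3, t4, -, g0, g1, hr⟩ := hP
  have h8 : (8 : ℝ) ≤ d := by exact_mod_cast hd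
  have hq := q8_le hd
  have hq0 : 0 < qq d ^ 8 := pow_pos (Real.exp_pos _) _
  have hq1 : 4 * qq d ^ 8 ≤ 1 := by nlinarith
  have hN : (0 : ℝ) ≤ Fintype.card V := Nat.cast_nonneg _
  have e : (P.full w J).cas.H g σ - HH (P.s J) P.B w σ
      = (∑ v, (P.rwd (σ v) (loc (P.s J) w σ v) + P.g * (sgn (g.1 v) * sgn (σ v))))
        + ∑ a : cav P.U, gad P.tp P.tm (g.2 a) (σ (w a)) := by
    simp only [Pk.full, Pk.sys, Sys.cas, HH, mag, sum_add_distrib, mul_sum]
    ring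
  have h1 : |∑ v, (P.rwd (σ v) (loc (P.s J) w σ v) + P.g * (sgn (g.1 v) * sgn (σ v)))|
      ≤ 3 * qq d ^ 8 * Fintype.card V := by
    refine (abs_sum_le_sum_abs _ _).trans ((sum_le_sum (g := fun _ => 3 * qq d ^ 8)
      fun v _ => ?_).trans_eq ?_)
    · refine (abs_add_le _ _).trans ?_
      rw [abs_mul, abs_mul, abs_sgn, abs_sgn, abs_of_nonneg g0]
      linarith [hr (σ v) (loc (P.s J) w σ v)]
    · simp [mul_comm]
  have h2 : |∑ a : cav P.U, gad P.tp P.tm (g.2 a) (σ (w a))| ≤ 4 * P.U.card := by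
    refine (abs_sum_le_sum_abs _ _).trans ((sum_le_sum (g := fun _ => (2 : ℝ))
      fun a _ => abs_gad t1 (by linarith) t3 (by linarith) _ _).trans_eq ?_)
    rw [sum_const, card_univ, Fintype.card_coe, nsmul_eq_mul, card_cav]
    ring
  have h3 : (P.U.card : ℝ) ≤ qq d ^ 16 * Fintype.card V + 1 := by
    rw [hU]
    exact (Nat.ceil_lt_add_one (mul_nonneg (pow_pos (Real.exp_pos _) _).le hN)).le
  have h4 : 4 * qq d ^ 16 * Fintype.card V ≤ qq d ^ 8 * Fintype.card V := by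
    refine mul_le_mul_of_nonneg_right ?_ hN
    have : qq d ^ 16 = qq d ^ 8 * qq d ^ 8 := by ring
    rw [this]; nlinarith
  rw [e]
  refine (abs_add_le _ _).trans ?_
  linarith

lemma good (hf : StFix) {d : ℕ} (hd : 8 ≤ d) (P : Pk V E) (hP : P.Ok d) (hL : P.Lg d)
    (hβ : P.β = 1) (C : ℝ) (w : E × Bool → V) (J : E → Bool)
    (hg : lzH univ (1 / 2) (P.s J) P.B w
      ≤ 1 / 2 * mxH univ (P.s J) P.B w + C * ell d ^ 3 / d * Fintype.card V) :
    ((P.full w J).P fun _ σ => ind (¬ mxH univ (P.s J) P.B w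
        - (2 * C + 2) * ell d ^ 3 / d * Fintype.card V ≤ HH (P.s J) P.B w σ))
      ≤ Real.exp (8 - Fintype.card V / (2 * d)) := by
  have hok : (P.full w J).cas.Ok := (hL.2.1 _ _ _).ok (by omega)
  have h1 := (hf _ _ (P.full w J).cas (HH (P.s J) P.B w) _ hok Sys.sum_p
    (H_close hd P hP w J)).2.2 (fun σ => ind (¬ mxH univ (P.s J) P.B w
        - (2 * C + 2) * ell d ^ 3 / d * Fintype.card V ≤ HH (P.s J) P.B w σ))
        fun σ => ind_nonneg _
  have hb : (P.full w J).cas.β = 1 := hβ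
  rw [hb] at h1
  have h2 := gibbs_tail (HH (P.s J) P.B w) (mxH univ (P.s J) P.B w)
    ((2 * C + 2) * ell d ^ 3 / d * Fintype.card V) (exists_mx _ _ _)
  refine h1.trans ((mul_le_mul_of_nonneg_left h2 (Real.exp_pos _).le).trans ?_)
  rw [← Real.exp_add]
  refine Real.exp_le_exp.2 ?_
  have h8 : (8 : ℝ) ≤ d := by exact_mod_cast hd
  have hd0 : (0 : ℝ) < d := by linarith
  have hN : (0 : ℝ) ≤ Fintype.card V := Nat.cast_nonneg _
  have hl : 1 ≤ ell d ^ 3 := one_le_pow₀ (one_le_log (by omega))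
  have hq : 8 * qq d ^ 8 ≤ 1 / (2 * (d : ℝ)) := by
    rw [le_div_iff₀ (by positivity)]; linarith [q8_le hd]
  have a1 : 8 * qq d ^ 8 * Fintype.card V ≤ Fintype.card V / (2 * (d : ℝ)) := by
    calc 8 * qq d ^ 8 * Fintype.card V ≤ 1 / (2 * (d : ℝ)) * Fintype.card V :=
          mul_le_mul_of_nonneg_right hq hN
      _ = _ := by ring
  have a2 : 2 * (Fintype.card V / (2 * (d : ℝ))) ≤ ell d ^ 3 / d * Fintype.card V := by
    calc 2 * (Fintype.card V / (2 * (d : ℝ))) = 1 * (Fintype.card V / d) := by field_simp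
      _ ≤ ell d ^ 3 * (Fintype.card V / d) := mul_le_mul_of_nonneg_right hl (by positivity)
      _ = _ := by ring
  have a3 : (2 * C + 2) * ell d ^ 3 / d * Fintype.card V
      = 2 * (C * ell d ^ 3 / d * Fintype.card V) + 2 * (ell d ^ 3 / d * Fintype.card V) := by
    ring
  unfold lzH at hg
  rw [a3]
  linarith

lemma ev_small {d : ℕ} (hd : 8 ≤ d) {ε : ℝ} (hε : 0 < ε) :
    ∀ᶠ N : ℕ in atTop, Real.exp (8 - (N : ℝ) / (2 * d)) ≤ ε := by
  have h8 : (8 : ℝ) ≤ d := by exact_mod_cast hd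
  filter_upwards [eventually_ge_atTop ⌈2 * (d : ℝ) * (8 - Real.log ε)⌉₊] with N hN
  have h1 : 2 * (d : ℝ) * (8 - Real.log ε) ≤ N := Nat.ceil_le.1 hN
  rw [← Real.le_log_iff_exp_le hε]
  have : 8 - Real.log ε ≤ N / (2 * (d : ℝ)) := by
    rw [le_div_iff₀ (by positivity)]; linarith
  linarith

end ENO1

theorem stNO1 (hb : StB1w) (hf : StFix) (hp : StPar) (hk : StOkG) : StNO1 := by
  have _ := hk
  obtain ⟨C, hC, hb⟩ := hb
  refine ⟨2 * C + 2, by linarith, ?_⟩
  filter_upwards [hb, hp, eventually_ge_atTop 8] with d hb hp hd ε hε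
  refine (((hb (ε / 2) (by linarith)).and hp).and
    (Big.card d _ (ENO1.ev_small hd (half_pos hε)))).mono ?_
  intro V E _ _ _ _ w0 _ ⟨⟨h1, h2⟩, h3⟩ P hP hβ
  have hL := h2 P hP
  have h4 := h1 P.Z P.A ∅ (1 / 2) P.B univ (by simpa using hL.2.2.1) le_rfl (by norm_num)
    hP.2.2.2.2.2.2.2.2.2.2.2.2.2.2.2.1 univ_nonempty
  unfold Pk.EQ
  refine (ED_mono (Ψ := fun w J => ind (1 / 2 * mxH univ (cp P.Z P.A ∅ J) P.B w
      + C * ell d ^ 3 / d * Fintype.card V < lzH univ (1 / 2) (cp P.Z P.A ∅ J) P.B w) + ε / 2)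
    fun w J => ?_).trans ?_
  · by_cases hg : 1 / 2 * mxH univ (cp P.Z P.A ∅ J) P.B w
        + C * ell d ^ 3 / d * Fintype.card V < lzH univ (1 / 2) (cp P.Z P.A ∅ J) P.B w
    · rw [ind_pos hg]
      have hok : (P.full w J).cas.Ok := (hL.2.1 _ _ _).ok (by omega)
      exact (Cas.P_le_const hok fun _ _ => ind_le_one _).trans (by linarith)
    · rw [ind_neg hg, zero_add]
      exact (ENO1.good hf hd P hP hL hβ C w J (not_lt.1 hg)).trans h3
  · rw [ED_add, ED_const]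
    unfold PD at h4
    linarith

end Pool.Agent.MP_32a90a_pr.D

end

section

set_option autoImplicit false

namespace Pool.Agent.MP_32a90a_pr.D

open Finset Equiv Filter Pool.Agent.MP_32a90a_pr Pool.Agent.MP_32a90a_pr.L

namespace ENearX

variable {V E : Type} [Fintype V] [DecidableEq V] [Fintype E] [DecidableEq E]

omit [Fintype V] [DecidableEq V] in
lemma en_jn {U : Finset E} {k : E} {a b : E × Bool} {s : E → ℝ} (hU : ∀ i ∈ U, s i = 0)
    (hk : k ∉ U) (ha : a ∈ cav U) (hb : b ∈ cav U) (hab : a ≠ b) (w : E × Bool → V) (c : ℝ)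
    (σ : V → Bool) :
    en Y1 (Function.update s k c) (w ∘ ex k a b) σ
      = en Y1 (Function.update s k 0) w σ + c * (sgn (σ (w a)) * sgn (σ (w b))) := by
  unfold en
  rw [← add_sum_erase _ _ (mem_univ k), ← add_sum_erase _ _ (mem_univ k)]
  simp only [Function.update_self, Function.comp_apply, ex_false hk ha hb, ex_true hk ha hb hab,
    zero_mul, zero_add]
  rw [add_comm]
  congr 1
  refine sum_congr rfl fun i hi => ?_
  have h1 : i ≠ k := ne_of_mem_erase hi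
  rw [Function.update_of_ne h1, Function.update_of_ne h1]
  by_cases hs : s i = 0
  · simp [hs]
  · have h2 : ∀ c, (i, c) ≠ a := by rintro c rfl; exact hs (hU _ (mem_cav.1 ha))
    have h3 : ∀ c, (i, c) ≠ b := by rintro c rfl; exact hs (hU _ (mem_cav.1 hb))
    rw [ex_other (p := (i, false)) h1 (h2 _) (h3 _), ex_other (p := (i, true)) h1 (h2 _) (h3 _)]

omit [Fintype V] in
lemma loc_jn {U : Finset E} {k : E} {a b : E × Bool} {s : E → ℝ} (hU : ∀ i ∈ U, s i = 0)
    (hk : k ∉ U) (ha : a ∈ cav U) (hb : b ∈ cav U) (hab : a ≠ b) (w : E × Bool → V) (c : ℝ)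
    (σ : V → Bool) {u : V} (h1 : u ≠ w a) (h2 : u ≠ w b) :
    loc (Function.update s k c) (w ∘ ex k a b) σ u = loc (Function.update s k 0) w σ u := by
  unfold loc
  rw [sum_filter, sum_filter]
  refine sum_congr rfl fun p _ => ?_
  obtain ⟨i, t⟩ := p
  by_cases hi : i = k
  · subst hi
    have : (w ∘ ex i a b) (i, t) ≠ u := by
      cases t
      · rw [Function.comp_apply, ex_false hk ha hb]; exact h1.symm
      · rw [Function.comp_apply, ex_true hk ha hb hab]; exact h2.symm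
    rw [if_neg this]
    simp [sl]
  · by_cases hs : s i = 0
    · simp [sl, Function.update_of_ne hi, hs]
    · have h3 : ∀ c, (i, c) ≠ a := by rintro c rfl; exact hs (hU _ (mem_cav.1 ha))
      have h4 : ∀ c, (i, c) ≠ b := by rintro c rfl; exact hs (hU _ (mem_cav.1 hb))
      have h5 : ∀ c, ex k a b (i, c) = (i, c) := fun c => ex_other hi (h3 c) (h4 c)
      simp only [sl, Function.comp_apply, h5, Function.update_of_ne hi]

omit [Fintype V] [DecidableEq V] [Fintype E] [DecidableEq E] in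
lemma Gd_perm {Z : Finset E} {π : Perm (E × Bool)} (hπ : ∀ p, p.1 ∉ Z → π p = p)
    {w : E × Bool → V} {v : V} (h : Gd Z w v) : Gd Z (w ∘ π) v := by
  intro p hp
  have h1 := h (π p) hp
  have h2 : π p = p := π.injective (hπ _ h1.1)
  rw [h2] at h1
  exact ⟨h1.1, by rw [Function.comp_apply, hπ (pt p) h1.1]; exact h1.2⟩

omit [Fintype V] [DecidableEq V] [Fintype E] [DecidableEq E] in
lemma Gd_perm_iff {Z : Finset E} {π : Perm (E × Bool)} (hπ : ∀ p, p.1 ∉ Z → π p = p)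
    (w : E × Bool → V) (v : V) : Gd Z (w ∘ π) v ↔ Gd Z w v := by
  refine ⟨fun h => ?_, Gd_perm hπ⟩
  have h1 := Gd_perm (π := π⁻¹) (fun p hp => Perm.inv_eq_iff_eq.2 (hπ p hp).symm) h
  have h2 : (w ∘ π) ∘ (π⁻¹ : Perm (E × Bool)) = w := by funext p; simp
  rwa [h2] at h1

end ENearX

open ENearX in
theorem stNearX : StNearX := by
  intro V E _ _ _ _ _ d P w v a a' hO
  have hfix : ∀ p : E × Bool, p.1 ∉ P.Z → ex P.e a a' p = p := fun p hp =>
    ex_other (fun h => hp (h ▸ mem_insert_self _ _))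
      (fun h => hp (h ▸ mem_insert_of_mem (mem_cav.1 a.2)))
      (fun h => hp (h ▸ mem_insert_of_mem (mem_cav.1 a'.2)))
  refine ⟨Gd_perm_iff hfix w v, fun J b hG hab => ?_⟩
  have heU : P.e ∉ P.U := hO.1
  have hab' : (a : E × Bool) ≠ a' := fun h => hab (Subtype.ext h)
  have hZ : ∀ j ∈ P.Z, cavS (P.s J) w v j = 0 := fun j hj => by
    simp only [cavS, Pk.s, cp, hj, if_true, ite_self]
  have hU : ∀ j ∈ P.U, cavS (P.s J) w v j = 0 := fun j hj => hZ j (mem_insert_of_mem hj)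
  have h0 : cavS (P.s J) w v = Function.update (cavS (P.s J) w v) P.e 0 := by
    rw [← hZ P.e (mem_insert_self _ _), Function.update_eq_self]
  have hv : ∀ p : cav P.U, w p ≠ v := fun p h => (hG p h).1 (mem_insert_of_mem (mem_cav.1 p.2))
  have hs : cavS (cp P.U P.A ∅ (Function.update J P.e b)) (w ∘ ex P.e a a') v
      = Function.update (cavS (P.s J) w v) P.e (sgn b) := by
    funext j
    by_cases hj : j = P.e
    · subst hj
      simp [cavS, cp, ex_false heU a.2 a'.2, ex_true heU a.2 a'.2 hab', hv a, hv a', heU, hO.2.1]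
    · rw [Function.update_of_ne hj]
      by_cases hjU : j ∈ P.U
      · rw [hU j hjU]
        simp only [cavS, cp, hjU, if_true, ite_self]
      · have hjZ : j ∉ P.Z := fun h => (mem_insert.1 h).elim hj hjU
        simp only [cavS, Pk.s, cp, Function.comp_apply, hfix (j, false) hjZ, hfix (j, true) hjZ,
          hjU, hjZ, Function.update_of_ne hj]
  have hr : ∀ b h, |P.rwd b h| ≤ 2 * qq d ^ 8 := hO.2.2.2.2.2.2.2.2.2.2.2.2.2.2.2.2.2.2
  have hq : 0 ≤ qq d ^ 8 := by positivity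
  refine ⟨rfl, rfl, rfl, rfl, rfl, fun γ σ => ?_, fun p hp => ?_⟩
  · simp only [Pk.cavT, Pk.cavi, Pk.sys, Sys.De, hs, en_jn hU heU a.2 a'.2 hab', ← h0]
    have e : ∀ x y z t : ℝ, x + y + z - (x + t) - y = z - t := fun _ _ _ _ => by ring
    rw [e, ← sum_sub_distrib, ← sum_subset (s₁ := {w a, w a'}) (fun u hu => by
      rcases mem_insert.1 hu with rfl | hu
      · exact mem_erase.2 ⟨hv a, mem_univ _⟩
      · rw [mem_singleton.1 hu]; exact mem_erase.2 ⟨hv a', mem_univ _⟩) (fun u _ hu => by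
      simp only [mem_insert, mem_singleton, not_or] at hu
      rw [loc_jn hU heU a.2 a'.2 hab' w _ σ hu.1 hu.2, ← h0, sub_self])]
    refine (abs_sum_le_sum_abs _ _).trans ((sum_le_card_nsmul _ _ (4 * qq d ^ 8)
      fun v _ => ?_).trans ?_)
    · have e2 : ∀ x y z t : ℝ, x + y + z - (x + t + z) = y - t := fun _ _ _ _ => by ring
      rw [e2]
      exact (abs_sub _ _).trans ((add_le_add (hr _ _) (hr _ _)).trans_eq (by ring))
    · have c2 : ((({w a, w a'} : Finset V).card : ℕ) : ℝ) ≤ 2 := by exact_mod_cast card_le_two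
      have hd : (0 : ℝ) ≤ d := Nat.cast_nonneg d
      rw [nsmul_eq_mul, dlq]
      nlinarith [mul_nonneg hd hq]
  · simp only [mem_insert, mem_singleton, not_or] at hp
    have h1 : (p : E × Bool).1 ≠ P.e := fun h => heU (h ▸ mem_cav.1 p.2)
    funext σ
    simp only [Pk.cavT, Pk.cavi, Pk.sys, Function.comp_apply]
    rw [ex_other h1 (fun h => hp.1 (Subtype.ext h)) (fun h => hp.2 (Subtype.ext h))]

end Pool.Agent.MP_32a90a_pr.D

end

section

set_option autoImplicit false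
set_option linter.unusedSectionVars false

namespace Pool.Agent.MP_32a90a_pr.D

open Finset Equiv Filter Pool.Agent.MP_32a90a_pr Pool.Agent.MP_32a90a_pr.L

namespace EObs

lemma gad_add (tp tm a a' : ℝ) (o : Option Bool) (s : Bool) :
    gad (tp + a) (tm + a') o s
      = gad tp tm o s + (a * ind (o = some s) - a' * ind (o = some (!s))) := by
  rcases o with _ | b
  · simp [gad, ind]
  · cases b <;> cases s <;> simp [gad, ind] <;> ring

lemma rwd_add {d : ℕ} {θ θ1 : Co d → ℕ} {c : Co d} (h : ∀ k, (θ1 k : ℝ) = θ k + ind (k = c))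
    (b : Bool) (x : ℝ) : rwdT d θ1 b x = rwdT d θ b x +
      qq d ^ 12 * ∑ i : Fin (2 * d + 1), ind (x = lev d i) * ind (Sum.inl (b, i) = c) := by
  rw [rwdT, rwdT, mul_sum, ← sum_add_distrib]
  exact sum_congr rfl fun i _ => by rw [h]; ring

variable {V E : Type} [Fintype V] [DecidableEq V] [Fintype E] [DecidableEq E]

lemma step {d : ℕ} (P : Pk V E) {θ θ1 : Co d → ℕ} {c : Co d}
    (h : ∀ k, (θ1 k : ℝ) = θ k + ind (k = c)) (w : E × Bool → V) (J : E → Bool)
    (g : Gam (V → Bool) (cav P.U)) (σ : V → Bool) :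
    ((P.grid d θ1).full w J).cas.H g σ
      = ((P.grid d θ).full w J).cas.H g σ + qq d ^ 12 * P.obs d c w J g σ := by
  have e : (∑ v, ∑ i : Fin (2 * d + 1),
        ind (loc (P.s J) w σ v = lev d i) * ind (Sum.inl (σ v, i) = c))
      + (ind (Sum.inr true = c) * (P.full w J).Kp g σ
        - ind (Sum.inr false = c) * (P.full w J).Km g σ) = P.obs d c w J g σ := by
    rcases c with ⟨b, i⟩ | _ | _
    · rw [ind_neg (P := Sum.inr true = _) (by simp), ind_neg (P := Sum.inr false = _) (by simp),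
        zero_mul, zero_mul, sub_zero, add_zero]
      classical
      refine Eq.trans (sum_congr rfl fun v _ => ?_)
        ((sum_ind fun v => σ v = b ∧ loc (P.s J) w σ v = lev d i).trans (by
          simp only [Pk.obs, cnt]))
      rw [sum_eq_single i (fun k _ hk => by rw [ind_neg (P := Sum.inl _ = _) (by simp [hk]), mul_zero])
        (fun hi => absurd (mem_univ _) hi), ind_and, mul_comm]
      congr 1
      exact ind_congr (by simp)
    · simp [Pk.obs, ind]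
    · simp [Pk.obs, ind]
  rw [← e]
  simp only [Sys.cas, Pk.full, Pk.sys, Sys.Kp, Sys.Km, h, mul_add, ← add_assoc (1 : ℝ), gad_add,
    rwd_add h, sum_add_distrib, sum_sub_distrib, ← mul_sum]
  simp only [Pk.s, Pk.Z]
  ring

end EObs

open EObs in
theorem stObs : StObs := by
  intro V E _ _ _ _ _ d P θ c w J
  classical
  refine ⟨?_, fun hc => ?_, fun g σ => ?_⟩
  · have h : ∀ k, (Function.update θ c (θ c + 1) k : ℝ) = θ k + ind (k = c) := fun k => by
      by_cases e : k = c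
      · rw [e, Function.update_self, ind_pos rfl]
        push_cast
        rfl
      · rw [Function.update_of_ne e, ind_neg e, add_zero]
    have := funext fun g => funext fun σ => EObs.step P h w J g σ
    exact congrArg (Cas.mk _ _ _) this
  · have h : ∀ k, (θ k : ℝ) = Function.update θ c (θ c - 1) k + ind (k = c) := fun k => by
      by_cases e : k = c
      · rw [e, Function.update_self, ind_pos rfl, Nat.cast_sub hc]
        simp
      · rw [Function.update_of_ne e, ind_neg e, add_zero]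
    have := funext fun g => funext fun σ => eq_add_neg_of_add_eq (EObs.step P h w J g σ).symm
    exact congrArg (Cas.mk _ _ _) this
  · have k : ∀ p : cav P.U → Prop, |∑ a, ind (p a)| ≤ Fintype.card (cav P.U) := fun p => by
      rw [abs_of_nonneg (sum_nonneg fun _ _ => ind_nonneg _)]
      exact (sum_le_card_nsmul _ _ 1 fun _ _ => ind_le_one _).trans (by simp)
    rcases c with bi | _ | _
    · simp only [Pk.obs, Pk.obsB, cnt, Nat.abs_cast]
      exact_mod_cast card_le_univ _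
    · simp only [Pk.obs, Pk.obsB, abs_neg]
      exact k _
    · exact k _

end Pool.Agent.MP_32a90a_pr.D

end

section

set_option autoImplicit false

open Finset Equiv Filter Pool.Agent.MP_32a90a_pr Pool.Agent.MP_32a90a_pr.L

namespace Pool.Agent.MP_32a90a_pr.D.EOkG

lemma qq_pos (d : ℕ) : 0 < qq d := Real.exp_pos _

lemma qq_le {d : ℕ} (hd : 3 ≤ d) : qq d ≤ 1 / 9 := by
  have hdR : (3 : ℝ) ≤ d := by exact_mod_cast hd
  have h1 : (9 : ℝ) ≤ Real.exp (1 + 1 + 1 / 4) := by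
    rw [Real.exp_add, Real.exp_add]
    have a := Real.exp_one_gt_d9
    have b := Real.add_one_le_exp (1 / 4 : ℝ)
    calc (9 : ℝ) ≤ 2.7 * 2.7 * (1 / 4 + 1) := by norm_num
      _ ≤ Real.exp 1 * Real.exp 1 * Real.exp (1 / 4) := by gcongr <;> linarith
  rw [qq, Real.exp_neg, ← one_div]
  exact one_div_le_one_div_of_le (by norm_num) (h1.trans (Real.exp_le_exp.2 (by nlinarith)))

lemma step_le {d n : ℕ} (hd : 3 ≤ d) (hn : n ≤ MM d + 1) : qq d ^ 12 * n ≤ 2 * qq d ^ 8 := by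
  have q0 := qq_pos d
  have q1 : qq d ≤ 1 := (qq_le hd).trans (by norm_num)
  have h1 : (MM d : ℝ) ≤ 1 / qq d ^ 4 := Nat.floor_le (by positivity)
  have h2 : (n : ℝ) ≤ MM d + 1 := by exact_mod_cast hn
  have h3 : qq d ^ 12 ≤ qq d ^ 8 := pow_le_pow_of_le_one q0.le q1 (by norm_num)
  calc qq d ^ 12 * n ≤ qq d ^ 12 * (1 / qq d ^ 4 + 1) := by gcongr; linarith
    _ = qq d ^ 8 + qq d ^ 12 := by field_simp
    _ ≤ 2 * qq d ^ 8 := by linarith

lemma sum_ind_le (d : ℕ) (h : ℝ) : ∑ i : Fin (2 * d + 1), ind (h = lev d i) ≤ 1 := by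
  classical
  rw [sum_ind]
  norm_cast
  refine card_le_one.2 fun i hi j hj => ?_
  have e : (lev d i : ℝ) = lev d j := (mem_filter.1 hi).2.symm.trans (mem_filter.1 hj).2
  have e2 : lev d i = lev d j := by exact_mod_cast e
  unfold lev at e2
  exact Fin.ext (by omega)

lemma rwd_le {d : ℕ} (hd : 3 ≤ d) {θ : Co d → ℕ} (hθ : ∀ c, θ c ≤ MM d + 1) (b : Bool) (h : ℝ) :
    |rwdT d θ b h| ≤ 2 * qq d ^ 8 := by
  have q0 := qq_pos d
  have h0 : 0 ≤ rwdT d θ b h := sum_nonneg fun i _ => mul_nonneg (ind_nonneg _) (by positivity)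
  rw [abs_of_nonneg h0]
  calc rwdT d θ b h ≤ ∑ i : Fin (2 * d + 1), ind (h = lev d i) * (2 * qq d ^ 8) :=
        sum_le_sum fun i _ => mul_le_mul_of_nonneg_left (step_le hd (hθ _)) (ind_nonneg _)
    _ ≤ 2 * qq d ^ 8 := by
        rw [← sum_mul]
        exact mul_le_of_le_one_left (by positivity) (sum_ind_le d h)

lemma sys_ok {Sg G0 A : Type} [Fintype Sg] [Fintype G0] [Nonempty G0] [Fintype A] [DecidableEq A]
    {S : Sys Sg G0 A} (h1 : 0 < S.β) (h2 : 0 < S.x) (h3 : S.x ≤ 1) (h4 : 0 < S.ρ) (h5 : S.ρ < 1) :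
    S.cas.Ok :=
  ⟨h1, h2, h3, fun g => (Sys.p_pos h4 h5 g).le,
    ⟨(Classical.arbitrary G0, fun _ => none), Sys.p_pos h4 h5 _⟩⟩

lemma y0_small : ∀ᶠ d : ℕ in atTop, y0 d ≤ 1 / 10 ^ 11 := by
  have h := (tendsto_rpow_neg_atTop (by norm_num : (0 : ℝ) < 1 / 100)).comp
    (Real.tendsto_log_atTop.comp tendsto_natCast_atTop_atTop)
  exact h.eventually (ge_mem_nhds (by norm_num))

lemma y0_ge {d : ℕ} (hd : 3 ≤ d) : 1 / (d : ℝ) ≤ y0 d := by
  have h1 := one_le_log hd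
  have hdR : (3 : ℝ) ≤ d := by exact_mod_cast hd
  have h2 : Real.log d ≤ d := (Real.log_le_sub_one_of_pos (by linarith)).trans (by linarith)
  calc 1 / (d : ℝ) ≤ 1 / Real.log d := one_div_le_one_div_of_le (by linarith) h2
    _ = Real.log d ^ (-1 : ℝ) := by rw [Real.rpow_neg_one, one_div]
    _ ≤ y0 d := Real.rpow_le_rpow_of_exponent_le h1 (by norm_num)

lemma yj_anti {d i j : ℕ} (h0 : 0 ≤ y0 d) (h : i ≤ j) : yj d j ≤ yj d i :=
  div_le_div_of_nonneg_left h0 (by positivity) (pow_le_pow_right₀ (by norm_num) h)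

end Pool.Agent.MP_32a90a_pr.D.EOkG

namespace Pool.Agent.MP_32a90a_pr.D

open EOkG

theorem stOkG : StOkG := by
  intro V E _ _ _ _ _ d P hd hO
  have q0 := qq_pos d
  have q9 := qq_le hd
  have q1 : qq d ≤ 1 := q9.trans (by norm_num)
  obtain ⟨a1, a2, a3, a4, a5, a6, a7, a8, a9, a10, a11, -, -, -, -, a16, a17, a18, -⟩ := hO
  have b1 : 0 < P.β := lt_of_lt_of_le one_pos a6
  have b2 : 0 < P.x := lt_of_lt_of_le (by positivity) a8
  have b3 : P.x ≤ 1 := a9.trans (pow_le_one₀ q0.le q1)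
  have b4 : 0 < P.ρ := by rw [a11]; positivity
  have b5 : P.ρ < 1 := by rw [a11]; nlinarith
  refine ⟨fun θ hθ => ⟨a1, a2, a3, a4, a5, a6, a7, a8, a9, a10, a11, ?_, ?_, ?_, ?_, a16, a17, a18,
    rwd_le hd hθ⟩, fun θ W s w => sys_ok b1 b2 b3 b4 b5, fun W s w => sys_ok b1 b2 b3 b4 b5,
    mul_pos b1 b2, a8.trans (le_mul_of_one_le_left b2.le a6), q9,
    (Nat.lt_floor_add_one _).le⟩
  · exact le_add_of_nonneg_right (by positivity)
  · exact add_le_add le_rfl (step_le hd (hθ _))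
  · exact le_add_of_nonneg_right (by positivity)
  · exact add_le_add le_rfl (step_le hd (hθ _))

theorem stJm : StJm := by
  filter_upwards [y0_small, eventually_ge_atTop 1000] with d hy hd
  have hd3 : 3 ≤ d := by omega
  have hdR : (1000 : ℝ) ≤ d := by exact_mod_cast hd
  have hd0 : (0 : ℝ) < d := by linarith
  have q0 := qq_pos d
  have h1 : 100 * ((d : ℝ) + 1) * qq d ≤ 1 := by
    rw [qq, Real.exp_neg, ← div_eq_mul_inv, div_le_one (Real.exp_pos _)]
    refine le_trans ?_ (Real.add_one_le_exp _)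
    nlinarith
  have g0 := y0_ge hd3
  have g1 : 0 ≤ y0 d := le_trans (by positivity) g0
  have hex : yj d d ^ 2 * d ≤ 1 := by
    have c1 : (d : ℝ) ≤ 2 ^ d := by exact_mod_cast (Nat.lt_two_pow_self).le
    have c2 : (1 : ℝ) ≤ 2 ^ d := one_le_pow₀ (by norm_num)
    have c3 : y0 d ^ 2 ≤ 1 := pow_le_one₀ g1 (hy.trans (by norm_num))
    rw [yj, div_pow, div_mul_eq_mul_div, div_le_one (by positivity)]
    nlinarith
  have hE : ∃ j, yj d j ^ 2 * d ≤ 1 := ⟨d, hex⟩
  refine ⟨by rw [le_div_iff₀ hd0]; nlinarith, h1, Nat.find hE, Nat.find_min' hE hex,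
    Nat.find_spec hE, fun j hj => ⟨le_trans ?_ (yj_anti g1 hj), ?_⟩⟩
  · rcases e : Nat.find hE with _ | n
    · simpa [yj] using g0
    · have c1 := not_le.1 (Nat.find_min hE (m := n) (by omega))
      have c2 : yj d n = 2 * yj d (n + 1) := by
        rw [yj, yj, pow_succ]
        field_simp
      have c3 : 0 ≤ yj d (n + 1) := div_nonneg g1 (by positivity)
      rw [c2] at c1
      rw [div_le_iff₀ hd0]
      by_contra hn
      push Not at hn
      have c4 : (yj d (n + 1) * d) ^ 2 ≤ 1 := pow_le_one₀ (by positivity) hn.le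
      nlinarith
  · refine le_trans ?_ hy
    simpa [yj] using yj_anti g1 (Nat.zero_le j)

end Pool.Agent.MP_32a90a_pr.D

end

section

set_option autoImplicit false

namespace Pool.Agent.MP_32a90a_pr.D

open Finset Equiv Filter Pool.Agent.MP_32a90a_pr Pool.Agent.MP_32a90a_pr.L

namespace EPur

lemma num {K q ε a g β x k N : ℝ} (hK : 0 < K) (hq : 0 < q) (hε : 0 < ε)
    (ha : a = ε / 3 * q ^ 10 / K) (g0 : 0 < g) (g1 : g ≤ q ^ 4 * Real.sqrt a) (b0 : 1 ≤ β)
    (b1 : β ≤ 1 / q ^ 4) (hx : q ^ 5 ≤ x) (k0 : 0 < k) (k1 : 1 / (a * g ^ 2) ≤ k)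
    (hN : 6 * k / ε ≤ N) :
    K / x ^ 2 * (1 / (k * (β * g) ^ 2) + (β * g) ^ 2) + 2 * k / N ≤ ε := by
  have a0 : 0 < a := by rw [ha]; positivity
  have N0 : 0 < N := lt_of_lt_of_le (by positivity) hN
  have e1 : K / x ^ 2 ≤ K / q ^ 10 := by
    refine div_le_div_of_nonneg_left hK.le (by positivity) ?_
    rw [show q ^ 10 = (q ^ 5) ^ 2 by ring]
    exact pow_le_pow_left₀ (by positivity) hx 2
  have e2 : (β * g) ^ 2 ≤ a := by
    rw [← Real.sq_sqrt a0.le]
    refine pow_le_pow_left₀ (by positivity) ?_ 2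
    refine (mul_le_mul b1 g1 g0.le (by positivity)).trans_eq ?_
    field_simp
  have e3 : 1 / (k * (β * g) ^ 2) ≤ a := by
    rw [div_le_iff₀ (by positivity)] at k1 ⊢
    refine k1.trans ?_
    rw [mul_left_comm]
    refine mul_le_mul_of_nonneg_left (mul_le_mul_of_nonneg_left ?_ k0.le) a0.le
    exact pow_le_pow_left₀ g0.le (le_mul_of_one_le_left g0.le b0) 2
  have e4 : 2 * k / N ≤ ε / 3 := by
    rw [div_le_iff₀ hε] at hN
    rw [div_le_iff₀ N0]
    linarith
  have e5 : K / q ^ 10 * (a + a) = 2 * (ε / 3) := by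
    rw [ha]
    field_simp
    ring
  have e6 := mul_le_mul e1 (add_le_add e3 e2) (by positivity) (by positivity)
  linarith

end EPur

theorem stPur (hp : StPure) (hk : StOkG) : StPur := by
  obtain ⟨K, hK, hp⟩ := hp
  intro d ε hd hε
  have hq : 0 < qq d := Real.exp_pos _
  obtain ⟨a, ha⟩ : ∃ a, a = ε / 3 * qq d ^ 10 / K := ⟨_, rfl⟩
  have a0 : 0 < a := by rw [ha]; positivity
  obtain ⟨g, g0, g1, g2⟩ : ∃ g, 0 < g ∧ g ≤ qq d ^ 16 ∧ g ≤ qq d ^ 4 * Real.sqrt a :=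
    ⟨min _ _, lt_min (by positivity) (by positivity), min_le_left _ _, min_le_right _ _⟩
  obtain ⟨k, k0, k1⟩ : ∃ k : ℕ, 1 ≤ k ∧ 1 / (a * g ^ 2) ≤ k :=
    ⟨⌈1 / (a * g ^ 2)⌉₊, Nat.ceil_pos.2 (by positivity), Nat.le_ceil _⟩
  refine ⟨g, g0, g1, max k ⌈6 * k / ε⌉₊, fun V E _ _ _ _ w0 _ hN P hP hg => ?_⟩
  have hN1 := le_of_max_le_left hN
  have hN2 := Nat.ceil_le.1 (le_of_max_le_right hN)
  have : Nonempty V := Fintype.card_pos_iff.1 (by omega)
  obtain ⟨-, -, hO, -, -, q9, -⟩ := hk V E d P hd hP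
  obtain ⟨-, -, -, -, -, b0, b1, x0, -⟩ := hP
  have hb : P.β * g ≤ 1 / 200 := by
    refine (mul_le_mul b1 g1 g0.le (by positivity)).trans ?_
    rw [show 1 / qq d ^ 4 * qq d ^ 16 = qq d ^ 12 by field_simp]
    exact (pow_le_pow_left₀ hq.le q9 12).trans (by norm_num)
  obtain ⟨T, -, hT⟩ := hp (Perm (E × Bool) × (E → Bool)) V (cav P.U → Option Bool)
    (fun δ => (P.full (w0 ∘ δ.1) δ.2).cas) P.β P.x g k (fun δ => ⟨hO _ _ _, rfl, rfl⟩)
    (fun _ _ _ _ => rfl) (fun δ γ γ' ζ σ => by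
      simp only [Sys.cas, Pk.full, Pk.sys, sum_add_distrib, ← mul_sum, hg]
      ring) g0 hb k0 hN1
  refine ⟨T, le_trans (le_of_eq ?_) (hT.trans (EPur.num hK hq hε ha g0 g2 b0 b1 x0
    (by exact_mod_cast k0) k1 hN2))⟩
  rw [Pk.EP, ED_eq_avg]
  rfl

end Pool.Agent.MP_32a90a_pr.D

end

section

set_option autoImplicit false
set_option linter.unusedSectionVars false

open Finset Equiv Filter Pool.Agent.MP_32a90a_pr Pool.Agent.MP_32a90a_pr.L

namespace Pool.Agent.MP_32a90a_pr.D.ESoftL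

section
variable {V E : Type} [Fintype V] [DecidableEq V] [Fintype E] [DecidableEq E]
  {w0 : E × Bool → V} {d : ℕ}

lemma low_step {F M X : (E × Bool → V) → (E → Bool) → ℝ} {G : (E × Bool → V) → Prop}
    {η a δ e : ℝ} (hd : Deg w0 d) (hF : ∀ w J, 0 ≤ F w J) (hM : ∀ w J, 0 ≤ M w J)
    (hX : ∀ w J, 0 ≤ X w J) (ha : 0 ≤ a) (hδ : 0 ≤ δ) (he : 0 < e)
    (h1 : |(ED w0 fun w J => ind (G w) * F w J) - ED w0 fun w J => ind (G w) * M w J| ≤ η)
    (H : ∀ w J, Deg w d → G w → X w J ≤ e → a - δ ≤ M w J) :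
    a - δ - η - a * (ED w0 X / e) - a * PD w0 (fun w _ => ¬ G w) ≤ ED w0 F := by
  have a2 : (ED w0 fun w J => ind (G w) * F w J) ≤ ED w0 F :=
    ED_mono fun w J => mul_le_of_le_one_left (hF w J) (ind_le_one _)
  have a3 : a - δ - a * (ED w0 X / e) - a * PD w0 (fun w _ => ¬ G w)
      ≤ ED w0 fun w J => ind (G w) * M w J := by
    rw [PD, ← ED_div, ← ED_mul, ← ED_mul, ← ED_const (w0 := w0) (a - δ), ← ED_sub, ← ED_sub]
    refine ED_mono_deg hd fun w J hw => ?_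
    have b1 := mul_nonneg ha (div_nonneg (hX w J) he.le)
    by_cases h : G w
    · rw [ind_pos h, ind_neg (not_not.2 h), one_mul, mul_zero]
      by_cases hx : X w J ≤ e
      · linarith [H w J hw h hx]
      · have := mul_le_mul_of_nonneg_left ((one_le_div he).2 (not_le.1 hx).le) ha
        linarith [hM w J]
    · rw [ind_neg h, ind_pos h, zero_mul, mul_one]
      linarith
  linarith [(abs_le.1 h1).1]

/-- probability that the local field at v is at most L -/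
noncomputable def Fv (P : Pk V E) (L : ℝ) (v : V) (w : E × Bool → V) (J : E → Bool) : ℝ :=
  (P.full w J).P fun _ σ => ind (loc (P.s J) w σ v ≤ L)

/-- the same after the vertex exchange -/
noncomputable def Fm (P : Pk V E) (L : ℝ) (v : V)
    (pos : (E × Bool → V) → Fin d → E × Bool) (w : E × Bool → V) (J : E → Bool) : ℝ :=
  Fam (P.ins w J (pos w)) fun ω _ σ =>
    ind (sgn (crd v σ) * hom (P.cavi w J v).sp (P.AAp (pos w)) ω σ ≤ L)

variable {P : Pk V E}

lemma ok (h : P.Lg d) (W : Finset V) (s : E → ℝ) (w : E × Bool → V) : (P.sys W s w).cas.Ok :=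
  (h.2.1 W s w).ok (le_trans (by norm_num) h.1)

lemma Fv_nonneg (h : P.Lg d) (L : ℝ) (v : V) (w : E × Bool → V) (J : E → Bool) :
    0 ≤ Fv P L v w J := Cas.P_nonneg (ok h _ _ _) fun _ _ => ind_nonneg _

lemma Fv_le (h : P.Lg d) (L : ℝ) (v : V) (w : E × Bool → V) (J : E → Bool) :
    Fv P L v w J ≤ 1 := Cas.P_le_const (ok h _ _ _) fun _ _ => ind_le_one _

lemma Fm_nonneg (h : P.Lg d) (L : ℝ) (v : V)
    (pos : (E × Bool → V) → Fin d → E × Bool) (w : E × Bool → V) (J : E → Bool) :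
    0 ≤ Fm P L v pos w J :=
  avg_nonneg fun _ => mul_nonneg (ind_nonneg _) (Cas.P_nonneg (ok h _ _ _) fun _ _ => ind_nonneg _)

lemma exch [Nonempty V] (hVX : StVX) (hInsCav : StInsCav) (hd : Deg w0 d) (hO : P.Ok d)
    (h : P.Lg d) {v : V} {pos : (E × Bool → V) → Fin d → E × Bool} (hp : IsPos d v pos)
    (g1 : ∀ w, P.Gv w v → Gd P.U w v)
    (g2 : ∀ w w', (∀ t, w t = v ↔ w' t = v) → P.Gv w v → P.Gv w' v) (L : ℝ) :
    |(ED w0 fun w J => ind (P.Gv w v) * Fv P L v w J)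
      - ED w0 fun w J => ind (P.Gv w v) * Fm P L v pos w J| ≤ sm 298 d := by
  have hd3 : 3 ≤ d := le_trans (by norm_num) h.1
  have hc : 1 ≤ sm 300 d * Fintype.card (cav P.U) :=
    (h.2.1 univ (fun _ => 0) w0).2.2.2.2.2.2.2.2.2.2
  have hc0 : (0 : ℝ) < Fintype.card (cav P.U) := by
    rcases (Nat.cast_nonneg (α := ℝ) (Fintype.card (cav P.U))).eq_or_lt with e | e
    · rw [← e] at hc; linarith
    · exact e
  have hU : P.U.Nonempty := by
    obtain ⟨a⟩ := (h.2.1 univ (fun _ => 0) w0).nonempty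
    exact ⟨a.1.1, mem_cav.1 a.2⟩
  have key := hVX V E w0 d P.U v pos (fun w => P.Gv w v) (Fv P L v) hd hp hU g1 g2
    fun w J => abs_le.2 ⟨by linarith [Fv_nonneg h L v w J], Fv_le h L v w J⟩
  have e : (ED w0 fun w J => ind (P.Gv w v) * Fm P L v pos w J)
      = ED w0 fun w J => ind (P.Gv w v) *
        avg fun ω : Fin d → (cav P.U) × Bool => ind (Function.Injective (uu ω)) *
          Fv P L v (xv w (pos w) fun i => ((ω i).1 : E × Bool))
            (xj J (pos w) fun i => (ω i).2) := by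
    refine ED_congr_deg hd fun w J hw => ?_
    by_cases hg : P.Gv w v
    · refine congrArg _ (avg_congr fun ω => ?_)
      by_cases hi : Function.Injective (uu ω)
      · refine congrArg _ (Cas.P_congr fun g σ => ?_)
        rw [((hInsCav V E d P w J v (pos w) hO h hw hg (hp.1 w hw).1 (hp.1 w hw).2).2.2 ω
          hi).2.2.1 σ]
        rfl
      · rw [ind_neg hi, zero_mul, zero_mul]
    · rw [ind_neg hg, zero_mul, zero_mul]
  rw [e]
  refine key.trans ?_
  have b1 := mul_sm_le (a := d) 299 hd3 (by linarith)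
  have b2 := mul_sm_le (a := d) 298 hd3 (by linarith)
  norm_num at b1 b2
  rw [div_le_iff₀ hc0]
  have hd0 : (0 : ℝ) ≤ d := Nat.cast_nonneg d
  calc (d : ℝ) ^ 2 ≤ d ^ 2 * (sm 300 d * Fintype.card (cav P.U)) :=
        le_mul_of_one_le_right (by positivity) hc
    _ = d * (d * sm 300 d) * Fintype.card (cav P.U) := by ring
    _ ≤ sm 298 d * Fintype.card (cav P.U) :=
        mul_le_mul_of_nonneg_right ((mul_le_mul_of_nonneg_left b1 hd0).trans b2) hc0.le

lemma mean_Fv (L : ℝ) : (avg fun v => ED w0 (Fv P L v)) = P.soft w0 L := by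
  unfold Pk.soft Pk.EQ
  rw [← ED_avg]
  refine congrArg (ED w0) (funext fun w => funext fun J => ?_)
  unfold Fv
  exact (Cas.P_avg fun v _ σ => ind (loc (P.s J) w σ v ≤ L)).symm

end

lemma fin_num {c L : ℝ} {d : ℕ} (hc : 0 < c) (hL : 16 ≤ L) (hd : 1000 ≤ d)
    (hdc : (1 / c) ^ 2 ≤ d) : 8 * sm 10 d ≤ c * L / Real.sqrt d := by
  have hdR : (1000 : ℝ) ≤ d := by exact_mod_cast hd
  have h1 := sm_le_inv (k := 10) (by norm_num) (show 3 ≤ d by omega)
  have h2 : 1 / c ≤ Real.sqrt d := Real.le_sqrt_of_sq_le hdc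
  have h3 : 0 < Real.sqrt d := Real.sqrt_pos.2 (by linarith)
  have h4 := Real.mul_self_sqrt (show (0 : ℝ) ≤ d by linarith)
  rw [div_le_iff₀ hc] at h2
  rw [le_div_iff₀ (by linarith)] at h1
  rw [le_div_iff₀ h3]
  have h5 := sm_pos 10 d
  have h6 : sm 10 d * Real.sqrt d ≤ c := by
    have h7 : sm 10 d * Real.sqrt d * 1 ≤ sm 10 d * Real.sqrt d * (Real.sqrt d * c) :=
      mul_le_mul_of_nonneg_left h2 (by positivity)
    have h8 : sm 10 d * Real.sqrt d * (Real.sqrt d * c) = sm 10 d * d * c := by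
      rw [mul_assoc, ← mul_assoc (Real.sqrt d), h4, mul_assoc]
    have h9 : sm 10 d * d * c ≤ 1 * c := mul_le_mul_of_nonneg_right (by linarith) hc.le
    linarith
  nlinarith

end Pool.Agent.MP_32a90a_pr.D.ESoftL

namespace Pool.Agent.MP_32a90a_pr.D

open ESoftL

theorem stSoftL (h1 : StVT3) (h2 : StVX) (h3 : StInsCav) (h4 : StSymCav) (h5 : StRigD)
    (h6 : StD1) (h7 : StGwP) (hp : StPar) (hpos : StPos) : StSoftL := by
  obtain ⟨c3, hc3, h1⟩ := h1
  refine ⟨c3, hc3, ?_⟩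
  filter_upwards [hp, h1, h7, eventually_ge_atTop 1000,
    (tendsto_natCast_atTop_atTop (R := ℝ)).eventually_ge_atTop ((1 / c3) ^ 2)]
    with d hp h1 h7 hd hdc
  obtain ⟨e, he, hRig⟩ := h5 d
  have hd3 : 3 ≤ d := by omega
  have hdR : (1000 : ℝ) ≤ d := by exact_mod_cast hd
  refine ⟨e / 8, by positivity, (hp.and h7).mono ?_⟩
  intro V E _ _ _ _ w0 hw0 hh P c cp L hE hβ hA hL16 hL2 hlam
  obtain ⟨hO, hG⟩ := hE
  have hL := hh.1 P hO
  obtain ⟨-, g0, -, g1, -, g2⟩ := hh.2 P hO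
  have : Nonempty E := ⟨P.e⟩
  have : Nonempty V := ⟨w0 (P.e, true)⟩
  have hB : |P.B| ≤ 1 := hO.2.2.2.2.2.2.2.2.2.2.2.2.2.2.2.1
  obtain ⟨a, ha⟩ : ∃ a, a = c3 * L / Real.sqrt d := ⟨_, rfl⟩
  have n0 := fin_num hc3 hL16 hd hdc
  rw [← ha] at n0
  have s0 := sm_pos 10 d
  have a0 : 0 ≤ a := by linarith
  have st : ∀ v, a - sm 10 d - sm 298 d - a * (1 / 8) - a * PD w0 (fun w _ => ¬ P.Gv w v)
      ≤ ED w0 (Fv P L v) := by
    intro v
    obtain ⟨pos, hp⟩ := hpos V E d v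
    refine le_trans ?_ (low_step (G := fun w => P.Gv w v) (a := a) (δ := sm 10 d)
      (X := fun w J => (P.full w J).P fun g σ => ind (¬ (P.full w J).Good c cp (qq d) g σ))
      hw0 (Fv_nonneg hL _ _) (Fm_nonneg hL _ _ pos)
      (fun w J => Cas.P_nonneg (ok hL _ _ _) fun _ _ => ind_nonneg _) a0 s0.le he
      (exch h2 h3 hw0 hO hL hp (fun w => g1 w v) (g2 v) L) fun w J hw hg hx => ?_)
    · have b1 : (ED w0 fun w J => (P.full w J).P fun g σ =>
          ind (¬ (P.full w J).Good c cp (qq d) g σ)) / e ≤ 1 / 8 := by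
        rw [div_le_iff₀ he]
        refine le_trans hG (by linarith)
      linarith [mul_le_mul_of_nonneg_left b1 a0]
    · obtain ⟨i1, -⟩ := h3 V E d P w J v (pos w) hO hL hw hg (hp.1 w hw).1 (hp.1 w hw).2
      have hAA : P.AAp (pos w) = ∅ := by simp [Pk.AAp, hA]
      have hS : (P.cavi w J v).Par d := hL.2.1 _ _ _
      unfold Fm
      rw [hAA] at i1 ⊢
      rw [ha]
      exact h1 _ _ _ (P.cavi w J v) _ P.B L _ _ (P.ins w J (pos w)) hS hβ
        (h6 _ _ _ _ d c cp hd hS ((hRig V E P w J c cp hO hL hw hx).2.2 v))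
        (h4 V E P w J v (g1 w v hg)) i1 hB hL16 hL2 hlam
  have s2 := avg_mono st
  simp only [avg_sub, avg_mul, avg_const] at s2
  rw [mean_Fv] at s2
  have m1 : sm 298 d ≤ sm 10 d := sm_anti (by norm_num) d
  have m2 : sm 200 d ≤ 1 / 8 :=
    (sm_le_inv (by norm_num) hd3).trans (one_div_le_one_div_of_le (by norm_num) (by linarith))
  have m3 := mul_le_mul_of_nonneg_left (g0.trans m2) a0
  have m4 : c3 * L / (2 * Real.sqrt d) = a / 2 := by rw [ha]; ring
  rw [m4]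
  linarith

end Pool.Agent.MP_32a90a_pr.D

end

section

set_option autoImplicit false

namespace Pool.Agent.MP_32a90a_pr.D

open Finset Equiv Filter Pool.Agent.MP_32a90a_pr Pool.Agent.MP_32a90a_pr.L

namespace ESoftU

lemma pt {V E : Type} [Fintype V] [DecidableEq V] [Nonempty V] [Fintype E] [DecidableEq E]
    {d : ℕ} {C c C1 ε L B : ℝ} {U A : Finset E} (w : E × Bool → V) (J : E → Bool)
    (σ : V → Bool) (hd : 3 ≤ d) (hC : 1 ≤ C) (hc : 0 < c) (hA : A = ∅) (hB : |B| ≤ 1)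
    (hL1 : 1 ≤ L) (hLd : L ≤ d) (hC1 : C1 * ell d ^ 3 ≤ L ^ 3) :
    (avg fun v => ind (loc (cp U A ∅ J) w σ v ≤ L))
      ≤ C * L ^ 2 * ell d / d + ind (¬ Typ d C c ε U A w J)
        + ind (¬ mxH univ (cp U A ∅ J) B w - C1 * ell d ^ 3 / d * Fintype.card V
          ≤ HH (cp U A ∅ J) B w σ) := by
  classical
  have hd0 : (0 : ℝ) < d := by exact_mod_cast (by omega : 0 < d)
  have hl : 0 ≤ ell d := zero_le_one.trans (one_le_log hd)
  have hK : 0 ≤ C * L ^ 2 * ell d / d := by positivity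
  have h1 : (avg fun v => ind (loc (cp U A ∅ J) w σ v ≤ L)) ≤ 1 :=
    avg_le_const zero_le_one fun _ => ind_le_one _
  have i1 := ind_nonneg (¬ Typ d C c ε U A w J)
  have i2 := ind_nonneg (¬ mxH univ (cp U A ∅ J) B w - C1 * ell d ^ 3 / d * Fintype.card V
    ≤ HH (cp U A ∅ J) B w σ)
  by_cases hT : Typ d C c ε U A w J
  swap
  · rw [ind_pos hT]; linarith
  by_cases hN : mxH univ (cp U A ∅ J) B w - C1 * ell d ^ 3 / d * Fintype.card V
    ≤ HH (cp U A ∅ J) B w σ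
  swap
  · rw [ind_pos hN]; linarith
  have h2 := hT.2.2.2.2.2.2.1 L B (C1 * ell d ^ 3 / d) σ hL1 hLd hB
    (by rw [div_mul_cancel₀ _ hd0.ne']; exact hC1)
    (by rw [hA, card_empty, Nat.cast_zero, zero_mul]; positivity) hN
  have hV : (0 : ℝ) < Fintype.card V := by exact_mod_cast Fintype.card_pos
  have h3 : (avg fun v => ind (loc (cp U A ∅ J) w σ v ≤ L)) ≤ C * L ^ 2 * ell d / d := by
    rw [avg, sum_ind, div_le_iff₀ hV]
    convert h2
  linarith

end ESoftU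

theorem stSoftU (hp : StPar) (hk : StOkG) : StSoftU := by
  intro C c C1 hC hc hT hN
  filter_upwards [hp, hT, hN, eventually_ge_atTop 3] with d h1 h2 h3 hd ε hε
  refine ((h1.and ((h2 (ε / 2) (half_pos hε)).and (h3 (ε / 2) (half_pos hε)))).and
    (Big.card d (fun N => 1 ≤ N) (eventually_ge_atTop 1))).mono ?_
  intro V E _ _ _ _ w0 _ ⟨⟨a, b, e⟩, hV⟩ P L hok hβ hA hL1 hLd hC1
  have : Nonempty V := Fintype.card_pos_iff.1 hV
  have hb := b P.Z P.A (a P hok).2.2.1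
  have he := e P hok hβ
  have hO : ∀ w J, (P.full w J).cas.Ok := fun w J => (hk V E d P hd hok).2.2.1 univ (P.s J) w
  have hB : |P.B| ≤ 1 := hok.2.2.2.2.2.2.2.2.2.2.2.2.2.2.2.1
  have key : P.soft w0 L ≤ ED w0 fun w J => (C * L ^ 2 * ell d / d
      + ind (¬ Typ d C c (ε / 2) P.Z P.A w J)) + (P.full w J).P fun _ σ =>
        ind (¬ mxH univ (P.s J) P.B w - C1 * ell d ^ 3 / d * Fintype.card V
          ≤ HH (P.s J) P.B w σ) := by
    unfold Pk.soft Pk.EQ
    refine ED_mono fun w J => ?_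
    have h4 : (P.full w J).cas.P (fun _ σ => avg fun v => ind (loc (P.s J) w σ v ≤ L))
        ≤ (P.full w J).cas.P (fun _ σ => (C * L ^ 2 * ell d / d
          + ind (¬ Typ d C c (ε / 2) P.Z P.A w J))
          + ind (¬ mxH univ (P.s J) P.B w - C1 * ell d ^ 3 / d * Fintype.card V
            ≤ HH (P.s J) P.B w σ)) :=
      Cas.P_mono (hO w J) fun _ σ => ESoftU.pt w J σ hd hC hc hA hB hL1 hLd hC1
    rw [Cas.P_add, Cas.P_const (hO w J)] at h4
    exact h4
  rw [ED_add, ED_add, ED_const] at key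
  unfold PD at hb
  unfold Pk.EQ at he
  linarith

end Pool.Agent.MP_32a90a_pr.D

end

section

set_option autoImplicit false
set_option linter.unusedSectionVars false

namespace Pool.Agent.MP_32a90a_pr.D

open Finset Equiv Filter Pool.Agent.MP_32a90a_pr Pool.Agent.MP_32a90a_pr.L

namespace ETel

lemma Ak_succ {E : Type} [DecidableEq E] {m : ℕ} (A0 : Finset E) (e : Fin m → E) (k : Fin m) :
    insert (e k) (Ak A0 e k.val) = Ak A0 e (k.val + 1) := by
  have : (univ.filter fun i : Fin m => i.val < k.val + 1)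
      = insert k (univ.filter fun i : Fin m => i.val < k.val) := by
    ext i
    simp only [mem_filter, mem_univ, true_and, mem_insert, Fin.ext_iff]
    omega
  rw [Ak, Ak, this, image_insert, union_insert]

lemma Ak_zero {E : Type} [DecidableEq E] {m : ℕ} (A0 : Finset E) (e : Fin m → E) :
    Ak A0 e 0 = A0 := by simp [Ak]

lemma tau_ev : ∀ᶠ d : ℕ in atTop, 4 ≤ tau d * d := by
  filter_upwards [((tendsto_rpow_atTop (by norm_num : (0 : ℝ) < -(1 / 10) + 1)).comp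
    tendsto_natCast_atTop_atTop).eventually_ge_atTop 4, eventually_gt_atTop 0] with d h hd
  rwa [Function.comp_apply, Real.rpow_add_one (by exact_mod_cast hd.ne')] at h

variable {V E : Type} [Fintype V] [DecidableEq V] [Fintype E] [DecidableEq E]

lemma q_le {P : Pk V E} {d : ℕ} (h : P.Lg d) : qq d ≤ 1 / 2 := by
  have hd : (1000 : ℝ) ≤ d := by exact_mod_cast h.1
  refine (h.2.2.2.2.2.2.1.trans (sm_le_inv (by norm_num) (le_trans (by norm_num) h.1))).trans ?_
  exact one_div_le_one_div_of_le two_pos (by linarith)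

lemma nonneg (hs : StSer) {P : Pk V E} {d : ℕ} (h : P.Lg d) (hβ : P.β = 1 / qq d ^ 4)
    (w0 : E × Bool → V) : 0 ≤ P.mH w0 := by
  refine avg_nonneg fun v => ED_nonneg fun w J => mul_nonneg (ind_nonneg _) ?_
  have hP : (P.cavi w J v).Par d := h.2.1 _ _ _
  have := hP.nonempty
  have hq : 0 < qq d := Real.exp_pos _
  have hb : 2 ≤ P.β := by
    rw [hβ, le_div_iff₀ (by positivity)]
    linarith [pow_le_pow_left₀ hq.le (q_le h) 4]
  unfold Sys.dH Sys.N
  simp only [Sys.cas_add]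
  exact (hs _ _ _ (P.cavi w J v).cas (P.cavi w J v).sp 1 (hP.ok (le_trans (by norm_num) h.1)) hb
    hP.2.2.1 le_rfl).1

/-- the mean cavity weight -/
noncomputable def X (P : Pk V E) (w0 : E × Bool → V) (A : Finset E) : ℝ :=
  avg fun v => ED w0 fun w J => ind (Gd P.U w v) * P.XT A w J v

lemma X_sub (P : Pk V E) (w0 : E × Bool → V) (A A' : Finset E) :
    (avg fun v => ED w0 fun w J => ind (Gd P.U w v) * (P.XT A w J v - P.XT A' w J v))
      = X P w0 A - X P w0 A' := by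
  simp only [mul_sub, ED_sub, avg_sub, X]

lemma step [Nonempty V] (h1 : StStepH) {d : ℕ} (P : Pk V E) (w0 : E × Bool → V) (e : E)
    (A : Finset E) (hO : (P.setA e A).Ok d) (hL : (P.setA e A).Lg d)
    (hc : 1 ≤ qq d ^ 2 * Fintype.card (cav P.U)) :
    (P.setA e A).mH w0 ≤ 2 * (X P w0 A - X P w0 (insert e A)) + 10 * qq d ^ 2 := by
  rw [← X_sub, ← avg_mul, ← avg_const (α := V) (10 * qq d ^ 2), ← avg_add]
  exact avg_mono fun v => h1 V E d (P.setA e A) w0 v hO hL hc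

end ETel

open ETel in
theorem stTel (h1 : StStepH) (h2 : StEnd) (hp : StPar) (hs : StSer) : StTel := by
  filter_upwards [h2, hp, tau_ev] with d h2 hp ht
  have hq : 0 < qq d := Real.exp_pos _
  have ev : ∀ κ : ℝ, 0 < κ → ∀ᶠ N : ℕ in atTop, 1 ≤ κ * N := fun κ hκ =>
    (tendsto_natCast_atTop_atTop.const_mul_atTop hκ).eventually_ge_atTop 1
  refine ((h2.and hp).and (Big.card d _ ((ev 1 one_pos).and
    (ev (qq d ^ 18) (by positivity))))).mono ?_
  rintro V E _ _ _ _ w0 hw ⟨⟨a2, ap⟩, hN, hN'⟩ P m e A0 A1 hO hβ hB hA hk hm hV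
  rw [one_mul] at hN
  have : Nonempty V := Fintype.card_pos_iff.1 (by exact_mod_cast lt_of_lt_of_le one_pos hN)
  refine ⟨?_, fun k => nonneg hs (ap _ (hk k)) hβ w0⟩
  have hE := card_half hw
  have hNm : (Fintype.card V : ℝ) ≤ m := by
    have : tau d * Fintype.card E / 2 = tau d * d * Fintype.card V / 4 := by
      rw [mul_assoc, ← hE]
      ring
    nlinarith
  have hm0 : (0 : ℝ) < m := by linarith
  have hc : 1 ≤ qq d ^ 2 * Fintype.card (cav P.U) := by
    have e1 : (Fintype.card (cav P.U) : ℝ) = 2 * P.U.card := by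
      rw [Fintype.card_coe, cav, card_product, card_univ, Fintype.card_bool]
      push_cast
      ring
    have e2 : qq d ^ 16 * Fintype.card V ≤ P.U.card := by
      rw [hO.2.2.2.1]
      exact Nat.le_ceil _
    have e3 := mul_le_mul_of_nonneg_left e2 (sq_nonneg (qq d))
    rw [e1]
    nlinarith
  have b1 : ∑ k : Fin m, (P.setA (e k) (Ak A0 e k.val)).mH w0 ≤ ∑ k : Fin m,
      (2 * (X P w0 (Ak A0 e k.val) - X P w0 (Ak A0 e (k.val + 1))) + 10 * qq d ^ 2) :=
    sum_le_sum fun k _ => by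
      rw [← Ak_succ]
      exact ETel.step h1 P w0 _ _ (hk k) (ap _ (hk k)) hc
  rw [sum_add_distrib, ← mul_sum, Fin.sum_univ_eq_sum_range
    (fun k => X P w0 (Ak A0 e k) - X P w0 (Ak A0 e (k + 1))),
    sum_range_sub' (fun k => X P w0 (Ak A0 e k)), Ak_zero, hA, sum_const, card_univ,
    Fintype.card_fin, nsmul_eq_mul] at b1
  have b2 := a2 P A0 A1 hO hβ hB hV
  rw [X_sub] at b2
  have hy : P.y ≤ 1 / 10 ^ 11 := hO.2.2.2.2.2.2.2.2.2.1
  have b3 : qq d ^ 2 ≤ 1 := pow_le_one₀ hq.le ((q_le (ap P hO)).trans (by norm_num))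
  have b4 : 12 * P.y * qq d ^ 2 ≤ 1 := by nlinarith [sq_nonneg (qq d)]
  have b5 : 12 * P.y * qq d ^ 2 * (qq d ^ 2 * Fintype.card V) ≤ 1 * (qq d ^ 2 * m) :=
    (mul_le_mul_of_nonneg_right b4 (by positivity)).trans (by gcongr)
  rw [avg, Fintype.card_fin, div_le_iff₀ hm0]
  nlinarith

end Pool.Agent.MP_32a90a_pr.D

end

section

set_option autoImplicit false

namespace Pool.Agent.MP_32a90a_pr.D

open Finset Equiv Filter Pool.Agent.MP_32a90a_pr Pool.Agent.MP_32a90a_pr.L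

namespace EXT
variable {V E : Type} [Fintype V] [DecidableEq V] [Fintype E] [DecidableEq E]

omit [Fintype E] in
lemma abs_cp (U A : Finset E) (J : E → Bool) (i : E) : |cp U A ∅ J i| ≤ 1 := by
  unfold cp
  split_ifs <;> simp

omit [Fintype V] in
lemma en_diff {d : ℕ} (U A : Finset E) (J : E → Bool) {w : E × Bool → V} (hw : Deg w d) (v : V)
    (σ : V → Bool) :
    |en Y1 (cavS (cp U A ∅ J) w v) w σ - en Y1 (cp ∅ A ∅ J) w σ| ≤ U.card + d := by
  let S : Finset E := U ∪ (univ.filter fun p : E × Bool => w p = v).image Prod.fst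
  have hS : (S.card : ℝ) ≤ U.card + d := by
    have h1 : S.card ≤ U.card + d :=
      (card_union_le _ _).trans (Nat.add_le_add_left (card_image_le.trans (hw v).le) _)
    exact_mod_cast h1
  unfold en
  rw [← sum_sub_distrib]
  refine (abs_sum_le_sum_abs _ _).trans (le_trans ?_ hS)
  rw [← sum_subset (subset_univ S), card_eq_sum_ones, Nat.cast_sum]
  · refine sum_le_sum fun i _ => ?_
    rw [← sub_mul, abs_mul, Y1, abs_mul, abs_sgn, abs_sgn, mul_one, mul_one, Nat.cast_one]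
    have h := abs_cp ∅ A J i
    unfold cavS
    split_ifs
    · rwa [zero_sub, abs_neg]
    · by_cases hi : i ∈ U
      · rwa [cp, if_pos hi, zero_sub, abs_neg]
      · simp [cp, hi]
  · intro i _ hi
    simp only [S, mem_union, mem_image, mem_filter, mem_univ, true_and, not_or, not_exists,
      not_and] at hi
    have h1 : ¬ (w (i, false) = v ∨ w (i, true) = v) := fun h =>
      h.elim (fun h => hi.2 _ h rfl) fun h => hi.2 _ h rfl
    simp [cavS, h1, cp, hi.1]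

lemma abs_gad {tp tm : ℝ} (h1 : 1 ≤ tp) (h2 : tp ≤ 2) (h3 : 1 ≤ tm) (h4 : tm ≤ 2)
    (o : Option Bool) (s : Bool) : |gad tp tm o s| ≤ 2 := by
  cases o with
  | none => simp [gad]
  | some b =>
    simp only [gad]
    split_ifs
    · rw [abs_le]; constructor <;> linarith
    · rw [abs_le]; constructor <;> linarith

lemma H_diff {d : ℕ} (P : Pk V E) (A' : Finset E) {w : E × Bool → V} (J : E → Bool) (v : V)
    (hP : P.Ok d) (hq : qq d ≤ 1 / 9) (hB : P.B = 0) (hw : Deg w d)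
    (γ : Gam (V → Bool) (cav P.U)) (σ : V → Bool) :
    |(P.cavT A' w J v).cas.H γ σ - HH (cp ∅ A' ∅ J) 0 w σ|
      ≤ 5 * P.U.card + d + 3 * qq d ^ 8 * Fintype.card V := by
  obtain ⟨-, -, -, -, -, -, -, -, -, -, -, a1, a2, a3, a4, -, a5, a6, a7⟩ := hP
  have q0 : 0 < qq d := Real.exp_pos _
  have q8 : qq d ^ 8 ≤ 1 / 2 := (pow_le_pow_left₀ q0.le hq 8).trans (by norm_num)
  have h1 := en_diff P.U A' J hw v σ
  have h2 : |∑ u ∈ univ.erase v, (P.B * sgn (σ u)
      + P.rwd (σ u) (loc (cavS (cp P.U A' ∅ J) w v) w σ u) + P.g * (sgn (γ.1 u) * sgn (σ u)))|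
      ≤ 3 * qq d ^ 8 * Fintype.card V := by
    refine (abs_sum_le_sum_abs _ _).trans ((sum_le_card_nsmul _ _ (3 * qq d ^ 8)
      fun u _ => ?_).trans ?_)
    · rw [hB, zero_mul, zero_add]
      refine (abs_add_le _ _).trans ?_
      rw [abs_mul, abs_mul, abs_sgn, abs_sgn, abs_of_nonneg a5]
      linarith [a7 (σ u) (loc (cavS (cp P.U A' ∅ J) w v) w σ u)]
    · rw [nsmul_eq_mul, mul_comm]
      exact mul_le_mul_of_nonneg_left (by exact_mod_cast card_le_univ _) (by positivity)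
  have h3 : |∑ a : cav P.U, gad P.tp P.tm (γ.2 a) (σ (w a))| ≤ 4 * P.U.card := by
    refine (abs_sum_le_sum_abs _ _).trans ((sum_le_card_nsmul _ _ 2
      fun a _ => abs_gad a1 (by linarith) a3 (by linarith) _ _).trans_eq ?_)
    rw [nsmul_eq_mul, card_univ, Fintype.card_coe, card_cav]
    ring
  rw [abs_le] at h1 h2 h3 ⊢
  simp only [Pk.cavT, Pk.sys, Sys.cas, HH]
  constructor <;> linarith [h1.1, h1.2, h2.1, h2.2, h3.1, h3.2]

end EXT

theorem stXT (hf : StFix) (hk : StOkG) : StXT := by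
  intro d hd
  have q0 : 0 < qq d := Real.exp_pos _
  have hN : ∀ᶠ N : ℕ in atTop, 0 < N ∧ (2 * (5 + d) / qq d ^ 4 : ℝ) ≤ N :=
    (eventually_gt_atTop 0).and (tendsto_natCast_atTop_atTop.eventually_ge_atTop _)
  refine (Big.card d _ hN).mono fun V E _ _ _ _ _ _ hV P A' w J v hP hβ hB hw => ?_
  have : Nonempty V := Fintype.card_pos_iff.1 hV.1
  obtain ⟨-, -, hok, hy, -, hq, -⟩ := hk V E d P hd hP
  have hN0 : (0 : ℝ) ≤ Fintype.card V := Nat.cast_nonneg _
  have q4 : qq d ^ 4 ≤ 1 / 100 := (pow_le_pow_left₀ q0.le hq 4).trans (by norm_num)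
  have q4' : 0 < qq d ^ 4 := by positivity
  have hU : (P.U.card : ℝ) ≤ qq d ^ 16 * Fintype.card V + 1 := by
    rw [hP.2.2.2.1]
    exact (Nat.ceil_lt_add_one (by positivity)).le
  have hb : 5 * P.U.card + d + 3 * qq d ^ 8 * Fintype.card V ≤ qq d ^ 4 * Fintype.card V := by
    have h1 := hV.2
    rw [div_le_iff₀ q4'] at h1
    have h2 : qq d ^ 8 ≤ qq d ^ 4 * (1 / 100) := by
      rw [show qq d ^ 8 = qq d ^ 4 * qq d ^ 4 by ring]
      exact mul_le_mul_of_nonneg_left q4 q4'.le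
    have h3 : qq d ^ 16 ≤ qq d ^ 8 := pow_le_pow_of_le_one q0.le (by linarith) (by norm_num)
    nlinarith [mul_le_mul_of_nonneg_right h2 hN0, mul_le_mul_of_nonneg_right h3 hN0,
      mul_nonneg q4'.le hN0]
  obtain ⟨h1, h2, -⟩ := hf _ _ (P.cavT A' w J v).cas (HH (cp ∅ A' ∅ J) 0 w) _ (hok _ _ _)
    Sys.sum_p fun γ σ => (EXT.H_diff P A' J v hP hq hB hw γ σ).trans hb
  obtain ⟨h3, h4, -⟩ := h2 (mxH univ (cp ∅ A' ∅ J) 0 w)
    (by
      have : Nonempty (univ : Finset (V → Bool)) := ⟨⟨fun _ => true, mem_univ _⟩⟩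
      obtain ⟨σ, hσ⟩ := exists_eq_ciSup_of_finite
        (f := fun σ : (univ : Finset (V → Bool)) => HH (cp ∅ A' ∅ J) 0 w σ)
      exact ⟨σ, hσ⟩)
    fun σ => le_ciSup (f := fun σ : (univ : Finset (V → Bool)) => HH (cp ∅ A' ∅ J) 0 w σ)
      (Set.finite_range _).bddAbove ⟨σ, mem_univ _⟩
  have hx : P.x = P.y * qq d ^ 4 := by
    rw [Pk.y, hβ]
    field_simp
  have hx0 : 0 < P.x := by rw [hx]; positivity
  have h5 : Real.log (Fintype.card (V → Bool)) ≤ Fintype.card V := by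
    rw [Fintype.card_fun, Fintype.card_bool, Nat.cast_pow, Real.log_pow]
    have := Real.log_two_lt_d9
    push_cast
    nlinarith
  change |P.XT A' w J v - P.x * Real.log (Zf P.β _)| ≤ P.y * _ at h1
  change P.β * _ ≤ Real.log (Zf P.β _) at h3
  change Real.log (Zf P.β _) ≤ P.β * _ + _ at h4
  have h6 := mul_le_mul_of_nonneg_left h3 hx0.le
  have h7 := mul_le_mul_of_nonneg_left (h4.trans (add_le_add_right h5 _)) hx0.le
  have h8 : P.x * Fintype.card V = P.y * (qq d ^ 4 * Fintype.card V) := by rw [hx]; ring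
  have h9 : ∀ m, P.x * (P.β * m) = P.y * m := fun m => by rw [Pk.y]; ring
  rw [mul_add, h8] at h7
  rw [h9] at h6 h7
  have h0 : 0 ≤ P.y * (qq d ^ 4 * Fintype.card V) := by positivity
  rw [abs_le] at h1 ⊢
  constructor <;> linarith [h1.1, h1.2]

end Pool.Agent.MP_32a90a_pr.D

end
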