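import Pool.Agent.Mg.F32a90ap.Gac7422
import Pool.Agent.Mg.F32a90ap.G44e7c2

section

set_option autoImplicit false

namespace Pool.Agent.MP_32a90a_pr.D

open Finset Equiv Filter Pool.Agent.MP_32a90a_pr Pool.Agent.MP_32a90a_pr.L

namespace Flip

variable {V E : Type} [Fintype V] [DecidableEq V] [Fintype E] [DecidableEq E]

omit [Fintype V] in
lemma sgn_flp (σ : V → Bool) (X : Finset V) (v : V) :
    sgn (flp σ X v) = if v ∈ X then -sgn (σ v) else sgn (σ v) := by
  unfold flp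
  split_ifs
  · cases σ v <;> simp [sgn]
  · rfl

lemma mag_flp (σ : V → Bool) (X : Finset V) :
    mag (flp σ X) = mag σ - 2 * ∑ v ∈ X, sgn (σ v) := by
  unfold mag
  rw [← Finset.sum_ite_mem_eq X, Finset.mul_sum, ← Finset.sum_sub_distrib]
  refine Finset.sum_congr rfl fun v _ => ?_
  rw [sgn_flp]
  split_ifs <;> ring

omit [Fintype V] [DecidableEq E] in
lemma sum_loc (s : E → ℝ) (w : E × Bool → V) (σ : V → Bool) (X : Finset V) :
    ∑ v ∈ X, loc s w σ v = ∑ i, ((if w (i, true) ∈ X then sl s w σ i else 0) +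
      if w (i, false) ∈ X then sl s w σ i else 0) := by
  unfold loc
  rw [Finset.sum_fiberwise_eq_sum_filter, Finset.sum_filter, Fintype.sum_prod_type]
  exact Finset.sum_congr rfl fun i _ => Fintype.sum_bool _

omit [Fintype V] [DecidableEq E] in
lemma sum_eS (s : E → ℝ) (w : E × Bool → V) (σ : V → Bool) (X : Finset V) :
    eS s w σ X X = ∑ i, ((if w (i, true) ∈ X ∧ w (i, false) ∈ X then sl s w σ i else 0) +
      if w (i, false) ∈ X ∧ w (i, true) ∈ X then sl s w σ i else 0) := by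
  unfold eS
  rw [Finset.sum_filter, Fintype.sum_prod_type]
  exact Finset.sum_congr rfl fun i _ => Fintype.sum_bool _

end Flip

open Flip in
theorem stFlip : StFlip := by
  intro V E _ _ _ _ s B w σ X
  have h : en Y1 s w (flp σ X) = en Y1 s w σ - 2 * ∑ v ∈ X, loc s w σ v + 2 * eS s w σ X X := by
    rw [sum_loc, sum_eS, Finset.mul_sum, Finset.mul_sum]
    unfold en
    rw [← Finset.sum_sub_distrib, ← Finset.sum_add_distrib]
    refine Finset.sum_congr rfl fun i _ => ?_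
    unfold sl Y1
    rw [sgn_flp, sgn_flp]
    by_cases h1 : w (i, true) ∈ X <;> by_cases h2 : w (i, false) ∈ X <;>
      simp only [h1, h2, and_self, and_true, and_false, if_true, if_false] <;> ring
  unfold HH
  rw [h, mag_flp]
  ring

end Pool.Agent.MP_32a90a_pr.D

end

section

set_option autoImplicit false

namespace Pool.Agent.MP_32a90a_pr.D

open Finset Equiv Filter Pool.Agent.MP_32a90a_pr Pool.Agent.MP_32a90a_pr.L

namespace CL

variable {V E : Type} [Fintype V] [DecidableEq V] [Fintype E] [DecidableEq E]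

omit [Fintype V] in
lemma nIn_insert (w : E × Bool → V) (Y : Finset V) (v : V) (hv : v ∉ Y) :
    nIn w Y + nS w {v} Y ≤ nIn w (insert v Y) := by
  unfold nIn nS
  rw [← card_image_of_injOn (f := Prod.fst)
    (s := univ.filter fun p : E × Bool => w p ∈ ({v} : Finset V) ∧ w (pt p) ∈ Y),
    ← card_union_of_disjoint]
  · refine card_le_card fun i hi => ?_
    simp only [mem_union, mem_filter, mem_univ, true_and, mem_image, mem_singleton,
      mem_insert] at hi ⊢
    rcases hi with h | ⟨⟨e, b⟩, h, rfl⟩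
    · exact ⟨Or.inr h.1, Or.inr h.2⟩
    · cases b
      · exact ⟨Or.inl h.1, Or.inr h.2⟩
      · exact ⟨Or.inr h.2, Or.inl h.1⟩
  · refine disjoint_left.2 fun i h1 h2 => hv ?_
    simp only [mem_filter, mem_univ, true_and, mem_image, mem_singleton] at h1 h2
    obtain ⟨⟨e, b⟩, h, rfl⟩ := h2
    cases b
    · exact h.1 ▸ h1.1
    · exact h.1 ▸ h1.2
  · rintro ⟨e, b⟩ h1 ⟨e', b'⟩ h2 (rfl : e = e')
    simp only [coe_filter, mem_univ, true_and, mem_singleton, Set.mem_setOf_eq] at h1 h2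
    cases b <;> cases b'
    · rfl
    · exact absurd (h1.1 ▸ h2.2) hv
    · exact absurd (h1.1 ▸ h2.2) hv
    · rfl

end CL

theorem stCL : StCL := by
  classical
  intro V E _ _ _ _ w d z ε j B0 hG hk hj hε hεz hz hB
  have hN : (0 : ℝ) ≤ Fintype.card V := Nat.cast_nonneg _
  have hb : (0 : ℝ) ≤ B0.card := Nat.cast_nonneg _
  obtain ⟨Y, hY, hmax⟩ := Finset.exists_max_image (univ.filter fun Y : Finset V => B0 ⊆ Y ∧
      (Y.card : ℝ) ≤ 6 * z * Fintype.card V ∧ ((Y.card : ℝ) - B0.card) * (j / 4) ≤ nIn w Y)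
    Finset.card ⟨B0, mem_filter.2 ⟨mem_univ _, subset_rfl, by linarith, by simp⟩⟩
  obtain ⟨-, h1, h2, h3⟩ := mem_filter.1 hY
  have h4 := hG Y h2
  have h5 : (B0.card : ℝ) ≤ Y.card := by exact_mod_cast card_le_card h1
  have h6 : ε * Fintype.card V ≤ z * Fintype.card V := mul_le_mul_of_nonneg_right hεz hN
  have h7 : 0 ≤ ε * Fintype.card V := mul_nonneg hε hN
  have h8 : 3 * (Y.card : ℝ) ≤ 4 * B0.card + ε * Fintype.card V := by
    refine le_of_mul_le_mul_left ?_ (lt_of_lt_of_le one_pos hk)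
    have h9 := mul_le_mul_of_nonneg_left hj (sub_nonneg.2 h5)
    have h10 := mul_le_mul_of_nonneg_right hk h7
    nlinarith
  refine ⟨Y, h1, by linarith, fun v hv => ?_⟩
  by_contra hc
  rw [not_lt] at hc
  have h9 : (nIn w Y : ℝ) + nS w {v} Y ≤ nIn w (insert v Y) := by
    exact_mod_cast CL.nIn_insert w Y v hv
  have h10 := hmax (insert v Y) (mem_filter.2 ⟨mem_univ _, h1.trans (subset_insert _ _), by
    rw [card_insert_of_notMem hv]; push_cast; linarith, by
    rw [card_insert_of_notMem hv]; push_cast; linarith⟩)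
  rw [card_insert_of_notMem hv] at h10
  omega

end Pool.Agent.MP_32a90a_pr.D

end

section

set_option autoImplicit false

namespace Pool.Agent.MP_32a90a_pr.D

open Finset Equiv Filter Pool.Agent.MP_32a90a_pr Pool.Agent.MP_32a90a_pr.L

namespace IS

variable {V E : Type} [Fintype V] [DecidableEq V] [Fintype E] [DecidableEq E]

omit [Fintype V] [DecidableEq E] in
lemma sum_nS (w : E × Bool → V) (Z : Finset V) : ∑ v ∈ Z, nS w {v} Z ≤ 2 * nIn w Z := by
  have h1 : ∑ v ∈ Z, nS w {v} Z = nS w Z Z := by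
    unfold nS
    rw [Finset.card_eq_sum_card_fiberwise (f := w) (t := Z)
      (s := univ.filter fun p : E × Bool => w p ∈ Z ∧ w (pt p) ∈ Z)
      (fun p hp => (Finset.mem_filter.1 hp).2.1)]
    refine Finset.sum_congr rfl fun v hv => ?_
    congr 1
    ext p
    simp only [Finset.mem_filter, Finset.mem_univ, true_and, Finset.mem_singleton]
    constructor
    · rintro ⟨h, h'⟩; exact ⟨⟨h ▸ hv, h'⟩, h⟩
    · rintro ⟨⟨_, h'⟩, h⟩; exact ⟨h, h'⟩
  rw [h1]
  unfold nS nIn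
  have : (univ.filter fun p : E × Bool => w p ∈ Z ∧ w (pt p) ∈ Z) ⊆
      (univ.filter fun i : E => w (i, false) ∈ Z ∧ w (i, true) ∈ Z) ×ˢ (univ : Finset Bool) := by
    rintro ⟨i, b⟩ hp
    simp only [Finset.mem_filter, Finset.mem_univ, true_and, Finset.mem_product, and_true, pt]
      at hp ⊢
    cases b
    · simpa using hp
    · simpa using hp.symm
  refine (Finset.card_le_card this).trans ?_
  rw [Finset.card_product]
  simp [mul_comm]

lemma claim (w : E × Bool → V) (d : ℕ) (z ε : ℝ) (hG : G1 d z ε w) (hk : 1 ≤ k0 d z)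
    (hε : 0 ≤ ε) : ∀ (n : ℕ) (Z : Finset V), Z.card = n →
      (Z.card : ℝ) ≤ 6 * z * Fintype.card V → (∀ v ∈ Z, v ∉ badV w) →
      ∃ I : Finset V, I ⊆ Z ∧ nIn w I = 0 ∧
        (Z.card : ℝ) - ε * Fintype.card V ≤ 5 * k0 d z * I.card := by
  intro n
  induction n using Nat.strong_induction_on with
  | _ n ih =>
    intro Z hn hZ hb
    by_cases hs : (Z.card : ℝ) ≤ ε * Fintype.card V
    · exact ⟨∅, Finset.empty_subset _, by simp [nIn], by simpa using hs⟩
    push Not at hs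
    have hpos : 0 < (Z.card : ℝ) := lt_of_le_of_lt (by positivity) hs
    have hne : Z.Nonempty := Finset.card_pos.1 (by exact_mod_cast hpos)
    have h1 : ∑ v ∈ Z, (nS w {v} Z : ℝ) ≤ ∑ _v ∈ Z, 4 * k0 d z := by
      have a1 : (∑ v ∈ Z, (nS w {v} Z : ℝ)) ≤ 2 * nIn w Z := by exact_mod_cast sum_nS w Z
      have a2 := hG Z hZ
      rw [Finset.sum_const, nsmul_eq_mul]
      nlinarith
    obtain ⟨v, hv, hvs⟩ := Finset.exists_le_of_sum_le hne h1
    set Nb : Finset V := (univ.filter fun p : E × Bool => w p ∈ ({v} : Finset V) ∧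
      w (pt p) ∈ Z).image fun p => w (pt p) with hNb
    have hNc : (Nb.card : ℝ) ≤ 4 * k0 d z := by
      have : Nb.card ≤ nS w {v} Z := Finset.card_image_le
      exact le_trans (by exact_mod_cast this) hvs
    set Z' := Z \ insert v Nb with hZ'
    have hsub : Z' ⊆ Z := Finset.sdiff_subset
    have hvZ' : v ∉ Z' := by simp [hZ']
    have hlt : Z'.card < n := by
      rw [← hn]; exact Finset.card_lt_card ⟨hsub, fun h => hvZ' (h hv)⟩
    have hc : (Z.card : ℝ) ≤ Z'.card + (Nb.card + 1) := by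
      have a1 : Z.card ≤ Z'.card + (insert v Nb).card := Finset.card_le_card_sdiff_add_card
      have a2 := Finset.card_insert_le v Nb
      exact_mod_cast a1.trans (by omega)
    obtain ⟨I, hI, hI0, hIc⟩ := ih _ hlt Z' rfl
      (le_trans (by exact_mod_cast Finset.card_le_card hsub) hZ) (fun u hu => hb u (hsub hu))
    have hvI : v ∉ I := fun h => hvZ' (hI h)
    have hnb : ∀ p : E × Bool, w p = v → w (pt p) ∉ insert v I := by
      intro p hp h
      rcases Finset.mem_insert.1 h with h | h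
      · apply hb v hv
        refine Finset.mem_image.2 ⟨p, ?_, hp⟩
        refine Finset.mem_filter.2 ⟨Finset.mem_univ _, pt p, pt_ne p, ?_⟩
        simp [dart, h, hp]
      · have h2 := Finset.mem_sdiff.1 (hI h)
        apply h2.2
        refine Finset.mem_insert_of_mem (Finset.mem_image.2 ⟨p, ?_, rfl⟩)
        simp [hp, h2.1]
    refine ⟨insert v I, Finset.insert_subset hv (hI.trans hsub), ?_, ?_⟩
    · unfold nIn at hI0 ⊢
      rw [Finset.card_eq_zero, Finset.filter_eq_empty_iff] at hI0 ⊢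
      rintro i hi ⟨a1, a2⟩
      rcases Finset.mem_insert.1 a1 with b1 | b1
      · exact hnb (i, false) b1 (by simpa [pt] using a2)
      rcases Finset.mem_insert.1 a2 with b2 | b2
      · exact hnb (i, true) b2 (by simpa [pt] using a1)
      exact hI0 hi ⟨b1, b2⟩
    · rw [Finset.card_insert_of_notMem hvI]
      push_cast
      nlinarith

end IS

theorem stIS : StIS := by
  intro V E _ _ _ _ w d z ε F hG hk hε hz hb
  set N : ℝ := (Fintype.card V : ℝ) with hN
  have hN0 : 0 ≤ N := by positivity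
  obtain ⟨Z, hZ, hZc⟩ := Finset.exists_subset_card_eq
    (min_le_left (F \ badV w).card ⌊5 * z * N⌋₊)
  have h5 : 0 ≤ 5 * z * N := by nlinarith
  have hfl : (⌊5 * z * N⌋₊ : ℝ) ≤ 5 * z * N := Nat.floor_le h5
  have hfl' : 5 * z * N < ⌊5 * z * N⌋₊ + 1 := Nat.lt_floor_add_one _
  have hZ6 : (Z.card : ℝ) ≤ 6 * z * N := by
    have : (Z.card : ℝ) ≤ ⌊5 * z * N⌋₊ := by rw [hZc]; exact_mod_cast min_le_right _ _
    nlinarith
  obtain ⟨I, hI, hI0, hIc⟩ := IS.claim w d z ε hG hk hε _ Z rfl hZ6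
    (fun v hv => (Finset.mem_sdiff.1 (hZ hv)).2)
  refine ⟨I, hI.trans (hZ.trans Finset.sdiff_subset), hI0, ?_⟩
  have hF : (F.card : ℝ) ≤ (F \ badV w).card + (badV w).card := by
    exact_mod_cast (Finset.card_le_card_sdiff_add_card (s := F) (t := badV w))
  set m := min (F.card : ℝ) (5 * z * N) with hm
  have hm1 : m ≤ F.card := min_le_left _ _
  have hm2 : m ≤ 5 * z * N := min_le_right _ _
  have hm0 : 0 ≤ m := le_min (by positivity) h5
  have hεN : 0 ≤ ε * N := by positivity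
  have hZl : 4 / 5 * m - ε * N ≤ Z.card := by
    rw [hZc]; push_cast
    apply le_min <;> nlinarith
  rw [sub_le_iff_le_add, div_le_iff₀ (by positivity)]
  nlinarith

end Pool.Agent.MP_32a90a_pr.D

end

section

set_option autoImplicit false

namespace Pool.Agent.MP_32a90a_pr.D

open Finset Equiv Filter Pool.Agent.MP_32a90a_pr Pool.Agent.MP_32a90a_pr.L

namespace PAR

lemma sum_int {α : Type} (T : Finset α) (f : α → ℝ) (h : ∀ p ∈ T, f p = 0 ∨ f p = 1 ∨ f p = -1) :
    ∃ l : ℤ, ∑ p ∈ T, f p = l ∧ |l| ≤ T.card := by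
  classical
  induction T using Finset.induction_on with
  | empty => exact ⟨0, by simp, by simp⟩
  | insert a T ha ih =>
    obtain ⟨l, h1, h2⟩ := ih fun p hp => h p (mem_insert_of_mem hp)
    rw [abs_le] at h2
    rw [sum_insert ha, card_insert_of_notMem ha, h1]
    rcases h a (mem_insert_self _ _) with h3 | h3 | h3 <;> rw [h3]
    · exact ⟨l, by simp, by rw [abs_le]; push_cast; omega⟩
    · exact ⟨1 + l, by simp, by rw [abs_le]; push_cast; omega⟩
    · exact ⟨-1 + l, by simp, by rw [abs_le]; push_cast; omega⟩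

lemma sum_par {α : Type} (T : Finset α) (f : α → ℝ) (h : ∀ p ∈ T, f p = 1 ∨ f p = -1) :
    ∃ l : ℤ, ∑ p ∈ T, f p = T.card + 2 * l := by
  classical
  induction T using Finset.induction_on with
  | empty => exact ⟨0, by simp⟩
  | insert a T ha ih =>
    obtain ⟨l, h1⟩ := ih fun p hp => h p (mem_insert_of_mem hp)
    rw [sum_insert ha, card_insert_of_notMem ha, h1]
    rcases h a (mem_insert_self _ _) with h3 | h3 <;> rw [h3]
    · exact ⟨l, by push_cast; ring⟩
    · exact ⟨l - 1, by push_cast; ring⟩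

lemma sl_cases {V E : Type} (s : E → ℝ) (w : E × Bool → V) (σ : V → Bool) (i : E) :
    sl s w σ i = s i ∨ sl s w σ i = - s i := by
  unfold sl Y1
  cases σ (w (i, false)) <;> cases σ (w (i, true)) <;> simp [sgn]

end PAR

open Classical in
theorem stPAR : StPAR := by
  intro V E _ _ _ _ w d s σ hd hs
  refine ⟨fun v => ?_, fun he => ?_⟩
  · rw [← hd v]
    refine PAR.sum_int _ _ fun p _ => ?_
    rcases PAR.sl_cases s w σ p.1 with h | h <;> rcases hs p.1 with h1 | h1 | h1 <;>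
      simp [h, h1]
  · have h1 : (univ.filter fun v => ¬ ∃ l : ℤ, loc s w σ v = 2 * l) ⊆
        ((univ.filter fun i => s i = 0) ×ˢ (univ : Finset Bool)).image w := by
      intro v hv
      by_contra hn
      refine (mem_filter.1 hv).2 ?_
      obtain ⟨l, hl⟩ := PAR.sum_par (univ.filter fun p : E × Bool => w p = v)
        (fun p => sl s w σ p.1) fun p hp => by
          have h0 : s p.1 ≠ 0 := fun h0 =>
            hn (mem_image.2 ⟨p, by simp [h0], (mem_filter.1 hp).2⟩)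
          rcases PAR.sl_cases s w σ p.1 with h | h <;> rcases hs p.1 with h1 | h1 | h1 <;>
            simp [h, h1] at h0 ⊢
      obtain ⟨m, hm⟩ := he
      refine ⟨m + l, ?_⟩
      rw [loc, hl, hd v, hm]
      push_cast
      ring
    refine (card_le_card h1).trans (card_image_le.trans ?_)
    rw [card_product, card_univ, Fintype.card_bool, mul_comm]

end Pool.Agent.MP_32a90a_pr.D

end

section

/-! Resampling of one or two signs together with a fixed rearrangement. -/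

open Finset Equiv Filter Pool.Agent.MP_32a90a_pr Pool.Agent.MP_32a90a_pr.L

namespace Pool.Agent.MP_32a90a_pr.D

theorem stXE : StXE := by
  intro V E _ _ _ _ w0 F τ i
  unfold ED
  rw [← av_comp τ fun w => avg (F w)]
  congr 1
  funext w
  exact avg_update i (F (w ∘ τ))

theorem stXS : StXS := by
  intro V E _ _ _ _ w0 F τ i j _
  unfold ED
  rw [← av_comp τ fun w => avg (F w)]
  congr 1
  funext w
  rw [avg_update j (F (w ∘ τ)),
    avg_update i fun ω : E → Bool => avg fun o : Bool => F (w ∘ τ) (Function.update ω j o)]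
  refine avg_congr fun J => ?_
  exact (avg_prod fun b : Bool × Bool =>
    F (w ∘ τ) (Function.update (Function.update J i b.1) j b.2)).symm

end Pool.Agent.MP_32a90a_pr.D

end

section

set_option autoImplicit false
set_option linter.unusedSectionVars false

namespace Pool.Agent.MP_32a90a_pr.D

open Finset Equiv Pool.Agent.MP_32a90a_pr Pool.Agent.MP_32a90a_pr.L

namespace XV

variable {V E : Type} [Fintype V] [DecidableEq V] [Fintype E] [DecidableEq E] {d : ℕ}

open Classical in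
/-- the exchange of half-edges -/
noncomputable def rho (p u : Fin d → E × Bool) (t : E × Bool) : E × Bool :=
  if h : ∃ i, t = pt (p i) then u h.choose
  else if h : ∃ i, t = u i then pt (p h.choose) else t

omit [Fintype V] [DecidableEq V] in
lemma xv_eq (w : E × Bool → V) (p u : Fin d → E × Bool) : xv w p u = w ∘ rho p u := by
  funext t
  simp only [xv, rho, Function.comp]
  split_ifs <;> rfl

lemma rho_inv {p u : Fin d → E × Bool} (hp : Function.Injective p) (hu : Function.Injective u)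
    (h : ∀ i j, pt (p i) ≠ u j) : Function.Involutive (rho p u) := by
  have h1 : ∀ i, rho p u (pt (p i)) = u i := fun i => by
    have h2 : ∃ j, pt (p i) = pt (p j) := ⟨i, rfl⟩
    rw [rho, dif_pos h2]
    have h3 := congrArg pt h2.choose_spec
    rw [pt_pt, pt_pt] at h3
    rw [← hp h3]
  have h4 : ∀ i, rho p u (u i) = pt (p i) := fun i => by
    have h2 : ∃ j, u i = u j := ⟨i, rfl⟩
    rw [rho, dif_neg (fun ⟨j, hj⟩ => h j i hj.symm), dif_pos h2, ← hu h2.choose_spec]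
  intro t
  by_cases a : ∃ i, t = pt (p i)
  · obtain ⟨i, rfl⟩ := a
    rw [h1, h4]
  · by_cases b : ∃ i, t = u i
    · obtain ⟨i, rfl⟩ := b
      rw [h4, h1]
    · have : rho p u t = t := by rw [rho, dif_neg a, dif_neg b]
      rw [this, this]

open Classical in
/-- the exchange as a permutation -/
noncomputable def RR (p u : Fin d → E × Bool) : Perm (E × Bool) :=
  if h : Function.Involutive (rho p u) then h.toPerm _ else 1

lemma RR_mul (p u : Fin d → E × Bool) : RR p u * RR p u = 1 := by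
  unfold RR
  split_ifs with h
  · ext1 t
    exact h t
  · exact mul_one _

lemma RR_coe {p u : Fin d → E × Bool} (h : Function.Involutive (rho p u)) :
    (RR p u : E × Bool → E × Bool) = rho p u := by
  rw [RR, dif_pos h]
  rfl

lemma signs {p : Fin d → E × Bool} (h1 : ∀ J J' i, xj J p J' (p i).1 = J' i)
    (h2 : ∀ J J' e, (∀ i, e ≠ (p i).1) → xj J p J' e = J e) (G : (E → Bool) → ℝ) :
    (avg fun J : E → Bool => avg fun J' : Fin d → Bool => G (xj J p J')) = avg G := by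
  have hi : Function.Involutive fun x : (E → Bool) × (Fin d → Bool) =>
      ((xj x.1 p x.2, fun i => x.1 (p i).1) : (E → Bool) × (Fin d → Bool)) := by
    rintro ⟨J, J'⟩
    refine Prod.ext (funext fun e => ?_) (funext fun i => h1 J J' i)
    by_cases a : ∃ i, e = (p i).1
    · obtain ⟨i, rfl⟩ := a
      exact h1 _ _ i
    · have b : ∀ i, e ≠ (p i).1 := fun i hi => a ⟨i, hi⟩
      exact (h2 _ _ e b).trans (h2 _ _ e b)
  have h3 := avg_equiv (hi.toPerm _) fun x => G x.1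
  rw [avg_prod, avg_prod] at h3
  simp only [avg_const] at h3
  exact h3

end XV

open XV in
theorem stXV (h : StXVval) : StXV := by
  classical
  intro V E _ _ _ _ w0 d U v pos u F hd hpos hu hc
  have key : ∀ w, Deg w d → Gd U w v → w ∘ RR (pos w) u = xv w (pos w) u ∧
      Gd U (xv w (pos w) u) v ∧ pos (xv w (pos w) u) = pos w ∧ ∀ G : (E → Bool) → ℝ,
        (avg fun J : E → Bool => avg fun J' : Fin d → Bool => G (xj J (pos w) J')) = avg G := by
    intro w hw hg
    obtain ⟨a1, a2⟩ := hpos.1 w hw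
    have H := fun J J' => h V E w d U v (pos w) u J J' hw hg a1 a2 hu hc
    obtain ⟨-, b2, b3, -⟩ := H (fun _ => true) fun _ => true
    refine ⟨?_, fun t ht => ?_, hpos.2 _ _ b2,
      signs (fun J J' => (H J J').2.2.2.2.2.1) fun J J' => (H J J').2.2.2.2.2.2.1⟩
    · rw [xv_eq, RR_coe (rho_inv a1 hu fun i j hij => ?_)]
      have c1 := (hg _ ((a2 _).2 ⟨i, rfl⟩)).1
      have c2 := mem_cav.1 (hc j)
      rw [← hij] at c2
      exact c1 c2
    · have c1 := (b2 t).1 ht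
      refine ⟨(hg t c1).1, ?_⟩
      obtain ⟨i, rfl⟩ := (a2 t).1 c1
      rw [b3]
      exact fun c2 => (hg _ c2).1 (mem_cav.1 (hc i))
  let T : Perm (E × Bool) → Perm (E × Bool) := fun π =>
    if Gd U (w0 ∘ π) v then π * RR (pos (w0 ∘ π)) u else π
  have hT1 : ∀ π : Perm (E × Bool), Gd U (w0 ∘ π) v →
      w0 ∘ T π = xv (w0 ∘ π) (pos (w0 ∘ π)) u := fun π hg => by
    simp only [T, if_pos hg]
    exact (key _ (hd.comp π) hg).1
  have hT : Function.Involutive T := fun π => by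
    by_cases hg : Gd U (w0 ∘ π) v
    · obtain ⟨-, k2, k3, -⟩ := key _ (hd.comp π) hg
      have e1 := hT1 π hg
      have e2 : T (T π) = T π * RR (pos (w0 ∘ π)) u := by
        have : Gd U (w0 ∘ T π) v := e1 ▸ k2
        rw [show T (T π) = T π * RR (pos (w0 ∘ T π)) u from if_pos this, e1, k3]
      rw [e2, show T π = π * RR (pos (w0 ∘ π)) u from if_pos hg, mul_assoc, RR_mul, mul_one]
    · have e : T π = π := if_neg hg
      rw [e, e]
  have h1 := avg_equiv (hT.toPerm _) fun π : Perm (E × Bool) =>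
    avg fun J => ind (Gd U (w0 ∘ π) v) * F (w0 ∘ π) J
  refine Eq.trans (Eq.symm h1) ?_
  refine avg_congr (g := fun π : Perm (E × Bool) => avg fun J => ind (Gd U (w0 ∘ π) v) *
    avg fun J' : Fin d → Bool => F (xv (w0 ∘ π) (pos (w0 ∘ π)) u) (xj J (pos (w0 ∘ π)) J'))
    fun π => ?_
  show (avg fun J => ind (Gd U (w0 ∘ T π) v) * F (w0 ∘ T π) J) = _
  by_cases hg : Gd U (w0 ∘ π) v
  · obtain ⟨-, k2, -, k4⟩ := key _ (hd.comp π) hg
    rw [hT1 π hg, ind_pos k2, ind_pos hg]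
    simp only [one_mul]
    exact (k4 _).symm
  · have e : T π = π := if_neg hg
    rw [e, ind_neg hg]
    simp only [zero_mul]

end Pool.Agent.MP_32a90a_pr.D

end

section

set_option autoImplicit false

namespace Pool.Agent.MP_32a90a_pr.D

open Finset Equiv Filter Pool.Agent.MP_32a90a_pr Pool.Agent.MP_32a90a_pr.L

noncomputable section

namespace G4

/-- value of a code -/
def val : Option Bool → ℝ
  | none => 0
  | some b => sgn b

open Classical in
/-- code of a value -/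
def code (x : ℝ) : Option Bool := if x = 0 then none else if x = 1 then some true else some false

/-- prior of one entry -/
def q1 (κ : ℝ) : Option Bool → ℝ
  | none => 1 - κ
  | some _ => κ / 2

/-- prior of one label -/
def q0 {r : ℕ} (b κ : ℝ) (t : Fin r → Option Bool) : ℝ :=
  if t = (fun _ => none) then 1 - b else b * ∏ k, q1 κ (t k)

lemma val_code {x : ℝ} (h : x = 0 ∨ x = 1 ∨ x = -1) : val (code x) = x := by
  rcases h with rfl | rfl | rfl
  · simp [code, val]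
  · simp [code, val, sgn]
  · have : (-1 : ℝ) ≠ 1 := by norm_num
    simp [code, val, sgn, this]

lemma code_none {x : ℝ} : code x = none ↔ x = 0 := by
  unfold code
  split_ifs with h1 h2 <;> simp [h1]

lemma q1_pos {κ : ℝ} (h0 : 0 < κ) (h1 : κ ≤ 1 / 2) (o : Option Bool) : 0 < q1 κ o := by
  cases o <;> simp only [q1] <;> linarith

lemma q0_pos {r : ℕ} {b κ : ℝ} (hb : 0 < b) (hb1 : b ≤ 1 / 2) (h0 : 0 < κ) (h1 : κ ≤ 1 / 2)
    (t : Fin r → Option Bool) : 0 < q0 b κ t := by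
  unfold q0
  split_ifs
  · linarith
  · exact mul_pos hb (prod_pos fun k _ => q1_pos h0 h1 _)

lemma sum_q0 {r : ℕ} {b κ : ℝ} (hb : 0 < b) (h0 : 0 < κ) (h1 : κ ≤ 1 / 2) :
    ∑ t : Fin r → Option Bool, q0 b κ t ≤ 1 := by
  have e1 : ∑ t : Fin r → Option Bool, ∏ k, q1 κ (t k) = 1 := by
    rw [← Fintype.piFinset_univ, ← prod_univ_sum (fun _ : Fin r => (univ : Finset (Option Bool)))
      (fun _ o => q1 κ o)]
    refine prod_eq_one fun k _ => ?_
    simp [Fintype.sum_option, q1]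
    ring
  calc ∑ t : Fin r → Option Bool, q0 b κ t
      ≤ ∑ t : Fin r → Option Bool,
          ((if t = (fun _ => none) then 1 - b else 0) + b * ∏ k, q1 κ (t k)) := by
        refine sum_le_sum fun t _ => ?_
        have : 0 < b * ∏ k, q1 κ (t k) := mul_pos hb (prod_pos fun k _ => q1_pos h0 h1 _)
        unfold q0
        split_ifs <;> linarith
    _ = 1 := by
        rw [sum_add_distrib, ← mul_sum, e1, sum_ite_eq']
        simp

lemma log_inv_le {b : ℝ} (hb : 0 ≤ b) (hb1 : b ≤ 1 / 2) : Real.log (1 / (1 - b)) ≤ 2 * b := by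
  have h : 0 < 1 - b := by linarith
  have h1 := Real.log_le_sub_one_of_pos (one_div_pos.2 h)
  have h2 : 1 / (1 - b) ≤ 1 + 2 * b := by
    rw [div_le_iff₀ h]
    nlinarith
  linarith

lemma log_q1 {κ : ℝ} (h0 : 0 < κ) (h1 : κ ≤ 1 / 2) (o : Option Bool) :
    Real.log (1 / q1 κ o) ≤ 2 * κ + Real.log (2 / κ) * ind (o ≠ none) := by
  cases o with
  | none =>
    rw [ind_neg (by simp), mul_zero, add_zero]
    exact log_inv_le h0.le h1
  | some c =>
    rw [ind_pos (by simp), mul_one]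
    simp only [q1, one_div_div]
    linarith

lemma log_q0 {r : ℕ} {b κ : ℝ} (hb : 0 < b) (hb1 : b ≤ 1 / 2) (h0 : 0 < κ) (h1 : κ ≤ 1 / 2)
    (t : Fin r → Option Bool) :
    Real.log (1 / q0 b κ t) ≤ 2 * b + (Real.log (1 / b) + 2 * κ * r) * ind (∃ k, t k ≠ none) +
      Real.log (2 / κ) * ∑ k, ind (t k ≠ none) := by
  unfold q0
  split_ifs with ht
  · subst ht
    rw [ind_neg (by simp), sum_eq_zero fun k _ => ind_neg (by simp)]
    simpa using log_inv_le hb.le hb1
  · have he : ∃ k, t k ≠ none := by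
      by_contra hn
      push Not at hn
      exact ht (funext hn)
    have hp : ∀ k, 0 < q1 κ (t k) := fun k => q1_pos h0 h1 _
    have e : Real.log (1 / (b * ∏ k, q1 κ (t k)))
        = Real.log (1 / b) + ∑ k, Real.log (1 / q1 κ (t k)) := by
      simp only [one_div, Real.log_inv]
      rw [Real.log_mul hb.ne' (prod_pos fun k _ => hp k).ne', Real.log_prod fun k _ => (hp k).ne',
        sum_neg_distrib]
      ring
    have h2 := sum_le_sum fun k (_ : k ∈ univ) => log_q1 h0 h1 (t k)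
    rw [sum_add_distrib, ← mul_sum, ← mul_sum, sum_const, card_univ, Fintype.card_fin,
      nsmul_eq_mul] at h2
    rw [e, ind_pos he]
    linarith

/-- the statistic -/
def ff {E : Type} [DecidableEq E] {r : ℕ} (U A : Finset E) (θ : ℝ) (i : E)
    (t t1 : Fin r → Option Bool) (j : Bool) : ℝ :=
  if i ∉ U ∧ i ∉ A then θ * (sgn j * ∑ k, val (t k) * val (t1 k)) else 0

lemma muA_le {V E : Type} [Fintype V] [DecidableEq V] [Fintype E] [DecidableEq E] {r d : ℕ}
    {w : E × Bool → V} (hd : Deg w d) (U A : Finset E) (θ : ℝ) (φ : V → Fin r → Option Bool) :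
    muA (ff U A θ) φ ≤ (d : ℝ) / (2 * Fintype.card V) *
      ∑ u, ∑ v, (Real.cosh (θ * ∑ k, val (φ u k) * val (φ v k)) - 1) := by
  obtain ⟨X, hX⟩ : ∃ X, X = ∑ u, ∑ v, (Real.cosh (θ * ∑ k, val (φ u k) * val (φ v k)) - 1) :=
    ⟨_, rfl⟩
  have hX0 : 0 ≤ X := by
    rw [hX]
    exact sum_nonneg fun u _ => sum_nonneg fun v _ => sub_nonneg.2 (Real.one_le_cosh _)
  have h1 : ∀ i : E, (avg fun x : V × V × Bool =>
      Real.exp (ff U A θ i (φ x.1) (φ x.2.1) x.2.2) - 1)
        ≤ X / Fintype.card V / Fintype.card V := by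
    intro i
    by_cases hi : i ∉ U ∧ i ∉ A
    · refine le_of_eq ?_
      rw [avg_prod]
      simp only [avg_prod, avg_bool, ff, if_pos hi]
      rw [hX]
      simp only [avg, sum_div]
      refine sum_congr rfl fun u _ => sum_congr rfl fun v _ => ?_
      congr 2
      simp only [sgn, Real.cosh_eq, if_true, Bool.false_eq_true, if_false, one_mul, neg_mul,
        mul_neg]
      ring
    · simp only [ff, if_neg hi, Real.exp_zero, sub_self, avg_zero]
      positivity
  rw [← hX]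
  refine (sum_le_sum fun i _ => h1 i).trans (le_of_eq ?_)
  rw [sum_const, card_univ, nsmul_eq_mul]
  have h2 : (Fintype.card E : ℝ) = d * Fintype.card V / 2 := by linarith [card_half hd]
  rw [h2]
  by_cases hN : (Fintype.card V : ℝ) = 0
  · simp [hN]
  · field_simp

end G4

open G4 in
theorem stG4 (h : StMU) : StG4 := by
  intro d r κ θ ε hd h0 h1 hε
  have hd' : (3 : ℝ) ≤ d := by exact_mod_cast hd
  have hb : (0 : ℝ) < 1 / (d : ℝ) ^ 2 := by positivity
  have hb1 : 1 / (d : ℝ) ^ 2 ≤ 1 / 2 := one_div_le_one_div_of_le (by norm_num) (by nlinarith)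
  have hlog : Real.log (1 / (1 / (d : ℝ) ^ 2)) = 2 * ell d := by
    rw [one_div_one_div, Real.log_pow, ell]
    norm_num
  refine (h d (Fin r → Option Bool) (1 / (d : ℝ) ^ 2) ε hb hε).mono ?_
  intro V E _ _ _ _ w0 hw hP U A
  refine le_trans ?_ (hP (q0 (1 / (d : ℝ) ^ 2) κ) (ff U A θ) (q0_pos hb hb1 h0 h1)
    (sum_q0 hb h0 h1))
  refine PD_mono fun w J hn => ?_
  unfold G4 at hn
  rw [not_forall] at hn
  obtain ⟨ξ, hn⟩ := hn
  rw [Classical.not_imp, not_le] at hn
  obtain ⟨hξ, hlt⟩ := hn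
  refine ⟨fun v k => code (ξ v k), ?_⟩
  have e1 := muA_le hw U A θ (fun v k => code (ξ v k))
  simp only [val_code (hξ _ _)] at e1
  have e2 : muL (ff U A θ) (fun v k => code (ξ v k)) w J
      = θ * ∑ i ∈ univ.filter (fun i : E => i ∉ U ∧ i ∉ A),
        sgn (J i) * ∑ k, ξ (w (i, false)) k * ξ (w (i, true)) k := by
    rw [mul_sum, sum_filter]
    simp only [muL, ff, val_code (hξ _ _)]
  have e3 := sum_le_sum fun v (_ : v ∈ univ) => log_q0 hb hb1 h0 h1 (fun k => code (ξ v k))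
  simp only [ne_eq, code_none] at e3
  rw [sum_add_distrib, sum_add_distrib, ← mul_sum, ← mul_sum, ← mul_sum, hlog, sum_const,
    card_univ, nsmul_eq_mul, ← Fintype.sum_prod_type' (fun v k => ind (¬ ξ v k = 0))] at e3
  rw [← sum_ind, ← sum_ind] at hlt
  rw [e2]
  unfold muP
  have e4 : 3 * (Fintype.card V : ℝ) / (d : ℝ) ^ 2 = 2 * (Fintype.card V * (1 / (d : ℝ) ^ 2)) +
      1 / (d : ℝ) ^ 2 * Fintype.card V := by ring
  simp only [ne_eq] at hlt
  linarith

end

end Pool.Agent.MP_32a90a_pr.D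

end

section

set_option autoImplicit false

namespace Pool.Agent.MP_32a90a_pr.D.GAll

theorem mu : StMU := stMU (stMUa (stTP (stTPa stOrb)))

theorem ppa : StPPa :=
  stPPa (stCore (stExp stFlip) (stElig stMom stPZ) (stCnt stVar) stSel (stTwo (stExp stFlip)))
    stNz stG2o

theorem typ : StTyp :=
  stTyp_of (stG1 mu) (stG2 (stG2p mu) (stG2d mu)) (stG3 mu) (stG5a mu) (stG5b mu) stG8
    (stP1 ppa) (stP2 ppa)

theorem g3 : StG3 := stG3 mu
theorem g4 : StG4 := stG4 mu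
theorem g8 : StG8 := stG8
theorem g9a : StG9a := stG9a
theorem g9b : StG9b := stG9b stHyp
theorem flip : StFlip := stFlip
theorem cl : StCL := stCL
theorem indep : StIS := stIS
theorem neg : StNEG := stNEG stFlip
theorem par : StPAR := stPAR
theorem xe : StXE := stXE
theorem xs : StXS := stXS
theorem pos : StPos := stPos
theorem xvval : StXVval := stXVval
theorem xv : StXV := stXV stXVval

end Pool.Agent.MP_32a90a_pr.D.GAll

end

section

set_option autoImplicit false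
set_option linter.unusedSectionVars false

namespace Pool.Agent.MP_32a90a_pr.D.AZ

open Finset Equiv Filter Pool.Agent.MP_32a90a_pr Pool.Agent.MP_32a90a_pr.L

namespace Glue

lemma form {k1 k2 k3 D f a τ y1 y2 y3 : ℝ} (h1 : 0 ≤ k1) (h2 : 0 ≤ k2) (h3 : 0 ≤ k3)
    (hK : 0 < k1 + k2 + k3) (hD : 0 < D) (ht0 : 0 ≤ τ) (ht1 : τ ≤ 1)
    (hf : 2 * f * (k1 + k2 + k3) ≤ τ * k1 * (k1 * D)) (ha : τ * (k2 * D) ≤ a) :
    (f * y1 ^ 2 - a * y2 ^ 2 - k3 * D * y3 ^ 2) / ((k1 + k2 + k3) * D)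
      ≤ ((k1 * D * y1 + k2 * D * y2 + k3 * D * y3) / ((k1 + k2 + k3) * D)) ^ 2 := by
  have e : (k1 * D * y1 + k2 * D * y2 + k3 * D * y3) / ((k1 + k2 + k3) * D)
      = (k1 * y1 + (k2 * y2 + k3 * y3)) / (k1 + k2 + k3) := by
    field_simp
    ring
  rw [e, div_pow, div_le_div_iff₀ (by positivity) (by positivity)]
  obtain ⟨K, hKe⟩ : ∃ K, K = k1 + k2 + k3 := ⟨_, rfl⟩
  rw [← hKe] at hK hf ⊢
  obtain ⟨u, hu⟩ : ∃ u, u = k1 * y1 := ⟨_, rfl⟩
  obtain ⟨z, hz⟩ : ∃ z, z = k2 * y2 + k3 * y3 := ⟨_, rfl⟩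
  obtain ⟨q, hq⟩ : ∃ q, q = k2 * y2 ^ 2 + k3 * y3 ^ 2 := ⟨_, rfl⟩
  have hq0 : 0 ≤ q := by rw [hq]; positivity
  have a1 : z ^ 2 ≤ K * q := by
    have : K * q - z ^ 2 = k1 * q + k2 * k3 * (y2 - y3) ^ 2 := by rw [hKe, hz, hq]; ring
    have h4 : 0 ≤ k1 * q + k2 * k3 * (y2 - y3) ^ 2 := by positivity
    linarith
  have a2 : K * (f * y1 ^ 2) ≤ τ * D * (u ^ 2 / 2) := by
    have := mul_le_mul_of_nonneg_right hf (sq_nonneg y1)
    rw [hu]; linarith
  have a3 : τ * D * (K * q) ≤ K * (a * y2 ^ 2) + K * (k3 * D * y3 ^ 2) := by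
    have b1 := mul_le_mul_of_nonneg_left (mul_le_mul_of_nonneg_right ha (sq_nonneg y2)) hK.le
    have b2 : τ * (K * (k3 * D * y3 ^ 2)) ≤ 1 * (K * (k3 * D * y3 ^ 2)) :=
      mul_le_mul_of_nonneg_right ht1 (by positivity)
    rw [hq]; linarith
  have a4 : τ * D * (u ^ 2 / 2 - K * q) ≤ τ * D * (u + z) ^ 2 :=
    mul_le_mul_of_nonneg_left (by nlinarith [sq_nonneg (u + 2 * z)]) (by positivity)
  have a5 : τ * (D * (u + z) ^ 2) ≤ 1 * (D * (u + z) ^ 2) :=
    mul_le_mul_of_nonneg_right ht1 (by positivity)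
  have a6 : K * (f * y1 ^ 2 - a * y2 ^ 2 - k3 * D * y3 ^ 2) ≤ D * (u + z) ^ 2 := by linarith
  have a7 := mul_le_mul_of_nonneg_left a6 hK.le
  rw [← hu, ← hz]
  linarith

/-- sizes of the three blocks -/
def kb (k1 k2 k3 : ℕ) : Option Bool → ℕ
  | none => k1
  | some false => k2
  | some true => k3

/-- antiferromagnetic slots -/
def Ab {d k1 k2 k3 : ℕ} (A2 : Finset (Fin (k2 * d))) : ∀ b, Finset (Fin (kb k1 k2 k3 b * d))
  | none => ∅
  | some false => A2
  | some true => univ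

/-- ferromagnetic slots -/
def Fb {d k1 k2 k3 : ℕ} (F1 : Finset (Fin (k1 * d))) : ∀ b, Finset (Fin (kb k1 k2 k3 b * d))
  | none => F1
  | some false => ∅
  | some true => ∅

/-- constraints of the blocks -/
noncomputable def Om (k1 k2 k3 : ℕ) (m : ℝ) : ∀ b, Finset (Fin (2 * kb k1 k2 k3 b) → Bool)
  | none => univ
  | some false => magSet _ (-m)
  | some true => magSet _ 0

/-- lower bounds of the blocks -/
def Lb (x y : ℝ) : Option Bool → ℝ
  | none => 0
  | some false => x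
  | some true => y

lemma sum3 {M : Type} [AddCommMonoid M] (g : Option Bool → M) :
    ∑ b, g b = g none + g (some false) + g (some true) := by
  rw [Fintype.sum_option, Fintype.sum_bool]
  abel

lemma cm_sigma {B : Type} [Fintype B] [DecidableEq B] {Eb : B → Type} [∀ b, Fintype (Eb b)]
    [∀ b, DecidableEq (Eb b)] (A F : ∀ b, Finset (Eb b)) (b : B) (i : Eb b) :
    cm (univ.sigma A) (univ.sigma F) ⟨b, i⟩ = cm (A b) (F b) i := by
  simp [cm]

lemma sum_cm_F {E : Type} [Fintype E] [DecidableEq E] (F : Finset E) :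
    ∑ i, cm ∅ F i = F.card := by
  simp [cm]

lemma sum_cm_A {E : Type} [Fintype E] [DecidableEq E] (A : Finset E) :
    ∑ i, cm A ∅ i = -(A.card : ℝ) := by
  simp [cm, sum_ite]

end Glue

open Glue in
theorem zGlue (h1 : ZInt) (h2 : ZSplit) : ZGlue := by
  intro d p0 η hd hp hη
  obtain ⟨N0, hN⟩ := h1 d p0 η hd hp hη
  refine ⟨N0 + 1, fun k1 k2 k3 τ L2 F1 A2 Ω1 hK p1 p2 p3 t0 t1 hF hA hΩ hL => ?_⟩
  have cV : Fintype.card (Σ b, Fin (2 * kb k1 k2 k3 b)) = 2 * (k1 + k2 + k3) := by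
    rw [Fintype.card_sigma, sum3]
    simp only [Fintype.card_fin]
    simp only [kb]
    ring
  have cE : Fintype.card (Σ b, Fin (kb k1 k2 k3 b * d)) = (k1 + k2 + k3) * d := by
    rw [Fintype.card_sigma, sum3]
    simp only [Fintype.card_fin]
    simp only [kb]
    ring
  obtain ⟨g1, g2⟩ := h2 (Option Bool) (fun b => Fin (2 * kb k1 k2 k3 b))
    (fun b => Fin (kb k1 k2 k3 b * d)) (fun b => cw d (kb k1 k2 k3 b)) (Ab A2) (Fb F1) none Ω1
    (Om k1 k2 k3) (Lb L2 (af d k3)) (magSet _ 0) hΩ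
    (by
      rintro σ hσ (_ | _ | _) hb
      · exact absurd rfl hb
      · exact hL σ hσ
      · exact ⟨magSet_zero_nonempty (V := Fin (2 * k3)) (by simp), le_rfl⟩)
    (by
      intro σ _ hσ
      have e1 := mem_magSet.1 (hσ (some false) (by simp))
      have e2 := mem_magSet.1 (hσ (some true) (by simp))
      rw [mem_magSet, mag_sigma, sum3, e1, e2]
      ring)
  have g3 := hN (Option Bool) (fun b => Fin (2 * kb k1 k2 k3 b))
    (fun b => Fin (kb k1 k2 k3 b * d)) (fun b => cw d (kb k1 k2 k3 b)) (univ.sigma (Ab A2))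
    (univ.sigma (Fb F1)) true (magSet _ 0) (fun b => cw_deg d _) (by rw [cV]; omega)
    (by
      rw [cV]
      rintro (_ | _ | _) <;> rw [Fintype.card_fin] <;> simp only [kb] <;> push_cast <;> linarith)
    g1
    (by
      intro y
      have hKR : (0 : ℝ) < (k1 : ℝ) + k2 + k3 := by exact_mod_cast (by omega : 0 < k1 + k2 + k3)
      have hdR : (0 : ℝ) < d := by exact_mod_cast hd
      have := form (y1 := y none) (y2 := y (some false)) (y3 := y (some true))
        (Nat.cast_nonneg k1) (Nat.cast_nonneg k2) (Nat.cast_nonneg k3) hKR hdR t0 t1 hF hA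
      rw [if_pos rfl, one_mul]
      unfold avg
      rw [cE, Fintype.sum_sigma, Fintype.sum_sigma, sum3, sum3]
      simp only [cm_sigma, ← sum_mul, sum_const, card_univ, Fintype.card_fin, nsmul_eq_mul]
      have e1 : ∑ i, cm (Ab (k1 := k1) (k3 := k3) A2 none) (Fb F1 none) i = F1.card :=
        sum_cm_F F1
      have e2 : ∑ i, cm (Ab (k1 := k1) (k3 := k3) A2 (some false)) (Fb F1 (some false)) i
          = -(A2.card : ℝ) := sum_cm_A A2
      have e3 : ∑ i, cm (Ab (k1 := k1) (k3 := k3) A2 (some true)) (Fb F1 (some true)) i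
          = -((k3 * d : ℕ) : ℝ) := (sum_cm_A (univ : Finset (Fin (k3 * d)))).trans (by simp)
      rw [e1, e2, e3]
      simp only [kb]
      push_cast
      refine le_trans (le_of_eq ?_) this
      ring)
  have g4 := (VV_same (sg_deg fun b => cw_deg d (kb k1 k2 k3 b)) (cw_deg d (k1 + k2 + k3))
    (by rw [cV, Fintype.card_fin]) (fun m => m = 0) (fun _ => mem_magSet) (fun _ => mem_magSet)
    false true).2
  have g5 : ∑ b ∈ univ.erase none, Lb L2 (af d k3) b = L2 + af d k3 := by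
    have := add_sum_erase univ (Lb L2 (af d k3)) (mem_univ none)
    rw [sum3] at this
    simp only [Lb] at this ⊢
    linarith
  rw [g5] at g2
  rw [cV] at g3
  simp only [if_true, Bool.false_eq_true, if_false] at g3 g4
  rw [g4] at g3
  push_cast at g3
  have g6 := g2.trans g3
  rw [add_assoc]
  exact g6

end Pool.Agent.MP_32a90a_pr.D.AZ

end

section

set_option autoImplicit false

namespace Pool.Agent.MP_32a90a_pr.D.AZ

open Finset Equiv Filter Pool.Agent.MP_32a90a_pr Pool.Agent.MP_32a90a_pr.L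

namespace Hyb

lemma num {P L S D m : ℝ} (hL : 2 ≤ L) (hP : L ≤ P) (s0 : 0 ≤ S) (s1 : S ≤ P * (P - 1))
    (d0 : 0 ≤ D) (d1 : D ≤ P) :
    |(P * (P - 1) * (m + 1) - 2 * S) / (P * P - 1 * P) - (m + 1 - 2 * ((S + D) / (P * P)))|
      ≤ 2 / L := by
  have p0 : 0 < P := by linarith
  have p1 : 0 < P - 1 := by linarith
  have e : (P * (P - 1) * (m + 1) - 2 * S) / (P * P - 1 * P) - (m + 1 - 2 * ((S + D) / (P * P)))
      = 2 / P * (D / P - S / (P * (P - 1))) := by
    rw [show P * P - 1 * P = P * (P - 1) by ring]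
    field_simp
    ring
  have a1 : D / P ≤ 1 := (div_le_one p0).2 d1
  have a2 : S / (P * (P - 1)) ≤ 1 := (div_le_one (mul_pos p0 p1)).2 s1
  have a3 : 0 ≤ D / P := by positivity
  have a4 : 0 ≤ S / (P * (P - 1)) := by positivity
  rw [e, abs_mul, abs_of_pos (by positivity : 0 < 2 / P)]
  refine (mul_le_of_le_one_right (by positivity) (abs_le.2 ⟨by linarith, by linarith⟩)).trans ?_
  exact div_le_div_of_nonneg_left zero_le_two (by linarith) hP

lemma key {Q : Type} [DecidableEq Q] (A A' : Finset Q) (e : Prop) (he : e → A = A')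
    (hn : ¬ e → ∀ a ∈ A, a ∉ A') {L : ℝ} (hL : 2 ≤ L) (hA : L ≤ A.card) (hA' : L ≤ A'.card)
    (I : Q → Q → Prop) (m : ℝ) :
    |(∑ a ∈ A, ∑ a' ∈ A'.erase a, (m + 1 - 2 * ind (I a a')))
        / (A.card * A'.card - ind e * A.card)
      - (m + 1 - 2 * ((∑ a ∈ A, ∑ a' ∈ A', ind (I a a')) / (A.card * A'.card)))| ≤ 2 / L := by
  by_cases h : e
  · obtain rfl := he h
    have e1 : ∑ a ∈ A, ∑ a' ∈ A.erase a, (m + 1 - 2 * ind (I a a')) =
        A.card * ((A.card : ℝ) - 1) * (m + 1) - 2 * ∑ a ∈ A, ∑ a' ∈ A.erase a, ind (I a a') := by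
      rw [mul_sum, mul_assoc, ← nsmul_eq_mul, ← sum_const, ← sum_sub_distrib]
      refine sum_congr rfl fun a ha => ?_
      rw [sum_sub_distrib, sum_const, nsmul_eq_mul, cast_card_erase_of_mem ha, mul_sum]
    have e2 : ∑ a ∈ A, ∑ a' ∈ A, ind (I a a') =
        ∑ a ∈ A, ∑ a' ∈ A.erase a, ind (I a a') + ∑ a ∈ A, ind (I a a) := by
      rw [← sum_add_distrib]
      exact sum_congr rfl fun a ha => (sum_erase_add _ _ ha).symm
    rw [e1, e2, ind_pos h]
    refine num hL hA (sum_nonneg fun _ _ => sum_nonneg fun _ _ => ind_nonneg _) ?_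
      (sum_nonneg fun _ _ => ind_nonneg _) ?_
    · rw [← nsmul_eq_mul]
      refine sum_le_card_nsmul _ _ _ fun a ha => ?_
      refine (sum_le_card_nsmul _ _ 1 fun _ _ => ind_le_one _).trans_eq ?_
      rw [nsmul_eq_mul, cast_card_erase_of_mem ha, mul_one]
    · simpa using sum_le_card_nsmul A (fun a => ind (I a a)) 1 fun _ _ => ind_le_one _
  · have e1 : ∑ a ∈ A, ∑ a' ∈ A'.erase a, (m + 1 - 2 * ind (I a a')) =
        A.card * ((A'.card : ℝ) * (m + 1)) - 2 * ∑ a ∈ A, ∑ a' ∈ A', ind (I a a') := by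
      rw [mul_sum, ← nsmul_eq_mul, ← sum_const, ← sum_sub_distrib]
      refine sum_congr rfl fun a ha => ?_
      rw [erase_eq_of_notMem (hn h a ha), sum_sub_distrib, sum_const, nsmul_eq_mul, mul_sum]
    have p1 : (0 : ℝ) < A.card := by linarith
    have p2 : (0 : ℝ) < A'.card := by linarith
    rw [e1, ind_neg h, zero_mul, sub_zero]
    refine le_trans (le_of_eq (abs_eq_zero.2 ?_)) (div_nonneg zero_le_two (by linarith))
    field_simp
    ring

end Hyb

theorem zHyb (h1 : ZPl) (h2 : ZEx) (h3 : ZFeas) (h4 : ZMax) (h5 : ZForm) : ZHyb := by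
  classical
  intro V E B Ξ _ _ _ _ _ _ w0 d β Ω T r f g L hd hΩ hr hL hb hq
  have hms : 0 < ms w0 β T := h3 V E B w0 d β T hd fun b => by linarith [hb b]
  have hnp : ∀ x, 0 < np d β T x := fun x => by
    have a1 := hb x.1
    have a2 := hb x.2.1
    have a3 := ind_le_one (x.1 = x.2.1)
    unfold np
    nlinarith
  let S : (E × Bool → V) → B × B × Bool → ℝ := fun w x =>
    (∑ a ∈ pl β T w x.1, ∑ a' ∈ (pl β T w x.2.1).erase a,
      mxJ Ω (sT T) w (sgn x.2.2) (w a) (w a')) / np d β T x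
  have hP : ∀ x, Phi w0 β Ω (Function.update T r (some x)) =
      av w0 (fun w => ind (mt β T w) * S w x) / ms w0 β T := fun x =>
    (h2 V E B w0 d β Ω T r x hd hr).2 ((h2 V E B w0 d β Ω T r x hd hr).1.2 ⟨hms, hnp x⟩)
  have hw : ∀ w, Deg w d → mt β T w →
      avg (fun ξ => S w (g ξ)) ≤ avg (fun ξ => S w (f ξ)) + 4 / L := by
    intro w hw hm
    let Z := {σ : V → Bool // σ ∈ Ω ∧ HH (sT T) 0 w σ = mxH Ω (sT T) 0 w}
    let ω : E × Bool → Z → Bool := fun a σ => σ.1 (w a)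
    let ν : (Z → Bool) → Z → Bool := fun y σ => !y σ
    let R : B × B × Bool → ℝ := fun x => (∑ a ∈ pl β T w x.1, ∑ a' ∈ pl β T w x.2.1,
      ind (ω a = if x.2.2 then ν (ω a') else ω a'))
        / ((pl β T w x.1).card * (pl β T w x.2.1).card)
    have hF : avg (fun ξ => R (f ξ)) ≤ avg fun ξ => R (g ξ) :=
      h5 B (E × Bool) (Z → Bool) Ξ (pl β T w) ω ν f g (fun y => funext fun σ => by simp [ν]) hq
    have hc := fun b => h1 V E B w d β T b hw hm
    have hS : ∀ x, |S w x - (mxH Ω (sT T) 0 w + 1 - 2 * R x)| ≤ 2 / L := fun x => by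
      have k := Hyb.key (pl β T w x.1) (pl β T w x.2.1) (x.1 = x.2.1) (fun h => by rw [h])
        (fun h a ha ha' => h (by
          simp only [pl, mem_filter] at ha ha'
          exact ha.2.2.symm.trans ha'.2.2)) hL ((hb _).trans_eq (hc _).symm)
        ((hb _).trans_eq (hc _).symm) (fun a a' => ω a = if x.2.2 then ν (ω a') else ω a')
        (mxH Ω (sT T) 0 w)
      convert k using 4
      · refine sum_congr rfl fun a _ => sum_congr rfl fun a' _ => ?_
        rw [h4 V E Ω (sT T) w x.2.2 (w a) (w a') hΩ (sT_cases T)]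
        congr 2
        refine ind_congr ⟨fun h => funext fun σ => ?_, fun h σ a1 a2 => ?_⟩
        · have := h σ.1 σ.2.1 σ.2.2
          cases hx : x.2.2 <;> simpa [hx, ω, ν] using this
        · have := congrFun h ⟨σ, a1, a2⟩
          cases hx : x.2.2 <;> simpa [hx, ω, ν] using this
      · rw [np, hc, hc]
    have a1 : avg (fun ξ => S w (g ξ)) ≤
        avg fun ξ => mxH Ω (sT T) 0 w + 1 + 2 / L - 2 * R (g ξ) :=
      avg_mono fun ξ => by linarith [abs_le.1 (hS (g ξ))]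
    have a2 : avg (fun ξ => mxH Ω (sT T) 0 w + 1 - 2 / L - 2 * R (f ξ)) ≤
        avg fun ξ => S w (f ξ) :=
      avg_mono fun ξ => by linarith [abs_le.1 (hS (f ξ))]
    rw [avg_sub, avg_const, avg_mul] at a1 a2
    have : 4 / L = 2 / L + 2 / L := by ring
    linarith
  have hc : ∀ k : Ξ → B × B × Bool,
      avg (fun ξ => Phi w0 β Ω (Function.update T r (some (k ξ)))) =
        av w0 (fun w => ind (mt β T w) * avg fun ξ => S w (k ξ)) / ms w0 β T := fun k => by
    simp only [hP, avg_div, ← avg_mul]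
    exact congrArg (· / _) (avg_comm fun ξ (π : Perm (E × Bool)) =>
      ind (mt β T (w0 ∘ π)) * S (w0 ∘ π) (k ξ))
  rw [hc, hc, div_add' _ _ _ hms.ne', div_le_div_iff_of_pos_right hms, ms, ← av_mul, ← av_add]
  refine av_mono_deg hd fun w hw' => ?_
  by_cases hm : mt β T w
  · rw [ind_pos hm]
    linarith [hw w hw' hm]
  · simp [ind_neg hm]

end Pool.Agent.MP_32a90a_pr.D.AZ

end

section

set_option autoImplicit false

namespace Pool.Agent.MP_32a90a_pr.D.AZ

open Finset Equiv Filter Pool.Agent.MP_32a90a_pr Pool.Agent.MP_32a90a_pr.L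

namespace Int

lemma num {d p0 η : ℝ} (hd : 1 ≤ d) (hp : 0 < p0) (hη : 0 < η) :
    ∃ e1 e2 N0 : ℝ, 0 < e1 ∧ e1 ≤ 1 / 4 ∧ 0 < e2 ∧ e2 ≤ e1 * p0 ∧ ∀ N : ℝ, N0 ≤ N →
      1 ≤ N ∧ 2 ≤ e2 * N ∧ ∀ e b u : ℝ, 2 * e = d * N → 0 ≤ b → b * p0 ≤ 1 → u ≤ e1 * N + 1 →
        (u + 8 * b ^ 2 * (e2 * N + 1) + 40 * e * b ^ 2 * Real.exp (-((e2 * N) ^ 2 / (256 * e))))
          + e * (4 / (e2 * N) + 4 * e * b * Real.exp (-((e2 * N) ^ 2 / (8 * e))))
          + (4 * u + 8 * b ^ 2 * (e2 * N + 1)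
            + 40 * e * b ^ 2 * Real.exp (-((e2 * N) ^ 2 / (256 * e)))) ≤ η * N := by
  obtain ⟨e1, a0, a1, a2⟩ : ∃ e1 : ℝ, 0 < e1 ∧ e1 ≤ 1 / 4 ∧ e1 ≤ η / 20 :=
    ⟨min (1 / 4) (η / 20), by positivity, min_le_left _ _, min_le_right _ _⟩
  obtain ⟨e2, b0, b1, b2⟩ : ∃ e2 : ℝ, 0 < e2 ∧ e2 ≤ e1 * p0 ∧ e2 ≤ η * p0 ^ 2 / 100 :=
    ⟨min (e1 * p0) (η * p0 ^ 2 / 100), by positivity, min_le_left _ _, min_le_right _ _⟩
  obtain ⟨K, hK0, hK⟩ : ∃ K : ℝ, 0 < K ∧ K * p0 = 1 := ⟨1 / p0, by positivity, by field_simp⟩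
  obtain ⟨c, hc0, hc⟩ : ∃ c : ℝ, 0 < c ∧ c * (128 * d) = e2 ^ 2 :=
    ⟨e2 ^ 2 / (128 * d), by positivity, by field_simp⟩
  obtain ⟨M, hM0, hM⟩ : ∃ M : ℝ, 0 < M ∧ M * c ^ 2 = 2 := ⟨2 / c ^ 2, by positivity, by field_simp⟩
  obtain ⟨C, hC⟩ : ∃ C : ℝ, C = 5 + 16 * K ^ 2 + 2 * d / e2 + 40 * d * K ^ 2 * M + d ^ 2 * K * M :=
    ⟨_, rfl⟩
  refine ⟨e1, e2, max 1 (max (2 / e2) (2 * C / η)), a0, a1, b0, b1, fun N hN => ?_⟩
  simp only [max_le_iff] at hN
  obtain ⟨n1, n2, n3⟩ := hN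
  rw [div_le_iff₀ b0] at n2
  rw [div_le_iff₀ hη] at n3
  refine ⟨n1, by linarith, fun e b u he hb hbp hu => ?_⟩
  have hN0 : 0 < N := by linarith
  have he0 : 0 < e := by nlinarith
  have hbK : b ≤ K := le_of_mul_le_mul_right (by linarith) hp
  have hb2 : b ^ 2 ≤ K ^ 2 := by gcongr
  have hx : (e2 * N) ^ 2 / (256 * e) = c * N := by
    rw [div_eq_iff (by positivity), mul_pow, ← hc]
    linear_combination (-128 * c * N) * he
  have hY : Real.exp (-((e2 * N) ^ 2 / (8 * e))) ≤ Real.exp (-(c * N)) := by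
    rw [← hx]
    refine Real.exp_le_exp.2 (neg_le_neg ?_)
    gcongr
    norm_num
  rw [hx]
  have hX : Real.exp (-(c * N)) * N ^ 2 ≤ M := by
    have h1 := Real.quadratic_le_exp_of_nonneg (x := c * N) (by positivity)
    have h2 : (c * N) ^ 2 / 2 ≤ Real.exp (c * N) := by nlinarith [mul_pos hc0 hN0]
    rw [Real.exp_neg, inv_mul_le_iff₀ (Real.exp_pos _)]
    calc N ^ 2 = (c * N) ^ 2 / 2 * M := by linear_combination (-N ^ 2 / 2) * hM
      _ ≤ _ := by gcongr
  have hX0 := (Real.exp_pos (-(c * N))).le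
  generalize Real.exp (-(c * N)) = X at hX hX0 hY
  generalize Real.exp (-((e2 * N) ^ 2 / (8 * e))) = Y at hY
  have ee : e = d * N / 2 := by linarith
  have t1 : e * b ^ 2 * X ≤ d * K ^ 2 * M / 2 := by
    calc e * b ^ 2 * X = d * b ^ 2 * (X * N) / 2 := by rw [ee]; ring
      _ ≤ d * K ^ 2 * (X * N ^ 2) / 2 := by gcongr; nlinarith
      _ ≤ _ := by gcongr
  have t2 : e * (4 * e * b * Y) ≤ d ^ 2 * K * M := by
    calc e * (4 * e * b * Y) ≤ e * (4 * e * b * X) := by gcongr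
      _ = d ^ 2 * b * (X * N ^ 2) := by rw [ee]; ring
      _ ≤ _ := by gcongr
  have t3 : e * (4 / (e2 * N)) = 2 * d / e2 := by rw [ee]; field_simp; ring
  have t4 : b ^ 2 * (e2 * N + 1) ≤ η * N / 100 + K ^ 2 := by
    calc b ^ 2 * (e2 * N + 1) ≤ K ^ 2 * (η * p0 ^ 2 / 100 * N + 1) := by gcongr
      _ = (K * p0) ^ 2 * (η * N / 100) + K ^ 2 := by ring
      _ = _ := by rw [hK]; ring
  have t5 : e1 * N ≤ η / 20 * N := by gcongr
  have t6 : 0 < η * N := by positivity
  rw [mul_add e, t3]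
  nlinarith

variable {E B : Type} [Fintype E] [Nonempty E]

omit [Nonempty E] in
lemma avg3 (F : E × E × Bool → ℝ) :
    avg F = avg fun a => avg fun a' => (F (a, a', true) + F (a, a', false)) / 2 := by
  rw [avg_prod]
  refine avg_congr fun a => ?_
  rw [avg_prod]
  exact avg_congr fun a' => avg_bool _

lemma qf_jt (γ : E → B) (f : Bool) (x y : B → ℝ) :
    avg (fun ξ => qf x y (jt γ f ξ))
      = avg (fun i => x (γ i)) ^ 2 - (if f then 1 else 0) * avg (fun i => y (γ i)) ^ 2 := by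
  rw [avg3]
  have : ∀ a a', (qf x y (jt γ f (a, a', true)) + qf x y (jt γ f (a, a', false))) / 2
      = x (γ a) * x (γ a') - (if f then 1 else 0) * (y (γ a) * y (γ a')) := fun a a' => by
    cases f <;> simp [qf, jt]
  simp only [this, avg_sub, avg_mul, avg_mul_right, sq]

lemma qf_st [DecidableEq E] (γ : E → B) (A F : Finset E) (x y : B → ℝ) :
    avg (fun ξ => qf x y (st γ A F ξ))
      = avg (fun i => x (γ i) ^ 2) - avg fun i => cm A F i * y (γ i) ^ 2 := by
  rw [avg3]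
  have : ∀ a a', (qf x y (st γ A F (a, a', true)) + qf x y (st γ A F (a, a', false))) / 2
      = x (γ a) ^ 2 - cm A F a * y (γ a) ^ 2 := fun a a' => by
    simp only [qf, st, jj, cm]
    split_ifs <;> simp <;> ring
  simp only [this, avg_const, avg_sub]

lemma mul_avg (γ : E → B) (b : B) :
    (Fintype.card E : ℝ) * avg (fun i => ind (γ i = b)) = nx γ b := by
  have : (0 : ℝ) < Fintype.card E := by exact_mod_cast Fintype.card_pos
  rw [avg, nx, mul_div_cancel₀ _ this.ne']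

lemma ct_jt (γ : E → B) (f : Bool) (b : B) :
    (Fintype.card E : ℝ) * avg (fun ξ => ct b (some (jt γ f ξ))) = 2 * nx γ b := by
  rw [avg3, ← mul_avg]
  simp only [ct, jt, Option.elim, add_self_div_two, avg_add, avg_const]
  ring

lemma ct_st [DecidableEq E] (γ : E → B) (A F : Finset E) (b : B) :
    (Fintype.card E : ℝ) * avg (fun ξ => ct b (some (st γ A F ξ))) = 2 * nx γ b := by
  rw [avg3, ← mul_avg]
  simp only [ct, st, Option.elim, add_self_div_two, avg_add, avg_const]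
  ring

end Int

theorem zInt (h1 : ZProd) (h2 : ZSplitE) (h3 : ZChain) (h4 : ZJoint) : ZInt := by
  intro d p0 η hd hp hη
  have hd' : (1 : ℝ) ≤ d := by exact_mod_cast hd
  obtain ⟨e1, e2, N0, a0, a1, b0, b1, hnum⟩ := Int.num hd' hp hη
  refine ⟨⌈N0⌉₊, fun B _ _ Vb Eb _ _ _ _ wb A F f Ω hw hN hb hΩ hq => ?_⟩
  obtain ⟨n1, n2, n3⟩ := hnum _ (Nat.ceil_le.1 hN)
  have hdeg := sg_deg hw
  have he := card_half hdeg
  have hB : (Fintype.card B : ℝ) * p0 ≤ 1 := by
    have h := sum_le_sum fun b (_ : b ∈ univ) => hb b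
    rw [← Nat.cast_sum, ← Fintype.card_sigma, sum_const, card_univ, nsmul_eq_mul] at h
    refine le_of_mul_le_mul_right ?_ (zero_lt_one.trans_le n1)
    linarith
  generalize hN' : (Fintype.card (Σ b, Vb b) : ℝ) = N at *
  have hN0 : 0 < N := by linarith
  have hE : (0 : ℝ) < Fintype.card (Σ b, Eb b) := by nlinarith
  have : Nonempty (Σ b, Eb b) := Fintype.card_pos_iff.1 (by exact_mod_cast hE)
  obtain ⟨U, -, hU⟩ := exists_subset_card_eq (s := (univ : Finset (Σ b, Eb b))) (n := ⌈e1 * N⌉₊)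
    (by rw [card_univ, Nat.ceil_le]; nlinarith)
  have u1 : e1 * N ≤ U.card := by rw [hU]; exact Nat.le_ceil _
  have u2 : (U.card : ℝ) ≤ e1 * N + 1 := by rw [hU]; exact (Nat.ceil_lt_add_one (by positivity)).le
  have hx : ∀ b, 2 * nx (Sigma.fst : (Σ b, Eb b) → B) b = d * nx (Sigma.fst : (Σ b, Vb b) → B) b :=
    fun b => by rw [nx_fst, nx_fst, card_half (hw b)]
  have hL : ∀ b, (e2 * N + e2 * N) * Fintype.card (Σ b, Eb b)
      ≤ U.card * (d * nx (Sigma.fst : (Σ b, Vb b) → B) b) := fun b => by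
    rw [nx_fst]
    calc _ = e2 * (d * N ^ 2) := by linear_combination (e2 * N) * he
      _ ≤ e1 * p0 * (d * N ^ 2) := by gcongr
      _ = e1 * N * (d * (p0 * N)) := by ring
      _ ≤ _ := by gcongr; exact hb b
  have ht : 0 ≤ e2 * N := by positivity
  have hL' : ∀ b, e2 * N * Fintype.card (Σ b, Eb b)
      ≤ U.card * (d * nx (Sigma.fst : (Σ b, Vb b) → B) b) := fun b =>
    le_trans (by nlinarith [mul_nonneg ht hE.le]) (hL b)
  have s2 := h2 _ _ B (sg wb) d Sigma.fst Sigma.fst Ω U A F _ hdeg hΩ ht hx hL'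
  have s3 := h3 _ _ B _ (sg wb) d Sigma.fst Ω U (jt Sigma.fst f) (st Sigma.fst A F) _ _ hdeg hΩ n2
    ht (fun x y => by
      rw [Int.qf_jt, Int.qf_st]
      linarith [hq y, sq_avg_le fun i : Σ b, Eb b => x i.1])
    (fun b => by rw [Int.ct_jt, hx]) (fun b => by rw [Int.ct_st, hx]) hL
  have s4 := h4 _ _ B (sg wb) d Sigma.fst Sigma.fst Ω U f _ hdeg hΩ ht hx hL'
  have s5 := n3 _ _ _ he (Nat.cast_nonneg _) hB u2
  rw [h1]
  linarith

end Pool.Agent.MP_32a90a_pr.D.AZ

end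

section

set_option autoImplicit false

namespace Pool.Agent.MP_32a90a_pr.D.AZ

open Finset Equiv Filter Pool.Agent.MP_32a90a_pr Pool.Agent.MP_32a90a_pr.L

namespace Mono

section
variable {V E : Type} [Fintype V] [DecidableEq V] [Fintype E] [DecidableEq E]
  {w0 : E × Bool → V} {Ω : Finset (V → Bool)} {U : Finset E}

/-- raising the couplings on a set of slots, one slot at a time -/
lemma chain (h : ZStep0) (hΩ : Ω.Nonempty) (hU : 1 ≤ U.card) (s' : E → ℝ) (D : Finset E) :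
    ∀ s : E → ℝ, (∀ i, s i = 0 ∨ s i = 1 ∨ s i = -1) → (∀ i ∈ U, s i = 0) →
      (∀ i, i ∉ D → s i = s' i) → (∀ i, s i = s' i ∨ (s i = -1 ∧ s' i = 1)) →
      av w0 (mxH Ω s 0) ≤ av w0 (mxH Ω s' 0) + 2 / (U.card : ℝ) * D.card := by
  have hu : 0 ≤ 2 / (U.card : ℝ) := by positivity
  induction D using Finset.induction_on with
  | empty =>
    intro s _ _ h3 _
    rw [show s = s' from funext fun i => h3 i (by simp)]
    simp
  | insert k D hk ih =>
    intro s h1 h2 h3 h4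
    rw [card_insert_of_notMem hk, Nat.cast_add, Nat.cast_one, mul_add, mul_one]
    rcases h4 k with e | ⟨e, e'⟩
    · have := ih s h1 h2 (fun i hi => by
        by_cases hik : i = k
        · rw [hik]; exact e
        · exact h3 i (by simp [hik, hi])) h4
      linarith
    · have hkU : k ∉ U := fun hk' => by
        have := h2 k hk'
        linarith
      have a := h V E w0 Ω U (Function.update s k 0) k hΩ hU
        (fun i => by
          by_cases hik : i = k
          · rw [hik]; simp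
          · rw [Function.update_of_ne hik]; exact h1 i)
        (fun i hi => by
          rw [Function.update_of_ne (by rintro rfl; exact hkU hi)]; exact h2 i hi)
        (by simp) hkU
      rw [Function.update_idem, Function.update_idem, ← e, Function.update_eq_self] at a
      have b := ih (Function.update s k 1)
        (fun i => by
          by_cases hik : i = k
          · rw [hik]; simp
          · rw [Function.update_of_ne hik]; exact h1 i)
        (fun i hi => by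
          rw [Function.update_of_ne (by rintro rfl; exact hkU hi)]; exact h2 i hi)
        (fun i hi => by
          by_cases hik : i = k
          · rw [hik, e']; simp
          · rw [Function.update_of_ne hik]; exact h3 i (by simp [hik, hi]))
        (fun i => by
          by_cases hik : i = k
          · rw [hik, e']; simp
          · rw [Function.update_of_ne hik]; exact h4 i)
      linarith

omit [Fintype E] in
lemma cp_le {A A' F F' : Finset E} (hA : A ⊆ A') (hF : F' ⊆ F) (J : E → Bool) (i : E) :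
    cp U A' F' J i = cp U A F J i ∨ (cp U A' F' J i = -1 ∧ cp U A F J i = 1) := by
  have h1 : i ∈ A → i ∈ A' := fun h => hA h
  have h2 : i ∈ F' → i ∈ F := fun h => hF h
  unfold cp
  cases J i <;> split_ifs <;> simp_all

lemma idle (h : ZStep0) (hΩ : Ω.Nonempty) (hU : 1 ≤ U.card) {A A' F F' : Finset E}
    (hA : A ⊆ A') (hF : F' ⊆ F) :
    VV w0 U A' F' 0 Ω ≤ VV w0 U A F 0 Ω + 2 / (U.card : ℝ) * Fintype.card E := by
  unfold VV
  rw [ED_comm, ED_comm, ← avg_const (α := E → Bool) (2 / (U.card : ℝ) * Fintype.card E),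
    ← avg_add]
  refine avg_mono fun J => ?_
  exact chain h hΩ hU (cp U A F J) univ (cp U A' F' J) (cp_cases U A' F' J)
    (fun i hi => by simp [cp, hi]) (fun i hi => absurd (mem_univ i) hi) (cp_le hA hF J)

end

lemma sqrt_ev (d : ℕ) {η : ℝ} (hη : 0 < η) :
    ∀ᶠ k : ℕ in atTop, d * Real.sqrt (2 * k) ≤ η * (2 * k) := by
  filter_upwards [eventually_ge_atTop ⌈(d / η) ^ 2⌉₊] with k hk
  have h1 : (d / η) ^ 2 ≤ (k : ℝ) := Nat.ceil_le.1 hk
  have h0 : (0 : ℝ) ≤ k := Nat.cast_nonneg k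
  have h2 : d / η ≤ Real.sqrt (2 * k) := Real.le_sqrt_of_sq_le (by linarith)
  rw [div_le_iff₀ hη] at h2
  have h3 := Real.mul_self_sqrt (show (0 : ℝ) ≤ 2 * k by linarith)
  have h4 := mul_le_mul_of_nonneg_right h2 (Real.sqrt_nonneg (2 * k))
  nlinarith

end Mono

theorem zMono (h : ZStep0) : ZMono := by
  intro d η hd hη
  obtain ⟨u, hu1, hu2⟩ : ∃ u : ℕ, 1 ≤ u ∧ 2 * d / η ≤ u :=
    ⟨⌈2 * d / η⌉₊ + 1, by omega, (Nat.le_ceil _).trans (by push_cast; linarith)⟩
  refine ⟨max (2 * u) ⌈4 * u / η⌉₊, fun V E _ _ _ _ w0 hw hN A A' F F' Ω hA hF hΩ => ?_⟩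
  have hN1 : (2 * u : ℝ) ≤ Fintype.card V := by exact_mod_cast le_of_max_le_left hN
  have hN2 : 4 * u / η ≤ Fintype.card V := Nat.ceil_le.1 (le_of_max_le_right hN)
  have hE := card_half hw
  have hd' : (1 : ℝ) ≤ d := by exact_mod_cast hd
  have hu0 : (0 : ℝ) < u := by exact_mod_cast hu1
  have hV : (0 : ℝ) ≤ Fintype.card V := Nat.cast_nonneg _
  have huE : u ≤ (univ : Finset E).card := by
    rw [card_univ]
    have : (u : ℝ) ≤ Fintype.card E := by nlinarith
    exact_mod_cast this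
  obtain ⟨U, -, hU⟩ := exists_subset_card_eq huE
  have a1 := (VV_idle (w0 := w0) (U := U) (A := A') (F := F') (B := 0) hΩ).2
  have a2 := Mono.idle (w0 := w0) (U := U) h hΩ (hU ▸ hu1) hA hF
  have a3 := (VV_idle (w0 := w0) (U := U) (A := A) (F := F) (B := 0) hΩ).1
  rw [hU] at a1 a2 a3
  rw [div_le_iff₀ hη] at hu2 hN2
  have a4 : 2 / (u : ℝ) * Fintype.card E ≤ η / 2 * Fintype.card V := by
    rw [div_mul_eq_mul_div, hE, div_le_iff₀ hu0]
    nlinarith
  linarith

theorem zA6 (h1 : ZMono) (h2 : ZGauge) : ZA6 := by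
  intro d η hd hη
  have hη3 : 0 < η / 3 := by positivity
  have ev : ∀ k : ℕ, Even (Fintype.card (Fin (2 * k))) := fun k => by
    rw [Fintype.card_fin]; exact even_two_mul k
  have cd : ∀ k : ℕ, (Fintype.card (Fin (2 * k)) : ℝ) = 2 * k := fun k => by
    rw [Fintype.card_fin]; push_cast; rfl
  refine ⟨?_, fun γ hγ => ?_⟩
  · filter_upwards [big_cw (h1 d η hd hη)] with k hk A
    have a1 := hk k le_rfl A univ ∅ ∅ _ (subset_univ A) Subset.rfl (magSet_zero_nonempty (ev k))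
    have a2 := VV_mono (w0 := cw d k) (U := ∅) (A := A) (F := ∅) (B := 0)
      (magSet_zero_nonempty (ev k)) (subset_univ _)
    rw [cd] at a1
    unfold af
    linarith
  · filter_upwards [big_cw (h1 d _ hd hη3), hγ, Mono.sqrt_ev d hη3] with k hk hf hs A
    have a1 := hk k le_rfl ∅ A ∅ ∅ univ (empty_subset A) Subset.rfl univ_nonempty
    have a2 := h2 _ _ (cw d k) d (cw_deg d k) (ev k)
    have a3 := hk k le_rfl ∅ ∅ univ ∅ _ Subset.rfl (empty_subset _) (magSet_zero_nonempty (ev k))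
    rw [cd] at a1 a2 a3
    unfold fe at hf
    linarith

end Pool.Agent.MP_32a90a_pr.D.AZ

end

section

set_option autoImplicit false
set_option linter.unusedSectionVars false

namespace Pool.Agent.MP_32a90a_pr.D.AZ

open Finset Equiv Filter Pool.Agent.MP_32a90a_pr Pool.Agent.MP_32a90a_pr.L

namespace Win
variable {V E : Type} [Fintype V] [DecidableEq V] [Fintype E] [DecidableEq E]

lemma lip_swap {Ω : Finset (V → Bool)} (hΩ : Ω.Nonempty) (B : ℝ) (w : E × Bool → V)
    (J : E → Bool) (a b : E × Bool) :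
    |lzH Ω 1 (cp ∅ ∅ ∅ J) B (w ∘ swap a b) - lzH Ω 1 (cp ∅ ∅ ∅ J) B w| ≤ 4 := by
  have k := fun σ => abs_le.1 (HH_swap (B := B) (w := w) (abs_cp_le ∅ ∅ ∅ J) a b σ)
  have h1 : lzH Ω 1 (cp ∅ ∅ ∅ J) B (w ∘ swap a b) ≤ lzH Ω 1 (cp ∅ ∅ ∅ J) B w + 4 :=
    lzH_le_add hΩ fun σ _ => by linarith [(k σ).2]
  have h2 : lzH Ω 1 (cp ∅ ∅ ∅ J) B w ≤ lzH Ω 1 (cp ∅ ∅ ∅ J) B (w ∘ swap a b) + 4 :=
    lzH_le_add hΩ fun σ _ => by linarith [(k σ).1]
  rw [abs_le]
  constructor <;> linarith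

lemma lip_off {Ω : Finset (V → Bool)} (hΩ : Ω.Nonempty) (B : ℝ) (w : E × Bool → V)
    (J J' : E → Bool) (i : E) (h : ∀ k, k ≠ i → J k = J' k) :
    lzH Ω 1 (cp ∅ ∅ ∅ J) B w ≤ lzH Ω 1 (cp ∅ ∅ ∅ J') B w + 4 := by
  refine lzH_le_add hΩ fun σ _ => ?_
  have := HH_le_of_eq_off (B := B) (w := w) (s := cp ∅ ∅ ∅ J) (s' := cp ∅ ∅ ∅ J') (c := 2) {i}
    (fun k hk => by simp [cp, h k (by simpa using hk)])
    (fun k _ => (abs_sub _ _).trans (by linarith [abs_cp_le ∅ ∅ ∅ J k, abs_cp_le ∅ ∅ ∅ J' k])) σ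
  rw [card_singleton] at this
  push_cast at this
  linarith

lemma lip_upd {Ω : Finset (V → Bool)} (hΩ : Ω.Nonempty) (B : ℝ) (w : E × Bool → V)
    (J : E → Bool) (i : E) (b : Bool) :
    |lzH Ω 1 (cp ∅ ∅ ∅ (Function.update J i b)) B w - lzH Ω 1 (cp ∅ ∅ ∅ J) B w| ≤ 4 := by
  have h1 := lip_off hΩ B w (Function.update J i b) J i fun k hk => Function.update_of_ne hk _ _
  have h2 := lip_off hΩ B w J (Function.update J i b) i fun k hk =>
    (Function.update_of_ne hk _ _).symm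
  rw [abs_le]
  constructor <;> linarith

/-- one point of the disorder where all free energies are close to their means -/
lemma good [Nonempty E] (h : StConc) (w0 : E × Bool → V) (T : Finset (Finset (V → Bool)))
    (hT : ∀ Ω ∈ T, Ω.Nonempty) (B : ℝ) {t : ℝ} (ht : 0 ≤ t)
    (hs : T.card * (4 * Real.exp (-(t ^ 2 / (64 * 4 ^ 2 * Fintype.card E)))) < 1) :
    ∃ (w : E × Bool → V) (J : E → Bool), ∀ Ω ∈ T,
      |lzH Ω 1 (cp ∅ ∅ ∅ J) B w - FF w0 ∅ ∅ ∅ 1 B Ω| < t := by
  by_contra hn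
  push Not at hn
  have h1 : (1 : ℝ) ≤ ED w0 fun w J => ∑ Ω ∈ T,
      ind (t ≤ |lzH Ω 1 (cp ∅ ∅ ∅ J) B w - FF w0 ∅ ∅ ∅ 1 B Ω|) := const_le_ED fun w J => by
    obtain ⟨Ω, hΩ, e⟩ := hn w J
    exact (ind_pos e).symm.trans_le (single_le_sum
      (f := fun Ω => ind (t ≤ |lzH Ω 1 (cp ∅ ∅ ∅ J) B w - FF w0 ∅ ∅ ∅ 1 B Ω|))
      (fun _ _ => ind_nonneg _) hΩ)
  rw [ED_sum] at h1
  have h2 := sum_le_card_nsmul T _ _ fun Ω hΩ =>
    h V E w0 (fun w J => lzH Ω 1 (cp ∅ ∅ ∅ J) B w) 4 t (by norm_num) ht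
      (lip_swap (hT Ω hΩ) B) (lip_upd (hT Ω hΩ) B)
  rw [nsmul_eq_mul] at h2
  exact absurd (h1.trans h2) (not_le.2 hs)

lemma cover {x : ℝ} (hx : 0 < x) (hN : (0 : ℝ) < Fintype.card V) (σ : V → Bool) :
    ∃ j : ℕ, j < ⌈2 / x⌉₊ + 1 ∧ -1 + j * x ≤ 1 ∧ σ ∈ win V (-1 + j * x) (-1 + j * x + x) := by
  obtain ⟨m1, m2⟩ := abs_le.1 (abs_mag_le σ)
  set m := mag σ / Fintype.card V with hm
  have a1 : -1 ≤ m := by rw [hm, le_div_iff₀ hN]; linarith
  have a2 : m ≤ 1 := by rw [hm, div_le_iff₀ hN]; linarith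
  have a3 : 0 ≤ (m + 1) / x := div_nonneg (by linarith) hx.le
  have b1 := Nat.floor_le a3
  have b2 := Nat.lt_floor_add_one ((m + 1) / x)
  have b3 : (⌊(m + 1) / x⌋₊ : ℝ) ≤ ⌈2 / x⌉₊ :=
    (b1.trans (div_le_div_of_nonneg_right (by linarith) hx.le)).trans (Nat.le_ceil _)
  rw [le_div_iff₀ hx] at b1
  rw [div_lt_iff₀ hx] at b2
  refine ⟨⌊(m + 1) / x⌋₊, Nat.lt_succ_of_le (by exact_mod_cast b3), by linarith,
    mem_win.2 ⟨?_, ?_⟩⟩
  · rw [← le_div_iff₀ hN, ← hm]
    linarith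
  · rw [← div_le_iff₀ hN, ← hm]
    linarith

lemma pick (S : Finset ℕ) (W : ℕ → Finset (V → Bool)) (hc : ∀ σ, ∃ j ∈ S, σ ∈ W j)
    (hW : ∀ j ∈ S, (W j).Nonempty) {n : ℕ} (hn : S.card ≤ n) (s : E → ℝ) (B : ℝ)
    (w : E × Bool → V) : ∃ j ∈ S, lzH univ 1 s B w ≤ lzH (W j) 1 s B w + Real.log n := by
  obtain ⟨j1, hj1, -⟩ := hc fun _ => true
  obtain ⟨j, hj, hmax⟩ := exists_max_image S
    (fun j => ∑ σ ∈ W j, Real.exp (1 * HH s B w σ)) ⟨j1, hj1⟩
  refine ⟨j, hj, ?_⟩
  have hn0 : (0 : ℝ) < n := by exact_mod_cast (card_pos.2 ⟨j, hj⟩).trans_le hn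
  have hZ := sum_exp_pos (β := 1) (s := s) (B := B) (w := w) (hW j hj)
  unfold lzH
  rw [← Real.log_mul hZ.ne' hn0.ne']
  refine Real.log_le_log (sum_exp_pos univ_nonempty) ?_
  calc ∑ σ, Real.exp (1 * HH s B w σ)
      ≤ ∑ σ, ∑ k ∈ S, if σ ∈ W k then Real.exp (1 * HH s B w σ) else 0 := by
        refine sum_le_sum fun σ _ => ?_
        obtain ⟨k, hk, hσ⟩ := hc σ
        refine (if_pos hσ).symm.trans_le (single_le_sum
          (f := fun k => if σ ∈ W k then Real.exp (1 * HH s B w σ) else 0) (fun k _ => ?_) hk)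
        split_ifs
        · exact (Real.exp_pos _).le
        · exact le_rfl
    _ = ∑ k ∈ S, ∑ σ ∈ W k, Real.exp (1 * HH s B w σ) := by
        rw [sum_comm]
        exact sum_congr rfl fun k _ => by rw [sum_ite_mem, univ_inter]
    _ ≤ S.card • ∑ σ ∈ W j, Real.exp (1 * HH s B w σ) := sum_le_card_nsmul _ _ _ hmax
    _ ≤ _ := by
        rw [nsmul_eq_mul, mul_comm]
        exact mul_le_mul_of_nonneg_left (by exact_mod_cast hn) hZ.le

lemma window (h : StConc) {w0 : E × Bool → V} {d : ℕ} (hd : 1 ≤ d) (hw : Deg w0 d) {x e : ℝ}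
    (hx : 0 < x) (he : 0 < e) (hN : (1 : ℝ) ≤ Fintype.card V)
    (h1 : 4 * ((⌈2 / x⌉₊ + 1 + 1 : ℕ) : ℝ) ≤ e ^ 2 / (8192 * d) * Fintype.card V)
    (h2 : Real.log (⌈2 / x⌉₊ + 1 : ℕ) ≤ e / 2 * Fintype.card V) (B : ℝ) :
    ∃ ν : ℝ, ν ≤ 1 ∧ (win V ν (ν + x)).Nonempty ∧
      FF w0 ∅ ∅ ∅ 1 B univ ≤ FF w0 ∅ ∅ ∅ 1 B (win V ν (ν + x)) + e * Fintype.card V := by
  classical
  have hd' : (1 : ℝ) ≤ d := by exact_mod_cast hd
  have hE := card_half hw
  have hE0 : (0 : ℝ) < Fintype.card E := by nlinarith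
  have : Nonempty E := Fintype.card_pos_iff.1 (by exact_mod_cast hE0)
  set n := ⌈2 / x⌉₊ + 1 with hn
  let W : ℕ → Finset (V → Bool) := fun j => win V (-1 + j * x) (-1 + j * x + x)
  let S := (range n).filter fun j : ℕ => -1 + j * x ≤ 1 ∧ (W j).Nonempty
  have hS : S.card ≤ n := (card_filter_le _ _).trans_eq (card_range n)
  have hc : ∀ σ, ∃ j ∈ S, σ ∈ W j := fun σ => by
    obtain ⟨j, a1, a2, a3⟩ := cover hx (by linarith) σ
    exact ⟨j, mem_filter.2 ⟨mem_range.2 a1, a2, σ, a3⟩, a3⟩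
  obtain ⟨w, J, hg⟩ := good h w0 (insert univ (S.image W)) (fun Ω hΩ => by
    rcases mem_insert.1 hΩ with rfl | hΩ
    · exact univ_nonempty
    · obtain ⟨j, hj, rfl⟩ := mem_image.1 hΩ
      exact (mem_filter.1 hj).2.2) B (t := e * Fintype.card V / 4) (by positivity) (by
    have c1 : ((insert univ (S.image W)).card : ℝ) ≤ (n + 1 : ℕ) := by
      exact_mod_cast (card_insert_le _ _).trans (Nat.succ_le_succ (card_image_le.trans hS))
    have c2 : (e * Fintype.card V / 4) ^ 2 / (64 * 4 ^ 2 * Fintype.card E)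
        = e ^ 2 / (8192 * d) * Fintype.card V := by
      rw [show (Fintype.card E : ℝ) = d * Fintype.card V / 2 by linarith]
      field_simp
      ring
    rw [c2, Real.exp_neg, ← mul_assoc, ← div_eq_mul_inv, div_lt_one (Real.exp_pos _)]
    linarith [Real.add_one_le_exp (e ^ 2 / (8192 * d) * Fintype.card V)])
  obtain ⟨j, hj, hp⟩ := pick S W hc (fun j hj => (mem_filter.1 hj).2.2) hS (cp ∅ ∅ ∅ J) B w
  refine ⟨-1 + j * x, (mem_filter.1 hj).2.1, (mem_filter.1 hj).2.2, ?_⟩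
  have g1 := abs_lt.1 (hg univ (mem_insert_self _ _))
  have g2 := abs_lt.1 (hg (W j) (mem_insert_of_mem (mem_image_of_mem W hj)))
  show _ ≤ FF w0 ∅ ∅ ∅ 1 B (W j) + _
  linarith [g1.1, g2.2]

end Win

theorem zWin (h : StConc) : ZWin := by
  intro d c C x η hd hc hx hη h3 h1
  have hd' : (1 : ℝ) ≤ d := by exact_mod_cast hd
  have he : 0 < η / (2 * d) := by positivity
  have ev : ∀ κ K : ℝ, 0 < κ → ∀ᶠ N : ℕ in atTop, K ≤ κ * N := fun κ K hκ =>
    (tendsto_natCast_atTop_atTop.const_mul_atTop hκ).eventually_ge_atTop K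
  have hb := Big.card d _ ((ev 1 1 one_pos).and
    ((ev ((η / (2 * d)) ^ 2 / (8192 * d)) (4 * ((⌈2 / x⌉₊ + 1 + 1 : ℕ) : ℝ)) (by positivity)).and
      (ev (η / (2 * d) / 2) (Real.log (⌈2 / x⌉₊ + 1 : ℕ)) (by positivity))))
  refine ((h3.and (h1 _ he)).and hb).mono ?_
  rintro V E _ _ _ _ w0 hw ⟨⟨a3, a1⟩, hN, b1, b2⟩ B hB hB1
  rw [one_mul] at hN
  obtain ⟨ν, c1, c2, c3⟩ := Win.window h hd hw hx he hN b1 b2 B
  have hB0 : 0 < B := lt_of_lt_of_le (by positivity) hB
  have c4 : FF w0 ∅ ∅ ∅ 1 B (win V ν (ν + x))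
      ≤ FF w0 ∅ ∅ ∅ 1 0 (win V ν (ν + x)) + B * ((ν + x) * Fintype.card V) :=
    ED_le_add fun w J => lzH_le_add c2 fun σ hσ => by
      have := mul_le_mul_of_nonneg_left (mem_win.1 hσ).2 hB0.le
      unfold HH
      linarith
  have c5 := a3 B hB hB1
  have c6 := a1 ∅ _ (by simp) c2
  have c7 : FF w0 ∅ ∅ ∅ 1 0 (win V ν (ν + x)) ≤ FF w0 ∅ ∅ ∅ 1 0 univ := FF_mono c2 (subset_univ _)
  have c8 : VV w0 ∅ ∅ ∅ 0 univ ≤ FF w0 ∅ ∅ ∅ 1 0 univ := VV_le_FF univ_nonempty
  have e1 : η / (2 * d) ≤ η / 2 := div_le_div_of_nonneg_left hη.le two_pos (by linarith)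
  have e2 : η / (2 * d) ≤ B * η := by
    rw [div_le_iff₀ (by positivity)] at hB ⊢
    nlinarith
  have e3 : c * B ^ 2 * Fintype.card V / (Real.sqrt d * ell d ^ 2)
      = B * Fintype.card V * (c * B / (Real.sqrt d * ell d ^ 2)) := by ring
  have e4 : 0 ≤ c * B ^ 2 * Fintype.card V / (Real.sqrt d * ell d ^ 2) := by positivity
  have e5 := mul_le_mul_of_nonneg_right e1 (Nat.cast_nonneg (α := ℝ) (Fintype.card V))
  have e6 := mul_le_mul_of_nonneg_right e2 (Nat.cast_nonneg (α := ℝ) (Fintype.card V))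
  refine ⟨ν, ?_, c1, c2, by linarith⟩
  rw [e3] at c5
  refine le_of_mul_le_mul_left ?_ (show 0 < B * (Fintype.card V : ℝ) by positivity)
  linarith

end Pool.Agent.MP_32a90a_pr.D.AZ

end

section

set_option autoImplicit false

namespace Pool.Agent.MP_32a90a_pr.D.ZAll

open AZ

theorem bConc : StConc :=
  zConc
theorem bCmp : ZCmp :=
  zCmp
theorem bForm : ZForm :=
  zForm
theorem bGain : ZGain :=
  zGain
theorem bGauge : ZGauge :=
  zGauge
theorem bHoef : ZHoef :=
  zHoef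
theorem bKer : ZKer :=
  zKer
theorem bLay : ZLay :=
  zLay
theorem bMatch : ZMatch :=
  zMatch
theorem bMax : ZMax :=
  zMax
theorem bNum : AZ.ZNum :=
  zNum
theorem bPl : ZPl :=
  zPl
theorem bPool : ZPool :=
  zPool bHoef
theorem bProd : ZProd :=
  zProd
theorem bRigD : ZRigD :=
  zRigD
theorem bRigG : ZRigG :=
  zRigG
theorem bRigP : ZRigP :=
  zRigP
theorem bRigU : ZRigU :=
  zRigU bRigD bRigG bRigP
theorem bSeq : ZSeq :=
  zSeq
theorem bSplit : ZSplit :=
  zSplit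
theorem bStep0 : ZStep0 :=
  zStep0 bMax
theorem bStep2 : ZStep2 :=
  zStep2
theorem bTow : ZTow :=
  zTow
theorem bTrans : ZTrans :=
  zTrans
theorem bTwo : ZTwo :=
  zTwo
theorem bTypJ : ZTypJ :=
  zTypJ bConc
theorem bWin : ZWin :=
  zWin bConc
theorem bB1w : StB1w :=
  zB1w bLay bRigU GAll.typ
theorem bB1m : ZB1m :=
  zB1m bB1w
theorem bEx : ZEx :=
  zEx bPl
theorem bFeas : ZFeas :=
  zFeas bEx
theorem bHyb : ZHyb :=
  zHyb bPl bEx bFeas bMax bForm
theorem bLip : ZLip :=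
  zLip bPl bEx
theorem bMono : ZMono :=
  zMono bStep0
theorem bA6 : ZA6 :=
  zA6 bMono bGauge
theorem bBlk2 : ZBlk2 :=
  zBlk2 bA6
theorem bChain : ZChain :=
  zChain bHyb bPool
theorem bCnt : ZCnt :=
  zCnt bLip bMatch
theorem bJoint : ZJoint :=
  zJoint bFeas bCnt bHoef bPool bCmp bTow bTypJ
theorem bSplitE : ZSplitE :=
  zSplitE bFeas bCnt bHoef bPool bCmp
theorem bInt : ZInt :=
  zInt bProd bSplitE bChain bJoint
theorem bMerge : ZMerge :=
  zMerge bInt bSplit
theorem bBlk1 : ZBlk1 :=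
  zBlk1 bWin bA6 bMerge
theorem bGlue : ZGlue :=
  zGlue bInt bSplit
theorem bZ : ZZ :=
  zZ bGlue bSeq
theorem bFin : StFinal :=
  zFin bB1m bKer bStep2 bTwo bGain bNum bBlk1 bBlk2 bZ bTrans

open Filter in
open Classical in
/-- the reduction of Part 1 for every large even degree, with explicit constants -/
theorem strong (hP : StPhi) (h3 : StB3) : ∀ᶠ d : ℕ in atTop, Even d → ∃ᶠ k : ℕ in atTop,
    (1 / 2 : ℝ) < ({G : SimpleGraph (Fin (2 * k)) | G.IsRegularOfDegree d ∧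
          Real.exp (-((d : ℝ) ^ 2)) / 2 < |sSup (vals G) + sInf (vals G)|}.ncard : ℝ)
        / ({G : SimpleGraph (Fin (2 * k)) | G.IsRegularOfDegree d}.ncard : ℝ) := by
  obtain ⟨c3, hc3, h3⟩ := h3
  obtain ⟨C, hC, hB⟩ := bB1m
  obtain ⟨K, hK1, hK⟩ := bKer
  have hc : 0 < 1 / (16 * K) := by positivity
  filter_upwards [hP, h3, hB, bNum c3 C _ hc3 hC (half_pos hc)] with d p1 p2 p3 p4 he
  have hd : 1 ≤ d := le_trans (by norm_num) p4.1
  have hg := bGain _ hc (bTwo K hK1 (bStep2 K hK1 hK)) d hd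
  have hq : 0 < qq d ^ 4 / 2 := half_pos (pow_pos (Real.exp_pos _) 4)
  have hE : Real.exp (-((d : ℝ) ^ 2)) = qq d ^ 4 := by
    rw [qq, ← Real.exp_nat_mul]
    congr 1
    push_cast
    ring
  rw [hE]
  refine bTrans d _ hd hq fun hH => ?_
  exact bZ c3 C _ d hC (half_pos hc) p4 (bBlk1 c3 C _ d hc3 hC (half_pos hc) p4 (p2 he) p3 hg)
    (bBlk2 c3 C _ d hC (half_pos hc) p4 (p1 he) p3 hg hH) hH

end Pool.Agent.MP_32a90a_pr.D.ZAll

end
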