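import Pool.Agent.Mg.F32a90ap.Gad1de9

set_option autoImplicit false

namespace Pool.Agent.MP_32a90a_pr.D

open Finset Filter Pool.Agent.MP_32a90a_pr Pool.Agent.MP_32a90a_pr.L

namespace YstepJ

/-- a bound valid for every choice of the reference holds after averaging the reference -/
lemma choice {G0 Γ Sg : Type} [Fintype G0] [Fintype Γ] [Fintype Sg] [Nonempty Sg]
    (C : Cas Sg (G0 × Γ)) (μ : G0 → Sg → ℝ) (hμ : ∀ g, Prob (μ g))
    (ψ : G0 × Γ → Sg → Sg → ℝ) (K : ℝ)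
    (h : ∀ rc : G0 → Sg, C.E (fun g σ => ψ g σ (rc g.1)) ≤ K) :
    C.E (fun g σ => Ex (μ g.1) (ψ g σ)) ≤ K := by
  let T : G0 → Sg → ℝ := fun g0 r => ∑ γ, ∑ σ, C.wt (g0, γ) σ * ψ (g0, γ) σ r
  have hex : ∀ g0, ∃ r0, ∀ r, T g0 r ≤ T g0 r0 := fun g0 => Finite.exists_max (T g0)
  choose rc hrc using hex
  refine le_trans ?_ (h rc)
  simp only [Cas.E, Fintype.sum_prod_type]
  refine sum_le_sum fun g0 _ => ?_
  have e : ∑ γ, ∑ σ, C.wt (g0, γ) σ * Ex (μ g0) (ψ (g0, γ) σ) = Ex (μ g0) (T g0) := by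
    simp only [T, Ex_sum, Ex_mul]
  rw [e]
  exact (hμ g0).Ex_le (hrc g0)

lemma one {π v e ε : ℝ} (hπ : |π - 1| ≤ ε) (hv : |v - 1| ≤ e) :
    π * v ≤ v + ε * e + (π - 1) := by
  have h1 : (π - 1) * (v - 1) ≤ ε * e := by
    refine (le_abs_self _).trans ?_
    rw [abs_mul]
    exact mul_le_mul hπ hv (abs_nonneg _) ((abs_nonneg _).trans hπ)
  nlinarith

lemma exps {y : ℝ} (h0 : 0 < y) (h1 : y ≤ 1 / 10 ^ 11) :
    1 - 1 / 25000 ≤ Real.exp (2 * y - 1 / 25000) ∧ Real.exp (2 * y - 1 / 25000) ≤ 1 ∧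
    1 ≤ Real.exp (-(2 * y - 1 / 25000)) ∧
    Real.exp (-(2 * y - 1 / 25000)) ≤ 1 + 2 * (1 / 25000) ∧
    Real.exp (-(2 * y - 1 / 25000)) - 1
      - Real.exp (-(2 * y)) * (1 - Real.exp (2 * y - 1 / 25000)) ≤ 3 * (1 / 25000) ^ 2 ∧
    (Real.exp (2 * y - 1 / 25000) + 3 / 10 * (1 / 25000) ^ 2) * (1 + 10 * y)
      ≤ 1 - 3 / 10 * (1 / 25000) ^ 2 - 9 / 10 * (1 / 25000) := by
  set q := Real.exp (2 * y - 1 / 25000) with hq
  set q' := Real.exp (-(2 * y - 1 / 25000)) with hq'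
  set η : ℝ := 1 / 25000 - 2 * y with hη
  have hη0 : 0 ≤ η := by rw [hη]; linarith
  have hη1 : η ≤ 1 / 25000 := by rw [hη]; linarith
  have a1 : 1 - η ≤ q := by
    have := Real.add_one_le_exp (2 * y - 1 / 25000); rw [hη]; linarith
  have a2 : 1 + η ≤ q' := by
    have := Real.add_one_le_exp (-(2 * y - 1 / 25000)); rw [hη]; linarith
  have a3 : q * q' = 1 := by rw [hq, hq', ← Real.exp_add]; simp
  have q0 : 0 < q := Real.exp_pos _
  have q0' : 0 < q' := Real.exp_pos _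
  have a4 : q ≤ 1 - η + η ^ 2 := by
    have : q * (1 + η) ≤ 1 := by nlinarith
    nlinarith [mul_nonneg hη0 (mul_nonneg hη0 hη0)]
  have a5 : q' ≤ 1 + η + 3 / 2 * η ^ 2 := by
    have h2 : (1 - η) * q' ≤ 1 := by nlinarith
    have h3 : 1 ≤ (1 - η) * (1 + η + 3 / 2 * η ^ 2) := by nlinarith [mul_nonneg hη0 hη0]
    have h4 : 0 < 1 - η := by linarith
    exact le_of_mul_le_mul_left (h2.trans h3) h4
  have a6 : 1 - 2 * y ≤ Real.exp (-(2 * y)) := by
    have := Real.add_one_le_exp (-(2 * y)); linarith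
  have hη2 : η ^ 2 ≤ (1 / 25000) ^ 2 := by nlinarith
  have a7 : q ≤ 1 := by nlinarith
  refine ⟨by linarith, a7, by linarith, by nlinarith, ?_, ?_⟩
  · have b1 : (1 - 2 * y) * (η - η ^ 2) ≤ Real.exp (-(2 * y)) * (1 - q) :=
      mul_le_mul a6 (by linarith) (by nlinarith) (Real.exp_pos _).le
    nlinarith
  · have b1 : (q + 3 / 10 * (1 / 25000) ^ 2) * (10 * y) ≤ 2 * (10 * y) :=
      mul_le_mul_of_nonneg_right (by linarith) (by linarith)
    nlinarith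

lemma core0 {π1 π2 w s q ε : ℝ} (h1 : |π1 - 1| ≤ ε) (h2 : |π2 - 1| ≤ ε) (hw : 1 ≤ w)
    (hs : s ≤ 1) :
    (π1 * w + π2 * s) / 2 ≤ (q + ε) / 2 * w + (1 - ε) / 2 * s + (1 - q) / 2 * w
      + ((π1 - 1) + (π2 - 1)) / 2 := by
  have a1 := one (v := w) (e := w - 1) h1 (by rw [abs_of_nonneg (by linarith)])
  have a2 := one (v := s) (e := 1 - s) h2 (by rw [abs_of_nonpos (by linarith)]; linarith)
  nlinarith

lemma core1 {π1 π2 w s q q' p ε θ : ℝ} (h1 : |π1 - 1| ≤ ε) (h2 : |π2 - 1| ≤ ε) (hw : 1 ≤ w)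
    (hs0 : 0 < s) (hs : s ≤ 1) (hθ : 0 ≤ θ) (hθ1 : θ ≤ 1) (hε : ε = 3 / 10 * θ ^ 2)
    (q1 : 1 - θ ≤ q) (q2 : q ≤ 1) (q3 : 1 ≤ q') (q4 : q' ≤ 1 + 2 * θ)
    (hB : q' - 1 - p * (1 - q) ≤ 3 * θ ^ 2) :
    (π1 * (w * q) + π2 * (s * q')) / 2 ≤ (q + ε) / 2 * w + (1 - ε) / 2 * s
      + (1 - q) / 2 * (p * s) + 2 * θ ^ 2 + ((π1 - 1) + (π2 - 1)) / 2 := by
  have a1 := one (v := w * q) (e := w - 1 + θ) h1 (by
    rw [abs_le]; constructor <;> nlinarith)
  have a2 := one (v := s * q') (e := 1 - s + 2 * θ) h2 (by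
    rw [abs_le]; constructor <;> nlinarith)
  have a3 : s * (q' - 1 - p * (1 - q)) ≤ 3 * θ ^ 2 := by
    have := mul_le_mul_of_nonneg_left hB hs0.le
    nlinarith [sq_nonneg θ]
  have a4 : ε * θ ≤ 3 / 10 * θ ^ 2 := by
    rw [hε]; nlinarith [sq_nonneg θ]
  nlinarith

/-- the pointwise bound after averaging over the bit -/
lemma point {y o w s : ℝ} (h0 : 0 < y) (h1 : y ≤ 1 / 10 ^ 11) (ho : o = 0 ∨ o = 1) (hw : 1 ≤ w)
    (hs0 : 0 < s) (hs : s ≤ 1) (sa sr : Bool) (π : Bool → ℝ)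
    (hπ : ∀ b, |π b - 1| ≤ 3 / 10 * (1 / 25000) ^ 2) :
    (avg fun b : Bool => π b * o * (if sa = b then w else s) *
        Real.exp ((2 * y - 1 / 25000) * (sgn b * (sgn sa - sgn sr) / 2)))
      ≤ (Real.exp (2 * y - 1 / 25000) + 3 / 10 * (1 / 25000) ^ 2) / 2 * (o * w)
        + (1 - 3 / 10 * (1 / 25000) ^ 2) / 2 * (o * s)
        + (1 - Real.exp (2 * y - 1 / 25000)) / 2 *
          (o * (ind (sa = sr) * w + Real.exp (-(2 * y)) * ind (sa ≠ sr) * s))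
        + 3 / 10 * (1 / 25000) ^ 2 * (1 - o) + 2 * (1 / 25000) ^ 2 * ind (sa ≠ sr)
        + avg fun b => π b - 1 := by
  obtain ⟨q1, q2, q3, q4, hB, -⟩ := exps h0 h1
  rw [avg_bool, avg_bool]
  rcases ho with rfl | rfl
  · have a1 := abs_le.1 (hπ true)
    have a2 := abs_le.1 (hπ false)
    have a3 := ind_nonneg (sa ≠ sr)
    simp only [mul_zero, zero_mul]
    nlinarith
  · have c0 := fun b b' => core0 (q := Real.exp (2 * y - 1 / 25000)) (hπ b) (hπ b') hw hs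
    have c1 := fun b b' => core1 (hπ b) (hπ b') hw hs0 hs (by norm_num) (by norm_num) rfl
      q1 q2 q3 q4 hB
    have e1 : (2 * y - 1 / 25000) * (1 * (1 - 1) / 2) = 0 := by ring
    have e2 : (2 * y - 1 / 25000) * (-1 * (1 - 1) / 2) = 0 := by ring
    have e3 : (2 * y - 1 / 25000) * (1 * (1 - -1) / 2) = 2 * y - 1 / 25000 := by ring
    have e4 : (2 * y - 1 / 25000) * (-1 * (1 - -1) / 2) = -(2 * y - 1 / 25000) := by ring
    have e5 : (2 * y - 1 / 25000) * (1 * (-1 - 1) / 2) = -(2 * y - 1 / 25000) := by ring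
    have e6 : (2 * y - 1 / 25000) * (-1 * (-1 - 1) / 2) = 2 * y - 1 / 25000 := by ring
    have e7 : (2 * y - 1 / 25000) * (1 * (-1 - -1) / 2) = 0 := by ring
    have e8 : (2 * y - 1 / 25000) * (-1 * (-1 - -1) / 2) = 0 := by ring
    have s1 : sgn true = 1 := rfl
    have s2 : sgn false = -1 := rfl
    cases sa <;> cases sr
    · rw [s1, s2, e7, e8, ind_pos rfl, ind_neg (by simp), if_neg (by simp), if_pos rfl,
        Real.exp_zero]
      linarith [c0 false true]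
    · rw [s1, s2, e5, e6, ind_neg (by simp), ind_pos (by simp), if_neg (by simp), if_pos rfl]
      linarith [c1 false true]
    · rw [s1, s2, e3, e4, ind_neg (by simp), ind_pos (by simp), if_pos rfl, if_neg (by simp)]
      linarith [c1 true false]
    · rw [s1, s2, e1, e2, ind_pos rfl, ind_neg (by simp), if_pos rfl, if_neg (by simp),
        Real.exp_zero]
      linarith [c0 true false]

lemma final {c cp z zb e y q D : ℝ} (hD : 1000 ≤ D) (he0 : 0 ≤ e) (he : e * (D + 1) ≤ 1 / 1000)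
    (hcp : cp - 1 ≤ (1 + 10 * y) * (1 - c) + e) (hc : c ≤ 1 + e) (hz : 0 ≤ z) (hy : 0 < y)
    (hzb : zb ≤ 200 * ((D * (1 - c) + 1) / D + z)) (q1 : 1 - 1 / 25000 ≤ q) (q2 : q ≤ 1)
    (q3 : (q + 3 / 10 * (1 / 25000) ^ 2) * (1 + 10 * y)
      ≤ 1 - 3 / 10 * (1 / 25000) ^ 2 - 9 / 10 * (1 / 25000)) :
    (q + 3 / 10 * (1 / 25000) ^ 2) / 2 * cp + (1 - 3 / 10 * (1 / 25000) ^ 2) / 2 * c
      + (1 - q) / 2 + (1 + 3 / 10 * (1 / 25000) ^ 2) * e + 2 * (1 / 25000) ^ 2 * zb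
      ≤ 1 - (D * (1 - c) + 1) / D / 125000 + z + 1 / (2 * D) := by
  have hD0 : 0 < D := by linarith
  set i : ℝ := 1 / D with hi
  have e1 : (D * (1 - c) + 1) / D = (1 - c) + i := by rw [hi]; field_simp
  have e2 : 1 / (2 * D) = i / 2 := by rw [hi]; field_simp
  have hi0 : 0 < i := by rw [hi]; positivity
  have hei : e ≤ i / 1000 := by
    rw [hi, div_div, le_div_iff₀ (by positivity)]; nlinarith
  rw [e1] at hzb ⊢
  rw [e2]
  set ε : ℝ := 3 / 10 * (1 / 25000) ^ 2 with hε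
  have hε0 : 0 ≤ ε := by rw [hε]; positivity
  have hε1 : ε ≤ 1 / 1000 := by rw [hε]; norm_num
  set l : ℝ := 1 - c + i with hl
  have hl0 : 0 ≤ l := by rw [hl]; linarith
  have hqe : 0 ≤ q + ε := by linarith
  have b1 : (q + ε) * (cp - 1) ≤ (q + ε) * ((1 + 10 * y) * (1 - c) + e) :=
    mul_le_mul_of_nonneg_left hcp hqe
  set k : ℝ := (q + ε) * (1 + 10 * y) with hk
  clear_value k l i ε
  have k1 : q + ε ≤ k := by rw [hk]; nlinarith
  have b2 : k * l ≤ (1 - ε - 9 / 10 * (1 / 25000)) * l := mul_le_mul_of_nonneg_right q3 hl0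
  have b3 : (1 - 1 / 25000 + ε) * i ≤ k * i :=
    mul_le_mul_of_nonneg_right (by linarith only [k1, q1]) hi0.le
  have b4 : (q + ε) * e ≤ 2 * e := mul_le_mul_of_nonneg_right (by linarith) he0
  have b5 : ε * e ≤ 1 * e := mul_le_mul_of_nonneg_right (by linarith) he0
  have b6 : 0 ≤ ε * i := mul_nonneg hε0 hi0.le
  have hc' : c = 1 + i - l := by rw [hl]; ring
  have b7 : (q + ε) * ((1 + 10 * y) * (1 - c) + e) = k * l - k * i + (q + ε) * e := by
    rw [hk, hc']; ring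
  have b8 : (q + ε) / 2 * cp + (1 - ε) / 2 * c + (1 - q) / 2
      = 1 + ((q + ε) * (cp - 1) - (1 - ε) * (l - i)) / 2 := by rw [hc']; ring
  rw [b8]
  nlinarith

section sys
variable {Sg G0 A : Type} [Fintype Sg] [Fintype G0] [Fintype A] [DecidableEq A]

lemma EI_lin (S : Sys Sg G0 A) (D : G0 → Sg → ℝ) (I : Finset A) (f : G0 → Sg → ℝ)
    (φ1 φ2 φ3 φ4 : Gam G0 A → Sg → ℝ) (a1 a2 a3 a4 K : ℝ) :
    ((S.add D).E fun g σ => oI I g * f g.1 σ *
        (a1 * φ1 g σ + a2 * φ2 g σ + a3 * φ3 g σ + a4 * φ4 g σ - K))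
      = a1 * S.EI D I f φ1 + a2 * S.EI D I f φ2 + a3 * S.EI D I f φ3 + a4 * S.EI D I f φ4
        - K * S.EI D I f fun _ _ => 1 := by
  simp only [Sys.EI, Sys.E, ← Cas.E_mul, ← Cas.E_add, ← Cas.E_sub]
  exact Cas.E_congr fun g σ => by ring

/-- the bound for a fixed choice of the reference -/
lemma fixed {S : Sys Sg G0 A} {d : ℕ} {c cp F : ℝ} (hR : S.Rig d c cp) {D : G0 → Sg → ℝ}
    {I : Finset A} {f : G0 → Sg → ℝ} (hA : Sys.Adm d D I f F) (s : G0 → A → Bool)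
    {a1 a2 a3 a4 : ℝ} (h1 : 0 ≤ a1) (h2 : 0 ≤ a2) (h3 : 0 ≤ a3) (h4 : 0 ≤ a4) :
    ((S.add D).E fun g σ => oI I g * f g.1 σ *
        (a1 * (avg fun a => oA I a g * (S.add D).Sv (-2) a g σ)
          + a2 * (avg fun a => oA I a g * (S.add D).Sv 2 a g σ)
          + a3 * (avg fun a => oA I a g * (ind (S.sp a σ = s g.1 a) * (S.add D).Sv (-2) a g σ
            + Real.exp (-(2 * S.y)) * ind (S.sp a σ ≠ s g.1 a) * (S.add D).Sv 2 a g σ))
          + a4 * (avg fun a => 1 - oA I a g)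
          - (a1 * cp + a2 * c + a3 + (a1 + a2 + a3 + a4) * sm 250 d)))
      ≤ (a1 + a2 + a3 + a4) * sm 250 d * (F * S.N) := by
  obtain ⟨r1, r2, r3, r4⟩ := hR.2.2.2 D I f F hA
  rw [EI_lin]
  have b1 := mul_le_mul_of_nonneg_left (abs_le.1 r2).2 h1
  have b2 := mul_le_mul_of_nonneg_left (abs_le.1 r1).2 h2
  have b3 := mul_le_mul_of_nonneg_left (r4 s) h3
  have b4 := mul_le_mul_of_nonneg_left r3 h4
  linarith

/-- the reference is rarely far, also in the perturbed system -/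
lemma far [Nonempty Sg] [Nonempty G0] (hBd : StBd) {S : Sys Sg G0 A} {d : ℕ} (hd : 3 ≤ d)
    (hP : S.Par d) {Nd : Type} {nd : G0 → Nd} {Ev : Nd → Prop} {zb : ℝ}
    (hμ : ∀ g, Prob (S.mu nd (nd g))) (hC : S.Cl d nd Ev zb) {D : G0 → Sg → ℝ}
    (hD : ∀ g σ, |D g σ| ≤ 3 * d) :
    ((S.add D).E fun g σ => ind (Ev (nd g.1)) *
        Ex (S.mu nd (nd g.1)) fun r => ind (zb < fr S.sp σ r)) ≤ sm 200 d * S.N := by
  have hok := hP.ok hd
  have h1 := ((hBd Sg (Gam G0 A) S.cas (fun g σ => D g.1 σ) (3 * d) hok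
    (fun g σ _ => hD g.1 σ)).1 (fun g σ => ind (Ev (nd g.1)) *
        Ex (S.mu nd (nd g.1)) fun r => ind (zb < fr S.sp σ r))
    (fun g σ => mul_nonneg (ind_nonneg _) (Ex_nonneg (hμ g.1).1 fun _ => ind_nonneg _))).1
  rw [Cas.E_eq_P_mul hok] at h1
  have hβ : 1 ≤ S.β := hP.1
  have h2 := exp_mul_sm (c := 6 * S.β) (by linarith) 200 hd
  have h3 := sm_anti (k := 200 + 6 * S.β) (k' := 7 * S.β + 200) (by linarith) d
  have hN := Cas.N_pos hok
  unfold Sys.E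
  rw [Sys.cas_add]
  refine h1.trans ?_
  have e : 2 * S.cas.β * (3 * (d : ℝ)) = 6 * S.β * d := by
    show 2 * S.β * (3 * (d : ℝ)) = _
    ring
  rw [e, ← mul_assoc]
  refine mul_le_mul_of_nonneg_right (le_trans ?_ h2) hN.le
  exact mul_le_mul_of_nonneg_left (le_trans hC h3) (Real.exp_pos _).le

end sys

end YstepJ

open YstepJ in
theorem stYstep (hSv : StSv) (hBd : StBd) (hTower : StTower) (hD1 : StD1) : StYstep := by
  intro Sg G0 A _ _ _ _ _ _ S d c cp z zb F Nd nd Ev D I f π hd hP hR hy hz hzb0 hzb hC hD hI hf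
    hπ hπ1
  have _ := hD1
  have hd3 : 3 ≤ d := by omega
  have hok := hP.ok hd3
  have hok' := (hP.add D).ok hd3
  have := hP.nonempty
  have hy0 : 0 < S.y := mul_pos (lt_of_lt_of_le one_pos hP.1) hP.2.1
  have hμ : ∀ g, Prob (S.mu nd (nd g)) := fun g =>
    (hTower Sg (Gam G0 A) Nd S.cas (fun g => nd g.1) hok).1 (g, fun _ => none)
      (Sys.p_pos hP.2.2.2.2.1 (hP.rho_lt hd3) _)
  have hF : 0 ≤ F := by
    have := hf (Classical.arbitrary _) (Classical.arbitrary _) (Classical.arbitrary _)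
    linarith [this.1, this.2]
  have hN := Cas.N_pos hok
  obtain ⟨q1, q2, -, -, -, q3⟩ := exps hy0 hy
  have hw : ∀ a g σ, 1 ≤ (S.add D).Sv (-2) a g σ := fun a g σ => by
    have h := hSv Sg G0 A (S.add D) d hd3 (hP.add D) a g σ
    have := h.2.1 (-2) 0 (by norm_num)
    rwa [h.2.2.1] at this
  have hs : ∀ a g σ, 0 < (S.add D).Sv 2 a g σ ∧ (S.add D).Sv 2 a g σ ≤ 1 := fun a g σ => by
    have h := hSv Sg G0 A (S.add D) d hd3 (hP.add D) a g σ
    have := h.2.1 0 2 (by norm_num)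
    rw [h.2.2.1] at this
    exact ⟨h.1 2, this⟩
  have hpt := fun (g : Gam G0 A) σ r a => point hy0 hy (o := oA I a g) (ind_cases _) (hw a g σ)
    (hs a g σ).1 (hs a g σ).2 (S.sp a σ) (S.sp a r) (fun b => π g.1 σ r (a, b))
    (fun b => hπ g.1 σ r (a, b))
  have he : sm 250 d * ((d : ℝ) + 1) ≤ 1 / 1000 := by
    have h1 := mul_sm_le (a := (d : ℝ) + 1) 249 hd3 le_rfl
    have h2 := sm_le_inv (k := 249) (by norm_num) hd3
    have h3 : (1000 : ℝ) ≤ d := by exact_mod_cast hd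
    have h4 : 1 / ((d : ℝ) + 1) ≤ 1 / 1000 := one_div_le_one_div_of_le (by norm_num) (by linarith)
    rw [show (249 : ℝ) + 1 = 250 by norm_num] at h1
    linarith
  have hfin := final (by exact_mod_cast hd) (sm_pos 250 d).le he hR.1 hR.2.1 hz hy0 hzb q1 q2 q3
  generalize Real.exp (2 * S.y - 1 / 25000) = q at q1 q2 q3 hpt hfin
  obtain ⟨ε, hε⟩ : ∃ ε : ℝ, ε = 3 / 10 * (1 / 25000) ^ 2 := ⟨_, rfl⟩
  obtain ⟨τ, hτ⟩ : ∃ τ : ℝ, τ = 2 * (1 / 25000) ^ 2 := ⟨_, rfl⟩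
  rw [← hε, ← hτ] at hfin
  simp only [← hε, ← hτ] at hpt
  have hε0 : 0 ≤ ε := by rw [hε]; positivity
  have hε1 : ε ≤ 1 := by rw [hε]; norm_num
  have hτ0 : 0 ≤ τ := by rw [hτ]; positivity
  have hτ1 : τ ≤ 1 := by rw [hτ]; norm_num
  let G : Gam G0 A → Sg → Sg → ℝ := fun g σ r =>
    (q + ε) / 2 * (avg fun a => oA I a g * (S.add D).Sv (-2) a g σ)
      + (1 - ε) / 2 * (avg fun a => oA I a g * (S.add D).Sv 2 a g σ)
      + (1 - q) / 2 * (avg fun a => oA I a g * (ind (S.sp a σ = S.sp a r) * (S.add D).Sv (-2) a g σ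
        + Real.exp (-(2 * S.y)) * ind (S.sp a σ ≠ S.sp a r) * (S.add D).Sv 2 a g σ))
      + ε * (avg fun a => 1 - oA I a g)
  obtain ⟨K, hK⟩ : ∃ K : ℝ, K = (q + ε) / 2 * cp + (1 - ε) / 2 * c + (1 - q) / 2
    + ((q + ε) / 2 + (1 - ε) / 2 + (1 - q) / 2 + ε) * sm 250 d := ⟨_, rfl⟩
  have hG : ∀ (g : Gam G0 A) σ r, (avg fun o : A × Bool => π g.1 σ r o * oA I o.1 g *
      (if S.sp o.1 σ = o.2 then (S.add D).Sv (-2) o.1 g σ else (S.add D).Sv 2 o.1 g σ) *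
      Real.exp ((2 * S.y - 1 / 25000) * (sgn o.2 * (sgn (S.sp o.1 σ) - sgn (S.sp o.1 r)) / 2)))
      ≤ G g σ r + τ * (zb + ind (zb < fr S.sp σ r)) := by
    intro g σ r
    rw [avg_prod]
    refine (avg_mono fun a => hpt g σ r a).trans ?_
    have e0 : (avg fun a => avg fun b => π g.1 σ r (a, b) - 1) = 0 := by
      rw [← avg_prod (fun o : A × Bool => π g.1 σ r o - 1), avg_sub, avg_const, hπ1]; ring
    have e1 : fr S.sp σ r ≤ zb + ind (zb < fr S.sp σ r) := by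
      by_cases h : zb < fr S.sp σ r
      · rw [ind_pos h]
        have : fr S.sp σ r ≤ 1 := avg_le_const zero_le_one fun _ => ind_le_one _
        linarith
      · rw [ind_neg h]; linarith [not_lt.1 h]
    rw [avg_add, avg_add, avg_add, avg_add, avg_add, avg_mul, avg_mul, avg_mul, avg_mul, avg_mul,
      e0, add_zero]
    exact add_le_add le_rfl (mul_le_mul_of_nonneg_left e1 hτ0)
  have hch := choice (S.add D).cas (fun g => S.mu nd (nd g)) hμ
    (fun g σ r => oI I g * (ind (Ev (nd g.1)) * f g.1 σ r) * (G g σ r - K))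
    (((q + ε) / 2 + (1 - ε) / 2 + (1 - q) / 2 + ε) * sm 250 d * (F * S.N)) (fun rc => by
      rw [hK]
      exact fixed hR (f := fun g σ => ind (Ev (nd g)) * f g σ (rc g))
        ⟨hD, hI, fun g σ => mul_nonneg (ind_nonneg _) (hf g σ _).1, fun g σ =>
          (mul_le_of_le_one_left (hf g σ _).1 (ind_le_one _)).trans (hf g σ _).2⟩
        (fun g a => S.sp a (rc g)) (by linarith) (by linarith) (by linarith) hε0)
  have hfar := far hBd hd3 hP hμ hC hD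
  have hM : 0 ≤ (S.add D).E fun g σ =>
      oI I g * ind (Ev (nd g.1)) * Ex (S.mu nd (nd g.1)) (f g.1 σ) :=
    Cas.E_nonneg hok' fun g σ => mul_nonneg (mul_nonneg (ind_nonneg _) (ind_nonneg _))
      (Ex_nonneg (hμ g.1).1 fun r => (hf g.1 σ r).1)
  have hmain : ((S.add D).E fun g σ => oI I g * ind (Ev (nd g.1)) * Ex (S.mu nd (nd g.1)) fun r =>
        f g.1 σ r * avg fun o : A × Bool => π g.1 σ r o * oA I o.1 g *
          (if S.sp o.1 σ = o.2 then (S.add D).Sv (-2) o.1 g σ else (S.add D).Sv 2 o.1 g σ) *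
          Real.exp ((2 * S.y - 1 / 25000) * (sgn o.2 * (sgn (S.sp o.1 σ) - sgn (S.sp o.1 r)) / 2)))
      ≤ ((S.add D).cas.E fun g σ => Ex (S.mu nd (nd g.1)) fun r =>
          oI I g * (ind (Ev (nd g.1)) * f g.1 σ r) * (G g σ r - K))
        + (K + τ * zb) * ((S.add D).E fun g σ =>
          oI I g * ind (Ev (nd g.1)) * Ex (S.mu nd (nd g.1)) (f g.1 σ))
        + τ * F * ((S.add D).E fun g σ => ind (Ev (nd g.1)) *
          Ex (S.mu nd (nd g.1)) fun r => ind (zb < fr S.sp σ r)) := by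
    simp only [Sys.E]
    rw [← Cas.E_mul, ← Cas.E_mul, ← Cas.E_add, ← Cas.E_add]
    refine Cas.E_mono hok' fun g σ => ?_
    rw [← mul_assoc, ← mul_assoc (τ * F), ← Ex_mul, ← Ex_mul, ← Ex_mul, ← Ex_add, ← Ex_add]
    refine Ex_mono (hμ g.1).1 fun r => ?_
    have o0 : 0 ≤ oI I g := ind_nonneg _
    have o1 : oI I g ≤ 1 := ind_le_one _
    have i0 := ind_nonneg (Ev (nd g.1))
    have j0 := ind_nonneg (zb < fr S.sp σ r)
    have f0 := (hf g.1 σ r).1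
    have m0 : 0 ≤ oI I g * ind (Ev (nd g.1)) * f g.1 σ r := mul_nonneg (mul_nonneg o0 i0) f0
    have b1 := mul_le_mul_of_nonneg_left (hG g σ r) m0
    have b2 : oI I g * f g.1 σ r ≤ F := (mul_le_of_le_one_left f0 o1).trans (hf g.1 σ r).2
    have b3 := mul_le_mul_of_nonneg_left b2 (mul_nonneg (mul_nonneg hτ0 i0) j0)
    rw [← mul_assoc]
    linarith
  refine hmain.trans ?_
  have c1 : K + τ * zb ≤ 1 - (d * (1 - c) + 1) / d / 125000 + z + 1 / (2 * (d : ℝ)) := by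
    rw [hK]; linarith
  have c2 := mul_le_mul_of_nonneg_right c1 hM
  have c3 := mul_le_mul_of_nonneg_left hfar (mul_nonneg hτ0 hF)
  have hFN : 0 ≤ F * S.N := mul_nonneg hF hN.le
  have s1 := sm_anti (k := 191) (k' := 250) (by norm_num) d
  have s2 := sm_anti (k := 191) (k' := 200) (by norm_num) d
  have s3 := mul_sm_le (a := 3) 190 hd3 (by
    have : (3 : ℝ) ≤ d := by exact_mod_cast hd3
    linarith)
  rw [show (190 : ℝ) + 1 = 191 by norm_num] at s3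
  have s4 : (1 + ε) * sm 250 d ≤ 2 * sm 191 d :=
    mul_le_mul (by linarith) s1 (sm_pos _ _).le (by norm_num)
  have s5 : τ * sm 200 d ≤ 1 * sm 191 d := mul_le_mul hτ1 s2 (sm_pos _ _).le (by norm_num)
  have s6 := mul_le_mul_of_nonneg_right (show (1 + ε) * sm 250 d + τ * sm 200 d ≤ sm 190 d by
    linarith) hFN
  linarith

end Pool.Agent.MP_32a90a_pr.D
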