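import Pool.Agent.Mg.F32a90ap.Gad1de9
import Pool.Agent.Mg.F32a90ap.G52df67
import Pool.Agent.Mg.F32a90ap.G4652dd
import Pool.Agent.Mg.F32a90ap.G76376e

section

set_option autoImplicit false

namespace Pool.Agent.MP_32a90a_pr.D

open Finset Pool.Agent.MP_32a90a_pr Pool.Agent.MP_32a90a_pr.L

namespace AllUJ

noncomputable section

variable {Sg G0 A : Type} [Fintype Sg] [Fintype G0] [Fintype A] [DecidableEq A] {m : ℕ}

/-- the pattern of a configuration on the chosen positions -/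
def pat (S : Sys Sg G0 A) (u : Fin m → A) (σ : Sg) : Fin m → Bool := fun k => S.sp (u k) σ

/-- the field on the first i positions against the pattern s -/
def Ds (S : Sys Sg G0 A) (t : ℝ) (i : ℕ) (u : Fin m → A) (s : Fin m → Bool) (_g : G0) (σ : Sg) :
    ℝ := t * ∑ k : Fin m, ind (k.val < i ∧ S.sp (u k) σ ≠ s k)

/-- the set of the first i positions -/
def Im (i : ℕ) (u : Fin m → A) : Finset A := (univ.filter fun k : Fin m => k.val < i).image u

/-- injectivity on the first i positions -/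
def Inj (i : ℕ) (u : Fin m → A) : Prop :=
  ∀ k k' : Fin m, k.val < i → k'.val < i → u k = u k' → k = k'

/-- response to the fields on the first i positions -/
def SI (S : Sys Sg G0 A) (t : ℝ) (i : ℕ) (u : Fin m → A) (g : Gam G0 A) (σ : Sg) : ℝ :=
  (Ex (S.nu g) fun σ' => Real.exp (S.β * Ds S t i u (pat S u σ) g.1 σ')) ^ (S.x - 1)

/-- the weights -/
def W (S : Sys Sg G0 A) (t : ℝ) (i : ℕ) (u : Fin m → A) (ξ : G0 × Sg) : ℝ :=
  ∑ ζ : A → Option Bool, S.cas.wt (ξ.1, ζ) ξ.2 *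
    (ind (Inj i u) * oI (Im i u) (ξ.1, ζ) * SI S t i u (ξ.1, ζ) ξ.2) / S.N

/-- the test function on one pattern -/
def fs (S : Sys Sg G0 A) (u : Fin m → A) (f : G0 × Sg → ℝ) (s : Fin m → Bool) (g : G0) (σ : Sg) :
    ℝ := f (g, σ) * ind (pat S u σ = s)

variable {S : Sys Sg G0 A} {t : ℝ}

omit [Fintype A] in
lemma mem_Im {i : ℕ} {u : Fin m → A} {a : A} : a ∈ Im i u ↔ ∃ k : Fin m, k.val < i ∧ u k = a := by
  simp [Im]

lemma sum_wt (φ : Gam G0 A → Sg → ℝ) :
    ∑ ξ : G0 × Sg, ∑ ζ : A → Option Bool, S.cas.wt (ξ.1, ζ) ξ.2 * φ (ξ.1, ζ) ξ.2 / S.N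
      = S.P φ := by
  simp only [Cas.P, Cas.E, Fintype.sum_prod_type, sum_div]
  exact sum_congr rfl fun _ _ => sum_comm

lemma sum_W (f : G0 × Sg → ℝ) (i : ℕ) (u : Fin m → A) :
    ∑ ξ, f ξ * W S t i u ξ
      = S.P fun g σ => f (g.1, σ) * (ind (Inj i u) * oI (Im i u) g * SI S t i u g σ) := by
  rw [← sum_wt]
  refine sum_congr rfl fun ξ _ => ?_
  rw [W, mul_sum]
  exact sum_congr rfl fun ζ _ => by ring

variable [Nonempty Sg]

lemma SI_pos (i : ℕ) (u : Fin m → A) (g : Gam G0 A) (σ : Sg) : 0 < SI S t i u g σ :=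
  Real.rpow_pos_of_pos ((Cas.nu_prob g).Ex_pos fun _ => Real.exp_pos _) _

lemma W_nonneg (h : S.cas.Ok) (i : ℕ) (u : Fin m → A) (ξ : G0 × Sg) : 0 ≤ W S t i u ξ :=
  sum_nonneg fun _ _ => div_nonneg (mul_nonneg (Cas.wt_nonneg h _ _) (mul_nonneg
    (mul_nonneg (ind_nonneg _) (ind_nonneg _)) (SI_pos _ _ _ _).le)) (Cas.N_pos h).le

omit [Nonempty Sg] in
lemma W_dep (i : ℕ) (u u' : Fin m → A) (h : ∀ k : Fin m, k.val < i → u k = u' k) :
    W S t i u = W S t i u' := by
  have h1 : Inj i u ↔ Inj i u' :=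
    ⟨fun a k k' b c e => a k k' b c (by rw [h k b, h k' c, e]),
      fun a k k' b c e => a k k' b c (by rw [← h k b, ← h k' c, e])⟩
  have h2 : Im i u = Im i u' := by
    ext a
    simp only [mem_Im]
    exact exists_congr fun k => and_congr_right fun b => by rw [h k b]
  have h3 : ∀ g σ σ', Ds S t i u (pat S u σ) g σ' = Ds S t i u' (pat S u' σ) g σ' := by
    intro g σ σ'
    unfold Ds pat
    congr 1
    exact sum_congr rfl fun k _ => ind_congr (and_congr_right fun b => by rw [h k b])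
  funext ξ
  simp only [W, SI, h2, h3, ind_congr h1]

lemma sum_W_zero (f : G0 × Sg → ℝ) (u : Fin m → A) :
    ∑ ξ, f ξ * W S t 0 u ξ = S.P fun g σ => f (g.1, σ) := by
  rw [sum_W]
  refine Cas.P_congr fun g σ => ?_
  have h1 : ind (Inj 0 u) = 1 := ind_pos fun _ _ h => absurd h (Nat.not_lt_zero _)
  have h2 : oI (Im 0 u) g = 1 := ind_pos fun a ha => by
    obtain ⟨k, hk, -⟩ := mem_Im.1 ha
    exact absurd hk (Nat.not_lt_zero _)
  have h3 : ∀ σ', Ds S t 0 u (pat S u σ) g.1 σ' = 0 := fun σ' => by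
    rw [Ds, sum_eq_zero fun k _ => ind_neg fun h => absurd h.1 (Nat.not_lt_zero _), mul_zero]
  have h4 : SI S t 0 u g σ = 1 := by
    simp only [SI, h3, mul_zero, Real.exp_zero]
    rw [(Cas.nu_prob g).Ex_const, Real.one_rpow]
  rw [h1, h2, h4]
  ring

omit [Nonempty Sg] in
lemma sum_W_top (f : G0 × Sg → ℝ) (u : Fin m → A) :
    ∑ ξ, f ξ * W S t m u ξ = S.P fun g σ => f (g.1, σ) * oU u g * S.SN t u g σ := by
  rw [sum_W]
  refine Cas.P_congr fun g σ => ?_
  have h1 : ind (Inj m u) * oI (Im m u) g = oU u g := by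
    rw [oI, ← ind_and, oU]
    refine ind_congr (and_congr ⟨fun a k k' e => a k k' k.2 k'.2 e, fun a k k' _ _ e => a e⟩
      ⟨fun a k => a _ (mem_Im.2 ⟨k, k.2, rfl⟩), fun a b hb => ?_⟩)
    obtain ⟨k, -, rfl⟩ := mem_Im.1 hb
    exact a k
  have h4 : SI S t m u g σ = S.SN t u g σ := by
    unfold SI Sys.SN Ds dn pat
    congr 1
    refine Ex_congr fun σ' => ?_
    rw [mul_assoc]
    congr 3
    exact sum_congr rfl fun k _ => ind_congr (and_iff_right k.2)
  rw [h1, h4, mul_assoc]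

/-- splitting by the pattern -/
lemma split (f : G0 × Sg → ℝ) (i : ℕ) (u : Fin m → A)
    (Φ : (Fin m → Bool) → Gam G0 A → Sg → ℝ) :
    (S.E fun g σ => oI (Im i u) g * f (g.1, σ) * (SI S t i u g σ * Φ (pat S u σ) g σ))
      = ∑ s, S.EI (Ds S t i u s) (Im i u) (fs S u f s) (Φ s) := by
  simp only [Sys.EI, Sys.E, Sys.cas_add, Cas.E_add_eq]
  rw [← Cas.E_sum]
  refine Cas.E_congr fun g σ => ?_
  rw [sum_eq_single (pat S u σ) (fun s _ hs => by rw [fs, ind_neg (Ne.symm hs)]; ring)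
    fun h => absurd (mem_univ _) h]
  have h3 : Ds S t i u (pat S u σ) g.1 σ = 0 := by
    rw [Ds, sum_eq_zero fun k _ => ind_neg fun h => h.2 rfl, mul_zero]
  rw [fs, ind_pos rfl, h3, mul_zero, Real.exp_zero]
  show _ = 1 * SI S t i u g σ * _
  ring

lemma base_eq (f : G0 × Sg → ℝ) (i : ℕ) (u : Fin m → A) :
    ∑ ξ, f ξ * W S t i u ξ = ind (Inj i u) *
      (∑ s, S.EI (Ds S t i u s) (Im i u) (fs S u f s) fun _ _ => 1) / S.N := by
  rw [sum_W, ← split f i u fun _ _ _ => 1, ← Cas.E_mul]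
  exact congrArg (· / S.N) (Cas.E_congr fun g σ => by ring)

omit [Fintype G0] [Fintype A] [Fintype Sg] [Nonempty Sg] in
lemma o_step (i : Fin m) (u : Fin m → A) (a : A) (g : Gam G0 A) :
    ind (Inj (i.val + 1) (Function.update u i a)) * oI (Im (i.val + 1) (Function.update u i a)) g
      = ind (Inj i.val u) * oI (Im i.val u) g * oA (Im i.val u) a g := by
  have hu : ∀ k : Fin m, k.val < i.val → Function.update u i a k = u k := fun k hk =>
    Function.update_of_ne (fun e => by rw [e] at hk; exact lt_irrefl _ hk) _ _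
  have hc : ∀ k : Fin m, k.val < i.val + 1 → k.val < i.val ∨ k = i := fun k hk =>
    (Nat.lt_succ_iff_lt_or_eq.1 hk).imp_right Fin.ext
  rw [oI, oI, oA, ← ind_and, ← ind_and, ← ind_and]
  refine ind_congr ⟨fun ⟨h1, h2⟩ => ⟨⟨fun k k' b c e => h1 k k' (by omega) (by omega)
    (by rw [hu k b, hu k' c, e]), fun b hb => ?_⟩, fun hb => ?_, ?_⟩,
    fun ⟨⟨h1, h2⟩, h3, h4⟩ => ⟨fun k k' b c e => ?_, fun b hb => ?_⟩⟩
  · obtain ⟨k, hk, rfl⟩ := mem_Im.1 hb
    exact h2 _ (mem_Im.2 ⟨k, by omega, hu k hk⟩)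
  · obtain ⟨k, hk, e⟩ := mem_Im.1 hb
    have := h1 k i (by omega) (by omega) (by rw [hu k hk, e, Function.update_self])
    rw [this] at hk
    exact lt_irrefl _ hk
  · exact h2 _ (mem_Im.2 ⟨i, by omega, Function.update_self ..⟩)
  · rcases hc k b with b | rfl <;> rcases hc k' c with c | rfl
    · exact h1 k k' b c (by rw [← hu k b, ← hu k' c, e])
    · exact absurd (mem_Im.2 ⟨k, b, by rw [← hu k b, e, Function.update_self]⟩) h3
    · exact absurd (mem_Im.2 ⟨k', c, by rw [← hu k' c, ← e, Function.update_self]⟩) h3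
    · rfl
  · obtain ⟨k, hk, rfl⟩ := mem_Im.1 hb
    rcases hc k hk with b | rfl
    · rw [hu k b]
      exact h2 _ (mem_Im.2 ⟨k, b, rfl⟩)
    · rwa [Function.update_self]

lemma SI_step (i : Fin m) (u : Fin m → A) (a : A) (g : Gam G0 A) (σ : Sg) :
    SI S t (i.val + 1) (Function.update u i a) g σ
      = SI S t i.val u g σ * (S.add (Ds S t i.val u (pat S u σ))).Sv t a g σ := by
  have h1 : ∀ σ', Ds S t (i.val + 1) (Function.update u i a)
      (pat S (Function.update u i a) σ) g.1 σ'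
      = Ds S t i.val u (pat S u σ) g.1 σ' + t * ind (S.sp a σ' ≠ S.sp a σ) := by
    intro σ'
    unfold Ds pat
    rw [← mul_add, ← add_sum_erase _ _ (mem_univ i), ← add_sum_erase _ _ (mem_univ i),
      ind_neg (P := i.val < i.val ∧ _) fun h => lt_irrefl _ h.1, Function.update_self,
      ind_congr (and_iff_right (Nat.lt_succ_self _)), zero_add, add_comm]
    congr 2
    refine sum_congr rfl fun k hk => ?_
    have h2 := ne_of_mem_erase hk
    have h3 : k.val ≠ i.val := fun e => h2 (Fin.ext e)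
    rw [Function.update_of_ne h2]
    exact ind_congr (and_congr_left fun _ => by omega)
  have h2 : 0 < Ex (S.nu g) fun σ' => Real.exp (S.β * Ds S t i.val u (pat S u σ) g.1 σ') :=
    (Cas.nu_prob g).Ex_pos fun _ => Real.exp_pos _
  unfold SI Sys.Sv
  rw [show (S.add (Ds S t i.val u (pat S u σ))).x = S.x from rfl,
    ← Real.mul_rpow h2.le (Ex_nonneg (Cas.nu_prob g).1 fun _ => (Real.exp_pos _).le)]
  congr 1
  simp only [Sys.nu, Sys.cas_add, Cas.Ex_nu_add]
  rw [show S.cas.β = S.β from rfl, mul_div_cancel₀ _ h2.ne']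
  refine Ex_congr fun σ' => ?_
  rw [h1, ← Real.exp_add, mul_add, ← mul_assoc]
  rfl

lemma step_eq (f : G0 × Sg → ℝ) (π : G0 × Sg → A → ℝ) (i : Fin m) (u : Fin m → A) :
    ∑ ξ, f ξ * (avg fun a => π ξ a * W S t (i.val + 1) (Function.update u i a) ξ)
      = ind (Inj i.val u) * (∑ s, S.EI (Ds S t i.val u s) (Im i.val u) (fs S u f s) fun g σ =>
        avg fun a => π (g.1, σ) a *
          (oA (Im i.val u) a g * (S.add (Ds S t i.val u s)).Sv t a g σ)) / S.N := by
  have h1 : ∑ ξ, f ξ * (avg fun a => π ξ a * W S t (i.val + 1) (Function.update u i a) ξ)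
      = avg fun a => ∑ ξ, (f ξ * π ξ a) * W S t (i.val + 1) (Function.update u i a) ξ := by
    rw [avg_sum]
    exact sum_congr rfl fun ξ _ => by rw [← avg_mul]; exact avg_congr fun a => by ring
  rw [h1, ← split f i.val u fun s g σ => avg fun a => π (g.1, σ) a *
    (oA (Im i.val u) a g * (S.add (Ds S t i.val u s)).Sv t a g σ), ← Cas.E_mul]
  simp only [sum_W, o_step, SI_step]
  rw [← Cas.P_avg]
  refine congrArg (· / S.N) (Cas.E_congr fun g σ => ?_)
  rw [← avg_mul, ← avg_mul, ← avg_mul]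
  exact avg_congr fun a => by ring

omit [Fintype G0] [Fintype A] [Fintype Sg] [Nonempty Sg] in
lemma adm {d : ℕ} (hm : m ≤ d) (ht : |t| ≤ 3) {f : G0 × Sg → ℝ} {F : ℝ}
    (hf : ∀ ξ, 0 ≤ f ξ ∧ f ξ ≤ F) (i : ℕ) (u : Fin m → A) (s : Fin m → Bool) :
    Sys.Adm d (Ds S t i u s) (Im i u) (fs S u f s) F := by
  refine ⟨fun g σ => ?_, ?_, fun g σ => mul_nonneg (hf _).1 (ind_nonneg _), fun g σ =>
    (mul_le_of_le_one_right (hf _).1 (ind_le_one _)).trans (hf _).2⟩
  · have h0 : 0 ≤ ∑ k : Fin m, ind (k.val < i ∧ S.sp (u k) σ ≠ s k) :=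
      sum_nonneg fun _ _ => ind_nonneg _
    have h1 : ∑ k : Fin m, ind (k.val < i ∧ S.sp (u k) σ ≠ s k) ≤ d := by
      refine (sum_le_sum fun k _ => ind_le_one _).trans ?_
      simpa using hm
    rw [Ds, abs_mul, abs_of_nonneg h0]
    exact mul_le_mul ht h1 h0 (by norm_num)
  · refine card_image_le.trans ((card_le_univ _).trans ?_)
    rw [Fintype.card_fin]
    omega

end

end AllUJ

end Pool.Agent.MP_32a90a_pr.D

end

section

set_option autoImplicit false

namespace Pool.Agent.MP_32a90a_pr.D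

open Finset Pool.Agent.MP_32a90a_pr Pool.Agent.MP_32a90a_pr.L

namespace AllUJ

variable {Sg G0 A : Type} [Fintype Sg] [Nonempty Sg] [Fintype G0] [Nonempty G0] [Fintype A]
  [DecidableEq A] {m d : ℕ} {S : Sys Sg G0 A}

lemma one_pat (hSv : StSv) (hd : 3 ≤ d) (hP : S.Par d) {lam F : ℝ} (hD : S.D1 d lam)
    {D f : G0 → Sg → ℝ} {I : Finset A} (ha : Sys.Adm d D I f F) (π : G0 × Sg → A → ℝ)
    (h1 : ∀ ξ o, 1 / 4 ≤ π ξ o ∧ π ξ o ≤ 4) (h2 : ∀ ξ, avg (π ξ) = 1) :
    (S.EI D I f fun g σ => avg fun a => π (g.1, σ) a * (oA I a g * (S.add D).Sv (-2) a g σ))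
      ≤ (1 + 8 * lam / d) * (S.EI D I f fun _ _ => 1) + 4 * sm 200 d * F * S.N := by
  have h3 := (hD.2.2 D I f F ha).2.2.1
  have h4 : (S.EI D I f fun g σ => avg fun a =>
      π (g.1, σ) a * (oA I a g * (S.add D).Sv (-2) a g σ)) ≤ (S.EI D I f fun _ _ => 1) +
      4 * S.EI D I f fun g σ => avg fun a => oA I a g * ((S.add D).Sv (-2) a g σ - 1) := by
    unfold Sys.EI
    rw [← Cas.E_mul, ← Cas.E_add]
    refine Cas.E_mono ((hP.add D).ok hd) fun g σ => ?_
    have h5 : (avg fun a => π (g.1, σ) a * (oA I a g * (S.add D).Sv (-2) a g σ))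
        ≤ 1 + 4 * avg fun a => oA I a g * ((S.add D).Sv (-2) a g σ - 1) := by
      rw [← h2 (g.1, σ), ← avg_mul, ← avg_add]
      refine avg_mono fun a => ?_
      obtain ⟨-, b2, b3, -⟩ := hSv Sg G0 A (S.add D) d hd (hP.add D) a g σ
      have b4 := b2 (-2) 0 (by norm_num)
      obtain ⟨c1, c2⟩ := h1 (g.1, σ) a
      rw [h2 (g.1, σ)]
      rcases ind_cases (a ∉ I ∧ g.2 a = none) with e | e <;> rw [oA, e] <;> nlinarith
    have h6 := mul_le_mul_of_nonneg_left h5 (mul_nonneg (ind_nonneg (∀ a ∈ I, g.2 a = none))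
      (ha.2.2.1 g.1 σ))
    unfold oI
    linarith
  have h7 : 8 * lam / d = 4 * (2 * lam / d) := by ring
  rw [h7]
  linarith

lemma stepU (hSv : StSv) (hd : 3 ≤ d) (hP : S.Par d) {lam F : ℝ} (hD : S.D1 d lam) (hm : m ≤ d)
    (hF : 0 ≤ F) (i : Fin m) (u : Fin m → A) (f : G0 × Sg → ℝ) (π : G0 × Sg → A → ℝ)
    (hf : ∀ ξ, 0 ≤ f ξ ∧ f ξ ≤ F) (h1 : ∀ ξ o, 1 / 4 ≤ π ξ o ∧ π ξ o ≤ 4)
    (h2 : ∀ ξ, avg (π ξ) = 1) :
    ∑ ξ, f ξ * (avg fun o => π ξ o * W S (-2) (i.val + 1) (Function.update u i o) ξ)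
      ≤ (1 + 8 * lam / d) * ∑ ξ, f ξ * W S (-2) i.val u ξ + 2 ^ m * (4 * sm 200 d) * F := by
  have hN := Cas.N_pos (hP.ok hd)
  have h3 := sum_le_sum fun (s : Fin m → Bool) (_ : s ∈ univ) =>
    one_pat hSv hd hP hD (adm (S := S) (t := -2) hm (by norm_num) hf i.val u s) π h1 h2
  rw [sum_add_distrib, ← mul_sum, sum_const, card_univ, Fintype.card_fun, Fintype.card_bool,
    Fintype.card_fin, nsmul_eq_mul, Nat.cast_pow, Nat.cast_ofNat] at h3
  have h4 : 0 ≤ 2 ^ m * (4 * sm 200 d) * F := by have := sm_pos 200 d; positivity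
  rw [step_eq, base_eq]
  rcases ind_cases (Inj i.val u) with e | e <;> rw [e]
  · simpa using h4
  · rw [one_mul, one_mul, div_le_iff₀ hN, add_mul, mul_assoc, div_mul_cancel₀ _ hN.ne']
    linarith

lemma err (hd : 3 ≤ d) (hm : m ≤ d) : m * (2 ^ m * (4 * sm 200 d)) * (10 : ℝ) ^ m ≤ sm 190 d := by
  have h1 : m * (2 ^ m * 4) * 10 ^ m ≤ 2 ^ (10 * d) := by
    calc m * (2 ^ m * 4) * 10 ^ m ≤ 2 ^ m * (2 ^ m * 2 ^ 2) * (2 ^ 4) ^ m :=
          Nat.mul_le_mul (Nat.mul_le_mul_right _ Nat.lt_two_pow_self.le)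
            (Nat.pow_le_pow_left (by norm_num) _)
      _ = 2 ^ (6 * m + 2) := by rw [← pow_mul]; ring
      _ ≤ _ := Nat.pow_le_pow_right (by norm_num) (by omega)
  have h2 : (m : ℝ) * (2 ^ m * 4) * 10 ^ m ≤ 2 ^ (10 * d) := by exact_mod_cast h1
  have h3 : (2 : ℝ) ^ (10 * d) ≤ Real.exp (10 * d) := by
    have := Real.exp_one_pow (10 * d)
    push_cast at this
    rw [← this]
    exact pow_le_pow_left₀ (by norm_num) (by linarith [Real.add_one_le_exp (1 : ℝ)]) _
  have h4 := exp_mul_sm (c := 10) (by norm_num) 190 hd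
  rw [show (190 : ℝ) + 10 = 200 by norm_num] at h4
  nlinarith [sm_pos 200 d]

end AllUJ

open AllUJ in
theorem stAllU (hSeqU : StSeqU) (hSv : StSv) : StAllU := by
  intro Sg G0 A _ _ _ _ _ _ S d m lam F T hd hP hD hm hT hT'
  have := hP.nonempty
  have hd3 : 3 ≤ d := by omega
  have hdr : (1000 : ℝ) ≤ d := by exact_mod_cast hd
  have hmr : (m : ℝ) ≤ d := by exact_mod_cast hm
  have hok := hP.ok hd3
  have hF : 0 ≤ F := by
    obtain ⟨h1, h2⟩ := hT (Classical.arbitrary _) (Classical.arbitrary _) (Classical.arbitrary _)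
    linarith
  have hl : 0 ≤ 8 * lam / d := by have := hD.1; positivity
  have hr : 1 + 8 * lam / d ≤ 10 := by
    have : 8 * lam / d ≤ 9 := by rw [div_le_iff₀ (by linarith)]; linarith [hD.2.1]
    linarith
  have h := hSeqU A (G0 × Sg) m (W S (-2)) (fun ξ u => T u ξ.1 ξ.2) (fun _ => 1 + 8 * lam / d) 4
    (2 ^ m * (4 * sm 200 d)) F 10 (by norm_num) (by have := sm_pos 200 d; positivity) hF
    (by norm_num) (fun _ => ⟨by linarith, hr⟩) (W_nonneg hok) W_dep
    (fun i u f π hf h1 h2 => stepU hSv hd3 hP hD hm hF i u f π hf h1 h2)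
    (fun ξ u => hT u _ _) fun ξ u i o => hT' u i o _ _
  simp only [sum_W_zero, sum_W_top, prod_const, card_univ, Fintype.card_fin] at h
  have h1 : (1 + 8 * lam / d) ^ m ≤ Real.exp (8 * lam) := by
    calc _ ≤ Real.exp (8 * lam / d) ^ m :=
          pow_le_pow_left₀ (by linarith) (by linarith [Real.add_one_le_exp (8 * lam / d)]) _
      _ = Real.exp (m * (8 * lam / d)) := (Real.exp_nat_mul _ _).symm
      _ ≤ _ := Real.exp_le_exp.2 (by
          refine (mul_le_mul_of_nonneg_right hmr hl).trans_eq ?_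
          field_simp)
  have h2 : 0 ≤ avg fun u : Fin m → A => S.P fun g σ => T u g.1 σ :=
    avg_nonneg fun u => Cas.P_nonneg hok fun g σ => (hT u _ _).1
  have h3 := mul_le_mul_of_nonneg_right (err hd3 hm) hF
  have h4 := mul_le_mul_of_nonneg_right h1 h2
  linarith

end Pool.Agent.MP_32a90a_pr.D

end

section

set_option autoImplicit false

namespace Pool.Agent.MP_32a90a_pr.D

open Finset Pool.Agent.MP_32a90a_pr Pool.Agent.MP_32a90a_pr.L

namespace CpJ

lemma rpow_le_lin {s x : ℝ} (hs : 0 ≤ s) (h0 : 0 ≤ x) (h1 : x ≤ 1) :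
    (1 + s) ^ x ≤ 1 + x * s := rpow_one_add_le_one_add_mul_self (by linarith) h0 h1

lemma core {p q a x k : ℝ} (hp : 0 ≤ p) (hpq : p ≤ q) (h1 : p + q = 1) (ha : 0 ≤ a)
    (hx0 : 0 < x) (hx : x ≤ 1 / 10) (hk : x * a ≤ 3 / 10 * k) :
    p * (p + q * Real.exp (-a)) ^ (x - 1) + q * (q + p * Real.exp (-a)) ^ (x - 1) - 1
      ≤ (1 + k) * (1 - (p * (p + q * Real.exp a) ^ (x - 1)
        + q * (q + p * Real.exp a) ^ (x - 1))) + x := by
  have hq : 0 ≤ q := hp.trans hpq
  set E := Real.exp a with hE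
  have hE1 : 1 ≤ E := Real.one_le_exp ha
  have hE0 : 0 < E := by linarith
  set U := q + p * E with hU
  set V := p + q * E with hV
  have hU1 : 1 ≤ U := by nlinarith
  have hUV : U ≤ V := by nlinarith
  have hVE : V ≤ E := by nlinarith
  have hU0 : 0 < U := by linarith
  have hV0 : 0 < V := by linarith
  have hk0 : 0 ≤ k := by nlinarith [mul_nonneg hx0.le ha]
  have e1 : p + q * Real.exp (-a) = U / E := by
    rw [Real.exp_neg, ← hE, hU]; field_simp; ring
  have e2 : q + p * Real.exp (-a) = V / E := by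
    rw [Real.exp_neg, ← hE, hV]; field_simp; ring
  set Y := E ^ x with hY
  have hYe : Y = Real.exp (x * a) := by rw [hY, hE, ← Real.exp_mul, mul_comm]
  have hY1 : 1 ≤ Y := Real.one_le_rpow hE1 hx0.le
  have hY0 : 0 < Y := by linarith
  set u := U ^ (x - 1) with hu
  set v := V ^ (x - 1) with hv
  have hu0 : 0 < u := Real.rpow_pos_of_pos hU0 _
  have hv0 : 0 < v := Real.rpow_pos_of_pos hV0 _
  have hvu : v ≤ u := Real.rpow_le_rpow_of_nonpos hU0 hUV (by linarith)
  have hu1 : u ≤ 1 := Real.rpow_le_one_of_one_le_of_nonpos hU1 (by linarith)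
  have e3 : ∀ W : ℝ, 0 < W → (W / E) ^ (x - 1) = W ^ (x - 1) * E / Y := fun W hW => by
    rw [Real.div_rpow hW.le hE0.le, Real.rpow_sub_one hE0.ne', ← hY]; field_simp
  rw [e1, e2, e3 U hU0, e3 V hV0, ← hu, ← hv]
  have hUx : U ^ x = u * U := by rw [hu, Real.rpow_sub_one hU0.ne']; field_simp
  have hVx : V ^ x = v * V := by rw [hv, Real.rpow_sub_one hV0.ne']; field_simp
  have hVY : v * V ≤ Y := hVx ▸ Real.rpow_le_rpow hV0.le hVE hx0.le
  set W := p * (u * E / Y) + q * (v * E / Y) with hW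
  set S := p * v + q * u with hS
  have key : Y * W + S = u * U + v * V := by
    rw [hW, hS, hU, hV]; field_simp; ring
  have hSu : S ≤ u := by
    have h2 := mul_le_mul_of_nonneg_left hvu hp
    have h3 : p * u + q * u = u := by rw [← add_mul, h1, one_mul]
    linarith
  have hc1 : p * E ≤ 1 → u * U ≤ 1 + x * 1 := fun hc => by
    have h2 : U ≤ 1 + 1 := by linarith
    rw [← hUx]
    exact (Real.rpow_le_rpow hU0.le h2 hx0.le).trans
      (rpow_le_lin zero_le_one hx0.le (by linarith))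
  have hUY : u * U ≤ Y := hUx ▸ Real.rpow_le_rpow hU0.le (hUV.trans hVE) hx0.le
  have hc2 : 1 < p * E → u ≤ 7 / 10 := fun hc => by
    have h2 : 1 + 1 / 2 ≤ U := by linarith
    have h4 : u ≤ (1 + 1 / 2 : ℝ) ^ (x - 1) :=
      Real.rpow_le_rpow_of_nonpos (by norm_num) h2 (by linarith)
    rw [Real.rpow_sub_one (by norm_num)] at h4
    have h5 := rpow_le_lin (s := 1 / 2) (by norm_num) hx0.le (by linarith)
    refine h4.trans ?_
    rw [div_le_iff₀ (by norm_num)]
    linarith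
  have h4 : Y - 1 ≤ x * a * Y := by
    have h5 := Real.add_one_le_exp (-(x * a))
    have h6 : Real.exp (-(x * a)) * Y = 1 := by rw [hYe, ← Real.exp_add]; simp
    have h7 := mul_le_mul_of_nonneg_right h5 hY0.le
    linarith
  clear_value W S u v Y U V E
  have hS1 : 0 ≤ 1 - S := by linarith
  have hkS := mul_nonneg hk0 hS1
  rcases le_or_gt W 1 with hW1 | hW1
  · linarith
  have hYW := mul_le_mul_of_nonneg_right hY1 (sub_nonneg.2 hW1.le)
  rcases le_or_gt (p * E) 1 with hc | hc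
  · have h3 := hc1 hc
    linarith
  · have h3 := hc2 hc
    have h8 := mul_le_mul_of_nonneg_right hY1 hS1
    have h5 : Y * (W - 1) ≤ Y * ((1 - S) + x * a) := by linarith
    have h6 := le_of_mul_le_mul_left h5 hY0
    have h7 := mul_le_mul_of_nonneg_left (show 3 / 10 ≤ 1 - S by linarith) hk0
    linarith

lemma Ex_bool {Sg : Type} [Fintype Sg] (μ : Sg → ℝ) (φ : Sg → Bool) (f : Bool → ℝ) :
    (Ex μ fun σ => f (φ σ)) = (Ex μ fun σ => ind (φ σ = true)) * f true
      + (Ex μ fun σ => ind (φ σ = false)) * f false := by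
  rw [← Ex_mul_right, ← Ex_mul_right, ← Ex_add]
  refine Ex_congr fun σ => ?_
  cases φ σ <;> simp [ind]

lemma Ex_resp {Sg : Type} [Fintype Sg] (μ : Sg → ℝ) (φ : Sg → Bool) (c z : ℝ) :
    (Ex μ fun σ => (Ex μ fun σ' => Real.exp (c * ind (φ σ' ≠ φ σ))) ^ z)
      = (Ex μ fun σ => ind (φ σ = true)) * ((Ex μ fun σ => ind (φ σ = true))
          + (Ex μ fun σ => ind (φ σ = false)) * Real.exp c) ^ z
        + (Ex μ fun σ => ind (φ σ = false)) * ((Ex μ fun σ => ind (φ σ = false))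
          + (Ex μ fun σ => ind (φ σ = true)) * Real.exp c) ^ z := by
  rw [Ex_bool μ φ fun b => (Ex μ fun σ' => Real.exp (c * ind (φ σ' ≠ b))) ^ z,
    Ex_bool μ φ fun b => Real.exp (c * ind (b ≠ true)),
    Ex_bool μ φ fun b => Real.exp (c * ind (b ≠ false))]
  simp [ind, add_comm]

lemma point {Sg : Type} [Fintype Sg] {μ : Sg → ℝ} (h : Prob μ) (φ : Sg → Bool) {a x k : ℝ}
    (ha : 0 ≤ a) (hx0 : 0 < x) (hx : x ≤ 1 / 10) (hk : x * a ≤ 3 / 10 * k) :
    (Ex μ fun σ => (Ex μ fun σ' => Real.exp (-a * ind (φ σ' ≠ φ σ))) ^ (x - 1)) - 1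
      ≤ (1 + k) * (1 - Ex μ fun σ => (Ex μ fun σ' => Real.exp (a * ind (φ σ' ≠ φ σ))) ^ (x - 1))
        + x := by
  rw [Ex_resp, Ex_resp]
  have h1 := Ex_bool μ φ fun _ => 1
  rw [h.Ex_const, mul_one, mul_one] at h1
  have hp : 0 ≤ Ex μ fun σ => ind (φ σ = true) := Ex_nonneg h.1 fun _ => ind_nonneg _
  have hq : 0 ≤ Ex μ fun σ => ind (φ σ = false) := Ex_nonneg h.1 fun _ => ind_nonneg _
  rcases le_total (Ex μ fun σ => ind (φ σ = true)) (Ex μ fun σ => ind (φ σ = false)) with c | c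
  · exact core hp c h1.symm ha hx0 hx hk
  · have := core hq c (by linarith) ha hx0 hx hk
    linarith

end CpJ

theorem stCp : StCp := by
  intro Sg G0 A _ _ _ _ _ _ S d hd hP
  have hd3 : 3 ≤ d := by omega
  have hok := hP.ok hd3
  obtain ⟨hβ, hx0, -, hx, -, -, htp, htm, htp', htm', -⟩ := hP
  have hsm : sm 300 d ≤ 1 / 10 := by
    refine (sm_le_inv (by norm_num) hd3).trans ?_
    have : (1000 : ℝ) ≤ d := by exact_mod_cast hd
    exact one_div_le_one_div_of_le (by norm_num) (by linarith)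
  have hT : S.tp + S.tm ≤ 27 / 10 := by nlinarith
  have hy : 0 ≤ S.y := mul_nonneg (by linarith) hx0.le
  have ha : 0 ≤ S.β * (S.tp + S.tm) := mul_nonneg (by linarith) (by linarith)
  have hk : S.x * (S.β * (S.tp + S.tm)) ≤ 3 / 10 * (9 * S.y) := by
    have : S.x * (S.β * (S.tp + S.tm)) = S.y * (S.tp + S.tm) := by unfold Sys.y; ring
    rw [this]; nlinarith
  unfold Sys.P
  rw [← Cas.P_Ex, ← Cas.P_Ex (f := fun g σ => avg fun a : A =>
    oA ∅ a g * (1 - S.Sv (S.tp + S.tm) a g σ)), ← Cas.P_mul, ← Cas.P_const hok (sm 290 d),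
    ← Cas.P_add]
  refine Cas.P_mono hok fun g _ => ?_
  have hν : Prob (S.nu g) := Cas.nu_prob g
  rw [Ex_avg, Ex_avg, ← avg_mul]
  have hxs : S.x ≤ sm 290 d := hx.trans (sm_anti (by norm_num) d)
  have key : ∀ a : A, (Ex (S.nu g) fun σ => oA ∅ a g * (S.Sv (-(S.tp + S.tm)) a g σ - 1))
      - (1 + 9 * S.y) * (Ex (S.nu g) fun σ => oA ∅ a g * (1 - S.Sv (S.tp + S.tm) a g σ))
        ≤ sm 290 d := fun a => by
    rw [Ex_mul, Ex_mul, Ex_sub, Ex_sub, hν.Ex_const]
    have h := CpJ.point hν (S.sp a) ha hx0 (hx.trans hsm) hk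
    have e1 : Ex (S.nu g) (fun σ => S.Sv (-(S.tp + S.tm)) a g σ) = Ex (S.nu g) fun σ =>
        (Ex (S.nu g) fun σ' => Real.exp (-(S.β * (S.tp + S.tm)) *
          ind (S.sp a σ' ≠ S.sp a σ))) ^ (S.x - 1) := by
      simp only [Sys.Sv, mul_neg]
    have e2 : Ex (S.nu g) (fun σ => S.Sv (S.tp + S.tm) a g σ) = Ex (S.nu g) fun σ =>
        (Ex (S.nu g) fun σ' => Real.exp (S.β * (S.tp + S.tm) *
          ind (S.sp a σ' ≠ S.sp a σ))) ^ (S.x - 1) := rfl
    rw [e1, e2]
    rcases ind_cases (a ∉ (∅ : Finset A) ∧ g.2 a = none) with h0 | h0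
    · rw [oA, h0]; simpa using (sm_pos 290 d).le
    · rw [oA, h0]; linarith
  have h2 := avg_le_const (sm_pos 290 d).le key
  rw [avg_sub] at h2
  linarith

end Pool.Agent.MP_32a90a_pr.D

end

section

set_option autoImplicit false

namespace Pool.Agent.MP_32a90a_pr.D

open Finset Pool.Agent.MP_32a90a_pr Pool.Agent.MP_32a90a_pr.L

namespace D1J

variable {Sg G0 A : Type} [Fintype Sg] [Fintype G0] [Fintype A] [DecidableEq A]
  (S : Sys Sg G0 A) (D : G0 → Sg → ℝ) (I : Finset A) (f : G0 → Sg → ℝ)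

lemma EI_sub (φ ψ : Gam G0 A → Sg → ℝ) :
    S.EI D I f (fun g σ => φ g σ - ψ g σ) = S.EI D I f φ - S.EI D I f ψ := by
  simp only [Sys.EI, Sys.E, mul_sub, Cas.E_sub]

lemma EI_one_sub [Nonempty A] (φ : Gam G0 A → Sg → A → ℝ) :
    S.EI D I f (fun g σ => avg fun a => 1 - φ g σ a)
      = S.EI D I f (fun _ _ => 1) - S.EI D I f fun g σ => avg (φ g σ) := by
  simp only [avg_sub, avg_const, EI_sub]

lemma EI_mul_sub (o : Gam G0 A → A → ℝ) (φ : Gam G0 A → Sg → A → ℝ) :
    S.EI D I f (fun g σ => avg fun a => o g a * (φ g σ a - 1))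
      = S.EI D I f (fun g σ => avg fun a => o g a * φ g σ a)
        - S.EI D I f fun g _ => avg (o g) := by
  simp only [mul_sub, mul_one, avg_sub, EI_sub]

end D1J

theorem stD1 : StD1 := by
  intro Sg G0 A _ _ _ _ _ _ S d c cp hd hP hR
  obtain ⟨r1, r2, r3, r4⟩ := hR
  have hd3 : 3 ≤ d := by omega
  have hd' : (1000 : ℝ) ≤ d := by exact_mod_cast hd
  have := hP.nonempty
  have s0 := sm_pos 250 d
  have s1 : d * sm 250 d ≤ sm 249 d := by
    have := mul_sm_le (a := d) 249 hd3 (by linarith)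
    norm_num at this
    exact this
  have s2 : 2 * sm 249 d ≤ 1 := by
    have := mul_sm_le (a := 2) 248 hd3 (by linarith)
    norm_num at this
    exact this.trans (sm_le_one (by norm_num) d)
  have s3 : 2 * sm 250 d ≤ sm 200 d := by
    have := sm_anti (k := 200) (k' := 249) (by norm_num) d
    nlinarith
  have s4 : 2 * sm 250 d ≤ 1 / d := by
    rw [le_div_iff₀ (by linarith)]
    linarith
  refine ⟨by nlinarith, by nlinarith, fun D I f F hA => ?_⟩
  obtain ⟨a1, a2, a3, -⟩ := r4 D I f F hA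
  have hF : 0 ≤ F := (hA.2.2.1 (Classical.arbitrary _) (Classical.arbitrary _)).trans (hA.2.2.2 _ _)
  have hG : 0 ≤ F * S.N := mul_nonneg hF (Cas.N_pos (hP.ok hd3)).le
  have he : 0 ≤ S.EI D I f fun _ _ => 1 := Cas.E_nonneg ((hP.add D).ok hd3) fun g σ =>
    mul_nonneg (mul_nonneg (ind_nonneg _) (hA.2.2.1 _ _)) zero_le_one
  have e1 : (d * (1 - c) + 1) / d = 1 - c + 1 / d := by field_simp
  have e2 : (d * (1 - c) + 1 - 2) / d = 1 - c - 1 / d := by field_simp; ring
  have e3 : 2 * (d * (1 - c) + 1) / d = 2 * (1 - c) + 2 * (1 / d) := by field_simp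
  have y0 : 0 < S.y := mul_pos (lt_of_lt_of_le one_pos hP.1) hP.2.1
  have y1 := hP.2.2.1
  have k : cp - 1 + 2 * sm 250 d ≤ 2 * (1 - c) + 2 * (1 / d) := by
    nlinarith [mul_nonneg (sub_nonneg.2 r2) (show 0 ≤ 1 - 10 * S.y by linarith), mul_pos y0 s0]
  rw [D1J.EI_one_sub S D I f fun g _ a => oA I a g] at a3 ⊢
  rw [D1J.EI_one_sub S D I f fun g σ a => oA I a g * (S.add D).Sv 2 a g σ,
    D1J.EI_mul_sub S D I f (fun g a => oA I a g) fun g σ a => (S.add D).Sv (-2) a g σ,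
    e1, e2, e3, mul_assoc]
  obtain ⟨b1, b2⟩ := abs_le.1 a1
  obtain ⟨-, b3⟩ := abs_le.1 a2
  have m1 := mul_le_mul_of_nonneg_right s3 hG
  have m2 := mul_le_mul_of_nonneg_right s4 he
  have m3 := mul_le_mul_of_nonneg_right k he
  have m4 := mul_le_mul_of_nonneg_right s3 he
  have m5 := mul_nonneg s0.le he
  have m6 := mul_nonneg s0.le hG
  exact ⟨by linarith, by linarith, by linarith, by linarith⟩

end Pool.Agent.MP_32a90a_pr.D

end

section

set_option autoImplicit false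

namespace Pool.Agent.MP_32a90a_pr.D

open Finset Pool.Agent.MP_32a90a_pr Pool.Agent.MP_32a90a_pr.L

namespace ET2J

lemma prod_close {u v u' v' ε : ℝ} (hu : |u| ≤ 1) (hv' : |v'| ≤ 1) (h1 : |u' - u| ≤ ε)
    (h2 : |v' - v| ≤ ε) : |u' * v' - u * v| ≤ 2 * ε := by
  have e : u' * v' - u * v = (u' - u) * v' + u * (v' - v) := by ring
  have h0 : 0 ≤ ε := (abs_nonneg _).trans h1
  have a1 : |(u' - u) * v'| ≤ ε * 1 := by
    rw [abs_mul]; exact mul_le_mul h1 hv' (abs_nonneg _) h0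
  have a2 : |u * (v' - v)| ≤ 1 * ε := by
    rw [abs_mul]; exact mul_le_mul hu h2 (abs_nonneg _) zero_le_one
  rw [e]
  linarith [abs_add_le ((u' - u) * v') (u * (v' - v))]

lemma close {Sg : Type} [Fintype Sg] {ν μ : Sg → ℝ} (hν : Prob ν) (hμ : Prob μ) {ε y c : ℝ}
    (h : ∀ f : Sg → ℝ, (∀ σ, |f σ| ≤ 1) → |Ex μ f - Ex ν f| ≤ ε) (φ ψ : Sg → Bool) (b : Bool)
    (hy0 : 0 ≤ y) (hy : y ≤ 1 / 1000) (ho : 2 * y * kt ν φ * kt ν ψ - c ≤ sgn b * cv ν φ ψ) :
    2 * y * kt μ φ * kt μ ψ - c - 4 * ε ≤ sgn b * cv μ φ ψ := by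
  have hs : ∀ a : Bool, |sgn a| ≤ 1 := fun a => by cases a <;> simp [sgn]
  have hm : ∀ χ : Sg → Bool, |mm μ χ - mm ν χ| ≤ ε := fun χ => h _ fun σ => hs _
  have h0 : 0 ≤ ε := (abs_nonneg _).trans (hm φ)
  have hk : ∀ χ : Sg → Bool, kt μ χ ≤ kt ν χ + ε := fun χ => by
    have := abs_le.1 (prod_close (hν.abs_mm_le χ) (hμ.abs_mm_le χ) (hm χ) (hm χ))
    unfold kt
    nlinarith [this.1]
  have hp := abs_le.1 (h (fun σ => sgn (φ σ) * sgn (ψ σ)) fun σ => by
    rw [abs_mul]; exact mul_le_one₀ (hs _) (abs_nonneg _) (hs _))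
  have hq := abs_le.1 (prod_close (hν.abs_mm_le φ) (hμ.abs_mm_le ψ) (hm φ) (hm ψ))
  have hc : sgn b * cv ν φ ψ - 3 * ε ≤ sgn b * cv μ φ ψ := by
    unfold cv
    rcases sgn_cases b with e | e <;> rw [e] <;> linarith [hp.1, hp.2, hq.1, hq.2]
  have hkk : kt μ φ * kt μ ψ ≤ kt ν φ * kt ν ψ + ε := by
    have a1 := mul_le_mul_of_nonneg_right (hk φ) (hμ.kt_nonneg ψ)
    have a2 := mul_le_mul_of_nonneg_left (hk ψ) (hν.kt_nonneg φ)
    have a3 := mul_le_mul_of_nonneg_left (kt_le_half (μ := μ) ψ) h0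
    have a4 := mul_le_mul_of_nonneg_left (kt_le_half (μ := ν) φ) h0
    nlinarith
  have a5 := mul_le_mul_of_nonneg_left hkk hy0
  have a6 := mul_le_mul_of_nonneg_right hy h0
  nlinarith

end ET2J

theorem stET2 (hOdds : StOdds) (hResNode : StResNode) (hNear : StNear) (hTower : StTower) :
    StET2 := by
  intro Sg G0 A _ _ _ _ _ _ S d S' a a' b I dl Nd nd g0 hd hP hN hI hdl
  have hd3 : 3 ≤ d := by omega
  have hP' : S'.Par d := hN.par hP
  have hPa : (S.add (S.De a a' b)).Par d := hP.add _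
  let γ0 : Gam G0 A := (g0, fun _ => none)
  have pos : ∀ T : Sys Sg G0 A, T.Par d → 0 < T.cas.p γ0 := fun T hT =>
    T.p_pos hT.2.2.2.2.1 (hT.rho_lt hd3) γ0
  obtain ⟨r1, r2⟩ := hResNode Sg (Gam G0 A) Nd S.cas (fun g => nd g.1) γ0 (hP.ok hd3) (pos S hP)
  have ho := hOdds Sg (Gam G0 A) _ (S.sp a) (S.sp a') b r1 hP.2.2.1
  have e1 : ((S.cas.res fun γ => ind (nd γ.1 = nd γ0.1)).add
      fun _ σ => sgn b * (sgn (S.sp a σ) * sgn (S.sp a' σ))).root
      = (S.add (S.De a a' b)).mu nd (nd g0) := by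
    rw [← r2, Sys.mu, Sys.cas_add]
    rfl
  have e2 : (S.cas.res fun γ => ind (nd γ.1 = nd γ0.1)).root = S.mu nd (nd g0) := by
    have h1 := r2 fun _ _ => 0
    simp only [Cas.add, add_zero] at h1
    exact h1.symm
  rw [e1, e2] at ho
  obtain ⟨t1, -, t3, -⟩ := hTower Sg (Gam G0 A) Nd S'.cas (fun g => nd g.1) (hP'.ok hd3)
  obtain ⟨u1, -, u3, -⟩ :=
    hTower Sg (Gam G0 A) Nd (S.add (S.De a a' b)).cas (fun g => nd g.1) (hPa.ok hd3)
  have hn := (hNear Sg G0 A S d S' (S.De a a' b) I dl hd hP hN (by omega)).2.2 hdl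
  have hy0 : 0 ≤ S.y := mul_nonneg (by linarith [hP.1]) hP.2.1.le
  have key := ET2J.close (ε := sm 280 d) (u1 γ0 (pos _ hPa)) (t1 γ0 (pos _ hP')) (fun f hf => by
    have h1 := hn (fun g => ind (nd g = nd g0)) (fun _ σ => f σ) (fun _ σ => f σ) 1
      (fun _ => ind_nonneg _) (fun _ σ => hf σ) (fun _ σ => hf σ) fun _ _ _ => rfl
    rw [t3, u3]
    rwa [mul_one] at h1) (S.sp a) (S.sp a') b hy0 hP.2.2.1 ho
  have hs : 4 * sm 280 d ≤ sm 250 d := by
    have h1 := mul_sm_le (a := 4) 250 hd3 (by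
      have : (3 : ℝ) ≤ d := by exact_mod_cast hd3
      linarith)
    have h2 := sm_anti (k := 250 + 1) (k' := 280) (by norm_num) d
    linarith
  exact le_trans (by linarith) key

end Pool.Agent.MP_32a90a_pr.D

end

section

set_option autoImplicit false

namespace Pool.Agent.MP_32a90a_pr.D

open Finset Filter Pool.Agent.MP_32a90a_pr Pool.Agent.MP_32a90a_pr.L

namespace ETbJ

variable {Sg G0 A Nd : Type} [Fintype Sg] [Nonempty Sg] [Fintype G0] [Nonempty G0] [Fintype A]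
  [DecidableEq A] {S : Sys Sg G0 A} {d : ℕ}

lemma mu_prob (hT : StTower) (h : S.Par d) (hd : 3 ≤ d) (nd : G0 → Nd) (g0 : G0) :
    Prob (S.mu nd (nd g0)) :=
  (hT Sg (Gam G0 A) Nd S.cas (fun g => nd g.1) (h.ok hd)).1 (g0, fun _ => none)
    (Sys.p_pos h.2.2.2.2.1 (h.rho_lt hd) _)

/-- probability to differ from a reference sample of the node -/
noncomputable def fa (S : Sys Sg G0 A) (nd : G0 → Nd) (Ev : Nd → Prop) (a : A) (g0 : G0)
    (σ : Sg) : ℝ :=
  ind (Ev (nd g0)) * Ex (S.mu nd (nd g0)) fun r => ind (S.sp a σ ≠ S.sp a r)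

lemma fa_mem (hT : StTower) (h : S.Par d) (hd : 3 ≤ d) (nd : G0 → Nd) (Ev : Nd → Prop) (a : A)
    (g0 : G0) (σ : Sg) : 0 ≤ fa S nd Ev a g0 σ ∧ fa S nd Ev a g0 σ ≤ 1 := by
  have h1 := mu_prob hT h hd nd g0
  have h2 : 0 ≤ Ex (S.mu nd (nd g0)) fun r => ind (S.sp a σ ≠ S.sp a r) :=
    Ex_nonneg h1.1 fun _ => ind_nonneg _
  exact ⟨mul_nonneg (ind_nonneg _) h2,
    mul_le_one₀ (ind_le_one _) h2 (h1.Ex_le fun _ => ind_le_one _)⟩

lemma stepA (hT : StTower) (h : S.Par d) (hd : 3 ≤ d) (nd : G0 → Nd) (Ev : Nd → Prop) :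
    (avg fun a => S.P fun g σ => fa S nd Ev a g.1 σ) =
      S.EN nd fun n => ind (Ev n) * zz (S.mu nd n) S.sp := by
  have h1 : ∀ a, (S.P fun g σ => fa S nd Ev a g.1 σ) =
      S.P fun g _ => ind (Ev (nd g.1)) * kt (S.mu nd (nd g.1)) (S.sp a) := by
    intro a
    refine (((hT Sg (Gam G0 A) Nd S.cas (fun g => nd g.1) (h.ok hd)).2.1 fun n σ =>
      ind (Ev n) * Ex (S.mu nd n) fun r => ind (S.sp a σ ≠ S.sp a r)).2).trans ?_
    refine Cas.P_congr fun g _ => ?_
    rw [← (mu_prob hT h hd nd g.1).E2_ne, E2, ← Ex_mul]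
  rw [avg_congr h1, ← Cas.P_avg]
  exact Cas.P_congr fun g _ => avg_mul _ _

omit [Fintype A] [Fintype G0] [Nonempty G0] [DecidableEq A] in
lemma oA_empty (a : A) (g : Gam G0 A) : oA ∅ a g = oI {a} g := ind_congr (by simp)

lemma stepB (hSv : StSv) (h : S.Par d) (hd : 3 ≤ d) {lam : ℝ} (hD : S.D1 d lam)
    (f : A → G0 → Sg → ℝ) (hf : ∀ a g σ, 0 ≤ f a g σ ∧ f a g σ ≤ 1) :
    (avg fun a => S.P fun g σ => f a g.1 σ) - lam / d - sm 200 d ≤
      avg fun a => S.P fun g σ => oI {a} g * f a g.1 σ * S.Sv 2 a g σ := by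
  have hO := h.ok hd
  have hN := Cas.N_pos hO
  have h1 := (hD.2.2 (fun _ _ => 0) ∅ (fun _ _ => 1) 1
    ⟨fun _ _ => by simp, by simp, fun _ _ => zero_le_one, fun _ _ => le_rfl⟩).1
  have h0 : ∀ g : Gam G0 A, oI ∅ g = 1 := fun g => ind_pos (by simp)
  simp only [Sys.EI, Sys.add_zero', h0, one_mul, mul_one, oA_empty] at h1
  have h2 : (S.P fun g σ => avg fun a => 1 - oI {a} g * S.Sv 2 a g σ) ≤ lam / d + sm 200 d := by
    rw [Sys.P, Cas.P, div_le_iff₀ hN, add_mul]
    exact h1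
  rw [Sys.P, Cas.P_avg] at h2
  have h3 : (avg fun a => (S.P fun g σ => f a g.1 σ) -
      S.P fun g σ => 1 - oI {a} g * S.Sv 2 a g σ) ≤
      avg fun a => S.P fun g σ => oI {a} g * f a g.1 σ * S.Sv 2 a g σ := by
    refine avg_mono fun a => ?_
    rw [← Cas.P_sub]
    refine Cas.P_mono hO fun g σ => ?_
    obtain ⟨h4, h5, h6, -⟩ := hSv Sg G0 A S d hd h a g σ
    have h7 : oI {a} g * S.Sv 2 a g σ ≤ 1 :=
      mul_le_one₀ (ind_le_one _) (h4 2).le ((h5 0 2 (by norm_num)).trans h6.le)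
    nlinarith [mul_nonneg (sub_nonneg.2 h7) (sub_nonneg.2 (hf a g.1 σ).2)]
  rw [avg_sub] at h3
  linarith

/-- field that favours the sign opposite to s -/
noncomputable def Ds (S : Sys Sg G0 A) (a : A) (s : Bool) (_g : G0) (σ : Sg) : ℝ :=
  2 * ind (S.sp a σ ≠ s)

omit [Nonempty G0] in
lemma EI_Ds (a : A) (s : Bool) (I : Finset A) (f : G0 → Sg → ℝ) (φ : Gam G0 A → Sg → ℝ) :
    S.EI (Ds S a s) I (fun g σ => ind (S.sp a σ = s) * f g σ) φ =
      S.E fun g σ => ind (S.sp a σ = s) * (oI I g * f g.1 σ * (φ g σ * S.Sv 2 a g σ)) := by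
  rw [Sys.EI, Sys.E, Sys.cas_add, Cas.E_add_eq]
  refine Cas.E_congr fun g σ => ?_
  by_cases hs : S.sp a σ = s
  · subst hs
    have h1 : Ds S a (S.sp a σ) g.1 σ = 0 := by simp [Ds, ind]
    have h2 : (Ex (S.cas.nu g) fun σ' => Real.exp (S.cas.β * Ds S a (S.sp a σ) g.1 σ')) ^
        (S.cas.x - 1) = S.Sv 2 a g σ := by
      simp only [Sys.Sv, Ds, mul_assoc]
      rfl
    rw [h1, h2, mul_zero, Real.exp_zero]
    ring
  · simp [ind_neg hs]

omit [Nonempty G0] in
lemma SN_eq (a a' : A) (g : Gam G0 A) (σ : Sg) :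
    (S.add (Ds S a (S.sp a σ))).Sv 2 a' g σ * S.Sv 2 a g σ = S.SN 2 ![a, a'] g σ := by
  have h0 : 0 < Ex (S.cas.nu g) fun σ' => Real.exp (S.cas.β * Ds S a (S.sp a σ) g.1 σ') :=
    (Cas.nu_prob g).Ex_pos fun _ => Real.exp_pos _
  have h1 : S.Sv 2 a g σ = (Ex (S.cas.nu g) fun σ' =>
      Real.exp (S.cas.β * Ds S a (S.sp a σ) g.1 σ')) ^ (S.x - 1) := by
    simp only [Sys.Sv, Ds, mul_assoc]
    rfl
  have h2 : (S.add (Ds S a (S.sp a σ))).Sv 2 a' g σ =
      (Ex ((S.cas.add fun g σ' => Ds S a (S.sp a σ) g.1 σ').nu g) fun σ' =>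
        Real.exp (S.β * 2 * ind (S.sp a' σ' ≠ S.sp a' σ))) ^ (S.x - 1) := by
    rw [← Sys.cas_add]
    rfl
  rw [h1, h2, ← Real.mul_rpow (Ex_nonneg (Cas.nu_prob g).1 fun _ => (Real.exp_pos _).le) h0.le,
    Cas.Ex_nu_add, div_mul_cancel₀ _ h0.ne', Sys.SN]
  refine congrArg (fun t : ℝ => t ^ (S.x - 1)) (Ex_congr fun σ' => ?_)
  rw [← Real.exp_add]
  refine congrArg Real.exp ?_
  simp only [Ds, dn, Fin.sum_univ_two, Matrix.cons_val_zero, Matrix.cons_val_one]
  show S.β * _ + _ = _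
  ring

lemma stepC (hSv : StSv) (h : S.Par d) (hd : 3 ≤ d) {lam : ℝ} (hD : S.D1 d lam)
    (hl : lam ≤ d / 2) (a : A) (f : G0 → Sg → ℝ) (hf : ∀ g σ, 0 ≤ f g σ ∧ f g σ ≤ 1) :
    (S.P fun g σ => oI {a} g * f g.1 σ * S.Sv 2 a g σ) / 2 - 2 * sm 200 d ≤
      avg fun a' => S.P fun g σ => oI {a} g * f g.1 σ * (oA {a} a' g * S.SN 2 ![a, a'] g σ) := by
  have := h.nonempty
  have hO := h.ok hd
  have hN := Cas.N_pos hO
  have hd' : (3 : ℝ) ≤ d := by exact_mod_cast hd
  have hl' : lam / d ≤ 1 / 2 := by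
    rw [div_le_iff₀ (by linarith)]
    linarith
  have key : ∀ s, (S.E fun g σ => ind (S.sp a σ = s) * (oI {a} g * f g.1 σ * S.Sv 2 a g σ)) / 2
      - sm 200 d * S.N ≤ S.E fun g σ => ind (S.sp a σ = s) * (oI {a} g * f g.1 σ *
        avg fun a' => oA {a} a' g * S.SN 2 ![a, a'] g σ) := by
    intro s
    have h1 := (hD.2.2 (Ds S a s) {a} (fun g σ => ind (S.sp a σ = s) * f g σ) 1
      ⟨fun g σ => by
        have h2 := ind_nonneg (S.sp a σ ≠ s)
        have h3 := ind_le_one (S.sp a σ ≠ s)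
        rw [Ds, abs_le]
        constructor <;> linarith, by simp,
      fun g σ => mul_nonneg (ind_nonneg _) (hf g σ).1,
      fun g σ => mul_le_one₀ (ind_le_one _) (hf g σ).1 (hf g σ).2⟩).1
    rw [EI_Ds, EI_Ds] at h1
    simp only [one_mul, mul_one] at h1
    have h2 : (S.E fun g σ => ind (S.sp a σ = s) * (oI {a} g * f g.1 σ *
        ((avg fun a' => 1 - oA {a} a' g * (S.add (Ds S a s)).Sv 2 a' g σ) * S.Sv 2 a g σ))) =
        (S.E fun g σ => ind (S.sp a σ = s) * (oI {a} g * f g.1 σ * S.Sv 2 a g σ)) -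
        S.E fun g σ => ind (S.sp a σ = s) * (oI {a} g * f g.1 σ *
          avg fun a' => oA {a} a' g * S.SN 2 ![a, a'] g σ) := by
      rw [← Cas.E_sub]
      refine Cas.E_congr fun g σ => ?_
      by_cases hs : S.sp a σ = s
      · subst hs
        simp only [← SN_eq, ← mul_assoc (oA {a} _ g), avg_mul_right, avg_sub, avg_const]
        ring
      · simp [ind_neg hs]
    have h3 : 0 ≤ S.E fun g σ => ind (S.sp a σ = s) * (oI {a} g * f g.1 σ * S.Sv 2 a g σ) :=
      Cas.E_nonneg hO fun g σ => mul_nonneg (ind_nonneg _) (mul_nonneg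
        (mul_nonneg (ind_nonneg _) (hf _ _).1) ((hSv Sg G0 A S d hd h a g σ).1 2).le)
    rw [h2] at h1
    nlinarith [mul_le_mul_of_nonneg_right hl' h3]
  have split : ∀ φ : Gam G0 A → Sg → ℝ, (S.E fun g σ => ind (S.sp a σ = true) * φ g σ) +
      (S.E fun g σ => ind (S.sp a σ = false) * φ g σ) = S.P φ * S.N := by
    intro φ
    rw [← Cas.E_add, ← Cas.E_eq_P_mul hO]
    refine Cas.E_congr fun g σ => ?_
    cases S.sp a σ <;> simp [ind]
  have h4 := add_le_add (key true) (key false)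
  have h5 := split fun g σ => oI {a} g * f g.1 σ * S.Sv 2 a g σ
  rw [split] at h4
  simp only [← avg_mul] at h4
  rw [Sys.P, Cas.P_avg] at h4
  refine le_of_mul_le_mul_right (le_trans (le_of_eq ?_) h4) hN
  linear_combination (-1 / 2 : ℝ) * h5

lemma stepE (hNear : StNear) (hT : StTower) (h : S.Par d) (hd : 1000 ≤ d) {S' : Sys Sg G0 A}
    {D : G0 → Sg → ℝ} {I : Finset A} {dl : ℝ} (hn : S.Near S' D I dl) (hI : I.card ≤ d + 2)
    (hdl : S.β * dl ≤ sm 300 d) (nd : G0 → Nd) (Ev : Nd → Prop) (φ : Sg → Bool) :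
    ((S.add D).EN nd fun n => ind (Ev n) * kt ((S.add D).mu nd n) φ) - 2 * sm 280 d ≤
      S'.EN nd fun n => ind (Ev n) * kt (S'.mu nd n) φ := by
  have hd3 : 3 ≤ d := by omega
  have h' := hn.par h
  have hA := h.add D
  have H := (hNear Sg G0 A S d S' D I dl hd h hn hI).2.2 hdl
  have h1 : ∀ g0, ind (Ev (nd g0)) * kt ((S.add D).mu nd (nd g0)) φ - sm 280 d ≤
      ind (Ev (nd g0)) * kt (S'.mu nd (nd g0)) φ := by
    intro g0
    have h2 := H (fun g => ind (nd g = nd g0)) (fun _ σ => sgn (φ σ)) (fun _ σ => sgn (φ σ)) 1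
      (fun _ => ind_nonneg _) (fun _ σ => by simp) (fun _ σ => by simp) fun _ _ _ => rfl
    have h3 := (hT Sg (Gam G0 A) Nd S'.cas (fun g => nd g.1) (h'.ok hd3)).2.2.1 (nd g0)
      fun σ => sgn (φ σ)
    have h4 := (hT Sg (Gam G0 A) Nd (S.add D).cas (fun g => nd g.1) (hA.ok hd3)).2.2.1 (nd g0)
      fun σ => sgn (φ σ)
    have h5 : |mm (S'.mu nd (nd g0)) φ - mm ((S.add D).mu nd (nd g0)) φ| ≤ sm 280 d := by
      rw [mm, mm, h3, h4]
      exact h2.trans_eq (mul_one _)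
    have h6 := abs_le.1 ((mu_prob hT h' hd3 nd g0).abs_mm_le φ)
    have h7 := abs_le.1 ((mu_prob hT hA hd3 nd g0).abs_mm_le φ)
    have h8 := abs_le.1 h5
    have h9 := sm_pos 280 d
    rcases ind_cases (Ev (nd g0)) with h0 | h0 <;> rw [h0]
    · linarith
    · unfold kt
      nlinarith [mul_nonneg (sub_nonneg.2 h8.1) (show 0 ≤ 2 - (mm (S'.mu nd (nd g0)) φ +
          mm ((S.add D).mu nd (nd g0)) φ) by linarith),
        mul_nonneg (sub_nonneg.2 h8.2) (show 0 ≤ 2 + (mm (S'.mu nd (nd g0)) φ +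
          mm ((S.add D).mu nd (nd g0)) φ) by linarith)]
  have hb : ∀ g : Gam G0 A, |ind (Ev (nd g.1)) * kt ((S.add D).mu nd (nd g.1)) φ| ≤ 1 := by
    intro g
    have h3 := (mu_prob hT hA hd3 nd g.1).kt_nonneg φ
    rw [abs_of_nonneg (mul_nonneg (ind_nonneg _) h3)]
    exact mul_le_one₀ (ind_le_one _) h3 ((kt_le_half φ).trans (by norm_num))
  have h2 := H (fun _ => 1) (fun g _ => ind (Ev (nd g.1)) * kt ((S.add D).mu nd (nd g.1)) φ)
    (fun g _ => ind (Ev (nd g.1)) * kt ((S.add D).mu nd (nd g.1)) φ) 1 (fun _ => zero_le_one)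
    (fun g _ => hb g) (fun g _ => hb g) fun _ _ _ => rfl
  simp only [one_mul, mul_one] at h2
  have h3 := Cas.P_mono (h'.ok hd3) fun (g : Gam G0 A) (_ : Sg) => h1 g.1
  rw [Cas.P_sub, Cas.P_const (h'.ok hd3)] at h3
  have h4 : ((S.add D).EN nd fun n => ind (Ev n) * kt ((S.add D).mu nd n) φ) - sm 280 d ≤
      S'.cas.P fun g _ => ind (Ev (nd g.1)) * kt ((S.add D).mu nd (nd g.1)) φ := by
    exact sub_le_comm.1 (abs_sub_le_iff.1 h2).2
  exact le_trans (by linarith) h3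

end ETbJ

open ETbJ in
theorem stETb (hJoin1 : StJoin1) (hNear : StNear) (hTower : StTower) (hSv : StSv) : StETb := by
  intro Sg G0 A _ _ _ _ _ _ S d lam S' Nd nd Ev hd h hD hl hJ
  have := h.nonempty
  have hd3 : 3 ≤ d := by omega
  have hO := h.ok hd3
  have hf := fa_mem hTower h hd3 nd Ev
  have h280 := sm_pos 280 d
  have h1 : ∀ a a', (S.P fun g σ => oI {a} g * fa S nd Ev a g.1 σ *
      (oA {a} a' g * S.SN 2 ![a, a'] g σ)) / 4 - 2 * sm 280 d ≤ avg fun b => ind (a ≠ a') *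
        (S' a a' b).EN nd fun n => ind (Ev n) * kt ((S' a a' b).mu nd n) (S.sp a) := by
    intro a a'
    by_cases ha : a = a'
    · subst ha
      have h2 : ∀ g : Gam G0 A, oA {a} a g = 0 := fun g => ind_neg (by simp)
      simp only [h2, zero_mul, mul_zero, Cas.P_const hO, ind_neg (not_not.2 (rfl : a = a)),
        avg_zero]
      linarith
    · simp only [ind_pos (show a ≠ a' from ha), one_mul]
      have h2 := hJoin1 Sg G0 A S d a a' Nd nd Ev hd h
      have h3 : (S.P fun g σ => oI {a} g * fa S nd Ev a g.1 σ *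
          (oA {a} a' g * S.SN 2 ![a, a'] g σ)) ≤
          S.P fun g σ => fa S nd Ev a g.1 σ * S.SN 2 ![a, a'] g σ := by
        refine Cas.P_mono hO fun g σ => ?_
        have h4 : 0 ≤ S.SN 2 ![a, a'] g σ := Real.rpow_nonneg
          (Ex_nonneg (Cas.nu_prob g).1 fun _ => (Real.exp_pos _).le) _
        exact mul_le_mul (mul_le_of_le_one_left (hf _ _ _).1 (ind_le_one _))
          (mul_le_of_le_one_left h4 (ind_le_one _)) (mul_nonneg (ind_nonneg _) h4) (hf _ _ _).1
      have h4 : (avg fun b => ((S.add (S.De a a' b)).EN nd fun n =>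
          ind (Ev n) * kt ((S.add (S.De a a' b)).mu nd n) (S.sp a)) - 2 * sm 280 d) ≤
          avg fun b => (S' a a' b).EN nd fun n =>
            ind (Ev n) * kt ((S' a a' b).mu nd n) (S.sp a) := by
        refine avg_mono fun b => ?_
        obtain ⟨dl, h5, h6⟩ := hJ a a' b ha
        exact stepE hNear hTower h hd h6 (card_le_two.trans (by omega)) h5 nd Ev _
      rw [avg_sub, avg_const] at h4
      have h5 : (S.P fun g σ => fa S nd Ev a g.1 σ * S.SN 2 ![a, a'] g σ) / 4 ≤ _ := h2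
      linarith
  have h2 : ∀ a, (S.P fun g σ => oI {a} g * fa S nd Ev a g.1 σ * S.Sv 2 a g σ) / 8 -
      (sm 200 d / 2 + 2 * sm 280 d) ≤ avg fun a' => avg fun b => ind (a ≠ a') *
        (S' a a' b).EN nd fun n => ind (Ev n) * kt ((S' a a' b).mu nd n) (S.sp a) := by
    intro a
    have h3 := avg_mono (h1 a)
    rw [avg_sub, avg_const, avg_div] at h3
    linarith [stepC hSv h hd3 hD hl a (fa S nd Ev a) (hf a)]
  have h3 := avg_mono h2
  rw [avg_sub, avg_const, avg_div] at h3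
  have h4 := stepB hSv h hd3 hD (fa S nd Ev) hf
  rw [stepA hTower h hd3] at h4
  have h5 := sm_anti (k := 100 + 1) (k' := 200) (by norm_num) d
  have h6 := sm_anti (k := 100 + 1) (k' := 280) (by norm_num) d
  have h7 := mul_sm_le (a := 3) 100 hd3 (by
    have : (3 : ℝ) ≤ d := by exact_mod_cast hd3
    linarith)
  linarith [sm_pos (100 + 1) d]

end Pool.Agent.MP_32a90a_pr.D

end

section

set_option autoImplicit false

namespace Pool.Agent.MP_32a90a_pr.D

open Finset Pool.Agent.MP_32a90a_pr Pool.Agent.MP_32a90a_pr.L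

namespace ExcJ

lemma sm_small {d : ℕ} (hd : 1000 ≤ d) {k : ℝ} (hk : 2 ≤ k) : 6 * (d * sm k d) ≤ 1 := by
  have hd3 : 3 ≤ d := by omega
  have hd' : (1000 : ℝ) ≤ d := by exact_mod_cast hd
  have h1 := mul_sm_le (a := (d : ℝ)) (0 + 1) hd3 (by linarith)
  have h2 := mul_sm_le (a := (6 : ℝ)) 0 hd3 (by linarith)
  have h3 := sm_le_one (k := 0) le_rfl d
  have h4 := sm_anti (k := 0 + 1 + 1) (k' := k) (by linarith) d
  have h5 : (d : ℝ) * sm k d ≤ d * sm (0 + 1 + 1) d := mul_le_mul_of_nonneg_left h4 (by linarith)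
  linarith

lemma exp_two_le : Real.exp 2 ≤ 37 / 5 := by
  have h : Real.exp 2 = Real.exp 1 * Real.exp 1 := by rw [← Real.exp_add]; norm_num
  have h1 := Real.exp_one_lt_d9
  have h2 := Real.exp_pos 1
  rw [h]; nlinarith

section
variable {Sg : Type} [Fintype Sg] {μ : Sg → ℝ}

lemma Ex_exp (h : Prob μ) (φ : Sg → Bool) (s b : Bool) :
    (Ex μ fun σ => Real.exp (2 * (sgn s * (sgn b * sgn (φ σ)))))
      = (Real.exp 2 + Real.exp (-2)) / 2
        + sgn s * sgn b * (Real.exp 2 - Real.exp (-2)) / 2 * mm μ φ := by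
  have : ∀ σ, Real.exp (2 * (sgn s * (sgn b * sgn (φ σ))))
      = (Real.exp 2 + Real.exp (-2)) / 2
        + sgn s * sgn b * (Real.exp 2 - Real.exp (-2)) / 2 * sgn (φ σ) := by
    intro σ
    cases s <;> cases b <;> cases φ σ <;> simp [sgn] <;> ring
  simp only [this, Ex_add, Ex_mul, h.Ex_const, mm]

lemma avg_log (h : Prob μ) (φ : Sg → Bool) (s : Bool) :
    (avg fun b : Bool => Real.log (Ex μ fun σ => Real.exp (2 * (sgn s * (sgn b * sgn (φ σ))))))
      ≤ 14 * kt μ φ := by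
  have hp : ∀ b : Bool, 0 < Ex μ fun σ => Real.exp (2 * (sgn s * (sgn b * sgn (φ σ)))) :=
    fun b => h.Ex_pos fun _ => Real.exp_pos _
  rw [avg_bool, ← Real.log_mul (hp true).ne' (hp false).ne']
  have h1 := Real.log_le_sub_one_of_pos (mul_pos (hp true) (hp false))
  rw [Ex_exp h, Ex_exp h] at h1 ⊢
  have hab : Real.exp 2 * Real.exp (-2) = 1 := by rw [← Real.exp_add]; simp
  have ha := exp_two_le
  have hb := Real.exp_pos (-2)
  have hba : Real.exp (-2) ≤ Real.exp 2 := Real.exp_le_exp.2 (by norm_num)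
  have hk := h.kt_nonneg φ
  have hs : sgn s * sgn s = 1 := by cases s <;> simp [sgn]
  have e : ((Real.exp 2 + Real.exp (-2)) / 2
        + sgn s * sgn true * (Real.exp 2 - Real.exp (-2)) / 2 * mm μ φ) *
      ((Real.exp 2 + Real.exp (-2)) / 2
        + sgn s * sgn false * (Real.exp 2 - Real.exp (-2)) / 2 * mm μ φ) - 1
      = (Real.exp 2 - Real.exp (-2)) ^ 2 / 2 * kt μ φ := by
    have t1 : sgn true = 1 := by simp [sgn]
    have t2 : sgn false = -1 := by simp [sgn]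
    rw [t1, t2]
    unfold kt
    linear_combination hab - (Real.exp 2 - Real.exp (-2)) ^ 2 / 4 * mm μ φ ^ 2 * hs
  rw [e] at h1
  have h3 : (Real.exp 2 - Real.exp (-2)) ^ 2 ≤ 56 := by nlinarith
  nlinarith [mul_le_mul_of_nonneg_right h3 hk]

end

section
variable {Sg G0 A : Type} [Fintype Sg] [Nonempty Sg] [Fintype G0] [Nonempty G0] [Fintype A]
  [DecidableEq A] {S : Sys Sg G0 A} {d : ℕ} {lam : ℝ}

omit [Nonempty Sg] [Nonempty G0] in
lemma EI_eq (D : G0 → Sg → ℝ) (φ : Gam G0 A → Sg → ℝ) :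
    S.EI D ∅ (fun _ _ => 1) φ = (S.add D).E φ := by
  unfold Sys.EI
  refine Cas.E_congr fun g σ => ?_
  have : oI (∅ : Finset A) g = 1 := ind_pos (by simp)
  rw [this]; ring

omit [Fintype Sg] [Nonempty Sg] [Fintype G0] [Nonempty G0] [Fintype A] [DecidableEq A] in
lemma adm {D : G0 → Sg → ℝ} (hD : ∀ g σ, |D g σ| ≤ 3 * d) :
    Sys.Adm d D (∅ : Finset A) (fun _ _ => 1) 1 :=
  ⟨hD, by simp, fun _ _ => zero_le_one, fun _ _ => le_rfl⟩

omit [Nonempty G0] in
/-- the mean response as an average of Gibbs means -/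
lemma E_resp (T : Sys Sg G0 A) :
    (T.E fun g σ => avg fun a => 1 - T.Sv 2 a g σ)
      = T.E fun g _ => avg fun a => Ex (T.nu g) fun σ => 1 - T.Sv 2 a g σ := by
  exact (Cas.E_Ex _).symm.trans (Cas.E_congr fun g _ => Ex_avg fun a σ => 1 - T.Sv 2 a g σ)

lemma upper (hSv : StSv) (hd : 1000 ≤ d) (hP : S.Par d) (hβ : S.β = 1) (h1 : S.D1 d lam)
    {D : G0 → Sg → ℝ} (hD : ∀ g σ, |D g σ| ≤ 3 * d) :
    ((S.add D).E fun g _ => avg fun a => kt ((S.add D).nu g) (S.sp a))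
      ≤ 2 * (lam / d * (S.add D).N + sm 200 d * S.N) := by
  have hd3 : 3 ≤ d := by omega
  have hok : (S.add D).cas.Ok := (hP.add D).ok hd3
  have hs := hSv Sg G0 A (S.add D) d hd3 (hP.add D)
  have hb := (h1.2.2 D ∅ _ 1 (adm hD)).1
  rw [EI_eq, EI_eq] at hb
  have e1 : ((S.add D).E fun g σ => avg fun a => 1 - (S.add D).Sv 2 a g σ)
      ≤ (S.add D).E fun g σ => avg fun a => 1 - oA ∅ a g * (S.add D).Sv 2 a g σ :=
    Cas.E_mono hok fun g σ => avg_mono fun a => by
      have h2 := (hs a g σ).1 2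
      have h3 : oA ∅ a g ≤ 1 := ind_le_one _
      nlinarith
  rw [E_resp] at e1
  have e2 : ((S.add D).E fun g _ => avg fun a => kt ((S.add D).nu g) (S.sp a))
      ≤ (S.add D).E fun g _ =>
        2 * avg fun a => Ex ((S.add D).nu g) fun σ => 1 - (S.add D).Sv 2 a g σ :=
    Cas.E_mono hok fun g σ => by
      rw [← avg_mul]
      refine avg_mono fun a => ?_
      have h2 := ((hs a g σ).2.2.2.2.2.2 hβ).1
      have h3 : (S.add D).sp a = S.sp a := rfl
      rw [h3] at h2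
      linarith
  replace e2 := e2.trans_eq (Cas.E_mul _ _)
  have e3 : ((S.add D).E fun _ _ => 1) = (S.add D).N := rfl
  rw [e3] at hb
  linarith

lemma lower (hSv : StSv) (hd : 1000 ≤ d) (hP : S.Par d) (hβ : S.β = 1) (h1 : S.D1 d lam) :
    ((lam - 2) / d - 3 * sm 200 d) * S.N
      ≤ 7 * S.E fun g _ => avg fun a => kt (S.nu g) (S.sp a) := by
  have hd3 : 3 ≤ d := by omega
  have hok : S.cas.Ok := hP.ok hd3
  have hs := hSv Sg G0 A S d hd3 hP
  have hD : ∀ (g : G0) (σ : Sg), |(fun _ _ => (0 : ℝ)) g σ| ≤ 3 * d := fun _ _ => by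
    simp
  have hb := (h1.2.2 _ ∅ _ 1 (adm hD)).2.1
  have hc := (h1.2.2 _ ∅ _ 1 (adm hD)).2.2.2
  rw [EI_eq, EI_eq, Sys.add_zero'] at hb hc
  have e1 : (S.E fun g σ => avg fun a => 1 - oA ∅ a g * S.Sv 2 a g σ)
      ≤ S.E fun g σ => (avg fun a => 1 - S.Sv 2 a g σ) + avg fun a => 1 - oA ∅ a g :=
    Cas.E_mono hok fun g σ => by
      rw [← avg_add]
      refine avg_mono fun a => ?_
      have h2 := (hs a g σ).2.1 0 2 (by norm_num)
      rw [(hs a g σ).2.2.1] at h2
      have h3 : oA ∅ a g ≤ 1 := ind_le_one _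
      nlinarith
  replace e1 := e1.trans_eq (Cas.E_add _ _)
  have e0 := E_resp S
  have e2 : (S.E fun g _ => avg fun a => Ex (S.nu g) fun σ => 1 - S.Sv 2 a g σ)
      ≤ S.E fun g _ => 7 * avg fun a => kt (S.nu g) (S.sp a) :=
    Cas.E_mono hok fun g σ => by
      rw [← avg_mul]
      exact avg_mono fun a => ((hs a g σ).2.2.2.2.2.2 hβ).2
  replace e2 := e2.trans_eq (Cas.E_mul _ _)
  have e3 : (S.E fun _ _ => 1) = S.N := rfl
  rw [e3] at hb hc
  linarith

lemma key (hSv : StSv) (hBd : StBd) (hd : 1000 ≤ d) (hP : S.Par d) (hβ : S.β = 1)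
    (h1 : S.D1 d lam) {D : Sg → ℝ} (hD : ∀ σ, |D σ| ≤ 2 * d) :
    (S.P fun g _ => avg fun a => kt ((S.cas.add fun _ σ => D σ).nu g) (S.sp a))
      ≤ 6 * (lam / d) := by
  have hd3 : 3 ≤ d := by omega
  have hd' : (1000 : ℝ) ≤ d := by exact_mod_cast hd
  have hok : S.cas.Ok := hP.ok hd3
  have hu := upper hSv hd hP hβ h1 (D := fun _ σ => D σ) fun _ σ => (hD σ).trans (by linarith)
  simp only [Sys.E, Sys.N, Sys.nu, Sys.cas_add] at hu
  have hB := (hBd Sg (Gam G0 A) S.cas (fun _ σ => D σ) (2 * d) hok fun _ σ _ => hD σ).2.1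
  have b1 := (hB (fun g => avg fun a => kt ((S.cas.add fun _ σ => D σ).nu g) (S.sp a))
    fun g => avg_nonneg fun a => (Cas.nu_prob g).kt_nonneg _).2.1
  have b2 := (hB (fun _ => 1) fun _ => zero_le_one).1
  have hN := Cas.N_pos hok
  have hy : S.cas.y * (2 * d) ≤ 1 / 3 := by
    have e : S.cas.y = S.x := by
      show S.β * S.x = S.x
      rw [hβ, one_mul]
    have h2 := sm_small hd (k := 300) (by norm_num)
    have h3 : S.x * d ≤ sm 300 d * d := mul_le_mul_of_nonneg_right hP.2.2.2.1 (by linarith)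
    rw [e]; linarith
  have x1 : 2 / 3 ≤ Real.exp (-(S.cas.y * (2 * d))) := by
    linarith [Real.add_one_le_exp (-(S.cas.y * (2 * d)))]
  have x2 : Real.exp (S.cas.y * (2 * d)) ≤ 3 / 2 := by
    have h2 : Real.exp (S.cas.y * (2 * d)) * Real.exp (-(S.cas.y * (2 * d))) = 1 := by
      rw [← Real.exp_add]; simp
    nlinarith [Real.exp_pos (S.cas.y * (2 * d))]
  have hl : 0 ≤ lam / d := div_nonneg (by linarith [h1.1]) (by linarith)
  have hs : sm 200 d ≤ lam / d / 2 := by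
    have h2 := sm_small hd (k := 200) (by norm_num)
    rw [le_div_iff₀ (by norm_num), le_div_iff₀ (by linarith)]
    linarith [h1.1]
  have hE : 0 ≤ S.cas.E fun g _ => avg fun a => kt ((S.cas.add fun _ σ => D σ).nu g) (S.sp a) :=
    Cas.E_nonneg hok fun g _ => avg_nonneg fun a => (Cas.nu_prob g).kt_nonneg _
  have b3 : (S.cas.add fun _ σ => D σ).N ≤ 3 / 2 * S.cas.N :=
    le_trans b2 (mul_le_mul_of_nonneg_right x2 hN.le)
  show _ / _ ≤ _
  rw [div_le_iff₀ hN]
  have b4 := mul_le_mul_of_nonneg_right x1 hE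
  have b5 := mul_le_mul_of_nonneg_left b3 hl
  have b6 := mul_le_mul_of_nonneg_right hs hN.le
  linarith

end

/-- cavity field restricted to the slots of T -/
noncomputable def DT {Sg A : Type} {d : ℕ} (sp : A → Sg → Bool) (s : Bool) (T : Finset (Fin d))
    (ω : Fin d → A × Bool) (σ : Sg) : ℝ :=
  ∑ i ∈ T, 2 * (sgn s * (sgn (ω i).2 * sgn (sp (ω i).1 σ)))

lemma abs_DT {Sg A : Type} {d : ℕ} (sp : A → Sg → Bool) (s : Bool) (T : Finset (Fin d))
    (ω : Fin d → A × Bool) (σ : Sg) : |DT sp s T ω σ| ≤ 2 * d := by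
  refine (abs_sum_le_sum_abs _ _).trans ?_
  have : ∀ i ∈ T, |2 * (sgn s * (sgn (ω i).2 * sgn (sp (ω i).1 σ)))| = 2 := by
    intro i _
    simp [abs_mul]
  rw [sum_congr rfl this, sum_const, nsmul_eq_mul]
  have h : (T.card : ℝ) ≤ d := by
    have := card_le_univ T
    rw [Fintype.card_fin] at this
    exact_mod_cast this
  linarith

lemma DT_update {Sg A : Type} {d : ℕ} (sp : A → Sg → Bool) (s : Bool) {T : Finset (Fin d)}
    {i : Fin d} (hi : i ∉ T) (ω : Fin d → A × Bool) (o : A × Bool) (σ : Sg) :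
    DT sp s (insert i T) (Function.update ω i o) σ
      = DT sp s T ω σ + 2 * (sgn s * (sgn o.2 * sgn (sp o.1 σ))) := by
  unfold DT
  rw [sum_insert hi, Function.update_self, add_comm]
  congr 1
  refine sum_congr rfl fun j hj => ?_
  have hne : j ≠ i := fun h => hi (h ▸ hj)
  rw [Function.update_of_ne hne]

section
variable {Sg G0 A : Type} [Fintype Sg] [Nonempty Sg] [Fintype G0] [Nonempty G0] [Fintype A]
  [DecidableEq A] {S : Sys Sg G0 A} {d : ℕ} {lam : ℝ}

omit [Nonempty G0] [DecidableEq A] in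
lemma log_step (hβ : S.β = 1) (D e : Sg → ℝ) (g : Gam G0 A) :
    Real.log (Ex (S.nu g) fun σ => Real.exp (D σ + e σ))
      = Real.log (Ex (S.nu g) fun σ => Real.exp (D σ))
        + Real.log (Ex ((S.cas.add fun _ σ => D σ).nu g) fun σ => Real.exp (e σ)) := by
  have hb : S.cas.β = 1 := hβ
  have p1 : 0 < Ex (S.nu g) fun σ => Real.exp (D σ) :=
    (Cas.nu_prob g).Ex_pos fun _ => Real.exp_pos _
  have p2 : 0 < Ex (S.nu g) fun σ => Real.exp (D σ) * Real.exp (e σ) :=
    (Cas.nu_prob g).Ex_pos fun _ => mul_pos (Real.exp_pos _) (Real.exp_pos _)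
  rw [Cas.Ex_nu_add]
  simp only [hb, one_mul, Real.exp_add]
  rw [Real.log_div p2.ne' p1.ne']
  ring

lemma tele (hSv : StSv) (hBd : StBd) (hd : 1000 ≤ d) (hP : S.Par d) (hβ : S.β = 1)
    (h1 : S.D1 d lam) (s : Bool) (T : Finset (Fin d)) :
    (avg fun ω : Fin d → A × Bool => S.P fun g _ =>
        Real.log (Ex (S.nu g) fun σ => Real.exp (DT S.sp s T ω σ)))
      ≤ T.card * (84 * (lam / d)) := by
  have hd3 : 3 ≤ d := by omega
  have hok : S.cas.Ok := hP.ok hd3
  have hA : Nonempty A := hP.nonempty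
  induction T using Finset.induction_on with
  | empty =>
    have : ∀ ω : Fin d → A × Bool, (S.P fun g _ =>
        Real.log (Ex (S.nu g) fun σ => Real.exp (DT S.sp s ∅ ω σ))) = 0 := fun ω => by
      rw [← Cas.P_const hok 0]
      refine Cas.P_congr fun g _ => ?_
      simp only [DT, sum_empty, Real.exp_zero]
      rw [(Cas.nu_prob g).Ex_const, Real.log_one]
    rw [avg_congr this, avg_zero]
    simp
  | insert i T hi ih =>
    rw [avg_update i, card_insert_of_notMem hi]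
    have : ∀ ω : Fin d → A × Bool, (avg fun o : A × Bool => S.P fun g _ => Real.log
        (Ex (S.nu g) fun σ => Real.exp (DT S.sp s (insert i T) (Function.update ω i o) σ)))
        ≤ (S.P fun g _ => Real.log (Ex (S.nu g) fun σ => Real.exp (DT S.sp s T ω σ)))
          + 84 * (lam / d) := fun ω => by
      have hk := key hSv hBd hd hP hβ h1 (abs_DT S.sp s T ω)
      rw [← Cas.P_avg]
      have h2 : (S.P fun g _ => avg fun o : A × Bool => Real.log
          (Ex (S.nu g) fun σ => Real.exp (DT S.sp s (insert i T) (Function.update ω i o) σ)))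
          ≤ S.P fun g _ => Real.log (Ex (S.nu g) fun σ => Real.exp (DT S.sp s T ω σ))
            + 14 * avg fun a => kt ((S.cas.add fun _ σ => DT S.sp s T ω σ).nu g) (S.sp a) :=
        Cas.P_mono hok fun g _ => by
          simp only [DT_update S.sp s hi, log_step hβ]
          rw [avg_add, avg_const, avg_prod, ← avg_mul]
          exact add_le_add le_rfl (avg_mono fun a => avg_log (Cas.nu_prob g) (S.sp a) s)
      replace h2 := h2.trans_eq (Cas.P_add _ _)
      rw [Cas.P_mul] at h2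
      linarith
    refine (avg_mono this).trans ?_
    rw [avg_add, avg_const]
    push_cast
    linarith

end

end ExcJ

theorem stExc (hSv : StSv) (hBd : StBd) : StExc := by
  intro Sg G0 A _ _ _ _ _ _ S d lam s hd hP hβ h1
  have hd3 : 3 ≤ d := by omega
  have hd' : (1000 : ℝ) ≤ d := by exact_mod_cast hd
  have hok : S.cas.Ok := hP.ok hd3
  have hN := Cas.N_pos hok
  have hs := ExcJ.sm_small hd (k := 200) (by norm_num)
  have hl := h1.1
  refine ⟨?_, ?_, ?_⟩
  · have ht := ExcJ.tele hSv hBd hd hP hβ h1 s univ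
    have e : ∀ (ω : Fin d → A × Bool) σ,
        ExcJ.DT S.sp s univ ω σ = 2 * (sgn s * hom S.sp ∅ ω σ) := fun ω σ => by
      simp only [ExcJ.DT, hom, Jc, notMem_empty, if_false, mul_sum]
    simp only [e, card_univ, Fintype.card_fin] at ht
    have e2 : (d : ℝ) * (84 * (lam / d)) = 84 * lam := by field_simp
    linarith
  · have hu := ExcJ.upper hSv hd hP hβ h1 (D := fun _ _ => 0) fun _ _ => by simp
    rw [Sys.add_zero'] at hu
    show _ / _ ≤ _
    rw [div_le_iff₀ hN]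
    have h2 : 2 * sm 200 d ≤ lam / d := by
      rw [le_div_iff₀ (by linarith)]; linarith
    have h3 := mul_le_mul_of_nonneg_right h2 hN.le
    have e : 3 * lam / d * S.cas.N = 3 * (lam / d * S.cas.N) := by ring
    rw [e]
    linarith
  · have hu := ExcJ.lower hSv hd hP hβ h1
    show _ ≤ _ / _
    rw [le_div_iff₀ hN]
    have h2 : 3 * sm 200 d ≤ 1 / d := by
      rw [le_div_iff₀ (by linarith)]
      have := mul_nonneg (by linarith : (0 : ℝ) ≤ d) (sm_pos 200 d).le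
      linarith
    have e : (lam - 3) / (7 * d) = ((lam - 2) / d - 1 / d) / 7 := by
      field_simp; ring
    have h3 := mul_le_mul_of_nonneg_right h2 hN.le
    rw [e]
    linarith

end Pool.Agent.MP_32a90a_pr.D

end

section

set_option autoImplicit false

namespace Pool.Agent.MP_32a90a_pr.D

open Finset Filter Pool.Agent.MP_32a90a_pr Pool.Agent.MP_32a90a_pr.L

namespace GwJ

lemma abs_term {A Sg : Type} {d : ℕ} (sp : A → Sg → Bool) (AA : Finset (Fin d)) (i : Fin d)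
    (o : A × Bool) (σ : Sg) : |Jc AA i o.2 * sgn (sp o.1 σ)| = 1 := by
  unfold Jc
  split_ifs <;> simp [abs_mul]

lemma hom_le {A Sg : Type} {d : ℕ} (sp : A → Sg → Bool) (AA : Finset (Fin d))
    (ω : Fin d → A × Bool) (σ : Sg) : |hom sp AA ω σ| ≤ d := by
  refine (abs_sum_le_sum_abs _ _).trans ?_
  simp only [abs_term]
  simp

lemma hom_update {A Sg : Type} {d : ℕ} (sp : A → Sg → Bool) (AA : Finset (Fin d))
    (ω : Fin d → A × Bool) (i : Fin d) (o : A × Bool) (σ : Sg) :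
    |hom sp AA (Function.update ω i o) σ - hom sp AA ω σ| ≤ 2 := by
  unfold hom
  rw [← sum_sub_distrib, sum_eq_single i]
  · refine (abs_sub _ _).trans ?_
    rw [abs_term, abs_term]
    norm_num
  · intro j _ hj
    rw [Function.update_of_ne hj, sub_self]
  · intro h
    exact absurd (mem_univ i) h

lemma exp_abs_le (β h : ℝ) :
    Real.exp (β * |h|) ≤ Real.exp (β * (sgn true * h)) + Real.exp (β * (sgn false * h)) := by
  have h1 := (Real.exp_pos (β * (sgn true * h))).le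
  have h2 := (Real.exp_pos (β * (sgn false * h))).le
  rcases abs_cases h with ⟨e, -⟩ | ⟨e, -⟩
  · have : β * |h| = β * (sgn true * h) := by rw [e]; simp [sgn]
    rw [this]; linarith
  · have : β * |h| = β * (sgn false * h) := by rw [e]; simp [sgn]
    rw [this]; linarith

lemma sgn_mul_le (s : Bool) (h : ℝ) : sgn s * h ≤ |h| := by
  refine (le_abs_self _).trans ?_
  rw [abs_mul, abs_sgn, one_mul]

end GwJ

open GwJ in
theorem stGw (hTilt : StTilt) : StGw := by
  intro Sg G0 A _ _ _ _ _ _ S d d' AA ω hd hP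
  have hok : S.cas.Ok := hP.ok hd
  have hβ : 0 < S.β := hok.1
  have hx0 : 0 < S.x := hok.2.1
  have hx1 : S.x ≤ 1 := hok.2.2.1
  have hpow : ∀ t : ℝ, Real.exp (S.β * t) ^ S.x = Real.exp (S.y * t) := by
    intro t
    rw [← Real.exp_mul]
    congr 1
    unfold Sys.y
    ring
  have hT : ∀ (ω : Fin d → A × Bool) g, (Ex (S.nu g) fun σ => Real.exp (S.β * |hom S.sp AA ω σ|))
      ≤ S.Psi AA ω true g + S.Psi AA ω false g := by
    intro ω g
    unfold Sys.Psi
    rw [← Ex_add]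
    exact Ex_mono (Cas.nu_prob g).1 fun σ => exp_abs_le _ _
  have hT1 : ∀ (ω : Fin d → A × Bool) g, 1 ≤ S.Psi AA ω true g + S.Psi AA ω false g := by
    intro ω g
    refine le_trans ((Cas.nu_prob g).le_Ex fun σ => ?_) (hT ω g)
    exact Real.one_le_exp (mul_nonneg hβ.le (abs_nonneg _))
  have hQ1 : ∀ ω : Fin d → A × Bool,
      1 ≤ S.P fun g _ => (S.Psi AA ω true g + S.Psi AA ω false g) ^ S.x :=
    fun ω => Cas.const_le_P hok fun g _ => Real.one_le_rpow (hT1 ω g) hx0.le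
  have hQ0 : ∀ ω : Fin d → A × Bool,
      0 < S.P fun g _ => (S.Psi AA ω true g + S.Psi AA ω false g) ^ S.x :=
    fun ω => lt_of_lt_of_le one_pos (hQ1 ω)
  refine ⟨one_div_pos.2 (hQ0 ω), (div_le_one (hQ0 ω)).2 (hQ1 ω), ?_, ?_, fun i o => ?_,
    fun i o σ => hom_update _ _ _ _ _ _, fun σ => hom_le _ _ _ _⟩
  · unfold Sys.Gw
    rw [one_div, inv_mul_le_iff₀ (hQ0 ω), mul_one, ← Cas.P_root, ← Cas.P_Ex]
    refine Cas.P_mono hok fun g _ => ?_
    have h1 := (Cas.nu_prob (C := S.cas) g).Ex_rpow_le hx0.le hx1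
      (f := fun σ => Real.exp (S.β * |hom S.sp AA ω σ|)) fun σ => (Real.exp_pos _).le
    simp only [hpow] at h1
    exact h1.trans (Real.rpow_le_rpow
      (Ex_nonneg (Cas.nu_prob g).1 fun σ => (Real.exp_pos _).le) (hT ω g) hx0.le)
  · unfold Sys.Gw
    rw [one_div, le_inv_mul_iff₀ (hQ0 ω), mul_one]
    refine Cas.P_le_const hok fun g _ => ?_
    have h1 : ∀ s, S.Psi AA ω s g ≤ Real.exp (S.β * d) := fun s =>
      (Cas.nu_prob g).Ex_le fun σ => Real.exp_le_exp.2 (mul_le_mul_of_nonneg_left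
        ((sgn_mul_le _ _).trans (hom_le _ _ _ _)) hβ.le)
    have h2 : S.Psi AA ω true g + S.Psi AA ω false g ≤ 2 * Real.exp (S.β * d) := by
      linarith [h1 true, h1 false]
    refine (Real.rpow_le_rpow (by linarith [hT1 ω g]) h2 hx0.le).trans ?_
    rw [Real.mul_rpow (by norm_num) (Real.exp_pos _).le, hpow]
    refine mul_le_mul_of_nonneg_right ?_ (Real.exp_pos _).le
    simpa using Real.rpow_le_rpow_of_exponent_le (x := 2) (by norm_num) hx1
  · unfold Sys.Gw
    rw [mul_one_div, div_le_div_iff₀ (hQ0 _) (hQ0 _), one_mul, ← Cas.P_mul]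
    refine Cas.P_mono hok fun g _ => ?_
    have h1 : ∀ s, S.Psi AA ω s g
        ≤ Real.exp (S.β * 2) * S.Psi AA (Function.update ω i o) s g := by
      intro s
      unfold Sys.Psi
      rw [← Ex_mul]
      refine Ex_mono (Cas.nu_prob g).1 fun σ => ?_
      rw [← Real.exp_add, ← mul_add]
      refine Real.exp_le_exp.2 (mul_le_mul_of_nonneg_left ?_ hβ.le)
      have h3 := hom_update S.sp AA ω i o σ
      rw [abs_sub_comm] at h3
      have h4 := sgn_mul_le s (hom S.sp AA ω σ - hom S.sp AA (Function.update ω i o) σ)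
      linarith
    have h2 : S.Psi AA ω true g + S.Psi AA ω false g ≤ Real.exp (S.β * 2) *
        (S.Psi AA (Function.update ω i o) true g + S.Psi AA (Function.update ω i o) false g) := by
      linarith [h1 true, h1 false]
    refine (Real.rpow_le_rpow (by linarith [hT1 ω g]) h2 hx0.le).trans ?_
    rw [Real.mul_rpow (Real.exp_pos _).le (by linarith [hT1 (Function.update ω i o) g]), hpow,
      mul_comm S.y 2]

end Pool.Agent.MP_32a90a_pr.D

end

section

set_option autoImplicit false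

namespace Pool.Agent.MP_32a90a_pr.D

open Finset Filter Pool.Agent.MP_32a90a_pr Pool.Agent.MP_32a90a_pr.L

namespace HKJ

lemma oI_empty {G0 A : Type} (g : Gam G0 A) : oI (∅ : Finset A) g = 1 :=
  ind_pos fun a ha => absurd ha (notMem_empty a)

/-- flexible pool positions are rare -/
lemma flex (hSv : StSv) {Sg G0 A : Type} [Fintype Sg] [Nonempty Sg] [Fintype G0] [Nonempty G0]
    [Fintype A] [DecidableEq A] (S : Sys Sg G0 A) {d : ℕ} {lam : ℝ} (hd : 3 ≤ d) (hP : S.Par d)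
    (hD : S.D1 d lam) (hβ : 2 ≤ S.β) (f : Sg → ℝ) (F : ℝ) (h0 : ∀ σ, 0 ≤ f σ)
    (hF : ∀ σ, f σ ≤ F) :
    (S.cas.P fun γ σ => f σ * avg fun a => ind (Real.exp (-S.β) ≤ mn (S.cas.nu γ) (S.sp a)))
      ≤ 2 * lam / d * (S.cas.P fun _ σ => f σ) + 2 * sm 200 d * F := by
  have hok := hP.ok hd
  have hN := Cas.N_pos hok
  have h1 := (hD.2.2 (fun _ _ => 0) ∅ (fun _ σ => f σ) F
    ⟨fun _ _ => by simp, by simp, fun _ σ => h0 σ, fun _ σ => hF σ⟩).1
  simp only [Sys.EI, Sys.add_zero', oI_empty, one_mul, mul_one] at h1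
  have h2 : (S.cas.E fun γ σ =>
        f σ * avg fun a => ind (Real.exp (-S.β) ≤ mn (S.cas.nu γ) (S.sp a)))
      ≤ S.cas.E fun g σ => 2 * (f σ * avg fun a : A => 1 - oA ∅ a g * S.Sv 2 a g σ) := by
    refine Cas.E_mono hok fun g σ => ?_
    rw [mul_left_comm (2 : ℝ), ← avg_mul 2]
    refine mul_le_mul_of_nonneg_left (avg_mono fun a => ?_) (h0 σ)
    obtain ⟨s1, s2, s3, -, s5, -⟩ := hSv Sg G0 A S d hd hP a g σ
    have o0 : 0 ≤ oA ∅ a g := ind_nonneg _
    have o1 : oA ∅ a g ≤ 1 := ind_le_one _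
    have e1 : oA ∅ a g * S.Sv 2 a g σ ≤ S.Sv 2 a g σ := mul_le_of_le_one_left (s1 2).le o1
    by_cases h : Real.exp (-S.β) ≤ mn (S.cas.nu g) (S.sp a)
    · rw [ind_pos h]
      linarith [s5 hβ h]
    · rw [ind_neg h]
      linarith [s2 0 2 (by norm_num)]
  rw [Cas.E_mul] at h2
  rw [Cas.P, div_le_iff₀ hN, add_mul, mul_assoc (2 * lam / d), ← Cas.E_eq_P_mul hok]
  have e : 2 * lam / d = 2 * (lam / d) := by ring
  rw [e]
  linarith

end HKJ

theorem stHK (hSer : StSer) (hPat : StPat) (hSv : StSv) : StHK := by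
  intro Sg G0 A _ _ _ _ _ _ S d k lam hd hP hD hβ hk
  have hd3 : 3 ≤ d := by omega
  have : Nonempty A := hP.nonempty
  have hok := hP.ok hd3
  have hdH : S.dH = avg fun a => avg fun a' =>
      Real.log (S.cas.add fun _ σ => sgn true * (sgn (S.sp a σ) * sgn (S.sp a' σ))).N
        - Real.log (S.cas.add fun _ σ => sgn false * (sgn (S.sp a σ) * sgn (S.sp a' σ))).N := by
    unfold Sys.dH
    simp only [Sys.N, Sys.cas_add]
    rfl
  obtain ⟨h0, r, hr, hb⟩ := hSer Sg (Gam G0 A) A S.cas S.sp k hok hβ hP.2.2.1 hk.pos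
  rw [← hdH] at h0 hb
  refine ⟨h0, ?_⟩
  have key := hPat Sg (Gam G0 A) A S.cas S.sp k r (Real.exp (-S.β)) (2 * lam / d) (2 * sm 200 d)
    (k * (16 / S.y) ^ k * S.dH) (Real.exp (S.β / 2)) hok hk hr (Real.exp_pos _).le
    (by have := sm_pos 200 d; positivity) hb
    (fun f F h0 hF => HKJ.flex hSv S hd3 hP hD hβ f F h0 hF)
  have e : 2 * Real.exp (S.β / 2) * Real.exp (-S.β) = 2 * Real.exp (-(S.β / 2)) := by
    rw [mul_assoc, ← Real.exp_add]; congr 2; ring
  rwa [e] at key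

end Pool.Agent.MP_32a90a_pr.D

end

section

set_option autoImplicit false

namespace Pool.Agent.MP_32a90a_pr.D

open Finset Filter Pool.Agent.MP_32a90a_pr Pool.Agent.MP_32a90a_pr.L

namespace MeckeJ

variable {Sg G0 A : Type} [Fintype Sg] [Fintype G0] [Fintype A] [DecidableEq A]

/-- put a gadget of sign b at a -/
def up (a : A) (b : Bool) (g : Gam G0 A) : Gam G0 A := (g.1, Function.update g.2 a (some b))

lemma sum_up (a : A) (b : Bool) (Φ : Gam G0 A → ℝ) :
    ∑ g, ind (g.2 a = some b) * Φ g = ∑ g : Gam G0 A, ind (g.2 a = none) * Φ (up a b g) := by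
  let f : Gam G0 A → Gam G0 A :=
    fun g => (g.1, Function.update g.2 a (Equiv.swap none (some b) (g.2 a)))
  have hf : Function.Involutive f := by
    rintro ⟨g, z⟩
    simp [f]
  rw [← Equiv.sum_comp hf.toPerm]
  refine sum_congr rfl fun g _ => ?_
  by_cases h : g.2 a = none
  · simp [f, h, up, ind]
  · have : Equiv.swap none (some b) (g.2 a) ≠ some b := by
      rw [Ne, Equiv.swap_apply_eq_iff, Equiv.swap_apply_right]; exact h
    simp [f, h, this, ind]

omit [Fintype Sg] in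
lemma p_up (S : Sys Sg G0 A) (hρ : S.ρ < 1) (a : A) (b : Bool) (g : Gam G0 A)
    (h : g.2 a = none) : S.cas.p (up a b g) = S.rs * S.cas.p g := by
  have h1 : (1 : ℝ) - S.ρ ≠ 0 := by linarith
  simp only [Sys.cas, up, Sys.rs]
  rw [← mul_prod_erase univ _ (mem_univ a), ← mul_prod_erase univ (fun a => bb S.ρ (g.2 a))
    (mem_univ a), h, Function.update_self,
    prod_congr rfl fun a' ha' => by rw [Function.update_of_ne (ne_of_mem_erase ha')]]
  simp only [bb]
  field_simp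

omit [Fintype Sg] in
lemma H_up (S : Sys Sg G0 A) (a : A) (b : Bool) (g : Gam G0 A) (h : g.2 a = none) :
    S.cas.H (up a b g) = fun σ => S.cas.H g σ + gad S.tp S.tm (some b) (S.sp a σ) := by
  funext σ
  simp only [Sys.cas, up]
  rw [← add_sum_erase univ _ (mem_univ a),
    ← add_sum_erase univ (fun a => gad S.tp S.tm (g.2 a) (S.sp a σ)) (mem_univ a), h,
    Function.update_self,
    sum_congr rfl fun a' ha' => by rw [Function.update_of_ne (ne_of_mem_erase ha')]]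
  simp only [gad]
  ring

variable [Nonempty Sg]

lemma wt_up (S : Sys Sg G0 A) (hρ : S.ρ < 1) (a : A) (b : Bool) (g : Gam G0 A)
    (h : g.2 a = none) (σ : Sg) : S.cas.wt (up a b g) σ = S.rs * (S.cas.wt g σ *
      (Real.exp (S.β * gad S.tp S.tm (some b) (S.sp a σ)) *
        (Ex (S.nu g) fun σ' => Real.exp (S.β * gad S.tp S.tm (some b) (S.sp a σ'))) ^ (S.x - 1))) := by
  have := Cas.wt_add (C := S.cas) (fun _ σ => gad S.tp S.tm (some b) (S.sp a σ)) g σ
  rw [show S.cas.β = S.β from rfl, show S.cas.x = S.x from rfl] at this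
  rw [← this, Cas.wt, Cas.wt, Cas.nu, Cas.nu, p_up S hρ a b g h, H_up S a b g h]
  simp only [Cas.add, mul_assoc]

/-- one gadget against no gadget -/
lemma E_up (S : Sys Sg G0 A) (hρ : S.ρ < 1) (a : A) (b : Bool) (F : Gam G0 A → Sg → ℝ) :
    (S.E fun g σ => ind (g.2 a = some b) * F g σ) = S.rs * S.E fun g σ => ind (g.2 a = none) *
      (Real.exp (S.β * gad S.tp S.tm (some b) (S.sp a σ)) *
        (Ex (S.nu g) fun σ' => Real.exp (S.β * gad S.tp S.tm (some b) (S.sp a σ'))) ^ (S.x - 1) *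
          F (up a b g) σ) := by
  have h1 := sum_up a b fun g => ∑ σ, S.cas.wt g σ * F g σ
  simp only [Cas.E, mul_sum] at h1 ⊢
  rw [sum_congr rfl fun g _ => sum_congr rfl fun σ _ => mul_left_comm _ _ _, h1]
  refine sum_congr rfl fun g _ => sum_congr rfl fun σ _ => ?_
  by_cases h : g.2 a = none
  · rw [wt_up S hρ a b g h]; ring
  · rw [ind_neg h]; ring

omit [DecidableEq A] in
lemma fac (S : Sys Sg G0 A) (a : A) (b : Bool) (g : Gam G0 A) (σ : Sg) (c t : ℝ)
    (h : ∀ s, gad S.tp S.tm (some b) s = c + t * ind (s ≠ S.sp a σ)) :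
    Real.exp (S.β * gad S.tp S.tm (some b) (S.sp a σ)) *
      (Ex (S.nu g) fun σ' => Real.exp (S.β * gad S.tp S.tm (some b) (S.sp a σ'))) ^ (S.x - 1)
      = Real.exp (S.y * c) * S.Sv t a g σ := by
  have h2 : 0 < Ex (S.nu g) fun σ' => Real.exp (S.β * t * ind (S.sp a σ' ≠ S.sp a σ)) :=
    (Cas.nu_prob g).Ex_pos fun _ => Real.exp_pos _
  have e : (fun σ' => Real.exp (S.β * gad S.tp S.tm (some b) (S.sp a σ')))
      = fun σ' => Real.exp (S.β * c) * Real.exp (S.β * t * ind (S.sp a σ' ≠ S.sp a σ)) := by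
    funext σ'; rw [h, ← Real.exp_add]; congr 1; ring
  rw [e, Ex_mul, Real.mul_rpow (Real.exp_pos _).le h2.le, ← Real.exp_mul, h,
    ind_neg (not_not.2 rfl), Sys.Sv, ← mul_assoc, ← Real.exp_add, Sys.y]
  congr 2
  ring

omit [Fintype Sg] [Fintype G0] [Fintype A] [Nonempty Sg] in
lemma oI_up (I : Finset A) (a : A) (b : Bool) (g : Gam G0 A) :
    ind (g.2 a = none) * oI I (up a b g) = oI I g * oA I a g := by
  rw [oI, oI, oA, ← ind_and, ← ind_and]
  refine ind_congr ⟨fun h => ?_, fun h => ⟨h.2.2, fun a' ha' => ?_⟩⟩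
  · have ha : a ∉ I := fun ha => by simpa [up] using h.2 a ha
    refine ⟨fun a' ha' => ?_, ha, h.1⟩
    have hne : a' ≠ a := fun e => ha (e ▸ ha')
    simpa [up, hne] using h.2 a' ha'
  · have hne : a' ≠ a := fun e => h.2.1 (e ▸ ha')
    simpa [up, hne] using h.1 a' ha'

lemma gen (S : Sys Sg G0 A) (hρ : S.ρ < 1) (I : Finset A) (χ : A → G0 → Sg → ℝ)
    (φ : Bool → Bool) (c t : ℝ)
    (h : ∀ s0 s, gad S.tp S.tm (some (φ s0)) s = c + t * ind (s ≠ s0)) :
    (S.E fun g σ => oI I g * ∑ a, χ a g.1 σ * ind (g.2 a = some (φ (S.sp a σ))))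
      = S.rs * Real.exp (S.y * c) *
        ∑ a, (S.E fun g σ => oI I g * oA I a g * χ a g.1 σ * S.Sv t a g σ) := by
  simp only [mul_sum]
  refine (Cas.E_sum _ _).trans (sum_congr rfl fun a _ => ?_)
  have e : (S.E fun g σ => oI I g * (χ a g.1 σ * ind (g.2 a = some (φ (S.sp a σ)))))
      = S.E fun g σ => ∑ b, ind (g.2 a = some b) *
        (oI I g * χ a g.1 σ * ind (b = φ (S.sp a σ))) := by
    refine Cas.E_congr fun g σ => ?_
    rw [sum_eq_single (φ (S.sp a σ)) (fun b _ hb => by rw [ind_neg hb, mul_zero, mul_zero])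
      (fun h => absurd (mem_univ _) h), ind_pos rfl]
    ring
  refine (e.trans (Cas.E_sum _ _)).trans ?_
  refine (sum_congr rfl fun b _ => E_up S hρ a b _).trans ?_
  rw [← mul_sum, mul_assoc]
  congr 1
  refine (Cas.E_sum _ _).symm.trans (Eq.trans ?_ (Cas.E_mul _ _))
  refine Cas.E_congr fun g σ => ?_
  rw [sum_eq_single (φ (S.sp a σ)) (fun b _ hb => by rw [ind_neg hb]; ring)
    (fun h => absurd (mem_univ _) h), ind_pos rfl, fac S a _ g σ c t (h _), ← oI_up I a
      (φ (S.sp a σ))]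
  simp only [up]
  ring

end MeckeJ

theorem stMecke : StMecke := by
  intro Sg G0 A _ _ _ _ _ _ S I χ hρ
  constructor
  · rw [← mul_neg]
    refine MeckeJ.gen S hρ I χ (fun s => !s) _ _ fun s0 s => ?_
    cases s0 <;> cases s <;> simp [gad, ind]
  · refine MeckeJ.gen S hρ I χ (fun s => s) _ _ fun s0 s => ?_
    cases s0 <;> cases s <;> simp [gad, ind]

end Pool.Agent.MP_32a90a_pr.D

end

section

set_option autoImplicit false

namespace Pool.Agent.MP_32a90a_pr.D

open Finset Filter Pool.Agent.MP_32a90a_pr Pool.Agent.MP_32a90a_pr.L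

namespace OIJ

variable {Sg G0 A : Type} [Fintype Sg] [Nonempty Sg] [Fintype G0] [Nonempty G0] [Fintype A]
  [DecidableEq A] {S : Sys Sg G0 A} {d : ℕ}

/-- weight of a child -/
noncomputable def W (S : Sys Sg G0 A) (g : Gam G0 A) : ℝ :=
  S.cas.p g * Zf S.cas.β (S.cas.H g) ^ S.cas.x

omit [Nonempty G0] in
lemma E_W (F : Gam G0 A → ℝ) : (S.E fun g _ => F g) = ∑ g, W S g * F g := by
  rw [Sys.E, Cas.E_eq]
  exact sum_congr rfl fun g _ => by rw [(Cas.nu_prob g).Ex_const, W]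

omit [Fintype Sg] [Nonempty Sg] [Fintype G0] [Nonempty G0] [DecidableEq A] in
lemma rho_le (h : S.Par d) (hd : 1000 ≤ d) : S.ρ ≤ 1 / ((d : ℝ) + 1) :=
  h.2.2.2.2.2.1.trans (sm_le_inv (by norm_num) (by omega))

omit [Nonempty G0] in
lemma W_le (h : S.Par d) (hd : 1000 ≤ d) (g : Gam G0 A) (a : A) (b : Bool) (hg : g.2 a = none) :
    W S (g.1, Function.update g.2 a (some b)) ≤ S.ρ * W S g := by
  have hd' : (1000 : ℝ) ≤ d := by exact_mod_cast hd
  have hρ : S.ρ ≤ 1 / 4 :=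
    (rho_le h hd).trans (one_div_le_one_div_of_le (by norm_num) (by linarith))
  obtain ⟨h1, h2, h3, -, h5, -, h7, h8, h9, -⟩ := h
  have htp : S.tp ≤ 2 := by
    have := sm_le_one (k := 300) (by norm_num) d
    nlinarith
  have hy : 0 ≤ S.y := mul_nonneg (by linarith) h2.le
  have he : Real.exp (S.y * S.tp) ≤ 3 / 2 := by
    have e1 : S.y * S.tp ≤ 1 / 500 := by nlinarith
    have e2 := Real.exp_bound_div_one_sub_of_interval (x := 1 / 500) (by norm_num) (by norm_num)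
    exact (Real.exp_le_exp.2 e1).trans (e2.trans (by norm_num))
  have e1 : ∀ (f : A → Option Bool → ℝ) (o : Option Bool), ∀ a' ∈ univ.erase a,
      f a' (Function.update g.2 a o a') = f a' (g.2 a') := fun f o a' ha => by
    rw [Function.update_of_ne (ne_of_mem_erase ha)]
  have hZ : Zf S.β (S.cas.H (g.1, Function.update g.2 a (some b))) ≤
      Real.exp (S.β * S.tp) * Zf S.β (S.cas.H g) := by
    unfold Zf
    rw [mul_sum]
    refine sum_le_sum fun σ _ => ?_
    rw [← Real.exp_add, ← mul_add]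
    refine Real.exp_le_exp.2 (mul_le_mul_of_nonneg_left ?_ (by linarith))
    simp only [Sys.cas]
    rw [← add_sum_erase _ _ (mem_univ a), ← add_sum_erase _ _ (mem_univ a),
      sum_congr rfl (e1 (fun a' o => gad S.tp S.tm o (S.sp a' σ)) (some b)), Function.update_self,
      hg]
    simp only [gad]
    split_ifs <;> linarith
  have hZ' : Zf S.β (S.cas.H (g.1, Function.update g.2 a (some b))) ^ S.x ≤
      3 / 2 * Zf S.β (S.cas.H g) ^ S.x := by
    refine (Real.rpow_le_rpow (Zf_pos _ _).le hZ h2.le).trans ?_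
    rw [Real.mul_rpow (Real.exp_pos _).le (Zf_pos _ _).le, ← Real.exp_mul,
      show S.β * S.tp * S.x = S.y * S.tp by rw [Sys.y]; ring]
    exact mul_le_mul_of_nonneg_right he (Real.rpow_nonneg (Zf_pos _ _).le _)
  have hR : 0 ≤ (∏ a' ∈ univ.erase a, bb S.ρ (g.2 a')) / Fintype.card G0 :=
    div_nonneg (prod_nonneg fun a' _ => by cases g.2 a' <;> simp only [bb] <;> linarith)
      (Nat.cast_nonneg _)
  have p1 : S.cas.p (g.1, Function.update g.2 a (some b)) =
      S.ρ / 2 * ((∏ a' ∈ univ.erase a, bb S.ρ (g.2 a')) / Fintype.card G0) := by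
    simp only [Sys.cas]
    rw [← mul_prod_erase _ _ (mem_univ a), prod_congr rfl (e1 (fun _ o => bb S.ρ o) (some b)),
      Function.update_self, mul_div_assoc]
    rfl
  have p2 : S.cas.p g =
      (1 - S.ρ) * ((∏ a' ∈ univ.erase a, bb S.ρ (g.2 a')) / Fintype.card G0) := by
    simp only [Sys.cas]
    rw [← mul_prod_erase _ _ (mem_univ a), hg, mul_div_assoc]
    rfl
  have hz := Real.rpow_nonneg (Zf_pos S.β (S.cas.H g)).le S.x
  unfold W
  rw [p1, p2]
  change _ * Zf S.β _ ^ S.x ≤ _ * (_ * Zf S.β _ ^ S.x)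
  refine (mul_le_mul_of_nonneg_left hZ' (by positivity)).trans ?_
  have k := mul_nonneg (mul_nonneg h5.le (mul_nonneg hR hz)) (show 0 ≤ 1 / 4 - S.ρ by linarith)
  nlinarith

omit [Nonempty G0] in
lemma some_le (h : S.Par d) (hd : 1000 ≤ d) (a : A) (b : Bool) (F : Gam G0 A → ℝ)
    (h0 : ∀ g, 0 ≤ F g) (hF : ∀ g o, F (g.1, Function.update g.2 a o) = F g) :
    ∑ g, W S g * (ind (g.2 a = some b) * F g) ≤ S.ρ * ∑ g, W S g * (ind (g.2 a = none) * F g) := by
  have hi : Function.Involutive fun g : Gam G0 A =>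
      ((g.1, Function.update g.2 a (Equiv.swap none (some b) (g.2 a))) : Gam G0 A) := fun g => by
    simp
  rw [← Equiv.sum_comp hi.toPerm, mul_sum]
  refine sum_le_sum fun g _ => ?_
  simp only [Function.Involutive.coe_toPerm, Function.update_self, hF]
  by_cases hg : g.2 a = none
  · rw [hg, Equiv.swap_apply_left, ind_pos rfl, ind_pos rfl, ← mul_assoc S.ρ]
    exact mul_le_mul_of_nonneg_right (W_le h hd g a b hg) (mul_nonneg zero_le_one (h0 g))
  · rw [ind_neg hg, ind_neg fun e => hg (by simpa [Equiv.swap_apply_eq_iff] using e)]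
    simp

omit [Nonempty G0] in
lemma one_step (h : S.Par d) (hd : 1000 ≤ d) (a : A) (F : Gam G0 A → ℝ)
    (h0 : ∀ g, 0 ≤ F g) (hF : ∀ g o, F (g.1, Function.update g.2 a o) = F g) :
    ∑ g, W S g * F g ≤ (1 + 2 * S.ρ) * ∑ g, W S g * (ind (g.2 a = none) * F g) := by
  have e : ∑ g, W S g * F g = ∑ g, W S g * (ind (g.2 a = none) * F g) +
      ∑ g, W S g * (ind (g.2 a = some true) * F g) +
      ∑ g, W S g * (ind (g.2 a = some false) * F g) := by
    rw [← sum_add_distrib, ← sum_add_distrib]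
    refine sum_congr rfl fun g _ => ?_
    rcases g.2 a with _ | _ | _ <;> simp [ind]
  have h1 := some_le h hd a true F h0 hF
  have h2 := some_le h hd a false F h0 hF
  linarith

end OIJ

open OIJ in
theorem stOI : StOI := by
  intro Sg G0 A _ _ _ _ _ _ S d φ I hd h hφ
  have hρ := h.2.2.2.2.1
  have a1 : (S.E fun g _ => φ g.1) ≤
      (1 + 2 * S.ρ) ^ I.card * (S.E fun g _ => oI I g * φ g.1) := by
    induction I using Finset.induction_on with
    | empty => simp [oI, ind]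
    | insert a I ha ih =>
      refine ih.trans ?_
      rw [card_insert_of_notMem ha, pow_succ, mul_assoc]
      refine mul_le_mul_of_nonneg_left ?_ (by positivity)
      rw [E_W, E_W]
      refine (one_step h hd a (fun g => oI I g * φ g.1) (fun g => mul_nonneg (ind_nonneg _) (hφ _))
        fun g o => ?_).trans (le_of_eq ?_)
      · congr 1
        refine ind_congr (forall₂_congr fun a' ha' => ?_)
        rw [show (g.1, Function.update g.2 a o).2 a' = g.2 a' from
          Function.update_of_ne (ne_of_mem_of_not_mem ha' ha) _ _]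
      · simp only [oI, forall_mem_insert, ind_and, mul_assoc]
  refine ⟨a1, fun hI => ?_⟩
  have h0 : 0 ≤ S.E fun g _ => oI I g * φ g.1 :=
    Cas.E_nonneg (h.ok (by omega)) fun g _ => mul_nonneg (ind_nonneg _) (hφ _)
  have hd' : (1000 : ℝ) ≤ d := by exact_mod_cast hd
  have hI' : (I.card : ℝ) ≤ d + 2 := by exact_mod_cast hI
  have a2 : 2 * S.ρ * I.card ≤ sm 298 d := by
    have e1 := mul_sm_le (a := (d : ℝ) + 1) 298 (d := d) (by omega) le_rfl
    have e2 := mul_sm_le (a := (4 : ℝ)) 299 (d := d) (by omega) (by linarith)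
    have e3 := h.2.2.2.2.2.1
    norm_num at e1 e2
    have e4 : 2 * S.ρ * I.card ≤ (d + 1) * (4 * S.ρ) := by nlinarith
    have e5 : ((d : ℝ) + 1) * (4 * S.ρ) ≤ (d + 1) * sm 299 d :=
      mul_le_mul_of_nonneg_left (by linarith) (by linarith)
    linarith
  have a3 : (1 + 2 * S.ρ) ^ I.card ≤ 1 + sm 295 d := by
    have e1 : (1 + 2 * S.ρ) ^ I.card ≤ Real.exp (2 * S.ρ * I.card) := by
      rw [mul_comm _ (I.card : ℝ), Real.exp_nat_mul]
      exact pow_le_pow_left₀ (by positivity) (by linarith [Real.add_one_le_exp (2 * S.ρ)]) _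
    have e2 := mul_sm_le (a := (2 : ℝ)) 297 (d := d) (by omega) (by linarith)
    have e3 := sm_anti (k := 295) (k' := 297) (by norm_num) d
    have e4 := sm_le_one (k := 298) (by norm_num) d
    have e5 := (abs_le.1 (Real.abs_exp_sub_one_le (x := sm 298 d)
      (by rwa [abs_of_pos (sm_pos _ _)]))).2
    rw [abs_of_pos (sm_pos _ _)] at e5
    have e6 := Real.exp_le_exp.2 a2
    norm_num at e2
    linarith
  have a4 : (S.E fun g _ => (1 - oI I g) * φ g.1) =
      (S.E fun g _ => φ g.1) - S.E fun g _ => oI I g * φ g.1 := by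
    rw [← Cas.E_sub]
    exact Cas.E_congr fun g _ => by ring
  have a5 := mul_le_mul_of_nonneg_right a3 h0
  linarith

end Pool.Agent.MP_32a90a_pr.D

end

section

set_option autoImplicit false

namespace Pool.Agent.MP_32a90a_pr.D

open Finset Filter Pool.Agent.MP_32a90a_pr Pool.Agent.MP_32a90a_pr.L

namespace PatJ

section pw
variable {ι : Type} [Fintype ι] [DecidableEq ι] {Ω : ι → Type} [∀ i, Fintype (Ω i)]

/-- product weight -/
def pw (w : ∀ i, Ω i → ℝ) (ω : ∀ i, Ω i) : ℝ := ∏ i, w i (ω i)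

lemma Ex_pw_prod (w f : ∀ i, Ω i → ℝ) :
    Ex (pw w) (fun ω => ∏ i, f i (ω i)) = ∏ i, Ex (w i) (f i) := by
  simp only [Ex, pw, ← prod_mul_distrib]
  rw [prod_univ_sum, Fintype.piFinset_univ]

lemma pw_prob {w : ∀ i, Ω i → ℝ} (h : ∀ i, Prob (w i)) : Prob (pw w) := by
  refine ⟨fun ω => prod_nonneg fun i _ => (h i).1 _, ?_⟩
  have := Ex_pw_prod w fun _ _ => 1
  simp only [(h _).Ex_const, prod_const_one] at this
  simpa [Ex] using this

lemma Ex_pw_update {w : ∀ i, Ω i → ℝ} (i : ι) (h : Prob (w i)) (f : (∀ i, Ω i) → ℝ) :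
    Ex (pw w) f = Ex (pw w) fun ω => Ex (w i) fun o => f (Function.update ω i o) := by
  let e : ((∀ i, Ω i) × Ω i) ≃ ((∀ i, Ω i) × Ω i) :=
    { toFun := fun p => (Function.update p.1 i p.2, p.1 i)
      invFun := fun p => (Function.update p.1 i p.2, p.1 i)
      left_inv := by rintro ⟨ω, o⟩; simp
      right_inv := by rintro ⟨ω, o⟩; simp }
  have h1 := e.sum_comp fun p => pw w p.1 * w i p.2 * f p.1
  have h2 : ∀ (ω : ∀ i, Ω i) (o : Ω i),
      pw w (Function.update ω i o) * w i (ω i) = pw w ω * w i o := by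
    intro ω o
    unfold pw
    rw [← mul_prod_erase univ _ (mem_univ i), ← mul_prod_erase univ (fun j => w j (ω j))
      (mem_univ i), Function.update_self]
    rw [prod_congr rfl fun j hj => by rw [Function.update_of_ne (ne_of_mem_erase hj)]]
    ring
  simp only [Fintype.sum_prod_type, e, Equiv.coe_fn_mk, h2] at h1
  simp only [Ex, mul_sum]
  calc ∑ ω, pw w ω * f ω = ∑ ω, ∑ o, pw w ω * w i o * f ω := by
        refine sum_congr rfl fun ω _ => ?_
        rw [← sum_mul, ← mul_sum, h.2, mul_one]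
    _ = _ := by
        rw [← h1]
        exact sum_congr rfl fun _ _ => sum_congr rfl fun _ _ => by ring

lemma Ex_pw_coord {w : ∀ i, Ω i → ℝ} (h : ∀ i, Prob (w i)) (i : ι) (u : Ω i → ℝ) :
    Ex (pw w) (fun ω => u (ω i)) = Ex (w i) u := by
  rw [Ex_pw_update i (h i)]
  simp only [Function.update_self]
  exact (pw_prob h).Ex_const _

omit [DecidableEq ι] [∀ i, Fintype (Ω i)] in
lemma ind_forall (p : ι → Prop) : ind (∀ i, p i) = ∏ i, ind (p i) := by
  by_cases h : ∀ i, p i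
  · rw [ind_pos h, prod_eq_one fun i _ => ind_pos (h i)]
  · rw [ind_neg h]
    push Not at h
    obtain ⟨i, hi⟩ := h
    exact (prod_eq_zero (mem_univ i) (ind_neg hi)).symm

end pw

lemma Ex_pw_map {Sg : Type} [Fintype Sg] {k : ℕ} {Ω : Fin k → Type} [∀ i, Fintype (Ω i)]
    (w : ∀ i, Ω i → ℝ) (g : ∀ i, Ω i → Sg) (μ : Sg → ℝ)
    (h : ∀ i s, (Ex (w i) fun o => ind (g i o = s)) = μ s) (G : (Fin k → Sg) → ℝ) :
    (Ex (pw w) fun ω => G fun i => g i (ω i)) = Ek μ k G := by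
  classical
  have h1 : ∀ τ' : Fin k → Sg, G τ' = ∑ τ, G τ * ∏ i, ind (τ' i = τ i) := by
    intro τ'
    simp only [← ind_forall, ← funext_iff]
    simp [ind]
  rw [Ex_congr fun ω => h1 _, Ex_sum, Ek]
  refine sum_congr rfl fun τ _ => ?_
  rw [Ex_mul, Ex_pw_prod w fun i o => ind (g i o = τ i), mul_comm]
  simp only [h]

/-- the pointwise pattern inequality -/
lemma pat_abs {A X : Type} [Fintype A] [Fintype X] (n : X → X) (hn : Function.Involutive n)
    (s : X → ℝ) (hs : ∀ π, s (n π) = -s π) {B : ℝ} (hB : ∑ π, s π ^ 2 ≤ B) (x : A → X) :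
    (avg fun a => s (x a)) ^ 2
      ≤ B * avg fun a => avg fun a' => ind (x a = x a') - ind (x a = n (x a')) := by
  classical
  set p : X → ℝ := fun π => avg fun a => ind (x a = π) with hp
  have hf : ∀ f : X → ℝ, (avg fun a => f (x a)) = ∑ π, f π * p π := by
    intro f
    have : ∀ a, f (x a) = ∑ π, f π * ind (x a = π) := by intro a; simp [ind]
    rw [avg_congr this, avg_sum]
    exact sum_congr rfl fun π _ => avg_mul _ _
  have hsw : ∀ f : X → ℝ, ∑ π, f (n π) = ∑ π, f π := fun f => Equiv.sum_comp hn.toPerm f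
  have h1 : 2 * (avg fun a => s (x a)) = ∑ π, s π * (p π - p (n π)) := by
    have := hsw fun π => s π * p π
    simp only [hs, neg_mul, sum_neg_distrib] at this
    simp only [hf, mul_sub, sum_sub_distrib]
    linarith
  have h2 : 2 * (avg fun a => avg fun a' => ind (x a = x a') - ind (x a = n (x a')))
      = ∑ π, (p π - p (n π)) ^ 2 := by
    rw [avg_comm]
    have : ∀ a', (avg fun a => ind (x a = x a') - ind (x a = n (x a')))
        = p (x a') - p (n (x a')) := fun a' => avg_sub _ _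
    rw [avg_congr this, hf fun π => p π - p (n π)]
    have h3 := hsw fun π => p π ^ 2
    have h4 : ∀ π, (p π - p (n π)) ^ 2
        = 2 * ((p π - p (n π)) * p π) + (p (n π) ^ 2 - p π ^ 2) := fun π => by ring
    simp only [h4, sum_add_distrib, sum_sub_distrib, ← mul_sum]
    linarith
  have h3 := sum_mul_sq_le_sq_mul_sq univ s fun π => p π - p (n π)
  have h4 : 0 ≤ ∑ π, (p π - p (n π)) ^ 2 := sum_nonneg fun _ _ => sq_nonneg _
  have h5 : 0 ≤ ∑ π, s π ^ 2 := sum_nonneg fun _ _ => sq_nonneg _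
  rw [← h1, ← h2] at h3
  rw [← h2] at h4
  nlinarith [mul_le_mul_of_nonneg_right hB h4, mul_nonneg h5 h4]

section cw
variable {Sg Gm : Type} [Fintype Sg] [Nonempty Sg] [Fintype Gm]

/-- a child together with r replicas -/
noncomputable def cw (C : Cas Sg Gm) (r : ℕ) (o : Gm × (Fin r → Sg)) : ℝ :=
  C.p o.1 * Zf C.β (C.H o.1) ^ C.x / C.N * pw (fun _ : Fin r => C.nu o.1) o.2

lemma Ex_cw (C : Cas Sg Gm) (r : ℕ) (f : Gm × (Fin r → Sg) → ℝ) :
    Ex (cw C r) f = C.P fun γ _ => Ex (pw fun _ : Fin r => C.nu γ) fun ρ => f (γ, ρ) := by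
  rw [Cas.P, Cas.E_eq, sum_div, Ex, Fintype.sum_prod_type]
  refine sum_congr rfl fun γ _ => ?_
  rw [(Cas.nu_prob γ).Ex_const, Ex, mul_sum, sum_div]
  exact sum_congr rfl fun ρ _ => by rw [cw]; ring

lemma cw_prob {C : Cas Sg Gm} (h : C.Ok) (r : ℕ) : Prob (cw C r) := by
  refine ⟨fun o => mul_nonneg (div_nonneg (mul_nonneg (h.2.2.2.1 _)
    (Real.rpow_nonneg (Zf_pos _ _).le _)) (Cas.N_pos h).le)
    ((pw_prob fun _ => Cas.nu_prob _).1 _), ?_⟩
  have := Ex_cw C r fun _ => 1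
  simp only [(pw_prob fun _ => Cas.nu_prob _).Ex_const, Cas.P_const h] at this
  simpa [Ex] using this

lemma Ex_cw_one (C : Cas Sg Gm) {r : ℕ} (j : Fin r) (h : Gm → Sg → ℝ) :
    (Ex (cw C r) fun o => h o.1 (o.2 j)) = C.P h := by
  rw [Ex_cw, ← Cas.P_Ex h]
  exact Cas.P_congr fun γ _ =>
    Ex_pw_coord (Ω := fun _ : Fin r => Sg) (fun _ => Cas.nu_prob γ) j (h γ)

lemma Ex_cw_all (C : Cas Sg Gm) (r : ℕ) (φ : Sg → Prop) :
    (Ex (cw C r) fun o => ind (∀ j, φ (o.2 j)))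
      = C.P fun γ _ => (Ex (C.nu γ) fun σ => ind (φ σ)) ^ r := by
  rw [Ex_cw]
  refine Cas.P_congr fun γ _ => ?_
  simp only [ind_forall]
  rw [Ex_pw_prod (Ω := fun _ : Fin r => Sg) (fun _ => C.nu γ) fun _ σ => ind (φ σ)]
  simp

/-- majority value -/
noncomputable def maj (ν : Sg → ℝ) (φ : Sg → Bool) : Bool := decide (0 ≤ mm ν φ)

omit [Nonempty Sg] in
lemma Ex_maj {ν : Sg → ℝ} (h : Prob ν) (φ : Sg → Bool) :
    (Ex ν fun σ => ind (φ σ = !maj ν φ)) = mn ν φ := by
  rw [h.Ex_ind_bool, mn, maj]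
  by_cases h0 : 0 ≤ mm ν φ
  · simp [h0, sgn, abs_of_nonneg h0]; ring
  · simp [h0, sgn, abs_of_neg (not_le.1 h0)]

end cw

section sg
variable {k : ℕ} {r : Fin k → ℕ}

/-- signed indicator of the clean patterns -/
noncomputable def sc (z : ∀ i, Fin (r i)) (π : ∀ i, Fin (r i) → Bool) : ℝ :=
  ∏ i, sgn (π i (z i)) * ind (∀ j, π i j = π i (z i))

lemma sc_neg (hk : Odd k) (z : ∀ i, Fin (r i)) (π : ∀ i, Fin (r i) → Bool) :
    sc z (fun i j => !π i j) = -sc z π := by
  have h1 : ∀ b, sgn (!b) = (-1) * sgn b := fun b => by cases b <;> simp [sgn]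
  simp only [sc, h1, Bool.not_inj_iff, mul_assoc, prod_mul_distrib, prod_const, card_univ,
    Fintype.card_fin, hk.neg_one_pow]
  ring

lemma sc_sq (z : ∀ i, Fin (r i)) : ∑ π, sc z π ^ 2 ≤ 2 ^ k := by
  classical
  have h1 : ∀ π, sc z π ^ 2 = ∏ i, ind (∀ j, π i j = π i (z i)) := by
    intro π
    rw [sc, ← prod_pow]
    refine prod_congr rfl fun i _ => ?_
    rw [mul_pow, sq, sq, sgn_mul_self, ind_mul_self, one_mul]
  simp only [h1]
  rw [← Fintype.piFinset_univ,
    ← prod_univ_sum (fun _ => univ) fun i (p : Fin (r i) → Bool) => ind (∀ j, p j = p (z i))]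
  calc _ ≤ ∏ _i : Fin k, (2 : ℝ) := by
        refine prod_le_prod (fun i _ => sum_nonneg fun _ _ => ind_nonneg _) fun i _ => ?_
        calc _ ≤ ∑ p : Fin (r i) → Bool, (ind (p = fun _ => true) + ind (p = fun _ => false)) := by
              refine sum_le_sum fun p _ => le_trans (ind_mono fun h => ?_) (ind_or_le _ _)
              cases hz : p (z i)
              · exact Or.inr (funext fun j => (h j).trans hz)
              · exact Or.inl (funext fun j => (h j).trans hz)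
          _ = 2 := by
              have h2 : ∀ c : Fin (r i) → Bool, ∑ p : Fin (r i) → Bool, ind (p = c) = 1 := by
                intro c
                rw [sum_eq_single c (fun p _ hp => ind_neg hp) (by simp), ind_pos rfl]
              rw [sum_add_distrib, h2, h2]; norm_num
    _ = _ := by simp

lemma sc_diff (z : ∀ i, Fin (r i)) (π : ∀ i, Fin (r i) → Bool) :
    |∏ i, sgn (π i (z i)) - sc z π| ≤ ∑ i, ind (¬ ∀ j, π i j = π i (z i)) := by
  by_cases h : ∀ i j, π i j = π i (z i)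
  · have : sc z π = ∏ i, sgn (π i (z i)) :=
      prod_congr rfl fun i _ => by rw [ind_pos (h i), mul_one]
    rw [this, sub_self, abs_zero]
    exact sum_nonneg fun _ _ => ind_nonneg _
  · obtain ⟨i, hi⟩ := not_forall.1 h
    have : sc z π = 0 := prod_eq_zero (mem_univ i) (by rw [ind_neg hi, mul_zero])
    rw [this, sub_zero, abs_prod]
    simp only [abs_sgn, prod_const_one]
    exact (ind_pos hi).symm.trans_le (single_le_sum
      (f := fun i => ind (¬ ∀ j, π i j = π i (z i))) (fun _ _ => ind_nonneg _) (mem_univ i))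

end sg

lemma unclean {r : ℕ} (z : Fin r) (p : Fin r → Bool) (m : Bool) (Q : Prop) :
    ind (¬ ∀ j, p j = p z) ≤ ind Q + ∑ j, ind (¬ Q) * ind (p j = !m) := by
  have h0 : 0 ≤ ∑ j, ind (¬ Q) * ind (p j = !m) :=
    sum_nonneg fun _ _ => mul_nonneg (ind_nonneg _) (ind_nonneg _)
  by_cases hQ : Q
  · rw [ind_pos hQ]; linarith [ind_le_one (¬ ∀ j, p j = p z)]
  · by_cases h : ∀ j, p j = p z
    · rw [ind_neg (not_not.2 h)]; linarith [ind_nonneg Q]
    · obtain ⟨j, hj⟩ := not_forall.1 h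
      obtain ⟨j', hj'⟩ : ∃ j', p j' = !m := by
        by_cases h1 : p j = !m
        · exact ⟨j, h1⟩
        · refine ⟨z, ?_⟩
          revert hj h1
          cases p j <;> cases p z <;> cases m <;> simp
      have := single_le_sum (f := fun j => ind (¬ Q) * ind (p j = !m))
        (fun _ _ => mul_nonneg (ind_nonneg _) (ind_nonneg _)) (mem_univ j')
      simp only [ind_pos hQ, ind_pos hj', mul_one] at this
      rw [ind_neg hQ, ind_pos h]
      simp only [ind_pos hQ]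
      linarith

section main
variable {Sg Gm A : Type} [Fintype Sg] [Nonempty Sg] [Fintype Gm] [Fintype A]
  {C : Cas Sg Gm} {k : ℕ} {r : Fin k → ℕ}

/-- the clean part -/
lemma clean_le (h : C.Ok) (sp : A → Sg → Bool) (hk : Odd k) (z : ∀ i, Fin (r i)) {Dl : ℝ}
    (h1 : (avg fun a => avg fun a' =>
        ∏ i, (C.P fun γ _ => (Ex (C.nu γ) fun σ => ind (sp a σ = sp a' σ)) ^ r i)
          - ∏ i, (C.P fun γ _ => (Ex (C.nu γ) fun σ => ind (sp a σ ≠ sp a' σ)) ^ r i)) ≤ Dl) :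
    (Ex (pw fun i => cw C (r i)) fun ω => |avg fun a => sc z fun i j => sp a ((ω i).2 j)|)
      ≤ Real.sqrt (2 ^ k * Dl) := by
  have hW : Prob (pw fun i => cw C (r i)) := pw_prob fun i => cw_prob h _
  refine Real.le_sqrt_of_sq_le ((hW.sq_Ex_le _).trans ?_)
  simp only [sq_abs]
  refine (Ex_mono hW.1 fun ω => pat_abs (fun (π : ∀ i, Fin (r i) → Bool) i j => !π i j)
    (fun π => by simp) (sc z) (sc_neg hk z) (sc_sq z)
    fun a i j => sp a ((ω i).2 j)).trans ?_
  rw [Ex_mul]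
  refine mul_le_mul_of_nonneg_left (le_trans (le_of_eq ?_) h1) (by positivity)
  rw [Ex_avg]
  refine avg_congr fun a => ?_
  rw [Ex_avg]
  refine avg_congr fun a' => ?_
  rw [Ex_sub]
  simp only [← Ex_cw_all]
  rw [← Ex_pw_prod, ← Ex_pw_prod]
  congr 1
  · refine Ex_congr fun ω => ?_
    rw [← ind_forall]
    exact ind_congr (by simp only [funext_iff])
  · refine Ex_congr fun ω => ?_
    rw [← ind_forall]
    refine ind_congr ?_
    simp only [funext_iff]
    exact forall_congr' fun i => forall_congr' fun j => Bool.eq_not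

lemma first_law (z : ∀ i, Fin (r i)) (G : (Fin k → Sg) → ℝ) :
    (Ex (pw fun i => cw C (r i)) fun ω => G fun i => (ω i).2 (z i)) = Ek C.root k G :=
  Ex_pw_map (fun i => cw C (r i)) (fun i o => o.2 (z i)) C.root
    (fun i s => Ex_cw_one C (z i) fun _ σ => ind (σ = s)) G

/-- the flexible part -/
lemma flex_le (h : C.Ok) (z : ∀ i, Fin (r i)) (u : Gm → ℝ) {α e : ℝ}
    (h2 : ∀ (f : Sg → ℝ) (F : ℝ), (∀ σ, 0 ≤ f σ) → (∀ σ, f σ ≤ F) →
      (C.P fun γ σ => f σ * u γ) ≤ α * (C.P fun _ σ => f σ) + e * F)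
    (T : (Fin k → Sg) → ℝ) (F : ℝ) (h0 : ∀ τ, 0 ≤ T τ) (hF : ∀ τ, T τ ≤ F) (i : Fin k) :
    (Ex (pw fun i => cw C (r i)) fun ω => (T fun i => (ω i).2 (z i)) * u (ω i).1)
      ≤ α * Ek C.root k T + e * F := by
  have hW : Prob (pw fun i => cw C (r i)) := pw_prob fun i => cw_prob h _
  have hu : ∀ (ω : ∀ i, Gm × (Fin (r i) → Sg)) (o : Gm × (Fin (r i) → Sg)),
      (fun j => (Function.update ω i o j).2 (z j))
        = Function.update (fun j => (ω j).2 (z j)) i (o.2 (z i)) := by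
    intro ω o
    funext j
    by_cases hj : j = i
    · subst hj; simp
    · simp [Function.update_of_ne hj]
  rw [← first_law z T, Ex_pw_update i (cw_prob h _),
    Ex_pw_update (w := fun i => cw C (r i)) i (cw_prob h _)
      fun ω => T fun i => (ω i).2 (z i), ← Ex_mul,
    ← hW.Ex_const (e * F), ← Ex_add]
  refine Ex_mono hW.1 fun ω => ?_
  simp only [hu, Function.update_self]
  rw [Ex_cw_one C (z i) fun γ σ => T (Function.update (fun j => (ω j).2 (z j)) i σ) * u γ,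
    Ex_cw_one C (z i) fun _ σ => T (Function.update (fun j => (ω j).2 (z j)) i σ)]
  exact h2 _ F (fun _ => h0 _) fun _ => hF _

/-- the rigid part -/
lemma rigid_le (h : C.Ok) (sp : A → Sg → Bool) {t : ℝ} (ht : 0 ≤ t) (i : Fin k) :
    (Ex (pw fun i => cw C (r i)) fun ω => avg fun a => ∑ j,
      ind (¬ t ≤ mn (C.nu (ω i).1) (sp a)) * ind (sp a ((ω i).2 j) = !maj (C.nu (ω i).1) (sp a)))
      ≤ r i * t := by
  rw [Ex_pw_coord (fun i => cw_prob h _) i fun o => avg fun a => ∑ j,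
      ind (¬ t ≤ mn (C.nu o.1) (sp a)) * ind (sp a (o.2 j) = !maj (C.nu o.1) (sp a)), Ex_avg]
  refine avg_le_const (by positivity) fun a => ?_
  rw [Ex_sum]
  refine (sum_le_card_nsmul _ _ t fun j _ => ?_).trans (by simp)
  rw [Ex_cw_one C j fun γ σ => ind (¬ t ≤ mn (C.nu γ) (sp a)) * ind (sp a σ = !maj (C.nu γ) (sp a)),
    ← Cas.P_Ex]
  refine Cas.P_le_const h fun γ _ => ?_
  rw [Ex_mul, Ex_maj (Cas.nu_prob γ)]
  by_cases hq : t ≤ mn (C.nu γ) (sp a)
  · rw [ind_neg (not_not.2 hq), zero_mul]; exact ht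
  · rw [ind_pos hq, one_mul]; exact (not_le.1 hq).le

end main

end PatJ

open PatJ in
theorem stPat : StPat := by
  intro Sg Gm A _ _ _ _ _ C sp k r t α e Dl R h hk hr ht he h1 h2 T F h0 hF
  have hF0 : 0 ≤ F := (h0 fun _ => Classical.arbitrary Sg).trans (hF _)
  let z : ∀ i, Fin (r i) := fun i => ⟨0, (hr i).1⟩
  have hW : Prob (pw fun i => cw C (r i)) := pw_prob fun i => cw_prob h _
  have hpt : ∀ ω : ∀ i, Gm × (Fin (r i) → Sg),
      (T fun i => (ω i).2 (z i)) * |avg fun a => ∏ i, sgn (sp a ((ω i).2 (z i)))|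
        ≤ F * |avg fun a => sc z fun i j => sp a ((ω i).2 j)|
          + ∑ i, ((T fun i => (ω i).2 (z i)) * (avg fun a => ind (t ≤ mn (C.nu (ω i).1) (sp a)))
            + F * avg fun a => ∑ j, ind (¬ t ≤ mn (C.nu (ω i).1) (sp a))
              * ind (sp a ((ω i).2 j) = !maj (C.nu (ω i).1) (sp a))) := by
    intro ω
    have h3 : |(avg fun a => ∏ i, sgn (sp a ((ω i).2 (z i))))
        - avg fun a => sc z fun i j => sp a ((ω i).2 j)|
        ≤ ∑ i, ((avg fun a => ind (t ≤ mn (C.nu (ω i).1) (sp a)))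
            + avg fun a => ∑ j, ind (¬ t ≤ mn (C.nu (ω i).1) (sp a))
              * ind (sp a ((ω i).2 j) = !maj (C.nu (ω i).1) (sp a))) := by
      simp only [← avg_add]
      rw [← avg_sub, ← avg_sum]
      refine (abs_avg_le _).trans (avg_mono fun a => ?_)
      exact (sc_diff z fun i j => sp a ((ω i).2 j)).trans
        (sum_le_sum fun i _ => unclean (z i) (fun j => sp a ((ω i).2 j)) _ _)
    have h4 := abs_sub_abs_le_abs_sub (avg fun a => ∏ i, sgn (sp a ((ω i).2 (z i))))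
      (avg fun a => sc z fun i j => sp a ((ω i).2 j))
    refine (mul_le_mul_of_nonneg_left (le_add_of_sub_left_le (h4.trans h3)) (h0 _)).trans ?_
    rw [mul_add, mul_sum]
    refine add_le_add (mul_le_mul_of_nonneg_right (hF _) (abs_nonneg _))
      (sum_le_sum fun i _ => ?_)
    rw [mul_add]
    exact add_le_add le_rfl (mul_le_mul_of_nonneg_right (hF _) (avg_nonneg fun a =>
      sum_nonneg fun _ _ => mul_nonneg (ind_nonneg _) (ind_nonneg _)))
  rw [← first_law z]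
  refine (Ex_mono hW.1 hpt).trans ?_
  rw [Ex_add, Ex_mul, Ex_sum]
  have h5 := mul_le_mul_of_nonneg_left (clean_le h sp hk z h1) hF0
  have h6 : ∀ i ∈ (univ : Finset (Fin k)), (Ex (pw fun i => cw C (r i)) fun ω =>
      (T fun i => (ω i).2 (z i)) * (avg fun a => ind (t ≤ mn (C.nu (ω i).1) (sp a)))
        + F * avg fun a => ∑ j, ind (¬ t ≤ mn (C.nu (ω i).1) (sp a))
          * ind (sp a ((ω i).2 j) = !maj (C.nu (ω i).1) (sp a)))
      ≤ α * Ek C.root k T + F * (2 * R * t + e) := by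
    intro i _
    rw [Ex_add, Ex_mul]
    have h7 := flex_le h z (fun γ => avg fun a => ind (t ≤ mn (C.nu γ) (sp a))) h2 T F h0 hF i
    have h8 := mul_le_mul_of_nonneg_left (rigid_le (r := r) h sp ht i) hF0
    have h9 : (r i : ℝ) * t ≤ 2 * R * t := by
      refine mul_le_mul_of_nonneg_right ?_ ht
      linarith [(hr i).2, (Nat.cast_nonneg (r i) : (0 : ℝ) ≤ r i)]
    have h10 := mul_le_mul_of_nonneg_left h9 hF0
    linarith
  have h7 := sum_le_card_nsmul _ _ _ h6
  simp only [card_univ, Fintype.card_fin, nsmul_eq_mul] at h7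
  linarith

end Pool.Agent.MP_32a90a_pr.D

end

section

set_option autoImplicit false

namespace Pool.Agent.MP_32a90a_pr.D

open Finset Pool.Agent.MP_32a90a_pr Pool.Agent.MP_32a90a_pr.L

namespace PinJ

lemma sym {Sg : Type} [Fintype Sg] {μ : Sg → ℝ} {fl : Sg → Sg} {o : Sg → Bool}
    (h1 : Function.Involutive fl) (h2 : ∀ σ, o (fl σ) = !o σ) (h3 : ∀ σ, μ (fl σ) = μ σ)
    (ψ : Bool → Sg → ℝ) (h4 : ∀ b σ, ψ b (fl σ) = ψ b σ) :
    (Ex μ fun σ => ψ (o σ) σ) = 1 / 2 * ∑ b, Ex μ (ψ b) := by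
  have e : (Ex μ fun σ => ψ (o σ) σ) = Ex μ fun σ => ψ (!o σ) σ := by
    unfold Ex
    rw [← Equiv.sum_comp h1.toPerm]
    refine sum_congr rfl fun σ _ => ?_
    simp only [Function.Involutive.coe_toPerm, h2, h3, h4]
  have e2 : ∑ b, Ex μ (ψ b) = (Ex μ fun σ => ψ (o σ) σ) + Ex μ fun σ => ψ (!o σ) σ := by
    rw [← Ex_add, ← Ex_sum]
    refine Ex_congr fun σ => ?_
    cases o σ <;> simp [add_comm]
  rw [e2, ← e]; ring

variable {Sg G0 A : Type} [Fintype Sg] [Fintype G0] [Fintype A] [DecidableEq A]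
  {S : Sys Sg G0 A} {fl : Sg → Sg} {o : Sg → Bool}

omit [DecidableEq A] in
lemma nu_fl (h : S.Sym fl o) (g : Gam G0 A) (σ : Sg) : S.nu g (fl σ) = S.nu g σ := by
  simp only [Sys.nu, Cas.nu, gibbs, Sys.cas, h.2.2.1, h.2.2.2]

omit [Fintype Sg] [Fintype G0] [Fintype A] [DecidableEq A] in
lemma hom_fl (h : S.Sym fl o) {d : ℕ} (AA : Finset (Fin d)) (ω : Fin d → A × Bool) (σ : Sg) :
    hom S.sp AA ω (fl σ) = hom S.sp AA ω σ := by
  simp only [hom, h.2.2.2]

lemma ex_eq (h : S.Sym fl o) {d : ℕ} (AA : Finset (Fin d)) (B : ℝ) (ω : Fin d → A × Bool)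
    (g : Gam G0 A) (φ : Bool → Sg → ℝ) (hφ : ∀ b σ, φ b (fl σ) = φ b σ) :
    (Ex (S.cas.nu g) fun σ => Real.exp (S.cas.β * S.Dv o AA B ω g.1 σ) * φ (o σ) σ) = 1 / 2 *
      ∑ b, Ex (S.nu g) fun σ => φ b σ * Real.exp (S.β * (sgn b * (hom S.sp AA ω σ + B))) := by
  rw [← sym h.1 h.2.1 (nu_fl h g) _ fun b σ => by rw [hφ, hom_fl h]]
  exact Ex_congr fun σ => mul_comm _ _

lemma ex_one (h : S.Sym fl o) {d : ℕ} (AA : Finset (Fin d)) (B : ℝ) (ω : Fin d → A × Bool)
    (g : Gam G0 A) :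
    (Ex (S.cas.nu g) fun σ => Real.exp (S.cas.β * S.Dv o AA B ω g.1 σ)) = 1 / 2 *
      ∑ b, Ex (S.nu g) fun σ => Real.exp (S.β * (sgn b * (hom S.sp AA ω σ + B))) := by
  simpa only [mul_one, one_mul] using ex_eq h AA B ω g (fun _ _ => 1) fun _ _ => rfl

end PinJ

open PinJ in
theorem stPin : StPin := by
  intro Sg G0 A _ _ _ _ _ _ S d fl o AA B ω h
  constructor
  · intro φ hφ
    rw [Sys.E, Sys.cas_add, Cas.E_add_eq, Sys.E, Cas.E_eq, Cas.E_eq]
    refine sum_congr rfl fun g _ => ?_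
    congr 1
    have hp : 0 ≤ ∑ b, Ex (S.nu g) fun σ =>
        Real.exp (S.β * (sgn b * (hom S.sp AA ω σ + B))) :=
      sum_nonneg fun b _ => Ex_nonneg (Cas.nu_prob g).1 fun _ => (Real.exp_pos _).le
    rw [Ex_mul_right, Ex_mul, Ex_sum, ex_one h, Real.mul_rpow (by norm_num) hp]
    simp only [mul_right_comm _ _ (φ _ _ _)]
    rw [Ex_mul_right, ex_eq h AA B ω g (φ g) (hφ g), Real.rpow_sub_one (by norm_num)]
    change _ * (_ ^ S.x / _ * _ ^ (S.x - 1)) = _
    ring
  · intro g φ hφ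
    rw [Sys.nu, Sys.cas_add, Cas.Ex_nu_add, ex_eq h AA B ω g φ hφ, ex_one h,
      mul_div_mul_left _ _ (by norm_num)]

end Pool.Agent.MP_32a90a_pr.D

end

section

set_option autoImplicit false

namespace Pool.Agent.MP_32a90a_pr.D

open Finset Filter Pool.Agent.MP_32a90a_pr Pool.Agent.MP_32a90a_pr.L

namespace RigJ

variable {Sg G0 A : Type} [Fintype Sg] [Fintype G0] [Fintype A] [DecidableEq A]
  (S : Sys Sg G0 A) (D : G0 → Sg → ℝ) (I : Finset A) (f : G0 → Sg → ℝ)

lemma EI_add (φ ψ : Gam G0 A → Sg → ℝ) :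
    S.EI D I f (fun g σ => φ g σ + ψ g σ) = S.EI D I f φ + S.EI D I f ψ := by
  simp only [Sys.EI, Sys.E, mul_add, Cas.E_add]

lemma EI_mul (c : ℝ) (φ : Gam G0 A → Sg → ℝ) :
    S.EI D I f (fun g σ => c * φ g σ) = c * S.EI D I f φ := by
  simp only [Sys.EI, Sys.E]
  rw [← Cas.E_mul]
  exact Cas.E_congr fun g σ => by ring

lemma EI_const (c : ℝ) : S.EI D I f (fun _ _ => c) = c * S.EI D I f fun _ _ => 1 := by
  rw [← EI_mul]; simp only [mul_one]

lemma EI_mono [Nonempty Sg] (hok : (S.add D).cas.Ok) (hf : ∀ g σ, 0 ≤ f g σ)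
    {φ ψ : Gam G0 A → Sg → ℝ} (h : ∀ g σ, φ g σ ≤ ψ g σ) : S.EI D I f φ ≤ S.EI D I f ψ :=
  Cas.E_mono hok fun g σ =>
    mul_le_mul_of_nonneg_left (h g σ) (mul_nonneg (ind_nonneg _) (hf _ _))

lemma EI_triv (φ : Gam G0 A → Sg → ℝ) :
    S.EI (fun _ _ => 0) ∅ (fun _ _ => 1) φ = S.E φ := by
  simp only [Sys.EI, Sys.add_zero']
  refine Cas.E_congr fun g σ => ?_
  rw [oI, ind_pos (by simp)]; ring

omit [Fintype A] [Fintype G0] [DecidableEq A] in
lemma oA_nonneg (a : A) (g : Gam G0 A) : 0 ≤ oA I a g := ind_nonneg _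

omit [Fintype A] [Fintype G0] [DecidableEq A] in
lemma oA_le_one (a : A) (g : Gam G0 A) : oA I a g ≤ 1 := ind_le_one _

omit [Fintype A] [Fintype G0] [DecidableEq A] in
lemma one_sub_oA (a : A) (g : Gam G0 A) (b : Bool) :
    1 - oA I a g ≤ ind (a ∈ I) + (ind (g.2 a = some (!b)) + ind (g.2 a = some b)) := by
  unfold oA
  by_cases h1 : a ∈ I
  · rw [ind_pos h1]
    linarith [ind_nonneg (a ∉ I ∧ g.2 a = none), ind_nonneg (g.2 a = some (!b)),
      ind_nonneg (g.2 a = some b)]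
  · rcases h : g.2 a with _ | c
    · rw [ind_pos ⟨h1, rfl⟩]
      linarith [ind_nonneg (a ∈ I), ind_nonneg ((none : Option Bool) = some (!b)),
        ind_nonneg ((none : Option Bool) = some b)]
    · have h0 := ind_nonneg (a ∉ I ∧ some c = none)
      have h2 := ind_nonneg (a ∈ I)
      have h3 := ind_nonneg (some c = some (!b))
      have h4 := ind_nonneg (some c = some b)
      by_cases hc : c = b
      · rw [ind_pos (show some c = some b by rw [hc])]; linarith
      · rw [ind_pos (show some c = some (!b) by cases b <;> cases c <;> simp_all)]; linarith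

/-- the Mecke identity in averaged form -/
lemma avg_mecke (χ : A → Gam G0 A → Sg → ℝ) (ψ : A → Gam G0 A → Sg → ℝ) (r : ℝ)
    (h : ((S.add D).E fun g σ => oI I g * ∑ a, f g.1 σ * χ a g σ)
      = r * ∑ a, ((S.add D).E fun g σ => oI I g * oA I a g * f g.1 σ * ψ a g σ)) :
    (S.EI D I f fun g σ => avg fun a => χ a g σ)
      = r * S.EI D I f fun g σ => avg fun a => oA I a g * ψ a g σ := by
  have e1 : (S.EI D I f fun g σ => avg fun a => χ a g σ)
      = ((S.add D).E fun g σ => oI I g * ∑ a, f g.1 σ * χ a g σ) * (Fintype.card A : ℝ)⁻¹ := by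
    simp only [Sys.EI, Sys.E]
    rw [← Cas.E_mul_right]
    refine Cas.E_congr fun g σ => ?_
    rw [avg, ← mul_sum, div_eq_mul_inv]; ring
  have e2 : (S.EI D I f fun g σ => avg fun a => oA I a g * ψ a g σ)
      = (∑ a, ((S.add D).E fun g σ => oI I g * oA I a g * f g.1 σ * ψ a g σ))
        * (Fintype.card A : ℝ)⁻¹ := by
    simp only [Sys.EI, Sys.E]
    rw [← Cas.E_sum, ← Cas.E_mul_right]
    refine Cas.E_congr fun g σ => ?_
    rw [avg, div_eq_mul_inv, ← mul_assoc, mul_sum]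
    congr 1
    exact sum_congr rfl fun a _ => by ring
  rw [e1, e2, h]; ring

lemma exp_le_K {t s : ℝ} (hs : 0 ≤ s) (hs1 : 2 * s ≤ 1) (ht : t ≤ 2 * s) :
    Real.exp t ≤ 1 + 4 * s := by
  refine (Real.exp_le_exp.2 ht).trans ?_
  have h := Real.abs_exp_sub_one_le (x := 2 * s) (by rw [abs_of_nonneg (by linarith)]; exact hs1)
  rw [abs_of_nonneg (show 0 ≤ 2 * s by linarith)] at h
  linarith [(abs_le.1 h).2]

/-- numerical facts on the small quantities -/
lemma sm_facts {d : ℕ} (hd : 1000 ≤ d) :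
    100 * sm 300 d ≤ sm 290 d ∧ 100 * sm 290 d ≤ sm 250 d ∧ 100 * sm 250 d ≤ 1 ∧
      ((d : ℝ) + 1) * sm 300 d ≤ sm 290 d := by
  have hd3 : 3 ≤ d := by omega
  have hd' : (1000 : ℝ) ≤ d := by exact_mod_cast hd
  refine ⟨?_, ?_, ?_, ?_⟩
  · have := mul_sm_le (a := 100) 299 hd3 (by linarith)
    norm_num at this
    exact this.trans (sm_anti (by norm_num) d)
  · have := mul_sm_le (a := 100) 289 hd3 (by linarith)
    norm_num at this
    exact this.trans (sm_anti (by norm_num) d)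
  · have := mul_sm_le (a := 100) 249 hd3 (by linarith)
    norm_num at this
    exact this.trans (sm_le_one (by norm_num) d)
  · have := mul_sm_le (a := (d : ℝ) + 1) 299 hd3 le_rfl
    norm_num at this
    exact this.trans (sm_anti (by norm_num) d)

/-- comparison of the responses at the four fields -/
lemma sv_cmp (hSv : StSv) [Nonempty Sg] [Nonempty G0] {d : ℕ} (hd : 1000 ≤ d) (hP : S.Par d)
    (a : A) (g : Gam G0 A) (σ : Sg) :
    0 ≤ S.Sv (S.tp + S.tm) a g σ ∧ S.Sv (S.tp + S.tm) a g σ ≤ S.Sv 2 a g σ ∧ S.Sv 2 a g σ ≤ 1 ∧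
      S.Sv 2 a g σ ≤ (1 + 4 * sm 300 d) * S.Sv (S.tp + S.tm) a g σ ∧
      0 ≤ S.Sv (-2) a g σ ∧ S.Sv (-2) a g σ ≤ S.Sv (-(S.tp + S.tm)) a g σ ∧
      S.Sv (-(S.tp + S.tm)) a g σ ≤ (1 + 4 * sm 300 d) * S.Sv (-2) a g σ := by
  obtain ⟨h0, h1, h2, h3, -⟩ := hSv Sg G0 A S d (by omega) hP a g σ
  obtain ⟨s1, s2, s3, -⟩ := sm_facts hd
  have s0 := sm_pos 300 d
  obtain ⟨-, -, -, -, -, -, p1, p2, p3, p4, -⟩ := hP
  have hT : 2 ≤ S.tp + S.tm := by linarith
  have k1 : Real.exp (S.β * (S.tp + S.tm - 2)) ≤ 1 + 4 * sm 300 d :=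
    exp_le_K s0.le (by linarith) (by linarith)
  have k2 : Real.exp (S.β * (-2 - -(S.tp + S.tm))) ≤ 1 + 4 * sm 300 d :=
    exp_le_K s0.le (by linarith) (by linarith)
  refine ⟨(h0 _).le, h1 _ _ hT, (h1 0 2 (by norm_num)).trans_eq h2, ?_, (h0 _).le,
    h1 _ _ (by linarith), ?_⟩
  · exact (h3 _ _ hT).trans (mul_le_mul_of_nonneg_right k1 (h0 _).le)
  · exact (h3 _ _ (by linarith)).trans (mul_le_mul_of_nonneg_right k2 (h0 _).le)

/-- the bounds on the two constants -/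
lemma consts (hCp : StCp) (hSv : StSv) [Nonempty Sg] [Nonempty G0] {d : ℕ} (hd : 1000 ≤ d)
    (hP : S.Par d) {c cp : ℝ}
    (h1 : |(S.E fun g σ => avg fun a => oA ∅ a g * S.Sv (S.tp + S.tm) a g σ) - c * S.N|
      ≤ sm 290 d * (S.N + 1 * S.N))
    (h2 : |(S.E fun g σ => avg fun a => oA ∅ a g * S.Sv (-(S.tp + S.tm)) a g σ) - cp * S.N|
      ≤ sm 290 d * (S.N + 1 * S.N)) :
    cp - 1 ≤ (1 + 10 * S.y) * (1 - c) + sm 250 d ∧ c ≤ 1 + sm 250 d ∧ -sm 250 d ≤ c ∧
      cp ≤ 3 := by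
  have hd3 : 3 ≤ d := by omega
  have hok := hP.ok hd3
  have hN : 0 < S.N := Cas.N_pos hok
  have := hP.nonempty
  obtain ⟨s1, s2, s3, -⟩ := sm_facts hd
  have u0 := sm_pos 290 d
  have hc := hCp Sg G0 A S d hd hP
  simp only [mul_sub, mul_one, avg_sub, Sys.P, Cas.P_sub] at hc
  set p := S.cas.P fun g σ => avg fun a => oA ∅ a g * S.Sv (S.tp + S.tm) a g σ with hp
  set q := S.cas.P fun g σ => avg fun a => oA ∅ a g * S.Sv (-(S.tp + S.tm)) a g σ with hq
  set o := S.cas.P fun g _ => avg fun a => oA (∅ : Finset A) a g with ho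
  have o1 : o ≤ 1 := Cas.P_le_const hok fun g _ => avg_le_const zero_le_one fun a =>
    oA_le_one _ a g
  have p0 : 0 ≤ p := Cas.P_nonneg hok fun g σ => avg_nonneg fun a =>
    mul_nonneg (oA_nonneg _ a g) (sv_cmp S hSv hd hP a g σ).1
  have p1 : p ≤ 1 := Cas.P_le_const hok fun g σ => avg_le_const zero_le_one fun a => by
    obtain ⟨b0, b1, b2, -⟩ := sv_cmp S hSv hd hP a g σ
    exact mul_le_one₀ (oA_le_one _ a g) b0 (b1.trans b2)
  rw [Sys.E, Cas.E_eq_P_mul hok, ← hp] at h1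
  rw [Sys.E, Cas.E_eq_P_mul hok, ← hq] at h2
  have h1' : |p - c| ≤ 2 * sm 290 d := by
    have e : p * S.cas.N - c * S.N = (p - c) * S.N := by simp only [Sys.N]; ring
    rw [e, abs_mul, abs_of_pos hN] at h1
    exact le_of_mul_le_mul_right (by linarith) hN
  have h2' : |q - cp| ≤ 2 * sm 290 d := by
    have e : q * S.cas.N - cp * S.N = (q - cp) * S.N := by simp only [Sys.N]; ring
    rw [e, abs_mul, abs_of_pos hN] at h2
    exact le_of_mul_le_mul_right (by linarith) hN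
  obtain ⟨a1, a2⟩ := abs_le.1 h1'
  obtain ⟨a3, a4⟩ := abs_le.1 h2'
  have y0 : 0 < S.y := mul_pos (lt_of_lt_of_le one_pos hP.1) hP.2.1
  have y1 := hP.2.2.1
  have m1 : S.y * o ≤ S.y := by nlinarith
  have m2 : S.y * (c - 2 * sm 290 d) ≤ S.y * p := mul_le_mul_of_nonneg_left (by linarith) y0.le
  have m3 : S.y * c ≤ S.y * (1 + 2 * sm 290 d) := mul_le_mul_of_nonneg_left (by linarith) y0.le
  have m4 : S.y * sm 290 d ≤ 1 / 1000 * sm 290 d := mul_le_mul_of_nonneg_right y1 u0.le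
  have m5 : 0 ≤ S.y * p := mul_nonneg y0.le p0
  refine ⟨by nlinarith, by linarith, by linarith, by nlinarith⟩

end RigJ

open RigJ in
theorem stRig (hMecke : StMecke) (hRob : StRob) (hDom2 : StDom2) (hCp : StCp) (hSv : StSv) :
    StRig := by
  intro Sg G0 A _ _ _ _ _ _ S d c cp dK hd hP hK0 hK1 hG hE
  have hd3 : 3 ≤ d := by omega
  have hd' : (1000 : ℝ) ≤ d := by exact_mod_cast hd
  have := hP.nonempty
  obtain ⟨s1, s2, s3, s4⟩ := sm_facts hd
  have s0 := sm_pos 300 d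
  have u0 := sm_pos 290 d
  have hR := hRob Sg G0 A S d c cp dK hd hP hK0 hK1 hG
  have hA0 : Sys.Adm d (fun (_ : G0) (_ : Sg) => (0 : ℝ)) (∅ : Finset A) (fun _ _ => 1) 1 :=
    ⟨fun _ _ => by rw [abs_zero]; positivity, by simp, fun _ _ => zero_le_one, fun _ _ => le_rfl⟩
  obtain ⟨z1, z2⟩ := hR _ _ _ _ hA0
  simp only [EI_triv, Sys.add_zero'] at z1 z2
  obtain ⟨c1, c2, c3, c4⟩ := consts S hCp hSv hd hP z1 z2
  refine ⟨c1, c2, c3, fun D I f F hA => ?_⟩
  obtain ⟨r1, r2⟩ := hR D I f F hA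
  have hf := hA.2.2.1
  have hF : 0 ≤ F := (hf (Classical.arbitrary _) (Classical.arbitrary _)).trans (hA.2.2.2 _ _)
  have hFN : 0 ≤ F * S.N := mul_nonneg hF (Cas.N_pos (hP.ok hd3)).le
  have hP' := hP.add D
  have hok := hP'.ok hd3
  have he : 0 ≤ S.EI D I f fun _ _ => 1 := Cas.E_nonneg hok fun g σ =>
    mul_nonneg (mul_nonneg (ind_nonneg _) (hf _ _)) zero_le_one
  have cmp : ∀ a g σ, _ := fun a g σ => sv_cmp (S.add D) hSv hd hP' a g σ
  have etp : (S.add D).tp = S.tp := rfl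
  have etm : (S.add D).tm = S.tm := rfl
  simp only [etp, etm] at cmp
  set W := S.EI D I f fun _ _ => 1 with hW
  set G := F * S.N with hGd
  set aT := S.EI D I f fun g σ => avg fun a => oA I a g * (S.add D).Sv (S.tp + S.tm) a g σ
    with haT
  set bT := S.EI D I f fun g σ => avg fun a => oA I a g * (S.add D).Sv (-(S.tp + S.tm)) a g σ
    with hbT
  set a2 := S.EI D I f fun g σ => avg fun a => oA I a g * (S.add D).Sv 2 a g σ with ha2
  set b2 := S.EI D I f fun g σ => avg fun a => oA I a g * (S.add D).Sv (-2) a g σ with hb2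
  have q1 : aT ≤ a2 := EI_mono S D I f hok hf fun g σ => avg_mono fun a =>
    mul_le_mul_of_nonneg_left (cmp a g σ).2.1 (oA_nonneg I a g)
  have q2 : a2 ≤ W := EI_mono S D I f hok hf fun g σ => avg_le_const zero_le_one fun a =>
    mul_le_one₀ (oA_le_one I a g) ((cmp a g σ).1.trans (cmp a g σ).2.1) (cmp a g σ).2.2.1
  have q3 : a2 ≤ (1 + 4 * sm 300 d) * aT := by
    rw [haT, ← EI_mul]
    refine EI_mono S D I f hok hf fun g σ => ?_
    rw [← avg_mul]
    refine avg_mono fun a => ?_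
    have := mul_le_mul_of_nonneg_left (cmp a g σ).2.2.2.1 (oA_nonneg I a g)
    linarith
  have q4 : b2 ≤ bT := EI_mono S D I f hok hf fun g σ => avg_mono fun a =>
    mul_le_mul_of_nonneg_left (cmp a g σ).2.2.2.2.2.1 (oA_nonneg I a g)
  have q5 : bT ≤ (1 + 4 * sm 300 d) * b2 := by
    rw [hb2, ← EI_mul]
    refine EI_mono S D I f hok hf fun g σ => ?_
    rw [← avg_mul]
    refine avg_mono fun a => ?_
    have := mul_le_mul_of_nonneg_left (cmp a g σ).2.2.2.2.2.2 (oA_nonneg I a g)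
    linarith
  obtain ⟨r1a, r1b⟩ := abs_le.1 r1
  obtain ⟨r2a, r2b⟩ := abs_le.1 r2
  have hWG : 0 ≤ W + G := by linarith
  have n1 : 100 * sm 300 d * (W + G) ≤ sm 290 d * (W + G) := mul_le_mul_of_nonneg_right s1 hWG
  have n2 : 100 * sm 290 d * (W + G) ≤ sm 250 d * (W + G) := mul_le_mul_of_nonneg_right s2 hWG
  have n3 : 0 ≤ sm 300 d * W := mul_nonneg s0.le he
  have n4 : 0 ≤ sm 300 d * G := mul_nonneg s0.le hFN
  have n5 : sm 290 d * (W + G) ≤ 1 * (W + G) := mul_le_mul_of_nonneg_right (by linarith) hWG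
  have n6 : cp * W ≤ 3 * W := mul_le_mul_of_nonneg_right c4 he
  have bT4 : bT ≤ 4 * (W + G) := by linarith
  have n7 : sm 300 d * aT ≤ sm 300 d * W := mul_le_mul_of_nonneg_left (q1.trans q2) s0.le
  have n8 : sm 300 d * b2 ≤ sm 300 d * (4 * (W + G)) :=
    mul_le_mul_of_nonneg_left (q4.trans bT4) s0.le
  have y0 : 0 < S.y := mul_pos (lt_of_lt_of_le one_pos hP.1) hP.2.1
  have y1 := hP.2.2.1
  obtain ⟨p0, x0, -, x1, ρ0, ρ1, p1, p2, p3, p4, p5⟩ := hP
  refine ⟨abs_le.2 ⟨by linarith, by linarith⟩, abs_le.2 ⟨by linarith, by linarith⟩, ?_,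
    fun s => ?_⟩
  · obtain ⟨m1, m2⟩ := hMecke Sg G0 A (S.add D) I (fun _ g σ => f g σ) (hP'.rho_lt hd3)
    have m1' := avg_mecke S D I f (fun a g σ => ind (g.2 a = some (!S.sp a σ))) _ _ m1
    have m2' := avg_mecke S D I f (fun a g σ => ind (g.2 a = some (S.sp a σ))) _ _ m2
    simp only [etp, etm] at m1' m2'
    rw [← haT] at m1'
    rw [← hbT] at m2'
    have hA1 : (0 : ℝ) < Fintype.card A := by exact_mod_cast Fintype.card_pos
    have hI : (avg fun a : A => ind (a ∈ I)) ≤ (d + 2) * sm 300 d := by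
      rw [avg, sum_ind, div_le_iff₀ hA1]
      have e : (univ.filter fun a => a ∈ I) = I := by ext a; simp
      rw [e]
      have h1 : (I.card : ℝ) ≤ d + 2 := by exact_mod_cast hA.2.1
      have h2 := mul_le_mul_of_nonneg_left p5 (show (0 : ℝ) ≤ d + 2 by positivity)
      linarith only [h1, h2]
    have t1 : (S.EI D I f fun g _ => avg fun a => 1 - oA I a g)
        ≤ S.EI D I f fun g σ => (d + 2) * sm 300 d
          + ((avg fun a => ind (g.2 a = some (!S.sp a σ)))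
            + avg fun a => ind (g.2 a = some (S.sp a σ))) := by
      refine EI_mono S D I f hok hf fun g σ => ?_
      refine (avg_mono fun a => one_sub_oA I a g (S.sp a σ)).trans ?_
      rw [avg_add, avg_add]
      linarith
    rw [EI_add, EI_add, EI_const, m1', m2', ← hW] at t1
    have ers : (S.add D).rs = S.ρ / (2 * (1 - S.ρ)) := rfl
    have ey : (S.add D).y = S.y := rfl
    have rs0 : 0 ≤ (S.add D).rs := by
      rw [ers]; exact div_nonneg ρ0.le (by linarith only [ρ1, s1, s2, s3, s0, u0])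
    have rs1 : (S.add D).rs ≤ sm 300 d := by
      have hρ : S.ρ ≤ 1 / 2 := by linarith only [ρ1, s1, s2, s3, s0, u0]
      rw [ers, div_le_iff₀ (by linarith only [hρ])]
      have h1 := mul_le_mul_of_nonneg_left hρ s0.le
      linarith only [h1, ρ1]
    have e1 : Real.exp (-((S.add D).y * S.tm)) ≤ 1 := by
      rw [ey]
      exact Real.exp_le_one_iff.2 (neg_nonpos.2 (mul_nonneg y0.le (zero_le_one.trans p2)))
    have tp2 : S.tp ≤ 2 := by
      have h1 := mul_le_mul_of_nonneg_right p0 (sub_nonneg.2 p1)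
      have h2 := sm_le_one (k := 300) (by norm_num) d
      linarith only [h1, h2, p3]
    have e2 : Real.exp ((S.add D).y * S.tp) ≤ 1 + 4 * (1 / 4) := by
      rw [ey]
      refine exp_le_K (by norm_num) (by norm_num) ?_
      have h1 := mul_le_mul_of_nonneg_left tp2 y0.le
      linarith only [h1, y1]
    have aT0 : 0 ≤ aT := by
      refine Cas.E_nonneg hok fun g σ => mul_nonneg (mul_nonneg (ind_nonneg _) (hf _ _)) ?_
      exact avg_nonneg fun a => mul_nonneg (oA_nonneg I a g) (cmp a g σ).1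
    have bT0 : 0 ≤ bT := by
      refine Cas.E_nonneg hok fun g σ => mul_nonneg (mul_nonneg (ind_nonneg _) (hf _ _)) ?_
      exact avg_nonneg fun a => mul_nonneg (oA_nonneg I a g)
        ((cmp a g σ).2.2.2.2.1.trans (cmp a g σ).2.2.2.2.2.1)
    have k1 : (S.add D).rs * Real.exp (-((S.add D).y * S.tm)) * aT ≤ sm 300 d * 1 * W :=
      mul_le_mul (mul_le_mul rs1 e1 (Real.exp_pos _).le s0.le) (q1.trans q2) aT0 (by linarith)
    have k2 : (S.add D).rs * Real.exp ((S.add D).y * S.tp) * bT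
        ≤ sm 300 d * (1 + 4 * (1 / 4)) * (4 * (W + G)) :=
      mul_le_mul (mul_le_mul rs1 e2 (Real.exp_pos _).le s0.le) bT4 bT0 (by linarith)
    have k3 : ((d : ℝ) + 1) * sm 300 d * W ≤ sm 290 d * W := mul_le_mul_of_nonneg_right s4 he
    have k4 : 0 ≤ sm 290 d * G := mul_nonneg u0.le hFN
    have k5 : 0 ≤ sm 290 d * W := mul_nonneg u0.le he
    linarith only [t1, k1, k2, k3, k4, k5, n1, n2, n3, n4]
  · have dm := hDom2 Sg G0 A S d dK hd ⟨p0, x0, y1, x1, ρ0, ρ1, p1, p2, p3, p4, p5⟩ hK0 hK1 hE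
      D I f F s hA
    have hx1 : S.x ≤ 1 := x1.trans (sm_le_one (by norm_num) d)
    have eT1 : Real.exp (-(S.y * (S.tp + S.tm))) ≤ 1 := 
      Real.exp_le_one_iff.2 (neg_nonpos.2 (mul_nonneg y0.le (by linarith only [p1, p2])))
    have eT : Real.exp (-(2 * S.y))
        ≤ (1 + 4 * sm 300 d) * Real.exp (-(S.y * (S.tp + S.tm))) := by
      have e : -(2 * S.y) = S.x * (S.β * (S.tp - 1) + S.β * (S.tm - 1))
          + -(S.y * (S.tp + S.tm)) := by unfold Sys.y; ring
      rw [e, Real.exp_add]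
      refine mul_le_mul_of_nonneg_right (exp_le_K s0.le (by linarith) ?_) (Real.exp_pos _).le
      have h1 : 0 ≤ S.β * (S.tp - 1) := mul_nonneg (by linarith) (by linarith)
      have h2 : 0 ≤ S.β * (S.tm - 1) := mul_nonneg (by linarith) (by linarith)
      have h3 := mul_le_mul_of_nonneg_right hx1 (add_nonneg h1 h2)
      linarith only [h3, p3, p4]
    have t1 : (S.EI D I f fun g σ => avg fun a => oA I a g *
          (ind (S.sp a σ = s g.1 a) * (S.add D).Sv (-2) a g σ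
            + Real.exp (-(2 * S.y)) * ind (S.sp a σ ≠ s g.1 a) * (S.add D).Sv 2 a g σ))
        ≤ S.EI D I f fun g σ => (avg fun a => oA I a g *
          (ind (S.sp a σ = s g.1 a) * (S.add D).Sv (-(S.tp + S.tm)) a g σ
            + Real.exp (-(S.y * (S.tp + S.tm))) * ind (S.sp a σ ≠ s g.1 a)
              * (S.add D).Sv (S.tp + S.tm) a g σ)) + 24 * sm 300 d := by
      refine EI_mono S D I f hok hf fun g σ => ?_
      rw [← avg_const (α := A) (24 * sm 300 d), ← avg_add]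
      refine avg_mono fun a => ?_
      obtain ⟨b0, b1, b2', b3, b4, b5, -⟩ := cmp a g σ
      have o0 := oA_nonneg I a g
      have o1 := oA_le_one I a g
      have i0 := ind_nonneg (S.sp a σ = s g.1 a)
      have j0 := ind_nonneg (S.sp a σ ≠ s g.1 a)
      have j1 := ind_le_one (S.sp a σ ≠ s g.1 a)
      have w1 : Real.exp (-(2 * S.y)) * (S.add D).Sv 2 a g σ
          ≤ Real.exp (-(S.y * (S.tp + S.tm))) * (S.add D).Sv (S.tp + S.tm) a g σ
            + 24 * sm 300 d := by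
        have w0 := mul_le_mul eT b3 (b0.trans b1) (by positivity)
        have w2 : Real.exp (-(S.y * (S.tp + S.tm))) * (S.add D).Sv (S.tp + S.tm) a g σ ≤ 1 :=
          mul_le_one₀ eT1 b0 (b1.trans b2')
        have w3 : 0 ≤ Real.exp (-(S.y * (S.tp + S.tm))) * (S.add D).Sv (S.tp + S.tm) a g σ :=
          mul_nonneg (Real.exp_pos _).le b0
        have w4 : sm 300 d * sm 300 d ≤ sm 300 d :=
          mul_le_of_le_one_left s0.le (sm_le_one (by norm_num) d)
        have w5 := mul_le_mul_of_nonneg_left w2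
          (show 0 ≤ 8 * sm 300 d + 16 * (sm 300 d * sm 300 d) by positivity)
        linarith only [w0, w4, w5]
      have w6 := mul_le_mul_of_nonneg_left w1 j0
      have w7 := mul_le_mul_of_nonneg_left b5 i0
      have w8 : ind (S.sp a σ ≠ s g.1 a) * (24 * sm 300 d) ≤ 24 * sm 300 d :=
        mul_le_of_le_one_left (by positivity) j1
      have w9 : ind (S.sp a σ = s g.1 a) * (S.add D).Sv (-2) a g σ
            + Real.exp (-(2 * S.y)) * ind (S.sp a σ ≠ s g.1 a) * (S.add D).Sv 2 a g σ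
          ≤ (ind (S.sp a σ = s g.1 a) * (S.add D).Sv (-(S.tp + S.tm)) a g σ
            + Real.exp (-(S.y * (S.tp + S.tm))) * ind (S.sp a σ ≠ s g.1 a)
              * (S.add D).Sv (S.tp + S.tm) a g σ) + 24 * sm 300 d := by
        linarith only [w6, w7, w8]
      have w10 := mul_le_mul_of_nonneg_left w9 o0
      have w11 : oA I a g * (24 * sm 300 d) ≤ 24 * sm 300 d :=
        mul_le_of_le_one_left (by positivity) o1
      linarith only [w10, w11]
    rw [EI_add, EI_const, ← hW] at t1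
    have k4 : 0 ≤ sm 290 d * (W + G) := mul_nonneg u0.le hWG
    linarith only [t1, dm, n1, n2, n3, n4, k4]

end Pool.Agent.MP_32a90a_pr.D

end

section

set_option autoImplicit false

namespace Pool.Agent.MP_32a90a_pr.D

open Finset Filter Pool.Agent.MP_32a90a_pr Pool.Agent.MP_32a90a_pr.L

namespace SRWJ

lemma law (d : ℕ) (a : Fin d → Bool) (F : ℝ → ℝ) :
    avg (fun J : Fin d → Bool => F (∑ i, sgn (J i) * sgn (a i))) =
      (∑ j ∈ range (d + 1), (d.choose j : ℝ) * F (d - 2 * j)) / 2 ^ d := by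
  let e : Finset (Fin d) ≃ (Fin d → Bool) :=
    { toFun := fun t i => if i ∈ t then !a i else a i
      invFun := fun J => univ.filter fun i => J i ≠ a i
      left_inv := fun t => by ext i; by_cases h : i ∈ t <;> simp [h]
      right_inv := fun J => by
        funext i
        by_cases h : J i = a i
        · simp [h]
        · simp [h, Bool.eq_not_iff, Ne.symm h] }
  have h1 : ∀ t : Finset (Fin d), ∑ i, sgn (e t i) * sgn (a i) = d - 2 * t.card := fun t => by
    have h2 : ∀ i, sgn (e t i) * sgn (a i) = 1 - 2 * if i ∈ t then 1 else 0 := fun i => by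
      show sgn (if i ∈ t then !a i else a i) * sgn (a i) = _
      by_cases h : i ∈ t <;> cases a i <;> simp [h, sgn] <;> norm_num
    simp only [h2, sum_sub_distrib, ← mul_sum]
    simp
  rw [← avg_equiv e]
  simp only [h1]
  have h3 := sum_powerset_apply_card (fun m : ℕ => F (d - 2 * m)) (x := (univ : Finset (Fin d)))
  rw [powerset_univ, card_univ, Fintype.card_fin] at h3
  rw [avg, h3]
  simp

lemma mom (d : ℕ) :
    ∑ j ∈ range (d + 1), (d.choose j : ℝ) * ((d : ℝ) - 2 * (j : ℝ)) ^ 2 = (d : ℝ) * 2 ^ d := by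
  induction d with
  | zero => simp
  | succ n ih =>
    have h1 := sum_choose_succ_mul (R := ℝ) (fun i _ => (((n + 1 : ℕ) : ℝ) - 2 * i) ^ 2) n
    have h2 : ∑ j ∈ range (n + 1), (n.choose j : ℝ) = 2 ^ n := by
      exact_mod_cast Nat.sum_range_choose n
    rw [h1, ← sum_add_distrib]
    have h3 : ∀ j ∈ range (n + 1), (n.choose j : ℝ) * (((n + 1 : ℕ) : ℝ) - 2 * j) ^ 2 +
        (n.choose j : ℝ) * (((n + 1 : ℕ) : ℝ) - 2 * (j + 1 : ℕ)) ^ 2 =
        2 * ((n.choose j : ℝ) * ((n : ℝ) - 2 * j) ^ 2) + 2 * (n.choose j : ℝ) := fun j _ => by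
      push_cast; ring
    rw [sum_congr rfl h3, sum_add_distrib, ← mul_sum, ← mul_sum, ih, h2]
    push_cast; ring

lemma half {d j k : ℕ} (h : k ≤ j) (hj : j ≤ d / 2) : d.choose k ≤ d.choose j := by
  induction j, h using Nat.le_induction with
  | base => exact le_rfl
  | succ j _ ih => exact (ih (by omega)).trans (Nat.choose_le_succ_of_lt_half_left (by omega))

lemma uni {d j k : ℕ} (hj : j ≤ d) (hk : k ≤ d) (h : |(d : ℤ) - 2 * j| ≤ |(d : ℤ) - 2 * k|) :
    d.choose k ≤ d.choose j := by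
  have h1 : ∀ i, i ≤ d → d.choose i = d.choose (min i (d - i)) := fun i hi => by
    rcases le_total i (d - i) with h | h
    · rw [min_eq_left h]
    · rw [min_eq_right h, Nat.choose_symm hi]
  rw [h1 j hj, h1 k hk]
  refine half ?_ (by omega)
  rcases abs_cases ((d : ℤ) - 2 * j) with h2 | h2 <;>
    rcases abs_cases ((d : ℤ) - 2 * k) with h3 | h3 <;> omega

/-- levels of size at most m -/
def lev (d m : ℕ) : Finset ℕ := (range (d + 1)).filter fun j => |(d : ℤ) - 2 * j| ≤ m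

lemma mem_lev {d m j : ℕ} : j ∈ lev d m ↔ j ≤ d ∧ (d : ℤ) - 2 * j ≤ m ∧ 2 * (j : ℤ) - d ≤ m := by
  simp only [lev, mem_filter, mem_range, abs_le]
  omega

lemma lev_ge {d m : ℕ} (h : m ≤ d) : m ≤ (lev d m).card := by
  have h1 : Ico ((d - m + 1) / 2) ((d - m + 1) / 2 + m) ⊆ lev d m := fun j hj => by
    have := mem_Ico.1 hj
    exact mem_lev.2 (by omega)
  simpa using card_le_card h1

lemma lev_le (d r : ℕ) : (lev d (2 * r)).card ≤ 2 * r + 1 := by
  have h2 : lev d (2 * r) ⊆ Ico (d / 2 - r) (d / 2 - r + (2 * r + 1)) := fun j hj => by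
    have := mem_lev.1 hj
    exact mem_Ico.2 (by omega)
  simpa using card_le_card h2

lemma cheb {d r : ℕ} (hr : 0 < r) (h : d ≤ r ^ 2) :
    3 / 4 * (2 : ℝ) ^ d ≤ ∑ j ∈ lev d (2 * r), (d.choose j : ℝ) := by
  have h2 : ∑ j ∈ range (d + 1), (d.choose j : ℝ) = 2 ^ d := by
    exact_mod_cast Nat.sum_range_choose d
  have h3 : ∀ j ∈ range (d + 1), 4 * (r : ℝ) ^ 2 * (d.choose j : ℝ) ≤
      (d.choose j : ℝ) * ((d : ℝ) - 2 * j) ^ 2 +
        4 * (r : ℝ) ^ 2 * if |(d : ℤ) - 2 * j| ≤ (2 * r : ℕ) then (d.choose j : ℝ) else 0 := by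
    intro j _
    split_ifs with h4
    · exact le_add_of_nonneg_left (by positivity)
    · have h5 : ((2 * r : ℕ) : ℤ) ^ 2 ≤ ((d : ℤ) - 2 * j) ^ 2 := by
        rw [← sq_abs ((d : ℤ) - 2 * j)]
        exact pow_le_pow_left₀ (by positivity) (not_le.1 h4).le 2
      have h6 : (2 * r : ℝ) ^ 2 ≤ ((d : ℝ) - 2 * j) ^ 2 := by exact_mod_cast h5
      have := mul_le_mul_of_nonneg_left h6 (Nat.cast_nonneg (d.choose j))
      linarith
  have h7 := sum_le_sum h3
  rw [sum_add_distrib, ← mul_sum, ← mul_sum, h2, mom, ← sum_filter] at h7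
  have h8 : (d : ℝ) * 2 ^ d ≤ (r : ℝ) ^ 2 * 2 ^ d :=
    mul_le_mul_of_nonneg_right (by exact_mod_cast h) (by positivity)
  refine le_of_mul_le_mul_left (a := 4 * (r : ℝ) ^ 2) ?_ (by positivity)
  unfold lev
  linarith

lemma top {d m n : ℕ} (h : m ≤ n) :
    ((lev d m).card : ℝ) * ∑ j ∈ lev d n, (d.choose j : ℝ) ≤
      (lev d n).card * ∑ j ∈ lev d m, (d.choose j : ℝ) := by
  have h1 : lev d m ⊆ lev d n := fun j hj => by
    have := mem_lev.1 hj
    exact mem_lev.2 (by omega)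
  have h2 : ∑ _j ∈ lev d m, ∑ k ∈ lev d n \ lev d m, (d.choose k : ℝ) ≤
      ∑ j ∈ lev d m, ∑ _k ∈ lev d n \ lev d m, (d.choose j : ℝ) :=
    sum_le_sum fun j hj => sum_le_sum fun k hk => by
      have h3 := mem_filter.1 hj
      obtain ⟨h4, h5⟩ := mem_sdiff.1 hk
      have h6 := mem_filter.1 h4
      have h7 : ¬ |(d : ℤ) - 2 * k| ≤ m := fun h8 => h5 (mem_filter.2 ⟨h6.1, h8⟩)
      exact_mod_cast uni (mem_lev.1 hj).1 (mem_lev.1 h4).1 (h3.2.trans (not_le.1 h7).le)
  simp only [sum_const, nsmul_eq_mul, ← mul_sum] at h2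
  rw [← sum_sdiff h1, ← card_sdiff_add_card_eq_card h1]
  push_cast
  linarith

end SRWJ

open SRWJ in
theorem stSRW : StSRW := by
  refine ⟨1 / 16, by norm_num, fun d a L h1 h2 => ?_⟩
  have hd : (1 : ℝ) ≤ d := by nlinarith
  have hs : 1 ≤ Real.sqrt d := Real.one_le_sqrt.2 hd
  have hL : L ≤ Real.sqrt d := Real.le_sqrt_of_sq_le h2
  have hq := Real.sq_sqrt (Nat.cast_nonneg d : (0 : ℝ) ≤ d)
  obtain ⟨m, m1, m2⟩ : ∃ m : ℕ, (m : ℝ) ≤ L ∧ L ≤ 2 * m := by
    refine ⟨⌊L⌋₊, Nat.floor_le (by linarith), ?_⟩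
    have h3 := Nat.lt_floor_add_one L
    have h4 : (1 : ℝ) ≤ ⌊L⌋₊ := by exact_mod_cast (Nat.one_le_floor_iff L).2 h1
    linarith
  obtain ⟨r, r1, r2⟩ : ∃ r : ℕ, Real.sqrt d ≤ r ∧ (r : ℝ) ≤ 2 * Real.sqrt d :=
    ⟨⌈Real.sqrt d⌉₊, Nat.le_ceil _, by
      have := Nat.ceil_lt_add_one (Real.sqrt_nonneg d); linarith⟩
  have r0 : (1 : ℝ) ≤ r := hs.trans r1
  have h3 : m ≤ d := by
    have : (m : ℝ) ≤ d := by nlinarith
    exact_mod_cast this
  have h4 : m ≤ 2 * r := by
    have : (m : ℝ) ≤ 2 * r := by linarith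
    exact_mod_cast this
  have h5 : d ≤ r ^ 2 := by
    have : (d : ℝ) ≤ (r : ℝ) ^ 2 := by nlinarith
    exact_mod_cast this
  have h6 := cheb (by exact_mod_cast (by linarith : (0 : ℝ) < r)) h5
  have h7 := top (d := d) h4
  have h8 : (m : ℝ) ≤ (lev d m).card := by exact_mod_cast lev_ge h3
  have h9 : ((lev d (2 * r)).card : ℝ) ≤ 6 * Real.sqrt d := by
    have : ((lev d (2 * r)).card : ℝ) ≤ 2 * r + 1 := by exact_mod_cast lev_le d r
    linarith
  have h10 : ∑ j ∈ lev d m, (d.choose j : ℝ) ≤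
      ∑ j ∈ range (d + 1), (d.choose j : ℝ) * ind (|(d : ℝ) - 2 * j| ≤ L) := by
    rw [lev, sum_filter]
    refine sum_le_sum fun j _ => ?_
    split_ifs with h
    · have h11 : |(d : ℝ) - 2 * j| ≤ m := by exact_mod_cast h
      rw [ind_pos (h11.trans m1), mul_one]
    · exact mul_nonneg (Nat.cast_nonneg _) (ind_nonneg _)
  have h12 : 0 ≤ ∑ j ∈ lev d m, (d.choose j : ℝ) := sum_nonneg fun j _ => Nat.cast_nonneg _
  have h13 : L / 2 * (3 / 4 * (2 : ℝ) ^ d) ≤ 6 * Real.sqrt d * ∑ j ∈ lev d m, (d.choose j : ℝ) :=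
    (mul_le_mul (by linarith) h6 (by positivity) (Nat.cast_nonneg _)).trans
      (h7.trans (mul_le_mul_of_nonneg_right h9 h12))
  rw [law d a fun x => ind (|x| ≤ L), div_le_div_iff₀ (by linarith) (by positivity)]
  have h14 := mul_le_mul_of_nonneg_right h10 (Real.sqrt_nonneg d)
  linarith

end Pool.Agent.MP_32a90a_pr.D

end

section

set_option autoImplicit false

namespace Pool.Agent.MP_32a90a_pr.D

open Finset Pool.Agent.MP_32a90a_pr Pool.Agent.MP_32a90a_pr.L

namespace SandJ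

variable {Sg G0 A : Type} [Fintype Sg] [Nonempty Sg] [Fintype G0] [Nonempty G0] [Fintype A]
  [DecidableEq A] {S : Sys Sg G0 A} {d : ℕ}

omit [Fintype Sg] [Nonempty Sg] [Fintype A] [DecidableEq A] in
lemma hom_sub (sp : A → Sg → Bool) (AA : Finset (Fin d)) (ω : Fin d → A × Bool) (σ' σ : Sg) :
    |hom sp AA ω σ' - hom sp AA ω σ| ≤ 2 * dn sp (uu ω) σ' σ := by
  rw [hom, hom, ← sum_sub_distrib, dn, mul_sum]
  refine (abs_sum_le_sum_abs _ _).trans (sum_le_sum fun i _ => ?_)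
  have hJ : |Jc AA i (ω i).2| = 1 := by
    unfold Jc
    split_ifs <;> simp
  rw [← mul_sub, abs_mul, hJ, one_mul]
  show _ ≤ 2 * ind (sp (ω i).1 σ' ≠ sp (ω i).1 σ)
  cases sp (ω i).1 σ' <;> cases sp (ω i).1 σ <;> simp [ind, sgn] <;> norm_num

omit [Fintype A] [DecidableEq A] in
lemma avg_split [Fintype A] (f : (Fin d → A × Bool) → ℝ) :
    avg f = avg fun u : Fin d → A => avg fun J : Fin d → Bool => f fun k => (u k, J k) := by
  rw [← avg_equiv (Equiv.arrowProdEquivProdArrow (Fin d) (fun _ => A) fun _ => Bool).symm f,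
    avg_prod]
  rfl

/-- the total partition function ratio -/
noncomputable def Ps (S : Sys Sg G0 A) (AA : Finset (Fin d)) (ω : Fin d → A × Bool)
    (g : Gam G0 A) : ℝ := S.Psi AA ω true g + S.Psi AA ω false g

omit [Fintype G0] [Nonempty G0] [DecidableEq A] in
lemma Psi_pos (AA : Finset (Fin d)) (ω : Fin d → A × Bool) (s : Bool) (g : Gam G0 A)
    [Fintype G0] : 0 < S.Psi AA ω s g :=
  (Cas.nu_prob (C := S.cas) g).Ex_pos fun _ => Real.exp_pos _

omit [Nonempty G0] [DecidableEq A] in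
lemma Ps_pos (AA : Finset (Fin d)) (ω : Fin d → A × Bool) (g : Gam G0 A) : 0 < Ps S AA ω g :=
  add_pos (Psi_pos AA ω true g) (Psi_pos AA ω false g)

lemma pin_eq (hPin : StPin) (hok : S.cas.Ok) {fl : Sg → Sg} {o : Sg → Bool} (hS : S.Sym fl o)
    (AA : Finset (Fin d)) (ω : Fin d → A × Bool) (b : Bool) (l : ℝ) :
    (S.Pin o AA 0 ω fun _ σ => ind (o σ = b ∧ sgn b * hom S.sp AA ω σ = l))
      = S.Gw AA ω * S.P fun g σ => oU (uu ω) g * ind (sgn b * hom S.sp AA ω σ = l) *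
          (Real.exp (S.β * l) * Ps S AA ω g ^ (S.x - 1)) := by
  have hh : ∀ σ, hom S.sp AA ω (fl σ) = hom S.sp AA ω σ := fun σ => by
    simp only [hom, hS.2.2.2]
  have h := (hPin Sg G0 A S d fl o AA 0 ω hS).1
  have hP : ∀ g, (∑ b, Ex (S.nu g) fun σ' =>
      Real.exp (S.β * (sgn b * (hom S.sp AA ω σ' + 0)))) = Ps S AA ω g := fun g => by
    simp only [Fintype.sum_bool, add_zero]
    rfl
  simp only [hP] at h
  have h1 := h (fun g b' σ => oU (uu ω) g * ind (b' = b ∧ sgn b * hom S.sp AA ω σ = l))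
    fun g b' σ => by rw [hh]
  have h2 := h (fun _ _ _ => 1) fun _ _ _ => rfl
  have e1 : (S.E fun g σ => (1 / 2 : ℝ) ^ S.x *
      (∑ b', oU (uu ω) g * ind (b' = b ∧ sgn b * hom S.sp AA ω σ = l) *
        Real.exp (S.β * (sgn b' * (hom S.sp AA ω σ + 0)))) * Ps S AA ω g ^ (S.x - 1))
      = (1 / 2 : ℝ) ^ S.x * S.E fun g σ => oU (uu ω) g * ind (sgn b * hom S.sp AA ω σ = l) *
          (Real.exp (S.β * l) * Ps S AA ω g ^ (S.x - 1)) := by
    rw [← Cas.E_mul]
    refine Cas.E_congr fun g σ => ?_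
    by_cases hl : sgn b * hom S.sp AA ω σ = l
    · have : (∑ b', oU (uu ω) g * ind (b' = b ∧ sgn b * hom S.sp AA ω σ = l) *
          Real.exp (S.β * (sgn b' * (hom S.sp AA ω σ + 0)))) = oU (uu ω) g * Real.exp (S.β * l) := by
        rw [sum_eq_single b (fun b' _ hb => by rw [ind_neg fun h => hb h.1]; ring)
          (fun h => absurd (mem_univ _) h), ind_pos ⟨rfl, hl⟩, add_zero, hl, mul_one]
      rw [this, ind_pos hl]
      ring
    · rw [sum_eq_zero fun b' _ => by rw [ind_neg fun h => hl h.2]; ring, ind_neg hl]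
      ring
  have e2 : (S.E fun g σ => (1 / 2 : ℝ) ^ S.x *
      (∑ b', 1 * Real.exp (S.β * (sgn b' * (hom S.sp AA ω σ + 0)))) * Ps S AA ω g ^ (S.x - 1))
      = (1 / 2 : ℝ) ^ S.x * S.E fun g _ => Ps S AA ω g ^ S.x := by
    rw [← Cas.E_mul]
    refine (Cas.E_Ex (C := S.cas) _).symm.trans (Cas.E_congr fun g σ => ?_)
    simp only [one_mul, Fintype.sum_bool, add_zero]
    rw [Ex_mul_right, Ex_mul, Ex_add, Real.rpow_sub_one (Ps_pos AA ω g).ne']
    have : (Ex (S.cas.nu g) fun σ => Real.exp (S.β * (sgn true * hom S.sp AA ω σ))) +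
        (Ex (S.cas.nu g) fun σ => Real.exp (S.β * (sgn false * hom S.sp AA ω σ)))
        = Ps S AA ω g := rfl
    rw [this]
    have := (Ps_pos (S := S) AA ω g).ne'
    field_simp
  rw [e1] at h1
  rw [e2] at h2
  have hN := (Cas.N_pos hok).ne'
  have hx : (0 : ℝ) < (1 / 2 : ℝ) ^ S.x := Real.rpow_pos_of_pos (by norm_num) _
  show (S.add (S.Dv o AA 0 ω)).E _ / (S.add (S.Dv o AA 0 ω)).E (fun _ _ => 1) = _
  rw [h1, h2, mul_div_mul_left _ _ hx.ne']
  show _ = 1 / (S.E (fun g _ => Ps S AA ω g ^ S.x) / S.cas.N) * (S.E _ / S.cas.N)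
  rw [one_div_div, div_mul_div_comm, mul_comm S.cas.N, mul_div_mul_right _ _ hN]

lemma exp_rpow (a l x : ℝ) : Real.exp (a * l) * Real.exp (a * l) ^ (x - 1) = Real.exp (a * x * l) := by
  rw [← Real.exp_mul, ← Real.exp_add]
  congr 1
  ring

omit [Nonempty G0] [DecidableEq A] in
lemma up (hok : S.cas.Ok) (AA : Finset (Fin d)) (ω : Fin d → A × Bool) {b : Bool} {l : ℝ}
    (g : Gam G0 A) {σ : Sg} (hl : sgn b * hom S.sp AA ω σ = l) :
    Real.exp (S.β * l) * Ps S AA ω g ^ (S.x - 1)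
      ≤ Real.exp (S.y * l) * S.SN (-2) (uu ω) g σ := by
  have hβ : 0 < S.β := hok.1
  have hx : S.x ≤ 1 := hok.2.2.1
  have hν := Cas.nu_prob (C := S.cas) g
  have h0 : 0 < Ex (S.nu g) fun σ' => Real.exp (S.β * -2 * dn S.sp (uu ω) σ' σ) :=
    hν.Ex_pos fun _ => Real.exp_pos _
  have h1 : Real.exp (S.β * l) * (Ex (S.nu g) fun σ' =>
      Real.exp (S.β * -2 * dn S.sp (uu ω) σ' σ)) ≤ S.Psi AA ω b g := by
    rw [← Ex_mul]
    refine Ex_mono hν.1 fun σ' => ?_
    rw [← Real.exp_add]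
    refine Real.exp_le_exp.2 ?_
    have h2 := abs_le.1 (hom_sub S.sp AA ω σ' σ)
    have h3 : l - 2 * dn S.sp (uu ω) σ' σ ≤ sgn b * hom S.sp AA ω σ' := by
      rcases sgn_cases b with e | e <;> rw [e] at hl ⊢ <;> linarith [h2.1, h2.2]
    nlinarith
  have h2 : S.Psi AA ω b g ≤ Ps S AA ω g := by
    have := Psi_pos (S := S) AA ω true g
    have := Psi_pos (S := S) AA ω false g
    unfold Ps
    cases b <;> linarith
  have h3 := Real.rpow_le_rpow_of_nonpos (mul_pos (Real.exp_pos _) h0) (h1.trans h2)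
    (sub_nonpos.2 hx)
  rw [Real.mul_rpow (Real.exp_pos _).le h0.le] at h3
  refine (mul_le_mul_of_nonneg_left h3 (Real.exp_pos _).le).trans_eq ?_
  rw [← mul_assoc, exp_rpow]
  rfl

omit [Nonempty G0] [DecidableEq A] in
lemma low (hok : S.cas.Ok) (AA : Finset (Fin d)) (ω : Fin d → A × Bool) {b : Bool} {l : ℝ}
    (g : Gam G0 A) {σ : Sg} (hl : sgn b * hom S.sp AA ω σ = l) (hl0 : 0 ≤ l) :
    Real.exp (S.y * l) / 2 * S.SN 2 (uu ω) g σ
      ≤ Real.exp (S.β * l) * Ps S AA ω g ^ (S.x - 1) := by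
  have hβ : 0 < S.β := hok.1
  have hx0 : 0 < S.x := hok.2.1
  have hx : S.x ≤ 1 := hok.2.2.1
  have hν := Cas.nu_prob (C := S.cas) g
  have h0 : 0 < Ex (S.nu g) fun σ' => Real.exp (S.β * 2 * dn S.sp (uu ω) σ' σ) :=
    hν.Ex_pos fun _ => Real.exp_pos _
  have h1 : ∀ s, S.Psi AA ω s g ≤ Real.exp (S.β * l) * Ex (S.nu g) fun σ' =>
      Real.exp (S.β * 2 * dn S.sp (uu ω) σ' σ) := fun s => by
    rw [← Ex_mul]
    refine Ex_mono hν.1 fun σ' => ?_
    rw [← Real.exp_add]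
    refine Real.exp_le_exp.2 ?_
    have h2 := abs_le.1 (hom_sub S.sp AA ω σ' σ)
    have h3 : sgn s * hom S.sp AA ω σ' ≤ l + 2 * dn S.sp (uu ω) σ' σ := by
      rcases sgn_cases b with e | e <;> rcases sgn_cases s with e' | e' <;> rw [e] at hl <;>
        rw [e'] <;> linarith [h2.1, h2.2]
    nlinarith
  have h2 : Ps S AA ω g ≤ 2 * (Real.exp (S.β * l) * Ex (S.nu g) fun σ' =>
      Real.exp (S.β * 2 * dn S.sp (uu ω) σ' σ)) := by
    unfold Ps
    linarith [h1 true, h1 false]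
  have h3 := Real.rpow_le_rpow_of_nonpos (Ps_pos AA ω g) h2 (sub_nonpos.2 hx)
  rw [Real.mul_rpow (by norm_num) (mul_pos (Real.exp_pos _) h0).le,
    Real.mul_rpow (Real.exp_pos _).le h0.le] at h3
  refine le_trans ?_ (mul_le_mul_of_nonneg_left h3 (Real.exp_pos _).le)
  have h4 : (1 / 2 : ℝ) ≤ 2 ^ (S.x - 1) := by
    rw [Real.rpow_sub_one (by norm_num)]
    have := Real.one_le_rpow (x := 2) (by norm_num) hx0.le
    linarith
  have h5 : 0 ≤ Real.exp (S.y * l) * S.SN 2 (uu ω) g σ :=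
    mul_nonneg (Real.exp_pos _).le (Real.rpow_nonneg h0.le _)
  calc _ = 1 / 2 * (Real.exp (S.y * l) * S.SN 2 (uu ω) g σ) := by ring
    _ ≤ 2 ^ (S.x - 1) * (Real.exp (S.y * l) * S.SN 2 (uu ω) g σ) :=
        mul_le_mul_of_nonneg_right h4 h5
    _ = _ := by
        rw [mul_left_comm (Real.exp (S.β * l)), ← mul_assoc (Real.exp (S.β * l)), exp_rpow]
        rfl

/-- the averaged level weight -/
noncomputable def TT (S : Sys Sg G0 A) (AA : Finset (Fin d)) (l : ℝ) (u : Fin d → A) (_g : G0)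
    (σ : Sg) : ℝ :=
  avg fun J : Fin d → Bool => S.Gw AA (fun k => (u k, J k)) *
    ind (hom S.sp AA (fun k => (u k, J k)) σ = l)

omit [Nonempty Sg] [Nonempty G0] in
lemma avg_TT (AA : Finset (Fin d)) (l : ℝ) :
    (avg fun u : Fin d → A => S.P fun g σ => TT S AA l u g.1 σ) = S.Th AA l := by
  rw [Sys.Th, avg_split]
  refine avg_congr fun u => ?_
  refine (Cas.P_avg (C := S.cas) fun (J : Fin d → Bool) (_ : Gam G0 A) σ =>
    S.Gw AA (fun k => (u k, J k)) * ind (hom S.sp AA (fun k => (u k, J k)) σ = l)).trans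
    (avg_congr fun J => ?_)
  rw [Cas.P_mul, Cas.P_root]

omit [Nonempty Sg] [Nonempty G0] in
lemma avg_SN (AA : Finset (Fin d)) (l t : ℝ) :
    (avg fun u : Fin d → A => S.P fun g σ => TT S AA l u g.1 σ * oU u g * S.SN t u g σ)
      = avg fun ω : Fin d → A × Bool => S.Gw AA ω *
        S.P fun g σ => oU (uu ω) g * ind (hom S.sp AA ω σ = l) * S.SN t (uu ω) g σ := by
  rw [avg_split]
  refine avg_congr fun u => ?_
  simp only [TT, ← avg_mul_right]
  refine (Cas.P_avg (C := S.cas) fun (J : Fin d → Bool) (g : Gam G0 A) σ =>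
    S.Gw AA (fun k => (u k, J k)) * ind (hom S.sp AA (fun k => (u k, J k)) σ = l) * oU u g *
      S.SN t u g σ).trans (avg_congr fun J => ?_)
  rw [← Cas.P_mul]
  refine Cas.P_congr fun g σ => ?_
  show _ = _ * (oU u g * _ * S.SN t u g σ)
  ring

lemma sgn_iff (b : Bool) (h l : ℝ) : sgn b * h = l ↔ h = sgn b * l := by
  rcases sgn_cases b with e | e <;> rw [e] <;> constructor <;> intro <;> linarith

end SandJ

open SandJ in
theorem stSand (hPin : StPin) (hGw : StGw) (hRatio : StRatio) (hAllU : StAllU)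
    (hAllL : StAllL) : StSand := by
  intro Sg G0 A _ _ _ _ _ _ S d lam l fl o AA b hd hPar hD hS hAA hl
  have hd3 : 3 ≤ d := by omega
  have hok := hPar.ok hd3
  have hy0 : 0 < S.y := mul_pos hok.1 hok.2.1
  have hy : S.y ≤ 1 / 1000 := hPar.2.2.1
  have hG := fun ω => hGw Sg G0 A S d d AA ω hd3 hPar
  have hT : ∀ u g σ, 0 ≤ TT S AA (sgn b * l) u g σ ∧ TT S AA (sgn b * l) u g σ ≤ 1 :=
    fun u g σ => ⟨avg_nonneg fun J => mul_nonneg (hG _).1.le (ind_nonneg _),
      avg_le_const zero_le_one fun J => mul_le_one₀ (hG _).2.1 (ind_nonneg _) (ind_le_one _)⟩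
  have h4 : 3 * Real.exp (2 * (2 * S.y)) ≤ 4 := by
    have h1 := Real.add_one_le_exp (-(2 * (2 * S.y)))
    have h2 : Real.exp (2 * (2 * S.y)) * Real.exp (-(2 * (2 * S.y))) = 1 := by
      rw [← Real.exp_add, add_neg_cancel, Real.exp_zero]
    nlinarith [Real.exp_pos (2 * (2 * S.y))]
  have hR : ∀ u i a g σ, TT S AA (sgn b * l) (Function.update u i a) g σ
      ≤ 4 * TT S AA (sgn b * l) u g σ := fun u i a g σ =>
    (hRatio Sg A S.sp d AA (S.Gw AA) (2 * S.y) (sgn b * l) σ (by omega) hAA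
      (by rwa [abs_mul, abs_sgn, one_mul]) (by positivity) (fun ω => (hG ω).1.le)
      (fun ω => (hG ω).2.2.2.2.1) u i a).trans (mul_le_mul_of_nonneg_right h4 (hT u g σ).1)
  have hsm : Real.exp (S.y * l) * sm 190 d ≤ sm 180 d := by
    have h1 := exp_mul_sm (c := 10) (by norm_num) 180 hd3
    rw [show (180 : ℝ) + 10 = 190 by norm_num] at h1
    refine le_trans (mul_le_mul_of_nonneg_right (Real.exp_le_exp.2 ?_) (sm_pos _ _).le) h1
    have h2 := (abs_le.1 hl).2
    have h3 : (0 : ℝ) ≤ d := Nat.cast_nonneg d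
    nlinarith
  have hLv : S.Lv o AA b l = avg fun ω : Fin d → A × Bool => S.Gw AA ω *
      S.P fun g σ => oU (uu ω) g * ind (sgn b * hom S.sp AA ω σ = l) *
        (Real.exp (S.β * l) * Ps S AA ω g ^ (S.x - 1)) :=
    avg_congr fun ω => pin_eq hPin hok hS AA ω b l
  refine ⟨?_, fun hl0 hlam => ?_⟩
  · have h1 := hAllU Sg G0 A S d d lam 1 _ hd hPar hD le_rfl hT hR
    rw [avg_TT, avg_SN, mul_one] at h1
    have h2 : S.Lv o AA b l ≤ Real.exp (S.y * l) * avg fun ω : Fin d → A × Bool => S.Gw AA ω *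
        S.P fun g σ => oU (uu ω) g * ind (hom S.sp AA ω σ = sgn b * l) *
          S.SN (-2) (uu ω) g σ := by
      rw [hLv, ← avg_mul]
      refine avg_mono fun ω => ?_
      rw [mul_left_comm, ← Cas.P_mul (Real.exp (S.y * l))]
      refine mul_le_mul_of_nonneg_left (Cas.P_mono hok fun g σ => ?_) (hG ω).1.le
      rw [ind_congr (sgn_iff b _ l).symm]
      by_cases h : sgn b * hom S.sp AA ω σ = l
      · rw [ind_pos h, mul_one, mul_left_comm (Real.exp (S.y * l))]
        exact mul_le_mul_of_nonneg_left (up hok AA ω g h) (ind_nonneg _)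
      · rw [ind_neg h]
        simp
    have h3 := mul_le_mul_of_nonneg_left h1 (Real.exp_pos (S.y * l)).le
    rw [Real.exp_add]
    nlinarith
  · have h1 := hAllL Sg G0 A S d d lam 1 _ hd hPar hD le_rfl hlam hT hR
    rw [avg_TT, avg_SN, mul_one] at h1
    have h2 : Real.exp (S.y * l) / 2 * (avg fun ω : Fin d → A × Bool => S.Gw AA ω *
        S.P fun g σ => oU (uu ω) g * ind (hom S.sp AA ω σ = sgn b * l) *
          S.SN 2 (uu ω) g σ) ≤ S.Lv o AA b l := by
      rw [hLv, ← avg_mul]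
      refine avg_mono fun ω => ?_
      rw [mul_left_comm, ← Cas.P_mul (Real.exp (S.y * l) / 2)]
      refine mul_le_mul_of_nonneg_left (Cas.P_mono hok fun g σ => ?_) (hG ω).1.le
      rw [ind_congr (sgn_iff b _ l).symm]
      by_cases h : sgn b * hom S.sp AA ω σ = l
      · rw [ind_pos h, mul_one, mul_left_comm (Real.exp (S.y * l) / 2)]
        exact mul_le_mul_of_nonneg_left (low hok AA ω g h hl0) (ind_nonneg _)
      · rw [ind_neg h]
        simp
    have h3 := mul_le_mul_of_nonneg_left h1 (half_pos (Real.exp_pos (S.y * l))).le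
    have h5 := sm_pos 180 d
    rw [Real.exp_add]
    nlinarith

end Pool.Agent.MP_32a90a_pr.D

end

section

set_option autoImplicit false

namespace Pool.Agent.MP_32a90a_pr.D

open Finset Filter Pool.Agent.MP_32a90a_pr Pool.Agent.MP_32a90a_pr.L

namespace StabJ

lemma sum_diff {A : Type} [Fintype A] (I : Finset A) (u v : A → ℝ) (c : ℝ)
    (h : ∀ a, a ∉ I → u a = v a) (hc : ∀ a, |u a - v a| ≤ c) :
    |∑ a, u a - ∑ a, v a| ≤ I.card * c := by
  rw [← sum_sub_distrib, ← sum_subset (subset_univ I) fun a _ ha => by rw [h a ha, sub_self]]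
  refine (abs_sum_le_sum_abs _ _).trans ((sum_le_sum fun a _ => hc a).trans_eq ?_)
  rw [sum_const, nsmul_eq_mul]

lemma ind_diff (P Q : Prop) : |ind P - ind Q| ≤ 1 := by
  rw [abs_le]
  constructor <;> linarith [ind_nonneg P, ind_nonneg Q, ind_le_one P, ind_le_one Q]

lemma gad_diff {tp tm : ℝ} (h1 : 1 ≤ tp) (h2 : tp ≤ 2) (h3 : 1 ≤ tm) (h4 : tm ≤ 2)
    (o : Option Bool) (s s' : Bool) : |gad tp tm o s - gad tp tm o s'| ≤ 4 := by
  rw [abs_le]
  cases o with
  | none => simp [gad]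
  | some b =>
    simp only [gad]
    split_ifs <;> constructor <;> linarith

end StabJ

theorem stStab (hBd : StBd) (hTower : StTower) (hNear : StNear) : StStab := by
  intro Sg G0 A _ _ _ _ _ _ S d S' D I dl hd hP hN hI hdl hD
  have hok := hP.ok (by omega)
  have hok' := (hN.par hP).ok (by omega)
  have hd' : (1000 : ℝ) ≤ d := by exact_mod_cast hd
  have hI' : (I.card : ℝ) ≤ d + 2 := by exact_mod_cast hI
  have hnear := (hNear Sg G0 A S d S' D I dl hd hP hN hI).2.2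
  obtain ⟨n1, n2, n3, n4, n5, n6, n7⟩ := hN
  have e : S'.cas = S.cas.add fun g σ => S'.cas.H g σ - S.cas.H g σ := by
    simp only [Sys.cas, Cas.add, n1, n2, n3, add_sub_cancel]
  have hb : ∀ g σ, 0 < S.cas.p g → |S'.cas.H g σ - S.cas.H g σ| ≤ 10 * d := by
    intro g σ _
    obtain ⟨p1, -, -, -, -, -, p2, p3, p4, p5, -⟩ := hP
    have p6 := sm_le_one (k := 300) (by norm_num) d
    have a1 := StabJ.sum_diff I (fun a => gad S.tp S.tm (g.2 a) (S'.sp a σ))
      (fun a => gad S.tp S.tm (g.2 a) (S.sp a σ)) 4 (fun a ha => by rw [n7 a ha])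
      fun a => StabJ.gad_diff p2 (by nlinarith) p3 (by nlinarith) _ _ _
    have a2 := n6 g.1 σ
    have a3 := hD g.1 σ
    simp only [Sys.cas, n4, n5]
    rw [abs_le] at a1 a2 a3 ⊢
    constructor <;> linarith [a1.1, a1.2, a2.1, a2.2, a3.1, a3.2]
  have e2 : 40 * S.β * d = 4 * S.cas.β * (10 * d) := by
    simp only [Sys.cas]
    ring
  refine ⟨fun f hf => ?_, fun Nd nd n σ => ?_, fun g σ => ⟨?_, ?_⟩,
    fun b hDb hβ f f' hf hf' hff => ?_⟩
  · have := ((hBd Sg _ S.cas _ _ hok hb).1 f hf).2.2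
    rwa [← e, ← e2] at this
  · have := (hTower Sg _ Nd S.cas (fun g => nd g.1) hok).2.2.2 _ _ hb n σ
    rwa [← e, ← e2] at this
  · exact (StabJ.sum_diff I _ _ 1 (fun a ha => by rw [n7 a ha])
      fun a => StabJ.ind_diff _ _).trans_eq (mul_one _)
  · exact (StabJ.sum_diff I _ _ 1 (fun a ha => by rw [n7 a ha])
      fun a => StabJ.ind_diff _ _).trans_eq (mul_one _)
  · have o1 : ∀ g : Gam G0 A, oI I g = 0 ∨ oI I g = 1 := fun g => ind_cases _
    have a1 := hnear hβ (fun _ => 1) (fun g _ => f g) (fun g _ => oI I g * f g) 1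
      (fun _ => zero_le_one) (fun g _ => by rw [abs_of_nonneg (hf g).1]; exact (hf g).2)
      (fun g _ => by
        rcases o1 g with h | h
        · simp [h]
        · rw [h, one_mul, abs_of_nonneg (hf g).1]
          exact (hf g).2)
      fun g _ h => by rw [h, one_mul]
    simp only [one_mul, mul_one] at a1
    have a2 : (S.add D).P (fun g _ => f g) - sm 280 d ≤ S'.P fun g _ => oI I g * f g := by
      have := (abs_le.1 a1).1
      exact sub_le_iff_le_add.2 (neg_le_sub_iff_le_add.1 this)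
    have a3 : (S'.P fun g _ => oI I g * f g) ≤ S'.P fun g _ => f' g :=
      Cas.P_mono hok' fun g _ => by
        rcases o1 g with h | h
        · rw [h, zero_mul]
          exact (hf' g).1
        · rw [h, one_mul]
          exact hff g h
    have a4 := ((hBd Sg _ S.cas (fun g σ => D g.1 σ) b hok fun g σ _ => hDb g.1 σ).2.1 f
      fun g => (hf g).1).2.2.2
    rw [← Sys.cas_add] at a4
    have a5 := sm_anti (k := 250) (k' := 280) (by norm_num) d
    exact (sub_le_sub a4 a5).trans (a2.trans a3)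

end Pool.Agent.MP_32a90a_pr.D

end

section

set_option autoImplicit false

namespace Pool.Agent.MP_32a90a_pr.D

open Finset Filter Pool.Agent.MP_32a90a_pr Pool.Agent.MP_32a90a_pr.L

namespace SvJ

lemma rpow_le_of_sq {y c e : ℝ} (hc : 0 < c) (hy : 1 ≤ y) (h : 1 ≤ c ^ 2 * y) (he : e ≤ -(1 / 2)) :
    y ^ e ≤ c := by
  have hy0 : 0 < y := by linarith
  refine (Real.rpow_le_rpow_of_exponent_le hy he).trans ?_
  rw [← pow_le_pow_iff_left₀ (Real.rpow_nonneg hy0.le _) hc.le two_ne_zero, ← Real.rpow_natCast,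
    ← Real.rpow_mul hy0.le, show -(1 / 2 : ℝ) * ((2 : ℕ) : ℝ) = -1 by norm_num,
    Real.rpow_neg_one, inv_eq_one_div, div_le_iff₀ hy0]
  exact h

lemma one_sub_le {u e : ℝ} (hu : 0 ≤ u) (he : -1 ≤ e) : 1 - (1 + u) ^ e ≤ u := by
  have h1 := Real.rpow_le_rpow_of_exponent_le (show 1 ≤ 1 + u by linarith) he
  rw [Real.rpow_neg_one] at h1
  have h2 : 1 - u ≤ (1 + u)⁻¹ := by
    rw [inv_eq_one_div, le_div_iff₀ (by linarith)]
    nlinarith
  linarith

lemma exp_ind (c : ℝ) (P : Prop) : Real.exp (c * ind P) = 1 + (Real.exp c - 1) * ind P := by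
  rcases ind_cases P with h | h <;> simp [h]

variable {Sg : Type} [Fintype Sg] {μ : Sg → ℝ}

/-- probability of a spin different from b -/
noncomputable def Q (μ : Sg → ℝ) (φ : Sg → Bool) (b : Bool) : ℝ := Ex μ fun σ => ind (φ σ ≠ b)

lemma base_eq (h : Prob μ) (φ : Sg → Bool) (b : Bool) (c : ℝ) :
    (Ex μ fun σ => Real.exp (c * ind (φ σ ≠ b))) = 1 + (Real.exp c - 1) * Q μ φ b := by
  simp only [exp_ind]
  rw [Ex_add, Ex_mul, h.Ex_const, Q]

lemma Q_nonneg (h : Prob μ) (φ : Sg → Bool) (b : Bool) : 0 ≤ Q μ φ b :=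
  Ex_nonneg h.1 fun _ => ind_nonneg _

lemma Q_le_one (h : Prob μ) (φ : Sg → Bool) (b : Bool) : Q μ φ b ≤ 1 :=
  h.Ex_le fun _ => ind_le_one _

lemma mn_le_Q (h : Prob μ) (φ : Sg → Bool) (b : Bool) : mn μ φ ≤ Q μ φ b := by
  have h1 : Q μ φ b = 1 - (1 + sgn b * mm μ φ) / 2 := by
    rw [Q, ← h.Ex_ind_bool]
    simp only [ne_eq, ind_not]
    rw [Ex_sub, h.Ex_const]
  have h2 := le_abs_self (mm μ φ)
  have h3 := neg_abs_le (mm μ φ)
  rw [h1, mn]
  cases b <;> simp only [sgn, Bool.false_eq_true, if_true, if_false] <;> linarith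

lemma Ex_Q (h : Prob μ) (φ : Sg → Bool) : (Ex μ fun σ => Q μ φ (φ σ)) = kt μ φ := by
  rw [← h.E2_ne φ]
  exact Ex_congr fun σ => Ex_congr fun σ' => ind_congr ne_comm

end SvJ

open SvJ in
theorem stSv : StSv := by
  intro Sg G0 A _ _ _ _ _ _ S d hd hP a g σ
  have hμ : Prob (S.nu g) := Cas.nu_prob g
  have hβ : 1 ≤ S.β := hP.1
  have hx0 : 0 < S.x := hP.2.1
  have hx : S.x ≤ 1 / 2 := by
    refine hP.2.2.2.1.trans ((sm_le_inv (by norm_num) hd).trans ?_)
    have : (3 : ℝ) ≤ d := by exact_mod_cast hd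
    exact one_div_le_one_div_of_le (by norm_num) (by linarith)
  have pos : ∀ t σ, 0 < Ex (S.nu g) fun σ' => Real.exp (S.β * t * ind (S.sp a σ' ≠ S.sp a σ)) :=
    fun t σ => hμ.Ex_pos fun _ => Real.exp_pos _
  have eS : ∀ σ, S.Sv 2 a g σ =
      (1 + (Real.exp (S.β * 2) - 1) * Q (S.nu g) (S.sp a) (S.sp a σ)) ^ (S.x - 1) := fun σ => by
    rw [Sys.Sv, base_eq hμ]
  have hE : 0 ≤ Real.exp (S.β * 2) - 1 := by
    linarith [Real.add_one_le_exp (S.β * 2)]
  have up : (Ex (S.nu g) fun σ' => 1 - S.Sv 2 a g σ') ≤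
      (Real.exp (S.β * 2) - 1) * kt (S.nu g) (S.sp a) := by
    rw [← Ex_Q hμ, ← Ex_mul]
    refine Ex_mono hμ.1 fun σ' => ?_
    rw [eS]
    exact one_sub_le (mul_nonneg hE (Q_nonneg hμ _ _)) (by linarith)
  have e2 : (7 : ℝ) ≤ Real.exp 2 ∧ Real.exp 2 ≤ 8 := by
    have h1 : Real.exp 2 = Real.exp 1 * Real.exp 1 := by rw [← Real.exp_add]; norm_num
    have h2 := Real.exp_one_gt_d9
    have h3 := Real.exp_one_lt_d9
    rw [h1]
    constructor <;> nlinarith
  have hk := hμ.kt_nonneg (S.sp a)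
  refine ⟨fun t => Real.rpow_pos_of_pos (pos t σ) _, fun t t' h => ?_, ?_, fun t t' h => ?_,
    fun h2 hm => ?_, ?_, fun h1 => ⟨?_, ?_⟩⟩
  · refine Real.rpow_le_rpow_of_nonpos (pos t σ) (Ex_mono hμ.1 fun σ' => ?_) (by linarith)
    exact Real.exp_le_exp.2 (mul_le_mul_of_nonneg_right
      (mul_le_mul_of_nonneg_left h (by linarith)) (ind_nonneg _))
  · rw [Sys.Sv, base_eq hμ]
    simp
  · have hK : 1 ≤ Real.exp (S.β * (t' - t)) := Real.one_le_exp (mul_nonneg (by linarith) (by linarith))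
    have hK0 := Real.exp_pos (S.β * (t' - t))
    have h1 : (Ex (S.nu g) fun σ' => Real.exp (S.β * t' * ind (S.sp a σ' ≠ S.sp a σ))) ≤
        Real.exp (S.β * (t' - t)) *
          Ex (S.nu g) fun σ' => Real.exp (S.β * t * ind (S.sp a σ' ≠ S.sp a σ)) := by
      rw [← Ex_mul]
      refine Ex_mono hμ.1 fun σ' => ?_
      rw [← Real.exp_add, Real.exp_le_exp]
      have h3 : 0 ≤ S.β * (t' - t) := mul_nonneg (by linarith) (by linarith)
      have h4 := mul_le_mul_of_nonneg_left (ind_le_one (S.sp a σ' ≠ S.sp a σ)) h3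
      linarith
    have h2 := Real.rpow_le_rpow_of_nonpos (pos t' σ) h1 (show S.x - 1 ≤ 0 by linarith)
    rw [Real.mul_rpow hK0.le (pos t σ).le, Real.rpow_sub_one hK0.ne', div_mul_eq_mul_div,
      div_le_iff₀' hK0] at h2
    refine le_trans ?_ h2
    exact le_mul_of_one_le_left (Real.rpow_nonneg (pos t σ).le _) (Real.one_le_rpow hK hx0.le)
  · have h3 := hm.trans (mn_le_Q hμ (S.sp a) (S.sp a σ))
    have h4 := mul_le_mul_of_nonneg_left h3 hE
    have h5 : Real.exp (S.β * 2) * Real.exp (-S.β) = Real.exp S.β := by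
      rw [← Real.exp_add]; congr 1; ring
    have h6 : Real.exp (-S.β) ≤ 1 := Real.exp_le_one_iff.2 (by linarith)
    have h7 : Real.exp 2 ≤ Real.exp S.β := Real.exp_le_exp.2 h2
    rw [sub_mul, h5] at h4
    rw [eS]
    exact rpow_le_of_sq (by norm_num) (by linarith [e2.1]) (by linarith [e2.1]) (by linarith)
  · by_cases hm : Real.exp (-(3 * S.β)) ≤ mn (S.nu g) (S.sp a)
    · rw [ind_pos hm]
      have h1 : (Ex (S.nu g) fun σ' => 1 - S.Sv 2 a g σ') ≤ 1 :=
        hμ.Ex_le fun σ' => sub_le_self _ (Real.rpow_nonneg (pos 2 σ').le _)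
      linarith [Real.exp_pos (-S.β)]
    · rw [ind_neg hm, zero_add]
      refine up.trans ?_
      have h1 := hμ.kt_le_mn (S.sp a)
      have h2 : Real.exp (S.β * 2) * Real.exp (-(3 * S.β)) = Real.exp (-S.β) := by
        rw [← Real.exp_add]; congr 1; ring
      calc _ ≤ Real.exp (S.β * 2) * (2 * Real.exp (-(3 * S.β))) :=
            mul_le_mul (by linarith) (by linarith [not_le.1 hm]) hk (Real.exp_pos _).le
        _ = _ := by rw [← h2]; ring
  · rw [← Ex_Q hμ, div_eq_mul_inv, ← Ex_mul_right]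
    refine Ex_mono hμ.1 fun σ' => ?_
    have q0 := Q_nonneg hμ (S.sp a) (S.sp a σ')
    have q1 := Q_le_one hμ (S.sp a) (S.sp a σ')
    rw [eS, h1, one_mul]
    generalize Q (S.nu g) (S.sp a) (S.sp a σ') = q at q0 q1
    have h3 : 6 * q ≤ (Real.exp 2 - 1) * q := mul_le_mul_of_nonneg_right (by linarith [e2.1]) q0
    have h4 : 1 ≤ (1 - q / 2) ^ 2 * (1 + 6 * q) := by
      nlinarith [mul_nonneg q0 (sub_nonneg.2 q1), mul_nonneg q0 (mul_nonneg q0 q0)]
    have h5 := rpow_le_of_sq (y := 1 + (Real.exp 2 - 1) * q) (c := 1 - q / 2) (e := S.x - 1)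
      (by linarith) (by linarith)
      (h4.trans (mul_le_mul_of_nonneg_left (by linarith) (sq_nonneg _))) (by linarith)
    linarith
  · refine up.trans (mul_le_mul_of_nonneg_right ?_ hk)
    rw [h1, one_mul]
    linarith [e2.2]

end Pool.Agent.MP_32a90a_pr.D

end

section

set_option autoImplicit false

namespace Pool.Agent.MP_32a90a_pr.D

open Finset Pool.Agent.MP_32a90a_pr Pool.Agent.MP_32a90a_pr.L

namespace SwJ

lemma mn_close {Sg : Type} [Fintype Sg] {μ μ' : Sg → ℝ} {φ : Sg → Bool} {e : ℝ}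
    (h : |mm μ' φ - mm μ φ| ≤ e) : |mn μ' φ - mn μ φ| ≤ e / 2 := by
  have h1 := abs_le.1 ((abs_abs_sub_abs_le_abs_sub _ _).trans h)
  unfold mn
  rw [abs_le]
  constructor <;> linarith [h1.1, h1.2]

lemma add_zero' {Sg Gm : Type} (C : Cas Sg Gm) : (C.add fun _ _ => 0) = C := by
  simp only [Cas.add, add_zero]

end SwJ

theorem stSw (hSwC : StSwC) (hResNode : StResNode) (hNear : StNear) (hTower : StTower) : StSw := by
  intro Sg G0 A _ _ _ _ _ _ S d S' φ m κ dl Nd nd g0 hd hP hN hdl hκ h1 h2 h3 i hi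
  have hd3 : 3 ≤ d := by omega
  have hok := hP.ok hd3
  have hκ0 : 0 < κ := (sm_pos _ _).trans_le hκ
  obtain ⟨r1, r2⟩ := hResNode Sg (Gam G0 A) Nd S.cas (fun g => nd g.1) (g0, fun _ => none) hok
    (Sys.p_pos hP.2.2.2.2.1 (hP.rho_lt hd3) _)
  have e0 : S.mu nd (nd g0) = (S.cas.res fun γ => ind (nd γ.1 = nd g0)).root := by
    have := r2 fun _ _ => 0
    rwa [SwJ.add_zero', SwJ.add_zero'] at this
  rw [e0] at h1 h2 h3
  have h4 := hSwC Sg (Gam G0 A) _ φ m κ r1 hκ0 h1 h2 h3 i hi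
  rw [← r2, ← Sys.cas_add (S := S) fun _ σ => swE (sgn (φ 0 σ) * sgn (m 0))
    (sgn (φ 1 σ) * sgn (m 1)) (sgn (φ 2 σ) * sgn (m 2)) (sgn (φ 3 σ) * sgn (m 3))] at h4
  have h5 := (hNear Sg G0 A S d S' _ ∅ dl hd hP hN (by simp)).2.2 hdl
    (fun g => ind (nd g = nd g0)) (fun _ σ => sgn (φ i σ)) (fun _ σ => sgn (φ i σ)) 1
    (fun _ => ind_nonneg _) (fun _ _ => by simp) (fun _ _ => by simp) fun _ _ _ => rfl
  rw [← (hTower Sg (Gam G0 A) Nd S'.cas (fun g => nd g.1) ((hN.par hP).ok hd3)).2.2.1,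
    ← (hTower Sg (Gam G0 A) Nd _ (fun g => nd g.1) ((hP.add _).ok hd3)).2.2.1, mul_one] at h5
  have h6 := abs_le.1 (SwJ.mn_close h5)
  have h7 : (1000 : ℝ) ≤ d := by exact_mod_cast hd
  have h8 := mul_sm_le (a := 20) 200 hd3 (by linarith)
  have h9 := sm_anti (k := 200 + 1) (k' := 280) (by norm_num) d
  constructor <;> linarith [h4.1, h4.2, h6.1, h6.2]

end Pool.Agent.MP_32a90a_pr.D

end

section

set_option autoImplicit false

namespace Pool.Agent.MP_32a90a_pr.D

open Finset Filter Pool.Agent.MP_32a90a_pr Pool.Agent.MP_32a90a_pr.L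

namespace VT1J

lemma close (hNear : StNear) {Sg G0 A : Type} [Fintype Sg] [Nonempty Sg] [Fintype G0]
    [Nonempty G0] [Fintype A] [DecidableEq A] (S : Sys Sg G0 A) {d : ℕ} (hd : 1000 ≤ d)
    (hP : S.Par d) (o : Sg → Bool) (AA : Finset (Fin d))
    (S' : (Fin d → A × Bool) → Sys Sg G0 A) (hI : S.Ins o AA 0 S') (b : Bool) (l : ℝ) :
    |(Fam S' fun ω _ σ => ind (o σ = b ∧ sgn (o σ) * hom S.sp AA ω σ = l)) - S.Lv o AA b l|
      ≤ sm 280 d := by
  unfold Fam Sys.Lv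
  rw [← avg_sub]
  refine (abs_avg_le _).trans (avg_le_const (sm_pos _ _).le fun ω => ?_)
  have e : (fun (_ : Gam G0 A) σ => ind (o σ = b ∧ sgn (o σ) * hom S.sp AA ω σ = l))
      = fun _ σ => ind (o σ = b ∧ sgn b * hom S.sp AA ω σ = l) := by
    funext _ σ
    refine ind_congr ⟨fun h => ⟨h.1, h.1 ▸ h.2⟩, fun h => ⟨h.1, ?_⟩⟩
    rw [h.1]; exact h.2
  beta_reduce
  rw [e]
  by_cases hinj : Function.Injective (uu ω)
  · obtain ⟨dl, hdl, hN⟩ := hI ω hinj
    have hc : (univ.image (uu ω)).card ≤ d + 2 := by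
      refine card_image_le.trans ?_
      simp
    have h := (hNear Sg G0 A S d (S' ω) _ _ dl hd hP hN hc).2.2 hdl (fun _ => 1)
      (fun g σ => oU (uu ω) g * ind (o σ = b ∧ sgn b * hom S.sp AA ω σ = l))
      (fun _ σ => ind (o σ = b ∧ sgn b * hom S.sp AA ω σ = l)) 1 (fun _ => zero_le_one)
      (fun g σ => by
        unfold oU
        rw [abs_of_nonneg (mul_nonneg (ind_nonneg _) (ind_nonneg _))]
        exact mul_le_one₀ (ind_le_one _) (ind_nonneg _) (ind_le_one _))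
      (fun g σ => by rw [abs_of_nonneg (ind_nonneg _)]; exact ind_le_one _)
      (fun g σ hg => by
        have h1 : ∀ a ∈ univ.image (uu ω), g.2 a = none := by
          by_contra hn
          unfold oI at hg
          rw [ind_neg hn] at hg
          exact zero_ne_one hg
        have h2 : oU (uu ω) g = 1 :=
          ind_pos ⟨hinj, fun i => h1 _ (mem_image_of_mem _ (mem_univ i))⟩
        rw [h2, one_mul])
    simp only [one_mul, mul_one] at h
    rw [ind_pos hinj, one_mul]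
    exact h
  · have h2 : ∀ g : Gam G0 A, oU (uu ω) g = 0 := fun g => ind_neg fun h => hinj h.1
    rw [ind_neg hinj, zero_mul]
    unfold Sys.Pin
    simp only [h2, zero_mul]
    have h3 : ((S.add (S.Dv o AA 0 ω)).P fun _ _ => 0) = 0 :=
      Cas.P_const ((hP.add _).ok (by omega)) 0
    rw [h3]
    simpa using (sm_pos 280 d).le

lemma fin {d : ℕ} (hd : 1000 ≤ d) {F F' Lv Lv' t : ℝ} (ht : t ≤ 2 * d)
    (h1 : |F - Lv| ≤ sm 280 d) (h2 : |F' - Lv'| ≤ sm 280 d)
    (h : Lv ≤ Real.exp t * Lv' + sm 20 d) : F ≤ Real.exp t * F' + sm 10 d := by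
  have hd3 : 3 ≤ d := by omega
  have hd' : (1000 : ℝ) ≤ d := by exact_mod_cast hd
  have a1 := (abs_le.1 h1).2
  have a2 := (abs_le.1 h2).1
  have a3 : Real.exp t * Lv' ≤ Real.exp t * (F' + sm 280 d) :=
    mul_le_mul_of_nonneg_left (by linarith) (Real.exp_pos _).le
  have a4 : Real.exp t * sm 280 d ≤ sm 278 d := by
    have := exp_mul_sm (c := 2) (by norm_num) 278 hd3
    rw [show (278 : ℝ) + 2 = 280 by norm_num] at this
    exact le_trans (mul_le_mul_of_nonneg_right (Real.exp_le_exp.2 ht) (sm_pos _ _).le) this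
  have a5 := mul_sm_le (a := 3) 10 hd3 (by linarith)
  have a6 := sm_anti (k := 10 + 1) (k' := 278) (by norm_num) d
  have a7 := sm_anti (k := 10 + 1) (k' := 280) (by norm_num) d
  have a8 := sm_anti (k := 10 + 1) (k' := 20) (by norm_num) d
  rw [mul_add] at a3
  linarith

end VT1J

theorem stVT1 (hBal : StBal) (hNear : StNear) : StVT1 := by
  filter_upwards [hBal, eventually_ge_atTop 1000] with d hB hd
  intro Sg G0 A _ _ _ _ _ _ S lam fl o AA S' b l hP hD hS hI hA hy hβ hH hl hl'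
  have hb := hB Sg G0 A S lam fl o AA b l hP hD hS hA hy hβ hH hl hl'
  have hd' : (0 : ℝ) ≤ d := Nat.cast_nonneg d
  have hl2 : (20 : ℝ) * l ≤ d := by exact_mod_cast hl'
  have hl0 : (0 : ℝ) ≤ l := Nat.cast_nonneg l
  have hy2 : S.y * l ≤ 1 / 1000 * l := mul_le_mul_of_nonneg_right hP.2.2.1 hl0
  refine ⟨VT1J.fin hd (by linarith) (VT1J.close hNear S hd hP o AA S' hI b _)
      (VT1J.close hNear S hd hP o AA S' hI (!b) _) hb.1,
    VT1J.fin hd (by linarith) (VT1J.close hNear S hd hP o AA S' hI b _)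
      (VT1J.close hNear S hd hP o AA S' hI true _) hb.2⟩

end Pool.Agent.MP_32a90a_pr.D

end

section

set_option autoImplicit false

namespace Pool.Agent.MP_32a90a_pr.D

open Finset Filter Pool.Agent.MP_32a90a_pr Pool.Agent.MP_32a90a_pr.L

namespace VT3J

section av
variable {A : Type} [Fintype A] {d : ℕ}

lemma avg_split (f : (Fin d → A × Bool) → ℝ) :
    avg f = avg fun u : Fin d → A => avg fun J : Fin d → Bool => f fun i => (u i, J i) := by
  rw [← avg_equiv (Equiv.arrowProdEquivProdArrow (Fin d) (fun _ => A) fun _ => Bool).symm f,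
    avg_prod]
  rfl

lemma avg_coord [Nonempty A] (f : A → ℝ) (i : Fin d) :
    (avg fun u : Fin d → A => f (u i)) = avg f := by
  rw [avg_update i]
  simp only [Function.update_self]
  exact avg_const _

lemma avg_sgn : avg sgn = 0 := by simp [avg_bool, sgn]

lemma avg_lin (c : Fin d → ℝ) : (avg fun J : Fin d → Bool => ∑ i, sgn (J i) * c i) = 0 := by
  rw [avg_sum]
  exact sum_eq_zero fun i _ => by rw [avg_mul_right, avg_coord sgn i, avg_sgn, zero_mul]

lemma avg_sq (c : Fin d → ℝ) :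
    (avg fun J : Fin d → Bool => (∑ i, sgn (J i) * c i) ^ 2) = ∑ i, c i ^ 2 := by
  simp only [sq, sum_mul_sum]
  rw [avg_sum]
  refine sum_congr rfl fun i _ => ?_
  rw [avg_sum, sum_eq_single i]
  · rw [← avg_const (α := Fin d → Bool) (c i * c i)]
    exact avg_congr fun J => by rw [mul_mul_mul_comm, sgn_mul_self, one_mul]
  · intro k _ hk
    rw [avg_update i]
    simp only [Function.update_self, Function.update_of_ne hk, mul_assoc, avg_mul_right, avg_sgn,
      zero_mul, avg_zero]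
  · simp

lemma avg_ninj [Nonempty A] :
    (avg fun u : Fin d → A => 1 - ind (Function.Injective u)) ≤ d * (d * (1 / Fintype.card A)) := by
  classical
  have h1 : ∀ u : Fin d → A,
      1 - ind (Function.Injective u) ≤ ∑ i, ∑ k, ind (k ≠ i ∧ u i = u k) := by
    intro u
    by_cases h : Function.Injective u
    · rw [ind_pos h, sub_self]
      exact sum_nonneg fun _ _ => sum_nonneg fun _ _ => ind_nonneg _
    · rw [ind_neg h, sub_zero]
      obtain ⟨i, k, e, hne⟩ := Function.not_injective_iff.1 h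
      refine le_trans ?_ (single_le_sum (f := fun i => ∑ k, ind (k ≠ i ∧ u i = u k))
        (fun _ _ => sum_nonneg fun _ _ => ind_nonneg _) (mem_univ i))
      refine le_trans ?_ (single_le_sum (f := fun k => ind (k ≠ i ∧ u i = u k))
        (fun _ _ => ind_nonneg _) (mem_univ k))
      exact (ind_pos ⟨hne.symm, e⟩).ge
  have h2 : ∀ i k : Fin d,
      (avg fun u : Fin d → A => ind (k ≠ i ∧ u i = u k)) ≤ 1 / Fintype.card A := by
    intro i k
    by_cases hk : k = i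
    · exact avg_le_const (by positivity) fun u => (ind_neg fun h => h.1 hk).trans_le (by positivity)
    · rw [avg_update i]
      refine avg_le_const (by positivity) fun u => ?_
      simp only [Function.update_self, Function.update_of_ne hk]
      refine (avg_mono fun o => ind_mono And.right).trans ?_
      simp [avg, ind]
  refine (avg_mono h1).trans ?_
  rw [avg_sum]
  refine (sum_le_sum fun i _ => (avg_sum _ _).trans_le (sum_le_sum fun k _ => h2 i k)).trans ?_
  simp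

end av

section child
variable {Sg A : Type} [Fintype Sg] {d : ℕ} (ν : Sg → ℝ) (sp : A → Sg → Bool)
  (ω : Fin d → A × Bool)

/-- walk of the majority signs -/
noncomputable def WW : ℝ := ∑ i, sgn (ω i).2 * sgn (decide (0 ≤ mm ν (sp (ω i).1)))

/-- remainder -/
noncomputable def RR : ℝ :=
  ∑ i, sgn (ω i).2 * (mm ν (sp (ω i).1) - sgn (decide (0 ≤ mm ν (sp (ω i).1))))

/-- mean field -/
noncomputable def MM : ℝ := ∑ i, sgn (ω i).2 * mm ν (sp (ω i).1)

/-- logarithmic moment -/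
noncomputable def LL (s : Bool) : ℝ :=
  Real.log (Ex ν fun σ => Real.exp (2 * (sgn s * hom sp ∅ ω σ)))

/-- good event -/
def GG (L : ℝ) : Prop := ∀ s, LL ν sp ω s ≤ 3 * L / 8

lemma MM_eq : MM ν sp ω = WW ν sp ω + RR ν sp ω := by
  simp only [MM, WW, RR, ← sum_add_distrib]
  exact sum_congr rfl fun _ _ => by ring

lemma Ex_hom : Ex ν (hom sp ∅ ω) = MM ν sp ω := by
  unfold hom
  rw [Ex_sum]
  exact sum_congr rfl fun i _ => by rw [Ex_mul]; simp [Jc, mm]

variable {ν}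

lemma exc (h : Prob ν) (s : Bool) : 2 * (sgn s * MM ν sp ω) ≤ LL ν sp ω s := by
  have h1 := h.exp_Ex_le fun σ => 2 * (sgn s * hom sp ∅ ω σ)
  rw [Ex_mul, Ex_mul] at h1
  rw [LL, Real.le_log_iff_exp_le (h.Ex_pos fun _ => Real.exp_pos _), ← Ex_hom]
  exact h1

lemma test (h : Prob ν) {L : ℝ} (hL : 0 < L) :
    ind (|WW ν sp ω| ≤ L / 16) - 256 / L ^ 2 * RR ν sp ω ^ 2
      - 8 / L * (LL ν sp ω true + LL ν sp ω false) ≤ ind (GG ν sp ω L) := by
  have e1 := exc sp ω h true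
  have e2 := exc sp ω h false
  simp only [sgn, if_true, Bool.false_eq_true, if_false] at e1 e2
  have a1 : 0 ≤ 256 / L ^ 2 * RR ν sp ω ^ 2 := by positivity
  have a2 : 0 ≤ 8 / L * (LL ν sp ω true + LL ν sp ω false) :=
    mul_nonneg (by positivity) (by linarith)
  by_cases hG : GG ν sp ω L
  · rw [ind_pos hG]
    linarith [ind_le_one (|WW ν sp ω| ≤ L / 16)]
  rw [ind_neg hG]
  by_cases h1 : |WW ν sp ω| ≤ L / 16
  swap
  · rw [ind_neg h1]
    linarith
  rw [ind_pos h1]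
  by_cases h2 : |RR ν sp ω| ≤ L / 16
  · have h3 : L / 8 ≤ LL ν sp ω true + LL ν sp ω false := by
      rw [MM_eq] at e1 e2
      obtain ⟨b1, b2⟩ := abs_le.1 h1
      obtain ⟨b3, b4⟩ := abs_le.1 h2
      by_contra h4
      exact hG fun s => by cases s <;> linarith
    have h4 : 8 / L * (L / 8) = 1 := by field_simp
    have := mul_le_mul_of_nonneg_left h3 (by positivity : 0 ≤ 8 / L)
    linarith
  · have h3 : (L / 16) ^ 2 ≤ RR ν sp ω ^ 2 := by
      rw [← sq_abs (RR ν sp ω)]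
      exact pow_le_pow_left₀ (by positivity) (not_le.1 h2).le 2
    have h4 : 256 / L ^ 2 * (L / 16) ^ 2 = 1 := by
      field_simp
      norm_num
    have := mul_le_mul_of_nonneg_left h3 (by positivity : 0 ≤ 256 / L ^ 2)
    linarith

lemma ratio (h : Prob ν) {L B : ℝ} (hL : 16 ≤ L) (hB : |B| ≤ 1) (hG : GG ν sp ω L) :
    (∑ b, Ex ν fun σ => ind (L < sgn b * hom sp ∅ ω σ) *
        Real.exp (1 * (sgn b * (hom sp ∅ ω σ + B))))
      / (∑ b, Ex ν fun σ => Real.exp (1 * (sgn b * (hom sp ∅ ω σ + B)))) ≤ 1 / 2 := by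
  have h1 : 2 ≤ ∑ b, Ex ν fun σ => Real.exp (1 * (sgn b * (hom sp ∅ ω σ + B))) := by
    rw [← Ex_sum]
    refine h.le_Ex fun σ => ?_
    rw [Fintype.sum_bool]
    have a1 := Real.add_one_le_exp (1 * (sgn true * (hom sp ∅ ω σ + B)))
    have a2 := Real.add_one_le_exp (1 * (sgn false * (hom sp ∅ ω σ + B)))
    simp only [sgn, if_true, Bool.false_eq_true, if_false] at a1 a2 ⊢
    linarith
  have h2 : ∀ b, (Ex ν fun σ => ind (L < sgn b * hom sp ∅ ω σ) *
      Real.exp (1 * (sgn b * (hom sp ∅ ω σ + B)))) ≤ 1 / 2 := by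
    intro b
    have a1 : sgn b * B ≤ 1 := (le_abs_self _).trans (by rwa [abs_mul, abs_sgn, one_mul])
    calc _ ≤ Ex ν fun σ => Real.exp (1 - L) * Real.exp (2 * (sgn b * hom sp ∅ ω σ)) := by
          refine Ex_mono h.1 fun σ => ?_
          by_cases hc : L < sgn b * hom sp ∅ ω σ
          · rw [ind_pos hc, one_mul, ← Real.exp_add]
            exact Real.exp_le_exp.2 (by linarith)
          · rw [ind_neg hc, zero_mul]
            positivity
      _ = Real.exp (1 - L + LL ν sp ω b) := by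
          rw [Ex_mul, Real.exp_add, LL, Real.exp_log (h.Ex_pos fun _ => Real.exp_pos _)]
      _ ≤ Real.exp (-1) := Real.exp_le_exp.2 (by linarith [hG b])
      _ ≤ 1 / 2 := by linarith [Real.exp_neg_one_lt_d9]
  rw [div_le_iff₀ (by linarith), Fintype.sum_bool]
  linarith [h2 true, h2 false]

omit [Fintype Sg] in
lemma abs_hom (σ : Sg) : |hom sp ∅ ω σ| ≤ d := by
  refine (abs_sum_le_sum_abs _ _).trans ?_
  simp [Jc, abs_mul]

variable [Fintype A] [Nonempty A]

lemma avg_RR (h : Prob ν) :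
    (avg fun ω : Fin d → A × Bool => RR ν sp ω ^ 2) ≤ 2 * d * avg fun a => kt ν (sp a) := by
  rw [avg_split]
  refine (avg_mono (g := fun u : Fin d → A => ∑ i, 2 * kt ν (sp (u i))) fun u =>
    (avg_sq fun i => mm ν (sp (u i)) - sgn (decide (0 ≤ mm ν (sp (u i))))).trans_le
      (sum_le_sum fun i _ => ?_)).trans ?_
  · obtain ⟨a1, a2⟩ := abs_le.1 (h.abs_mm_le (sp (u i)))
    unfold kt
    by_cases hm : 0 ≤ mm ν (sp (u i))
    · simp only [hm, decide_true, sgn, if_true]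
      nlinarith
    · simp only [hm, decide_false, sgn, Bool.false_eq_true, if_false]
      nlinarith
  · rw [avg_sum]
    simp only [avg_coord fun a => 2 * kt ν (sp a), avg_mul]
    simp [mul_left_comm, mul_assoc]

end child

end VT3J

open VT3J in
theorem stVT3 (hExc : StExc) (hSRW : StSRW) (hPin : StPin) (hNear : StNear) (hBd : StBd)
    (hOI : StOI) : StVT3 := by
  obtain ⟨c0, hc0, hW⟩ := hSRW
  refine ⟨c0 / 30000, by positivity, (eventually_ge_atTop 1000).mono fun d hd => ?_⟩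
  intro Sg G0 A _ _ _ _ _ _ S lam B L fl o S' hP hβ hD hS hI hB hL hLd hlam
  have hd3 : 3 ≤ d := by omega
  have hdR : (1000 : ℝ) ≤ d := by exact_mod_cast hd
  have hA := hP.nonempty
  have ok := hP.ok hd3
  have hL0 : 0 < L := by linarith
  have hsq : 0 < Real.sqrt d := Real.sqrt_pos.2 (by linarith)
  -- the good event
  have g1 : c0 * (L / 16) / Real.sqrt d ≤
      avg fun ω : Fin d → A × Bool => S.P fun g _ => ind (|WW (S.nu g) S.sp ω| ≤ L / 16) := by
    rw [← Cas.P_avg]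
    refine Cas.const_le_P ok fun g _ => ?_
    rw [avg_split]
    exact const_le_avg fun u => hW d (fun i => decide (0 ≤ mm (S.nu g) (S.sp (u i)))) (L / 16)
      (by linarith) (by nlinarith)
  have g2 : (avg fun ω : Fin d → A × Bool => S.P fun g _ => RR (S.nu g) S.sp ω ^ 2) ≤ 6 * lam := by
    rw [← Cas.P_avg]
    refine (Cas.P_mono ok fun g _ => avg_RR S.sp (Cas.nu_prob g)).trans ?_
    rw [Cas.P_mul]
    refine (mul_le_mul_of_nonneg_left (hExc Sg G0 A S d lam true hd hP hβ hD).2.1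
      (by positivity)).trans_eq ?_
    field_simp
    ring
  have g3 : ∀ s, (avg fun ω : Fin d → A × Bool => S.P fun g _ => LL (S.nu g) S.sp ω s)
      ≤ 100 * lam := fun s => (hExc Sg G0 A S d lam s hd hP hβ hD).1
  have g4 : 4 * (c0 / 30000 * L / Real.sqrt d) ≤
      avg fun ω : Fin d → A × Bool => S.P fun g _ => ind (GG (S.nu g) S.sp ω L) := by
    refine le_trans ?_ (avg_mono fun ω => Cas.P_mono ok fun g _ =>
      test S.sp ω (Cas.nu_prob g) hL0)
    simp only [Cas.P_sub, Cas.P_mul, Cas.P_add, avg_sub, avg_mul, avg_add]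
    set t := c0 / 30000 * L / Real.sqrt d with ht
    have a0 : 0 ≤ t := by positivity
    have a1 : lam ≤ t * L := by
      rw [ht, div_mul_eq_mul_div, le_div_iff₀ hsq]
      nlinarith
    have a2 : c0 * (L / 16) / Real.sqrt d = 1875 * t := by
      rw [ht]
      ring
    have a3 : 256 / L ^ 2 * (6 * lam) ≤ 96 * t := by
      rw [div_mul_eq_mul_div, div_le_iff₀ (by positivity)]
      nlinarith [mul_nonneg (mul_nonneg a0 hL0.le) (sub_nonneg.2 hL)]
    have a4 : 8 / L * (100 * lam + 100 * lam) ≤ 1600 * t := by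
      rw [div_mul_eq_mul_div, div_le_iff₀ hL0]
      linarith
    have a5 := mul_le_mul_of_nonneg_left g2 (by positivity : 0 ≤ 256 / L ^ 2)
    have a6 := mul_le_mul_of_nonneg_left (add_le_add (g3 true) (g3 false))
      (by positivity : 0 ≤ 8 / L)
    linarith
  -- the ideal insertion
  have y1 : 1 / 2 ≤ Real.exp (-(2 * S.cas.y * (d + 1))) := by
    have a1 : S.cas.y ≤ sm (299 + 1) d := by
      have : S.cas.y = S.x := by
        change S.β * S.x = _
        rw [hβ, one_mul]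
      rw [this]
      exact hP.2.2.2.1.trans (sm_anti (by norm_num) d)
    have a2 := mul_sm_le (a := (d : ℝ) + 1) 299 hd3 le_rfl
    have a3 := sm_le_inv (k := 299) (by norm_num) hd3
    have a4 : 1 / ((d : ℝ) + 1) ≤ 1 / 4 := one_div_le_one_div_of_le (by norm_num) (by linarith)
    have a5 := Real.add_one_le_exp (-(2 * S.cas.y * (d + 1)))
    nlinarith
  have i1 : ∀ ω : Fin d → A × Bool, 1 / 4 * (S.P fun g _ => ind (GG (S.nu g) S.sp ω L)) ≤
      (S.add (S.Dv o ∅ B ω)).P fun _ σ => ind (sgn (o σ) * hom S.sp ∅ ω σ ≤ L) := by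
    intro ω
    have a1 := ((hBd Sg (Gam G0 A) S.cas (fun g σ => S.Dv o ∅ B ω g.1 σ) (d + 1) ok
      fun g σ _ => by
        rw [Sys.Dv, abs_mul, abs_sgn, one_mul]
        exact (abs_add_le _ _).trans (add_le_add (abs_hom S.sp ω σ) hB)).2.1
      (fun g => ind (GG (S.nu g) S.sp ω L)) fun _ => ind_nonneg _).2.2.2
    rw [← Sys.cas_add] at a1
    have a2 : 1 / 2 * ((S.add (S.Dv o ∅ B ω)).P fun g _ => ind (GG (S.nu g) S.sp ω L)) ≤
        (S.add (S.Dv o ∅ B ω)).P fun _ σ => ind (sgn (o σ) * hom S.sp ∅ ω σ ≤ L) := by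
      rw [← Cas.P_mul]
      refine (Cas.P_mono ((hP.add _).ok hd3) fun g _ => ?_).trans_eq (Cas.P_Ex _)
      by_cases hG : GG (S.nu g) S.sp ω L
      · have b1 := (hPin Sg G0 A S d fl o ∅ B ω hS).2 g
          (fun b σ => ind (L < sgn b * hom S.sp ∅ ω σ)) fun b σ => by
            simp only [hom, hS.2.2.2]
        rw [hβ] at b1
        have b2 := b1.trans_le (ratio S.sp ω (Cas.nu_prob g) hL hB hG)
        simp only [← not_le, ind_not] at b2
        rw [Ex_sub, (Cas.nu_prob g).Ex_const] at b2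
        rw [ind_pos hG]
        linarith
      · rw [ind_neg hG, mul_zero]
        exact Ex_nonneg (Cas.nu_prob g).1 fun _ => ind_nonneg _
    have a3 : 0 ≤ S.P fun g _ => ind (GG (S.nu g) S.sp ω L) :=
      Cas.P_nonneg ok fun _ _ => ind_nonneg _
    nlinarith
  -- the near systems
  have i2 : ∀ ω : Fin d → A × Bool,
      1 / 4 * (S.P fun g _ => ind (GG (S.nu g) S.sp ω L)) - sm 280 d
          - (1 - ind (Function.Injective (uu ω))) ≤
        ind (Function.Injective (uu ω)) *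
          (S' ω).P fun _ σ => ind (sgn (o σ) * hom S.sp ∅ ω σ ≤ L) := by
    intro ω
    by_cases hi : Function.Injective (uu ω)
    · obtain ⟨dl, a1, a2⟩ := hI ω hi
      have a3 := (hNear Sg G0 A S d (S' ω) _ _ dl hd hP a2
        (card_image_le.trans (by simp))).2.2 a1 (fun _ => 1)
        (fun _ σ => ind (sgn (o σ) * hom S.sp ∅ ω σ ≤ L)) _ 1 (fun _ => zero_le_one)
        (fun _ _ => (abs_of_nonneg (ind_nonneg _)).trans_le (ind_le_one _))
        (fun _ _ => (abs_of_nonneg (ind_nonneg _)).trans_le (ind_le_one _)) fun _ _ _ => rfl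
      simp only [one_mul, mul_one] at a3
      have a4 : (S.add (S.Dv o ∅ B ω)).P (fun _ σ => ind (sgn (o σ) * hom S.sp ∅ ω σ ≤ L))
          - sm 280 d ≤ (S' ω).P fun _ σ => ind (sgn (o σ) * hom S.sp ∅ ω σ ≤ L) := by
        have := (abs_le.1 a3).1
        simp only [Sys.P, Cas.P, Cas.N]
        linarith
      rw [ind_pos hi]
      linarith [i1 ω]
    · have : (S.P fun g _ => ind (GG (S.nu g) S.sp ω L)) ≤ 1 :=
        Cas.P_le_const ok fun _ _ => ind_le_one _
      rw [ind_neg hi]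
      linarith [sm_pos 280 d]
  have i3 : (avg fun ω : Fin d → A × Bool => 1 - ind (Function.Injective (uu ω))) ≤ sm 298 d := by
    rw [avg_split]
    have a0 : (0 : ℝ) < Fintype.card A := by exact_mod_cast Fintype.card_pos
    have a1 : 1 / (Fintype.card A : ℝ) ≤ sm (298 + 1 + 1) d := by
      rw [div_le_iff₀ a0]
      exact hP.2.2.2.2.2.2.2.2.2.2.trans
        (mul_le_mul_of_nonneg_right (sm_anti (by norm_num) d) a0.le)
    have a2 := mul_sm_le (a := (d : ℝ)) (298 + 1) hd3 (by linarith)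
    have a3 := mul_sm_le (a := (d : ℝ)) 298 hd3 (by linarith)
    refine le_trans (avg_mono fun u => (avg_const (1 - ind (Function.Injective u))).le)
      (avg_ninj.trans (le_trans (mul_le_mul_of_nonneg_left
        ((mul_le_mul_of_nonneg_left a1 (by positivity)).trans a2) (by positivity)) a3))
  refine le_trans ?_ (avg_mono i2)
  rw [avg_sub, avg_sub, avg_mul, avg_const]
  have s1 := mul_sm_le (a := 2) 10 hd3 (by linarith)
  have s2 := sm_anti (k := 10 + 1) (k' := 280) (by norm_num) d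
  have s3 := sm_anti (k := 10 + 1) (k' := 298) (by norm_num) d
  linarith

end Pool.Agent.MP_32a90a_pr.D

end

section

set_option autoImplicit false

/-! Sequential insertion of the cavity field with a reference sample: shared scaffolding. -/

namespace Pool.Agent.MP_32a90a_pr.D

open Finset Pool.Agent.MP_32a90a_pr Pool.Agent.MP_32a90a_pr.L

namespace RefJ

noncomputable section

variable {Sg G0 A Nd : Type} {d : ℕ}

/-- the field of the slot k -/
def dl (sp : A → Sg → Bool) (AA : Finset (Fin d)) (s : Bool) (k : Fin d) (o : A × Bool)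
    (σ : Sg) : ℝ := sgn s * Jc AA k o.2 * sgn (sp o.1 σ)

/-- the slots below i -/
def lt (d i : ℕ) : Finset (Fin d) := univ.filter fun k => k.val < i

/-- the field of the slots below i -/
def DD (sp : A → Sg → Bool) (AA : Finset (Fin d)) (s : Bool) (i : ℕ) (ω : Fin d → A × Bool)
    (σ : Sg) : ℝ := ∑ k ∈ lt d i, dl sp AA s k (ω k) σ

/-- the positions of the slots below i -/
def II [DecidableEq A] (i : ℕ) (ω : Fin d → A × Bool) : Finset A :=
  (lt d i).image fun k => (ω k).1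

/-- the positions of the slots below i are distinct -/
def Inj (i : ℕ) (ω : Fin d → A × Bool) : Prop := Set.InjOn (fun k => (ω k).1) (lt d i)

lemma co_cases (AA : Finset (Fin d)) (s : Bool) (k : Fin d) (b : Bool) :
    sgn s * Jc AA k b = 1 ∨ sgn s * Jc AA k b = -1 := by
  unfold Jc
  split_ifs <;> cases s <;> cases b <;> simp [sgn]

lemma dl_cases (sp : A → Sg → Bool) (AA : Finset (Fin d)) (s : Bool) (k : Fin d) (o : A × Bool)
    (σ : Sg) : dl sp AA s k o σ = 1 ∨ dl sp AA s k o σ = -1 := by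
  unfold dl
  rcases co_cases AA s k o.2 with h | h <;> rcases sgn_cases (sp o.1 σ) with h' | h' <;>
    rw [h, h'] <;> norm_num

lemma abs_dl (sp : A → Sg → Bool) (AA : Finset (Fin d)) (s : Bool) (k : Fin d) (o : A × Bool)
    (σ : Sg) : |dl sp AA s k o σ| = 1 := by
  rcases dl_cases sp AA s k o σ with h | h <;> rw [h] <;> norm_num

lemma mem_lt {i : ℕ} {k : Fin d} : k ∈ lt d i ↔ k.val < i := by simp [lt]

lemma lt_succ (i : Fin d) : lt d (i.val + 1) = insert i (lt d i.val) := by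
  ext k
  rw [mem_insert, mem_lt, mem_lt, Fin.ext_iff]
  omega

lemma self_notMem (i : Fin d) : i ∉ lt d i.val := by rw [mem_lt]; omega

lemma lt_zero : lt d 0 = ∅ := by ext k; simp [mem_lt]

lemma lt_top : lt d d = univ := by ext k; simp [mem_lt]

lemma upd_lt {α : Type} (ω : Fin d → α) (i : Fin d) (o : α) {k : Fin d} (hk : k ∈ lt d i.val) :
    Function.update ω i o k = ω k :=
  Function.update_of_ne (fun h : k = i => self_notMem i (h ▸ hk)) _ _

lemma card_lt (i : ℕ) : (lt d i).card ≤ d := (card_le_univ _).trans (by simp)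

lemma DD_top (sp : A → Sg → Bool) (AA : Finset (Fin d)) (s : Bool) (ω : Fin d → A × Bool)
    (σ : Sg) : DD sp AA s d ω σ = sgn s * hom sp AA ω σ := by
  unfold DD hom dl
  rw [lt_top, mul_sum]
  exact sum_congr rfl fun _ _ => by ring

lemma DD_succ (sp : A → Sg → Bool) (AA : Finset (Fin d)) (s : Bool) (i : Fin d)
    (ω : Fin d → A × Bool) (o : A × Bool) (σ : Sg) :
    DD sp AA s (i.val + 1) (Function.update ω i o) σ
      = DD sp AA s i.val ω σ + dl sp AA s i o σ := by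
  unfold DD
  rw [lt_succ, sum_insert (self_notMem i), Function.update_self, add_comm]
  congr 1
  exact sum_congr rfl fun k hk => by rw [upd_lt ω i o hk]

lemma abs_DD (sp : A → Sg → Bool) (AA : Finset (Fin d)) (s : Bool) (i : ℕ)
    (ω : Fin d → A × Bool) (σ : Sg) : |DD sp AA s i ω σ| ≤ 3 * d := by
  refine (abs_sum_le_sum_abs _ _).trans ?_
  simp only [abs_dl, sum_const, nsmul_eq_mul, mul_one]
  have h1 : ((lt d i).card : ℝ) ≤ d := by exact_mod_cast card_lt i
  have h2 : (0 : ℝ) ≤ d := Nat.cast_nonneg d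
  linarith

lemma o_succ [DecidableEq A] (i : Fin d) (ω : Fin d → A × Bool) (o : A × Bool) (g : Gam G0 A) :
    ind (Inj (i.val + 1) (Function.update ω i o)) * oI (II (i.val + 1) (Function.update ω i o)) g
      = ind (Inj i.val ω) * oI (II i.val ω) g * oA (II i.val ω) o.1 g := by
  have e0 : Set.EqOn (fun k => (Function.update ω i o k).1) (fun k => (ω k).1) (lt d i.val) :=
    fun k hk => by simp only [upd_lt ω i o hk]
  have e1 : (lt d i.val).image (fun k => (Function.update ω i o k).1) = II i.val ω :=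
    image_congr e0
  have e2 : II (i.val + 1) (Function.update ω i o) = insert o.1 (II i.val ω) := by
    rw [II, lt_succ, image_insert, e1, Function.update_self]
  have e3 : Inj (i.val + 1) (Function.update ω i o) ↔ Inj i.val ω ∧ o.1 ∉ II i.val ω := by
    rw [Inj, lt_succ, coe_insert, Set.injOn_insert (by exact_mod_cast self_notMem i),
      e0.injOn_iff, ← coe_image, e1, Function.update_self, mem_coe]
    rfl
  rw [e2, oI, oI, oA, ← ind_and, ← ind_and, ← ind_and]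
  refine ind_congr ?_
  rw [e3, forall_mem_insert]
  tauto

lemma o_top [DecidableEq A] (ω : Fin d → A × Bool) (g : Gam G0 A) :
    ind (Inj d ω) * oI (II d ω) g = oU (uu ω) g := by
  rw [oI, oU, ← ind_and, Inj, II, lt_top, coe_univ, Set.injOn_univ, forall_mem_image]
  refine ind_congr (and_congr Iff.rfl ?_)
  simp [uu]

variable [Fintype Sg] [Nonempty Sg] [Fintype G0] [Fintype A] [DecidableEq A]

/-- the joint weight after a unit field on one pool position -/
lemma wt_step (S : Sys Sg G0 A) (a : A) (ε : ℝ) (g : Gam G0 A) (σ : Sg) :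
    (S.add fun _ σ' => ε * sgn (S.sp a σ')).cas.wt g σ = S.cas.wt g σ *
      (Real.exp (S.y * (ε * sgn (S.sp a σ))) * S.Sv (-2 * (ε * sgn (S.sp a σ))) a g σ) := by
  rw [Sys.cas_add, Cas.wt_add]
  congr 1
  have e : (Ex (S.cas.nu g) fun σ' => Real.exp (S.cas.β * (ε * sgn (S.sp a σ'))))
      = Real.exp (S.β * (ε * sgn (S.sp a σ))) * Ex (S.nu g) fun σ' =>
        Real.exp (S.β * (-2 * (ε * sgn (S.sp a σ))) * ind (S.sp a σ' ≠ S.sp a σ)) := by
    rw [← Ex_mul]
    refine Ex_congr fun σ' => ?_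
    rw [← Real.exp_add]
    congr 1
    show S.β * _ = _
    cases S.sp a σ' <;> cases S.sp a σ <;> simp [ind, sgn] <;> ring
  have h0 : 0 ≤ Ex (S.nu g) fun σ' =>
      Real.exp (S.β * (-2 * (ε * sgn (S.sp a σ))) * ind (S.sp a σ' ≠ S.sp a σ)) :=
    Ex_nonneg (Cas.nu_prob g).1 fun _ => (Real.exp_pos _).le
  rw [e, Real.mul_rpow (Real.exp_pos _).le h0, ← Real.exp_mul, ← mul_assoc, ← Real.exp_add]
  congr 2
  show S.β * _ + S.β * _ * (S.x - 1) = S.β * S.x * _
  ring

omit [Nonempty Sg] in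
lemma E_unf (C : Cas Sg (Gam G0 A)) (μ : G0 → Sg → ℝ) (u : Gam G0 A → ℝ)
    (ψ : Gam G0 A → Sg → Sg → ℝ) :
    (C.E fun g σ => u g * Ex (μ g.1) (ψ g σ)) = ∑ ξ : G0 × Sg × Sg, ∑ ζ : A → Option Bool,
      C.wt (ξ.1, ζ) ξ.2.1 * u (ξ.1, ζ) * μ ξ.1 ξ.2.2 * ψ (ξ.1, ζ) ξ.2.1 ξ.2.2 := by
  simp only [Cas.E, Ex, Fintype.sum_prod_type, mul_sum]
  refine sum_congr rfl fun g0 _ => ?_
  rw [sum_comm]
  refine sum_congr rfl fun σ _ => ?_
  rw [sum_comm]
  exact sum_congr rfl fun r _ => sum_congr rfl fun ζ _ => by ring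

/-- the product of the slot weights below i -/
def PP (S : Sys Sg G0 A) (AA : Finset (Fin d)) (s : Bool) (ph : Fin d → A × Bool → Sg → Sg → ℝ)
    (i : ℕ) (ω : Fin d → A × Bool) (σ r : Sg) : ℝ :=
  ∏ k ∈ lt d i, Real.exp (-(S.y * dl S.sp AA s k (ω k) r)) * ph k (ω k) σ r

/-- the weight after i slots -/
def W (S : Sys Sg G0 A) (nd : G0 → Nd) (Ev : Nd → Prop) (AA : Finset (Fin d)) (s : Bool)
    (ph : Fin d → A × Bool → Sg → Sg → ℝ) (i : ℕ) (ω : Fin d → A × Bool)
    (ξ : G0 × Sg × Sg) : ℝ :=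
  ∑ ζ : A → Option Bool, (S.add fun _ σ => DD S.sp AA s i ω σ).cas.wt (ξ.1, ζ) ξ.2.1 *
    (ind (Inj i ω) * oI (II i ω) (ξ.1, ζ) * ind (Ev (nd ξ.1))) * S.mu nd (nd ξ.1) ξ.2.2 *
    PP S AA s ph i ω ξ.2.1 ξ.2.2 / S.N

variable (S : Sys Sg G0 A) (nd : G0 → Nd) (Ev : Nd → Prop) (AA : Finset (Fin d)) (s : Bool)
  (ph : Fin d → A × Bool → Sg → Sg → ℝ)

omit [Nonempty Sg] in
lemma sum_W (i : ℕ) (ω : Fin d → A × Bool) (f : G0 × Sg × Sg → ℝ) :
    ∑ ξ, f ξ * W S nd Ev AA s ph i ω ξ = ((S.add fun _ σ => DD S.sp AA s i ω σ).E fun g σ =>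
      ind (Inj i ω) * oI (II i ω) g * ind (Ev (nd g.1)) * Ex (S.mu nd (nd g.1)) fun r =>
        f (g.1, σ, r) * PP S AA s ph i ω σ r) / S.N := by
  rw [Sys.E, E_unf _ (fun g0 => S.mu nd (nd g0))
    (fun g => ind (Inj i ω) * oI (II i ω) g * ind (Ev (nd g.1)))
    (fun g σ r => f (g.1, σ, r) * PP S AA s ph i ω σ r), sum_div]
  refine sum_congr rfl fun ξ _ => ?_
  rw [W, mul_sum, sum_div]
  exact sum_congr rfl fun ζ _ => by ring

lemma sum_W_succ (i : Fin d) (ω : Fin d → A × Bool) (f : G0 × Sg × Sg → ℝ)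
    (π : G0 × Sg × Sg → A × Bool → ℝ) :
    ∑ ξ, f ξ * (avg fun o => π ξ o * W S nd Ev AA s ph (i.val + 1) (Function.update ω i o) ξ)
      = ((S.add fun _ σ => DD S.sp AA s i.val ω σ).E fun g σ =>
        ind (Inj i.val ω) * oI (II i.val ω) g * ind (Ev (nd g.1)) *
          Ex (S.mu nd (nd g.1)) fun r => f (g.1, σ, r) * PP S AA s ph i.val ω σ r *
            avg fun o : A × Bool => π (g.1, σ, r) o * oA (II i.val ω) o.1 g *
              (S.add fun _ σ => DD S.sp AA s i.val ω σ).Sv (-2 * dl S.sp AA s i o σ) o.1 g σ *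
              (Real.exp (S.y * (dl S.sp AA s i o σ - dl S.sp AA s i o r)) * ph i o σ r))
        / S.N := by
  set S' := S.add fun _ σ => DD S.sp AA s i.val ω σ with hS'
  rw [Sys.E, E_unf _ (fun g0 => S.mu nd (nd g0))
    (fun g => ind (Inj i.val ω) * oI (II i.val ω) g * ind (Ev (nd g.1)))
    (fun g σ r => f (g.1, σ, r) * PP S AA s ph i.val ω σ r *
      avg fun o : A × Bool => π (g.1, σ, r) o * oA (II i.val ω) o.1 g *
        S'.Sv (-2 * dl S.sp AA s i o σ) o.1 g σ *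
        (Real.exp (S.y * (dl S.sp AA s i o σ - dl S.sp AA s i o r)) * ph i o σ r)), sum_div]
  refine sum_congr rfl fun ξ _ => ?_
  simp only [W, mul_sum]
  rw [avg_sum, mul_sum, sum_div]
  refine sum_congr rfl fun ζ _ => ?_
  rw [← avg_mul, ← avg_mul, ← avg_mul, ← avg_div]
  refine avg_congr fun o => ?_
  have e1 : (S.add fun _ σ => DD S.sp AA s (i.val + 1) (Function.update ω i o) σ)
      = S'.add fun _ σ' => sgn s * Jc AA i o.2 * sgn (S'.sp o.1 σ') := by
    rw [hS', Sys.add_add]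
    congr 1
    funext _ σ
    exact DD_succ _ _ _ _ _ _ _
  have e2 : PP S AA s ph (i.val + 1) (Function.update ω i o) ξ.2.1 ξ.2.2
      = Real.exp (-(S.y * dl S.sp AA s i o ξ.2.2)) * ph i o ξ.2.1 ξ.2.2 *
        PP S AA s ph i.val ω ξ.2.1 ξ.2.2 := by
    unfold PP
    rw [lt_succ, prod_insert (self_notMem i), Function.update_self]
    congr 1
    exact prod_congr rfl fun k hk => by rw [upd_lt ω i o hk]
  rw [e1, wt_step, o_succ, e2, mul_sub, sub_eq_add_neg, Real.exp_add]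
  have e3 : S'.y = S.y := rfl
  have e4 : sgn s * Jc AA i o.2 * sgn (S'.sp o.1 ξ.2.1) = dl S.sp AA s i o ξ.2.1 := rfl
  rw [e3, e4]
  ring

/-- the one-step bound at the slot i with factor c -/
def Step (κ e : ℝ) (i : Fin d) (c : ℝ) : Prop :=
  ∀ (D : G0 → Sg → ℝ) (I : Finset A) (f : G0 → Sg → Sg → ℝ) (π : G0 → Sg → Sg → A × Bool → ℝ)
    (F : ℝ), (∀ g σ, |D g σ| ≤ 3 * d) → I.card ≤ d + 2 → (∀ g σ r, 0 ≤ f g σ r ∧ f g σ r ≤ F) →
    (∀ g σ r o, 1 / κ ≤ π g σ r o ∧ π g σ r o ≤ κ) → (∀ g σ r, avg (π g σ r) = 1) →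
    ((S.add D).E fun g σ => oI I g * ind (Ev (nd g.1)) * Ex (S.mu nd (nd g.1)) fun r =>
        f g.1 σ r * avg fun o : A × Bool => π g.1 σ r o * oA I o.1 g *
          (S.add D).Sv (-2 * dl S.sp AA s i o σ) o.1 g σ *
          (Real.exp (S.y * (dl S.sp AA s i o σ - dl S.sp AA s i o r)) * ph i o σ r))
      ≤ c * ((S.add D).E fun g σ =>
          oI I g * ind (Ev (nd g.1)) * Ex (S.mu nd (nd g.1)) (f g.1 σ)) + e * F * S.N

omit [Nonempty Sg] in
lemma W_congr (i : ℕ) (ω ω' : Fin d → A × Bool) (h : ∀ k : Fin d, k.val < i → ω k = ω' k) :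
    W S nd Ev AA s ph i ω = W S nd Ev AA s ph i ω' := by
  have e0 : Set.EqOn (fun k => (ω k).1) (fun k => (ω' k).1) (lt d i) :=
    fun k hk => by simp only [h k (mem_lt.1 hk)]
  have e1 : DD S.sp AA s i ω = DD S.sp AA s i ω' :=
    funext fun σ => sum_congr rfl fun k hk => by rw [h k (mem_lt.1 hk)]
  have e2 : II i ω = II i ω' := image_congr e0
  have e3 : Inj i ω ↔ Inj i ω' := e0.injOn_iff
  have e4 : PP S AA s ph i ω = PP S AA s ph i ω' :=
    funext fun σ => funext fun r => prod_congr rfl fun k hk => by rw [h k (mem_lt.1 hk)]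
  funext ξ
  rw [W, W, e1, e2, ind_congr e3, e4]

lemma mu_prob [Nonempty G0] (hTower : StTower) {d' : ℕ} (hd : 3 ≤ d') (hP : S.Par d') (g0 : G0) :
    Prob (S.mu nd (nd g0)) :=
  (hTower Sg (Gam G0 A) Nd S.cas (fun g => nd g.1) (hP.ok hd)).1 (g0, fun _ => none)
    (Sys.p_pos hP.2.2.2.2.1 (hP.rho_lt hd) _)

omit [Fintype Sg] [Nonempty Sg] [Fintype G0] [Fintype A] [DecidableEq A] in
lemma PP_bd (hy0 : 0 ≤ S.y) (hy1 : S.y ≤ 1)
    (hph : ∀ k o σ r, 0 ≤ ph k o σ r ∧ ph k o σ r ≤ Real.exp 1) (i : ℕ) (ω : Fin d → A × Bool)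
    (σ r : Sg) : 0 ≤ PP S AA s ph i ω σ r ∧ PP S AA s ph i ω σ r ≤ Real.exp (2 * d) := by
  refine ⟨prod_nonneg fun k _ => mul_nonneg (Real.exp_pos _).le (hph _ _ _ _).1, ?_⟩
  have h1 : PP S AA s ph i ω σ r ≤ ∏ _k ∈ lt d i, Real.exp 2 := by
    refine prod_le_prod (fun k _ => mul_nonneg (Real.exp_pos _).le (hph _ _ _ _).1) fun k _ => ?_
    have h2 : Real.exp (-(S.y * dl S.sp AA s k (ω k) r)) ≤ Real.exp 1 := by
      refine Real.exp_le_exp.2 ?_
      rcases dl_cases S.sp AA s k (ω k) r with h | h <;> rw [h] <;> linarith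
    calc _ ≤ Real.exp 1 * Real.exp 1 :=
          mul_le_mul h2 (hph _ _ _ _).2 (hph _ _ _ _).1 (Real.exp_pos _).le
      _ = Real.exp 2 := by rw [← Real.exp_add]; norm_num
  refine h1.trans ?_
  rw [prod_const, ← Real.exp_nat_mul]
  have h3 : ((lt d i).card : ℝ) ≤ d := by exact_mod_cast card_lt i
  exact Real.exp_le_exp.2 (by linarith)

theorem seq [Nonempty G0] (hSeqU : StSeqU) (hGw : StGw) (hTower : StTower) (hd : 3 ≤ d)
    (hP : S.Par d) (t : (Fin d → A × Bool) → Sg → ℝ) (c : Fin d → ℝ) (κ κ' e R : ℝ) (hκ : 1 ≤ κ)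
    (hκ' : Real.exp (4 * S.y) * κ' ≤ κ) (he : 0 ≤ e) (hR : 1 ≤ R) (hc : ∀ i, 0 ≤ c i ∧ c i ≤ R)
    (hph : ∀ k o σ r, 0 ≤ ph k o σ r ∧ ph k o σ r ≤ Real.exp 1)
    (ht : ∀ ω r, 0 ≤ t ω r ∧ t ω r ≤ 1)
    (htu : ∀ ω i o r, t (Function.update ω i o) r ≤ κ' * t ω r)
    (hstep : ∀ i, Step S nd Ev AA s ph κ e i (c i)) :
    (S.Rf nd Ev AA s fun ω σ r => t ω r * ∏ k, ph k (ω k) σ r)
      ≤ (∏ i, c i) * (avg fun ω : Fin d → A × Bool => S.Gw AA ω * S.EN nd fun n => ind (Ev n) *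
          Ex (S.mu nd n) fun r => t ω r * Real.exp (S.y * (sgn s * hom S.sp AA ω r)))
        + d * e * Real.exp (3 * d) * R ^ d := by
  have hA : Nonempty A := hP.nonempty
  have hN : 0 < S.N := Cas.N_pos (hP.ok hd)
  have hmu := mu_prob S nd hTower hd hP
  have hy0 : 0 < S.y := mul_pos (lt_of_lt_of_le one_pos hP.1) hP.2.1
  have hy1 : S.y ≤ 1 := by linarith [hP.2.2.1]
  have hG := fun ω => hGw Sg G0 A S d d AA ω hd hP
  have hPP := PP_bd S AA s ph hy0.le hy1 hph
  have hT0 : ∀ ω r, 0 ≤ S.Gw AA ω * (t ω r * Real.exp (S.y * (sgn s * hom S.sp AA ω r))) :=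
    fun ω r => mul_nonneg (hG ω).1.le (mul_nonneg (ht ω r).1 (Real.exp_pos _).le)
  have key := hSeqU (A × Bool) (G0 × Sg × Sg) d (W S nd Ev AA s ph)
    (fun ξ ω => S.Gw AA ω * (t ω ξ.2.2 * Real.exp (S.y * (sgn s * hom S.sp AA ω ξ.2.2)))) c κ
    (e * Real.exp (2 * d)) (Real.exp d) R hκ (by positivity) (by positivity) hR hc ?_
    (W_congr S nd Ev AA s ph) ?_ ?_ ?_
  · have e1 : ∀ ω : Fin d → A × Bool, ∑ ξ : G0 × Sg × Sg, S.Gw AA ω * (t ω ξ.2.2 *
        Real.exp (S.y * (sgn s * hom S.sp AA ω ξ.2.2))) * W S nd Ev AA s ph d ω ξ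
        = S.Gw AA ω * ((S.add fun _ σ => sgn s * hom S.sp AA ω σ).E fun g σ => oU (uu ω) g *
          ind (Ev (nd g.1)) * Ex (S.mu nd (nd g.1)) fun r => t ω r * ∏ k, ph k (ω k) σ r)
          / S.N := by
      intro ω
      rw [sum_W, Sys.E, Sys.E, ← Cas.E_mul]
      simp only [DD_top, o_top]
      congr 1
      refine Cas.E_congr fun g σ => ?_
      rw [mul_left_comm (S.Gw AA ω), ← Ex_mul (S.Gw AA ω)]
      congr 1
      refine Ex_congr fun r => ?_
      have e2 : PP S AA s ph d ω σ r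
          = Real.exp (-(S.y * (sgn s * hom S.sp AA ω r))) * ∏ k, ph k (ω k) σ r := by
        rw [PP, prod_mul_distrib, ← Real.exp_sum, sum_neg_distrib, ← mul_sum, ← DD_top, DD,
          lt_top]
      rw [e2, Real.exp_neg]
      have := Real.exp_pos (S.y * (sgn s * hom S.sp AA ω r))
      field_simp
    have e3 : ∀ ω : Fin d → A × Bool, ∑ ξ : G0 × Sg × Sg, S.Gw AA ω * (t ω ξ.2.2 *
        Real.exp (S.y * (sgn s * hom S.sp AA ω ξ.2.2))) * W S nd Ev AA s ph 0 ω ξ
        = S.Gw AA ω * S.EN nd fun n => ind (Ev n) *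
          Ex (S.mu nd n) fun r => t ω r * Real.exp (S.y * (sgn s * hom S.sp AA ω r)) := by
      intro ω
      have e4 : (S.add fun _ σ => DD S.sp AA s 0 ω σ) = S := by
        simp only [DD, lt_zero, sum_empty]; exact Sys.add_zero'
      have e5 : ∀ g : Gam G0 A, ind (Inj 0 ω) * oI (II 0 ω) g = 1 := fun g => by
        rw [oI, ← ind_and]
        exact ind_pos (by simp [Inj, II, lt_zero])
      rw [sum_W, e4, Sys.EN, Cas.EN, Cas.P, ← mul_div_assoc, ← Cas.E_mul]
      congr 1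
      refine Cas.E_congr fun g σ => ?_
      rw [e5, one_mul, mul_left_comm (S.Gw AA ω), ← Ex_mul (S.Gw AA ω)]
      congr 1
      exact Ex_congr fun r => by rw [PP, lt_zero, prod_empty, mul_one]
    simp only [e1, e3] at key
    refine key.trans_eq ?_
    congr 1
    have e6 : Real.exp (3 * d) = Real.exp (2 * d) * Real.exp d := by
      rw [← Real.exp_add]; congr 1; ring
    rw [e6]; ring
  · intro i ω ξ
    refine sum_nonneg fun ζ _ => div_nonneg (mul_nonneg (mul_nonneg (mul_nonneg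
      (Cas.wt_nonneg ((hP.add _).ok hd) _ _) ?_) ((hmu _).1 _)) (hPP _ _ _ _).1) hN.le
    exact mul_nonneg (mul_nonneg (ind_nonneg _) (ind_nonneg _)) (ind_nonneg _)
  · intro i ω f π hf hπ hπ1
    rw [sum_W_succ, sum_W]
    by_cases hi : Inj i.val ω
    · have h1 := hstep i (fun _ σ => DD S.sp AA s i.val ω σ) (II i.val ω)
        (fun g σ r => f (g, σ, r) * PP S AA s ph i.val ω σ r) (fun g σ r => π (g, σ, r))
        (Real.exp d * Real.exp (2 * d)) (fun _ σ => abs_DD _ _ _ _ _ _)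
        ((card_image_le.trans (card_lt _)).trans (Nat.le_add_right _ _))
        (fun g σ r => ⟨mul_nonneg (hf _).1 (hPP _ _ _ _).1,
          mul_le_mul (hf _).2 (hPP _ _ _ _).2 (hPP _ _ _ _).1 (Real.exp_pos _).le⟩)
        (fun g σ r => hπ _) (fun g σ r => hπ1 _)
      simp only [ind_pos hi, one_mul]
      refine (div_le_div_of_nonneg_right h1 hN.le).trans_eq ?_
      field_simp
    · simp only [ind_neg hi, zero_mul, Cas.E_const, zero_div, mul_zero, zero_add]
      positivity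
  · intro ξ ω
    refine ⟨hT0 _ _, ?_⟩
    have h1 : Real.exp (S.y * (sgn s * hom S.sp AA ω ξ.2.2)) ≤ Real.exp d := by
      refine Real.exp_le_exp.2 ?_
      have h2 : |sgn s * hom S.sp AA ω ξ.2.2| ≤ d := by
        rw [abs_mul, abs_sgn, one_mul]; exact (hG ω).2.2.2.2.2.2 _
      have h3 := le_abs_self (sgn s * hom S.sp AA ω ξ.2.2)
      have h4 : (0 : ℝ) ≤ d := Nat.cast_nonneg d
      nlinarith
    calc _ ≤ 1 * (1 * Real.exp d) := mul_le_mul (hG ω).2.1
          (mul_le_mul (ht _ _).2 h1 (Real.exp_pos _).le zero_le_one)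
          (mul_nonneg (ht _ _).1 (Real.exp_pos _).le) zero_le_one
      _ = _ := by ring
  · intro ξ ω i o
    have h1 : Real.exp (S.y * (sgn s * hom S.sp AA (Function.update ω i o) ξ.2.2))
        ≤ Real.exp (2 * S.y) * Real.exp (S.y * (sgn s * hom S.sp AA ω ξ.2.2)) := by
      rw [← Real.exp_add]
      refine Real.exp_le_exp.2 ?_
      have h2 : |sgn s * (hom S.sp AA (Function.update ω i o) ξ.2.2 - hom S.sp AA ω ξ.2.2)|
          ≤ 2 := by
        rw [abs_mul, abs_sgn, one_mul]; exact (hG ω).2.2.2.2.2.1 _ _ _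
      have h3 := (le_abs_self _).trans h2
      nlinarith
    have e1 : Real.exp (4 * S.y) = Real.exp (2 * S.y) * Real.exp (2 * S.y) := by
      rw [← Real.exp_add]; congr 1; ring
    have h4 := (ht (Function.update ω i o) ξ.2.2).1
    calc _ ≤ Real.exp (2 * S.y) * S.Gw AA ω * (κ' * t ω ξ.2.2 * (Real.exp (2 * S.y) *
            Real.exp (S.y * (sgn s * hom S.sp AA ω ξ.2.2)))) :=
          mul_le_mul ((hG ω).2.2.2.2.1 i o)
            (mul_le_mul (htu _ _ _ _) h1 (Real.exp_pos _).le (h4.trans (htu _ _ _ _)))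
            (mul_nonneg h4 (Real.exp_pos _).le) (mul_nonneg (Real.exp_pos _).le (hG ω).1.le)
      _ = Real.exp (4 * S.y) * κ' * (S.Gw AA ω * (t ω ξ.2.2 *
            Real.exp (S.y * (sgn s * hom S.sp AA ω ξ.2.2)))) := by rw [e1]; ring
      _ ≤ _ := mul_le_mul_of_nonneg_right hκ' (hT0 _ _)

/-- the crude one-step bound, valid for every slot -/
theorem crude [Nonempty G0] (hSv : StSv) (hTower : StTower) (hBd : StBd) (hd : 1000 ≤ d)
    (hP : S.Par d) {lam zb : ℝ} (hD : S.D1 d lam) (hzb : 0 ≤ zb) (hCl : S.Cl d nd Ev zb)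
    (κ a : ℝ) (hκ : 1 ≤ κ) (ha : 0 ≤ a) (hκa : κ * (1 + 2 * a) ≤ 1000) (i : Fin d)
    (hph : ∀ o σ r, Real.exp (S.y * (dl S.sp AA s i o σ - dl S.sp AA s i o r)) * ph i o σ r
      ≤ 1 + a * ind (S.sp o.1 σ ≠ S.sp o.1 r)) :
    Step S nd Ev AA s ph κ (sm 190 d) i (1 + κ * ((1 + a) * (2 * lam / d) + a * min zb 1)) := by
  intro D I f π F hDb hI hf hπ hπ1
  have hd3 : 3 ≤ d := by omega
  have hA : Nonempty A := hP.nonempty
  have hok := hP.ok hd3
  have hok' := (hP.add D).ok hd3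
  have hN : 0 < S.N := Cas.N_pos hok
  have hmu := mu_prob S nd hTower hd3 hP
  have hF : 0 ≤ F := (hf (Classical.arbitrary _) (Classical.arbitrary _)
    (Classical.arbitrary _)).1.trans (hf _ _ _).2
  have hκ0 : 0 < κ := lt_of_lt_of_le one_pos hκ
  have hSv' := hSv Sg G0 A (S.add D) d hd3 (hP.add D)
  set U : Gam G0 A → Sg → ℝ := fun g σ => avg fun b => oA I b g * ((S.add D).Sv (-2) b g σ - 1)
    with hU
  have hav : ∀ (g : Gam G0 A) (σ r : Sg), (avg fun o : A × Bool => π g.1 σ r o * oA I o.1 g *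
      (S.add D).Sv (-2 * dl S.sp AA s i o σ) o.1 g σ *
      (Real.exp (S.y * (dl S.sp AA s i o σ - dl S.sp AA s i o r)) * ph i o σ r))
      ≤ 1 + κ * a * min zb 1 + κ * (1 + a) * U g σ + κ * a * ind (zb < fr S.sp σ r) := by
    intro g σ r
    have h1 : (avg fun o : A × Bool => π g.1 σ r o * oA I o.1 g *
        (S.add D).Sv (-2 * dl S.sp AA s i o σ) o.1 g σ *
        (Real.exp (S.y * (dl S.sp AA s i o σ - dl S.sp AA s i o r)) * ph i o σ r))
        ≤ avg fun o : A × Bool => π g.1 σ r o + (κ * (1 + a) * (oA I o.1 g *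
          ((S.add D).Sv (-2) o.1 g σ - 1)) + κ * a * ind (S.sp o.1 σ ≠ S.sp o.1 r)) := by
      refine avg_mono fun o => ?_
      obtain ⟨s1, s2, s3, -⟩ := hSv' o.1 g σ
      have p0 : 0 ≤ π g.1 σ r o := (one_div_pos.2 hκ0).le.trans (hπ _ _ _ _).1
      have p1 := (hπ g.1 σ r o).2
      have w1 : 1 ≤ (S.add D).Sv (-2) o.1 g σ := s3 ▸ s2 (-2) 0 (by norm_num)
      have w2 : (S.add D).Sv (-2 * dl S.sp AA s i o σ) o.1 g σ ≤ (S.add D).Sv (-2) o.1 g σ :=
        s2 _ _ (by rcases dl_cases S.sp AA s i o σ with h | h <;> rw [h] <;> norm_num)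
      have x0 := ind_nonneg (S.sp o.1 σ ≠ S.sp o.1 r)
      have x1 := ind_le_one (S.sp o.1 σ ≠ S.sp o.1 r)
      have q1 : (S.add D).Sv (-2 * dl S.sp AA s i o σ) o.1 g σ *
          (Real.exp (S.y * (dl S.sp AA s i o σ - dl S.sp AA s i o r)) * ph i o σ r)
          ≤ (S.add D).Sv (-2) o.1 g σ * (1 + a * ind (S.sp o.1 σ ≠ S.sp o.1 r)) :=
        (mul_le_mul_of_nonneg_left (hph o σ r) (s1 _).le).trans
          (mul_le_mul_of_nonneg_right w2 (by positivity))
      generalize (S.add D).Sv (-2) o.1 g σ = w at *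
      generalize ind (S.sp o.1 σ ≠ S.sp o.1 r) = X at *
      rw [mul_assoc]
      generalize (S.add D).Sv (-2 * dl S.sp AA s i o σ) o.1 g σ *
        (Real.exp (S.y * (dl S.sp AA s i o σ - dl S.sp AA s i o r)) * ph i o σ r) = q at *
      generalize π g.1 σ r o = p at *
      have aX : 0 ≤ a * X := mul_nonneg ha x0
      rcases ind_cases (o.1 ∉ I ∧ g.2 o.1 = none) with h | h <;> rw [oA, h]
      · nlinarith [mul_nonneg hκ0.le aX]
      · have u0 : 0 ≤ (1 + a) * (w - 1) + a * X := by nlinarith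
        have q2 : q ≤ 1 + ((1 + a) * (w - 1) + a * X) := by
          nlinarith [mul_nonneg (mul_nonneg ha (sub_nonneg.2 x1)) (sub_nonneg.2 w1)]
        nlinarith [mul_le_mul_of_nonneg_left q2 p0, mul_le_mul_of_nonneg_right p1 u0]
    have hfst : ∀ φ : A → ℝ, (avg fun o : A × Bool => φ o.1) = avg φ := fun φ => by
      rw [avg_prod]; simp only [avg_const]
    rw [avg_add, avg_add, avg_mul, avg_mul, hπ1,
      hfst fun b => oA I b g * ((S.add D).Sv (-2) b g σ - 1),
      hfst fun b => ind (S.sp b σ ≠ S.sp b r)] at h1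
    have h2 : fr S.sp σ r ≤ min zb 1 + ind (zb < fr S.sp σ r) := by
      have h3 : fr S.sp σ r ≤ 1 := avg_le_const zero_le_one fun _ => ind_le_one _
      by_cases h : zb < fr S.sp σ r
      · rw [ind_pos h]; linarith [le_min hzb zero_le_one]
      · rw [ind_neg h, add_zero]; exact le_min (not_lt.1 h) h3
    have h4 := mul_le_mul_of_nonneg_left h2 (mul_nonneg hκ0.le ha)
    refine h1.trans ?_
    unfold fr at h4 ⊢
    simp only [hU]
    linarith
  set ft : G0 → Sg → ℝ := fun g0 σ => ind (Ev (nd g0)) * Ex (S.mu nd (nd g0)) (f g0 σ) with hft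
  have hadm : Sys.Adm d D I ft F := by
    refine ⟨hDb, hI, fun g σ => mul_nonneg (ind_nonneg _)
      (Ex_nonneg (hmu g).1 fun r => (hf _ _ _).1), fun g σ => ?_⟩
    calc _ ≤ 1 * F := mul_le_mul (ind_le_one _) ((hmu g).Ex_le fun r => (hf _ _ _).2)
          (Ex_nonneg (hmu g).1 fun r => (hf _ _ _).1) zero_le_one
      _ = F := one_mul F
  have h5 := (hD.2.2 D I ft F hadm).2.2.1
  have e5 : (S.EI D I ft fun _ _ => 1) = (S.add D).E fun g σ =>
      oI I g * ind (Ev (nd g.1)) * Ex (S.mu nd (nd g.1)) (f g.1 σ) :=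
    Cas.E_congr fun g σ => by simp only [hft]; ring
  set cl : Gam G0 A → Sg → ℝ := fun g σ =>
    ind (Ev (nd g.1)) * Ex (S.mu nd (nd g.1)) fun r => ind (zb < fr S.sp σ r) with hcl
  have hcl0 : ∀ g σ, 0 ≤ cl g σ := fun g σ =>
    mul_nonneg (ind_nonneg _) (Ex_nonneg (hmu _).1 fun _ => ind_nonneg _)
  have h6 : (S.add D).E cl ≤ sm 200 d * S.N := by
    have h7 := ((hBd Sg (Gam G0 A) S.cas (fun g σ => D g.1 σ) (3 * d) hok
      fun g σ _ => hDb _ _).1 cl hcl0).1
    rw [← Sys.cas_add, Cas.E_eq_P_mul hok] at h7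
    have hb : 0 ≤ S.β := zero_le_one.trans hP.1
    have h8 := exp_mul_sm (c := 6 * S.β) (by positivity) (S.β + 200) hd3
    have h9 := sm_anti (k := 200) (k' := S.β + 200) (by linarith) d
    have e8 : 2 * S.cas.β * (3 * d) = 6 * S.β * d := by show 2 * S.β * _ = _; ring
    have e9 : S.β + 200 + 6 * S.β = 7 * S.β + 200 := by ring
    rw [e8, ← mul_assoc] at h7
    rw [e9] at h8
    refine h7.trans (mul_le_mul_of_nonneg_right ?_ hN.le)
    exact ((mul_le_mul_of_nonneg_left hCl (Real.exp_pos _).le).trans h8).trans h9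
  have h10 : ((S.add D).E fun g σ => oI I g * ind (Ev (nd g.1)) * Ex (S.mu nd (nd g.1)) fun r =>
        f g.1 σ r * avg fun o : A × Bool => π g.1 σ r o * oA I o.1 g *
          (S.add D).Sv (-2 * dl S.sp AA s i o σ) o.1 g σ *
          (Real.exp (S.y * (dl S.sp AA s i o σ - dl S.sp AA s i o r)) * ph i o σ r))
      ≤ (S.add D).E fun g σ => (1 + κ * a * min zb 1) * (oI I g * ft g.1 σ * 1)
        + κ * (1 + a) * (oI I g * ft g.1 σ * U g σ) + κ * a * F * cl g σ := by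
    refine Cas.E_mono hok' fun g σ => ?_
    have h11 : (Ex (S.mu nd (nd g.1)) fun r =>
        f g.1 σ r * avg fun o : A × Bool => π g.1 σ r o * oA I o.1 g *
          (S.add D).Sv (-2 * dl S.sp AA s i o σ) o.1 g σ *
          (Real.exp (S.y * (dl S.sp AA s i o σ - dl S.sp AA s i o r)) * ph i o σ r))
        ≤ Ex (S.mu nd (nd g.1)) fun r => (1 + κ * a * min zb 1 + κ * (1 + a) * U g σ) *
          f g.1 σ r + κ * a * F * ind (zb < fr S.sp σ r) := by
      refine Ex_mono (hmu _).1 fun r => (mul_le_mul_of_nonneg_left (hav g σ r)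
        (hf _ _ _).1).trans ?_
      have := mul_le_mul_of_nonneg_left (hf g.1 σ r).2
        (mul_nonneg (mul_nonneg hκ0.le ha) (ind_nonneg (zb < fr S.sp σ r)))
      nlinarith
    rw [Ex_add, Ex_mul, Ex_mul] at h11
    have o0 : 0 ≤ oI I g := ind_nonneg _
    have o1 : oI I g ≤ 1 := ind_le_one _
    have h12 := mul_le_mul_of_nonneg_left h11 (mul_nonneg o0 (ind_nonneg (Ev (nd g.1))))
    have h13 := mul_le_mul_of_nonneg_right o1
      (mul_nonneg (mul_nonneg (mul_nonneg hκ0.le ha) hF) (hcl0 g σ))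
    refine h12.trans ?_
    simp only [hft, hcl] at h13 ⊢
    linarith
  refine h10.trans ?_
  rw [Sys.E, Cas.E_add, Cas.E_add, Cas.E_mul, Cas.E_mul, Cas.E_mul]
  rw [← e5]
  have h14 := mul_le_mul_of_nonneg_left h5 (mul_nonneg hκ0.le (by linarith : 0 ≤ 1 + a))
  have h15 := mul_le_mul_of_nonneg_left h6 (mul_nonneg (mul_nonneg hκ0.le ha) hF)
  have h16 : κ * (1 + 2 * a) * sm 200 d ≤ sm 190 d := by
    have h17 : (1000 : ℝ) ≤ d := by exact_mod_cast hd
    have h18 := mul_sm_le (a := κ * (1 + 2 * a)) 199 hd3 (by linarith)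
    rw [show (199 : ℝ) + 1 = 200 by norm_num] at h18
    exact h18.trans (sm_anti (by norm_num) d)
  have h19 := mul_le_mul_of_nonneg_right h16 (mul_nonneg hF hN.le)
  unfold Sys.EI at h14 ⊢
  simp only [hU]
  linarith

end

end RefJ

end Pool.Agent.MP_32a90a_pr.D

end

section

set_option autoImplicit false

namespace Pool.Agent.MP_32a90a_pr.D

open Finset Pool.Agent.MP_32a90a_pr Pool.Agent.MP_32a90a_pr.L

namespace YtailJ

open RefJ

lemma exp_le {x x0 b : ℝ} (h : x ≤ x0) (h0 : 0 ≤ x0) (h1 : x0 < 1) (hb : 1 / (1 - x0) ≤ b) :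
    Real.exp x ≤ b :=
  (Real.exp_le_exp.2 h).trans ((Real.exp_bound_div_one_sub_of_interval h0 h1).trans hb)

lemma psi_bd (L h : ℝ) : 0 ≤ psi L h ∧ psi L h ≤ 1 :=
  ⟨(Real.exp_pos _).le, Real.exp_le_one_iff.2 (neg_nonpos.2
    (mul_nonneg (by norm_num) (le_max_right _ _)))⟩

lemma psi_le (L : ℝ) {h h' : ℝ} (hh : |h' - h| ≤ 2) :
    psi L h' ≤ Real.exp ((1 / 25000) ^ 2 / 5) * psi L h := by
  unfold psi
  rw [← Real.exp_add]
  refine Real.exp_le_exp.2 ?_
  have h1 : |h| - |h'| ≤ 2 := (abs_sub_abs_le_abs_sub h h').trans (by rwa [abs_sub_comm])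
  have h2 : max (|h| - L) 0 ≤ max (|h'| - L) 0 + 2 :=
    max_le (by linarith [le_max_left (|h'| - L) 0]) (by linarith [le_max_right (|h'| - L) 0])
  linarith

/-- the bijection that absorbs the sign s -/
def fl (A : Type) (s : Bool) : A × Bool ≃ A × Bool :=
  Function.Involutive.toPerm (fun o => (o.1, if s then o.2 else !o.2)) fun o => by
    cases s <;> simp

variable {Sg G0 A Nd : Type} {d : ℕ}

lemma dl_fl (sp : A → Sg → Bool) {AA : Finset (Fin d)} (s : Bool) {i : Fin d} (hi : i ∉ AA)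
    (o : A × Bool) (σ : Sg) : dl sp AA s i (fl A s o) σ = sgn o.2 * sgn (sp o.1 σ) := by
  obtain ⟨a, b⟩ := o
  cases s <;> cases b <;> simp [dl, Jc, hi, fl, sgn]

/-- the weight of one slot -/
noncomputable def ph (sp : A → Sg → Bool) (AA : Finset (Fin d)) (s : Bool) (k : Fin d)
    (o : A × Bool) (σ r : Sg) : ℝ :=
  Real.exp (-(1 / 25000 * ((dl sp AA s k o σ - dl sp AA s k o r) / 2)))

lemma ph_bd (sp : A → Sg → Bool) (AA : Finset (Fin d)) (s : Bool) (k : Fin d) (o : A × Bool)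
    (σ r : Sg) : 0 ≤ ph sp AA s k o σ r ∧ ph sp AA s k o σ r ≤ Real.exp 1 := by
  refine ⟨(Real.exp_pos _).le, Real.exp_le_exp.2 ?_⟩
  rcases dl_cases sp AA s k o σ with h | h <;> rcases dl_cases sp AA s k o r with h' | h' <;>
    rw [h, h'] <;> norm_num

lemma prod_ph (sp : A → Sg → Bool) (AA : Finset (Fin d)) (s : Bool) (ω : Fin d → A × Bool)
    (σ r : Sg) : ∏ k, ph sp AA s k (ω k) σ r
      = Real.exp (-(1 / 25000 * (sgn s * (hom sp AA ω σ - hom sp AA ω r) / 2))) := by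
  unfold ph
  rw [← Real.exp_sum, sum_neg_distrib, ← mul_sum, ← sum_div, sum_sub_distrib, mul_sub,
    ← DD_top, ← DD_top, DD, DD, lt_top]

lemma ph_crude (sp : A → Sg → Bool) (AA : Finset (Fin d)) (s : Bool) (k : Fin d) {y : ℝ}
    (hy0 : 0 ≤ y) (hy : y ≤ 1 / 10 ^ 11) (o : A × Bool) (σ r : Sg) :
    Real.exp (y * (dl sp AA s k o σ - dl sp AA s k o r)) * ph sp AA s k o σ r
      ≤ 1 + 2 / 25000 * ind (sp o.1 σ ≠ sp o.1 r) := by
  unfold ph
  rw [← Real.exp_add]
  by_cases h : sp o.1 σ = sp o.1 r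
  · have e : dl sp AA s k o σ = dl sp AA s k o r := by unfold dl; rw [h]
    rw [e, ind_neg (not_not.2 h)]
    simp
  · rw [ind_pos h]
    refine exp_le (x0 := 1 / 25000) ?_ (by norm_num) (by norm_num) (by norm_num)
    rcases dl_cases sp AA s k o σ with h1 | h1 <;> rcases dl_cases sp AA s k o r with h2 | h2 <;>
      rw [h1, h2] <;> linarith

variable [Fintype Sg] [Nonempty Sg] [Fintype G0] [Nonempty G0] [Fintype A] [DecidableEq A]

lemma fair (hYstep : StYstep) (S : Sys Sg G0 A) {c cp z zb : ℝ} (nd : G0 → Nd) (Ev : Nd → Prop)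
    {AA : Finset (Fin d)} (s : Bool) (hd : 1000 ≤ d) (hP : S.Par d) (hR : S.Rig d c cp)
    (hy : S.y ≤ 1 / 10 ^ 11) (hz : 0 ≤ z) (hzb : 0 ≤ zb)
    (hzb' : zb ≤ 200 * ((d * (1 - c) + 1) / d + z)) (hCl : S.Cl d nd Ev zb) {i : Fin d}
    (hi : i ∉ AA) : Step S nd Ev AA s (ph S.sp AA s) (1 + 3 / 10 * (1 / 25000) ^ 2) (sm 190 d) i
      (1 - (d * (1 - c) + 1) / d / 125000 + z + 1 / (2 * (d : ℝ))) := by
  intro D I f π F hD hI hf hπ hπ1
  have h1 := hYstep Sg G0 A S d c cp z zb F Nd nd Ev D I f (fun g σ r o => π g σ r (fl A s o))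
    hd hP hR hy hz hzb hzb' hCl hD hI hf (fun g σ r o => ?_)
    (fun g σ r => (avg_equiv (fl A s) (π g σ r)).trans (hπ1 g σ r))
  · refine le_of_eq_of_le (Cas.E_congr fun g σ => ?_) h1
    congr 1
    refine Ex_congr fun r => ?_
    congr 1
    rw [← avg_equiv (fl A s)]
    refine avg_congr fun o => ?_
    have e1 : (fl A s o).1 = o.1 := rfl
    unfold ph
    rw [dl_fl S.sp s hi, dl_fl S.sp s hi, e1, ← Real.exp_add]
    congr 2
    · obtain ⟨a, b⟩ := o
      cases b <;> cases S.sp a σ <;> simp [sgn]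
    · ring
  · obtain ⟨h2, h3⟩ := hπ g σ r (fl A s o)
    have h4 : 1 - 3 / 10 * (1 / 25000 : ℝ) ^ 2 ≤ 1 / (1 + 3 / 10 * (1 / 25000) ^ 2) := by
      norm_num
    rw [abs_le]
    constructor <;> linarith

end YtailJ

open RefJ YtailJ in
theorem stYtail (hSeqU : StSeqU) (hYstep : StYstep) (hD1 : StD1) (hSv : StSv) (hGw : StGw)
    (hTower : StTower) (hBd : StBd) : StYtail := by
  intro Sg G0 A _ _ _ _ _ _ S d c cp z zb L Nd nd Ev AA s hd hP hR hy hz hz1 hzb hzb' hCl hAA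
  have hd3 : 3 ≤ d := by omega
  have hdR : (1000 : ℝ) ≤ d := by exact_mod_cast hd
  have hd0 : (0 : ℝ) < d := by linarith
  have hy0 : 0 < S.y := mul_pos (lt_of_lt_of_le one_pos hP.1) hP.2.1
  have hD := hD1 Sg G0 A S d c cp hd hP hR
  have hfair := fun i hi => fair (AA := AA) (i := i) hYstep S nd Ev s hd hP hR hy hz hzb hzb' hCl hi
  generalize (d : ℝ) * (1 - c) + 1 = lam at *
  have hG := fun ω => hGw Sg G0 A S d d AA ω hd3 hP
  have hmu := mu_prob S nd hTower hd3 hP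
  obtain ⟨u, hu⟩ : ∃ u, u = lam / d := ⟨_, rfl⟩
  have hu0 : 0 ≤ u := hu ▸ div_nonneg (by linarith [hD.1]) hd0.le
  have hu1 : u ≤ 1 + 2 / 1000 := by
    rw [hu, div_le_iff₀ hd0]; linarith [hD.2.1]
  have hi0 : 0 ≤ 1 / (2 * (d : ℝ)) := by positivity
  have hi1 : 1 / (2 * (d : ℝ)) ≤ 1 := by rw [div_le_one (by positivity)]; linarith
  obtain ⟨cA, hcA⟩ : ∃ cA : ℝ, cA = 1 + (1 + 3 / 10 * (1 / 25000) ^ 2) *
    ((1 + 2 / 25000) * (2 * lam / d) + 2 / 25000 * min zb 1) := ⟨_, rfl⟩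
  obtain ⟨cF, hcF⟩ : ∃ cF : ℝ, cF = 1 - lam / d / 125000 + z + 1 / (2 * (d : ℝ)) := ⟨_, rfl⟩
  have hm0 : 0 ≤ min zb 1 := le_min hzb zero_le_one
  have hm1 : min zb 1 ≤ 200 * (u + z) := (min_le_left _ _).trans (hu ▸ hzb')
  have hA0 : 0 ≤ cA := by rw [hcA, mul_div_assoc, ← hu]; positivity
  have hA1 : cA ≤ 1 + 3 * u + z := by rw [hcA, mul_div_assoc, ← hu]; linarith
  have hF1 : cF = 1 - u / 125000 + z + 1 / (2 * (d : ℝ)) := by rw [hcF, hu]
  have hc : ∀ i, 0 ≤ (if i ∈ AA then cA else cF) ∧ (if i ∈ AA then cA else cF) ≤ 6 := by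
    intro i
    split_ifs <;> constructor <;> linarith
  have key := seq S nd Ev AA s (ph S.sp AA s) hSeqU hGw hTower hd3 hP
    (fun ω r => psi L (hom S.sp AA ω r)) (fun i => if i ∈ AA then cA else cF)
    (1 + 3 / 10 * (1 / 25000) ^ 2) (Real.exp ((1 / 25000) ^ 2 / 5)) (sm 190 d) 6 (by norm_num)
    (by
      rw [← Real.exp_add]
      exact exp_le (x0 := 4 / 10 ^ 11 + (1 / 25000) ^ 2 / 5) (by linarith) (by norm_num)
        (by norm_num) (by norm_num))
    (sm_pos _ _).le (by norm_num) hc (ph_bd S.sp AA s) (fun ω r => psi_bd _ _)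
    (fun ω i o r => psi_le L ((hG ω).2.2.2.2.2.1 i o r))
    (fun i => by
      by_cases hi : i ∈ AA
      · rw [if_pos hi, hcA]
        exact crude S nd Ev AA s _ hSv hTower hBd hd hP hD hzb hCl _ _ (by norm_num)
          (by norm_num) (by norm_num) i (ph_crude S.sp AA s i hy0.le hy)
      · rw [if_neg hi, hcF]
        exact hfair i hi)
  simp only [prod_ph] at key
  refine key.trans (add_le_add (mul_le_mul_of_nonneg_right ?_ ?_) ?_)
  · have h1 : ∏ i : Fin d, (if i ∈ AA then cA else cF)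
        ≤ ∏ i : Fin d, Real.exp ((cF - 1) + if i ∈ AA then (3 + 1 / 125000) * u else 0) := by
      refine prod_le_prod (fun i _ => (hc i).1) fun i _ => le_trans ?_ (Real.add_one_le_exp _)
      split_ifs <;> linarith
    refine h1.trans ?_
    rw [← Real.exp_sum, sum_add_distrib, sum_ite_mem, univ_inter, sum_const, sum_const, card_univ,
      Fintype.card_fin, nsmul_eq_mul, nsmul_eq_mul]
    refine Real.exp_le_exp.2 ?_
    have h2 : (AA.card : ℝ) * 10 ^ 7 ≤ d := by exact_mod_cast hAA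
    have h3 : (d : ℝ) * u = lam := by rw [hu]; field_simp
    have h4 : (d : ℝ) * (1 / (2 * (d : ℝ))) = 1 / 2 := by field_simp
    have h5 := mul_le_mul_of_nonneg_right h2 hu0
    have h6 : 0 ≤ (d : ℝ) * z := mul_nonneg hd0.le hz
    have h7 := hD.1
    rw [hF1]
    nlinarith
  · refine avg_nonneg fun ω => mul_nonneg (hG ω).1.le (Cas.P_nonneg (hP.ok hd3) fun g _ => ?_)
    exact mul_nonneg (ind_nonneg _) (Ex_nonneg (hmu _).1 fun r =>
      mul_nonneg (psi_bd _ _).1 (Real.exp_pos _).le)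
  · have h1 : (6 : ℝ) ^ d ≤ Real.exp (2 * d) := by
      rw [mul_comm, Real.exp_nat_mul]
      refine pow_le_pow_left₀ (by norm_num) ?_ d
      have h2 : Real.exp 2 = Real.exp 1 * Real.exp 1 := by rw [← Real.exp_add]; norm_num
      have h3 := Real.exp_one_gt_d9
      rw [h2]; nlinarith
    have h2 := mul_sm_le (a := (d : ℝ)) 189 hd3 (by linarith)
    have h3 := exp_mul_sm (c := 5) (by norm_num) 184 hd3
    have h4 := sm_anti (k := 100) (k' := 184) (by norm_num) d
    rw [show (189 : ℝ) + 1 = 190 by norm_num] at h2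
    rw [show (184 : ℝ) + 5 = 189 by norm_num] at h3
    have e : Real.exp (5 * d) = Real.exp (3 * d) * Real.exp (2 * d) := by
      rw [← Real.exp_add]; congr 1; ring
    calc (d : ℝ) * sm 190 d * Real.exp (3 * d) * 6 ^ d
        ≤ sm 189 d * Real.exp (3 * d) * Real.exp (2 * d) :=
          mul_le_mul (mul_le_mul_of_nonneg_right h2 (Real.exp_pos _).le) h1 (by positivity)
            (mul_nonneg (sm_pos _ _).le (Real.exp_pos _).le)
      _ = Real.exp (5 * d) * sm 189 d := by rw [e]; ring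
      _ ≤ sm 100 d := h3.trans h4

end Pool.Agent.MP_32a90a_pr.D

end

section

set_option autoImplicit false

namespace Pool.Agent.MP_32a90a_pr.D.SAll

theorem aCp : StCp := stCp
theorem aD1 : StD1 := stD1
theorem aDom : StDom := stDom
theorem aGw : StGw := stGw CAll.aTilt
theorem aJoin1 : StJoin1 := stJoin1 CAll.aSafe CAll.aBd CAll.aTower
theorem aMecke : StMecke := stMecke
theorem aOI : StOI := stOI
theorem aPat : StPat := stPat
theorem aPin : StPin := stPin
theorem aRatio : StRatio := stRatio CAll.aLevA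
theorem aRob : StRob := stRob SAll.aMecke CAll.aBd
theorem aSRW : StSRW := stSRW
theorem aSer : StSer := stSer
theorem aSv : StSv := stSv
theorem aYstep : StYstep := stYstep SAll.aSv CAll.aBd CAll.aTower SAll.aD1
theorem aYtail : StYtail :=
  stYtail CAll.aSeqU SAll.aYstep SAll.aD1 SAll.aSv SAll.aGw CAll.aTower CAll.aBd
theorem aAllL : StAllL := stAllL CAll.aSeqL SAll.aSv
theorem aAllU : StAllU := stAllU CAll.aSeqU SAll.aSv
theorem aDom2 : StDom2 := stDom2 SAll.aMecke SAll.aDom CAll.aBd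
theorem aExc : StExc := stExc SAll.aSv CAll.aBd
theorem aHK : StHK := stHK SAll.aSer SAll.aPat SAll.aSv
theorem aNear : StNear := stNear CAll.aBd SAll.aOI
theorem aNtail : StNtail := stNtail CAll.aSeqU SAll.aSv SAll.aGw CAll.aTower CAll.aBd
theorem aRig : StRig := stRig SAll.aMecke SAll.aRob SAll.aDom2 SAll.aCp SAll.aSv
theorem aSand : StSand := stSand SAll.aPin SAll.aGw SAll.aRatio SAll.aAllU SAll.aAllL
theorem aStab : StStab := stStab CAll.aBd CAll.aTower SAll.aNear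
theorem aSw : StSw := stSw CAll.aSwC CAll.aResNode SAll.aNear CAll.aTower
theorem aTh : StTh := stTh SAll.aGw SAll.aRatio SAll.aAllU SAll.aOI
theorem aVT3 : StVT3 := stVT3 SAll.aExc SAll.aSRW SAll.aPin SAll.aNear CAll.aBd SAll.aOI
theorem aVT4 : StVT4 := stVT4 SAll.aPin SAll.aNear CAll.aBd CAll.aMinor SAll.aOI
theorem aBal : StBal := stBal SAll.aSand SAll.aTh SAll.aHK CAll.aLind CAll.aFair
theorem aET2 : StET2 := stET2 CAll.aOdds CAll.aResNode SAll.aNear CAll.aTower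
theorem aETb : StETb := stETb SAll.aJoin1 SAll.aNear CAll.aTower SAll.aSv
theorem aFew : StFew :=
  stFew SAll.aNtail SAll.aYtail SAll.aPin SAll.aGw SAll.aOI CAll.aTower SAll.aD1
theorem aVT1 : StVT1 := stVT1 SAll.aBal SAll.aNear
theorem aVT2 : StVT2 := stVT2 SAll.aFew SAll.aNear CAll.aMinor

end Pool.Agent.MP_32a90a_pr.D.SAll

end
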