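import Pool.Agent.Mg.F32a90ap.G4fb964
import Pool.Agent.Mg.F32a90ap.Gb40b3f
import Pool.Agent.Mg.F32a90ap.Gfd82aa
import Pool.Agent.Mg.F32a90ap.Gfcc72d
import Pool.Agent.Mg.F32a90ap.Gb32af6
import Pool.Agent.Mg.F32a90ap.G951a79
import Pool.Agent.Mg.F32a90ap.G21d71b

section

set_option autoImplicit false
set_option linter.unusedSectionVars false

namespace Pool.Agent.MP_32a90a_pr.D

open Finset Equiv Filter Pool.Agent.MP_32a90a_pr Pool.Agent.MP_32a90a_pr.L

namespace RFJ

lemma sm_le_pow {d : ℕ} (hd : 1 ≤ d) : sm 300 d ≤ 1 / (d : ℝ) ^ 13 := by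
  have h1 : (1 : ℝ) ≤ d := by exact_mod_cast hd
  have h2 : 0 ≤ Real.log d := Real.log_nonneg h1
  have e : 1 / (d : ℝ) ^ 13 = Real.exp (-(13 * Real.log d)) := by
    rw [Real.exp_neg, show (13 : ℝ) = ((13 : ℕ) : ℝ) by norm_num, Real.exp_nat_mul,
      Real.exp_log (by linarith), one_div]
  rw [e]
  refine Real.exp_le_exp.2 (neg_le_neg ?_)
  nlinarith [mul_nonneg (sub_nonneg.2 h1) h2]

variable {V E : Type} [Fintype V] [DecidableEq V] [Fintype E] [DecidableEq E]

lemma mass {d : ℕ} {r : Bool → ℤ → ℝ} {s : E → ℝ} {w : E × Bool → V} {σ : V → Bool}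
    {lz : V → ℤ} (hl : ∀ v, loc s w σ v = lz v ∧ |lz v| ≤ d) {q : ℝ}
    (hr : ∀ (b : Bool) (l : ℤ), |l| ≤ d → |cnt s w σ b l / Fintype.card V - r b l| ≤ q)
    (b : Bool) (Q : ℤ → Prop) :
    |(∑ v, ind (σ v = b ∧ Q (lz v))) / Fintype.card V
      - ∑ l ∈ Icc (-(d : ℤ)) d, ind (Q l) * r b l| ≤ (2 * d + 1) * q := by
  have e : ∑ v, ind (σ v = b ∧ Q (lz v)) = ∑ l ∈ Icc (-(d : ℤ)) d, ind (Q l) * cnt s w σ b l := by
    have e1 : ∀ l : ℤ, cnt s w σ b l = ∑ v, ind (σ v = b ∧ lz v = l) := by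
      intro l
      unfold cnt
      rw [← sum_ind]
      exact sum_congr rfl fun v _ => ind_congr (by rw [(hl v).1, Int.cast_inj])
    simp only [e1, mul_sum]
    rw [sum_comm]
    refine sum_congr rfl fun v _ => ?_
    rw [sum_eq_single (lz v)]
    · rw [ind_and, ind_and, ind_pos (rfl : lz v = lz v)]; ring
    · intro l _ hne
      rw [ind_neg (P := σ v = b ∧ lz v = l) fun h => hne h.2.symm, mul_zero]
    · intro h
      exact absurd (mem_Icc.2 (abs_le.1 (hl v).2)) h
  rw [e, sum_div, ← sum_sub_distrib]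
  refine (abs_sum_le_sum_abs _ _).trans ((sum_le_card_nsmul _ _ q fun l hl' => ?_).trans_eq ?_)
  · have h := hr b l (abs_le.2 (mem_Icc.1 hl'))
    rw [mul_div_assoc, ← mul_sub, abs_mul, abs_of_nonneg (ind_nonneg _)]
    exact (mul_le_of_le_one_left (abs_nonneg _) (ind_le_one _)).trans h
  · rw [nsmul_eq_mul, Int.card_Icc]
    have : ((d : ℤ) + 1 - -(d : ℤ)).toNat = 2 * d + 1 := by omega
    rw [this]; push_cast; ring

lemma split_b (σ : V → Bool) (Q : V → Prop) :
    ∑ v, ind (σ v = true ∧ Q v) + ∑ v, ind (σ v = false ∧ Q v) = ∑ v, ind (Q v) := by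
  rw [← sum_add_distrib]
  refine sum_congr rfl fun v _ => ?_
  by_cases h : Q v <;> cases σ v <;> simp [ind, h]

lemma sum_loc (s : E → ℝ) (w : E × Bool → V) (σ : V → Bool) :
    ∑ v, loc s w σ v = eS s w σ univ univ := by
  unfold loc eS
  rw [sum_fiberwise]
  simp

lemma cp_cases (U A : Finset E) (J : E → Bool) (i : E) :
    cp U A ∅ J i = 0 ∨ cp U A ∅ J i = 1 ∨ cp U A ∅ J i = -1 := by
  unfold cp
  split_ifs
  · exact Or.inl rfl
  · exact Or.inr (Or.inr rfl)
  · exact Or.inr (Or.inl rfl)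
  · exact Or.inr (sgn_cases _)

lemma cp_zero (U A : Finset E) (J : E → Bool) (i : E) (h : cp U A ∅ J i = 0) : i ∈ U := by
  by_contra hi
  unfold cp at h
  rw [if_neg hi] at h
  split_ifs at h
  · norm_num at h
  · norm_num at h
  · rcases sgn_cases (J i) with h' | h' <;> rw [h'] at h <;> norm_num at h

/-- the mean local field is small -/
lemma field_le {d : ℕ} (hd : 1000 ≤ d) {s : E → ℝ} {w : E × Bool → V} (h : G2 d s w)
    (σ : V → Bool) (hN : (0 : ℝ) < Fintype.card V) :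
    ∑ v, loc s w σ v ≤ 21 * Real.sqrt (d * ell d) * Fintype.card V := by
  have hd' : (1000 : ℝ) ≤ d := by exact_mod_cast hd
  have hl : 1 ≤ ell d := one_le_log (by omega)
  have hl2 : ell d ≤ d := (Real.log_le_sub_one_of_pos (by linarith)).trans (by linarith)
  set R := Real.sqrt (d * ell d) with hR
  have hRR : R * R = d * ell d := Real.mul_self_sqrt (by positivity)
  have hR1 : 1 ≤ R := Real.one_le_sqrt.2 (by nlinarith)
  have hRd : R ≤ d := Real.sqrt_le_iff.2 ⟨by linarith, by nlinarith⟩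
  have h2 : (d : ℝ) ≤ 2 ^ d := by exact_mod_cast (Nat.lt_two_pow_self (n := d)).le
  have h3 := h σ univ (R / d)
    (by rw [div_le_div_iff₀ (by positivity) (by linarith)]; nlinarith)
    (by rw [div_le_one (by linarith)]; exact hRd)
  rw [card_univ] at h3
  rw [sum_loc]
  refine h3.trans ?_
  have e1 : 3 * d * (R / d) * (Fintype.card V : ℝ) ^ 2 / Fintype.card V
      = 3 * R * Fintype.card V := by field_simp
  have h4 : 6 * (Fintype.card V : ℝ) / (d : ℝ) ^ 2 ≤ Fintype.card V := by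
    rw [div_le_iff₀ (by positivity)]; nlinarith [mul_le_mul_of_nonneg_left hd' hN.le]
  have h5 : (Fintype.card V : ℝ) * (4 * ell d + 4) + 6 * Fintype.card V / (d : ℝ) ^ 2
      ≤ 9 * ell d * Fintype.card V := by nlinarith
  have e2 : 2 / (R / d) * (9 * ell d * Fintype.card V) = 18 * R * Fintype.card V := by
    field_simp
    nlinarith
  have h6 := mul_le_mul_of_nonneg_left h5 (by positivity : 0 ≤ 2 / (R / d))
  rw [e1]
  linarith

lemma core (hNEG : StNEG) (hPAR : StPAR) {d : ℕ} (hd : 1000 ≤ d) (hev : Even d) {C c : ℝ}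
    (hC : 1 ≤ C) {r : Bool → ℤ → ℝ} (hr : ∀ b l, 0 ≤ r b l ∧ r b l ≤ 1) {Z A : Finset E}
    {w : E × Bool → V} {J : E → Bool} {σ : V → Bool} (hw : Deg w d)
    (hT : Typ d C c (sm 300 d) Z A w J) (hp : Tp d r (cp Z A ∅ J) w σ) (hq : qq d ≤ sm 300 d)
    (hA : (A.card : ℝ) ≤ 2 * tau d * Fintype.card E)
    (hZ : (Z.card : ℝ) ≤ sm 300 d * Fintype.card V) (hN : (0 : ℝ) < Fintype.card V) :
    RF d C c r := by
  classical
  have hd' : (1000 : ℝ) ≤ d := by exact_mod_cast hd
  have hl : 1 ≤ ell d := one_le_log (by omega)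
  obtain ⟨-, g2, -, -, -, gbad, p1, p2⟩ := hT
  obtain ⟨a1, a2⟩ := hPAR V E w d _ σ hw (cp_cases Z A J)
  choose lz hlz using a1
  have hs0 := sm_pos 300 d
  have hs1 := sm_le_one (k := 300) (by norm_num) d
  have hsp := sm_le_pow (d := d) (by omega)
  set t := sm 300 d with ht
  have hq0 : 0 < qq d := Real.exp_pos _
  have hq1 : qq d ≤ 1 := hq.trans hs1
  have hq2 : qq d ^ 2 ≤ t := (pow_le_of_le_one hq0.le hq1 two_ne_zero).trans hq
  have hq4 : qq d ^ 4 ≤ t := (pow_le_of_le_one hq0.le hq1 (by norm_num)).trans hq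
  have ht10 : 10 * d * t ≤ 1 / (d : ℝ) ^ 10 := by
    rw [le_div_iff₀ (by positivity)] at hsp ⊢
    have h10 : (10 : ℝ) ≤ d ^ 2 := by nlinarith
    have : 10 * (d : ℝ) ≤ d ^ 3 := by nlinarith
    calc 10 * d * t * (d : ℝ) ^ 10 ≤ d ^ 3 * t * (d : ℝ) ^ 10 := by gcongr
      _ = t * (d : ℝ) ^ 13 := by ring
      _ ≤ 1 := hsp
  have hp10 : 1 / (d : ℝ) ^ 10 ≤ 1 / d :=
    one_div_le_one_div_of_le (by linarith) (le_self_pow₀ (by linarith) (by norm_num))
  have htd : 10 * d * t ≤ 1 / d := ht10.trans hp10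
  have htd2 : 10 * d * t * d ≤ 1 := (le_div_iff₀ (by linarith)).1 htd
  have hinv : 1 / (d : ℝ) ≤ 1 / 1000 := one_div_le_one_div_of_le (by norm_num) hd'
  have hdt : 0 ≤ d * t := by positivity
  have htt : 1000 * t ≤ d * t := mul_le_mul_of_nonneg_right hd' hs0.le
  have hm : ∀ (b : Bool) (Q : ℤ → Prop), |(∑ v, ind (σ v = b ∧ Q (lz v))) / Fintype.card V
      - ∑ l ∈ Icc (-(d : ℤ)) d, ind (Q l) * r b l| ≤ 3 * d * t := fun b Q =>
    (mass hlz (fun b l h => (hp.2 b l h).trans hq2) b Q).trans (by linarith)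
  have hneg : ∑ v, ind (loc (cp Z A ∅ J) w σ v < 0) ≤ 4 * d * t * Fintype.card V := by
    have h1 := hNEG V E w d _ σ _ hw (cp_cases Z A J) hp.1
    rw [sum_ind]
    have h2 : ((d : ℝ) + 1) * (3 * qq d ^ 4 * Fintype.card V)
        ≤ (d + 1) * (3 * t * Fintype.card V) := by gcongr
    have h3 := mul_le_mul_of_nonneg_right htt hN.le
    have h4 : 0 ≤ t * Fintype.card V := by positivity
    nlinarith
  have hη : ∀ L : ℝ, 1 ≤ L → 3 * qq d ^ 4 * d ≤ L ^ 3 := by
    intro L hL
    have h1 : 1 ≤ L ^ 3 := one_le_pow₀ hL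
    have h2 := mul_le_mul_of_nonneg_right hq4 (by linarith : (0 : ℝ) ≤ d)
    nlinarith
  have hlow : ∀ L : ℝ, 1 ≤ L → 1 / (d : ℝ) ≤ C * L ^ 2 * ell d / d := by
    intro L hL
    refine div_le_div_of_nonneg_right ?_ (by linarith)
    exact one_le_mul_of_one_le_of_one_le
      (one_le_mul_of_one_le_of_one_le hC (one_le_pow₀ hL)) hl
  have hle : ∀ (b : Bool) (L : ℝ), |(∑ v, ind (σ v = b ∧ loc (cp Z A ∅ J) w σ v ≤ L))
      / Fintype.card V - rB d r b L| ≤ 3 * d * t := by
    intro b L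
    have := hm b fun l => (l : ℝ) ≤ L
    simp only [← (hlz _).1] at this
    exact this
  refine ⟨hr, fun b => ?_, fun L hL hLd hc => ?_, fun L hL hLd => ?_, ?_⟩
  · have h1 := (abs_le.1 (hm b fun l => l < 0 ∨ Odd l)).1
    have h2 : ∑ v, ind (σ v = b ∧ (lz v < 0 ∨ Odd (lz v)))
        ≤ ∑ v, ind (loc (cp Z A ∅ J) w σ v < 0)
          + ∑ v, ind (¬ ∃ l : ℤ, loc (cp Z A ∅ J) w σ v = 2 * l) := by
      rw [← sum_add_distrib]
      refine sum_le_sum fun v _ => le_trans (ind_mono ?_) (ind_or_le _ _)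
      rw [(hlz v).1]
      rintro ⟨-, h | h⟩
      · exact Or.inl (by exact_mod_cast h)
      · refine Or.inr ?_
        rintro ⟨l, hl'⟩
        have : lz v = 2 * l := by exact_mod_cast hl'
        rw [this] at h
        exact (Int.not_odd_iff_even.2 (even_two_mul l)) h
    have h3 : ∑ v, ind (¬ ∃ l : ℤ, loc (cp Z A ∅ J) w σ v = 2 * l) ≤ 2 * (Z.card : ℝ) := by
      rw [sum_ind]
      have h4 := a2 hev
      have h5 : (univ.filter fun i => cp Z A ∅ J i = 0).card ≤ Z.card :=
        card_le_card fun i hi => cp_zero Z A J i (mem_filter.1 hi).2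
      exact_mod_cast h4.trans (Nat.mul_le_mul_left 2 h5)
    have h6 : (∑ v, ind (σ v = b ∧ (lz v < 0 ∨ Odd (lz v)))) / Fintype.card V
        ≤ 4 * d * t + 2 * t := by
      rw [div_le_iff₀ hN]; linarith
    linarith
  · have h1 := p1 L 0 (3 * qq d ^ 4) σ hL hLd (by simp) (hη L hL) (by
      have h2 := mul_le_mul_of_nonneg_right hA (by linarith : 0 ≤ L)
      have h3 := mul_le_mul_of_nonneg_right hc (Nat.cast_nonneg (α := ℝ) (Fintype.card E))
      linarith) hp.1
    rw [← sum_ind, ← split_b σ, ← div_le_iff₀ hN, add_div] at h1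
    have h2 := (abs_le.1 (hle true L)).1
    have h3 := (abs_le.1 (hle false L)).1
    have h4 := hlow L hL
    have e : 2 * C * L ^ 2 * ell d / d = 2 * (C * L ^ 2 * ell d / d) := by ring
    unfold rL
    rw [e]
    linarith
  · obtain ⟨b, h1⟩ := p2 L (3 * qq d ^ 4) σ hL hLd (hη L hL) hp.1
    refine ⟨b, ?_⟩
    rw [← sum_ind, ← div_le_iff₀ hN] at h1
    have h2 := (abs_le.1 (hle b L)).1
    have h4 := hlow L hL
    have e : 2 * C * L ^ 2 * ell d / d = 2 * (C * L ^ 2 * ell d / d) := by ring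
    rw [e]
    linarith
  · have h1 := field_le hd g2 σ hN
    set R := Real.sqrt (d * ell d) with hR
    have hR1 : 1 ≤ R := Real.one_le_sqrt.2 (by nlinarith)
    have h2 : ∑ v : V, (100 * R - 100 * R * ind (loc (cp Z A ∅ J) w σ v ≤ 100 * R)
        - d * ind (loc (cp Z A ∅ J) w σ v < 0)) ≤ ∑ v, loc (cp Z A ∅ J) w σ v := by
      refine sum_le_sum fun v _ => ?_
      have hb : -(d : ℝ) ≤ loc (cp Z A ∅ J) w σ v := by
        rw [(hlz v).1]; exact_mod_cast (abs_le.1 (hlz v).2).1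
      by_cases h3 : loc (cp Z A ∅ J) w σ v ≤ 100 * R
      · rw [ind_pos h3]
        by_cases h4 : loc (cp Z A ∅ J) w σ v < 0
        · rw [ind_pos h4]; linarith
        · rw [ind_neg h4]; linarith
      · rw [ind_neg h3, ind_neg (P := loc (cp Z A ∅ J) w σ v < 0) (by linarith)]
        linarith
    rw [sum_sub_distrib, sum_sub_distrib, sum_const, ← mul_sum, ← mul_sum, card_univ,
      nsmul_eq_mul, ← split_b σ] at h2
    have h3 := (abs_le.1 (hle true (100 * R))).2
    have h4 := (abs_le.1 (hle false (100 * R))).2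
    set n := ∑ v, ind (σ v = true ∧ loc (cp Z A ∅ J) w σ v ≤ 100 * R)
    set n' := ∑ v, ind (σ v = false ∧ loc (cp Z A ∅ J) w σ v ≤ 100 * R)
    have h5 := mul_le_mul_of_nonneg_left hneg (by linarith : (0 : ℝ) ≤ d)
    have h6 : d * (4 * d * t * Fintype.card V) ≤ R * Fintype.card V := by
      have : d * (4 * d * t) ≤ R := by linarith
      calc _ = d * (4 * d * t) * Fintype.card V := by ring
        _ ≤ _ := mul_le_mul_of_nonneg_right this hN.le
    have h7 : R * (78 * Fintype.card V) ≤ R * (100 * (n + n')) := by linarith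
    have h8 := le_of_mul_le_mul_left h7 (by linarith)
    have h9 : 78 / 100 ≤ n / Fintype.card V + n' / Fintype.card V := by
      rw [← add_div, le_div_iff₀ hN]; linarith
    unfold rL
    linarith

end RFJ

open RFJ in
theorem stRF (hPar : StPar) (hNEG : StNEG) (hPAR : StPAR) : StRF := by
  intro C c hC _ hT
  filter_upwards [hPar, hT] with d h1 h2 hev
  refine ⟨sm 300 d, sm_pos _ _, (h1.and (h2 _ (sm_pos 300 d))).mono ?_⟩
  intro V E _ _ _ _ w0 hw hh P r c' cp hE hr
  have hok := hE.1.1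
  obtain ⟨hd, hpar, hc, -, -, -, hq, -, -, hZ, hN⟩ := hh.1 P hok
  have hN' : (0 : ℝ) < Fintype.card V := by
    by_contra h
    have := mul_nonpos_of_nonneg_of_nonpos (sm_pos 300 d).le (not_lt.1 h)
    linarith
  have hty := hh.2 P.Z P.A hc
  have htp := hE.2.2.2.2.1
  have hs : sm 300 d ≤ 1 / 4 := by
    refine (sm_le_inv (by norm_num) (by omega)).trans (one_div_le_one_div_of_le (by norm_num) ?_)
    have : (1000 : ℝ) ≤ d := by exact_mod_cast hd
    linarith
  by_contra hn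
  have key : (ED w0 fun _ _ => (1 : ℝ)) ≤ ED w0 fun w J =>
      ind (¬ Typ d C c (sm 300 d) P.Z P.A w J)
        + (P.full w J).P fun _ σ => ind (¬ Tp d r (P.s J) w σ) := by
    refine ED_mono_deg hw fun w J hw' => ?_
    have hk : (P.full w J).cas.Ok := (hpar _ _ _).ok (by omega)
    by_cases h : Typ d C c (sm 300 d) P.Z P.A w J
    · have : 1 ≤ (P.full w J).P fun _ σ => ind (¬ Tp d r (P.s J) w σ) :=
        Cas.const_le_P hk fun _ σ => (ind_pos fun hp =>
          hn (core hNEG hPAR hd hev hC hr hw' h hp hq hok.2.2.2.2.1 hZ hN')).ge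
      linarith [ind_nonneg (¬ Typ d C c (sm 300 d) P.Z P.A w J)]
    · rw [ind_pos h]
      have : 0 ≤ (P.full w J).P fun _ σ => ind (¬ Tp d r (P.s J) w σ) :=
        Cas.P_nonneg hk fun _ _ => ind_nonneg _
      linarith
  rw [ED_const, ED_add] at key
  have h3 : (ED w0 fun w J => ind (¬ Typ d C c (sm 300 d) P.Z P.A w J)) ≤ sm 300 d := hty
  have h4 : (ED w0 fun w J => (P.full w J).P fun _ σ => ind (¬ Tp d r (P.s J) w σ))
      ≤ sm 300 d := htp
  linarith

end Pool.Agent.MP_32a90a_pr.D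

end

section

set_option autoImplicit false

namespace Pool.Agent.MP_32a90a_pr.D

open Finset Equiv Filter Pool.Agent.MP_32a90a_pr Pool.Agent.MP_32a90a_pr.L

namespace SymCavJ

variable {V E : Type} [DecidableEq V]

lemma flp_ne (σ : V → Bool) {v u : V} (h : u ≠ v) : flp σ {v} u = σ u := by simp [flp, h]

lemma flp_self (σ : V → Bool) (v : V) : flp σ {v} v = !σ v := by simp [flp]

lemma sl_flp (s : E → ℝ) (w : E × Bool → V) (v : V) (σ : V → Bool) (i : E) :
    sl (cavS s w v) w (flp σ {v}) i = sl (cavS s w v) w σ i := by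
  unfold sl cavS
  split_ifs with h
  · simp
  · rw [not_or] at h
    rw [Y1, Y1, flp_ne σ h.1, flp_ne σ h.2]

end SymCavJ

open SymCavJ in
theorem stSymCav : StSymCav := by
  intro V E _ _ _ _ _ P w J v hG
  refine ⟨fun σ => funext fun u => ?_, fun σ => flp_self σ v, fun g σ => ?_, fun a σ => ?_⟩
  · by_cases h : u = v <;> simp [flp, h]
  · refine congrArg₂ (· + ·) (sum_congr rfl fun i _ => sl_flp _ w v σ i)
      (sum_congr rfl fun u hu => ?_)
    simp only [loc, sl_flp, flp_ne σ (ne_of_mem_erase hu)]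
  · exact flp_ne σ fun h => (hG a h).1 (mem_product.1 a.2).1

end Pool.Agent.MP_32a90a_pr.D

end

section

set_option autoImplicit false

namespace Pool.Agent.MP_32a90a_pr.D

open Finset Equiv Filter Pool.Agent.MP_32a90a_pr Pool.Agent.MP_32a90a_pr.L

namespace VXJ

lemma split {A : Type} [Fintype A] {d : ℕ} (f : (Fin d → A × Bool) → ℝ) :
    avg f = avg fun u : Fin d → A => avg fun J : Fin d → Bool => f fun i => (u i, J i) := by
  rw [← avg_equiv (Equiv.arrowProdEquivProdArrow (Fin d) (fun _ => A) fun _ => Bool).symm f,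
    avg_prod]
  rfl

lemma pair {A : Type} [Fintype A] [Nonempty A] {d : ℕ} (i j : Fin d) :
    (avg fun u : Fin d → A => ind (i ≠ j ∧ u i = u j)) ≤ 1 / Fintype.card A := by
  classical
  by_cases h : i = j
  · simp only [h, ne_eq, not_true_eq_false, false_and, ind_neg not_false, avg_zero]
    positivity
  · rw [avg_update i]
    refine avg_le_const (by positivity) fun u => le_of_eq ?_
    simp only [Function.update_self, Function.update_of_ne (Ne.symm h)]
    simp [avg, ind, h]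

lemma noninj {A : Type} [Fintype A] [Nonempty A] (d : ℕ) :
    (avg fun u : Fin d → A => ind (¬ Function.Injective u)) ≤ (d : ℝ) ^ 2 / Fintype.card A := by
  have h1 : ∀ u : Fin d → A, ind (¬ Function.Injective u) ≤
      ∑ x : Fin d × Fin d, ind (x.1 ≠ x.2 ∧ u x.1 = u x.2) := by
    intro u
    by_cases h : Function.Injective u
    · rw [ind_neg (not_not.2 h)]
      exact sum_nonneg fun _ _ => ind_nonneg _
    · rw [ind_pos h]
      obtain ⟨i, j, h2, h3⟩ := Function.not_injective_iff.1 h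
      refine le_trans (ind_pos (P := (i, j).1 ≠ (i, j).2 ∧ u (i, j).1 = u (i, j).2) ⟨h3, h2⟩).ge
        (single_le_sum (f := fun x : Fin d × Fin d => ind (x.1 ≠ x.2 ∧ u x.1 = u x.2))
          (fun _ _ => ind_nonneg _) (mem_univ (i, j)))
  refine (avg_mono h1).trans ?_
  rw [avg_sum]
  refine (sum_le_sum fun x _ => pair x.1 x.2).trans_eq ?_
  rw [sum_const, card_univ, Fintype.card_prod, Fintype.card_fin, nsmul_eq_mul]
  push_cast
  ring

end VXJ

theorem stVX (hXV : StXV) (hXVval : StXVval) : StVX := by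
  intro V E _ _ _ _ _ w0 d U v pos G F hw hpos hU hG hGG hF
  obtain ⟨i0, hi0⟩ := hU
  have : Nonempty (cav U) := ⟨⟨(i0, true), by simp [cav, hi0]⟩⟩
  have e0 : ∀ w, ind (Gd U w v) * ind (G w) = ind (G w) := fun w => by
    rw [← ind_and]
    exact ind_congr ⟨fun h => h.2, fun h => ⟨hG w h, h⟩⟩
  have h1 : ∀ u : Fin d → cav U, Function.Injective u →
      (ED w0 fun w J => ind (G w) * avg fun J' : Fin d → Bool =>
        F (xv w (pos w) fun i => (u i : E × Bool)) (xj J (pos w) J')) =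
      ED w0 fun w J => ind (G w) * F w J := by
    intro u hu
    have hu' : Function.Injective fun i => (u i : E × Bool) := Subtype.val_injective.comp hu
    have h2 := hXV V E w0 d U v pos _ (fun w J => ind (G w) * F w J) hw hpos hu' fun i => (u i).2
    simp only [← mul_assoc, e0] at h2
    rw [h2]
    refine ED_congr_deg hw fun w J hd => ?_
    by_cases hg : Gd U w v
    · have h3 := (hXVval V E w d U v (pos w) _ J (fun _ => true) hd hg (hpos.1 w hd).1
        (hpos.1 w hd).2 hu' fun i => (u i).2).2.1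
      rw [avg_mul, ind_pos hg, one_mul,
        ind_congr ⟨hGG _ _ h3, hGG _ _ fun t => (h3 t).symm⟩]
    · rw [ind_neg hg, ind_neg fun h => hg (hG w h), zero_mul, zero_mul]
  have h2 : (ED w0 fun w J => ind (G w) *
        avg fun ω : Fin d → (cav U) × Bool => ind (Function.Injective (uu ω)) *
          F (xv w (pos w) fun i => ((ω i).1 : E × Bool)) (xj J (pos w) fun i => (ω i).2)) =
      avg fun u : Fin d → cav U => ind (Function.Injective u) *
        ED w0 fun w J => ind (G w) * F w J := by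
    have h3 : ∀ u : Fin d → cav U, ind (Function.Injective u) *
        (ED w0 fun w J => ind (G w) * F w J) = ED w0 fun w J => ind (Function.Injective u) *
          (ind (G w) * avg fun J' : Fin d → Bool =>
            F (xv w (pos w) fun i => (u i : E × Bool)) (xj J (pos w) J')) := by
      intro u
      rw [ED_mul]
      by_cases hu : Function.Injective u
      · rw [h1 u hu]
      · rw [ind_neg hu, zero_mul, zero_mul]
    simp only [h3]
    rw [← ED_avg]
    congr 1
    funext w J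
    rw [VXJ.split, ← avg_mul]
    refine avg_congr fun u => ?_
    rw [mul_left_comm, ← avg_mul (ind (Function.Injective u))]
    rfl
  have h3 : |ED w0 fun w J => ind (G w) * F w J| ≤ 1 := by
    have h4 : ∀ w J, |ind (G w) * F w J| ≤ 1 := fun w J => by
      rw [abs_mul, abs_of_nonneg (ind_nonneg _)]
      exact mul_le_one₀ (ind_le_one _) (abs_nonneg _) (hF w J)
    exact abs_le.2 ⟨const_le_ED fun w J => (abs_le.1 (h4 w J)).1,
      ED_le_const fun w J => (abs_le.1 (h4 w J)).2⟩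
  have h4 := VXJ.noninj (A := cav U) d
  have h5 : 0 ≤ avg fun u : Fin d → cav U => ind (¬ Function.Injective u) :=
    avg_nonneg fun _ => ind_nonneg _
  simp only [ind_not] at h4 h5
  rw [avg_sub, avg_const] at h4 h5
  rw [h2, avg_mul_right, ← one_sub_mul, abs_mul, abs_of_nonneg h5]
  exact (mul_le_of_le_one_right h5 h3).trans h4

end Pool.Agent.MP_32a90a_pr.D

end

section

set_option autoImplicit false

namespace Pool.Agent.MP_32a90a_pr.D

open Finset Equiv Filter Pool.Agent.MP_32a90a_pr Pool.Agent.MP_32a90a_pr.L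

namespace ELamL

lemma log_sq {κ : ℝ} (h : 0 < κ) : ∀ᶠ d : ℕ in atTop, ell d ^ 2 ≤ κ * Real.sqrt d := by
  have h1 := (isLittleO_log_rpow_rpow_atTop 2 (s := 1 / 2) (by norm_num)).bound h
  filter_upwards [tendsto_natCast_atTop_atTop.eventually h1] with d hd
  rw [Real.rpow_two, ← Real.sqrt_eq_rpow, Real.norm_of_nonneg (sq_nonneg _),
    Real.norm_of_nonneg (Real.sqrt_nonneg _)] at hd
  exact hd

end ELamL

theorem stLamL (ht : StTyp) (h1 : StNO1) (h2 : StSoftU) (h3 : StSoftL) : StLamL := by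
  obtain ⟨C, c, hC, hc, ht⟩ := ht
  obtain ⟨C1, hC1, h1⟩ := h1
  obtain ⟨c3, hc3, h3⟩ := h3
  obtain ⟨c1, p1, p2, p3⟩ : ∃ c1 : ℝ, 0 < c1 ∧ c1 ≤ 1 ∧ C * c1 ≤ c3 / 4 :=
    ⟨min 1 (c3 / (4 * C)), lt_min one_pos (by positivity), min_le_left _ _, by
      have := mul_le_mul_of_nonneg_left (min_le_right 1 (c3 / (4 * C))) (by linarith : 0 ≤ C)
      refine this.trans_eq ?_
      field_simp⟩
  refine ⟨c3 * c1 ^ 2, by positivity, ?_⟩
  filter_upwards [h2 C c C1 hC hc ht h1, h3, eventually_ge_atTop 3,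
    ELamL.log_sq (κ := c1 / (16 + C1)) (by positivity)] with d h2 ⟨ε, hε, h3⟩ hd h4
  have l1 : 1 ≤ ell d := one_le_log hd
  have d1 : (1 : ℝ) ≤ d := by exact_mod_cast (by omega : 1 ≤ d)
  have s1 : 1 ≤ Real.sqrt d := Real.one_le_sqrt.2 d1
  have s2 : Real.sqrt d ^ 2 = d := Real.sq_sqrt (by linarith)
  obtain ⟨s, hs⟩ : ∃ s, s = Real.sqrt d := ⟨_, rfl⟩
  obtain ⟨l, hl⟩ : ∃ l, l = ell d := ⟨_, rfl⟩
  simp only [← hs, ← hl] at *
  have u0 : 0 < c3 * c1 / l := by positivity
  refine ⟨ε, hε, ((h2 (c3 * c1 / l / 8) (by positivity)).and h3).mono ?_⟩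
  intro V E _ _ _ _ w0 _ ⟨k2, k3⟩ P c' cp hP hβ hA
  by_contra hn
  rw [not_le] at hn
  have a1 : (16 + C1) * l ≤ c1 * s / l := by
    rw [div_mul_eq_mul_div, le_div_iff₀ (by positivity)] at h4
    rw [le_div_iff₀ (by positivity)]
    nlinarith
  have a2 : c1 * s / l ≤ s := by
    rw [div_le_iff₀ (by positivity)]
    nlinarith
  have a3 : 16 ≤ c1 * s / l := by nlinarith
  have a4 : C1 * l ^ 3 ≤ (c1 * s / l) ^ 3 := by
    refine le_trans ?_ (pow_le_pow_left₀ (by positivity) a1 3)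
    rw [mul_pow]
    refine mul_le_mul_of_nonneg_right ?_ (by positivity)
    exact le_trans (by linarith) (le_self_pow₀ (by linarith) three_ne_zero)
  have b2 := k2 P _ hP.1 hβ hA (by linarith) (by nlinarith) a4
  have b3 := k3 P c' cp _ hP hβ hA a3 (s2 ▸ pow_le_pow_left₀ (by positivity) a2 2) (by
    refine (mul_le_mul_of_nonneg_right hn.le (by linarith)).trans_eq ?_
    field_simp)
  have e1 : c3 * (c1 * s / l) / (2 * s) = c3 * c1 / l / 2 := by field_simp
  have e2 : C * (c1 * s / l) ^ 2 * l / d = C * c1 * (c1 / l) := by rw [← s2]; field_simp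
  have e3 := mul_le_mul_of_nonneg_right p3 (by positivity : 0 ≤ c1 / l)
  have e4 : c3 / 4 * (c1 / l) = c3 * c1 / l / 4 := by ring
  linarith

end Pool.Agent.MP_32a90a_pr.D

end

section

set_option autoImplicit false

namespace Pool.Agent.MP_32a90a_pr.D

open Finset Equiv Filter Pool.Agent.MP_32a90a_pr Pool.Agent.MP_32a90a_pr.L

noncomputable section

namespace EStepH

variable {V E : Type} [Fintype V] [DecidableEq V] [Fintype E] [DecidableEq E]

/-- the gain of the extra slot -/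
def gn (P : Pk V E) (v : V) (w : E × Bool → V) (J : E → Bool) : ℝ :=
  ind (P.Gv w v) * (P.XT P.A w (Function.update J P.e true) v
    - P.XT P.A w (Function.update J P.e false) v)

/-- the gain of an ideal edge -/
def dl {Sg G0 A : Type} [Fintype Sg] [Fintype G0] [Fintype A] [DecidableEq A] (S : Sys Sg G0 A)
    (a a' : A) : ℝ :=
  Real.log (S.add (S.De a a' true)).N - Real.log (S.add (S.De a a' false)).N

omit [Fintype E] in
lemma cp_ins (U A : Finset E) (e : E) (J : E → Bool) :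
    cp U (insert e A) ∅ J = cp U A ∅ (Function.update J e false) := by
  funext i
  by_cases h : i = e
  · subst h
    simp [cp, sgn]
  · simp [cp, h]

lemma step0 (P : Pk V E) (v : V) (w : E × Bool → V) (J : E → Bool) :
    ind (Gd P.U w v) * (P.XT P.A w J v - P.XT (insert P.e P.A) w J v)
      = ind (P.Gv w v) * (P.XT P.A w J v - P.XT P.A w (Function.update J P.e false) v) := by
  have e : P.XT (insert P.e P.A) w J v = P.XT P.A w (Function.update J P.e false) v := by
    rw [Pk.XT, Pk.XT, Pk.cavT, Pk.cavT, cp_ins]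
  rw [e]
  by_cases h1 : P.Gv w v
  · rw [ind_pos h1, ind_pos (P := Gd P.U w v) fun p hp =>
      ⟨fun h => (h1 p hp).1 (mem_insert_of_mem h), (h1 p hp).2⟩]
  by_cases h2 : Gd P.U w v
  · have h3 : w (P.e, false) = v ∨ w (P.e, true) = v := by
      by_contra h4
      refine h1 fun p hp => ⟨fun h5 => ?_, (h2 p hp).2⟩
      rcases mem_insert.1 h5 with h6 | h6
      · obtain ⟨i, b⟩ := p
        obtain rfl : i = P.e := h6
        cases b
        · exact h4 (Or.inl hp)
        · exact h4 (Or.inr hp)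
      · exact (h2 p hp).1 h6
    have e2 : cavS (cp P.U P.A ∅ J) w v
        = cavS (cp P.U P.A ∅ (Function.update J P.e false)) w v := by
      funext i
      by_cases h : i = P.e
      · subst h
        simp [cavS, h3]
      · simp [cavS, cp, h]
    rw [Pk.XT, Pk.XT, Pk.cavT, Pk.cavT, e2, sub_self, mul_zero, mul_zero]
  · rw [ind_neg h1, ind_neg h2]

lemma step1 (hxe : StXE) (P : Pk V E) (w0 : E × Bool → V) (v : V) :
    2 * (ED w0 fun w J => ind (Gd P.U w v) * (P.XT P.A w J v - P.XT (insert P.e P.A) w J v))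
      = ED w0 (gn P v) := by
  simp only [step0]
  rw [hxe V E w0 _ 1 P.e, ← ED_mul]
  congr 1
  funext w J
  simp only [avg_bool, Function.update_idem, Perm.coe_one, Function.comp_id, gn]
  ring

lemma step2 (hxe : StXE) (P : Pk V E) (w0 : E × Bool → V) (v : V) (τ : Perm (E × Bool)) :
    ED w0 (gn P v) = ED w0 fun w J => gn P v (w ∘ τ) J := by
  rw [hxe V E w0 _ τ P.e]
  congr 1
  funext w J
  simp only [avg_bool, Function.update_idem, gn]
  ring

lemma dl_bd (hb : StBd) {Sg G0 A : Type} [Fintype Sg] [Nonempty Sg] [Fintype G0] [Fintype A]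
    [DecidableEq A] (S : Sys Sg G0 A) (h : S.cas.Ok) (a a' : A) : |dl S a a'| ≤ 2 * S.y := by
  have k : ∀ b, |Real.log (S.add (S.De a a' b)).N - Real.log S.N| ≤ S.y := fun b => by
    have := (hb Sg (Gam G0 A) S.cas (fun g σ => S.De a a' b g.1 σ) 1 h fun _ _ _ => by
      simp [Sys.De, abs_mul]).2.2.1
    rw [← Sys.cas_add, mul_one] at this
    exact this
  have k1 := abs_le.1 (k true)
  have k2 := abs_le.1 (k false)
  rw [dl, abs_le]
  constructor <;> linarith [k1.1, k1.2, k2.1, k2.2]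

lemma step3 [Nonempty V] (hx : StNearX) (hn : StNear) {d : ℕ} {P : Pk V E} (ho : P.Ok d)
    (hl : P.Lg d) (v : V) {a a' : cav P.U} (ha : a ≠ a') (w : E × Bool → V) (J : E → Bool) :
    ind (P.Gv w v) * dl (P.cavi w J v) a a'
      ≤ gn P v (w ∘ ex P.e a a') J + 2 * (P.y * dlq d + 4 * P.ρ) := by
  obtain ⟨h1, h2⟩ := hx V E d P w v a a' ho
  have hp : (P.cavi w J v).Par d := hl.2.1 _ _ _
  have hy : 0 ≤ P.y := mul_nonneg (zero_le_one.trans hp.1) hp.2.1.le
  have hρ : 0 < P.ρ := hp.2.2.2.2.1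
  have hq : 0 ≤ dlq d := by unfold dlq; positivity
  rw [gn, ind_congr h1]
  by_cases hg : P.Gv w v
  · have hc : ({a, a'} : Finset (cav P.U)).card = 2 := card_pair ha
    have k : ∀ b, |P.XT P.A (w ∘ ex P.e a a') (Function.update J P.e b) v
        - Real.log ((P.cavi w J v).add ((P.cavi w J v).De a a' b)).N|
          ≤ P.y * dlq d + 4 * P.ρ := fun b => by
      have := (hn _ _ _ (P.cavi w J v) d _ _ _ _ hl.1 hp (h2 J b hg ha) (by omega)).1
      rw [hc] at this
      refine this.trans (le_of_eq ?_)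
      change P.y * dlq d + 2 * P.ρ * ((2 : ℕ) : ℝ) = _
      push_cast
      ring
    have k1 := abs_le.1 (k true)
    have k2 := abs_le.1 (k false)
    rw [ind_pos hg, one_mul, one_mul, dl]
    linarith [k1.1, k1.2, k2.1, k2.2]
  · rw [ind_neg hg, zero_mul, zero_mul, zero_add]
    positivity

lemma avg_diag {A : Type} [Fintype A] [Nonempty A] :
    (avg fun a : A => avg fun a' : A => ind (a = a')) = 1 / Fintype.card A := by
  classical
  have : ∀ a : A, (avg fun a' : A => ind (a = a')) = 1 / Fintype.card A := fun a => by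
    have e : ∑ a' : A, ind (a = a') = 1 := by simp [ind]
    rw [avg, e]
  simp only [this, avg_const]

end EStepH

open EStepH in
theorem stStepH (hx : StNearX) (hn : StNear) (hb : StBd) (hxe : StXE) : StStepH := by
  intro V E _ _ _ _ _ d P w0 v ho hl hc
  have hd : 3 ≤ d := le_trans (by norm_num) hl.1
  have hq0 : 0 < qq d := Real.exp_pos _
  have hs : sm 300 d ≤ 1 / 4 := by
    refine (sm_le_inv (by norm_num) hd).trans (one_div_le_one_div_of_le (by norm_num) ?_)
    have : (3 : ℝ) ≤ d := by exact_mod_cast hd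
    linarith
  have hq1 : qq d ≤ 1 / 4 := hl.2.2.2.2.2.2.1.trans hs
  have hq2 : qq d ^ 2 ≤ 1 / 16 := by nlinarith
  have hA : (1 : ℝ) < Fintype.card (cav P.U) := by
    by_contra h
    push Not at h
    nlinarith [sq_nonneg (qq d)]
  have hA' : 1 < Fintype.card (cav P.U) := by exact_mod_cast hA
  have : Nonempty (cav P.U) := Fintype.card_pos_iff.1 (by omega)
  have hp : ∀ w J, (P.cavi w J v).Par d := fun w J => hl.2.1 _ _ _
  have hβ : 1 ≤ P.β := ho.2.2.2.2.2.1
  have hx0 : 0 < P.x := lt_of_lt_of_le (by positivity) ho.2.2.2.2.2.2.2.1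
  have hx1 : P.x ≤ qq d ^ 4 := ho.2.2.2.2.2.2.2.2.1
  have hy1 : P.y ≤ 1 / 10 ^ 11 := ho.2.2.2.2.2.2.2.2.2.1
  have hρ : P.ρ = qq d ^ 2 := ho.2.2.2.2.2.2.2.2.2.2.1
  have hy0 : 0 ≤ P.y := mul_nonneg (zero_le_one.trans hβ) hx0.le
  have hdl : P.y * dlq d ≤ qq d ^ 2 / 4 := by
    have h1 : P.β * dlq d ≤ 1 / 4 := hl.2.2.2.2.1.trans hs
    have h2 : P.x ≤ qq d ^ 2 := by nlinarith [sq_nonneg (qq d)]
    calc P.y * dlq d = P.x * (P.β * dlq d) := by rw [Pk.y]; ring
      _ ≤ P.x * (1 / 4) := mul_le_mul_of_nonneg_left h1 hx0.le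
      _ ≤ qq d ^ 2 / 4 := by linarith
  rw [step1 hxe]
  set M := ED w0 (gn P v) + 2 * (P.y * dlq d + 4 * P.ρ) with hM
  have hbd : ∀ a a' w J, |ind (P.Gv w v) * dl (P.cavi w J v) a a'| ≤ 2 * P.y := fun a a' w J => by
    have h1 : |dl (P.cavi w J v) a a'| ≤ 2 * P.y := dl_bd hb _ ((hp w J).ok hd) a a'
    rw [abs_mul, abs_of_nonneg (ind_nonneg _)]
    nlinarith [ind_nonneg (P.Gv w v), ind_le_one (P.Gv w v), abs_nonneg (dl (P.cavi w J v) a a')]
  have hne : ∀ a a' : cav P.U, a ≠ a' →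
      (ED w0 fun w J => ind (P.Gv w v) * dl (P.cavi w J v) a a') ≤ M := fun a a' ha => by
    rw [hM, step2 hxe P w0 v (ex P.e a a'), ← ED_const (w0 := w0) (2 * (P.y * dlq d + 4 * P.ρ)),
      ← ED_add]
    exact ED_mono fun w J => step3 hx hn ho hl v ha w J
  have hM0 : -(2 * P.y) ≤ M := by
    obtain ⟨a, a', ha⟩ := Fintype.exists_pair_of_one_lt_card hA'
    exact (const_le_ED fun w J => (abs_le.1 (hbd a a' w J)).1).trans (hne a a' ha)
  have hall : ∀ a a' : cav P.U, (ED w0 fun w J => ind (P.Gv w v) * dl (P.cavi w J v) a a')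
      ≤ M + 4 * P.y * ind (a = a') := fun a a' => by
    by_cases ha : a = a'
    · have := ED_le_const (w0 := w0) fun w J => (abs_le.1 (hbd a a' w J)).2
      rw [ind_pos ha]
      linarith
    · rw [ind_neg ha, mul_zero, add_zero]
      exact hne a a' ha
  have e : (ED w0 fun w J => ind (P.Gv w v) * (P.cavi w J v).dH)
      = avg fun a : cav P.U => avg fun a' : cav P.U =>
        ED w0 fun w J => ind (P.Gv w v) * dl (P.cavi w J v) a a' := by
    simp only [← ED_avg, avg_mul]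
    rfl
  have h5 := avg_mono fun a => avg_mono (hall a)
  simp only [avg_add, avg_const, avg_mul, avg_diag] at h5
  have h6 : 1 / (Fintype.card (cav P.U) : ℝ) ≤ qq d ^ 2 := by
    rw [div_le_iff₀ (by linarith)]
    exact hc
  have h7 : 4 * P.y * (1 / (Fintype.card (cav P.U) : ℝ)) ≤ qq d ^ 2 := by
    have : 4 * P.y ≤ 1 := by linarith [show (1 : ℝ) / 10 ^ 11 ≤ 1 / 4 by norm_num]
    have h8 : (0 : ℝ) ≤ 1 / (Fintype.card (cav P.U) : ℝ) := by positivity
    nlinarith
  rw [e]
  rw [hM, hρ] at h5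
  nlinarith [sq_nonneg (qq d)]

end

end Pool.Agent.MP_32a90a_pr.D

end

section

set_option autoImplicit false

namespace Pool.Agent.MP_32a90a_pr.D.FAll

theorem aDevN : StDevN := stDevN
theorem aEM : StEM := stEM
theorem aEX : StEX := stEX GAll.xe
theorem aGrif : StGrif := stGrif CAll.aTilt ZAll.bConc
theorem aInsCav : StInsCav := stInsCav GAll.xvval
theorem aJm : StJm := stJm
theorem aJoinCut : StJoinCut := stJoinCut
theorem aKtJ : StKtJ := stKtJ FAll.aJoinCut SAll.aNear SAll.aStab CAll.aBd CAll.aMinor SAll.aExc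
theorem aL2num : StL2num := stL2num
theorem aLow : StLow := stLow
theorem aNearCut : StNearCut := stNearCut
theorem aNearSw : StNearSw := stNearSw
theorem aNearX : StNearX := stNearX
theorem aObs : StObs := stObs
theorem aOkG : StOkG := stOkG
theorem aPair : StPair := stPair GAll.cl
theorem aPar : StPar := stPar
theorem aPur : StPur := stPur CAll.aPure FAll.aOkG
theorem aRF : StRF := stRF FAll.aPar GAll.neg GAll.par
theorem aRb : StRb := stRb
theorem aRigD : StRigD := stRigD SAll.aRig SAll.aStab FAll.aNearCut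
theorem aSig : StSig :=
  stSig FAll.aPar FAll.aEX FAll.aJoinCut SAll.aET2
    SAll.aStab CAll.aStabV CAll.aOver FAll.aNearCut CAll.aTower
theorem aSmall : StSmall := stSmall GAll.par
theorem aSoft : StSoft := stSoft GAll.flip GAll.neg CAll.aOver
theorem aSoftU : StSoftU := stSoftU FAll.aPar FAll.aOkG
theorem aStepH : StStepH := stStepH FAll.aNearX SAll.aNear CAll.aBd GAll.xe
theorem aSymCav : StSymCav := stSymCav
theorem aTin : StTin := stTin CAll.aOver
theorem aTopCnt : StTopCnt := stTopCnt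
theorem aTopUp : StTopUp := stTopUp FAll.aTin
theorem aVX : StVX := stVX GAll.xv GAll.xvval
theorem aWid : StWid := stWid SAll.aStab CAll.aStabV CAll.aOver CAll.aTower
theorem aXT : StXT := stXT CAll.aFix FAll.aOkG
theorem aZA : StZA :=
  stZA FAll.aPar FAll.aRigD SAll.aD1 FAll.aNearCut FAll.aJoinCut
    SAll.aStab FAll.aWid SAll.aETb FAll.aEX CAll.aTower
theorem aCmp : StCmp := stCmp CAll.aFix FAll.aOkG
theorem aDiam : StDiam := stDiam FAll.aPar CAll.aOver CAll.aTower
theorem aEnd : StEnd := stEnd FAll.aXT GAll.g9a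
theorem aFinB : StFinB := stFinB CAll.aTilt CAll.aFix FAll.aOkG
theorem aFlexLo : StFlexLo :=
  stFlexLo FAll.aPar FAll.aRigD SAll.aD1 FAll.aNearCut FAll.aJoinCut SAll.aStab
    FAll.aWid FAll.aEX CAll.aTower SAll.aSv SAll.aNear CAll.aBd CAll.aMinor
theorem aFlexUp : StFlexUp := stFlexUp FAll.aPar FAll.aPair FAll.aDiam GAll.par
theorem aFree : StFree := stFree FAll.aPar GAll.indep GAll.flip GAll.par ZAll.bConc
theorem aGridF : StGridF := stGridF CAll.aGrid CAll.aTilt CAll.aBd FAll.aObs FAll.aOkG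
theorem aGroup : StGroup := stGroup FAll.aTin FAll.aEM
theorem aGwP : StGwP := stGwP FAll.aPar GAll.g9a GAll.g9b
theorem aKtL : StKtL := stKtL FAll.aKtJ FAll.aEX FAll.aRigD SAll.aD1 FAll.aJoinCut FAll.aPar
theorem aLipN : StLipN := stLipN CAll.aBd FAll.aOkG
theorem aMagL : StMagL :=
  stMagL SAll.aVT4 FAll.aVX FAll.aInsCav FAll.aSymCav FAll.aGwP FAll.aPar GAll.pos
theorem aNO : StNO := stNO CAll.aFix FAll.aOkG
theorem aNO1 : StNO1 := stNO1 ZAll.bB1w CAll.aFix FAll.aPar FAll.aOkG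
theorem aRegP : StRegP := stRegP FAll.aPar GAll.g4 FAll.aSig CAll.aTower
theorem aSoftL : StSoftL :=
  stSoftL SAll.aVT3 FAll.aVX FAll.aInsCav FAll.aSymCav
    FAll.aRigD SAll.aD1 FAll.aGwP FAll.aPar GAll.pos
theorem aTel : StTel := stTel FAll.aStepH FAll.aEnd FAll.aPar SAll.aSer
theorem aTopCls : StTopCls := stTopCls FAll.aGroup FAll.aSoft FAll.aSmall
theorem aTopSw : StTopSw := stTopSw GAll.xs FAll.aNearSw SAll.aSw SAll.aStab FAll.aWid CAll.aTower
theorem aWide : StWide := stWide FAll.aRegP FAll.aSoft FAll.aSmall FAll.aGroup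
theorem aBadUp : StBadUp :=
  stBadUp FAll.aPar GAll.pos FAll.aVX FAll.aInsCav FAll.aSymCav SAll.aVT2
    FAll.aRigD FAll.aWid CAll.aOver CAll.aTower FAll.aGwP GAll.par
theorem aDesc : StDesc :=
  stDesc FAll.aPar FAll.aVX GAll.pos FAll.aInsCav FAll.aSymCav
    SAll.aVT1 FAll.aRigD SAll.aD1 FAll.aGwP SAll.aHK SAll.aSer
theorem aDev : StDev := stDev FAll.aGrif FAll.aObs FAll.aOkG FAll.aLipN
theorem aGK : StGK := stGK FAll.aGridF FAll.aDev FAll.aDevN FAll.aOkG
theorem aGR : StGR := stGR FAll.aGridF FAll.aDev FAll.aDevN FAll.aCmp FAll.aOkG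
theorem aL2 : StL2 := stL2 FAll.aPar FAll.aZA FAll.aFlexLo FAll.aBadUp FAll.aFlexUp FAll.aL2num
theorem aLamL : StLamL := stLamL GAll.typ FAll.aNO1 FAll.aSoftU FAll.aSoftL
theorem aTop : StTop := stTop FAll.aPar FAll.aRegP FAll.aTopCls FAll.aTopCnt FAll.aTopSw FAll.aTopUp
theorem aB3 : StB3 := stB3_of FAll.aJm FAll.aGK FAll.aLamL FAll.aKtL FAll.aMagL FAll.aFinB
theorem aEns : StEns :=
  stEns_of FAll.aJm FAll.aGK FAll.aGR FAll.aNO FAll.aPur FAll.aTel FAll.aOkG FAll.aDevN
theorem aScan : StScan := stScan FAll.aTop FAll.aL2 FAll.aDesc FAll.aRb FAll.aWide FAll.aLow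
theorem aPhi : StPhi := stPhi GAll.typ FAll.aEns FAll.aRF FAll.aScan FAll.aFree

end Pool.Agent.MP_32a90a_pr.D.FAll

end
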