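import Pool.Agent.Mg.F32a90ap.G946f23

section

set_option autoImplicit false

namespace Pool.Agent.MP_32a90a_pr.L

open Finset Equiv

namespace JGauge3

variable {V E : Type} [Fintype V] [DecidableEq V] [Fintype E] [DecidableEq E]

/-- gauge transformation of a configuration -/
def g (τ x : V → Bool) : V → Bool := fun v => τ v == x v

/-- gauge transformation of a triple -/
def g3 (τ : V → Bool) (ω : T3 V) : T3 V := (g τ ω.1, g τ ω.2.1, g τ ω.2.2)

/-- gauge transformation of the couplings -/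
def gJ (w : E × Bool → V) (τ : V → Bool) (J : E → Bool) : E → Bool :=
  fun i => J i == (τ (w (i, false)) == τ (w (i, true)))

theorem sgn_beq (a b : Bool) : sgn (a == b) = sgn a * sgn b := by
  cases a <;> cases b <;> simp [sgn]

theorem sgn_sq (a : Bool) : sgn a * sgn a = 1 := by cases a <;> simp [sgn]

theorem sgn_abs (a : Bool) : |sgn a| = 1 := by cases a <;> simp [sgn]

omit [Fintype V] [DecidableEq V] in
theorem g_g (τ x : V → Bool) : g τ (g τ x) = x := by
  funext v
  simp only [g]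
  cases τ v <;> cases x v <;> rfl

omit [Fintype V] [DecidableEq V] in
theorem g3_g3 (τ : V → Bool) : Function.Involutive (g3 τ) := fun ω => by
  simp only [g3, g_g]

omit [Fintype V] [DecidableEq V] [Fintype E] [DecidableEq E] in
theorem gJ_gJ (w : E × Bool → V) (τ : V → Bool) : Function.Involutive (gJ w τ) := fun J => by
  funext i
  simp only [gJ]
  cases J i <;> cases (τ (w (i, false)) == τ (w (i, true))) <;> rfl

omit [Fintype V] [DecidableEq V] in
theorem bw_gJ (w : E × Bool → V) (U : Finset E) (β : ℝ) (τ : V → Bool) (J : E → Bool)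
    (ω : T3 V) : bw Y3 β (patt U (gJ w τ J)) w ω = bw Y3 β (patt U J) w (g3 τ ω) := by
  unfold bw en
  congr 2
  refine sum_congr rfl fun i _ => ?_
  simp only [patt, gJ, Y3, Y1, g3, g, sgn_beq]
  split_ifs <;> ring

omit [Fintype V] [DecidableEq V] [DecidableEq E] in
theorem bw3 (w : E × Bool → V) (s : E → ℝ) (β : ℝ) (ω : T3 V) :
    bw Y3 β s w ω = bw Y1 β s w ω.1 * (bw Y1 β s w ω.2.1 * bw Y1 β s w ω.2.2) := by
  unfold bw en
  rw [← Real.exp_add, ← Real.exp_add]
  congr 1
  simp only [Y3, mul_add, sum_add_distrib]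
  ring

omit [DecidableEq E] in
theorem sum_bw3 (w : E × Bool → V) (s : E → ℝ) (β : ℝ) :
    ∑ ω : T3 V, bw Y3 β s w ω = (∑ x : V → Bool, bw Y1 β s w x) ^ 3 := by
  simp only [bw3, Fintype.sum_prod_type, ← mul_sum, ← sum_mul]
  ring

theorem sum_split (D : Finset V) (f : V → ℝ) :
    ∑ v, (if v ∈ D then (1 : ℝ) else -1) * f v = 2 * ∑ v ∈ D, f v - ∑ v, f v := by
  have e : ∀ v, (if v ∈ D then (1 : ℝ) else -1) * f v = 2 * (if v ∈ D then f v else 0) - f v := by
    intro v
    split_ifs <;> ring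
  simp only [e, sum_sub_distrib, ← mul_sum, sum_ite_mem, univ_inter]

theorem count (h : StHoef) {s0 : ℝ} (hs : 0 ≤ s0) (ρ : T3 V) :
    ((univ.filter fun τ : V → Bool => g3 τ ρ ∈ Abad V s0).card : ℝ) ≤
      2 * (2 : ℝ) ^ Fintype.card V * Real.exp (-(s0 * Fintype.card V / 2)) := by
  classical
  obtain ⟨b, hb⟩ : ∃ b : Bool,
      2 * (univ.filter fun v => (ρ.1 v == ρ.2.1 v) = b).card ≤ Fintype.card V := by
    have h1 := card_filter_add_card_filter_not (s := (univ : Finset V))
      fun v => (ρ.1 v == ρ.2.1 v) = true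
    rw [card_univ] at h1
    by_cases h2 : 2 * (univ.filter fun v => (ρ.1 v == ρ.2.1 v) = true).card ≤ Fintype.card V
    · exact ⟨true, h2⟩
    · refine ⟨false, ?_⟩
      simp only [Bool.not_eq_true] at h1
      omega
  obtain ⟨D, hD⟩ : ∃ D, D = univ.filter fun v => (ρ.1 v == ρ.2.1 v) = b := ⟨_, rfl⟩
  rw [← hD] at hb
  have hb' : 2 * (D.card : ℝ) ≤ Fintype.card V := by exact_mod_cast hb
  have ho : ∀ v, sgn (ρ.1 v) * sgn (ρ.2.1 v) = sgn b * (if v ∈ D then (1 : ℝ) else -1) := by
    intro v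
    simp only [hD, mem_filter, mem_univ, true_and]
    cases ρ.1 v <;> cases ρ.2.1 v <;> cases b <;> simp [sgn]
  refine le_trans ?_ (h V D (fun v => sgn (ρ.2.2 v)) (s0 * Fintype.card V)
    (fun v => (sgn_abs _).le) (by positivity))
  refine Nat.cast_le.2 (card_le_card fun τ hτ => ?_)
  simp only [Abad, bal3, bal, mem_filter, mem_product, mem_univ, true_and] at hτ ⊢
  obtain ⟨⟨-, -, h3⟩, h4⟩ := hτ
  have hn : (0 : ℝ) < Fintype.card V := by
    rcases (Nat.cast_nonneg (α := ℝ) (Fintype.card V)).eq_or_lt with e | e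
    · simp only [aV, ← e, div_zero, abs_zero] at h4
      nlinarith
    · exact e
  have h5 : ∑ v, sgn (ρ.2.2 v) * sgn (τ v) = 0 := by
    rw [← h3]
    exact sum_congr rfl fun v _ => by simp only [g3, g, sgn_beq, mul_comm]
  have e2 : ∑ v, o2 (g3 τ ρ) v = sgn b * (2 * D.card - Fintype.card V) := by
    have := sum_split D fun _ => 1
    simp only [sum_const, nsmul_eq_mul, mul_one, card_univ] at this
    rw [← this, mul_sum]
    refine sum_congr rfl fun v _ => ?_
    rw [← ho]
    simp only [o2, g3, g, sgn_beq]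
    linear_combination (sgn (ρ.1 v) * sgn (ρ.2.1 v)) * sgn_sq (τ v)
  have e3 : ∑ v, o3 (g3 τ ρ) v = sgn b * (2 * ∑ v ∈ D, sgn (ρ.2.2 v) * sgn (τ v)) := by
    have := sum_split D fun v => sgn (ρ.2.2 v) * sgn (τ v)
    rw [h5, sub_zero] at this
    rw [← this, mul_sum]
    refine sum_congr rfl fun v _ => ?_
    rw [← mul_assoc, ← ho]
    simp only [o3, g3, g, sgn_beq]
    linear_combination (sgn (ρ.1 v) * sgn (ρ.2.1 v) * sgn (ρ.2.2 v) * sgn (τ v)) * sgn_sq (τ v)
  obtain ⟨S, hS⟩ : ∃ S, S = ∑ v ∈ D, sgn (ρ.2.2 v) * sgn (τ v) := ⟨_, rfl⟩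
  rw [← hS] at e3 ⊢
  rw [aV, aV, e2, e3, abs_div, abs_mul, sgn_abs, one_mul, abs_of_pos hn,
    abs_of_nonpos (by linarith), div_pow, mul_pow, sq (sgn b), sgn_sq, one_mul,
    lt_div_iff₀ (by positivity)] at h4
  have e4 : 2 * s0 * (1 - -(2 * (D.card : ℝ) - Fintype.card V) / Fintype.card V) *
      (Fintype.card V : ℝ) ^ 2 = 4 * (s0 * Fintype.card V * D.card) := by
    field_simp
    ring
  rw [e4] at h4
  nlinarith

theorem sumZ (h : StHoef) {s0 : ℝ} (hs : 0 ≤ s0) (w : E × Bool → V) (U : Finset E) (β : ℝ)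
    (J : E → Bool) :
    ∑ τ : V → Bool, ∑ ω ∈ Abad V s0, bw Y3 β (patt U (gJ w τ J)) w ω ≤
      (∑ x : V → Bool, bw Y1 β (patt U J) w x) ^ 3 *
        (2 * (2 : ℝ) ^ Fintype.card V * Real.exp (-(s0 * Fintype.card V / 2))) := by
  classical
  have e : ∀ τ : V → Bool, ∑ ω ∈ Abad V s0, bw Y3 β (patt U (gJ w τ J)) w ω =
      ∑ ρ : T3 V, if g3 τ ρ ∈ Abad V s0 then bw Y3 β (patt U J) w ρ else 0 := by
    intro τ
    rw [← Equiv.sum_comp (g3_g3 τ).toPerm]
    simp only [Function.Involutive.coe_toPerm, g3_g3 τ _, sum_ite_mem, univ_inter, bw_gJ]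
  simp only [e]
  rw [sum_comm, ← sum_bw3, sum_mul]
  refine sum_le_sum fun ρ _ => ?_
  rw [← sum_filter, sum_const, nsmul_eq_mul, mul_comm]
  exact mul_le_mul_of_nonneg_left (count h hs ρ) (Real.exp_pos _).le

end JGauge3

open JGauge3 in
theorem stGauge3 (h : StHoef) : StGauge3 := by
  intro V E _ _ _ _ w U β s0 hs hA
  have hN : (0 : ℝ) < (2 : ℝ) ^ Fintype.card V := by positivity
  have hcard : ((univ : Finset (V → Bool)).card : ℝ) = (2 : ℝ) ^ Fintype.card V := by
    rw [card_univ, Fintype.card_fun, Fintype.card_bool]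
    push_cast
    rfl
  have e1 : (2 : ℝ) ^ Fintype.card V * ∑ J : E → Bool, lZ (Abad V s0) Y3 β (patt U J) w =
      ∑ J : E → Bool, ∑ τ : V → Bool, lZ (Abad V s0) Y3 β (patt U (gJ w τ J)) w := by
    rw [sum_comm, ← hcard, ← nsmul_eq_mul, ← sum_const]
    exact sum_congr rfl fun τ _ =>
      (Equiv.sum_comp (gJ_gJ w τ).toPerm fun J => lZ (Abad V s0) Y3 β (patt U J) w).symm
  refine le_of_mul_le_mul_left ?_ hN
  rw [e1, mul_sum]
  refine sum_le_sum fun J _ => ?_
  have hZ : 0 < ∑ x : V → Bool, bw Y1 β (patt U J) w x :=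
    sum_pos (fun _ _ => Real.exp_pos _) univ_nonempty
  have h1 := sumZ h hs w U β J
  unfold lZ
  obtain ⟨Z, hZe⟩ : ∃ Z, Z = ∑ x : V → Bool, bw Y1 β (patt U J) w x := ⟨_, rfl⟩
  rw [← hZe] at hZ h1 ⊢
  obtain ⟨m, hm⟩ : ∃ m, m = Z ^ 3 * (2 * Real.exp (-(s0 * Fintype.card V / 2))) := ⟨_, rfl⟩
  have hm0 : 0 < m := by rw [hm]; positivity
  have hlog : Real.log m = 3 * Real.log Z - s0 * (Fintype.card V : ℝ) / 2 + Real.log 2 := by
    rw [hm, Real.log_mul (by positivity) (by positivity), Real.log_mul two_ne_zero (by positivity),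
      Real.log_pow, Real.log_exp]
    push_cast
    ring
  rw [← hlog]
  have h2 : ∀ τ : V → Bool, Real.log (∑ ω ∈ Abad V s0, bw Y3 β (patt U (gJ w τ J)) w ω) ≤
      Real.log m - 1 + (∑ ω ∈ Abad V s0, bw Y3 β (patt U (gJ w τ J)) w ω) / m := by
    intro τ
    have hp : 0 < ∑ ω ∈ Abad V s0, bw Y3 β (patt U (gJ w τ J)) w ω :=
      sum_pos (fun _ _ => Real.exp_pos _) hA
    have := Real.log_le_sub_one_of_pos (div_pos hp hm0)
    rw [Real.log_div hp.ne' hm0.ne'] at this
    linarith
  refine (sum_le_sum fun τ _ => h2 τ).trans ?_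
  rw [sum_add_distrib, sum_const, nsmul_eq_mul, hcard, ← sum_div]
  have h3 : (∑ τ : V → Bool, ∑ ω ∈ Abad V s0, bw Y3 β (patt U (gJ w τ J)) w ω) / m ≤
      (2 : ℝ) ^ Fintype.card V := by
    rw [div_le_iff₀ hm0, hm]
    exact h1.trans (le_of_eq (by ring))
  linarith

end Pool.Agent.MP_32a90a_pr.L

end

section

set_option autoImplicit false

namespace Pool.Agent.MP_32a90a_pr.L

open Finset Equiv

namespace JEM

variable {V E : Type} [Fintype V] [DecidableEq V] [Fintype E] [DecidableEq E]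

lemma card_pre_perm (π : Perm (E × Bool)) (S : Finset (E × Bool)) :
    (univ.filter fun r => π r ∈ S).card = S.card :=
  card_bij (fun r _ => π r) (by simp) (by simp)
    (fun q hq => ⟨π.symm q, by simpa using hq, by simp⟩)

lemma one_count (p : E × Bool) (S : Finset (E × Bool)) :
    Fintype.card (E × Bool) * (univ.filter fun π : Perm (E × Bool) => π p ∈ S).card
      = Fintype.card (Perm (E × Bool)) * S.card := by
  rw [resample p]
  simp only [Perm.mul_apply, swap_apply_left, card_pre_perm, sum_const, card_univ, smul_eq_mul]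

lemma two_count (p q : E × Bool) (hpq : p ≠ q) (S T : Finset (E × Bool)) (hST : Disjoint S T) :
    (univ.filter fun π : Perm (E × Bool) => π p ∈ S).card * T.card ≤ Fintype.card (E × Bool) *
      (univ.filter fun π : Perm (E × Bool) => π p ∈ S ∧ π q ∈ T).card := by
  rw [resample q, ← smul_eq_mul, ← sum_const]
  refine le_trans (sum_le_sum fun π hπ => ?_) (sum_le_sum_of_subset (filter_subset _ _))
  rw [← card_pre_perm π T]
  refine card_le_card fun r hr => ?_
  have h1 : π p ∈ S := (mem_filter.1 hπ).2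
  have h2 : π r ∈ T := (mem_filter.1 hr).2
  have h3 : p ≠ r := by
    rintro rfl
    exact disjoint_left.1 hST h1 h2
  simp only [mem_filter, mem_univ, true_and, Perm.mul_apply, swap_apply_left,
    swap_apply_of_ne_of_ne hpq h3]
  exact ⟨h1, h2⟩

omit [Fintype V] [DecidableEq E] in
lemma card_pre_eq {w : E × Bool → V} {d : ℕ} (h : Deg w d) (A : Finset V) :
    (univ.filter fun p => w p ∈ A).card = d * A.card := by
  rw [card_eq_sum_card_fiberwise (f := w) (t := A) (by intro p hp; simpa using hp), mul_comm,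
    ← smul_eq_mul, ← sum_const]
  refine sum_congr rfl fun v hv => ?_
  rw [← h v]
  congr 1
  ext p
  simp only [mem_filter, mem_univ, true_and]
  exact ⟨fun h => h.2, fun h => ⟨h ▸ hv, h⟩⟩

omit [DecidableEq E] in
lemma card_half {w : E × Bool → V} {d : ℕ} (h : Deg w d) :
    Fintype.card (E × Bool) = d * Fintype.card V := by
  have := card_pre_eq h univ
  simpa using this

omit [Fintype V] in
lemma mean_count {w0 : E × Bool → V} {d : ℕ} (h : Deg w0 d) (A B : Finset V)
    (hAB : Disjoint A B) :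
    Fintype.card E * (Fintype.card (Perm (E × Bool)) * (d * A.card) * (d * B.card)) ≤
      Fintype.card (E × Bool) ^ 2 * ∑ π : Perm (E × Bool), (slots A B (w0 ∘ π)).card := by
  have e : ∑ π : Perm (E × Bool), (slots A B (w0 ∘ π)).card =
      ∑ i : E, (univ.filter fun π : Perm (E × Bool) =>
        π (i, false) ∈ (univ.filter fun p => w0 p ∈ A) ∧
          π (i, true) ∈ (univ.filter fun p => w0 p ∈ B)).card := by
    simp only [slots, card_filter, mem_filter, mem_univ, true_and, Function.comp_apply]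
    rw [sum_comm]
  rw [e, mul_sum, ← card_univ (α := E), ← smul_eq_mul, ← sum_const]
  refine sum_le_sum fun i _ => ?_
  have hd : Disjoint (univ.filter fun p => w0 p ∈ A) (univ.filter fun p => w0 p ∈ B) := by
    rw [disjoint_left]
    intro p h1 h2
    exact disjoint_left.1 hAB (mem_filter.1 h1).2 (mem_filter.1 h2).2
  have h1 := one_count (i, false) (univ.filter fun p => w0 p ∈ A)
  have h2 := two_count (i, false) (i, true) (by simp) _ _ hd
  rw [card_pre_eq h] at h1 h2
  rw [← h1, mul_assoc, pow_two, mul_assoc]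
  exact Nat.mul_le_mul_left _ h2

omit [Fintype V] in
lemma slots_le (A B : Finset V) (w : E × Bool → V) (a b : E × Bool) :
    (slots A B (w ∘ swap a b)).card ≤ (slots A B w).card + 2 := by
  have : slots A B (w ∘ swap a b) ⊆ slots A B w ∪ {a.1, b.1} := by
    intro i hi
    by_cases h : i = a.1 ∨ i = b.1
    · exact mem_union_right _ (by simpa using h)
    · push Not at h
      have e : ∀ c, swap a b (i, c) = (i, c) := fun c =>
        swap_apply_of_ne_of_ne (fun e => h.1 (congrArg Prod.fst e))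
          (fun e => h.2 (congrArg Prod.fst e))
      refine mem_union_left _ ?_
      simpa only [slots, mem_filter, Function.comp_apply, e] using hi
  exact (card_le_card this).trans ((card_union_le _ _).trans
    (Nat.add_le_add_left card_le_two _))

omit [Fintype V] in
lemma slots_lip (A B : Finset V) (w0 : E × Bool → V) (π : Perm (E × Bool)) (a b : E × Bool) :
    |(-((slots A B (w0 ∘ (π * swap a b : Perm (E × Bool)))).card : ℝ)) -
      (-((slots A B (w0 ∘ π)).card : ℝ))| ≤ 2 := by
  have e1 : w0 ∘ (π * swap a b : Perm (E × Bool)) = (w0 ∘ π) ∘ swap a b := rfl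
  have e2 : w0 ∘ π = ((w0 ∘ π) ∘ swap a b) ∘ swap a b := by
    funext z
    simp
  have h1 := slots_le A B (w0 ∘ π) a b
  have h2 := slots_le A B ((w0 ∘ π) ∘ swap a b) a b
  rw [← e2] at h2
  rw [e1, abs_le]
  have h1' : ((slots A B ((w0 ∘ π) ∘ swap a b)).card : ℝ) ≤ (slots A B (w0 ∘ π)).card + 2 := by
    exact_mod_cast h1
  have h2' : ((slots A B (w0 ∘ π)).card : ℝ) ≤ (slots A B ((w0 ∘ π) ∘ swap a b)).card + 2 := by
    exact_mod_cast h2
  constructor <;> linarith

open Classical in
lemma tail [Nonempty E] {w0 : E × Bool → V} {d : ℕ} (h : Deg w0 d) (A B : Finset V) (a : ℕ)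
    (hA : A.card = a) (hB : B.card = a) :
    ((univ.filter fun π : Perm (E × Bool) => Disjoint A B ∧
        4 * (Fintype.card V : ℝ) * ((slots A B (w0 ∘ π)).card : ℝ) < d * (a : ℝ) ^ 2).card : ℝ)
      ≤ Fintype.card (Perm (E × Bool)) *
        Real.exp (-(d * (a : ℝ) ^ 4 / (512 * (Fintype.card V : ℝ) ^ 3))) := by
  by_cases hAB : Disjoint A B
  swap
  · simp only [hAB, false_and, filter_false, card_empty, Nat.cast_zero]
    positivity
  have hN := card_half h
  have hN0 : 0 < Fintype.card (E × Bool) := Fintype.card_pos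
  have hd : (0 : ℝ) < d := by
    have : 0 < d := Nat.pos_of_ne_zero fun e => by rw [e, zero_mul] at hN; omega
    exact_mod_cast this
  have hn : (0 : ℝ) < Fintype.card V := by
    have : 0 < Fintype.card V := Nat.pos_of_ne_zero fun e => by rw [e, mul_zero] at hN; omega
    exact_mod_cast this
  have hP : (0 : ℝ) < Fintype.card (Perm (E × Bool)) := by
    exact_mod_cast (Fintype.card_pos : 0 < Fintype.card (Perm (E × Bool)))
  have hNr : (Fintype.card (E × Bool) : ℝ) = d * Fintype.card V := by exact_mod_cast hN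
  have hE : (Fintype.card E : ℝ) = d * Fintype.card V / 2 := by
    rw [← hNr, Fintype.card_prod, Fintype.card_bool]
    push_cast
    ring
  set n : ℝ := (Fintype.card V : ℝ) with hn'
  set Q : ℝ := (Fintype.card (Perm (E × Bool)) : ℝ) with hQ
  set t : ℝ := d * (a : ℝ) ^ 2 / (4 * n) with ht
  have hm : (Fintype.card E : ℝ) * (Q * (d * a) * (d * a)) ≤
      (Fintype.card (E × Bool) : ℝ) ^ 2 *
        ∑ π : Perm (E × Bool), ((slots A B (w0 ∘ π)).card : ℝ) := by
    have := mean_count h A B hAB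
    rw [hA, hB] at this
    rw [hQ]
    exact_mod_cast this
  rw [hE, hNr] at hm
  have hmean : 2 * t ≤ (∑ π : Perm (E × Bool), ((slots A B (w0 ∘ π)).card : ℝ)) / Q := by
    rw [le_div_iff₀ hP]
    have h2 : (0 : ℝ) < (d * n) ^ 2 := by positivity
    refine le_of_mul_le_mul_left (le_trans (le_of_eq ?_) hm) h2
    rw [ht]
    field_simp
    ring
  have key := perm_tail 2 two_pos (t / (16 * (d * n))) (by positivity)
    (fun π : Perm (E × Bool) => -((slots A B (w0 ∘ π)).card : ℝ)) (slots_lip A B w0) t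
  have e : 2 * (t / (16 * (d * n))) ^ 2 * 2 ^ 2 * (Fintype.card (E × Bool) : ℝ) -
      t / (16 * (d * n)) * t = -(d * (a : ℝ) ^ 4 / (512 * n ^ 3)) := by
    rw [hNr, ht]
    field_simp
    ring
  rw [e] at key
  refine le_trans (Nat.cast_le.2 (card_le_card fun π hπ => ?_)) key
  have h1 := (mem_filter.1 hπ).2.2
  refine mem_filter.2 ⟨mem_univ _, ?_⟩
  have h2 : ((slots A B (w0 ∘ π)).card : ℝ) < t := by
    rw [ht, lt_div_iff₀ (by positivity)]
    linarith
  rw [sum_neg_distrib, neg_div]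
  linarith

lemma expo {n a d x L α : ℝ} (hn : 0 < n) (hx : 0 < x) (hxα : x ≤ α) (hL : 0 ≤ L)
    (hd : 512 * (2 * L + 3) ≤ d * α ^ 3) (ha : α * n ≤ a) :
    (a * L + x * n) + (a * L + x * n) + -(d * a ^ 4 / (512 * n ^ 3)) ≤ -(α * n) := by
  have hα : 0 < α := hx.trans_le hxα
  have ha0 : 0 < a := (mul_pos hα hn).trans_le ha
  have hd0 : 0 < d := by
    have : 0 < d * α ^ 3 := by linarith
    exact (mul_pos_iff_of_pos_right (by positivity)).1 this
  have h1 : (α * n) ^ 3 ≤ a ^ 3 := pow_le_pow_left₀ (by positivity) ha 3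
  have h2 : a * (2 * L + 3) ≤ d * a ^ 4 / (512 * n ^ 3) := by
    rw [le_div_iff₀ (by positivity)]
    calc a * (2 * L + 3) * (512 * n ^ 3) = a * n ^ 3 * (512 * (2 * L + 3)) := by ring
      _ ≤ a * n ^ 3 * (d * α ^ 3) := mul_le_mul_of_nonneg_left hd (by positivity)
      _ = d * a * (α * n) ^ 3 := by ring
      _ ≤ d * a * a ^ 3 := mul_le_mul_of_nonneg_left h1 (by positivity)
      _ = d * a ^ 4 := by ring
  have h3 : x * n ≤ α * n := mul_le_mul_of_nonneg_right hxα hn.le
  nlinarith

end JEM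

open JEM in
theorem stEM (h : StBin) : StEM := by
  classical
  intro V E _ _ _ _ _ w0 d a0 x L α hD hx hxα hx1 hL hd ha0
  have hn : (0 : ℝ) < Fintype.card V := by
    have : Nonempty V := ⟨w0 (Classical.arbitrary _)⟩
    exact_mod_cast (Fintype.card_pos : 0 < Fintype.card V)
  have hP : (0 : ℝ) < Fintype.card (Perm (E × Bool)) := by
    exact_mod_cast (Fintype.card_pos : 0 < Fintype.card (Perm (E × Bool)))
  have hL0 : 0 ≤ L := by
    have := Real.log_nonpos hx.le hx1
    linarith
  let bad : ℕ → Finset V × Finset V → Finset (Perm (E × Bool)) := fun a AB =>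
    univ.filter fun π : Perm (E × Bool) => Disjoint AB.1 AB.2 ∧
      4 * (Fintype.card V : ℝ) * ((slots AB.1 AB.2 (w0 ∘ π)).card : ℝ) < d * (a : ℝ) ^ 2
  have hsub : (univ.filter fun π : Perm (E × Bool) => ¬ EM d a0 (w0 ∘ π)) ⊆
      ((range (Fintype.card V + 1)).filter fun a => a0 ≤ a).biUnion fun a =>
        (powersetCard a (univ : Finset V) ×ˢ powersetCard a (univ : Finset V)).biUnion (bad a) := by
    intro π hπ
    have h1 := (mem_filter.1 hπ).2
    unfold EM at h1
    push Not at h1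
    obtain ⟨A, B, hAB, hc, h0, hlt⟩ := h1
    refine mem_biUnion.2 ⟨A.card, mem_filter.2 ⟨mem_range.2 (Nat.lt_succ_of_le (card_le_univ A)),
      h0⟩, mem_biUnion.2 ⟨(A, B), mem_product.2 ⟨mem_powersetCard.2 ⟨subset_univ _, rfl⟩,
        mem_powersetCard.2 ⟨subset_univ _, hc.symm⟩⟩, mem_filter.2 ⟨mem_univ _, hAB, hlt⟩⟩⟩
  have hone : ∀ a, a0 ≤ a → (((powersetCard a (univ : Finset V) ×ˢ
      powersetCard a (univ : Finset V)).biUnion (bad a)).card : ℝ) ≤
        Fintype.card (Perm (E × Bool)) * Real.exp (-(α * (Fintype.card V : ℝ))) := by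
    intro a ha
    have hch : ((Fintype.card V).choose a : ℝ) ≤ Real.exp (a * L + x * Fintype.card V) :=
      le_trans (single_le_sum (f := fun i => ((Fintype.card V).choose i : ℝ))
        (fun _ _ => Nat.cast_nonneg _) (self_mem_range_succ a)) (h _ a x L hx hx1 hL)
    have ha' : α * (Fintype.card V : ℝ) ≤ a := ha0.trans (by exact_mod_cast ha)
    calc _ ≤ ∑ AB ∈ powersetCard a (univ : Finset V) ×ˢ powersetCard a (univ : Finset V),
          ((bad a AB).card : ℝ) := by exact_mod_cast card_biUnion_le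
      _ ≤ ∑ AB ∈ powersetCard a (univ : Finset V) ×ˢ powersetCard a (univ : Finset V),
          Fintype.card (Perm (E × Bool)) *
            Real.exp (-(d * (a : ℝ) ^ 4 / (512 * (Fintype.card V : ℝ) ^ 3))) :=
          sum_le_sum fun AB hAB => tail hD AB.1 AB.2 a
            (mem_powersetCard.1 (mem_product.1 hAB).1).2
            (mem_powersetCard.1 (mem_product.1 hAB).2).2
      _ = Fintype.card (Perm (E × Bool)) * ((Fintype.card V).choose a * (Fintype.card V).choose a *
            Real.exp (-(d * (a : ℝ) ^ 4 / (512 * (Fintype.card V : ℝ) ^ 3)))) := by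
          rw [sum_const, card_product, card_powersetCard, card_univ, nsmul_eq_mul]
          push_cast
          ring
      _ ≤ Fintype.card (Perm (E × Bool)) * (Real.exp (a * L + x * Fintype.card V) *
            Real.exp (a * L + x * Fintype.card V) *
            Real.exp (-(d * (a : ℝ) ^ 4 / (512 * (Fintype.card V : ℝ) ^ 3)))) := by
          gcongr
      _ ≤ _ := by
          rw [← Real.exp_add, ← Real.exp_add]
          exact mul_le_mul_of_nonneg_left
            (Real.exp_le_exp.2 (expo hn hx hxα hL0 hd ha')) hP.le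
  unfold pr av
  beta_reduce
  rw [div_le_iff₀ hP]
  calc _ = ((univ.filter fun π : Perm (E × Bool) => ¬ EM d a0 (w0 ∘ π)).card : ℝ) := by
        rw [← sum_boole]
        exact sum_congr rfl fun π _ => by congr
    _ ≤ ((((range (Fintype.card V + 1)).filter fun a => a0 ≤ a).biUnion fun a =>
        (powersetCard a (univ : Finset V) ×ˢ powersetCard a (univ : Finset V)).biUnion
          (bad a)).card : ℝ) := Nat.cast_le.2 (card_le_card hsub)
    _ ≤ ∑ a ∈ (range (Fintype.card V + 1)).filter fun a => a0 ≤ a,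
        (((powersetCard a (univ : Finset V) ×ˢ powersetCard a (univ : Finset V)).biUnion
          (bad a)).card : ℝ) := by exact_mod_cast card_biUnion_le
    _ ≤ ∑ a ∈ (range (Fintype.card V + 1)).filter fun a => a0 ≤ a,
        Fintype.card (Perm (E × Bool)) * Real.exp (-(α * (Fintype.card V : ℝ))) :=
        sum_le_sum fun a ha => hone a (mem_filter.1 ha).2
    _ ≤ ∑ a ∈ range (Fintype.card V + 1),
        Fintype.card (Perm (E × Bool)) * Real.exp (-(α * (Fintype.card V : ℝ))) :=
        sum_le_sum_of_subset_of_nonneg (filter_subset _ _) fun _ _ _ => by positivity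
    _ = _ := by
        rw [sum_const, card_range, nsmul_eq_mul]
        push_cast
        ring

end Pool.Agent.MP_32a90a_pr.L

end

section

set_option autoImplicit false

namespace Pool.Agent.MP_32a90a_pr.L

open Finset Equiv

namespace JMx

lemma mgf {P : Type} [Fintype P] [DecidableEq P] (c : ℝ) (hc : 0 < c) (l : ℝ) (f : Perm P → ℝ)
    (hf : ∀ π a b, |f (π * swap a b) - f π| ≤ c) :
    ∑ π, Real.exp (l * (f π - (∑ σ, f σ) / Fintype.card (Perm P)))
      ≤ Fintype.card (Perm P) * Real.exp (2 * l ^ 2 * c ^ 2 * Fintype.card P) := by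
  let e : Fin (Fintype.card P) ≃ P := (Fintype.equivFin P).symm
  have key := perm_mgf_fin c hc l (Fintype.card P) (fun π => f (e.permCongr π)) (by
    intro π a b
    have : e.permCongr (π * swap a b) = e.permCongr π * swap (e a) (e b) := by
      ext x
      simp only [permCongr_apply, Perm.mul_apply]
      congr 2
      rw [eq_symm_apply, ← e.injective.swap_apply, apply_symm_apply]
    simp only [this]; exact hf _ _ _)
  rw [Equiv.sum_comp e.permCongr f,
    Equiv.sum_comp e.permCongr (fun π => Real.exp (l * (f π - (∑ σ, f σ) / _))),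
    ← Fintype.card_perm] at key
  exact key

lemma pair {P : Type} [Fintype P] [DecidableEq P] (g : P → ℝ) (h0 : ∑ p, g p = 0)
    (h1 : ∀ p, g p * g p = 1) {p q : P} (hpq : q ≠ p) :
    ((Fintype.card P : ℝ) - 1) * ∑ π : Perm P, g (π p) * g (π q) = -Fintype.card (Perm P) := by
  have e1 : ∀ q' ∈ univ.erase p,
      ∑ π : Perm P, g (π p) * g (π q') = ∑ π : Perm P, g (π p) * g (π q) := by
    intro q' hq'
    rw [← Equiv.sum_comp (Equiv.mulRight (swap q q'))]
    refine sum_congr rfl fun π _ => ?_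
    rw [Equiv.coe_mulRight, Perm.mul_apply, Perm.mul_apply, swap_apply_right,
      swap_apply_of_ne_of_ne hpq.symm (ne_of_mem_erase hq').symm]
  have e2 : ∑ q', ∑ π : Perm P, g (π p) * g (π q') = 0 := by
    rw [sum_comm]
    refine sum_eq_zero fun π _ => ?_
    rw [← mul_sum, Equiv.sum_comp π g, h0, mul_zero]
  rw [← add_sum_erase _ _ (mem_univ p), sum_congr rfl e1, sum_const, card_erase_of_mem (mem_univ p),
    card_univ, nsmul_eq_mul, Nat.cast_pred (Fintype.card_pos_iff.2 ⟨p⟩)] at e2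
  simp only [h1, sum_const, card_univ, nsmul_eq_mul, mul_one] at e2
  linarith

variable {V E : Type} [Fintype V] [DecidableEq V] [Fintype E] [DecidableEq E]

omit [DecidableEq E] in
lemma sum_deg {w : E × Bool → V} {d : ℕ} (h : Deg w d) (φ : V → ℝ) :
    ∑ p, φ (w p) = d * ∑ v, φ v := by
  rw [← sum_fiberwise univ w, mul_sum]
  refine sum_congr rfl fun v _ => ?_
  rw [sum_congr rfl fun p hp => congrArg φ (mem_filter.1 hp).2, sum_const, h v, nsmul_eq_mul]

lemma sgn_mul (b : Bool) : sgn b * sgn b = 1 := by cases b <;> simp [sgn]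

lemma abs_sgn (b : Bool) : |sgn b| = 1 := by cases b <;> simp [sgn]

omit [Fintype V] [DecidableEq V] in
lemma lip (s : E → ℝ) (hs : ∀ i, |s i| ≤ 1) (x : V → Bool) (w : E × Bool → V)
    (a b : E × Bool) : |en Y1 s (w ∘ swap a b) x - en Y1 s w x| ≤ 4 := by
  have hY : ∀ i u v, |s i * Y1 x u v| ≤ 1 := fun i u v => by
    rw [Y1, abs_mul, abs_mul, abs_sgn, abs_sgn, mul_one, mul_one]
    exact hs i
  rw [en, en, ← sum_sub_distrib, ← sum_subset (subset_univ {a.1, b.1})]
  · refine (abs_sum_le_sum_abs _ _).trans ((sum_le_card_nsmul _ _ 2 fun i _ => ?_).trans ?_)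
    · exact (abs_sub _ _).trans ((add_le_add (hY _ _ _) (hY _ _ _)).trans (by norm_num))
    · have : ((({a.1, b.1} : Finset E).card : ℕ) : ℝ) ≤ 2 := by exact_mod_cast card_le_two
      rw [nsmul_eq_mul]
      linarith
  · intro i _ hi
    simp only [mem_insert, mem_singleton, not_or] at hi
    have h : ∀ c, swap a b (i, c) = (i, c) := fun c =>
      swap_apply_of_ne_of_ne (fun e => hi.1 (congrArg Prod.fst e))
        fun e => hi.2 (congrArg Prod.fst e)
    simp only [Function.comp_apply, h, sub_self]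

lemma mean_le [Nonempty E] {w0 : E × Bool → V} {d : ℕ} (h : Deg w0 d) (s : E → ℝ)
    (hs : ∀ i, |s i| ≤ 1) {x : V → Bool} (hx : x ∈ bal V) :
    (∑ π : Perm (E × Bool), en Y1 s (w0 ∘ π) x) / Fintype.card (Perm (E × Bool)) ≤ 1 := by
  have hM : (0 : ℝ) < Fintype.card (Perm (E × Bool)) := by exact_mod_cast Fintype.card_pos
  have hE : (1 : ℝ) ≤ Fintype.card E := by exact_mod_cast Fintype.card_pos
  have h0 : ∑ p, sgn (x (w0 p)) = 0 := by
    rw [sum_deg h fun v => sgn (x v), (mem_filter.1 hx).2, mul_zero]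
  rw [div_le_one hM]
  simp only [en, Y1, Function.comp_apply]
  rw [sum_comm]
  have key : ∀ i : E, Fintype.card E * ∑ π : Perm (E × Bool),
      s i * (sgn (x (w0 (π (i, false)))) * sgn (x (w0 (π (i, true)))))
        ≤ (Fintype.card (Perm (E × Bool)) : ℝ) := by
    intro i
    have h1 := pair (fun p => sgn (x (w0 p))) h0 (fun p => sgn_mul _)
      (p := (i, false)) (q := (i, true)) (by simp)
    rw [Fintype.card_prod, Fintype.card_bool, Nat.cast_mul, Nat.cast_ofNat] at h1
    rw [← mul_sum]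
    generalize ∑ π : Perm (E × Bool), sgn (x (w0 (π (i, false)))) * sgn (x (w0 (π (i, true)))) = A
      at h1 ⊢
    have hA : A ≤ 0 := by
      by_contra hA
      have := mul_pos (show (0 : ℝ) < Fintype.card E * 2 - 1 by linarith) (not_le.1 hA)
      linarith
    have h2 : s i * A ≤ -A := by nlinarith [(abs_le.1 (hs i)).1]
    have h3 := mul_le_mul_of_nonneg_left h2 (zero_le_one.trans hE)
    nlinarith
  have h4 := sum_le_sum fun i (_ : i ∈ univ) => key i
  rw [← mul_sum, sum_const, card_univ, nsmul_eq_mul] at h4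
  exact le_of_mul_le_mul_left h4 (zero_lt_one.trans_le hE)

lemma jensen {P : Type} [Fintype P] [Nonempty P] (f : P → ℝ) (l : ℝ) :
    Fintype.card P * Real.exp (l * ((∑ p, f p) / Fintype.card P)) ≤ ∑ p, Real.exp (l * f p) := by
  have hM : (0 : ℝ) < Fintype.card P := by exact_mod_cast Fintype.card_pos
  set m := (∑ p, f p) / Fintype.card P with hm
  have h1 : ∑ p, (l * (f p - m) + 1) = Fintype.card P := by
    rw [sum_add_distrib, ← mul_sum, sum_sub_distrib, sum_const, sum_const, card_univ,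
      nsmul_eq_mul, nsmul_eq_mul, hm, mul_div_cancel₀ _ hM.ne', sub_self, mul_zero, zero_add,
      mul_one]
  rw [← h1, sum_mul]
  refine sum_le_sum fun p _ => ?_
  have e : l * f p = l * (f p - m) + l * m := by ring
  rw [e, Real.exp_add]
  exact mul_le_mul_of_nonneg_right (Real.add_one_le_exp _) (Real.exp_pos _).le

end JMx

theorem stMx : StMx := by
  intro V E _ _ _ _ _ w0 d s h hb hs
  have hM : (0 : ℝ) < Fintype.card (Perm (E × Bool)) := by exact_mod_cast Fintype.card_pos
  have hN : (Fintype.card (E × Bool) : ℝ) = d * Fintype.card V := by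
    simpa using JMx.sum_deg h fun _ => (1 : ℝ)
  have hd : (0 : ℝ) < d := by
    have h1 : (0 : ℝ) < Fintype.card (E × Bool) := by exact_mod_cast Fintype.card_pos
    rw [hN] at h1
    exact pos_of_mul_pos_left h1 (Nat.cast_nonneg _)
  obtain ⟨r, hr⟩ : ∃ r, r = Real.sqrt d := ⟨_, rfl⟩
  have hr0 : 0 < r := hr ▸ Real.sqrt_pos.2 hd
  have hr2 : (d : ℝ) = r ^ 2 := by rw [hr, Real.sq_sqrt hd.le]
  obtain ⟨l, hl⟩ : ∃ l, l = 1 / (6 * r) := ⟨_, rfl⟩
  have hl0 : 0 < l := by rw [hl]; positivity
  have : Nonempty (bal V) := hb.to_subtype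
  have h1 : ∀ w : E × Bool → V,
      Real.exp (l * mx (bal V) Y1 s w) ≤ ∑ x ∈ bal V, Real.exp (l * en Y1 s w x) := by
    intro w
    obtain ⟨x, hx⟩ := exists_eq_ciSup_of_finite (f := fun x : bal V => en Y1 s w x)
    rw [mx, ← hx]
    exact single_le_sum (f := fun x => Real.exp (l * en Y1 s w x))
      (fun _ _ => (Real.exp_pos _).le) x.2
  have h2 : ∀ x ∈ bal V, ∑ π : Perm (E × Bool), Real.exp (l * en Y1 s (w0 ∘ π) x) ≤
      Fintype.card (Perm (E × Bool)) *
        Real.exp (2 * l ^ 2 * 4 ^ 2 * Fintype.card (E × Bool)) * Real.exp l := by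
    intro x hx
    have h3 := JMx.mgf 4 (by norm_num) l (fun π : Perm (E × Bool) => en Y1 s (w0 ∘ π) x)
      fun π a b => JMx.lip s hs x (w0 ∘ π) a b
    have h4 := JMx.mean_le h s hs hx
    refine le_trans ?_ (mul_le_mul_of_nonneg_right h3 (Real.exp_pos l).le)
    rw [sum_mul]
    refine sum_le_sum fun π _ => ?_
    rw [← Real.exp_add]
    exact Real.exp_le_exp.2 (by nlinarith)
  have h5 := (JMx.jensen (fun π : Perm (E × Bool) => mx (bal V) Y1 s (w0 ∘ π)) l).trans
    (sum_le_sum fun π _ => h1 (w0 ∘ π))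
  rw [sum_comm] at h5
  have h6 := h5.trans (sum_le_card_nsmul _ _ _ h2)
  have h7 : ((bal V).card : ℝ) ≤ Real.exp (Fintype.card V * Real.log 2) := by
    rw [Real.exp_nat_mul, Real.exp_log two_pos]
    have := card_le_univ (bal V)
    rw [Fintype.card_fun, Fintype.card_bool] at this
    exact_mod_cast this
  rw [nsmul_eq_mul] at h6
  have h8 := h6.trans (mul_le_mul_of_nonneg_right h7 (by positivity))
  rw [mul_assoc, mul_left_comm, ← Real.exp_add, ← Real.exp_add] at h8
  have h9 := Real.exp_le_exp.1 (le_of_mul_le_mul_left h8 hM)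
  rw [hN, hr2] at h9
  rw [av, ← hr]
  refine le_of_mul_le_mul_left (h9.trans ?_) hl0
  have hn : (0 : ℝ) ≤ Fintype.card V := Nat.cast_nonneg _
  have e1 : 2 * l ^ 2 * 4 ^ 2 * (r ^ 2 * Fintype.card V) = 8 / 9 * Fintype.card V := by
    rw [hl]; field_simp; ring
  have e2 : l * (10 * r * Fintype.card V + 1) = 5 / 3 * Fintype.card V + l := by
    rw [hl]; field_simp; ring
  rw [e1, e2]
  nlinarith [Real.log_two_lt_d9]

end Pool.Agent.MP_32a90a_pr.L

end
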