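import Pool.Agent.Mg.F32a90ap.Gb8a124

set_option autoImplicit false

namespace Pool.Agent.MP_32a90a_pr.L

open Finset Equiv

noncomputable section

/-- weighted average of f over S with weights μ -/
def wav {Ω : Type} (S : Finset Ω) (μ f : Ω → ℝ) : ℝ :=
  (∑ ω ∈ S, μ ω * f ω) / ∑ ω ∈ S, μ ω

section
variable {V E Ω : Type} [Fintype V] [DecidableEq V] [Fintype E] [DecidableEq E]

/-- energy of a configuration: slot i has coupling s i and end points w (i,false), w (i,true) -/
def en (Y : Ω → V → V → ℝ) (s : E → ℝ) (w : E × Bool → V) (ω : Ω) : ℝ :=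
  ∑ i, s i * Y ω (w (i, false)) (w (i, true))

/-- Boltzmann weight -/
def bw (Y : Ω → V → V → ℝ) (β : ℝ) (s : E → ℝ) (w : E × Bool → V) (ω : Ω) : ℝ :=
  Real.exp (β * en Y s w ω)

/-- log partition function -/
def lZ (S : Finset Ω) (Y : Ω → V → V → ℝ) (β : ℝ) (s : E → ℝ) (w : E × Bool → V) : ℝ :=
  Real.log (∑ ω ∈ S, bw Y β s w ω)

/-- Gibbs average -/
def gb (S : Finset Ω) (Y : Ω → V → V → ℝ) (β : ℝ) (s : E → ℝ) (w : E × Bool → V)
    (f : Ω → ℝ) : ℝ :=
  wav S (bw Y β s w) f

/-- maximal energy -/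
def mx (S : Finset Ω) (Y : Ω → V → V → ℝ) (s : E → ℝ) (w : E × Bool → V) : ℝ :=
  ⨆ ω : S, en Y s w ω

/-- average over all arrangements of the half-edges -/
def av (w0 : E × Bool → V) (F : (E × Bool → V) → ℝ) : ℝ :=
  (∑ π : Perm (E × Bool), F (w0 ∘ π)) / (Fintype.card (Perm (E × Bool)) : ℝ)

open Classical in
/-- probability over all arrangements of the half-edges -/
def pr (w0 : E × Bool → V) (P : (E × Bool → V) → Prop) : ℝ :=
  av w0 fun w => if P w then 1 else 0

/-- the cavity half-edges -/
def cav (U : Finset E) : Finset (E × Bool) := U ×ˢ univ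

/-- average of a site function over the cavity half-edges -/
def aQ (U : Finset E) (φ : V → ℝ) (w : E × Bool → V) : ℝ :=
  (∑ a ∈ cav U, φ (w a)) / (2 * U.card)

/-- average over ordered pairs of cavity half-edges, diagonal included -/
def aQQ (U : Finset E) (K : E × Bool → E × Bool → ℝ) : ℝ :=
  (∑ a ∈ cav U, ∑ b ∈ cav U, K a b) / (2 * U.card) ^ 2

/-- average of a site function over all vertices -/
def aV (φ : V → ℝ) : ℝ := (∑ v, φ v) / (Fintype.card V : ℝ)

/-- the exchange of slot k with the cavity half-edges a and b -/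
def ex (k : E) (a b : E × Bool) : Perm (E × Bool) := swap (k, false) a * swap (k, true) b

/-- spin at a vertex -/
def o1 (x : V → Bool) (v : V) : ℝ := sgn (x v)

/-- edge function of one replica -/
def Y1 (x : V → Bool) (u v : V) : ℝ := sgn (x u) * sgn (x v)

/-- three replicas -/
abbrev T3 (V : Type) : Type := (V → Bool) × (V → Bool) × (V → Bool)

/-- edge function of three replicas -/
def Y3 (ω : T3 V) (u v : V) : ℝ := Y1 ω.1 u v + Y1 ω.2.1 u v + Y1 ω.2.2 u v

/-- product of the spins of replicas 1 and 2 -/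
def o2 (ω : T3 V) (v : V) : ℝ := sgn (ω.1 v) * sgn (ω.2.1 v)

/-- product of the spins of the three replicas -/
def o3 (ω : T3 V) (v : V) : ℝ := sgn (ω.1 v) * sgn (ω.2.1 v) * sgn (ω.2.2 v)

open Classical in
/-- balanced configurations -/
def bal (V : Type) [Fintype V] [DecidableEq V] : Finset (V → Bool) :=
  univ.filter fun x => ∑ v, sgn (x v) = 0

/-- triples of balanced configurations -/
def bal3 (V : Type) [Fintype V] [DecidableEq V] : Finset (T3 V) := bal V ×ˢ bal V ×ˢ bal V

open Classical in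
/-- triples with a large triple overlap -/
def Abad (V : Type) [Fintype V] [DecidableEq V] (s0 : ℝ) : Finset (T3 V) :=
  (bal3 V).filter fun ω => 2 * s0 * (1 - |aV (o2 ω)|) < (aV (o3 ω)) ^ 2

open Classical in
/-- sign patterns vanishing on U with at most z zeros -/
def Pat (U : Finset E) (z : ℕ) (s : E → ℝ) : Prop :=
  (∀ i, s i = 0 ∨ s i = 1 ∨ s i = -1) ∧ (∀ i ∈ U, s i = 0) ∧
    (univ.filter fun i => s i = 0).card ≤ z

/-- sign patterns vanishing exactly on U -/
def Full (U : Finset E) (s : E → ℝ) : Prop :=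
  (∀ i ∈ U, s i = 0) ∧ ∀ i, i ∉ U → s i = 1 ∨ s i = -1

/-- the sign pattern given by a bit vector -/
def patt (U : Finset E) (J : E → Bool) : E → ℝ := fun i => if i ∈ U then 0 else sgn (J i)

/-- slots going from A to B -/
def slots (A B : Finset V) (w : E × Bool → V) : Finset E :=
  univ.filter fun i => w (i, false) ∈ A ∧ w (i, true) ∈ B

/-- lower bound on the number of edges between large disjoint sets -/
def EM (d a0 : ℕ) (w : E × Bool → V) : Prop :=
  ∀ A B : Finset V, Disjoint A B → A.card = B.card → a0 ≤ A.card →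
    (d : ℝ) * (A.card : ℝ) ^ 2 ≤ 4 * (Fintype.card V : ℝ) * ((slots A B w).card : ℝ)

open Classical in
/-- balanced configurations within l of the antiferromagnetic optimum -/
def near (w : E × Bool → V) (l : ℝ) : Finset (V → Bool) :=
  (bal V).filter fun x => mx (bal V) Y1 (fun _ => -1) w - l ≤ en Y1 (fun _ => -1) w x

/-- the family T shows every pattern on W -/
def Shat (T : Finset (V → Bool)) (W : Finset V) : Prop :=
  ∀ τ : V → Bool, ∃ x ∈ T, ∀ v ∈ W, x v = τ v

/-- large sets are shattered only at a large energy deficit -/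
def Rig (d a0 : ℕ) (w : E × Bool → V) : Prop :=
  ∀ (a : ℕ) (l : ℝ) (W : Finset V), a0 ≤ a → 0 ≤ l → 3 * a ≤ W.card → Shat (near w l) W →
    (d : ℝ) * (a : ℝ) ^ 3 < 32 * l ^ 2 * (Fintype.card V : ℝ)

/-- a permutation of the slots acting on the second half-edges only -/
def lift (ρ : Perm E) : Perm (E × Bool) where
  toFun p := if p.2 then (ρ p.1, true) else p
  invFun p := if p.2 then (ρ.symm p.1, true) else p
  left_inv := by rintro ⟨i, b⟩; cases b <;> simp
  right_inv := by rintro ⟨i, b⟩; cases b <;> simp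

end

end

end Pool.Agent.MP_32a90a_pr.L
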