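import Pool.Agent.Mg.F32a90ap.G946f23
import Pool.Agent.Mg.F32a90ap.G8b60b8
import Pool.Agent.MP_32a90a_pr.Defs
import Pool.Agent.Mg.F32a90ap.G7fd7a9

section

set_option autoImplicit false

namespace Pool.Agent.MP_32a90a_pr.L

open Finset

namespace JHoef

variable {V : Type} [Fintype V] [DecidableEq V]

lemma mgf (b : V → ℝ) : ∑ τ : V → Bool, Real.exp (∑ v, b v * sgn (τ v))
    ≤ (2 : ℝ) ^ Fintype.card V * Real.exp (∑ v, b v ^ 2 / 2) := by
  simp_rw [Real.exp_sum]
  rw [← Fintype.piFinset_univ, ← prod_univ_sum (fun _ => univ)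
    (fun v x => Real.exp (b v * sgn x)), ← card_univ, ← prod_const, ← prod_mul_distrib]
  refine prod_le_prod (fun v _ => sum_nonneg fun _ _ => (Real.exp_pos _).le) fun v _ => ?_
  have h := Real.cosh_le_exp_half_sq (b v)
  rw [Real.cosh_eq] at h
  simp only [Fintype.sum_bool, sgn, if_true, Bool.false_eq_true, if_false, mul_one, mul_neg]
  linarith

lemma mgfD (D : Finset V) (a : V → ℝ) (ha : ∀ v, |a v| ≤ 1) (l : ℝ) :
    ∑ τ : V → Bool, Real.exp (l * ∑ v ∈ D, a v * sgn (τ v))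
      ≤ (2 : ℝ) ^ Fintype.card V * Real.exp (l ^ 2 * D.card / 2) := by
  have h := mgf fun v => if v ∈ D then l * a v else 0
  simp only [ite_mul, zero_mul, ite_pow, ne_eq, OfNat.ofNat_ne_zero, not_false_eq_true, zero_pow,
    ite_div, zero_div, sum_ite_mem, univ_inter, mul_assoc, ← mul_sum] at h
  refine h.trans (mul_le_mul_of_nonneg_left (Real.exp_le_exp.2 ?_) (by positivity))
  calc ∑ v ∈ D, (l * a v) ^ 2 / 2 ≤ ∑ _v ∈ D, l ^ 2 / 2 := sum_le_sum fun v _ => by
        have h1 : a v ^ 2 ≤ 1 := (sq_le_one_iff_abs_le_one _).2 (ha v)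
        rw [mul_pow]
        nlinarith [sq_nonneg l]
    _ = _ := by
        rw [sum_const, nsmul_eq_mul]
        ring

end JHoef

theorem stHoef : StHoef := by
  intro V _ _ D a c ha hc
  rcases D.eq_empty_or_nonempty with rfl | hD
  · simp only [card_empty, Nat.cast_zero, mul_zero, sum_empty, ne_eq, OfNat.ofNat_ne_zero,
      not_false_eq_true, zero_pow, lt_self_iff_false, filter_false]
    positivity
  have hD' : (0 : ℝ) < D.card := Nat.cast_pos.2 hD.card_pos
  obtain ⟨l, hl⟩ : ∃ l : ℝ, l ^ 2 * D.card = c :=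
    ⟨Real.sqrt (c / D.card), by rw [Real.sq_sqrt (by positivity), div_mul_cancel₀ _ hD'.ne']⟩
  have h1 := JHoef.mgfD D a ha l
  have h2 := JHoef.mgfD D a ha (-l)
  rw [neg_sq] at h2
  rw [hl] at h1 h2
  have h3 : ∀ S : ℝ, (if c * (D.card : ℝ) < S ^ 2 then (1 : ℝ) else 0) ≤
      (Real.exp (l * S) + Real.exp (-l * S)) * Real.exp (-c) := fun S => by
    split_ifs with h
    · have h4 : c ^ 2 ≤ (l * S) ^ 2 := by
        rw [mul_pow]
        nlinarith [mul_le_mul_of_nonneg_left h.le (sq_nonneg l)]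
      have h5 : c ≤ |l * S| := le_of_sq_le_sq (by rwa [sq_abs]) (abs_nonneg _)
      rw [add_mul, ← Real.exp_add, ← Real.exp_add]
      rcases le_abs.1 h5 with h6 | h6
      · linarith [Real.one_le_exp (x := l * S + -c) (by linarith), Real.exp_pos (-l * S + -c)]
      · linarith [Real.one_le_exp (x := -l * S + -c) (by linarith), Real.exp_pos (l * S + -c)]
    · positivity
  rw [card_filter, Nat.cast_sum]
  push_cast
  refine (sum_le_sum fun τ _ => h3 _).trans ?_
  rw [← sum_mul, sum_add_distrib]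
  have e : Real.exp (-(c / 2)) = Real.exp (c / 2) * Real.exp (-c) := by
    rw [← Real.exp_add]
    congr 1
    ring
  rw [e, ← mul_assoc]
  exact mul_le_mul_of_nonneg_right (by linarith) (Real.exp_pos _).le

end Pool.Agent.MP_32a90a_pr.L

end

section

set_option autoImplicit false

namespace Pool.Agent.MP_32a90a_pr.L

open Finset Equiv

namespace JGrp

open Classical in
/-- the local bound holds at every point -/
theorem local_bound {G ι : Type} [Group G] [Fintype G] (I : G → ι) (Γ : ι → Subgroup G)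
    (bad : G → Prop) (p : ℝ) (hp : 0 ≤ p) (hI : ∀ π ρ, ρ ∈ Γ (I π) → I (π * ρ) = I π)
    (h : ∀ π, bad π → ((univ.filter fun ρ => ρ ∈ Γ (I π) ∧ bad (π * ρ)).card : ℝ)
      ≤ p * ((univ.filter fun ρ => ρ ∈ Γ (I π)).card : ℝ)) (π : G) :
    ((univ.filter fun ρ => ρ ∈ Γ (I π) ∧ bad (π * ρ)).card : ℝ)
      ≤ p * ((univ.filter fun ρ => ρ ∈ Γ (I π)).card : ℝ) := by
  rcases (univ.filter fun ρ => ρ ∈ Γ (I π) ∧ bad (π * ρ)).eq_empty_or_nonempty with h0 | ⟨ρ0, h0⟩
  · rw [h0, card_empty, Nat.cast_zero]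
    positivity
  · obtain ⟨h1, h2⟩ := (mem_filter.1 h0).2
    have h3 := h _ h2
    rw [hI π ρ0 h1] at h3
    refine le_trans (le_of_eq ?_) h3
    congr 1
    refine card_bijective (fun ρ => ρ0⁻¹ * ρ) (Group.mulLeft_bijective _) fun ρ => ?_
    simp only [mem_filter, mem_univ, true_and, mul_assoc, mul_inv_cancel_left,
      (Γ (I π)).mul_mem_cancel_left (inv_mem h1)]

end JGrp

open Classical in
theorem stGrp : StGrp := by
  intro G ι _ _ I Γ bad p hp hI h
  have hloc := JGrp.local_bound I Γ bad p hp hI h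
  let c : ι → ℝ := fun i => ((univ.filter fun ρ : G => ρ ∈ Γ i).card : ℝ)
  have hc : ∀ i, 0 < c i := fun i =>
    Nat.cast_pos.2 (card_pos.2 ⟨1, mem_filter.2 ⟨mem_univ _, one_mem _⟩⟩)
  have h1 : ∀ π : G, (∑ ρ : G, if ρ ∈ Γ (I π) ∧ bad (π * ρ) then (c (I π))⁻¹ else 0) ≤ p := by
    intro π
    rw [← sum_filter, sum_const, nsmul_eq_mul, ← div_eq_mul_inv, div_le_iff₀ (hc _)]
    exact hloc π
  have h2 : ∀ π : G, (∑ ρ : G, if ρ ∈ Γ (I π) ∧ bad π then (c (I π))⁻¹ else 0) =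
      if bad π then 1 else 0 := by
    intro π
    by_cases hb : bad π
    · simp only [hb, and_true, if_true]
      rw [← sum_filter, sum_const, nsmul_eq_mul]
      exact mul_inv_cancel₀ (hc _).ne'
    · simp only [hb, and_false, if_false, sum_const_zero]
  have h3 : ∀ ρ : G, (∑ π : G, if ρ ∈ Γ (I π) ∧ bad (π * ρ) then (c (I π))⁻¹ else 0) =
      ∑ π : G, if ρ ∈ Γ (I π) ∧ bad π then (c (I π))⁻¹ else 0 := by
    intro ρ
    refine Fintype.sum_equiv (Equiv.mulRight ρ) _ _ fun π => ?_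
    change _ = if ρ ∈ Γ (I (π * ρ)) ∧ bad (π * ρ) then (c (I (π * ρ)))⁻¹ else 0
    by_cases hρ : ρ ∈ Γ (I π)
    · rw [hI π ρ hρ]
    · have : ρ ∉ Γ (I (π * ρ)) := fun h' => by
        have e := hI (π * ρ) ρ⁻¹ (inv_mem h')
        rw [mul_inv_cancel_right] at e
        exact hρ (e ▸ h')
      rw [if_neg fun h' => hρ h'.1, if_neg fun h' => this h'.1]
  calc ((univ.filter bad).card : ℝ) = ∑ π : G, if bad π then (1 : ℝ) else 0 := by
        rw [← sum_filter, sum_const, nsmul_eq_mul, mul_one]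
    _ = ∑ π : G, ∑ ρ : G, if ρ ∈ Γ (I π) ∧ bad π then (c (I π))⁻¹ else 0 :=
        sum_congr rfl fun π _ => (h2 π).symm
    _ = ∑ ρ : G, ∑ π : G, if ρ ∈ Γ (I π) ∧ bad (π * ρ) then (c (I π))⁻¹ else 0 := by
        rw [sum_comm]
        exact sum_congr rfl fun ρ _ => (h3 ρ).symm
    _ = ∑ π : G, ∑ ρ : G, if ρ ∈ Γ (I π) ∧ bad (π * ρ) then (c (I π))⁻¹ else 0 := sum_comm
    _ ≤ ∑ _π : G, p := sum_le_sum fun π _ => h1 π
    _ = p * (Fintype.card G : ℝ) := by rw [sum_const, card_univ, nsmul_eq_mul, mul_comm]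

end Pool.Agent.MP_32a90a_pr.L

end

section

set_option autoImplicit false

namespace Pool.Agent.MP_32a90a_pr.L

open Finset Equiv

namespace JCount

variable {E : Type} [Fintype E] [DecidableEq E]

theorem fix_card (I : Finset E) (S : Finset (Perm E))
    (hS : ∀ ρ, ρ ∈ S ↔ ∀ i, i ∉ I → ρ i = i) : S.card = I.card.factorial := by
  classical
  have h1 : S.card = Fintype.card {f : Perm E // ∀ a, ¬ a ∈ I → f a = a} :=
    (Fintype.card_of_subtype S hS).symm
  rw [h1, ← Fintype.card_congr (Perm.subtypeEquivSubtypePerm (fun a => a ∈ I)), Fintype.card_perm,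
    Fintype.card_coe]

theorem presc (I J : Finset E) (hJ : J ⊆ I) (f : (i : E) → i ∈ J → E) (S : Finset (Perm E))
    (hS : ∀ ρ ∈ S, (∀ i, i ∉ I → ρ i = i) ∧ ∀ i (h : i ∈ J), ρ i = f i h) :
    S.card ≤ (I.card - J.card).factorial := by
  classical
  rcases S.eq_empty_or_nonempty with rfl | ⟨ρ0, h0⟩
  · simp
  rw [← card_sdiff_of_subset hJ,
    ← fix_card (I \ J) (univ.filter fun σ : Perm E => ∀ i, i ∉ I \ J → σ i = i) (by simp)]
  refine card_le_card_of_injOn (fun ρ => ρ0⁻¹ * ρ) (fun ρ hρ => ?_)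
    (fun a _ b _ h => mul_left_cancel h)
  simp only [coe_filter, mem_univ, true_and, Set.mem_setOf_eq]
  intro i hi
  have e : ρ i = ρ0 i := by
    by_cases h : i ∈ J
    · rw [(hS ρ hρ).2 i h, (hS ρ0 h0).2 i h]
    · have hI : i ∉ I := fun hI => hi (mem_sdiff.2 ⟨hI, h⟩)
      rw [(hS ρ hρ).1 i hI, (hS ρ0 h0).1 i hI]
  rw [Perm.mul_apply, e]
  simp

theorem count (I : Finset E) (T : E → Finset E) (D j : ℕ) (hT : ∀ i, (T i).card ≤ D)
    (S : Finset (Perm E))
    (hS : ∀ ρ ∈ S, (∀ i, i ∉ I → ρ i = i) ∧ ∃ J ⊆ I, J.card = j ∧ ∀ i ∈ J, ρ i ∈ T i) :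
    S.card ≤ I.card.choose j * (D ^ j * (I.card - j).factorial) := by
  classical
  have hsub : S ⊆ (powersetCard j I).biUnion fun J => (J.pi T).biUnion fun f =>
      S.filter fun ρ => ∀ i (h : i ∈ J), ρ i = f i h := by
    intro ρ hρ
    obtain ⟨-, J, h1, h2, h3⟩ := hS ρ hρ
    refine mem_biUnion.2 ⟨J, mem_powersetCard.2 ⟨h1, h2⟩, mem_biUnion.2 ⟨fun i _ => ρ i, ?_, ?_⟩⟩
    · exact mem_pi.2 h3
    · exact mem_filter.2 ⟨hρ, fun _ _ => rfl⟩
  refine (card_le_card hsub).trans ?_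
  rw [← card_powersetCard]
  refine card_biUnion_le_card_mul _ _ _ fun J hJ => ?_
  obtain ⟨h1, h2⟩ := mem_powersetCard.1 hJ
  refine (card_biUnion_le_card_mul _ _ (I.card - j).factorial fun f _ => ?_).trans ?_
  · rw [← h2]
    exact presc I J h1 f _ fun ρ hρ =>
      ⟨(hS ρ (mem_filter.1 hρ).1).1, (mem_filter.1 hρ).2⟩
  · refine Nat.mul_le_mul_right _ ?_
    rw [card_pi, ← h2]
    exact prod_le_pow_card _ _ _ fun i _ => hT i

end JCount

theorem stCount : StCount := by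
  intro E _ _ I T D j hT
  rw [JCount.fix_card I (univ.filter fun ρ : Perm E => ∀ i, i ∉ I → ρ i = i) (by simp)]
  have h := JCount.count I T D j hT (univ.filter fun ρ : Perm E => (∀ i, i ∉ I → ρ i = i) ∧
      j ≤ (I.filter fun i => ρ i ∈ T i).card) fun ρ hρ => by
    obtain ⟨h1, h2⟩ := (mem_filter.1 hρ).2
    obtain ⟨J, h3, h4⟩ := exists_subset_card_eq h2
    exact ⟨h1, J, h3.trans (filter_subset _ _), h4, fun i hi => (mem_filter.1 (h3 hi)).2⟩
  have h2 : I.card.choose j * (D ^ j * (I.card - j).factorial) * j.factorial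
      ≤ D ^ j * I.card.factorial := by
    rcases le_or_gt j I.card with hj | hj
    · rw [← Nat.choose_mul_factorial_mul_factorial hj]
      exact le_of_eq (by ring)
    · rw [Nat.choose_eq_zero_of_lt hj]
      simp
  have h3 := (Nat.mul_le_mul_right j.factorial h).trans h2
  have hp : (0 : ℝ) < (j.factorial : ℝ) := by exact_mod_cast j.factorial_pos
  rw [div_mul_eq_mul_div, le_div_iff₀ hp]
  exact_mod_cast h3

end Pool.Agent.MP_32a90a_pr.L

end

section

set_option autoImplicit false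

namespace Pool.Agent.MP_32a90a_pr.L

open Finset

namespace JChain

theorem aux {E : Type} [DecidableEq E] {U : Finset E} {Φ : (E → ℝ) → ℝ} {δ : ℝ} (hδ : 0 ≤ δ)
    (h : ∀ s k, Full U s → k ∉ U →
      Φ (Function.update s k 1) ≤ Φ (Function.update s k (-1)) + δ) (T : Finset E) :
    ∀ s, Full U s → (∀ i, s i = 1 → i ∈ T) →
      Φ s ≤ Φ (patt U fun _ => false) + (T.card : ℝ) * δ := by
  induction T using Finset.induction_on with
  | empty =>
    intro s hs hT
    have : s = patt U fun _ => false := by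
      funext i
      unfold patt
      split_ifs with hi
      · exact hs.1 i hi
      · simpa [sgn] using (hs.2 i hi).resolve_left fun e => notMem_empty i (hT i e)
    rw [this, card_empty, Nat.cast_zero, zero_mul, add_zero]
  | insert k T hk ih =>
    intro s hs hT
    rw [card_insert_of_notMem hk, Nat.cast_succ, add_mul, one_mul, ← add_assoc]
    by_cases e : s k = 1
    · have hU : k ∉ U := fun hU => one_ne_zero (e.symm.trans (hs.1 k hU))
      have h1 := h s k hs hU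
      rw [← e, Function.update_eq_self, e] at h1
      refine h1.trans (add_le_add (ih _ ⟨fun i hi => ?_, fun i hi => ?_⟩ fun i hi => ?_) le_rfl)
      · rw [Function.update_of_ne fun e' : i = k => hU (e' ▸ hi), hs.1 i hi]
      · by_cases e' : i = k
        · rw [e', Function.update_self]
          exact Or.inr rfl
        · rw [Function.update_of_ne e']
          exact hs.2 i hi
      · by_cases e' : i = k
        · rw [e', Function.update_self] at hi
          norm_num at hi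
        · rw [Function.update_of_ne e'] at hi
          exact (mem_insert.1 (hT i hi)).resolve_left e'
    · exact (ih s hs fun i hi => (mem_insert.1 (hT i hi)).resolve_left
        fun e' => e (e' ▸ hi)).trans (le_add_of_nonneg_right hδ)

end JChain

theorem stChain : StChain := fun _ _ _ _ _ _ hδ h s hs =>
  JChain.aux hδ h univ s hs fun i _ => mem_univ i

end Pool.Agent.MP_32a90a_pr.L

end

section

set_option autoImplicit false

namespace Pool.Agent.MP_32a90a_pr.L

open Filter Topology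

theorem stFact : StFact := by
  intro c D hc hD
  obtain ⟨m, hm⟩ := exists_nat_ge (1 / c)
  have hm' : 1 ≤ c * m := by
    rw [div_le_iff₀ hc] at hm
    linarith
  have h1 : Tendsto (fun k : ℕ => ⌊c * k⌋₊) atTop atTop :=
    tendsto_nat_floor_atTop.comp (tendsto_natCast_atTop_atTop.const_mul_atTop hc)
  have h2 := ((FloorSemiring.tendsto_pow_div_factorial_atTop ((16 : ℝ) ^ m * D)).comp
    h1).const_mul ((16 : ℝ) ^ m)
  rw [mul_zero] at h2
  refine squeeze_zero (fun k => by positivity) (fun k => ?_) h2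
  have h3 : k ≤ m * (⌊c * k⌋₊ + 1) := by
    have h4 := (Nat.lt_floor_add_one (c * k)).le
    have h5 : (0 : ℝ) ≤ m := Nat.cast_nonneg m
    have h6 : (0 : ℝ) ≤ k := Nat.cast_nonneg k
    have h7 : (k : ℝ) ≤ m * (⌊c * k⌋₊ + 1) := by
      nlinarith [mul_le_mul_of_nonneg_left h4 h5, mul_le_mul_of_nonneg_right hm' h6]
    exact_mod_cast h7
  have h8 : (4 : ℝ) ^ (2 * k) ≤ 16 ^ m * (16 ^ m) ^ ⌊c * k⌋₊ := by
    rw [pow_mul, ← pow_succ', show (4 : ℝ) ^ 2 = 16 by norm_num, ← pow_mul]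
    exact pow_le_pow_right₀ (by norm_num) h3
  simp only [Function.comp_apply]
  rw [mul_pow, mul_div_assoc, ← mul_assoc]
  exact mul_le_mul_of_nonneg_right h8 (by positivity)

end Pool.Agent.MP_32a90a_pr.L

end

section

set_option autoImplicit false

namespace Pool.Agent.MP_32a90a_pr.L

open Finset Equiv Filter Topology

namespace JLim

theorem lin {a : ℝ} (ha : 0 < a) : Tendsto (fun k : ℕ => a * (k : ℝ)) atTop atTop :=
  tendsto_natCast_atTop_atTop.const_mul_atTop ha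

theorem ex0 {a : ℝ} (ha : 0 < a) :
    Tendsto (fun k : ℕ => Real.exp (-(a * (k : ℝ)))) atTop (𝓝 0) :=
  Real.tendsto_exp_neg_atTop_nhds_zero.comp (lin ha)

theorem lg {D ε : ℝ} (hD : 1 ≤ D) (hε : 0 < ε) :
    ∀ᶠ k : ℕ in atTop, Real.log (2 * ((k : ℝ) * D) + 1) ≤ ε * k := by
  have hD0 : 0 < D := by linarith
  have h1 : Tendsto (fun k : ℕ => 2 * D * (k : ℝ) + 1) atTop atTop :=
    tendsto_atTop_add_const_right _ _ (lin (by positivity))
  have h2 := h1.eventually (Real.isLittleO_log_id_atTop.bound (c := ε / (3 * D)) (by positivity))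
  filter_upwards [h2, eventually_ge_atTop 1] with k hk hk1
  have hk' : (1 : ℝ) ≤ k := by exact_mod_cast hk1
  have h3 : 1 ≤ D * k := one_le_mul_of_one_le_of_one_le hD hk'
  rw [Real.norm_eq_abs, Real.norm_eq_abs, id, abs_of_pos (by positivity : 0 < 2 * D * (k : ℝ) + 1)]
    at hk
  calc Real.log (2 * ((k : ℝ) * D) + 1) = Real.log (2 * D * (k : ℝ) + 1) := by ring_nf
    _ ≤ ε / (3 * D) * (2 * D * (k : ℝ) + 1) := (le_abs_self _).trans hk
    _ ≤ ε / (3 * D) * (3 * (D * k)) := by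
      apply mul_le_mul_of_nonneg_left _ (by positivity)
      linarith
    _ = ε * k := by field_simp

theorem ex1 {α : ℝ} (hα : 0 < α) :
    Tendsto (fun k : ℕ => (2 * (k : ℝ) + 1) * Real.exp (-(α * (2 * k)))) atTop (𝓝 0) := by
  have h0 : 0 < 2 * α := by positivity
  have h1 := ((Real.tendsto_pow_mul_exp_neg_atTop_nhds_zero 1).comp (lin h0)).const_mul α⁻¹
  have h2 := h1.add (ex0 h0)
  rw [mul_zero, add_zero] at h2
  refine h2.congr fun k => ?_
  have e : α * (2 * (k : ℝ)) = 2 * α * k := by ring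
  simp only [Function.comp_apply, e]
  field_simp

end JLim

theorem stLim (h : StFact) : StLim := by
  intro d r α s0 c τ hd hα hs hc hτ
  have hd' : (1 : ℝ) ≤ d := by exact_mod_cast hd
  have h4 := (JLim.ex1 hα).add (h c ((d : ℝ) ^ 2) hc (one_le_pow₀ hd'))
  have h5 := (JLim.ex0 (a := s0 / 4) (by positivity)).add
    (JLim.ex0 (a := s0 ^ 2 / (256 * d)) (by positivity))
  rw [add_zero] at h4 h5
  filter_upwards [eventually_ge_atTop r, JLim.lg hd' (pow_pos hτ 2),
    (JLim.lin hτ).eventually_ge_atTop ((r : ℝ) + 1), h4.eventually (ge_mem_nhds hτ),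
    h5.eventually (ge_mem_nhds hτ), eventually_gt_atTop 0] with k k1 k2 k3 k4 k5 k0
  refine ⟨k1, k2, k3, k4, ?_⟩
  have hk : (0 : ℝ) < k := by exact_mod_cast k0
  have e1 : s0 * (2 * (k : ℝ)) / 8 = s0 / 4 * k := by ring
  have e2 : (s0 / 4 * (k : ℝ)) ^ 2 / (16 * ((k : ℝ) * d)) = s0 ^ 2 / (256 * d) * k := by
    field_simp
    ring
  rw [e1, e2]
  exact k5

end Pool.Agent.MP_32a90a_pr.L

end

section

set_option autoImplicit false

namespace Pool.Agent.MP_32a90a_pr.L

theorem stNum1 : StNum1 := by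
  intro u D k r a0 lg lg' P ε hu hu1 hD hr hr1 hrk ha hlg hlg' hP hε
  have u1 : u ≤ 1 := hu1.trans (by norm_num)
  have u0 : u ≠ 0 := hu.ne'
  have hp : ∀ m : ℕ, 0 < u ^ m := fun m => pow_pos hu m
  have h1 : 1 ≤ u ^ 1000 * k := by linarith
  have hk : 0 < k := (mul_pos_iff_of_pos_left (hp 1000)).1 (by linarith)
  have hb : ∀ m : ℕ, 117 ≤ m → u ^ m * k ≤ u ^ 117 * k := fun m hm =>
    mul_le_mul_of_nonneg_right (pow_le_pow_of_le_one hu.le u1 hm) hk.le
  have hD' : D = (u ^ 600)⁻¹ := eq_inv_of_mul_eq_one_left hD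
  have D0 : 0 < D := by rw [hD']; exact inv_pos.2 (hp 600)
  have b1000 := hb 1000 (by norm_num)
  have t1 : u ^ 240 ≤ 1 := pow_le_one₀ hu.le u1
  have t2 : lg ≤ u ^ 117 * k := by
    have := hb 2000 (by norm_num)
    rw [← pow_mul] at hlg
    exact hlg.trans this
  have t3 : 3 * (200 / u) * (a0 + 1) ≤ 2400 * (u ^ 117 * k) := by
    have e : 3 * (200 / u) * (u ^ 199 * (2 * k) + 2 * (u ^ 1000 * k)) =
        1200 * (u ^ 198 * k) + 1200 * (u ^ 999 * k) := by
      field_simp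
      ring
    have := mul_le_mul_of_nonneg_left
      (show a0 + 1 ≤ u ^ 199 * (2 * k) + 2 * (u ^ 1000 * k) by linarith)
      (show 0 ≤ 3 * (200 / u) by positivity)
    have := hb 198 (by norm_num)
    have := hb 999 (by norm_num)
    linarith
  have t4 : u ^ 200 * (2 * k) ≤ 2 * (u ^ 117 * k) := by
    have := hb 200 (by norm_num)
    linarith
  have t5 : 864 * (200 / u) ^ 3 * (2 * k) / (D * (u ^ 240) ^ 2) =
      13824000000 * (u ^ 117 * k) := by
    rw [hD']
    field_simp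
    ring
  have t6 : 2 * k * P ≤ 2 * (u ^ 117 * k) := by
    have := mul_le_mul_of_nonneg_left hP hk.le
    linarith
  have t7 : u ^ 240 * r ≤ u ^ 117 * k := by
    have := mul_le_mul_of_nonneg_right t1 hr.le
    linarith
  have e1 : ε ≤ 2 * u ^ 1000 := by
    have h2 : (r + 1) / (k * D) ≤ u ^ 1000 * k / (k * D) :=
      div_le_div_of_nonneg_right hrk (mul_pos hk D0).le
    have h3 : u ^ 1000 * k / (k * D) = u ^ 1600 := by
      rw [hD']
      field_simp
    have h4 : u ^ 1600 ≤ u ^ 1000 := pow_le_pow_of_le_one hu.le u1 (by norm_num)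
    linarith
  have t8 : k * D * (10000 * u ^ 240 * ((u ^ 240) ^ 2 + ε)) ≤ 30000 * (u ^ 117 * k) := by
    have e : k * D * (10000 * u ^ 240 * ((u ^ 240) ^ 2 + 2 * u ^ 1000)) =
        10000 * (u ^ 120 * k) + 20000 * (u ^ 640 * k) := by
      rw [hD']
      field_simp
      ring
    have h2 : k * D * (10000 * u ^ 240 * ((u ^ 240) ^ 2 + ε)) ≤
        k * D * (10000 * u ^ 240 * ((u ^ 240) ^ 2 + 2 * u ^ 1000)) := by gcongr
    have := hb 120 (by norm_num)
    have := hb 640 (by norm_num)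
    linarith
  have t9 : lg' / u ^ 900 ≤ u ^ 117 * k := by
    have h2 : lg' / u ^ 900 ≤ (u ^ 1000) ^ 2 * k / u ^ 900 :=
      div_le_div_of_nonneg_right (hlg'.trans hlg) (hp 900).le
    have e : (u ^ 1000) ^ 2 * k / u ^ 900 = u ^ 1100 * k := by
      field_simp
    have := hb 1100 (by norm_num)
    linarith
  have t10 : 2 * u ^ 900 * (D * u ^ 240) ^ 2 * (2 * k) ≤ 4 * (u ^ 117 * k) := by
    have e : 2 * u ^ 900 * (D * u ^ 240) ^ 2 * (2 * k) = 4 * (u ^ 180 * k) := by
      rw [hD']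
      field_simp
      ring
    have := hb 180 (by norm_num)
    linarith
  have t11 : 3 * u ^ 240 * (k * D) * (4 * (u ^ 190) ^ 4 + 2 / r) ≤ 18 * (u ^ 117 * k) := by
    have e : 3 * u ^ 240 * (k * D) * (4 * (u ^ 190) ^ 4 + 2 * u ^ 1000) =
        12 * (u ^ 400 * k) + 6 * (u ^ 640 * k) := by
      rw [hD']
      field_simp
      ring
    have h3 : 2 / r ≤ 2 * u ^ 1000 := by
      rw [div_eq_mul_one_div]
      linarith
    have h2 : 3 * u ^ 240 * (k * D) * (4 * (u ^ 190) ^ 4 + 2 / r) ≤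
        3 * u ^ 240 * (k * D) * (4 * (u ^ 190) ^ 4 + 2 * u ^ 1000) := by gcongr
    have := hb 400 (by norm_num)
    have := hb 640 (by norm_num)
    linarith
  have hq : u ^ 117 * k ≤ 1 / 10 ^ 12 * (u ^ 116 * k) := by
    rw [pow_succ' u 116, mul_assoc]
    exact mul_le_mul_of_nonneg_right hu1 (mul_pos (hp 116) hk).le
  have hq0 : 0 < u ^ 116 * k := mul_pos (hp 116) hk
  rw [t5]
  linarith

end Pool.Agent.MP_32a90a_pr.L

end

section

set_option autoImplicit false

namespace Pool.Agent.MP_32a90a_pr.L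

namespace JNum2

theorem partA (u k a0 lg P : ℝ) (hu : 0 < u) (hk : 0 < k) (hk1 : 1 ≤ u ^ 1000 * k)
    (h3 : a0 ≤ u ^ 199 * (2 * k) + 1) (h4 : lg ≤ (u ^ 1000) ^ 2 * k) (h5 : P ≤ u ^ 1000) :
    (u ^ 190 + lg + 3 * (200 / u) * (a0 + 1) + u ^ 200 * (2 * k)
          + 864 * (200 / u) ^ 3 * (2 * k) / ((u ^ 600)⁻¹ * (u ^ 190) ^ 2) + 2 * k * P) / u ^ 190
      ≤ k * (u ^ 1000 + u ^ 1810 + 1200 * u ^ 8 + 1200 * u ^ 809 + 2 * u ^ 10
          + 13824000000 * u ^ 27 + 2 * u ^ 810) := by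
  have h190 : 0 < u ^ 190 := by positivity
  rw [div_le_iff₀ h190]
  have a : u ^ 190 ≤ u ^ 190 * (u ^ 1000 * k) := le_mul_of_one_le_right h190.le hk1
  have c : 3 * (200 / u) * (a0 + 1) ≤ 3 * (200 / u) * (u ^ 199 * (2 * k) + 2 * (u ^ 1000 * k)) :=
    mul_le_mul_of_nonneg_left (by linarith) (by positivity)
  have c' : 3 * (200 / u) * (u ^ 199 * (2 * k) + 2 * (u ^ 1000 * k)) =
      k * (1200 * u ^ 8 + 1200 * u ^ 809) * u ^ 190 := by
    field_simp
    ring
  have e : 864 * (200 / u) ^ 3 * (2 * k) / ((u ^ 600)⁻¹ * (u ^ 190) ^ 2) =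
      k * (13824000000 * u ^ 27) * u ^ 190 := by
    field_simp
    ring
  have f : 2 * k * P ≤ 2 * k * u ^ 1000 := mul_le_mul_of_nonneg_left h5 (by positivity)
  have g : k * (u ^ 1000 + u ^ 1810 + 1200 * u ^ 8 + 1200 * u ^ 809 + 2 * u ^ 10
          + 13824000000 * u ^ 27 + 2 * u ^ 810) * u ^ 190 =
      u ^ 190 * (u ^ 1000 * k) + (u ^ 1000) ^ 2 * k + k * (1200 * u ^ 8 + 1200 * u ^ 809) * u ^ 190
        + u ^ 200 * (2 * k) + k * (13824000000 * u ^ 27) * u ^ 190 + 2 * k * u ^ 1000 := by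
    ring
  rw [g, e]
  exact add_le_add (add_le_add (add_le_add (add_le_add (add_le_add a h4) (c.trans_eq c')) le_rfl)
    le_rfl) f

theorem partB (u k p ε : ℝ) (hu : 0 < u) (hk : 0 < k) (h6 : p ≤ u ^ 1000)
    (hε : ε ≤ 2 * u ^ 1000) :
    k * (u ^ 600)⁻¹ * (1900 * (u ^ 190) ^ 4 + 1300 * ε
          + 320000 * u ^ 190 * u ^ 116 *
            ((u ^ 300)⁻¹ * (2 * k) / (k * (u ^ 600)⁻¹) + (u ^ 190) ^ 4 + ε)
          + 32 * (u ^ 190) ^ 2 * p)
      ≤ k * (1900 * u ^ 160 + 2600 * u ^ 400 + 640000 * u ^ 6 + 320000 * u ^ 466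
          + 640000 * u ^ 706 + 32 * u ^ 780) := by
  have e : k * (u ^ 600)⁻¹ * (1900 * (u ^ 190) ^ 4 + 1300 * (2 * u ^ 1000)
          + 320000 * u ^ 190 * u ^ 116 *
            ((u ^ 300)⁻¹ * (2 * k) / (k * (u ^ 600)⁻¹) + (u ^ 190) ^ 4 + 2 * u ^ 1000)
          + 32 * (u ^ 190) ^ 2 * u ^ 1000) =
      k * (1900 * u ^ 160 + 2600 * u ^ 400 + 640000 * u ^ 6 + 320000 * u ^ 466
          + 640000 * u ^ 706 + 32 * u ^ 780) := by
    field_simp
    ring
  rw [← e]
  refine mul_le_mul_of_nonneg_left ?_ (by positivity)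
  refine add_le_add (add_le_add (add_le_add le_rfl ?_) ?_) ?_
  · exact mul_le_mul_of_nonneg_left hε (by norm_num)
  · exact mul_le_mul_of_nonneg_left (add_le_add le_rfl hε) (by positivity)
  · exact mul_le_mul_of_nonneg_left h6 (by positivity)

end JNum2

theorem stNum2 : StNum2 := by
  intro u D k r a0 lg P p ε hu hu1 hD hr h1 h2 h3 h4 h5 h6 hε
  have hu1' : u ≤ 1 := hu1.trans (by norm_num)
  have pw : ∀ n, 7 ≤ n → u ^ n ≤ u ^ 7 := fun n hn => pow_le_pow_of_le_one hu.le hu1' hn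
  have ht : 0 < u ^ 1000 := by positivity
  have hk1 : 1 ≤ u ^ 1000 * k := by linarith
  have hk0 : 0 < u ^ 1000 * k := lt_of_lt_of_le one_pos hk1
  have hk : 0 < k := (mul_pos_iff_of_pos_left ht).1 hk0
  have hDe : D = (u ^ 600)⁻¹ := eq_inv_of_mul_eq_one_left hD
  have hsq : Real.sqrt D = (u ^ 300)⁻¹ := by
    have e : D = ((u ^ 300)⁻¹) ^ 2 := by
      rw [hDe, inv_pow, ← pow_mul]
    rw [e, Real.sqrt_sq (by positivity)]
  have hε2 : ε ≤ 2 * u ^ 1000 := by
    have h600 : u ^ 600 ≤ 1 := pow_le_one₀ hu.le hu1'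
    have hD1 : 1 ≤ D := by
      rw [hDe]
      exact (one_le_inv₀ (by positivity)).2 h600
    have h7 : (r + 1) / (k * D) ≤ u ^ 1000 := by
      rw [div_le_iff₀ (by positivity)]
      refine h2.trans (mul_le_mul_of_nonneg_left ?_ ht.le)
      exact le_mul_of_one_le_right hk.le hD1
    rw [hε, two_mul]
    exact add_le_add h1 h7
  have hA := JNum2.partA u k a0 lg P hu hk hk1 h3 h4 h5
  have hB := JNum2.partB u k p ε hu hk h6 hε2
  have hr2 : 2 * r ≤ k * (2 * u ^ 1000) := by linarith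
  rw [hsq, hDe]
  refine (add_le_add (add_le_add hr2 hA) hB).trans ?_
  rw [← mul_add, ← mul_add, mul_comm _ k]
  refine mul_le_mul_of_nonneg_left ?_ hk.le
  have h7 : u ^ 7 ≤ 1 / 10 ^ 12 * u ^ 6 := by
    rw [pow_succ']
    exact mul_le_mul_of_nonneg_right hu1 (by positivity)
  have h6' : 0 ≤ u ^ 6 := by positivity
  have p1 := pw 1000 (by norm_num)
  have p2 := pw 1810 (by norm_num)
  have p3 := pw 8 (by norm_num)
  have p4 := pw 809 (by norm_num)
  have p5 := pw 10 (by norm_num)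
  have p6 := pw 27 (by norm_num)
  have p7 := pw 810 (by norm_num)
  have p8 := pw 160 (by norm_num)
  have p9 := pw 400 (by norm_num)
  have p10 := pw 466 (by norm_num)
  have p11 := pw 706 (by norm_num)
  have p12 := pw 780 (by norm_num)
  linarith

end Pool.Agent.MP_32a90a_pr.L

end

section

set_option autoImplicit false

namespace Pool.Agent.MP_32a90a_pr.L

open Finset Equiv

namespace JMatch

variable {V E : Type} [Fintype V] [DecidableEq V]

/-- the difference of the multiplicities -/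
noncomputable def co (J : Finset E) (t t2 : E → V) (v : V) : ℝ :=
  ((J.filter fun i => t2 i = v).card : ℝ) - ((J.filter fun i => t i = v).card : ℝ)

theorem sum_card (J : Finset E) (t : E → V) (φ : V → ℝ) :
    ∑ v, ((J.filter fun i => t i = v).card : ℝ) * φ v = ∑ i ∈ J, φ (t i) := by
  rw [← Finset.sum_fiberwise J t fun i => φ (t i)]
  refine sum_congr rfl fun v _ => ?_
  rw [sum_congr rfl fun i hi => congrArg φ (mem_filter.1 hi).2, sum_const, nsmul_eq_mul]

theorem sum_co (J : Finset E) (t t2 : E → V) (φ : V → ℝ) :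
    ∑ v, co J t t2 v * φ v = ∑ i ∈ J, (φ (t2 i) - φ (t i)) := by
  simp only [co, sub_mul, sum_sub_distrib, sum_card]

open Classical in
theorem card_le (J S : Finset E) (t t2 : E → V) (hS : S ⊆ J)
    (h : ∀ i ∈ S, ∀ i' ∈ J, t i' ≠ t2 i) : (S.card : ℝ) ≤ ∑ v, co J t t2 v ^ 2 := by
  have h1 := sum_card S t2 fun _ => 1
  rw [sum_const, nsmul_eq_mul, mul_one] at h1
  rw [← h1]
  refine sum_le_sum fun v _ => ?_
  rw [mul_one]
  rcases (S.filter fun i => t2 i = v).eq_empty_or_nonempty with h2 | ⟨i, hi⟩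
  · rw [h2, card_empty, Nat.cast_zero]
    exact sq_nonneg _
  · obtain ⟨hi', rfl⟩ := mem_filter.1 hi
    have h3 : (J.filter fun i' => t i' = t2 i) = ∅ := filter_eq_empty_iff.2 (h i hi')
    rw [co, h3, card_empty, Nat.cast_zero, sub_zero]
    have h4 : (S.filter fun i' => t2 i' = t2 i).card ≤ (J.filter fun i' => t2 i' = t2 i).card :=
      card_le_card (filter_subset_filter _ hS)
    exact_mod_cast h4.trans (Nat.le_self_pow two_ne_zero _)

theorem sgn_not (b : Bool) : sgn (!b) = -sgn b := by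
  cases b <;> simp [sgn]

theorem sgn_abs (r : ℝ) : sgn (decide (r < 0)) * r = -|r| := by
  by_cases h : r < 0
  · simp [sgn, h, abs_of_neg h]
  · simp [sgn, h, abs_of_nonneg (not_lt.1 h)]

variable [Fintype E] [DecidableEq E]

omit [DecidableEq E] in
theorem en_le (w : E × Bool → V) (s : E → ℝ) {x : V → Bool} (hx : x ∈ bal V) :
    en Y1 s w x ≤ mx (bal V) Y1 s w :=
  le_ciSup (f := fun ω : bal V => en Y1 s w ω) (Finite.bddAbove_range _) ⟨x, hx⟩

/-- the energy difference -/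
noncomputable def dl (I : Finset E) (w : E × Bool → V) (ρ : Perm E) (x : V → Bool) : ℝ :=
  ∑ i ∈ I, sgn (x (w (i, false))) * (sgn (x (w (ρ i, true))) - sgn (x (w (i, true))))

omit [Fintype V] [DecidableEq V] in
theorem en_sub (I : Finset E) (w : E × Bool → V) (ρ : Perm E) (h : ∀ i, i ∉ I → ρ i = i)
    (x : V → Bool) :
    en Y1 (fun _ => -1) w x - en Y1 (fun _ => -1) (w ∘ lift ρ) x = dl I w ρ x := by
  rw [en, en, ← sum_sub_distrib, dl]
  symm
  refine sum_subset_zero_on_sdiff (subset_univ _) (fun i hi => ?_) fun i _ => ?_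
  · have e : (w ∘ lift ρ) (i, true) = w (ρ i, true) := rfl
    have e' : (w ∘ lift ρ) (i, false) = w (i, false) := rfl
    rw [e, e', h i (mem_sdiff.1 hi).2, sub_self]
  · have e : (w ∘ lift ρ) (i, true) = w (ρ i, true) := rfl
    have e' : (w ∘ lift ρ) (i, false) = w (i, false) := rfl
    rw [e, e', Y1, Y1]
    ring

theorem abs_sum_le (w : E × Bool → V) (l : ℝ) (A B : Finset V) (ρ : Perm E)
    (hAB : Disjoint A B) (hρ : ∀ i, i ∉ slots A B w → ρ i = i)
    (h1 : Shat (near w l) (A ∪ B)) (h2 : Shat (near (w ∘ lift ρ) l) (A ∪ B)) (τ : V → Bool) :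
    ∑ u ∈ A, |∑ v, co ((slots A B w).filter fun i => w (i, false) = u) (fun i => w (i, true))
      (fun i => w (ρ i, true)) v * sgn (τ v)| ≤ l := by
  classical
  have hI : ∀ i ∈ slots A B w, w (i, false) ∈ A ∧ w (i, true) ∈ B := fun i hi =>
    (mem_filter.1 hi).2
  have hI2 : ∀ i ∈ slots A B w, w (ρ i, true) ∈ B := fun i hi => by
    by_cases h : ρ i ∈ slots A B w
    · exact (hI _ h).2
    · rw [ρ.injective (hρ _ h)]
      exact (hI i hi).2
  have hc : ∀ x y : V → Bool, (∀ v ∈ A ∪ B, x v = y v) →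
      dl (slots A B w) w ρ x = dl (slots A B w) w ρ y := fun x y h =>
    sum_congr rfl fun i hi => by
      rw [h _ (mem_union_left _ (hI i hi).1), h _ (mem_union_right _ (hI i hi).2),
        h _ (mem_union_right _ (hI2 i hi))]
  have hl : ∀ σ : V → Bool, -l ≤ dl (slots A B w) w ρ σ := fun σ => by
    obtain ⟨x, hx, hxσ⟩ := h1 σ
    obtain ⟨y, hy, hyσ⟩ := h2 fun v => if v ∈ A then !σ v else σ v
    obtain ⟨hx1, hx2⟩ := mem_filter.1 hx
    obtain ⟨hy1, hy2⟩ := mem_filter.1 hy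
    have e1 := en_sub _ w ρ hρ x
    have e2 := en_sub _ w ρ hρ y
    have e3 : dl (slots A B w) w ρ (fun v => if v ∈ A then !σ v else σ v) =
        -dl (slots A B w) w ρ σ := by
      rw [dl, dl, ← sum_neg_distrib]
      refine sum_congr rfl fun i hi => ?_
      rw [if_pos (hI i hi).1, if_neg (disjoint_right.1 hAB (hI i hi).2),
        if_neg (disjoint_right.1 hAB (hI2 i hi)), sgn_not, neg_mul]
    rw [hc _ _ hxσ] at e1
    rw [hc _ _ hyσ, e3] at e2
    have e4 := en_le (w ∘ lift ρ) (fun _ => -1) hx1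
    have e5 := en_le w (fun _ => -1) hy1
    linarith
  simp only [sum_co _ _ _ fun v => sgn (τ v)]
  let g : V → ℝ := fun u => ∑ i ∈ (slots A B w).filter fun i => w (i, false) = u,
    (sgn (τ (w (ρ i, true))) - sgn (τ (w (i, true))))
  have h3 := hl fun v => if v ∈ A then decide (g v < 0) else τ v
  have h4 : dl (slots A B w) w ρ (fun v => if v ∈ A then decide (g v < 0) else τ v) =
      -∑ u ∈ A, |g u| := by
    rw [dl, ← sum_fiberwise_of_maps_to (g := fun i => w (i, false)) fun i hi => (hI i hi).1,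
      ← sum_neg_distrib]
    refine sum_congr rfl fun u hu => ?_
    rw [← sgn_abs, mul_sum]
    refine sum_congr rfl fun i hi => ?_
    obtain ⟨hi, hu'⟩ := mem_filter.1 hi
    rw [if_neg (disjoint_right.1 hAB (hI i hi).2), if_neg (disjoint_right.1 hAB (hI2 i hi)), hu',
      if_pos hu]
  rw [h4] at h3
  exact neg_le_neg_iff.1 h3

end JMatch

open JMatch in
theorem stMatch (h : StKhin) : StMatch := by
  intro V E _ _ _ _ w d a0 a l A B ρ hEM ha0 hAB hA hB hρ hl hd h1 h2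
  classical
  rcases Nat.eq_zero_or_pos a with rfl | ha
  · simp only [Nat.cast_zero, ne_eq, OfNat.ofNat_ne_zero, not_false_eq_true, zero_pow, mul_zero]
    positivity
  rcases Nat.eq_zero_or_pos d with rfl | hd0
  · simp only [Nat.cast_zero, zero_mul]
    positivity
  have hn : (0 : ℝ) < Fintype.card V := by
    have := card_le_univ B
    exact_mod_cast (by omega : 0 < Fintype.card V)
  have ha' : (0 : ℝ) < a := by exact_mod_cast ha
  have hd' : (0 : ℝ) < d := by exact_mod_cast hd0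
  let P : E → Prop := fun i => ∃ i' ∈ slots A B w,
    w (i', false) = w (i, false) ∧ w (i', true) = w (ρ i, true)
  let S : V → Finset E := fun u => (slots A B w).filter fun i => w (i, false) = u ∧ ¬ P i
  let c : V → V → ℝ := fun u => co ((slots A B w).filter fun i => w (i, false) = u)
    (fun i => w (i, true)) (fun i => w (ρ i, true))
  have hS : ∀ u, ((S u).card : ℝ) ≤ ∑ v, c u v ^ 2 := fun u => by
    refine card_le _ _ _ _ (fun i hi => ?_) fun i hi i' hi' he => ?_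
    · exact mem_filter.2 ⟨(mem_filter.1 hi).1, (mem_filter.1 hi).2.1⟩
    · exact (mem_filter.1 hi).2.2 ⟨i', (mem_filter.1 hi').1,
        (mem_filter.1 hi').2.trans (mem_filter.1 hi).2.1.symm, he⟩
  have hK : ∑ u ∈ A, Real.sqrt ((S u).card : ℝ) ≤ 2 * l := by
    have k1 : ∑ u ∈ A, (2 : ℝ) ^ Fintype.card V * (Real.sqrt ((S u).card : ℝ) / 2) ≤
        ∑ u ∈ A, ∑ τ : V → Bool, |∑ v, c u v * sgn (τ v)| := by
      refine sum_le_sum fun u _ => le_trans ?_ (h V (c u))
      gcongr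
      exact hS u
    have k2 : ∑ τ : V → Bool, ∑ u ∈ A, |∑ v, c u v * sgn (τ v)| ≤ ∑ _τ : V → Bool, l :=
      sum_le_sum fun τ _ => abs_sum_le w l A B ρ hAB hρ h1 h2 τ
    rw [sum_const, card_univ, Fintype.card_fun, Fintype.card_bool, nsmul_eq_mul, Nat.cast_pow,
      Nat.cast_ofNat, sum_comm] at k2
    rw [← mul_sum, ← sum_div] at k1
    have k3 := le_of_mul_le_mul_left (k1.trans k2) (by positivity)
    linarith
  obtain ⟨N, hN⟩ : ∃ N : ℝ, N = d * a / (8 * Fintype.card V) := ⟨_, rfl⟩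
  have hN0 : 0 < N := by rw [hN]; positivity
  have hN1 : 8 * Fintype.card V * N = d * a := by rw [hN]; field_simp
  have h2l : 2 * l ≤ a * Real.sqrt N := by
    refine (pow_le_pow_iff_left₀ (by positivity) (by positivity) two_ne_zero).1 ?_
    rw [mul_pow (a : ℝ), Real.sq_sqrt hN0.le]
    refine le_of_mul_le_mul_left ?_ (by positivity : (0 : ℝ) < 8 * Fintype.card V)
    have : 8 * (Fintype.card V : ℝ) * (a ^ 2 * N) = d * a ^ 3 := by
      linear_combination (a : ℝ) ^ 2 * hN1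
    rw [this]
    linarith
  have hbad : (A.filter fun u => ¬ ((S u).card : ℝ) ≤ N).card ≤ a := by
    have k1 : ∑ _u ∈ A.filter fun u => ¬ ((S u).card : ℝ) ≤ N, Real.sqrt N ≤
        ∑ u ∈ A, Real.sqrt ((S u).card : ℝ) :=
      (sum_le_sum fun u hu => Real.sqrt_le_sqrt (not_le.1 (mem_filter.1 hu).2).le).trans
        (sum_le_sum_of_subset_of_nonneg (filter_subset _ _) fun _ _ _ => Real.sqrt_nonneg _)
    rw [sum_const, nsmul_eq_mul] at k1
    exact_mod_cast le_of_mul_le_mul_right (k1.trans (hK.trans h2l)) (Real.sqrt_pos.2 hN0)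
  have hgood : a ≤ (A.filter fun u => ((S u).card : ℝ) ≤ N).card := by
    have := card_filter_add_card_filter_not (s := A) fun u => ((S u).card : ℝ) ≤ N
    omega
  obtain ⟨A2, hA2, hA2c⟩ := exists_subset_card_eq hgood
  have hsub : A2 ⊆ A := hA2.trans (filter_subset _ _)
  have hE := hEM A2 B (disjoint_of_subset_left hsub hAB) (hA2c.trans hB.symm) (hA2c ▸ ha0)
  rw [hA2c] at hE
  have hcov : slots A2 B w ⊆ (slots A B w).filter P ∪ A2.biUnion S := by
    intro i hi
    obtain ⟨-, hi1, hi2⟩ := mem_filter.1 hi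
    have hi' : i ∈ slots A B w := mem_filter.2 ⟨mem_univ _, hsub hi1, hi2⟩
    by_cases hP : P i
    · exact mem_union_left _ (mem_filter.2 ⟨hi', hP⟩)
    · exact mem_union_right _ (mem_biUnion.2 ⟨_, hi1, mem_filter.2 ⟨hi', rfl, hP⟩⟩)
  have hcard : ((slots A2 B w).card : ℝ) ≤ (((slots A B w).filter P).card : ℝ) + a * N := by
    have k1 : (slots A2 B w).card ≤ ((slots A B w).filter P).card + ∑ u ∈ A2, (S u).card :=
      (card_le_card hcov).trans ((card_union_le _ _).trans (Nat.add_le_add_left card_biUnion_le _))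
    have k2 : ∑ u ∈ A2, ((S u).card : ℝ) ≤ ∑ _u ∈ A2, N :=
      sum_le_sum fun u hu => (mem_filter.1 (hA2 hu)).2
    rw [sum_const, hA2c, nsmul_eq_mul] at k2
    have k3 : ((slots A2 B w).card : ℝ) ≤
        (((slots A B w).filter P).card : ℝ) + ∑ u ∈ A2, ((S u).card : ℝ) := by exact_mod_cast k1
    linarith
  have hfin := mul_le_mul_of_nonneg_left hcard (by positivity : (0 : ℝ) ≤ 4 * Fintype.card V)
  have : 4 * (Fintype.card V : ℝ) * (a * N) = d * a ^ 2 / 2 := by
    linear_combination (a : ℝ) / 2 * hN1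
  have hgoal : (d : ℝ) * (a : ℝ) ^ 2 ≤
      8 * (Fintype.card V : ℝ) * (((slots A B w).filter P).card : ℝ) := by
    rw [mul_add, this] at hfin
    linarith
  convert hgoal

end Pool.Agent.MP_32a90a_pr.L

end

section

set_option autoImplicit false

namespace Pool.Agent.MP_32a90a_pr.L

open Finset Equiv

namespace JRig

variable {V E : Type} [Fintype V] [DecidableEq V] [Fintype E] [DecidableEq E]

/-- the lift as a homomorphism -/
def liftH : Perm E →* Perm (E × Bool) where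
  toFun := lift
  map_one' := Equiv.ext fun ⟨_, b⟩ => by cases b <;> rfl
  map_mul' _ _ := Equiv.ext fun ⟨_, b⟩ => by cases b <;> rfl

omit [Fintype E] [DecidableEq E] in
theorem liftH_inj : Function.Injective (liftH : Perm E → Perm (E × Bool)) := fun _ _ h =>
  Equiv.ext fun i => congrArg Prod.fst (DFunLike.congr_fun h (i, true))

/-- permutations fixing the complement of I -/
def Fx (I : Finset E) : Subgroup (Perm E) where
  carrier := {ρ | ∀ i, i ∉ I → ρ i = i}
  mul_mem' := fun {ρ σ} hρ hσ i hi => by rw [Perm.mul_apply, hσ i hi, hρ i hi]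
  one_mem' := fun _ _ => rfl
  inv_mem' := fun {ρ} hρ i hi => by rw [Perm.inv_eq_iff_eq, hρ i hi]

omit [Fintype V] [DecidableEq E] in
theorem slots_lift {A B : Finset V} {w : E × Bool → V} {ρ : Perm E}
    (h : ∀ i, i ∉ slots A B w → ρ i = i) : slots A B (w ∘ lift ρ) = slots A B w := by
  ext i
  have e : i ∈ slots A B (w ∘ lift ρ) ↔ w (i, false) ∈ A ∧ w (ρ i, true) ∈ B := by
    simp only [slots, mem_filter, mem_univ, true_and]
    rfl
  have e' : ∀ i, i ∈ slots A B w ↔ w (i, false) ∈ A ∧ w (i, true) ∈ B := fun i => by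
    simp only [slots, mem_filter, mem_univ, true_and]
  rw [e]
  by_cases hi : i ∈ slots A B w
  · have h1 : ρ i ∈ slots A B w := by
      by_contra h2
      rw [ρ.injective (h _ h2)] at h2
      exact h2 hi
    exact iff_of_true ⟨((e' i).1 hi).1, ((e' _).1 h1).2⟩ hi
  · rw [h i hi, e']

omit [DecidableEq E] in
theorem shat_mono {w : E × Bool → V} {l l' : ℝ} {W W' : Finset V} (h : Shat (near w l) W)
    (hl : l ≤ l') (hW : W' ⊆ W) : Shat (near w l') W' := by
  intro τ
  obtain ⟨x, hx, hτ⟩ := h τ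
  refine ⟨x, ?_, fun v hv => hτ v (hW hv)⟩
  simp only [near, mem_filter] at hx ⊢
  exact ⟨hx.1, by linarith [hx.2]⟩

/-- the pair A, B witnesses the failure of rigidity -/
def Bd (d a0 : ℕ) (A B : Finset V) (w : E × Bool → V) : Prop :=
  Disjoint A B ∧ A.card = 2 * B.card ∧ a0 ≤ B.card ∧ EM d a0 w ∧ ∃ l : ℝ, 0 ≤ l ∧
    32 * l ^ 2 * (Fintype.card V : ℝ) ≤ (d : ℝ) * (B.card : ℝ) ^ 3 ∧ Shat (near w l) (A ∪ B)

omit [DecidableEq E] in
theorem exists_bd {d a0 : ℕ} {w : E × Bool → V} (h : EM d a0 w) (h' : ¬ Rig d a0 w) :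
    ∃ A B, Bd d a0 A B w := by
  unfold Rig at h'
  push Not at h'
  obtain ⟨a, l, W, ha, hl, hW, hS, hd⟩ := h'
  obtain ⟨B, hB, rfl⟩ := exists_subset_card_eq (s := W) (n := a) (by omega)
  obtain ⟨A, hA, hA'⟩ := exists_subset_card_eq (s := W \ B) (n := 2 * B.card) (by
    rw [card_sdiff_of_subset hB]
    omega)
  exact ⟨A, B, disjoint_of_subset_left hA sdiff_disjoint, hA', ha, h, l, hl, hd,
    shat_mono hS le_rfl (union_subset (hA.trans sdiff_subset) hB)⟩

omit [Fintype V] [DecidableEq E] in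
theorem card_T {w : E × Bool → V} {d : ℕ} (h : Deg w d) (u : V) (T : Finset E)
    (hT : ∀ i ∈ T, ∃ i', w (i', false) = u ∧ w (i', true) = w (i, true)) : T.card ≤ d * d := by
  refine le_trans ?_ ((h.card_pre (Nb w u)).trans (Nat.mul_le_mul_left d (Nb_card h u)))
  refine card_le_card_of_injOn (fun i => (i, true)) (fun i hi => ?_)
    fun _ _ _ _ e => congrArg Prod.fst e
  obtain ⟨i', h1, h2⟩ := hT i hi
  have h3 := mem_Nb w (i', false)
  rw [h1] at h3
  exact mem_coe.2 (mem_filter.2 ⟨mem_univ _, h2 ▸ h3⟩)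

open Classical in
theorem pair_bound (h1 : StGrp) (h2 : StCount) (h3 : StMatch) (w0 : E × Bool → V) (d a0 j : ℕ)
    (hd : Deg w0 d) (hj : 8 * (Fintype.card V : ℝ) * (j : ℝ) ≤ (d : ℝ) * (a0 : ℝ) ^ 2)
    (ha : 1 ≤ a0) (A B : Finset V) :
    ((univ.filter fun π : Perm (E × Bool) => Bd d a0 A B (w0 ∘ π)).card : ℝ)
      ≤ ((d : ℝ) ^ 2) ^ j / (j.factorial : ℝ) * (Fintype.card (Perm (E × Bool)) : ℝ) := by
  refine h1 (Perm (E × Bool)) (Finset E) (fun π => slots A B (w0 ∘ π))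
    (fun I => (Fx I).map liftH) (fun π => Bd d a0 A B (w0 ∘ π)) _ (by positivity) ?_ ?_
  · rintro π _ ⟨ρ, hρ, rfl⟩
    exact slots_lift (w := w0 ∘ π) hρ
  · rintro π ⟨hAB, hA, hB, hE, l, hl, hl', hS⟩
    set w := w0 ∘ π with hw
    set I := slots A B w with hI
    let T : E → Finset E := fun i => univ.filter fun i2 =>
      ∃ i' ∈ I, w (i', false) = w (i, false) ∧ w (i', true) = w (i2, true)
    have hT : ∀ i, (T i).card ≤ d * d := fun i => card_T (hd.comp π) (w (i, false)) _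
      fun i2 hi2 => by
        obtain ⟨i', -, h⟩ := (mem_filter.1 hi2).2
        exact ⟨i', h⟩
    have h4 := h2 E I T (d * d) j hT
    have hn : (0 : ℝ) < Fintype.card V := by
      have := card_le_univ B
      exact_mod_cast (by omega : 0 < Fintype.card V)
    have h5 : (univ.filter fun σ : Perm (E × Bool) =>
        σ ∈ (Fx I).map liftH ∧ Bd d a0 A B (w0 ∘ (π * σ : Perm (E × Bool)))).card ≤
        (univ.filter fun ρ : Perm E => (∀ i, i ∉ I → ρ i = i) ∧
          j ≤ (I.filter fun i => ρ i ∈ T i).card).card := by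
      refine le_trans (card_le_card fun σ hσ => ?_) (card_image_le (f := liftH))
      obtain ⟨⟨ρ, hρ, rfl⟩, -, -, -, -, l', hl2, hl3, hS'⟩ := (mem_filter.1 hσ).2
      refine mem_image.2 ⟨ρ, mem_filter.2 ⟨mem_univ _, hρ, ?_⟩, rfl⟩
      have h6 := h3 V E w d a0 B.card (max l l') A B ρ hE hB hAB hA rfl hρ
        (le_max_of_le_left hl) (by
          rcases le_total l l' with h | h
          · rwa [max_eq_right h]
          · rwa [max_eq_left h])
        (shat_mono hS (le_max_left _ _) Subset.rfl) (shat_mono hS' (le_max_right _ _) Subset.rfl)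
      have h7 : (d : ℝ) * (a0 : ℝ) ^ 2 ≤ (d : ℝ) * (B.card : ℝ) ^ 2 := by gcongr
      have h8 := le_of_mul_le_mul_left (hj.trans (h7.trans h6)) (by positivity)
      refine (Nat.cast_le.1 h8).trans (card_le_card fun i hi => ?_)
      obtain ⟨hi1, hi2⟩ := mem_filter.1 hi
      exact mem_filter.2 ⟨hi1, mem_filter.2 ⟨mem_univ _, hi2⟩⟩
    have h9 : (univ.filter fun ρ : Perm E => ∀ i, i ∉ I → ρ i = i).card ≤
        (univ.filter fun σ : Perm (E × Bool) => σ ∈ (Fx I).map liftH).card :=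
      card_le_card_of_injOn liftH (fun ρ hρ => mem_coe.2 (mem_filter.2
        ⟨mem_univ _, ρ, (mem_filter.1 (mem_coe.1 hρ)).2, rfl⟩)) liftH_inj.injOn
    rw [Nat.cast_mul, ← sq] at h4
    exact ((Nat.cast_le.2 h5).trans h4).trans
      (mul_le_mul_of_nonneg_left (Nat.cast_le.2 h9) (by positivity))

end JRig

theorem stRig (h1 : StGrp) (h2 : StCount) (h3 : StMatch) : StRig := by
  classical
  intro V E _ _ _ _ w0 d a0 j hd hj ha
  have hN : (0 : ℝ) < Fintype.card (Perm (E × Bool)) := Nat.cast_pos.2 Fintype.card_pos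
  unfold pr av
  rw [div_le_iff₀ hN]
  have h4 : (univ.filter fun π : Perm (E × Bool) =>
      EM d a0 (w0 ∘ π) ∧ ¬ Rig d a0 (w0 ∘ π)).card ≤ ∑ p : Finset V × Finset V,
      (univ.filter fun π : Perm (E × Bool) => JRig.Bd d a0 p.1 p.2 (w0 ∘ π)).card := by
    refine le_trans (card_le_card fun π hπ => ?_) card_biUnion_le
    obtain ⟨A, B, h⟩ := JRig.exists_bd (mem_filter.1 hπ).2.1 (mem_filter.1 hπ).2.2
    exact mem_biUnion.2 ⟨(A, B), mem_univ _, mem_filter.2 ⟨mem_univ _, h⟩⟩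
  have h5 := (Nat.cast_le (α := ℝ)).2 h4
  rw [Nat.cast_sum] at h5
  have h6 := h5.trans (sum_le_sum fun p _ => JRig.pair_bound h1 h2 h3 w0 d a0 j hd hj ha p.1 p.2)
  rw [sum_const, card_univ, Fintype.card_prod, Fintype.card_finset, ← mul_pow, nsmul_eq_mul,
    Nat.cast_pow, ← mul_assoc] at h6
  rw [← sum_boole] at h6
  convert h6 using 4
  norm_num

end Pool.Agent.MP_32a90a_pr.L

end

section

set_option autoImplicit false

namespace Pool.Agent.MP_32a90a_pr.L

open Finset Equiv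

namespace JCav

variable {V E Ω : Type} [Fintype V] [DecidableEq V] [Fintype E] [DecidableEq E]
variable {S : Finset Ω} {Y : Ω → V → V → ℝ} {φ : Ω → V → ℝ} {β : ℝ} {U : Finset E}

/-- the tilt costs little -/
lemma tilt (hS : S.Nonempty) (h0 : 0 ≤ β) (h1 : β ≤ 1 / 100) (s : E → ℝ) (w : E × Bool → V)
    {y f g : Ω → ℝ} (hy : ∀ ω, |y ω| ≤ 3 * β) (hf : ∀ ω, |f ω| ≤ |g ω|) :
    gb S Y β s w (fun ω => f ω - g ω ^ 2 / 2) - 72 * β ^ 2
      ≤ gb S Y β s w (fun ω => Real.exp (y ω) * f ω) / gb S Y β s w (fun ω => Real.exp (y ω)) := by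
  have h2 := (abs_le.1 (abs_wav_exp_sub (f := f) hS (bw_pos' S Y β s w) fun ω _ => hy ω)).1
  have h3 : Real.exp (2 * (3 * β)) ≤ 1 + 2 * (2 * (3 * β)) :=
    exp_le_one_add_two (by positivity) (by linarith)
  have h4 : 0 ≤ gb S Y β s w fun ω => |f ω| := const_le_gb hS fun ω _ => abs_nonneg _
  have h5 : gb S Y β s w (fun ω => 12 * β * |f ω|)
      ≤ gb S Y β s w fun ω => g ω ^ 2 / 2 + 72 * β ^ 2 := by
    refine gb_mono hS fun ω _ => ?_
    have := mul_le_mul_of_nonneg_left (hf ω) (show 0 ≤ 12 * β by positivity)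
    nlinarith [sq_nonneg (|g ω| - 12 * β), sq_abs (g ω)]
  rw [gb_mul, gb_add, gb_const hS] at h5
  rw [gb_sub]
  have h6 : (Real.exp (2 * (3 * β)) - 1) * gb S Y β s w (fun ω => |f ω|)
      ≤ 12 * β * gb S Y β s w fun ω => |f ω| := mul_le_mul_of_nonneg_right (by linarith) h4
  unfold gb at *
  linarith

lemma active (w0 : E × Bool → V) (hS : S.Nonempty) (hY : ∀ ω u v, |Y ω u v| ≤ 3)
    (hφ : ∀ ω v, |φ ω v| ≤ 1) (h0 : 0 ≤ β) (h1 : β ≤ 1 / 100) (hU : 1 ≤ U.card) {s : E → ℝ}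
    (hs : ∀ i ∈ U, s i = 0) {j : E} (hj : j ∉ U) (hsj : s j = 0) {J : ℝ} (hJ : |J| ≤ 1)
    (c : Bool) :
    av w0 (fun w => gb S Y β s w fun ω => aQ U (φ ω) w ^ 2) / 2 - 72 * β ^ 2 - 4 / (U.card : ℝ)
      ≤ av w0 fun w => gb S Y β (Function.update s j J) w
          fun ω => φ ω (w (j, c)) * aQ U (φ ω) w := by
  have hg : ∀ ω w, |aQ U (φ ω) w| ≤ 1 := fun ω w => abs_aQ_le hU (hφ ω) w
  have hm : ∀ ω v w, |φ ω v * aQ U (φ ω) w| ≤ |aQ U (φ ω) w| := fun ω v w => by
    rw [abs_mul]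
    exact mul_le_of_le_one_left (abs_nonneg _) (hφ ω v)
  have key := offdiag_ge (w0 := w0) hU j
    (G := fun w => gb S Y β (Function.update s j J) w fun ω => φ ω (w (j, c)) * aQ U (φ ω) w)
    (K := fun w a b => gb S Y β s w fun ω =>
      φ ω (w (if c then b else a)) * aQ U (φ ω) w - aQ U (φ ω) w ^ 2 / 2)
    (c := 2) (η := 72 * β ^ 2 + 2 / (U.card : ℝ)) (by positivity)
    (fun w => abs_gb_le hS fun ω _ => ((hm ω _ w).trans (hg ω w)).trans (by norm_num))
    (fun w a b => abs_gb_le hS fun ω _ => by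
      have e1 := abs_le.1 ((hm ω (w (if c then b else a)) w).trans (hg ω w))
      have e2 : aQ U (φ ω) w ^ 2 ≤ 1 := (sq_le_one_iff_abs_le_one _).2 (hg ω w)
      have e3 := sq_nonneg (aQ U (φ ω) w)
      exact abs_le.2 ⟨by linarith [e1.1], by linarith [e1.2]⟩)
    (by
      intro w a ha b hb hab
      have e : ex j a b (j, c) = if c then b else a := by
        cases c
        · exact ex_false hj ha hb
        · exact ex_true hj ha hb hab
      have t1 := tilt (Y := Y) hS h0 h1 s w (y := fun ω => β * J * Y ω (w a) (w b))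
        (f := fun ω => φ ω (w (if c then b else a)) * aQ U (φ ω) w) (g := fun ω => aQ U (φ ω) w)
        (fun ω => by
          rw [abs_mul, abs_mul, abs_of_nonneg h0]
          have := mul_le_mul hJ (hY ω (w a) (w b)) (abs_nonneg _) zero_le_one
          nlinarith) fun ω => hm ω _ w
      rw [← gb_ex hS Y β hs hsj hj ha hb hab J w] at t1
      have t2 : gb S Y β (Function.update s j J) (w ∘ ex j a b)
            (fun ω => φ ω (w (if c then b else a)) * aQ U (φ ω) w - 2 / (U.card : ℝ))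
          ≤ gb S Y β (Function.update s j J) (w ∘ ex j a b)
            fun ω => φ ω ((w ∘ ex j a b) (j, c)) * aQ U (φ ω) (w ∘ ex j a b) := by
        refine gb_mono hS fun ω _ => ?_
        rw [Function.comp_apply, e]
        have u1 := aQ_ex (a := a) (b := b) hj hU (hφ ω) w
        have u2 : |φ ω (w (if c then b else a)) *
            (aQ U (φ ω) (w ∘ ex j a b) - aQ U (φ ω) w)| ≤ 2 / (U.card : ℝ) := by
          rw [abs_mul]
          exact (mul_le_of_le_one_left (abs_nonneg _) (hφ ω _)).trans u1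
        have u3 := (abs_le.1 u2).1
        linarith [mul_sub (φ ω (w (if c then b else a))) (aQ U (φ ω) (w ∘ ex j a b))
          (aQ U (φ ω) w)]
      rw [gb_sub, gb_const hS] at t2
      linarith)
  have e : ∀ w : E × Bool → V, aQQ U (fun a b => gb S Y β s w fun ω =>
      φ ω (w (if c then b else a)) * aQ U (φ ω) w - aQ U (φ ω) w ^ 2 / 2)
      = (gb S Y β s w fun ω => aQ U (φ ω) w ^ 2) / 2 := by
    intro w
    rw [← gb_aQQ, ← gb_div]
    refine gb_congr fun ω _ => ?_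
    have e1 : aQQ U (fun a b => φ ω (w (if c then b else a))) = aQ U (φ ω) w := by
      cases c
      · exact aQQ_left hU (φ ω) w
      · exact aQQ_right hU (φ ω) w
    rw [aQQ_sub, aQQ_const hU]
    simp only [mul_comm _ (aQ U (φ ω) w)]
    rw [aQQ_smul, e1]
    ring
  simp only [e] at key
  rw [av_div] at key
  have e4 : 4 / (U.card : ℝ) = 2 / (U.card : ℝ) + 2 / (U.card : ℝ) := by ring
  linarith

end JCav

theorem stCav : StCav := by
  intro V E Ω _ _ _ _ w0 d S Y φ β U z s hd hS hY hφ h0 h1 hU hP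
  obtain ⟨i0, -⟩ := card_pos.1 hU
  have : Nonempty E := ⟨i0⟩
  have hN : (0 : ℝ) < Fintype.card E := by exact_mod_cast Fintype.card_pos
  have hr : (0 : ℝ) < U.card := by exact_mod_cast hU
  have hg : ∀ ω w, |aQ U (φ ω) w| ≤ 1 := fun ω w => abs_aQ_le hU (hφ ω) w
  obtain ⟨B, hB⟩ : ∃ B, B = av w0 (fun w => gb S Y β s w fun ω => aQ U (φ ω) w ^ 2) := ⟨_, rfl⟩
  obtain ⟨A, hA⟩ : ∃ A, A = av w0 (fun w => gb S Y β s w fun ω => aV (φ ω) ^ 2) := ⟨_, rfl⟩
  have hB1 : B ≤ 1 := by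
    rw [hB]
    exact av_le_const fun w => gb_le_const hS fun ω _ => (sq_le_one_iff_abs_le_one _).2 (hg ω w)
  have hlow : ∀ p : E × Bool, B / 4 - 72 * β ^ 2 - 4 / (U.card : ℝ)
      - (if s p.1 = 0 then 5 / 4 else 0)
      ≤ av w0 fun w => gb S Y β s w fun ω => φ ω (w p) * aQ U (φ ω) w := by
    rintro ⟨j, c⟩
    by_cases hj : s j = 0
    · rw [if_pos hj]
      have e1 : -1 ≤ av w0 fun w => gb S Y β s w fun ω => φ ω (w (j, c)) * aQ U (φ ω) w := by
        refine const_le_av fun w => const_le_gb hS fun ω _ => (abs_le.1 ?_).1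
        rw [abs_mul]
        exact mul_le_one₀ (hφ ω _) (abs_nonneg _) (hg ω w)
      have e2 : 0 ≤ 4 / (U.card : ℝ) := by positivity
      nlinarith [sq_nonneg β]
    · rw [if_neg hj]
      have hjU : j ∉ U := fun h => hj (hP.2.1 j h)
      have e1 := JCav.active w0 hS hY hφ h0 h1 hU (s := Function.update s j 0)
        (fun i hi => by
          rw [Function.update_of_ne (ne_of_mem_of_not_mem hi hjU)]
          exact hP.2.1 i hi) hjU (Function.update_self ..) (hP.abs_le j) c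
      rw [Function.update_idem, Function.update_eq_self] at e1
      have e2 : B ≤ 2 * av w0
          (fun w => gb S Y β (Function.update s j 0) w fun ω => aQ U (φ ω) w ^ 2) := by
        rw [hB, ← av_mul]
        exact av_mono fun w => (gb_remove hS hY h0 h1 j (hP.abs_le j) fun ω _ => sq_nonneg _).1
      linarith
  have hsum := sum_le_sum fun p (_ : p ∈ univ) => hlow p
  have hup : ∑ p : E × Bool, (av w0 fun w => gb S Y β s w fun ω => φ ω (w p) * aQ U (φ ω) w)
      ≤ 2 * (Fintype.card E : ℝ) * (2 * A + B / 8) := by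
    rw [← av_sum, hA, hB, ← av_mul, ← av_div, ← av_add, ← av_mul]
    refine av_mono_deg hd fun w hw => ?_
    rw [← gb_sum, ← gb_mul, ← gb_div, ← gb_add, ← gb_mul]
    refine gb_mono hS fun ω _ => ?_
    rw [← sum_mul, sum_half_aV hw, mul_assoc]
    refine mul_le_mul_of_nonneg_left ?_ (by positivity)
    nlinarith [sq_nonneg (aV (φ ω) - aQ U (φ ω) w / 4)]
  have hz : ∑ p : E × Bool, (if s p.1 = 0 then (5 / 4 : ℝ) else 0) ≤ 5 / 2 * z := by
    have e1 : ((univ.filter fun i => s i = 0).card : ℝ) ≤ z := by exact_mod_cast hP.2.2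
    rw [Fintype.sum_prod_type_right, Fintype.sum_bool, ← sum_filter, sum_const, nsmul_eq_mul]
    linarith
  rw [sum_sub_distrib, sum_const, card_univ, Fintype.card_prod, Fintype.card_bool,
    nsmul_eq_mul] at hsum
  push_cast at hsum
  rw [← hA, ← hB]
  have e1 : (z : ℝ) / (Fintype.card E : ℝ) * (Fintype.card E : ℝ) = z :=
    div_mul_cancel₀ _ hN.ne'
  have e2 : 0 ≤ (z : ℝ) / (Fintype.card E : ℝ) := by positivity
  have e3 : 0 ≤ 1 / (U.card : ℝ) := by positivity
  have e4 : 4 / (U.card : ℝ) = 4 * (1 / (U.card : ℝ)) := by ring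
  rw [e4] at hsum
  generalize (z : ℝ) / (Fintype.card E : ℝ) = t at *
  generalize 1 / (U.card : ℝ) = ρ at *
  have e5 : (Fintype.card E : ℝ) * (B / 4) ≤ (Fintype.card E : ℝ) *
      (4 * A + 144 * β ^ 2 + 8 * ρ + 5 / 2 * t) := by nlinarith
  have e6 := le_of_mul_le_mul_left e5 hN
  nlinarith [sq_nonneg β]

end Pool.Agent.MP_32a90a_pr.L

end

section

set_option autoImplicit false
set_option linter.unusedSectionVars false

namespace Pool.Agent.MP_32a90a_pr.L

open Finset Equiv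

namespace JCavA

lemma ratio_ge {A B z τ t m : ℝ} (hτ : |τ| ≤ t) (ht : t ≤ 1 / 100) (hA : |A| ≤ m) (hB : |B| ≤ m)
    (hz : |z| ≤ 1) : A + τ * B - τ * (z * A) - 3 * t ^ 2 * m ≤ (A + τ * B) / (1 + τ * z) := by
  have t0 : 0 ≤ t := (abs_nonneg _).trans hτ
  have m0 : 0 ≤ m := (abs_nonneg _).trans hA
  have h1 : |τ * z| ≤ 1 / 100 := by
    rw [abs_mul]
    nlinarith [abs_nonneg τ, abs_nonneg z]
  have h2 := (abs_le.1 h1).1
  have h3 : |z * (z * A - B)| ≤ 2 * m := by
    have a1 : |z * A| ≤ m := by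
      rw [abs_mul]
      nlinarith [abs_nonneg A, abs_nonneg z]
    have a2 : |z * A - B| ≤ 2 * m := (abs_sub _ _).trans (by linarith)
    rw [abs_mul]
    nlinarith [abs_nonneg (z * A - B), abs_nonneg z]
  have h4 : τ ^ 2 ≤ t ^ 2 := by
    rw [← sq_abs τ]
    exact pow_le_pow_left₀ (abs_nonneg _) hτ 2
  have h5 : -(2 * t ^ 2 * m) ≤ τ ^ 2 * (z * (z * A - B)) := by
    have := (abs_le.1 h3).1
    nlinarith [sq_nonneg τ]
  have h6 : 0 ≤ t ^ 2 * m := by positivity
  rw [le_div_iff₀ (by linarith)]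
  nlinarith

variable {V E : Type} [Fintype V] [DecidableEq V] [Fintype E] [DecidableEq E]

/-- the tilted correlation of a cavity spin with the cavity magnetisation -/
noncomputable def Rr (β J : ℝ) (U : Finset E) (s : E → ℝ) (w : E × Bool → V)
    (a b : E × Bool) : ℝ :=
  gb (bal V) Y1 β s w (fun x => Real.exp (β * J * Y1 x (w a) (w b)) *
      (o1 x (w a) * aQ U (o1 x) w)) /
    gb (bal V) Y1 β s w fun x => Real.exp (β * J * Y1 x (w a) (w b))

variable {β J : ℝ} {U : Finset E} {s : E → ℝ}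

lemma abs_mul_aQ (hU : 1 ≤ U.card) (x : V → Bool) (v : V) (w : E × Bool → V) :
    |o1 x v * aQ U (o1 x) w| ≤ 1 := by
  rw [abs_mul]
  have h1 := abs_o1 x v
  have h2 := abs_aQ_le hU (abs_o1 x) w
  nlinarith [abs_nonneg (o1 x v), abs_nonneg (aQ U (o1 x) w)]

lemma abs_Rr (hb : (bal V).Nonempty) (hU : 1 ≤ U.card) (w : E × Bool → V) (a b : E × Bool) :
    |Rr β J U s w a b| ≤ 1 := by
  unfold Rr gb
  rw [← wav_tilt hb (bw_pos' _ _ _ _ _)]
  exact abs_wav_le hb (fun x _ => mul_pos (bw_pos _ _ _ _ _) (Real.exp_pos _))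
    fun x _ => abs_mul_aQ hU x _ w

lemma Rr_eq (hb : (bal V).Nonempty) (hJ : J = 1 ∨ J = -1) (w : E × Bool → V) (a b : E × Bool) :
    Rr β J U s w a b =
      (gb (bal V) Y1 β s w (fun x => o1 x (w a) * aQ U (o1 x) w) + Real.tanh β * J *
        gb (bal V) Y1 β s w fun x => o1 x (w b) * aQ U (o1 x) w) /
      (1 + Real.tanh β * J * gb (bal V) Y1 β s w fun x => Y1 x (w a) (w b)) := by
  unfold Rr
  have e1 : ∀ x : V → Bool, Real.exp (β * J * Y1 x (w a) (w b)) * (o1 x (w a) * aQ U (o1 x) w) =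
      Real.cosh β * (o1 x (w a) * aQ U (o1 x) w +
        Real.tanh β * J * (o1 x (w b) * aQ U (o1 x) w)) := fun x => by
    rw [exp_sign β J _ hJ (Y1_cases x _ _)]
    have := sgn_mul_self (x (w a))
    unfold Y1 o1
    linear_combination (Real.cosh β * Real.tanh β * J * sgn (x (w b)) *
      aQ U (fun v => sgn (x v)) w) * this
  have e2 : ∀ x : V → Bool, Real.exp (β * J * Y1 x (w a) (w b)) =
      Real.cosh β * (1 + Real.tanh β * J * Y1 x (w a) (w b)) :=
    fun x => exp_sign β J _ hJ (Y1_cases x _ _)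
  rw [gb_congr fun x _ => e1 x, gb_congr fun x _ => e2 x, gb_mul, gb_mul, gb_add, gb_add, gb_mul,
    gb_mul, gb_const hb, mul_div_mul_left _ _ (Real.cosh_pos β).ne']

lemma aQQ_corr (hU : 1 ≤ U.card) (w : E × Bool → V) (F : E × Bool → ℝ) :
    aQQ U (fun a b => (gb (bal V) Y1 β s w fun x => Y1 x (w a) (w b)) * F a) =
      aQQ U fun a _ => (gb (bal V) Y1 β s w fun x => o1 x (w a) * aQ U (o1 x) w) * F a := by
  have hr : (0 : ℝ) < U.card := by exact_mod_cast hU
  unfold aQQ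
  congr 1
  refine sum_congr rfl fun a _ => ?_
  rw [← sum_mul, sum_const, nsmul_eq_mul, card_cav, ← mul_assoc, ← gb_sum, ← gb_mul]
  congr 1
  refine gb_congr fun x _ => ?_
  unfold aQ Y1 o1
  rw [← mul_sum]
  field_simp

lemma aQQ_Rr (hb : (bal V).Nonempty) (hJ : J = 1 ∨ J = -1) (h0 : 0 ≤ β) (h1 : β ≤ 1 / 100)
    (hU : 1 ≤ U.card) (w : E × Bool → V) :
    gb (bal V) Y1 β s w (fun x => aQ U (o1 x) w ^ 2) / 2 - 9 * β ^ 4 ≤ aQQ U (Rr β J U s w) := by
  obtain ⟨t1, t2⟩ := tanh_bounds h0 (by linarith)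
  have hτ : |Real.tanh β * J| ≤ β := by
    rw [abs_mul, abs_of_nonneg (by linarith)]
    rcases hJ with rfl | rfl <;> simpa using t2
  set τ := Real.tanh β * J with hτ'
  set q := gb (bal V) Y1 β s w fun x => aQ U (o1 x) w ^ 2 with hq
  set m := gb (bal V) Y1 β s w fun x => |aQ U (o1 x) w| with hm
  let A : E × Bool → ℝ := fun a => gb (bal V) Y1 β s w fun x => o1 x (w a) * aQ U (o1 x) w
  have hA : ∀ a, |A a| ≤ m := fun a => by
    refine (abs_wav_le_wav_abs hb (bw_pos' _ _ _ _ _) _).trans (gb_mono hb fun x _ => ?_)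
    rw [abs_mul]
    exact mul_le_of_le_one_left (abs_nonneg _) (abs_o1 x _)
  have hmq : m ^ 2 ≤ q := by
    refine (sq_wav_le hb (bw_pos' _ _ _ _ _) _).trans (gb_mono hb fun x _ => ?_)
    rw [sq_abs]
  have k1 : aQQ U (fun a _ => A a) = q := by
    rw [hq]
    simp only [A]
    rw [← gb_aQQ (fun x a _ => o1 x (w a) * aQ U (o1 x) w)]
    refine gb_congr fun x _ => ?_
    rw [aQQ_left hU (fun v => o1 x v * aQ U (o1 x) w)]
    conv_lhs => unfold aQ
    rw [← sum_mul, mul_div_right_comm, sq]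
    rfl
  have k2 : aQQ U (fun _ b => A b) = q := by rw [← k1, ← aQQ_comm]
  have k3 : |aQQ U fun a _ => A a * A a| ≤ q := by
    rw [abs_le, ← aQQ_const hU (-q)]
    conv_rhs => rw [← aQQ_const hU q]
    have : ∀ a, A a * A a ≤ q := fun a => by
      rw [← sq, ← sq_abs]
      exact (pow_le_pow_left₀ (abs_nonneg _) (hA a) 2).trans hmq
    exact ⟨aQQ_mono hU fun a _ _ _ => by nlinarith [this a, mul_self_nonneg (A a)],
      aQQ_mono hU fun a _ _ _ => this a⟩
  have k4 := aQQ_mono hU (K' := Rr β J U s w) (K := fun a b => A a + τ * A b -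
      τ * ((gb (bal V) Y1 β s w fun x => Y1 x (w a) (w b)) * A a) - 3 * β ^ 2 * m)
    fun a _ b _ => by
      rw [Rr_eq hb hJ]
      exact ratio_ge hτ h1 (hA a) (hA b) (abs_gb_le hb fun x _ => abs_Y1 x _ _)
  rw [aQQ_sub, aQQ_sub, aQQ_add, aQQ_smul, aQQ_smul, aQQ_const hU, aQQ_corr hU, k1, k2] at k4
  have q0 : 0 ≤ q := (sq_nonneg m).trans hmq
  have k5 : |τ * q| ≤ q / 100 := by
    rw [abs_mul, abs_of_nonneg q0]
    nlinarith
  have k6 : |τ * aQQ U fun a _ => A a * A a| ≤ q / 100 := by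
    rw [abs_mul]
    nlinarith [abs_nonneg τ, abs_nonneg (aQQ U fun a _ => A a * A a)]
  have k7 := (abs_le.1 k5).1
  have k8 := (abs_le.1 k6).2
  nlinarith [sq_nonneg (m / 2 - 3 * β ^ 2)]

lemma active (w0 : E × Bool → V) (hb : (bal V).Nonempty) (h0 : 0 ≤ β) (h1 : β ≤ 1 / 100)
    (hU : 1 ≤ U.card) (hs : ∀ i ∈ U, s i = 0) (j : E) (hj : s j = 1 ∨ s j = -1) (c : Bool) :
    av w0 (fun w => gb (bal V) Y1 β s w fun x => aQ U (o1 x) w ^ 2) / 4 - 9 * β ^ 4 -
        3 / (U.card : ℝ) ≤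
      av w0 fun w => gb (bal V) Y1 β s w fun x => o1 x (w (j, c)) * aQ U (o1 x) w := by
  have hr : (0 : ℝ) < U.card := by exact_mod_cast hU
  have hjU : j ∉ U := fun h => by
    rw [hs j h] at hj
    norm_num at hj
  have hs0 : ∀ i ∈ U, Function.update s j 0 i = 0 := fun i hi => by
    rw [Function.update_of_ne (by rintro rfl; exact hjU hi)]
    exact hs i hi
  have e : s = Function.update (Function.update s j 0) j (s j) := by simp
  have key : ∀ (w : E × Bool → V), ∀ a ∈ cav U, ∀ b ∈ cav U, a ≠ b → ∀ v,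
      gb (bal V) Y1 β (Function.update s j 0) w (fun x =>
          Real.exp (β * s j * Y1 x (w a) (w b)) * (o1 x v * aQ U (o1 x) w)) /
        gb (bal V) Y1 β (Function.update s j 0) w (fun x =>
          Real.exp (β * s j * Y1 x (w a) (w b))) - 2 / (U.card : ℝ) ≤
      gb (bal V) Y1 β s (w ∘ ex j a b) fun x => o1 x v * aQ U (o1 x) (w ∘ ex j a b) := by
    intro w a ha b hb' hab v
    rw [← gb_ex hb Y1 β hs0 (by simp) hjU ha hb' hab, ← e,
      ← gb_const (Y := Y1) (β := β) (s := s) (w := w ∘ ex j a b) hb (2 / (U.card : ℝ)), ← gb_sub]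
    refine gb_mono hb fun x _ => ?_
    have a1 := aQ_ex (a := a) (b := b) hjU hU (abs_o1 x) w
    have a2 : |o1 x v * (aQ U (o1 x) (w ∘ ex j a b) - aQ U (o1 x) w)| ≤ 2 / (U.card : ℝ) := by
      rw [abs_mul]
      exact (mul_le_of_le_one_left (abs_nonneg _) (abs_o1 x v)).trans a1
    linarith [(abs_le.1 a2).1]
  have main : av w0 (fun w => aQQ U (Rr β (s j) U (Function.update s j 0) w)) -
      2 / (U.card : ℝ) - 1 / (U.card : ℝ) ≤
      av w0 fun w => gb (bal V) Y1 β s w fun x => o1 x (w (j, c)) * aQ U (o1 x) w := by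
    have p2 : 0 ≤ 2 / (U.card : ℝ) := div_nonneg zero_le_two hr.le
    cases c
    · refine offdiag_ge hU j p2 (fun w => abs_gb_le hb fun x _ => abs_mul_aQ hU x _ w)
        (fun w a b => abs_Rr hb hU w a b) fun w a ha b hb' hab => ?_
      have := key w a ha b hb' hab (w a)
      simpa only [Function.comp_apply, ex_false hjU ha hb', Rr] using this
    · have ec : (fun w : E × Bool → V => aQQ U (Rr β (s j) U (Function.update s j 0) w)) =
          fun w => aQQ U fun a b => Rr β (s j) U (Function.update s j 0) w b a :=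
        funext fun w => (aQQ_comm _).symm
      rw [ec]
      refine offdiag_ge hU j (K := fun w a b => Rr β (s j) U (Function.update s j 0) w b a)
        p2 (fun w => abs_gb_le hb fun x _ => abs_mul_aQ hU x _ w)
        (fun w a b => abs_Rr hb hU w b a) fun w a ha b hb' hab => ?_
      have := key w a ha b hb' hab (w b)
      have hc : ∀ x : V → Bool, Y1 x (w a) (w b) = Y1 x (w b) (w a) := fun x => mul_comm _ _
      simp only [hc] at this
      simpa only [Function.comp_apply, ex_true hjU ha hb' hab, Rr] using this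
  have low : av w0 (fun w => gb (bal V) Y1 β s w (fun x => aQ U (o1 x) w ^ 2) / 4 - 9 * β ^ 4) ≤
      av w0 fun w => aQQ U (Rr β (s j) U (Function.update s j 0) w) := by
    refine av_mono fun w => le_trans ?_ (aQQ_Rr hb hj h0 h1 hU w)
    have := (gb_remove (w := w) (s := s) hb abs_Y1' h0 h1 j
      (by rcases hj with h | h <;> simp [h]) (f := fun x => aQ U (o1 x) w ^ 2)
      fun x _ => sq_nonneg _).1
    linarith
  rw [av_sub, av_div, av_const] at low
  have e3 : 3 / (U.card : ℝ) = 2 / (U.card : ℝ) + 1 / (U.card : ℝ) := by ring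
  linarith

end JCavA

theorem stCavA : StCavA := by
  classical
  intro V E _ _ _ _ w0 d β U z s hd hb h0 h1 hU hs
  have hr : (0 : ℝ) < U.card := by exact_mod_cast hU
  have hE : (0 : ℝ) < Fintype.card E := by
    exact_mod_cast lt_of_lt_of_le hU (card_le_univ U)
  set A := av w0 fun w => gb (bal V) Y1 β s w fun x => aQ U (o1 x) w ^ 2 with hA
  have hA1 : A ≤ 1 := av_le_const fun w => gb_le_const hb fun x _ => by
    rw [← sq_abs]
    exact pow_le_one₀ (abs_nonneg _) (abs_aQ_le hU (abs_o1 x) w)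
  have b4 : 0 ≤ β ^ 4 := by positivity
  have r1 : 0 < 1 / (U.card : ℝ) := by positivity
  have e3 : 3 / (U.card : ℝ) = 3 * (1 / (U.card : ℝ)) := by ring
  have h2 : ∀ p : E × Bool, A / 4 - 9 * β ^ 4 - 3 / (U.card : ℝ) - (if s p.1 = 0 then 2 else 0) ≤
      av w0 fun w => gb (bal V) Y1 β s w fun x => o1 x (w p) * aQ U (o1 x) w := by
    rintro ⟨j, c⟩
    split_ifs with h
    · have := (abs_le.1 (abs_av_le (w0 := w0) fun w => abs_gb_le (Y := Y1) (β := β) (s := s)
        (w := w) hb fun x _ => JCavA.abs_mul_aQ hU x (w (j, c)) w)).1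
      linarith
    · rw [sub_zero]
      exact JCavA.active w0 hb h0 h1 hU hs.2.1 j ((hs.1 j).resolve_left h) c
  have h3 : ∑ p : E × Bool, av w0 (fun w => gb (bal V) Y1 β s w
      fun x => o1 x (w p) * aQ U (o1 x) w) = 0 := by
    rw [← av_sum, ← av_const (w0 := w0) 0]
    refine av_congr_deg hd fun w hw => ?_
    rw [← gb_sum, ← gb_const (Y := Y1) (β := β) (s := s) (w := w) hb 0]
    refine gb_congr fun x hx => ?_
    rw [← sum_mul, sum_half hw]
    unfold o1
    rw [mem_bal.1 hx, mul_zero, zero_mul]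
  have h4 := sum_le_sum fun p (_ : p ∈ (univ : Finset (E × Bool))) => h2 p
  have h5 : ∑ p : E × Bool, (if s p.1 = 0 then (2 : ℝ) else 0) ≤ 4 * z := by
    have a1 : ((univ.filter fun i => s i = 0).card : ℝ) ≤ z := by exact_mod_cast hs.2.2
    rw [Fintype.sum_prod_type]
    simp only [Fintype.sum_bool]
    rw [sum_add_distrib, ← sum_filter, sum_const, nsmul_eq_mul]
    linarith
  rw [h3, sum_sub_distrib, sum_const, card_univ, nsmul_eq_mul, Fintype.card_prod,
    Fintype.card_bool] at h4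
  push_cast at h4
  have h6 : A / 4 - 9 * β ^ 4 - 3 / (U.card : ℝ) ≤ 2 * ((z : ℝ) / (Fintype.card E : ℝ)) := by
    rw [← mul_div_assoc, le_div_iff₀ hE]
    linarith
  have z0 : 0 ≤ (z : ℝ) / (Fintype.card E : ℝ) := by positivity
  linarith

end Pool.Agent.MP_32a90a_pr.L

end

section

set_option autoImplicit false

namespace Pool.Agent.MP_32a90a_pr.L

open Finset Equiv

namespace JPos

variable {V E Ω : Type} [Fintype V] [DecidableEq V] [Fintype E] [DecidableEq E]

lemma one_sub_bd {x g : ℝ} (hx : |x| ≤ 1) (hg : |g| ≤ 1) : 0 ≤ 1 - x * g ∧ 1 - x * g ≤ 2 := by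
  have h : |x * g| ≤ 1 := by
    rw [abs_mul]
    exact mul_le_one₀ hx (abs_nonneg _) hg
  have := abs_le.1 h
  constructor <;> linarith [this.1, this.2]

lemma abs_one_sub {x g : ℝ} (hx : |x| ≤ 1) (hg : |g| ≤ 1) : |1 - x * g| ≤ 2 := by
  have := one_sub_bd hx hg
  exact abs_le.2 ⟨by linarith [this.1], this.2⟩

lemma slot {w0 : E × Bool → V} {S : Finset Ω} {Y : Ω → V → V → ℝ} {φ : Ω → V → ℝ} {β : ℝ}
    {U : Finset E} {s : E → ℝ} (hS : S.Nonempty) (hY : ∀ ω u v, |Y ω u v| ≤ 3)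
    (hφ : ∀ ω v, |φ ω v| ≤ 1) (h0 : 0 ≤ β) (h1 : β ≤ 1 / 100) (hU : 1 ≤ U.card) (hs : Full U s)
    {j : E} (hj : j ∉ U) (c : Bool) :
    av w0 (fun w => gb S Y β s w fun ω => 1 - φ ω (w (j, c)) * aQ U (φ ω) w)
      ≤ 2 * av w0 (fun w => gb S Y β (Function.update s j 0) w fun ω => 1 - aQ U (φ ω) w ^ 2)
        + 6 / (U.card : ℝ) := by
  have h := offdiag_le (w0 := w0) hU j
    (G := fun w => gb S Y β s w fun ω => 1 - φ ω (w (j, c)) * aQ U (φ ω) w)
    (K := fun w a b => 2 * gb S Y β (Function.update s j 0) w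
      fun ω => 1 - φ ω (w (if c then b else a)) * aQ U (φ ω) w)
    (c := 4) (η := 2 / (U.card : ℝ)) (by positivity)
    (fun w => (abs_gb_le hS fun ω _ => abs_one_sub (hφ _ _) (abs_aQ_le hU (hφ ω) w)).trans
      (by norm_num))
    (fun w a b => by
      have := abs_gb_le (Y := Y) (β := β) (s := Function.update s j 0) (w := w) hS
        fun ω _ => abs_one_sub (hφ ω (w (if c then b else a))) (abs_aQ_le hU (hφ ω) w)
      rw [abs_mul, abs_two]
      linarith)
    (fun w a ha b hb hab => by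
      have e : ex j a b (j, c) = if c then b else a := by
        cases c
        · exact ex_false hj ha hb
        · exact ex_true hj ha hb hab
      have a1 : gb S Y β s (w ∘ ex j a b) (fun ω => 1 - φ ω ((w ∘ ex j a b) (j, c)) *
            aQ U (φ ω) (w ∘ ex j a b))
          ≤ gb S Y β s (w ∘ ex j a b) fun ω =>
            (1 - φ ω (w (if c then b else a)) * aQ U (φ ω) w) + 2 / (U.card : ℝ) :=
        gb_mono hS fun ω _ => by
          rw [Function.comp_apply, e]
          have b1 := aQ_ex (a := a) (b := b) hj hU (hφ ω) w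
          have b2 : |φ ω (w (if c then b else a)) *
              (aQ U (φ ω) (w ∘ ex j a b) - aQ U (φ ω) w)| ≤ 1 * (2 / (U.card : ℝ)) := by
            rw [abs_mul]
            exact mul_le_mul (hφ _ _) b1 (abs_nonneg _) zero_le_one
          have b3 := (abs_le.1 b2).1
          rw [mul_sub] at b3
          linarith
      rw [gb_add, gb_const hS] at a1
      have a2 := (gb_remove (w := w ∘ ex j a b) hS hY h0 h1 j (hs.abs_le j)
        (f := fun ω => 1 - φ ω (w (if c then b else a)) * aQ U (φ ω) w)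
        fun ω _ => (one_sub_bd (hφ _ _) (abs_aQ_le hU (hφ ω) w)).1).1
      rw [gb_ex_zero S Y β (hs.update_zero_mem j) (Function.update_self _ _ _) ha hb] at a2
      exact a1.trans (add_le_add a2 le_rfl))
  have e : ∀ w : E × Bool → V, aQQ U (fun a b => 2 * gb S Y β (Function.update s j 0) w
      fun ω => 1 - φ ω (w (if c then b else a)) * aQ U (φ ω) w)
      = 2 * gb S Y β (Function.update s j 0) w fun ω => 1 - aQ U (φ ω) w ^ 2 := fun w => by
    rw [aQQ_smul, ← gb_aQQ]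
    refine congrArg _ (gb_congr fun ω _ => ?_)
    rw [aQQ_sub, aQQ_const hU]
    simp only [mul_comm _ (aQ U (φ ω) w)]
    rw [aQQ_smul, sq]
    cases c
    · exact congrArg (fun t => 1 - aQ U (φ ω) w * t) (aQQ_left hU (φ ω) w)
    · exact congrArg (fun t => 1 - aQ U (φ ω) w * t) (aQQ_right hU (φ ω) w)
  simp only [e] at h
  rw [av_mul] at h
  refine h.trans (le_of_eq ?_)
  ring

end JPos

theorem stPos : StPos := by
  intro V E Ω _ _ _ _ w0 d S Y φ β U s hd hS hY hφ h0 h1 hU hs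
  obtain ⟨i0, -⟩ := card_pos.1 hU
  have : Nonempty E := ⟨i0⟩
  have hE : (0 : ℝ) < Fintype.card E := Nat.cast_pos.2 Fintype.card_pos
  have a1 : av w0 (fun w => gb S Y β s w fun ω => 1 - |aV (φ ω)|)
      ≤ av w0 fun w => gb S Y β s w fun ω =>
        (∑ p : E × Bool, (1 - φ ω (w p) * aQ U (φ ω) w)) / (2 * (Fintype.card E : ℝ)) :=
    av_mono_deg hd fun w hw => gb_mono hS fun ω _ => by
      rw [sum_sub_distrib, ← sum_mul, sum_half_aV hw, sum_const, card_univ, Fintype.card_prod,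
        Fintype.card_bool, nsmul_eq_mul, le_div_iff₀ (by positivity)]
      have b1 : aV (φ ω) * aQ U (φ ω) w ≤ |aV (φ ω)| * 1 :=
        (le_abs_self _).trans (by
          rw [abs_mul]
          exact mul_le_mul_of_nonneg_left (abs_aQ_le hU (hφ ω) w) (abs_nonneg _))
      push_cast
      nlinarith
  simp only [gb_div, gb_sum] at a1
  rw [av_div, av_sum, Fintype.sum_prod_type] at a1
  refine a1.trans ?_
  rw [div_le_iff₀ (by positivity)]
  have a2 : ∀ j : E, ∑ c : Bool,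
      av w0 (fun w => gb S Y β s w fun ω => 1 - φ ω (w (j, c)) * aQ U (φ ω) w)
      ≤ 4 * (if j ∉ U then av w0 (fun w => gb S Y β (Function.update s j 0) w
          fun ω => 1 - aQ U (φ ω) w ^ 2) else 0) + (if j ∈ U then 4 else 0)
        + 12 / (U.card : ℝ) := fun j => by
    rw [Fintype.sum_bool]
    by_cases hj : j ∈ U
    · have b : ∀ c : Bool,
          av w0 (fun w => gb S Y β s w fun ω => 1 - φ ω (w (j, c)) * aQ U (φ ω) w) ≤ 2 :=
        fun c => av_le_const fun w => gb_le_const hS fun ω _ =>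
          (JPos.one_sub_bd (hφ _ _) (abs_aQ_le hU (hφ ω) w)).2
      have b' : (0 : ℝ) ≤ 12 / (U.card : ℝ) := by positivity
      rw [if_neg (not_not.2 hj), if_pos hj]
      linarith [b true, b false]
    · have b := JPos.slot (w0 := w0) hS hY hφ h0 h1 hU hs hj
      have b' : (12 : ℝ) / (U.card : ℝ) = 6 / (U.card : ℝ) + 6 / (U.card : ℝ) := by ring
      rw [if_pos hj, if_neg hj]
      linarith [b true, b false]
  refine (sum_le_sum fun j _ => a2 j).trans (le_of_eq ?_)
  rw [sum_add_distrib, sum_add_distrib, ← mul_sum, ← sum_filter, sum_ite_mem, univ_inter,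
    sum_const, sum_const, card_univ, nsmul_eq_mul, nsmul_eq_mul]
  field_simp
  ring

end Pool.Agent.MP_32a90a_pr.L

end

section

set_option autoImplicit false

namespace Pool.Agent.MP_32a90a_pr.L

open Finset Equiv

namespace JEdge

lemma num {y t c : ℝ} (hy : |y| ≤ 1) (hc : 0 ≤ c) (hct : 2 * c ≤ t) (ht : t ≤ 1 / 100) :
    |y + c * (1 - y ^ 2)| ≤ 1 ∧ y + c * (1 - y ^ 2) ≤ (y + t) / (1 + t * y) := by
  obtain ⟨h1, h2⟩ := abs_le.1 hy
  have h3 : 0 ≤ 1 - y ^ 2 := by nlinarith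
  have h4 : 0 < 1 + t * y := by nlinarith
  refine ⟨abs_le.2 ⟨by nlinarith [mul_nonneg hc h3], ?_⟩, ?_⟩
  · nlinarith [mul_nonneg (sub_nonneg.2 h2) (show 0 ≤ 1 - c * (1 + y) by nlinarith)]
  · rw [le_div_iff₀ h4]
    have h5 : 0 ≤ 1 - t * y := by nlinarith
    nlinarith [mul_nonneg h3 (show 0 ≤ t - c * (1 + t * y) by nlinarith [mul_nonneg hc h5])]

lemma ratio {V E : Type} [Fintype V] [DecidableEq V] [Fintype E] [DecidableEq E]
    (hb : (bal V).Nonempty) (β J : ℝ) (hJ : J = 1 ∨ J = -1) (s : E → ℝ) (w : E × Bool → V)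
    (u v : V) :
    gb (bal V) Y1 β s w (fun x => Real.exp (β * J * Y1 x u v) * (J * Y1 x u v))
        / gb (bal V) Y1 β s w (fun x => Real.exp (β * J * Y1 x u v))
      = (J * gb (bal V) Y1 β s w (fun x => Y1 x u v) + Real.tanh β)
        / (1 + Real.tanh β * (J * gb (bal V) Y1 β s w fun x => Y1 x u v)) := by
  have e1 : gb (bal V) Y1 β s w (fun x => Real.exp (β * J * Y1 x u v) * (J * Y1 x u v))
      = Real.cosh β * (J * gb (bal V) Y1 β s w (fun x => Y1 x u v) + Real.tanh β) := by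
    rw [← gb_mul J, ← gb_const (Y := Y1) (β := β) (s := s) (w := w) hb (Real.tanh β), ← gb_add,
      ← gb_mul]
    refine gb_congr fun x _ => ?_
    rw [exp_sign β J _ hJ (Y1_cases x u v)]
    rcases hJ with rfl | rfl <;> rcases Y1_cases x u v with h | h <;> rw [h] <;> ring
  have e2 : gb (bal V) Y1 β s w (fun x => Real.exp (β * J * Y1 x u v))
      = Real.cosh β * (1 + Real.tanh β * (J * gb (bal V) Y1 β s w fun x => Y1 x u v)) := by
    rw [← gb_mul J, ← gb_mul, ← gb_const (Y := Y1) (β := β) (s := s) (w := w) hb 1, ← gb_add,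
      ← gb_mul]
    refine gb_congr fun x _ => ?_
    rw [exp_sign β J _ hJ (Y1_cases x u v)]
    ring
  rw [e1, e2, mul_div_mul_left _ _ (Real.cosh_pos β).ne']

end JEdge

open JEdge in
theorem stEdge : StEdge := by
  intro V E _ _ _ _ w0 β U s j hb h0 h1 hU hs hj
  have hJ := hs.2 j hj
  have hJ1 : |s j| = 1 := by rcases hJ with h | h <;> simp [h]
  have hJ2 : s j ^ 2 = 1 := by rcases hJ with h | h <;> simp [h]
  obtain ⟨t1, t2⟩ := tanh_bounds h0 (by linarith)
  obtain ⟨s0, hs0⟩ : ∃ s0, s0 = Function.update s j 0 := ⟨_, rfl⟩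
  have hy : ∀ (w : E × Bool → V) (u v : V),
      |s j * gb (bal V) Y1 β s0 w fun x => Y1 x u v| ≤ 1 := fun w u v => by
    rw [abs_mul, hJ1, one_mul]
    exact abs_gb_le hb fun x _ => abs_Y1 x u v
  have key := offdiag_ge (w0 := w0) hU j
    (G := fun w => gb (bal V) Y1 β s w fun x => s j * Y1 x (w (j, false)) (w (j, true)))
    (K := fun w a b => (s j * gb (bal V) Y1 β s0 w fun x => Y1 x (w a) (w b))
      + β / 4 * (1 - (s j * gb (bal V) Y1 β s0 w fun x => Y1 x (w a) (w b)) ^ 2))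
    (c := 1) (η := 0) le_rfl
    (fun w => abs_gb_le hb fun x _ => by rw [abs_mul, hJ1, one_mul]; exact abs_Y1 _ _ _)
    (fun w a b => (num (hy w _ _) (by linarith) (t := Real.tanh β) (by linarith) (by linarith)).1)
    (fun w a ha b hb' hab => by
      have e : s = Function.update s0 j (s j) := by
        rw [hs0, Function.update_idem, Function.update_eq_self]
      have := gb_ex hb Y1 β (s := s0) (hs0 ▸ hs.update_zero_mem j) (by simp [hs0]) hj ha hb' hab
        (s j) w fun x => s j * Y1 x (w a) (w b)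
      rw [← e, ratio hb β _ hJ] at this
      simp only [Function.comp_apply, ex_false hj ha hb', ex_true hj ha hb' hab]
      rw [this, sub_zero]
      exact (num (hy w _ _) (by linarith) (by linarith) (by linarith)).2)
  refine le_trans ?_ key
  rw [← hs0, sub_zero, ← av_mul, ← av_sub]
  refine sub_le_sub_right (av_mono fun w => ?_) _
  simp only [mul_pow, hJ2, one_mul]
  rw [aQQ_add, aQQ_smul, aQQ_smul, aQQ_sub, aQQ_const hU, aQQ_gb_one, aQQ_gb_two hb, gb_sub,
    gb_const (bal3_nonempty hb)]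
  have h2 : 0 ≤ gb (bal V) Y1 β s0 w fun x => aQ U (o1 x) w ^ 2 :=
    const_le_gb hb fun x _ => sq_nonneg _
  rcases hJ with h | h <;> rw [h] <;> linarith

end Pool.Agent.MP_32a90a_pr.L

end

section

set_option autoImplicit false

namespace Pool.Agent.MP_32a90a_pr.L

open Finset Equiv

namespace JTheta

lemma num {X T D β r m : ℝ} (hβ : 0 < β) (hβ1 : β ≤ 1 / 100) (hr : 1 ≤ r) (hm : 1 ≤ m)
    (hD : 0 ≤ D) (h1 : X ≤ 2 * T / m + 6 / r + 2 * r / m)
    (h2 : β / 4 * T ≤ 10 * D + 1 + m * (600 * (β ^ 4 + 1 / r + (r + 1) / m) + 1 / r)) :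
    X ≤ 5000 * (D / m + β ^ 4 + 1 / r + (r + 1) / m) / β := by
  have hm0 : 0 < m := by linarith
  have hr0 : 0 < r := by linarith
  have h3 : β / 4 * (T / m) ≤
      10 * (D / m) + 1 / m + (600 * (β ^ 4 + 1 / r + (r + 1) / m) + 1 / r) := by
    have := div_le_div_of_nonneg_right h2 hm0.le
    rwa [mul_div_assoc, add_div, add_div, mul_div_assoc 10, mul_div_cancel_left₀ _ hm0.ne'] at this
  have h4 : 1 / m ≤ (r + 1) / m := div_le_div_of_nonneg_right (by linarith) hm0.le
  have h5 : r / m ≤ (r + 1) / m := div_le_div_of_nonneg_right (by linarith) hm0.le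
  have h6 : 0 ≤ D / m := by positivity
  have h7 : 0 ≤ β ^ 4 := by positivity
  have h8 : 0 ≤ 1 / r := by positivity
  have h9 : 0 ≤ r / m := by positivity
  have e : 6 / r = 6 * (1 / r) := by ring
  rw [mul_div_assoc, mul_div_assoc, e] at h1
  rw [le_div_iff₀ hβ]
  have h10 := mul_le_mul_of_nonneg_right h1 hβ.le
  have h11 : 1 / r * β ≤ 1 / r := mul_le_of_le_one_right h8 (by linarith)
  have h12 : r / m * β ≤ r / m := mul_le_of_le_one_right h9 (by linarith)
  linarith

end JTheta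

theorem stTheta (h1 : StPos) (h2 : StEdge) (h3 : StCavA) (h4 : StMx) : StTheta := by
  intro V E _ _ _ _ w0 d β U s hd hb hβ hβ1 hU hs
  have hE : Nonempty E := ⟨(card_pos.1 hU).choose⟩
  have hm : (1 : ℝ) ≤ Fintype.card E := by exact_mod_cast Fintype.card_pos
  have hr : (1 : ℝ) ≤ U.card := by exact_mod_cast hU
  have p1 := h1 V E (T3 V) w0 d (bal3 V) Y3 o2 β U s hd (bal3_nonempty hb) abs_Y3 abs_o2 hβ.le hβ1
    hU hs
  refine JTheta.num hβ hβ1 hr hm (by positivity) p1 ?_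
  generalize hT : univ.filter (fun j => j ∉ U) = T
  have hT' : ∀ j, j ∈ T ↔ j ∉ U := fun j => by rw [← hT]; simp
  have p2 : ∑ j ∈ T, av w0 (fun w => gb (bal V) Y1 β s w
      fun x => s j * Y1 x (w (j, false)) (w (j, true)))
        ≤ 10 * (Real.sqrt d * Fintype.card V) + 1 := by
    rw [← av_sum, ← mul_assoc]
    refine le_trans (av_mono fun w => ?_) (h4 V E w0 d s hd hb hs.abs_le)
    rw [← gb_sum]
    refine le_trans (le_of_eq ?_) (gb_en_le_mx (β := β) hb)
    congr 1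
    funext x
    refine sum_subset (subset_univ T) fun j _ hj => ?_
    rw [hs.1 j (by_contra fun h => hj ((hT' j).2 h)), zero_mul]
  have p3 := sum_le_sum (s := T) fun j hj => h2 V E w0 β U s j hb hβ.le hβ1 hU hs ((hT' j).1 hj)
  have p4 := sum_le_card_nsmul T _ _ fun j _ =>
    h3 V E w0 d β U (U.card + 1) _ hd hb hβ.le hβ1 hU (hs.pat_update j)
  have p5 : (T.card : ℝ) ≤ Fintype.card E := by exact_mod_cast card_le_univ T
  rw [sum_sub_distrib, sum_sub_distrib, ← mul_sum, sum_const, nsmul_eq_mul] at p3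
  rw [nsmul_eq_mul, Nat.cast_add_one] at p4
  have p6 := mul_le_mul_of_nonneg_right p5 (show (0 : ℝ) ≤ 600 * (β ^ 4 + 1 / U.card +
    ((U.card : ℝ) + 1) / Fintype.card E) + 1 / U.card by positivity)
  linarith

end Pool.Agent.MP_32a90a_pr.L

end

section

set_option autoImplicit false

namespace Pool.Agent.MP_32a90a_pr.L

open Finset

namespace JStep1

lemma log_exp {z β : ℝ} (hz : |z| ≤ β) (h1 : β ≤ 1 / 2) :
    |Real.log (1 + z) - Real.log (1 - z) - (2 * z + 2 / 3 * z ^ 3)| ≤ 4 * β ^ 5 := by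
  have h0 := abs_nonneg z
  have h2 : |z| ^ (4 + 1) / (1 - |z|) ≤ 2 * β ^ 5 := by
    rw [div_le_iff₀ (by linarith)]
    have h3 : |z| ^ (4 + 1) ≤ β ^ 5 := pow_le_pow_left₀ h0 hz 5
    have h4 : 0 ≤ β ^ 5 := pow_nonneg (h0.trans hz) 5
    have h5 := mul_le_mul_of_nonneg_left (hz.trans h1) h4
    linarith
  have a := (Real.abs_log_sub_add_sum_range_le (x := z) (by linarith) 4).trans h2
  have b := Real.abs_log_sub_add_sum_range_le (x := -z) (by rw [abs_neg]; linarith) 4
  rw [abs_neg] at b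
  replace b := b.trans h2
  simp only [sum_range_succ, sum_range_zero, sub_neg_eq_add] at a b
  push_cast at a b
  rw [abs_le] at a b ⊢
  constructor <;> nlinarith [a.1, a.2, b.1, b.2]

variable {V E : Type} [Fintype V] [DecidableEq V] [Fintype E] [DecidableEq E]

/-- the change of the log partition function when an edge between u and v changes sign -/
noncomputable def kap (β : ℝ) (s : E → ℝ) (w : E × Bool → V) (u v : V) : ℝ :=
  Real.log (gb (bal V) Y1 β s w fun x => Real.exp (β * 1 * Y1 x u v)) -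
    Real.log (gb (bal V) Y1 β s w fun x => Real.exp (β * (-1) * Y1 x u v))

variable {β : ℝ} {s : E → ℝ}

lemma abs_log_le (hb : (bal V).Nonempty) (h0 : 0 ≤ β) {J : ℝ} (hJ : |J| = 1)
    (w : E × Bool → V) (u v : V) :
    |Real.log (gb (bal V) Y1 β s w fun x => Real.exp (β * J * Y1 x u v))| ≤ β := by
  have h : ∀ x : V → Bool, |β * J * Y1 x u v| ≤ β := fun x => by
    rw [abs_mul, abs_mul, hJ, mul_one, abs_of_nonneg h0]
    exact mul_le_of_le_one_right h0 (abs_Y1 x u v)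
  have h1 : Real.exp (-β) ≤ gb (bal V) Y1 β s w fun x => Real.exp (β * J * Y1 x u v) :=
    const_le_gb hb fun x _ => Real.exp_le_exp.2 (abs_le.1 (h x)).1
  have h2 : (gb (bal V) Y1 β s w fun x => Real.exp (β * J * Y1 x u v)) ≤ Real.exp β :=
    gb_le_const hb fun x _ => Real.exp_le_exp.2 (abs_le.1 (h x)).2
  have h3 := (Real.exp_pos _).trans_le h1
  exact abs_le.2 ⟨(Real.le_log_iff_exp_le h3).2 h1, (Real.log_le_iff_le_exp h3).2 h2⟩

lemma abs_kap (hb : (bal V).Nonempty) (h0 : 0 ≤ β) (w : E × Bool → V) (u v : V) :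
    |kap β s w u v| ≤ 2 * β := by
  have h1 := abs_log_le (s := s) hb h0 (J := 1) abs_one w u v
  have h2 := abs_log_le (s := s) hb h0 (J := -1) (by simp) w u v
  rw [two_mul]
  exact (abs_sub _ _).trans (add_le_add h1 h2)

lemma gb_exp (hb : (bal V).Nonempty) {J : ℝ} (hJ : J = 1 ∨ J = -1) (w : E × Bool → V)
    (u v : V) : (gb (bal V) Y1 β s w fun x => Real.exp (β * J * Y1 x u v)) =
      Real.cosh β * (1 + Real.tanh β * J * gb (bal V) Y1 β s w fun x => Y1 x u v) := by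
  rw [gb_congr fun x _ => exp_sign β J _ hJ (Y1_cases x u v), gb_mul, gb_add, gb_const hb, gb_mul]

lemma kap_exp (hb : (bal V).Nonempty) (h0 : 0 ≤ β) (h1 : β ≤ 1 / 100) (w : E × Bool → V)
    (u v : V) :
    |kap β s w u v - (2 * Real.tanh β * (gb (bal V) Y1 β s w fun x => Y1 x u v) +
      2 / 3 * Real.tanh β ^ 3 * (gb (bal V) Y1 β s w fun x => Y1 x u v) ^ 3)| ≤ 4 * β ^ 5 := by
  obtain ⟨t0, t1⟩ := tanh_bounds h0 (by linarith)
  have hy : |gb (bal V) Y1 β s w fun x => Y1 x u v| ≤ 1 := abs_gb_le hb fun x _ => abs_Y1 x u v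
  rw [kap, gb_exp hb (Or.inl rfl), gb_exp hb (Or.inr rfl)]
  generalize (gb (bal V) Y1 β s w fun x => Y1 x u v) = y at hy ⊢
  have hz : |Real.tanh β * y| ≤ β := by
    rw [abs_mul, abs_of_nonneg (by linarith)]
    exact (mul_le_of_le_one_right (by linarith) hy).trans t1
  have hz' := abs_le.1 hz
  have hc := (Real.cosh_pos β).ne'
  have e1 : Real.tanh β * 1 * y = Real.tanh β * y := by ring
  have e2 : 1 + Real.tanh β * (-1) * y = 1 - Real.tanh β * y := by ring
  rw [e1, e2, Real.log_mul hc (by linarith), Real.log_mul hc (by linarith)]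
  refine le_trans (le_of_eq ?_) (log_exp hz (by linarith))
  congr 1
  ring

end JStep1

open JStep1 in
theorem stStep1 : StStep1 := by
  intro V E _ _ _ _ w0 β U s k hb h0 h1 hU hs hk hkU
  obtain ⟨t0, t1⟩ := tanh_bounds h0 (by linarith)
  have t2 : 0 ≤ Real.tanh β := by linarith
  have hG : ∀ w : E × Bool → V, |lZ (bal V) Y1 β (Function.update s k 1) w -
      lZ (bal V) Y1 β (Function.update s k (-1)) w| ≤ 2 * β := fun w => by
    rw [lZ_update hb k hk, lZ_update hb k hk, add_sub_add_left_eq_sub]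
    exact abs_kap hb h0 w _ _
  have hex : ∀ w : E × Bool → V, ∀ a ∈ cav U, ∀ b ∈ cav U, a ≠ b →
      lZ (bal V) Y1 β (Function.update s k 1) (w ∘ ex k a b) -
        lZ (bal V) Y1 β (Function.update s k (-1)) (w ∘ ex k a b) = kap β s w (w a) (w b) := by
    intro w a ha b hb' hab
    rw [lZ_ex hb Y1 β hs hk hkU ha hb' hab, lZ_ex hb Y1 β hs hk hkU ha hb' hab,
      add_sub_add_left_eq_sub, kap]
  have g1 := offdiag_ge (w0 := w0) hU k (K := fun w a b => kap β s w (w a) (w b)) le_rfl hG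
    (fun w a b => abs_kap hb h0 w _ _) fun w a ha b hb' hab => by
      rw [hex w a ha b hb' hab, sub_zero]
  have g2 := offdiag_le (w0 := w0) hU k (K := fun w a b => kap β s w (w a) (w b)) le_rfl hG
    (fun w a b => abs_kap hb h0 w _ _) fun w a ha b hb' hab => by
      rw [hex w a ha b hb' hab, add_zero]
  rw [av_sub] at g1 g2
  have hA : ∀ w : E × Bool → V, 0 ≤ gb (bal V) Y1 β s w fun x => aQ U (o1 x) w ^ 2 := fun w =>
    const_le_gb hb fun x _ => sq_nonneg _
  have hB : ∀ w : E × Bool → V, 0 ≤ gb (bal3 V) Y3 β s w fun ω => aQ U (o3 ω) w ^ 2 := fun w =>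
    const_le_gb (bal3_nonempty hb) fun x _ => sq_nonneg _
  have hq : ∀ (w : E × Bool → V) (c : ℝ), aQQ U (fun a b =>
      (2 * Real.tanh β * (gb (bal V) Y1 β s w fun x => Y1 x (w a) (w b)) +
        2 / 3 * Real.tanh β ^ 3 * (gb (bal V) Y1 β s w fun x => Y1 x (w a) (w b)) ^ 3) + c) =
      2 * Real.tanh β * (gb (bal V) Y1 β s w fun x => aQ U (o1 x) w ^ 2) +
        2 / 3 * Real.tanh β ^ 3 * (gb (bal3 V) Y3 β s w fun ω => aQ U (o3 ω) w ^ 2) + c := by
    intro w c
    rw [aQQ_add, aQQ_add, aQQ_smul, aQQ_smul, aQQ_const hU, aQQ_gb_one, aQQ_gb_three]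
  have l1 : -(4 * β ^ 5) ≤ av w0 fun w => aQQ U fun a b => kap β s w (w a) (w b) := by
    refine const_le_av fun w => le_trans ?_ ((hq w (-(4 * β ^ 5))).symm.trans_le
      (aQQ_mono hU fun a _ b _ => by
        linarith [(abs_le.1 (kap_exp (s := s) hb h0 h1 w (w a) (w b))).1]))
    have := mul_nonneg (mul_nonneg zero_le_two t2) (hA w)
    have := mul_nonneg (mul_nonneg (by norm_num : (0 : ℝ) ≤ 2 / 3) (pow_nonneg t2 3)) (hB w)
    linarith
  have l2 : (av w0 fun w => aQQ U fun a b => kap β s w (w a) (w b)) ≤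
      2 * β * av w0 (fun w => gb (bal V) Y1 β s w fun x => aQ U (o1 x) w ^ 2)
        + β ^ 3 * av w0 (fun w => gb (bal3 V) Y3 β s w fun ω => aQ U (o3 ω) w ^ 2)
        + 4 * β ^ 5 := by
    rw [← av_mul, ← av_mul, ← av_add]
    refine av_le_add fun w => le_trans ((aQQ_mono hU fun a _ b _ => by
      linarith [(abs_le.1 (kap_exp (s := s) hb h0 h1 w (w a) (w b))).2]).trans_eq
        (hq w (4 * β ^ 5))) ?_
    have e1 := mul_le_mul_of_nonneg_right t1 (hA w)
    have e2 : 2 / 3 * Real.tanh β ^ 3 ≤ β ^ 3 := by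
      have := pow_le_pow_left₀ t2 t1 3
      have := pow_nonneg t2 3
      linarith
    have e3 := mul_le_mul_of_nonneg_right e2 (hB w)
    linarith
  constructor <;> linarith

end Pool.Agent.MP_32a90a_pr.L

end

section

set_option autoImplicit false

namespace Pool.Agent.MP_32a90a_pr.L

open Finset

namespace JStepU

lemma log_bd {u s : ℝ} (hu : |u| ≤ s) (hs : s ≤ 1 / 2) :
    |Real.log (1 + u) - u + u ^ 2 / 2| ≤ 2 * s ^ 3 := by
  have h := Real.abs_log_sub_add_sum_range_le (x := -u) (by rw [abs_neg]; linarith) 2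
  rw [abs_neg] at h
  have e : (∑ i ∈ range 2, (-u) ^ (i + 1) / ((i : ℝ) + 1)) + Real.log (1 - -u) =
      Real.log (1 + u) - u + u ^ 2 / 2 := by
    simp only [sum_range_succ, sum_range_zero, sub_neg_eq_add]
    push_cast
    ring
  rw [e] at h
  refine h.trans ?_
  have h1 : |u| ^ (2 + 1) ≤ s ^ 3 := pow_le_pow_left₀ (abs_nonneg u) hu 3
  have h2 : 0 ≤ s ^ 3 := pow_nonneg ((abs_nonneg u).trans hu) 3
  rw [div_le_iff₀ (by linarith)]
  nlinarith

lemma exp_bd {y t : ℝ} (hy : |y| ≤ t) (ht : t ≤ 1) :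
    |Real.exp y - (1 + y + y ^ 2 / 2)| ≤ t ^ 3 := by
  have h := Real.exp_bound (x := y) (hy.trans ht) (n := 3) (by norm_num)
  have e : ∑ m ∈ range 3, y ^ m / (m.factorial : ℝ) = 1 + y + y ^ 2 / 2 := by
    simp [sum_range_succ, Nat.factorial]
  rw [e] at h
  refine h.trans ?_
  have h1 : |y| ^ 3 ≤ t ^ 3 := pow_le_pow_left₀ (abs_nonneg y) hy 3
  have h2 : 0 ≤ |y| ^ 3 := by positivity
  norm_num [Nat.factorial]
  linarith

lemma num {t m v A B : ℝ} (ht : t ≤ 3 / 100) (hm : |m| ≤ t) (hv0 : 0 ≤ v) (hv : v ≤ t ^ 2 / 2)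
    (hA : |A - (1 + m + v)| ≤ t ^ 3) (hB : |B - (1 - m + v)| ≤ t ^ 3) :
    |Real.log A - Real.log B - 2 * m| ≤ 38 * t ^ 3 := by
  have h0 : 0 ≤ t := (abs_nonneg m).trans hm
  have h2 : t ^ 2 ≤ t / 2 := by nlinarith
  have h3 : t ^ 3 ≤ t ^ 2 / 2 := by nlinarith [sq_nonneg t]
  obtain ⟨m1, m2⟩ := abs_le.1 hm
  obtain ⟨a1, a2⟩ := abs_le.1 hA
  obtain ⟨b1, b2⟩ := abs_le.1 hB
  have l1 := log_bd (u := A - 1) (s := 2 * t) (abs_le.2 ⟨by linarith, by linarith⟩) (by linarith)
  have l2 := log_bd (u := B - 1) (s := 2 * t) (abs_le.2 ⟨by linarith, by linarith⟩) (by linarith)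
  rw [add_sub_cancel] at l1 l2
  have l3 : |(A - B) * (A + B - 2)| ≤ 4 * t * (2 * t ^ 2) := by
    rw [abs_mul]
    exact mul_le_mul (abs_le.2 ⟨by linarith, by linarith⟩) (abs_le.2 ⟨by linarith, by linarith⟩)
      (abs_nonneg _) (by linarith)
  obtain ⟨c1, c2⟩ := abs_le.1 l1
  obtain ⟨d1, d2⟩ := abs_le.1 l2
  obtain ⟨e1, e2⟩ := abs_le.1 l3
  exact abs_le.2 ⟨by linarith, by linarith⟩

variable {Ω : Type} {S : Finset Ω} {μ : Ω → ℝ}

lemma abs_log_le (hS : S.Nonempty) (hμ : ∀ ω ∈ S, 0 < μ ω) {y : Ω → ℝ} {t : ℝ}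
    (hy : ∀ ω, |y ω| ≤ t) : |Real.log (wav S μ fun ω => Real.exp (y ω))| ≤ t := by
  have h0 : 0 < wav S μ fun ω => Real.exp (y ω) := wav_pos hS hμ fun ω _ => Real.exp_pos _
  refine abs_le.2 ⟨(Real.le_log_iff_exp_le h0).2 ?_, (Real.log_le_iff_le_exp h0).2 ?_⟩
  · exact const_le_wav hS hμ fun ω _ => Real.exp_le_exp.2 (abs_le.1 (hy ω)).1
  · exact wav_le_const hS hμ fun ω _ => Real.exp_le_exp.2 (abs_le.1 (hy ω)).2

lemma expand (hS : S.Nonempty) (hμ : ∀ ω ∈ S, 0 < μ ω) {y : Ω → ℝ} {t : ℝ}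
    (hy : ∀ ω, |y ω| ≤ t) (ht : t ≤ 1) :
    |(wav S μ fun ω => Real.exp (y ω)) - (1 + wav S μ y + wav S μ fun ω => y ω ^ 2 / 2)| ≤
      t ^ 3 := by
  have h := abs_wav_le hS hμ fun ω _ => exp_bd (hy ω) ht
  rwa [wav_sub, wav_add, wav_add, wav_const hS hμ] at h

lemma key (hS : S.Nonempty) (hμ : ∀ ω ∈ S, 0 < μ ω) {Y : Ω → ℝ} {β : ℝ} (hY : ∀ ω, |Y ω| ≤ 3)
    (h0 : 0 ≤ β) (h1 : β ≤ 1 / 100) :
    |Real.log (wav S μ fun ω => Real.exp (β * 1 * Y ω)) -
        Real.log (wav S μ fun ω => Real.exp (β * (-1) * Y ω))| ≤ 6 * β ∧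
      |Real.log (wav S μ fun ω => Real.exp (β * 1 * Y ω)) -
        Real.log (wav S μ fun ω => Real.exp (β * (-1) * Y ω)) - 2 * β * wav S μ Y| ≤
        1026 * β ^ 3 := by
  have hy : ∀ ω, |β * Y ω| ≤ 3 * β := fun ω => by
    rw [abs_mul, abs_of_nonneg h0, mul_comm]
    exact mul_le_mul_of_nonneg_right (hY ω) h0
  have hy' : ∀ ω, |-(β * Y ω)| ≤ 3 * β := fun ω => by rw [abs_neg]; exact hy ω
  simp only [mul_one, mul_neg, neg_mul]
  refine ⟨(abs_sub _ _).trans ?_, ?_⟩
  · linarith [abs_log_le hS hμ hy, abs_log_le hS hμ hy']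
  · have hA := expand hS hμ hy (by linarith)
    have hB := expand hS hμ hy' (by linarith)
    simp only [neg_sq] at hB
    rw [wav_neg, ← sub_eq_add_neg] at hB
    have h := num (by linarith) (abs_wav_le hS hμ fun ω _ => hy ω)
      (const_le_wav hS hμ fun ω _ => by positivity)
      (wav_le_const hS hμ fun ω _ => by linarith [sq_le_sq' (abs_le.1 (hy ω)).1 (abs_le.1 (hy ω)).2])
      hA hB
    rw [wav_mul, ← mul_assoc] at h
    exact h.trans_eq (by ring)

end JStepU

theorem stStepU : StStepU := by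
  intro V E Ω _ _ _ _ w0 S Y β U s k hS hY h0 h1 hU hs hk hkU
  have hG : ∀ w : E × Bool → V, |lZ S Y β (Function.update s k 1) w -
      lZ S Y β (Function.update s k (-1)) w| ≤ 6 * β := fun w => by
    rw [lZ_update hS k hk, lZ_update hS k hk, add_sub_add_left_eq_sub]
    exact (JStepU.key hS (bw_pos' S Y β s w) (fun ω => hY ω _ _) h0 h1).1
  have hK : ∀ (w : E × Bool → V) (a b : E × Bool),
      |2 * β * gb S Y β s w fun ω => Y ω (w a) (w b)| ≤ 6 * β := fun w a b => by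
    have := abs_gb_le (Y := Y) (β := β) (s := s) (w := w) hS fun ω _ => hY ω (w a) (w b)
    rw [abs_mul, abs_of_nonneg (by linarith : 0 ≤ 2 * β)]
    nlinarith
  have h : ∀ (w : E × Bool → V), ∀ a ∈ cav U, ∀ b ∈ cav U, a ≠ b →
      |lZ S Y β (Function.update s k 1) (w ∘ ex k a b) -
        lZ S Y β (Function.update s k (-1)) (w ∘ ex k a b) -
        2 * β * gb S Y β s w fun ω => Y ω (w a) (w b)| ≤ 1026 * β ^ 3 := by
    intro w a ha b hb hab
    rw [lZ_ex hS Y β hs hk hkU ha hb hab, lZ_ex hS Y β hs hk hkU ha hb hab,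
      add_sub_add_left_eq_sub]
    exact (JStepU.key hS (bw_pos' S Y β s w) (fun ω => hY ω _ _) h0 h1).2
  have hη : 0 ≤ 1026 * β ^ 3 := by positivity
  have h2 := offdiag_ge (w0 := w0) hU k hη hG hK fun w a ha b hb hab => by
    linarith [(abs_le.1 (h w a ha b hb hab)).1]
  have h3 := offdiag_le (w0 := w0) hU k hη hG hK fun w a ha b hb hab => by
    linarith [(abs_le.1 (h w a ha b hb hab)).2]
  simp only [aQQ_smul, ← gb_aQQ, av_mul, av_sub] at h2 h3
  have h4 : 0 ≤ β / (U.card : ℝ) := by positivity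
  rw [mul_div_assoc] at h2 h3
  exact abs_le.2 ⟨by linarith, by linarith⟩

end Pool.Agent.MP_32a90a_pr.L

end

section

set_option autoImplicit false

namespace Pool.Agent.MP_32a90a_pr.L

open Finset Equiv

namespace JUniv

lemma step (h1 : StStepU) (h2 : StCav) {V E : Type} [Fintype V] [DecidableEq V] [Fintype E]
    [DecidableEq E] (w0 : E × Bool → V) (d : ℕ) (S : Finset (T3 V)) (β : ℝ) (U : Finset E)
    (hd : Deg w0 d) (hS : S.Nonempty) (hb : S ⊆ bal3 V) (h0 : 0 ≤ β) (hβ : β ≤ 1 / 100)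
    (hU : 1 ≤ U.card) (s : E → ℝ) (k : E) (hs : Full U s) (hk : k ∉ U) :
    |av w0 (lZ S Y3 β (Function.update s k 1)) - av w0 (lZ S Y3 β (Function.update s k (-1)))|
      ≤ 4700 * β *
        (β ^ 2 + 1 / (U.card : ℝ) + ((U.card : ℝ) + 1) / (Fintype.card E : ℝ)) := by
  have a := h1 V E (T3 V) w0 S Y3 β U (Function.update s k 0) k hS abs_Y3 h0 hβ hU
    (hs.update_zero_mem k) (Function.update_self _ _ _) hk
  rw [Function.update_idem, Function.update_idem] at a
  have key : ∀ f : T3 V → V → Bool, (∀ ω ∈ S, f ω ∈ bal V) →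
      0 ≤ av w0 (fun w => gb S Y3 β (Function.update s k 0) w fun ω => aQ U (o1 (f ω)) w ^ 2) ∧
      av w0 (fun w => gb S Y3 β (Function.update s k 0) w fun ω => aQ U (o1 (f ω)) w ^ 2) ≤
        600 * (β ^ 2 + 1 / (U.card : ℝ) + ((U.card : ℝ) + 1) / (Fintype.card E : ℝ)) := by
    intro f hf
    refine ⟨const_le_av fun w => const_le_gb hS fun ω _ => sq_nonneg _, ?_⟩
    have b := h2 V E (T3 V) w0 d S Y3 (fun ω => o1 (f ω)) β U (U.card + 1)
      (Function.update s k 0) hd hS abs_Y3 (fun ω v => abs_o1 _ v) h0 hβ hU (hs.pat_update k)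
    have c : av w0 (fun w => gb S Y3 β (Function.update s k 0) w
        fun ω => aV (o1 (f ω)) ^ 2) ≤ 0 :=
      av_le_const fun w => gb_le_const hS fun ω hω => by rw [aV_o1 (hf ω hω)]; norm_num
    push_cast at b
    linarith
  obtain ⟨p1, q1⟩ := key (fun ω => ω.1) fun ω hω => (mem_bal3.1 (hb hω)).1
  obtain ⟨p2, q2⟩ := key (fun ω => ω.2.1) fun ω hω => (mem_bal3.1 (hb hω)).2.1
  obtain ⟨p3, q3⟩ := key (fun ω => ω.2.2) fun ω hω => (mem_bal3.1 (hb hω)).2.2
  simp only [aQQ_Y3, gb_add, av_add] at a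
  have e1 : 0 ≤ ((U.card : ℝ) + 1) / (Fintype.card E : ℝ) := by positivity
  have e2 : β / (U.card : ℝ) = β * (1 / (U.card : ℝ)) := by ring
  rw [e2] at a
  obtain ⟨a1, a2⟩ := abs_le.1 a
  have m1 := mul_nonneg h0 (add_nonneg (add_nonneg p1 p2) p3)
  have m2 := mul_le_mul_of_nonneg_left (add_le_add (add_le_add q1 q2) q3) h0
  have m3 := mul_nonneg h0 e1
  have m4 : 0 ≤ β * (β ^ 2 + 1 / (U.card : ℝ)) := by positivity
  refine abs_le.2 ⟨?_, ?_⟩ <;> nlinarith

end JUniv

theorem stUniv (h1 : StStepU) (h2 : StCav) (h3 : StChain) : StUniv := by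
  intro V E _ _ _ _ w0 d S β U s s' hd hS hb h0 hβ hU hs hs'
  have hδ : 0 ≤ β * (β ^ 2 + 1 / (U.card : ℝ) + ((U.card : ℝ) + 1) / (Fintype.card E : ℝ)) := by
    positivity
  have a := h3 E U (fun s => av w0 (lZ S Y3 β s)) (4700 * β *
    (β ^ 2 + 1 / (U.card : ℝ) + ((U.card : ℝ) + 1) / (Fintype.card E : ℝ))) (by positivity)
    (fun s k hs hk => by
      have := (abs_le.1 (JUniv.step h1 h2 w0 d S β U hd hS hb h0 hβ hU s k hs hk)).2
      linarith) s hs
  have b := h3 E U (fun s => -av w0 (lZ S Y3 β s)) (4700 * β *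
    (β ^ 2 + 1 / (U.card : ℝ) + ((U.card : ℝ) + 1) / (Fintype.card E : ℝ))) (by positivity)
    (fun s k hs hk => by
      have := (abs_le.1 (JUniv.step h1 h2 w0 d S β U hd hS hb h0 hβ hU s k hs hk)).1
      linarith) s' hs'
  have c := mul_nonneg (Nat.cast_nonneg (α := ℝ) (Fintype.card E)) hδ
  nlinarith

end Pool.Agent.MP_32a90a_pr.L

end

section

set_option autoImplicit false
set_option linter.unusedSectionVars false

namespace Pool.Agent.MP_32a90a_pr.L

open Finset Equiv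

namespace JMass

variable {V E Ω : Type} [Fintype V] [DecidableEq V] [Fintype E] [DecidableEq E]

/-- comparison of two temperatures -/
lemma lZ_temp {S : Finset Ω} (hS : S.Nonempty) (Y : Ω → V → V → ℝ) {β β' : ℝ} (h0 : 0 < β')
    (h1 : β' ≤ β) (s : E → ℝ) (w : E × Bool → V) :
    lZ S Y β s w ≤ β / β' * lZ S Y β' s w := by
  have hq : 0 ≤ β / β' - 1 := sub_nonneg.2 ((one_le_div h0).2 h1)
  have := lZ_le_add (Y := Y) (β := β) (β' := β') (s := s) (s' := s) (w := w) (w' := w)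
    (c := (β / β' - 1) * lZ S Y β' s w) hS fun ω hω => by
      have h2 : β' * en Y s w ω ≤ lZ S Y β' s w :=
        (mul_le_mul_of_nonneg_left (le_mx hω) h0.le).trans (mul_mx_le_lZ hS)
      have h3 := mul_le_mul_of_nonneg_left h2 hq
      have h4 : (β / β' - 1) * (β' * en Y s w ω) = β * en Y s w ω - β' * en Y s w ω := by
        field_simp
      linarith
  linarith

/-- the Gibbs mass of a set -/
lemma gb_ind [DecidableEq Ω] {S A : Finset Ω} (hA : A.Nonempty) (hAS : A ⊆ S)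
    (Y : Ω → V → V → ℝ) (β : ℝ) (s : E → ℝ) (w : E × Bool → V) :
    gb S Y β s w (fun ω => if ω ∈ A then 1 else 0) = Real.exp (lZ A Y β s w - lZ S Y β s w) := by
  unfold gb wav lZ
  rw [Real.exp_sub, Real.exp_log (wsum_pos hA (bw_pos' A Y β s w)),
    Real.exp_log (wsum_pos (hA.mono hAS) (bw_pos' S Y β s w))]
  congr 1
  simp only [mul_ite, mul_one, mul_zero]
  rw [sum_ite_mem, inter_eq_right.2 hAS]

end JMass

open JMass in
theorem stMass : StMass := by
  intro V E _ _ _ _ _ w0 A β β' c s hA hAS h0 h1 h2 hs hc hav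
  classical
  have hβ : 0 < β := h0.trans_le h1
  have hb : (bal V).Nonempty := by
    obtain ⟨ω, hω⟩ := hA
    exact ⟨ω.1, (mem_bal3.1 (hAS hω)).1⟩
  have hE : (0 : ℝ) < Fintype.card E := by exact_mod_cast Fintype.card_pos
  set W : (E × Bool → V) → ℝ := fun w => lZ A Y3 β' s w - 3 * (β' / β) * lZ (bal V) Y1 β s w
    with hW
  have hWav : av w0 W ≤ -(2 * c) := by
    rw [hW, av_sub, av_mul]
    exact hav
  have hlip : ∀ w a b, |W (w ∘ swap a b) - W w| ≤ 1 := by
    intro w a b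
    have e1 := abs_le.1 (lZ_swap hA abs_Y3 hs h0.le w a b)
    have e2 := abs_le.1 (lZ_swap hb abs_Y1 hs hβ.le w a b)
    have hq : 0 ≤ 3 * (β' / β) := by positivity
    have e3 := mul_le_mul_of_nonneg_left e2.1 hq
    have e4 := mul_le_mul_of_nonneg_left e2.2 hq
    have e5 : 3 * (β' / β) * (4 * 1 * β) = 12 * β' := by field_simp; ring
    rw [mul_neg, e5] at e3
    rw [e5] at e4
    simp only [hW]
    rw [abs_le]
    constructor <;> nlinarith [e1.1, e1.2]
  have ht := pr_tail w0 W one_pos (l := c / (8 * (Fintype.card E : ℝ))) (by positivity) hlip c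
  have e : 2 * (c / (8 * (Fintype.card E : ℝ))) ^ 2 * 1 ^ 2 * (2 * (Fintype.card E : ℝ))
      - c / (8 * (Fintype.card E : ℝ)) * c = -(c ^ 2 / (16 * (Fintype.card E : ℝ))) := by
    field_simp; ring
  rw [e] at ht
  refine le_trans ?_ (add_le_add le_rfl ht)
  unfold pr
  rw [add_comm]
  refine av_le_add fun w => ?_
  split_ifs with h
  · have : gb (bal3 V) Y3 β s w (fun ω => if ω ∈ A then 1 else 0) ≤ 1 :=
      gb_le_const (bal3_nonempty hb) fun ω _ => by split_ifs <;> norm_num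
    linarith [Real.exp_pos (-c)]
  · rw [zero_add, gb_ind hA hAS, lZ_bal3]
    refine Real.exp_le_exp.2 ?_
    have h3 := lZ_temp hA Y3 h0 h1 s w
    have h4 : W w ≤ -c := by linarith [not_le.1 h]
    have hq : 1 ≤ β / β' := (one_le_div h0).2 h1
    have h5 : β / β' * W w = β / β' * lZ A Y3 β' s w - 3 * lZ (bal V) Y1 β s w := by
      simp only [hW]
      field_simp
    nlinarith

end Pool.Agent.MP_32a90a_pr.L

end

section

set_option autoImplicit false

namespace Pool.Agent.MP_32a90a_pr.L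

open Finset Equiv

namespace JEnt

theorem log_card_bal (V : Type) [Fintype V] [DecidableEq V] (h : (bal V).Nonempty) :
    Real.log (bal V).card ≤ (Fintype.card V : ℝ) := by
  have h1 : ((bal V).card : ℝ) ≤ 2 ^ Fintype.card V := by
    have := card_le_univ (bal V)
    rw [Fintype.card_fun, Fintype.card_bool] at this
    exact_mod_cast this
  refine (Real.log_le_log (Nat.cast_pos.2 h.card_pos) h1).trans ?_
  rw [Real.log_pow]
  have h2 := Real.log_le_sub_one_of_pos (show (0 : ℝ) < 2 by norm_num)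
  exact mul_le_of_le_one_right (Nat.cast_nonneg _) (by linarith)

end JEnt

theorem stEnt (h : StLayer) : StEnt := by
  classical
  intro V E _ _ _ _ w0 d a0 β x L P hb hd hβ hx hx1 hL hP
  have hL0 : 0 ≤ L := (neg_nonneg.2 (Real.log_nonpos hx.le hx1)).trans hL
  have hlog : 0 ≤ Real.log (2 * (Fintype.card E : ℝ) + 1) :=
    Real.log_nonneg (le_add_of_nonneg_left (by positivity))
  have hn : (0 : ℝ) ≤ Fintype.card V := Nat.cast_nonneg _
  set K : ℝ := β + Real.log (2 * (Fintype.card E : ℝ) + 1) + 3 * L * ((a0 : ℝ) + 1)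
    + x * (Fintype.card V : ℝ) + 864 * L ^ 3 * (Fintype.card V : ℝ) / ((d : ℝ) * β ^ 2) with hK
  have hK0 : 0 ≤ K := by positivity
  have h1 : av w0 (lZ (bal V) Y1 β fun _ => -1) ≤ av w0 fun w =>
      β * mx (bal V) Y1 (fun _ => -1) w + (K + (Fintype.card V : ℝ) *
        ((if ¬ EM d a0 w then 1 else 0) + if EM d a0 w ∧ ¬ Rig d a0 w then 1 else 0)) := by
    refine av_mono fun w => ?_
    by_cases hR : Rig d a0 w
    · refine (h V E w d a0 β x L hb hd hR hβ hx hx1 hL).trans ?_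
      refine add_le_add_right (le_add_of_nonneg_right (mul_nonneg hn (add_nonneg ?_ ?_))) _ <;>
        split_ifs <;> norm_num
    · refine (lZ_le_mx hb hβ.le).trans (add_le_add_right ?_ _)
      have h2 := JEnt.log_card_bal V hb
      by_cases hE : EM d a0 w
      · rw [if_neg (not_not.2 hE), if_pos ⟨hE, hR⟩]
        linarith
      · rw [if_pos hE, if_neg fun h' => hE h'.1]
        linarith
  rw [av_add, av_add, av_mul, av_mul, av_const, av_add] at h1
  refine h1.trans (add_le_add_right (add_le_add_right (mul_le_mul_of_nonneg_left ?_ hn) _) _)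
  refine le_trans (le_of_eq ?_) hP
  unfold pr
  congr!

end Pool.Agent.MP_32a90a_pr.L

end

section

set_option autoImplicit false
set_option linter.unusedSectionVars false

namespace Pool.Agent.MP_32a90a_pr.L

open Finset

namespace JStiff

section
variable {V E : Type} [Fintype V] [DecidableEq V] [Fintype E] [DecidableEq E]

lemma abad_sub (s0 : ℝ) : Abad V s0 ⊆ bal3 V := by
  unfold Abad
  exact filter_subset _ _

lemma point {s0 : ℝ} (hs0 : 0 ≤ s0) (ω : T3 V) (hω : ω ∈ bal3 V) :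
    aV (o3 ω) ^ 2 ≤ 2 * s0 * (1 - |aV (o2 ω)|) + (if ω ∈ Abad V s0 then 1 else 0) := by
  have a2 : |aV (o2 ω)| ≤ 1 := abs_aV_le (abs_o2 ω)
  have a3 : |aV (o3 ω)| ≤ 1 := abs_aV_le (abs_o3 ω)
  by_cases h : ω ∈ Abad V s0
  · rw [if_pos h]
    have b3 : aV (o3 ω) ^ 2 ≤ 1 := by
      rw [← sq_abs]
      exact pow_le_one₀ (abs_nonneg _) a3
    have b2 : 0 ≤ 2 * s0 * (1 - |aV (o2 ω)|) := mul_nonneg (by linarith) (by linarith)
    linarith
  · rw [if_neg h, add_zero]
    by_contra hc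
    apply h
    unfold Abad
    exact mem_filter.2 ⟨hω, lt_of_not_ge hc⟩

lemma en_af (U : Finset E) (w : E × Bool → V) (x : V → Bool) :
    |en Y1 (patt U fun _ => false) w x - en Y1 (fun _ => -1) w x| ≤ (U.card : ℝ) := by
  have h := abs_en_sub_le (Y := Y1) (s := fun _ : E => (-1 : ℝ)) (w := w) (y := 1)
    (abs_Y1 (V := V)) U (s' := patt U fun _ => false)
    (fun i hi => by simp [patt, hi, sgn]) (fun i hi => by simp [patt, hi]) x
  rwa [one_mul] at h

lemma up_af (w0 : E × Bool → V) (hb : (bal V).Nonempty) (U : Finset E) {β : ℝ} (h0 : 0 ≤ β) :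
    av w0 (lZ (bal V) Y1 β (patt U fun _ => false))
      ≤ av w0 (lZ (bal V) Y1 β fun _ => -1) + β * (U.card : ℝ) := by
  refine av_le_add fun w => lZ_le_add hb fun x _ => ?_
  have h := (abs_le.1 (en_af U w x)).2
  have := mul_le_mul_of_nonneg_left h h0
  linarith

lemma low_af (w0 : E × Bool → V) (hb : (bal V).Nonempty) (U : Finset E) {β : ℝ} (h0 : 0 ≤ β) :
    β * av w0 (mx (bal V) Y1 fun _ => -1)
      ≤ av w0 (lZ (bal V) Y1 β (patt U fun _ => false)) + β * (U.card : ℝ) := by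
  rw [← av_mul]
  refine av_le_add fun w => ?_
  have h1 : mx (bal V) Y1 (fun _ => -1) w
      ≤ mx (bal V) Y1 (patt U fun _ => false) w + (U.card : ℝ) :=
    mx_le_add hb fun x _ => by linarith [(abs_le.1 (en_af U w x)).1]
  have h2 := mul_mx_le_lZ (Y := Y1) (β := β) (s := patt U fun _ => false) (w := w) hb
  have := mul_le_mul_of_nonneg_left h1 h0
  linarith

lemma low (h4 : StStep1) (h5 : StChain) (w0 : E × Bool → V) (hb : (bal V).Nonempty)
    (U : Finset E) (hU : 1 ≤ U.card) {β : ℝ} (h0 : 0 ≤ β) (h1 : β ≤ 1 / 100) (s : E → ℝ)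
    (hs : Full U s) :
    av w0 (lZ (bal V) Y1 β (patt U fun _ => false))
      ≤ av w0 (lZ (bal V) Y1 β s)
        + (Fintype.card E : ℝ) * (4 * β ^ 5 + 2 * β / (U.card : ℝ)) := by
  have h := h5 E U (fun t => -av w0 (lZ (bal V) Y1 β t)) (4 * β ^ 5 + 2 * β / (U.card : ℝ))
    (by positivity) (fun t k ht hk => by
      have g := (h4 V E w0 β U (Function.update t k 0) k hb h0 h1 hU (ht.update_zero_mem k)
        (by simp) hk).1
      rw [Function.update_idem, Function.update_idem] at g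
      linarith) s hs
  linarith

lemma mean (h2 : StGauge3) (h3 : StGaugeF) (w0 : E × Bool → V) {d : ℕ} (hd : Deg w0 d)
    (hd1 : 1 ≤ d) (hb : (bal V).Nonempty) (U : Finset E) {β s0 l : ℝ} (h0 : 0 < β)
    (hs0 : 0 ≤ s0) (hl : 0 < l) (hl1 : l ≤ 1) (hA : (Abad V s0).Nonempty) :
    ∑ J : E → Bool, av w0 (lZ (Abad V s0) Y3 β (patt U J))
      ≤ ∑ J : E → Bool, (3 * av w0 (lZ (bal V) Y1 β (patt U J))
          + (3 * (Real.log ((Fintype.card V : ℝ) + 1) / l
              + 2 * l * ((d : ℝ) * β) ^ 2 * (Fintype.card V : ℝ))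
            - s0 * (Fintype.card V : ℝ) / 2 + Real.log 2)) := by
  set γ := Real.log ((Fintype.card V : ℝ) + 1) / l
    + 2 * l * ((d : ℝ) * β) ^ 2 * (Fintype.card V : ℝ) with hγ
  have e : ∀ J : E → Bool, 3 * av w0 (lZ (bal V) Y1 β (patt U J))
        + (3 * γ - s0 * (Fintype.card V : ℝ) / 2 + Real.log 2)
      = av w0 (fun w => 3 * lZ (bal V) Y1 β (patt U J) w
        + (3 * γ - s0 * (Fintype.card V : ℝ) / 2 + Real.log 2)) := fun J => by
    rw [av_add, av_mul, av_const]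
  rw [sum_congr rfl fun J _ => e J, ← av_sum, ← av_sum]
  refine av_mono_deg hd fun w hw => ?_
  have g2 := h2 V E w U β s0 hs0 hA
  have g3 := h3 V E w d U β l hw hd1 hb h0 hl hl1
  rw [← hγ] at g3
  simp only [sum_add_distrib, sum_sub_distrib, ← mul_sum] at g2 g3 ⊢
  linarith

end

end JStiff

open JStiff in
theorem stStiff (h1 : StUniv) (h2 : StGauge3) (h3 : StGaugeF) (h4 : StStep1) (h5 : StChain)
    (h6 : StMass) : StStiff := by
  intro V E _ _ _ _ w0 d U β β' s0 l S' ε s hd hb hU hβ' hββ hβ1 hs0 hl hl1 hε hS hnum hs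
  obtain ⟨i0, -⟩ := card_pos.1 hU
  have : Nonempty E := ⟨i0⟩
  have hβ : 0 < β := lt_of_lt_of_le hβ' hββ
  have hb3 := bal3_nonempty hb
  have step : av w0 (fun w => gb (bal3 V) Y3 β s w fun ω => aV (o3 ω) ^ 2)
      ≤ 2 * s0 * av w0 (fun w => gb (bal3 V) Y3 β s w fun ω => 1 - |aV (o2 ω)|)
        + av w0 (fun w => gb (bal3 V) Y3 β s w fun ω => if ω ∈ Abad V s0 then 1 else 0) := by
    rw [← av_mul, ← av_add]
    refine av_mono fun w => ?_
    rw [← gb_mul, ← gb_add]
    exact gb_mono hb3 fun ω hω => point hs0 ω hω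
  refine step.trans (add_le_add le_rfl ?_)
  rcases (Abad V s0).eq_empty_or_nonempty with hA | hA
  · refine av_le_const fun w => gb_le_const hb3 fun ω _ => ?_
    rw [if_neg (by rw [hA]; exact notMem_empty ω)]
    positivity
  have hn : (0 : ℝ) ≤ (Fintype.card V : ℝ) := Nat.cast_nonneg _
  refine h6 V E w0 (Abad V s0) β β' (s0 * (Fintype.card V : ℝ) / 8) s hA (abad_sub s0) hβ' hββ
    hβ1 hs.abs_le (by positivity) ?_
  have hβ'1 : β' ≤ 1 / 100 := hββ.trans hβ1
  have hu : (Fintype.card E : ℝ) * (10000 * β' * (β' ^ 2 + 1 / (U.card : ℝ)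
      + ((U.card : ℝ) + 1) / (Fintype.card E : ℝ)))
      = (Fintype.card E : ℝ) * (10000 * β' * (β' ^ 2 + ε)) := by
    rw [hε, add_assoc]
  set u := (Fintype.card E : ℝ) * (10000 * β' * (β' ^ 2 + ε)) with hudef
  set γ := Real.log ((Fintype.card V : ℝ) + 1) / l
    + 2 * l * ((d : ℝ) * β') ^ 2 * (Fintype.card V : ℝ) with hγ
  set a := av w0 (lZ (Abad V s0) Y3 β' s) with ha
  set f := av w0 (lZ (bal V) Y1 β' (patt U fun _ => false)) with hf
  have k1 : ∀ J : E → Bool, a - u ≤ av w0 (lZ (Abad V s0) Y3 β' (patt U J)) := fun J => by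
    have g := h1 V E w0 d (Abad V s0) β' U s (patt U J) hd hA (abad_sub s0) hβ'.le hβ'1 hU hs
      (full_patt U J)
    rw [hu] at g
    linarith
  have k3 : ∀ t : E → ℝ, av w0 (lZ (bal3 V) Y3 β' t) = 3 * av w0 (lZ (bal V) Y1 β' t) :=
    fun t => by
      rw [← av_mul]
      congr 1
      funext w
      exact lZ_bal3
  have k2 : ∀ J : E → Bool, 3 * av w0 (lZ (bal V) Y1 β' (patt U J)) ≤ 3 * f + u := fun J => by
    have g := h1 V E w0 d (bal3 V) β' U (patt U J) (patt U fun _ => false) hd hb3 Subset.rfl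
      hβ'.le hβ'1 hU (full_patt U J) (full_patt U _)
    rwa [hu, k3, k3] at g
  have m := mean h2 h3 w0 hd (one_le_deg hd) hb U hβ' hs0 hl hl1 hA
  rw [← hγ] at m
  have m1 : ∑ _J : E → Bool, (a - u)
      ≤ ∑ _J : E → Bool, (3 * f + u + (3 * γ - s0 * (Fintype.card V : ℝ) / 2 + Real.log 2)) :=
    (sum_le_sum fun J _ => k1 J).trans (m.trans (sum_le_sum fun J _ => by linarith [k2 J]))
  have m2 : a - u ≤ 3 * f + u + (3 * γ - s0 * (Fintype.card V : ℝ) / 2 + Real.log 2) := by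
    rw [sum_const, sum_const, nsmul_eq_mul, nsmul_eq_mul] at m1
    have hK : (0 : ℝ) < ((univ : Finset (E → Bool)).card : ℝ) := by
      exact_mod_cast card_pos.2 univ_nonempty
    exact le_of_mul_le_mul_left m1 hK
  have l2 : Real.log 2 ≤ 1 := by
    have := Real.log_le_sub_one_of_pos (x := 2) (by norm_num)
    linarith
  have p1 := up_af w0 hb U hβ'.le
  rw [← hf] at p1
  have p2 := low_af w0 hb U hβ.le
  have p3 := low h4 h5 w0 hb U hU hβ.le hβ1 s hs
  set e := av w0 (mx (bal V) Y1 fun _ => -1) with he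
  set b := av w0 (lZ (bal V) Y1 β s) with hbdef
  have p4 : β * (e - (U.card : ℝ) - (Fintype.card E : ℝ) * (4 * β ^ 4 + 2 / (U.card : ℝ))) ≤ b := by
    have : β * ((Fintype.card E : ℝ) * (4 * β ^ 4 + 2 / (U.card : ℝ)))
        = (Fintype.card E : ℝ) * (4 * β ^ 5 + 2 * β / (U.card : ℝ)) := by ring
    linarith
  have p5 : 3 * β' * (e - (U.card : ℝ) - (Fintype.card E : ℝ) * (4 * β ^ 4 + 2 / (U.card : ℝ)))
      ≤ 3 * (β' / β) * b := by
    have q := mul_le_mul_of_nonneg_left p4 (show 0 ≤ 3 * (β' / β) by positivity)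
    refine le_trans (le_of_eq ?_) q
    field_simp
  nlinarith [p5, m2, p1, hS, hnum, l2]

end Pool.Agent.MP_32a90a_pr.L

end

section

set_option autoImplicit false

namespace Pool.Agent.MP_32a90a_pr.L

open Finset Equiv

namespace JAbs

lemma num {β ε e T θ s0 p A B B0 B1 : ℝ} (h0 : 0 < β) (h1 : β ≤ 1 / 100) (hs : 0 ≤ s0)
    (hε : 0 ≤ ε) (he : e ≤ ε) (hA : A ≤ 600 * (β ^ 4 + ε)) (hB : B ≤ 16 * B0 + 600 * (β ^ 2 + ε))
    (hB0 : B0 ≤ 2 * B1) (hB1 : B1 ≤ 2 * s0 * θ + p) (hθ : θ ≤ 5000 * T / β) :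
    2 * β * A + β ^ 3 * B + 4 * β ^ 5 + 2 * β * e
      ≤ β * (1900 * β ^ 4 + 1300 * ε + 320000 * β * s0 * T + 32 * β ^ 2 * p) := by
  have hθ' : β * θ ≤ 5000 * T := by rwa [le_div_iff₀ h0, mul_comm] at hθ
  have a1 : 2 * β * A ≤ 2 * β * (600 * (β ^ 4 + ε)) := by gcongr
  have a2 : β ^ 3 * B ≤ β ^ 3 * (32 * (2 * s0 * θ + p) + 600 * (β ^ 2 + ε)) := by
    gcongr; linarith
  have a3 : β ^ 2 * s0 * (β * θ) ≤ β ^ 2 * s0 * (5000 * T) := by gcongr
  have a4 : 2 * β * e ≤ 2 * β * ε := by gcongr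
  have a5 : β ^ 2 * (β * ε) ≤ (1 / 100) ^ 2 * (β * ε) := by gcongr
  have a6 : 0 ≤ β ^ 5 := by positivity
  have a7 : 0 ≤ β * ε := by positivity
  nlinarith

variable {V E : Type} [Fintype V] [DecidableEq V] [Fintype E] [DecidableEq E]

lemma en_patt (U : Finset E) (b : Bool) (w : E × Bool → V) (x : V → Bool) :
    |en Y1 (fun _ => sgn b) w x - en Y1 (patt U fun _ => b) w x| ≤ U.card := by
  have := abs_en_sub_le (w := w) (s := patt U fun _ => b) (s' := fun _ => sgn b) abs_Y1 U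
    (fun i hi => by simp [patt, hi]) (fun i hi => by simp [patt, hi]) x
  rwa [one_mul] at this

end JAbs

theorem stAbs (h1 : StStep1) (h2 : StCavA) (h3 : StCav) (h4 : StTheta) (h5 : StChain) : StAbs := by
  intro V E _ _ _ _ w0 d U β s0 S ε p hd hb hU h0 hβ hs hp hε hS hst
  have hb3 := bal3_nonempty hb
  have hr : (0 : ℝ) ≤ 1 / (U.card : ℝ) := by positivity
  have hz : (0 : ℝ) ≤ ((U.card : ℝ) + 1) / (Fintype.card E : ℝ) := by positivity
  have hε0 : 0 ≤ ε := by rw [hε]; positivity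
  obtain ⟨g, hg⟩ : ∃ g, g = 1900 * β ^ 4 + 1300 * ε
      + 320000 * β * s0 * (Real.sqrt d * (Fintype.card V : ℝ) / (Fintype.card E : ℝ)
        + β ^ 4 + ε) + 32 * β ^ 2 * p := ⟨_, rfl⟩
  have hg0 : 0 ≤ g := by rw [hg]; positivity
  rw [← hg]
  have hch := h5 E U (fun s => av w0 (lZ (bal V) Y1 β s)) (β * g) (by positivity) (by
    intro s k hF hk
    have e1 := (h1 V E w0 β U (Function.update s k 0) k hb h0.le hβ hU (hF.update_zero_mem k)
      (Function.update_self ..) hk).2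
    simp only [Function.update_idem] at e1
    have e2 := h2 V E w0 d β U _ _ hd hb h0.le hβ hU (hF.pat_update k)
    have e3 := h3 V E (T3 V) w0 d (bal3 V) Y3 o3 β U _ _ hd hb3 abs_Y3 abs_o3 h0.le hβ hU
      (hF.pat_update k)
    have e4 := h4 V E w0 d β U s hd hb h0 hβ hU hF
    have e5 : av w0 (fun w => gb (bal3 V) Y3 β (Function.update s k 0) w fun ω => aV (o3 ω) ^ 2)
        ≤ 2 * av w0 (fun w => gb (bal3 V) Y3 β s w fun ω => aV (o3 ω) ^ 2) := by
      rw [← av_mul]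
      exact av_mono fun w =>
        (gb_remove hb3 abs_Y3 h0.le hβ k (hF.abs_le k) fun ω _ => sq_nonneg _).2
    push_cast at e2 e3
    rw [add_assoc, ← hε] at e2
    rw [add_assoc (β ^ 2), ← hε] at e3
    rw [add_assoc _ (1 / (U.card : ℝ)), ← hε] at e4
    have e6 := JAbs.num (e := 1 / (U.card : ℝ)) h0 hβ hs hε0 (by rw [hε]; linarith) e2 e3 e5
      (hst s hF) e4
    rw [← hg, mul_one_div] at e6
    exact e1.trans (by linarith)) _ (full_patt U fun _ => true)
  have k1 : av w0 (mx (bal V) Y1 fun _ => 1)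
      ≤ av w0 (mx (bal V) Y1 (patt U fun _ => true)) + U.card :=
    av_le_add fun w => mx_le_add hb fun x _ => by
      have := (abs_le.1 (JAbs.en_patt U true w x)).2
      simp only [sgn, if_true] at this
      linarith
  have k2 : β * av w0 (mx (bal V) Y1 (patt U fun _ => true))
      ≤ av w0 (lZ (bal V) Y1 β (patt U fun _ => true)) := by
    rw [← av_mul]
    exact av_mono fun w => mul_mx_le_lZ hb
  have k3 : av w0 (lZ (bal V) Y1 β (patt U fun _ => false))
      ≤ av w0 (lZ (bal V) Y1 β fun _ => -1) + β * U.card :=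
    av_le_add fun w => lZ_le_add hb fun x _ => by
      have := (abs_le.1 (JAbs.en_patt U false w x)).1
      simp only [sgn, Bool.false_eq_true, if_false] at this
      nlinarith
  have k4 : β * (S / β) = S := by field_simp
  refine le_of_mul_le_mul_left ?_ h0
  have k5 := mul_le_mul_of_nonneg_left k1 h0.le
  nlinarith

end Pool.Agent.MP_32a90a_pr.L

end

section

set_option autoImplicit false

namespace Pool.Agent.MP_32a90a_pr.L

open Finset Equiv Filter Topology

namespace JMean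

lemma bal_ne (k : ℕ) : (bal (Fin (2 * k))).Nonempty := by
  obtain ⟨x, hx⟩ := Bal_nonempty k
  refine ⟨x, mem_bal.2 ?_⟩
  simpa [Bal] using hx

lemma log_bound {u : ℝ} (h0 : 0 < u) : -Real.log (u ^ 200) ≤ 200 / u := by
  rw [Real.log_pow]
  have h := Real.log_le_sub_one_of_pos (inv_pos.2 h0)
  rw [Real.log_inv] at h
  have : (200 : ℝ) / u = 200 * u⁻¹ := by ring
  rw [this]; push_cast; nlinarith

lemma em_cond {u D : ℝ} (h0 : 0 < u) (h1 : u ≤ 1 / 10 ^ 12) (hD : D * u ^ 600 = 1) :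
    512 * (2 * (200 / u) + 3) ≤ D * (u ^ 199) ^ 3 := by
  have e : D * (u ^ 199) ^ 3 = 1 / u ^ 3 := by
    rw [eq_div_iff (by positivity), ← hD]; ring
  rw [e, le_div_iff₀ (by positivity)]
  have e2 : 512 * (2 * (200 / u) + 3) * u ^ 3 = 204800 * u ^ 2 + 1536 * u ^ 3 := by
    field_simp; ring
  rw [e2]
  have h2 : u ≤ 1 / 1000 := h1.trans (by norm_num)
  have h3 : u ^ 2 ≤ (1 / 1000) ^ 2 := pow_le_pow_left₀ h0.le h2 2
  have h4 : u ^ 3 ≤ (1 / 1000) ^ 3 := pow_le_pow_left₀ h0.le h2 3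
  norm_num at h3 h4 ⊢
  linarith

end JMean

theorem stMean (hEM : StEM) (hRig : StRig) (hEnt : StEnt) (hStiff : StStiff) (hAbs : StAbs)
    (hLim : StLim) (hN1 : StNum1) (hN2 : StNum2) : StMean := by
  intro d u h0 h1 hD
  have hu1 : u ≤ 1 := h1.trans (by norm_num)
  have hpow : ∀ m : ℕ, u ^ m ≤ 1 := fun m => pow_le_one₀ h0.le hu1
  have hd0 : (0 : ℝ) < d := by
    by_contra hc
    have : (d : ℝ) = 0 := le_antisymm (not_lt.1 hc) (Nat.cast_nonneg d)
    rw [this] at hD; simp at hD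
  have hd1 : 1 ≤ d := by exact_mod_cast hd0
  obtain ⟨r0, hr0⟩ := exists_nat_ge (1 / u ^ 1000)
  have ht : 0 < u ^ 1000 := by positivity
  have hr1 : (1 : ℝ) ≤ r0 := le_trans (by rw [le_div_iff₀ ht]; simpa using hpow 1000) hr0
  have hr2 : 1 / (r0 : ℝ) ≤ u ^ 1000 := by
    rw [div_le_iff₀ (by linarith)]
    rw [div_le_iff₀ ht] at hr0
    linarith
  have hb : u ^ 190 ≤ 1 / 100 := by
    have : u ^ 190 ≤ u ^ 1 := pow_le_pow_of_le_one h0.le hu1 (by norm_num)
    rw [pow_one] at this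
    exact this.trans (h1.trans (by norm_num))
  have hbb : u ^ 240 ≤ u ^ 190 := pow_le_pow_of_le_one h0.le hu1 (by norm_num)
  have hx : u ^ 200 ≤ u ^ 199 := pow_le_pow_of_le_one h0.le hu1 (by norm_num)
  have hc0 : (0 : ℝ) < d * u ^ 398 / 4 := by positivity
  filter_upwards [hLim d r0 (u ^ 199) (u ^ 116) (d * u ^ 398 / 4) (u ^ 1000) hd1 (by positivity)
    (by positivity) hc0 ht] with k hk
  obtain ⟨k1, k2, k3, k4, k5⟩ := hk
  intro w0 hw
  have hr1' : 1 ≤ r0 := by exact_mod_cast hr1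
  have hk1 : 1 ≤ k := hr1'.trans k1
  have hk0 : (0 : ℝ) < k := by exact_mod_cast hk1
  have hkd : k ≤ k * d := Nat.le_mul_of_pos_right k hd1
  have : Nonempty (Fin (k * d)) := ⟨⟨0, by omega⟩⟩
  obtain ⟨U, -, hU⟩ := exists_subset_card_eq (s := (univ : Finset (Fin (k * d)))) (n := r0)
    (by simp; omega)
  have cV : (Fintype.card (Fin (2 * k)) : ℝ) = 2 * k := by simp
  have cE : (Fintype.card (Fin (k * d)) : ℝ) = k * d := by simp
  have cV' : Fintype.card (Fin (2 * k)) = 2 * k := by simp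
  set a0 := ⌈u ^ 199 * (2 * k)⌉₊ with ha0
  have ha1 : u ^ 199 * (2 * k) ≤ a0 := Nat.le_ceil _
  have ha2 : (a0 : ℝ) ≤ u ^ 199 * (2 * k) + 1 := (Nat.ceil_lt_add_one (by positivity)).le
  have ha3 : 1 ≤ a0 := Nat.ceil_pos.2 (by positivity)
  have hj : 8 * (Fintype.card (Fin (2 * k)) : ℝ) * (⌊d * u ^ 398 / 4 * k⌋₊ : ℕ)
      ≤ (d : ℝ) * (a0 : ℝ) ^ 2 := by
    have f1 : ((⌊d * u ^ 398 / 4 * k⌋₊ : ℕ) : ℝ) ≤ d * u ^ 398 / 4 * k :=
      Nat.floor_le (by positivity)
    have f2 : (u ^ 199 * (2 * k)) ^ 2 ≤ (a0 : ℝ) ^ 2 := pow_le_pow_left₀ (by positivity) ha1 2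
    rw [cV]
    calc 8 * (2 * (k : ℝ)) * (⌊d * u ^ 398 / 4 * k⌋₊ : ℕ)
        ≤ 8 * (2 * (k : ℝ)) * (d * u ^ 398 / 4 * k) :=
          mul_le_mul_of_nonneg_left f1 (by positivity)
      _ = d * (u ^ 199 * (2 * k)) ^ 2 := by ring
      _ ≤ _ := mul_le_mul_of_nonneg_left f2 hd0.le
  have p1 := hEM _ _ w0 d a0 (u ^ 200) (200 / u) (u ^ 199) hw (by positivity) hx (hpow 200)
    (JMean.log_bound h0) (JMean.em_cond h0 h1 hD) (by rw [cV]; exact ha1)
  have p2 := hRig _ _ w0 d a0 _ hw hj ha3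
  rw [cV] at p1
  rw [cV'] at p2
  have pP : pr w0 (fun w => ¬ EM d a0 w) + pr w0 (fun w => EM d a0 w ∧ ¬ Rig d a0 w)
      ≤ u ^ 1000 := by linarith
  have e1 := hEnt _ _ w0 d a0 (u ^ 190) (u ^ 200) (200 / u) (u ^ 1000) (JMean.bal_ne k) hd1
    (by positivity) (by positivity) (hpow 200) (JMean.log_bound h0) pP
  have e2 := hEnt _ _ w0 d a0 (u ^ 240) (u ^ 200) (200 / u) (u ^ 1000) (JMean.bal_ne k) hd1
    (by positivity) (by positivity) (hpow 200) (JMean.log_bound h0) pP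
  have hU1 : 1 ≤ U.card := by rw [hU]; exact hr1'
  have lg2 : Real.log (2 * (k : ℝ) + 1) ≤ Real.log (2 * ((k : ℝ) * d) + 1) := by
    refine Real.log_le_log (by positivity) ?_
    have : (1 : ℝ) ≤ d := by exact_mod_cast hd1
    nlinarith
  have n1 := hN1 u d k r0 a0 _ _ (u ^ 1000) _ h0 h1 hD (by linarith) hr2 k3 ha2 k2 lg2 le_rfl rfl
  have n2 := hN2 u d k r0 a0 _ (u ^ 1000) _ _ h0 h1 hD (by linarith) hr2 k3 ha2 k2 le_rfl k5 rfl
  have st := fun s => hStiff _ _ w0 d U (u ^ 190) (u ^ 240) (u ^ 116) (u ^ 900) _ _ s hw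
    (JMean.bal_ne k) hU1 (by positivity) hbb hb (by positivity) (by positivity) (hpow 900) rfl e2
    (by rw [hU, cV, cE]; exact n1)
  have fin := hAbs _ _ w0 d U (u ^ 190) (u ^ 116) _ _ _ hw (JMean.bal_ne k) hU1 (by positivity) hb
    (by positivity) (by positivity) rfl e1 st
  rw [hU, cV, cE] at fin
  linarith

end Pool.Agent.MP_32a90a_pr.L

end

section

set_option autoImplicit false

namespace Pool.Agent.MP_32a90a_pr.L

open Finset
open scoped Classical

lemma abs_vals_le {n d : ℕ} {G : SimpleGraph (Fin n)} (hG : G.IsRegularOfDegree d) {t : ℝ}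
    (ht : t ∈ vals G) : |t| ≤ d := by
  obtain ⟨x, h1, -, rfl⟩ := ht
  have hx : ∀ i, |x i| = 1 := fun i => by rcases h1 i with h | h <;> simp [h]
  have h2 : |dotProduct x ((G.adjMatrix ℝ).mulVec x)| ≤ n * d := by
    unfold dotProduct
    refine (abs_sum_le_sum_abs _ _).trans ?_
    have : ∀ i ∈ (univ : Finset (Fin n)), |x i * (G.adjMatrix ℝ).mulVec x i| ≤ d := by
      intro i _
      rw [abs_mul, hx, one_mul, SimpleGraph.adjMatrix_mulVec_apply]
      refine (abs_sum_le_sum_abs _ _).trans ?_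
      simp only [hx, sum_const, nsmul_eq_mul, mul_one, SimpleGraph.card_neighborFinset_eq_degree]
      exact_mod_cast (hG.degree_eq i).le
    simpa using sum_le_card_nsmul _ _ _ this
  rcases Nat.eq_zero_or_pos n with h0 | h0
  · subst h0; simp
  · have hn : (0 : ℝ) < n := by exact_mod_cast h0
    rw [abs_mul, abs_of_pos (by positivity : (0 : ℝ) < 1 / n), one_div, inv_mul_le_iff₀ hn]
    exact h2

lemma sum_le_two_deg {n d : ℕ} {G : SimpleGraph (Fin n)} (hG : G.IsRegularOfDegree d) :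
    sSup (vals G) + sInf (vals G) ≤ 2 * d := by
  have h1 : sSup (vals G) ≤ d :=
    Real.sSup_le (fun t ht => (abs_le.1 (abs_vals_le hG ht)).2) (Nat.cast_nonneg d)
  have h2 : sInf (vals G) ≤ sSup (vals G) :=
    Real.sInf_le_sSup _ ⟨-d, fun t ht => (abs_le.1 (abs_vals_le hG ht)).1⟩
      ⟨d, fun t ht => (abs_le.1 (abs_vals_le hG ht)).2⟩
  linarith

end Pool.Agent.MP_32a90a_pr.L

end

section

set_option autoImplicit false

namespace Pool.Agent.MP_32a90a_pr.L

open Filter Topology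
open scoped Classical

theorem large_degree (hM : StMean) (hT : StTransfer) : ∃ C : ℝ, ∀ d : ℕ, 1 ≤ d →
    Tendsto (fun k : ℕ =>
      ({G : SimpleGraph (Fin (2 * k)) | G.IsRegularOfDegree d ∧
          C * (d : ℝ) ^ (-(1 / 100 : ℝ)) < sSup (vals G) + sInf (vals G)}.ncard : ℝ)
        / ({G : SimpleGraph (Fin (2 * k)) | G.IsRegularOfDegree d}.ncard : ℝ)) atTop (𝓝 0) := by
  have lim : Tendsto (fun d : ℕ => (d : ℝ) ^ (-(1 / 600 : ℝ))) atTop (𝓝 0) :=
    (tendsto_rpow_neg_atTop (by norm_num)).comp tendsto_natCast_atTop_atTop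
  obtain ⟨d0, hd0⟩ := eventually_atTop.1
    (lim.eventually (ge_mem_nhds (by norm_num : (0 : ℝ) < 1 / 10 ^ 12)))
  refine ⟨3 * 10 ^ 6 + 2 * (d0 : ℝ) ^ 2, fun d hd => ?_⟩
  have hd' : (1 : ℝ) ≤ d := by exact_mod_cast hd
  have hp : 0 < (d : ℝ) ^ (-(1 / 100 : ℝ)) := Real.rpow_pos_of_pos (by linarith) _
  by_cases h : d0 ≤ d
  · set u : ℝ := (d : ℝ) ^ (-(1 / 600 : ℝ)) with hu
    have hu0 : 0 < u := Real.rpow_pos_of_pos (by linarith) _
    have e1 : (d : ℝ) * u ^ 600 = 1 := by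
      rw [hu, ← Real.rpow_natCast, ← Real.rpow_mul (by linarith)]
      norm_num
      rw [Real.rpow_neg_one, mul_inv_cancel₀ (by linarith)]
    have e2 : u ^ 6 = (d : ℝ) ^ (-(1 / 100 : ℝ)) := by
      rw [hu, ← Real.rpow_natCast, ← Real.rpow_mul (by linarith)]
      norm_num
    have key := hT d _ hd (by positivity) (hM d u hu0 (hd0 d h) e1)
    refine squeeze_zero (fun k => by positivity) (fun k => ?_) key
    refine div_le_div_of_nonneg_right ?_ (Nat.cast_nonneg _)
    refine Nat.cast_le.2 (Set.ncard_le_ncard (fun G hG => ⟨hG.1, ?_⟩) (Set.toFinite _))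
    have h2 := hG.2
    have h3 : 0 ≤ (d0 : ℝ) ^ 2 * (d : ℝ) ^ (-(1 / 100 : ℝ)) := by positivity
    rw [e2]
    nlinarith
  · have hlt : (d : ℝ) ≤ d0 := by exact_mod_cast (not_le.1 h).le
    have e3 : (d : ℝ)⁻¹ ≤ (d : ℝ) ^ (-(1 / 100 : ℝ)) := by
      rw [← Real.rpow_neg_one]
      exact Real.rpow_le_rpow_of_exponent_le hd' (by norm_num)
    have e4 : 2 * (d : ℝ) ≤ (3 * 10 ^ 6 + 2 * (d0 : ℝ) ^ 2) * (d : ℝ) ^ (-(1 / 100 : ℝ)) := by
      have a1 : (d : ℝ) ^ 2 ≤ (d0 : ℝ) ^ 2 := pow_le_pow_left₀ (by linarith) hlt 2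
      have a2 : (d : ℝ) = (d : ℝ) ^ 2 * (d : ℝ)⁻¹ := by field_simp
      have a3 : (d : ℝ) ^ 2 * (d : ℝ)⁻¹ ≤ (d0 : ℝ) ^ 2 * (d : ℝ) ^ (-(1 / 100 : ℝ)) :=
        mul_le_mul a1 e3 (by positivity) (by positivity)
      nlinarith
    have : ∀ k : ℕ, {G : SimpleGraph (Fin (2 * k)) | G.IsRegularOfDegree d ∧
        (3 * 10 ^ 6 + 2 * (d0 : ℝ) ^ 2) * (d : ℝ) ^ (-(1 / 100 : ℝ))
          < sSup (vals G) + sInf (vals G)} = ∅ := by
      intro k
      refine Set.eq_empty_iff_forall_notMem.2 fun G hG => ?_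
      have := sum_le_two_deg hG.1
      have := hG.2
      linarith
    simp only [this, Set.ncard_empty, Nat.cast_zero, zero_div]
    exact tendsto_const_nhds

end Pool.Agent.MP_32a90a_pr.L

end

section

set_option autoImplicit false

namespace Pool.Agent.MP_32a90a_pr.L

theorem mean_all : StMean :=
  stMean (stEM stBin) (stRig stGrp stCount (stMatch stKhin)) (stEnt (stLayer stBin))
    (stStiff (stUniv stStepU stCav stChain) (stGauge3 stHoef) (stGaugeF stCube) stStep1 stChain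
      stMass)
    (stAbs stStep1 stCavA stCav (stTheta stPos stEdge stCavA stMx) stChain)
    (stLim stFact) stNum1 stNum2

end Pool.Agent.MP_32a90a_pr.L

end
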