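import Pool.Agent.Mg.F32a90ap.Gac7422

section

set_option autoImplicit false

namespace Pool.Agent.MP_32a90a_pr.D

open Finset Pool.Agent.MP_32a90a_pr Pool.Agent.MP_32a90a_pr.L

noncomputable section

/-- exp (-(k d log d)) -/
def sm (k : ℝ) (d : ℕ) : ℝ := Real.exp (-(k * (d * Real.log d)))

section vec
variable {Sg ι : Type} [Fintype Sg] [Fintype ι]

/-- expectation under a weight vector -/
def Ex (μ f : Sg → ℝ) : ℝ := ∑ σ, μ σ * f σ

/-- expectation over a pair of independent samples -/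
def E2 (μ μ' : Sg → ℝ) (f : Sg → Sg → ℝ) : ℝ := Ex μ fun σ => Ex μ' fun σ' => f σ σ'

/-- expectation over k independent samples -/
def Ek (μ : Sg → ℝ) (k : ℕ) (f : (Fin k → Sg) → ℝ) : ℝ := ∑ τ : Fin k → Sg, (∏ i, μ (τ i)) * f τ

/-- probability vector -/
def Prob (μ : Sg → ℝ) : Prop := (∀ σ, 0 ≤ μ σ) ∧ ∑ σ, μ σ = 1

/-- mean of a spin -/
def mm (μ : Sg → ℝ) (φ : Sg → Bool) : ℝ := Ex μ fun σ => sgn (φ σ)

/-- covariance of two spins -/
def cv (μ : Sg → ℝ) (φ ψ : Sg → Bool) : ℝ :=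
  (Ex μ fun σ => sgn (φ σ) * sgn (ψ σ)) - mm μ φ * mm μ ψ

/-- probability that two independent samples differ -/
def kt (μ : Sg → ℝ) (φ : Sg → Bool) : ℝ := (1 - mm μ φ ^ 2) / 2

/-- minority probability -/
def mn (μ : Sg → ℝ) (φ : Sg → Bool) : ℝ := (1 - |mm μ φ|) / 2

/-- mean squared covariance -/
def c2 (μ : Sg → ℝ) (ph : ι → Sg → Bool) : ℝ := avg fun u => avg fun v => cv μ (ph u) (ph v) ^ 2

/-- mean width -/
def zz (μ : Sg → ℝ) (ph : ι → Sg → Bool) : ℝ := avg fun u => kt μ (ph u)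

/-- fraction of sites where two configurations differ -/
def fr (ph : ι → Sg → Bool) (σ σ' : Sg) : ℝ := avg fun u => ind (ph u σ ≠ ph u σ')

/-- partition function -/
def Zf (β : ℝ) (H : Sg → ℝ) : ℝ := ∑ σ, Real.exp (β * H σ)

/-- Gibbs probability vector -/
def gibbs (β : ℝ) (H : Sg → ℝ) (σ : Sg) : ℝ := Real.exp (β * H σ) / Zf β H

end vec

/-- a one-level cascade: marks with prior p, reweighted by the power x of the partition
function -/
structure Cas (Sg Gm : Type) where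
  β : ℝ
  x : ℝ
  p : Gm → ℝ
  H : Gm → Sg → ℝ

namespace Cas
variable {Sg Gm Nd ι : Type} [Fintype Sg] [Fintype Gm] [Fintype ι] (C : Cas Sg Gm)

/-- Gibbs vector of the child g -/
def nu (g : Gm) : Sg → ℝ := gibbs C.β (C.H g)

/-- joint weight -/
def wt (g : Gm) (σ : Sg) : ℝ := C.p g * Zf C.β (C.H g) ^ C.x * C.nu g σ

/-- unnormalised expectation -/
def E (f : Gm → Sg → ℝ) : ℝ := ∑ g, ∑ σ, C.wt g σ * f g σ

/-- total weight -/
def N : ℝ := C.E fun _ _ => 1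

/-- normalised expectation -/
def P (f : Gm → Sg → ℝ) : ℝ := C.E f / C.N

/-- the product β x -/
def y : ℝ := C.β * C.x

/-- perturbed energy -/
def add (D : Gm → Sg → ℝ) : Cas Sg Gm := ⟨C.β, C.x, C.p, fun g σ => C.H g σ + D g σ⟩

/-- prior restricted by a factor -/
def res (o : Gm → ℝ) : Cas Sg Gm := ⟨C.β, C.x, fun g => C.p g * o g, C.H⟩

/-- admissible parameters -/
def Ok : Prop := 0 < C.β ∧ 0 < C.x ∧ C.x ≤ 1 ∧ (∀ g, 0 ≤ C.p g) ∧ ∃ g, 0 < C.p g

/-- law of the configuration at the root -/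
def root (σ : Sg) : ℝ := C.P fun _ σ' => ind (σ' = σ)

/-- law of the configuration given the node -/
def mu (nd : Gm → Nd) (n : Nd) (σ : Sg) : ℝ :=
  (C.E fun g σ' => ind (nd g = n ∧ σ' = σ)) / C.E fun g _ => ind (nd g = n)

/-- expectation of a function of the node -/
def EN (nd : Gm → Nd) (F : Nd → ℝ) : ℝ := C.P fun g _ => F (nd g)

/-- purity defect -/
def errP (nd : Gm → Nd) (ph : ι → Sg → Bool) : ℝ := C.EN nd fun n => c2 (C.mu nd n) ph

end Cas

/-- prior of one gadget -/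
def bb (ρ : ℝ) : Option Bool → ℝ
  | none => 1 - ρ
  | some _ => ρ / 2

/-- energy of one gadget -/
def gad (tp tm : ℝ) : Option Bool → Bool → ℝ
  | none, _ => 0
  | some b, s => if b = s then tp else -tm

/-- marks and gadgets -/
abbrev Gam (G0 A : Type) : Type := G0 × (A → Option Bool)

/-- a cascade with uniform marks G0 and independent gadgets on the pool A -/
structure Sys (Sg G0 A : Type) where
  β : ℝ
  x : ℝ
  ρ : ℝ
  tp : ℝ
  tm : ℝ
  H0 : G0 → Sg → ℝ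
  sp : A → Sg → Bool

section o
variable {G0 A : Type}

/-- no gadget on I -/
def oI (I : Finset A) (g : Gam G0 A) : ℝ := ind (∀ a ∈ I, g.2 a = none)

/-- a is outside I and carries no gadget -/
def oA (I : Finset A) (a : A) (g : Gam G0 A) : ℝ := ind (a ∉ I ∧ g.2 a = none)

/-- u is injective and carries no gadget -/
def oU {m : ℕ} (u : Fin m → A) (g : Gam G0 A) : ℝ :=
  ind (Function.Injective u ∧ ∀ i, g.2 (u i) = none)

/-- sign of the slot i: -1 on AA, the bit elsewhere -/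
def Jc {d : ℕ} (AA : Finset (Fin d)) (i : Fin d) (b : Bool) : ℝ := if i ∈ AA then -1 else sgn b

/-- cavity field -/
def hom {Sg : Type} {d : ℕ} (sp : A → Sg → Bool) (AA : Finset (Fin d)) (ω : Fin d → A × Bool)
    (σ : Sg) : ℝ := ∑ i, Jc AA i (ω i).2 * sgn (sp (ω i).1 σ)

/-- pool positions of ω -/
def uu {d : ℕ} (ω : Fin d → A × Bool) : Fin d → A := fun i => (ω i).1

/-- number of chosen pool positions where two configurations differ -/
def dn {Sg : Type} {m : ℕ} (sp : A → Sg → Bool) (u : Fin m → A) (σ σ' : Sg) : ℝ :=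
  ∑ i, ind (sp (u i) σ ≠ sp (u i) σ')

/-- level weights normalised by the root law only -/
def Th0 {Sg : Type} [Fintype Sg] [Fintype A] {d : ℕ} (μ : Sg → ℝ) (sp : A → Sg → Bool) (y : ℝ)
    (AA : Finset (Fin d)) (l : ℝ) : ℝ :=
  avg fun ω : Fin d → A × Bool =>
    (Ex μ fun σ => ind (hom sp AA ω σ = l)) / Ex μ fun σ => Real.exp (y * |hom sp AA ω σ|)

/-- odd overlaps of k root samples are small, also under a tilt -/
def HK {Sg : Type} [Fintype Sg] [Fintype A] (μ : Sg → ℝ) (sp : A → Sg → Bool) (k : ℕ)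
    (α e : ℝ) : Prop :=
  ∀ (T : (Fin k → Sg) → ℝ) (F : ℝ), (∀ τ, 0 ≤ T τ) → (∀ τ, T τ ≤ F) →
    (Ek μ k fun τ => T τ * |avg fun a => ∏ i, sgn (sp a (τ i))|) ≤ k * α * Ek μ k T + F * e

/-- the spin o is flexible under ν but has few followers -/
def BadV {Sg : Type} [Fintype Sg] (ν : Sg → ℝ) (o : Sg → Bool) (Jn : Sg → Sg → ℝ)
    (t j f : ℝ) : Prop :=
  t ≤ mn ν o ∧ f * kt ν o ≤ E2 ν ν fun σ σ' => ind (o σ ≠ o σ' ∧ Jn σ σ' < j)

end o

namespace Sys
variable {Sg G0 A Nd : Type} [Fintype Sg] [Fintype G0] [Fintype A] [DecidableEq A]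
  (S : Sys Sg G0 A)

/-- the underlying cascade -/
def cas : Cas Sg (Gam G0 A) :=
  ⟨S.β, S.x, fun g => (∏ a, bb S.ρ (g.2 a)) / Fintype.card G0,
    fun g σ => S.H0 g.1 σ + ∑ a, gad S.tp S.tm (g.2 a) (S.sp a σ)⟩

/-- unnormalised expectation -/
abbrev E (f : Gam G0 A → Sg → ℝ) : ℝ := S.cas.E f

/-- total weight -/
abbrev N : ℝ := S.cas.N

/-- normalised expectation -/
abbrev P (f : Gam G0 A → Sg → ℝ) : ℝ := S.cas.P f

/-- Gibbs vector of a child -/
abbrev nu (g : Gam G0 A) : Sg → ℝ := S.cas.nu g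

/-- law given the node -/
abbrev mu (nd : G0 → Nd) (n : Nd) : Sg → ℝ := S.cas.mu (fun g => nd g.1) n

/-- expectation of a function of the node -/
abbrev EN (nd : G0 → Nd) (F : Nd → ℝ) : ℝ := S.cas.EN (fun g => nd g.1) F

/-- the product β x -/
def y : ℝ := S.β * S.x

/-- visible perturbation -/
def add (D : G0 → Sg → ℝ) : Sys Sg G0 A :=
  ⟨S.β, S.x, S.ρ, S.tp, S.tm, fun g σ => S.H0 g σ + D g σ, S.sp⟩

/-- response to a field on one pool position -/
def Sv (t : ℝ) (a : A) (g : Gam G0 A) (σ : Sg) : ℝ :=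
  (Ex (S.nu g) fun σ' => Real.exp (S.β * t * ind (S.sp a σ' ≠ S.sp a σ))) ^ (S.x - 1)

/-- response to fields on several pool positions -/
def SN {m : ℕ} (t : ℝ) (u : Fin m → A) (g : Gam G0 A) (σ : Sg) : ℝ :=
  (Ex (S.nu g) fun σ' => Real.exp (S.β * t * dn S.sp u σ' σ)) ^ (S.x - 1)

/-- number of unsatisfied gadgets -/
def Km (g : Gam G0 A) (σ : Sg) : ℝ := ∑ a, ind (g.2 a = some (!S.sp a σ))

/-- number of satisfied gadgets -/
def Kp (g : Gam G0 A) (σ : Sg) : ℝ := ∑ a, ind (g.2 a = some (S.sp a σ))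

/-- odds of one gadget sign -/
def rs : ℝ := S.ρ / (2 * (1 - S.ρ))

/-- the numbers of gadgets are close to their deterministic values -/
def Good (c cp dK : ℝ) (g : Gam G0 A) (σ : Sg) : Prop :=
  |S.Km g σ - c * Real.exp (-(S.y * S.tm)) * (S.rs * Fintype.card A)|
      ≤ dK * (S.rs * Fintype.card A) ∧
    |S.Kp g σ - cp * Real.exp (S.y * S.tp) * (S.rs * Fintype.card A)|
      ≤ dK * (S.rs * Fintype.card A)

/-- admissible parameters -/
def Par (d : ℕ) : Prop :=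
  1 ≤ S.β ∧ 0 < S.x ∧ S.y ≤ 1 / 1000 ∧ S.x ≤ sm 300 d ∧ 0 < S.ρ ∧ S.ρ ≤ sm 300 d ∧
    1 ≤ S.tp ∧ 1 ≤ S.tm ∧ S.β * (S.tp - 1) ≤ sm 300 d ∧ S.β * (S.tm - 1) ≤ sm 300 d ∧
    1 ≤ sm 300 d * Fintype.card A

/-- admissible perturbations, excluded sets and test functions -/
def Adm (d : ℕ) (D : G0 → Sg → ℝ) (I : Finset A) (f : G0 → Sg → ℝ) (F : ℝ) : Prop :=
  (∀ g σ, |D g σ| ≤ 3 * d) ∧ I.card ≤ d + 2 ∧ (∀ g σ, 0 ≤ f g σ) ∧ ∀ g σ, f g σ ≤ F

/-- expectation in the perturbed system with no gadget on I, against a visible function -/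
def EI (D : G0 → Sg → ℝ) (I : Finset A) (f : G0 → Sg → ℝ) (φ : Gam G0 A → Sg → ℝ) : ℝ :=
  (S.add D).E fun g σ => oI I g * f g.1 σ * φ g σ

/-- deterministic mean responses, robust under bounded perturbations -/
def Rig (d : ℕ) (c cp : ℝ) : Prop :=
  cp - 1 ≤ (1 + 10 * S.y) * (1 - c) + sm 250 d ∧ c ≤ 1 + sm 250 d ∧ -sm 250 d ≤ c ∧
  ∀ D I f F, Adm d D I f F →
    |(S.EI D I f fun g σ => avg fun a => oA I a g * (S.add D).Sv 2 a g σ)
        - c * S.EI D I f fun _ _ => 1| ≤ sm 250 d * ((S.EI D I f fun _ _ => 1) + F * S.N) ∧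
    |(S.EI D I f fun g σ => avg fun a => oA I a g * (S.add D).Sv (-2) a g σ)
        - cp * S.EI D I f fun _ _ => 1| ≤ sm 250 d * ((S.EI D I f fun _ _ => 1) + F * S.N) ∧
    (S.EI D I f fun g _ => avg fun a => 1 - oA I a g)
      ≤ sm 250 d * ((S.EI D I f fun _ _ => 1) + F * S.N) ∧
    ∀ s : G0 → A → Bool,
      (S.EI D I f fun g σ => avg fun a => oA I a g *
          (ind (S.sp a σ = s g.1 a) * (S.add D).Sv (-2) a g σ
            + Real.exp (-(2 * S.y)) * ind (S.sp a σ ≠ s g.1 a) * (S.add D).Sv 2 a g σ))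
        ≤ (S.EI D I f fun _ _ => 1) + sm 250 d * ((S.EI D I f fun _ _ => 1) + F * S.N)

/-- the consequence of Rig in terms of lam = d (1 - c) + 1 -/
def D1 (d : ℕ) (lam : ℝ) : Prop :=
  1 / 2 ≤ lam ∧ lam ≤ d + 2 ∧ ∀ D I f F, Adm d D I f F →
    (S.EI D I f fun g σ => avg fun a => 1 - oA I a g * (S.add D).Sv 2 a g σ)
      ≤ lam / d * (S.EI D I f fun _ _ => 1) + sm 200 d * F * S.N ∧
    (lam - 2) / d * (S.EI D I f fun _ _ => 1) - sm 200 d * F * S.N
      ≤ (S.EI D I f fun g σ => avg fun a => 1 - oA I a g * (S.add D).Sv 2 a g σ) ∧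
    (S.EI D I f fun g σ => avg fun a => oA I a g * ((S.add D).Sv (-2) a g σ - 1))
      ≤ 2 * lam / d * (S.EI D I f fun _ _ => 1) + sm 200 d * F * S.N ∧
    (S.EI D I f fun g _ => avg fun a => 1 - oA I a g)
      ≤ sm 200 d * ((S.EI D I f fun _ _ => 1) + F * S.N)

/-- S' is S with the energy D added, up to dl, and with the gadgets of I moved -/
def Near (S' : Sys Sg G0 A) (D : G0 → Sg → ℝ) (I : Finset A) (dl : ℝ) : Prop :=
  S'.β = S.β ∧ S'.x = S.x ∧ S'.ρ = S.ρ ∧ S'.tp = S.tp ∧ S'.tm = S.tm ∧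
    (∀ g σ, |S'.H0 g σ - S.H0 g σ - D g σ| ≤ dl) ∧ ∀ a, a ∉ I → S'.sp a = S.sp a

/-- the system does not see the spin o -/
def Sym (fl : Sg → Sg) (o : Sg → Bool) : Prop :=
  Function.Involutive fl ∧ (∀ σ, o (fl σ) = !o σ) ∧ (∀ g σ, S.H0 g (fl σ) = S.H0 g σ) ∧
    ∀ a σ, S.sp a (fl σ) = S.sp a σ

/-- energy of the inserted spin -/
def Dv {d : ℕ} (o : Sg → Bool) (AA : Finset (Fin d)) (B : ℝ) (ω : Fin d → A × Bool)
    (_g : G0) (σ : Sg) : ℝ := sgn (o σ) * (hom S.sp AA ω σ + B)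

/-- expectation after the ideal insertion -/
def Pin {d : ℕ} (o : Sg → Bool) (AA : Finset (Fin d)) (B : ℝ) (ω : Fin d → A × Bool)
    (f : Gam G0 A → Sg → ℝ) : ℝ :=
  (S.add (S.Dv o AA B ω)).P fun g σ => oU (uu ω) g * f g σ

/-- a family of systems obtained by inserting the spin o -/
def Ins {d : ℕ} (o : Sg → Bool) (AA : Finset (Fin d)) (B : ℝ)
    (S' : (Fin d → A × Bool) → Sys Sg G0 A) : Prop :=
  ∀ ω, Function.Injective (uu ω) → ∃ dl, S.β * dl ≤ sm 300 d ∧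
    S.Near (S' ω) (S.Dv o AA B ω) (univ.image (uu ω)) dl

/-- energy of an edge between two pool positions -/
def De (a a' : A) (b : Bool) (_g : G0) (σ : Sg) : ℝ := sgn b * (sgn (S.sp a σ) * sgn (S.sp a' σ))

/-- a family of systems obtained by joining two pool positions -/
def Join (d : ℕ) (S' : A → A → Bool → Sys Sg G0 A) : Prop :=
  ∀ a a' b, a ≠ a' → ∃ dl, S.β * dl ≤ sm 300 d ∧ S.Near (S' a a' b) (S.De a a' b) {a, a'} dl

/-- partition function ratio of a field s h -/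
def Psi {d : ℕ} (AA : Finset (Fin d)) (ω : Fin d → A × Bool) (s : Bool) (g : Gam G0 A) : ℝ :=
  Ex (S.nu g) fun σ => Real.exp (S.β * (sgn s * hom S.sp AA ω σ))

/-- normalisation of the insertion -/
def Gw {d : ℕ} (AA : Finset (Fin d)) (ω : Fin d → A × Bool) : ℝ :=
  1 / S.P fun g _ => (S.Psi AA ω true g + S.Psi AA ω false g) ^ S.x

/-- level weights -/
def Th {d : ℕ} (AA : Finset (Fin d)) (l : ℝ) : ℝ :=
  avg fun ω : Fin d → A × Bool => S.Gw AA ω * Ex S.cas.root fun σ => ind (hom S.sp AA ω σ = l)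

/-- mean probability of spin b and local field l after the ideal insertion -/
def Lv {d : ℕ} (o : Sg → Bool) (AA : Finset (Fin d)) (b : Bool) (l : ℝ) : ℝ :=
  avg fun ω : Fin d → A × Bool =>
    S.Pin o AA 0 ω fun _ σ => ind (o σ = b ∧ sgn b * hom S.sp AA ω σ = l)

/-- gain of a ferromagnetic over an antiferromagnetic edge on the pool -/
def dH : ℝ :=
  avg fun a => avg fun a' =>
    Real.log (S.add (S.De a a' true)).N - Real.log (S.add (S.De a a' false)).N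

/-- on the node set Ev a reference sample of the node is close on the pool -/
def Cl (d : ℕ) (nd : G0 → Nd) (Ev : Nd → Prop) (zb : ℝ) : Prop :=
  (S.P fun g σ => ind (Ev (nd g.1)) * Ex (S.mu nd (nd g.1)) fun r => ind (zb < fr S.sp σ r))
    ≤ sm (7 * S.β + 200) d

/-- expectation with a reference sample after adding the field s h -/
def Rf {d : ℕ} (nd : G0 → Nd) (Ev : Nd → Prop) (AA : Finset (Fin d)) (s : Bool)
    (φ : (Fin d → A × Bool) → Sg → Sg → ℝ) : ℝ :=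
  avg fun ω : Fin d → A × Bool => S.Gw AA ω *
    ((S.add fun _ σ => sgn s * hom S.sp AA ω σ).E fun g σ =>
      oU (uu ω) g * ind (Ev (nd g.1)) * Ex (S.mu nd (nd g.1)) fun r => φ ω σ r) / S.N

end Sys

/-- mean over injective insertions of an expectation in the inserted system -/
def Fam {Sg G0 A : Type} [Fintype Sg] [Fintype G0] [Fintype A] [DecidableEq A] {d : ℕ}
    (S' : (Fin d → A × Bool) → Sys Sg G0 A)
    (f : (Fin d → A × Bool) → Gam G0 A → Sg → ℝ) : ℝ :=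
  avg fun ω : Fin d → A × Bool => ind (Function.Injective (uu ω)) * (S' ω).P (f ω)

/-- the marks revealed on T -/
def rS {V : Type} [DecidableEq V] (T : Finset V) (γ : V → Bool) : V → Bool :=
  fun v => if v ∈ T then γ v else false

/-- coordinate spins -/
def crd {V : Type} (v : V) (σ : V → Bool) : Bool := σ v

/-- weight that decays outside the window of half width L -/
def psi (L h : ℝ) : ℝ := Real.exp (-((1 / 25000) ^ 2 / 10 * max (|h| - L) 0))

/-- energy change of the frustrated switch, in terms of four signs -/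
def swE (s1 s2 s3 s4 : ℝ) : ℝ := -(s1 * s2) + s3 * s4 + s1 * s3 + s2 * s4

end

end Pool.Agent.MP_32a90a_pr.D

end

section

set_option autoImplicit false

namespace Pool.Agent.MP_32a90a_pr.D

open Finset Pool.Agent.MP_32a90a_pr Pool.Agent.MP_32a90a_pr.L

lemma sm_pos (k : ℝ) (d : ℕ) : 0 < sm k d := Real.exp_pos _
lemma dlog_nonneg (d : ℕ) : 0 ≤ (d : ℝ) * Real.log d :=
  mul_nonneg (Nat.cast_nonneg d) (Real.log_natCast_nonneg d)
lemma sm_anti {k k' : ℝ} (h : k ≤ k') (d : ℕ) : sm k' d ≤ sm k d :=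
  Real.exp_le_exp.2 (neg_le_neg (mul_le_mul_of_nonneg_right h (dlog_nonneg d)))
lemma sm_add (k k' : ℝ) (d : ℕ) : sm (k + k') d = sm k d * sm k' d := by
  unfold sm; rw [← Real.exp_add]; congr 1; ring
lemma sm_le_one {k : ℝ} (hk : 0 ≤ k) (d : ℕ) : sm k d ≤ 1 :=
  Real.exp_le_one_iff.2 (neg_nonpos.2 (mul_nonneg hk (dlog_nonneg d)))
lemma one_le_log {d : ℕ} (hd : 3 ≤ d) : 1 ≤ Real.log d := by
  have h3 : (3 : ℝ) ≤ d := by exact_mod_cast hd
  rw [Real.le_log_iff_exp_le (by linarith)]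
  linarith [Real.exp_one_lt_d9]
/-- an exponential factor in d is absorbed by sm -/
lemma exp_mul_sm {c : ℝ} (hc : 0 ≤ c) (k : ℝ) {d : ℕ} (hd : 3 ≤ d) :
    Real.exp (c * d) * sm (k + c) d ≤ sm k d := by
  unfold sm
  rw [← Real.exp_add]
  refine Real.exp_le_exp.2 ?_
  have h1 := one_le_log hd
  have h2 : (0 : ℝ) ≤ d := Nat.cast_nonneg d
  nlinarith [mul_nonneg hc (mul_nonneg h2 (sub_nonneg.2 h1))]
/-- a factor bounded by d + 1 is absorbed by sm -/
lemma mul_sm_le {a : ℝ} (k : ℝ) {d : ℕ} (hd : 3 ≤ d) (ha : a ≤ d + 1) :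
    a * sm (k + 1) d ≤ sm k d := by
  refine le_trans (mul_le_mul_of_nonneg_right ?_ (sm_pos _ _).le) (exp_mul_sm zero_le_one k hd)
  rw [one_mul]; linarith [Real.add_one_le_exp (d : ℝ)]
lemma sm_le_exp {k : ℝ} (hk : 0 ≤ k) {d : ℕ} (hd : 3 ≤ d) : sm k d ≤ Real.exp (-(k * d)) := by
  refine Real.exp_le_exp.2 (neg_le_neg ?_)
  have h1 := one_le_log hd
  have h2 : (0 : ℝ) ≤ d := Nat.cast_nonneg d
  nlinarith [mul_nonneg hk (mul_nonneg h2 (sub_nonneg.2 h1))]
lemma sm_le_inv {k : ℝ} (hk : 1 ≤ k) {d : ℕ} (hd : 3 ≤ d) : sm k d ≤ 1 / ((d : ℝ) + 1) := by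
  have h2 : (0 : ℝ) ≤ d := Nat.cast_nonneg d
  have := mul_sm_le (a := (d : ℝ) + 1) 0 hd le_rfl
  rw [le_div_iff₀ (by positivity)]
  have h3 := sm_anti (k := 0 + 1) (k' := k) (by linarith) d
  have h4 := sm_le_one (k := 0) le_rfl d
  nlinarith

section Ex
variable {Sg : Type} [Fintype Sg] {μ : Sg → ℝ}

lemma Ex_congr {f g : Sg → ℝ} (h : ∀ σ, f σ = g σ) : Ex μ f = Ex μ g := by
  rw [show f = g from funext h]
lemma Ex_mono (hμ : ∀ σ, 0 ≤ μ σ) {f g : Sg → ℝ} (h : ∀ σ, f σ ≤ g σ) : Ex μ f ≤ Ex μ g :=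
  sum_le_sum fun σ _ => mul_le_mul_of_nonneg_left (h σ) (hμ σ)
lemma Ex_nonneg (hμ : ∀ σ, 0 ≤ μ σ) {f : Sg → ℝ} (h : ∀ σ, 0 ≤ f σ) : 0 ≤ Ex μ f :=
  sum_nonneg fun σ _ => mul_nonneg (hμ σ) (h σ)
lemma Ex_mono_left {μ' f : Sg → ℝ} (h : ∀ σ, μ σ ≤ μ' σ) (hf : ∀ σ, 0 ≤ f σ) :
    Ex μ f ≤ Ex μ' f := sum_le_sum fun σ _ => mul_le_mul_of_nonneg_right (h σ) (hf σ)
lemma Ex_add (f g : Sg → ℝ) : Ex μ (fun σ => f σ + g σ) = Ex μ f + Ex μ g := by
  simp only [Ex, mul_add, sum_add_distrib]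
lemma Ex_sub (f g : Sg → ℝ) : Ex μ (fun σ => f σ - g σ) = Ex μ f - Ex μ g := by
  simp only [Ex, mul_sub, sum_sub_distrib]
lemma Ex_mul (c : ℝ) (f : Sg → ℝ) : Ex μ (fun σ => c * f σ) = c * Ex μ f := by
  simp only [Ex, mul_sum]; exact sum_congr rfl fun _ _ => by ring
lemma Ex_mul_right (c : ℝ) (f : Sg → ℝ) : Ex μ (fun σ => f σ * c) = Ex μ f * c := by
  simp only [mul_comm _ c, Ex_mul]
lemma Ex_neg (f : Sg → ℝ) : Ex μ (fun σ => -f σ) = -Ex μ f := by
  simp only [Ex, mul_neg, sum_neg_distrib]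
lemma Ex_zero : Ex μ (fun _ => 0) = 0 := by simp [Ex]
lemma Ex_sum {ι : Type*} (T : Finset ι) (f : ι → Sg → ℝ) :
    Ex μ (fun σ => ∑ i ∈ T, f i σ) = ∑ i ∈ T, Ex μ (f i) := by
  simp only [Ex, mul_sum]; rw [sum_comm]
lemma Ex_avg {α : Type} [Fintype α] (f : α → Sg → ℝ) :
    Ex μ (fun σ => avg fun a => f a σ) = avg fun a => Ex μ (f a) := by
  simp only [avg, div_eq_mul_inv, Ex_mul_right, Ex_sum]
lemma Ex_comm {Sg' : Type} [Fintype Sg'] (μ' : Sg' → ℝ) (f : Sg → Sg' → ℝ) :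
    (Ex μ fun σ => Ex μ' fun σ' => f σ σ') = Ex μ' fun σ' => Ex μ fun σ => f σ σ' := by
  simp only [Ex, mul_sum]; rw [sum_comm]
  exact sum_congr rfl fun _ _ => sum_congr rfl fun _ _ => by ring
lemma Prob.Ex_const (h : Prob μ) (c : ℝ) : Ex μ (fun _ => c) = c := by
  simp only [Ex, ← sum_mul, h.2, one_mul]
lemma Prob.Ex_le (h : Prob μ) {f : Sg → ℝ} {c : ℝ} (hf : ∀ σ, f σ ≤ c) : Ex μ f ≤ c :=
  (Ex_mono h.1 hf).trans_eq (h.Ex_const c)
lemma Prob.le_Ex (h : Prob μ) {f : Sg → ℝ} {c : ℝ} (hf : ∀ σ, c ≤ f σ) : c ≤ Ex μ f :=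
  (h.Ex_const c).symm.trans_le (Ex_mono h.1 hf)
lemma Prob.Ex_pos (h : Prob μ) {f : Sg → ℝ} (hf : ∀ σ, 0 < f σ) : 0 < Ex μ f := by
  obtain ⟨σ, -, hσ⟩ : ∃ σ ∈ univ, 0 < μ σ := by
    by_contra hn
    push Not at hn
    have : ∑ σ, μ σ ≤ 0 := sum_nonpos hn
    linarith [h.2]
  exact sum_pos' (fun σ _ => mul_nonneg (h.1 σ) (hf σ).le) ⟨σ, mem_univ _, mul_pos hσ (hf σ)⟩
lemma abs_Ex_le (hμ : ∀ σ, 0 ≤ μ σ) (f : Sg → ℝ) : |Ex μ f| ≤ Ex μ fun σ => |f σ| :=
  (abs_sum_le_sum_abs _ _).trans_eq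
    (sum_congr rfl fun σ _ => by rw [abs_mul, abs_of_nonneg (hμ σ)])
lemma Prob.sq_Ex_le (h : Prob μ) (f : Sg → ℝ) : Ex μ f ^ 2 ≤ Ex μ fun σ => f σ ^ 2 := by
  have h1 : Ex μ (fun σ => 2 * Ex μ f * f σ - Ex μ f ^ 2) ≤ Ex μ fun σ => f σ ^ 2 :=
    Ex_mono h.1 fun σ => by nlinarith [sq_nonneg (f σ - Ex μ f)]
  rw [Ex_sub, Ex_mul, h.Ex_const] at h1
  nlinarith
/-- Jensen for the exponential -/
lemma Prob.exp_Ex_le (h : Prob μ) (f : Sg → ℝ) :
    Real.exp (Ex μ f) ≤ Ex μ fun σ => Real.exp (f σ) := by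
  have h1 : Ex μ (fun σ => Real.exp (Ex μ f) * (1 + (f σ - Ex μ f)))
      ≤ Ex μ fun σ => Real.exp (f σ) := Ex_mono h.1 fun σ => by
    have := Real.add_one_le_exp (f σ - Ex μ f)
    calc _ ≤ Real.exp (Ex μ f) * Real.exp (f σ - Ex μ f) :=
          mul_le_mul_of_nonneg_left (by linarith) (Real.exp_pos _).le
      _ = _ := by rw [← Real.exp_add]; congr 1; ring
  rw [Ex_mul, Ex_add, Ex_sub, h.Ex_const, h.Ex_const] at h1
  simpa using h1
/-- Jensen for a concave power -/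
lemma Prob.Ex_rpow_le (h : Prob μ) {x : ℝ} (h0 : 0 ≤ x) (h1 : x ≤ 1) {f : Sg → ℝ}
    (hf : ∀ σ, 0 ≤ f σ) : (Ex μ fun σ => f σ ^ x) ≤ Ex μ f ^ x := by
  have := (Real.concaveOn_rpow h0 h1).le_map_sum (t := univ) (w := μ) (p := f)
    (fun σ _ => h.1 σ) h.2 (fun σ _ => hf σ)
  simpa [Ex, smul_eq_mul] using this
lemma Ex_ind_eq (σ0 : Sg) : Ex μ (fun σ => ind (σ = σ0)) = μ σ0 := by
  classical
  simp [Ex, ind]
lemma Prob.abs_mm_le (h : Prob μ) (φ : Sg → Bool) : |mm μ φ| ≤ 1 :=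
  (abs_Ex_le h.1 _).trans (h.Ex_le fun σ => by simp)
lemma Prob.kt_nonneg (h : Prob μ) (φ : Sg → Bool) : 0 ≤ kt μ φ := by
  have := abs_le.1 (h.abs_mm_le φ); unfold kt; nlinarith
lemma kt_le_half (φ : Sg → Bool) : kt μ φ ≤ 1 / 2 := by
  unfold kt; nlinarith [sq_nonneg (mm μ φ)]
lemma Prob.mn_nonneg (h : Prob μ) (φ : Sg → Bool) : 0 ≤ mn μ φ := by
  have := h.abs_mm_le φ; unfold mn; linarith
lemma mn_le_half (φ : Sg → Bool) : mn μ φ ≤ 1 / 2 := by
  unfold mn; linarith [abs_nonneg (mm μ φ)]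
lemma Prob.mn_le_kt (h : Prob μ) (φ : Sg → Bool) : mn μ φ ≤ kt μ φ := by
  have := h.abs_mm_le φ
  unfold mn kt; rw [← sq_abs]; nlinarith [abs_nonneg (mm μ φ)]
lemma Prob.kt_le_mn (h : Prob μ) (φ : Sg → Bool) : kt μ φ ≤ 2 * mn μ φ := by
  unfold mn kt; rw [← sq_abs]; nlinarith [sq_nonneg (1 - |mm μ φ|)]
lemma Prob.Ex_ind_bool (h : Prob μ) (φ : Sg → Bool) (b : Bool) :
    (Ex μ fun σ => ind (φ σ = b)) = (1 + sgn b * mm μ φ) / 2 := by
  have : ∀ σ, ind (φ σ = b) = 1 / 2 + sgn b / 2 * sgn (φ σ) := by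
    intro σ; cases b <;> cases φ σ <;> simp [ind, sgn] <;> norm_num
  simp only [this, Ex_add, Ex_mul, h.Ex_const, mm]; ring
lemma Prob.E2_ne (h : Prob μ) (φ : Sg → Bool) :
    E2 μ μ (fun σ σ' => ind (φ σ ≠ φ σ')) = kt μ φ := by
  have : ∀ σ σ', ind (φ σ ≠ φ σ') = 1 / 2 - sgn (φ σ) / 2 * sgn (φ σ') := by
    intro σ σ'; cases φ σ <;> cases φ σ' <;> simp [ind, sgn] <;> norm_num
  simp only [E2, this, Ex_sub, Ex_mul, h.Ex_const, kt]
  have e : (fun σ => sgn (φ σ) / 2 * Ex μ fun σ' => sgn (φ σ'))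
      = fun σ => (mm μ φ / 2) * sgn (φ σ) := by funext σ; unfold mm; ring
  rw [e, Ex_mul]; unfold mm; ring

lemma Zf_pos [Nonempty Sg] (β : ℝ) (H : Sg → ℝ) : 0 < Zf β H :=
  sum_pos (fun _ _ => Real.exp_pos _) univ_nonempty
lemma gibbs_pos [Nonempty Sg] (β : ℝ) (H : Sg → ℝ) (σ : Sg) : 0 < gibbs β H σ :=
  div_pos (Real.exp_pos _) (Zf_pos β H)
lemma gibbs_prob [Nonempty Sg] (β : ℝ) (H : Sg → ℝ) : Prob (gibbs β H) :=
  ⟨fun σ => (gibbs_pos β H σ).le, by
    simp only [gibbs, ← sum_div]; exact div_self (Zf_pos β H).ne'⟩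
lemma Zf_add [Nonempty Sg] (β : ℝ) (H D : Sg → ℝ) :
    Zf β (fun σ => H σ + D σ) = Zf β H * Ex (gibbs β H) fun σ => Real.exp (β * D σ) := by
  have := (Zf_pos β H).ne'
  simp only [Ex, gibbs, mul_sum]
  refine sum_congr rfl fun σ _ => ?_
  rw [mul_add, Real.exp_add]; field_simp
lemma gibbs_add [Nonempty Sg] (β : ℝ) (H D : Sg → ℝ) (σ : Sg) :
    gibbs β (fun σ => H σ + D σ) σ
      = gibbs β H σ * Real.exp (β * D σ) / Ex (gibbs β H) fun σ => Real.exp (β * D σ) := by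
  have h1 := (Zf_pos β H).ne'
  have h2 := ((gibbs_prob β H).Ex_pos (f := fun σ => Real.exp (β * D σ))
    fun _ => Real.exp_pos _).ne'
  rw [gibbs, Zf_add, mul_add, Real.exp_add]
  conv_rhs => rw [gibbs]
  field_simp
end Ex

namespace Cas
variable {Sg Gm Nd : Type} [Fintype Sg] [Fintype Gm] {C : Cas Sg Gm}

lemma E_congr {f g : Gm → Sg → ℝ} (h : ∀ γ σ, f γ σ = g γ σ) : C.E f = C.E g := by
  rw [show f = g from funext fun γ => funext (h γ)]
lemma E_add (f g : Gm → Sg → ℝ) : C.E (fun γ σ => f γ σ + g γ σ) = C.E f + C.E g := by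
  simp only [E, mul_add, sum_add_distrib]
lemma E_sub (f g : Gm → Sg → ℝ) : C.E (fun γ σ => f γ σ - g γ σ) = C.E f - C.E g := by
  simp only [E, mul_sub, sum_sub_distrib]
lemma E_mul (c : ℝ) (f : Gm → Sg → ℝ) : C.E (fun γ σ => c * f γ σ) = c * C.E f := by
  simp only [E, mul_sum]; exact sum_congr rfl fun _ _ => sum_congr rfl fun _ _ => by ring
lemma E_mul_right (c : ℝ) (f : Gm → Sg → ℝ) : C.E (fun γ σ => f γ σ * c) = C.E f * c := by
  simp only [mul_comm _ c, E_mul]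
lemma E_const (c : ℝ) : C.E (fun _ _ => c) = c * C.N := by
  rw [N, ← E_mul]; simp
lemma E_sum {ι : Type*} (T : Finset ι) (f : ι → Gm → Sg → ℝ) :
    C.E (fun γ σ => ∑ i ∈ T, f i γ σ) = ∑ i ∈ T, C.E (f i) := by
  simp only [E, mul_sum]
  rw [sum_comm]
  exact (sum_congr rfl fun _ _ => sum_comm).trans sum_comm |>.trans
    (sum_congr rfl fun _ _ => sum_comm)
lemma E_avg {α : Type} [Fintype α] (f : α → Gm → Sg → ℝ) :
    C.E (fun γ σ => avg fun a => f a γ σ) = avg fun a => C.E (f a) := by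
  simp only [avg, div_eq_mul_inv, E_mul_right, E_sum]
lemma E_eq (f : Gm → Sg → ℝ) :
    C.E f = ∑ γ, C.p γ * Zf C.β (C.H γ) ^ C.x * Ex (C.nu γ) (f γ) := by
  simp only [E, wt, Ex, mul_sum, mul_assoc]
/-- a function may be replaced by its Gibbs average -/
lemma E_Ex [Nonempty Sg] (f : Gm → Sg → ℝ) : C.E (fun γ _ => Ex (C.nu γ) (f γ)) = C.E f := by
  simp only [E_eq]
  exact sum_congr rfl fun γ _ => by rw [Prob.Ex_const (μ := C.nu γ) (gibbs_prob _ _)]
lemma E_res (o : Gm → ℝ) (f : Gm → Sg → ℝ) :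
    (C.res o).E f = C.E fun γ σ => o γ * f γ σ := by
  simp only [E, wt, res, nu]
  exact sum_congr rfl fun _ _ => sum_congr rfl fun _ _ => by ring
lemma P_congr {f g : Gm → Sg → ℝ} (h : ∀ γ σ, f γ σ = g γ σ) : C.P f = C.P g := by
  rw [P, P, E_congr h]
lemma P_add (f g : Gm → Sg → ℝ) : C.P (fun γ σ => f γ σ + g γ σ) = C.P f + C.P g := by
  simp only [P, E_add, add_div]
lemma P_sub (f g : Gm → Sg → ℝ) : C.P (fun γ σ => f γ σ - g γ σ) = C.P f - C.P g := by
  simp only [P, E_sub, sub_div]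
lemma P_mul (c : ℝ) (f : Gm → Sg → ℝ) : C.P (fun γ σ => c * f γ σ) = c * C.P f := by
  simp only [P, E_mul, mul_div_assoc]
lemma P_mul_right (c : ℝ) (f : Gm → Sg → ℝ) : C.P (fun γ σ => f γ σ * c) = C.P f * c := by
  simp only [mul_comm _ c, P_mul]
lemma P_sum {ι : Type*} (T : Finset ι) (f : ι → Gm → Sg → ℝ) :
    C.P (fun γ σ => ∑ i ∈ T, f i γ σ) = ∑ i ∈ T, C.P (f i) := by
  simp only [P, E_sum, sum_div]
lemma P_avg {α : Type} [Fintype α] (f : α → Gm → Sg → ℝ) :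
    C.P (fun γ σ => avg fun a => f a γ σ) = avg fun a => C.P (f a) := by
  simp only [P, E_avg, avg_div]
lemma P_Ex [Nonempty Sg] (f : Gm → Sg → ℝ) : C.P (fun γ _ => Ex (C.nu γ) (f γ)) = C.P f := by
  rw [P, P, E_Ex]
lemma P_root (f : Sg → ℝ) : C.P (fun _ σ => f σ) = Ex C.root f := by
  classical
  have : ∀ σ, f σ = ∑ σ', ind (σ = σ') * f σ' := by intro σ; simp [ind]
  conv_lhs => rw [show (fun (_ : Gm) σ => f σ) = fun _ σ => ∑ σ', ind (σ = σ') * f σ' from
    funext fun _ => funext this]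
  rw [P_sum]
  exact sum_congr rfl fun σ' _ => by rw [P_mul_right]; rfl

variable [Nonempty Sg]

omit [Fintype Gm] in
lemma nu_prob (γ : Gm) : Prob (C.nu γ) := gibbs_prob _ _
omit [Fintype Gm] in
lemma nu_pos (γ : Gm) (σ : Sg) : 0 < C.nu γ σ := gibbs_pos _ _ _
omit [Fintype Gm] in
lemma wt_nonneg (h : C.Ok) (γ : Gm) (σ : Sg) : 0 ≤ C.wt γ σ :=
  mul_nonneg (mul_nonneg (h.2.2.2.1 γ) (Real.rpow_nonneg (Zf_pos _ _).le _)) (nu_pos γ σ).le
lemma E_mono (h : C.Ok) {f g : Gm → Sg → ℝ} (hfg : ∀ γ σ, f γ σ ≤ g γ σ) : C.E f ≤ C.E g :=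
  sum_le_sum fun γ _ => sum_le_sum fun σ _ =>
    mul_le_mul_of_nonneg_left (hfg γ σ) (wt_nonneg h γ σ)
/-- monotonicity on the support of the prior -/
lemma E_mono_supp (h : C.Ok) {f g : Gm → Sg → ℝ} (hfg : ∀ γ σ, 0 < C.p γ → f γ σ ≤ g γ σ) :
    C.E f ≤ C.E g := by
  refine sum_le_sum fun γ _ => sum_le_sum fun σ _ => ?_
  rcases (h.2.2.2.1 γ).eq_or_lt with h0 | h0
  · simp [wt, ← h0]
  · exact mul_le_mul_of_nonneg_left (hfg γ σ h0) (wt_nonneg h γ σ)
lemma E_nonneg (h : C.Ok) {f : Gm → Sg → ℝ} (hf : ∀ γ σ, 0 ≤ f γ σ) : 0 ≤ C.E f :=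
  sum_nonneg fun γ _ => sum_nonneg fun σ _ => mul_nonneg (wt_nonneg h γ σ) (hf γ σ)
lemma N_eq : C.N = ∑ γ, C.p γ * Zf C.β (C.H γ) ^ C.x := by
  rw [N, E_eq]
  exact sum_congr rfl fun γ _ => by rw [(nu_prob γ).Ex_const, mul_one]
lemma N_pos (h : C.Ok) : 0 < C.N := by
  obtain ⟨γ, hγ⟩ := h.2.2.2.2
  rw [N_eq]
  exact sum_pos' (fun γ _ => mul_nonneg (h.2.2.2.1 γ) (Real.rpow_nonneg (Zf_pos _ _).le _))
    ⟨γ, mem_univ _, mul_pos hγ (Real.rpow_pos_of_pos (Zf_pos _ _) _)⟩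
lemma P_mono (h : C.Ok) {f g : Gm → Sg → ℝ} (hfg : ∀ γ σ, f γ σ ≤ g γ σ) : C.P f ≤ C.P g :=
  div_le_div_of_nonneg_right (E_mono h hfg) (N_pos h).le
lemma P_mono_supp (h : C.Ok) {f g : Gm → Sg → ℝ} (hfg : ∀ γ σ, 0 < C.p γ → f γ σ ≤ g γ σ) :
    C.P f ≤ C.P g := div_le_div_of_nonneg_right (E_mono_supp h hfg) (N_pos h).le
lemma P_nonneg (h : C.Ok) {f : Gm → Sg → ℝ} (hf : ∀ γ σ, 0 ≤ f γ σ) : 0 ≤ C.P f :=
  div_nonneg (E_nonneg h hf) (N_pos h).le
lemma P_const (h : C.Ok) (c : ℝ) : C.P (fun _ _ => c) = c := by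
  rw [P, E_const, mul_div_cancel_right₀ _ (N_pos h).ne']
lemma P_le_const (h : C.Ok) {f : Gm → Sg → ℝ} {c : ℝ} (hf : ∀ γ σ, f γ σ ≤ c) : C.P f ≤ c :=
  (P_mono h hf).trans_eq (P_const h c)
lemma const_le_P (h : C.Ok) {f : Gm → Sg → ℝ} {c : ℝ} (hf : ∀ γ σ, c ≤ f γ σ) : c ≤ C.P f :=
  (P_const h c).symm.trans_le (P_mono h hf)
lemma E_eq_P_mul (h : C.Ok) (f : Gm → Sg → ℝ) : C.E f = C.P f * C.N := by
  rw [P, div_mul_cancel₀ _ (N_pos h).ne']
lemma root_prob (h : C.Ok) : Prob C.root := by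
  refine ⟨fun σ => P_nonneg h fun _ _ => ind_nonneg _, ?_⟩
  have := P_root (C := C) fun _ => (1 : ℝ)
  rw [P_const h] at this
  simpa [Ex] using this.symm
omit [Fintype Sg] [Fintype Gm] [Nonempty Sg] in
lemma Ok.add (h : C.Ok) (D : Gm → Sg → ℝ) : (C.add D).Ok := h
omit [Fintype Sg] [Fintype Gm] [Nonempty Sg] in
lemma Ok.y_pos (h : C.Ok) : 0 < C.y := mul_pos h.1 h.2.1
omit [Fintype Gm] in
lemma nu_add (D : Gm → Sg → ℝ) (γ : Gm) (σ : Sg) :
    (C.add D).nu γ σ = C.nu γ σ * Real.exp (C.β * D γ σ)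
      / Ex (C.nu γ) fun σ => Real.exp (C.β * D γ σ) := gibbs_add _ _ _ _
omit [Fintype Gm] in
lemma Ex_nu_add (D : Gm → Sg → ℝ) (γ : Gm) (f : Sg → ℝ) :
    Ex ((C.add D).nu γ) f = (Ex (C.nu γ) fun σ => Real.exp (C.β * D γ σ) * f σ)
      / Ex (C.nu γ) fun σ => Real.exp (C.β * D γ σ) := by
  rw [Ex, Ex, sum_div]
  exact sum_congr rfl fun σ _ => by rw [nu_add]; ring
omit [Fintype Gm] in
/-- C1: the joint weight after a perturbation -/
lemma wt_add (D : Gm → Sg → ℝ) (γ : Gm) (σ : Sg) :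
    (C.add D).wt γ σ = C.wt γ σ * (Real.exp (C.β * D γ σ)
      * (Ex (C.nu γ) fun σ => Real.exp (C.β * D γ σ)) ^ (C.x - 1)) := by
  have h2 : 0 < Ex (C.nu γ) fun σ => Real.exp (C.β * D γ σ) :=
    (nu_prob γ).Ex_pos fun _ => Real.exp_pos _
  rw [wt, wt, nu_add]
  have e : Zf (C.add D).β ((C.add D).H γ)
      = Zf C.β (C.H γ) * Ex (C.nu γ) fun σ => Real.exp (C.β * D γ σ) := Zf_add _ _ _
  rw [e, Real.mul_rpow (Zf_pos _ _).le h2.le, Real.rpow_sub_one h2.ne']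
  show C.p γ * (_ ^ C.x * _ ^ C.x) * _ = _
  field_simp
/-- C1 -/
lemma E_add_eq (D f : Gm → Sg → ℝ) :
    (C.add D).E f = C.E fun γ σ => Real.exp (C.β * D γ σ)
      * (Ex (C.nu γ) fun σ => Real.exp (C.β * D γ σ)) ^ (C.x - 1) * f γ σ := by
  simp only [E, wt_add]
  exact sum_congr rfl fun _ _ => sum_congr rfl fun _ _ => by ring
/-- C1 for functions of the child only -/
lemma E_add_child (D : Gm → Sg → ℝ) (f : Gm → ℝ) :
    (C.add D).E (fun γ _ => f γ) = C.E fun γ _ =>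
      (Ex (C.nu γ) fun σ => Real.exp (C.β * D γ σ)) ^ C.x * f γ := by
  rw [E_add_eq, ← E_Ex]
  refine E_congr fun γ _ => ?_
  have h2 : 0 < Ex (C.nu γ) fun σ => Real.exp (C.β * D γ σ) :=
    (nu_prob γ).Ex_pos fun _ => Real.exp_pos _
  simp only [mul_assoc]
  rw [Ex_mul_right, Real.rpow_sub_one h2.ne']
  field_simp
end Cas

namespace Sys
variable {Sg G0 A : Type} [Fintype Sg] [Fintype G0] [Fintype A] [DecidableEq A] {S : Sys Sg G0 A}

omit [Fintype Sg] in
lemma cas_add (D : G0 → Sg → ℝ) : (S.add D).cas = S.cas.add fun g σ => D g.1 σ := by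
  simp only [cas, add, Cas.add]
  congr 1
  funext g σ
  ring

omit [Fintype Sg] [Fintype G0] [Fintype A] [DecidableEq A] in
lemma add_add (D D' : G0 → Sg → ℝ) : (S.add D).add D' = S.add fun g σ => D g σ + D' g σ := by
  simp only [add, add_assoc]

omit [Fintype Sg] [Fintype G0] [Fintype A] [DecidableEq A] in
lemma add_zero' : S.add (fun _ _ => 0) = S := by simp only [add, add_zero]

omit [Fintype Sg] [DecidableEq A] in
lemma p_pos [Nonempty G0] (h0 : 0 < S.ρ) (h1 : S.ρ < 1) (g : Gam G0 A) : 0 < S.cas.p g := by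
  have : (0 : ℝ) < Fintype.card G0 := by exact_mod_cast Fintype.card_pos
  refine div_pos (prod_pos fun a _ => ?_) this
  cases g.2 a <;> simp [bb] <;> linarith

omit [Fintype Sg] in
lemma sum_p [Nonempty G0] : ∑ g, S.cas.p g = 1 := by
  have : (0 : ℝ) < Fintype.card G0 := by exact_mod_cast Fintype.card_pos
  simp only [cas, Fintype.sum_prod_type, ← sum_div]
  rw [← Fintype.piFinset_univ, ← prod_univ_sum]
  have : ∑ j : Option Bool, bb S.ρ j = 1 := by simp [Fintype.sum_option, bb]; ring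
  simp only [this, prod_const_one, sum_const, card_univ, nsmul_eq_mul]
  field_simp

omit [Fintype Sg] [Fintype G0] [DecidableEq A] in
lemma Par.add {d : ℕ} (h : S.Par d) (D : G0 → Sg → ℝ) : (S.add D).Par d := h

omit [Fintype Sg] [Fintype G0] [DecidableEq A] in
lemma Par.rho_lt {d : ℕ} (h : S.Par d) (hd : 3 ≤ d) : S.ρ < 1 := by
  refine (h.2.2.2.2.2.1.trans (sm_le_inv (by norm_num) hd)).trans_lt ?_
  have : (3 : ℝ) ≤ d := by exact_mod_cast hd
  rw [div_lt_one (by linarith)]; linarith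

omit [Fintype Sg] [DecidableEq A] in
lemma Par.ok [Nonempty G0] {d : ℕ} (h : S.Par d) (hd : 3 ≤ d) : S.cas.Ok :=
  ⟨lt_of_lt_of_le one_pos h.1, h.2.1, h.2.2.2.1.trans (sm_le_one (by norm_num) d),
    fun g => (p_pos h.2.2.2.2.1 (h.rho_lt hd) g).le,
    ⟨(Classical.arbitrary G0, fun _ => none), p_pos h.2.2.2.2.1 (h.rho_lt hd) _⟩⟩

omit [Fintype Sg] [Fintype G0] [DecidableEq A] in
lemma Par.nonempty {d : ℕ} (h : S.Par d) : Nonempty A := by
  by_contra hn
  have : Fintype.card A = 0 := by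
    rw [Fintype.card_eq_zero_iff]; exact not_nonempty_iff.1 hn
  have h1 := h.2.2.2.2.2.2.2.2.2.2
  rw [this] at h1
  norm_num at h1

omit [Fintype Sg] [Fintype G0] [DecidableEq A] in
lemma Near.par {d : ℕ} {S' : Sys Sg G0 A} {D : G0 → Sg → ℝ} {I : Finset A} {dl : ℝ}
    (hn : S.Near S' D I dl) (h : S.Par d) : S'.Par d := by
  obtain ⟨h1, h2, h3, h4, h5, -⟩ := hn
  unfold Par y at *
  rw [h1, h2, h3, h4, h5]
  exact h
end Sys

end Pool.Agent.MP_32a90a_pr.D

end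

section

set_option autoImplicit false

namespace Pool.Agent.MP_32a90a_pr.D

open Finset Filter Pool.Agent.MP_32a90a_pr Pool.Agent.MP_32a90a_pr.L

/-- bounded perturbations -/
def StBd : Prop :=
  ∀ (Sg Gm : Type) [Fintype Sg] [Nonempty Sg] [Fintype Gm] (C : Cas Sg Gm) (D : Gm → Sg → ℝ)
    (b : ℝ), C.Ok → (∀ γ σ, 0 < C.p γ → |D γ σ| ≤ b) →
    (∀ f : Gm → Sg → ℝ, (∀ γ σ, 0 ≤ f γ σ) →
      (C.add D).E f ≤ Real.exp (2 * C.β * b) * C.E f ∧
      Real.exp (-(2 * C.β * b)) * C.E f ≤ (C.add D).E f ∧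
      (C.add D).P f ≤ Real.exp (4 * C.β * b) * C.P f ∧
      C.P f ≤ Real.exp (4 * C.β * b) * (C.add D).P f) ∧
    (∀ f : Gm → ℝ, (∀ γ, 0 ≤ f γ) →
      ((C.add D).E fun γ _ => f γ) ≤ Real.exp (C.y * b) * (C.E fun γ _ => f γ) ∧
      Real.exp (-(C.y * b)) * (C.E fun γ _ => f γ) ≤ ((C.add D).E fun γ _ => f γ) ∧
      ((C.add D).P fun γ _ => f γ) ≤ Real.exp (2 * C.y * b) * (C.P fun γ _ => f γ) ∧
      Real.exp (-(2 * C.y * b)) * (C.P fun γ _ => f γ) ≤ ((C.add D).P fun γ _ => f γ)) ∧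
    |Real.log (C.add D).N - Real.log C.N| ≤ C.y * b ∧
    ∀ γ σ, 0 < C.p γ → (C.add D).nu γ σ ≤ Real.exp (2 * C.β * b) * C.nu γ σ ∧
      Real.exp (-(2 * C.β * b)) * C.nu γ σ ≤ (C.add D).nu γ σ

/-- safe and anti-safe moves -/
def StSafe : Prop :=
  ∀ (Sg Gm : Type) [Fintype Sg] [Nonempty Sg] [Fintype Gm] (C : Cas Sg Gm)
    (D f : Gm → Sg → ℝ) (b dl : ℝ), C.Ok → (∀ γ σ, 0 ≤ f γ σ) →
    ((∀ γ σ, D γ σ ≤ b) → (∀ γ σ, f γ σ ≠ 0 → b - dl ≤ D γ σ) →
      Real.exp (C.y * b - C.β * dl) * C.E f ≤ (C.add D).E f) ∧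
    ((∀ γ σ, -b ≤ D γ σ) → (∀ γ σ, f γ σ ≠ 0 → D γ σ ≤ -b + dl) →
      (C.add D).E f ≤ Real.exp (-(C.y * b) + C.β * dl) * C.E f)

/-- tilt bound, Jensen bounds and convexity -/
def StTilt : Prop :=
  ∀ (Sg Gm : Type) [Fintype Sg] [Nonempty Sg] [Fintype Gm] (C : Cas Sg Gm)
    (D : Gm → Sg → ℝ), C.Ok →
    (∀ a : ℝ, (C.E fun γ σ => ind (a ≤ D γ σ)) ≤ Real.exp (-(C.y * a)) * (C.add D).N) ∧
    (C.E fun γ σ => Real.exp (C.y * D γ σ)) ≤ (C.add D).N ∧
    C.y * C.P D ≤ Real.log (C.add D).N - Real.log C.N ∧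
    2 * Real.log C.N ≤ Real.log (C.add D).N + Real.log (C.add fun γ σ => -D γ σ).N

/-- comparison with a fixed energy function -/
def StFix : Prop :=
  ∀ (Sg Gm : Type) [Fintype Sg] [Nonempty Sg] [Fintype Gm] (C : Cas Sg Gm) (K : Sg → ℝ)
    (b : ℝ), C.Ok → ∑ γ, C.p γ = 1 → (∀ γ σ, |C.H γ σ - K σ| ≤ b) →
    |Real.log C.N - C.x * Real.log (Zf C.β K)| ≤ C.y * b ∧
    (∀ m : ℝ, (∃ σ, K σ = m) → (∀ σ, K σ ≤ m) →
      C.β * m ≤ Real.log (Zf C.β K) ∧
      Real.log (Zf C.β K) ≤ C.β * m + Real.log (Fintype.card Sg) ∧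
      ∀ a : ℝ, (C.P fun _ σ => ind (K σ ≤ m - a))
        ≤ Fintype.card Sg * Real.exp (-(C.β * (a - 2 * b)))) ∧
    ∀ f : Sg → ℝ, (∀ σ, 0 ≤ f σ) →
      (C.P fun _ σ => f σ) ≤ Real.exp (2 * C.β * b) * Ex (gibbs C.β K) f

/-- conditioning on the node -/
def StTower : Prop :=
  ∀ (Sg Gm Nd : Type) [Fintype Sg] [Nonempty Sg] [Fintype Gm] (C : Cas Sg Gm) (nd : Gm → Nd),
    C.Ok → (∀ γ, 0 < C.p γ → Prob (C.mu nd (nd γ))) ∧
    (∀ F : Nd → Sg → ℝ,
      (C.E fun γ σ => F (nd γ) σ) = (C.E fun γ _ => Ex (C.mu nd (nd γ)) (F (nd γ))) ∧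
      (C.P fun γ σ => F (nd γ) σ) = C.EN nd fun n => Ex (C.mu nd n) (F n)) ∧
    (∀ (n : Nd) (f : Sg → ℝ), Ex (C.mu nd n) f
      = (C.E fun γ σ => ind (nd γ = n) * f σ) / C.E fun γ _ => ind (nd γ = n)) ∧
    ∀ (D : Gm → Sg → ℝ) (b : ℝ), (∀ γ σ, 0 < C.p γ → |D γ σ| ≤ b) → ∀ n σ,
      (C.add D).mu nd n σ ≤ Real.exp (4 * C.β * b) * C.mu nd n σ ∧
      C.mu nd n σ ≤ Real.exp (4 * C.β * b) * (C.add D).mu nd n σ

/-- stability of a pure state under a bounded change of measure -/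
def StStabV : Prop :=
  ∀ (Sg ι : Type) [Fintype Sg] [Fintype ι] [Nonempty ι] (μ μ' : Sg → ℝ) (ph : ι → Sg → Bool)
    (K : ℝ), Prob μ → Prob μ' → (∀ σ, μ' σ ≤ K * μ σ) →
    c2 μ' ph ≤ K ^ 2 * c2 μ ph ∧
    (avg fun u => (mm μ (ph u) - mm μ' (ph u)) ^ 2) ≤ K * Real.sqrt (c2 μ ph) ∧
    |zz μ ph - zz μ' ph| ≤ Real.sqrt (K * Real.sqrt (c2 μ ph))

/-- concentration of the distance of two samples, and restriction to a pool -/
def StOver : Prop :=
  ∀ (Sg ι : Type) [Fintype Sg] [Fintype ι] [Nonempty ι] (μ : Sg → ℝ) (ph : ι → Sg → Bool),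
    Prob μ →
    E2 μ μ (fr ph) = zz μ ph ∧
    (E2 μ μ fun σ σ' => fr ph σ σ' ^ 2) ≤ zz μ ph ^ 2 + Real.sqrt (c2 μ ph) ∧
    (∀ s : ℝ, 0 < s → (E2 μ μ fun σ σ' => ind (s ≤ |fr ph σ σ' - zz μ ph|))
      ≤ Real.sqrt (c2 μ ph) / s ^ 2) ∧
    (avg fun u => avg fun v => |cv μ (ph u) (ph v)|) ≤ Real.sqrt (c2 μ ph) ∧
    ∀ (A : Type) [Fintype A] [Nonempty A] [DecidableEq ι] (pA : A → ι) (d : ℕ),
      (∀ u, (univ.filter fun a => pA a = u).card ≤ d) →
      c2 μ (fun a => ph (pA a))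
        ≤ ((d : ℝ) * Fintype.card ι / Fintype.card A) ^ 2 * c2 μ ph

/-- minority probabilities under a one-sided comparison of measures -/
def StMinor : Prop :=
  ∀ (Sg : Type) [Fintype Sg] (μ μ' : Sg → ℝ) (φ : Sg → Bool) (k : ℝ), Prob μ → Prob μ' →
    0 ≤ k → (∀ σ, k * μ σ ≤ μ' σ) → k * mn μ φ ≤ mn μ' φ ∧ k ^ 2 * kt μ φ ≤ kt μ' φ

/-- purity by revealing a few weak marks -/
def StPure : Prop :=
  ∃ K : ℝ, 0 < K ∧ ∀ (Dd V Z : Type) [Fintype Dd] [Nonempty Dd] [Fintype V] [DecidableEq V]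
    [Fintype Z] (Cs : Dd → Cas (V → Bool) ((V → Bool) × Z)) (β x g : ℝ) (k : ℕ),
    (∀ δ, (Cs δ).Ok ∧ (Cs δ).β = β ∧ (Cs δ).x = x) →
    (∀ δ γ γ' ζ, (Cs δ).p (γ, ζ) = (Cs δ).p (γ', ζ)) →
    (∀ δ γ γ' ζ σ, (Cs δ).H (γ, ζ) σ - g * ∑ v, sgn (γ v) * sgn (σ v)
      = (Cs δ).H (γ', ζ) σ - g * ∑ v, sgn (γ' v) * sgn (σ v)) →
    0 < g → β * g ≤ 1 / 200 → 1 ≤ k → k ≤ Fintype.card V →
    ∃ T : Finset V, T.card ≤ k ∧
      (avg fun δ => (Cs δ).errP (fun γ => rS T γ.1) crd)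
        ≤ K / x ^ 2 * (1 / (k * (β * g) ^ 2) + (β * g) ^ 2) + 2 * k / Fintype.card V

/-- odds ratio gain of one edge -/
def StOdds : Prop :=
  ∀ (Sg Gm : Type) [Fintype Sg] [Nonempty Sg] [Fintype Gm] (C : Cas Sg Gm) (φ ψ : Sg → Bool)
    (b : Bool), C.Ok → C.y ≤ 1 / 1000 →
    2 * C.y * kt (C.add fun _ σ => sgn b * (sgn (φ σ) * sgn (ψ σ))).root φ
        * kt (C.add fun _ σ => sgn b * (sgn (φ σ) * sgn (ψ σ))).root ψ - 3 * |cv C.root φ ψ|
      ≤ sgn b * cv (C.add fun _ σ => sgn b * (sgn (φ σ) * sgn (ψ σ))).root φ ψ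

/-- the frustrated switch keeps the class of the first two spins -/
def StSwC : Prop :=
  ∀ (Sg Gm : Type) [Fintype Sg] [Nonempty Sg] [Fintype Gm] (C : Cas Sg Gm)
    (φ : Fin 4 → Sg → Bool) (m : Fin 4 → Bool) (κ : ℝ), C.Ok → 0 < κ →
    (∀ i : Fin 4, i.val < 2 → κ ≤ (Ex C.root fun σ => ind (φ i σ ≠ m i)) ∧
      (Ex C.root fun σ => ind (φ i σ ≠ m i)) ≤ 2 * κ ∧
      (Ex C.root fun σ => ind (φ i σ ≠ m i)) ≤ 1 / 2) →
    (∀ i : Fin 4, 2 ≤ i.val → (Ex C.root fun σ => ind (φ i σ ≠ m i)) ≤ κ / 16) →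
    |cv C.root (φ 0) (φ 1)| ≤ κ / 10 →
    ∀ i : Fin 4, i.val < 2 →
      κ / 4 ≤ mn (C.add fun _ σ => swE (sgn (φ 0 σ) * sgn (m 0)) (sgn (φ 1 σ) * sgn (m 1))
          (sgn (φ 2 σ) * sgn (m 2)) (sgn (φ 3 σ) * sgn (m 3))).root (φ i) ∧
      mn (C.add fun _ σ => swE (sgn (φ 0 σ) * sgn (m 0)) (sgn (φ 1 σ) * sgn (m 1))
          (sgn (φ 2 σ) * sgn (m 2)) (sgn (φ 3 σ) * sgn (m 3))).root (φ i) ≤ 3 * κ

/-- the law given a node is the root law of the restricted cascade -/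
def StResNode : Prop :=
  ∀ (Sg Gm Nd : Type) [Fintype Sg] [Nonempty Sg] [Fintype Gm] (C : Cas Sg Gm) (nd : Gm → Nd)
    (γ0 : Gm), C.Ok → 0 < C.p γ0 →
    (C.res fun γ => ind (nd γ = nd γ0)).Ok ∧
      ∀ D : Gm → Sg → ℝ, (C.add D).mu nd (nd γ0)
        = ((C.res fun γ => ind (nd γ = nd γ0)).add D).root

/-- sequential upper bound -/
def StSeqU : Prop :=
  ∀ (Om Xi : Type) [Fintype Om] [Nonempty Om] [Fintype Xi] (m : ℕ)
    (W : ℕ → (Fin m → Om) → Xi → ℝ) (T : Xi → (Fin m → Om) → ℝ) (r : Fin m → ℝ)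
    (κ e F R : ℝ), 1 ≤ κ → 0 ≤ e → 0 ≤ F → 1 ≤ R → (∀ i, 0 ≤ r i ∧ r i ≤ R) →
    (∀ i ω ξ, 0 ≤ W i ω ξ) →
    (∀ (i : ℕ) (ω ω' : Fin m → Om), (∀ k : Fin m, k.val < i → ω k = ω' k) → W i ω = W i ω') →
    (∀ (i : Fin m) (ω : Fin m → Om) (f : Xi → ℝ) (π : Xi → Om → ℝ), (∀ ξ, 0 ≤ f ξ ∧ f ξ ≤ F) →
      (∀ ξ o, 1 / κ ≤ π ξ o ∧ π ξ o ≤ κ) → (∀ ξ, avg (π ξ) = 1) →
      ∑ ξ, f ξ * (avg fun o => π ξ o * W (i.val + 1) (Function.update ω i o) ξ)
        ≤ r i * ∑ ξ, f ξ * W i.val ω ξ + e * F) →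
    (∀ ξ ω, 0 ≤ T ξ ω ∧ T ξ ω ≤ F) → (∀ ξ ω i o, T ξ (Function.update ω i o) ≤ κ * T ξ ω) →
    (avg fun ω => ∑ ξ, T ξ ω * W m ω ξ)
      ≤ (∏ i, r i) * (avg fun ω => ∑ ξ, T ξ ω * W 0 ω ξ) + m * e * F * R ^ m

/-- sequential lower bound -/
def StSeqL : Prop :=
  ∀ (Om Xi : Type) [Fintype Om] [Nonempty Om] [Fintype Xi] (m : ℕ)
    (W : ℕ → (Fin m → Om) → Xi → ℝ) (T : Xi → (Fin m → Om) → ℝ) (r κ e F : ℝ),
    1 ≤ κ → 0 ≤ e → 0 ≤ F → 0 ≤ r → r ≤ 1 → (∀ i ω ξ, 0 ≤ W i ω ξ) →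
    (∀ (i : ℕ) (ω ω' : Fin m → Om), (∀ k : Fin m, k.val < i → ω k = ω' k) → W i ω = W i ω') →
    (∀ (i : Fin m) (ω : Fin m → Om) (f : Xi → ℝ) (π : Xi → Om → ℝ), (∀ ξ, 0 ≤ f ξ ∧ f ξ ≤ F) →
      (∀ ξ o, 1 / κ ≤ π ξ o ∧ π ξ o ≤ κ) → (∀ ξ, avg (π ξ) = 1) →
      r * ∑ ξ, f ξ * W i.val ω ξ - e * F
        ≤ ∑ ξ, f ξ * avg fun o => π ξ o * W (i.val + 1) (Function.update ω i o) ξ) →
    (∀ ξ ω, 0 ≤ T ξ ω ∧ T ξ ω ≤ F) → (∀ ξ ω i o, T ξ (Function.update ω i o) ≤ κ * T ξ ω) →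
    r ^ m * (avg fun ω => ∑ ξ, T ξ ω * W 0 ω ξ) - m * e * F
      ≤ avg fun ω => ∑ ξ, T ξ ω * W m ω ξ

/-- neighbouring levels of a tilted sign sum -/
def StLevA : Prop :=
  ∀ (d : ℕ) (AA : Finset (Fin d)) (a : Fin d → Bool) (G : (Fin d → Bool) → ℝ) (b l l' : ℝ),
    8 * AA.card ≤ d → (∀ J, 0 ≤ G J) →
    (∀ J i c, G (Function.update J i c) ≤ Real.exp b * G J) →
    |l| ≤ d / 8 → |l'| ≤ d / 8 → |l - l'| = 2 →
    (avg fun J => G J * ind (∑ i, Jc AA i (J i) * sgn (a i) = l'))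
      ≤ 3 * Real.exp b * avg fun J => G J * ind (∑ i, Jc AA i (J i) * sgn (a i) = l)

/-- descent to level zero of a tilted fair sign sum -/
def StLevB : Prop :=
  ∀ (d : ℕ) (a : Fin d → Bool) (G : (Fin d → Bool) → ℝ) (b : ℝ) (l : ℕ),
    (∀ J, 0 ≤ G J) → (∀ J i c, G (Function.update J i c) ≤ Real.exp b * G J) →
    (avg fun J => G J * ind (∑ i, sgn (J i) * sgn (a i) = 2 * l))
      ≤ Real.exp (b * l) * avg fun J => G J * ind (∑ i, sgn (J i) * sgn (a i) = 0)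

/-- one antiferromagnetic slot is replaced by a fair slot -/
def StLind1 : Prop :=
  ∀ (Sg A : Type) [Fintype Sg] [Fintype A] [Nonempty A] (μ : Sg → ℝ) (sp : A → Sg → Bool)
    (d k1 : ℕ) (AA : Finset (Fin d)) (i : Fin d) (y α e l : ℝ), Prob μ → 0 ≤ y → y ≤ 1 / 1000 →
    0 ≤ α → 0 ≤ e → i ∉ AA → (∀ j ≤ k1, HK μ sp (2 * j + 1) α e) →
    |Th0 μ sp y (insert i AA) l - Th0 μ sp y AA l|
      ≤ 8 * (α + y ^ (2 * k1)) * Th0 μ sp y AA l + 10 * Real.exp (2 * y * d * (k1 + 1)) * e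

/-- symmetry and descent for the fair level weights -/
def StFair : Prop :=
  ∀ (Sg A : Type) [Fintype Sg] [Fintype A] [Nonempty A] (μ : Sg → ℝ) (sp : A → Sg → Bool)
    (d : ℕ) (y : ℝ), Prob μ → 0 ≤ y →
    (∀ l : ℝ, Th0 μ sp y (∅ : Finset (Fin d)) (-l) = Th0 μ sp y (∅ : Finset (Fin d)) l) ∧
    ∀ l : ℕ, Th0 μ sp y (∅ : Finset (Fin d)) (2 * l)
      ≤ Real.exp (2 * y * l) * Th0 μ sp y (∅ : Finset (Fin d)) 0

/-- all antiferromagnetic slots are replaced -/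
def StLind : Prop :=
  ∀ (Sg A : Type) [Fintype Sg] [Fintype A] [Nonempty A] (μ : Sg → ℝ) (sp : A → Sg → Bool)
    (d k1 : ℕ) (AA : Finset (Fin d)) (y α e l : ℝ), Prob μ → 0 ≤ y → y ≤ 1 / 1000 →
    0 ≤ α → 0 ≤ e → α + y ^ (2 * k1) ≤ 1 / 16 → (∀ j ≤ k1, HK μ sp (2 * j + 1) α e) →
    Th0 μ sp y AA l ≤ Real.exp (16 * d * (α + y ^ (2 * k1))) *
        (Th0 μ sp y (∅ : Finset (Fin d)) l + 20 * d * Real.exp (2 * y * d * (k1 + 1)) * e) ∧
      Th0 μ sp y (∅ : Finset (Fin d)) l ≤ Real.exp (16 * d * (α + y ^ (2 * k1))) *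
        (Th0 μ sp y AA l + 20 * d * Real.exp (2 * y * d * (k1 + 1)) * e)

/-- pigeonhole on a grid for a function convex along one coordinate -/
def StGrid : Prop :=
  ∀ (Co : Type) [Fintype Co] [DecidableEq Co] (M : ℕ) (c : Co) (f : (Co → ℕ) → ℝ) (R κ : ℝ),
    0 < κ → (∀ θ : Co → ℕ, 1 ≤ θ c → θ c ≤ M →
      2 * f θ ≤ f (Function.update θ c (θ c + 1)) + f (Function.update θ c (θ c - 1))) →
    (∀ θ : Co → ℕ, θ c ≤ M → |f (Function.update θ c (θ c + 1)) - f θ| ≤ R) →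
    (avg fun θ : Co → Fin (M + 1) => ind ((θ c).val = 0 ∨
        κ < f (Function.update (fun k => (θ k).val) c ((θ c).val + 1))
          + f (Function.update (fun k => (θ k).val) c ((θ c).val - 1))
          - 2 * f fun k => (θ k).val))
      ≤ (1 + 2 * R / κ) / (M + 1)

end Pool.Agent.MP_32a90a_pr.D

end

section

set_option autoImplicit false

namespace Pool.Agent.MP_32a90a_pr.D

open Finset Pool.Agent.MP_32a90a_pr Pool.Agent.MP_32a90a_pr.L

namespace BdJ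

lemma ratio {E E' N N' a : ℝ} (hE : 0 ≤ E) (hN : 0 < N) (hN' : 0 < N')
    (h1 : E' ≤ Real.exp a * E) (h2 : Real.exp (-a) * E ≤ E') (h3 : N' ≤ Real.exp a * N)
    (h4 : Real.exp (-a) * N ≤ N') :
    E' / N' ≤ Real.exp (2 * a) * (E / N) ∧ Real.exp (-(2 * a)) * (E / N) ≤ E' / N' := by
  have p1 := Real.exp_pos a
  have p2 := Real.exp_pos (-a)
  have e1 : Real.exp (2 * a) = Real.exp a / Real.exp (-a) := by
    rw [← Real.exp_sub]; congr 1; ring
  have e2 : Real.exp (-(2 * a)) = Real.exp (-a) / Real.exp a := by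
    rw [← Real.exp_sub]; congr 1; ring
  rw [e1, e2, div_mul_div_comm, div_mul_div_comm]
  exact ⟨div_le_div₀ (by positivity) h1 (by positivity) h4,
    div_le_div₀ ((mul_nonneg p2.le hE).trans h2) h2 hN' h3⟩

lemma two {t a F : ℝ} (h : |t| ≤ a) (hF : 0 ≤ F) :
    Real.exp t * F ≤ Real.exp a * F ∧ Real.exp (-a) * F ≤ Real.exp t * F :=
  ⟨mul_le_mul_of_nonneg_right (Real.exp_le_exp.2 (abs_le.1 h).2) hF,
    mul_le_mul_of_nonneg_right (Real.exp_le_exp.2 (abs_le.1 h).1) hF⟩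

variable {Sg Gm : Type} [Fintype Sg] [Nonempty Sg] {C : Cas Sg Gm} {D : Gm → Sg → ℝ} {b : ℝ}

omit [Fintype Sg] [Nonempty Sg] in
lemma bD (h : C.Ok) {γ : Gm} {σ : Sg} (hD : |D γ σ| ≤ b) : |C.β * D γ σ| ≤ C.β * b := by
  rw [abs_mul, abs_of_pos h.1]
  exact mul_le_mul_of_nonneg_left hD h.1.le

lemma lg (h : C.Ok) {γ : Gm} (hD : ∀ σ, |D γ σ| ≤ b) :
    ∃ t, |t| ≤ C.β * b ∧ (Ex (C.nu γ) fun σ => Real.exp (C.β * D γ σ)) = Real.exp t := by
  have h0 : 0 < Ex (C.nu γ) fun σ => Real.exp (C.β * D γ σ) :=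
    (Cas.nu_prob γ).Ex_pos fun _ => Real.exp_pos _
  refine ⟨_, abs_le.2 ⟨?_, ?_⟩, (Real.exp_log h0).symm⟩
  · rw [Real.le_log_iff_exp_le h0]
    exact (Cas.nu_prob γ).le_Ex fun σ => Real.exp_le_exp.2 (abs_le.1 (bD h (hD σ))).1
  · rw [Real.log_le_iff_le_exp h0]
    exact (Cas.nu_prob γ).Ex_le fun σ => Real.exp_le_exp.2 (abs_le.1 (bD h (hD σ))).2

lemma fac (h : C.Ok) {γ : Gm} (hD : ∀ σ, |D γ σ| ≤ b) (σ : Sg) :
    ∃ t, |t| ≤ 2 * C.β * b ∧ Real.exp (C.β * D γ σ)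
      * (Ex (C.nu γ) fun σ => Real.exp (C.β * D γ σ)) ^ (C.x - 1) = Real.exp t := by
  obtain ⟨t, h1, h2⟩ := lg h hD
  refine ⟨C.β * D γ σ + t * (C.x - 1), ?_, by rw [h2, ← Real.exp_mul, ← Real.exp_add]⟩
  have a1 : |C.x - 1| ≤ 1 := abs_le.2 ⟨by linarith [h.2.1], by linarith [h.2.2.1]⟩
  have a2 : |t * (C.x - 1)| ≤ C.β * b := by
    rw [abs_mul]
    exact (mul_le_of_le_one_right (abs_nonneg _) a1).trans h1
  have a3 := bD h (hD σ)
  exact (abs_add_le _ _).trans (by linarith)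

lemma chi (h : C.Ok) {γ : Gm} (hD : ∀ σ, |D γ σ| ≤ b) :
    ∃ t, |t| ≤ C.y * b ∧
      (Ex (C.nu γ) fun σ => Real.exp (C.β * D γ σ)) ^ C.x = Real.exp t := by
  obtain ⟨t, h1, h2⟩ := lg h hD
  refine ⟨t * C.x, ?_, by rw [h2, ← Real.exp_mul]⟩
  rw [abs_mul, abs_of_pos h.2.1, Cas.y, mul_right_comm]
  exact mul_le_mul_of_nonneg_right h1 h.2.1.le

variable [Fintype Gm]

lemma one (h : C.Ok) (hD : ∀ γ σ, 0 < C.p γ → |D γ σ| ≤ b) {f : Gm → Sg → ℝ}
    (hf : ∀ γ σ, 0 ≤ f γ σ) : (C.add D).E f ≤ Real.exp (2 * C.β * b) * C.E f ∧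
      Real.exp (-(2 * C.β * b)) * C.E f ≤ (C.add D).E f := by
  rw [Cas.E_add_eq, ← Cas.E_mul, ← Cas.E_mul]
  refine ⟨Cas.E_mono_supp h fun γ σ hp => ?_, Cas.E_mono_supp h fun γ σ hp => ?_⟩
  · obtain ⟨t, h1, h2⟩ := fac h (fun σ => hD γ σ hp) σ
    rw [h2]
    exact (two h1 (hf γ σ)).1
  · obtain ⟨t, h1, h2⟩ := fac h (fun σ => hD γ σ hp) σ
    rw [h2]
    exact (two h1 (hf γ σ)).2

lemma chd (h : C.Ok) (hD : ∀ γ σ, 0 < C.p γ → |D γ σ| ≤ b) {f : Gm → ℝ} (hf : ∀ γ, 0 ≤ f γ) :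
    ((C.add D).E fun γ _ => f γ) ≤ Real.exp (C.y * b) * (C.E fun γ _ => f γ) ∧
      Real.exp (-(C.y * b)) * (C.E fun γ _ => f γ) ≤ ((C.add D).E fun γ _ => f γ) := by
  rw [Cas.E_add_child, ← Cas.E_mul, ← Cas.E_mul]
  refine ⟨Cas.E_mono_supp h fun γ σ hp => ?_, Cas.E_mono_supp h fun γ σ hp => ?_⟩
  · obtain ⟨t, h1, h2⟩ := chi h fun σ => hD γ σ hp
    rw [h2]
    exact (two h1 (hf γ)).1
  · obtain ⟨t, h1, h2⟩ := chi h fun σ => hD γ σ hp
    rw [h2]
    exact (two h1 (hf γ)).2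

end BdJ

theorem stBd : StBd := by
  intro Sg Gm _ _ _ C D b h hD
  have n0 := Cas.N_pos h
  have n1 := Cas.N_pos (h.add D)
  refine ⟨fun f hf => ?_, fun f hf => ?_, ?_, fun γ σ hp => ?_⟩
  · have a1 := BdJ.one h hD hf
    have a2 := BdJ.one h hD (f := fun _ _ => 1) fun _ _ => zero_le_one
    have a3 := BdJ.ratio (Cas.E_nonneg h hf) n0 n1 a1.1 a1.2 a2.1 a2.2
    rw [show 2 * (2 * C.β * b) = 4 * C.β * b by ring] at a3
    refine ⟨a1.1, a1.2, a3.1, ?_⟩
    have a4 := mul_le_mul_of_nonneg_left a3.2 (Real.exp_pos (4 * C.β * b)).le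
    rw [← mul_assoc, ← Real.exp_add, add_neg_cancel, Real.exp_zero, one_mul] at a4
    exact a4
  · have a1 := BdJ.chd h hD hf
    have a2 := BdJ.chd h hD (f := fun _ => 1) fun _ => zero_le_one
    have a3 := BdJ.ratio (Cas.E_nonneg h (f := fun γ _ => f γ) fun γ _ => hf γ) n0 n1
      a1.1 a1.2 a2.1 a2.2
    rw [← mul_assoc] at a3
    exact ⟨a1.1, a1.2, a3.1, a3.2⟩
  · have a2 := BdJ.chd h hD (f := fun _ => 1) fun _ => zero_le_one
    have b1 : Real.log (C.add D).N ≤ Real.log (Real.exp (C.y * b) * C.N) :=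
      Real.log_le_log n1 a2.1
    have b2 : Real.log (Real.exp (-(C.y * b)) * C.N) ≤ Real.log (C.add D).N :=
      Real.log_le_log (by positivity) a2.2
    rw [Real.log_mul (Real.exp_pos _).ne' n0.ne', Real.log_exp] at b1 b2
    exact abs_le.2 ⟨by linarith, by linarith⟩
  · obtain ⟨t, h1, h2⟩ := BdJ.lg h fun σ => hD γ σ hp
    have a3 := BdJ.bD h (hD γ σ hp)
    have a4 : |C.β * D γ σ - t| ≤ 2 * C.β * b := (abs_sub _ _).trans (by linarith)
    rw [Cas.nu_add, h2, mul_div_assoc, ← Real.exp_sub, mul_comm]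
    exact BdJ.two a4 (Cas.nu_pos γ σ).le

end Pool.Agent.MP_32a90a_pr.D

end

section

set_option autoImplicit false

namespace Pool.Agent.MP_32a90a_pr.D

open Finset Pool.Agent.MP_32a90a_pr Pool.Agent.MP_32a90a_pr.L

namespace FairJ

variable {Sg A : Type} {d : ℕ}

lemma hom_eq (sp : A → Sg → Bool) (ω : Fin d → A × Bool) (σ : Sg) :
    hom sp ∅ ω σ = ∑ i, sgn (ω i).2 * sgn (sp (ω i).1 σ) := by
  simp [hom, Jc]

/-- reversal of all signs -/
def rev (A : Type) (d : ℕ) : (Fin d → A × Bool) ≃ (Fin d → A × Bool) :=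
  Function.Involutive.toPerm (fun ω i => ((ω i).1, !(ω i).2)) fun ω => by simp

lemma hom_rev (sp : A → Sg → Bool) (ω : Fin d → A × Bool) (σ : Sg) :
    hom sp ∅ (rev A d ω) σ = -hom sp ∅ ω σ := by
  rw [hom_eq, hom_eq, ← sum_neg_distrib]
  refine sum_congr rfl fun i _ => ?_
  change sgn (!(ω i).2) * sgn (sp (ω i).1 σ) = _
  cases (ω i).2 <;> cases sp (ω i).1 σ <;> simp [sgn]

lemma upd_le (a J : Fin d → Bool) (i : Fin d) (c : Bool) :
    |∑ k, sgn (J k) * sgn (a k)| ≤ 2 + |∑ k, sgn (Function.update J i c k) * sgn (a k)| := by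
  have h : ∑ k, sgn (J k) * sgn (a k) = (sgn (J i) - sgn c) * sgn (a i) +
      ∑ k, sgn (Function.update J i c k) * sgn (a k) := by
    have e : ∑ k ∈ univ.erase i, sgn (Function.update J i c k) * sgn (a k) =
        ∑ k ∈ univ.erase i, sgn (J k) * sgn (a k) :=
      sum_congr rfl fun k hk => by rw [Function.update_of_ne (ne_of_mem_erase hk)]
    rw [← add_sum_erase _ _ (mem_univ i), ← add_sum_erase univ _ (mem_univ i),
      Function.update_self, e]
    ring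
  rw [h]
  refine (abs_add_le _ _).trans (add_le_add_left ?_ _)
  rw [abs_mul, abs_sgn, mul_one]
  refine (abs_sub _ _).trans ?_
  rw [abs_sgn, abs_sgn]
  norm_num

lemma th_eq [Fintype Sg] [Fintype A] (μ : Sg → ℝ) (sp : A → Sg → Bool) (y l : ℝ) :
    Th0 μ sp y (∅ : Finset (Fin d)) l = avg fun u : Fin d → A => Ex μ fun σ =>
      avg fun J : Fin d → Bool =>
        (Ex μ fun σ' => Real.exp (y * |∑ i, sgn (J i) * sgn (sp (u i) σ')|))⁻¹ *
          ind (∑ i, sgn (J i) * sgn (sp (u i) σ) = l) := by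
  rw [Th0, ← avg_equiv (Equiv.arrowProdEquivProdArrow (Fin d) (fun _ => A) fun _ => Bool).symm,
    avg_prod]
  refine avg_congr fun u => ?_
  rw [Ex_avg]
  refine avg_congr fun J => ?_
  rw [Ex_mul, div_eq_inv_mul]
  simp only [hom_eq]
  rfl

end FairJ

open FairJ

theorem stFair (hLevB : StLevB) : StFair := by
  intro Sg A _ _ _ μ sp d y hμ hy
  refine ⟨fun l => ?_, fun l => ?_⟩
  · rw [Th0, ← avg_equiv (rev A d)]
    simp only [hom_rev, abs_neg, neg_inj]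
    rfl
  · rw [th_eq, th_eq, ← avg_mul]
    refine avg_mono fun u => ?_
    rw [← Ex_mul]
    have hp : ∀ J : Fin d → Bool,
        0 < Ex μ fun σ' => Real.exp (y * |∑ i, sgn (J i) * sgn (sp (u i) σ')|) :=
      fun J => hμ.Ex_pos fun _ => Real.exp_pos _
    refine Ex_mono hμ.1 fun σ => hLevB d (fun i => sp (u i) σ) _ (2 * y) l
      (fun J => inv_nonneg.2 (hp J).le) fun J i c => ?_
    rw [← div_eq_mul_inv, inv_eq_one_div, div_le_div_iff₀ (hp _) (hp _), one_mul, ← Ex_mul]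
    refine Ex_mono hμ.1 fun σ' => ?_
    rw [← Real.exp_add, Real.exp_le_exp]
    have := mul_le_mul_of_nonneg_left (upd_le (fun k => sp (u k) σ') J i c) hy
    linarith

end Pool.Agent.MP_32a90a_pr.D

end

section

set_option autoImplicit false

namespace Pool.Agent.MP_32a90a_pr.D

open Finset Pool.Agent.MP_32a90a_pr Pool.Agent.MP_32a90a_pr.L

namespace GridJ

/-- second differences telescope -/
lemma tele (g : ℕ → ℝ) (M : ℕ) :
    ∑ t ∈ range M, (g (t + 1 + 1) + g (t + 1 - 1) - 2 * g (t + 1))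
      = (g (M + 1) - g M) - (g 1 - g 0) := by
  induction M with
  | zero => simp
  | succ M ih => rw [sum_range_succ, ih]; simp only [Nat.add_sub_cancel]; ring

lemma one (g : ℕ → ℝ) (M : ℕ) (R κ : ℝ) (hκ : 0 < κ)
    (hc : ∀ t, 1 ≤ t → t ≤ M → 2 * g t ≤ g (t + 1) + g (t - 1))
    (hR : ∀ t, t ≤ M → |g (t + 1) - g t| ≤ R) :
    (avg fun t : Fin (M + 1) => ind (t.val = 0 ∨ κ < g (t.val + 1) + g (t.val - 1) - 2 * g t.val))
      ≤ (1 + 2 * R / κ) / (M + 1) := by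
  have h1 : ∑ t : Fin (M + 1), ind (t.val = 0 ∨ κ < g (t.val + 1) + g (t.val - 1) - 2 * g t.val)
      ≤ 1 + 2 * R / κ := by
    rw [Fin.sum_univ_eq_sum_range
      (fun t => ind (t = 0 ∨ κ < g (t + 1) + g (t - 1) - 2 * g t)) (M + 1), sum_range_succ']
    have h2 : ∑ t ∈ range M,
        ind (t + 1 = 0 ∨ κ < g (t + 1 + 1) + g (t + 1 - 1) - 2 * g (t + 1))
        ≤ ∑ t ∈ range M, (g (t + 1 + 1) + g (t + 1 - 1) - 2 * g (t + 1)) / κ := by
      refine sum_le_sum fun t ht => ?_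
      have ht' : t + 1 ≤ M := mem_range.1 ht
      have h0 := hc (t + 1) (by omega) ht'
      refine le_trans (ind_mono ?_) (ind_le_div (by linarith) hκ)
      rintro (h | h)
      · omega
      · exact h.le
    rw [← sum_div, tele] at h2
    have h3 := abs_le.1 (hR M le_rfl)
    have h4 := abs_le.1 (hR 0 (Nat.zero_le _))
    have h5 : (g (M + 1) - g M - (g 1 - g 0)) / κ ≤ 2 * R / κ :=
      div_le_div_of_nonneg_right (by simp only [zero_add] at h4; linarith) hκ.le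
    exact (add_le_add (h2.trans h5) (ind_le_one _)).trans_eq (add_comm _ _)
  unfold avg
  rw [Fintype.card_fin]
  push_cast
  exact div_le_div_of_nonneg_right h1 (by positivity)

end GridJ

theorem stGrid : StGrid := by
  intro Co _ _ M c f R κ hκ hc hR
  have hR0 : 0 ≤ R := le_trans (abs_nonneg _) (hR (fun _ => 0) (Nat.zero_le _))
  rw [avg_update c]
  refine avg_le_const (by positivity) fun ω => ?_
  have key := GridJ.one (fun t => f (Function.update (fun k => (ω k).val) c t)) M R κ hκ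
    (fun t h1 h2 => by
      have := hc (Function.update (fun k => (ω k).val) c t) (by simpa using h1) (by simpa using h2)
      simpa using this)
    (fun t h2 => by
      have := hR (Function.update (fun k => (ω k).val) c t) (by simpa using h2)
      simpa using this)
  refine le_trans (le_of_eq (avg_congr fun o => ?_)) key
  have e : (fun k => (Function.update ω c o k).val)
      = Function.update (fun k => (ω k).val) c o.val := by
    funext k
    by_cases hk : k = c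
    · subst hk; simp
    · simp [Function.update_of_ne hk]
  rw [e]
  simp only [Function.update_self, Function.update_idem]

end Pool.Agent.MP_32a90a_pr.D

end

section

set_option autoImplicit false

namespace Pool.Agent.MP_32a90a_pr.D

open Finset Filter Pool.Agent.MP_32a90a_pr Pool.Agent.MP_32a90a_pr.L

namespace LevBJ

lemma sg_not (x y : Bool) : sgn (!x) * sgn y = -(sgn x * sgn y) := by
  cases x <;> cases y <;> simp [sgn]

lemma sg_cases (x y : Bool) : sgn x * sgn y = 1 ∨ sgn x * sgn y = -1 := by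
  cases x <;> cases y <;> simp [sgn]

lemma sum_flip {d : ℕ} (a J : Fin d → Bool) (i : Fin d) :
    ∑ k, sgn (Function.update J i (!J i) k) * sgn (a k) =
      ∑ k, sgn (J k) * sgn (a k) - 2 * (sgn (J i) * sgn (a i)) := by
  rw [← add_sum_erase _ _ (mem_univ i), ← add_sum_erase _ (fun k => sgn (J k) * sgn (a k))
    (mem_univ i), Function.update_self, sg_not,
    sum_congr rfl fun k hk => by rw [Function.update_of_ne (ne_of_mem_erase hk)]]
  ring

lemma step {d : ℕ} (a : Fin d → Bool) (G : (Fin d → Bool) → ℝ) (b t : ℝ) (ht : 0 ≤ t)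
    (h0 : ∀ J, 0 ≤ G J) (hG : ∀ J i c, G (Function.update J i c) ≤ Real.exp b * G J) :
    (avg fun J => G J * ind (∑ i, sgn (J i) * sgn (a i) = t + 2))
      ≤ Real.exp b * avg fun J => G J * ind (∑ i, sgn (J i) * sgn (a i) = t) := by
  have hd : (0 : ℝ) < d + t + 2 := by positivity
  have h1 : ∀ i : Fin d,
      (avg fun J => G J * ind (∑ k, sgn (J k) * sgn (a k) = t + 2) * (1 + sgn (J i) * sgn (a i)))
        ≤ avg fun J => Real.exp b * (G J * ind (∑ k, sgn (J k) * sgn (a k) = t)) *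
          (1 - sgn (J i) * sgn (a i)) := by
    intro i
    have hi : Function.Involutive fun J : Fin d → Bool => Function.update J i (!J i) :=
      fun J => by simp
    rw [← avg_equiv hi.toPerm]
    refine avg_mono fun J => ?_
    simp only [Function.Involutive.coe_toPerm, sum_flip, Function.update_self, sg_not]
    rcases sg_cases (J i) (a i) with h | h
    · rw [h]
      simp
    · rw [h, ind_congr (Q := ∑ k, sgn (J k) * sgn (a k) = t)
        ⟨fun e => by linarith, fun e => by linarith⟩, ← mul_assoc, ← sub_eq_add_neg]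
      exact mul_le_mul_of_nonneg_right
        (mul_le_mul_of_nonneg_right (hG J i _) (ind_nonneg _)) (by norm_num)
  have h2 := sum_le_sum fun i (_ : i ∈ univ) => h1 i
  rw [← avg_sum, ← avg_sum] at h2
  refine le_of_mul_le_mul_right ?_ hd
  rw [← avg_mul, ← avg_mul_right, ← avg_mul_right]
  refine le_trans (avg_congr fun J => ?_).le (h2.trans (avg_mono fun J => ?_))
  · rw [← mul_sum, sum_add_distrib]
    by_cases h : ∑ k, sgn (J k) * sgn (a k) = t + 2
    · rw [h]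
      simp [add_assoc]
    · rw [ind_neg h]
      simp
  · rw [← mul_sum, sum_sub_distrib]
    by_cases h : ∑ k, sgn (J k) * sgn (a k) = t
    · refine mul_le_mul_of_nonneg_left ?_
        (mul_nonneg (Real.exp_pos _).le (mul_nonneg (h0 J) (ind_nonneg _)))
      rw [h]
      simp only [sum_const, card_univ, Fintype.card_fin, nsmul_eq_mul, mul_one]
      linarith
    · rw [ind_neg h]
      simp

end LevBJ

theorem stLevB : StLevB := by
  intro d a G b l h0 hG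
  induction l with
  | zero => simp
  | succ l ih =>
    have h := LevBJ.step a G b (2 * l) (by positivity) h0 hG
    have e : (2 : ℝ) * ((l + 1 : ℕ) : ℝ) = 2 * l + 2 := by
      push_cast
      ring
    rw [e]
    refine h.trans ((mul_le_mul_of_nonneg_left ih (Real.exp_pos _).le).trans_eq ?_)
    rw [← mul_assoc, ← Real.exp_add]
    congr 2
    push_cast
    ring

end Pool.Agent.MP_32a90a_pr.D

end

section

set_option autoImplicit false

namespace Pool.Agent.MP_32a90a_pr.D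

open Finset Filter Pool.Agent.MP_32a90a_pr Pool.Agent.MP_32a90a_pr.L

namespace SeqUJ

variable {Om Xi : Type} [Fintype Om] [Nonempty Om] {m : ℕ}

lemma exists_pi (g : Om → ℝ) {κ : ℝ} (hκ : 1 ≤ κ) (h0 : ∀ o, 0 ≤ g o)
    (h : ∀ o o', g o ≤ κ * g o') :
    ∃ π : Om → ℝ, (∀ o, 1 / κ ≤ π o ∧ π o ≤ κ) ∧ avg π = 1 ∧ ∀ o, g o = avg g * π o := by
  have hκ0 : 0 < κ := by linarith
  have h1 : ∀ o, g o ≤ κ * avg g := fun o => by
    rw [← avg_mul]; exact const_le_avg (h o)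
  have h2 : ∀ o, avg g ≤ κ * g o := fun o =>
    avg_le_const (mul_nonneg hκ0.le (h0 o)) fun o' => h o' o
  rcases (avg_nonneg h0).eq_or_lt with ht | ht
  · refine ⟨fun _ => 1, fun _ => ⟨(div_le_one hκ0).2 hκ, hκ⟩, avg_const 1, fun o => ?_⟩
    have h3 := h1 o
    rw [← ht] at h3 ⊢
    have h4 := h0 o
    linarith
  · refine ⟨fun o => g o / avg g, fun o => ⟨?_, ?_⟩, ?_, fun o => ?_⟩
    · rw [div_le_div_iff₀ hκ0 ht]
      have := h2 o
      linarith
    · rw [div_le_iff₀ ht]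
      exact h1 o
    · rw [avg_div, div_self ht.ne']
    · rw [mul_div_cancel₀ _ ht.ne']

/-- the first `i` coordinates of `ω`, the others of `ω'` -/
def mix (i : ℕ) (ω ω' : Fin m → Om) : Fin m → Om := fun k => if k.val < i then ω k else ω' k

/-- conditional mean given the first `i` coordinates -/
noncomputable def Tc (T : (Fin m → Om) → ℝ) (i : ℕ) (ω : Fin m → Om) : ℝ :=
  avg fun ω' => T (mix i ω ω')

lemma Tc_top (T : (Fin m → Om) → ℝ) (ω : Fin m → Om) : Tc T m ω = T ω := by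
  have : ∀ ω', mix m ω ω' = ω := fun ω' => funext fun k => if_pos k.2
  simp only [Tc, this, avg_const]

omit [Nonempty Om] in
lemma Tc_zero (T : (Fin m → Om) → ℝ) (ω : Fin m → Om) : Tc T 0 ω = avg T := by
  have : ∀ ω', mix 0 ω ω' = ω' := fun ω' => funext fun k => if_neg (Nat.not_lt_zero _)
  simp only [Tc, this]

lemma Tc_step (T : (Fin m → Om) → ℝ) (i : Fin m) (ω : Fin m → Om) :
    Tc T i ω = avg fun o => Tc T (i + 1) (Function.update ω i o) := by
  have e : ∀ ω' o, mix i ω (Function.update ω' i o) = mix (i + 1) (Function.update ω i o) ω' := by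
    intro ω' o
    funext k
    by_cases hk : k = i
    · subst hk
      simp [mix]
    · have h1 : k.val ≠ i.val := fun h => hk (Fin.ext h)
      have h2 : k.val < i.val + 1 ↔ k.val < i.val := by omega
      simp only [mix, Function.update_of_ne hk, h2]
  unfold Tc
  rw [avg_update i, avg_comm]
  simp only [e]

omit [Nonempty Om] in
lemma Tc_ratio (T : (Fin m → Om) → ℝ) {κ : ℝ}
    (h : ∀ ω i o, T (Function.update ω i o) ≤ κ * T ω) (i : Fin m) (ω : Fin m → Om) (o o' : Om) :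
    Tc T (i + 1) (Function.update ω i o) ≤ κ * Tc T (i + 1) (Function.update ω i o') := by
  have e : ∀ ω', mix (i + 1) (Function.update ω i o) ω' =
      Function.update (mix (i + 1) (Function.update ω i o') ω') i o := by
    intro ω'
    funext k
    by_cases hk : k = i
    · subst hk
      simp [mix]
    · simp only [mix, Function.update_of_ne hk]
  unfold Tc
  rw [← avg_mul]
  exact avg_mono fun ω' => by rw [e]; exact h _ _ _

variable [Fintype Xi]

lemma step (W : (Fin m → Om) → Xi → ℝ) (T : Xi → (Fin m → Om) → ℝ) {κ : ℝ} (hκ : 1 ≤ κ)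
    (h0 : ∀ ξ ω, 0 ≤ T ξ ω) (h : ∀ ξ ω i o, T ξ (Function.update ω i o) ≤ κ * T ξ ω)
    (i : Fin m) (ω : Fin m → Om) :
    ∃ π : Xi → Om → ℝ, (∀ ξ o, 1 / κ ≤ π ξ o ∧ π ξ o ≤ κ) ∧ (∀ ξ, avg (π ξ) = 1) ∧
      (avg fun o => ∑ ξ, Tc (T ξ) (i + 1) (Function.update ω i o) * W (Function.update ω i o) ξ) =
        ∑ ξ, Tc (T ξ) i ω * avg fun o => π ξ o * W (Function.update ω i o) ξ := by
  choose π h1 h2 h3 using fun ξ => exists_pi
    (fun o => Tc (T ξ) (i + 1) (Function.update ω i o)) hκ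
    (fun o => avg_nonneg fun _ => h0 _ _) (Tc_ratio (T ξ) (h ξ) i ω)
  refine ⟨π, h1, h2, ?_⟩
  rw [avg_sum]
  refine sum_congr rfl fun ξ _ => ?_
  rw [← avg_mul]
  refine avg_congr fun o => ?_
  rw [h3, ← Tc_step, mul_assoc]

lemma start (W : (Fin m → Om) → Xi → ℝ) (T : Xi → (Fin m → Om) → ℝ) (h : ∀ ω ω', W ω = W ω') :
    (avg fun ω => ∑ ξ, Tc (T ξ) 0 ω * W ω ξ) = avg fun ω => ∑ ξ, T ξ ω * W ω ξ := by
  obtain ⟨ω₀⟩ : Nonempty (Fin m → Om) := inferInstance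
  simp only [h _ ω₀, Tc_zero, avg_const]
  rw [avg_sum]
  simp only [avg_mul_right]

end SeqUJ

open SeqUJ in
theorem stSeqU : StSeqU := by
  intro Om Xi _ _ _ m W T r κ e F R hκ he hF hR hr hW hdep hstep hT hTκ
  obtain ⟨a, ha⟩ : ∃ a : ℕ → ℝ, ∀ i, a i = avg fun ω => ∑ ξ, Tc (T ξ) i ω * W i ω ξ :=
    ⟨_, fun _ => rfl⟩
  have hT' : ∀ ξ i ω, 0 ≤ Tc (T ξ) i ω ∧ Tc (T ξ) i ω ≤ F := fun ξ i ω =>
    ⟨avg_nonneg fun _ => (hT _ _).1, avg_le_const hF fun _ => (hT _ _).2⟩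
  have h1 : ∀ i : Fin m, a (i + 1) ≤ r i * a i + e * F := by
    intro i
    rw [ha, ha, avg_update i, ← avg_mul, ← avg_const (α := Fin m → Om) (e * F), ← avg_add]
    refine avg_mono fun ω => ?_
    obtain ⟨π, p1, p2, p3⟩ := SeqUJ.step (W (i + 1)) T hκ (fun ξ ω => (hT ξ ω).1) hTκ i ω
    rw [p3]
    exact hstep i ω _ π (fun ξ => hT' ξ i ω) p1 p2
  have h2 : ∀ n, n ≤ m → a n ≤
      (∏ i ∈ range n, if h : i < m then r ⟨i, h⟩ else 1) * a 0 + n * e * F * R ^ n := by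
    intro n
    induction n with
    | zero => intro _; simp
    | succ n ih =>
      intro hn
      have h3 := h1 ⟨n, hn⟩
      obtain ⟨h4, h5⟩ := hr ⟨n, hn⟩
      have h6 := mul_le_mul_of_nonneg_left (ih (by omega)) h4
      have h7 : 0 ≤ n * e * F * R ^ n := by positivity
      have h8 := mul_le_mul_of_nonneg_right h5 h7
      have h9 : e * F ≤ e * F * R ^ (n + 1) :=
        le_mul_of_one_le_right (by positivity) (one_le_pow₀ hR)
      rw [prod_range_succ, dif_pos (show n < m from hn)]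
      push_cast
      calc a (n + 1) ≤ r ⟨n, hn⟩ * ((∏ i ∈ range n, if h : i < m then r ⟨i, h⟩ else 1) * a 0) +
            R * (n * e * F * R ^ n) + e * F * R ^ (n + 1) := by
            rw [mul_add] at h6
            linarith
        _ = _ := by ring
  have h3 := h2 m le_rfl
  rw [ha, ha, start (W 0) T fun ω ω' => hdep 0 ω ω' fun k hk => absurd hk (Nat.not_lt_zero _),
    prod_range] at h3
  simpa only [Tc_top, Fin.is_lt, dif_pos, Fin.eta] using h3

end Pool.Agent.MP_32a90a_pr.D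

end

section

set_option autoImplicit false

namespace Pool.Agent.MP_32a90a_pr.D

open Finset Filter Pool.Agent.MP_32a90a_pr Pool.Agent.MP_32a90a_pr.L

open SeqUJ in
theorem stSeqL : StSeqL := by
  intro Om Xi _ _ _ m W T r κ e F hκ he hF hr0 hr1 hW hdep hstep hT hTκ
  obtain ⟨a, ha⟩ : ∃ a : ℕ → ℝ, ∀ i, a i = avg fun ω => ∑ ξ, Tc (T ξ) i ω * W i ω ξ :=
    ⟨_, fun _ => rfl⟩
  have hT' : ∀ ξ i ω, 0 ≤ Tc (T ξ) i ω ∧ Tc (T ξ) i ω ≤ F := fun ξ i ω =>
    ⟨avg_nonneg fun _ => (hT _ _).1, avg_le_const hF fun _ => (hT _ _).2⟩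
  have h1 : ∀ i : Fin m, r * a i - e * F ≤ a (i + 1) := by
    intro i
    rw [ha, ha, avg_update i (fun ω => ∑ ξ, Tc (T ξ) (i + 1) ω * W (i + 1) ω ξ), ← avg_mul,
      ← avg_const (α := Fin m → Om) (e * F), ← avg_sub]
    refine avg_mono fun ω => ?_
    obtain ⟨π, p1, p2, p3⟩ := SeqUJ.step (W (i + 1)) T hκ (fun ξ ω => (hT ξ ω).1) hTκ i ω
    rw [p3]
    exact hstep i ω _ π (fun ξ => hT' ξ i ω) p1 p2
  have h2 : ∀ n, n ≤ m → r ^ n * a 0 - n * e * F ≤ a n := by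
    intro n
    induction n with
    | zero => intro _; simp
    | succ n ih =>
      intro hn
      have h3 : r * a n - e * F ≤ a (n + 1) := h1 ⟨n, hn⟩
      have h6 := mul_le_mul_of_nonneg_left (ih (by omega)) hr0
      have h7 : 0 ≤ n * e * F := by positivity
      have h8 := mul_le_mul_of_nonneg_right hr1 h7
      push_cast
      rw [pow_succ]
      nlinarith
  have h3 := h2 m le_rfl
  rw [ha, ha, start (W 0) T fun ω ω' => hdep 0 ω ω' fun k hk => absurd hk (Nat.not_lt_zero _)]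
    at h3
  simpa only [Tc_top] using h3

end Pool.Agent.MP_32a90a_pr.D

end

section

set_option autoImplicit false

namespace Pool.Agent.MP_32a90a_pr.D

open Finset Pool.Agent.MP_32a90a_pr Pool.Agent.MP_32a90a_pr.L

namespace TiltJ
variable {Sg Gm : Type} [Fintype Sg] [Nonempty Sg] [Fintype Gm] {C : Cas Sg Gm}

lemma two (h : C.Ok) (D : Gm → Sg → ℝ) :
    (C.E fun γ σ => Real.exp (C.y * D γ σ)) ≤ (C.add D).N := by
  have e : (C.add D).N = C.E fun γ _ =>
      (Ex (C.nu γ) fun σ => Real.exp (C.β * D γ σ)) ^ C.x * 1 :=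
    Cas.E_add_child (C := C) D fun _ => 1
  rw [e, ← Cas.E_Ex]
  refine Cas.E_mono h fun γ _ => ?_
  rw [mul_one]
  refine le_trans (le_of_eq (Ex_congr fun σ => ?_))
    ((Cas.nu_prob (C := C) γ).Ex_rpow_le h.2.1.le h.2.2.1 fun σ => (Real.exp_pos _).le)
  rw [← Real.exp_mul, Cas.y]
  congr 1
  ring

lemma one (h : C.Ok) (D : Gm → Sg → ℝ) (a : ℝ) :
    (C.E fun γ σ => ind (a ≤ D γ σ)) ≤ Real.exp (-(C.y * a)) * (C.add D).N := by
  refine le_trans ?_ (mul_le_mul_of_nonneg_left (two h D) (Real.exp_pos _).le)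
  rw [← Cas.E_mul]
  refine Cas.E_mono h fun γ σ => ?_
  rw [← Real.exp_add]
  by_cases ha : a ≤ D γ σ
  · rw [ind_pos ha]
    refine Real.one_le_exp ?_
    have := mul_le_mul_of_nonneg_left ha h.y_pos.le
    linarith
  · rw [ind_neg ha]
    exact (Real.exp_pos _).le

lemma three (h : C.Ok) (D : Gm → Sg → ℝ) :
    C.y * C.P D ≤ Real.log (C.add D).N - Real.log C.N := by
  have hN := Cas.N_pos h
  have hN' := Cas.N_pos (h.add D)
  rw [← Real.log_div hN'.ne' hN.ne', Real.le_log_iff_exp_le (div_pos hN' hN)]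
  refine le_trans ?_ (div_le_div_of_nonneg_right (two h D) hN.le)
  set m := C.y * C.P D with hm
  have h1 : C.P (fun γ σ => Real.exp m * (1 + (C.y * D γ σ - m)))
      ≤ C.P fun γ σ => Real.exp (C.y * D γ σ) := Cas.P_mono h fun γ σ => by
    have := Real.add_one_le_exp (C.y * D γ σ - m)
    calc _ ≤ Real.exp m * Real.exp (C.y * D γ σ - m) :=
          mul_le_mul_of_nonneg_left (by linarith) (Real.exp_pos _).le
      _ = _ := by rw [← Real.exp_add]; congr 1; ring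
  rw [Cas.P_mul, Cas.P_add, Cas.P_sub, Cas.P_mul, Cas.P_const h, Cas.P_const h, ← hm] at h1
  simpa [Cas.P] using h1

lemma four (h : C.Ok) (D : Gm → Sg → ℝ) :
    2 * Real.log C.N ≤ Real.log (C.add D).N + Real.log (C.add fun γ σ => -D γ σ).N := by
  have h1 := three h D
  have h2 := three h fun γ σ => -D γ σ
  have h3 : C.P (fun γ σ => -D γ σ) = -1 * C.P D := by
    rw [← Cas.P_mul]
    exact Cas.P_congr fun _ _ => by ring
  rw [h3] at h2
  linarith

end TiltJ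

theorem stTilt : StTilt := fun _ _ _ _ _ _ D h =>
  ⟨TiltJ.one h D, TiltJ.two h D, TiltJ.three h D, TiltJ.four h D⟩

end Pool.Agent.MP_32a90a_pr.D

end

section

set_option autoImplicit false

namespace Pool.Agent.MP_32a90a_pr.D

open Finset Filter Pool.Agent.MP_32a90a_pr Pool.Agent.MP_32a90a_pr.L

namespace TowerJ

variable {Sg Gm Nd : Type} [Fintype Sg] [Fintype Gm] {C : Cas Sg Gm}

lemma ratio {a a' e e' k : ℝ} (hk : 0 < k) (ha : 0 ≤ a) (he : 0 ≤ e) (he' : 0 ≤ e')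
    (h1 : a' ≤ k * a) (h2 : e ≤ k * e') (h3 : e' ≤ k * e) : a' / e' ≤ k * k * (a / e) := by
  rcases he.eq_or_lt with h0 | h0
  · have : e' = 0 := le_antisymm (by rwa [← h0, mul_zero] at h3) he'
    rw [this, ← h0, div_zero, div_zero, mul_zero]
  · have h4 : 0 < e' := (mul_pos_iff_of_pos_left hk).1 (h0.trans_le h2)
    rw [← mul_div_assoc, div_le_div_iff₀ h4 h0]
    calc a' * e ≤ (k * a) * (k * e') := mul_le_mul h1 h2 he (mul_nonneg hk.le ha)
      _ = _ := by ring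

lemma le_of_neg {t a a' : ℝ} (h : Real.exp (-t) * a ≤ a') : a ≤ Real.exp t * a' := by
  rw [Real.exp_neg, inv_mul_le_iff₀ (Real.exp_pos t)] at h
  exact h

lemma Ex_mu (nd : Gm → Nd) (n : Nd) (f : Sg → ℝ) : Ex (C.mu nd n) f
    = (C.E fun γ σ => ind (nd γ = n) * f σ) / C.E fun γ _ => ind (nd γ = n) := by
  classical
  have h : ∀ γ σ, ind (nd γ = n) * f σ = ∑ σ', ind (nd γ = n ∧ σ = σ') * f σ' := by
    intro γ σ
    simp only [ind_and, mul_assoc, ← mul_sum]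
    simp [ind]
  rw [Cas.E_congr h, Cas.E_sum, sum_div]
  exact sum_congr rfl fun σ' _ => by rw [Cas.E_mul_right, Cas.mu, div_mul_eq_mul_div]

lemma E_split (nd : Gm → Nd) [DecidableEq Nd] (G : Nd → Sg → ℝ) :
    (C.E fun γ σ => G (nd γ) σ) =
      ∑ n ∈ univ.image nd, C.E fun γ σ => ind (nd γ = n) * G n σ := by
  rw [← Cas.E_sum]
  refine Cas.E_congr fun γ σ => ?_
  rw [sum_eq_single (nd γ), ind_pos rfl, one_mul]
  · intro n _ hn
    rw [ind_neg hn.symm, zero_mul]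
  · intro h
    exact absurd (mem_image_of_mem nd (mem_univ γ)) h

variable [Nonempty Sg]

lemma num_zero (h : C.Ok) {o : Gm → ℝ} (ho : ∀ γ, 0 ≤ o γ) (h0 : (C.E fun γ _ => o γ) = 0)
    (f : Sg → ℝ) : (C.E fun γ σ => o γ * f σ) = 0 := by
  have h1 := (sum_eq_zero_iff_of_nonneg fun γ _ => sum_nonneg fun σ _ =>
    mul_nonneg (Cas.wt_nonneg h γ σ) (ho γ)).1 h0
  refine sum_eq_zero fun γ hγ => sum_eq_zero fun σ hσ => ?_
  have h2 := (sum_eq_zero_iff_of_nonneg fun σ _ =>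
    mul_nonneg (Cas.wt_nonneg h γ σ) (ho γ)).1 (h1 γ hγ) σ hσ
  rw [← mul_assoc, h2, zero_mul]

lemma den_pos (h : C.Ok) (nd : Gm → Nd) {γ : Gm} (hγ : 0 < C.p γ) :
    0 < C.E fun γ' _ => ind (nd γ' = nd γ) := by
  refine sum_pos' (fun γ' _ => sum_nonneg fun σ _ =>
    mul_nonneg (Cas.wt_nonneg h γ' σ) (ind_nonneg _)) ⟨γ, mem_univ _, ?_⟩
  refine sum_pos (fun σ _ => ?_) univ_nonempty
  beta_reduce
  rw [ind_pos rfl, mul_one]
  exact mul_pos (mul_pos hγ (Real.rpow_pos_of_pos (Zf_pos _ _) _)) (Cas.nu_pos γ σ)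

lemma tower (h : C.Ok) (nd : Gm → Nd) (F : Nd → Sg → ℝ) :
    (C.E fun γ σ => F (nd γ) σ) = C.E fun γ _ => Ex (C.mu nd (nd γ)) (F (nd γ)) := by
  classical
  rw [E_split nd F, E_split nd fun n _ => Ex (C.mu nd n) (F n)]
  refine sum_congr rfl fun n _ => ?_
  rw [Cas.E_mul_right, Ex_mu]
  by_cases h0 : (C.E fun γ _ => ind (nd γ = n)) = 0
  · rw [num_zero h (fun _ => ind_nonneg _) h0, h0, zero_mul]
  · rw [mul_div_cancel₀ _ h0]

end TowerJ

open TowerJ in
theorem stTower (hBd : StBd) : StTower := by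
  intro Sg Gm Nd _ _ _ C nd h
  refine ⟨fun γ hγ => ⟨fun σ => div_nonneg (Cas.E_nonneg h fun _ _ => ind_nonneg _)
    (den_pos h nd hγ).le, ?_⟩, fun F => ⟨tower h nd F, ?_⟩, Ex_mu nd, fun D b hD n σ => ?_⟩
  · have := Ex_mu (C := C) nd (nd γ) fun _ => 1
    simp only [Ex, mul_one] at this
    rw [this, div_self (den_pos h nd hγ).ne']
  · rw [Cas.EN, Cas.P, Cas.P, tower h nd F]
  · have h1 := (hBd Sg Gm C D b h hD).1 (fun g σ' => ind (nd g = n ∧ σ' = σ))
      fun _ _ => ind_nonneg _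
    have h2 := (hBd Sg Gm C D b h hD).1 (fun g _ => ind (nd g = n)) fun _ _ => ind_nonneg _
    have e : Real.exp (4 * C.β * b) = Real.exp (2 * C.β * b) * Real.exp (2 * C.β * b) := by
      rw [← Real.exp_add]; congr 1; ring
    rw [e]
    exact ⟨ratio (Real.exp_pos _) (Cas.E_nonneg h fun _ _ => ind_nonneg _)
        (Cas.E_nonneg h fun _ _ => ind_nonneg _) (Cas.E_nonneg (h.add D) fun _ _ => ind_nonneg _)
        h1.1 (le_of_neg h2.2.1) h2.1,
      ratio (Real.exp_pos _) (Cas.E_nonneg (h.add D) fun _ _ => ind_nonneg _)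
        (Cas.E_nonneg (h.add D) fun _ _ => ind_nonneg _) (Cas.E_nonneg h fun _ _ => ind_nonneg _)
        (le_of_neg h1.2.1) h2.1 (le_of_neg h2.2.1)⟩

end Pool.Agent.MP_32a90a_pr.D

end

section

set_option autoImplicit false

namespace Pool.Agent.MP_32a90a_pr.D

open Finset Filter Pool.Agent.MP_32a90a_pr Pool.Agent.MP_32a90a_pr.L

/-- a property of all gadget systems -/
def AllS (P : ∀ (Sg G0 A : Type) [Fintype Sg] [Nonempty Sg] [Fintype G0] [Nonempty G0]
    [Fintype A] [DecidableEq A], Sys Sg G0 A → Prop) : Prop :=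
  ∀ (Sg G0 A : Type) [Fintype Sg] [Nonempty Sg] [Fintype G0] [Nonempty G0] [Fintype A]
    [DecidableEq A] (S : Sys Sg G0 A), P Sg G0 A S

/-- Mecke identities -/
def StMecke : Prop := AllS fun Sg G0 A _ _ _ _ _ _ S =>
  ∀ (I : Finset A) (χ : A → G0 → Sg → ℝ), S.ρ < 1 →
    (S.E fun g σ => oI I g * ∑ a, χ a g.1 σ * ind (g.2 a = some (!S.sp a σ)))
      = S.rs * Real.exp (-(S.y * S.tm)) *
        ∑ a, (S.E fun g σ => oI I g * oA I a g * χ a g.1 σ * S.Sv (S.tp + S.tm) a g σ) ∧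
    (S.E fun g σ => oI I g * ∑ a, χ a g.1 σ * ind (g.2 a = some (S.sp a σ)))
      = S.rs * Real.exp (S.y * S.tp) *
        ∑ a, (S.E fun g σ => oI I g * oA I a g * χ a g.1 σ * S.Sv (-(S.tp + S.tm)) a g σ)

/-- domination of the number of gadgets with prescribed signs -/
def StDom : Prop := AllS fun _ G0 A _ _ _ _ _ _ S =>
  ∀ (d : ℕ) (φ : G0 → ℝ) (s : G0 → A → Bool) (δ : ℝ), 1000 ≤ d → S.Par d → (∀ g, 0 ≤ φ g) →
    0 < δ → δ ≤ 1 →
    (S.E fun g _ => φ g.1 * ind ((1 + δ) * Real.exp (S.y * S.tp) * (S.rs * Fintype.card A)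
        ≤ ∑ a, ind (g.2 a = some (s g.1 a))))
      ≤ Real.exp (-(δ ^ 2 * (S.rs * Fintype.card A) / 4)) * S.E fun g _ => φ g.1

/-- a few given positions rarely carry a gadget -/
def StOI : Prop := AllS fun _ G0 A _ _ _ _ _ _ S =>
  ∀ (d : ℕ) (φ : G0 → ℝ) (I : Finset A), 1000 ≤ d → S.Par d → (∀ g, 0 ≤ φ g) →
    (S.E fun g _ => φ g.1) ≤ (1 + 2 * S.ρ) ^ I.card * (S.E fun g _ => oI I g * φ g.1) ∧
    (I.card ≤ d + 2 →
      (S.E fun g _ => (1 - oI I g) * φ g.1) ≤ sm 295 d * S.E fun g _ => oI I g * φ g.1)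

/-- transfer from the ideal perturbation to a near system -/
def StNear : Prop := AllS fun Sg G0 A _ _ _ _ _ _ S =>
  ∀ (d : ℕ) (S' : Sys Sg G0 A) (D : G0 → Sg → ℝ) (I : Finset A) (dl : ℝ), 1000 ≤ d → S.Par d →
    S.Near S' D I dl → I.card ≤ d + 2 →
    |Real.log S'.N - Real.log (S.add D).N| ≤ S.y * dl + 2 * S.ρ * I.card ∧
    (∀ g σ, oI I g = 1 → S'.nu g σ ≤ Real.exp (2 * S.β * dl) * (S.add D).nu g σ ∧
      Real.exp (-(2 * S.β * dl)) * (S.add D).nu g σ ≤ S'.nu g σ) ∧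
    (S.β * dl ≤ sm 300 d → ∀ (φ : G0 → ℝ) (f f' : Gam G0 A → Sg → ℝ) (F : ℝ), (∀ g, 0 ≤ φ g) →
      (∀ g σ, |f g σ| ≤ F) → (∀ g σ, |f' g σ| ≤ F) → (∀ g σ, oI I g = 1 → f g σ = f' g σ) →
      |(S'.E fun g σ => φ g.1 * f' g σ) / (S'.E fun g _ => φ g.1)
          - ((S.add D).E fun g σ => φ g.1 * f g σ) / ((S.add D).E fun g _ => φ g.1)|
        ≤ sm 280 d * F)

/-- crude stability between near systems -/
def StStab : Prop := AllS fun Sg G0 A _ _ _ _ _ _ S =>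
  ∀ (d : ℕ) (S' : Sys Sg G0 A) (D : G0 → Sg → ℝ) (I : Finset A) (dl : ℝ), 1000 ≤ d → S.Par d →
    S.Near S' D I dl → I.card ≤ d + 2 → dl ≤ 1 → (∀ g σ, |D g σ| ≤ 3 * d) →
    (∀ f : Gam G0 A → Sg → ℝ, (∀ g σ, 0 ≤ f g σ) →
      S'.P f ≤ Real.exp (40 * S.β * d) * S.P f ∧ S.P f ≤ Real.exp (40 * S.β * d) * S'.P f) ∧
    (∀ (Nd : Type) (nd : G0 → Nd) (n : Nd) (σ : Sg),
      S'.mu nd n σ ≤ Real.exp (40 * S.β * d) * S.mu nd n σ ∧
      S.mu nd n σ ≤ Real.exp (40 * S.β * d) * S'.mu nd n σ) ∧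
    (∀ g σ, |S'.Km g σ - S.Km g σ| ≤ I.card ∧ |S'.Kp g σ - S.Kp g σ| ≤ I.card) ∧
    ∀ b : ℝ, (∀ g σ, |D g σ| ≤ b) → S.β * dl ≤ sm 300 d → ∀ f f' : Gam G0 A → ℝ,
      (∀ g, 0 ≤ f g ∧ f g ≤ 1) → (∀ g, 0 ≤ f' g ∧ f' g ≤ 1) → (∀ g, oI I g = 1 → f g ≤ f' g) →
      Real.exp (-(2 * S.y * b)) * (S.P fun g _ => f g) - sm 250 d ≤ S'.P fun g _ => f' g

/-- robust form of the Mecke identities on the good event -/
def StRob : Prop := AllS fun Sg G0 A _ _ _ _ _ _ S =>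
  ∀ (d : ℕ) (c cp dK : ℝ), 1000 ≤ d → S.Par d → 0 < dK → dK ≤ sm 300 d →
    (S.P fun g σ => ind (¬ S.Good c cp dK g σ)) ≤ S.ρ * sm (7 * S.β + 300) d →
    ∀ (D : G0 → Sg → ℝ) (I : Finset A) (f : G0 → Sg → ℝ) (F : ℝ), Sys.Adm d D I f F →
      |(S.EI D I f fun g σ => avg fun a => oA I a g * (S.add D).Sv (S.tp + S.tm) a g σ)
          - c * S.EI D I f fun _ _ => 1| ≤ sm 290 d * ((S.EI D I f fun _ _ => 1) + F * S.N) ∧
      |(S.EI D I f fun g σ => avg fun a => oA I a g * (S.add D).Sv (-(S.tp + S.tm)) a g σ)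
          - cp * S.EI D I f fun _ _ => 1| ≤ sm 290 d * ((S.EI D I f fun _ _ => 1) + F * S.N)

/-- the sign dependent upper bound -/
def StDom2 : Prop := AllS fun Sg G0 A _ _ _ _ _ _ S =>
  ∀ (d : ℕ) (dK : ℝ), 1000 ≤ d → S.Par d → 0 < dK → dK ≤ sm 300 d →
    Real.exp (-(dK ^ 2 * (S.rs * Fintype.card A) / 4)) ≤ S.ρ * sm (7 * S.β + 300) d →
    ∀ (D : G0 → Sg → ℝ) (I : Finset A) (f : G0 → Sg → ℝ) (F : ℝ) (s : G0 → A → Bool),
      Sys.Adm d D I f F →
      (S.EI D I f fun g σ => avg fun a => oA I a g *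
          (ind (S.sp a σ = s g.1 a) * (S.add D).Sv (-(S.tp + S.tm)) a g σ
            + Real.exp (-(S.y * (S.tp + S.tm))) * ind (S.sp a σ ≠ s g.1 a)
              * (S.add D).Sv (S.tp + S.tm) a g σ))
        ≤ (S.EI D I f fun _ _ => 1) + sm 290 d * ((S.EI D I f fun _ _ => 1) + F * S.N)

/-- relation between the two mean responses in one system -/
def StCp : Prop := AllS fun _ _ A _ _ _ _ _ _ S =>
  ∀ d : ℕ, 1000 ≤ d → S.Par d →
    (S.P fun g σ => avg fun a : A => oA ∅ a g * (S.Sv (-(S.tp + S.tm)) a g σ - 1))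
      ≤ (1 + 9 * S.y) * (S.P fun g σ => avg fun a : A => oA ∅ a g * (1 - S.Sv (S.tp + S.tm) a g σ))
        + sm 290 d

/-- elementary properties of the responses -/
def StSv : Prop := AllS fun _ _ _ _ _ _ _ _ _ S =>
  ∀ d : ℕ, 3 ≤ d → S.Par d → ∀ a g σ,
    (∀ t, 0 < S.Sv t a g σ) ∧ (∀ t t', t ≤ t' → S.Sv t' a g σ ≤ S.Sv t a g σ) ∧ S.Sv 0 a g σ = 1 ∧
    (∀ t t', t ≤ t' → S.Sv t a g σ ≤ Real.exp (S.β * (t' - t)) * S.Sv t' a g σ) ∧
    (2 ≤ S.β → Real.exp (-S.β) ≤ mn (S.nu g) (S.sp a) → S.Sv 2 a g σ ≤ 1 / 2) ∧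
    ((Ex (S.nu g) fun σ' => 1 - S.Sv 2 a g σ')
      ≤ ind (Real.exp (-(3 * S.β)) ≤ mn (S.nu g) (S.sp a)) + 2 * Real.exp (-S.β)) ∧
    (S.β = 1 → kt (S.nu g) (S.sp a) / 2 ≤ (Ex (S.nu g) fun σ' => 1 - S.Sv 2 a g σ') ∧
      (Ex (S.nu g) fun σ' => 1 - S.Sv 2 a g σ') ≤ 7 * kt (S.nu g) (S.sp a))

/-- rigidity of the responses -/
def StRig : Prop := AllS fun _ _ A _ _ _ _ _ _ S =>
  ∀ (d : ℕ) (c cp dK : ℝ), 1000 ≤ d → S.Par d → 0 < dK → dK ≤ sm 300 d →
    (S.P fun g σ => ind (¬ S.Good c cp dK g σ)) ≤ S.ρ * sm (7 * S.β + 300) d →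
    Real.exp (-(dK ^ 2 * (S.rs * Fintype.card A) / 4)) ≤ S.ρ * sm (7 * S.β + 300) d →
    S.Rig d c cp

/-- the form of rigidity used in most places -/
def StD1 : Prop := AllS fun _ _ _ _ _ _ _ _ _ S =>
  ∀ (d : ℕ) (c cp : ℝ), 1000 ≤ d → S.Par d → S.Rig d c cp → S.D1 d (d * (1 - c) + 1)

/-- sequential bound for satisfied unit fields -/
def StAllU : Prop := AllS fun Sg G0 A _ _ _ _ _ _ S =>
  ∀ (d m : ℕ) (lam F : ℝ) (T : (Fin m → A) → G0 → Sg → ℝ), 1000 ≤ d → S.Par d → S.D1 d lam →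
    m ≤ d → (∀ u g σ, 0 ≤ T u g σ ∧ T u g σ ≤ F) →
    (∀ u i a g σ, T (Function.update u i a) g σ ≤ 4 * T u g σ) →
    (avg fun u : Fin m → A => S.P fun g σ => T u g.1 σ * oU u g * S.SN (-2) u g σ)
      ≤ Real.exp (8 * lam) * (avg fun u : Fin m → A => S.P fun g σ => T u g.1 σ) + sm 190 d * F

/-- sequential bound for unsatisfied unit fields -/
def StAllL : Prop := AllS fun Sg G0 A _ _ _ _ _ _ S =>
  ∀ (d m : ℕ) (lam F : ℝ) (T : (Fin m → A) → G0 → Sg → ℝ), 1000 ≤ d → S.Par d → S.D1 d lam →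
    m ≤ d → lam ≤ d / 8 → (∀ u g σ, 0 ≤ T u g σ ∧ T u g σ ≤ F) →
    (∀ u i a g σ, T (Function.update u i a) g σ ≤ 4 * T u g σ) →
    Real.exp (-(8 * lam)) * (avg fun u : Fin m → A => S.P fun g σ => T u g.1 σ) - sm 190 d * F
      ≤ avg fun u : Fin m → A => S.P fun g σ => T u g.1 σ * oU u g * S.SN 2 u g σ

/-- the insertion in terms of the cavity system -/
def StPin : Prop := AllS fun Sg G0 A _ _ _ _ _ _ S =>
  ∀ (d : ℕ) (fl : Sg → Sg) (o : Sg → Bool) (AA : Finset (Fin d)) (B : ℝ)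
    (ω : Fin d → A × Bool), S.Sym fl o →
    (∀ φ : Gam G0 A → Bool → Sg → ℝ, (∀ g b σ, φ g b (fl σ) = φ g b σ) →
      ((S.add (S.Dv o AA B ω)).E fun g σ => φ g (o σ) σ)
        = S.E fun g σ => (1 / 2 : ℝ) ^ S.x *
          (∑ b, φ g b σ * Real.exp (S.β * (sgn b * (hom S.sp AA ω σ + B)))) *
          (∑ b, Ex (S.nu g) fun σ' =>
            Real.exp (S.β * (sgn b * (hom S.sp AA ω σ' + B)))) ^ (S.x - 1)) ∧
    ∀ (g : Gam G0 A) (φ : Bool → Sg → ℝ), (∀ b σ, φ b (fl σ) = φ b σ) →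
      (Ex ((S.add (S.Dv o AA B ω)).nu g) fun σ => φ (o σ) σ)
        = (∑ b, Ex (S.nu g) fun σ => φ b σ * Real.exp (S.β * (sgn b * (hom S.sp AA ω σ + B))))
          / ∑ b, Ex (S.nu g) fun σ => Real.exp (S.β * (sgn b * (hom S.sp AA ω σ + B)))

/-- the normalisations of the insertion -/
def StGw : Prop := AllS fun _ _ A _ _ _ _ _ _ S =>
  ∀ (d d' : ℕ) (AA : Finset (Fin d)) (ω : Fin d → A × Bool), 3 ≤ d' → S.Par d' →
    0 < S.Gw AA ω ∧ S.Gw AA ω ≤ 1 ∧
    (S.Gw AA ω * Ex S.cas.root fun σ => Real.exp (S.y * |hom S.sp AA ω σ|)) ≤ 1 ∧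
    1 ≤ S.Gw AA ω * (2 * Real.exp (S.y * d)) ∧
    (∀ i o, S.Gw AA (Function.update ω i o) ≤ Real.exp (2 * S.y) * S.Gw AA ω) ∧
    (∀ i o σ, |hom S.sp AA (Function.update ω i o) σ - hom S.sp AA ω σ| ≤ 2) ∧
    ∀ σ, |hom S.sp AA ω σ| ≤ d

/-- change of one pool position in an average over the signs -/
def StRatio : Prop :=
  ∀ (Sg A : Type) (sp : A → Sg → Bool) (d : ℕ) (AA : Finset (Fin d))
    (G : (Fin d → A × Bool) → ℝ) (b l : ℝ) (σ : Sg), 80 ≤ d → 8 * AA.card ≤ d → |l| ≤ d / 10 →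
    0 ≤ b → (∀ ω, 0 ≤ G ω) → (∀ ω i o, G (Function.update ω i o) ≤ Real.exp b * G ω) →
    ∀ (u : Fin d → A) (i : Fin d) (a : A),
      (avg fun J : Fin d → Bool => G (fun k => (Function.update u i a k, J k))
          * ind (hom sp AA (fun k => (Function.update u i a k, J k)) σ = l))
        ≤ 3 * Real.exp (2 * b) * avg fun J : Fin d → Bool =>
          G (fun k => (u k, J k)) * ind (hom sp AA (fun k => (u k, J k)) σ = l)

/-- sandwich for the level probabilities -/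
def StSand : Prop := AllS fun Sg _ _ _ _ _ _ _ _ S =>
  ∀ (d : ℕ) (lam l : ℝ) (fl : Sg → Sg) (o : Sg → Bool) (AA : Finset (Fin d)) (b : Bool),
    1000 ≤ d → S.Par d → S.D1 d lam → S.Sym fl o → 8 * AA.card ≤ d → |l| ≤ d / 10 →
    S.Lv o AA b l ≤ Real.exp (8 * lam + S.y * l) * S.Th AA (sgn b * l) + sm 180 d ∧
    (0 ≤ l → lam ≤ d / 8 →
      Real.exp (-(8 * lam) + S.y * l) / 2 * S.Th AA (sgn b * l) - sm 180 d ≤ S.Lv o AA b l)

/-- comparison of the two normalisations -/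
def StTh : Prop := AllS fun _ _ _ _ _ _ _ _ _ S =>
  ∀ (d : ℕ) (lam l : ℝ) (AA : Finset (Fin d)), 1000 ≤ d → S.Par d → S.D1 d lam →
    8 * AA.card ≤ d → |l| ≤ d / 10 →
    S.Th AA l ≤ Th0 S.cas.root S.sp S.y AA l ∧
      Th0 S.cas.root S.sp S.y AA l ≤ 4 * Real.exp (8 * lam) * S.Th AA l + sm 90 d

/-- the series bound: some replica numbers have a small pattern asymmetry -/
def StSer : Prop :=
  ∀ (Sg Gm A : Type) [Fintype Sg] [Nonempty Sg] [Fintype Gm] [Fintype A] [Nonempty A]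
    (C : Cas Sg Gm) (sp : A → Sg → Bool) (k : ℕ), C.Ok → 2 ≤ C.β → C.y ≤ 1 / 1000 → 1 ≤ k →
    0 ≤ (avg fun a => avg fun a' =>
        Real.log (C.add fun _ σ => sgn true * (sgn (sp a σ) * sgn (sp a' σ))).N
          - Real.log (C.add fun _ σ => sgn false * (sgn (sp a σ) * sgn (sp a' σ))).N) ∧
    ∃ r : Fin k → ℕ, (∀ i, 1 ≤ r i ∧ (r i : ℝ) ≤ Real.exp (C.β / 2)) ∧
      (avg fun a => avg fun a' =>
          ∏ i, (C.P fun γ _ => (Ex (C.nu γ) fun σ => ind (sp a σ = sp a' σ)) ^ r i)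
            - ∏ i, (C.P fun γ _ => (Ex (C.nu γ) fun σ => ind (sp a σ ≠ sp a' σ)) ^ r i))
        ≤ k * (16 / C.y) ^ k * avg fun a => avg fun a' =>
          Real.log (C.add fun _ σ => sgn true * (sgn (sp a σ) * sgn (sp a' σ))).N
            - Real.log (C.add fun _ σ => sgn false * (sgn (sp a σ) * sgn (sp a' σ))).N

/-- from the pattern asymmetry to the odd overlaps -/
def StPat : Prop :=
  ∀ (Sg Gm A : Type) [Fintype Sg] [Nonempty Sg] [Fintype Gm] [Fintype A] [Nonempty A]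
    (C : Cas Sg Gm) (sp : A → Sg → Bool) (k : ℕ) (r : Fin k → ℕ) (t α e Dl R : ℝ), C.Ok →
    Odd k → (∀ i, 1 ≤ r i ∧ (r i : ℝ) ≤ R) → 0 ≤ t → 0 ≤ e →
    (avg fun a => avg fun a' =>
        ∏ i, (C.P fun γ _ => (Ex (C.nu γ) fun σ => ind (sp a σ = sp a' σ)) ^ r i)
          - ∏ i, (C.P fun γ _ => (Ex (C.nu γ) fun σ => ind (sp a σ ≠ sp a' σ)) ^ r i)) ≤ Dl →
    (∀ (f : Sg → ℝ) (F : ℝ), (∀ σ, 0 ≤ f σ) → (∀ σ, f σ ≤ F) →
      (C.P fun γ σ => f σ * avg fun a => ind (t ≤ mn (C.nu γ) (sp a)))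
        ≤ α * (C.P fun _ σ => f σ) + e * F) →
    HK C.root sp k α (Real.sqrt (2 ^ k * Dl) + k * (2 * R * t + e))

/-- odd overlaps in a system with a small edge gain -/
def StHK : Prop := AllS fun _ _ _ _ _ _ _ _ _ S =>
  ∀ (d k : ℕ) (lam : ℝ), 1000 ≤ d → S.Par d → S.D1 d lam → 2 ≤ S.β → Odd k →
    0 ≤ S.dH ∧ HK S.cas.root S.sp k (2 * lam / d)
      (Real.sqrt (2 ^ k * (k * (16 / S.y) ^ k * S.dH))
        + k * (2 * Real.exp (-(S.β / 2)) + 2 * sm 200 d))

/-- balance and descent after the ideal insertion -/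
def StBal : Prop := ∀ᶠ d : ℕ in atTop, AllS fun Sg _ _ _ _ _ _ _ _ S =>
  ∀ (lam : ℝ) (fl : Sg → Sg) (o : Sg → Bool) (AA : Finset (Fin d)) (b : Bool) (l : ℕ),
    S.Par d → S.D1 d lam → S.Sym fl o → 8 * AA.card ≤ d → 1 / (d : ℝ) ≤ S.y →
    (d : ℝ) ^ 2 ≤ S.β → S.dH ≤ Real.exp (-((d : ℝ) ^ 2 / 8)) → lam ≤ d / 100 → 20 * l ≤ d →
    S.Lv o AA b (2 * l) ≤ Real.exp (100 * lam) * S.Lv o AA (!b) (2 * l) + sm 20 d ∧
      S.Lv o AA b (2 * l) ≤ Real.exp (100 * lam + 4 * S.y * l) * S.Lv o AA true 0 + sm 20 d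

/-- balance and descent in a family of inserted systems -/
def StVT1 : Prop := ∀ᶠ d : ℕ in atTop, AllS fun Sg G0 A _ _ _ _ _ _ S =>
  ∀ (lam : ℝ) (fl : Sg → Sg) (o : Sg → Bool) (AA : Finset (Fin d))
    (S' : (Fin d → A × Bool) → Sys Sg G0 A) (b : Bool) (l : ℕ),
    S.Par d → S.D1 d lam → S.Sym fl o → S.Ins o AA 0 S' → 8 * AA.card ≤ d → 1 / (d : ℝ) ≤ S.y →
    (d : ℝ) ^ 2 ≤ S.β → S.dH ≤ Real.exp (-((d : ℝ) ^ 2 / 8)) → lam ≤ d / 100 → 20 * l ≤ d →
    (Fam S' fun ω _ σ => ind (o σ = b ∧ sgn (o σ) * hom S.sp AA ω σ = 2 * l))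
        ≤ Real.exp (100 * lam) *
          (Fam S' fun ω _ σ => ind (o σ = (!b) ∧ sgn (o σ) * hom S.sp AA ω σ = 2 * l)) + sm 10 d ∧
      (Fam S' fun ω _ σ => ind (o σ = b ∧ sgn (o σ) * hom S.sp AA ω σ = 2 * l))
        ≤ Real.exp (100 * lam + 4 * S.y * l) *
          (Fam S' fun ω _ σ => ind (o σ = true ∧ sgn (o σ) * hom S.sp AA ω σ = 0)) + sm 10 d

/-- signal of a joined edge in every node -/
def StET2 : Prop := AllS fun Sg G0 A _ _ _ _ _ _ S =>
  ∀ (d : ℕ) (S' : Sys Sg G0 A) (a a' : A) (b : Bool) (I : Finset A) (dl : ℝ) (Nd : Type)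
    (nd : G0 → Nd) (g0 : G0), 1000 ≤ d → S.Par d → S.Near S' (S.De a a' b) I dl → I.card ≤ 2 →
    S.β * dl ≤ sm 300 d →
    2 * S.y * kt (S'.mu nd (nd g0)) (S.sp a) * kt (S'.mu nd (nd g0)) (S.sp a')
        - 3 * |cv (S.mu nd (nd g0)) (S.sp a) (S.sp a')| - sm 250 d
      ≤ sgn b * cv (S'.mu nd (nd g0)) (S.sp a) (S.sp a')

/-- the frustrated switch in a node -/
def StSw : Prop := AllS fun Sg G0 A _ _ _ _ _ _ S =>
  ∀ (d : ℕ) (S' : Sys Sg G0 A) (φ : Fin 4 → Sg → Bool) (m : Fin 4 → Bool) (κ dl : ℝ) (Nd : Type)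
    (nd : G0 → Nd) (g0 : G0), 1000 ≤ d → S.Par d →
    S.Near S' (fun _ σ => swE (sgn (φ 0 σ) * sgn (m 0)) (sgn (φ 1 σ) * sgn (m 1))
      (sgn (φ 2 σ) * sgn (m 2)) (sgn (φ 3 σ) * sgn (m 3))) ∅ dl →
    S.β * dl ≤ sm 300 d → sm 200 d ≤ κ →
    (∀ i : Fin 4, i.val < 2 → κ ≤ (Ex (S.mu nd (nd g0)) fun σ => ind (φ i σ ≠ m i)) ∧
      (Ex (S.mu nd (nd g0)) fun σ => ind (φ i σ ≠ m i)) ≤ 2 * κ ∧
      (Ex (S.mu nd (nd g0)) fun σ => ind (φ i σ ≠ m i)) ≤ 1 / 2) →
    (∀ i : Fin 4, 2 ≤ i.val → (Ex (S.mu nd (nd g0)) fun σ => ind (φ i σ ≠ m i)) ≤ κ / 16) →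
    |cv (S.mu nd (nd g0)) (φ 0) (φ 1)| ≤ κ / 10 →
    ∀ i : Fin 4, i.val < 2 →
      κ / 5 ≤ mn (S'.mu nd (nd g0)) (φ i) ∧ mn (S'.mu nd (nd g0)) (φ i) ≤ 5 * κ

/-- two children that differ on a pool position still differ after an ideal join -/
def StJoin1 : Prop := AllS fun _ G0 A _ _ _ _ _ _ S =>
  ∀ (d : ℕ) (a a' : A) (Nd : Type) (nd : G0 → Nd) (Ev : Nd → Prop), 1000 ≤ d → S.Par d →
    (S.P fun g σ => ind (Ev (nd g.1)) * (Ex (S.mu nd (nd g.1)) fun r => ind (S.sp a σ ≠ S.sp a r))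
        * S.SN 2 ![a, a'] g σ) / 4
      ≤ avg fun b => (S.add (S.De a a' b)).EN nd fun n =>
          ind (Ev n) * kt ((S.add (S.De a a' b)).mu nd n) (S.sp a)

/-- the width on the pool is controlled by the width after joining -/
def StETb : Prop := AllS fun Sg G0 A _ _ _ _ _ _ S =>
  ∀ (d : ℕ) (lam : ℝ) (S' : A → A → Bool → Sys Sg G0 A) (Nd : Type) (nd : G0 → Nd)
    (Ev : Nd → Prop), 1000 ≤ d → S.Par d → S.D1 d lam → lam ≤ d / 2 → S.Join d S' →
    ((S.EN nd fun n => ind (Ev n) * zz (S.mu nd n) S.sp) - lam / d) / 8 - sm 100 d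
      ≤ avg fun a => avg fun a' => avg fun b => ind (a ≠ a') *
          (S' a a' b).EN nd fun n => ind (Ev n) * kt ((S' a a' b).mu nd n) (S.sp a)

/-- exponential moment of the distance to the reference on the chosen positions -/
def StNtail : Prop := AllS fun _ G0 _ _ _ _ _ _ _ S =>
  ∀ (d : ℕ) (lam zb : ℝ) (Nd : Type) (nd : G0 → Nd) (Ev : Nd → Prop) (AA : Finset (Fin d))
    (s : Bool), 1000 ≤ d → S.Par d → S.D1 d lam → 0 ≤ zb → S.Cl d nd Ev zb →
    (S.Rf nd Ev AA s fun ω σ r => Real.exp (dn S.sp (uu ω) σ r))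
      ≤ Real.exp (7 * lam + 3 * d * zb) + sm 100 d

/-- one fair step of the lower tail of the number of followers -/
def StYstep : Prop := AllS fun Sg G0 A _ _ _ _ _ _ S =>
  ∀ (d : ℕ) (c cp z zb F : ℝ) (Nd : Type) (nd : G0 → Nd) (Ev : Nd → Prop) (D : G0 → Sg → ℝ)
    (I : Finset A) (f : G0 → Sg → Sg → ℝ) (π : G0 → Sg → Sg → A × Bool → ℝ),
    1000 ≤ d → S.Par d → S.Rig d c cp → S.y ≤ 1 / 10 ^ 11 → 0 ≤ z → 0 ≤ zb →
    zb ≤ 200 * ((d * (1 - c) + 1) / d + z) → S.Cl d nd Ev zb →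
    (∀ g σ, |D g σ| ≤ 3 * d) → I.card ≤ d + 2 → (∀ g σ r, 0 ≤ f g σ r ∧ f g σ r ≤ F) →
    (∀ g σ r o, |π g σ r o - 1| ≤ 3 / 10 * (1 / 25000) ^ 2) → (∀ g σ r, avg (π g σ r) = 1) →
    ((S.add D).E fun g σ => oI I g * ind (Ev (nd g.1)) * Ex (S.mu nd (nd g.1)) fun r =>
        f g.1 σ r * avg fun o : A × Bool => π g.1 σ r o * oA I o.1 g *
          (if S.sp o.1 σ = o.2 then (S.add D).Sv (-2) o.1 g σ else (S.add D).Sv 2 o.1 g σ) *
          Real.exp ((2 * S.y - 1 / 25000) * (sgn o.2 * (sgn (S.sp o.1 σ) - sgn (S.sp o.1 r)) / 2)))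
      ≤ (1 - (d * (1 - c) + 1) / d / 125000 + z + 1 / (2 * (d : ℝ))) *
          ((S.add D).E fun g σ => oI I g * ind (Ev (nd g.1)) * Ex (S.mu nd (nd g.1)) (f g.1 σ))
        + sm 190 d * F * S.N

/-- lower tail of the number of followers -/
def StYtail : Prop := AllS fun _ G0 A _ _ _ _ _ _ S =>
  ∀ (d : ℕ) (c cp z zb L : ℝ) (Nd : Type) (nd : G0 → Nd) (Ev : Nd → Prop) (AA : Finset (Fin d))
    (s : Bool), 1000 ≤ d → S.Par d → S.Rig d c cp → S.y ≤ 1 / 10 ^ 11 → 0 ≤ z → z ≤ 1 → 0 ≤ zb →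
    zb ≤ 200 * ((d * (1 - c) + 1) / d + z) → S.Cl d nd Ev zb → AA.card * 10 ^ 7 ≤ d →
    (S.Rf nd Ev AA s fun ω σ r => psi L (hom S.sp AA ω r) *
        Real.exp (-(1 / 25000 * (sgn s * (hom S.sp AA ω σ - hom S.sp AA ω r) / 2))))
      ≤ Real.exp (-((d * (1 - c) + 1) / 250000) + 2 * d * z + 1) *
          (avg fun ω : Fin d → A × Bool => S.Gw AA ω * S.EN nd fun n => ind (Ev n) *
            Ex (S.mu nd n) fun r => psi L (hom S.sp AA ω r)
              * Real.exp (S.y * (sgn s * hom S.sp AA ω r))) + sm 100 d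

/-- flexible spins with few followers are rare, ideal insertion -/
def StFew : Prop := ∃ K : ℝ, 1 ≤ K ∧ ∀ᶠ d : ℕ in atTop, AllS fun Sg G0 A _ _ _ _ _ _ S =>
  ∀ (c cp lam z zb : ℝ) (Nd : Type) (nd : G0 → Nd) (Ev : Nd → Prop) (AA : Finset (Fin d))
    (fl : Sg → Sg) (o : Sg → Bool), S.Par d → S.Rig d c cp → lam = d * (1 - c) + 1 →
    S.Sym fl o → S.y ≤ 1 / 10 ^ 11 → 0 ≤ z → d * z ≤ ell d → 0 ≤ zb →
    zb ≤ 200 * (lam / d + z) → S.Cl d nd Ev zb → AA.card * 10 ^ 7 ≤ d →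
    (avg fun ω : Fin d → A × Bool => S.Pin o AA 0 ω fun g _ => ind (Ev (nd g.1)) *
        ind (BadV ((S.add (S.Dv o AA 0 ω)).nu g) o (dn S.sp (uu ω)) (Real.exp (-(9 * S.β)))
          (lam / 20) (1 / 3)))
      ≤ K * Real.exp (-(lam / 500000) + 2 * d * z + K * S.y * (lam + ell d)) *
          min 1 ((avg fun ω : Fin d → A × Bool => S.Pin o AA 0 ω fun _ σ =>
            ind (|hom S.sp AA ω σ| ≤ K * (lam + ell d))) + 1 / (d : ℝ) ^ 10)
        + 1 / (d : ℝ) ^ 11 ∧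
    (avg fun ω : Fin d → A × Bool => S.Pin o AA 0 ω fun g σ => ind (Ev (nd g.1)) *
        ind (Real.exp (-(9 * S.β)) ≤ mn ((S.add (S.Dv o AA 0 ω)).nu g) o) *
        ind (K * (lam + ell d) < |hom S.sp AA ω σ|)) ≤ 1 / (d : ℝ) ^ 11

/-- flexible spins with few followers are rare, family of inserted systems -/
def StVT2 : Prop := ∃ K : ℝ, 1 ≤ K ∧ ∀ᶠ d : ℕ in atTop, AllS fun Sg G0 A _ _ _ _ _ _ S =>
  ∀ (c cp lam z zb : ℝ) (Nd : Type) (nd : G0 → Nd) (Ev : Nd → Prop) (AA : Finset (Fin d))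
    (fl : Sg → Sg) (o : Sg → Bool) (S' : (Fin d → A × Bool) → Sys Sg G0 A), S.Par d →
    S.Rig d c cp → lam = d * (1 - c) + 1 → S.Sym fl o → S.Ins o AA 0 S' → S.y ≤ 1 / 10 ^ 11 →
    0 ≤ z → d * z ≤ ell d → 0 ≤ zb → zb ≤ 200 * (lam / d + z) → S.Cl d nd Ev zb →
    AA.card * 10 ^ 7 ≤ d →
    (Fam S' fun ω g _ => ind (Ev (nd g.1)) *
        ind (BadV ((S' ω).nu g) o (dn S.sp (uu ω)) (Real.exp (-(8 * S.β))) (lam / 20) (1 / 2)))
      ≤ K * Real.exp (-(lam / 500000) + 2 * d * z + K * S.y * (lam + ell d)) *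
          min 1 ((Fam S' fun ω _ σ => ind (|hom S.sp AA ω σ| ≤ K * (lam + ell d)))
            + 2 / (d : ℝ) ^ 10) + 1 / (d : ℝ) ^ 10 ∧
    (Fam S' fun ω g σ => ind (Ev (nd g.1)) * ind (Real.exp (-(8 * S.β)) ≤ mn ((S' ω).nu g) o) *
        ind (K * (lam + ell d) < |hom S.sp AA ω σ|)) ≤ 1 / (d : ℝ) ^ 10

/-- the simple random walk stays in a window with the expected probability -/
def StSRW : Prop := ∃ c : ℝ, 0 < c ∧ ∀ (d : ℕ) (a : Fin d → Bool) (L : ℝ), 1 ≤ L →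
  L ^ 2 ≤ d → c * L / Real.sqrt d ≤ avg fun J : Fin d → Bool => ind (|∑ i, sgn (J i) * sgn (a i)| ≤ L)

/-- mean excess of the logarithmic moment of the cavity field, β = 1 -/
def StExc : Prop := AllS fun _ _ A _ _ _ _ _ _ S =>
  ∀ (d : ℕ) (lam : ℝ) (s : Bool), 1000 ≤ d → S.Par d → S.β = 1 → S.D1 d lam →
    (avg fun ω : Fin d → A × Bool => S.P fun g _ =>
        Real.log (Ex (S.nu g) fun σ => Real.exp (2 * (sgn s * hom S.sp ∅ ω σ))))
      ≤ 100 * lam ∧
    (S.P fun g _ => avg fun a => kt (S.nu g) (S.sp a)) ≤ 3 * lam / d ∧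
    (lam - 3) / (7 * d) ≤ S.P fun g _ => avg fun a => kt (S.nu g) (S.sp a)

/-- small susceptibility forces many soft spins, β = 1 -/
def StVT3 : Prop := ∃ c : ℝ, 0 < c ∧ ∀ᶠ d : ℕ in atTop, AllS fun Sg G0 A _ _ _ _ _ _ S =>
  ∀ (lam B L : ℝ) (fl : Sg → Sg) (o : Sg → Bool) (S' : (Fin d → A × Bool) → Sys Sg G0 A),
    S.Par d → S.β = 1 → S.D1 d lam → S.Sym fl o → S.Ins o ∅ B S' → |B| ≤ 1 → 16 ≤ L →
    L ^ 2 ≤ d → lam * Real.sqrt d ≤ c * L ^ 2 →
    c * L / Real.sqrt d - sm 10 d ≤ Fam S' fun ω _ σ => ind (sgn (o σ) * hom S.sp ∅ ω σ ≤ L)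

/-- response of the inserted spin to its field, β = 1 -/
def StVT4 : Prop := AllS fun Sg G0 A _ _ _ _ _ _ S =>
  ∀ (d : ℕ) (B : ℝ) (fl : Sg → Sg) (o : Sg → Bool) (S' : (Fin d → A × Bool) → Sys Sg G0 A),
    1000 ≤ d → S.Par d → S.β = 1 → S.Sym fl o → S.Ins o ∅ B S' → 0 ≤ B → B ≤ 1 →
    B / 10 * (Fam S' fun ω g _ => kt ((S' ω).nu g) o) - sm 10 d ≤ Fam S' fun _ _ σ => sgn (o σ)

end Pool.Agent.MP_32a90a_pr.D

end

section

set_option autoImplicit false

namespace Pool.Agent.MP_32a90a_pr.D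

open Finset Filter Pool.Agent.MP_32a90a_pr Pool.Agent.MP_32a90a_pr.L

namespace AllLJ

variable {Sg G0 A : Type} [Fintype Sg] [Fintype G0] [Fintype A] [DecidableEq A]
  (S : Sys Sg G0 A) {m : ℕ}

/-- the first i positions -/
def KK (m i : ℕ) : Finset (Fin m) := univ.filter fun k => k.val < i

lemma KK_succ (i : Fin m) : KK m (i.val + 1) = insert i (KK m i.val) := by
  ext k
  simp only [KK, mem_filter, mem_univ, true_and, mem_insert, Fin.ext_iff]
  omega

lemma KK_not (i : Fin m) : i ∉ KK m i.val := by simp [KK]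

/-- penalty for leaving the pattern s -/
noncomputable def DD (J : Finset (Fin m)) (u : Fin m → A) (s : Fin m → Bool) (_g : G0) (σ : Sg) :
    ℝ := 2 * ∑ k ∈ J, ind (S.sp (u k) σ ≠ s k)

/-- the weight after the positions of J -/
noncomputable def ph (J : Finset (Fin m)) (u : Fin m → A) (g : Gam G0 A) (σ : Sg) : ℝ :=
  ind (Set.InjOn u J) * oI (J.image u) g *
    (Ex (S.nu g) fun σ' => Real.exp (S.β * DD S J u (fun k => S.sp (u k) σ) g.1 σ')) ^ (S.x - 1)

/-- sum over the gadgets -/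
noncomputable def WW (φ : Gam G0 A → Sg → ℝ) (ξ : G0 × Sg) : ℝ :=
  (∑ ζ, S.cas.wt (ξ.1, ζ) ξ.2 * φ (ξ.1, ζ) ξ.2) / S.N

lemma sum_WW (f : G0 × Sg → ℝ) (φ : Gam G0 A → Sg → ℝ) :
    ∑ ξ, f ξ * WW S φ ξ = S.P fun g σ => f (g.1, σ) * φ g σ := by
  simp only [WW, Cas.P, Cas.E, Fintype.sum_prod_type, ← mul_div_assoc, ← sum_div, mul_sum]
  congr 1
  refine sum_congr rfl fun g _ => sum_comm.trans ?_
  exact sum_congr rfl fun _ _ => sum_congr rfl fun _ _ => by ring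

lemma avg_WW (π : A → ℝ) (φ : A → Gam G0 A → Sg → ℝ) (π' : G0 × Sg → A → ℝ) (ξ : G0 × Sg)
    (h : π' ξ = π) : (avg fun o => π o * WW S (φ o) ξ) =
      WW S (fun g σ => avg fun o => π' (g.1, σ) o * φ o g σ) ξ := by
  simp only [WW, ← mul_div_assoc, avg_div, mul_sum, avg_sum, ← avg_mul, ← h]
  congr 1
  exact sum_congr rfl fun _ _ => avg_congr fun _ => by ring

lemma ph_congr {J : Finset (Fin m)} {u u' : Fin m → A} (h : ∀ k ∈ J, u k = u' k) :
    ph S J u = ph S J u' := by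
  funext g σ
  have e : ∀ σ', DD S J u (fun k => S.sp (u k) σ) g.1 σ' =
      DD S J u' (fun k => S.sp (u' k) σ) g.1 σ' := fun σ' => by
    rw [DD, DD, sum_congr rfl fun k hk => by rw [h k hk]]
  have e' : Set.EqOn u u' J := fun k hk => h k hk
  simp only [ph, e, image_congr e', e'.injOn_iff]

variable [Nonempty Sg]

lemma ph_nonneg (J : Finset (Fin m)) (u : Fin m → A) (g : Gam G0 A) (σ : Sg) : 0 ≤ ph S J u g σ :=
  mul_nonneg (mul_nonneg (ind_nonneg _) (ind_nonneg _))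
    (Real.rpow_nonneg (Ex_nonneg (Cas.nu_prob _).1 fun _ => (Real.exp_pos _).le) _)

lemma ph_empty (u : Fin m → A) (g : Gam G0 A) (σ : Sg) : ph S ∅ u g σ = 1 := by
  simp [ph, DD, oI, ind, (Cas.nu_prob (C := S.cas) g).Ex_const]

omit [Nonempty Sg] in
lemma ph_univ (u : Fin m → A) (g : Gam G0 A) (σ : Sg) :
    ph S univ u g σ = oU u g * S.SN 2 u g σ := by
  simp only [ph, DD, oI, oU, Sys.SN, dn, ← ind_and, mul_assoc]
  congr 1
  exact ind_congr (by simp)

lemma ph_insert {J : Finset (Fin m)} {i : Fin m} (hi : i ∉ J) (u : Fin m → A) (a : A)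
    (g : Gam G0 A) (σ : Sg) : ph S (insert i J) (Function.update u i a) g σ = ph S J u g σ *
      (oA (J.image u) a g * (S.add (DD S J u fun k => S.sp (u k) σ)).Sv 2 a g σ) := by
  have h : ∀ k ∈ J, Function.update u i a k = u k := fun k hk =>
    Function.update_of_ne (ne_of_mem_of_not_mem hk hi) _ _
  have e' : Set.EqOn (Function.update u i a) u J := fun k hk => h k hk
  have e1 : ind (Set.InjOn (Function.update u i a) (insert i J : Finset _)) *
      oI ((insert i J).image (Function.update u i a)) g =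
      ind (Set.InjOn u J) * oI (J.image u) g * oA (J.image u) a g := by
    simp only [oI, oA, ← ind_and]
    refine ind_congr ?_
    rw [coe_insert, Set.injOn_insert (mt mem_coe.1 hi), e'.injOn_iff, e'.image_eq,
      image_insert, image_congr e', Function.update_self, forall_mem_insert, ← coe_image, mem_coe]
    tauto
  have e2 : ∀ σ', Real.exp (S.β * DD S (insert i J) (Function.update u i a)
      (fun k => S.sp (Function.update u i a k) σ) g.1 σ') =
      Real.exp (S.β * DD S J u (fun k => S.sp (u k) σ) g.1 σ') *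
        Real.exp (S.β * 2 * ind (S.sp a σ' ≠ S.sp a σ)) := fun σ' => by
    rw [← Real.exp_add, DD, DD, sum_insert hi, Function.update_self,
      sum_congr rfl fun k hk => by rw [h k hk]]
    congr 1
    ring
  have p1 : 0 < Ex (S.nu g) fun σ' => Real.exp (S.β * DD S J u (fun k => S.sp (u k) σ) g.1 σ') :=
    (Cas.nu_prob g).Ex_pos fun _ => Real.exp_pos _
  have e3 : (S.add (DD S J u fun k => S.sp (u k) σ)).Sv 2 a g σ =
      ((Ex (S.nu g) fun σ' => Real.exp (S.β * DD S J u (fun k => S.sp (u k) σ) g.1 σ') *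
        Real.exp (S.β * 2 * ind (S.sp a σ' ≠ S.sp a σ))) /
        Ex (S.nu g) fun σ' => Real.exp (S.β * DD S J u (fun k => S.sp (u k) σ) g.1 σ')) ^
        (S.x - 1) := by
    rw [Sys.Sv, Sys.nu, Sys.cas_add, Cas.Ex_nu_add]
    rfl
  rw [ph, ph, e1, Ex_congr e2, e3, Real.div_rpow (Ex_nonneg (Cas.nu_prob g).1 fun _ => by
    positivity) p1.le]
  have p2 := (Real.rpow_pos_of_pos p1 (S.x - 1)).ne'
  field_simp

lemma split (J : Finset (Fin m)) (u : Fin m → A) (f : G0 × Sg → ℝ)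
    (φ : (Fin m → Bool) → Gam G0 A → Sg → ℝ) :
    (S.E fun g σ => f (g.1, σ) * (ph S J u g σ * φ (fun k => S.sp (u k) σ) g σ)) =
      ∑ s, S.EI (DD S J u s) (J.image u) (fun g σ => ind (Set.InjOn u J) *
        ind (s = fun k => S.sp (u k) σ) * f (g, σ)) (φ s) := by
  simp only [Sys.EI, Sys.E, Sys.cas_add, Cas.E_add_eq]
  rw [← Cas.E_sum]
  refine Cas.E_congr fun g σ => ?_
  rw [sum_eq_single (fun k => S.sp (u k) σ) (fun s _ hs => by simp [ind_neg hs])
    fun h => absurd (mem_univ _) h, ind_pos rfl]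
  have e : DD S J u (fun k => S.sp (u k) σ) g.1 σ = 0 := by simp [DD, ind]
  rw [e, mul_zero, Real.exp_zero, ph]
  show _ = 1 * (Ex (S.nu g) fun σ' =>
    Real.exp (S.β * DD S J u (fun k => S.sp (u k) σ) g.1 σ')) ^ (S.x - 1) * _
  ring

variable [Nonempty G0]

lemma stepL (hSv : StSv) {d : ℕ} {lam F : ℝ} (hd : 1000 ≤ d) (hP : S.Par d) (hD : S.D1 d lam)
    (hm : m ≤ d) (J : Finset (Fin m)) (u : Fin m → A) (f : G0 × Sg → ℝ) (π : G0 × Sg → A → ℝ)
    (hf : ∀ ξ, 0 ≤ f ξ ∧ f ξ ≤ F) (hπ : ∀ ξ o, π ξ o ≤ 4) (h1 : ∀ ξ, avg (π ξ) = 1) :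
    (1 - 4 * lam / d) * (S.P fun g σ => f (g.1, σ) * ph S J u g σ) - 4 * 2 ^ m * sm 200 d * F ≤
      S.P fun g σ => f (g.1, σ) * (ph S J u g σ * avg fun a => π (g.1, σ) a *
        (oA (J.image u) a g * (S.add (DD S J u fun k => S.sp (u k) σ)).Sv 2 a g σ)) := by
  have hA := hP.nonempty
  have hN := Cas.N_pos (hP.ok (by omega))
  have hJ : J.card ≤ d := (card_le_univ J).trans (by simpa using hm)
  have e1 := split S J u f fun _ _ _ => 1
  have e2 := split S J u f fun s g σ => avg fun a => π (g.1, σ) a *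
    (oA (J.image u) a g * (S.add (DD S J u s)).Sv 2 a g σ)
  simp only [mul_one] at e1
  have key : ∀ s, (1 - 4 * lam / d) * (S.EI (DD S J u s) (J.image u)
      (fun g σ => ind (Set.InjOn u J) * ind (s = fun k => S.sp (u k) σ) * f (g, σ))
        fun _ _ => 1) - 4 * (sm 200 d * F * S.N) ≤ S.EI (DD S J u s) (J.image u)
      (fun g σ => ind (Set.InjOn u J) * ind (s = fun k => S.sp (u k) σ) * f (g, σ))
        fun g σ => avg fun a => π (g.1, σ) a *
          (oA (J.image u) a g * (S.add (DD S J u s)).Sv 2 a g σ) := fun s => by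
    obtain ⟨f', hf'⟩ : ∃ f' : G0 → Sg → ℝ, f' = fun g σ =>
      ind (Set.InjOn u J) * ind (s = fun k => S.sp (u k) σ) * f (g, σ) := ⟨_, rfl⟩
    have a0 : ∀ g σ, 0 ≤ f' g σ := fun g σ =>
      hf' ▸ mul_nonneg (mul_nonneg (ind_nonneg _) (ind_nonneg _)) (hf _).1
    have a1 : ∀ g σ, f' g σ ≤ F := fun g σ => hf' ▸ (mul_le_of_le_one_left (hf _).1
      (mul_le_one₀ (ind_le_one _) (ind_nonneg _) (ind_le_one _))).trans (hf _).2
    have a2 : ∀ g σ, |DD S J u s g σ| ≤ 3 * d := fun g σ => by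
      have b1 : 0 ≤ ∑ k ∈ J, ind (S.sp (u k) σ ≠ s k) := sum_nonneg fun _ _ => ind_nonneg _
      have b2 := sum_le_card_nsmul J (fun k => ind (S.sp (u k) σ ≠ s k)) 1 fun _ _ => ind_le_one _
      have b3 : (J.card : ℝ) ≤ d := by exact_mod_cast hJ
      rw [nsmul_one] at b2
      rw [DD, abs_of_nonneg (by linarith)]
      linarith
    rw [← hf']
    have a3 := (hD.2.2 (DD S J u s) (J.image u) f' F
      ⟨a2, card_image_le.trans (by omega), a0, a1⟩).1
    have a4 : (S.EI (DD S J u s) (J.image u) f' fun _ _ => 1) - 4 * (S.EI (DD S J u s) (J.image u)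
        f' fun g σ => avg fun a => 1 - oA (J.image u) a g * (S.add (DD S J u s)).Sv 2 a g σ) ≤
        S.EI (DD S J u s) (J.image u) f' fun g σ => avg fun a => π (g.1, σ) a *
          (oA (J.image u) a g * (S.add (DD S J u s)).Sv 2 a g σ) := by
      unfold Sys.EI
      rw [← Cas.E_mul, ← Cas.E_sub]
      refine Cas.E_mono ((hP.add _).ok (by omega)) fun g σ => ?_
      rw [mul_left_comm, ← mul_sub]
      refine mul_le_mul_of_nonneg_left ?_ (mul_nonneg (ind_nonneg _) (a0 _ _))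
      rw [← avg_mul]
      refine (congrArg (· - _) (h1 (g.1, σ)).symm).trans_le ?_
      rw [← avg_sub]
      refine avg_mono fun a => ?_
      obtain ⟨b1, b2, b3, -⟩ := hSv Sg G0 A (S.add (DD S J u s)) d (by omega) (hP.add _) a g σ
      have b4 : oA (J.image u) a g * (S.add (DD S J u s)).Sv 2 a g σ ≤ 1 :=
        mul_le_one₀ (ind_le_one _) (b1 2).le ((b2 0 2 zero_le_two).trans_eq b3)
      linarith [mul_le_mul_of_nonneg_right (hπ (g.1, σ) a) (sub_nonneg.2 b4)]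
    rw [mul_div_assoc]
    linarith
  have h2 := sum_le_sum fun s (_ : s ∈ univ) => key s
  rw [sum_sub_distrib, ← mul_sum, ← e1, ← e2, sum_const, card_univ, Fintype.card_fun,
    Fintype.card_bool, Fintype.card_fin, nsmul_eq_mul, Nat.cast_pow, Nat.cast_ofNat, Sys.E, Sys.E,
    Cas.E_eq_P_mul (hP.ok (by omega)), Cas.E_eq_P_mul (hP.ok (by omega))] at h2
  refine le_of_mul_le_mul_right ?_ hN
  linarith

end AllLJ

open AllLJ in
theorem stAllL (hSeqL : StSeqL) (hSv : StSv) : StAllL := by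
  intro Sg G0 A _ _ _ _ _ _ S d m lam F T hd hP hD hm hl hT hT4
  have hA := hP.nonempty
  have hok := hP.ok (by omega)
  have hd' : (1000 : ℝ) ≤ d := by exact_mod_cast hd
  have hm' : (m : ℝ) ≤ d := by exact_mod_cast hm
  have hF : 0 ≤ F :=
    (hT (Classical.arbitrary _) (Classical.arbitrary _) (Classical.arbitrary _)).1.trans
      (hT _ _ _).2
  obtain ⟨v, hv⟩ : ∃ v : ℝ, v = 4 * lam / d := ⟨_, rfl⟩
  have v0 : 0 ≤ v := hv ▸ div_nonneg (by linarith [hD.1]) (by linarith)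
  have v1 : v ≤ 1 / 2 := by
    rw [hv, div_le_iff₀ (by linarith)]
    linarith
  have hs := (sm_pos 200 d).le
  have h := hSeqL A (G0 × Sg) m (fun i u => WW S (ph S (KK m i) u)) (fun ξ u => T u ξ.1 ξ.2)
    (1 - v) 4 (4 * 2 ^ m * sm 200 d) F (by norm_num) (by positivity) hF (by linarith)
    (by linarith)
    (fun i u ξ => div_nonneg (sum_nonneg fun _ _ =>
      mul_nonneg (Cas.wt_nonneg hok _ _) (ph_nonneg S _ _ _ _)) (Cas.N_pos hok).le)
    (fun i u u' e => by rw [ph_congr S (J := KK m i) fun k hk => e k (mem_filter.1 hk).2])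
    (fun i u f π hf hπ h1 => by
      simp only [KK_succ, fun ξ => avg_WW S (π ξ)
        (fun o => ph S (insert i (KK m i)) (Function.update u i o)) π ξ rfl, sum_WW]
      rw [hv]
      refine (stepL S hSv hd hP hD hm (KK m i) u f π hf (fun ξ o => (hπ ξ o).2) h1).trans_eq
        (Cas.P_congr fun g σ => ?_)
      rw [← avg_mul]
      exact congrArg _ (avg_congr fun a => by rw [ph_insert S (KK_not i)]; ring))
    (fun ξ u => hT u ξ.1 ξ.2) fun ξ u i o => hT4 u i o ξ.1 ξ.2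
  have k0 : KK m 0 = ∅ := by simp [KK]
  have k1 : KK m m = univ := by simp [KK]
  simp only [sum_WW, k0, k1, ph_empty, ph_univ, mul_one, ← mul_assoc] at h
  refine le_trans (sub_le_sub (mul_le_mul_of_nonneg_right ?_
    (avg_nonneg fun u => Cas.P_nonneg hok fun g σ => (hT _ _ _).1))
    (mul_le_mul_of_nonneg_right ?_ hF)) h
  · have a1 : Real.exp (-(2 * v)) ≤ 1 - v := by
      rw [Real.exp_neg, inv_le_iff_one_le_mul₀ (Real.exp_pos _)]
      nlinarith [Real.add_one_le_exp (2 * v)]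
    have a2 : -(8 * lam) = d * -(2 * v) := by
      rw [hv]
      field_simp
      ring
    rw [a2, Real.exp_nat_mul]
    exact (pow_le_pow_left₀ (Real.exp_pos _).le a1 d).trans
      (pow_le_pow_of_le_one (by linarith) (by linarith) hm)
  · have a1 : (d : ℝ) ≤ Real.exp d := by linarith [Real.add_one_le_exp (d : ℝ)]
    have a2 : (2 : ℝ) ^ m ≤ Real.exp d := by
      rw [← mul_one (d : ℝ), Real.exp_nat_mul]
      exact (pow_le_pow_right₀ one_le_two hm).trans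
        (pow_le_pow_left₀ zero_le_two (by linarith [Real.add_one_le_exp 1]) d)
    have a3 : (m : ℝ) * 4 * 2 ^ m ≤ Real.exp (10 * d) := by
      calc _ ≤ Real.exp d * Real.exp d * Real.exp d := by gcongr <;> linarith
        _ ≤ _ := by
          rw [← Real.exp_add, ← Real.exp_add]
          exact Real.exp_le_exp.2 (by linarith)
    have a4 := exp_mul_sm (c := 10) (by norm_num) 190 (d := d) (by omega)
    rw [show (190 : ℝ) + 10 = 200 by norm_num] at a4
    exact (mul_le_mul_of_nonneg_right a3 hs).trans a4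

end Pool.Agent.MP_32a90a_pr.D

end

section

set_option autoImplicit false

namespace Pool.Agent.MP_32a90a_pr.D

open Finset Filter Pool.Agent.MP_32a90a_pr Pool.Agent.MP_32a90a_pr.L

namespace DomJ

section
variable {A : Type} [Fintype A] [DecidableEq A]

lemma one_pos' (W G : (A → Option Bool) → ℝ) (r : ℝ) (a : A) (b : Bool) (hW : ∀ ζ, 0 ≤ W ζ)
    (hG : ∀ ζ, 0 ≤ G ζ) (hr : 0 ≤ r) (hGa : ∀ ζ o, G (Function.update ζ a o) = G ζ)
    (h : ∀ ζ, W (Function.update ζ a (some b)) ≤ r * W (Function.update ζ a none)) :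
    ∑ ζ, W ζ * (ind (ζ a = some b) * G ζ) ≤ r * ∑ ζ, W ζ * G ζ := by
  have hi : Function.Involutive fun ζ : A → Option Bool =>
      Function.update ζ a (Equiv.swap none (some b) (ζ a)) := by
    intro ζ; simp
  rw [← Equiv.sum_comp hi.toPerm fun ζ => W ζ * G ζ, mul_sum]
  refine sum_le_sum fun ζ _ => ?_
  simp only [Function.Involutive.coe_toPerm, hGa]
  by_cases hz : ζ a = some b
  · have h1 := h ζ
    rw [← hz, Function.update_eq_self] at h1
    rw [ind_pos hz, one_mul, hz, Equiv.swap_apply_right, ← mul_assoc]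
    exact mul_le_mul_of_nonneg_right h1 (hG ζ)
  · rw [ind_neg hz, zero_mul, mul_zero]
    exact mul_nonneg hr (mul_nonneg (hW _) (hG _))

lemma prod_bd (W : (A → Option Bool) → ℝ) (r u : ℝ) (s : A → Bool) (hW : ∀ ζ, 0 ≤ W ζ)
    (hr : 0 ≤ r) (hu : 0 ≤ u)
    (h : ∀ a b ζ, W (Function.update ζ a (some b)) ≤ r * W (Function.update ζ a none))
    (T : Finset A) :
    ∑ ζ, W ζ * ∏ a ∈ T, (1 + u * ind (ζ a = some (s a))) ≤ (1 + u * r) ^ T.card * ∑ ζ, W ζ := by
  induction T using Finset.induction_on with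
  | empty => simp
  | insert a T ha ih =>
    have hG : ∀ ζ : A → Option Bool, 0 ≤ ∏ a ∈ T, (1 + u * ind (ζ a = some (s a))) :=
      fun ζ => prod_nonneg fun a _ => add_nonneg zero_le_one (mul_nonneg hu (ind_nonneg _))
    have h1 := one_pos' W (fun ζ => ∏ a ∈ T, (1 + u * ind (ζ a = some (s a)))) r a (s a) hW hG hr
      (fun ζ o => prod_congr rfl fun a' ha' => by
        rw [Function.update_of_ne (ne_of_mem_of_not_mem ha' ha)]) (h a (s a))
    have e : ∑ ζ, W ζ * ∏ a ∈ insert a T, (1 + u * ind (ζ a = some (s a)))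
        = ∑ ζ, W ζ * ∏ a ∈ T, (1 + u * ind (ζ a = some (s a)))
          + u * ∑ ζ, W ζ * (ind (ζ a = some (s a))
            * ∏ a ∈ T, (1 + u * ind (ζ a = some (s a)))) := by
      rw [mul_sum, ← sum_add_distrib]
      exact sum_congr rfl fun ζ _ => by rw [prod_insert ha]; ring
    rw [e, card_insert_of_notMem ha, pow_succ', mul_assoc]
    have h2 := mul_le_mul_of_nonneg_left h1 hu
    have h3 := mul_le_mul_of_nonneg_left ih (add_nonneg zero_le_one (mul_nonneg hu hr))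
    linarith

omit [DecidableEq A] in
lemma markov (u k : ℝ) (hu : 0 ≤ u) (c : A → Prop) :
    ind (k ≤ ∑ a, ind (c a)) ≤ Real.exp (-(k * Real.log (1 + u))) * ∏ a, (1 + u * ind (c a)) := by
  have e : ∀ a, 1 + u * ind (c a) = Real.exp (ind (c a) * Real.log (1 + u)) := by
    intro a
    rcases ind_cases (c a) with h | h <;> rw [h]
    · simp
    · rw [one_mul, Real.exp_log (by linarith), mul_one]
  simp only [e]
  rw [← Real.exp_sum, ← sum_mul, ← Real.exp_add]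
  by_cases h : k ≤ ∑ a, ind (c a)
  · rw [ind_pos h]
    refine Real.one_le_exp ?_
    have := mul_le_mul_of_nonneg_right h (Real.log_nonneg (by linarith : 1 ≤ 1 + u))
    linarith
  · rw [ind_neg h]; exact (Real.exp_pos _).le

lemma tail (W : (A → Option Bool) → ℝ) (r u : ℝ) (s : A → Bool) (hW : ∀ ζ, 0 ≤ W ζ)
    (hr : 0 ≤ r) (hu : 0 ≤ u) (hu1 : u ≤ 1)
    (h : ∀ a b ζ, W (Function.update ζ a (some b)) ≤ r * W (Function.update ζ a none)) :
    ∑ ζ, W ζ * ind ((1 + u) * (r * Fintype.card A) ≤ ∑ a, ind (ζ a = some (s a)))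
      ≤ Real.exp (-(u ^ 2 * (r * Fintype.card A) / 4)) * ∑ ζ, W ζ := by
  have h1 := prod_bd W r u s hW hr hu h univ
  have h2 : (1 + u * r) ^ (univ : Finset A).card ≤ Real.exp (u * (r * Fintype.card A)) := by
    rw [card_univ, ← mul_assoc, mul_comm (u * r), Real.exp_nat_mul]
    exact pow_le_pow_left₀ (by positivity) (by linarith [Real.add_one_le_exp (u * r)]) _
  have h3 : u ^ 2 / 4 ≤ (1 + u) * Real.log (1 + u) - u := by
    have h4 := Real.le_log_one_add_of_nonneg hu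
    rw [div_le_iff₀ (by linarith)] at h4
    have h5 : 0 ≤ Real.log (1 + u) := Real.log_nonneg (by linarith)
    have h6 := mul_le_mul_of_nonneg_left h4 (by linarith : 0 ≤ 1 + u)
    have h7 : (u ^ 2 / 4 + u) * (u + 2) ≤ (1 + u) * Real.log (1 + u) * (u + 2) := by
      nlinarith [mul_nonneg (sq_nonneg u) (sub_nonneg.2 hu1)]
    have := le_of_mul_le_mul_right h7 (by linarith)
    linarith
  have hk : 0 ≤ r * Fintype.card A := by positivity
  calc _ ≤ ∑ ζ, W ζ * (Real.exp (-((1 + u) * (r * Fintype.card A) * Real.log (1 + u)))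
          * ∏ a, (1 + u * ind (ζ a = some (s a)))) :=
        sum_le_sum fun ζ _ => mul_le_mul_of_nonneg_left (markov u _ hu _) (hW ζ)
    _ = Real.exp (-((1 + u) * (r * Fintype.card A) * Real.log (1 + u)))
          * ∑ ζ, W ζ * ∏ a, (1 + u * ind (ζ a = some (s a))) := by
        rw [mul_sum]; exact sum_congr rfl fun ζ _ => by ring
    _ ≤ Real.exp (-((1 + u) * (r * Fintype.card A) * Real.log (1 + u)))
          * (Real.exp (u * (r * Fintype.card A)) * ∑ ζ, W ζ) :=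
        mul_le_mul_of_nonneg_left (h1.trans (mul_le_mul_of_nonneg_right h2
          (sum_nonneg fun ζ _ => hW ζ))) (Real.exp_pos _).le
    _ ≤ _ := by
        rw [← mul_assoc, ← Real.exp_add]
        refine mul_le_mul_of_nonneg_right (Real.exp_le_exp.2 ?_) (sum_nonneg fun ζ _ => hW ζ)
        nlinarith [mul_le_mul_of_nonneg_left h3 hk]

end

variable {Sg G0 A : Type} [Fintype Sg] [Nonempty Sg] [Fintype G0] [Nonempty G0] [Fintype A]
  [DecidableEq A] (S : Sys Sg G0 A)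

/-- weight of a child -/
noncomputable def Wt (g : Gam G0 A) : ℝ := S.cas.p g * Zf S.β (S.cas.H g) ^ S.x

omit [Nonempty G0] in
lemma E_child (f : Gam G0 A → ℝ) :
    (S.E fun g _ => f g) = ∑ g0, ∑ ζ, Wt S (g0, ζ) * f (g0, ζ) := by
  rw [Sys.E, Cas.E_eq, Fintype.sum_prod_type]
  refine sum_congr rfl fun g0 _ => sum_congr rfl fun ζ _ => ?_
  rw [(Cas.nu_prob _).Ex_const]; rfl

lemma ratio {d : ℕ} (hd : 3 ≤ d) (hP : S.Par d) (g0 : G0) (a : A) (b : Bool)
    (ζ : A → Option Bool) :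
    Wt S (g0, Function.update ζ a (some b))
      ≤ Real.exp (S.y * S.tp) * S.rs * Wt S (g0, Function.update ζ a none) := by
  have hρ := hP.rho_lt hd
  have hβ : 0 ≤ S.β := zero_le_one.trans hP.1
  have ep : ∀ o, S.cas.p (g0, Function.update ζ a o)
      = bb S.ρ o * ((∏ a' ∈ univ.erase a, bb S.ρ (ζ a')) / Fintype.card G0) := by
    intro o
    show (∏ a', bb S.ρ (Function.update ζ a o a')) / _ = _
    rw [← mul_prod_erase univ _ (mem_univ a), Function.update_self, mul_div_assoc]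
    congr 2
    exact prod_congr rfl fun a' ha' => by rw [Function.update_of_ne (ne_of_mem_erase ha')]
  have eH : ∀ o σ, S.cas.H (g0, Function.update ζ a o) σ = gad S.tp S.tm o (S.sp a σ)
      + (S.H0 g0 σ + ∑ a' ∈ univ.erase a, gad S.tp S.tm (ζ a') (S.sp a' σ)) := by
    intro o σ
    show S.H0 g0 σ + ∑ a', gad S.tp S.tm (Function.update ζ a o a') (S.sp a' σ) = _
    rw [← add_sum_erase univ _ (mem_univ a), Function.update_self, add_left_comm]
    congr 2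
    exact sum_congr rfl fun a' ha' => by rw [Function.update_of_ne (ne_of_mem_erase ha')]
  have hp : S.cas.p (g0, Function.update ζ a (some b))
      = S.rs * S.cas.p (g0, Function.update ζ a none) := by
    have : 1 - S.ρ ≠ 0 := by linarith
    rw [ep, ep, ← mul_assoc]
    congr 1
    simp only [bb, Sys.rs]
    field_simp
  have hZ : Zf S.β (S.cas.H (g0, Function.update ζ a (some b)))
      ≤ Real.exp (S.β * S.tp) * Zf S.β (S.cas.H (g0, Function.update ζ a none)) := by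
    rw [Zf, Zf, mul_sum]
    refine sum_le_sum fun σ _ => ?_
    rw [← Real.exp_add, ← mul_add, eH, eH]
    refine Real.exp_le_exp.2 (mul_le_mul_of_nonneg_left ?_ hβ)
    have h1 := hP.2.2.2.2.2.2.1
    have h2 := hP.2.2.2.2.2.2.2.1
    simp only [gad]
    split_ifs <;> linarith
  have hZ' := Real.rpow_le_rpow (Zf_pos _ _).le hZ hP.2.1.le
  rw [Real.mul_rpow (Real.exp_pos _).le (Zf_pos _ _).le, ← Real.exp_mul,
    show S.β * S.tp * S.x = S.y * S.tp by rw [Sys.y]; ring] at hZ'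
  have h0 := (hP.ok hd).2.2.2.1 (g0, Function.update ζ a (some b))
  have := mul_le_mul_of_nonneg_left hZ' h0
  rw [Wt, Wt]
  refine this.trans_eq ?_
  rw [hp]; ring

end DomJ

open DomJ in
theorem stDom : StDom := by
  intro Sg G0 A _ _ _ _ _ _ S d φ s δ hd hP hφ h0 h1
  have hd3 : 3 ≤ d := by omega
  have hρ := hP.rho_lt hd3
  have hrs : 0 ≤ S.rs := div_nonneg hP.2.2.2.2.1.le (by linarith)
  have hy : 1 ≤ Real.exp (S.y * S.tp) := Real.one_le_exp
    (mul_nonneg (mul_nonneg (zero_le_one.trans hP.1) hP.2.1.le)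
      (zero_le_one.trans hP.2.2.2.2.2.2.1))
  have hW : ∀ g, 0 ≤ Wt S g := fun g =>
    mul_nonneg ((hP.ok hd3).2.2.2.1 g) (Real.rpow_nonneg (Zf_pos _ _).le _)
  rw [E_child S fun g => φ g.1 * ind ((1 + δ) * Real.exp (S.y * S.tp) * (S.rs * Fintype.card A)
        ≤ ∑ a, ind (g.2 a = some (s g.1 a))), E_child S fun g => φ g.1, mul_sum]
  refine sum_le_sum fun g0 _ => ?_
  have t := tail (fun ζ => Wt S (g0, ζ)) (Real.exp (S.y * S.tp) * S.rs) δ (s g0)
    (fun ζ => hW _) (by positivity) h0.le h1 (ratio S hd3 hP g0)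
  have hk : Real.exp (-(δ ^ 2 * (Real.exp (S.y * S.tp) * S.rs * Fintype.card A) / 4))
      ≤ Real.exp (-(δ ^ 2 * (S.rs * Fintype.card A) / 4)) := by
    refine Real.exp_le_exp.2 ?_
    have : 0 ≤ δ ^ 2 * (S.rs * Fintype.card A) := by positivity
    nlinarith
  have t2 := mul_le_mul_of_nonneg_left (t.trans (mul_le_mul_of_nonneg_right hk
    (sum_nonneg fun ζ _ => hW _))) (hφ g0)
  refine le_trans (le_of_eq ?_) (t2.trans (le_of_eq ?_))
  · rw [mul_sum]
    refine sum_congr rfl fun ζ _ => ?_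
    rw [mul_left_comm, mul_assoc (1 + δ), mul_assoc (Real.exp (S.y * S.tp))]
  · rw [mul_left_comm, mul_sum]
    congr 1
    exact sum_congr rfl fun ζ _ => mul_comm _ _

end Pool.Agent.MP_32a90a_pr.D

end

section

set_option autoImplicit false

namespace Pool.Agent.MP_32a90a_pr.D

open Finset Filter Pool.Agent.MP_32a90a_pr Pool.Agent.MP_32a90a_pr.L

namespace Dom2J

lemma split (z : Option Bool) (p s : Bool) :
    ind (z = some s) = ind (p ≠ s) * ind (z = some (!p)) + ind (p = s) * ind (z = some p) := by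
  cases p <;> cases s <;> simp [ind]

lemma count_le {A : Type} [Fintype A] (P : A → Prop) (t : ℝ) (ht : 0 ≤ t) :
    ∑ a, ind (P a) ≤ t + Fintype.card A * ind (t ≤ ∑ a, ind (P a)) := by
  by_cases h : t ≤ ∑ a, ind (P a)
  · rw [ind_pos h, mul_one]
    have : ∑ a, ind (P a) ≤ ∑ _a : A, (1 : ℝ) := sum_le_sum fun a _ => ind_le_one _
    simp only [sum_const, card_univ, nsmul_eq_mul, mul_one] at this
    linarith
  · rw [ind_neg h, mul_zero, add_zero]
    exact (not_le.1 h).le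

variable {Sg G0 A : Type} [Fintype Sg] [Nonempty Sg] [Fintype G0] [Nonempty G0] [Fintype A]
  [DecidableEq A]

/-- the two Mecke identities added -/
lemma mecke (hMecke : StMecke) (T : Sys Sg G0 A) (hρ : T.ρ < 1) (hA : Nonempty A)
    (I : Finset A) (f : G0 → Sg → ℝ) (s : G0 → A → Bool) :
    (T.E fun g σ => oI I g * f g.1 σ * ∑ a, ind (g.2 a = some (s g.1 a)))
      = T.rs * Real.exp (T.y * T.tp) * Fintype.card A *
        T.E fun g σ => oI I g * f g.1 σ * avg fun a => oA I a g *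
          (ind (T.sp a σ = s g.1 a) * T.Sv (-(T.tp + T.tm)) a g σ
            + Real.exp (-(T.y * (T.tp + T.tm))) * ind (T.sp a σ ≠ s g.1 a)
              * T.Sv (T.tp + T.tm) a g σ) := by
  have h1 := (hMecke Sg G0 A T I (fun a g σ => f g σ * ind (T.sp a σ ≠ s g a)) hρ).1
  have h2 := (hMecke Sg G0 A T I (fun a g σ => f g σ * ind (T.sp a σ = s g a)) hρ).2
  have hn : (0 : ℝ) < Fintype.card A := by exact_mod_cast Fintype.card_pos
  have e1 : (T.E fun g σ => oI I g * f g.1 σ * ∑ a, ind (g.2 a = some (s g.1 a)))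
      = (T.E fun g σ => oI I g * ∑ a, f g.1 σ * ind (T.sp a σ ≠ s g.1 a)
          * ind (g.2 a = some (!T.sp a σ)))
        + (T.E fun g σ => oI I g * ∑ a, f g.1 σ * ind (T.sp a σ = s g.1 a)
          * ind (g.2 a = some (T.sp a σ))) := by
    rw [← Cas.E_add]
    refine Cas.E_congr fun g σ => ?_
    rw [← mul_add, ← sum_add_distrib, mul_assoc, mul_sum]
    congr 1
    refine sum_congr rfl fun a _ => ?_
    rw [split (g.2 a) (T.sp a σ) (s g.1 a)]
    ring
  have hx : Real.exp (-(T.y * T.tm))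
      = Real.exp (T.y * T.tp) * Real.exp (-(T.y * (T.tp + T.tm))) := by
    rw [← Real.exp_add]; congr 1; ring
  rw [e1, h1, h2, ← Cas.E_sum, ← Cas.E_sum, ← Cas.E_mul, ← Cas.E_mul, ← Cas.E_mul, ← Cas.E_add]
  refine Cas.E_congr fun g σ => ?_
  rw [hx, avg, mul_sum, mul_sum, ← sum_add_distrib]
  rw [show ∀ X : ℝ, T.rs * Real.exp (T.y * T.tp) * Fintype.card A
      * (oI I g * f g.1 σ * (X / Fintype.card A))
      = T.rs * Real.exp (T.y * T.tp) * (oI I g * f g.1 σ) * X from fun X => by field_simp]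
  rw [mul_sum]
  exact sum_congr rfl fun a _ => by ring

end Dom2J

theorem stDom2 (hMecke : StMecke) (hDom : StDom) (hBd : StBd) : StDom2 := by
  intro Sg G0 A _ _ _ _ _ _ S d dK hd hP hK0 hK1 hexp D I f F s hAdm
  obtain ⟨hD, -, hf0, hfF⟩ := hAdm
  have hd3 : 3 ≤ d := by omega
  have hdR : (1000 : ℝ) ≤ d := by exact_mod_cast hd
  have hok := hP.ok hd3
  have hokT := (hP.add D).ok hd3
  have hρ1 := hP.rho_lt hd3
  have hA := hP.nonempty
  obtain ⟨hβ, hx0, hy, -, hρ0, -, htp, -⟩ := id hP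
  have hn : (0 : ℝ) < Fintype.card A := by exact_mod_cast Fintype.card_pos
  have hF : 0 ≤ F := (hf0 (Classical.arbitrary G0) (Classical.arbitrary Sg)).trans (hfF _ _)
  have hy0 : 0 < S.y := mul_pos (by linarith) hx0
  have hrs : S.ρ / 2 ≤ S.rs := by
    unfold Sys.rs
    exact div_le_div_of_nonneg_left hρ0.le (by linarith) (by linarith)
  have hrs0 : 0 < S.rs := lt_of_lt_of_le (by linarith) hrs
  have he : 1 ≤ Real.exp (S.y * S.tp) := Real.one_le_exp (mul_nonneg hy0.le (by linarith))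
  have hM := Dom2J.mecke hMecke (S.add D) hρ1 hA I f s
  have hDm := hDom Sg G0 A (S.add D) d (fun _ => 1) s dK hd (hP.add D) (fun _ => zero_le_one) hK0
    (hK1.trans (sm_le_one (by norm_num) d))
  have hN : (S.add D).N ≤ Real.exp (S.y * (3 * d)) * S.N := by
    have := ((hBd Sg (Gam G0 A) S.cas (fun g σ => D g.1 σ) (3 * d) hok
      (fun g σ _ => hD g.1 σ)).2.1 (fun _ => 1) (fun _ => zero_le_one)).1
    rw [← Sys.cas_add] at this
    exact this
  have hN0 : 0 < S.N := Cas.N_pos hok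
  set X := S.EI D I f fun g σ => avg fun a => oA I a g *
          (ind (S.sp a σ = s g.1 a) * (S.add D).Sv (-(S.tp + S.tm)) a g σ
            + Real.exp (-(S.y * (S.tp + S.tm))) * ind (S.sp a σ ≠ s g.1 a)
              * (S.add D).Sv (S.tp + S.tm) a g σ) with hX
  set Y := S.EI D I f fun _ _ => 1 with hY
  set e := Real.exp (S.y * S.tp) with he'
  set n : ℝ := (Fintype.card A : ℝ) with hn'
  set q := Real.exp (-(dK ^ 2 * (S.rs * n) / 4)) with hq
  have hY0 : 0 ≤ Y := Cas.E_nonneg hokT fun g σ =>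
    mul_nonneg (mul_nonneg (ind_nonneg _) (hf0 _ _)) zero_le_one
  have hM' : ((S.add D).E fun g σ => oI I g * f g.1 σ * ∑ a, ind (g.2 a = some (s g.1 a)))
      = S.rs * e * n * X := hM
  have hDm' : ((S.add D).E fun g _ => (1 : ℝ) * ind ((1 + dK) * e * (S.rs * n)
        ≤ ∑ a, ind (g.2 a = some (s g.1 a)))) ≤ q * (S.add D).N := hDm
  have ht0 : 0 ≤ (1 + dK) * e * (S.rs * n) := by positivity
  have hup : ((S.add D).E fun g σ => oI I g * f g.1 σ * ∑ a, ind (g.2 a = some (s g.1 a)))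
      ≤ (1 + dK) * e * (S.rs * n) * Y + n * F * ((S.add D).E fun g _ => (1 : ℝ) *
        ind ((1 + dK) * e * (S.rs * n) ≤ ∑ a, ind (g.2 a = some (s g.1 a)))) := by
    rw [hY, Sys.EI, ← Cas.E_mul, ← Cas.E_mul, ← Cas.E_add]
    refine Cas.E_mono hokT fun g σ => ?_
    have h1 := Dom2J.count_le (fun a => g.2 a = some (s g.1 a)) _ ht0
    have h2 : 0 ≤ oI I g * f g.1 σ := mul_nonneg (ind_nonneg _) (hf0 _ _)
    have h3 : oI I g * f g.1 σ ≤ F :=
      (mul_le_of_le_one_left (hf0 _ _) (ind_le_one _)).trans (hfF _ _)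
    have h4 := ind_nonneg ((1 + dK) * e * (S.rs * n) ≤ ∑ a, ind (g.2 a = some (s g.1 a)))
    have h5 := mul_le_mul_of_nonneg_left h1 h2
    have h6 := mul_le_mul_of_nonneg_right h3 (mul_nonneg hn.le h4)
    rw [← hn'] at h5
    nlinarith
  -- the tail term
  have hq1 : q * Real.exp (S.y * (3 * d)) ≤ S.rs * sm 290 d := by
    have a1 : sm (7 * S.β + 300) d ≤ sm (291 + 1) d := sm_anti (by linarith) d
    have a2 : Real.exp (S.y * (3 * d)) ≤ Real.exp (1 * d) :=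
      Real.exp_le_exp.2 (by nlinarith)
    have a3 := exp_mul_sm (c := 1) zero_le_one 291 hd3
    have a4 : 2 * sm (290 + 1) d ≤ sm 290 d := mul_sm_le 290 hd3 (by linarith)
    rw [show (290 : ℝ) + 1 = 291 by norm_num] at a4
    have a5 : q ≤ S.ρ * sm (291 + 1) d := hexp.trans (mul_le_mul_of_nonneg_left a1 hρ0.le)
    have a6 := sm_pos (291 + 1) d
    have a7 := sm_pos 290 d
    calc q * Real.exp (S.y * (3 * d)) ≤ S.ρ * sm (291 + 1) d * Real.exp (1 * d) :=
          mul_le_mul a5 a2 (Real.exp_pos _).le (by positivity)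
      _ = S.ρ * (Real.exp (1 * d) * sm (291 + 1) d) := by ring
      _ ≤ S.ρ * (sm 290 d / 2) :=
          mul_le_mul_of_nonneg_left (a3.trans (by linarith only [a4])) hρ0.le
      _ = S.ρ / 2 * sm 290 d := by ring
      _ ≤ S.rs * sm 290 d := mul_le_mul_of_nonneg_right hrs a7.le
  have hq0 : 0 < q := Real.exp_pos _
  have s0 := sm_pos 290 d
  have hK2 : dK ≤ sm 290 d := hK1.trans (sm_anti (by norm_num) d)
  have htail : q * (S.add D).N ≤ S.rs * e * (sm 290 d * S.N) := by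
    calc q * (S.add D).N ≤ q * (Real.exp (S.y * (3 * d)) * S.N) :=
          mul_le_mul_of_nonneg_left hN hq0.le
      _ = q * Real.exp (S.y * (3 * d)) * S.N := by ring
      _ ≤ S.rs * sm 290 d * S.N := mul_le_mul_of_nonneg_right hq1 hN0.le
      _ = S.rs * 1 * (sm 290 d * S.N) := by ring
      _ ≤ S.rs * e * (sm 290 d * S.N) :=
          mul_le_mul_of_nonneg_right (mul_le_mul_of_nonneg_left he hrs0.le) (by positivity)
  have hpos : 0 < S.rs * e * n := by positivity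
  refine le_of_mul_le_mul_left ?_ hpos
  have b1 := mul_le_mul_of_nonneg_left (hDm'.trans htail) (mul_nonneg hn.le hF)
  have b2 : S.rs * e * n * (dK * Y) ≤ S.rs * e * n * (sm 290 d * Y) :=
    mul_le_mul_of_nonneg_left (mul_le_mul_of_nonneg_right hK2 hY0) hpos.le
  rw [hM'] at hup
  nlinarith

end Pool.Agent.MP_32a90a_pr.D

end

section

set_option autoImplicit false

namespace Pool.Agent.MP_32a90a_pr.D

open Finset Filter Pool.Agent.MP_32a90a_pr Pool.Agent.MP_32a90a_pr.L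

namespace FewJ

variable {Sg : Type} [Fintype Sg]

/-- a law that is a mixture of two tilted laws -/
structure Mix (β : ℝ) (νp : Sg → ℝ) (νs : Bool → Sg → ℝ) (Ψ : Bool → ℝ) (o : Sg → Bool)
    (h : Sg → ℝ) (N : Sg → Sg → ℝ) (fl : Sg → Sg) : Prop where
  hβ : 1 ≤ β
  pos : ∀ s, 0 < Ψ s
  prob : ∀ s, Prob (νs s)
  probp : Prob νp
  prod : 1 ≤ Ψ true * Ψ false
  mix : ∀ φ : Bool → Sg → ℝ, (∀ b σ, φ b (fl σ) = φ b σ) → (Ex νp fun σ => φ (o σ) σ)
    = (Ψ true * Ex (νs true) (φ true) + Ψ false * Ex (νs false) (φ false)) / (Ψ true + Ψ false)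
  hfl : ∀ σ, h (fl σ) = h σ
  Nfl : ∀ σ r, N (fl σ) r = N σ r
  lip : ∀ σ r, |h σ - h r| ≤ 2 * N σ r
  tilt : ∀ (s : Bool) (P : Sg → Prop) (c : ℝ), (∀ σ, P σ → sgn s * h σ ≤ c) →
    Ψ s * (Ex (νs s) fun σ => ind (P σ)) ≤ Real.exp (β * c)

lemma mark {ν : Sg → ℝ} (hν : Prob ν) (f : Sg → ℝ) (j : ℝ) :
    (Ex ν fun σ => ind (j < f σ)) ≤ Real.exp (-j) * Ex ν fun σ => Real.exp (f σ) := by
  rw [← Ex_mul]
  refine Ex_mono hν.1 fun σ => ?_
  by_cases h : j < f σ
  · rw [ind_pos h, ← Real.exp_add]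
    exact Real.one_le_exp (by linarith)
  · rw [ind_neg h]; positivity

variable {β : ℝ} {νp : Sg → ℝ} {νs : Bool → Sg → ℝ} {Ψ : Bool → ℝ} {o : Sg → Bool}
  {h : Sg → ℝ} {N : Sg → Sg → ℝ} {fl : Sg → Sg} (M : Mix β νp νs Ψ o h N fl)
include M

lemma Mix.tot : 0 < Ψ true + Ψ false := add_pos (M.pos _) (M.pos _)

lemma Mix.spin (s : Bool) : (1 + sgn s * mm νp o) / 2 = Ψ s / (Ψ true + Ψ false) := by
  rw [← M.probp.Ex_ind_bool, M.mix (fun b _ => ind (b = s)) fun _ _ => rfl,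
    (M.prob _).Ex_const, (M.prob _).Ex_const]
  cases s <;> simp [ind]

lemma Mix.lev {t : ℝ} (hL : t ≤ mn νp o) (s : Bool) : t * (Ψ true + Ψ false) ≤ Ψ s := by
  rw [← le_div_iff₀ M.tot, ← M.spin]
  refine hL.trans ?_
  have h1 := le_abs_self (mm νp o)
  have h2 := neg_abs_le (mm νp o)
  unfold mn
  cases s <;> simp only [sgn] <;> norm_num <;> linarith

lemma Mix.kt_eq : kt νp o = 2 * (Ψ true * Ψ false) / (Ψ true + Ψ false) ^ 2 := by
  have h1 := M.spin true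
  have h2 := M.tot.ne'
  have h3 : mm νp o = 2 * (Ψ true / (Ψ true + Ψ false)) - 1 := by
    simp only [sgn] at h1; norm_num at h1; linarith
  rw [kt, h3]; field_simp; ring

lemma Mix.bad {t j θ : ℝ} (hθ : 0 ≤ θ) (hB : BadV νp o N t j (1 / 3)) (r : Sg) :
    1 ≤ 3 * Real.exp (θ * j / 2) *
      ∑ s, Ex (νs s) fun σ => Real.exp (-(θ * (sgn s * (h σ - h r) / 2))) := by
  set u : Bool → Sg → ℝ := fun s σ => Real.exp (-(θ * (sgn s * (h σ - h r) / 2))) with hu
  have u0 : ∀ s σ, 0 < u s σ := fun _ _ => Real.exp_pos _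
  have ufl : ∀ s σ, u s (fl σ) = u s σ := fun s σ => by simp only [hu, M.hfl]
  have h1 : ∀ σ σ', ind (o σ ≠ o σ' ∧ N σ σ' < j) ≤
      Real.exp (θ * j / 2) * (ind (o σ ≠ o σ') * (u (o σ) σ + u (o σ') σ')) := by
    intro σ σ'
    by_cases hc : o σ ≠ o σ' ∧ N σ σ' < j
    · rw [ind_pos hc, ind_pos hc.1, one_mul, mul_add]
      have h2 := abs_le.1 (M.lip σ σ')
      have h3 : sgn (o σ) * (h σ - h r) / 2 + sgn (o σ') * (h σ' - h r) / 2 ≤ j := by
        have h4 := hc.1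
        have h5 := hc.2
        revert h4
        cases o σ <;> cases o σ' <;> simp only [sgn] <;> norm_num <;> linarith
      have h4 : ∀ s τ, sgn s * (h τ - h r) / 2 ≤ j / 2 → 1 ≤ Real.exp (θ * j / 2) * u s τ := by
        intro s τ h5
        rw [hu, ← Real.exp_add]
        exact Real.one_le_exp (by nlinarith [mul_le_mul_of_nonneg_left h5 hθ])
      have h5 := mul_pos (Real.exp_pos (θ * j / 2)) (u0 (o σ) σ)
      have h6 := mul_pos (Real.exp_pos (θ * j / 2)) (u0 (o σ') σ')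
      by_cases h7 : sgn (o σ) * (h σ - h r) / 2 ≤ j / 2
      · linarith [h4 _ _ h7]
      · linarith [h4 (o σ') σ' (by linarith)]
    · rw [ind_neg hc]
      exact mul_nonneg (Real.exp_pos _).le
        (mul_nonneg (ind_nonneg _) (add_pos (u0 _ _) (u0 _ _)).le)
  have h2 : ∀ σ, (Ex νp fun σ' => ind (o σ ≠ o σ') * (u (o σ) σ + u (o σ') σ'))
      = Ψ (!o σ) / (Ψ true + Ψ false) * (u (o σ) σ + Ex (νs (!o σ)) (u (!o σ))) := by
    intro σ
    rw [M.mix (fun b σ' => ind (o σ ≠ b) * (u (o σ) σ + u b σ')) fun b σ' => by simp only [ufl]]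
    simp only [Ex_mul, Ex_add, (M.prob _).Ex_const]
    cases o σ <;> simp [ind] <;> ring
  have h3 := hB.2.trans (Ex_mono M.probp.1 fun σ => Ex_mono M.probp.1 (h1 σ))
  simp only [Ex_mul, h2] at h3
  rw [M.mix (fun b σ => Ψ (!b) / (Ψ true + Ψ false) * (u b σ + Ex (νs (!b)) (u (!b))))
    fun b σ' => by simp only [ufl], M.kt_eq] at h3
  simp only [Ex_mul, Ex_add, (M.prob _).Ex_const, Bool.not_true, Bool.not_false] at h3
  have h4 : 0 < 2 * (Ψ true * Ψ false) / (Ψ true + Ψ false) ^ 2 := by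
    have := M.pos true; have := M.pos false; positivity
  refine le_of_mul_le_mul_left ?_ h4
  rw [Fintype.sum_bool]
  change _ ≤ _ * (_ * (Ex (νs true) (u true) + Ex (νs false) (u false)))
  have h5 := M.tot.ne'
  calc _ = 3 * (1 / 3 * (2 * (Ψ true * Ψ false) / (Ψ true + Ψ false) ^ 2)) := by ring
    _ ≤ 3 * _ := mul_le_mul_of_nonneg_left h3 (by norm_num)
    _ = _ := by field_simp; ring

lemma Mix.win (hL : Real.exp (-(9 * β)) ≤ mn νp o) {j : ℝ} {r : Sg}
    (hj : ∀ s, (Ex (νs s) fun σ => ind (j < N σ r)) < 1 / 2) : |h r| ≤ 2 * j + 6 := by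
  have key : ∀ s, -(2 * j + 6) ≤ sgn s * h r := by
    intro s
    have h1 := M.tilt s (fun σ => ¬ j < N σ r) (sgn s * h r + 2 * j) fun σ hσ => by
      have h2 := abs_le.1 (M.lip σ r)
      rw [not_lt] at hσ
      cases s <;> simp only [sgn] <;> norm_num <;> linarith
    simp only [ind_not] at h1
    rw [Ex_sub, (M.prob _).Ex_const] at h1
    have h2 : Ψ s ≤ 2 * Real.exp (β * (sgn s * h r + 2 * j)) := by
      nlinarith [hj s, M.pos s]
    have h3 := M.lev hL s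
    have h4 : Real.exp (-(9 * β)) ≤ Ψ s * Ψ s := by
      have h5 := M.prod
      have h6 := Real.exp_pos (-(9 * β))
      have h7 := M.pos true
      have h8 := M.pos false
      have h9 := mul_le_mul_of_nonneg_right h3 (M.pos s).le
      cases s <;> nlinarith [mul_pos h6 (mul_pos h7 h7), mul_pos h6 (mul_pos h8 h8)]
    have h5 := mul_self_le_mul_self (M.pos s).le h2
    have h6 : (4 : ℝ) ≤ Real.exp 3 := by linarith [Real.add_one_le_exp 3]
    have h7 : Real.exp (-(9 * β)) ≤ Real.exp (3 + 2 * (β * (sgn s * h r + 2 * j))) := by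
      rw [Real.exp_add, two_mul, Real.exp_add]
      nlinarith [mul_pos (Real.exp_pos (β * (sgn s * h r + 2 * j)))
        (Real.exp_pos (β * (sgn s * h r + 2 * j)))]
    have h8 := Real.exp_le_exp.1 h7
    have h9 := M.hβ
    by_contra hc
    rw [not_le] at hc
    nlinarith
  have h1 := key true
  have h2 := key false
  simp only [sgn] at h1 h2
  norm_num at h1 h2
  exact abs_le.2 ⟨by linarith, by linarith⟩

lemma Mix.cases (hL : Real.exp (-(9 * β)) ≤ mn νp o) (j : ℝ) (r : Sg) :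
    1 ≤ ∑ s, 2 * (Ex (νs s) fun σ => ind (j < N σ r)) ∨ |h r| ≤ 2 * j + 6 := by
  by_cases hj : ∀ s, (Ex (νs s) fun σ => ind (j < N σ r)) < 1 / 2
  · exact Or.inr (M.win hL hj)
  · push Not at hj
    obtain ⟨s, hs⟩ := hj
    refine Or.inl (le_trans (by linarith) (single_le_sum (f := fun s =>
      2 * (Ex (νs s) fun σ => ind (j < N σ r))) (fun s _ => ?_) (mem_univ s)))
    exact mul_nonneg zero_le_two (Ex_nonneg (M.prob s).1 fun _ => ind_nonneg _)

lemma Mix.pt1 {j j2 θ : ℝ} (hθ : 0 ≤ θ) (hB : BadV νp o N (Real.exp (-(9 * β))) j (1 / 3))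
    (r : Sg) :
    1 ≤ ∑ s, (2 * Real.exp (-j2) * (Ex (νs s) fun σ => Real.exp (N σ r)) +
      3 * Real.exp (θ * j / 2) * Ex (νs s) fun σ => psi (2 * j2 + 6) (h r) *
        Real.exp (-(θ * (sgn s * (h σ - h r) / 2)))) := by
  rcases M.cases hB.1 j2 r with h1 | h1
  · refine h1.trans (sum_le_sum fun s _ => ?_)
    have h2 := mark (M.prob s) (fun σ => N σ r) j2
    have h3 : 0 ≤ 3 * Real.exp (θ * j / 2) * Ex (νs s) fun σ => psi (2 * j2 + 6) (h r) *
        Real.exp (-(θ * (sgn s * (h σ - h r) / 2))) :=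
      mul_nonneg (by positivity) (Ex_nonneg (M.prob s).1 fun _ => by unfold psi; positivity)
    linarith
  · have h2 : psi (2 * j2 + 6) (h r) = 1 := by
      rw [psi, max_eq_right (by linarith)]; simp
    refine (M.bad hθ hB r).trans ?_
    rw [mul_sum]
    refine sum_le_sum fun s _ => ?_
    simp only [h2, one_mul]
    exact le_add_of_nonneg_left
      (mul_nonneg (by positivity) (Ex_nonneg (M.prob s).1 fun _ => (Real.exp_pos _).le))

lemma Mix.tail (j : ℝ) (r : Sg) : (Ex νp fun σ => ind (j < N σ r))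
    = ∑ s, Ψ s / (Ψ true + Ψ false) * Ex (νs s) fun σ => ind (j < N σ r) := by
  rw [M.mix (fun _ σ => ind (j < N σ r)) fun _ σ => by simp only [M.Nfl], Fintype.sum_bool]
  ring

lemma Mix.frac (s : Bool) : Ψ s / (Ψ true + Ψ false) ≤ 1 := by
  rw [div_le_one M.tot]
  have := M.pos true; have := M.pos false
  cases s <;> linarith

lemma Mix.pt2 (hL : Real.exp (-(9 * β)) ≤ mn νp o) {j2 K : ℝ} (hK : 4 * j2 + 6 ≤ K) (r : Sg) :
    (Ex νp fun σ => ind (K < |h σ|))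
      ≤ ∑ s, 2 * Real.exp (-j2) * Ex (νs s) fun σ => Real.exp (N σ r) := by
  refine le_trans ?_ (sum_le_sum fun s _ => (mul_le_mul_of_nonneg_left
    (mark (M.prob s) (fun σ => N σ r) j2) zero_le_two).trans_eq (mul_assoc _ _ _).symm)
  rcases M.cases hL j2 r with h1 | h1
  · exact (M.probp.Ex_le fun _ => ind_le_one _).trans h1
  · refine (Ex_mono M.probp.1 fun σ => ind_mono (Q := j2 < N σ r) fun h2 => ?_).trans ?_
    · have h3 := abs_sub_abs_le_abs_sub (h σ) (h r)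
      linarith [M.lip σ r]
    · rw [M.tail]
      exact sum_le_sum fun s _ => mul_le_mul_of_nonneg_right (by linarith [M.frac s])
        (Ex_nonneg (M.prob s).1 fun _ => ind_nonneg _)

lemma Mix.pow1 (hL : Real.exp (-(9 * β)) ≤ mn νp o) {x : ℝ} (hx : 0 ≤ x) (hy : β * x ≤ 1 / 9)
    (s : Bool) : (Ψ true + Ψ false) ^ x ≤ 3 * Ψ s ^ x := by
  have h1 : Ψ true + Ψ false ≤ Real.exp (9 * β) * Ψ s := by
    have h2 := mul_le_mul_of_nonneg_left (M.lev hL s) (Real.exp_pos (9 * β)).le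
    rwa [← mul_assoc, ← Real.exp_add, add_neg_cancel, Real.exp_zero, one_mul] at h2
  refine (Real.rpow_le_rpow M.tot.le h1 hx).trans ?_
  rw [Real.mul_rpow (Real.exp_pos _).le (M.pos s).le, ← Real.exp_mul]
  refine mul_le_mul_of_nonneg_right ?_ (Real.rpow_nonneg (M.pos s).le _)
  have h2 : Real.exp (9 * β * x) ≤ Real.exp 1 := Real.exp_le_exp.2 (by linarith)
  linarith [Real.exp_one_lt_d9]

lemma Mix.pt3 {x j2 L K : ℝ} (hx : 0 ≤ x) (hx1 : x ≤ 1) (hK : L + 2 * j2 ≤ K) (r : Sg) :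
    ind (|h r| ≤ L) ≤ (Ψ true + Ψ false) ^ x * (Ex νp fun σ => ind (|h σ| ≤ K)) +
      ∑ s, Real.exp (-j2) * (Ψ s ^ x * Ex (νs s) fun σ => Real.exp (N σ r)) := by
  have h1 : 1 ≤ (Ψ true + Ψ false) ^ x := by
    refine Real.one_le_rpow ?_ hx
    have := M.pos true; have := M.pos false; have := M.prod
    nlinarith
  have h2 : ind (|h r| ≤ L) ≤ (Ex νp fun σ => ind (|h σ| ≤ K)) +
      Ex νp fun σ => ind (j2 < N σ r) := by
    rw [← Ex_add]
    refine M.probp.le_Ex fun σ => (ind_mono fun h3 => ?_).trans (ind_or_le _ _)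
    have h4 := abs_sub_abs_le_abs_sub (h σ) (h r)
    have h5 := M.lip σ r
    by_contra hc
    push Not at hc
    linarith [hc.1, hc.2]
  refine (le_mul_of_one_le_left (ind_nonneg _) h1).trans
    ((mul_le_mul_of_nonneg_left h2 (zero_le_one.trans h1)).trans ?_)
  rw [mul_add, M.tail, mul_sum]
  refine add_le_add le_rfl (sum_le_sum fun s _ => ?_)
  have h3 : (Ψ true + Ψ false) ^ x * (Ψ s / (Ψ true + Ψ false)) ≤ Ψ s ^ x := by
    have h4 : 0 < Ψ s / (Ψ true + Ψ false) := div_pos (M.pos s) M.tot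
    have h5 := Real.rpow_le_rpow_of_exponent_ge h4 (M.frac s) hx1
    rw [Real.rpow_one] at h5
    refine (mul_le_mul_of_nonneg_left h5 (zero_le_one.trans h1)).trans_eq ?_
    rw [← Real.mul_rpow M.tot.le h4.le, mul_div_cancel₀ _ M.tot.ne']
  rw [← mul_assoc, mul_left_comm]
  exact mul_le_mul h3 (mark (M.prob s) (fun σ => N σ r) j2)
    (Ex_nonneg (M.prob s).1 fun _ => ind_nonneg _) (Real.rpow_nonneg (M.pos s).le _)

end FewJ

end Pool.Agent.MP_32a90a_pr.D

end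

section

set_option autoImplicit false

namespace Pool.Agent.MP_32a90a_pr.D

open Finset Filter Pool.Agent.MP_32a90a_pr Pool.Agent.MP_32a90a_pr.L

namespace FewJ

lemma noninj {A : Type} [Fintype A] [DecidableEq A] [Nonempty A] (d : ℕ) :
    (avg fun ω : Fin d → A × Bool => ind (¬ Function.Injective (uu ω)))
      ≤ (d : ℝ) ^ 2 / Fintype.card A := by
  have hA : (0 : ℝ) < Fintype.card A := by exact_mod_cast Fintype.card_pos
  have h1 : ∀ ω : Fin d → A × Bool, ind (¬ Function.Injective (uu ω))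
      ≤ ∑ p : Fin d × Fin d, ind (p.1 ≠ p.2 ∧ (ω p.1).1 = (ω p.2).1) := by
    intro ω
    by_cases h : Function.Injective (uu ω)
    · rw [ind_neg (not_not.2 h)]; exact sum_nonneg fun _ _ => ind_nonneg _
    · obtain ⟨i, k, h2, h3⟩ := Function.not_injective_iff.1 h
      refine (ind_le_one _).trans ((ind_pos (P := (i, k).1 ≠ (i, k).2 ∧
        (ω (i, k).1).1 = (ω (i, k).2).1) ⟨h3, h2⟩).ge.trans ?_)
      exact single_le_sum (f := fun p : Fin d × Fin d => ind (p.1 ≠ p.2 ∧ (ω p.1).1 = (ω p.2).1))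
        (fun _ _ => ind_nonneg _) (mem_univ (i, k))
  have h2 : ∀ a : A, (avg fun o : A × Bool => ind (o.1 = a)) = 1 / Fintype.card A := by
    intro a
    rw [avg_prod]
    simp only [avg_const]
    rw [avg, sum_ind, filter_eq' univ a, if_pos (mem_univ a), card_singleton, Nat.cast_one]
  refine (avg_mono h1).trans ?_
  rw [avg_sum]
  refine (sum_le_card_nsmul _ _ (1 / (Fintype.card A : ℝ)) fun p _ => ?_).trans_eq ?_
  · rw [avg_update p.1]
    refine avg_le_const (by positivity) fun ω => ?_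
    rw [← h2 (ω p.2).1]
    refine avg_mono fun o => ind_mono fun h => ?_
    simpa [Function.update_of_ne h.1.symm] using h.2
  · simp [sq, div_eq_mul_inv]

variable {Sg G0 A Nd : Type} [Fintype Sg] [Nonempty Sg] [Fintype G0] [Nonempty G0] [Fintype A]
  [DecidableEq A] (S : Sys Sg G0 A) {d : ℕ}

/-- the Gibbs vector of a child tilted by the field s h -/
noncomputable def nus (AA : Finset (Fin d)) (ω : Fin d → A × Bool) (g : Gam G0 A) (s : Bool) :
    Sg → ℝ := (S.add fun _ σ => sgn s * hom S.sp AA ω σ).nu g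

/-- normalised mean on the event -/
noncomputable def Op (nd : G0 → Nd) (Ev : Nd → Prop) (AA : Finset (Fin d))
    (X : (Fin d → A × Bool) → Gam G0 A → ℝ) : ℝ :=
  avg fun ω : Fin d → A × Bool =>
    S.Gw AA ω * S.P fun g _ => oU (uu ω) g * ind (Ev (nd g.1)) * X ω g

variable {S} {AA : Finset (Fin d)} {nd : G0 → Nd} {Ev : Nd → Prop} {fl : Sg → Sg} {o : Sg → Bool}

omit [Nonempty G0] in
lemma psi_pos (ω : Fin d → A × Bool) (s : Bool) (g : Gam G0 A) : 0 < S.Psi AA ω s g :=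
  (Cas.nu_prob g).Ex_pos fun _ => Real.exp_pos _

omit [Nonempty G0] in
lemma Ex_nus (ω : Fin d → A × Bool) (g : Gam G0 A) (s : Bool) (f : Sg → ℝ) :
    S.Psi AA ω s g * Ex (nus S AA ω g s) f
      = Ex (S.nu g) fun σ => f σ * Real.exp (S.β * (sgn s * hom S.sp AA ω σ)) := by
  rw [nus, Sys.nu, Sys.cas_add, Cas.Ex_nu_add]
  refine (mul_div_cancel₀ _ (psi_pos ω s g).ne').trans (Ex_congr fun σ => mul_comm _ _)

lemma mix (hPin : StPin) (hS : S.Sym fl o) (hβ : 1 ≤ S.β) (ω : Fin d → A × Bool) (g : Gam G0 A) :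
    Mix S.β ((S.add (S.Dv o AA 0 ω)).nu g) (nus S AA ω g) (fun s => S.Psi AA ω s g) o
      (hom S.sp AA ω) (dn S.sp (uu ω)) fl where
  hβ := hβ
  pos s := psi_pos ω s g
  prob _ := Cas.nu_prob g
  probp := Cas.nu_prob g
  prod := by
    have h1 := fun s => (Cas.nu_prob (C := S.cas) g).exp_Ex_le
      fun σ => S.β * (sgn s * hom S.sp AA ω σ)
    refine le_trans ?_ (mul_le_mul (h1 true) (h1 false) (Real.exp_pos _).le (psi_pos ω _ g).le)
    rw [← Real.exp_add]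
    simp [Ex_mul, Ex_neg, sgn]
  mix φ hφ := by
    rw [(hPin Sg G0 A S d fl o AA 0 ω hS).2 g φ hφ, Ex_nus, Ex_nus]
    simp only [Fintype.sum_bool, add_zero]
    rfl
  hfl σ := by simp only [hom, hS.2.2.2]
  Nfl σ r := by simp only [dn, hS.2.2.2]
  lip σ r := by
    rw [hom, hom, ← sum_sub_distrib, dn, mul_sum]
    refine (abs_sum_le_sum_abs _ _).trans (sum_le_sum fun i _ => ?_)
    have h1 : |Jc AA i (ω i).2| = 1 := by unfold Jc; split_ifs <;> simp
    rw [← mul_sub, abs_mul, h1, one_mul, uu]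
    cases S.sp (ω i).1 σ <;> cases S.sp (ω i).1 r <;> simp [ind, sgn] <;> norm_num
  tilt s P c hc := by
    rw [Ex_nus]
    refine (Cas.nu_prob g).Ex_le fun σ => ?_
    by_cases h : P σ
    · rw [ind_pos h, one_mul]
      exact Real.exp_le_exp.2 (mul_le_mul_of_nonneg_left (hc σ h) (by linarith))
    · rw [ind_neg h, zero_mul]; exact (Real.exp_pos _).le

lemma child (hPin : StPin) (hS : S.Sym fl o) (ω : Fin d → A × Bool) (f : Gam G0 A → ℝ) :
    ((S.add (S.Dv o AA 0 ω)).E fun g _ => f g) = (1 / 2 : ℝ) ^ S.x *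
      S.E fun g _ => (S.Psi AA ω true g + S.Psi AA ω false g) ^ S.x * f g := by
  rw [(hPin Sg G0 A S d fl o AA 0 ω hS).1 (fun g _ _ => f g) fun _ _ _ => rfl, Sys.E, ← Cas.E_Ex,
    ← Cas.E_mul]
  refine Cas.E_congr fun g _ => ?_
  have h1 := (add_pos (psi_pos (S := S) (AA := AA) ω true g)
    (psi_pos (S := S) (AA := AA) ω false g)).ne'
  simp only [Fintype.sum_bool, add_zero, Ex_mul_right, Ex_mul, Ex_add]
  change _ * (_ * S.Psi AA ω true g + _ * S.Psi AA ω false g) *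
    (S.Psi AA ω true g + S.Psi AA ω false g) ^ (S.x - 1) = _
  rw [Real.rpow_sub_one h1]
  field_simp

lemma pin_eq (hPin : StPin) (hS : S.Sym fl o) (hO : S.cas.Ok) (ω : Fin d → A × Bool)
    (f : Gam G0 A → Sg → ℝ) :
    S.Pin o AA 0 ω f = S.Gw AA ω * S.P fun g _ => oU (uu ω) g *
      ((S.Psi AA ω true g + S.Psi AA ω false g) ^ S.x *
        Ex ((S.add (S.Dv o AA 0 ω)).nu g) (f g)) := by
  have h1 := child (AA := AA) hPin hS ω fun g =>
    oU (uu ω) g * Ex ((S.add (S.Dv o AA 0 ω)).nu g) (f g)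
  have h2 := child (AA := AA) hPin hS ω fun _ => 1
  have h3 : (1 / 2 : ℝ) ^ S.x ≠ 0 := (Real.rpow_pos_of_pos (by norm_num) _).ne'
  have h4 := (Cas.N_pos hO).ne'
  rw [Sys.Pin, Sys.P, ← Cas.P_Ex]
  simp only [Ex_mul]
  rw [Cas.P, Cas.N]
  refine (congrArg₂ (· / ·) h1 h2).trans ?_
  rw [Sys.Gw, Sys.P, Cas.P, Sys.P, Cas.P]
  simp only [mul_one, mul_left_comm (oU _ _)]
  rw [mul_div_mul_left _ _ h3, one_div_div, div_mul_div_comm, mul_comm _ S.cas.N,
    mul_div_mul_left _ _ h4]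

omit [Nonempty G0] in
lemma rf_eq (s : Bool) (φ : (Fin d → A × Bool) → Sg → Sg → ℝ) :
    S.Rf nd Ev AA s φ = Op S nd Ev AA fun ω g => S.Psi AA ω s g ^ S.x *
      Ex (S.mu nd (nd g.1)) fun r => Ex (nus S AA ω g s) fun σ => φ ω σ r := by
  refine avg_congr fun ω => ?_
  rw [mul_div_assoc, Sys.E, ← Cas.E_Ex]
  congr 2
  simp only [Ex_mul]
  conv_lhs => rw [Sys.cas_add, Cas.E_add_child]
  refine Cas.E_congr fun g _ => ?_
  rw [Ex_comm, nus, Sys.nu, Sys.cas_add, mul_left_comm]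
  rfl

omit [Nonempty Sg] [Nonempty G0] in
lemma Op_add (X Y : (Fin d → A × Bool) → Gam G0 A → ℝ) :
    (Op S nd Ev AA fun ω g => X ω g + Y ω g) = Op S nd Ev AA X + Op S nd Ev AA Y := by
  simp only [Op, mul_add, Cas.P_add, avg_add]

omit [Nonempty Sg] [Nonempty G0] in
lemma Op_mul (c : ℝ) (X : (Fin d → A × Bool) → Gam G0 A → ℝ) :
    (Op S nd Ev AA fun ω g => c * X ω g) = c * Op S nd Ev AA X := by
  simp only [Op, mul_left_comm _ c, Cas.P_mul, avg_mul]

omit [Nonempty G0] in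
lemma Op_mono (hO : S.cas.Ok) (hG : ∀ ω, 0 ≤ S.Gw AA ω) {X Y : (Fin d → A × Bool) → Gam G0 A → ℝ}
    (h : ∀ ω g, X ω g ≤ Y ω g) : Op S nd Ev AA X ≤ Op S nd Ev AA Y :=
  avg_mono fun ω => mul_le_mul_of_nonneg_left (Cas.P_mono hO fun g _ =>
    mul_le_mul_of_nonneg_left (h ω g) (mul_nonneg (ind_nonneg _) (ind_nonneg _))) (hG ω)

lemma insert_oU (hOI : StOI) (hd : 1000 ≤ d) (hP : S.Par d) (hG : ∀ ω, S.Gw AA ω ≤ 1)
    (φ : (Fin d → A × Bool) → G0 → ℝ) (h0 : ∀ ω g, 0 ≤ φ ω g) (h1 : ∀ ω g, φ ω g ≤ 1) :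
    (avg fun ω => S.Gw AA ω * S.P fun g _ => ind (Ev (nd g.1)) * φ ω g.1)
      ≤ (Op S nd Ev AA fun ω g => φ ω g.1) + (sm 295 d + (d : ℝ) ^ 2 * sm 300 d) := by
  have hO := hP.ok (by omega)
  have := hP.nonempty
  have hA : (0 : ℝ) < Fintype.card A := by exact_mod_cast Fintype.card_pos
  have e0 : ∀ ω g, 0 ≤ ind (Ev (nd g)) * φ ω g := fun ω g => mul_nonneg (ind_nonneg _) (h0 _ _)
  have e1 : ∀ ω g, ind (Ev (nd g)) * φ ω g ≤ 1 := fun ω g =>
    mul_le_one₀ (ind_le_one _) (h0 _ _) (h1 _ _)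
  have h2 : (avg fun ω : Fin d → A × Bool => ind (¬ Function.Injective (uu ω)))
      ≤ (d : ℝ) ^ 2 * sm 300 d := by
    refine (noninj d).trans ?_
    rw [div_le_iff₀ hA, mul_assoc]
    exact le_mul_of_one_le_right (by positivity) hP.2.2.2.2.2.2.2.2.2.2
  refine le_trans ?_ (add_le_add le_rfl (add_le_add (avg_const (α := Fin d → A × Bool) _).le h2))
  rw [Op, ← avg_add, ← avg_add]
  refine avg_mono fun ω => ?_
  have h3 : (S.P fun g _ => (1 - oU (uu ω) g) * (ind (Ev (nd g.1)) * φ ω g.1))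
      ≤ sm 295 d + ind (¬ Function.Injective (uu ω)) := by
    by_cases hi : Function.Injective (uu ω)
    · have h4 : ∀ g : Gam G0 A, oU (uu ω) g = oI (univ.image (uu ω)) g := fun g =>
        ind_congr (by simp [hi])
      have h5 := (hOI Sg G0 A S d _ (univ.image (uu ω)) hd hP (e0 ω)).2
        (card_image_le.trans (by simp))
      have h6 : (S.P fun g _ => oI (univ.image (uu ω)) g * (ind (Ev (nd g.1)) * φ ω g.1)) ≤ 1 :=
        Cas.P_le_const hO fun g _ => mul_le_one₀ (ind_le_one _) (e0 _ _) (e1 _ _)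
      rw [ind_neg (not_not.2 hi), add_zero]
      simp only [h4]
      refine (div_le_div_of_nonneg_right h5 (Cas.N_pos hO).le).trans ?_
      rw [mul_div_assoc]
      exact mul_le_of_le_one_right (sm_pos _ _).le h6
    · rw [ind_pos hi]
      refine (Cas.P_le_const hO (c := 1) fun g _ => mul_le_one₀ ?_ (e0 _ _) (e1 _ _)).trans
        (le_add_of_nonneg_left (sm_pos _ _).le)
      linarith [ind_nonneg (Function.Injective (uu ω) ∧ ∀ i, g.2 (uu ω i) = none), oU.eq_1 (uu ω) g]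
  have h4 : 0 ≤ S.P fun g _ => (1 - oU (uu ω) g) * (ind (Ev (nd g.1)) * φ ω g.1) :=
    Cas.P_nonneg hO fun g _ => mul_nonneg (sub_nonneg.2 (ind_le_one _)) (e0 _ _)
  have h5 : (S.P fun g _ => ind (Ev (nd g.1)) * φ ω g.1)
      = (S.P fun g _ => oU (uu ω) g * ind (Ev (nd g.1)) * φ ω g.1)
        + S.P fun g _ => (1 - oU (uu ω) g) * (ind (Ev (nd g.1)) * φ ω g.1) := by
    rw [← Cas.P_add]
    exact Cas.P_congr fun g _ => by ring
  rw [h5, mul_add]
  exact add_le_add le_rfl ((mul_le_of_le_one_left h4 (hG ω)).trans h3)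

end FewJ

end Pool.Agent.MP_32a90a_pr.D

end

section

set_option autoImplicit false

namespace Pool.Agent.MP_32a90a_pr.D

open Finset Filter Pool.Agent.MP_32a90a_pr Pool.Agent.MP_32a90a_pr.L

namespace FewJ

lemma ex_ell (k : ℕ) {d : ℕ} (hd : 3 ≤ d) : Real.exp (-(k * ell d)) = 1 / (d : ℝ) ^ k := by
  have h : (0 : ℝ) < d := by exact_mod_cast (by omega : 0 < d)
  rw [Real.exp_neg, Real.exp_nat_mul, ell, Real.exp_log h, one_div]

lemma sm_small {k : ℝ} (hk : 13 ≤ k) {d : ℕ} (hd : 3 ≤ d) : sm k d ≤ 1 / (d : ℝ) ^ 13 := by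
  rw [← ex_ell 13 hd]
  refine Real.exp_le_exp.2 (neg_le_neg ?_)
  have h1 := one_le_log hd
  have h2 : (3 : ℝ) ≤ d := by exact_mod_cast hd
  have h3 : Real.log d ≤ d * Real.log d := le_mul_of_one_le_left (by linarith) (by linarith)
  unfold ell
  push_cast
  nlinarith

lemma psi_le_one (L t : ℝ) : psi L t ≤ 1 :=
  Real.exp_le_one_iff.2 (neg_nonpos.2 (mul_nonneg (by norm_num) (le_max_right _ _)))

lemma psi_split {L e y : ℝ} (hy : 0 ≤ y) (t : ℝ) (s : Bool) :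
    psi L t * Real.exp (y * (sgn s * t)) ≤
      Real.exp (y * (L + 110 * 25000 ^ 2 * e)) * ind (|t| ≤ L + 110 * 25000 ^ 2 * e) +
        Real.exp (-((11 : ℕ) * e)) * Real.exp (y * |t|) := by
  have h1 : sgn s * t ≤ |t| := (le_abs_self _).trans_eq (by rw [abs_mul, abs_sgn, one_mul])
  by_cases h : |t| ≤ L + 110 * 25000 ^ 2 * e
  · rw [ind_pos h, mul_one]
    refine le_add_of_le_of_nonneg ?_ (by positivity)
    exact (mul_le_of_le_one_left (Real.exp_pos _).le (psi_le_one _ _)).trans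
      (Real.exp_le_exp.2 (mul_le_mul_of_nonneg_left (h1.trans h) hy))
  · rw [ind_neg h, mul_zero, zero_add]
    refine mul_le_mul (Real.exp_le_exp.2 ?_) (Real.exp_le_exp.2 (mul_le_mul_of_nonneg_left h1 hy))
      (Real.exp_pos _).le (Real.exp_pos _).le
    have h2 := le_max_left (|t| - L) 0
    push_cast
    linarith

lemma avgpt {Sg : Type} [Fintype Sg] {β : ℝ} {νp μ : Sg → ℝ} {νs : Bool → Sg → ℝ} {Ψ : Bool → ℝ}
    {o : Sg → Bool} {h : Sg → ℝ} {N : Sg → Sg → ℝ} {fl : Sg → Sg} (M : Mix β νp νs Ψ o h N fl)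
    (hμ : Prob μ) (hL : Real.exp (-(9 * β)) ≤ mn νp o) {x a : ℝ} (hx : 0 ≤ x) (hy : β * x ≤ 1 / 9)
    {F : Bool → Sg → ℝ} (hF : ∀ s r, 0 ≤ F s r) (ha : ∀ r, a ≤ ∑ s, F s r) :
    (Ψ true + Ψ false) ^ x * a
      ≤ 3 * (Ψ true ^ x * Ex μ (F true) + Ψ false ^ x * Ex μ (F false)) := by
  have h1 := hμ.le_Ex ha
  rw [Ex_sum, Fintype.sum_bool] at h1
  have h2 := mul_le_mul_of_nonneg_left h1 (Real.rpow_nonneg M.tot.le x)
  have h3 := mul_le_mul_of_nonneg_right (M.pow1 hL hx hy true) (Ex_nonneg hμ.1 (hF true))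
  have h4 := mul_le_mul_of_nonneg_right (M.pow1 hL hx hy false) (Ex_nonneg hμ.1 (hF false))
  linarith

end FewJ

open FewJ in
theorem stFew (hNtail : StNtail) (hYtail : StYtail) (hPin : StPin) (hGw : StGw) (hOI : StOI)
    (hTower : StTower) (hD1 : StD1) : StFew := by
  refine ⟨10 ^ 11, by norm_num, (eventually_ge_atTop 1000).mono fun d hd => ?_⟩
  intro Sg G0 A _ _ _ _ _ _ S c cp lam z zb Nd nd Ev AA fl o hP hR hlam hS hy hz hdz hzb hzb' hCl
    hAA
  have hd3 : 3 ≤ d := by omega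
  have hD : (1000 : ℝ) ≤ d := by exact_mod_cast hd
  have hO := hP.ok hd3
  have hDD : S.D1 d lam := hlam ▸ hD1 Sg G0 A S d c cp hd hP hR
  have hl0 := hDD.1
  have hl1 := hDD.2.1
  have hG := fun ω => hGw Sg G0 A S d d AA ω hd3 hP
  have hG0 : ∀ ω, 0 ≤ S.Gw AA ω := fun ω => (hG ω).1.le
  have M := fun ω g => mix (AA := AA) hPin hS hP.1 ω g
  have hT := hTower Sg (Gam G0 A) Nd S.cas (fun g => nd g.1) hO
  have hμ : ∀ g : Gam G0 A, Prob (S.mu nd (nd g.1)) := fun g =>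
    hT.1 g (Sys.p_pos hP.2.2.2.2.1 (hP.rho_lt hd3) g)
  have hl : 1 ≤ ell d := one_le_log hd3
  have hx0 : 0 ≤ S.x := hP.2.1.le
  have hy0 : 0 ≤ S.y := hO.y_pos.le
  have hy9 : S.β * S.x ≤ 1 / 9 := le_trans hP.2.2.1 (by norm_num)
  have hz1 : z ≤ 1 := by
    have h1 : ell d ≤ d := (Real.log_le_sub_one_of_pos (by linarith)).trans (by linarith)
    exact le_of_mul_le_mul_left (a := (d : ℝ)) (by linarith) (by linarith)
  have hdzb : d * zb ≤ 200 * (lam + ell d) := by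
    have h1 := mul_le_mul_of_nonneg_left hzb' (by linarith : (0 : ℝ) ≤ d)
    have h2 : d * (200 * (lam / d + z)) = 200 * (lam + d * z) := by field_simp
    linarith
  have p1 : 100 * (1 / (d : ℝ) ^ 13) ≤ 1 / (d : ℝ) ^ 11 := by
    rw [mul_one_div, div_le_div_iff₀ (by positivity) (by positivity), one_mul,
      show (d : ℝ) ^ 13 = d ^ 2 * d ^ 11 by ring]
    exact mul_le_mul_of_nonneg_right (by nlinarith) (by positivity)
  have p2 : 2 * (1 / (d : ℝ) ^ 11) ≤ 1 / (d : ℝ) ^ 10 := by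
    rw [mul_one_div, div_le_div_iff₀ (by positivity) (by positivity), one_mul,
      show (d : ℝ) ^ 11 = d * d ^ 10 by ring]
    exact mul_le_mul_of_nonneg_right (by linarith) (by positivity)
  have p0 : 0 < 1 / (d : ℝ) ^ 13 := by positivity
  obtain ⟨j2, hj2⟩ : ∃ j2, j2 = 607 * lam + 613 * ell d := ⟨_, rfl⟩
  have hNT : ∀ s, Real.exp (-j2) * (Op S nd Ev AA fun ω g => S.Psi AA ω s g ^ S.x *
      Ex (S.mu nd (nd g.1)) fun r => Ex (nus S AA ω g s) fun σ => Real.exp (dn S.sp (uu ω) σ r))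
        ≤ 2 * (1 / (d : ℝ) ^ 13) := by
    intro s
    have h1 := hNtail Sg G0 A S d lam zb Nd nd Ev AA s hd hP hDD hzb hCl
    rw [rf_eq] at h1
    have h2 : Real.exp (7 * lam + 3 * d * zb) ≤ Real.exp (607 * lam + 600 * ell d) :=
      Real.exp_le_exp.2 (by linarith)
    have h3 : sm 100 d ≤ Real.exp (607 * lam + 600 * ell d) :=
      (sm_le_one (by norm_num) d).trans (Real.one_le_exp (by linarith))
    refine (mul_le_mul_of_nonneg_left (h1.trans (add_le_add h2 h3)) (Real.exp_pos _).le).trans_eq ?_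
    rw [← two_mul, mul_left_comm, ← Real.exp_add, ← ex_ell 13 hd3, hj2]
    congr 2
    push_cast
    ring
  have hF : ∀ ω g s r, 0 ≤ 2 * Real.exp (-j2) *
      Ex (nus S AA ω g s) fun σ => Real.exp (dn S.sp (uu ω) σ r) := fun ω g s r =>
    mul_nonneg (by positivity) (Ex_nonneg ((M ω g).prob s).1 fun _ => (Real.exp_pos _).le)
  constructor
  · obtain ⟨W, hW⟩ : ∃ W, W = avg fun ω : Fin d → A × Bool => S.Pin o AA 0 ω fun _ σ =>
        ind (|hom S.sp AA ω σ| ≤ 10 ^ 11 * (lam + ell d)) := ⟨_, rfl⟩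
    obtain ⟨L3, hL3⟩ : ∃ L3, L3 = 2 * j2 + 6 + 110 * 25000 ^ 2 * ell d := ⟨_, rfl⟩
    rw [← hW]
    have hroot : ∀ ω, S.Gw AA ω * (S.P fun g _ => Ex (S.mu nd (nd g.1)) fun r =>
        Real.exp (S.y * |hom S.sp AA ω r|)) ≤ 1 := by
      intro ω
      have h1 := (hT.2.1 fun _ r => Real.exp (S.y * |hom S.sp AA ω r|)).2
      rw [Cas.P_root] at h1
      have h2 := (hG ω).2.2.1
      rw [h1] at h2
      exact h2
    have hQ : (avg fun ω => S.Gw AA ω * S.P fun g _ => ind (Ev (nd g.1)) *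
        Ex (S.mu nd (nd g.1)) fun r => ind (|hom S.sp AA ω r| ≤ L3))
          ≤ W + 6 * (1 / (d : ℝ) ^ 13) := by
      have h1 := insert_oU (nd := nd) (Ev := Ev) hOI hd hP (fun ω => (hG ω).2.1)
        (fun ω g => Ex (S.mu nd (nd g)) fun r => ind (|hom S.sp AA ω r| ≤ L3))
        (fun ω g => Ex_nonneg (hμ (g, fun _ => none)).1 fun _ => ind_nonneg _)
        (fun ω g => (hμ (g, fun _ => none)).Ex_le fun _ => ind_le_one _)
      have h2 := Op_mono (nd := nd) (Ev := Ev) hO hG0 fun ω g => Ex_mono (hμ g).1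
        ((M ω g).pt3 (j2 := j2) (L := L3) (K := 10 ^ 11 * (lam + ell d)) hx0 hO.2.2.1
          (by rw [hL3, hj2]; linarith))
      have h3 : ∀ g : Gam G0 A, ∀ c, Ex (S.mu nd (nd g.1)) (fun _ => c) = c :=
        fun g => (hμ g).Ex_const
      simp only [Fintype.sum_bool, Ex_add, Ex_mul, h3, Op_add, Op_mul] at h2
      have h4 : (Op S nd Ev AA fun ω g => (S.Psi AA ω true g + S.Psi AA ω false g) ^ S.x *
          Ex ((S.add (S.Dv o AA 0 ω)).nu g) fun σ =>
            ind (|hom S.sp AA ω σ| ≤ 10 ^ 11 * (lam + ell d))) ≤ W := by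
        rw [hW]
        refine avg_mono fun ω => ?_
        rw [pin_eq hPin hS hO]
        refine mul_le_mul_of_nonneg_left (Cas.P_mono hO fun g _ => ?_) (hG0 ω)
        exact mul_le_mul_of_nonneg_right (mul_le_of_le_one_right (ind_nonneg _) (ind_le_one _))
          (mul_nonneg (Real.rpow_nonneg (M ω g).tot.le _)
            (Ex_nonneg (M ω g).probp.1 fun _ => ind_nonneg _))
      have h5 := sm_small (k := 295) (by norm_num) hd3
      have h6 := sm_small (k := 298) (by norm_num) hd3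
      have h7 := mul_sm_le (a := d) 298 hd3 (by linarith)
      have h8 := mul_le_mul_of_nonneg_left (mul_sm_le (a := d) (298 + 1) hd3 (by linarith))
        (by linarith : (0 : ℝ) ≤ d)
      rw [show (298 + 1 + 1 : ℝ) = 300 by norm_num] at h8
      linarith [hNT true, hNT false]
    have hE3 : 1 ≤ Real.exp (S.y * L3) :=
      Real.one_le_exp (mul_nonneg hy0 (by rw [hL3, hj2]; linarith))
    have hM : ∀ s, (avg fun ω : Fin d → A × Bool => S.Gw AA ω * S.EN nd fun n => ind (Ev n) *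
        Ex (S.mu nd n) fun r => psi (2 * j2 + 6) (hom S.sp AA ω r)
          * Real.exp (S.y * (sgn s * hom S.sp AA ω r)))
        ≤ Real.exp (S.y * L3) * min 1 (W + 1 / (d : ℝ) ^ 10) := by
      intro s
      rw [mul_min_of_nonneg _ _ (Real.exp_pos _).le]
      refine le_min (le_trans (avg_le_const zero_le_one fun ω => le_trans
        (mul_le_mul_of_nonneg_left (Cas.P_mono hO fun g _ => ?_) (hG0 ω)) (hroot ω))
        (by linarith)) ?_
      · refine (mul_le_of_le_one_left (Ex_nonneg (hμ g).1 fun _ => by unfold psi; positivity)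
          (ind_le_one _)).trans (Ex_mono (hμ g).1 fun r => ?_)
        refine (mul_le_of_le_one_left (Real.exp_pos _).le (psi_le_one _ _)).trans
          (Real.exp_le_exp.2 (mul_le_mul_of_nonneg_left ?_ hy0))
        exact (le_abs_self _).trans_eq (by rw [abs_mul, abs_sgn, one_mul])
      · have h1 : ∀ ω : Fin d → A × Bool, (S.Gw AA ω * S.EN nd fun n => ind (Ev n) *
            Ex (S.mu nd n) fun r => psi (2 * j2 + 6) (hom S.sp AA ω r)
              * Real.exp (S.y * (sgn s * hom S.sp AA ω r)))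
            ≤ Real.exp (S.y * L3) * (S.Gw AA ω * S.P fun g _ => ind (Ev (nd g.1)) *
              Ex (S.mu nd (nd g.1)) fun r => ind (|hom S.sp AA ω r| ≤ L3)) + 1 / (d : ℝ) ^ 11 := by
          intro ω
          have h2 := mul_le_mul_of_nonneg_left (Cas.P_mono hO
            (f := fun g _ => ind (Ev (nd g.1)) * Ex (S.mu nd (nd g.1)) fun r =>
              psi (2 * j2 + 6) (hom S.sp AA ω r) * Real.exp (S.y * (sgn s * hom S.sp AA ω r)))
            (g := fun g _ => Real.exp (S.y * L3) * (ind (Ev (nd g.1)) *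
              Ex (S.mu nd (nd g.1)) fun r => ind (|hom S.sp AA ω r| ≤ L3)) +
              1 / (d : ℝ) ^ 11 * Ex (S.mu nd (nd g.1)) fun r =>
                Real.exp (S.y * |hom S.sp AA ω r|)) fun g _ => by
              have h3 := Ex_mono (hμ g).1 fun r =>
                psi_split (L := 2 * j2 + 6) (e := ell d) hy0 (hom S.sp AA ω r) s
              rw [← hL3, ex_ell 11 hd3, Ex_add, Ex_mul, Ex_mul] at h3
              refine (mul_le_mul_of_nonneg_left h3 (ind_nonneg _)).trans ?_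
              rw [mul_add, mul_left_comm]
              exact add_le_add le_rfl (mul_le_of_le_one_left (mul_nonneg (by positivity)
                (Ex_nonneg (hμ g).1 fun _ => (Real.exp_pos _).le)) (ind_le_one _))) (hG0 ω)
          rw [Cas.P_add, Cas.P_mul, Cas.P_mul, mul_add, mul_left_comm, mul_left_comm (S.Gw AA ω)]
            at h2
          exact h2.trans (add_le_add le_rfl (mul_le_of_le_one_right (by positivity) (hroot ω)))
        have := hP.nonempty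
        refine (avg_mono h1).trans ?_
        rw [avg_add, avg_mul, avg_const]
        have h2 := mul_le_mul_of_nonneg_left hQ (Real.exp_pos (S.y * L3)).le
        have h3 := mul_le_mul_of_nonneg_right hE3 (by positivity : 0 ≤ 1 / (d : ℝ) ^ 11)
        have h4 := mul_le_mul_of_nonneg_left (show 6 * (1 / (d : ℝ) ^ 13) + 1 / (d : ℝ) ^ 11
          ≤ 1 / (d : ℝ) ^ 10 by linarith) (Real.exp_pos (S.y * L3)).le
        linarith
    have hm : 0 ≤ min 1 (W + 1 / (d : ℝ) ^ 10) := by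
      refine le_min zero_le_one (add_nonneg ?_ (by positivity))
      rw [hW]
      exact avg_nonneg fun ω => Cas.P_nonneg (hP.add _ |>.ok hd3) fun g _ =>
        mul_nonneg (ind_nonneg _) (ind_nonneg _)
    generalize min 1 (W + 1 / (d : ℝ) ^ 10) = m at hM hm ⊢
    have hYT : ∀ s, Real.exp (1 / 25000 * (lam / 20) / 2) *
        (Op S nd Ev AA fun ω g => S.Psi AA ω s g ^ S.x * Ex (S.mu nd (nd g.1)) fun r =>
          Ex (nus S AA ω g s) fun σ => psi (2 * j2 + 6) (hom S.sp AA ω r) *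
            Real.exp (-(1 / 25000 * (sgn s * (hom S.sp AA ω σ - hom S.sp AA ω r) / 2))))
        ≤ 3 * Real.exp (-(lam / 500000) + 2 * d * z + 10 ^ 11 * S.y * (lam + ell d)) * m
          + 1 / (d : ℝ) ^ 13 := by
      intro s
      have h1 := hYtail Sg G0 A S d c cp z zb (2 * j2 + 6) Nd nd Ev AA s hd hP hR hy hz hz1 hzb
        (hlam ▸ hzb') hCl hAA
      rw [rf_eq, ← hlam] at h1
      refine (mul_le_mul_of_nonneg_left (h1.trans (add_le_add
        (mul_le_mul_of_nonneg_left (hM s) (Real.exp_pos _).le) le_rfl)) (Real.exp_pos _).le).trans ?_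
      rw [mul_add, ← mul_assoc, ← mul_assoc, ← Real.exp_add, ← Real.exp_add]
      refine add_le_add (mul_le_mul_of_nonneg_right ?_ hm) ?_
      · have h2 : S.y * L3 ≤ S.y * (10 ^ 11 * (lam + ell d)) :=
          mul_le_mul_of_nonneg_left (by rw [hL3, hj2]; linarith) hy0
        refine (Real.exp_le_exp.2 (show _ ≤ 1 + (-(lam / 500000) + 2 * d * z +
          10 ^ 11 * S.y * (lam + ell d)) by linarith)).trans ?_
        rw [Real.exp_add]
        exact mul_le_mul_of_nonneg_right (by linarith [Real.exp_one_lt_d9]) (Real.exp_pos _).le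
      · refine le_trans ?_ ((exp_mul_sm zero_le_one 99 hd3).trans (sm_small (by norm_num) hd3))
        rw [show (99 + 1 : ℝ) = 100 by norm_num]
        exact mul_le_mul_of_nonneg_right (Real.exp_le_exp.2 (by linarith)) (sm_pos _ _).le
    have h1 : (avg fun ω : Fin d → A × Bool => S.Pin o AA 0 ω fun g _ => ind (Ev (nd g.1)) *
        ind (BadV ((S.add (S.Dv o AA 0 ω)).nu g) o (dn S.sp (uu ω)) (Real.exp (-(9 * S.β)))
          (lam / 20) (1 / 3))) = Op S nd Ev AA fun ω g =>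
          (S.Psi AA ω true g + S.Psi AA ω false g) ^ S.x *
            ind (BadV ((S.add (S.Dv o AA 0 ω)).nu g) o (dn S.sp (uu ω)) (Real.exp (-(9 * S.β)))
              (lam / 20) (1 / 3)) := by
      refine avg_congr fun ω => ?_
      rw [pin_eq hPin hS hO]
      refine congrArg _ (Cas.P_congr fun g _ => ?_)
      rw [(M ω g).probp.Ex_const]
      ring
    have hF' : ∀ ω g s r, 0 ≤ 2 * Real.exp (-j2) *
        (Ex (nus S AA ω g s) fun σ => Real.exp (dn S.sp (uu ω) σ r)) +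
        3 * Real.exp (1 / 25000 * (lam / 20) / 2) * Ex (nus S AA ω g s) fun σ =>
          psi (2 * j2 + 6) (hom S.sp AA ω r) *
            Real.exp (-(1 / 25000 * (sgn s * (hom S.sp AA ω σ - hom S.sp AA ω r) / 2))) :=
      fun ω g s r => add_nonneg (hF ω g s r) (mul_nonneg (by positivity)
        (Ex_nonneg ((M ω g).prob s).1 fun _ => by unfold psi; positivity))
    have h2 := Op_mono (nd := nd) (Ev := Ev) hO hG0 fun ω g => show
        (S.Psi AA ω true g + S.Psi AA ω false g) ^ S.x *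
          ind (BadV ((S.add (S.Dv o AA 0 ω)).nu g) o (dn S.sp (uu ω)) (Real.exp (-(9 * S.β)))
            (lam / 20) (1 / 3)) ≤ 3 * (S.Psi AA ω true g ^ S.x * Ex (S.mu nd (nd g.1)) _ +
              S.Psi AA ω false g ^ S.x * Ex (S.mu nd (nd g.1)) _) from
      (em _).elim
        (fun hB => by
          rw [ind_pos hB]
          exact avgpt (M ω g) (hμ g) hB.1 hx0 hy9 (hF' ω g) ((M ω g).pt1 (by norm_num) hB))
        fun hB => by
          rw [ind_neg hB, mul_zero]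
          exact mul_nonneg (by norm_num) (add_nonneg
            (mul_nonneg (Real.rpow_nonneg (psi_pos ω _ g).le _) (Ex_nonneg (hμ g).1 (hF' ω g _)))
            (mul_nonneg (Real.rpow_nonneg (psi_pos ω _ g).le _) (Ex_nonneg (hμ g).1 (hF' ω g _))))
    have e1 : ∀ (a b c e f : ℝ), a * (b * c + e * f) = b * (a * c) + e * (a * f) := fun _ _ _ _ _ => by
      ring
    simp only [Ex_add, Ex_mul (2 * Real.exp (-j2)),
      Ex_mul (3 * Real.exp (1 / 25000 * (lam / 20) / 2)), e1 (S.Psi AA _ _ _ ^ S.x), Op_add,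
      Op_mul] at h2
    rw [h1]
    have h3 := mul_nonneg (Real.exp_pos (-(lam / 500000) + 2 * d * z +
      10 ^ 11 * S.y * (lam + ell d))).le hm
    linarith [hNT true, hNT false, hYT true, hYT false]
  · have h1 : (avg fun ω : Fin d → A × Bool => S.Pin o AA 0 ω fun g σ => ind (Ev (nd g.1)) *
        ind (Real.exp (-(9 * S.β)) ≤ mn ((S.add (S.Dv o AA 0 ω)).nu g) o) *
        ind (10 ^ 11 * (lam + ell d) < |hom S.sp AA ω σ|)) = Op S nd Ev AA fun ω g =>
          (S.Psi AA ω true g + S.Psi AA ω false g) ^ S.x *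
            (ind (Real.exp (-(9 * S.β)) ≤ mn ((S.add (S.Dv o AA 0 ω)).nu g) o) *
              Ex ((S.add (S.Dv o AA 0 ω)).nu g) fun σ =>
                ind (10 ^ 11 * (lam + ell d) < |hom S.sp AA ω σ|)) := by
      refine avg_congr fun ω => ?_
      rw [pin_eq hPin hS hO]
      refine congrArg _ (Cas.P_congr fun g _ => ?_)
      rw [Ex_mul]
      ring
    have h2 := Op_mono (nd := nd) (Ev := Ev) hO hG0 fun ω g => show
        (S.Psi AA ω true g + S.Psi AA ω false g) ^ S.x *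
          (ind (Real.exp (-(9 * S.β)) ≤ mn ((S.add (S.Dv o AA 0 ω)).nu g) o) *
            Ex ((S.add (S.Dv o AA 0 ω)).nu g) fun σ =>
              ind (10 ^ 11 * (lam + ell d) < |hom S.sp AA ω σ|))
          ≤ 3 * (S.Psi AA ω true g ^ S.x * Ex (S.mu nd (nd g.1)) _ +
              S.Psi AA ω false g ^ S.x * Ex (S.mu nd (nd g.1)) _) from
      (em _).elim
        (fun hL => by
          rw [ind_pos hL, one_mul]
          exact avgpt (M ω g) (hμ g) hL hx0 hy9 (hF ω g)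
            ((M ω g).pt2 hL (by rw [hj2]; linarith)))
        fun hB => by
          rw [ind_neg hB, zero_mul, mul_zero]
          exact mul_nonneg (by norm_num) (add_nonneg
            (mul_nonneg (Real.rpow_nonneg (psi_pos ω _ g).le _) (Ex_nonneg (hμ g).1 (hF ω g _)))
            (mul_nonneg (Real.rpow_nonneg (psi_pos ω _ g).le _) (Ex_nonneg (hμ g).1 (hF ω g _))))
    simp only [Ex_mul (2 * Real.exp (-j2)), mul_left_comm (S.Psi AA _ _ _ ^ S.x), Op_add,
      Op_mul] at h2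
    rw [h1]
    refine h2.trans ?_
    have h3 := hNT true
    have h4 := hNT false
    generalize (Op S nd Ev AA fun ω g => S.Psi AA ω true g ^ S.x *
      Ex (S.mu nd (nd g.1)) fun r => Ex (nus S AA ω g true) fun σ =>
        Real.exp (dn S.sp (uu ω) σ r)) = a at h3 ⊢
    generalize (Op S nd Ev AA fun ω g => S.Psi AA ω false g ^ S.x *
      Ex (S.mu nd (nd g.1)) fun r => Ex (nus S AA ω g false) fun σ =>
        Real.exp (dn S.sp (uu ω) σ r)) = b at h4 ⊢
    linarith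

end Pool.Agent.MP_32a90a_pr.D

end

section

set_option autoImplicit false

namespace Pool.Agent.MP_32a90a_pr.D

open Finset Filter Pool.Agent.MP_32a90a_pr Pool.Agent.MP_32a90a_pr.L

namespace Join1J

variable {Sg Gm Nd : Type} [Fintype Sg] [Nonempty Sg] [Fintype Gm] {C : Cas Sg Gm}

lemma mu_nonneg (hC : C.Ok) (nd : Gm → Nd) (n : Nd) (r : Sg) : 0 ≤ C.mu nd n r :=
  div_nonneg (Cas.E_nonneg hC fun _ _ => ind_nonneg _) (Cas.E_nonneg hC fun _ _ => ind_nonneg _)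

/-- aligned configurations gain weight in the node law -/
lemma mu_le (hSafe : StSafe) (hBd : StBd) (hC : C.Ok) (nd : Gm → Nd) {D : Sg → ℝ}
    (hD : ∀ σ, |D σ| ≤ 1) (n : Nd) {r : Sg} (hr : D r = 1) :
    C.mu nd n r ≤ (C.add fun _ σ => D σ).mu nd n r := by
  have h1 := (hSafe Sg Gm C (fun _ σ => D σ) (fun g σ' => ind (nd g = n ∧ σ' = r)) 1 0 hC
    fun _ _ => ind_nonneg _).1 (fun _ σ => (abs_le.1 (hD σ)).2) fun g σ h => by
      have : σ = r := by
        by_contra h'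
        exact h (ind_neg fun h2 => h' h2.2)
      rw [this, hr, sub_zero]
  obtain ⟨h2, h3, -⟩ := (hBd Sg Gm C (fun _ σ => D σ) 1 hC fun _ σ _ => hD σ).2.1
    (fun g => ind (nd g = n)) fun _ => ind_nonneg _
  rw [mul_zero, sub_zero] at h1
  have h4 : 0 ≤ C.E fun g _ => ind (nd g = n) := Cas.E_nonneg hC fun _ _ => ind_nonneg _
  rcases h4.eq_or_lt with h5 | h5
  · rw [Cas.mu, ← h5, div_zero]
    exact mu_nonneg (hC.add _) nd n r
  · have h6 := (mul_pos (Real.exp_pos _) h5).trans_le h3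
    rw [Cas.mu, Cas.mu, ← mul_div_mul_left _ _ (Real.exp_pos (C.y * 1)).ne']
    exact div_le_div₀ (Cas.E_nonneg (hC.add _) fun _ _ => ind_nonneg _) h1 h6 h2

/-- one value of the coupling -/
lemma one (hSafe : StSafe) (hBd : StBd) (hTower : StTower) (hC : C.Ok) (nd : Gm → Nd)
    (Ev : Nd → Prop) {D : Sg → ℝ} (hD : ∀ σ, |D σ| ≤ 1) (φ : Sg → Bool) {R : Gm → Sg → ℝ}
    (hR : ∀ g σ, Real.exp (-C.y) * R g σ ≤ Real.exp (C.β * D σ) *
      (Ex (C.nu g) fun σ => Real.exp (C.β * D σ)) ^ (C.x - 1)) :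
    Real.exp (-C.y) * Real.exp (-C.y) * (C.P fun g σ => ind (Ev (nd g)) *
      (Ex (C.mu nd (nd g)) fun r => ind (D r = 1) * ind (φ σ ≠ φ r)) * R g σ)
      ≤ (C.add fun _ σ => D σ).EN nd fun n =>
        ind (Ev n) * kt ((C.add fun _ σ => D σ).mu nd n) φ := by
  obtain ⟨C', hC'⟩ : ∃ C', C' = C.add fun _ σ => D σ := ⟨_, rfl⟩
  have hO : C'.Ok := hC' ▸ hC.add _
  obtain ⟨t1, t2, -⟩ := hTower Sg Gm Nd C' nd hO
  have h0 : ∀ g σ, 0 ≤ ind (Ev (nd g)) *
      Ex (C.mu nd (nd g)) fun r => ind (D r = 1) * ind (φ σ ≠ φ r) := fun g σ =>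
    mul_nonneg (ind_nonneg _) (Ex_nonneg (mu_nonneg hC nd _) fun _ =>
      mul_nonneg (ind_nonneg _) (ind_nonneg _))
  have h1 : (C'.P fun g σ => ind (Ev (nd g)) * Ex (C'.mu nd (nd g)) fun r => ind (φ σ ≠ φ r))
      ≤ C'.EN nd fun n => ind (Ev n) * kt (C'.mu nd n) φ := by
    rw [(t2 fun n σ => ind (Ev n) * Ex (C'.mu nd n) fun r => ind (φ σ ≠ φ r)).2]
    refine Cas.P_mono_supp hO fun g _ hg => le_of_eq ?_
    show Ex _ _ = ind _ * _
    rw [Ex_mul, ← (t1 g hg).E2_ne]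
    rfl
  have h2 : (C'.P fun g σ => ind (Ev (nd g)) *
      Ex (C.mu nd (nd g)) fun r => ind (D r = 1) * ind (φ σ ≠ φ r))
      ≤ C'.P fun g σ => ind (Ev (nd g)) * Ex (C'.mu nd (nd g)) fun r => ind (φ σ ≠ φ r) := by
    refine Cas.P_mono hO fun g σ => mul_le_mul_of_nonneg_left (sum_le_sum fun r _ => ?_)
      (ind_nonneg _)
    by_cases hr : D r = 1
    · simp only [ind_pos hr, one_mul]
      exact mul_le_mul_of_nonneg_right (hC' ▸ mu_le hSafe hBd hC nd hD _ hr) (ind_nonneg _)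
    · simp only [ind_neg hr, zero_mul, mul_zero]
      exact mul_nonneg (mu_nonneg hO nd _ r) (ind_nonneg _)
  rw [← hC']
  refine le_trans ?_ (h2.trans h1)
  have h3 : C'.N ≤ Real.exp C.y * C.N := by
    have := ((hBd Sg Gm C (fun _ σ => D σ) 1 hC fun _ σ _ => hD σ).2.1 (fun _ => 1)
      fun _ => zero_le_one).1
    rw [mul_one, ← hC'] at this
    exact this
  have h4 : Real.exp (-C.y) * (C.E fun g σ => ind (Ev (nd g)) *
      (Ex (C.mu nd (nd g)) fun r => ind (D r = 1) * ind (φ σ ≠ φ r)) * R g σ)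
      ≤ C'.E fun g σ => ind (Ev (nd g)) *
        Ex (C.mu nd (nd g)) fun r => ind (D r = 1) * ind (φ σ ≠ φ r) := by
    rw [hC', Cas.E_add_eq, ← Cas.E_mul]
    refine Cas.E_mono hC fun g σ => ?_
    have := mul_le_mul_of_nonneg_right (hR g σ) (h0 g σ)
    linarith
  have h5 := Cas.N_pos hC
  have h6 : ∀ t : ℝ, Real.exp (-C.y) * Real.exp (-C.y) * (t / C.N) =
      Real.exp (-C.y) * t / (Real.exp C.y * C.N) := fun t => by
    rw [Real.exp_neg]
    field_simp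
  rw [Cas.P, Cas.P, h6]
  exact div_le_div₀ (Cas.E_nonneg hO h0) h4 (Cas.N_pos hO) h3

omit [Fintype Gm] in
/-- the response factor -/
lemma resp (hC : C.Ok) {D : Sg → ℝ} (hD : ∀ σ, |D σ| ≤ 1) (g : Gm) (σ : Sg) {k : Sg → ℝ}
    (hk : ∀ σ', D σ' ≤ D σ + 2 * k σ') :
    Real.exp (-C.y) * (Ex (C.nu g) fun σ' => Real.exp (C.β * 2 * k σ')) ^ (C.x - 1) ≤
      Real.exp (C.β * D σ) * (Ex (C.nu g) fun σ => Real.exp (C.β * D σ)) ^ (C.x - 1) := by
  have p1 : 0 < Ex (C.nu g) fun σ => Real.exp (C.β * D σ) :=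
    (Cas.nu_prob g).Ex_pos fun _ => Real.exp_pos _
  have p2 : 0 < Ex (C.nu g) fun σ' => Real.exp (C.β * 2 * k σ') :=
    (Cas.nu_prob g).Ex_pos fun _ => Real.exp_pos _
  have h1 : (Ex (C.nu g) fun σ => Real.exp (C.β * D σ)) ≤
      Real.exp (C.β * D σ) * Ex (C.nu g) fun σ' => Real.exp (C.β * 2 * k σ') := by
    rw [← Ex_mul]
    refine Ex_mono (Cas.nu_prob g).1 fun σ' => ?_
    rw [← Real.exp_add]
    exact Real.exp_le_exp.2 (by nlinarith [mul_le_mul_of_nonneg_left (hk σ') hC.1.le])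
  have h2 := Real.rpow_le_rpow_of_nonpos p1 h1 (sub_nonpos.2 hC.2.2.1)
  rw [Real.mul_rpow (Real.exp_pos _).le p2.le, ← Real.exp_mul] at h2
  refine le_trans ?_ (mul_le_mul_of_nonneg_left h2 (Real.exp_pos _).le)
  rw [← mul_assoc, ← Real.exp_add]
  refine mul_le_mul_of_nonneg_right (Real.exp_le_exp.2 ?_) (Real.rpow_nonneg p2.le _)
  have h3 := mul_le_mul_of_nonneg_left (abs_le.1 (hD σ)).1 hC.y_pos.le
  unfold Cas.y at h3 ⊢
  nlinarith

end Join1J

theorem stJoin1 (hSafe : StSafe) (hBd : StBd) (hTower : StTower) : StJoin1 := by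
  intro Sg G0 A _ _ _ _ _ _ S d a a' Nd nd Ev hd hP
  have hC : S.cas.Ok := hP.ok (by omega)
  have hR0 : ∀ g σ, 0 ≤ S.SN 2 ![a, a'] g σ := fun g σ =>
    Real.rpow_nonneg ((Cas.nu_prob g).Ex_pos fun _ => Real.exp_pos _).le _
  have key : ∀ b : Bool, _ := fun b =>
    Join1J.one hSafe hBd hTower hC (fun g => nd g.1) Ev
      (D := fun σ => sgn b * (sgn (S.sp a σ) * sgn (S.sp a' σ))) (fun σ => by simp [abs_mul])
      (S.sp a) (R := S.SN 2 ![a, a']) fun g σ => Join1J.resp hC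
        (D := fun σ => sgn b * (sgn (S.sp a σ) * sgn (S.sp a' σ))) (fun σ => by simp [abs_mul]) g σ
        (k := fun σ' => dn S.sp ![a, a'] σ' σ) fun σ' => by
          simp only [dn, Fin.sum_univ_two, Matrix.cons_val_zero, Matrix.cons_val_one]
          cases b <;> cases S.sp a σ <;> cases S.sp a' σ <;> cases S.sp a σ' <;>
            cases S.sp a' σ' <;> simp [sgn, ind] <;> norm_num
  have k1 := add_le_add (key true) (key false)
  rw [← mul_add, ← Cas.P_add] at k1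
  have k2 : (S.cas.P fun g σ => ind (Ev (nd g.1)) * (Ex (S.mu nd (nd g.1)) fun r =>
        ind (sgn true * (sgn (S.sp a r) * sgn (S.sp a' r)) = 1) * ind (S.sp a σ ≠ S.sp a r)) *
          S.SN 2 ![a, a'] g σ + ind (Ev (nd g.1)) * (Ex (S.mu nd (nd g.1)) fun r =>
        ind (sgn false * (sgn (S.sp a r) * sgn (S.sp a' r)) = 1) * ind (S.sp a σ ≠ S.sp a r)) *
          S.SN 2 ![a, a'] g σ) = S.P fun g σ => ind (Ev (nd g.1)) *
        (Ex (S.mu nd (nd g.1)) fun r => ind (S.sp a σ ≠ S.sp a r)) * S.SN 2 ![a, a'] g σ := by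
    refine Cas.P_congr fun g σ => ?_
    rw [← add_mul, ← mul_add, ← Ex_add]
    congr 2
    refine Ex_congr fun r => ?_
    rw [← add_mul]
    have : ind (sgn true * (sgn (S.sp a r) * sgn (S.sp a' r)) = 1) +
        ind (sgn false * (sgn (S.sp a r) * sgn (S.sp a' r)) = 1) = 1 := by
      cases S.sp a r <;> cases S.sp a' r <;> norm_num [sgn, ind]
    rw [this, one_mul]
  rw [k2] at k1
  have k3 : 0 ≤ S.P fun g σ => ind (Ev (nd g.1)) *
      (Ex (S.mu nd (nd g.1)) fun r => ind (S.sp a σ ≠ S.sp a r)) * S.SN 2 ![a, a'] g σ :=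
    Cas.P_nonneg hC fun g σ => mul_nonneg (mul_nonneg (ind_nonneg _)
      (Ex_nonneg (Join1J.mu_nonneg hC _ _) fun _ => ind_nonneg _)) (hR0 g σ)
  have k4 : 1 / 2 ≤ Real.exp (-S.cas.y) * Real.exp (-S.cas.y) := by
    have h1 := Real.add_one_le_exp (-S.cas.y)
    have h2 : S.cas.y ≤ 1 / 1000 := hP.2.2.1
    nlinarith
  have k5 := (mul_le_mul_of_nonneg_right k4 k3).trans k1
  rw [avg_bool]
  simp only [Sys.EN, Sys.mu, Sys.cas_add] at k5 ⊢
  unfold Sys.De
  linarith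

end Pool.Agent.MP_32a90a_pr.D

end

section

set_option autoImplicit false

namespace Pool.Agent.MP_32a90a_pr.D

open Finset Filter Pool.Agent.MP_32a90a_pr Pool.Agent.MP_32a90a_pr.L

namespace NearJ

lemma ratio {a ao bo r s F : ℝ} (hbo : 0 < bo) (hr0 : 0 ≤ r) (hr : r ≤ s * bo) (hF : 0 ≤ F)
    (h1 : |a - ao| ≤ F * r) (h2 : |ao| ≤ F * bo) : |a / (bo + r) - ao / bo| ≤ 2 * s * F := by
  have hb : 0 < bo + r := by linarith
  have hs : 0 ≤ s := nonneg_of_mul_nonneg_left (hr0.trans hr) hbo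
  have e : a / (bo + r) - ao / bo = ((a - ao) * bo - ao * r) / ((bo + r) * bo) := by
    field_simp
    ring
  rw [e, abs_div, abs_of_pos (mul_pos hb hbo), div_le_iff₀ (mul_pos hb hbo)]
  have h3 := abs_sub ((a - ao) * bo) (ao * r)
  rw [abs_mul, abs_mul, abs_of_pos hbo, abs_of_nonneg hr0] at h3
  have h4 := mul_le_mul_of_nonneg_right h1 hbo.le
  have h5 := mul_le_mul_of_nonneg_right h2 hr0
  have h6 := mul_le_mul_of_nonneg_left hr (mul_nonneg hF hbo.le)
  have h7 : 0 ≤ s * F * r * bo := by positivity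
  nlinarith

section cas
variable {Sg Gm : Type} [Fintype Sg] [Nonempty Sg] [Fintype Gm] {C : Cas Sg Gm}

lemma abs_E_le (h : C.Ok) {f g : Gm → Sg → ℝ} (hfg : ∀ γ σ, |f γ σ| ≤ g γ σ) :
    |C.E f| ≤ C.E g := by
  refine abs_le.2 ⟨?_, Cas.E_mono h fun γ σ => (abs_le.1 (hfg γ σ)).2⟩
  have := Cas.E_mono h (f := fun γ σ => -1 * g γ σ) (g := f) fun γ σ => by
    have := (abs_le.1 (hfg γ σ)).1
    linarith
  rw [Cas.E_mul] at this
  linarith

lemma cut (h : C.Ok) {o φ : Gm → ℝ} (ho : ∀ g, 0 ≤ o g ∧ o g ≤ 1) (hφ : ∀ g, 0 ≤ φ g)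
    (hR : (C.res fun g => o g * φ g).Ok) {s F : ℝ} (hF : 0 ≤ F)
    (hs : (C.E fun g _ => (1 - o g) * φ g) ≤ s * C.E fun g _ => o g * φ g)
    {f : Gm → Sg → ℝ} (hf : ∀ g σ, |f g σ| ≤ F) :
    |(C.E fun g σ => φ g * f g σ) / (C.E fun g _ => φ g) - (C.res fun g => o g * φ g).P f|
      ≤ 2 * s * F := by
  have hN := Cas.N_pos hR
  have h1 : ∀ g, 0 ≤ (1 - o g) * φ g := fun g => mul_nonneg (sub_nonneg.2 (ho g).2) (hφ g)
  have h2 : ∀ g, 0 ≤ o g * φ g := fun g => mul_nonneg (ho g).1 (hφ g)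
  have e : (C.E fun g _ => φ g) =
      (C.E fun g _ => o g * φ g) + C.E fun g _ => (1 - o g) * φ g := by
    rw [← Cas.E_add]
    exact Cas.E_congr fun g _ => by ring
  rw [Cas.P, e]
  simp only [Cas.N, Cas.E_res, mul_one] at hN ⊢
  refine ratio hN (Cas.E_nonneg h fun g _ => h1 g) hs hF ?_ ?_
  · rw [← Cas.E_sub, ← Cas.E_mul]
    refine abs_E_le h fun g σ => ?_
    rw [show φ g * f g σ - o g * φ g * f g σ = f g σ * ((1 - o g) * φ g) by ring, abs_mul,
      abs_of_nonneg (h1 g)]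
    exact mul_le_mul_of_nonneg_right (hf g σ) (h1 g)
  · rw [← Cas.E_mul]
    refine abs_E_le h fun g σ => ?_
    rw [mul_comm, abs_mul, abs_of_nonneg (h2 g)]
    exact mul_le_mul_of_nonneg_right (hf g σ) (h2 g)

lemma tilt (h : C.Ok) {Δ : Gm → Sg → ℝ} {t F : ℝ} (ht : 0 ≤ t)
    (hb : ∀ f : Gm → Sg → ℝ, (∀ γ σ, 0 ≤ f γ σ) → (C.add Δ).P f ≤ (1 + t) * C.P f)
    {f : Gm → Sg → ℝ} (hf : ∀ g σ, |f g σ| ≤ F) : |(C.add Δ).P f - C.P f| ≤ 2 * t * F := by
  have h' := h.add Δ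
  have a1 := hb (fun g σ => F + f g σ) fun g σ => by have := (abs_le.1 (hf g σ)).1; linarith
  have a2 := hb (fun g σ => F - f g σ) fun g σ => by have := (abs_le.1 (hf g σ)).2; linarith
  rw [Cas.P_add, Cas.P_add, Cas.P_const h, Cas.P_const h'] at a1
  rw [Cas.P_sub, Cas.P_sub, Cas.P_const h, Cas.P_const h'] at a2
  have a3 := mul_le_mul_of_nonneg_left (Cas.P_le_const h fun g σ => (abs_le.1 (hf g σ)).2) ht
  have a4 := mul_le_mul_of_nonneg_left (Cas.const_le_P h fun g σ => (abs_le.1 (hf g σ)).1) ht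
  rw [abs_le]
  constructor <;> nlinarith

end cas

variable {Sg G0 A : Type} [Fintype G0] [Fintype A] {S S' : Sys Sg G0 A} {D : G0 → Sg → ℝ}
  {I : Finset A} {dl : ℝ}

lemma cas_eq (hn : S.Near S' D I dl) : ∃ Δ : Gam G0 A → Sg → ℝ,
    S'.cas = (S.add D).cas.add Δ ∧ ∀ g σ, oI I g = 1 → |Δ g σ| ≤ dl := by
  obtain ⟨h1, h2, h3, h4, h5, h6, h7⟩ := hn
  refine ⟨fun g σ => S'.cas.H g σ - (S.add D).cas.H g σ, ?_, fun g σ hg => ?_⟩
  · simp only [Cas.add, add_sub_cancel]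
    simp only [Sys.cas, Sys.add, h1, h2, h3]
  · have h8 : ∀ a ∈ I, g.2 a = none := by
      by_contra h
      rw [oI, ind_neg h] at hg
      exact zero_ne_one hg
    have h9 : ∑ a, gad S'.tp S'.tm (g.2 a) (S'.sp a σ) = ∑ a, gad S.tp S.tm (g.2 a) (S.sp a σ) := by
      refine sum_congr rfl fun a _ => ?_
      by_cases ha : a ∈ I
      · rw [h8 a ha]; rfl
      · rw [h7 a ha, h4, h5]
    simp only [Sys.cas, Sys.add, h9]
    refine le_of_eq_of_le ?_ (h6 g.1 σ)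
    congr 1
    ring

omit [Fintype G0] [Fintype A] in
lemma oI_mem (g : Gam G0 A) : 0 ≤ oI I g ∧ oI I g ≤ 1 := ⟨ind_nonneg _, ind_le_one _⟩

lemma res_ok [Nonempty G0] {d : ℕ} (h : S.Par d) (hd : 3 ≤ d) (I : Finset A) {φ : G0 → ℝ}
    (hφ : ∀ g, 0 ≤ φ g) {g0 : G0} (h0 : φ g0 ≠ 0) :
    (S.cas.res fun g => oI I g * φ g.1).Ok ∧
      ∀ g, 0 < (S.cas.res fun g => oI I g * φ g.1).p g → oI I g = 1 := by
  obtain ⟨a, b, c, e, -⟩ := h.ok hd
  refine ⟨⟨a, b, c, fun g => mul_nonneg (e g) (mul_nonneg (oI_mem g).1 (hφ _)),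
    (g0, fun _ => none), mul_pos (Sys.p_pos h.2.2.2.2.1 (h.rho_lt hd) _) ?_⟩, fun g hg => ?_⟩
  · exact mul_pos (lt_of_lt_of_eq one_pos (ind_pos fun _ _ => rfl).symm)
      (lt_of_le_of_ne (hφ _) h0.symm)
  · refine (ind_cases _).resolve_left fun h1 => ?_
    have h2 : oI I g = 0 := h1
    simp [Cas.res, h2] at hg

lemma log_cut {N a ρ : ℝ} {n : ℕ} (ha : 0 < a) (hρ : 0 < ρ) (h1 : a ≤ N)
    (h2 : N ≤ (1 + 2 * ρ) ^ n * a) :
    Real.log a ≤ Real.log N ∧ Real.log N ≤ Real.log a + 2 * ρ * n := by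
  refine ⟨Real.log_le_log ha h1, (Real.log_le_log (ha.trans_le h1) h2).trans ?_⟩
  rw [Real.log_mul (by positivity) ha.ne', Real.log_pow]
  have h3 := Real.log_le_sub_one_of_pos (x := 1 + 2 * ρ) (by positivity)
  have h4 := mul_le_mul_of_nonneg_left h3 (Nat.cast_nonneg (α := ℝ) n)
  linarith

end NearJ

open NearJ in
theorem stNear (hBd : StBd) (hOI : StOI) : StNear := by
  intro Sg G0 A _ _ _ _ _ _ S d S' D I dl hd hS hn hI
  have hd3 : 3 ≤ d := by omega
  have hT := hS.add D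
  have hS' := hn.par hS
  obtain ⟨Δ, hΔ, hb⟩ := cas_eq hn
  have hres : ∀ o, S'.cas.res o = ((S.add D).cas.res o).add Δ := fun o => by rw [hΔ]; rfl
  obtain ⟨g1⟩ : Nonempty G0 := inferInstance
  obtain ⟨r1, r2⟩ := res_ok hT hd3 I (φ := fun _ => 1) (fun _ => zero_le_one) (g0 := g1)
    one_ne_zero
  obtain ⟨-, -, b1, b2⟩ := hBd _ _ _ Δ dl r1 fun g σ hg => hb g σ (r2 g hg)
  refine ⟨?_, fun g σ hg => ?_, fun hdl φ f f' F hφ hf hf' hff => ?_⟩
  · have key : ∀ U : Sys Sg G0 A, U.Par d →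
        Real.log (U.cas.res fun g => oI I g * 1).N ≤ Real.log U.N ∧
        Real.log U.N ≤ Real.log (U.cas.res fun g => oI I g * 1).N + 2 * U.ρ * I.card := by
      intro U hU
      have h1 := (hOI _ _ _ U d (fun _ => 1) I hd hU fun _ => zero_le_one).1
      refine log_cut (Cas.N_pos (res_ok hU hd3 I (φ := fun _ => 1) (fun _ => zero_le_one)
        (g0 := g1) one_ne_zero).1) hU.2.2.2.2.1 ?_ ?_
      · rw [Cas.N, Cas.E_res]
        exact Cas.E_mono (hU.ok hd3) fun g _ => by simpa using (oI_mem g).2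
      · simpa only [Cas.N, Sys.N, Sys.E, Cas.E_res, mul_one] using h1
    obtain ⟨k1, k2⟩ := key _ hT
    obtain ⟨k3, k4⟩ := key _ hS'
    rw [hres] at k3 k4
    rw [hn.2.2.1] at k4
    have e1 : (S.add D).ρ = S.ρ := rfl
    have e2 : ((S.add D).cas.res fun g => oI I g * 1).y = S.y := rfl
    rw [e1] at k2
    rw [e2, abs_le] at b1
    rw [abs_le]
    constructor <;> linarith [b1.1, b1.2]
  · have h1 := b2 g σ (mul_pos (Sys.p_pos hT.2.2.2.2.1 (hT.rho_lt hd3) g) (by simp [hg]))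
    rw [← hres] at h1
    exact h1
  · obtain ⟨σ0⟩ : Nonempty Sg := inferInstance
    have hF : 0 ≤ F := (abs_nonneg _).trans (hf (g1, fun _ => none) σ0)
    by_cases h0 : ∀ g, φ g = 0
    · simp only [h0, zero_mul, Cas.E_const, zero_div, sub_zero, abs_zero]
      exact mul_nonneg (sm_pos _ _).le hF
    push Not at h0
    obtain ⟨g0, h0⟩ := h0
    obtain ⟨q1, q2⟩ := res_ok hT hd3 I hφ h0
    obtain ⟨q3, q4⟩ := res_ok hS' hd3 I hφ h0
    have c1 := cut (hT.ok hd3) oI_mem (fun g => hφ g.1) q1 hF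
      ((hOI _ _ _ _ d φ I hd hT hφ).2 hI) hf
    have c2 := cut (hS'.ok hd3) oI_mem (fun g => hφ g.1) q3 hF
      ((hOI _ _ _ _ d φ I hd hS' hφ).2 hI) hf'
    have c3 : (S'.cas.res fun g => oI I g * φ g.1).P f' =
        (S'.cas.res fun g => oI I g * φ g.1).P f :=
      le_antisymm (Cas.P_mono_supp q3 fun g σ hg => (hff g σ (q4 g hg)).ge)
        (Cas.P_mono_supp q3 fun g σ hg => (hff g σ (q4 g hg)).le)
    have hd' : (1000 : ℝ) ≤ d := by exact_mod_cast hd
    have s1 : 4 * sm 300 d ≤ 1 := by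
      have := mul_sm_le (a := 4) 299 hd3 (by linarith)
      have h2 := sm_le_one (k := 299) (by norm_num) d
      norm_num at this
      linarith
    have s2 : Real.exp (4 * S.β * dl) ≤ 1 + 8 * sm 300 d := by
      have h1 : Real.exp (4 * S.β * dl) ≤ Real.exp (4 * sm 300 d) :=
        Real.exp_le_exp.2 (by linarith)
      have h2 := sm_pos 300 d
      have h3 := Real.abs_exp_sub_one_le (x := 4 * sm 300 d) (by rwa [abs_of_pos (by linarith)])
      rw [abs_of_pos (a := 4 * sm 300 d) (by linarith), abs_le] at h3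
      linarith [h3.2]
    have c4 := tilt q1 (Δ := Δ) (t := 8 * sm 300 d) (by have := sm_pos 300 d; linarith)
      (fun f hf => ((hBd _ _ _ Δ dl q1 fun g σ hg => hb g σ (q2 g hg)).1 f hf).2.2.1.trans
        (mul_le_mul_of_nonneg_right s2 (Cas.P_nonneg q1 hf))) hf
    rw [c3, hres] at c2
    have s3 : 4 * sm 295 d + 16 * sm 300 d ≤ sm 280 d := by
      have h1 := mul_sm_le (a := 20) 294 hd3 (by linarith)
      have h2 := sm_anti (k := 280) (k' := 294) (by norm_num) d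
      have h3 := sm_anti (k := 295) (k' := 300) (by norm_num) d
      norm_num at h1
      linarith
    have s4 := mul_le_mul_of_nonneg_right s3 hF
    rw [abs_le] at c1 c2 c4 ⊢
    constructor <;> linarith [c1.1, c1.2, c2.1, c2.2, c4.1, c4.2]

end Pool.Agent.MP_32a90a_pr.D

end

section

set_option autoImplicit false

namespace Pool.Agent.MP_32a90a_pr.D

open Finset Filter Pool.Agent.MP_32a90a_pr Pool.Agent.MP_32a90a_pr.L

namespace NtailJ

lemma exp_small {t : ℝ} (h : t ≤ 1 / 200) : Real.exp t ≤ 101 / 100 := by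
  have h1 := Real.add_one_le_exp (-t)
  have h2 := mul_le_mul_of_nonneg_left h1 (Real.exp_pos t).le
  rw [← Real.exp_add, add_neg_cancel, Real.exp_zero] at h2
  nlinarith [Real.exp_pos t]

lemma num {π o u X : ℝ} (h0 : 0 ≤ π) (h1 : π ≤ 101 / 100) (ho : o = 0 ∨ o = 1) (hu : 1 ≤ u)
    (hX : X = 0 ∨ X = 1) : π * (o * u * (1 + 7 / 4 * X)) ≤ π + 3 * (o * (u - 1)) + 2 * X := by
  rcases ho with rfl | rfl <;> rcases hX with rfl | rfl <;> nlinarith

variable {Sg G0 A Nd : Type} [Fintype Sg] [Nonempty Sg] [Fintype G0] [Nonempty G0] [Fintype A]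
  [DecidableEq A] {S : Sys Sg G0 A} {d : ℕ}

lemma step (hSv : StSv) (hTower : StTower) (hBd : StBd) {lam zb F : ℝ} {nd : G0 → Nd}
    {Ev : Nd → Prop} (hd : 1000 ≤ d) (hP : S.Par d) (hD1 : S.D1 d lam) (hz : 0 ≤ zb)
    (hCl : S.Cl d nd Ev zb) (D : G0 → Sg → ℝ) (I : Finset A) (f : G0 → Sg → Sg → ℝ)
    (π : G0 → Sg → Sg → A × Bool → ℝ) (ρ : Gam G0 A → Sg → Sg → A × Bool → ℝ)
    (hD : ∀ g σ, |D g σ| ≤ 3 * d) (hI : I.card ≤ d + 2)
    (hf : ∀ g σ r, 0 ≤ f g σ r ∧ f g σ r ≤ F)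
    (hπ : ∀ g σ r o, 0 ≤ π g σ r o ∧ π g σ r o ≤ 101 / 100) (hπ1 : ∀ g σ r, avg (π g σ r) = 1)
    (hρ : ∀ g σ r o, ρ g σ r o ≤ oA I o.1 g * (S.add D).Sv (-2) o.1 g σ *
      (1 + 7 / 4 * ind (S.sp o.1 σ ≠ S.sp o.1 r))) :
    ((S.add D).E fun g σ => oI I g * ind (Ev (nd g.1)) * Ex (S.mu nd (nd g.1)) fun r =>
        f g.1 σ r * avg fun o : A × Bool => π g.1 σ r o * ρ g σ r o)
      ≤ (1 + 6 * lam / d + 2 * min zb 1) *
          ((S.add D).E fun g σ => oI I g * ind (Ev (nd g.1)) * Ex (S.mu nd (nd g.1)) (f g.1 σ))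
        + 5 * sm 200 d * F * S.N := by
  have hd3 : 3 ≤ d := by omega
  have hok := hP.ok hd3
  have hok' := (hP.add D).ok hd3
  have := hP.nonempty
  have hmu : ∀ g : G0, Prob (S.mu nd (nd g)) := fun g =>
    (hTower _ _ _ S.cas (fun g => nd g.1) hok).1 (g, fun _ => none)
      (Sys.p_pos hP.2.2.2.2.1 (hP.rho_lt hd3) _)
  have hF : 0 ≤ F := by
    obtain ⟨g⟩ := ‹Nonempty G0›
    obtain ⟨σ⟩ := ‹Nonempty Sg›
    exact (hf g σ σ).1.trans (hf g σ σ).2
  have hu : ∀ a g σ, 1 ≤ (S.add D).Sv (-2) a g σ := fun a g σ => by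
    obtain ⟨-, h1, h2, -⟩ := hSv _ _ _ (S.add D) d hd3 (hP.add D) a g σ
    exact h2.ge.trans (h1 _ _ (by norm_num))
  have h1 : ∀ g σ r, f g.1 σ r * (avg fun o : A × Bool => π g.1 σ r o * ρ g σ r o) ≤
      f g.1 σ r * (1 + 2 * min zb 1 + 3 * avg fun a => oA I a g * ((S.add D).Sv (-2) a g σ - 1)) +
        2 * F * ind (zb < fr S.sp σ r) := fun g σ r => by
    have e1 : (avg fun o : A × Bool => π g.1 σ r o * ρ g σ r o) ≤
        1 + 3 * (avg fun a => oA I a g * ((S.add D).Sv (-2) a g σ - 1)) + 2 * fr S.sp σ r := by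
      refine (avg_mono fun o => (mul_le_mul_of_nonneg_left (hρ g σ r o) (hπ _ _ _ _).1).trans
        (num (hπ _ _ _ _).1 (hπ _ _ _ _).2 (ind_cases _) (hu _ _ _) (ind_cases _))).trans
        (le_of_eq ?_)
      rw [avg_add, avg_add, avg_mul, avg_mul, avg_prod (f := fun o : A × Bool => _ * (_ - 1)),
        avg_prod (f := fun o : A × Bool => ind _)]
      simp only [avg_const]
      rw [← hπ1 g.1 σ r]
      rfl
    have e2 : fr S.sp σ r ≤ 1 := avg_le_const zero_le_one fun _ => ind_le_one _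
    have e3 : fr S.sp σ r ≤ min zb 1 + ind (zb < fr S.sp σ r) := by
      by_cases h : zb < fr S.sp σ r
      · rw [ind_pos h]
        linarith [le_min hz zero_le_one]
      · rw [ind_neg h, add_zero]
        exact le_min (not_lt.1 h) e2
    nlinarith [mul_le_mul_of_nonneg_left (e1.trans (add_le_add_right
      (mul_le_mul_of_nonneg_left e3 zero_le_two) _)) (hf g.1 σ r).1,
      mul_le_mul_of_nonneg_right (hf g.1 σ r).2 (ind_nonneg (zb < fr S.sp σ r))]
  obtain ⟨-, -, h2, -⟩ := hD1.2.2 D I (fun g σ => ind (Ev (nd g)) * Ex (S.mu nd (nd g)) (f g σ)) F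
    ⟨hD, hI, fun g σ => mul_nonneg (ind_nonneg _) (Ex_nonneg (hmu g).1 fun r => (hf g σ r).1),
      fun g σ => (mul_le_of_le_one_left (Ex_nonneg (hmu g).1 fun r => (hf g σ r).1)
        (ind_le_one _)).trans ((hmu g).Ex_le fun r => (hf g σ r).2)⟩
  have hc : ∀ (g : Gam G0 A) σ, 0 ≤ ind (Ev (nd g.1)) *
      Ex (S.mu nd (nd g.1)) fun r => ind (zb < fr S.sp σ r) := fun g σ =>
    mul_nonneg (ind_nonneg _) (Ex_nonneg (hmu _).1 fun _ => ind_nonneg _)
  have h3 := ((hBd _ _ S.cas (fun g σ => D g.1 σ) (3 * d) hok fun g σ _ => hD g.1 σ).1 _ hc).1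
  rw [← Sys.cas_add, Cas.E_eq_P_mul hok] at h3
  have hN := (Cas.N_pos hok).le
  have hβ : 0 ≤ S.β := zero_le_one.trans hP.1
  have h4 : Real.exp (2 * S.cas.β * (3 * d)) * sm (7 * S.β + 200) d ≤ sm 200 d := by
    have := exp_mul_sm (c := 6 * S.β) (by positivity) (S.β + 200) hd3
    rw [show S.β + 200 + 6 * S.β = 7 * S.β + 200 by ring,
      show 6 * S.β * d = 2 * S.cas.β * (3 * d) by show _ = 2 * S.β * _; ring] at this
    exact this.trans (sm_anti (by linarith) d)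
  have h5 := h3.trans ((mul_le_mul_of_nonneg_left (mul_le_mul_of_nonneg_right hCl hN)
    (Real.exp_pos _).le).trans ((mul_assoc _ _ _).ge.trans (mul_le_mul_of_nonneg_right h4 hN)))
  have h6 := mul_le_mul_of_nonneg_left h5 hF
  refine (Cas.E_mono hok' (g := fun g σ => (1 + 2 * min zb 1) *
    (oI I g * ind (Ev (nd g.1)) * Ex (S.mu nd (nd g.1)) (f g.1 σ)) +
    3 * (oI I g * (ind (Ev (nd g.1)) * Ex (S.mu nd (nd g.1)) (f g.1 σ)) *
      avg fun a => oA I a g * ((S.add D).Sv (-2) a g σ - 1)) +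
    2 * F * (ind (Ev (nd g.1)) * Ex (S.mu nd (nd g.1)) fun r => ind (zb < fr S.sp σ r)))
    fun g σ => ?_).trans ?_
  · have e1 := mul_le_mul_of_nonneg_left (Ex_mono (hmu g.1).1 (h1 g σ))
      (mul_nonneg (ind_nonneg (∀ a ∈ I, g.2 a = none)) (ind_nonneg (Ev (nd g.1))))
    rw [Ex_add, Ex_mul_right, Ex_mul] at e1
    have e2 := mul_le_mul_of_nonneg_left (mul_le_of_le_one_left (hc g σ)
      (ind_le_one (∀ a ∈ I, g.2 a = none))) hF
    unfold oI
    linarith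
  · rw [Cas.E_add, Cas.E_add, Cas.E_mul, Cas.E_mul, Cas.E_mul]
    simp only [Sys.EI, mul_one, ← mul_assoc] at h2 ⊢
    have e : 6 * lam / d = 3 * (2 * lam / d) := by ring
    rw [e]
    linarith

noncomputable section

/-- sum over the first slots -/
def ps {Om : Type} (φ : Fin d → Om → ℝ) (i : ℕ) (ω : Fin d → Om) : ℝ :=
  ∑ k, if k.val < i then φ k (ω k) else 0

lemma ps_congr {Om : Type} (φ : Fin d → Om → ℝ) {i : ℕ} {ω ω' : Fin d → Om}
    (h : ∀ k : Fin d, k.val < i → ω k = ω' k) : ps φ i ω = ps φ i ω' :=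
  sum_congr rfl fun k _ => by
    split_ifs with hk
    · rw [h k hk]
    · rfl

lemma ps_succ {Om : Type} (φ : Fin d → Om → ℝ) (i : Fin d) (ω : Fin d → Om) (o : Om) :
    ps φ (i.val + 1) (Function.update ω i o) = ps φ i ω + φ i o := by
  rw [ps, ps, ← Fintype.sum_ite_eq' i fun _ => φ i o, ← sum_add_distrib]
  refine sum_congr rfl fun k _ => ?_
  by_cases hk : k = i
  · subst hk
    simp
  · have : k.val < i.val + 1 ↔ k.val < i.val := by
      have := Fin.val_ne_of_ne hk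
      omega
    simp only [Function.update_of_ne hk, if_neg hk, add_zero, this]

lemma ps_top {Om : Type} (φ : Fin d → Om → ℝ) (ω : Fin d → Om) : ps φ d ω = ∑ k, φ k (ω k) :=
  sum_congr rfl fun k _ => if_pos k.2

lemma ps_abs {Om : Type} {φ : Fin d → Om → ℝ} {c : ℝ} (h : ∀ k o, |φ k o| ≤ c) (i : ℕ)
    (ω : Fin d → Om) : |ps φ i ω| ≤ c * d := by
  refine (abs_sum_le_sum_abs _ _).trans ((sum_le_card_nsmul _ _ c fun k _ => ?_).trans ?_)
  · split_ifs
    · exact h _ _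
    · exact abs_zero.trans_le ((abs_nonneg _).trans (h k (ω k)))
  · rw [card_univ, Fintype.card_fin, nsmul_eq_mul, mul_comm]

/-- field of one slot -/
def dl (S : Sys Sg G0 A) (AA : Finset (Fin d)) (s : Bool) (σ : Sg) (k : Fin d) (o : A × Bool) : ℝ :=
  sgn s * (Jc AA k o.2 * sgn (S.sp o.1 σ))

/-- positions of the first slots -/
def II (i : ℕ) (ω : Fin d → A × Bool) : Finset A :=
  (univ.filter fun k : Fin d => k.val < i).image fun k => (ω k).1

/-- visible weight -/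
def hh (S : Sys Sg G0 A) (AA : Finset (Fin d)) (s : Bool) (i : ℕ) (ω : Fin d → A × Bool)
    (σ r : Sg) : ℝ :=
  ind (∀ k k' : Fin d, k.val < i → k'.val < i → (ω k).1 = (ω k').1 → k = k') *
    Real.exp (ps (fun k o => ind (S.sp o.1 σ ≠ S.sp o.1 r) - S.y * dl S AA s r k o) i ω)

/-- weight with the gadgets summed out -/
def WW (C : Sys Sg G0 A) (I : Finset A) (e : G0 → ℝ) (μ : G0 → Sg → ℝ)
    (h : Gam G0 A → Sg → Sg → ℝ) (ξ : G0 × Sg × Sg) : ℝ :=
  ∑ ζ, C.cas.wt (ξ.1, ζ) ξ.2.1 * (oI I (ξ.1, ζ) * e ξ.1 * (μ ξ.1 ξ.2.2 * h (ξ.1, ζ) ξ.2.1 ξ.2.2))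

omit [Nonempty Sg] [Nonempty G0] in
lemma sum_WW (C : Sys Sg G0 A) (I : Finset A) (e : G0 → ℝ) (μ : G0 → Sg → ℝ)
    (h : Gam G0 A → Sg → Sg → ℝ) (f : G0 × Sg × Sg → ℝ) (N : ℝ) :
    ∑ ξ, f ξ * (WW C I e μ h ξ / N) =
      (C.E fun g σ => oI I g * e g.1 * Ex (μ g.1) fun r => f (g.1, σ, r) * h g σ r) / N := by
  simp only [Cas.E, WW, Ex, Fintype.sum_prod_type, mul_sum, sum_div]
  refine sum_congr rfl fun g _ => ?_
  rw [sum_comm (s := (univ : Finset (A → Option Bool)))]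
  refine sum_congr rfl fun σ _ => ?_
  rw [sum_comm]
  exact sum_congr rfl fun _ _ => sum_congr rfl fun _ _ => by ring

omit [Fintype Sg] [Nonempty Sg] [Fintype G0] [Nonempty G0] [Fintype A] [DecidableEq A] in
lemma dl_abs (AA : Finset (Fin d)) (s : Bool) (σ : Sg) (k : Fin d) (o : A × Bool) :
    |dl S AA s σ k o| ≤ 1 := by
  unfold dl Jc
  split_ifs <;> simp [abs_mul]

omit [Fintype Sg] [Nonempty Sg] [Fintype G0] [Nonempty G0] [Fintype A] [DecidableEq A] in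
lemma dl_sub (AA : Finset (Fin d)) (s : Bool) (σ σ' : Sg) (k : Fin d) (o : A × Bool) :
    dl S AA s σ k o - dl S AA s σ' k o ≤ 2 * ind (S.sp o.1 σ' ≠ S.sp o.1 σ) := by
  by_cases h : S.sp o.1 σ' = S.sp o.1 σ
  · simp [dl, h, ind]
  · rw [ind_pos h]
    linarith [abs_le.1 (dl_abs (S := S) AA s σ k o), abs_le.1 (dl_abs (S := S) AA s σ' k o)]

omit [DecidableEq A] in
lemma ratio (hd : 3 ≤ d) (hP : S.Par d) (D : G0 → Sg → ℝ) (AA : Finset (Fin d)) (s : Bool)
    (k : Fin d) (o : A × Bool) (g : Gam G0 A) (σ r : Sg) :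
    Real.exp (S.β * dl S AA s σ k o) *
      (Ex ((S.add D).nu g) fun σ => Real.exp (S.β * dl S AA s σ k o)) ^ (S.x - 1) *
      Real.exp (ind (S.sp o.1 σ ≠ S.sp o.1 r) - S.y * dl S AA s r k o) ≤
      (S.add D).Sv (-2) o.1 g σ * (1 + 7 / 4 * ind (S.sp o.1 σ ≠ S.sp o.1 r)) := by
  have hok := hP.ok hd
  have hn : Prob ((S.add D).nu g) := Cas.nu_prob g
  have h0 := hn.Ex_pos (f := fun σ' => Real.exp (S.β * (-2) * ind (S.sp o.1 σ' ≠ S.sp o.1 σ)))
    fun _ => Real.exp_pos _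
  have h1 : Real.exp (S.β * dl S AA s σ k o) * (Ex ((S.add D).nu g) fun σ' =>
      Real.exp (S.β * (-2) * ind (S.sp o.1 σ' ≠ S.sp o.1 σ))) ≤
      Ex ((S.add D).nu g) fun σ => Real.exp (S.β * dl S AA s σ k o) := by
    rw [← Ex_mul]
    refine Ex_mono hn.1 fun σ' => ?_
    rw [← Real.exp_add, Real.exp_le_exp]
    have : 0 < S.β := hok.1
    nlinarith [dl_sub (S := S) AA s σ σ' k o]
  have h2 := Real.rpow_le_rpow_of_nonpos (mul_pos (Real.exp_pos _) h0) h1
    (show S.x - 1 ≤ 0 from sub_nonpos.2 hok.2.2.1)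
  rw [Real.mul_rpow (Real.exp_pos _).le h0.le, ← Real.exp_mul] at h2
  have h3 : Real.exp (S.y * (dl S AA s σ k o - dl S AA s r k o) + ind (S.sp o.1 σ ≠ S.sp o.1 r)) ≤
      1 + 7 / 4 * ind (S.sp o.1 σ ≠ S.sp o.1 r) := by
    have hy := mul_le_mul_of_nonneg_left (dl_sub (S := S) AA s σ r k o) hok.y_pos.le
    by_cases h : S.sp o.1 σ = S.sp o.1 r
    · simp [dl, h, ind]
    · rw [ind_pos (Ne.symm h)] at hy
      have h4 := exp_small (t := S.y * (dl S AA s σ k o - dl S AA s r k o))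
        (hy.trans (by have : S.cas.y ≤ 1 / 1000 := hP.2.2.1; linarith))
      rw [ind_pos h, Real.exp_add]
      nlinarith [Real.exp_one_lt_d9, Real.exp_pos 1]
  refine (mul_le_mul_of_nonneg_right (mul_le_mul_of_nonneg_left h2 (Real.exp_pos _).le)
    (Real.exp_pos _).le).trans (le_trans (le_of_eq ?_)
    (mul_le_mul_of_nonneg_left h3 (Real.rpow_nonneg h0.le _)))
  rw [← mul_assoc, mul_right_comm, ← Real.exp_add, ← Real.exp_add, mul_comm]
  congr 2
  unfold Sys.y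
  ring

omit [Fintype Sg] [Nonempty Sg] [Fintype G0] [Nonempty G0] [Fintype A] in
lemma o_succ (i : Fin d) (ω : Fin d → A × Bool) (o : A × Bool) (g : Gam G0 A) :
    oI (II (i.val + 1) (Function.update ω i o)) g * ind (∀ k k' : Fin d, k.val < i.val + 1 →
      k'.val < i.val + 1 → (Function.update ω i o k).1 = (Function.update ω i o k').1 → k = k') ≤
    oI (II i ω) g * ind (∀ k k' : Fin d, k.val < i → k'.val < i → (ω k).1 = (ω k').1 → k = k') *
      oA (II i ω) o.1 g := by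
  rw [oI, oI, oA, ← ind_and, ← ind_and, ← ind_and]
  refine ind_mono fun ⟨h1, h2⟩ => ?_
  simp only [II, forall_mem_image] at h1 ⊢
  simp only [mem_filter, mem_univ, true_and, mem_image, not_exists, not_and] at h1 ⊢
  have e : ∀ k : Fin d, k.val < i.val → Function.update ω i o k = ω k := fun k hk =>
    Function.update_of_ne (Fin.ne_of_val_ne hk.ne) _ _
  refine ⟨⟨fun k hk => ?_, fun k k' hk hk' h => h2 k k' (by omega) (by omega) ?_⟩,
    fun k hk h => ?_, ?_⟩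
  · rw [← e k hk]
    exact h1 (by omega)
  · rwa [e k hk, e k' hk']
  · exact Fin.ne_of_val_ne hk.ne (h2 k i (by omega) (by omega)
      (by rw [e k hk, Function.update_self, h]))
  · simpa using h1 (x := i) (by omega)

/-- the weights of the sequential bound -/
def Wt (S : Sys Sg G0 A) (nd : G0 → Nd) (Ev : Nd → Prop) (AA : Finset (Fin d)) (s : Bool) (i : ℕ)
    (ω : Fin d → A × Bool) (ξ : G0 × Sg × Sg) : ℝ :=
  WW (S.add fun _ σ => ps (dl S AA s σ) i ω) (II i ω) (fun g => ind (Ev (nd g)))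
    (fun g => S.mu nd (nd g)) (fun _ => hh S AA s i ω) ξ / S.N

lemma wt_succ (hd : 3 ≤ d) (hP : S.Par d) {nd : G0 → Nd} (hmu : ∀ g, Prob (S.mu nd (nd g)))
    (Ev : Nd → Prop) (AA : Finset (Fin d)) (s : Bool) (i : Fin d) (ω : Fin d → A × Bool)
    (π : A × Bool → ℝ) (hπ : ∀ o, 0 ≤ π o) (ξ : G0 × Sg × Sg) :
    (avg fun o => π o * Wt S nd Ev AA s (i.val + 1) (Function.update ω i o) ξ) ≤
    WW (S.add fun _ σ => ps (dl S AA s σ) i ω) (II i ω) (fun g => ind (Ev (nd g)))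
      (fun g => S.mu nd (nd g)) (fun g σ r => hh S AA s i ω σ r * avg fun o => π o *
        (oA (II i ω) o.1 g * (S.add fun _ σ => ps (dl S AA s σ) i ω).Sv (-2) o.1 g σ *
          (1 + 7 / 4 * ind (S.sp o.1 σ ≠ S.sp o.1 r)))) ξ / S.N := by
  simp only [Wt, WW, ← avg_mul, ← avg_sum, ← avg_div, ← mul_div_assoc]
  refine avg_mono fun o => div_le_div_of_nonneg_right ?_ (Cas.N_pos (hP.ok hd)).le
  rw [mul_sum]
  refine sum_le_sum fun ζ _ => ?_
  simp only [ps_succ, hh, Real.exp_add]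
  have eb : ∀ D, (S.add D).cas.β = S.β := fun _ => rfl
  have ex : ∀ D, (S.add D).cas.x = S.x := fun _ => rfl
  rw [← Sys.add_add, Sys.cas_add, Cas.wt_add, eb, ex]
  have h1 := mul_le_mul (o_succ i ω o (ξ.1, ζ))
    (ratio hd hP (fun _ σ => ps (dl S AA s σ) i ω) AA s i o (ξ.1, ζ) ξ.2.1 ξ.2.2)
    (mul_nonneg (mul_nonneg (Real.exp_pos _).le (Real.rpow_nonneg
      (Ex_nonneg (Cas.nu_prob _).1 fun _ => (Real.exp_pos _).le) _)) (Real.exp_pos _).le)
    (mul_nonneg (mul_nonneg (ind_nonneg _) (ind_nonneg _)) (ind_nonneg _))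
  have h2 := mul_le_mul_of_nonneg_left h1 (mul_nonneg (mul_nonneg (mul_nonneg (mul_nonneg (hπ o)
    (Cas.wt_nonneg ((hP.add fun _ σ => ps (dl S AA s σ) i ω).ok hd) (ξ.1, ζ) ξ.2.1))
    (ind_nonneg (Ev (nd ξ.1)))) ((hmu ξ.1).1 ξ.2.2)) (Real.exp_pos (ps (fun k o =>
      ind (S.sp o.1 ξ.2.1 ≠ S.sp o.1 ξ.2.2) - S.y * dl S AA s ξ.2.2 k o) i ω)).le)
  refine le_trans (le_of_eq ?_) (h2.trans (le_of_eq ?_)) <;> ring

end

end NtailJ

open NtailJ in
theorem stNtail (hSeqU : StSeqU) (hSv : StSv) (hGw : StGw) (hTower : StTower) (hBd : StBd) :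
    StNtail := by
  intro Sg G0 A _ _ _ _ _ _ S d lam zb Nd nd Ev AA s hd hP hD1 hz hCl
  have hd3 : 3 ≤ d := by omega
  have hdR : (1000 : ℝ) ≤ d := by exact_mod_cast hd
  have hok := hP.ok hd3
  have hN := Cas.N_pos hok
  have := hP.nonempty
  have hy0 : 0 ≤ S.y := hok.y_pos.le
  have hy1 : S.y ≤ 1 / 1000 := hP.2.2.1
  have hmu : ∀ g : G0, Prob (S.mu nd (nd g)) := fun g =>
    (hTower _ _ _ S.cas (fun g => nd g.1) hok).1 (g, fun _ => none)
      (Sys.p_pos hP.2.2.2.2.1 (hP.rho_lt hd3) _)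
  have hG := fun ω => hGw _ _ _ S d d AA ω hd3 hP
  have hh0 : ∀ i ω σ r, 0 ≤ hh S AA s i ω σ r ∧ hh S AA s i ω σ r ≤ Real.exp (2 * d) :=
    fun i ω σ r => ⟨mul_nonneg (ind_nonneg _) (Real.exp_pos _).le,
      (mul_le_of_le_one_left (Real.exp_pos _).le (ind_le_one _)).trans (Real.exp_le_exp.2
        ((le_abs_self _).trans (ps_abs (fun k o => by
          have h1 := abs_le.1 (dl_abs (S := S) AA s r k o)
          have h2 := ind_nonneg (S.sp o.1 σ ≠ S.sp o.1 r)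
          have h3 := ind_le_one (S.sp o.1 σ ≠ S.sp o.1 r)
          rw [abs_le]
          constructor <;> nlinarith) i ω)))⟩
  have hs : ∀ t : ℝ, sgn s * t ≤ |t| := fun t =>
    (le_abs_self _).trans_eq (by rw [abs_mul, abs_sgn, one_mul])
  have hl : 0 ≤ 6 * lam / d ∧ 6 * lam / d ≤ 7 :=
    ⟨div_nonneg (by linarith [hD1.1]) (by linarith), by
      rw [div_le_iff₀ (by linarith)]; linarith [hD1.2.1]⟩
  have hm0 := le_min hz zero_le_one
  have key := hSeqU (A × Bool) (G0 × Sg × Sg) d (Wt S nd Ev AA s)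
    (fun ξ ω => S.Gw AA ω * Real.exp (S.y * (sgn s * hom S.sp AA ω ξ.2.2)))
    (fun _ => 1 + 6 * lam / d + 2 * min zb 1) (101 / 100) (5 * sm 200 d * Real.exp (2 * d))
    (Real.exp d) 10 (by norm_num) (by have := sm_pos 200 d; positivity) (Real.exp_pos _).le
    (by norm_num) (fun _ => ⟨by linarith [hl.1], by linarith [hl.2, min_le_right zb 1]⟩)
    (fun i ω ξ => div_nonneg (sum_nonneg fun ζ _ => mul_nonneg
      (Cas.wt_nonneg ((hP.add _).ok hd3) _ _) (mul_nonneg (mul_nonneg (ind_nonneg _)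
        (ind_nonneg _)) (mul_nonneg ((hmu _).1 _) (hh0 _ _ _ _).1))) hN.le)
    (fun i ω ω' h => by
      have e1 : II i ω = II i ω' := image_congr fun k hk => by
        simp only [h k (mem_filter.1 hk).2]
      have e2 : hh S AA s i ω = hh S AA s i ω' := by
        funext σ r
        rw [hh, hh, ps_congr _ h]
        congr 1
        refine ind_congr (forall₄_congr fun k k' hk hk' => ?_)
        rw [h k hk, h k' hk']
      funext ξ
      simp only [Wt, e1, e2, ps_congr _ h])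
    (fun i ω f π hf hπ hπ1 => by
      have hπ0 : ∀ ξ o, 0 ≤ π ξ o := fun ξ o => le_trans (by norm_num) (hπ ξ o).1
      refine (sum_le_sum fun ξ _ => mul_le_mul_of_nonneg_left
        (wt_succ hd3 hP hmu Ev AA s i ω (π ξ) (hπ0 ξ) ξ) (hf ξ).1).trans ?_
      have h1 := NtailJ.step hSv hTower hBd hd hP hD1 hz hCl (fun _ σ => ps (dl S AA s σ) i ω) (II i ω)
        (fun g σ r => f (g, σ, r) * hh S AA s i ω σ r) (fun g σ r => π (g, σ, r)) _
        (fun _ σ => (ps_abs (dl_abs AA s σ) i ω).trans (by linarith))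
        (card_image_le.trans ((card_le_univ _).trans (by simp)))
        (fun g σ r => ⟨mul_nonneg (hf _).1 (hh0 _ _ _ _).1, mul_le_mul (hf _).2 (hh0 _ _ _ _).2
          (hh0 _ _ _ _).1 (Real.exp_pos _).le⟩)
        (fun g σ r o => ⟨hπ0 _ _, (hπ _ _).2⟩) (fun g σ r => hπ1 _) fun _ _ _ _ => le_rfl
      have h2 := sum_WW (S.add fun _ σ => ps (dl S AA s σ) i ω) (II i ω) (fun g => ind (Ev (nd g)))
        (fun g => S.mu nd (nd g)) (fun g σ r => hh S AA s i ω σ r * avg fun o => π (g.1, σ, r) o *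
          (oA (II i ω) o.1 g * (S.add fun _ σ => ps (dl S AA s σ) i ω).Sv (-2) o.1 g σ *
            (1 + 7 / 4 * ind (S.sp o.1 σ ≠ S.sp o.1 r)))) f S.N
      refine (le_of_eq h2).trans ?_
      simp only [Wt, sum_WW]
      simp only [← mul_assoc] at h1 ⊢
      rw [div_le_iff₀ hN, add_mul, mul_assoc, div_mul_cancel₀ _ hN.ne']
      linarith)
    (fun ξ ω => ⟨mul_nonneg (hG ω).1.le (Real.exp_pos _).le,
      (mul_le_of_le_one_left (Real.exp_pos _).le (hG ω).2.1).trans (Real.exp_le_exp.2 (by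
        have h1 := mul_le_mul_of_nonneg_left ((hs _).trans ((hG ω).2.2.2.2.2.2 ξ.2.2)) hy0
        nlinarith))⟩)
    (fun ξ ω i o => by
      have h1 := mul_le_mul_of_nonneg_left ((hs _).trans ((hG ω).2.2.2.2.2.1 i o ξ.2.2)) hy0
      refine (mul_le_mul ((hG ω).2.2.2.2.1 i o) (Real.exp_le_exp.2 (show _ ≤ 2 * S.y +
        S.y * (sgn s * hom S.sp AA ω ξ.2.2) by linarith)) (Real.exp_pos _).le
        (mul_nonneg (Real.exp_pos _).le (hG ω).1.le)).trans ?_
      rw [Real.exp_add, mul_mul_mul_comm, ← Real.exp_add]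
      exact mul_le_mul_of_nonneg_right (exp_small (by linarith))
        (mul_nonneg (hG ω).1.le (Real.exp_pos _).le))
  refine le_trans (avg_mono fun ω => ?_) (key.trans (add_le_add ?_ ?_))
  · simp only [Wt, sum_WW, ps_top, hh, dl, ← mul_sum]
    rw [← Cas.E_mul]
    refine div_le_div_of_nonneg_right (Cas.E_mono ((hP.add _).ok hd3) fun g σ => le_of_eq ?_) hN.le
    have e : oU (uu ω) g = oI (II d ω) g *
        ind (∀ k k' : Fin d, k.val < d → k'.val < d → (ω k).1 = (ω k').1 → k = k') := by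
      rw [oU, oI, ← ind_and, and_comm]
      exact ind_congr (by simp [II, uu, Function.Injective])
    rw [e, ← Ex_mul, ← Ex_mul, ← Ex_mul]
    refine Ex_congr fun r => ?_
    rw [sum_sub_distrib, ← mul_sum, ← mul_sum, Real.exp_sub, dn, hom]
    simp only [uu]
    field_simp
  · refine (mul_le_of_le_one_right (prod_nonneg fun _ _ => by linarith [hl.1])
      (avg_le_const zero_le_one fun ω => ?_)).trans ?_
    · refine le_trans ?_ (hG ω).2.2.1
      have e := ((hTower _ _ _ S.cas (fun g => nd g.1) hok).2.1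
        fun _ σ => Real.exp (S.y * |hom S.sp AA ω σ|)).1
      simp only [Wt, sum_WW, ps, hh, II, Nat.not_lt_zero, if_false, sum_const_zero, Sys.add_zero']
      rw [← Cas.P_root, Cas.P, e, ← mul_div_assoc, ← Cas.E_mul]
      refine div_le_div_of_nonneg_right (Cas.E_mono hok fun g σ => ?_) hN.le
      rw [← Ex_mul, ← Ex_mul]
      refine Ex_mono (hmu _).1 fun r => ?_
      rw [Real.exp_zero, mul_one]
      have h1 := mul_le_mul_of_nonneg_left (Real.exp_le_exp.2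
        (mul_le_mul_of_nonneg_left (hs (hom S.sp AA ω r)) hy0)) (hG ω).1.le
      have h2 := mul_nonneg (hG ω).1.le (Real.exp_pos (S.y * (sgn s * hom S.sp AA ω r))).le
      exact (mul_le_of_le_one_left (mul_nonneg h2 (ind_nonneg _)) (mul_le_one₀ (ind_le_one _)
        (ind_nonneg _) (ind_le_one _))).trans ((mul_le_of_le_one_right h2 (ind_le_one _)).trans h1)
    · rw [prod_const, card_univ, Fintype.card_fin]
      refine (pow_le_pow_left₀ (by linarith [hl.1]) (show _ ≤ Real.exp (6 * lam / d + 2 * zb) by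
        linarith [Real.add_one_le_exp (6 * lam / d + 2 * zb), min_le_left zb 1]) d).trans ?_
      rw [← Real.exp_nat_mul, Real.exp_le_exp, mul_add, mul_div_cancel₀ _ (by linarith)]
      nlinarith [hD1.1]
  · have h1 : (10 : ℝ) ^ d ≤ Real.exp (9 * d) := by
      rw [mul_comm, Real.exp_nat_mul]
      exact pow_le_pow_left₀ (by norm_num) (by linarith [Real.add_one_le_exp (9 : ℝ)]) d
    have h2 : (d : ℝ) * 5 ≤ Real.exp (5 * d) := by linarith [Real.add_one_le_exp (5 * (d : ℝ))]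
    have h3 := exp_mul_sm (c := 17) (by norm_num) 183 hd3
    have h4 := sm_pos 200 d
    refine le_trans ?_ ((show (183 : ℝ) + 17 = 200 by norm_num) ▸ h3 |>.trans
      (sm_anti (by norm_num) d))
    calc _ = (d : ℝ) * 5 * 10 ^ d * (Real.exp (2 * d) * Real.exp d * sm 200 d) := by ring
      _ ≤ Real.exp (5 * d) * Real.exp (9 * d) * (Real.exp (2 * d) * Real.exp d * sm 200 d) := by
        gcongr
      _ = _ := by
        rw [← mul_assoc, ← mul_assoc, ← Real.exp_add, ← Real.exp_add, ← Real.exp_add]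
        congr 2
        ring

end Pool.Agent.MP_32a90a_pr.D

end

section

set_option autoImplicit false

namespace Pool.Agent.MP_32a90a_pr.D

open Finset Filter Pool.Agent.MP_32a90a_pr Pool.Agent.MP_32a90a_pr.L

namespace RatioJ

variable {Sg A : Type} {d : ℕ}

lemma upd1 (u : Fin d → A) (J : Fin d → Bool) (i : Fin d) (a : A) (c : Bool) :
    (fun k => (Function.update u i a k, Function.update J i c k)) =
      Function.update (fun k => (u k, J k)) i (a, c) := by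
  funext k
  by_cases h : k = i
  · subst h; simp
  · simp [h]

lemma upd2 (u : Fin d → A) (J : Fin d → Bool) (i : Fin d) (a : A) :
    (fun k => (Function.update u i a k, J k)) =
      Function.update (fun k => (u k, J k)) i (a, J i) := by
  rw [← upd1, Function.update_eq_self]

lemma upd3 (u : Fin d → A) (J : Fin d → Bool) (i : Fin d) (c : Bool) :
    (fun k => (u k, Function.update J i c k)) =
      Function.update (fun k => (u k, J k)) i (u i, c) := by
  rw [← upd1, Function.update_eq_self]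

lemma hom_upd (sp : A → Sg → Bool) (AA : Finset (Fin d)) (ω : Fin d → A × Bool) (i : Fin d)
    (o : A × Bool) (σ : Sg) :
    hom sp AA (Function.update ω i o) σ = hom sp AA ω σ + (Jc AA i o.2 * sgn (sp o.1 σ) -
      Jc AA i (ω i).2 * sgn (sp (ω i).1 σ)) := by
  unfold hom
  rw [← add_sum_erase _ _ (mem_univ i), ← add_sum_erase univ _ (mem_univ i),
    Function.update_self, sum_congr rfl (s₂ := univ.erase i)
      (g := fun k => Jc AA k (ω k).2 * sgn (sp (ω k).1 σ))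
      (fun k hk => by rw [Function.update_of_ne (ne_of_mem_erase hk)])]
  ring

/-- flip of one sign -/
def fl (i : Fin d) : (Fin d → Bool) ≃ (Fin d → Bool) :=
  Function.Involutive.toPerm (fun J => Function.update J i (!J i)) fun J => by simp

end RatioJ

open RatioJ

theorem stRatio (hLevA : StLevA) : StRatio := by
  intro Sg A sp d AA G b l σ hd hAA hl hb hG hr u i a
  have hd' : (80 : ℝ) ≤ d := by exact_mod_cast hd
  have e1 : 1 ≤ Real.exp b := Real.one_le_exp hb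
  have e2 : Real.exp (2 * b) = Real.exp b * Real.exp b := by rw [← Real.exp_add, two_mul]
  obtain ⟨R, hR⟩ : ∃ R : ℝ → ℝ, R = fun t => avg fun J : Fin d → Bool =>
    G (fun k => (u k, J k)) * ind (hom sp AA (fun k => (u k, J k)) σ = t) := ⟨_, rfl⟩
  have hR0 : 0 ≤ R l := by
    rw [hR]; exact avg_nonneg fun J => mul_nonneg (hG _) (ind_nonneg _)
  have step : ∀ (c : (Fin d → Bool) → Bool) (δ : ℝ),
      (∀ J : Fin d → Bool, Jc AA i (c J) * sgn (sp a σ) - Jc AA i (J i) * sgn (sp (u i) σ) = δ) →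
      (avg fun J : Fin d → Bool => G (Function.update (fun k => (u k, J k)) i (a, c J))
          * ind (hom sp AA (Function.update (fun k => (u k, J k)) i (a, c J)) σ = l))
        ≤ Real.exp b * R (l - δ) := by
    intro c δ h
    rw [hR, ← avg_mul]
    refine avg_mono fun J => ?_
    rw [hom_upd, h J, ind_congr (eq_sub_iff_add_eq).symm, ← mul_assoc]
    exact mul_le_mul_of_nonneg_right (hr _ _ _) (ind_nonneg _)
  have fin : Real.exp b * R (l - 0) ≤ 3 * Real.exp (2 * b) * R l := by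
    rw [sub_zero, e2]
    exact mul_le_mul_of_nonneg_right (by nlinarith) hR0
  have goal : (avg fun J : Fin d → Bool => G (fun k => (Function.update u i a k, J k))
      * ind (hom sp AA (fun k => (Function.update u i a k, J k)) σ = l))
      ≤ 3 * Real.exp (2 * b) * R l := by
    by_cases h1 : sp a σ = sp (u i) σ
    · simp only [upd2]
      exact (step (fun J => J i) 0 fun J => by rw [h1, sub_self]).trans fin
    have h3 : sgn (sp a σ) = -sgn (sp (u i) σ) := by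
      revert h1
      cases sp a σ <;> cases sp (u i) σ <;> simp [sgn]
    by_cases h2 : i ∈ AA
    · simp only [upd2]
      have h4 : |2 * sgn (sp (u i) σ)| = 2 := by rw [abs_mul, abs_sgn]; norm_num
      refine (step (fun J => J i) (2 * sgn (sp (u i) σ)) fun J => ?_).trans ?_
      · rw [h3]; simp only [Jc, if_pos h2]; ring
      · have h5 := hLevA d AA (fun k => sp (u k) σ) (fun J => G fun k => (u k, J k)) b l
          (l - 2 * sgn (sp (u i) σ)) hAA (fun J => hG _)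
          (fun J j c => by rw [upd3]; exact hr _ _ _) (by linarith)
          ((abs_sub _ _).trans (by rw [h4]; linarith)) (by rw [sub_sub_cancel, h4])
        have h6 : R (l - 2 * sgn (sp (u i) σ)) ≤ 3 * Real.exp b * R l := by
          rw [hR]; exact h5
        calc _ ≤ Real.exp b * (3 * Real.exp b * R l) :=
              mul_le_mul_of_nonneg_left h6 (Real.exp_nonneg _)
          _ = _ := by rw [e2]; ring
    · rw [← avg_equiv (fl i)]
      have h7 : ∀ J : Fin d → Bool, (fun k => (Function.update u i a k, fl i J k)) =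
          Function.update (fun k => (u k, J k)) i (a, !J i) := fun J => upd1 u J i a (!J i)
      simp only [h7]
      refine (step (fun J => !J i) 0 fun J => ?_).trans fin
      rw [h3]
      simp only [Jc, if_neg h2]
      cases J i <;> cases sp (u i) σ <;> simp [sgn]
  rw [hR] at goal
  exact goal

end Pool.Agent.MP_32a90a_pr.D

end

section

set_option autoImplicit false

namespace Pool.Agent.MP_32a90a_pr.D

open Finset Pool.Agent.MP_32a90a_pr Pool.Agent.MP_32a90a_pr.L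

namespace RobJ

/-- a bounded count that is close to m on an inhabited event -/
lemma core {Sg Gm : Type} [Fintype Sg] [Nonempty Sg] [Fintype Gm] {C : Cas Sg Gm} (hC : C.Ok)
    (w K : Gm → Sg → ℝ) (G : Gm → Sg → Prop) (n m r : ℝ) (hw : ∀ γ σ, 0 ≤ w γ σ)
    (hK0 : ∀ γ σ, 0 ≤ K γ σ) (hKn : ∀ γ σ, K γ σ ≤ n) (hG : ∀ γ σ, G γ σ → |K γ σ - m| ≤ r)
    (hex : ∃ γ σ, G γ σ) :
    |(C.E fun γ σ => w γ σ * K γ σ) - m * C.E w|
      ≤ r * C.E w + n * C.E fun γ σ => w γ σ * ind (¬ G γ σ) := by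
  obtain ⟨γ0, σ0, h0⟩ := hex
  have hp : ∀ γ σ, |K γ σ - m| ≤ r + n * ind (¬ G γ σ) := by
    intro γ σ
    by_cases h : G γ σ
    · rw [ind_neg (not_not.2 h), mul_zero, add_zero]; exact hG γ σ h
    · rw [ind_pos h, mul_one]
      have h1 := abs_le.1 (hG γ0 σ0 h0)
      have h2 := hK0 γ σ
      have h3 := hKn γ σ
      have h4 := hK0 γ0 σ0
      have h5 := hKn γ0 σ0
      rw [abs_le]
      constructor <;> linarith [h1.1, h1.2]
  rw [← Cas.E_mul, ← Cas.E_mul, ← Cas.E_mul, ← Cas.E_sub, ← Cas.E_add, abs_le]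
  constructor
  · rw [neg_le, ← neg_one_mul, ← Cas.E_mul]
    refine Cas.E_mono hC fun γ σ => ?_
    have h1 := mul_le_mul_of_nonneg_left (abs_le.1 (hp γ σ)).1 (hw γ σ)
    linarith
  · refine Cas.E_mono hC fun γ σ => ?_
    have h1 := mul_le_mul_of_nonneg_left (abs_le.1 (hp γ σ)).2 (hw γ σ)
    linarith

/-- the final arithmetic -/
lemma arith {X W c e k n ρ dK B FN s : ℝ} (hk : 0 < k) (he : 1 / 2 ≤ e) (hn : n * ρ ≤ 2 * k)
    (hn0 : 0 ≤ n) (hW : 0 ≤ W) (hFN : 0 ≤ FN) {s1 : ℝ} (hs1 : 0 ≤ s1) (hB : B ≤ ρ * s1 * FN)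
    (h1 : 2 * dK ≤ s) (h2 : 4 * s1 ≤ s)
    (h : |k * e * X - c * e * k * W| ≤ dK * k * W + n * B) : |X - c * W| ≤ s * (W + FN) := by
  have e1 : k * e * X - c * e * k * W = k * e * (X - c * W) := by ring
  have he0 : 0 < e := by linarith
  rw [e1, abs_mul, abs_of_pos (mul_pos hk he0)] at h
  have h3 : n * B ≤ 2 * k * (s1 * FN) := by
    calc n * B ≤ n * (ρ * s1 * FN) := mul_le_mul_of_nonneg_left hB hn0
      _ = n * ρ * (s1 * FN) := by ring
      _ ≤ _ := mul_le_mul_of_nonneg_right hn (mul_nonneg hs1 hFN)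
  have h4 : k * (1 / 2 * |X - c * W|) ≤ k * (dK * W + 2 * (s1 * FN)) := by
    have h5 : k * (1 / 2 * |X - c * W|) ≤ k * e * |X - c * W| := by
      rw [mul_assoc]
      exact mul_le_mul_of_nonneg_left (mul_le_mul_of_nonneg_right he (abs_nonneg _)) hk.le
    linarith
  have h5 := le_of_mul_le_mul_left h4 hk
  have h6 := mul_le_mul_of_nonneg_right h1 hW
  have h7 := mul_le_mul_of_nonneg_right h2 hFN
  nlinarith

lemma cnt_le {A : Type} [Fintype A] (p : A → Prop) : ∑ a, ind (p a) ≤ (Fintype.card A : ℝ) := by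
  have := sum_le_sum (s := (univ : Finset A)) fun a _ => ind_le_one (p a)
  simpa using this

lemma cnt_nonneg {A : Type} [Fintype A] (p : A → Prop) : 0 ≤ ∑ a, ind (p a) :=
  sum_nonneg fun a _ => ind_nonneg (p a)

variable {Sg G0 A : Type} [Fintype Sg] [Fintype G0] [Fintype A] [DecidableEq A]

/-- the sum in the Mecke identity as an average -/
lemma sum_eq (S : Sys Sg G0 A) [Nonempty A] (D : G0 → Sg → ℝ) (I : Finset A)
    (f : G0 → Sg → ℝ) (t : ℝ) :
    ∑ a, ((S.add D).E fun g σ => oI I g * oA I a g * f g.1 σ * (S.add D).Sv t a g σ)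
      = Fintype.card A * S.EI D I f fun g σ => avg fun a => oA I a g * (S.add D).Sv t a g σ := by
  have hA : (0 : ℝ) < Fintype.card A := by exact_mod_cast Fintype.card_pos
  rw [Sys.EI, ← Cas.E_mul, ← Cas.E_sum]
  refine Cas.E_congr fun g σ => ?_
  rw [avg, ← mul_div_assoc, mul_div_cancel₀ _ hA.ne', mul_sum]
  exact sum_congr rfl fun a _ => by ring

end RobJ

open RobJ in
theorem stRob (hMecke : StMecke) (hBd : StBd) : StRob := by
  intro Sg G0 A _ _ _ _ _ _ S d c cp dK hd hP hdK0 hdK hbad D I f F hAdm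
  have hd3 : 3 ≤ d := by omega
  have hdR : (1000 : ℝ) ≤ d := by exact_mod_cast hd
  have : Nonempty A := hP.nonempty
  have hA : (0 : ℝ) < Fintype.card A := by exact_mod_cast Fintype.card_pos
  have hρ1 := hP.rho_lt hd3
  have hok := hP.ok hd3
  have hok' := (hP.add D).ok hd3
  obtain ⟨hβ, hx, hy, -, hρ, -, htp, htm, -, htm', -⟩ := hP
  obtain ⟨hD, -, hf0, hfF⟩ := hAdm
  have hF : 0 ≤ F := (hf0 (Classical.arbitrary _) (Classical.arbitrary _)).trans (hfF _ _)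
  have hN := Cas.N_pos hok
  have hrs : S.ρ / 2 ≤ S.rs := by
    unfold Sys.rs
    exact div_le_div_of_nonneg_left hρ.le (by linarith) (by linarith)
  have hk : 0 < S.rs * Fintype.card A := mul_pos (by linarith) hA
  have hn : (Fintype.card A : ℝ) * S.ρ ≤ 2 * (S.rs * Fintype.card A) := by nlinarith
  have hex : ∃ g σ, S.Good c cp dK g σ := by
    by_contra hne
    push Not at hne
    have h1 : (1 : ℝ) ≤ S.P fun g σ => ind (¬ S.Good c cp dK g σ) :=
      Cas.const_le_P hok fun g σ => (ind_pos (hne g σ)).ge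
    have h2 := sm_le_one (k := 7 * S.β + 300) (by linarith) d
    have h3 := sm_pos (7 * S.β + 300) d
    nlinarith
  have hw : ∀ (g : Gam G0 A) σ, 0 ≤ oI I g * f g.1 σ := fun g σ =>
    mul_nonneg (ind_nonneg _) (hf0 _ _)
  have hwF : ∀ (g : Gam G0 A) σ, oI I g * f g.1 σ ≤ F := fun g σ =>
    (mul_le_of_le_one_left (hf0 _ _) (ind_le_one _)).trans (hfF _ _)
  have hW : ((S.add D).cas.E fun g σ => oI I g * f g.1 σ) = S.EI D I f fun _ _ => 1 :=
    Cas.E_congr fun g σ => (mul_one _).symm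
  have hW0 : 0 ≤ S.EI D I f fun _ _ => 1 := hW ▸ Cas.E_nonneg hok' hw
  have hB : ((S.add D).E fun g σ => oI I g * f g.1 σ * ind (¬ S.Good c cp dK g σ))
      ≤ S.ρ * sm 301 d * (F * S.N) := by
    have h1 : ((S.add D).E fun g σ => oI I g * f g.1 σ * ind (¬ S.Good c cp dK g σ))
        ≤ F * (S.add D).E fun g σ => ind (¬ S.Good c cp dK g σ) := by
      rw [← Cas.E_mul]
      exact Cas.E_mono hok' fun g σ => mul_le_mul_of_nonneg_right (hwF g σ) (ind_nonneg _)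
    have h2 := ((hBd Sg (Gam G0 A) S.cas (fun g σ => D g.1 σ) (3 * d) hok
      fun g σ _ => hD g.1 σ).1 (fun g σ => ind (¬ S.Good c cp dK g σ))
        fun _ _ => ind_nonneg _).1
    rw [← Sys.cas_add, Cas.E_eq_P_mul hok] at h2
    have h3 : Real.exp (2 * S.cas.β * (3 * d)) * sm (7 * S.β + 300) d ≤ sm 301 d := by
      have h4 := exp_mul_sm (c := 6 * S.β) (by linarith) (S.β + 300) hd3
      have e1 : 2 * S.cas.β * (3 * d) = 6 * S.β * d := by
        show 2 * S.β * (3 * d) = _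
        ring
      have e2 : 7 * S.β + 300 = S.β + 300 + 6 * S.β := by ring
      rw [e1, e2]
      exact h4.trans (sm_anti (by linarith) d)
    have h4 : ((S.add D).E fun g σ => ind (¬ S.Good c cp dK g σ)) ≤ S.ρ * sm 301 d * S.N := by
      refine h2.trans ?_
      calc _ ≤ Real.exp (2 * S.cas.β * (3 * d)) * (S.ρ * sm (7 * S.β + 300) d * S.N) :=
            mul_le_mul_of_nonneg_left (mul_le_mul_of_nonneg_right hbad hN.le) (Real.exp_pos _).le
        _ = S.ρ * (Real.exp (2 * S.cas.β * (3 * d)) * sm (7 * S.β + 300) d) * S.N := by ring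
        _ ≤ _ := mul_le_mul_of_nonneg_right (mul_le_mul_of_nonneg_left h3 hρ.le) hN.le
    calc _ ≤ F * (S.ρ * sm 301 d * S.N) := h1.trans (mul_le_mul_of_nonneg_left h4 hF)
      _ = _ := by ring
  have hs1 : 2 * dK ≤ sm 290 d := by
    have h1 := mul_sm_le (a := 2) 299 hd3 (by linarith)
    have h2 := sm_anti (k := 290) (k' := 299) (by norm_num) d
    norm_num at h1
    linarith
  have hs2 : 4 * sm 301 d ≤ sm 290 d := by
    have h1 := mul_sm_le (a := 4) 300 hd3 (by linarith)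
    have h2 := sm_anti (k := 290) (k' := 300) (by norm_num) d
    norm_num at h1
    linarith
  have hy0 : 0 < S.y := mul_pos (by linarith) hx
  have hem : 1 / 2 ≤ Real.exp (-(S.y * S.tm)) := by
    have h1 := sm_le_one (k := 300) (by norm_num) d
    have h2 : S.tm ≤ 2 := by nlinarith
    have h3 := Real.add_one_le_exp (-(S.y * S.tm))
    nlinarith
  have hep : 1 / 2 ≤ Real.exp (S.y * S.tp) := by
    have h3 := Real.add_one_le_exp (S.y * S.tp)
    nlinarith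
  obtain ⟨hM1, hM2⟩ := hMecke Sg G0 A (S.add D) I (fun _ => f) hρ1
  rw [sum_eq] at hM1 hM2
  constructor
  · have h1 := core hok' (fun g σ => oI I g * f g.1 σ) S.Km (S.Good c cp dK) (Fintype.card A)
      _ _ hw (fun g σ => cnt_nonneg _) (fun g σ => cnt_le _) (fun g σ h => h.1) hex
    have e1 : ((S.add D).cas.E fun g σ => oI I g * f g.1 σ * S.Km g σ)
        = S.rs * Fintype.card A * Real.exp (-(S.y * S.tm)) *
          S.EI D I f fun g σ => avg fun a => oA I a g * (S.add D).Sv (S.tp + S.tm) a g σ := by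
      refine Eq.trans (Cas.E_congr fun g σ => ?_) (hM1.trans ?_)
      · rw [← mul_sum, mul_assoc]; rfl
      · show S.rs * Real.exp (-(S.y * S.tm)) * (_ * S.EI D I f fun g σ =>
          avg fun a => oA I a g * (S.add D).Sv (S.tp + S.tm) a g σ) = _
        ring
    rw [e1, hW] at h1
    exact arith hk hem hn hA.le hW0 (mul_nonneg hF hN.le) (sm_pos _ _).le hB hs1 hs2 h1
  · have h1 := core hok' (fun g σ => oI I g * f g.1 σ) S.Kp (S.Good c cp dK) (Fintype.card A)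
      _ _ hw (fun g σ => cnt_nonneg _) (fun g σ => cnt_le _) (fun g σ h => h.2) hex
    have e1 : ((S.add D).cas.E fun g σ => oI I g * f g.1 σ * S.Kp g σ)
        = S.rs * Fintype.card A * Real.exp (S.y * S.tp) *
          S.EI D I f fun g σ => avg fun a => oA I a g * (S.add D).Sv (-(S.tp + S.tm)) a g σ := by
      refine Eq.trans (Cas.E_congr fun g σ => ?_) (hM2.trans ?_)
      · rw [← mul_sum, mul_assoc]; rfl
      · show S.rs * Real.exp (S.y * S.tp) * (_ * S.EI D I f fun g σ =>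
          avg fun a => oA I a g * (S.add D).Sv (-(S.tp + S.tm)) a g σ) = _
        ring
    rw [e1, hW] at h1
    exact arith hk hep hn hA.le hW0 (mul_nonneg hF hN.le) (sm_pos _ _).le hB hs1 hs2 h1

end Pool.Agent.MP_32a90a_pr.D

end

section

set_option autoImplicit false
set_option linter.unusedSectionVars false

namespace Pool.Agent.MP_32a90a_pr.D

open Finset Filter Pool.Agent.MP_32a90a_pr Pool.Agent.MP_32a90a_pr.L

namespace ThJ

noncomputable section

lemma avg_split {A : Type} [Fintype A] {d : ℕ} (f : (Fin d → A × Bool) → ℝ) :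
    avg f = avg fun u : Fin d → A => avg fun J : Fin d → Bool => f fun k => (u k, J k) := by
  rw [← avg_equiv (Equiv.arrowProdEquivProdArrow (Fin d) (fun _ => A) (fun _ => Bool)).symm f,
    avg_prod]
  rfl

lemma noninj {A : Type} [Fintype A] [DecidableEq A] [Nonempty A] (d : ℕ) :
    (avg fun u : Fin d → A => ind (¬ Function.Injective u))
      ≤ d * (d * (1 / (Fintype.card A : ℝ))) := by
  have h1 : ∀ u : Fin d → A,
      ind (¬ Function.Injective u) ≤ ∑ i, ∑ j, ind (i ≠ j ∧ u i = u j) := by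
    intro u
    by_cases h : Function.Injective u
    · rw [ind_neg (not_not.2 h)]
      exact sum_nonneg fun _ _ => sum_nonneg fun _ _ => ind_nonneg _
    · rw [ind_pos h]
      obtain ⟨i, j, hij, hne⟩ := Function.not_injective_iff.1 h
      calc (1 : ℝ) = ind (i ≠ j ∧ u i = u j) := (ind_pos ⟨hne, hij⟩).symm
        _ ≤ ∑ j, ind (i ≠ j ∧ u i = u j) :=
          single_le_sum (f := fun j => ind (i ≠ j ∧ u i = u j)) (fun _ _ => ind_nonneg _)
            (mem_univ j)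
        _ ≤ _ := single_le_sum (f := fun i => ∑ j, ind (i ≠ j ∧ u i = u j))
            (fun _ _ => sum_nonneg fun _ _ => ind_nonneg _) (mem_univ i)
  have h2 : ∀ i j : Fin d,
      (avg fun u : Fin d → A => ind (i ≠ j ∧ u i = u j)) ≤ 1 / (Fintype.card A : ℝ) := by
    intro i j
    by_cases hij : i = j
    · refine avg_le_const (by positivity) fun u => ?_
      rw [ind_neg fun h => h.1 hij]; positivity
    · rw [avg_update i]
      refine avg_le_const (by positivity) fun u => ?_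
      have : ∀ o : A, ind (i ≠ j ∧ Function.update u i o i = Function.update u i o j)
          = ind (o = u j) := by
        intro o; apply ind_congr; simp [hij, Function.update_of_ne (Ne.symm hij)]
      simp only [this]
      have h3 : ∑ o : A, ind (o = u j) = 1 := by
        rw [sum_ind]; simp [filter_eq']
      unfold avg
      rw [h3]
  refine (avg_mono h1).trans ?_
  rw [avg_sum]
  calc _ ≤ ∑ _i : Fin d, (d : ℝ) * (1 / (Fintype.card A : ℝ)) := sum_le_sum fun i _ => by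
        rw [avg_sum]
        calc _ ≤ ∑ _j : Fin d, 1 / (Fintype.card A : ℝ) := sum_le_sum fun j _ => h2 i j
          _ = _ := by simp
    _ = _ := by simp

lemma hom_dn {Sg A : Type} {d : ℕ} (sp : A → Sg → Bool) (AA : Finset (Fin d))
    (ω : Fin d → A × Bool) (s : Bool) (σ σ' : Sg) :
    sgn s * hom sp AA ω σ + -2 * dn sp (uu ω) σ' σ ≤ sgn s * hom sp AA ω σ' := by
  unfold hom dn
  rw [mul_sum, mul_sum, mul_sum, ← sum_add_distrib]
  refine sum_le_sum fun i _ => ?_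
  have hJ : Jc AA i (ω i).2 = 1 ∨ Jc AA i (ω i).2 = -1 := by
    unfold Jc; split_ifs
    · exact Or.inr rfl
    · exact sgn_cases _
  show _ + -2 * ind (sp (ω i).1 σ' ≠ sp (ω i).1 σ) ≤ _
  rcases hJ with hJ | hJ <;> rw [hJ] <;> cases s <;> cases sp (ω i).1 σ <;>
    cases sp (ω i).1 σ' <;> simp [sgn, ind] <;> norm_num

variable {Sg G0 A : Type} [Fintype Sg] [Fintype G0] [Fintype A] [DecidableEq A]

/-- root normalisation -/
def Zw (S : Sys Sg G0 A) {d : ℕ} (AA : Finset (Fin d)) (ω : Fin d → A × Bool) : ℝ :=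
  Ex S.cas.root fun σ => Real.exp (S.y * |hom S.sp AA ω σ|)

/-- root probability of the level -/
def mw (S : Sys Sg G0 A) {d : ℕ} (AA : Finset (Fin d)) (l : ℝ) (ω : Fin d → A × Bool) : ℝ :=
  Ex S.cas.root fun σ => ind (hom S.sp AA ω σ = l)

/-- tilted response -/
def Vw (S : Sys Sg G0 A) {d : ℕ} (AA : Finset (Fin d)) (s : Bool) (ω : Fin d → A × Bool) : ℝ :=
  S.P fun g σ => Real.exp (S.y * (sgn s * hom S.sp AA ω σ)) * oU (uu ω) g * S.SN (-2) (uu ω) g σ

/-- weight at a fixed reference configuration -/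
def Gt (S : Sys Sg G0 A) {d : ℕ} (AA : Finset (Fin d)) (s : Bool) (σ' : Sg)
    (ω : Fin d → A × Bool) : ℝ :=
  (1 / Zw S AA ω) ^ 2 * Real.exp (S.y * (sgn s * hom S.sp AA ω σ'))

/-- test function of the sequential bound -/
def Tw (S : Sys Sg G0 A) {d : ℕ} (AA : Finset (Fin d)) (l : ℝ) (s : Bool) (u : Fin d → A)
    (σ' : Sg) : ℝ :=
  avg fun J : Fin d → Bool => Gt S AA s σ' (fun k => (u k, J k)) * mw S AA l fun k => (u k, J k)

variable [Nonempty Sg] [Nonempty G0] {S : Sys Sg G0 A} {d : ℕ} {AA : Finset (Fin d)}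

lemma y_pos (hP : S.Par d) : 0 < S.y := mul_pos (lt_of_lt_of_le one_pos hP.1) hP.2.1

lemma one_le_Zw (hd : 1000 ≤ d) (hP : S.Par d) (ω : Fin d → A × Bool) : 1 ≤ Zw S AA ω :=
  (Cas.root_prob (hP.ok (by omega))).le_Ex fun _ =>
    Real.one_le_exp (mul_nonneg (y_pos hP).le (abs_nonneg _))

lemma mw_nonneg (hd : 1000 ≤ d) (hP : S.Par d) (l : ℝ) (ω : Fin d → A × Bool) :
    0 ≤ mw S AA l ω := Ex_nonneg (Cas.root_prob (hP.ok (by omega))).1 fun _ => ind_nonneg _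

lemma mw_le_one (hd : 1000 ≤ d) (hP : S.Par d) (l : ℝ) (ω : Fin d → A × Bool) :
    mw S AA l ω ≤ 1 := (Cas.root_prob (hP.ok (by omega))).Ex_le fun _ => ind_le_one _

lemma invZ_le (hd : 1000 ≤ d) (hP : S.Par d) (ω : Fin d → A × Bool) :
    0 < 1 / Zw S AA ω ∧ 1 / Zw S AA ω ≤ 1 := by
  have h := one_le_Zw (AA := AA) hd hP ω
  exact ⟨by positivity, by rw [div_le_one (by linarith)]; exact h⟩

/-- one power of the partition function ratio -/
lemma psi_le (hOI : StOI) (hd : 1000 ≤ d) (hP : S.Par d) (ω : Fin d → A × Bool)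
    (hinj : Function.Injective (uu ω)) (s : Bool) :
    (S.P fun g _ => S.Psi AA ω s g ^ S.x) ≤ 2 * Vw S AA s ω := by
  have hok := hP.ok (by omega : 3 ≤ d)
  set D : G0 → Sg → ℝ := fun _ σ => sgn s * hom S.sp AA ω σ with hD
  set I : Finset A := univ.image (uu ω) with hI
  have hcard : I.card ≤ d + 2 := by
    have : I.card ≤ (univ : Finset (Fin d)).card := card_image_le
    rw [card_univ, Fintype.card_fin] at this
    omega
  have h1 := (hOI Sg G0 A (S.add D) d (fun _ => 1) I hd (hP.add D) fun _ => zero_le_one).2 hcard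
  have hok' := (hP.add D).ok (by omega : 3 ≤ d)
  have h2 : 0 ≤ (S.add D).E fun g _ => oI I g * 1 :=
    Cas.E_nonneg hok' fun _ _ => mul_nonneg (ind_nonneg _) zero_le_one
  have h3 : ((S.add D).E fun _ _ => 1) ≤ 2 * (S.add D).E fun g _ => oI I g * 1 := by
    have e : ((S.add D).E fun _ _ => 1) = ((S.add D).E fun g _ => (1 - oI I g) * 1)
        + (S.add D).E fun g _ => oI I g * 1 := by
      rw [← Cas.E_add]; exact Cas.E_congr fun _ _ => by ring
    have := mul_le_mul_of_nonneg_right (sm_le_one (k := 295) (by norm_num) d) h2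
    linarith
  have e1 : (S.E fun g _ => S.Psi AA ω s g ^ S.x) = (S.add D).E fun _ _ => 1 := by
    show _ = (S.add D).cas.E fun _ _ => 1
    rw [Sys.cas_add, Cas.E_add_child _ fun _ => 1]
    exact Cas.E_congr fun _ _ => (mul_one _).symm
  have e2 : ((S.add D).E fun g _ => oI I g * 1) ≤ S.E fun g σ =>
      Real.exp (S.y * (sgn s * hom S.sp AA ω σ)) * oU (uu ω) g * S.SN (-2) (uu ω) g σ := by
    show (S.add D).cas.E _ ≤ _
    rw [Sys.cas_add, Cas.E_add_eq]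
    refine Cas.E_mono hok fun g σ => ?_
    have hoo : oI I g = oU (uu ω) g := by
      unfold oI oU
      apply ind_congr
      simp [hI, hinj]
    have hβ : 0 < S.β := lt_of_lt_of_le one_pos hP.1
    have hx : S.x - 1 ≤ 0 := sub_nonpos.2 hok.2.2.1
    have hq : 0 < Ex (S.nu g) fun σ' => Real.exp (S.β * (-2) * dn S.sp (uu ω) σ' σ) :=
      (Cas.nu_prob g).Ex_pos fun _ => Real.exp_pos _
    have hlow : Real.exp (S.β * (sgn s * hom S.sp AA ω σ)) *
        (Ex (S.nu g) fun σ' => Real.exp (S.β * (-2) * dn S.sp (uu ω) σ' σ))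
        ≤ Ex (S.nu g) fun σ' => Real.exp (S.β * (sgn s * hom S.sp AA ω σ')) := by
      rw [← Ex_mul]
      refine Ex_mono (Cas.nu_prob g).1 fun σ' => ?_
      rw [← Real.exp_add]
      refine Real.exp_le_exp.2 ?_
      have := mul_le_mul_of_nonneg_left (hom_dn S.sp AA ω s σ σ') hβ.le
      linarith
    have hpow := Real.rpow_le_rpow_of_nonpos (mul_pos (Real.exp_pos _) hq) hlow hx
    rw [Real.mul_rpow (Real.exp_pos _).le hq.le, ← Real.exp_mul] at hpow
    have e3 : Real.exp (S.y * (sgn s * hom S.sp AA ω σ))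
        = Real.exp (S.β * (sgn s * hom S.sp AA ω σ))
          * Real.exp (S.β * (sgn s * hom S.sp AA ω σ) * (S.x - 1)) := by
      rw [← Real.exp_add]; congr 1; unfold Sys.y; ring
    have h0 : 0 ≤ Real.exp (S.β * (sgn s * hom S.sp AA ω σ)) * oU (uu ω) g :=
      mul_nonneg (Real.exp_pos _).le (ind_nonneg _)
    have := mul_le_mul_of_nonneg_left hpow h0
    rw [hoo, e3]
    unfold Sys.SN
    refine le_trans (le_of_eq ?_) (this.trans (le_of_eq ?_))
    · show Real.exp (S.β * (sgn s * hom S.sp AA ω σ)) *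
        (Ex (S.nu g) fun σ' => Real.exp (S.β * (sgn s * hom S.sp AA ω σ'))) ^ (S.x - 1)
          * (oU (uu ω) g * 1) = _
      ring
    · ring
  unfold Vw
  show S.cas.E _ / S.cas.N ≤ 2 * (S.cas.E _ / S.cas.N)
  rw [← mul_div_assoc]
  refine div_le_div_of_nonneg_right ?_ (Cas.N_pos hok).le
  have e1' : S.cas.E (fun g _ => S.Psi AA ω s g ^ S.x) = (S.add D).E fun _ _ => 1 := e1
  rw [e1']
  exact h3.trans (mul_le_mul_of_nonneg_left e2 (by norm_num))

lemma Vw_nonneg (hd : 1000 ≤ d) (hP : S.Par d) (s : Bool) (ω : Fin d → A × Bool) :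
    0 ≤ Vw S AA s ω :=
  Cas.P_nonneg (hP.ok (by omega)) fun g _ =>
    mul_nonneg (mul_nonneg (Real.exp_pos _).le (ind_nonneg _))
      (Real.rpow_nonneg (Ex_nonneg (Cas.nu_prob g).1 fun _ => (Real.exp_pos _).le) _)

/-- the inverse normalisation -/
lemma invG_le (hGw : StGw) (hOI : StOI) (hd : 1000 ≤ d) (hP : S.Par d) (ω : Fin d → A × Bool) :
    1 / S.Gw AA ω ≤ ind (¬ Function.Injective (uu ω)) * (2 * Real.exp (S.y * d))
      + (2 * Vw S AA true ω + 2 * Vw S AA false ω) := by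
  have hok := hP.ok (by omega : 3 ≤ d)
  obtain ⟨h0, -, -, h3, -⟩ := hGw Sg G0 A S d d AA ω (by omega) hP
  by_cases hinj : Function.Injective (uu ω)
  · rw [ind_neg (not_not.2 hinj), zero_mul, zero_add]
    unfold Sys.Gw
    rw [one_div_one_div]
    refine le_trans ?_ (add_le_add (psi_le hOI hd hP ω hinj true) (psi_le hOI hd hP ω hinj false))
    show S.cas.P _ ≤ S.cas.P _ + S.cas.P _
    rw [← Cas.P_add]
    refine Cas.P_mono hok fun g _ => ?_
    have hp : ∀ s, 0 ≤ S.Psi AA ω s g := fun s =>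
      Ex_nonneg (Cas.nu_prob g).1 fun _ => (Real.exp_pos _).le
    exact Real.rpow_add_le_add_rpow (hp _) (hp _) hok.2.1.le hok.2.2.1
  · rw [ind_pos hinj, one_mul]
    have h1 := Vw_nonneg (AA := AA) hd hP true ω
    have h2 := Vw_nonneg (AA := AA) hd hP false ω
    have : 1 / S.Gw AA ω ≤ 2 * Real.exp (S.y * d) := by
      rw [div_le_iff₀ h0]; linarith
    linarith

lemma Gt_nonneg (s : Bool) (σ' : Sg) (ω : Fin d → A × Bool) : 0 ≤ Gt S AA s σ' ω :=
  mul_nonneg (sq_nonneg _) (Real.exp_pos _).le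

lemma Gt_le (hGw : StGw) (hd : 1000 ≤ d) (hP : S.Par d) (s : Bool) (σ' : Sg)
    (ω : Fin d → A × Bool) : Gt S AA s σ' ω ≤ Real.exp (S.y * d) := by
  obtain ⟨-, -, -, -, -, -, h6⟩ := hGw Sg G0 A S d d AA ω (by omega) hP
  obtain ⟨z0, z1⟩ := invZ_le (AA := AA) hd hP ω
  have h1 : (1 / Zw S AA ω) ^ 2 ≤ 1 := pow_le_one₀ z0.le z1
  have h2 : Real.exp (S.y * (sgn s * hom S.sp AA ω σ')) ≤ Real.exp (S.y * d) := by
    refine Real.exp_le_exp.2 (mul_le_mul_of_nonneg_left ?_ (y_pos hP).le)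
    refine (le_abs_self _).trans ?_
    rw [abs_mul, abs_sgn, one_mul]; exact h6 σ'
  unfold Gt
  calc _ ≤ 1 * Real.exp (S.y * d) := mul_le_mul h1 h2 (Real.exp_pos _).le zero_le_one
    _ = _ := one_mul _

lemma Gt_update (hGw : StGw) (hd : 1000 ≤ d) (hP : S.Par d) (s : Bool) (σ' : Sg)
    (ω : Fin d → A × Bool) (i : Fin d) (o : A × Bool) :
    Gt S AA s σ' (Function.update ω i o) ≤ Real.exp (6 * S.y) * Gt S AA s σ' ω := by
  obtain ⟨-, -, -, -, -, h5, -⟩ := hGw Sg G0 A S d d AA ω (by omega) hP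
  have hy := (y_pos hP).le
  have hr := Cas.root_prob (hP.ok (by omega : 3 ≤ d))
  have z1 := one_le_Zw (AA := AA) hd hP ω
  have z2 := one_le_Zw (AA := AA) hd hP (Function.update ω i o)
  have hZ : Zw S AA ω ≤ Real.exp (2 * S.y) * Zw S AA (Function.update ω i o) := by
    unfold Zw
    rw [← Ex_mul]
    refine Ex_mono hr.1 fun σ => ?_
    rw [← Real.exp_add]
    refine Real.exp_le_exp.2 ?_
    have h1 := abs_sub_abs_le_abs_sub (hom S.sp AA ω σ) (hom S.sp AA (Function.update ω i o) σ)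
    rw [abs_sub_comm] at h1
    have h2 := h5 i o σ
    nlinarith
  have hZ' : 1 / Zw S AA (Function.update ω i o) ≤ Real.exp (2 * S.y) * (1 / Zw S AA ω) := by
    rw [mul_one_div, div_le_div_iff₀ (by linarith) (by linarith)]
    linarith
  have hsq : (1 / Zw S AA (Function.update ω i o)) ^ 2
      ≤ (Real.exp (2 * S.y) * (1 / Zw S AA ω)) ^ 2 := pow_le_pow_left₀ (by positivity) hZ' 2
  have he : Real.exp (S.y * (sgn s * hom S.sp AA (Function.update ω i o) σ'))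
      ≤ Real.exp (2 * S.y) * Real.exp (S.y * (sgn s * hom S.sp AA ω σ')) := by
    rw [← Real.exp_add]
    refine Real.exp_le_exp.2 ?_
    have h1 : sgn s * (hom S.sp AA (Function.update ω i o) σ' - hom S.sp AA ω σ') ≤ 2 := by
      refine (le_abs_self _).trans ?_
      rw [abs_mul, abs_sgn, one_mul]; exact h5 i o σ'
    nlinarith
  have e6 : Real.exp (6 * S.y) = Real.exp (2 * S.y) ^ 3 := by
    rw [← Real.exp_nat_mul]; congr 1; push_cast; ring
  unfold Gt
  calc _ ≤ (Real.exp (2 * S.y) * (1 / Zw S AA ω)) ^ 2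
        * (Real.exp (2 * S.y) * Real.exp (S.y * (sgn s * hom S.sp AA ω σ'))) :=
        mul_le_mul hsq he (Real.exp_pos _).le (sq_nonneg _)
    _ = _ := by rw [e6]; ring

lemma Tw_eq (l : ℝ) (s : Bool) (u : Fin d → A) (σ' : Sg) :
    Tw S AA l s u σ' = Ex S.cas.root fun σ => avg fun J : Fin d → Bool =>
      Gt S AA s σ' (fun k => (u k, J k)) * ind (hom S.sp AA (fun k => (u k, J k)) σ = l) := by
  rw [Ex_avg]
  exact avg_congr fun J => by rw [Ex_mul]; rfl

lemma Tw_update (hGw : StGw) (hRatio : StRatio) (hd : 1000 ≤ d) (hP : S.Par d) {l : ℝ}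
    (hA : 8 * AA.card ≤ d) (hl : |l| ≤ d / 10) (s : Bool) (u : Fin d → A) (i : Fin d) (a : A)
    (σ' : Sg) : Tw S AA l s (Function.update u i a) σ' ≤ 4 * Tw S AA l s u σ' := by
  have hr := Cas.root_prob (hP.ok (by omega : 3 ≤ d))
  have hy := (y_pos hP).le
  rw [Tw_eq, Tw_eq, ← Ex_mul]
  refine Ex_mono hr.1 fun σ => ?_
  refine (hRatio Sg A S.sp d AA (Gt S AA s σ') (6 * S.y) l σ (by omega) hA hl (by positivity)
    (Gt_nonneg s σ') (Gt_update hGw hd hP s σ') u i a).trans ?_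
  refine mul_le_mul_of_nonneg_right ?_
    (avg_nonneg fun _ => mul_nonneg (Gt_nonneg _ _ _) (ind_nonneg _))
  have h1 : Real.exp (2 * (6 * S.y)) ≤ 1 / (1 - 2 * (6 * S.y)) :=
    Real.exp_bound_div_one_sub_of_interval (by positivity) (by linarith [hP.2.2.1])
  have h2 : 1 / (1 - 2 * (6 * S.y)) ≤ 4 / 3 := by
    rw [div_le_div_iff₀ (by linarith [hP.2.2.1]) (by norm_num)]
    linarith [hP.2.2.1]
  linarith

/-- the sequential bound applied to the test function -/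
lemma avg_V (hGw : StGw) (hRatio : StRatio) (hAllU : StAllU) (hd : 1000 ≤ d) (hP : S.Par d)
    {lam l : ℝ} (hD : S.D1 d lam) (hA : 8 * AA.card ≤ d) (hl : |l| ≤ d / 10) (s : Bool) :
    (avg fun ω : Fin d → A × Bool => (1 / Zw S AA ω) ^ 2 * mw S AA l ω * Vw S AA s ω)
      ≤ Real.exp (8 * lam) * Th0 S.cas.root S.sp S.y AA l + sm 190 d * Real.exp (S.y * d) := by
  have hok := hP.ok (by omega : 3 ≤ d)
  have hr := Cas.root_prob hok
  have h := hAllU Sg G0 A S d d lam (Real.exp (S.y * d)) (fun u _ σ => Tw S AA l s u σ) hd hP hD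
    le_rfl (fun u _ σ => ⟨avg_nonneg fun _ => mul_nonneg (Gt_nonneg _ _ _) (mw_nonneg hd hP _ _),
      avg_le_const (Real.exp_pos _).le fun _ =>
        (mul_le_of_le_one_right (Gt_nonneg _ _ _) (mw_le_one hd hP _ _)).trans
          (Gt_le hGw hd hP _ _ _)⟩)
    (fun u i a _ σ => Tw_update hGw hRatio hd hP hA hl s u i a σ)
  have e1 : (avg fun ω : Fin d → A × Bool => (1 / Zw S AA ω) ^ 2 * mw S AA l ω * Vw S AA s ω)
      = avg fun u : Fin d → A => S.P fun g σ => Tw S AA l s u σ * oU u g * S.SN (-2) u g σ := by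
    rw [avg_split]
    refine avg_congr fun u => ?_
    unfold Vw
    simp only [← Cas.P_mul]
    rw [← Cas.P_avg]
    refine Cas.P_congr fun g σ => ?_
    unfold Tw
    rw [← avg_mul_right, ← avg_mul_right]
    refine avg_congr fun J => ?_
    unfold Gt
    show _ * (_ * oU u g * S.SN (-2) u g σ) = _
    ring
  have e2 : (avg fun u : Fin d → A => S.P fun _ σ => Tw S AA l s u σ)
      ≤ Th0 S.cas.root S.sp S.y AA l := by
    unfold Th0
    rw [avg_split]
    refine avg_mono fun u => ?_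
    show S.cas.P _ ≤ _
    rw [Cas.P_root]
    unfold Tw
    rw [Ex_avg]
    refine avg_mono fun J => ?_
    set ω : Fin d → A × Bool := fun k => (u k, J k) with hω
    show _ ≤ mw S AA l ω / Zw S AA ω
    unfold Gt
    rw [Ex_mul_right, Ex_mul]
    have z1 := one_le_Zw (AA := AA) hd hP ω
    have h1 : (Ex S.cas.root fun σ => Real.exp (S.y * (sgn s * hom S.sp AA ω σ))) ≤ Zw S AA ω := by
      refine Ex_mono hr.1 fun σ => Real.exp_le_exp.2
        (mul_le_mul_of_nonneg_left ((le_abs_self _).trans ?_) (y_pos hP).le)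
      rw [abs_mul, abs_sgn, one_mul]
    calc _ ≤ (1 / Zw S AA ω) ^ 2 * Zw S AA ω * mw S AA l ω :=
          mul_le_mul_of_nonneg_right (mul_le_mul_of_nonneg_left h1 (sq_nonneg _))
            (mw_nonneg hd hP _ _)
      _ = _ := by field_simp
  rw [e1]
  refine h.trans (add_le_add (mul_le_mul_of_nonneg_left e2 (Real.exp_pos _).le) le_rfl)

lemma small (hd : 1000 ≤ d) (hP : S.Par d) :
    (d : ℝ) * (d * (1 / (Fintype.card A : ℝ))) * (2 * Real.exp (S.y * d))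
      + 4 * (sm 190 d * Real.exp (S.y * d)) ≤ sm 90 d := by
  have hd3 : 3 ≤ d := by omega
  have hd' : (1000 : ℝ) ≤ d := by exact_mod_cast hd
  have := hP.nonempty
  have hc : (0 : ℝ) < Fintype.card A := by exact_mod_cast Fintype.card_pos
  have h1 : 1 / (Fintype.card A : ℝ) ≤ sm 300 d := by
    rw [div_le_iff₀ hc]; exact hP.2.2.2.2.2.2.2.2.2.2
  have h2 : Real.exp (S.y * d) ≤ Real.exp (1 * d) :=
    Real.exp_le_exp.2 (mul_le_mul_of_nonneg_right (by linarith [hP.2.2.1]) (by linarith))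
  have a1 : Real.exp (1 * d) * sm 300 d ≤ sm 299 d := by
    have := exp_mul_sm zero_le_one 299 hd3; norm_num at this ⊢; exact this
  have a2 : (d : ℝ) * sm 299 d ≤ sm 298 d := by
    have := mul_sm_le (a := d) 298 hd3 (by linarith); norm_num at this; exact this
  have a3 : (d : ℝ) * sm 298 d ≤ sm 297 d := by
    have := mul_sm_le (a := d) 297 hd3 (by linarith); norm_num at this; exact this
  have a4 : Real.exp (1 * d) * sm 190 d ≤ sm 189 d := by
    have := exp_mul_sm zero_le_one 189 hd3; norm_num at this ⊢; exact this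
  have a5 : 6 * sm 189 d ≤ sm 188 d := by
    have := mul_sm_le (a := 6) 188 hd3 (by linarith); norm_num at this; exact this
  have a6 := sm_anti (k := 189) (k' := 297) (by norm_num) d
  have a7 := sm_anti (k := 90) (k' := 188) (by norm_num) d
  have b1 : 1 / (Fintype.card A : ℝ) * Real.exp (S.y * d) ≤ sm 299 d := by
    refine le_trans ?_ a1
    rw [mul_comm]
    exact mul_le_mul h2 h1 (by positivity) (Real.exp_pos _).le
  have b2 : (d : ℝ) * (d * (1 / (Fintype.card A : ℝ) * Real.exp (S.y * d))) ≤ sm 297 d :=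
    (mul_le_mul_of_nonneg_left ((mul_le_mul_of_nonneg_left b1 (by linarith)).trans a2)
      (by linarith)).trans a3
  have b3 : sm 190 d * Real.exp (S.y * d) ≤ sm 189 d := by
    refine le_trans ?_ a4
    rw [mul_comm]
    exact mul_le_mul_of_nonneg_right h2 (sm_pos _ _).le
  nlinarith

lemma avg_X (hGw : StGw) (hRatio : StRatio) (hAllU : StAllU) (hOI : StOI) (hd : 1000 ≤ d)
    (hP : S.Par d) {lam l : ℝ} (hD : S.D1 d lam) (hA : 8 * AA.card ≤ d) (hl : |l| ≤ d / 10) :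
    (avg fun ω : Fin d → A × Bool => (1 / Zw S AA ω) ^ 2 * mw S AA l ω * (1 / S.Gw AA ω))
      ≤ 4 * Real.exp (8 * lam) * Th0 S.cas.root S.sp S.y AA l + sm 90 d := by
  have := hP.nonempty
  have h1 : (avg fun ω : Fin d → A × Bool => (1 / Zw S AA ω) ^ 2 * mw S AA l ω * (1 / S.Gw AA ω))
      ≤ avg fun ω : Fin d → A × Bool =>
        ind (¬ Function.Injective (uu ω)) * (2 * Real.exp (S.y * d))
          + (2 * ((1 / Zw S AA ω) ^ 2 * mw S AA l ω * Vw S AA true ω)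
            + 2 * ((1 / Zw S AA ω) ^ 2 * mw S AA l ω * Vw S AA false ω)) := by
    refine avg_mono fun ω => ?_
    obtain ⟨z0, z1⟩ := invZ_le (AA := AA) hd hP ω
    have m0 := mw_nonneg (AA := AA) hd hP l ω
    have m1 := mw_le_one (AA := AA) hd hP l ω
    have c0 : 0 ≤ (1 / Zw S AA ω) ^ 2 * mw S AA l ω := mul_nonneg (sq_nonneg _) m0
    have c1 : (1 / Zw S AA ω) ^ 2 * mw S AA l ω ≤ 1 :=
      mul_le_one₀ (pow_le_one₀ z0.le z1) m0 m1
    have h2 := mul_le_mul_of_nonneg_left (invG_le (AA := AA) hGw hOI hd hP ω) c0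
    have h3 : 0 ≤ ind (¬ Function.Injective (uu ω)) * (2 * Real.exp (S.y * d)) :=
      mul_nonneg (ind_nonneg _) (by positivity)
    have h4 := mul_le_of_le_one_left h3 c1
    nlinarith
  rw [avg_add, avg_add, avg_mul, avg_mul, avg_mul_right] at h1
  have h2 : (avg fun ω : Fin d → A × Bool => ind (¬ Function.Injective (uu ω)))
      ≤ d * (d * (1 / (Fintype.card A : ℝ))) := by
    rw [avg_split]
    refine le_trans (le_of_eq (avg_congr fun u => ?_)) (noninj (A := A) d)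
    exact avg_const (α := Fin d → Bool) (ind (¬ Function.Injective u))
  have h3 := avg_V hGw hRatio hAllU hd hP hD hA hl true
  have h4 := avg_V hGw hRatio hAllU hd hP hD hA hl false
  have h5 := small hd hP
  have h6 := mul_le_mul_of_nonneg_right h2 (by positivity : 0 ≤ 2 * Real.exp (S.y * d))
  linarith

end

end ThJ

open ThJ in
theorem stTh (hGw : StGw) (hRatio : StRatio) (hAllU : StAllU) (hOI : StOI) : StTh := by
  intro Sg G0 A _ _ _ _ _ _ S d lam l AA hd hP hD hA hl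
  have hT0 : Th0 S.cas.root S.sp S.y AA l
      = avg fun ω : Fin d → A × Bool => mw S AA l ω / Zw S AA ω := rfl
  have hT : S.Th AA l = avg fun ω : Fin d → A × Bool => S.Gw AA ω * mw S AA l ω := rfl
  refine ⟨?_, ?_⟩
  · rw [hT0, hT]
    refine avg_mono fun ω => ?_
    obtain ⟨-, -, h2, -⟩ := hGw Sg G0 A S d d AA ω (by omega) hP
    have z1 := one_le_Zw (AA := AA) hd hP ω
    have m0 := mw_nonneg (AA := AA) hd hP l ω
    have h3 : S.Gw AA ω * Zw S AA ω ≤ 1 := h2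
    rw [le_div_iff₀ (by linarith)]
    nlinarith
  · have hX := avg_X hGw hRatio hAllU hOI hd hP hD hA hl
    set K : ℝ := 4 * Real.exp (8 * lam) with hK
    have hK1 : 1 ≤ K := by
      have := Real.one_le_exp (by linarith [hD.1] : 0 ≤ 8 * lam)
      linarith
    have h1 : (avg fun ω : Fin d → A × Bool => 2 * K * (mw S AA l ω / Zw S AA ω))
        ≤ avg fun ω : Fin d → A × Bool => K ^ 2 * (S.Gw AA ω * mw S AA l ω)
          + (1 / Zw S AA ω) ^ 2 * mw S AA l ω * (1 / S.Gw AA ω) := by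
      refine avg_mono fun ω => ?_
      obtain ⟨h0, -⟩ := hGw Sg G0 A S d d AA ω (by omega) hP
      have m0 := mw_nonneg (AA := AA) hd hP l ω
      have e : K ^ 2 * (S.Gw AA ω * mw S AA l ω)
          + (1 / Zw S AA ω) ^ 2 * mw S AA l ω * (1 / S.Gw AA ω)
          - 2 * K * (mw S AA l ω / Zw S AA ω)
          = mw S AA l ω / S.Gw AA ω * (K * S.Gw AA ω - 1 / Zw S AA ω) ^ 2 := by
        field_simp
        ring
      have : 0 ≤ mw S AA l ω / S.Gw AA ω * (K * S.Gw AA ω - 1 / Zw S AA ω) ^ 2 := by positivity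
      linarith
    rw [avg_add, avg_mul, avg_mul, ← hT0, ← hT] at h1
    have h2 : K * Th0 S.cas.root S.sp S.y AA l ≤ K * (K * S.Th AA l + sm 90 d) := by
      have := mul_le_mul_of_nonneg_right hK1 (sm_pos 90 d).le
      nlinarith
    exact le_of_mul_le_mul_left h2 (by linarith)

end Pool.Agent.MP_32a90a_pr.D

end

section

set_option autoImplicit false

namespace Pool.Agent.MP_32a90a_pr.D

open Finset Filter Pool.Agent.MP_32a90a_pr Pool.Agent.MP_32a90a_pr.L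

namespace VT2J

lemma bad (hMinor : StMinor) {Sg : Type} [Fintype Sg] {ν ν' : Sg → ℝ} (h : Prob ν) (h' : Prob ν')
    {k t t' j : ℝ} (hk : 0 ≤ k) (h1 : ∀ σ, k * ν' σ ≤ ν σ) (h2 : ∀ σ, k * ν σ ≤ ν' σ)
    (h4 : 2 / 3 ≤ k ^ 4) (ht : t' ≤ k * t) {o : Sg → Bool} {Jn : Sg → Sg → ℝ}
    (hb : BadV ν' o Jn t j (1 / 2)) : BadV ν o Jn t' j (1 / 3) := by
  refine ⟨ht.trans ((mul_le_mul_of_nonneg_left hb.1 hk).trans
    (hMinor Sg ν' ν o k h' h hk h1).1), ?_⟩
  have a1 := (hMinor Sg ν ν' o k h h' hk h2).2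
  have a2 := hb.2
  have a3 : k ^ 2 * (E2 ν' ν' fun σ σ' => ind (o σ ≠ o σ' ∧ Jn σ σ' < j)) ≤
      E2 ν ν fun σ σ' => ind (o σ ≠ o σ' ∧ Jn σ σ' < j) := by
    have e : ∀ f : Sg → ℝ, k * Ex ν' f = Ex (fun σ => k * ν' σ) f := by
      intro f; simp only [Ex, mul_sum, mul_assoc]
    unfold E2
    rw [sq, mul_assoc, ← Ex_mul, e]
    refine (Ex_mono_left h1 fun σ => mul_nonneg hk (Ex_nonneg h'.1 fun _ => ind_nonneg _)).trans
      (Ex_mono h.1 fun σ => ?_)
    rw [e]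
    exact Ex_mono_left h1 fun _ => ind_nonneg _
  have a4 := h.kt_nonneg o
  have a5 : k ^ 2 * (k ^ 2 * kt ν o) ≤ k ^ 2 * kt ν' o :=
    mul_le_mul_of_nonneg_left a1 (sq_nonneg k)
  have a6 := mul_le_mul_of_nonneg_left a2 (sq_nonneg k)
  have a7 := mul_le_mul_of_nonneg_right h4 a4
  nlinarith

lemma sm_le {d : ℕ} (hd : 1 ≤ d) : sm 280 d ≤ 1 / (d : ℝ) ^ 11 := by
  have h1 : (1 : ℝ) ≤ d := by exact_mod_cast hd
  have h2 : 0 ≤ Real.log d := Real.log_nonneg h1
  have h3 : (1 : ℝ) / (d : ℝ) ^ 11 = Real.exp (-(11 * Real.log d)) := by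
    rw [Real.exp_neg, show (11 : ℝ) * Real.log d = Real.log ((d : ℝ) ^ 11) by
      rw [Real.log_pow]; norm_num, Real.exp_log (by positivity), one_div]
  rw [h3]
  refine Real.exp_le_exp.2 (neg_le_neg ?_)
  nlinarith

lemma two_le {d : ℕ} (hd : 2 ≤ d) :
    1 / (d : ℝ) ^ 11 + 1 / (d : ℝ) ^ 11 ≤ 1 / (d : ℝ) ^ 10 := by
  have h1 : (2 : ℝ) ≤ d := by exact_mod_cast hd
  have h2 : (0 : ℝ) < (d : ℝ) ^ 10 := by positivity
  rw [← add_div, div_le_div_iff₀ (by positivity) h2, pow_succ _ 10]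
  nlinarith

variable {Sg G0 A : Type} [Fintype Sg] [Nonempty Sg] [Fintype G0] [Nonempty G0] [Fintype A]
  [DecidableEq A] {S : Sys Sg G0 A} {d : ℕ}

omit [Fintype G0] [Nonempty G0] [Fintype A] in
lemma oU_eq {u : Fin d → A} (hu : Function.Injective u) (g : Gam G0 A) :
    oU u g = oI (univ.image u) g := by
  unfold oU oI
  refine ind_congr ⟨fun h a ha => ?_, fun h => ⟨hu, fun i => h _ (mem_image_of_mem _ (mem_univ i))⟩⟩
  obtain ⟨i, -, rfl⟩ := mem_image.1 ha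
  exact h.2 i

omit [Fintype A] in
lemma card_le (u : Fin d → A) : (univ.image u).card ≤ d + 2 :=
  card_image_le.trans (by simp)

lemma near_P (hNear : StNear) (hd : 1000 ≤ d) (hP : S.Par d) {S' : Sys Sg G0 A}
    {D : G0 → Sg → ℝ} {I : Finset A} {dl : ℝ} (hn : S.Near S' D I dl) (hI : I.card ≤ d + 2)
    (hdl : S.β * dl ≤ sm 300 d) {f f' : Gam G0 A → Sg → ℝ} (hf : ∀ g σ, |f g σ| ≤ 1)
    (hf' : ∀ g σ, |f' g σ| ≤ 1) (h : ∀ g σ, oI I g = 1 → f g σ = f' g σ) :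
    |S'.P f' - (S.add D).P f| ≤ sm 280 d := by
  have := (hNear Sg G0 A S d S' D I dl hd hP hn hI).2.2 hdl (fun _ => 1) f f' 1
    (fun _ => zero_le_one) hf hf' h
  simp only [one_mul, mul_one] at this
  exact this

omit [Nonempty Sg] [Nonempty G0] in
lemma pin_zero {o : Sg → Bool} {AA : Finset (Fin d)} {B : ℝ} {ω : Fin d → A × Bool}
    (h : ¬ Function.Injective (uu ω)) (f : Gam G0 A → Sg → ℝ) : S.Pin o AA B ω f = 0 := by
  have : ∀ g : Gam G0 A, oU (uu ω) g = 0 := fun g => ind_neg fun h0 => h h0.1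
  simp only [Sys.Pin, this, zero_mul, Cas.P, Cas.E, mul_zero, sum_const_zero, zero_div]

lemma abs_mul_le {a b : ℝ} (ha : 0 ≤ a ∧ a ≤ 1) (hb : 0 ≤ b ∧ b ≤ 1) : |a * b| ≤ 1 := by
  rw [abs_of_nonneg (mul_nonneg ha.1 hb.1)]
  exact mul_le_one₀ ha.2 hb.1 hb.2

lemma fam_le (hNear : StNear) (hd : 1000 ≤ d) (hP : S.Par d) {o : Sg → Bool}
    {AA : Finset (Fin d)} {S' : (Fin d → A × Bool) → Sys Sg G0 A} (hI : S.Ins o AA 0 S')
    {f f' : (Fin d → A × Bool) → Gam G0 A → Sg → ℝ} (hf : ∀ ω g σ, 0 ≤ f ω g σ ∧ f ω g σ ≤ 1)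
    (hf' : ∀ ω g σ, f' ω g σ ≤ 1)
    (h : ∀ ω g (k : ℝ), Real.exp (-(1 / 100)) ≤ k →
      (∀ σ, k * (S' ω).nu g σ ≤ (S.add (S.Dv o AA 0 ω)).nu g σ) →
      (∀ σ, k * (S.add (S.Dv o AA 0 ω)).nu g σ ≤ (S' ω).nu g σ) → ∀ σ, f' ω g σ ≤ f ω g σ) :
    Fam S' f' ≤ (avg fun ω => S.Pin o AA 0 ω (f ω)) + sm 280 d := by
  have := hP.nonempty
  rw [← avg_const (α := Fin d → A × Bool) (sm 280 d), ← avg_add]
  refine avg_mono fun ω => ?_
  by_cases hω : Function.Injective (uu ω)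
  swap
  · rw [ind_neg hω, pin_zero hω, zero_mul, zero_add]
    exact (sm_pos _ _).le
  obtain ⟨dl, hdl, hn⟩ := hI ω hω
  rw [ind_pos hω, one_mul]
  have hk : Real.exp (-(1 / 100)) ≤ Real.exp (-(2 * S.β * dl)) := by
    refine Real.exp_le_exp.2 (neg_le_neg ?_)
    have h1 := sm_le_inv (k := 300) (by norm_num) (show 3 ≤ d by omega)
    have h2 : (1000 : ℝ) ≤ d := by exact_mod_cast hd
    have h3 : 1 / ((d : ℝ) + 1) ≤ 1 / 200 := one_div_le_one_div_of_le (by norm_num) (by linarith)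
    linarith
  have hnu := (hNear Sg G0 A S d (S' ω) _ _ dl hd hP hn (card_le _)).2.1
  have h1 : (S' ω).P (f' ω) ≤ (S' ω).P fun g σ =>
      oI (univ.image (uu ω)) g * f ω g σ + (1 - oI (univ.image (uu ω)) g) := by
    refine Cas.P_mono ((hn.par hP).ok (by omega)) fun g σ => ?_
    rcases ind_cases (∀ a ∈ univ.image (uu ω), g.2 a = none) with h0 | h0
    · have h0' : oI (univ.image (uu ω)) g = 0 := h0
      rw [h0', zero_mul, zero_add, sub_zero]
      exact hf' ω g σ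
    · have h0' : oI (univ.image (uu ω)) g = 1 := h0
      rw [h0', one_mul, sub_self, add_zero]
      refine h ω g _ hk (fun σ => ?_) (fun σ => (hnu g σ h0').2) σ
      have h2 := mul_le_mul_of_nonneg_left (hnu g σ h0').1 (Real.exp_pos (-(2 * S.β * dl))).le
      rwa [← mul_assoc, ← Real.exp_add, neg_add_cancel, Real.exp_zero, one_mul] at h2
  have h2 := near_P hNear hd hP hn (card_le _) hdl (f := fun g σ => oU (uu ω) g * f ω g σ)
    (f' := fun g σ => oI (univ.image (uu ω)) g * f ω g σ + (1 - oI (univ.image (uu ω)) g))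
    (fun g σ => abs_mul_le ⟨ind_nonneg _, ind_le_one _⟩ (hf ω g σ)) (fun g σ => by
      have a1 := hf ω g σ
      rcases ind_cases (∀ a ∈ univ.image (uu ω), g.2 a = none) with h0 | h0
      · have h0' : oI (univ.image (uu ω)) g = 0 := h0
        simp [h0']
      · have h0' : oI (univ.image (uu ω)) g = 1 := h0
        rw [h0', one_mul, sub_self, add_zero, abs_of_nonneg a1.1]
        exact a1.2) (fun g σ h0 => by rw [oU_eq hω, h0, sub_self, add_zero])
  have h3 := (abs_le.1 h2).2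
  unfold Sys.Pin
  linarith

lemma pin_le (hNear : StNear) (hd : 1000 ≤ d) (hP : S.Par d) {o : Sg → Bool}
    {AA : Finset (Fin d)} {S' : (Fin d → A × Bool) → Sys Sg G0 A} (hI : S.Ins o AA 0 S')
    {f : (Fin d → A × Bool) → Gam G0 A → Sg → ℝ} (hf : ∀ ω g σ, 0 ≤ f ω g σ ∧ f ω g σ ≤ 1) :
    (avg fun ω => S.Pin o AA 0 ω (f ω)) ≤ Fam S' f + sm 280 d := by
  have := hP.nonempty
  unfold Fam
  rw [← avg_const (α := Fin d → A × Bool) (sm 280 d), ← avg_add]
  refine avg_mono fun ω => ?_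
  by_cases hω : Function.Injective (uu ω)
  swap
  · rw [ind_neg hω, pin_zero hω, zero_mul, zero_add]
    exact (sm_pos _ _).le
  obtain ⟨dl, hdl, hn⟩ := hI ω hω
  rw [ind_pos hω, one_mul]
  have h2 := near_P hNear hd hP hn (card_le _) hdl (f := fun g σ => oU (uu ω) g * f ω g σ)
    (f' := f ω) (fun g σ => abs_mul_le ⟨ind_nonneg _, ind_le_one _⟩ (hf ω g σ))
    (fun g σ => by rw [abs_of_nonneg (hf ω g σ).1]; exact (hf ω g σ).2)
    (fun g σ h0 => by rw [oU_eq hω, h0, one_mul])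
  have h3 := (abs_le.1 h2).1
  unfold Sys.Pin
  linarith

lemma k4 {k : ℝ} (hk : Real.exp (-(1 / 100)) ≤ k) : 2 / 3 ≤ k ^ 4 := by
  have h1 : (99 / 100 : ℝ) ≤ k := by linarith [Real.add_one_le_exp (-(1 / 100 : ℝ))]
  exact le_trans (by norm_num) (pow_le_pow_left₀ (by norm_num) h1 4)

lemma k9 {k β : ℝ} (hk : Real.exp (-(1 / 100)) ≤ k) (hβ : 1 ≤ β) :
    Real.exp (-(9 * β)) ≤ k * Real.exp (-(8 * β)) := by
  refine le_trans ?_ (mul_le_mul_of_nonneg_right hk (Real.exp_pos _).le)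
  rw [← Real.exp_add]
  exact Real.exp_le_exp.2 (by linarith)

lemma ind2 (P Q : Prop) : 0 ≤ ind P * ind Q ∧ ind P * ind Q ≤ 1 := by
  rw [← ind_and]; exact ⟨ind_nonneg _, ind_le_one _⟩

lemma ind3 (P Q R : Prop) : 0 ≤ ind P * ind Q * ind R ∧ ind P * ind Q * ind R ≤ 1 := by
  rw [← ind_and]; exact ind2 _ _

end VT2J

open VT2J in
theorem stVT2 (hFew : StFew) (hNear : StNear) (hMinor : StMinor) : StVT2 := by
  obtain ⟨K, hK, hF⟩ := hFew
  refine ⟨K, hK, ?_⟩
  filter_upwards [hF, eventually_ge_atTop 1000] with d hF hd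
  intro Sg G0 A _ _ _ _ _ _ S c cp lam z zb Nd nd Ev AA fl o S' hP hR hl hS hI hy hz hdz hzb hzb'
    hC hAA
  obtain ⟨h1, h2⟩ := hF Sg G0 A S c cp lam z zb Nd nd Ev AA fl o hP hR hl hS hy hz hdz hzb hzb'
    hC hAA
  have e1 := sm_le (d := d) (by omega)
  have e2 := two_le (d := d) (by omega)
  have e3 : (0 : ℝ) < 1 / (d : ℝ) ^ 11 := by
    have : (0 : ℝ) < d := by exact_mod_cast (show 0 < d by omega)
    positivity
  constructor
  · have a1 := fam_le hNear hd hP hI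
      (f := fun ω g _ => ind (Ev (nd g.1)) * ind (BadV ((S.add (S.Dv o AA 0 ω)).nu g) o
        (dn S.sp (uu ω)) (Real.exp (-(9 * S.β))) (lam / 20) (1 / 3)))
      (f' := fun ω g _ => ind (Ev (nd g.1)) * ind (BadV ((S' ω).nu g) o (dn S.sp (uu ω))
        (Real.exp (-(8 * S.β))) (lam / 20) (1 / 2)))
      (fun _ _ _ => ind2 _ _) (fun _ _ _ => (ind2 _ _).2) fun ω g k hk b1 b2 _ =>
        mul_le_mul_of_nonneg_left (ind_mono (bad hMinor (Cas.nu_prob g) (Cas.nu_prob g)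
          ((Real.exp_pos _).le.trans hk) b1 b2 (k4 hk) (k9 hk hP.1))) (ind_nonneg _)
    have a2 := pin_le hNear hd hP hI
      (f := fun ω _ σ => ind (|hom S.sp AA ω σ| ≤ K * (lam + ell d)))
      fun _ _ _ => ⟨ind_nonneg _, ind_le_one _⟩
    have a3 : min 1 ((avg fun ω : Fin d → A × Bool => S.Pin o AA 0 ω fun _ σ =>
        ind (|hom S.sp AA ω σ| ≤ K * (lam + ell d))) + 1 / (d : ℝ) ^ 10) ≤
        min 1 ((Fam S' fun ω _ σ => ind (|hom S.sp AA ω σ| ≤ K * (lam + ell d)))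
          + 2 / (d : ℝ) ^ 10) := by
      refine min_le_min le_rfl ?_
      have : (2 : ℝ) / (d : ℝ) ^ 10 = 1 / (d : ℝ) ^ 10 + 1 / (d : ℝ) ^ 10 := by ring
      linarith
    have a4 := mul_le_mul_of_nonneg_left a3 (mul_nonneg (zero_le_one.trans hK)
      (Real.exp_pos (-(lam / 500000) + 2 * d * z + K * S.y * (lam + ell d))).le)
    linarith
  · have a1 := fam_le hNear hd hP hI
      (f := fun ω g σ => ind (Ev (nd g.1)) *
        ind (Real.exp (-(9 * S.β)) ≤ mn ((S.add (S.Dv o AA 0 ω)).nu g) o) *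
        ind (K * (lam + ell d) < |hom S.sp AA ω σ|))
      (f' := fun ω g σ => ind (Ev (nd g.1)) * ind (Real.exp (-(8 * S.β)) ≤ mn ((S' ω).nu g) o) *
        ind (K * (lam + ell d) < |hom S.sp AA ω σ|))
      (fun _ _ _ => ind3 _ _ _) (fun _ _ _ => (ind3 _ _ _).2) fun ω g k hk b1 _ _ =>
        mul_le_mul_of_nonneg_right (mul_le_mul_of_nonneg_left (ind_mono fun h0 =>
          (k9 hk hP.1).trans ((mul_le_mul_of_nonneg_left h0 ((Real.exp_pos _).le.trans hk)).trans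
            (hMinor Sg _ _ o k (Cas.nu_prob g) (Cas.nu_prob g) ((Real.exp_pos _).le.trans hk)
              b1).1)) (ind_nonneg _)) (ind_nonneg _)
    linarith

end Pool.Agent.MP_32a90a_pr.D

end

section

set_option autoImplicit false

namespace Pool.Agent.MP_32a90a_pr.D

open Finset Pool.Agent.MP_32a90a_pr Pool.Agent.MP_32a90a_pr.L

namespace VT4J

lemma alg {a a' B : ℝ} (ha : 0 < a) (ha' : 0 < a') (h0 : 0 ≤ B) (h1 : B ≤ 1) :
    B / 2 * ((1 - ((a * Real.exp B - a' * Real.exp (-B))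
      / (a * Real.exp B + a' * Real.exp (-B))) ^ 2) / 2)
      ≤ (a * Real.exp B - a' * Real.exp (-B)) / (a * Real.exp B + a' * Real.exp (-B))
        + (a' * Real.exp B - a * Real.exp (-B)) / (a' * Real.exp B + a * Real.exp (-B)) := by
  have hE : 1 + B ≤ Real.exp B := by linarith [Real.add_one_le_exp B]
  rw [Real.exp_neg]
  generalize Real.exp B = E at hE
  have hE0 : 0 < E := by linarith
  have hu : 1 + 2 * B ≤ E ^ 2 := by nlinarith
  have e1 : ∀ p q : ℝ, 0 < p → 0 < q →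
      (p * E - q * E⁻¹) / (p * E + q * E⁻¹) = (p * E ^ 2 - q) / (p * E ^ 2 + q) := by
    intro p q hp hq
    field_simp
  rw [e1 a a' ha ha', e1 a' a ha' ha]
  generalize E ^ 2 = u at hu
  have hu1 : 1 ≤ u := by linarith
  have d1 : 0 < a * u + a' := by positivity
  have d2 : 0 < a' * u + a := by positivity
  have e2 : (1 - ((a * u - a') / (a * u + a')) ^ 2) / 2 = 2 * a * a' * u / (a * u + a') ^ 2 := by
    field_simp
    ring
  have e3 : (a * u - a') / (a * u + a') + (a' * u - a) / (a' * u + a)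
      = 2 * a * a' * (u ^ 2 - 1) / ((a * u + a') * (a' * u + a)) := by
    field_simp
    ring
  rw [e2, e3, ← mul_div_assoc, div_le_div_iff₀ (by positivity) (by positivity)]
  have k1 : a' * u + a ≤ u * (a * u + a') := by
    nlinarith [mul_nonneg ha.le (sub_nonneg.2 (one_le_mul_of_one_le_of_one_le hu1 hu1))]
  have k0 : 1 + 4 * B ≤ u * u := by
    nlinarith [mul_self_le_mul_self (by linarith : 0 ≤ 1 + 2 * B) hu]
  have k2 : B / 2 * (u * u) ≤ u ^ 2 - 1 := by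
    nlinarith [mul_le_mul_of_nonneg_left k0 (by linarith : 0 ≤ 1 - B / 2),
      mul_nonneg h0 (sub_nonneg.2 h1)]
  have k3 : B / 2 * u * (a' * u + a) ≤ (u ^ 2 - 1) * (a * u + a') :=
    calc B / 2 * u * (a' * u + a) ≤ B / 2 * u * (u * (a * u + a')) :=
          mul_le_mul_of_nonneg_left k1 (by positivity)
      _ = B / 2 * (u * u) * (a * u + a') := by ring
      _ ≤ _ := mul_le_mul_of_nonneg_right k2 d1.le
  have k4 := mul_le_mul_of_nonneg_left k3 (show 0 ≤ 2 * a * a' * (a * u + a') by positivity)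
  nlinarith

/-- all bits are flipped -/
def fp {A : Type} {d : ℕ} : (Fin d → A × Bool) ≃ (Fin d → A × Bool) where
  toFun ω := fun i => ((ω i).1, !(ω i).2)
  invFun ω := fun i => ((ω i).1, !(ω i).2)
  left_inv ω := by funext i; simp
  right_inv ω := by funext i; simp

lemma hom_fp {Sg A : Type} {d : ℕ} (sp : A → Sg → Bool) (ω : Fin d → A × Bool) (σ : Sg) :
    hom sp ∅ (fp ω) σ = -hom sp ∅ ω σ := by
  unfold hom
  rw [← sum_neg_distrib]
  refine sum_congr rfl fun i _ => ?_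
  show Jc ∅ i (!(ω i).2) * sgn (sp (ω i).1 σ) = _
  cases (ω i).2 <;> cases sp (ω i).1 σ <;> simp [Jc, sgn]

lemma hom_le {Sg A : Type} {d : ℕ} (sp : A → Sg → Bool) (ω : Fin d → A × Bool) (σ : Sg) :
    |hom sp ∅ ω σ| ≤ d := by
  refine (abs_sum_le_sum_abs _ _).trans (le_of_eq ?_)
  have : ∀ i, |Jc ∅ i (ω i).2 * sgn (sp (ω i).1 σ)| = 1 := fun i => by
    cases (ω i).2 <;> cases sp (ω i).1 σ <;> simp [Jc, sgn]
  simp only [this, sum_const, card_univ, Fintype.card_fin, nsmul_eq_mul, mul_one]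

variable {Sg G0 A : Type} [Fintype Sg] [Nonempty Sg] [Fintype G0] [Nonempty G0] [Fintype A]
  [DecidableEq A] {S : Sys Sg G0 A} {d : ℕ} {B : ℝ} {fl : Sg → Sg} {o : Sg → Bool}

lemma mm_eq (hPin : StPin) (hβ : S.β = 1) (hs : S.Sym fl o) (ω : Fin d → A × Bool)
    (g : Gam G0 A) : mm ((S.add (S.Dv o ∅ B ω)).nu g) o =
      ((Ex (S.nu g) fun σ => Real.exp (hom S.sp ∅ ω σ)) * Real.exp B
        - (Ex (S.nu g) fun σ => Real.exp (-hom S.sp ∅ ω σ)) * Real.exp (-B))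
      / ((Ex (S.nu g) fun σ => Real.exp (hom S.sp ∅ ω σ)) * Real.exp B
        + (Ex (S.nu g) fun σ => Real.exp (-hom S.sp ∅ ω σ)) * Real.exp (-B)) := by
  have h := (hPin Sg G0 A S d fl o ∅ B ω hs).2 g (fun b _ => sgn b) fun _ _ => rfl
  have s1 : sgn true = 1 := by simp [sgn]
  have s2 : sgn false = -1 := by simp [sgn]
  simp only [Fintype.sum_bool, hβ, s1, s2, one_mul, neg_one_mul, neg_add, Real.exp_add, Ex_neg,
    Ex_mul_right] at h
  rw [sub_eq_add_neg]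
  exact h

lemma gain (hPin : StPin) (hβ : S.β = 1) (hs : S.Sym fl o) (h0 : 0 ≤ B) (h1 : B ≤ 1)
    (ω : Fin d → A × Bool) (g : Gam G0 A) : B / 2 * kt ((S.add (S.Dv o ∅ B ω)).nu g) o
      ≤ mm ((S.add (S.Dv o ∅ B ω)).nu g) o + mm ((S.add (S.Dv o ∅ B (fp ω))).nu g) o := by
  rw [kt, mm_eq hPin hβ hs, mm_eq hPin hβ hs]
  simp only [hom_fp, neg_neg]
  exact alg ((Cas.nu_prob g).Ex_pos fun _ => Real.exp_pos _)
    ((Cas.nu_prob g).Ex_pos fun _ => Real.exp_pos _) h0 h1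

lemma cmpP (hBd : StBd) (hd : 1000 ≤ d) (hp : S.Par d) (hβ : S.β = 1) (h0 : 0 ≤ B) (h1 : B ≤ 1)
    (ω : Fin d → A × Bool) {f : Gam G0 A → ℝ} (hf : ∀ g, |f g| ≤ 1) :
    (S.P fun g _ => f g) - 4 * sm 11 d ≤ (S.add (S.Dv o ∅ B ω)).P fun g _ => f g := by
  have hd3 : 3 ≤ d := by omega
  have ok := hp.ok hd3
  have hD : ∀ (γ : Gam G0 A) σ, 0 < S.cas.p γ → |S.Dv o ∅ B ω γ.1 σ| ≤ d + 1 := fun γ σ _ => by
    rw [Sys.Dv, abs_mul, abs_sgn, one_mul]
    refine (abs_add_le _ _).trans ?_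
    rw [abs_of_nonneg h0]
    linarith [hom_le S.sp ω σ]
  have a := ((hBd Sg _ S.cas _ _ ok hD).2.1 (fun g => 1 + f g)
    fun g => by linarith [(abs_le.1 (hf g)).1]).2.2.2
  rw [← Sys.cas_add, Cas.P_add, Cas.P_add, Cas.P_const ok, Cas.P_const ((hp.add _).ok hd3)] at a
  have b1 : (S.P fun g _ => f g) ≤ 1 := Cas.P_le_const ok fun g _ => (abs_le.1 (hf g)).2
  have b2 : -1 ≤ (S.P fun g _ => f g) := Cas.const_le_P ok fun g _ => (abs_le.1 (hf g)).1
  have b3 := Real.add_one_le_exp (-(2 * S.cas.y * (d + 1)))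
  have b4 : S.cas.y * (d + 1) ≤ sm 11 d := by
    have c1 : S.cas.y = S.x := by
      show S.β * S.x = S.x
      rw [hβ, one_mul]
    have c2 := mul_sm_le (a := (d : ℝ) + 1) 11 hd3 le_rfl
    have c3 := hp.2.2.2.1.trans (sm_anti (k := 11 + 1) (by norm_num) d)
    rw [c1, mul_comm]
    exact (mul_le_mul_of_nonneg_left c3 (by positivity)).trans c2
  have b5 := mul_le_mul_of_nonneg_right b3 (show 0 ≤ 1 + (S.P fun g _ => f g) by linarith)
  have b6 := mul_le_mul_of_nonneg_right b4 (show 0 ≤ 1 + (S.P fun g _ => f g) by linarith)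
  have b7 := mul_le_mul_of_nonneg_left b1 (sm_pos 11 d).le
  nlinarith

lemma near (hNear : StNear) (hd : 1000 ≤ d) (hp : S.Par d) {S' : Sys Sg G0 A} {D : G0 → Sg → ℝ}
    {I : Finset A} {dl : ℝ} (hn : S.Near S' D I dl) (hI : I.card ≤ d + 2)
    (hdl : S.β * dl ≤ sm 300 d) {f : Gam G0 A → Sg → ℝ} (hf : ∀ g σ, |f g σ| ≤ 1) :
    |S'.P f - (S.add D).P f| ≤ sm 11 d := by
  have a := (hNear Sg G0 A S d S' D I dl hd hp hn hI).2.2 hdl (fun _ => 1) f f 1
    (fun _ => zero_le_one) hf hf fun _ _ _ => rfl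
  simp only [one_mul, mul_one] at a
  exact a.trans (sm_anti (by norm_num) d)

lemma wid (hNear : StNear) (hMinor : StMinor) (hOI : StOI) (hd : 1000 ≤ d) (hp : S.Par d)
    {S' : Sys Sg G0 A} {D : G0 → Sg → ℝ} {I : Finset A} {dl : ℝ} (hn : S.Near S' D I dl)
    (hI : I.card ≤ d + 2) (hdl : S.β * dl ≤ sm 300 d) :
    (S'.P fun g _ => kt (S'.nu g) o)
      ≤ ((S.add D).P fun g _ => kt ((S.add D).nu g) o) + 4 * sm 11 d := by
  have hd3 : 3 ≤ d := by omega
  have ok := (hp.add D).ok hd3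
  have s0 := sm_pos 11 d
  have k0 : ∀ (T : Sys Sg G0 A) g, 0 ≤ kt (T.nu g) o := fun T g => (Cas.nu_prob g).kt_nonneg o
  have a1 := (abs_le.1 (near hNear hd hp hn hI hdl (f := fun g _ => kt (S'.nu g) o)
    fun g _ => abs_le.2 ⟨by linarith [k0 S' g], by linarith [kt_le_half (μ := S'.nu g) o]⟩)).2
  have a2 : ((S.add D).P fun g _ => kt (S'.nu g) o) ≤ (S.add D).P fun g _ =>
      kt ((S.add D).nu g) o + 2 * sm 11 d + (1 - oI I g) * 1 := by
    refine Cas.P_mono ok fun g _ => ?_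
    have c0 := kt_le_half (μ := S'.nu g) o
    rcases ind_cases (∀ a ∈ I, g.2 a = none) with c | c
    · rw [show oI I g = 0 from c]
      linarith [k0 (S.add D) g]
    · have c1 := (hMinor Sg (S'.nu g) ((S.add D).nu g) o (Real.exp (-(2 * S.β * dl)))
        (Cas.nu_prob g) (Cas.nu_prob g) (Real.exp_pos _).le fun σ => by
          have c2 := ((hNear Sg G0 A S d S' D I dl hd hp hn hI).2.1 g σ c).1
          rw [Real.exp_neg, inv_mul_le_iff₀ (Real.exp_pos _)]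
          exact c2).2
      rw [← Real.exp_nat_mul] at c1
      have c3 := Real.add_one_le_exp (((2 : ℕ) : ℝ) * -(2 * S.β * dl))
      have c4 := mul_le_mul_of_nonneg_right c3 (k0 S' g)
      have c5 := mul_le_mul_of_nonneg_right (hdl.trans (sm_anti (k := 11) (by norm_num) d))
        (k0 S' g)
      have c6 := mul_le_mul_of_nonneg_left c0 s0.le
      rw [show oI I g = 1 from c]
      push_cast at c1 c4
      nlinarith
  have a3 : ((S.add D).P fun g _ => (1 - oI I g) * 1) ≤ sm 11 d := by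
    have c1 := (hOI Sg G0 A (S.add D) d (fun _ => 1) I hd (hp.add D) fun _ => zero_le_one).2 hI
    have c2 : ((S.add D).E fun g _ => oI I g * 1) ≤ (S.add D).N :=
      Cas.E_mono ok fun g _ => by rw [mul_one]; exact ind_le_one _
    refine (div_le_iff₀ (Cas.N_pos ok)).2 (c1.trans ?_)
    exact mul_le_mul (sm_anti (by norm_num) d) c2
      (Cas.E_nonneg ok fun g _ => mul_nonneg (ind_nonneg _) zero_le_one) s0.le
  rw [Sys.P, Sys.P, Cas.P_add, Cas.P_add, Cas.P_const ok] at a2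
  linarith

end VT4J

open VT4J in
theorem stVT4 (hPin : StPin) (hNear : StNear) (hBd : StBd) (hMinor : StMinor) (hOI : StOI) :
    StVT4 := by
  intro Sg G0 A _ _ _ _ _ _ S d B fl o S' hd hp hβ hs hi h0 h1
  have hd3 : 3 ≤ d := by omega
  have := hp.nonempty
  have ok := hp.ok hd3
  have s0 := sm_pos 11 d
  have s1 : 10 * sm 11 d ≤ sm 10 d := by
    have h2 : (1000 : ℝ) ≤ d := by exact_mod_cast hd
    have := mul_sm_le (a := 10) 10 hd3 (by linarith)
    norm_num at this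
    exact this
  let F : (Fin d → A × Bool) → ℝ := fun ω => ind (Function.Injective (uu ω)) *
    S.P fun g _ => mm ((S.add (S.Dv o ∅ B ω)).nu g) o
  have key : ∀ ω : Fin d → A × Bool, B / 10 * (ind (Function.Injective (uu ω)) *
      (S' ω).P fun g _ => kt ((S' ω).nu g) o) - sm 10 d ≤
      ind (Function.Injective (uu ω)) * ((S' ω).P fun _ σ => sgn (o σ))
        + (F (fp ω) - F ω) * (1 / 2) := by
    intro ω
    have e : uu (fp ω) = uu ω := rfl
    by_cases hω : Function.Injective (uu ω)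
    · obtain ⟨dl, hdl, hn⟩ := hi ω hω
      have hI : (univ.image (uu ω)).card ≤ d + 2 :=
        card_image_le.trans (by rw [card_univ, Fintype.card_fin]; omega)
      have a1 := wid (o := o) hNear hMinor hOI hd hp hn hI hdl
      have a2 := (abs_le.1 (near hNear hd hp hn hI hdl (f := fun _ σ => sgn (o σ))
        fun _ _ => (abs_sgn _).le)).1
      have a3 := cmpP (o := o) hBd hd hp hβ h0 h1 ω
        (f := fun g => mm ((S.add (S.Dv o ∅ B ω)).nu g) o) fun g => (Cas.nu_prob g).abs_mm_le o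
      have a4 : ((S.add (S.Dv o ∅ B ω)).P fun g _ => mm ((S.add (S.Dv o ∅ B ω)).nu g) o)
          = (S.add (S.Dv o ∅ B ω)).P fun _ σ => sgn (o σ) := Cas.P_Ex _
      have k0 : ∀ g, 0 ≤ kt ((S.add (S.Dv o ∅ B ω)).nu g) o :=
        fun g => (Cas.nu_prob g).kt_nonneg o
      have a5 := cmpP (o := o) hBd hd hp hβ h0 h1 ω
        (f := fun g => -1 * kt ((S.add (S.Dv o ∅ B ω)).nu g) o) fun g =>
          abs_le.2 ⟨by linarith [kt_le_half (μ := (S.add (S.Dv o ∅ B ω)).nu g) o],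
            by linarith [k0 g]⟩
      have a6 := Cas.P_mono ok fun g (_ : Sg) => gain hPin hβ hs h0 h1 ω g
      have a7 : 0 ≤ S.P fun g _ => kt ((S.add (S.Dv o ∅ B ω)).nu g) o :=
        Cas.P_nonneg ok fun g _ => k0 g
      rw [Cas.P_mul, Cas.P_add] at a6
      rw [Sys.P, Sys.P, Cas.P_mul, Cas.P_mul] at a5
      have a8 : ((S' ω).P fun g _ => kt ((S' ω).nu g) o)
          ≤ (S.P fun g _ => kt ((S.add (S.Dv o ∅ B ω)).nu g) o) + 8 * sm 11 d := by linarith
      have a9 := mul_le_mul_of_nonneg_left a8 h0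
      have a10 := mul_nonneg h0 a7
      have a11 := mul_le_mul_of_nonneg_right h1 s0.le
      simp only [F, e, ind_pos hω, one_mul]
      linarith
    · simp only [F, e, ind_neg hω, zero_mul]
      linarith
  have h := avg_mono key
  rw [avg_sub, avg_mul, avg_const, avg_add, avg_mul_right, avg_sub, avg_equiv fp F, sub_self,
    zero_mul, add_zero] at h
  exact h

end Pool.Agent.MP_32a90a_pr.D

end
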